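import Pool.Agent.W_MP_825298_an.Defs

open MeasureTheory Set Filter Topology
open scoped ENNReal NNReal BigOperators

namespace HG
variable {d : ℕ}

/-- every slice version: the shear preserves the measure -/
theorem measurePreserving_shear {M : ℝ≥0} {φ : E d → ℝ} (hφ : LipschitzWith M φ) :
    MeasurePreserving (fun X : P d => ((X.1, φ X.1 + X.2) : P d)) volume volume := by
  have h := MeasurePreserving.skew_product (μa := (volume : Measure (E d))) (μb := volume)
    (μc := (volume : Measure ℝ)) (μd := volume) (f := fun x : E d => x)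
    (MeasurePreserving.id _) (g := fun x t => φ x + t)
    (by
      have : Measurable φ := hφ.continuous.measurable
      exact (this.comp measurable_fst).add measurable_snd)
    (Filter.Eventually.of_forall fun x => (measurePreserving_add_left volume (φ x)).map_eq)
  exact h

/-- the shear as a measurable equivalence -/
noncomputable def above_equiv {M : ℝ≥0} {φ : E d → ℝ} (hφ : LipschitzWith M φ) : P d ≃ᵐ P d where
  toFun X := (X.1, φ X.1 + X.2)
  invFun X := (X.1, X.2 - φ X.1)
  left_inv X := by simp
  right_inv X := by simp
  measurable_toFun := by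
    have : Measurable φ := hφ.continuous.measurable
    exact measurable_fst.prodMk ((this.comp measurable_fst).add measurable_snd)
  measurable_invFun := by
    have : Measurable φ := hφ.continuous.measurable
    exact measurable_fst.prodMk (measurable_snd.sub (this.comp measurable_fst))

theorem above_preimage (φ : E d → ℝ) :
    (fun X : P d => ((X.1, φ X.1 + X.2) : P d)) ⁻¹' (above φ) = (univ : Set (E d)) ×ˢ Ioi (0 : ℝ) := by
  ext X
  simp [above]

theorem measurableSet_above {M : ℝ≥0} {φ : E d → ℝ} (hφ : LipschitzWith M φ) : MeasurableSet (above φ) := by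
  have : Measurable φ := hφ.continuous.measurable
  exact measurableSet_lt (this.comp measurable_fst) measurable_snd

/-- Change of variables. The shear `(x,τ) ↦ (x, φ x + τ)` preserves Lebesgue measure, hence
`∫_{above φ} f = ∫_{x} ∫_{τ>0} f (x, φ x + τ)`. -/
theorem integral_above {M : ℝ≥0} {φ : E d → ℝ} (hφ : LipschitzWith M φ) (f : P d → ℝ)
    (hf : IntegrableOn f (above φ)) :
    ∫ X in above φ, f X = ∫ x : E d, ∫ τ in Ioi (0 : ℝ), f (x, φ x + τ) := by
  have hmp := measurePreserving_shear hφ
  have hemb : MeasurableEmbedding (fun X : P d => ((X.1, φ X.1 + X.2) : P d)) :=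
    (above_equiv hφ).measurableEmbedding
  have h1 := hmp.setIntegral_preimage_emb hemb f (above φ)
  have h2 : IntegrableOn (fun X : P d => f (X.1, φ X.1 + X.2)) ((univ : Set (E d)) ×ˢ Ioi (0 : ℝ)) := by
    have := (hmp.integrableOn_comp_preimage hemb (f := f) (s := above φ)).2 hf
    rw [above_preimage] at this
    exact this
  rw [← h1, above_preimage]
  rw [Measure.volume_eq_prod] at h2 ⊢
  rw [setIntegral_prod _ h2, Measure.restrict_univ]

/-- the same for `lintegral`. -/
theorem lintegral_above {M : ℝ≥0} {φ : E d → ℝ} (hφ : LipschitzWith M φ) (f : P d → ℝ≥0∞)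
    (hf : AEMeasurable f (volume.restrict (above φ))) :
    ∫⁻ X in above φ, f X = ∫⁻ x : E d, ∫⁻ τ in Ioi (0 : ℝ), f (x, φ x + τ) := by
  have hmp := measurePreserving_shear hφ
  have hemb : MeasurableEmbedding (fun X : P d => ((X.1, φ X.1 + X.2) : P d)) :=
    (above_equiv hφ).measurableEmbedding
  have h1 := hmp.setLIntegral_comp_preimage_emb hemb f (above φ)
  have h2 : AEMeasurable (fun X : P d => f (X.1, φ X.1 + X.2))
      (volume.restrict ((univ : Set (E d)) ×ˢ Ioi (0 : ℝ))) := by
    have h3 := (hmp.restrict_preimage_emb hemb (above φ))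
    rw [above_preimage] at h3
    exact hf.comp_quasiMeasurePreserving h3.quasiMeasurePreserving
  rw [← h1, above_preimage]
  rw [Measure.volume_eq_prod, ← Measure.prod_restrict, Measure.restrict_univ] at h2 ⊢
  rw [lintegral_prod _ h2]

end HG
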