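import Pool.Agent.W_MP_825298_an.PathDefs

open MeasureTheory Set Filter Topology
open scoped ENNReal NNReal BigOperators

namespace HG
variable {d : ℕ}

/-- records with value at most `S` sum up to at most twice the minimum of the record value and `S` -/
theorem Pw2_rec_sum (κ : ℝ≥0∞) (a w : ℕ → ℝ≥0∞) (S : ℝ≥0∞) (n : ℕ) :
    ∑ l ∈ Finset.range n, ind (Rec κ a w 0 l ∧ a l ≤ S) * a l ≤ 2 * min (rv κ a w 0 n) S := by
  classical
  induction n with
  | zero => simp
  | succ n ih =>
    rw [Finset.sum_range_succ]
    by_cases hr : Rec κ a w 0 n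
    · have hrv : rv κ a w 0 (n + 1) = a n := by
        unfold Rec at hr
        simp only [rv]
        rw [if_pos hr]
      by_cases hs : a n ≤ S
      · have h1 : ind (Rec κ a w 0 n ∧ a n ≤ S) = 1 := by
          unfold ind; rw [if_pos ⟨hr, hs⟩]
        rw [h1, one_mul, hrv, min_eq_left hs, two_mul]
        refine add_le_add_left ?_ _
        calc _ ≤ 2 * min (rv κ a w 0 n) S := ih
          _ ≤ 2 * rv κ a w 0 n := by gcongr; exact min_le_left _ _
          _ ≤ a n := hr.2.le
      · have h1 : ind (Rec κ a w 0 n ∧ a n ≤ S) = 0 := by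
          unfold ind; rw [if_neg (fun h => hs h.2)]
        rw [h1, zero_mul, add_zero, hrv]
        refine ih.trans ?_
        gcongr
        calc rv κ a w 0 n ≤ 2 * rv κ a w 0 n := by
              rw [two_mul]; exact le_self_add
          _ ≤ a n := hr.2.le
    · have h1 : ind (Rec κ a w 0 n ∧ a n ≤ S) = 0 := by
        unfold ind; rw [if_neg (fun h => hr h.1)]
      have hrv : rv κ a w 0 (n + 1) = rv κ a w 0 n := by
        unfold Rec at hr
        simp only [rv]
        rw [if_neg hr]
      rw [h1, zero_mul, add_zero, hrv]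
      exact ih

/-- sum over the records `l` of the value of `w` at the first time after `l` where `κ w > A a_l`.
There `κ w ≤ CW A a_l` (growth; at time `l` itself `κ w_l ≤ a_l ≤ A a_l`); the record values are at least doubling, and for the last
record for which the time exists `A a_l < κ Sw`. -/
theorem w_sum_le {κ A CW : ℝ≥0∞} (hκ : κ ≠ 0) (hκ' : κ ≠ ⊤) (hA : 1 ≤ A) (hA' : A ≠ ⊤) (a w : ℕ → ℝ≥0∞) (ha : ∀ l, a l ≠ ⊤)
    (hgrow : ∀ l, w (l + 1) ≤ CW * w l) (N : ℕ) (Sw : ℝ≥0∞) (hS : ∀ l ≤ N, w l ≤ Sw) :
    ∑ l ∈ Finset.range (N + 1), ind (Rec κ a w 0 l) *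
      ∑ j ∈ Finset.range (N - l + 1), ind (FirstHit (fun i => A * a l < κ * w (l + i)) j) * w (l + j)
      ≤ 2 * CW * Sw := by
  classical
  have hA0 : A ≠ 0 := (lt_of_lt_of_le zero_lt_one hA).ne'
  set S' : ℝ≥0∞ := κ * Sw / A with hS'
  have hAS : A * S' = κ * Sw := ENNReal.mul_div_cancel hA0 hA'
  have key : ∀ l ∈ Finset.range (N + 1),
      κ * (ind (Rec κ a w 0 l) * ∑ j ∈ Finset.range (N - l + 1),
        ind (FirstHit (fun i => A * a l < κ * w (l + i)) j) * w (l + j))
      ≤ CW * A * (ind (Rec κ a w 0 l ∧ a l ≤ S') * a l) := by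
    intro l hl
    have hlN : l ≤ N := by have := Finset.mem_range.1 hl; omega
    by_cases hr : Rec κ a w 0 l
    · by_cases hex : ∃ j ∈ Finset.range (N - l + 1), FirstHit (fun i => A * a l < κ * w (l + i)) j
      · obtain ⟨j, hj, hF⟩ := hex
        have hjN : l + j ≤ N := by have := Finset.mem_range.1 hj; omega
        have hsum : ∑ j ∈ Finset.range (N - l + 1),
            ind (FirstHit (fun i => A * a l < κ * w (l + i)) j) * w (l + j) = w (l + j) := by
          rw [Finset.sum_eq_single_of_mem j hj]
          · have : ind (FirstHit (fun i => A * a l < κ * w (l + i)) j) = 1 := by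
              unfold ind; rw [if_pos hF]
            rw [this, one_mul]
          · intro j' _ hne
            have : ind (FirstHit (fun i => A * a l < κ * w (l + i)) j') = 0 := by
              unfold ind
              rw [if_neg]
              intro hF'
              rcases lt_or_gt_of_ne hne with h | h
              · exact hF.2 j' h hF'.1
              · exact hF'.2 j h hF.1
            rw [this, zero_mul]
        have hj0 : j ≠ 0 := by
          rintro rfl
          have h1 : A * a l < κ * w (l + 0) := hF.1
          rw [add_zero] at h1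
          have h2 : κ * w l ≤ a l := hr.1
          have h3 : a l ≤ A * a l := le_mul_of_one_le_left' hA
          exact absurd h1 (not_lt.2 (h2.trans h3))
        obtain ⟨i, rfl⟩ := Nat.exists_eq_succ_of_ne_zero hj0
        have h1 : A * a l < κ * w (l + (i + 1)) := hF.1
        have h2 : κ * w (l + i) ≤ A * a l := not_lt.1 (hF.2 i (Nat.lt_succ_self i))
        have h3 : κ * w (l + (i + 1)) ≤ CW * (A * a l) := by
          calc κ * w (l + (i + 1)) ≤ κ * (CW * w (l + i)) := by
                gcongr; exact hgrow (l + i)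
            _ = CW * (κ * w (l + i)) := by ring
            _ ≤ CW * (A * a l) := by gcongr
        have h4 : a l ≤ S' := by
          rw [hS', ENNReal.le_div_iff_mul_le (Or.inl hA0) (Or.inl hA'), mul_comm]
          refine h1.le.trans ?_
          gcongr
          exact hS _ hjN
        have e1 : ind (Rec κ a w 0 l) = 1 := by unfold ind; rw [if_pos hr]
        have e2 : ind (Rec κ a w 0 l ∧ a l ≤ S') = 1 := by unfold ind; rw [if_pos ⟨hr, h4⟩]
        rw [hsum, e1, e2, one_mul, one_mul]
        calc _ ≤ CW * (A * a l) := h3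
          _ = CW * A * a l := by ring
      · have hsum : ∑ j ∈ Finset.range (N - l + 1),
            ind (FirstHit (fun i => A * a l < κ * w (l + i)) j) * w (l + j) = 0 := by
          refine Finset.sum_eq_zero fun j hj => ?_
          have : ind (FirstHit (fun i => A * a l < κ * w (l + i)) j) = 0 := by
            unfold ind
            rw [if_neg fun h => hex ⟨j, hj, h⟩]
          rw [this, zero_mul]
        rw [hsum, mul_zero, mul_zero]
        exact zero_le
    · have e1 : ind (Rec κ a w 0 l) = 0 := by unfold ind; rw [if_neg hr]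
      rw [e1, zero_mul, mul_zero]
      exact zero_le
  have htot : κ * (∑ l ∈ Finset.range (N + 1), ind (Rec κ a w 0 l) *
      ∑ j ∈ Finset.range (N - l + 1), ind (FirstHit (fun i => A * a l < κ * w (l + i)) j) * w (l + j))
      ≤ κ * (2 * CW * Sw) := by
    calc _ = ∑ l ∈ Finset.range (N + 1), κ * (ind (Rec κ a w 0 l) *
      ∑ j ∈ Finset.range (N - l + 1), ind (FirstHit (fun i => A * a l < κ * w (l + i)) j) * w (l + j)) := by
          rw [Finset.mul_sum]
      _ ≤ ∑ l ∈ Finset.range (N + 1), CW * A * (ind (Rec κ a w 0 l ∧ a l ≤ S') * a l) :=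
          Finset.sum_le_sum key
      _ = CW * A * ∑ l ∈ Finset.range (N + 1), ind (Rec κ a w 0 l ∧ a l ≤ S') * a l := by
          rw [Finset.mul_sum]
      _ ≤ CW * A * (2 * min (rv κ a w 0 (N + 1)) S') := by
          gcongr; exact Pw2_rec_sum κ a w S' (N + 1)
      _ ≤ CW * A * (2 * S') := by gcongr; exact min_le_right _ _
      _ = CW * 2 * (A * S') := by ring
      _ = κ * (2 * CW * Sw) := by rw [hAS]; ring
  exact (ENNReal.mul_le_mul_iff_right hκ hκ').1 htot

end HG
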