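import Pool.Agent.W_MP_825298_an.PathDefs

open MeasureTheory Set Filter Topology
open scoped ENNReal NNReal BigOperators

namespace HG
variable {d : ℕ}

theorem Pw3_ind_true {p : Prop} (h : p) : ind p = 1 := by
  unfold ind
  rw [if_pos h]

theorem Pw3_ind_false {p : Prop} (h : ¬ p) : ind p = 0 := by
  unfold ind
  rw [if_neg h]

theorem Pw3_ind_mul (p q : Prop) : ind p * ind q = ind (p ∧ q) := by
  by_cases hp : p
  · by_cases hq : q
    · rw [Pw3_ind_true hp, Pw3_ind_true hq, Pw3_ind_true (And.intro hp hq), one_mul]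
    · have h1 : ¬ (p ∧ q) := fun h => hq h.2
      rw [Pw3_ind_false hq, Pw3_ind_false h1, mul_zero]
  · have h1 : ¬ (p ∧ q) := fun h => hp h.1
    rw [Pw3_ind_false hp, Pw3_ind_false h1, zero_mul]

theorem Pw3_sum_ind {ι : Type} (s : Finset ι) (Q : ι → Prop) [DecidablePred Q] :
    ∑ l ∈ s, ind (Q l) = ((s.filter Q).card : ℝ≥0∞) := by
  rw [Finset.card_filter]
  push_cast
  refine Finset.sum_congr rfl fun l _ => ?_
  by_cases h : Q l
  · rw [Pw3_ind_true h, if_pos h]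
  · rw [Pw3_ind_false h, if_neg h]

/-- exchange of the summations -/
theorem Pw3_swap (R : ℕ → Prop) (Q : ℕ → ℕ → Prop) (g : ℕ → ℝ≥0∞) (N T C : ℕ) (n : ℕ → ℕ)
    (hn : ∀ l ≤ N, l + n l ≤ T)
    (hC : ∀ p < T, ∀ s : Finset ℕ, (∀ l ∈ s, R l ∧ l ≤ p ∧ Q l (p - l)) → s.card ≤ C) :
    ∑ l ∈ Finset.range (N + 1), ind (R l) * ∑ i ∈ Finset.range (n l), ind (Q l i) * g (l + i)
      ≤ (C : ℝ≥0∞) * ∑ i ∈ Finset.range T, g i := by
  classical
  have h1 : ∀ l ∈ Finset.range (N + 1),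
      ∑ i ∈ Finset.range (n l), ind (Q l i) * g (l + i) ≤
      ∑ p ∈ Finset.range T, ind (l ≤ p ∧ Q l (p - l)) * g p := by
    intro l hl
    have hlN : l ≤ N := Nat.lt_succ_iff.1 (Finset.mem_range.1 hl)
    have h2 : ∑ i ∈ Finset.range (n l), ind (Q l i) * g (l + i) =
        ∑ p ∈ (Finset.range (n l)).map (addLeftEmbedding l),
          ind (l ≤ p ∧ Q l (p - l)) * g p := by
      rw [Finset.sum_map]
      refine Finset.sum_congr rfl fun i _ => ?_
      simp only [addLeftEmbedding_apply, Nat.add_sub_cancel_left, Nat.le_add_right, true_and]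
    rw [h2]
    refine Finset.sum_le_sum_of_subset ?_
    intro p hp
    rw [Finset.mem_map] at hp
    obtain ⟨i, hi, rfl⟩ := hp
    rw [Finset.mem_range] at hi ⊢
    have := hn l hlN
    simp only [addLeftEmbedding_apply]
    omega
  calc ∑ l ∈ Finset.range (N + 1), ind (R l) * ∑ i ∈ Finset.range (n l), ind (Q l i) * g (l + i)
      ≤ ∑ l ∈ Finset.range (N + 1), ind (R l) *
          ∑ p ∈ Finset.range T, ind (l ≤ p ∧ Q l (p - l)) * g p :=
        Finset.sum_le_sum fun l hl => mul_le_mul_right (h1 l hl) _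
    _ = ∑ p ∈ Finset.range T,
          (∑ l ∈ Finset.range (N + 1), ind (R l ∧ l ≤ p ∧ Q l (p - l))) * g p := by
        simp only [Finset.mul_sum, Finset.sum_mul]
        rw [Finset.sum_comm]
        refine Finset.sum_congr rfl fun p _ => Finset.sum_congr rfl fun l _ => ?_
        rw [← mul_assoc, Pw3_ind_mul]
    _ ≤ ∑ p ∈ Finset.range T, (C : ℝ≥0∞) * g p := by
        refine Finset.sum_le_sum fun p hp => mul_le_mul_left ?_ _
        rw [Pw3_sum_ind]
        have h3 := hC p (Finset.mem_range.1 hp) _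
          (fun l hl => (Finset.mem_filter.1 hl).2 : ∀ l ∈ (Finset.range (N + 1)).filter
            (fun l => R l ∧ l ≤ p ∧ Q l (p - l)), R l ∧ l ≤ p ∧ Q l (p - l))
        exact_mod_cast h3
    _ = (C : ℝ≥0∞) * ∑ i ∈ Finset.range T, g i := by rw [Finset.mul_sum]

theorem Pw3_cnt_succ_rec {κ : ℝ≥0∞} {a w : ℕ → ℝ≥0∞} {v0 : ℝ≥0∞} {l : ℕ}
    (h : Rec κ a w v0 l) : cnt κ a w v0 (l + 1) = cnt κ a w v0 l + 1 := by
  rw [cnt, if_pos h]

theorem Pw3_cnt_succ_not {κ : ℝ≥0∞} {a w : ℕ → ℝ≥0∞} {v0 : ℝ≥0∞} {l : ℕ}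
    (h : ¬ Rec κ a w v0 l) : cnt κ a w v0 (l + 1) = cnt κ a w v0 l := by
  rw [cnt, if_neg h, add_zero]

theorem Pw3_rv_succ_rec {κ : ℝ≥0∞} {a w : ℕ → ℝ≥0∞} {v0 : ℝ≥0∞} {l : ℕ}
    (h : Rec κ a w v0 l) : rv κ a w v0 (l + 1) = a l := by
  unfold Rec at h
  rw [rv, if_pos h]

theorem Pw3_rv_succ_not {κ : ℝ≥0∞} {a w : ℕ → ℝ≥0∞} {v0 : ℝ≥0∞} {l : ℕ}
    (h : ¬ Rec κ a w v0 l) : rv κ a w v0 (l + 1) = rv κ a w v0 l := by
  unfold Rec at h
  rw [rv, if_neg h]

theorem Pw3_cnt_mono (κ : ℝ≥0∞) (a w : ℕ → ℝ≥0∞) (v0 : ℝ≥0∞) : Monotone (cnt κ a w v0) := by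
  refine monotone_nat_of_le_succ fun l => ?_
  by_cases h : Rec κ a w v0 l
  · rw [Pw3_cnt_succ_rec h]; exact Nat.le_succ _
  · rw [Pw3_cnt_succ_not h]

/-- growth of the record values -/
theorem Pw3_grow (κ : ℝ≥0∞) (a w : ℕ → ℝ≥0∞) (v0 : ℝ≥0∞) {l : ℕ} (hl : Rec κ a w v0 l) (m : ℕ) :
    ∃ k, cnt κ a w v0 (l + 1 + m) = cnt κ a w v0 l + 1 + k ∧
      2 ^ k * a l ≤ rv κ a w v0 (l + 1 + m) := by
  induction m with
  | zero =>
    refine ⟨0, ?_, ?_⟩
    · rw [add_zero, Pw3_cnt_succ_rec hl]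
    · rw [add_zero, Pw3_rv_succ_rec hl, pow_zero, one_mul]
  | succ m ih =>
    obtain ⟨k, hk1, hk2⟩ := ih
    by_cases h : Rec κ a w v0 (l + 1 + m)
    · refine ⟨k + 1, ?_, ?_⟩
      · rw [← add_assoc, Pw3_cnt_succ_rec h, hk1, add_assoc (_ + 1) k 1]
      · rw [← add_assoc, Pw3_rv_succ_rec h]
        refine le_trans ?_ h.2.le
        rw [pow_succ', mul_assoc]
        exact mul_le_mul_right hk2 _
    · refine ⟨k, ?_, ?_⟩
      · rw [← add_assoc, Pw3_cnt_succ_not h, hk1]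
      · rw [← add_assoc, Pw3_rv_succ_not h]
        exact hk2

theorem Pw3_grow_rec (κ : ℝ≥0∞) (a w : ℕ → ℝ≥0∞) (v0 : ℝ≥0∞) {l l' : ℕ}
    (hl : Rec κ a w v0 l) (hl' : Rec κ a w v0 l') (hlt : l < l') {L : ℕ}
    (hL : cnt κ a w v0 l' = cnt κ a w v0 l + L) : 2 ^ L * a l < a l' := by
  obtain ⟨m, rfl⟩ := Nat.exists_eq_add_of_le (Nat.succ_le_of_lt hlt)
  obtain ⟨k, hk1, hk2⟩ := Pw3_grow κ a w v0 hl m
  have hk : L = k + 1 := by
    have : cnt κ a w v0 (l + 1 + m) = cnt κ a w v0 l + L := hL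
    omega
  rw [hk, pow_succ', mul_assoc]
  exact lt_of_le_of_lt (mul_le_mul_right hk2 _) hl'.2

/-- intermediate values of the number of records -/
theorem Pw3_ivt (κ : ℝ≥0∞) (a w : ℕ → ℝ≥0∞) (v0 : ℝ≥0∞) {x c : ℕ} (hx : cnt κ a w v0 x ≤ c)
    (m : ℕ) (hy : c < cnt κ a w v0 (x + m)) :
    ∃ l', x ≤ l' ∧ l' < x + m ∧ Rec κ a w v0 l' ∧ cnt κ a w v0 l' = c := by
  induction m with
  | zero =>
    rw [add_zero] at hy
    omega
  | succ m ih =>
    by_cases h : c < cnt κ a w v0 (x + m)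
    · obtain ⟨l', h1, h2, h3, h4⟩ := ih h
      exact ⟨l', h1, by omega, h3, h4⟩
    · have hr : Rec κ a w v0 (x + m) := by
        by_contra hr
        rw [← add_assoc, Pw3_cnt_succ_not hr] at hy
        exact h hy
      rw [← add_assoc, Pw3_cnt_succ_rec hr] at hy
      exact ⟨x + m, by omega, by omega, hr, by omega⟩

/-- few records have a large number -/
theorem Pw3_card (κ : ℝ≥0∞) (a w : ℕ → ℝ≥0∞) (v0 : ℝ≥0∞) (q L : ℕ) (s : Finset ℕ)
    (hs : ∀ l ∈ s, l < q ∧ Rec κ a w v0 l ∧ cnt κ a w v0 q ≤ cnt κ a w v0 l + L) :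
    s.card ≤ L := by
  have hmap : ∀ l ∈ s, cnt κ a w v0 l ∈
      Finset.Ico (cnt κ a w v0 q - L) (cnt κ a w v0 q) := by
    intro l hl
    obtain ⟨h1, h2, h3⟩ := hs l hl
    rw [Finset.mem_Ico]
    have h4 := Pw3_cnt_mono κ a w v0 (Nat.succ_le_of_lt h1)
    have h5 := Pw3_cnt_succ_rec h2
    have h6 : cnt κ a w v0 l + 1 ≤ cnt κ a w v0 q := by
      rw [← h5]; exact h4
    omega
  have hinj : ∀ l ∈ s, ∀ l' ∈ s, cnt κ a w v0 l = cnt κ a w v0 l' → l = l' := by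
    intro l hl l' hl' heq
    obtain ⟨-, h2, -⟩ := hs l hl
    obtain ⟨-, h2', -⟩ := hs l' hl'
    by_contra hne
    rcases lt_or_gt_of_ne hne with h | h
    · have h4 := Pw3_cnt_mono κ a w v0 (Nat.succ_le_of_lt h)
      have h5 := Pw3_cnt_succ_rec h2
      have h6 : cnt κ a w v0 l + 1 ≤ cnt κ a w v0 l' := by rw [← h5]; exact h4
      omega
    · have h4 := Pw3_cnt_mono κ a w v0 (Nat.succ_le_of_lt h)
      have h5 := Pw3_cnt_succ_rec h2'
      have h6 : cnt κ a w v0 l' + 1 ≤ cnt κ a w v0 l := by rw [← h5]; exact h4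
      omega
  refine (Finset.card_le_card_of_injOn _ hmap hinj).trans ?_
  rw [Nat.card_Ico]
  omega

/-- counting: for fixed `p` the number of records `l ≤ p` such that no `j` with `l + j + J ≤ p` is good with
`a (l+j) > 2^L a l` is at most `L + J`: among the records `≤ p - J` only the last `L` can occur (values at least double), and there
are at most `J` records in `(p-J, p]`. -/
theorem count_hit (κ : ℝ≥0∞) (a w g : ℕ → ℝ≥0∞) (ha : ∀ l, a l ≠ ⊤) (N L J : ℕ) (hL : 1 ≤ L) :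
    ∑ l ∈ Finset.range (N + 1), ind (Rec κ a w 0 l) *
      ∑ i ∈ Finset.range (N - l + J),
        ind (∀ j, j + J ≤ i → ¬ Hit κ (2 ^ L) (fun s => a (l + s)) (fun s => w (l + s)) (a l) j) * g (l + i)
      ≤ ((L + J : ℕ) : ℝ≥0∞) * ∑ i ∈ Finset.range (N + J), g i := by
  classical
  refine Pw3_swap (fun l => Rec κ a w 0 l) (fun l i => ∀ j, j + J ≤ i →
    ¬ Hit κ (2 ^ L) (fun s => a (l + s)) (fun s => w (l + s)) (a l) j) g N (N + J) (L + J)
    (fun l => N - l + J) (fun l hl => by omega) ?_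
  intro p _ s hs
  have h1 : (s.filter (fun l => l < p + 1 - J)).card ≤ L := by
    refine Pw3_card κ a w 0 (p + 1 - J) L _ ?_
    intro l hl
    rw [Finset.mem_filter] at hl
    obtain ⟨hls, hlq⟩ := hl
    obtain ⟨h1, h2, h3⟩ := hs l hls
    refine ⟨hlq, h1, ?_⟩
    by_contra hcon
    rw [not_le] at hcon
    have h4 : cnt κ a w 0 (l + 1) ≤ cnt κ a w 0 l + L := by
      rw [Pw3_cnt_succ_rec h1]; omega
    have h5 : p + 1 - J = l + 1 + (p - J - l) := by omega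
    rw [h5] at hcon
    obtain ⟨l', h6, h7, h8, h9⟩ := Pw3_ivt κ a w 0 h4 _ hcon
    have h10 := Pw3_grow_rec κ a w 0 h1 h8 (by omega) h9
    have e : l + (l' - l) = l' := by omega
    refine h3 (l' - l) (by omega) ⟨?_, ?_⟩
    · have h11 : κ * w l' ≤ a l' := h8.1
      show κ * w (l + (l' - l)) ≤ a (l + (l' - l))
      rw [e]
      exact h11
    · show 2 ^ L * a l < a (l + (l' - l))
      rw [e]
      exact h10
  have h2 : (s.filter (fun l => ¬ l < p + 1 - J)).card ≤ J := by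
    have hsub : s.filter (fun l => ¬ l < p + 1 - J) ⊆ Finset.Ico (p + 1 - J) (p + 1) := by
      intro l hl
      rw [Finset.mem_filter] at hl
      obtain ⟨hls, hlq⟩ := hl
      obtain ⟨h1, h2, h3⟩ := hs l hls
      rw [Finset.mem_Ico]
      omega
    refine (Finset.card_le_card hsub).trans ?_
    rw [Nat.card_Ico]
    omega
  have h3 := Finset.card_filter_add_card_filter_not (s := s) (fun l => l < p + 1 - J)
  omega

/-- restart at a record -/
theorem Pw3_restart (κ : ℝ≥0∞) (a w : ℕ → ℝ≥0∞) {l : ℕ} (hl : Rec κ a w 0 l) (j : ℕ) :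
    cnt κ a w 0 (l + (j + 1)) = cnt κ (fun s => a (l + s)) (fun s => w (l + s)) (a l) (j + 1) +
      cnt κ a w 0 l + 1 ∧
    rv κ a w 0 (l + (j + 1)) = rv κ (fun s => a (l + s)) (fun s => w (l + s)) (a l) (j + 1) := by
  induction j with
  | zero =>
    have hnot : ¬ Rec κ (fun s => a (l + s)) (fun s => w (l + s)) (a l) 0 := by
      intro h
      have h2 : 2 * a l < a (l + 0) := h.2
      rw [add_zero] at h2
      have h3 : a l ≤ 2 * a l := by
        rw [two_mul]; exact le_self_add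
      exact absurd (lt_of_le_of_lt h3 h2) (lt_irrefl _)
    rw [zero_add, Pw3_cnt_succ_rec hl, Pw3_rv_succ_rec hl]
    have e1 := Pw3_cnt_succ_not hnot
    have e2 := Pw3_rv_succ_not hnot
    rw [zero_add] at e1 e2
    rw [e1, e2]
    constructor
    · simp [cnt]
    · simp [rv]
  | succ j ih =>
    obtain ⟨ih1, ih2⟩ := ih
    have hiff : Rec κ a w 0 (l + (j + 1)) ↔
        Rec κ (fun s => a (l + s)) (fun s => w (l + s)) (a l) (j + 1) := by
      unfold Rec Good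
      rw [ih2]
    by_cases h : Rec κ a w 0 (l + (j + 1))
    · have h' := hiff.1 h
      rw [← add_assoc l (j + 1) 1, Pw3_cnt_succ_rec h, Pw3_rv_succ_rec h, Pw3_cnt_succ_rec h',
        Pw3_rv_succ_rec h', ih1]
      exact ⟨by omega, rfl⟩
    · have h' := fun h2 => h (hiff.2 h2)
      rw [← add_assoc l (j + 1) 1, Pw3_cnt_succ_not h, Pw3_rv_succ_not h, Pw3_cnt_succ_not h',
        Pw3_rv_succ_not h', ih1, ih2]
      exact ⟨rfl, rfl⟩

/-- counting for the `L`-th next record -/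
theorem count_rec (κ : ℝ≥0∞) (a w g : ℕ → ℝ≥0∞) (ha : ∀ l, a l ≠ ⊤) (N L : ℕ) (hL : 1 ≤ L) :
    ∑ l ∈ Finset.range (N + 1), ind (Rec κ a w 0 l) *
      ∑ i ∈ Finset.range (N - l),
        ind (cnt κ (fun s => a (l + s)) (fun s => w (l + s)) (a l) (i + 1) < L) * g (l + i)
      ≤ (L : ℝ≥0∞) * ∑ i ∈ Finset.range N, g i := by
  classical
  refine Pw3_swap (fun l => Rec κ a w 0 l) (fun l i =>
    cnt κ (fun s => a (l + s)) (fun s => w (l + s)) (a l) (i + 1) < L) g N N L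
    (fun l => N - l) (fun l hl => by omega) ?_
  intro p _ s hs
  refine Pw3_card κ a w 0 (p + 1) L s ?_
  intro l hl
  obtain ⟨h1, h2, h3⟩ := hs l hl
  refine ⟨by omega, h1, ?_⟩
  have h4 := (Pw3_restart κ a w h1 (p - l)).1
  have e : l + (p - l + 1) = p + 1 := by omega
  rw [e] at h4
  rw [h4]
  omega

end HG
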