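import Pool.Agent.W_MP_825298_an.VL1
import Pool.Agent.W_MP_825298_an.Pw2
import Pool.Agent.W_MP_825298_an.Pw3

open MeasureTheory Set Filter Topology
open scoped ENNReal NNReal BigOperators

namespace HG
variable {d : ℕ}

variable {V : Type*} [NormedAddCommGroup V] [NormedSpace ℝ V]

/-- the expected sum of record values -/
noncomputable def SN (κ : ℝ≥0) (m : E d → ℝ → V) (W : E d → ℝ → ℝ≥0∞) (r0 : ℝ) (N : ℕ) : ℝ≥0∞ :=
  ∫⁻ x : E d, Ex N (fun ω : ℕ → St d => ∑ l ∈ Finset.range (N + 1),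
    ind (Rec κ (av m x r0 ω) (wv W x r0 ω) 0 l) * av m x r0 ω l)

/-- measurability of the record functionals of measurable families of sequences -/
theorem Asm1_meas {Ω : Type*} [MeasurableSpace Ω] (κ : ℝ≥0∞) {a w : Ω → ℕ → ℝ≥0∞}
    (ha : ∀ l, Measurable (fun x => a x l)) (hw : ∀ l, Measurable (fun x => w x l)) (l : ℕ) :
    Measurable (fun x => rv κ (a x) (w x) 0 l) ∧ MeasurableSet {x | Rec κ (a x) (w x) 0 l} ∧
      Measurable (fun x => cnt κ (a x) (w x) 0 l) := by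
  classical
  have hrec : ∀ l, Measurable (fun x => rv κ (a x) (w x) 0 l) →
      MeasurableSet {x | Rec κ (a x) (w x) 0 l} := by
    intro l h
    exact (measurableSet_le ((hw l).const_mul κ) (ha l)).inter
      (measurableSet_lt (h.const_mul 2) (ha l))
  induction l with
  | zero =>
    refine ⟨measurable_const, hrec 0 measurable_const, measurable_const⟩
  | succ l ih =>
    obtain ⟨h1, h2, h3⟩ := ih
    have h4 : Measurable (fun x => rv κ (a x) (w x) 0 (l + 1)) := by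
      simp only [rv]
      exact Measurable.ite (hrec l h1) (ha l) h1
    refine ⟨h4, hrec _ h4, ?_⟩
    simp only [cnt]
    exact h3.add (Measurable.ite h2 measurable_const measurable_const)

/-- the record functionals at time `n` depend on the values at times `< n` only -/
theorem Asm1_congr (κ : ℝ≥0∞) {a w a' w' : ℕ → ℝ≥0∞} {n : ℕ} (ha : ∀ l < n, a l = a' l)
    (hw : ∀ l < n, w l = w' l) :
    rv κ a w 0 n = rv κ a' w' 0 n ∧ cnt κ a w 0 n = cnt κ a' w' 0 n := by
  classical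
  induction n with
  | zero => exact ⟨rfl, rfl⟩
  | succ n ih =>
    obtain ⟨h1, h2⟩ := ih (fun l hl => ha l (by omega)) (fun l hl => hw l (by omega))
    have e1 := ha n (by omega)
    have e2 := hw n (by omega)
    constructor
    · simp only [rv, Good, h1, e1, e2]
      congr
    · simp only [cnt, Rec, Good, h1, h2, e1, e2]
      congr

/-- Measurability of the record functionals in the starting point. -/
theorem rec_measurable {m : E d → ℝ → V} {W : E d → ℝ → ℝ≥0∞} (hmeas : ∀ r, Measurable (fun x => ‖m x r‖ₑ))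
    (hW : ∀ r, Measurable (fun x => W x r)) (κ : ℝ≥0) (r0 : ℝ) (ω : ℕ → St d) (l i : ℕ) :
    MeasurableSet {x : E d | Rec κ (av m x r0 ω) (wv W x r0 ω) 0 l} ∧
    MeasurableSet {x : E d | cnt κ (av m x r0 ω) (wv W x r0 ω) 0 l = i} := by
  have ha : ∀ l, Measurable (fun x : E d => av m x r0 ω l) := fun l =>
    (hmeas (r0 / 2 ^ l)).comp (measurable_id.add_const (r0 • Zp l ω))
  have hw : ∀ l, Measurable (fun x : E d => wv W x r0 ω l) := fun l =>
    (hW (r0 / 2 ^ l)).comp (measurable_id.add_const (r0 • Zp l ω))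
  obtain ⟨-, h2, h3⟩ := Asm1_meas (κ : ℝ≥0∞) ha hw l
  exact ⟨h2, h3 (measurableSet_singleton i)⟩

theorem Asm1_ind_true {p : Prop} (h : p) : ind p = 1 := by
  unfold ind
  exact if_pos h

theorem Asm1_ind_false {p : Prop} (h : ¬ p) : ind p = 0 := by
  unfold ind
  exact if_neg h

theorem Asm1_ind_le (p : Prop) : ind p ≤ 1 := by
  by_cases h : p
  · rw [Asm1_ind_true h]
  · rw [Asm1_ind_false h]; exact zero_le_one

theorem Asm1_step (κ : ℝ≥0∞) (a w : ℕ → ℝ≥0∞) (i n : ℕ) :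
    ind (Rec κ a w 0 n ∧ cnt κ a w 0 n = i) + ind (i < cnt κ a w 0 n) =
      ind (i < cnt κ a w 0 (n + 1)) := by
  classical
  by_cases hr : Rec κ a w 0 n
  · have hc : cnt κ a w 0 (n + 1) = cnt κ a w 0 n + 1 := by simp only [cnt, if_pos hr]
    rw [hc]
    rcases lt_trichotomy i (cnt κ a w 0 n) with h | h | h
    · rw [Asm1_ind_false (by rintro ⟨-, h'⟩; omega), Asm1_ind_true h, Asm1_ind_true (by omega),
        zero_add]
    · rw [Asm1_ind_true ⟨hr, h.symm⟩, Asm1_ind_false (by omega), Asm1_ind_true (by omega),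
        add_zero]
    · rw [Asm1_ind_false (by rintro ⟨-, h'⟩; omega), Asm1_ind_false (by omega),
        Asm1_ind_false (by omega), zero_add]
  · have hc : cnt κ a w 0 (n + 1) = cnt κ a w 0 n := by simp only [cnt, if_neg hr, add_zero]
    rw [hc, Asm1_ind_false (fun h => hr h.1), zero_add]

theorem Asm1_path (κ : ℝ≥0∞) (a w : ℕ → ℝ≥0∞) (i N : ℕ) :
    (∑ l ∈ Finset.range (N + 1), ind (Rec κ a w 0 l ∧ cnt κ a w 0 l = i) * a l) +
      ∑ j ∈ Finset.range N, ind (i < cnt κ a w 0 (j + 1)) * a (j + 1) =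
    ind (i < cnt κ a w 0 (N + 1)) * a N +
      ∑ j ∈ Finset.range N, ind (i < cnt κ a w 0 (j + 1)) * a j := by
  induction N with
  | zero =>
    simp only [zero_add, Finset.range_one, Finset.sum_singleton, Finset.range_zero,
      Finset.sum_empty, add_zero]
    rw [← Asm1_step κ a w i 0, Asm1_ind_false (p := i < cnt κ a w 0 0) (by simp [cnt]), add_zero]
  | succ N ih =>
    have e : (∑ l ∈ Finset.range (N + 1 + 1), ind (Rec κ a w 0 l ∧ cnt κ a w 0 l = i) * a l) +
        ∑ j ∈ Finset.range (N + 1), ind (i < cnt κ a w 0 (j + 1)) * a (j + 1) =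
        ((∑ l ∈ Finset.range (N + 1), ind (Rec κ a w 0 l ∧ cnt κ a w 0 l = i) * a l) +
          ∑ j ∈ Finset.range N, ind (i < cnt κ a w 0 (j + 1)) * a (j + 1)) +
        (ind (Rec κ a w 0 (N + 1) ∧ cnt κ a w 0 (N + 1) = i) + ind (i < cnt κ a w 0 (N + 1))) *
          a (N + 1) := by
      rw [Finset.sum_range_succ
          (fun l => ind (Rec κ a w 0 l ∧ cnt κ a w 0 l = i) * a l) (N + 1),
        Finset.sum_range_succ (fun j => ind (i < cnt κ a w 0 (j + 1)) * a (j + 1)) N, add_mul]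
      ac_rfl
    rw [e, ih, Asm1_step,
      Finset.sum_range_succ (fun j => ind (i < cnt κ a w 0 (j + 1)) * a j) N]
    ac_rfl

/-- The `i`-th record has expected value at most `N1` (`osi_lower` with `b j` = the `i`-th record occurred at a time `≤ j`,
`Y = a_N`; then integrate, `inv_lintegral`). -/
theorem rec_i_le {m : E d → ℝ → V} (hm : RefEq m) {W : E d → ℝ → ℝ≥0∞} (hmeas : ∀ r, Measurable (fun x => ‖m x r‖ₑ))
    (hW : ∀ r, Measurable (fun x => W x r)) (κ : ℝ≥0) {r0 : ℝ} (hr0 : 0 < r0) {N1 : ℝ≥0∞}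
    (hN1 : ∀ r, 0 < r → ∫⁻ x : E d, ‖m x r‖ₑ ≤ N1) (N i : ℕ) :
    ∫⁻ x : E d, Ex N (fun ω : ℕ → St d => ∑ l ∈ Finset.range (N + 1),
      ind (Rec κ (av m x r0 ω) (wv W x r0 ω) 0 l ∧ cnt κ (av m x r0 ω) (wv W x r0 ω) 0 l = i) * av m x r0 ω l) ≤ N1 := by
  have key : ∀ x : E d, Ex N (fun ω : ℕ → St d => ∑ l ∈ Finset.range (N + 1),
      ind (Rec κ (av m x r0 ω) (wv W x r0 ω) 0 l ∧ cnt κ (av m x r0 ω) (wv W x r0 ω) 0 l = i) *
        av m x r0 ω l) ≤ Ex N (fun ω : ℕ → St d => ‖m (x + r0 • Zp N ω) (r0 / 2 ^ N)‖ₑ) := by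
    intro x
    refine osi_lower hm x hr0 N
      (fun j ω => i < cnt κ (av m x r0 ω) (wv W x r0 ω) 0 (j + 1)) ?_ _ _ ?_
    · intro j _ ω ω' h
      have h1 : ∀ l < j + 1, av m x r0 ω l = av m x r0 ω' l := fun l hl =>
        av_dep m x r0 l ω ω' (fun s hs => h s (by omega))
      have h2 : ∀ l < j + 1, wv W x r0 ω l = wv W x r0 ω' l := fun l hl =>
        wv_dep W x r0 l ω ω' (fun s hs => h s (by omega))
      simp only [(Asm1_congr (κ : ℝ≥0∞) h1 h2).2]
    · intro ω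
      have := Asm1_path (κ : ℝ≥0∞) (av m x r0 ω) (wv W x r0 ω) i N
      rw [this]
      refine add_le_add ?_ le_rfl
      calc ind (i < cnt κ (av m x r0 ω) (wv W x r0 ω) 0 (N + 1)) * av m x r0 ω N
          ≤ 1 * av m x r0 ω N := by gcongr; exact Asm1_ind_le _
        _ = _ := one_mul _
  calc _ ≤ ∫⁻ x : E d, Ex N (fun ω : ℕ → St d => ‖m (x + r0 • Zp N ω) (r0 / 2 ^ N)‖ₑ) :=
        lintegral_mono key
    _ = ∫⁻ x : E d, ‖m x (r0 / 2 ^ N)‖ₑ :=
        inv_lintegral (g := fun x => ‖m x (r0 / 2 ^ N)‖ₑ) (hmeas _) N N r0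
    _ ≤ N1 := hN1 _ (by positivity)

end HG
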