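import Pool.Agent.W_MP_825298_an.Asm1

open MeasureTheory Set Filter Topology
open scoped ENNReal NNReal BigOperators

namespace HG
variable {d : ℕ}

variable {V : Type*} [NormedAddCommGroup V] [NormedSpace ℝ V]

namespace Asm2

theorem ind_true {p : Prop} (h : p) : ind p = 1 := by
  unfold ind
  simp [h]

theorem ind_false {p : Prop} (h : ¬ p) : ind p = 0 := by
  unfold ind
  simp [h]

theorem Ex_markov {p : (ℕ → St d) → ℝ≥0∞} {l : ℕ} (hp : Dep l p) (n : ℕ) {G : (ℕ → St d) → ℝ≥0∞}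
    {F : (ℕ → St d) → (ℕ → St d) → ℝ≥0∞} (hG : ∀ ω ω', G (splice l ω ω') = F ω ω') :
    Ex (l + n) (fun ω => p ω * G ω) = Ex l (fun ω => p ω * Ex n (F ω)) := by
  rw [Ex_splice]
  congr 1
  ext ω
  rw [← Ex_mul]
  congr 1
  ext ω'
  rw [hG]
  congr 1
  apply hp
  intro i hi
  simp [splice, hi]

theorem rv_congr {κ : ℝ≥0∞} {a w a' w' : ℕ → ℝ≥0∞} {v0 : ℝ≥0∞} (l : ℕ) (ha : ∀ i < l, a i = a' i)
    (hw : ∀ i < l, w i = w' i) : rv κ a w v0 l = rv κ a' w' v0 l := by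
  induction l with
  | zero => rfl
  | succ l ih =>
    have := ih (fun i hi => ha i (by omega)) (fun i hi => hw i (by omega))
    have hG : Good κ a w l = Good κ a' w' l := by
      unfold Good
      rw [ha l (by omega), hw l (by omega)]
    have hC : (Good κ a w l ∧ 2 * rv κ a w v0 l < a l) ↔ (Good κ a' w' l ∧ 2 * rv κ a' w' v0 l < a' l) := by
      rw [hG, this, ha l (by omega)]
    simp only [rv]
    by_cases hc : Good κ a' w' l ∧ 2 * rv κ a' w' v0 l < a' l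
    · rw [if_pos hc, if_pos (hC.2 hc), ha l (by omega)]
    · rw [if_neg hc, if_neg (fun h => hc (hC.1 h)), this]

theorem Rec_congr {κ : ℝ≥0∞} {a w a' w' : ℕ → ℝ≥0∞} {v0 : ℝ≥0∞} (l : ℕ) (ha : ∀ i ≤ l, a i = a' i)
    (hw : ∀ i ≤ l, w i = w' i) : Rec κ a w v0 l = Rec κ a' w' v0 l := by
  unfold Rec Good
  rw [rv_congr l (fun i hi => ha i hi.le) (fun i hi => hw i hi.le), ha l le_rfl, hw l le_rfl]

theorem recI_dep (κ : ℝ≥0∞) (m : E d → ℝ → V) (W : E d → ℝ → ℝ≥0∞) (x : E d) (r : ℝ) (l : ℕ) :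
    Dep l (fun ω => ind (Rec κ (av m x r ω) (wv W x r ω) 0 l)) := by
  intro ω ω' h
  show ind _ = ind _
  rw [Rec_congr l (a := av m x r ω) (a' := av m x r ω') (w := wv W x r ω) (w' := wv W x r ω')]
  · intro i hi
    exact av_dep m x r i ω ω' (fun j hj => h j (by omega))
  · intro i hi
    exact wv_dep W x r i ω ω' (fun j hj => h j (by omega))

theorem wv_grow {W : E d → ℝ → ℝ≥0∞} {CW : ℝ≥0}
    (hgrow : ∀ (x x' : E d) (r : ℝ), 0 < r → ‖x' - x‖ ≤ r → W x' (r / 2) ≤ CW * W x r)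
    (x : E d) {r0 : ℝ} (hr0 : 0 < r0) (ω : ℕ → St d) (l : ℕ) :
    wv W x r0 ω (l + 1) ≤ CW * wv W x r0 ω l := by
  unfold wv
  have h1 : r0 / 2 ^ (l + 1) = r0 / 2 ^ l / 2 := by
    rw [pow_succ]
    field_simp
  rw [h1]
  apply hgrow _ _ _ (by positivity)
  have h2 : x + r0 • Zp (l + 1) ω - (x + r0 • Zp l ω) = r0 • (((2 : ℝ) ^ (l + 1))⁻¹ • kv (ω l)) := by
    have : Zp (l + 1) ω = Zp l ω + ((2 : ℝ) ^ (l + 1))⁻¹ • kv (ω l) := by
      unfold Zp
      rw [Finset.sum_range_succ]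
    rw [this, smul_add]
    abel
  rw [h2, norm_smul, norm_smul, Real.norm_eq_abs, Real.norm_eq_abs, abs_of_pos hr0,
    abs_of_pos (by positivity : (0 : ℝ) < ((2 : ℝ) ^ (l + 1))⁻¹)]
  have h3 := norm_kv_le (ω l)
  calc r0 * (((2 : ℝ) ^ (l + 1))⁻¹ * ‖kv (ω l)‖) ≤ r0 * (((2 : ℝ) ^ (l + 1))⁻¹ * 2) := by gcongr
    _ = r0 / 2 ^ l := by
      rw [pow_succ]
      field_simp

theorem gamE_measurable {m : E d → ℝ → V} (hmeas : ∀ r, Measurable (fun x => ‖m x r‖ₑ)) (r : ℝ) :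
    Measurable (fun x => gamE m x r) := by
  unfold gamE
  apply Measurable.sub
  · apply Finset.measurable_fun_sum
    intro k _
    apply Measurable.const_mul
    exact (hmeas (r / 2)).comp (measurable_id.add_const _)
  · exact hmeas r

theorem gam_sum_le {m : E d → ℝ → V} (hm : RefEq m) (hmeas : ∀ r, Measurable (fun x => ‖m x r‖ₑ)) {r : ℝ} (hr : 0 < r)
    {N1 : ℝ≥0∞} (hN1 : ∀ r, 0 < r → ∫⁻ x : E d, ‖m x r‖ₑ ≤ N1) (n : ℕ) :
    ∑ l ∈ Finset.range n, ∫⁻ x : E d, gamE m x (r / 2 ^ l) ≤ N1 := by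
  have h := gam_total hm hmeas hr n
  calc ∑ l ∈ Finset.range n, ∫⁻ x : E d, gamE m x (r / 2 ^ l)
      ≤ (∫⁻ x : E d, ‖m x r‖ₑ) + ∑ l ∈ Finset.range n, ∫⁻ x : E d, gamE m x (r / 2 ^ l) := le_add_self
    _ = ∫⁻ x : E d, ‖m x (r / 2 ^ n)‖ₑ := h
    _ ≤ N1 := hN1 _ (by positivity)

theorem gam_path_le {m : E d → ℝ → V} (hm : RefEq m) (hmeas : ∀ r, Measurable (fun x => ‖m x r‖ₑ)) {r : ℝ} (hr : 0 < r)
    {N1 : ℝ≥0∞} (hN1 : ∀ r, 0 < r → ∫⁻ x : E d, ‖m x r‖ₑ ≤ N1) (n k : ℕ) :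
    ∫⁻ x : E d, Ex n (fun ω : ℕ → St d => ∑ i ∈ Finset.range k, wv (gamE m) x r ω i) ≤ N1 := by
  have h1 : ∀ x : E d, Ex n (fun ω : ℕ → St d => ∑ i ∈ Finset.range k, wv (gamE m) x r ω i)
      = ∑ i ∈ Finset.range k, Ex n (fun ω : ℕ → St d => gamE m (x + r • Zp i ω) (r / 2 ^ i)) := by
    intro x
    rw [Ex_sum]
    rfl
  simp_rw [h1]
  rw [lintegral_finsetSum]
  · refine le_trans (le_of_eq ?_) (gam_sum_le hm hmeas hr hN1 k)
    apply Finset.sum_congr rfl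
    intro i _
    exact inv_lintegral (gamE_measurable hmeas (r / 2 ^ i)) n i r
  · intro i _
    apply Ex_measurable
    intro ω
    exact (gamE_measurable hmeas (r / 2 ^ i)).comp (measurable_id.add_const _)

/-- the eightfold terms -/
noncomputable def T8 (m : E d → ℝ → V) (r0 : ℝ) (J l : ℕ) (y : E d) : ℝ≥0∞ :=
  Ex J (fun ω' : ℕ → St d => ∑ i ∈ Finset.range (J + 1),
    gamE m (y + (8 * (r0 / 2 ^ l)) • Zp i ω') (8 * (r0 / 2 ^ l) / 2 ^ i))

theorem T8_measurable {m : E d → ℝ → V} (hmeas : ∀ r, Measurable (fun x => ‖m x r‖ₑ)) (r0 : ℝ) (J l : ℕ) :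
    Measurable (T8 m r0 J l) := by
  unfold T8
  apply Ex_measurable
  intro ω
  apply Finset.measurable_fun_sum
  intro i _
  exact (gamE_measurable hmeas _).comp (measurable_id.add_const _)

theorem T8_sum_le {m : E d → ℝ → V} (hm : RefEq m) (hmeas : ∀ r, Measurable (fun x => ‖m x r‖ₑ)) {r0 : ℝ} (hr0 : 0 < r0)
    {N1 : ℝ≥0∞} (hN1 : ∀ r, 0 < r → ∫⁻ x : E d, ‖m x r‖ₑ ≤ N1) (N J : ℕ) :
    ∑ l ∈ Finset.range (N + 1), ∫⁻ x : E d, Ex l (fun ω : ℕ → St d => T8 m r0 J l (x + r0 • Zp l ω))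
      ≤ ((J : ℝ≥0∞) + 1) * N1 := by
  have h1 : ∀ l : ℕ, ∫⁻ x : E d, Ex l (fun ω : ℕ → St d => T8 m r0 J l (x + r0 • Zp l ω))
      = ∑ i ∈ Finset.range (J + 1), ∫⁻ y : E d, gamE m y (8 * r0 / 2 ^ i / 2 ^ l) := by
    intro l
    rw [inv_lintegral (T8_measurable hmeas r0 J l) l l r0]
    unfold T8
    have h2 : ∀ y : E d, Ex J (fun ω' : ℕ → St d => ∑ i ∈ Finset.range (J + 1),
        gamE m (y + (8 * (r0 / 2 ^ l)) • Zp i ω') (8 * (r0 / 2 ^ l) / 2 ^ i))
        = ∑ i ∈ Finset.range (J + 1), Ex J (fun ω' : ℕ → St d =>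
          gamE m (y + (8 * (r0 / 2 ^ l)) • Zp i ω') (8 * (r0 / 2 ^ l) / 2 ^ i)) := by
      intro y
      rw [Ex_sum]
    simp_rw [h2]
    rw [lintegral_finsetSum]
    · apply Finset.sum_congr rfl
      intro i _
      rw [inv_lintegral (gamE_measurable hmeas (8 * (r0 / 2 ^ l) / 2 ^ i)) J i (8 * (r0 / 2 ^ l))]
      have : 8 * (r0 / 2 ^ l) / 2 ^ i = 8 * r0 / 2 ^ i / 2 ^ l := by
        field_simp
      rw [this]
    · intro i _
      apply Ex_measurable
      intro ω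
      exact (gamE_measurable hmeas _).comp (measurable_id.add_const _)
  simp_rw [h1]
  rw [Finset.sum_comm]
  calc ∑ i ∈ Finset.range (J + 1), ∑ l ∈ Finset.range (N + 1), ∫⁻ y : E d, gamE m y (8 * r0 / 2 ^ i / 2 ^ l)
      ≤ ∑ i ∈ Finset.range (J + 1), N1 :=
        Finset.sum_le_sum fun i _ => gam_sum_le hm hmeas (by positivity) hN1 (N + 1)
    _ = ((J : ℝ≥0∞) + 1) * N1 := by
        rw [Finset.sum_const, Finset.card_range, nsmul_eq_mul]
        push_cast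
        rfl

/-- pathwise functional of the `L`-th next record, restarted -/
noncomputable def PhR (κ : ℝ≥0∞) (L n : ℕ) (a w : ℕ → ℝ≥0∞) : ℝ≥0∞ :=
  ∑ j ∈ Finset.range (n + 1), ind (Rec κ a w (a 0) j ∧ cnt κ a w (a 0) j + 1 = L) * a j

noncomputable def Ph4 (κ : ℝ≥0∞) (L n : ℕ) (a w : ℕ → ℝ≥0∞) : ℝ≥0∞ :=
  ∑ j ∈ Finset.range (n + 1), ind (FirstHit (fun i => 2 ^ L * a 0 < κ * w i) j) * w j

noncomputable def Ph5 (κ : ℝ≥0∞) (L n : ℕ) (a w g : ℕ → ℝ≥0∞) : ℝ≥0∞ :=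
  ∑ j ∈ Finset.range n, ind (cnt κ a w (a 0) (j + 1) < L) * g j

/-- one record: all the terms -/
theorem one_le {m : E d → ℝ → V} (hm : RefEq m) {W : E d → ℝ → ℝ≥0∞} {κ : ℝ≥0}
    {r0 : ℝ} (hr0 : 0 < r0) {L J : ℕ} (hL : 1 ≤ L) {C1 : ℝ≥0}
    (hKL : KLH κ (2 ^ L) C1 J r0 m W) (x : E d) {N l : ℕ} (hl : l ≤ N) :
    Ex N (fun ω : ℕ → St d => ind (Rec κ (av m x r0 ω) (wv W x r0 ω) 0 l) *
        ∑ l' ∈ Finset.range (N + 1), ind (Rec κ (av m x r0 ω) (wv W x r0 ω) 0 l' ∧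
          cnt κ (av m x r0 ω) (wv W x r0 ω) 0 l' = cnt κ (av m x r0 ω) (wv W x r0 ω) 0 l + L) * av m x r0 ω l')
      ≤ 2⁻¹ * Ex N (fun ω : ℕ → St d => ind (Rec κ (av m x r0 ω) (wv W x r0 ω) 0 l) * av m x r0 ω l)
        + C1 * Ex (N + J) (fun ω : ℕ → St d => ind (Rec κ (av m x r0 ω) (wv W x r0 ω) 0 l) *
            K2 κ (2 ^ L) (fun i => av m x r0 ω (l + i)) (fun i => wv W x r0 ω (l + i))
              (fun i => wv (gamE m) x r0 ω (l + i)) (N - l) J)
        + C1 * Ex l (fun ω : ℕ → St d => T8 m r0 J l (x + r0 • Zp l ω))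
        + κ * Ex N (fun ω : ℕ → St d => ind (Rec κ (av m x r0 ω) (wv W x r0 ω) 0 l) *
            Ph4 κ L (N - l) (fun i => av m x r0 ω (l + i)) (fun i => wv W x r0 ω (l + i)))
        + 2 * Ex N (fun ω : ℕ → St d => ind (Rec κ (av m x r0 ω) (wv W x r0 ω) 0 l) *
            Ph5 κ L (N - l) (fun i => av m x r0 ω (l + i)) (fun i => wv W x r0 ω (l + i))
              (fun i => wv (gamE m) x r0 ω (l + i))) := by
  have hNl : l + (N - l) = N := by omega
  have hNJ : l + (N - l + J) = N + J := by omega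
  have hdep := recI_dep (κ : ℝ≥0∞) m W x r0 l
  -- the left side
  have e1 : Ex N (fun ω : ℕ → St d => ind (Rec κ (av m x r0 ω) (wv W x r0 ω) 0 l) *
        ∑ l' ∈ Finset.range (N + 1), ind (Rec κ (av m x r0 ω) (wv W x r0 ω) 0 l' ∧
          cnt κ (av m x r0 ω) (wv W x r0 ω) 0 l' = cnt κ (av m x r0 ω) (wv W x r0 ω) 0 l + L) * av m x r0 ω l')
      = Ex l (fun ω : ℕ → St d => ind (Rec κ (av m x r0 ω) (wv W x r0 ω) 0 l) *
        Ex (N - l) (fun ω' : ℕ → St d => PhR κ L (N - l) (av m (x + r0 • Zp l ω) (r0 / 2 ^ l) ω')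
          (wv W (x + r0 • Zp l ω) (r0 / 2 ^ l) ω'))) := by
    rw [← Ex_markov hdep (N - l) (G := fun ω => PhR κ L (N - l) (fun i => av m x r0 ω (l + i))
      (fun i => wv W x r0 ω (l + i))), hNl]
    · congr 1
      ext ω
      by_cases hrec : Rec κ (av m x r0 ω) (wv W x r0 ω) 0 l
      · rw [ind_true hrec, one_mul, one_mul, rec_restart κ _ _ hrec (by unfold av; exact enorm_ne_top) N L hl hL]
        rfl
      · rw [ind_false hrec, zero_mul, zero_mul]
    · intro ω ω'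
      simp only [av_splice, wv_splice]
  have e2 : Ex (N + J) (fun ω : ℕ → St d => ind (Rec κ (av m x r0 ω) (wv W x r0 ω) 0 l) *
            K2 κ (2 ^ L) (fun i => av m x r0 ω (l + i)) (fun i => wv W x r0 ω (l + i))
              (fun i => wv (gamE m) x r0 ω (l + i)) (N - l) J)
      = Ex l (fun ω : ℕ → St d => ind (Rec κ (av m x r0 ω) (wv W x r0 ω) 0 l) *
        Ex (N - l + J) (fun ω' : ℕ → St d => K2 κ (2 ^ L) (av m (x + r0 • Zp l ω) (r0 / 2 ^ l) ω')
          (wv W (x + r0 • Zp l ω) (r0 / 2 ^ l) ω') (wv (gamE m) (x + r0 • Zp l ω) (r0 / 2 ^ l) ω') (N - l) J)) := by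
    rw [← Ex_markov hdep (N - l + J) (G := fun ω => K2 κ (2 ^ L) (fun i => av m x r0 ω (l + i))
      (fun i => wv W x r0 ω (l + i)) (fun i => wv (gamE m) x r0 ω (l + i)) (N - l) J), hNJ]
    intro ω ω'
    simp only [av_splice, wv_splice]
  have e4 : Ex N (fun ω : ℕ → St d => ind (Rec κ (av m x r0 ω) (wv W x r0 ω) 0 l) *
            Ph4 κ L (N - l) (fun i => av m x r0 ω (l + i)) (fun i => wv W x r0 ω (l + i)))
      = Ex l (fun ω : ℕ → St d => ind (Rec κ (av m x r0 ω) (wv W x r0 ω) 0 l) *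
        Ex (N - l) (fun ω' : ℕ → St d => Ph4 κ L (N - l) (av m (x + r0 • Zp l ω) (r0 / 2 ^ l) ω')
          (wv W (x + r0 • Zp l ω) (r0 / 2 ^ l) ω'))) := by
    rw [← Ex_markov hdep (N - l) (G := fun ω => Ph4 κ L (N - l) (fun i => av m x r0 ω (l + i))
      (fun i => wv W x r0 ω (l + i))), hNl]
    intro ω ω'
    simp only [av_splice, wv_splice]
  have e5 : Ex N (fun ω : ℕ → St d => ind (Rec κ (av m x r0 ω) (wv W x r0 ω) 0 l) *
            Ph5 κ L (N - l) (fun i => av m x r0 ω (l + i)) (fun i => wv W x r0 ω (l + i))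
              (fun i => wv (gamE m) x r0 ω (l + i)))
      = Ex l (fun ω : ℕ → St d => ind (Rec κ (av m x r0 ω) (wv W x r0 ω) 0 l) *
        Ex (N - l) (fun ω' : ℕ → St d => Ph5 κ L (N - l) (av m (x + r0 • Zp l ω) (r0 / 2 ^ l) ω')
          (wv W (x + r0 • Zp l ω) (r0 / 2 ^ l) ω') (wv (gamE m) (x + r0 • Zp l ω) (r0 / 2 ^ l) ω'))) := by
    rw [← Ex_markov hdep (N - l) (G := fun ω => Ph5 κ L (N - l) (fun i => av m x r0 ω (l + i))
      (fun i => wv W x r0 ω (l + i)) (fun i => wv (gamE m) x r0 ω (l + i))), hNl]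
    intro ω ω'
    simp only [av_splice, wv_splice]
  have e3 : Ex N (fun ω : ℕ → St d => ind (Rec κ (av m x r0 ω) (wv W x r0 ω) 0 l) * av m x r0 ω l)
      = Ex l (fun ω : ℕ → St d => ind (Rec κ (av m x r0 ω) (wv W x r0 ω) 0 l) * av m x r0 ω l) := by
    apply Ex_dep hl
    intro ω ω' h
    have h1 : av m x r0 ω l = av m x r0 ω' l := av_dep m x r0 l ω ω' h
    have h2 : ind (Rec κ (av m x r0 ω) (wv W x r0 ω) 0 l) = ind (Rec κ (av m x r0 ω') (wv W x r0 ω') 0 l) :=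
      hdep ω ω' h
    show _ * _ = _ * _
    rw [h1, h2]
  rw [e1, e2, e3, e4, e5]
  rw [← Ex_mul, ← Ex_mul, ← Ex_mul, ← Ex_mul, ← Ex_mul, ← Ex_add, ← Ex_add, ← Ex_add, ← Ex_add]
  apply Ex_mono
  intro ω
  by_cases hrec : Rec κ (av m x r0 ω) (wv W x r0 ω) 0 l
  · simp only [ind_true hrec, one_mul]
    set X : E d := x + r0 • Zp l ω with hX
    set r : ℝ := r0 / 2 ^ l with hr
    have hrpos : 0 < r := by positivity
    have hrle : r ≤ r0 := div_le_self hr0.le (one_le_pow₀ (by norm_num))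
    have hgood : (κ : ℝ≥0∞) * W X r ≤ ‖m X r‖ₑ := hrec.1
    have hne : m X r ≠ 0 := by
      intro h0
      have h1 := hrec.2
      have h2 : av m x r0 ω l = 0 := by
        show ‖m X r‖ₑ = 0
        rw [h0, enorm_zero]
      rw [h2] at h1
      exact absurd h1 (not_lt.2 bot_le)
    have hVL := VL_bound hm W κ L hL X hrpos (N - l) hgood hne
    have hK := hKL X r (N - l) hrpos hrle hgood hne
    push_cast at hK
    refine hVL.trans ?_
    refine (add_le_add_left (add_le_add_left hK _) _).trans (le_of_eq ?_)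
    have t8 : T8 m r0 J l X = Ex J (fun ω' : ℕ → St d => ∑ i ∈ Finset.range (J + 1),
      gamE m (X + (8 * r) • Zp i ω') (8 * r / 2 ^ i)) := rfl
    rw [← t8]
    have t1 : ‖m X r‖ₑ / 2 = 2⁻¹ * av m x r0 ω l := by
      rw [ENNReal.div_eq_inv_mul]
      rfl
    rw [t1]
    unfold Ph4 Ph5
    ring
  · simp only [ind_false hrec, zero_mul, mul_zero]
    exact bot_le

/-- pointwise (in the starting point) form of the inequality -/
theorem pw {m : E d → ℝ → V} (hm : RefEq m) {W : E d → ℝ → ℝ≥0∞} {κ : ℝ≥0} (hκ : 0 < κ) {CW : ℝ≥0}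
    (hgrow : ∀ (x x' : E d) (r : ℝ), 0 < r → ‖x' - x‖ ≤ r → W x' (r / 2) ≤ CW * W x r)
    {r0 : ℝ} (hr0 : 0 < r0) {L J : ℕ} (hL : 1 ≤ L) {C1 : ℝ≥0}
    (hKL : KLH κ (2 ^ L) C1 J r0 m W) (x : E d) (N : ℕ) :
    Ex N (fun ω : ℕ → St d => ∑ l ∈ Finset.range (N + 1),
        ind (Rec κ (av m x r0 ω) (wv W x r0 ω) 0 l) * av m x r0 ω l)
      ≤ (∑ i ∈ Finset.range L, Ex N (fun ω : ℕ → St d => ∑ l ∈ Finset.range (N + 1),
          ind (Rec κ (av m x r0 ω) (wv W x r0 ω) 0 l ∧ cnt κ (av m x r0 ω) (wv W x r0 ω) 0 l = i) * av m x r0 ω l))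
        + (2⁻¹ * Ex N (fun ω : ℕ → St d => ∑ l ∈ Finset.range (N + 1),
            ind (Rec κ (av m x r0 ω) (wv W x r0 ω) 0 l) * av m x r0 ω l)
        + C1 * (((L + J : ℕ) : ℝ≥0∞) * Ex (N + J) (fun ω : ℕ → St d => ∑ i ∈ Finset.range (N + J), wv (gamE m) x r0 ω i))
        + C1 * ∑ l ∈ Finset.range (N + 1), Ex l (fun ω : ℕ → St d => T8 m r0 J l (x + r0 • Zp l ω))
        + κ * (2 * CW * Ex N (fun ω : ℕ → St d => ⨆ l ∈ Finset.range (N + 1), wv W x r0 ω l))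
        + 2 * ((L : ℝ≥0∞) * Ex N (fun ω : ℕ → St d => ∑ i ∈ Finset.range N, wv (gamE m) x r0 ω i))) := by
  have ha : ∀ (ω : ℕ → St d) (l : ℕ), av m x r0 ω l ≠ ⊤ := fun ω l => by
    unfold av
    exact enorm_ne_top
  refine (Ex_mono N (fun ω => rec_split κ (av m x r0 ω) (wv W x r0 ω) N L hL)).trans ?_
  rw [Ex_add, Ex_sum, Ex_sum]
  apply add_le_add le_rfl
  refine (Finset.sum_le_sum fun l hl => one_le hm hr0 hL hKL x (by
    have := Finset.mem_range.1 hl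
    omega)).trans ?_
  rw [Finset.sum_add_distrib, Finset.sum_add_distrib, Finset.sum_add_distrib, Finset.sum_add_distrib,
    ← Finset.mul_sum, ← Finset.mul_sum, ← Finset.mul_sum, ← Finset.mul_sum, ← Finset.mul_sum,
    ← Ex_sum, ← Ex_sum, ← Ex_sum, ← Ex_sum]
  apply add_le_add
  apply add_le_add
  apply add_le_add
  apply add_le_add
  · exact le_rfl
  · apply mul_le_mul_right
    rw [← Ex_mul]
    apply Ex_mono
    intro ω
    exact count_hit κ (av m x r0 ω) (wv W x r0 ω) (wv (gamE m) x r0 ω) (ha ω) N L J hL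
  · exact le_rfl
  · apply mul_le_mul_right
    rw [← Ex_mul]
    apply Ex_mono
    intro ω
    have hκ0 : (κ : ℝ≥0∞) ≠ 0 := by
      rw [ENNReal.coe_ne_zero]
      exact hκ.ne'
    exact w_sum_le (A := 2 ^ L) hκ0 ENNReal.coe_ne_top (one_le_pow₀ (by norm_num)) (by simp) (av m x r0 ω)
      (wv W x r0 ω) (ha ω) (fun l => wv_grow hgrow x hr0 ω l) N
      (⨆ l ∈ Finset.range (N + 1), wv W x r0 ω l)
      (fun l hl => le_iSup₂_of_le l (Finset.mem_range.2 (by omega)) le_rfl)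
  · apply mul_le_mul_right
    rw [← Ex_mul]
    apply Ex_mono
    intro ω
    exact count_rec κ (av m x r0 ω) (wv W x r0 ω) (wv (gamE m) x r0 ω) (ha ω) N L hL

theorem ind_measurable {p : E d → Prop} (hp : MeasurableSet {x | p x}) : Measurable (fun x => ind (p x)) := by
  classical
  have : (fun x => ind (p x)) = fun x => if p x then (1 : ℝ≥0∞) else 0 := by
    ext x
    by_cases h : p x
    · rw [ind_true h, if_pos h]
    · rw [ind_false h, if_neg h]
  rw [this]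
  exact Measurable.ite hp measurable_const measurable_const

theorem lint_split {A B C D F G : E d → ℝ≥0∞} (hA : Measurable A) (hB : Measurable B) (hC : Measurable C)
    (hD : Measurable D) (hF : Measurable F) (hG : Measurable G) (c1 c2 c3 c4 c5 c6 c7 c8 : ℝ≥0∞) :
    ∫⁻ x : E d, (A x + (c1 * B x + c2 * (c3 * C x) + c4 * D x + c5 * (c6 * F x) + c7 * (c8 * G x)))
      = (∫⁻ x : E d, A x) + (c1 * (∫⁻ x : E d, B x) + c2 * (c3 * ∫⁻ x : E d, C x) + c4 * (∫⁻ x : E d, D x)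
        + c5 * (c6 * ∫⁻ x : E d, F x) + c7 * (c8 * ∫⁻ x : E d, G x)) := by
  have h1 : Measurable (fun x => c1 * B x) := hB.const_mul _
  have h2 : Measurable (fun x => c2 * (c3 * C x)) := (hC.const_mul _).const_mul _
  have h3 : Measurable (fun x => c4 * D x) := hD.const_mul _
  have h4 : Measurable (fun x => c5 * (c6 * F x)) := (hF.const_mul _).const_mul _
  have h12 : Measurable (fun x => c1 * B x + c2 * (c3 * C x)) := h1.add h2
  have h123 : Measurable (fun x => c1 * B x + c2 * (c3 * C x) + c4 * D x) := h12.add h3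
  have h1234 : Measurable (fun x => c1 * B x + c2 * (c3 * C x) + c4 * D x + c5 * (c6 * F x)) := h123.add h4
  rw [lintegral_add_left hA, lintegral_add_left h1234, lintegral_add_left h123, lintegral_add_left h12,
    lintegral_add_left h1, lintegral_const_mul _ hB, lintegral_const_mul _ (hC.const_mul _),
    lintegral_const_mul _ hC, lintegral_const_mul _ hD, lintegral_const_mul _ (hF.const_mul _),
    lintegral_const_mul _ hF, lintegral_const_mul _ (hG.const_mul _), lintegral_const_mul _ hG]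

end Asm2

open Asm2 in
/-- The main recursive inequality.  `rec_split` (pathwise), `rec_i_le` for the first part.  For the second: `rec_restart`, Markov
property (`Ex_splice`, `av_splice`, `wv_splice`; `ind (Rec .. l)` depends on `l` steps), `VL_bound` at `(X_l, r_l)` with horizon `N - l`,
`KLH` there (a record is good and has `a_l > 0`), then
* `∑_l E[1_rec a_l]/2 = SN/2`;
* the `K2` terms: put the expectations together again (`Ex_splice` backwards), `count_hit`, `gam_total`/`inv_lintegral`: `≤ C1 (L+J) N1`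
  (`∑_{i<n} ∫ gamE m x (r0/2^i) dx ≤ N1` for every `n` by `gam_total`);
* the `8r` terms: drop the indicator, `inv_lintegral`: `∑_{l≤N} ∑_{i≤J} ∫ gamE m x (8 r0/2^{l+i}) dx ≤ (J+1) N1`;
* the `w` terms: `w_sum_le`: `κ 2 CW E sup w`;
* the last terms: `count_rec`: `2 L N1`. -/
theorem SN_le {m : E d → ℝ → V} (hm : RefEq m) {W : E d → ℝ → ℝ≥0∞} (hmeas : ∀ r, Measurable (fun x => ‖m x r‖ₑ))
    (hW : ∀ r, Measurable (fun x => W x r)) {κ : ℝ≥0} (hκ : 0 < κ) {CW : ℝ≥0}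
    (hgrow : ∀ (x x' : E d) (r : ℝ), 0 < r → ‖x' - x‖ ≤ r → W x' (r / 2) ≤ CW * W x r)
    {r0 : ℝ} (hr0 : 0 < r0) {N1 : ℝ≥0∞} (hN1 : ∀ r, 0 < r → ∫⁻ x : E d, ‖m x r‖ₑ ≤ N1) {L J : ℕ} (hL : 1 ≤ L) {C1 : ℝ≥0}
    (hKL : KLH κ (2 ^ L) C1 J r0 m W) (N : ℕ) :
    SN κ m W r0 N ≤ SN κ m W r0 N / 2 + (L + C1 * (L + J) + C1 * (J + 1) + 2 * L) * N1
      + 2 * κ * CW * ∫⁻ x : E d, Ex N (fun ω : ℕ → St d => ⨆ l ∈ Finset.range (N + 1), wv W x r0 ω l) := by
  -- measurability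
  have hav : ∀ (ω : ℕ → St d) (l : ℕ), Measurable (fun x => av m x r0 ω l) := fun ω l =>
    (hmeas (r0 / 2 ^ l)).comp (measurable_id.add_const _)
  have hg : ∀ (ω : ℕ → St d) (l : ℕ), Measurable (fun x => wv (gamE m) x r0 ω l) := fun ω l =>
    (gamE_measurable hmeas (r0 / 2 ^ l)).comp (measurable_id.add_const _)
  have hwv : ∀ (ω : ℕ → St d) (l : ℕ), Measurable (fun x => wv W x r0 ω l) := fun ω l =>
    (hW (r0 / 2 ^ l)).comp (measurable_id.add_const _)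
  have hrec := rec_measurable hmeas hW κ r0
  have m6 : ∀ i : ℕ, Measurable (fun x : E d => Ex N (fun ω : ℕ → St d => ∑ l ∈ Finset.range (N + 1),
      ind (Rec κ (av m x r0 ω) (wv W x r0 ω) 0 l ∧ cnt κ (av m x r0 ω) (wv W x r0 ω) 0 l = i) * av m x r0 ω l)) := by
    intro i
    apply Ex_measurable
    intro ω
    apply Finset.measurable_fun_sum
    intro l _
    apply Measurable.mul _ (hav ω l)
    apply ind_measurable
    exact (hrec ω l i).1.inter (hrec ω l i).2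
  have m1 : Measurable (fun x : E d => Ex N (fun ω : ℕ → St d => ∑ l ∈ Finset.range (N + 1),
      ind (Rec κ (av m x r0 ω) (wv W x r0 ω) 0 l) * av m x r0 ω l)) := by
    apply Ex_measurable
    intro ω
    apply Finset.measurable_fun_sum
    intro l _
    apply Measurable.mul _ (hav ω l)
    apply ind_measurable
    exact (hrec ω l 0).1
  have mg : ∀ n k : ℕ, Measurable (fun x : E d => Ex n (fun ω : ℕ → St d =>
      ∑ i ∈ Finset.range k, wv (gamE m) x r0 ω i)) := by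
    intro n k
    apply Ex_measurable
    intro ω
    apply Finset.measurable_fun_sum
    intro i _
    exact hg ω i
  have m8 : ∀ l : ℕ, Measurable (fun x : E d => Ex l (fun ω : ℕ → St d => T8 m r0 J l (x + r0 • Zp l ω))) := by
    intro l
    apply Ex_measurable
    intro ω
    exact (T8_measurable hmeas r0 J l).comp (measurable_id.add_const _)
  have mw : Measurable (fun x : E d => Ex N (fun ω : ℕ → St d => ⨆ l ∈ Finset.range (N + 1), wv W x r0 ω l)) := by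
    apply Ex_measurable
    intro ω
    apply Measurable.iSup
    intro l
    apply Measurable.iSup
    intro _
    exact hwv ω l
  have hpw := pw hm hκ hgrow hr0 hL hKL (N := N)
  unfold SN
  refine (lintegral_mono hpw).trans ?_
  rw [lint_split (Finset.measurable_fun_sum _ fun i _ => m6 i) m1 (mg _ _)
    (Finset.measurable_fun_sum _ fun l _ => m8 l) mw (mg _ _),
    lintegral_finsetSum _ (fun i _ => m6 i), lintegral_finsetSum _ (fun l _ => m8 l)]
  have b1 : ∑ i ∈ Finset.range L, ∫⁻ x : E d, Ex N (fun ω : ℕ → St d => ∑ l ∈ Finset.range (N + 1),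
      ind (Rec κ (av m x r0 ω) (wv W x r0 ω) 0 l ∧ cnt κ (av m x r0 ω) (wv W x r0 ω) 0 l = i) * av m x r0 ω l)
      ≤ (L : ℝ≥0∞) * N1 := by
    calc _ ≤ ∑ i ∈ Finset.range L, N1 :=
          Finset.sum_le_sum fun i _ => rec_i_le hm hmeas hW κ hr0 hN1 N i
      _ = (L : ℝ≥0∞) * N1 := by rw [Finset.sum_const, Finset.card_range, nsmul_eq_mul]
  have b2 := gam_path_le hm hmeas hr0 hN1 (N + J) (N + J)
  have b3 := gam_path_le hm hmeas hr0 hN1 N N
  have b4 := T8_sum_le hm hmeas hr0 hN1 N J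
  calc _ ≤ (L : ℝ≥0∞) * N1 + (2⁻¹ * (∫⁻ x : E d, Ex N (fun ω : ℕ → St d => ∑ l ∈ Finset.range (N + 1),
        ind (Rec κ (av m x r0 ω) (wv W x r0 ω) 0 l) * av m x r0 ω l))
        + C1 * (((L + J : ℕ) : ℝ≥0∞) * N1) + C1 * (((J : ℝ≥0∞) + 1) * N1)
        + κ * (2 * CW * ∫⁻ x : E d, Ex N (fun ω : ℕ → St d => ⨆ l ∈ Finset.range (N + 1), wv W x r0 ω l))
        + 2 * ((L : ℝ≥0∞) * N1)) := by
        gcongr
    _ = _ := by
        rw [ENNReal.div_eq_inv_mul]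
        push_cast
        ring

end HG
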