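import Pool.Agent.W_MP_825298_an.Ex2

open MeasureTheory Set Filter Topology
open scoped ENNReal NNReal BigOperators

namespace HG
variable {d : ℕ}

variable {V : Type*} [NormedAddCommGroup V] [NormedSpace ℝ V]

/-- running maximum and its increments -/
noncomputable def Mx (a : ℕ → ℝ≥0∞) (j : ℕ) : ℝ≥0∞ := (Finset.range (j + 1)).sup a

noncomputable def Dx (a : ℕ → ℝ≥0∞) : ℕ → ℝ≥0∞
  | 0 => Mx a 0
  | i + 1 => Mx a (i + 1) - Mx a i

theorem Mx_mono (a : ℕ → ℝ≥0∞) {i j : ℕ} (h : i ≤ j) : Mx a i ≤ Mx a j :=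
  Finset.sup_mono (Finset.range_mono (by omega))

theorem le_Mx (a : ℕ → ℝ≥0∞) (j : ℕ) : a j ≤ Mx a j :=
  Finset.le_sup (f := a) (Finset.mem_range.2 (Nat.lt_succ_self j))

theorem sum_Dx (a : ℕ → ℝ≥0∞) (n : ℕ) : ∑ i ∈ Finset.range (n + 1), Dx a i = Mx a n := by
  induction n with
  | zero => simp [Dx]
  | succ n ih =>
    rw [Finset.sum_range_succ, ih]
    exact add_tsub_cancel_of_le (Mx_mono a (Nat.le_succ n))

theorem Mx_congr {a b : ℕ → ℝ≥0∞} {i : ℕ} (h : ∀ k ≤ i, a k = b k) : Mx a i = Mx b i :=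
  Finset.sup_congr rfl fun k hk => h k (Nat.lt_succ_iff.1 (Finset.mem_range.1 hk))

theorem Dx_congr {a b : ℕ → ℝ≥0∞} {i : ℕ} (h : ∀ k ≤ i, a k = b k) : Dx a i = Dx b i := by
  cases i with
  | zero => exact Mx_congr h
  | succ i =>
    rw [Dx, Dx, Mx_congr h, Mx_congr (i := i) fun k hk => h k (hk.trans (Nat.le_succ i))]

theorem Mx_measurable {a : E d → ℕ → ℝ≥0∞} (ha : ∀ k, Measurable fun x => a x k) (i : ℕ) :
    Measurable fun x => Mx (a x) i := by
  induction i with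
  | zero =>
    have : (fun x => Mx (a x) 0) = fun x => a x 0 := by
      funext x; simp [Mx]
    rw [this]; exact ha 0
  | succ i ih =>
    have : (fun x => Mx (a x) (i + 1)) = fun x => max (a x (i + 1)) (Mx (a x) i) := by
      funext x
      rw [Mx, Finset.range_add_one, Finset.sup_insert]; rfl
    rw [this]; exact (ha (i + 1)).max ih

theorem Dx_measurable {a : E d → ℕ → ℝ≥0∞} (ha : ∀ k, Measurable fun x => a x k) (i : ℕ) :
    Measurable fun x => Dx (a x) i := by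
  cases i with
  | zero => exact Mx_measurable ha 0
  | succ i => exact (Mx_measurable ha (i + 1)).sub (Mx_measurable ha i)

theorem Dx_av_dep (m : E d → ℝ → V) (x : E d) (r : ℝ) (i : ℕ) :
    Dep i (fun ω => Dx (av m x r ω) i) := by
  intro ω ω' h
  refine Dx_congr fun k hk => ?_
  exact av_dep m x r k ω ω' fun l hl => h l (lt_of_lt_of_le hl hk)

theorem av_measurable {m : E d → ℝ → V} (hmeas : ∀ r, Measurable (fun x => ‖m x r‖ₑ)) (r0 : ℝ)
    (ω : ℕ → St d) (k : ℕ) : Measurable fun x => av m x r0 ω k := by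
  have : (fun x => av m x r0 ω k) = (fun y => ‖m y (r0 / 2 ^ k)‖ₑ) ∘ fun x => x + r0 • Zp k ω := rfl
  rw [this]
  exact (hmeas _).comp (measurable_id.add_const _)

/-- Duality: `∫ ‖m(z,r_j)‖ ψ(z) dz = ∫ Ex_j[a_j ψ(X_j)] ≤ ∫ Ex_j[M_j ψ(X_j)] = ∑_{i≤j} ∫ Ex_j[D_i ψ(X_j)]`, then the Markov property
(`Ex_splice`). -/
theorem tm_weight {m : E d → ℝ → V} (hmeas : ∀ r, Measurable (fun x => ‖m x r‖ₑ)) {r0 : ℝ} (hr0 : 0 < r0) (j : ℕ)
    {ψ : E d → ℝ≥0∞} (hψ : Measurable ψ) :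
    ∫⁻ z : E d, ‖m z (r0 / 2 ^ j)‖ₑ * ψ z ≤ ∑ i ∈ Finset.range (j + 1), ∫⁻ x : E d,
      Ex i (fun ω : ℕ → St d => Dx (av m x r0 ω) i *
        Ex (j - i) (fun ω' : ℕ → St d => ψ (x + r0 • Zp i ω + (r0 / 2 ^ i) • Zp (j - i) ω'))) := by
  have hg : Measurable fun z : E d => ‖m z (r0 / 2 ^ j)‖ₑ * ψ z := (hmeas _).mul hψ
  rw [← inv_lintegral hg j j r0]
  have hterm : ∀ i ≤ j, ∀ x : E d,
      Ex j (fun ω : ℕ → St d => Dx (av m x r0 ω) i * ψ (x + r0 • Zp j ω)) =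
      Ex i (fun ω : ℕ → St d => Dx (av m x r0 ω) i *
        Ex (j - i) (fun ω' : ℕ → St d => ψ (x + r0 • Zp i ω + (r0 / 2 ^ i) • Zp (j - i) ω'))) := by
    intro i hi x
    have hji : j = i + (j - i) := by omega
    have h1 : Ex j (fun ω : ℕ → St d => Dx (av m x r0 ω) i * ψ (x + r0 • Zp j ω)) =
        Ex (i + (j - i)) (fun ω : ℕ → St d => Dx (av m x r0 ω) i * ψ (x + r0 • Zp (i + (j - i)) ω)) := by
      rw [← hji]
    rw [h1, Ex_splice]
    congr 1
    funext ω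
    rw [← Ex_mul]
    congr 1
    funext ω'
    have h2 : Dx (av m x r0 (splice i ω ω')) i = Dx (av m x r0 ω) i := by
      refine Dx_av_dep m x r0 i _ _ ?_
      intro k hk
      simp [splice, hk]
    rw [h2, Zp_splice, smul_add, smul_smul, ← add_assoc, div_eq_mul_inv]
  have hmeasT : ∀ i, Measurable fun x : E d =>
      Ex j (fun ω : ℕ → St d => Dx (av m x r0 ω) i * ψ (x + r0 • Zp j ω)) := by
    intro i
    refine Ex_measurable j (f := fun x ω => Dx (av m x r0 ω) i * ψ (x + r0 • Zp j ω)) fun ω => ?_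
    exact (Dx_measurable (fun k => av_measurable hmeas r0 ω k) i).mul
      (hψ.comp (measurable_id.add_const _))
  calc ∫⁻ x : E d, Ex j (fun ω : ℕ → St d => ‖m (x + r0 • Zp j ω) (r0 / 2 ^ j)‖ₑ * ψ (x + r0 • Zp j ω))
      ≤ ∫⁻ x : E d, ∑ i ∈ Finset.range (j + 1),
          Ex j (fun ω : ℕ → St d => Dx (av m x r0 ω) i * ψ (x + r0 • Zp j ω)) := by
        refine lintegral_mono fun x => ?_
        rw [← Ex_sum]
        refine Ex_mono j fun ω => ?_
        rw [← Finset.sum_mul, sum_Dx]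
        exact mul_le_mul_left (le_Mx (av m x r0 ω) j) _
    _ = ∑ i ∈ Finset.range (j + 1), ∫⁻ x : E d,
          Ex j (fun ω : ℕ → St d => Dx (av m x r0 ω) i * ψ (x + r0 • Zp j ω)) :=
        lintegral_finsetSum _ fun i _ => hmeasT i
    _ = _ := by
        refine Finset.sum_congr rfl fun i hi => ?_
        refine lintegral_congr fun x => ?_
        exact hterm i (Nat.lt_succ_iff.1 (Finset.mem_range.1 hi)) x

/-- `∑_{i ≤ n} ∫ Ex_i[D_i] = ∫ Ex_n[M_n]` -/
theorem tm_total {m : E d → ℝ → V} (hmeas : ∀ r, Measurable (fun x => ‖m x r‖ₑ)) {r0 : ℝ} (hr0 : 0 < r0) (n : ℕ) :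
    ∑ i ∈ Finset.range (n + 1), ∫⁻ x : E d, Ex i (fun ω : ℕ → St d => Dx (av m x r0 ω) i)
      = ∫⁻ x : E d, Ex n (fun ω : ℕ → St d => Mx (av m x r0 ω) n) := by
  have h1 : ∀ x : E d, Ex n (fun ω : ℕ → St d => Mx (av m x r0 ω) n) =
      ∑ i ∈ Finset.range (n + 1), Ex i (fun ω : ℕ → St d => Dx (av m x r0 ω) i) := by
    intro x
    simp_rw [← sum_Dx]
    rw [Ex_sum]
    refine Finset.sum_congr rfl fun i hi => ?_
    exact Ex_dep (Nat.lt_succ_iff.1 (Finset.mem_range.1 hi)) (Dx_av_dep m x r0 i)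
  rw [← lintegral_finsetSum]
  · exact lintegral_congr fun x => (h1 x).symm
  · intro i _
    refine Ex_measurable i (f := fun x ω => Dx (av m x r0 ω) i) fun ω => ?_
    exact Dx_measurable (fun k => av_measurable hmeas r0 ω k) i

end HG
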