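import Pool.Agent.W_MP_825298_an.TM2
import Pool.Agent.W_MP_825298_an.TM3

open MeasureTheory Set Filter Topology
open scoped ENNReal NNReal BigOperators

namespace HG
variable {d : ℕ}

variable {V : Type*} [NormedAddCommGroup V] [NormedSpace ℝ V]

private lemma TM4_tsum (N : ℕ) (f : ℕ → (ℕ → St d) → ℝ≥0∞) :
    Ex N (fun ω => ∑' i, f i ω) = ∑' i, Ex N (f i) := by
  induction N generalizing f with
  | zero => rfl
  | succ N ih =>
    simp only [Ex]
    have h1 : ∀ k : St d, Ex N (fun ω => ∑' i, f i (consω k ω)) =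
        ∑' i, Ex N (fun ω => f i (consω k ω)) := fun k => ih (fun i ω => f i (consω k ω))
    simp only [h1, ENNReal.smul_def, smul_eq_mul]
    rw [Summable.tsum_finsetSum (fun _ _ => ENNReal.summable)]
    refine Finset.sum_congr rfl fun k _ => ?_
    rw [ENNReal.tsum_mul_left]

private lemma TM4_comm (N i : ℕ) (f : (ℕ → St d) → (ℕ → St d) → ℝ≥0∞) :
    Ex N (fun ω' => Ex i (fun ω => f ω ω')) = Ex i (fun ω => Ex N (fun ω' => f ω ω')) := by
  induction N generalizing f with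
  | zero => rfl
  | succ N ih =>
    simp only [Ex]
    have h1 : ∀ k : St d, Ex N (fun ω' => Ex i (fun ω => f ω (consω k ω'))) =
        Ex i (fun ω => Ex N (fun ω' => f ω (consω k ω'))) := fun k =>
      ih (fun ω ω' => f ω (consω k ω'))
    simp only [h1]
    have h2 := Ex_sum (d := d) (R := ℝ≥0∞) i (Finset.univ : Finset (St d))
      (fun k ω => wt k • Ex N (fun ω' => f ω (consω k ω')))
    rw [h2]
    refine Finset.sum_congr rfl fun k _ => ?_
    rw [Ex_smul]

private lemma TM4_meas_av {m : E d → ℝ → V} (hmeas : ∀ r, Measurable (fun x => ‖m x r‖ₑ))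
    (r0 : ℝ) (ω : ℕ → St d) (l : ℕ) : Measurable (fun x : E d => av m x r0 ω l) := by
  unfold av
  exact (hmeas (r0 / 2 ^ l)).comp (measurable_id.add_const _)

private lemma TM4_meas_Mx {m : E d → ℝ → V} (hmeas : ∀ r, Measurable (fun x => ‖m x r‖ₑ))
    (r0 : ℝ) (ω : ℕ → St d) (l : ℕ) : Measurable (fun x : E d => Mx (av m x r0 ω) l) := by
  unfold Mx
  simp only [Finset.sup_eq_iSup]
  refine Measurable.iSup fun i => Measurable.iSup fun _ => TM4_meas_av hmeas r0 ω i

private lemma TM4_meas_Dx {m : E d → ℝ → V} (hmeas : ∀ r, Measurable (fun x => ‖m x r‖ₑ))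
    (r0 : ℝ) (ω : ℕ → St d) (l : ℕ) : Measurable (fun x : E d => Dx (av m x r0 ω) l) := by
  cases l with
  | zero => exact TM4_meas_Mx hmeas r0 ω 0
  | succ l => exact (TM4_meas_Mx hmeas r0 ω (l + 1)).sub (TM4_meas_Mx hmeas r0 ω l)

private lemma TM4_meas_Th (r0 : ℝ) (i k : ℕ) : Measurable (Th (d := d) r0 i k) := by
  unfold Th
  refine Measurable.tsum fun j => ?_
  by_cases h : max i k ≤ j
  · simp only [if_pos h]
    apply Measurable.const_mul
    apply Ex_measurable
    intro ω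
    exact ((kap_measurable _).comp (measurable_id.sub_const _)).ennreal_ofReal
  · simp only [if_neg h]
    exact measurable_const

/-- the pointwise bound of `W` -/
private lemma TM4_pointwise {CT : ℝ≥0} {m : E d → ℝ → V} {W : E d → ℝ → ℝ≥0∞} {r0 : ℝ}
    (hr0 : 0 < r0) (hmeas : ∀ r, Measurable (fun x => ‖m x r‖ₑ)) (hT : TBH CT r0 m W) (x' : E d)
    (k : ℕ) : W x' (r0 / 2 ^ k) ≤ CT * ∑' i : ℕ, ∫⁻ x : E d, Ex i (fun ω : ℕ → St d =>
      Dx (av m x r0 ω) i * Th r0 i k (x' - (x + r0 • Zp i ω))) := by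
  have hrk : 0 < r0 / 2 ^ k := by positivity
  have hrk' : r0 / 2 ^ k ≤ r0 := by
    apply div_le_self hr0.le
    exact one_le_pow₀ (by norm_num)
  refine (hT x' (r0 / 2 ^ k) hrk hrk').trans (mul_le_mul' le_rfl ?_)
  -- the summands
  let c : ℕ → ℝ≥0∞ := fun j => ENNReal.ofReal ((2 : ℝ) ^ (-(((j : ℝ) - k) / 4)))
  let I : ℕ → ℕ → ℝ≥0∞ := fun i j => ∫⁻ x : E d, Ex i (fun ω : ℕ → St d =>
    Dx (av m x r0 ω) i * Ex (j - i) (fun ω' : ℕ → St d =>
      ENNReal.ofReal (kap (r0 / 2 ^ k) (x' - (x + r0 • Zp i ω) - (r0 / 2 ^ i) • Zp (j - i) ω'))))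
  have hmE : ∀ (i j : ℕ) (ω : ℕ → St d), Measurable (fun x : E d => Ex (j - i)
      (fun ω' : ℕ → St d => ENNReal.ofReal
        (kap (r0 / 2 ^ k) (x' - (x + r0 • Zp i ω) - (r0 / 2 ^ i) • Zp (j - i) ω')))) := by
    intro i j ω
    apply Ex_measurable
    intro ω'
    exact ((kap_measurable _).comp
      ((measurable_const.sub (measurable_id.add_const _)).sub_const _)).ennreal_ofReal
  have hrhs : ∀ i : ℕ, ∫⁻ x : E d, Ex i (fun ω : ℕ → St d =>
      Dx (av m x r0 ω) i * Th r0 i k (x' - (x + r0 • Zp i ω))) =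
      ∑' j : ℕ, (if max i k ≤ j then c j * I i j else 0) := by
    intro i
    have h1 : ∀ x : E d, Ex i (fun ω : ℕ → St d =>
        Dx (av m x r0 ω) i * Th r0 i k (x' - (x + r0 • Zp i ω))) =
        ∑' j : ℕ, (if max i k ≤ j then c j * Ex i (fun ω : ℕ → St d =>
          Dx (av m x r0 ω) i * Ex (j - i) (fun ω' : ℕ → St d =>
            ENNReal.ofReal (kap (r0 / 2 ^ k)
              (x' - (x + r0 • Zp i ω) - (r0 / 2 ^ i) • Zp (j - i) ω')))) else 0) := by
      intro x
      unfold Th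
      simp only [← ENNReal.tsum_mul_left]
      rw [TM4_tsum]
      refine tsum_congr fun j => ?_
      by_cases h : max i k ≤ j
      · simp only [if_pos h]
        rw [← Ex_mul]
        congr 1
        funext ω
        ring
      · simp only [if_neg h, mul_zero]
        exact Ex_const i 0
    simp only [h1]
    rw [lintegral_tsum]
    · refine tsum_congr fun j => ?_
      by_cases h : max i k ≤ j
      · simp only [if_pos h]
        rw [lintegral_const_mul]
        apply Ex_measurable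
        intro ω
        exact (TM4_meas_Dx hmeas r0 ω i).mul (hmE i j ω)
      · simp only [if_neg h]
        simp
    · intro j
      by_cases h : max i k ≤ j
      · simp only [if_pos h]
        apply Measurable.aemeasurable
        apply Measurable.const_mul
        apply Ex_measurable
        intro ω
        exact (TM4_meas_Dx hmeas r0 ω i).mul (hmE i j ω)
      · simp only [if_neg h]
        exact aemeasurable_const
  simp only [hrhs]
  rw [ENNReal.tsum_comm]
  refine le_trans ?_ (ENNReal.tsum_comp_le_tsum_of_injective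
    (f := fun j : ℕ => k + j) (fun a b h => Nat.add_left_cancel h)
    (fun j => ∑' i : ℕ, (if max i k ≤ j then c j * I i j else 0)))
  refine ENNReal.tsum_le_tsum fun j => ?_
  refine le_trans ?_ (ENNReal.sum_le_tsum (Finset.range (k + j + 1)))
  have h2 : ∀ i ∈ Finset.range (k + j + 1),
      (if max i k ≤ k + j then c (k + j) * I i (k + j) else 0) = c (k + j) * I i (k + j) := by
    intro i hi
    rw [Finset.mem_range] at hi
    rw [if_pos]
    omega
  rw [Finset.sum_congr rfl h2, ← Finset.mul_sum]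
  have hc : c (k + j) = ENNReal.ofReal ((2 : ℝ) ^ (-((j : ℝ) / 4))) := by
    simp only [c]
    congr 2
    push_cast
    ring
  rw [hc]
  gcongr
  have h3 := tm_weight hmeas hr0 (k + j) (ψ := fun z => ENNReal.ofReal (kap (r0 / 2 ^ k) (x' - z)))
    ((kap_measurable _).comp (measurable_const.sub measurable_id)).ennreal_ofReal
  have h4 : ∫⁻ z : E d, ENNReal.ofReal (kap (r0 / 2 ^ k) (x' - z)) * ‖m z (r0 / 2 ^ k / 2 ^ j)‖ₑ =
      ∫⁻ z : E d, ‖m z (r0 / 2 ^ (k + j))‖ₑ * ENNReal.ofReal (kap (r0 / 2 ^ k) (x' - z)) := by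
    have h5 : r0 / 2 ^ k / 2 ^ j = r0 / 2 ^ (k + j) := by
      rw [div_div, pow_add]
    rw [h5]
    refine lintegral_congr fun z => ?_
    rw [mul_comm]
  rw [h4]
  refine h3.trans (le_of_eq ?_)
  refine Finset.sum_congr rfl fun i _ => ?_
  simp only [I]
  refine lintegral_congr fun x => ?_
  congr 1
  funext ω
  congr 2
  funext ω'
  congr 2
  abel

/-- Maximal inequality. By `TBH` at `(x', r0/2^k)`, `tm_weight` (with `ψ = ofReal (kap (r0/2^k) (x' - ·))`) and Tonelli,
`W(x', r_k) ≤ CT ∑_i ∫ Ex_i[D_i Th r0 i k (x' - X_i)] dx`; take the sup over `k ≤ N` along the second path inside the integral,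
integrate in `x'` (Tonelli; `Th_sup`), then `tm_total`. (`kap` is even.) -/
theorem TM (hd : 1 ≤ d) (CT : ℝ≥0) : ∃ C : ℝ≥0, ∀ (m : E d → ℝ → V) (W : E d → ℝ → ℝ≥0∞) (r0 : ℝ), 0 < r0 →
    (∀ r, Measurable (fun x => ‖m x r‖ₑ)) → TBH CT r0 m W → ∀ N : ℕ,
    ∫⁻ x : E d, Ex N (fun ω : ℕ → St d => ⨆ l ∈ Finset.range (N + 1), wv W x r0 ω l)
      ≤ C * ⨆ N' : ℕ, ∫⁻ x : E d, Ex N' (fun ω : ℕ → St d => Mx (av m x r0 ω) N') := by
  obtain ⟨CS, hCS⟩ := Th_sup (d := d) hd
  refine ⟨CT * CS, ?_⟩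
  intro m W r0 hr0 hmeas hT N
  let Q : ℕ → (ℕ → St d) → E d → E d → ℝ≥0∞ := fun i ω' x' z =>
    ⨆ k ∈ Finset.range (N + 1), Th r0 i k (x' + r0 • Zp k ω' - z)
  have hQm : ∀ (i : ℕ) (ω' ω : ℕ → St d),
      Measurable (fun p : E d × E d => Q i ω' p.1 (p.2 + r0 • Zp i ω)) := by
    intro i ω' ω
    refine Measurable.iSup fun k => Measurable.iSup fun _ => ?_
    exact (TM4_meas_Th r0 i k).comp
      ((measurable_fst.add_const _).sub (measurable_snd.add_const _))
  have hQm1 : ∀ (i : ℕ) (ω' : ℕ → St d) (z : E d), Measurable (fun x' : E d => Q i ω' x' z) := by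
    intro i ω' z
    refine Measurable.iSup fun k => Measurable.iSup fun _ => ?_
    exact (TM4_meas_Th r0 i k).comp ((measurable_id.add_const _).sub_const _)
  let F : ℕ → (ℕ → St d) → E d → E d → ℝ≥0∞ := fun i ω' x' x =>
    Ex i (fun ω : ℕ → St d => Dx (av m x r0 ω) i * Q i ω' x' (x + r0 • Zp i ω))
  have hFm : ∀ (i : ℕ) (ω' : ℕ → St d), Measurable (fun p : E d × E d => F i ω' p.1 p.2) := by
    intro i ω'
    have hg : ∀ (n : ℕ) (f : E d × E d → (ℕ → St d) → ℝ≥0∞), (∀ ω, Measurable (fun p => f p ω)) →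
        Measurable (fun p => Ex n (f p)) := by
      intro n
      induction n with
      | zero => intro f hf; exact hf _
      | succ n ih =>
        intro f hf
        simp only [Ex, ENNReal.smul_def, smul_eq_mul]
        refine Finset.measurable_sum _ fun k _ => ?_
        exact (ih (fun p ω => f p (consω k ω)) (fun ω => hf _)).const_mul _
    apply hg
    intro ω
    exact ((TM4_meas_Dx hmeas r0 ω i).comp measurable_snd).mul (hQm i ω' ω)
  -- Step 1
  have h1 : ∀ (x' : E d) (ω' : ℕ → St d), ⨆ l ∈ Finset.range (N + 1), wv W x' r0 ω' l ≤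
      CT * ∑' i : ℕ, ∫⁻ x : E d, F i ω' x' x := by
    intro x' ω'
    refine iSup₂_le fun l hl => ?_
    refine (TM4_pointwise hr0 hmeas hT (x' + r0 • Zp l ω') l).trans ?_
    gcongr with i x
    apply Ex_mono
    intro ω
    gcongr
    exact le_iSup₂ (f := fun k (_ : k ∈ Finset.range (N + 1)) =>
      Th r0 i k (x' + r0 • Zp k ω' - (x + r0 • Zp i ω))) l hl
  have h2 : ∫⁻ x' : E d, Ex N (fun ω' : ℕ → St d => ⨆ l ∈ Finset.range (N + 1), wv W x' r0 ω' l)
      ≤ ∫⁻ x' : E d, Ex N (fun ω' : ℕ → St d => CT * ∑' i : ℕ, ∫⁻ x : E d, F i ω' x' x) :=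
    lintegral_mono fun x' => Ex_mono N fun ω' => h1 x' ω'
  refine h2.trans ?_
  have hm1 : ∀ (i : ℕ) (ω' : ℕ → St d), Measurable (fun x' : E d => ∫⁻ x : E d, F i ω' x' x) :=
    fun i ω' => Measurable.lintegral_prod_right' (hFm i ω')
  have h3 : ∫⁻ x' : E d, Ex N (fun ω' : ℕ → St d => CT * ∑' i : ℕ, ∫⁻ x : E d, F i ω' x' x) =
      CT * ∑' i : ℕ, ∫⁻ x : E d, Ex i (fun ω : ℕ → St d => Dx (av m x r0 ω) i *
        ∫⁻ x' : E d, Ex N (fun ω' : ℕ → St d => Q i ω' x' (x + r0 • Zp i ω))) := by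
    rw [Ex_lintegral N (fun ω' => (Measurable.tsum fun i => hm1 i ω').const_mul _)]
    have h4 : ∀ ω' : ℕ → St d, ∫⁻ x' : E d, CT * ∑' i : ℕ, ∫⁻ x : E d, F i ω' x' x =
        CT * ∑' i : ℕ, ∫⁻ x : E d, Ex i (fun ω : ℕ → St d => Dx (av m x r0 ω) i *
          ∫⁻ x' : E d, Q i ω' x' (x + r0 • Zp i ω)) := by
      intro ω'
      rw [lintegral_const_mul _ (Measurable.tsum fun i => hm1 i ω'),
        lintegral_tsum fun i => (hm1 i ω').aemeasurable]
      congr 1
      refine tsum_congr fun i => ?_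
      rw [lintegral_lintegral_swap (hFm i ω').aemeasurable]
      refine lintegral_congr fun x => ?_
      simp only [F]
      rw [Ex_lintegral i]
      · congr 1
        funext ω
        rw [lintegral_const_mul _ (hQm1 i ω' (x + r0 • Zp i ω))]
      · intro ω
        exact (hQm1 i ω' (x + r0 • Zp i ω)).const_mul _
    simp only [h4]
    rw [Ex_mul, TM4_tsum]
    congr 1
    refine tsum_congr fun i => ?_
    have hm2 : ∀ (ω' ω : ℕ → St d), Measurable (fun x : E d =>
        ∫⁻ x' : E d, Q i ω' x' (x + r0 • Zp i ω)) := by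
      intro ω' ω
      exact Measurable.lintegral_prod_left' (hQm i ω' ω)
    rw [← Ex_lintegral N]
    · refine lintegral_congr fun x => ?_
      rw [TM4_comm]
      congr 1
      funext ω
      rw [Ex_mul, Ex_lintegral N (fun ω' => hQm1 i ω' (x + r0 • Zp i ω))]
    · intro ω'
      apply Ex_measurable
      intro ω
      exact (TM4_meas_Dx hmeas r0 ω i).mul (hm2 ω' ω)
  rw [h3]
  have h5 : ∀ i : ℕ, ∫⁻ x : E d, Ex i (fun ω : ℕ → St d => Dx (av m x r0 ω) i *
        ∫⁻ x' : E d, Ex N (fun ω' : ℕ → St d => Q i ω' x' (x + r0 • Zp i ω))) ≤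
      CS * ∫⁻ x : E d, Ex i (fun ω : ℕ → St d => Dx (av m x r0 ω) i) := by
    intro i
    rw [← lintegral_const_mul]
    · refine lintegral_mono fun x => ?_
      rw [← Ex_mul]
      apply Ex_mono
      intro ω
      rw [mul_comm]
      gcongr
      exact hCS r0 hr0 i N (x + r0 • Zp i ω)
    · apply Ex_measurable
      intro ω
      exact TM4_meas_Dx hmeas r0 ω i
  have h6 : ∑' i : ℕ, ∫⁻ x : E d, Ex i (fun ω : ℕ → St d => Dx (av m x r0 ω) i) ≤
      ⨆ N' : ℕ, ∫⁻ x : E d, Ex N' (fun ω : ℕ → St d => Mx (av m x r0 ω) N') := by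
    rw [ENNReal.tsum_eq_iSup_nat]
    refine iSup_le fun n => ?_
    refine le_trans ?_ (le_iSup (fun N' : ℕ => ∫⁻ x : E d, Ex N'
      (fun ω : ℕ → St d => Mx (av m x r0 ω) N')) n)
    rw [← tm_total hmeas hr0 n]
    exact Finset.sum_le_sum_of_subset (Finset.range_mono (Nat.le_succ n))
  calc (CT : ℝ≥0∞) * ∑' i : ℕ, ∫⁻ x : E d, Ex i (fun ω : ℕ → St d => Dx (av m x r0 ω) i *
        ∫⁻ x' : E d, Ex N (fun ω' : ℕ → St d => Q i ω' x' (x + r0 • Zp i ω)))
      ≤ CT * ∑' i : ℕ, CS * ∫⁻ x : E d, Ex i (fun ω : ℕ → St d => Dx (av m x r0 ω) i) := by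
        gcongr with i
        exact h5 i
    _ = CT * CS * ∑' i : ℕ, ∫⁻ x : E d, Ex i (fun ω : ℕ → St d => Dx (av m x r0 ω) i) := by
        rw [ENNReal.tsum_mul_left, mul_assoc]
    _ ≤ CT * CS * ⨆ N' : ℕ, ∫⁻ x : E d, Ex N' (fun ω : ℕ → St d => Mx (av m x r0 ω) N') := by
        gcongr
    _ = _ := by rw [ENNReal.coe_mul]

end HG
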