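import Pool.Agent.W_MP_825298_an.Asm2
import Pool.Agent.W_MP_825298_an.TM4

open MeasureTheory Set Filter Topology
open scoped ENNReal NNReal BigOperators

namespace HG
variable {d : ℕ}

variable {V : Type*} [NormedAddCommGroup V] [NormedSpace ℝ V]

/-- the expected supremum of `w` -/
noncomputable def Asm3_w (W : E d → ℝ → ℝ≥0∞) (r0 : ℝ) (N : ℕ) : ℝ≥0∞ :=
  ∫⁻ x : E d, Ex N (fun ω : ℕ → St d => ⨆ l ∈ Finset.range (N + 1), wv W x r0 ω l)

theorem Asm3_ind_measurable {m : E d → ℝ → V} {W : E d → ℝ → ℝ≥0∞} (hmeas : ∀ r, Measurable (fun x => ‖m x r‖ₑ))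
    (hW : ∀ r, Measurable (fun x => W x r)) (κ : ℝ≥0) (r0 : ℝ) (N : ℕ) :
    Measurable (fun x : E d => Ex N (fun ω : ℕ → St d => ∑ l ∈ Finset.range (N + 1),
      ind (Rec κ (av m x r0 ω) (wv W x r0 ω) 0 l) * av m x r0 ω l)) := by
  classical
  refine Ex_measurable N (f := fun x ω => ∑ l ∈ Finset.range (N + 1),
      ind (Rec κ (av m x r0 ω) (wv W x r0 ω) 0 l) * av m x r0 ω l) fun ω => ?_
  refine Finset.measurable_sum _ fun l _ => ?_
  refine Measurable.mul ?_ (av_measurable hmeas r0 ω l)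
  have h1 := (rec_measurable hmeas hW κ r0 ω l 0).1
  have h2 : (fun x : E d => ind (Rec κ (av m x r0 ω) (wv W x r0 ω) 0 l))
      = {x : E d | Rec κ (av m x r0 ω) (wv W x r0 ω) 0 l}.indicator (fun _ => 1) := by
    funext x
    by_cases h : Rec κ (av m x r0 ω) (wv W x r0 ω) 0 l
    · rw [Asm1_ind_true h, indicator_of_mem (by exact h)]
    · rw [Asm1_ind_false h, indicator_of_notMem (by exact h)]
  rw [h2]
  exact measurable_const.indicator h1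

theorem Asm3_sup_le (W : E d → ℝ → ℝ≥0∞) (x : E d) (r0 : ℝ) (ω : ℕ → St d) (N l : ℕ) (hl : l ≤ N) :
    wv W x r0 ω l ≤ ⨆ l ∈ Finset.range (N + 1), wv W x r0 ω l :=
  le_iSup₂_of_le l (Finset.mem_range.2 (Nat.lt_succ_of_le hl)) le_rfl

/-- `A_N ≤ 2 S_N + κ w_N` -/
theorem Asm3_A_le {m : E d → ℝ → V} {W : E d → ℝ → ℝ≥0∞} (hmeas : ∀ r, Measurable (fun x => ‖m x r‖ₑ))
    (hW : ∀ r, Measurable (fun x => W x r)) (κ : ℝ≥0) (r0 : ℝ) (N : ℕ) :
    ∫⁻ x : E d, Ex N (fun ω : ℕ → St d => Mx (av m x r0 ω) N)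
      ≤ 2 * SN κ m W r0 N + κ * Asm3_w W r0 N := by
  have h1 : ∀ x : E d, Ex N (fun ω : ℕ → St d => Mx (av m x r0 ω) N)
      ≤ 2 * Ex N (fun ω : ℕ → St d => ∑ l ∈ Finset.range (N + 1),
        ind (Rec κ (av m x r0 ω) (wv W x r0 ω) 0 l) * av m x r0 ω l)
        + κ * Ex N (fun ω : ℕ → St d => ⨆ l ∈ Finset.range (N + 1), wv W x r0 ω l) := by
    intro x
    rw [← Ex_mul, ← Ex_mul, ← Ex_add]
    refine Ex_mono N fun ω => ?_
    refine Finset.sup_le fun l hl => ?_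
    exact le_rec_sum κ (av m x r0 ω) (wv W x r0 ω) N _ (fun i hi => Asm3_sup_le W x r0 ω N i hi)
      (Nat.lt_succ_iff.1 (Finset.mem_range.1 hl))
  refine (lintegral_mono h1).trans ?_
  have hm1 := Asm3_ind_measurable hmeas hW κ r0 N
  have hm2 : Measurable (fun x : E d => Ex N (fun ω : ℕ → St d => ⨆ l ∈ Finset.range (N + 1), wv W x r0 ω l)) := by
    refine Ex_measurable N (f := fun x ω => ⨆ l ∈ Finset.range (N + 1), wv W x r0 ω l) fun ω => ?_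
    refine Measurable.iSup fun l => Measurable.iSup_Prop _ ?_
    exact (hW _).comp (measurable_id.add_const _)
  rw [lintegral_add_left (hm1.const_mul 2), lintegral_const_mul _ hm1, lintegral_const_mul _ hm2]
  rfl

/-- ASSEMBLY. `w_∞ = sup_N E sup_{l≤N} w`, `S_∞ = sup_N SN`, finite by the a priori bound (`rec_sum_le`).
`SN_le` gives `S_∞ ≤ 2 C N1 + 4 κ CW w_∞`, `TM` and `le_rec_sum` give `w_∞ ≤ C_TM (2 S_∞ + κ w_∞)`.
Take `κ` with `C_TM κ ≤ 1/2` and `16 κ CW C_TM ≤ 1/2`. -/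
theorem assembly (hd : 1 ≤ d) (CW CT : ℝ≥0) : ∃ κ : ℝ≥0, 0 < κ ∧ ∀ (L J : ℕ) (C1 : ℝ≥0), 1 ≤ L → ∃ C : ℝ≥0,
    ∀ (m : E d → ℝ → V) (W : E d → ℝ → ℝ≥0∞) (r0 : ℝ) (N1 : ℝ≥0∞), RefEq m →
      (∀ r, Measurable (fun x => ‖m x r‖ₑ)) → (∀ r, Measurable (fun x => W x r)) →
      (∀ (x x' : E d) (r : ℝ), 0 < r → ‖x' - x‖ ≤ r → W x' (r / 2) ≤ CW * W x r) →
      0 < r0 → (∀ r, 0 < r → ∫⁻ x : E d, ‖m x r‖ₑ ≤ N1) → TBH CT r0 m W → KLH κ (2 ^ L) C1 J r0 m W →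
      (∃ g : E d → ℝ≥0∞, Measurable g ∧ ∫⁻ x : E d, g x ≠ ⊤ ∧
        ∀ (x : E d) (ω : ℕ → St d) (l : ℕ), av m x r0 ω l ≤ g x ∧ wv W x r0 ω l ≤ g x) →
      ∀ N : ℕ, ∫⁻ x : E d, Ex N (fun ω : ℕ → St d => ⨆ l ∈ Finset.range (N + 1), wv W x r0 ω l) ≤ C * N1 := by
  obtain ⟨CM, hCM⟩ := TM (V := V) hd CT
  set κ : ℝ≥0 := (2 * (CM * (8 * CW + 1)) + 1)⁻¹ with hκdef
  have hκ : 0 < κ := by positivity
  have hκ2 : κ * (CM * (8 * CW + 1)) ≤ 1 / 2 := by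
    rw [hκdef, ← div_eq_inv_mul, div_le_iff₀ (by positivity)]
    generalize CM * (8 * CW + 1) = t
    rw [← NNReal.coe_le_coe]
    push_cast
    linarith [t.2]
  refine ⟨κ, hκ, ?_⟩
  intro L J C1 hL
  set K : ℝ≥0 := (L + C1 * (L + J) + C1 * (J + 1) + 2 * L) with hK
  refine ⟨8 * CM * K, ?_⟩
  intro m W r0 N1 hm hmeas hW hgrow hr0 hN1 hTB hKL hg N
  obtain ⟨g, hgm, hgfin, hg⟩ := hg
  -- a priori bounds
  have hwN : ∀ N, Asm3_w W r0 N ≤ ∫⁻ x : E d, g x := by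
    intro N
    refine lintegral_mono fun x => ?_
    calc Ex N (fun ω : ℕ → St d => ⨆ l ∈ Finset.range (N + 1), wv W x r0 ω l)
        ≤ Ex N (fun _ : ℕ → St d => g x) :=
          Ex_mono N fun ω => iSup₂_le fun l _ => (hg x ω l).2
      _ = g x := Ex_const N _
  have hSN : ∀ N, SN κ m W r0 N ≤ 2 * ∫⁻ x : E d, g x := by
    intro N
    unfold SN
    rw [← lintegral_const_mul _ hgm]
    refine lintegral_mono fun x => ?_
    calc _ ≤ Ex N (fun _ : ℕ → St d => 2 * g x) :=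
          Ex_mono N fun ω => rec_sum_le κ _ _ N (g x) fun l _ => (hg x ω l).1
      _ = 2 * g x := Ex_const N _
  have hSfin : ∀ N, SN κ m W r0 N ≠ ⊤ := fun N =>
    ne_top_of_le_ne_top (ENNReal.mul_ne_top (by norm_num) hgfin) (hSN N)
  set wI : ℝ≥0∞ := ⨆ N, Asm3_w W r0 N with hwI
  have hwIfin : wI ≠ ⊤ := ne_top_of_le_ne_top hgfin (iSup_le hwN)
  have hwle : ∀ N, Asm3_w W r0 N ≤ wI := fun N => le_iSup _ N
  -- bound of S
  have hS : ∀ N, SN κ m W r0 N ≤ 2 * (K * N1) + 4 * κ * CW * wI := by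
    intro N
    have h1 := SN_le hm hmeas hW hκ hgrow hr0 hN1 hL hKL N
    have h2 : SN κ m W r0 N = SN κ m W r0 N / 2 + SN κ m W r0 N / 2 := (ENNReal.add_halves _).symm
    have h3 : SN κ m W r0 N / 2 ≠ ⊤ := by
      refine ne_top_of_le_ne_top (hSfin N) ?_
      exact ENNReal.half_le_self
    have h4 : SN κ m W r0 N / 2 ≤ K * N1 + 2 * κ * CW * wI := by
      have h5 : SN κ m W r0 N / 2 + SN κ m W r0 N / 2 ≤ SN κ m W r0 N / 2 + (K * N1 + 2 * κ * CW * wI) := by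
        rw [← h2]
        refine h1.trans ?_
        rw [add_assoc]
        refine add_le_add le_rfl (add_le_add (le_of_eq ?_) ?_)
        · rw [hK]
          push_cast
          rfl
        · exact mul_le_mul' le_rfl (hwle N)
      exact (ENNReal.add_le_add_iff_left h3).1 h5
    calc SN κ m W r0 N = SN κ m W r0 N / 2 + SN κ m W r0 N / 2 := h2
      _ ≤ (K * N1 + 2 * κ * CW * wI) + (K * N1 + 2 * κ * CW * wI) := add_le_add h4 h4
      _ = 2 * (K * N1) + 4 * κ * CW * wI := by ring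
  -- bound of w
  have hA : ∀ N', ∫⁻ x : E d, Ex N' (fun ω : ℕ → St d => Mx (av m x r0 ω) N')
      ≤ 4 * (K * N1) + κ * (8 * CW + 1) * wI := by
    intro N'
    refine (Asm3_A_le hmeas hW κ r0 N').trans ?_
    calc 2 * SN κ m W r0 N' + κ * Asm3_w W r0 N'
        ≤ 2 * (2 * (K * N1) + 4 * κ * CW * wI) + κ * wI :=
          add_le_add (mul_le_mul' le_rfl (hS N')) (mul_le_mul' le_rfl (hwle N'))
      _ = 4 * (K * N1) + κ * (8 * CW + 1) * wI := by ring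
  have hw : wI ≤ CM * (4 * (K * N1)) + (κ * (CM * (8 * CW + 1)) : ℝ≥0) * wI := by
    refine iSup_le fun N => ?_
    calc Asm3_w W r0 N ≤ CM * ⨆ N' : ℕ, ∫⁻ x : E d, Ex N' (fun ω : ℕ → St d => Mx (av m x r0 ω) N') :=
          hCM m W r0 hr0 hmeas hTB N
      _ ≤ CM * (4 * (K * N1) + κ * (8 * CW + 1) * wI) := mul_le_mul' le_rfl (iSup_le hA)
      _ = _ := by
        push_cast
        ring
  have hw2 : wI ≤ CM * (4 * (K * N1)) + wI / 2 := by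
    refine hw.trans (add_le_add le_rfl ?_)
    rw [div_eq_mul_inv, mul_comm wI]
    refine mul_le_mul' ?_ le_rfl
    have : ((κ * (CM * (8 * CW + 1)) : ℝ≥0) : ℝ≥0∞) ≤ ((1 / 2 : ℝ≥0) : ℝ≥0∞) := ENNReal.coe_le_coe.2 hκ2
    refine this.trans (le_of_eq ?_)
    rw [one_div, ENNReal.coe_inv (by norm_num)]
    norm_num
  have h3 : wI / 2 ≠ ⊤ := ne_top_of_le_ne_top hwIfin ENNReal.half_le_self
  have h4 : wI / 2 ≤ CM * (4 * (K * N1)) := by
    have h5 : wI / 2 + wI / 2 ≤ CM * (4 * (K * N1)) + wI / 2 := by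
      rw [ENNReal.add_halves]
      exact hw2
    exact (ENNReal.add_le_add_iff_right h3).1 h5
  calc ∫⁻ x : E d, Ex N (fun ω : ℕ → St d => ⨆ l ∈ Finset.range (N + 1), wv W x r0 ω l) ≤ wI := hwle N
    _ = wI / 2 + wI / 2 := (ENNReal.add_halves _).symm
    _ ≤ CM * (4 * (K * N1)) + CM * (4 * (K * N1)) := add_le_add h4 h4
    _ = ((8 * CM * K : ℝ≥0) : ℝ≥0∞) * N1 := by
      push_cast
      ring

end HG
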