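import Pool.Agent.W_MP_825298_an.Newton1

/-! Radial functions: derivatives, Laplacian, Lipschitz bounds. -/

open MeasureTheory Set Filter Topology
open scoped ENNReal NNReal BigOperators

namespace HG
variable {d : ℕ}

theorem Radial_shift {f : P d → ℝ} {L : P d →L[ℝ] ℝ} {Z X : P d} (h : HasFDerivAt f L (X - Z)) :
    HasFDerivAt (fun Y : P d => f (Y - Z)) L X := by
  have h1 : HasFDerivAt (fun Y : P d => Y - Z) (ContinuousLinearMap.id ℝ (P d)) X :=
    (hasFDerivAt_id X).sub_const Z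
  have h2 := h.comp X h1
  rwa [ContinuousLinearMap.comp_id] at h2

theorem Radial_hasFDerivAt {g g' : ℝ → ℝ} (hg : ∀ t, 0 ≤ t → HasDerivAt g (g' t) t) (Z X : P d) :
    HasFDerivAt (fun Y : P d => g (sq (Y - Z)))
      (g' (sq (X - Z)) • ∑ a : Ix d, (2 * co a (X - Z)) • (Newton1_coL a : P d →L[ℝ] ℝ)) X := by
  have h1 : HasFDerivAt (fun Y : P d => sq (Y - Z))
      (∑ a : Ix d, (2 * co a (X - Z)) • (Newton1_coL a : P d →L[ℝ] ℝ)) X :=
    Radial_shift (f := fun Y : P d => sq Y) (Newton1_hasFDerivAt_sq (X - Z))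
  exact HasDerivAt.comp_hasFDerivAt (h₂ := g) (f := fun Y : P d => sq (Y - Z)) X
    (hg _ (Newton1_sq_nonneg (X - Z))) h1

theorem Radial_sum_eb (b : Ix d) (X : P d) :
    (∑ a : Ix d, (2 * co a X) • (Newton1_coL a : P d →L[ℝ] ℝ)) (eb b) = 2 * co b X := by
  simp only [ContinuousLinearMap.smul_apply, smul_eq_mul,
    ContinuousLinearMap.sum_apply, Newton1_coL_apply, Newton1_co_eb]
  rw [Finset.sum_eq_single b]
  · simp
  · intro c _ hc
    simp [hc]
  · intro h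
    exact absurd (Finset.mem_univ b) h

theorem Radial_pd {g g' : ℝ → ℝ} (hg : ∀ t, 0 ≤ t → HasDerivAt g (g' t) t) (Z X : P d) (b : Ix d) :
    pd b (fun Y : P d => g (sq (Y - Z))) X = g' (sq (X - Z)) * (2 * co b (X - Z)) := by
  unfold pd
  rw [(Radial_hasFDerivAt hg Z X).fderiv, ContinuousLinearMap.smul_apply, Radial_sum_eb,
    smul_eq_mul]

theorem Radial_lap {g g' g'' : ℝ → ℝ} (hg : ∀ t, 0 ≤ t → HasDerivAt g (g' t) t)
    (hg' : ∀ t, 0 ≤ t → HasDerivAt g' (g'' t) t) (Z X : P d) :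
    lap (fun Y : P d => g (sq (Y - Z))) X =
      4 * sq (X - Z) * g'' (sq (X - Z)) + 2 * ((d : ℝ) + 1) * g' (sq (X - Z)) := by
  unfold lap
  have h : ∀ a : Ix d, pd a (pd a (fun Y : P d => g (sq (Y - Z)))) X =
      4 * g'' (sq (X - Z)) * (co a (X - Z)) ^ 2 + 2 * g' (sq (X - Z)) := by
    intro a
    have e : pd a (fun Y : P d => g (sq (Y - Z))) =
        fun Y : P d => g' (sq (Y - Z)) * (2 * co a (Y - Z)) := by
      funext Y
      exact Radial_pd hg Z Y a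
    rw [e]
    unfold pd
    have h1 := Radial_hasFDerivAt hg' Z X
    have h2 : HasFDerivAt (fun Y : P d => 2 * co a (Y - Z))
        ((2 : ℝ) • (Newton1_coL a : P d →L[ℝ] ℝ)) X :=
      (Radial_shift (f := fun Y : P d => co a Y)
        (Newton1_hasFDerivAt_co a (X - Z))).const_mul 2
    have h3 : fderiv ℝ (fun Y : P d => g' (sq (Y - Z)) * (2 * co a (Y - Z))) X = _ :=
      (h1.mul h2).fderiv
    rw [h3]
    simp only [ContinuousLinearMap.add_apply, ContinuousLinearMap.smul_apply, Radial_sum_eb,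
      smul_eq_mul, Newton1_coL_apply, Newton1_co_eb, if_true]
    ring
  rw [Finset.sum_congr rfl fun a _ => h a, Finset.sum_add_distrib, ← Finset.mul_sum,
    Finset.sum_const, Finset.card_univ, Fintype.card_option, Fintype.card_fin, nsmul_eq_mul]
  have h2 : ∑ a : Ix d, (co a (X - Z)) ^ 2 = sq (X - Z) := rfl
  rw [h2]
  push_cast
  ring

theorem Radial_norm_coL (a : Ix d) : ‖(Newton1_coL a : P d →L[ℝ] ℝ)‖ ≤ 1 := by
  refine ContinuousLinearMap.opNorm_le_bound _ zero_le_one fun X => ?_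
  rw [Newton1_coL_apply, one_mul, Real.norm_eq_abs]
  exact Newton1_abs_co_le a X

theorem Radial_lipschitz {g g' : ℝ → ℝ} (hg : ∀ t, 0 ≤ t → HasDerivAt g (g' t) t) {C : ℝ}
    (hC : ∀ t, 0 ≤ t → |g' t| * Real.sqrt t ≤ C) (Z : P d) :
    ∃ K : ℝ≥0, LipschitzWith K (fun Y : P d => g (sq (Y - Z))) := by
  have hC0 : 0 ≤ C := by
    have := hC 0 le_rfl
    simpa using this
  refine ⟨⟨2 * ((d : ℝ) + 1) * C, by positivity⟩, ?_⟩
  refine lipschitzWith_of_nnnorm_fderiv_le (𝕜 := ℝ)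
    (fun X => (Radial_hasFDerivAt hg Z X).differentiableAt) fun X => ?_
  rw [← NNReal.coe_le_coe, coe_nnnorm, (Radial_hasFDerivAt hg Z X).fderiv, norm_smul]
  show ‖g' (sq (X - Z))‖ * _ ≤ 2 * ((d : ℝ) + 1) * C
  have h1 : ‖∑ a : Ix d, (2 * co a (X - Z)) • (Newton1_coL a : P d →L[ℝ] ℝ)‖ ≤
      2 * ((d : ℝ) + 1) * Real.sqrt (sq (X - Z)) := by
    refine (norm_sum_le _ _).trans ?_
    have h2 : ∀ a ∈ (Finset.univ : Finset (Ix d)),
        ‖(2 * co a (X - Z)) • (Newton1_coL a : P d →L[ℝ] ℝ)‖ ≤ 2 * Real.sqrt (sq (X - Z)) := by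
      intro a _
      rw [norm_smul, Real.norm_eq_abs, abs_mul, abs_of_pos (by norm_num : (0 : ℝ) < 2)]
      have h3 : |co a (X - Z)| ≤ Real.sqrt (sq (X - Z)) :=
        Real.abs_le_sqrt (Newton1_co_sq_le_sq a _)
      have h4 := Radial_norm_coL (d := d) a
      calc 2 * |co a (X - Z)| * ‖(Newton1_coL a : P d →L[ℝ] ℝ)‖
          ≤ 2 * |co a (X - Z)| * 1 := by
            exact mul_le_mul_of_nonneg_left h4 (by positivity)
        _ ≤ 2 * Real.sqrt (sq (X - Z)) := by linarith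
    refine (Finset.sum_le_sum h2).trans ?_
    rw [Finset.sum_const, Finset.card_univ, Fintype.card_option, Fintype.card_fin, nsmul_eq_mul]
    push_cast
    linarith
  have h5 := hC _ (Newton1_sq_nonneg (X - Z))
  rw [Real.norm_eq_abs]
  calc |g' (sq (X - Z))| * ‖∑ a : Ix d, (2 * co a (X - Z)) • (Newton1_coL a : P d →L[ℝ] ℝ)‖
      ≤ |g' (sq (X - Z))| * (2 * ((d : ℝ) + 1) * Real.sqrt (sq (X - Z))) :=
        mul_le_mul_of_nonneg_left h1 (abs_nonneg _)
    _ = 2 * ((d : ℝ) + 1) * (|g' (sq (X - Z))| * Real.sqrt (sq (X - Z))) := by ring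
    _ ≤ 2 * ((d : ℝ) + 1) * C := mul_le_mul_of_nonneg_left h5 (by positivity)

theorem Radial_sqrt_le (t : ℝ) (ht : 0 ≤ t) : Real.sqrt t ≤ 1 + t := by
  rw [Real.sqrt_le_left (by positivity)]
  nlinarith

end HG
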