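import Pool.Agent.W_MP_825298_an.Newton1
import Pool.Agent.W_MP_825298_an.Radial

open MeasureTheory Set Filter Topology
open scoped ENNReal NNReal BigOperators

namespace HG
variable {d : ℕ}

/-- upper barrier `(1+|X-Z0|²)^{-(n-2)/2}`, `n-2 = d-1`:
`Δ(1+ρ²)^{-p} = 2p(1+ρ²)^{-p-2}(-n(1+ρ²)+2(p+1)ρ²)`, `p = (n-2)/2`, equals `-2pn(1+ρ²)^{-p-2} ≤ 0`. -/
noncomputable def bup (Z0 : P d) (X : P d) : ℝ := (1 + sq (X - Z0)) ^ (-(((d : ℝ) - 1) / 2))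

theorem bup_contDiff (Z0 : P d) : ContDiff ℝ 2 (bup Z0) := by
  unfold bup
  have h1 : ContDiff ℝ 2 (fun X : P d => 1 + sq (X - Z0)) :=
    contDiff_const.add (Newton1_contDiff_sq.comp (contDiff_id.sub contDiff_const))
  refine h1.rpow_const_of_ne fun X => ?_
  have := Newton1_sq_nonneg (X - Z0)
  positivity

theorem bup_deriv (p t : ℝ) (ht : 0 ≤ t) :
    HasDerivAt (fun t : ℝ => (1 + t) ^ (-p)) (-p * (1 + t) ^ (-p - 1)) t := by
  have h1 : HasDerivAt (fun t : ℝ => 1 + t) 1 t := by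
    simpa using (hasDerivAt_id t).const_add 1
  have h2 := h1.rpow_const (p := -p) (Or.inl (by positivity : (1 : ℝ) + t ≠ 0))
  exact h2.congr_deriv (by ring)

theorem bup_deriv2 (p t : ℝ) (ht : 0 ≤ t) :
    HasDerivAt (fun t : ℝ => -p * (1 + t) ^ (-p - 1)) (p * (p + 1) * (1 + t) ^ (-p - 2)) t := by
  have h1 := (bup_deriv (p + 1) t ht).const_mul (-p)
  have e1 : (fun t : ℝ => -p * (1 + t) ^ (-(p + 1))) = fun t : ℝ => -p * (1 + t) ^ (-p - 1) := by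
    funext t
    congr 2
    ring
  rw [e1] at h1
  have e2 : -(p + 1) - 1 = -p - 2 := by ring
  rw [e2] at h1
  exact h1.congr_deriv (by ring)

theorem bup_lipschitz (hd : 1 ≤ d) (Z0 : P d) : ∃ K : ℝ≥0, LipschitzWith K (bup Z0) := by
  have hd' : (1 : ℝ) ≤ d := by exact_mod_cast hd
  have hp : 0 ≤ ((d : ℝ) - 1) / 2 := by linarith
  refine Radial_lipschitz (g := fun t => (1 + t) ^ (-(((d : ℝ) - 1) / 2)))
    (fun t ht => bup_deriv _ t ht) (C := ((d : ℝ) - 1) / 2) (fun t ht => ?_) Z0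
  have h1 : 0 < 1 + t := by positivity
  have h2 : 0 < (1 + t) ^ (-(((d : ℝ) - 1) / 2) - 1) := Real.rpow_pos_of_pos h1 _
  rw [abs_mul, abs_neg, abs_of_nonneg hp, abs_of_pos h2, mul_assoc]
  have h3 : (1 + t) ^ (-(((d : ℝ) - 1) / 2) - 1) * Real.sqrt t ≤ 1 := by
    have h4 : (1 + t) ^ (-(((d : ℝ) - 1) / 2) - 1) ≤ (1 + t) ^ (-1 : ℝ) :=
      Real.rpow_le_rpow_of_exponent_le (by linarith) (by linarith)
    have h5 := Radial_sqrt_le t ht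
    calc (1 + t) ^ (-(((d : ℝ) - 1) / 2) - 1) * Real.sqrt t
        ≤ (1 + t) ^ (-1 : ℝ) * (1 + t) :=
          mul_le_mul h4 h5 (Real.sqrt_nonneg _) (by positivity)
      _ = 1 := by
          rw [Real.rpow_neg_one]
          exact inv_mul_cancel₀ h1.ne'
  calc ((d : ℝ) - 1) / 2 * ((1 + t) ^ (-(((d : ℝ) - 1) / 2) - 1) * Real.sqrt t)
      ≤ ((d : ℝ) - 1) / 2 * 1 := mul_le_mul_of_nonneg_left h3 hp
    _ = ((d : ℝ) - 1) / 2 := mul_one _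

theorem bup_lap (hd : 1 ≤ d) (Z0 X : P d) : lap (bup Z0) X ≤ 0 := by
  have hd' : (1 : ℝ) ≤ d := by exact_mod_cast hd
  have h := Radial_lap (g := fun t => (1 + t) ^ (-(((d : ℝ) - 1) / 2)))
    (fun t ht => bup_deriv (((d : ℝ) - 1) / 2) t ht)
    (fun t ht => bup_deriv2 (((d : ℝ) - 1) / 2) t ht) Z0 X
  have e : (fun Y : P d => (fun t : ℝ => (1 + t) ^ (-(((d : ℝ) - 1) / 2))) (sq (Y - Z0))) =
      bup Z0 := rfl
  rw [e] at h
  rw [h]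
  have hs := Newton1_sq_nonneg (X - Z0)
  have h1 : 0 < 1 + sq (X - Z0) := by positivity
  have h2 : (1 + sq (X - Z0)) ^ (-(((d : ℝ) - 1) / 2) - 1) =
      (1 + sq (X - Z0)) ^ (-(((d : ℝ) - 1) / 2) - 2) * (1 + sq (X - Z0)) := by
    rw [← Real.rpow_add_one h1.ne']
    congr 1
    ring
  rw [h2]
  have h3 : 0 < (1 + sq (X - Z0)) ^ (-(((d : ℝ) - 1) / 2) - 2) := Real.rpow_pos_of_pos h1 _
  have h4 : 4 * sq (X - Z0) * (((d : ℝ) - 1) / 2 * (((d : ℝ) - 1) / 2 + 1) *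
      (1 + sq (X - Z0)) ^ (-(((d : ℝ) - 1) / 2) - 2)) +
      2 * ((d : ℝ) + 1) * (-(((d : ℝ) - 1) / 2) *
        ((1 + sq (X - Z0)) ^ (-(((d : ℝ) - 1) / 2) - 2) * (1 + sq (X - Z0)))) =
      - ((((d : ℝ) - 1) * ((d : ℝ) + 1)) * (1 + sq (X - Z0)) ^ (-(((d : ℝ) - 1) / 2) - 2)) := by
    ring
  rw [h4]
  have h5 : 0 ≤ (((d : ℝ) - 1) * ((d : ℝ) + 1)) *
      (1 + sq (X - Z0)) ^ (-(((d : ℝ) - 1) / 2) - 2) :=
    mul_nonneg (mul_nonneg (by linarith) (by linarith)) h3.le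
  linarith

end HG
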