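import Pool.Agent.W_MP_825298_an.Newton1
import Pool.Agent.W_MP_825298_an.Radial

open MeasureTheory Set Filter Topology
open scoped ENNReal NNReal BigOperators

namespace HG
variable {d : ℕ}

/-- lower barrier `exp(-(n/2)|X-Z|²/ρ²) - exp(-(n/2)R²/ρ²)`:
`Δ e^{-α|X|²} = e^{-α|X|²}(4α²|X|²-2nα) ≥ 0` iff `|X|² ≥ n/(2α) = ρ²` for `α = n/(2ρ²)`. -/
noncomputable def blow (Z : P d) (ρ R : ℝ) (X : P d) : ℝ :=
  Real.exp (-(((d : ℝ) + 1) / 2) * sq (X - Z) / ρ ^ 2) - Real.exp (-(((d : ℝ) + 1) / 2) * R ^ 2 / ρ ^ 2)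

theorem blow_contDiff (Z : P d) (ρ R : ℝ) : ContDiff ℝ 2 (blow Z ρ R) := by
  unfold blow
  have h1 : ContDiff ℝ 2 (fun X : P d => sq (X - Z)) :=
    Newton1_contDiff_sq.comp (contDiff_id.sub contDiff_const)
  exact (((contDiff_const.mul h1).div_const _).exp).sub contDiff_const

theorem blow_deriv (α c t : ℝ) :
    HasDerivAt (fun t : ℝ => Real.exp (-(α * t)) - c) (-α * Real.exp (-(α * t))) t := by
  have h1 : HasDerivAt (fun t : ℝ => -(α * t)) (-α) t :=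
    (((hasDerivAt_id t).const_mul α).neg).congr_deriv (by ring)
  have h2 := (h1.exp).sub_const c
  exact h2.congr_deriv (by ring)

theorem blow_deriv2 (α t : ℝ) :
    HasDerivAt (fun t : ℝ => -α * Real.exp (-(α * t))) (α ^ 2 * Real.exp (-(α * t))) t := by
  have h1 : HasDerivAt (fun t : ℝ => -(α * t)) (-α) t :=
    (((hasDerivAt_id t).const_mul α).neg).congr_deriv (by ring)
  have h2 := (h1.exp).const_mul (-α)
  exact h2.congr_deriv (by ring)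

theorem blow_eq (Z : P d) (ρ R : ℝ) :
    blow Z ρ R = fun X : P d => (fun t : ℝ => Real.exp (-((((d : ℝ) + 1) / 2 / ρ ^ 2) * t)) -
      Real.exp (-(((d : ℝ) + 1) / 2) * R ^ 2 / ρ ^ 2)) (sq (X - Z)) := by
  funext X
  unfold blow
  have : -(((d : ℝ) + 1) / 2) * sq (X - Z) / ρ ^ 2 =
      -((((d : ℝ) + 1) / 2 / ρ ^ 2) * sq (X - Z)) := by ring
  rw [this]

theorem blow_lipschitz (Z : P d) {ρ : ℝ} (hρ : 0 < ρ) (R : ℝ) : ∃ K : ℝ≥0, LipschitzWith K (blow Z ρ R) := by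
  rw [blow_eq]
  obtain ⟨α, hα⟩ : ∃ α : ℝ, α = ((d : ℝ) + 1) / 2 / ρ ^ 2 := ⟨_, rfl⟩
  have hα0 : 0 < α := by rw [hα]; positivity
  rw [← hα]
  refine Radial_lipschitz (fun t _ => blow_deriv α _ t) (C := α + 1) (fun t ht => ?_) Z
  have h0 : 0 < Real.exp (-(α * t)) := Real.exp_pos _
  rw [abs_mul, abs_neg, abs_of_pos hα0, abs_of_pos h0]
  have h1 := Radial_sqrt_le t ht
  have h2 : Real.exp (-(α * t)) ≤ 1 := by
    rw [Real.exp_le_one_iff]
    have : 0 ≤ α * t := by positivity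
    linarith
  have h3 : α * t * Real.exp (-(α * t)) ≤ 1 := by
    have h4 : α * t ≤ Real.exp (α * t) := by
      have := Real.add_one_le_exp (α * t)
      linarith
    rw [Real.exp_neg, mul_inv_le_iff₀ (Real.exp_pos _)]
    linarith
  calc α * Real.exp (-(α * t)) * Real.sqrt t
      ≤ α * Real.exp (-(α * t)) * (1 + t) :=
        mul_le_mul_of_nonneg_left h1 (by positivity)
    _ = α * Real.exp (-(α * t)) + α * t * Real.exp (-(α * t)) := by ring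
    _ ≤ α * 1 + 1 := add_le_add (mul_le_mul_of_nonneg_left h2 hα0.le) h3
    _ = α + 1 := by ring

theorem blow_lap (Z : P d) {ρ : ℝ} (hρ : 0 < ρ) (R : ℝ) (X : P d) (hX : ρ ^ 2 ≤ sq (X - Z)) : 0 ≤ lap (blow Z ρ R) X := by
  rw [blow_eq]
  obtain ⟨α, hα⟩ : ∃ α : ℝ, α = ((d : ℝ) + 1) / 2 / ρ ^ 2 := ⟨_, rfl⟩
  have hα0 : 0 < α := by rw [hα]; positivity
  rw [← hα]
  rw [Radial_lap (fun t _ => blow_deriv α _ t) (fun t _ => blow_deriv2 α t) Z X]
  have h0 : 0 < Real.exp (-(α * sq (X - Z))) := Real.exp_pos _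
  have h1 : ((d : ℝ) + 1) / 2 ≤ α * sq (X - Z) := by
    have : ((d : ℝ) + 1) / 2 = α * ρ ^ 2 := by
      rw [hα]
      field_simp
    rw [this]
    exact mul_le_mul_of_nonneg_left hX hα0.le
  have h2 : 4 * sq (X - Z) * (α ^ 2 * Real.exp (-(α * sq (X - Z)))) +
      2 * ((d : ℝ) + 1) * (-α * Real.exp (-(α * sq (X - Z)))) =
      4 * α * Real.exp (-(α * sq (X - Z))) * (α * sq (X - Z) - ((d : ℝ) + 1) / 2) := by ring
  rw [h2]
  exact mul_nonneg (by positivity) (by linarith)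

theorem blow_nonpos (Z : P d) {ρ : ℝ} (hρ : 0 < ρ) {R : ℝ} (hR : 0 ≤ R) (X : P d) (hX : R ≤ ‖X - Z‖) :
    blow Z ρ R X ≤ 0 := by
  unfold blow
  have h1 : R ^ 2 ≤ sq (X - Z) :=
    (pow_le_pow_left₀ hR hX 2).trans (norm_sq_le_sq (X - Z)).1
  have h2 : -(((d : ℝ) + 1) / 2) * sq (X - Z) / ρ ^ 2 ≤ -(((d : ℝ) + 1) / 2) * R ^ 2 / ρ ^ 2 := by
    refine div_le_div_of_nonneg_right ?_ (by positivity)
    have : 0 ≤ ((d : ℝ) + 1) / 2 := by positivity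
    nlinarith
  have h3 := Real.exp_le_exp.2 h2
  linarith

end HG
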