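import Pool.Agent.W_MP_825298_an.Defs

open MeasureTheory Set Filter Topology
open scoped ENNReal NNReal BigOperators

namespace HG
variable {d : ℕ}

theorem CertAlg4_anti (g : Ix d → ℝ) {q : VV d} (hq : IsAnti q) (a b : Ix d) :
    (Kvec g q) (some (a, b)) = - (Kvec g q) (some (b, a)) := by
  simp only [Kvec]
  have h1 : ∑ k : Ix d, (Real.sqrt 2 * q (some (a, k))) * g k =
      - ∑ k : Ix d, (Real.sqrt 2 * q (some (k, a))) * g k := by
    rw [← Finset.sum_neg_distrib]
    exact Finset.sum_congr rfl fun k _ => by rw [hq a k]; ring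
  have h2 : ∑ k : Ix d, (Real.sqrt 2 * q (some (k, b))) * g k =
      - ∑ k : Ix d, (Real.sqrt 2 * q (some (b, k))) * g k := by
    rw [← Finset.sum_neg_distrib]
    exact Finset.sum_congr rfl fun k _ => by rw [hq k b]; ring
  rw [h1, h2, hq b a]
  ring

/-- `⟨K[g]q, bvec ω f⟩ = ∑_b ω_b V_b` with `V_b = K_0 f_b + ∑_a K_ab f_a`
(`K_0 = (Kvec g q) none`, `K_ab = √2 (Kvec g q)(some(a,b))`), for antisymmetric `q` (then `K_ab` is antisymmetric). -/
theorem Kvec_inner_bvec (g : Ix d → ℝ) (q : VV d) (hq : IsAnti q) (ω f : Ix d → ℝ) :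
    inner ℝ (Kvec g q) (bvec ω f) = ∑ b : Ix d, ω b *
      ((Kvec g q) none * f b + ∑ a : Ix d, (Real.sqrt 2 * (Kvec g q) (some (a, b))) * f a) := by
  have hanti := CertAlg4_anti g hq
  generalize Kvec g q = K at hanti ⊢
  have h2 : Real.sqrt 2 * Real.sqrt 2 = 2 := Real.mul_self_sqrt (by norm_num)
  have h20 : Real.sqrt 2 ≠ 0 := by positivity
  have e0 : inner ℝ K (bvec ω f) = K none * (∑ a : Ix d, ω a * f a) +
      ∑ a : Ix d, ∑ b : Ix d, K (some (a, b)) * ((f a * ω b - f b * ω a) / Real.sqrt 2) := by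
    rw [PiLp.inner_apply, Fintype.sum_option, Fintype.sum_prod_type]
    simp [bvec, mul_comm]
  have e1 : ∑ a : Ix d, ∑ b : Ix d, K (some (a, b)) * ((f a * ω b - f b * ω a) / Real.sqrt 2) =
      ∑ b : Ix d, ∑ a : Ix d, ω b * ((Real.sqrt 2 * K (some (a, b))) * f a) := by
    have e2 : ∀ a b : Ix d, K (some (a, b)) * ((f a * ω b - f b * ω a) / Real.sqrt 2) =
        K (some (a, b)) * f a * ω b / Real.sqrt 2 + K (some (b, a)) * f b * ω a / Real.sqrt 2 := by
      intro a b
      rw [hanti b a]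
      ring
    simp only [e2, Finset.sum_add_distrib]
    have e3 : ∑ a : Ix d, ∑ b : Ix d, K (some (b, a)) * f b * ω a / Real.sqrt 2 =
        ∑ a : Ix d, ∑ b : Ix d, K (some (a, b)) * f a * ω b / Real.sqrt 2 := by
      rw [Finset.sum_comm]
    rw [e3, ← two_mul, Finset.sum_comm, Finset.mul_sum]
    refine Finset.sum_congr rfl fun b _ => ?_
    rw [Finset.mul_sum]
    refine Finset.sum_congr rfl fun a _ => ?_
    rw [eq_comm, ← sub_eq_zero]
    have h3 : ω b * (Real.sqrt 2 * K (some (a, b)) * f a) -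
        2 * (K (some (a, b)) * f a * ω b / Real.sqrt 2) =
        (Real.sqrt 2 * Real.sqrt 2 - 2) * (K (some (a, b)) * f a * ω b / Real.sqrt 2) := by
      field_simp
    rw [h3, h2, sub_self, zero_mul]
  rw [e0, e1, Finset.mul_sum, ← Finset.sum_add_distrib]
  refine Finset.sum_congr rfl fun b _ => ?_
  rw [mul_add, Finset.mul_sum]
  ring

end HG
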