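import Pool.Agent.W_MP_825298_an.Above

open MeasureTheory Set Filter Topology
open scoped ENNReal NNReal BigOperators

namespace HG
variable {d : ℕ}

/-- the shear, as a homeomorphism -/
noncomputable def divThmShear (φ : E d → ℝ) (hφ : Continuous φ) : P d ≃ₜ P d where
  toFun X := (X.1, φ X.1 + X.2)
  invFun X := (X.1, X.2 - φ X.1)
  left_inv X := by simp
  right_inv X := by simp
  continuous_toFun := by fun_prop
  continuous_invFun := by fun_prop

theorem divThm_cutoff {K U : Set (P d)} (hK : IsCompact K) (hU : IsOpen U) (hKU : K ⊆ U) :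
    ∃ f : P d → ℝ, ContDiff ℝ 1 f ∧ HasCompactSupport f ∧ tsupport f ⊆ U ∧ (∀ X ∈ K, f X = 1) := by
  obtain ⟨V, hV, hKV, hVU, hVc⟩ := exists_open_between_and_isCompact_closure hK hU hKU
  have hd : Disjoint Vᶜ K := by
    rw [Set.disjoint_left]
    exact fun x hx hxK => hx (hKV hxK)
  obtain ⟨f, h0, h1, -⟩ := exists_contMDiffMap_zero_one_of_isClosed (n := 1) (modelWithCornersSelf ℝ (P d))
    hV.isClosed_compl hK.isClosed hd
  have hsupp : Function.support f ⊆ V := by
    intro x hx
    by_contra hxV
    exact hx (h0 hxV)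
  have hts : tsupport f ⊆ closure V := closure_mono hsupp
  refine ⟨f, f.contMDiff.contDiff, ?_, hts.trans hVU, fun X hX => h1 hX⟩
  exact hVc.of_isClosed_subset (isClosed_tsupport _) hts

/-- the one-component version for globally defined, compactly supported functions; vertical derivative -/
theorem divThm_fiber {φ : E d → ℝ} {w : P d → ℝ} (hw : ContDiff ℝ 1 w) (hc : HasCompactSupport w) (x : E d) :
    ∫ τ in Ioi (0 : ℝ), pd none w (x, φ x + τ) = - w (x, φ x) := by
  have hcont : Continuous (fun X : P d => pd none w X) := by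
    unfold pd
    exact (hw.continuous_fderiv (by simp)).clm_apply continuous_const
  have hcs : HasCompactSupport (fun X : P d => pd none w X) := by
    unfold pd
    exact (hc.fderiv ℝ).comp_left (g := fun L => L (eb none)) rfl
  have hemb : Topology.IsClosedEmbedding (fun τ : ℝ => ((x, φ x + τ) : P d)) := by
    have h1 : Function.LeftInverse (fun X : P d => X.2 - φ x) (fun τ : ℝ => ((x, φ x + τ) : P d)) := by
      intro τ
      simp
    exact h1.isClosedEmbedding (by fun_prop) (by fun_prop)
  have hint : Integrable (fun τ : ℝ => pd none w (x, φ x + τ)) :=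
    (hcont.comp hemb.continuous).integrable_of_hasCompactSupport (hcs.comp_isClosedEmbedding hemb)
  have hlim : Tendsto (fun τ : ℝ => w (x, φ x + τ)) atTop (𝓝 0) := by
    have h2 : HasCompactSupport (fun τ : ℝ => w (x, φ x + τ)) := hc.comp_isClosedEmbedding hemb
    exact h2.is_zero_at_infty.mono_left atTop_le_cocompact
  have hder : ∀ τ : ℝ, HasDerivAt (fun τ : ℝ => w (x, φ x + τ)) (pd none w (x, φ x + τ)) τ := by
    intro τ
    have h1 : HasFDerivAt w (fderiv ℝ w (x, φ x + τ)) (x, φ x + τ) :=
      (hw.differentiable (by simp) _).hasFDerivAt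
    have h2 : HasDerivAt (fun τ : ℝ => ((x, φ x + τ) : P d)) ((0 : E d), (1 : ℝ)) τ := by
      exact (hasDerivAt_const τ x).prodMk ((hasDerivAt_id τ).const_add (φ x))
    exact h1.comp_hasDerivAt τ h2
  have := integral_Ioi_of_hasDerivAt_of_tendsto' (a := (0 : ℝ)) (fun τ _ => hder τ) hint.integrableOn hlim
  rw [this]
  simp

theorem divThm_lip {M : ℝ≥0} {φ : E d → ℝ} (hφ : LipschitzWith M φ) (τ : ℝ) :
    ∃ D, LipschitzWith D (fun x : E d => ((x, φ x + τ) : P d)) := by
  refine ⟨max 1 M, ?_⟩
  have h2 : LipschitzWith M (fun x : E d => φ x + τ) := by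
    intro x y
    simpa using hφ x y
  exact LipschitzWith.id.prodMk h2

theorem divThm_slice {M : ℝ≥0} {φ : E d → ℝ} (hφ : LipschitzWith M φ) {w : P d → ℝ} (hw : ContDiff ℝ 1 w)
    (hc : HasCompactSupport w) (i : Fin d) (τ : ℝ) :
    ∫ x : E d, (pd (some i) w (x, φ x + τ) + om φ (some i) x * pd none w (x, φ x + τ)) = 0 := by
  obtain ⟨L, hL⟩ := hw.lipschitzWith_of_hasCompactSupport hc (by simp)
  obtain ⟨D, hD⟩ := divThm_lip hφ τ
  have hg : LipschitzWith (L * D) (fun x : E d => w (x, φ x + τ)) := hL.comp hD
  have hgc : HasCompactSupport (fun x : E d => w (x, φ x + τ)) := by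
    refine HasCompactSupport.intro (hc.image continuous_fst) (K := Prod.fst '' tsupport w) ?_
    intro x hx
    by_contra hne
    exact hx ⟨(x, φ x + τ), subset_tsupport w hne, rfl⟩
  have h1 := LipschitzWith.integral_lineDeriv_mul_eq (μ := (volume : Measure (E d)))
    (LipschitzWith.const (1 : ℝ)) hg hgc (-(Pi.single i 1))
  have h2 : ∫ x : E d, lineDeriv ℝ (fun x : E d => w (x, φ x + τ)) x (Pi.single i 1) = 0 := by
    have : ∀ x : E d, lineDeriv ℝ (fun _ : E d => (1 : ℝ)) x (-(Pi.single i 1)) = 0 := by
      intro x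
      simp [lineDeriv]
    simp only [this, zero_mul, integral_zero, neg_neg, mul_one] at h1
    exact h1.symm
  rw [← h2]
  apply integral_congr_ae
  filter_upwards [hφ.ae_differentiableAt (μ := (volume : Measure (E d)))] with x hx
  have h3 : HasFDerivAt w (fderiv ℝ w (x, φ x + τ)) (x, φ x + τ) :=
    (hw.differentiable (by simp) _).hasFDerivAt
  have h4 : HasFDerivAt (fun x : E d => ((x, φ x + τ) : P d))
      ((ContinuousLinearMap.id ℝ (E d)).prod (fderiv ℝ φ x)) x :=
    (hasFDerivAt_id x).prodMk (hx.hasFDerivAt.add_const τ)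
  have h5 := h3.comp x h4
  have h6 : HasFDerivAt (fun x : E d => w (x, φ x + τ)) ((fderiv ℝ w (x, φ x + τ)).comp
      ((ContinuousLinearMap.id ℝ (E d)).prod (fderiv ℝ φ x))) x := h5
  rw [(h6.hasLineDerivAt _).lineDeriv]
  simp only [ContinuousLinearMap.comp_apply, ContinuousLinearMap.prod_apply, ContinuousLinearMap.id_apply]
  unfold pd om
  have h7 : ((Pi.single i (1 : ℝ), fderiv ℝ φ x (Pi.single i 1)) : P d)
      = eb (some i) + (fderiv ℝ φ x (Pi.single i 1)) • eb none := by
    simp [eb]
  rw [h7, map_add, map_smul]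
  simp

theorem divThm_om_meas {M : ℝ≥0} {φ : E d → ℝ} (hφ : LipschitzWith M φ) (a : Ix d) :
    Measurable (om φ a) ∧ ∃ C, ∀ x, ‖om φ a x‖ ≤ C := by
  cases a with
  | none => exact ⟨measurable_const, 1, fun x => by simp [om]⟩
  | some i =>
    refine ⟨measurable_fderiv_apply_const ℝ φ _, M * ‖(Pi.single i (1 : ℝ) : E d)‖, fun x => ?_⟩
    refine (ContinuousLinearMap.le_opNorm _ _).trans ?_
    exact mul_le_mul_of_nonneg_right (norm_fderiv_le_of_lipschitz ℝ hφ) (norm_nonneg _)

theorem divThm_int {M : ℝ≥0} {φ : E d → ℝ} (hφ : LipschitzWith M φ) {h : P d → ℝ} (hh : Continuous h)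
    (hc : HasCompactSupport h) : Integrable (fun X : P d => h (X.1, φ X.1 + X.2)) := by
  have e := divThmShear φ hφ.continuous
  have h1 : Continuous (fun X : P d => h (X.1, φ X.1 + X.2)) := by
    have := hφ.continuous
    fun_prop
  exact h1.integrable_of_hasCompactSupport (hc.comp_homeomorph (divThmShear φ hφ.continuous))

theorem divThm_one {M : ℝ≥0} {φ : E d → ℝ} (hφ : LipschitzWith M φ) {w : P d → ℝ} (hw : ContDiff ℝ 1 w)
    (hc : HasCompactSupport w) (a : Ix d) :
    ∫ X in above φ, pd a w X = ∫ x : E d, w (x, φ x) * om φ a x := by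
  have hcont : ∀ b : Ix d, Continuous (fun X : P d => pd b w X) := by
    intro b
    unfold pd
    exact (hw.continuous_fderiv (by simp)).clm_apply continuous_const
  have hcs : ∀ b : Ix d, HasCompactSupport (fun X : P d => pd b w X) := by
    intro b
    unfold pd
    exact (hc.fderiv ℝ).comp_left (g := fun L => L (eb b)) rfl
  have hint : ∀ b : Ix d, Integrable (fun X : P d => pd b w X) := fun b =>
    (hcont b).integrable_of_hasCompactSupport (hcs b)
  rw [integral_above hφ _ (hint a).integrableOn]
  cases a with
  | none =>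
    simp only [divThm_fiber hw hc, om]
    simp
  | some i =>
    obtain ⟨hm, C, hC⟩ := divThm_om_meas hφ (some i)
    have hI : ∀ b : Ix d, Integrable (fun X : P d => pd b w (X.1, φ X.1 + X.2))
        ((volume : Measure (E d)).prod (volume.restrict (Ioi (0 : ℝ)))) := by
      intro b
      have h1 := divThm_int hφ (hcont b) (hcs b)
      rw [Measure.volume_eq_prod] at h1
      have h2 : ((volume : Measure (E d)).prod (volume.restrict (Ioi (0 : ℝ))))
          = ((volume : Measure (E d)).prod (volume : Measure ℝ)).restrict (univ ×ˢ Ioi (0 : ℝ)) := by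
        rw [← Measure.prod_restrict, Measure.restrict_univ]
      rw [h2]
      exact h1.restrict
    have hI2 : Integrable (fun X : P d => om φ (some i) X.1 * pd none w (X.1, φ X.1 + X.2))
        ((volume : Measure (E d)).prod (volume.restrict (Ioi (0 : ℝ)))) := by
      refine (hI none).bdd_mul (c := C) (hm.comp measurable_fst).aestronglyMeasurable ?_
      exact Eventually.of_forall fun X => hC X.1
    have hI3 := (hI (some i)).add hI2
    have hswap := integral_integral_swap (μ := (volume : Measure (E d)))
      (ν := (volume.restrict (Ioi (0 : ℝ))))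
      (f := fun x τ => pd (some i) w (x, φ x + τ) + om φ (some i) x * pd none w (x, φ x + τ)) hI3
    have hz : ∫ x : E d, ∫ τ in Ioi (0 : ℝ), (pd (some i) w (x, φ x + τ)
        + om φ (some i) x * pd none w (x, φ x + τ)) = 0 := by
      rw [hswap]
      simp only [divThm_slice hφ hw hc i, integral_zero]
    have hae : ∀ᵐ x : E d, ∫ τ in Ioi (0 : ℝ), (pd (some i) w (x, φ x + τ)
        + om φ (some i) x * pd none w (x, φ x + τ))
        = (∫ τ in Ioi (0 : ℝ), pd (some i) w (x, φ x + τ)) - w (x, φ x) * om φ (some i) x := by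
      filter_upwards [(hI (some i)).prod_right_ae, hI2.prod_right_ae] with x h1 h2
      rw [integral_add h1 h2, integral_const_mul, divThm_fiber hw hc]
      ring
    rw [integral_congr_ae hae] at hz
    have hJ1 : Integrable (fun x : E d => ∫ τ in Ioi (0 : ℝ), pd (some i) w (x, φ x + τ)) :=
      (hI (some i)).integral_prod_left
    have hJ2 : Integrable (fun x : E d => w (x, φ x) * om φ (some i) x) := by
      have h1 : Integrable (fun x : E d => w (x, φ x)) := by
        have h2 : HasCompactSupport (fun x : E d => w (x, φ x)) := by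
          refine HasCompactSupport.intro (hc.image continuous_fst) (K := Prod.fst '' tsupport w) ?_
          intro x hx
          by_contra hne
          exact hx ⟨(x, φ x), subset_tsupport w hne, rfl⟩
        have h3 : Continuous (fun x : E d => w (x, φ x)) := by
          have := hφ.continuous
          have := hw.continuous
          fun_prop
        exact h3.integrable_of_hasCompactSupport h2
      have := h1.bdd_mul (c := C) hm.aestronglyMeasurable (Eventually.of_forall hC)
      refine this.congr (Eventually.of_forall fun x => ?_)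
      simp [mul_comm]
    rw [integral_sub hJ1 hJ2] at hz
    linarith

/-- Divergence theorem above a Lipschitz graph, for vector fields which are `C¹` near the closed domain
and vanish at the points of the closed domain with `‖X‖ ≥ B`.
Proof: `integral_above`; vertical component: for fixed `x` the fundamental theorem of calculus in `τ`;
component `some i`: for fixed `τ > 0` the function `x ↦ V (some i) (x, φ x + τ)` is Lipschitz with compact support, at a.e. `x`
(Rademacher: `LipschitzWith.ae_differentiableAt`) its derivative in direction `Pi.single i 1` is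
`pd (some i) V (x,φ x+τ) + pd none V (x,φ x+τ) * om φ (some i) x` by the chain rule, and its integral is `0`
(`LipschitzWith.integral_lineDeriv_mul_eq` with the other function `= 1`); then integrate
`- pd none V (x,φ x+τ) * om φ (some i) x` in `τ` by the fundamental theorem again. -/
theorem div_thm {M : ℝ≥0} {φ : E d → ℝ} (hφ : LipschitzWith M φ) {U : Set (P d)} (hU : IsOpen U)
    (hDU : aboveC φ ⊆ U) {V : Ix d → P d → ℝ} (hV : ∀ a, ContDiffOn ℝ 1 (V a) U) {B : ℝ}
    (hB : ∀ a, ∀ X ∈ aboveC φ, B ≤ ‖X‖ → V a X = 0) :
    ∫ X in above φ, ∑ a : Ix d, pd a (V a) X = ∫ x : E d, ∑ a : Ix d, V a (x, φ x) * om φ a x := by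
  have hφc := hφ.continuous
  have hclosed : IsClosed (aboveC φ) := by
    have : aboveC φ = {X : P d | φ X.1 ≤ X.2} := rfl
    rw [this]
    exact isClosed_le (by fun_prop) continuous_snd
  have hopen : IsOpen (above φ) := by
    have : above φ = {X : P d | φ X.1 < X.2} := rfl
    rw [this]
    exact isOpen_lt (by fun_prop) continuous_snd
  have hK : IsCompact (aboveC φ ∩ Metric.closedBall (0 : P d) B) :=
    (isCompact_closedBall _ _).inter_left hclosed
  obtain ⟨f, hf, hfc, hfU, hf1⟩ := divThm_cutoff hK hU (inter_subset_left.trans hDU)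
  set W : Ix d → P d → ℝ := fun a X => f X * V a X with hW
  have hWc : ∀ a, ContDiff ℝ 1 (W a) := by
    intro a
    rw [contDiff_iff_contDiffAt]
    intro X
    by_cases hX : X ∈ tsupport f
    · exact hf.contDiffAt.mul ((hV a).contDiffAt (hU.mem_nhds (hfU hX)))
    · have h0 : W a =ᶠ[𝓝 X] fun _ => (0 : ℝ) := by
        have := notMem_tsupport_iff_eventuallyEq.1 hX
        filter_upwards [this] with Y hY
        simp [hW, hY]
      exact contDiffAt_const.congr_of_eventuallyEq h0
  have hWs : ∀ a, HasCompactSupport (W a) := fun a => hfc.mul_right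
  have hWV : ∀ a, ∀ X ∈ aboveC φ, W a X = V a X := by
    intro a X hX
    by_cases hXB : ‖X‖ ≤ B
    · have : f X = 1 := hf1 X ⟨hX, by simpa using hXB⟩
      simp [hW, this]
    · simp [hW, hB a X hX (not_le.1 hXB).le]
  have hpd : ∀ a, ∀ X ∈ above φ, pd a (W a) X = pd a (V a) X := by
    intro a X hX
    unfold pd
    have : W a =ᶠ[𝓝 X] V a := by
      filter_upwards [hopen.mem_nhds hX] with Y hY
      exact hWV a Y (le_of_lt (show φ Y.1 < Y.2 from hY) : φ Y.1 ≤ Y.2)
    rw [this.fderiv_eq]
  have hL : ∫ X in above φ, ∑ a : Ix d, pd a (V a) X = ∫ X in above φ, ∑ a : Ix d, pd a (W a) X := by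
    refine setIntegral_congr_fun hopen.measurableSet fun X hX => ?_
    exact Finset.sum_congr rfl fun a _ => (hpd a X hX).symm
  have hR : ∫ x : E d, ∑ a : Ix d, V a (x, φ x) * om φ a x
      = ∫ x : E d, ∑ a : Ix d, W a (x, φ x) * om φ a x := by
    refine integral_congr_ae (Eventually.of_forall fun x => ?_)
    refine Finset.sum_congr rfl fun a _ => ?_
    rw [hWV a (x, φ x) (le_refl (φ x))]
  rw [hL, hR, integral_finsetSum, integral_finsetSum]
  · exact Finset.sum_congr rfl fun a _ => divThm_one hφ (hWc a) (hWs a) a
  · intro a _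
    obtain ⟨hm, C, hC⟩ := divThm_om_meas hφ a
    have h1 : Integrable (fun x : E d => W a (x, φ x)) := by
      have h2 : HasCompactSupport (fun x : E d => W a (x, φ x)) := by
        refine HasCompactSupport.intro ((hWs a).image continuous_fst)
          (K := Prod.fst '' tsupport (W a)) ?_
        intro x hx
        by_contra hne
        exact hx ⟨(x, φ x), subset_tsupport (W a) hne, rfl⟩
      have h3 : Continuous (fun x : E d => W a (x, φ x)) := by
        have := (hWc a).continuous
        fun_prop
      exact h3.integrable_of_hasCompactSupport h2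
    have := h1.bdd_mul (c := C) hm.aestronglyMeasurable (Eventually.of_forall hC)
    refine this.congr (Eventually.of_forall fun x => ?_)
    simp [mul_comm]
  · intro a _
    have hcont : Continuous (fun X : P d => pd a (W a) X) := by
      unfold pd
      exact ((hWc a).continuous_fderiv (by simp)).clm_apply continuous_const
    have hcs : HasCompactSupport (fun X : P d => pd a (W a) X) := by
      unfold pd
      exact ((hWs a).fderiv ℝ).comp_left (g := fun L => L (eb a)) rfl
    exact (hcont.integrable_of_hasCompactSupport hcs).integrableOn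

end HG
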