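import Pool.Agent.W_MP_825298_an.CertAlg2
import Pool.Agent.W_MP_825298_an.CertAlg4
import Pool.Agent.W_MP_825298_an.DivThm

open MeasureTheory Set Filter Topology
open scoped ENNReal NNReal BigOperators

namespace HG
variable {d : ℕ}

/-- the scalar part of `Kvec` as a linear map of `g` -/
noncomputable def Cert1_K0 (q : VV d) : (Ix d → ℝ) →ₗ[ℝ] ℝ where
  toFun g := ∑ a : Ix d, g a * (q none * dn a + Real.sqrt 2 * q (some (a, none)))
  map_add' g g' := by
    simp only [Pi.add_apply, add_mul, Finset.sum_add_distrib]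
  map_smul' r g := by
    simp only [Pi.smul_apply, smul_eq_mul, RingHom.id_apply, Finset.mul_sum, mul_assoc]

/-- the bivector part of `Kvec` (times `√2`) as a linear map of `g` -/
noncomputable def Cert1_K (q : VV d) (a b : Ix d) : (Ix d → ℝ) →ₗ[ℝ] ℝ where
  toFun g := g b * (q none * dn a + Real.sqrt 2 * q (some (a, none)))
    - g a * (q none * dn b + Real.sqrt 2 * q (some (b, none)))
    + (Real.sqrt 2 * q (some (a, b))) * g none
    + dn a * (∑ k : Ix d, (Real.sqrt 2 * q (some (b, k))) * g k)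
    + dn b * (∑ k : Ix d, (Real.sqrt 2 * q (some (k, a))) * g k)
  map_add' g g' := by
    simp only [Pi.add_apply, mul_add, Finset.sum_add_distrib]
    ring
  map_smul' r g := by
    simp only [Pi.smul_apply, smul_eq_mul, RingHom.id_apply]
    have h : ∀ c : Ix d → ℝ, ∑ k : Ix d, c k * (r * g k) = r * ∑ k : Ix d, c k * g k := by
      intro c
      rw [Finset.mul_sum]
      exact Finset.sum_congr rfl fun k _ => by ring
    rw [h, h]
    ring

theorem Cert1_K0_eq (g : Ix d → ℝ) (q : VV d) : (Kvec g q) none = Cert1_K0 q g := by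
  simp [Kvec, Cert1_K0]

theorem Cert1_K_eq (g : Ix d → ℝ) (q : VV d) (a b : Ix d) :
    Real.sqrt 2 * (Kvec g q) (some (a, b)) = Cert1_K q a b g := by
  have h2 : Real.sqrt 2 ≠ 0 := by positivity
  simp only [Kvec, Cert1_K, LinearMap.coe_mk, AddHom.coe_mk]
  rw [mul_div_cancel₀ _ h2]

/-- antisymmetry -/
theorem Cert1_K_anti {q : VV d} (hq : IsAnti q) (a b : Ix d) (g : Ix d → ℝ) :
    Cert1_K q a b g = - Cert1_K q b a g := by
  simp only [Cert1_K, LinearMap.coe_mk, AddHom.coe_mk]
  have h1 : ∑ k : Ix d, (Real.sqrt 2 * q (some (a, k))) * g k =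
      - ∑ k : Ix d, (Real.sqrt 2 * q (some (k, a))) * g k := by
    rw [← Finset.sum_neg_distrib]
    exact Finset.sum_congr rfl fun k _ => by rw [hq a k]; ring
  have h2 : ∑ k : Ix d, (Real.sqrt 2 * q (some (k, b))) * g k =
      - ∑ k : Ix d, (Real.sqrt 2 * q (some (b, k))) * g k := by
    rw [← Finset.sum_neg_distrib]
    exact Finset.sum_congr rfl fun k _ => by rw [hq k b]; ring
  rw [h1, h2, hq b a]
  ring

/-- an antisymmetric matrix against a symmetric one -/
theorem Cert1_anti_symm {A S : Ix d → Ix d → ℝ} (hA : ∀ a b, A a b = - A b a)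
    (hS : ∀ a b, S a b = S b a) : ∑ b : Ix d, ∑ a : Ix d, A a b * S b a = 0 := by
  have h : ∑ b : Ix d, ∑ a : Ix d, A a b * S b a = - ∑ b : Ix d, ∑ a : Ix d, A a b * S b a := by
    conv_lhs => rw [Finset.sum_comm]
    rw [← Finset.sum_neg_distrib]
    refine Finset.sum_congr rfl fun a _ => ?_
    rw [← Finset.sum_neg_distrib]
    refine Finset.sum_congr rfl fun b _ => ?_
    rw [hA a b, hS b a]
    ring
  linarith

/-- the divergence of the bivector part -/
theorem Cert1_div_K {q : VV d} (hq : IsAnti q) (D : Ix d → Ix d → ℝ)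
    (hs : ∀ a b, D a b = D b a) (ht : ∑ a : Ix d, D a a = 0) (a : Ix d) :
    ∑ b : Ix d, Cert1_K q a b (D b) = - Cert1_K0 q (D a) := by
  classical
  simp only [Cert1_K, Cert1_K0, LinearMap.coe_mk, AddHom.coe_mk]
  rw [Finset.sum_add_distrib, Finset.sum_add_distrib, Finset.sum_add_distrib,
    Finset.sum_sub_distrib]
  have h1 : ∑ b : Ix d, D b b * (q none * dn a + Real.sqrt 2 * q (some (a, none))) = 0 := by
    rw [← Finset.sum_mul, ht, zero_mul]
  have h2 : ∑ b : Ix d, D b a * (q none * dn b + Real.sqrt 2 * q (some (b, none))) =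
      ∑ b : Ix d, D a b * (q none * dn b + Real.sqrt 2 * q (some (b, none))) :=
    Finset.sum_congr rfl fun b _ => by rw [hs b a]
  have h3 : ∑ b : Ix d, dn a * (∑ k : Ix d, (Real.sqrt 2 * q (some (b, k))) * D b k) = 0 := by
    rw [← Finset.mul_sum]
    have := Cert1_anti_symm (A := fun k b => Real.sqrt 2 * q (some (b, k))) (S := D)
      (fun a b => by rw [hq b a]; ring) hs
    rw [this, mul_zero]
  have h4 : ∑ b : Ix d, dn b * (∑ k : Ix d, (Real.sqrt 2 * q (some (k, a))) * D b k) =
      ∑ k : Ix d, (Real.sqrt 2 * q (some (k, a))) * D none k := by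
    rw [Finset.sum_eq_single_of_mem none (Finset.mem_univ _)]
    · simp [dn]
    · intro b _ hb
      simp [dn, hb]
  have h5 : ∑ b : Ix d, (Real.sqrt 2 * q (some (a, b))) * D b none =
      - ∑ k : Ix d, (Real.sqrt 2 * q (some (k, a))) * D none k := by
    rw [← Finset.sum_neg_distrib]
    refine Finset.sum_congr rfl fun b _ => ?_
    rw [hs b none, hq a b]
    ring
  rw [h1, h2, h3, h4, h5]
  ring

/-- the algebraic form of `div V = 0` -/
theorem Cert1_div_zero {q : VV d} (hq : IsAnti q) (g f : Ix d → ℝ) (D S : Ix d → Ix d → ℝ)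
    (hs : ∀ a b, D a b = D b a) (ht : ∑ a : Ix d, D a a = 0)
    (hs' : ∀ a b, S a b = S b a) (ht' : ∑ a : Ix d, S a a = 0) :
    ∑ b : Ix d, ((Cert1_K0 q g * S b b + Cert1_K0 q (D b) * f b) +
      ∑ a : Ix d, (Cert1_K q a b g * S b a + Cert1_K q a b (D b) * f a)) = 0 := by
  rw [Finset.sum_add_distrib, Finset.sum_add_distrib]
  have h1 : ∑ b : Ix d, Cert1_K0 q g * S b b = 0 := by
    rw [← Finset.mul_sum, ht', mul_zero]
  have h2 : ∑ b : Ix d, ∑ a : Ix d, (Cert1_K q a b g * S b a + Cert1_K q a b (D b) * f a) =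
      ∑ a : Ix d, (- Cert1_K0 q (D a)) * f a := by
    simp only [Finset.sum_add_distrib]
    rw [Cert1_anti_symm (A := fun a b => Cert1_K q a b g) (fun a b => Cert1_K_anti hq a b g) hs',
      zero_add, Finset.sum_comm]
    refine Finset.sum_congr rfl fun a _ => ?_
    rw [← Finset.sum_mul, Cert1_div_K hq D hs ht]
  rw [h1, h2, zero_add, ← Finset.sum_add_distrib]
  exact Finset.sum_eq_zero fun b _ => by ring

theorem Cert1_hasFDerivAt_lin {G : Ix d → P d → ℝ} {X : P d}
    (hG : ∀ a, DifferentiableAt ℝ (G a) X) (l : (Ix d → ℝ) →ₗ[ℝ] ℝ) :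
    HasFDerivAt (fun X => l (fun a => G a X))
      ((LinearMap.toContinuousLinearMap l).comp
        (ContinuousLinearMap.pi (fun a => fderiv ℝ (G a) X))) X := by
  have h1 : HasFDerivAt (fun X => (fun a => G a X))
      (ContinuousLinearMap.pi (fun a => fderiv ℝ (G a) X)) X :=
    hasFDerivAt_pi.2 fun a => (hG a).hasFDerivAt
  exact (LinearMap.toContinuousLinearMap l).hasFDerivAt.comp X h1

theorem Cert1_pd_lin {G : Ix d → P d → ℝ} {X : P d}
    (hG : ∀ a, DifferentiableAt ℝ (G a) X) (l : (Ix d → ℝ) →ₗ[ℝ] ℝ) (b : Ix d) :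
    pd b (fun X => l (fun a => G a X)) X = l (fun a => pd b (G a) X) := by
  unfold pd
  rw [(Cert1_hasFDerivAt_lin hG l).fderiv]
  rfl

theorem Cert1_pd_mul {f g : P d → ℝ} {X : P d} (hf : DifferentiableAt ℝ f X)
    (hg : DifferentiableAt ℝ g X) (b : Ix d) :
    pd b (fun X => f X * g X) X = f X * pd b g X + pd b f X * g X := by
  unfold pd
  rw [fderiv_fun_mul hf hg]
  simp [mul_comm]

theorem Cert1_pd_add {f g : P d → ℝ} {X : P d} (hf : DifferentiableAt ℝ f X)
    (hg : DifferentiableAt ℝ g X) (b : Ix d) :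
    pd b (fun X => f X + g X) X = pd b f X + pd b g X := by
  unfold pd
  rw [fderiv_fun_add hf hg]
  rfl

theorem Cert1_pd_sum {ι : Type*} (s : Finset ι) {f : ι → P d → ℝ} {X : P d}
    (hf : ∀ i ∈ s, DifferentiableAt ℝ (f i) X) (b : Ix d) :
    pd b (fun X => ∑ i ∈ s, f i X) X = ∑ i ∈ s, pd b (f i) X := by
  unfold pd
  rw [fderiv_fun_sum hf]
  simp

/-- The certificate inequality. If `F, G` are fields near the closed domain then for the constant antisymmetric `q` the vector
field `V_b = K_0 F_b + ∑_a K_ab F_a` (`K = Kvec (G ·) q`, `K_ab = √2 K(some(a,b))`) is divergence free: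
`∑_b ∂_b K_ab = - ∂_a K_0` (because `div G = 0`, `curl G = 0`, and the trilinear part `T_abk G_k`,
`T_abk = Q_ab δ_kn + Q_bk δ_an + Q_ka δ_bn`, is antisymmetric in `(b,k)`),
and `∑_ab K_ab ∂_b F_a = 0` (antisymmetry of `K_ab`, symmetry of `∂_bF_a`), `div F = 0`.
Apply `div_thm` to `χ V`, use `Kvec_inner_bvec` on the graph and `|V_b| ≤ C |q| |G| |F|`. -/
theorem cert_ineq (d : ℕ) : ∃ C : ℝ, 0 < C ∧ ∀ (M : ℝ≥0) (φ : E d → ℝ), LipschitzWith M φ →
    ∀ (U : Set (P d)), IsOpen U → aboveC φ ⊆ U → ∀ (F G : Ix d → P d → ℝ), IsField U F → IsField U G →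
    ∀ q : VV d, IsAnti q → ∀ χ : P d → ℝ, ContDiffOn ℝ 1 χ U → ∀ B : ℝ,
      (∀ X ∈ aboveC φ, B ≤ ‖X‖ → χ X = 0) →
    |∫ x : E d, χ (x, φ x) * inner ℝ (Kvec (fun a => G a (x, φ x)) q) (hb φ F x)|
      ≤ C * ‖q‖ * ∫ X in above φ, (∑ b : Ix d, |pd b χ X|) * nF G X * nF F X := by
  obtain ⟨C, hC, hCK⟩ := Kvec_norm_le d
  refine ⟨(1 + Real.sqrt 2) * C, by positivity, ?_⟩
  intro M φ hφ U hU hDU F G hF hG q hq χ hχ B hB
  -- the vector field
  set V : Ix d → P d → ℝ := fun b X => Cert1_K0 q (fun a => G a X) * F b X +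
    ∑ a : Ix d, Cert1_K q a b (fun a => G a X) * F a X with hV
  have hcl : above φ ⊆ aboveC φ := fun X hX => by
    have h : φ X.1 < X.2 := hX
    exact (h.le : φ X.1 ≤ X.2)
  have hsub : above φ ⊆ U := hcl.trans hDU
  have hdiff : ∀ {f : P d → ℝ}, ContDiffOn ℝ 1 f U → ∀ X ∈ U, DifferentiableAt ℝ f X :=
    fun hf X hX => (hf.differentiableOn (by norm_num)).differentiableAt (hU.mem_nhds hX)
  have hlin : ∀ l : (Ix d → ℝ) →ₗ[ℝ] ℝ, ContDiffOn ℝ 1 (fun X => l (fun a => G a X)) U := by
    intro l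
    have h1 : ContDiffOn ℝ 1 (fun X => (fun a => G a X)) U := contDiffOn_pi.2 fun a => hG.cd a
    exact (LinearMap.toContinuousLinearMap l).contDiff.comp_contDiffOn h1
  have hVcd : ∀ b, ContDiffOn ℝ 1 (V b) U := by
    intro b
    exact ((hlin _).mul (hF.cd b)).add
      (ContDiffOn.sum fun a _ => (hlin _).mul (hF.cd a))
  -- the divergence
  have hdiv : ∀ X ∈ U, ∑ b : Ix d, pd b (V b) X = 0 := by
    intro X hX
    have hGd : ∀ a, DifferentiableAt ℝ (G a) X := fun a => hdiff (hG.cd a) X hX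
    have hFd : ∀ a, DifferentiableAt ℝ (F a) X := fun a => hdiff (hF.cd a) X hX
    have hKd : ∀ l : (Ix d → ℝ) →ₗ[ℝ] ℝ, DifferentiableAt ℝ (fun X => l (fun a => G a X)) X :=
      fun l => hdiff (hlin l) X hX
    have h1 : ∀ b, pd b (V b) X =
        (Cert1_K0 q (fun a => G a X) * pd b (F b) X +
          Cert1_K0 q (fun a => pd b (G a) X) * F b X) +
        ∑ a : Ix d, (Cert1_K q a b (fun a => G a X) * pd b (F a) X +
          Cert1_K q a b (fun a => pd b (G a) X) * F a X) := by
      intro b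
      have e1 := Cert1_pd_add (f := fun X => Cert1_K0 q (fun a => G a X) * F b X)
        (g := fun X => ∑ a : Ix d, Cert1_K q a b (fun a => G a X) * F a X)
        ((hKd _).mul (hFd b)) (DifferentiableAt.fun_sum fun a _ => (hKd _).mul (hFd a)) b
      have e2 := Cert1_pd_mul (hKd (Cert1_K0 q)) (hFd b) b
      have e3 := Cert1_pd_sum (Finset.univ : Finset (Ix d))
        (f := fun a X => Cert1_K q a b (fun a => G a X) * F a X)
        (fun a _ => (hKd _).mul (hFd a)) b
      refine e1.trans ?_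
      rw [e2, e3, Cert1_pd_lin hGd]
      congr 1
      refine Finset.sum_congr rfl fun a _ => ?_
      have e4 := Cert1_pd_mul (hKd (Cert1_K q a b)) (hFd a) b
      rw [e4, Cert1_pd_lin hGd]
    rw [Finset.sum_congr rfl fun b _ => h1 b]
    exact Cert1_div_zero hq (fun a => G a X) (fun a => F a X) (fun b a => pd b (G a) X)
      (fun b a => pd b (F a) X) (fun a b => hG.curl a b X hX) (hG.div X hX)
      (fun a b => hF.curl a b X hX) (hF.div X hX)
  -- the size
  have hVle : ∀ b X, |V b X| ≤ (1 + Real.sqrt 2) * C * ‖q‖ * (nF G X * nF F X) := by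
    intro b X
    have hnF : ∀ a, |F a X| ≤ nF F X := fun a =>
      Finset.single_le_sum (f := fun a => |F a X|) (fun i _ => abs_nonneg _) (Finset.mem_univ a)
    have hn := hCK (fun a => G a X) q
    have hcomp : ∀ o, |(Kvec (fun a => G a X) q) o| ≤ C * nF G X * ‖q‖ := by
      intro o
      have := PiLp.norm_apply_le (Kvec (fun a => G a X) q) o
      rw [Real.norm_eq_abs] at this
      exact this.trans hn
    have h0 : 0 ≤ C * nF G X * ‖q‖ := le_trans (abs_nonneg _) (hcomp none)
    have h1 : |Cert1_K0 q (fun a => G a X) * F b X| ≤ C * nF G X * ‖q‖ * nF F X := by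
      rw [abs_mul, ← Cert1_K0_eq]
      exact mul_le_mul (hcomp none) (hnF b) (abs_nonneg _) h0
    have h2 : |∑ a : Ix d, Cert1_K q a b (fun a => G a X) * F a X| ≤
        Real.sqrt 2 * (C * nF G X * ‖q‖) * nF F X := by
      refine (Finset.abs_sum_le_sum_abs _ _).trans ?_
      have h3 : ∀ a ∈ (Finset.univ : Finset (Ix d)),
          |Cert1_K q a b (fun a => G a X) * F a X| ≤
            Real.sqrt 2 * (C * nF G X * ‖q‖) * |F a X| := by
        intro a _
        rw [abs_mul, ← Cert1_K_eq, abs_mul, abs_of_nonneg (Real.sqrt_nonneg 2)]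
        exact mul_le_mul_of_nonneg_right
          (mul_le_mul_of_nonneg_left (hcomp _) (Real.sqrt_nonneg 2)) (abs_nonneg _)
      refine (Finset.sum_le_sum h3).trans ?_
      rw [← Finset.mul_sum]
      exact le_rfl
    calc |V b X| ≤ |Cert1_K0 q (fun a => G a X) * F b X| +
          |∑ a : Ix d, Cert1_K q a b (fun a => G a X) * F a X| := abs_add_le _ _
      _ ≤ C * nF G X * ‖q‖ * nF F X + Real.sqrt 2 * (C * nF G X * ‖q‖) * nF F X :=
          add_le_add h1 h2
      _ = _ := by ring
  -- the divergence theorem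
  have hW : ∀ a, ContDiffOn ℝ 1 (fun X => χ X * V a X) U := fun a => hχ.mul (hVcd a)
  have hdt := div_thm hφ hU hDU (V := fun a X => χ X * V a X) hW (B := B) (by
    intro a X hX hBX
    simp only [hB X hX hBX, zero_mul])
  have hrhs : ∀ x : E d, ∑ a : Ix d, χ (x, φ x) * V a (x, φ x) * om φ a x =
      χ (x, φ x) * inner ℝ (Kvec (fun a => G a (x, φ x)) q) (hb φ F x) := by
    intro x
    unfold hb
    rw [Kvec_inner_bvec _ q hq, Finset.mul_sum]
    refine Finset.sum_congr rfl fun b _ => ?_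
    simp only [hV]
    rw [Cert1_K0_eq]
    simp only [Cert1_K_eq]
    ring
  simp only [hrhs] at hdt
  rw [← hdt]
  have hlhs : ∀ X ∈ above φ, ∑ a : Ix d, pd a (fun X => χ X * V a X) X =
      ∑ a : Ix d, pd a χ X * V a X := by
    intro X hX
    have h1 : ∀ a, pd a (fun X => χ X * V a X) X = χ X * pd a (V a) X + pd a χ X * V a X :=
      fun a => Cert1_pd_mul (hdiff hχ X (hsub hX)) (hdiff (hVcd a) X (hsub hX)) a
    rw [Finset.sum_congr rfl fun a _ => h1 a, Finset.sum_add_distrib, ← Finset.mul_sum,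
      hdiv X (hsub hX), mul_zero, zero_add]
  have hmeas : MeasurableSet (above φ) := measurableSet_above hφ
  have hopen : IsOpen (above φ) :=
    isOpen_lt (hφ.continuous.comp continuous_fst) continuous_snd
  rw [setIntegral_congr_fun hmeas hlhs]
  -- integrability of the majorant
  set g : P d → ℝ := fun X => (∑ b : Ix d, |pd b χ X|) * nF G X * nF F X with hg
  have hpdχ : ∀ b, ContinuousOn (pd b χ) U := by
    intro b
    have h1 : ContinuousOn (fderiv ℝ χ) U := hχ.continuousOn_fderiv_of_isOpen hU le_rfl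
    exact h1.clm_apply continuousOn_const
  have hgc : ContinuousOn g U := by
    refine (ContinuousOn.mul (continuousOn_finsetSum _ fun b _ => (hpdχ b).abs) ?_).mul ?_
    · exact continuousOn_finsetSum _ fun a _ => (hG.cd a).continuousOn.abs
    · exact continuousOn_finsetSum _ fun a _ => (hF.cd a).continuousOn.abs
  have hclosed : IsClosed (aboveC φ) :=
    isClosed_le (hφ.continuous.comp continuous_fst) continuous_snd
  have hgint : IntegrableOn g (above φ) := by
    have hK : IsCompact (aboveC φ ∩ Metric.closedBall 0 B) :=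
      (isCompact_closedBall 0 B).inter_left hclosed
    have h1 : IntegrableOn g (aboveC φ ∩ Metric.closedBall 0 B) :=
      (hgc.mono (inter_subset_left.trans hDU)).integrableOn_compact hK
    have h2 : IntegrableOn g (above φ ∩ Metric.closedBall 0 B) :=
      h1.mono_set (inter_subset_inter_left _ hcl)
    refine IntegrableOn.of_forall_sdiff_eq_zero h2 hmeas ?_
    rintro X ⟨hX, hX2⟩
    have hXB : B < ‖X‖ := by
      by_contra hcon
      exact hX2 ⟨hX, by simpa using hcon⟩
    have h3 : χ =ᶠ[𝓝 X] fun _ => 0 := by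
      filter_upwards [hopen.mem_nhds hX, (isOpen_lt continuous_const continuous_norm).mem_nhds hXB]
        with Y hY hYB
      exact hB Y (hcl hY) (le_of_lt hYB)
    have h4 : ∀ b, pd b χ X = 0 := by
      intro b
      unfold pd
      rw [h3.fderiv_eq]
      simp
    simp [hg, h4]
  have hfin := norm_integral_le_of_norm_le (μ := volume.restrict (above φ))
    (f := fun X => ∑ a : Ix d, pd a χ X * V a X)
    (hgint.const_mul ((1 + Real.sqrt 2) * C * ‖q‖)) (by
      refine Filter.Eventually.of_forall fun X => ?_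
      rw [Real.norm_eq_abs]
      refine (Finset.abs_sum_le_sum_abs _ _).trans ?_
      have h5 : ∀ a ∈ (Finset.univ : Finset (Ix d)), |pd a χ X * V a X| ≤
          |pd a χ X| * ((1 + Real.sqrt 2) * C * ‖q‖ * (nF G X * nF F X)) := by
        intro a _
        rw [abs_mul]
        exact mul_le_mul_of_nonneg_left (hVle a X) (abs_nonneg _)
      refine (Finset.sum_le_sum h5).trans ?_
      rw [← Finset.sum_mul]
      simp only [hg]
      apply le_of_eq
      ring)
  rw [integral_const_mul] at hfin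
  exact hfin

end HG
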