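import Pool.Agent.W_MP_825298_an.Defs

open MeasureTheory Set Filter Topology
open scoped ENNReal NNReal BigOperators

namespace HG
variable {d : ℕ}

/-- `K[e_n] q = q` for antisymmetric `q`. -/
theorem Kvec_dn (q : VV d) (hq : IsAnti q) : Kvec dn q = q := by
  have h20 : Real.sqrt 2 ≠ 0 := by positivity
  have hnn : q (some (none, none)) = 0 := by
    have := hq none none
    linarith
  have hs : ∀ f : Ix d → ℝ, ∑ a : Ix d, f a * dn a = f none := by
    intro f; simp [dn]
  have hs' : ∀ f : Ix d → ℝ, ∑ a : Ix d, dn a * f a = f none := by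
    intro f; simp [dn]
  ext o
  match o with
  | none =>
    simp only [Kvec]
    rw [hs']
    simp [dn, hnn]
  | some (a, b) =>
    simp only [Kvec]
    rw [hs, hs, div_eq_iff h20, hq none a, hq b none, hq none b]
    cases a <;> cases b <;> simp [dn, hnn] <;> ring

theorem bvec_anti (ω f : Ix d → ℝ) : IsAnti (bvec ω f) := by
  intro a b
  simp only [bvec]
  ring

end HG
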