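import Pool.Agent.W_MP_825298_an.Defs

open MeasureTheory Set Filter Topology
open scoped ENNReal NNReal BigOperators

namespace HG
variable {d : ℕ}

theorem CertAlg5_none (ω f : Ix d → ℝ) : bvec ω f none = ∑ a : Ix d, ω a * f a := rfl

theorem CertAlg5_some (ω f : Ix d → ℝ) (a b : Ix d) :
    bvec ω f (some (a, b)) = (f a * ω b - f b * ω a) / Real.sqrt 2 := rfl

theorem CertAlg5_abs_om {M : ℝ≥0} {φ : E d → ℝ} (hφ : LipschitzWith M φ) (a : Ix d) (x : E d) :
    |om φ a x| ≤ max (M : ℝ) 1 := by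
  cases a with
  | none => simp [om]
  | some i =>
    have h1 : ‖fderiv ℝ φ x‖ ≤ M := norm_fderiv_le_of_lipschitz ℝ hφ
    have h2 : ‖fderiv ℝ φ x (Pi.single i 1)‖ ≤ ‖fderiv ℝ φ x‖ * ‖(Pi.single i 1 : E d)‖ :=
      (fderiv ℝ φ x).le_opNorm _
    have h3 : ‖(Pi.single i 1 : E d)‖ ≤ 1 := by
      rw [pi_norm_le_iff_of_nonneg zero_le_one]
      intro j
      rw [Pi.single_apply]
      split_ifs <;> simp
    have h4 : ‖fderiv ℝ φ x‖ * ‖(Pi.single i 1 : E d)‖ ≤ M * 1 :=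
      mul_le_mul h1 h3 (norm_nonneg _) M.coe_nonneg
    have h5 : |om φ (some i) x| = ‖fderiv ℝ φ x (Pi.single i 1)‖ := rfl
    rw [h5]
    exact (h2.trans h4).trans (by rw [mul_one]; exact le_max_left _ _)

/-- size of the boundary data: `|om φ a x| ≤ max M 1`. -/
theorem hb_norm_le (d : ℕ) (M : ℝ≥0) : ∃ C : ℝ, 0 < C ∧ ∀ (φ : E d → ℝ), LipschitzWith M φ →
    ∀ (F : Ix d → P d → ℝ) (x : E d), ‖hb φ F x‖ ≤ C * nF F (x, φ x) := by
  set K : ℝ := max (M : ℝ) 1 with hK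
  have hK0 : 0 < K := lt_of_lt_of_le one_pos (le_max_right _ _)
  set N : ℝ := Real.sqrt (Fintype.card (Option (Ix d × Ix d))) with hN
  have hN0 : 0 < N := Real.sqrt_pos.2 (by exact_mod_cast Fintype.card_pos)
  refine ⟨N * (2 * K), by positivity, fun φ hφ F x => ?_⟩
  set f : Ix d → ℝ := fun a => F a (x, φ x) with hf
  set ω : Ix d → ℝ := fun a => om φ a x with hω
  have hω1 : ∀ a, |ω a| ≤ K := fun a => CertAlg5_abs_om hφ a x
  have hnF : nF F (x, φ x) = ∑ a, |f a| := rfl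
  have hfa : ∀ a, |f a| ≤ nF F (x, φ x) := fun a => by
    rw [hnF]
    exact Finset.single_le_sum (f := fun a => |f a|) (fun _ _ => abs_nonneg _) (Finset.mem_univ a)
  have hn0 : 0 ≤ nF F (x, φ x) := (abs_nonneg _).trans (hfa none)
  have hcomp : ∀ o, |bvec ω f o| ≤ 2 * K * nF F (x, φ x) := by
    intro o
    rcases o with _ | ⟨a, b⟩
    · rw [CertAlg5_none]
      calc |∑ a : Ix d, ω a * f a| ≤ ∑ a : Ix d, |ω a * f a| := Finset.abs_sum_le_sum_abs _ _
        _ ≤ ∑ a : Ix d, K * |f a| := Finset.sum_le_sum fun a _ => by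
            rw [abs_mul]
            exact mul_le_mul_of_nonneg_right (hω1 a) (abs_nonneg _)
        _ = K * nF F (x, φ x) := by rw [← Finset.mul_sum, hnF]
        _ ≤ 2 * K * nF F (x, φ x) := by nlinarith [mul_nonneg hK0.le hn0]
    · rw [CertAlg5_some, abs_div, abs_of_pos (Real.sqrt_pos.2 (by norm_num : (0 : ℝ) < 2))]
      have h1 : |f a * ω b - f b * ω a| ≤ 2 * K * nF F (x, φ x) := by
        calc |f a * ω b - f b * ω a| ≤ |f a * ω b| + |f b * ω a| := abs_sub _ _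
          _ ≤ nF F (x, φ x) * K + nF F (x, φ x) * K := by
            rw [abs_mul, abs_mul]
            exact add_le_add (mul_le_mul (hfa a) (hω1 b) (abs_nonneg _) hn0)
              (mul_le_mul (hfa b) (hω1 a) (abs_nonneg _) hn0)
          _ = 2 * K * nF F (x, φ x) := by ring
      refine (div_le_self (abs_nonneg _) ?_).trans h1
      exact Real.one_le_sqrt.2 (by norm_num)
  have hB : 0 ≤ 2 * K * nF F (x, φ x) := by positivity
  have h : ‖hb φ F x‖ ≤ N * (2 * K * nF F (x, φ x)) := by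
    have e : hb φ F x = bvec ω f := rfl
    rw [e, EuclideanSpace.norm_eq]
    have h1 : ∑ o, ‖bvec ω f o‖ ^ 2 ≤ ∑ _o : Option (Ix d × Ix d), (2 * K * nF F (x, φ x)) ^ 2 :=
      Finset.sum_le_sum fun o _ => by
        rw [Real.norm_eq_abs]
        exact pow_le_pow_left₀ (abs_nonneg _) (hcomp o) 2
    rw [Finset.sum_const, Finset.card_univ, nsmul_eq_mul] at h1
    refine (Real.sqrt_le_sqrt h1).trans (le_of_eq ?_)
    rw [Real.sqrt_mul (Nat.cast_nonneg _), Real.sqrt_sq hB]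
  calc ‖hb φ F x‖ ≤ N * (2 * K * nF F (x, φ x)) := h
    _ = N * (2 * K) * nF F (x, φ x) := by ring

/-- Lagrange's identity for the boundary data. -/
theorem CertAlg5_lagrange (ω f : Ix d → ℝ) :
    ‖bvec ω f‖ ^ 2 = (∑ a, ω a ^ 2) * ∑ a, f a ^ 2 := by
  rw [EuclideanSpace.norm_sq_eq, Fintype.sum_option, Fintype.sum_prod_type]
  have h1 : ∀ a b : Ix d, ‖bvec ω f (some (a, b))‖ ^ 2 =
      (f a ^ 2 * ω b ^ 2 + ω a ^ 2 * f b ^ 2) / 2 - (ω a * f a) * (ω b * f b) := by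
    intro a b
    rw [CertAlg5_some, Real.norm_eq_abs, sq_abs, div_pow, Real.sq_sqrt (by norm_num)]
    ring
  simp only [h1]
  rw [CertAlg5_none, Real.norm_eq_abs, sq_abs]
  have h2 : ∑ a : Ix d, ∑ b : Ix d, ((f a ^ 2 * ω b ^ 2 + ω a ^ 2 * f b ^ 2) / 2 -
      (ω a * f a) * (ω b * f b)) = (∑ a, ω a ^ 2) * (∑ a, f a ^ 2) - (∑ a, ω a * f a) ^ 2 := by
    have e1 : ∑ a : Ix d, ∑ b : Ix d, f a ^ 2 * ω b ^ 2 = (∑ a, f a ^ 2) * ∑ a, ω a ^ 2 := by
      rw [Finset.sum_mul_sum]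
    have e2 : ∑ a : Ix d, ∑ b : Ix d, ω a ^ 2 * f b ^ 2 = (∑ a, ω a ^ 2) * ∑ a, f a ^ 2 := by
      rw [Finset.sum_mul_sum]
    have e3 : ∑ a : Ix d, ∑ b : Ix d, (ω a * f a) * (ω b * f b) = (∑ a, ω a * f a) ^ 2 := by
      rw [pow_two, Finset.sum_mul_sum]
    simp only [Finset.sum_sub_distrib, ← Finset.sum_div, Finset.sum_add_distrib]
    rw [e1, e2, e3]
    ring
  rw [h2]
  ring

/-- conversely the boundary data control the field on the graph (Lagrange identity `|hb| = |om||F|_2`, `|om| ≥ 1`). -/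
theorem nF_le_hb (d : ℕ) : ∃ C : ℝ, 0 < C ∧ ∀ (φ : E d → ℝ)
    (F : Ix d → P d → ℝ) (x : E d), nF F (x, φ x) ≤ C * ‖hb φ F x‖ := by
  refine ⟨Fintype.card (Ix d), by exact_mod_cast Fintype.card_pos, fun φ F x => ?_⟩
  set f : Ix d → ℝ := fun a => F a (x, φ x) with hf
  set ω : Ix d → ℝ := fun a => om φ a x with hω
  have h1 : ‖bvec ω f‖ ^ 2 = (∑ a, ω a ^ 2) * ∑ a, f a ^ 2 := CertAlg5_lagrange ω f
  have h2 : 1 ≤ ∑ a, ω a ^ 2 := by
    have h : ω none ^ 2 ≤ ∑ a, ω a ^ 2 :=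
      Finset.single_le_sum (f := fun a => ω a ^ 2) (fun _ _ => sq_nonneg _) (Finset.mem_univ none)
    have h0 : ω none ^ 2 = 1 := by simp [hω, om]
    linarith
  have h3 : ∀ a, |f a| ≤ ‖bvec ω f‖ := by
    intro a
    have h4 : f a ^ 2 ≤ ∑ a, f a ^ 2 :=
      Finset.single_le_sum (f := fun a => f a ^ 2) (fun _ _ => sq_nonneg _) (Finset.mem_univ a)
    have h5 : f a ^ 2 ≤ ‖bvec ω f‖ ^ 2 := by
      rw [h1]
      nlinarith [sq_nonneg (f a)]
    exact abs_le_of_sq_le_sq h5 (norm_nonneg _)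
  have e : hb φ F x = bvec ω f := rfl
  calc nF F (x, φ x) = ∑ a, |f a| := rfl
    _ ≤ ∑ _a : Ix d, ‖bvec ω f‖ := Finset.sum_le_sum fun a _ => h3 a
    _ = Fintype.card (Ix d) * ‖hb φ F x‖ := by
      rw [Finset.sum_const, Finset.card_univ, nsmul_eq_mul, e]

/-- measurability of the boundary data of a continuous field -/
theorem hb_measurable {M : ℝ≥0} {φ : E d → ℝ} (hφ : LipschitzWith M φ) {U : Set (P d)} (hDU : aboveC φ ⊆ U)
    {F : Ix d → P d → ℝ} (hF : ∀ a, ContinuousOn (F a) U) : Measurable (hb φ F) := by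
  have hg : Continuous (fun x : E d => ((x, φ x) : P d)) := continuous_id.prodMk hφ.continuous
  have hFc : ∀ a, Measurable (fun x : E d => F a (x, φ x)) := fun a =>
    ((hF a).comp_continuous hg fun x => hDU (le_refl (φ x))).measurable
  have hom : ∀ a, Measurable (fun x : E d => om φ a x) := by
    intro a
    cases a with
    | none => exact measurable_const
    | some i => exact measurable_fderiv_apply_const ℝ φ (Pi.single i 1)
  refine (WithLp.measurable_toLp 2 _).comp (measurable_pi_iff.2 fun o => ?_)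
  rcases o with _ | ⟨a, b⟩
  · exact Finset.measurable_sum _ fun a _ => (hom a).mul (hFc a)
  · exact (((hFc a).mul (hom b)).sub ((hFc b).mul (hom a))).div_const _

end HG
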