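import Pool.Agent.W_MP_825298_an.Cert1
import Pool.Agent.W_MP_825298_an.CertAlg3
import Pool.Agent.W_MP_825298_an.CertAlg5

open MeasureTheory Set Filter Topology
open scoped ENNReal NNReal BigOperators

namespace HG
variable {d : ℕ}

theorem Cert2_apply {f : E d → VV d} (hf : Integrable f) (o : Option (Ix d × Ix d)) :
    (∫ x, f x) o = ∫ x, (f x) o := by
  have h := (EuclideanSpace.proj (𝕜 := ℝ) o : VV d →L[ℝ] ℝ).integral_comp_comm hf
  exact h.symm

/-- Consequence of `cert_ineq` (`G = e_n` constant, `Kvec dn q = q`, `q = w/‖w‖`, `w = ∫ χ h`, which is antisymmetric). -/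
theorem test_ineq (d : ℕ) : ∃ C : ℝ, 0 < C ∧ ∀ (M : ℝ≥0) (φ : E d → ℝ), LipschitzWith M φ →
    ∀ (U : Set (P d)), IsOpen U → aboveC φ ⊆ U → ∀ (F : Ix d → P d → ℝ), IsField U F →
    ∀ χ : P d → ℝ, ContDiffOn ℝ 1 χ U → ∀ B : ℝ,
      (∀ X ∈ aboveC φ, B ≤ ‖X‖ → χ X = 0) →
    ‖∫ x : E d, χ (x, φ x) • hb φ F x‖
      ≤ C * ∫ X in above φ, (∑ b : Ix d, |pd b χ X|) * nF F X := by
  obtain ⟨C, hC, h⟩ := cert_ineq d
  refine ⟨C, hC, ?_⟩
  intro M φ hφ U hU hDU F hF χ hχ B hB
  have hI : 0 ≤ ∫ X in above φ, (∑ b : Ix d, |pd b χ X|) * nF F X :=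
    integral_nonneg (fun X => mul_nonneg (Finset.sum_nonneg fun _ _ => abs_nonneg _)
      (Finset.sum_nonneg fun _ _ => abs_nonneg _))
  by_cases hint : Integrable (fun x : E d => χ (x, φ x) • hb φ F x)
  · set w : VV d := ∫ x : E d, χ (x, φ x) • hb φ F x with hw
    have hanti : IsAnti w := by
      intro a b
      rw [hw, Cert2_apply hint, Cert2_apply hint, ← integral_neg]
      refine integral_congr_ae (Filter.Eventually.of_forall fun x => ?_)
      have h1 : hb φ F x (some (a, b)) = - hb φ F x (some (b, a)) := bvec_anti _ _ a b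
      show χ (x, φ x) * hb φ F x (some (a, b)) = - (χ (x, φ x) * hb φ F x (some (b, a)))
      rw [h1]
      ring
    have hG : IsField U (fun (a : Ix d) (_ : P d) => dn a) :=
      ⟨fun a => contDiffOn_const, fun a b X _ => by simp [pd], fun X _ => by simp [pd]⟩
    have h1 := h M φ hφ U hU hDU F (fun a _ => dn a) hF hG w hanti χ hχ B hB
    have h2 : ∀ x : E d, χ (x, φ x) * inner ℝ (Kvec (fun a => dn a) w) (hb φ F x) =
        inner ℝ w (χ (x, φ x) • hb φ F x) := by
      intro x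
      rw [real_inner_smul_right]
      have h3 : Kvec (fun a => dn a) w = w := Kvec_dn w hanti
      rw [h3]
    have h4 : ∀ X : P d, nF (fun (a : Ix d) (_ : P d) => dn a) X = 1 := by
      intro X
      simp [nF, dn, Fintype.sum_option]
    simp only [h2, h4, mul_one] at h1
    rw [integral_inner hint, ← hw, real_inner_self_eq_norm_sq, abs_of_nonneg (by positivity)] at h1
    by_cases hw0 : ‖w‖ = 0
    · rw [hw0]
      exact mul_nonneg hC.le hI
    · have hw1 : 0 < ‖w‖ := lt_of_le_of_ne (norm_nonneg _) (Ne.symm hw0)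
      have h5 : ‖w‖ * ‖w‖ ≤ ‖w‖ * (C * ∫ X in above φ, (∑ b : Ix d, |pd b χ X|) * nF F X) := by
        calc ‖w‖ * ‖w‖ = ‖w‖ ^ 2 := by ring
          _ ≤ _ := h1
          _ = _ := by ring
      exact le_of_mul_le_mul_left h5 hw1
  · rw [integral_undef hint, norm_zero]
    exact mul_nonneg hC.le hI

end HG
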