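import Pool.Agent.W_MP_825298_an.Defs

open MeasureTheory Set Filter Topology
open scoped ENNReal NNReal BigOperators

namespace HG
variable {d : ℕ}

theorem ca1_sum_dn_mul (f : Ix d → ℝ) : ∑ a : Ix d, dn a * f a = f none := by
  simp [dn]

/-- `⟨K[g]q, q⟩ = |q|² g_n`.
Write `q0 = q none`, `Q a b = √2 q(some(a,b))` (antisymmetric).  Then `‖q‖² = q0² + (1/2)∑ Q²` and
`⟨K,q⟩ = K0 q0 + (1/2)∑ K_ab Q_ab`.  Expand; all cross terms cancel by antisymmetry:
`q0 ∑_k g_k Q_{kn} + ∑_{ab} g_b c_a Q_ab = q0² g_n + ∑_{ab} g_b Q_ab Q_an` (use `Q_nb = -Q_bn`), and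
`(1/2)∑ Q_ab (Q_ab g_n + δ_an (Qg)_b + δ_bn ∑_k Q_ka g_k) = (1/2)|Q|² g_n - ∑_{jk} Q_jn Q_jk g_k`. -/
theorem Kvec_inner (g : Ix d → ℝ) (q : VV d) (hq : IsAnti q) :
    inner ℝ (Kvec g q) q = ‖q‖ ^ 2 * g none := by
  obtain ⟨q0, hq0⟩ : ∃ q0 : ℝ, q0 = q none := ⟨_, rfl⟩
  obtain ⟨Q, hQ⟩ : ∃ Q : Ix d → Ix d → ℝ, ∀ a b, Q a b = Real.sqrt 2 * q (some (a, b)) :=
    ⟨fun a b => Real.sqrt 2 * q (some (a, b)), fun _ _ => rfl⟩
  have h2 : Real.sqrt 2 * Real.sqrt 2 = 2 := Real.mul_self_sqrt (by norm_num)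
  have h20 : Real.sqrt 2 ≠ 0 := by positivity
  have hanti : ∀ a b, Q a b = - Q b a := by
    intro a b
    rw [hQ, hQ, hq a b]
    ring
  have hqQ : ∀ a b, q (some (a, b)) = Q a b / Real.sqrt 2 := by
    intro a b
    rw [hQ]
    field_simp
  have e2 : ‖q‖ ^ 2 = q0 ^ 2 + (1 / 2) * ∑ a : Ix d, ∑ b : Ix d, Q a b ^ 2 := by
    rw [EuclideanSpace.real_norm_sq_eq, Fintype.sum_option, Fintype.sum_prod_type, ← hq0,
      Finset.mul_sum]
    congr 1
    refine Finset.sum_congr rfl fun a _ => ?_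
    rw [Finset.mul_sum]
    refine Finset.sum_congr rfl fun b _ => ?_
    rw [hqQ, div_pow, pow_two (Real.sqrt 2), h2]
    ring
  have e1 : inner ℝ (Kvec g q) q = (∑ a : Ix d, g a * (q0 * dn a + Q a none)) * q0 +
      (1 / 2) * ∑ a : Ix d, ∑ b : Ix d, (g b * (q0 * dn a + Q a none)
        - g a * (q0 * dn b + Q b none) + Q a b * g none
        + dn a * (∑ k : Ix d, Q b k * g k) + dn b * (∑ k : Ix d, Q k a * g k)) * Q a b := by
    rw [PiLp.inner_apply, Fintype.sum_option, Fintype.sum_prod_type, Finset.mul_sum]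
    congr 1
    · simp only [Kvec, RCLike.inner_apply, conj_trivial, ← hQ, ← hq0]
      ring
    · refine Finset.sum_congr rfl fun a _ => ?_
      rw [Finset.mul_sum]
      refine Finset.sum_congr rfl fun b _ => ?_
      simp only [Kvec, RCLike.inner_apply, conj_trivial, ← hQ, ← hq0]
      rw [hqQ]
      have : ∀ x y : ℝ, x / Real.sqrt 2 * (y / Real.sqrt 2) = 1 / 2 * (y * x) := by
        intro x y
        rw [div_mul_div_comm, h2]
        ring
      rw [this]
  have s0 : ∑ a : Ix d, g a * (q0 * dn a + Q a none) = q0 * g none + ∑ a : Ix d, g a * Q a none := by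
    have : ∀ a : Ix d, g a * (q0 * dn a + Q a none) = dn a * (q0 * g a) + g a * Q a none := by
      intro a; ring
    simp only [this]
    rw [Finset.sum_add_distrib, ca1_sum_dn_mul]
  have s1 : ∑ a : Ix d, ∑ b : Ix d, (g b * (q0 * dn a + Q a none)) * Q a b =
      - q0 * (∑ a : Ix d, g a * Q a none) + ∑ a : Ix d, ∑ b : Ix d, g b * Q a none * Q a b := by
    have : ∀ a b : Ix d, (g b * (q0 * dn a + Q a none)) * Q a b =
        dn a * (q0 * (g b * Q a b)) + g b * Q a none * Q a b := by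
      intro a b; ring
    simp only [this, Finset.sum_add_distrib, ← Finset.mul_sum]
    rw [ca1_sum_dn_mul (fun a => q0 * ∑ b : Ix d, g b * Q a b)]
    congr 1
    have : ∀ b : Ix d, g b * Q none b = - (g b * Q b none) := by
      intro b; rw [hanti none b]; ring
    simp only [this, Finset.sum_neg_distrib]
    ring
  have s2 : ∑ a : Ix d, ∑ b : Ix d, (g a * (q0 * dn b + Q b none)) * Q a b =
      - ∑ a : Ix d, ∑ b : Ix d, (g b * (q0 * dn a + Q a none)) * Q a b := by
    rw [Finset.sum_comm, ← Finset.sum_neg_distrib]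
    refine Finset.sum_congr rfl fun a _ => ?_
    rw [← Finset.sum_neg_distrib]
    refine Finset.sum_congr rfl fun b _ => ?_
    rw [hanti b a]
    ring
  have s3 : ∑ a : Ix d, ∑ b : Ix d, (dn a * (∑ k : Ix d, Q b k * g k)) * Q a b =
      - ∑ a : Ix d, ∑ b : Ix d, g b * Q a none * Q a b := by
    have : ∀ a b : Ix d, (dn a * (∑ k : Ix d, Q b k * g k)) * Q a b =
        dn a * ((∑ k : Ix d, Q b k * g k) * Q a b) := by intro a b; ring
    simp only [this, ← Finset.mul_sum]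
    rw [ca1_sum_dn_mul (fun a => ∑ b : Ix d, (∑ k : Ix d, Q b k * g k) * Q a b),
      ← Finset.sum_neg_distrib]
    refine Finset.sum_congr rfl fun a _ => ?_
    rw [hanti none a, Finset.sum_mul, ← Finset.sum_neg_distrib]
    refine Finset.sum_congr rfl fun b _ => ?_
    ring
  have s4 : ∑ a : Ix d, ∑ b : Ix d, (dn b * (∑ k : Ix d, Q k a * g k)) * Q a b =
      - ∑ a : Ix d, ∑ b : Ix d, g b * Q a none * Q a b := by
    have : ∀ a b : Ix d, (dn b * (∑ k : Ix d, Q k a * g k)) * Q a b =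
        dn b * ((∑ k : Ix d, Q k a * g k) * Q a b) := by intro a b; ring
    simp only [this]
    rw [← Finset.sum_neg_distrib]
    refine Finset.sum_congr rfl fun a _ => ?_
    rw [ca1_sum_dn_mul (fun b => (∑ k : Ix d, Q k a * g k) * Q a b), Finset.sum_mul,
      ← Finset.sum_neg_distrib]
    refine Finset.sum_congr rfl fun b _ => ?_
    rw [hanti b a]
    ring
  have s5 : ∑ a : Ix d, ∑ b : Ix d, (g b * (q0 * dn a + Q a none)
        - g a * (q0 * dn b + Q b none) + Q a b * g none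
        + dn a * (∑ k : Ix d, Q b k * g k) + dn b * (∑ k : Ix d, Q k a * g k)) * Q a b =
      2 * (∑ a : Ix d, ∑ b : Ix d, (g b * (q0 * dn a + Q a none)) * Q a b) +
        g none * (∑ a : Ix d, ∑ b : Ix d, Q a b ^ 2) -
        2 * ∑ a : Ix d, ∑ b : Ix d, g b * Q a none * Q a b := by
    have : ∀ a b : Ix d, (g b * (q0 * dn a + Q a none)
        - g a * (q0 * dn b + Q b none) + Q a b * g none
        + dn a * (∑ k : Ix d, Q b k * g k) + dn b * (∑ k : Ix d, Q k a * g k)) * Q a b =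
        (g b * (q0 * dn a + Q a none)) * Q a b - (g a * (q0 * dn b + Q b none)) * Q a b +
        g none * Q a b ^ 2 + (dn a * (∑ k : Ix d, Q b k * g k)) * Q a b +
        (dn b * (∑ k : Ix d, Q k a * g k)) * Q a b := by intro a b; ring
    simp only [this, Finset.sum_add_distrib, Finset.sum_sub_distrib, ← Finset.mul_sum]
    rw [s2, s3, s4]
    ring
  rw [e1, e2, s5, s0, s1]
  ring

end HG
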