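import Pool.Agent.W_MP_825298_an.Defs

open MeasureTheory Set Filter Topology
open scoped ENNReal NNReal BigOperators

namespace HG
variable {d : ℕ}

theorem ca2_norm_le_of_forall_coord {ι : Type*} [Fintype ι] (x : EuclideanSpace ℝ ι) {B : ℝ}
    (hB : 0 ≤ B) (h : ∀ i, |x i| ≤ B) : ‖x‖ ≤ (Fintype.card ι : ℝ) * B := by
  have h1 : ‖x‖ ^ 2 ≤ ((Fintype.card ι : ℝ) * B) ^ 2 := by
    rw [EuclideanSpace.real_norm_sq_eq]
    have h2 : ∑ i, x i ^ 2 ≤ ∑ _i : ι, B ^ 2 := by
      refine Finset.sum_le_sum fun i _ => ?_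
      rw [← sq_abs]
      exact pow_le_pow_left₀ (abs_nonneg _) (h i) 2
    refine h2.trans ?_
    rw [Finset.sum_const, nsmul_eq_mul, Finset.card_univ, mul_pow]
    refine mul_le_mul_of_nonneg_right ?_ (sq_nonneg _)
    have h3 : (Fintype.card ι) ≤ (Fintype.card ι) ^ 2 := by
      rw [pow_two]
      exact Nat.le_mul_self _
    exact_mod_cast h3
  exact le_of_sq_le_sq h1 (by positivity)

theorem ca2_abs_coord_le (q : VV d) (o : Option (Ix d × Ix d)) : |q o| ≤ ‖q‖ := by
  rw [← Real.norm_eq_abs]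
  exact PiLp.norm_apply_le q o

/-- crude norm bound (all components of `Kvec g q` are sums of products `g_a q_o` with bounded coefficients) -/
theorem Kvec_norm_le (d : ℕ) : ∃ C : ℝ, 0 < C ∧ ∀ (g : Ix d → ℝ) (q : VV d),
    ‖Kvec g q‖ ≤ C * (∑ a : Ix d, |g a|) * ‖q‖ := by
  refine ⟨(Fintype.card (Option (Ix d × Ix d)) : ℝ) * 12, by positivity, fun g q => ?_⟩
  obtain ⟨S, hS⟩ : ∃ S : ℝ, S = ∑ a : Ix d, |g a| := ⟨_, rfl⟩
  have hS0 : 0 ≤ S := by rw [hS]; exact Finset.sum_nonneg fun _ _ => abs_nonneg _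
  have hg : ∀ a, |g a| ≤ S := fun a => by
    rw [hS]
    exact Finset.single_le_sum (f := fun a => |g a|) (fun _ _ => abs_nonneg _) (Finset.mem_univ a)
  obtain ⟨n, hn⟩ : ∃ n : ℝ, n = ‖q‖ := ⟨_, rfl⟩
  have hn0 : 0 ≤ n := by rw [hn]; exact norm_nonneg _
  have hs1 : 1 ≤ Real.sqrt 2 := by
    rw [Real.one_le_sqrt]; norm_num
  have hs2 : Real.sqrt 2 ≤ 2 := by
    rw [Real.sqrt_le_left (by norm_num)]; norm_num
  have hs0 : 0 < Real.sqrt 2 := by positivity
  have hq : ∀ o, |q o| ≤ n := fun o => by rw [hn]; exact ca2_abs_coord_le q o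
  have hQ : ∀ a b : Ix d, |Real.sqrt 2 * q (some (a, b))| ≤ 2 * n := by
    intro a b
    rw [abs_mul, abs_of_pos hs0]
    exact mul_le_mul hs2 (hq _) (abs_nonneg _) (by norm_num)
  have hdn : ∀ a : Ix d, |dn a| ≤ 1 := by
    intro a
    unfold dn
    split_ifs <;> simp
  have hc : ∀ a : Ix d, |q none * dn a + Real.sqrt 2 * q (some (a, none))| ≤ 3 * n := by
    intro a
    refine (abs_add_le _ _).trans ?_
    have h1 : |q none * dn a| ≤ n * 1 := by
      rw [abs_mul]
      exact mul_le_mul (hq _) (hdn a) (abs_nonneg _) hn0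
    have h2 := hQ a none
    linarith
  have hsum : ∀ f : Ix d → ℝ, ∀ B : ℝ, 0 ≤ B → (∀ k, |f k| ≤ B) →
      |∑ k : Ix d, f k * g k| ≤ B * S := by
    intro f B hB hf
    refine (Finset.abs_sum_le_sum_abs _ _).trans ?_
    rw [hS, Finset.mul_sum]
    refine Finset.sum_le_sum fun k _ => ?_
    rw [abs_mul]
    exact mul_le_mul_of_nonneg_right (hf k) (abs_nonneg _)
  have hmul : ∀ x y X Y : ℝ, |x| ≤ X → |y| ≤ Y → 0 ≤ X → |x * y| ≤ X * Y := by
    intro x y X Y hx hy hX
    rw [abs_mul]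
    exact mul_le_mul hx hy (abs_nonneg _) hX
  rw [mul_assoc, mul_assoc, ← hS, ← hn]
  refine ca2_norm_le_of_forall_coord _ (by positivity) fun o => ?_
  match o with
  | none =>
    have e : (Kvec g q) none = ∑ a : Ix d, (q none * dn a + Real.sqrt 2 * q (some (a, none))) * g a := by
      simp only [Kvec]
      exact Finset.sum_congr rfl fun a _ => mul_comm _ _
    rw [e]
    refine (hsum _ _ (by positivity) hc).trans ?_
    nlinarith [mul_nonneg hS0 hn0]
  | some (a, b) =>
    have e : (Kvec g q) (some (a, b)) = (g b * (q none * dn a + Real.sqrt 2 * q (some (a, none)))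
        - g a * (q none * dn b + Real.sqrt 2 * q (some (b, none)))
        + Real.sqrt 2 * q (some (a, b)) * g none
        + dn a * (∑ k : Ix d, Real.sqrt 2 * q (some (b, k)) * g k)
        + dn b * (∑ k : Ix d, Real.sqrt 2 * q (some (k, a)) * g k)) / Real.sqrt 2 := by
      simp only [Kvec]
    rw [e, abs_div, abs_of_pos hs0]
    have t1 := hmul _ _ _ _ (hg b) (hc a) hS0
    have t2 := hmul _ _ _ _ (hg a) (hc b) hS0
    have t3 := hmul _ _ _ _ (hQ a b) (hg none) (by positivity)
    have t4 := hmul _ _ _ _ (hdn a) (hsum (fun k => Real.sqrt 2 * q (some (b, k))) (2 * n)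
      (by positivity) (fun k => hQ b k)) zero_le_one
    have t5 := hmul _ _ _ _ (hdn b) (hsum (fun k => Real.sqrt 2 * q (some (k, a))) (2 * n)
      (by positivity) (fun k => hQ k a)) zero_le_one
    have hle : |g b * (q none * dn a + Real.sqrt 2 * q (some (a, none)))
        - g a * (q none * dn b + Real.sqrt 2 * q (some (b, none)))
        + Real.sqrt 2 * q (some (a, b)) * g none
        + dn a * (∑ k : Ix d, Real.sqrt 2 * q (some (b, k)) * g k)
        + dn b * (∑ k : Ix d, Real.sqrt 2 * q (some (k, a)) * g k)| ≤ 12 * (S * n) := by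
      refine (abs_add_le _ _).trans ?_
      have u1 := (abs_add_le (g b * (q none * dn a + Real.sqrt 2 * q (some (a, none)))
        - g a * (q none * dn b + Real.sqrt 2 * q (some (b, none)))
        + Real.sqrt 2 * q (some (a, b)) * g none)
        (dn a * (∑ k : Ix d, Real.sqrt 2 * q (some (b, k)) * g k)))
      have u2 := (abs_add_le (g b * (q none * dn a + Real.sqrt 2 * q (some (a, none)))
        - g a * (q none * dn b + Real.sqrt 2 * q (some (b, none))))
        (Real.sqrt 2 * q (some (a, b)) * g none))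
      have u3 := (abs_sub (g b * (q none * dn a + Real.sqrt 2 * q (some (a, none))))
        (g a * (q none * dn b + Real.sqrt 2 * q (some (b, none)))))
      nlinarith [mul_nonneg hS0 hn0]
    rw [div_le_iff₀ hs0]
    refine hle.trans ?_
    have : 0 ≤ 12 * (S * n) := by positivity
    nlinarith
end HG
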