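import Mathlib

/-!
# MP_825298_an : nontangential maximal functions of harmonic gradients in `L¹`
Basic definitions (helper67).
-/

open MeasureTheory Set Filter Topology
open scoped ENNReal NNReal BigOperators

namespace HG

/-- horizontal space `ℝ^d` with the SUP norm -/
abbrev E (d : ℕ) := Fin d → ℝ

/-- `ℝ^{d+1}`: (horizontal, vertical), with the SUP norm -/
abbrev P (d : ℕ) := (Fin d → ℝ) × ℝ

/-- index set of the `n = d+1` coordinates; `none` is the vertical one -/
abbrev Ix (d : ℕ) := Option (Fin d)

variable {d : ℕ}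

/-- coordinate vectors -/
def eb : Ix d → P d
  | none => (0, 1)
  | some i => (Pi.single i 1, 0)

/-- partial derivative -/
noncomputable def pd (a : Ix d) (f : P d → ℝ) (X : P d) : ℝ := fderiv ℝ f X (eb a)

/-- coordinates -/
def co : Ix d → P d → ℝ
  | none, X => X.2
  | some i, X => X.1 i

/-- square of the Euclidean norm -/
def sq (X : P d) : ℝ := ∑ a : Ix d, (co a X) ^ 2

/-- Laplacian -/
noncomputable def lap (f : P d → ℝ) (X : P d) : ℝ := ∑ a : Ix d, pd a (pd a f) X

/-- the (non normalised, outer) normal `(∇φ, -1)` of the domain above the graph of `φ` -/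
noncomputable def om (φ : E d → ℝ) : Ix d → E d → ℝ
  | none, _ => -1
  | some i, x => fderiv ℝ φ x (Pi.single i 1)

/-- the open domain above a graph -/
def above (φ : E d → ℝ) : Set (P d) := {X | φ X.1 < X.2}

/-- the closed domain above a graph -/
def aboveC (φ : E d → ℝ) : Set (P d) := {X | φ X.1 ≤ X.2}

/-- a `C¹` vector field which is curl free and divergence free on the (open) set `U` -/
structure IsField (U : Set (P d)) (F : Ix d → P d → ℝ) : Prop where
  cd : ∀ a, ContDiffOn ℝ 1 (F a) U
  curl : ∀ a b, ∀ X ∈ U, pd a (F b) X = pd b (F a) X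
  div : ∀ X ∈ U, ∑ a, pd a (F a) X = 0

/-- the size of a field -/
def nF (F : Ix d → P d → ℝ) (X : P d) : ℝ := ∑ a : Ix d, |F a X|

/-- the vector space in which the boundary data live: scalar part `none`,
bivector part `some (a,b)` -/
abbrev VV (d : ℕ) := EuclideanSpace ℝ (Option (Ix d × Ix d))

/-- `bvec ω f = (ω·f, (f_a ω_b - f_b ω_a)/√2)` -/
noncomputable def bvec (ω f : Ix d → ℝ) : VV d :=
  WithLp.toLp 2 (fun o : Option (Ix d × Ix d) => match o with
    | none => ∑ a : Ix d, ω a * f a
    | some (a, b) => (f a * ω b - f b * ω a) / Real.sqrt 2)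

/-- the boundary data of a field on the graph of `φ` -/
noncomputable def hb (φ : E d → ℝ) (F : Ix d → P d → ℝ) (x : E d) : VV d :=
  bvec (fun a => om φ a x) (fun a => F a (x, φ x))

/-- antisymmetric data -/
def IsAnti (q : VV d) : Prop := ∀ a b : Ix d, q (some (a, b)) = - q (some (b, a))

/-- Kronecker delta with the vertical index -/
def dn (a : Ix d) : ℝ := if a = none then 1 else 0

/-- the certificate vector `K[g] q` (`g` the value of the field `G`, `q` a constant) -/
noncomputable def Kvec (g : Ix d → ℝ) (q : VV d) : VV d :=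
  let q0 : ℝ := q none
  let Q : Ix d → Ix d → ℝ := fun a b => Real.sqrt 2 * q (some (a, b))
  let c : Ix d → ℝ := fun a => q0 * dn a + Q a none
  WithLp.toLp 2 (fun o : Option (Ix d × Ix d) => match o with
    | none => ∑ a : Ix d, g a * c a
    | some (a, b) => (g b * c a - g a * c b + Q a b * g none
        + dn a * (∑ k : Ix d, Q b k * g k) + dn b * (∑ k : Ix d, Q k a * g k)) / Real.sqrt 2)

end HG
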