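import Pool.Agent.W_MP_825298_an.PathDefs

open MeasureTheory Set Filter Topology
open scoped ENNReal NNReal BigOperators

namespace HG
variable {d : ℕ}

/-! elementary properties of the finite expectation `Ex` (all by induction on the number of steps) -/

theorem sum_w5 : ∑ i : Fin 5, w5 i = 1 := by
  have h : ∑ i : Fin 5, w5 i = 1 / 16 + 4 / 16 + 6 / 16 + 4 / 16 + 1 / 16 := by
    simp [Fin.sum_univ_succ, w5]
    ring
  rw [h]
  norm_num [← NNReal.coe_inj]

theorem sum_wt : ∑ k : St d, wt k = 1 := by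
  have h : ∑ k : St d, wt k = ∏ _i : Fin d, ∑ j : Fin 5, w5 j := by
    rw [Finset.prod_univ_sum]
    simp only [wt, Fintype.piFinset_univ]
  rw [h, sum_w5]
  simp

theorem wt_pos (k : St d) : 0 < wt k := by
  refine Finset.prod_pos fun i _ => ?_
  generalize k i = j
  fin_cases j <;> simp [w5]

section gen
variable {R : Type*} [AddCommMonoid R] [Module ℝ≥0 R]

theorem Ex_add (n : ℕ) (f g : (ℕ → St d) → R) : Ex n (fun ω => f ω + g ω) = Ex n f + Ex n g := by
  induction n generalizing f g with
  | zero => rfl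
  | succ n ih =>
    simp only [Ex]
    rw [← Finset.sum_add_distrib]
    refine Finset.sum_congr rfl fun k _ => ?_
    rw [ih, smul_add]

theorem Ex_smul (n : ℕ) (c : ℝ≥0) (f : (ℕ → St d) → R) : Ex n (fun ω => c • f ω) = c • Ex n f := by
  induction n generalizing f with
  | zero => rfl
  | succ n ih =>
    simp only [Ex]
    rw [Finset.smul_sum]
    refine Finset.sum_congr rfl fun k _ => ?_
    rw [ih, smul_comm]

theorem Ex_const (n : ℕ) (c : R) : Ex n (fun _ : ℕ → St d => c) = c := by
  induction n with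
  | zero => rfl
  | succ n ih =>
    simp only [Ex]
    rw [ih, ← Finset.sum_smul, sum_wt, one_smul]

theorem Ex_zero (n : ℕ) : Ex n (fun _ : ℕ → St d => (0 : R)) = 0 := Ex_const n 0

theorem Ex_sum {ι : Type*} (n : ℕ) (s : Finset ι) (f : ι → (ℕ → St d) → R) :
    Ex n (fun ω => ∑ i ∈ s, f i ω) = ∑ i ∈ s, Ex n (f i) := by
  classical
  induction s using Finset.induction_on with
  | empty => simp only [Finset.sum_empty]; exact Ex_zero n
  | insert a s ha ih =>
    simp only [Finset.sum_insert ha]
    rw [Ex_add, ih]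

theorem splice_zero (ω ω' : ℕ → St d) : splice 0 ω ω' = ω' := by
  funext n
  simp [splice]

theorem splice_cons (l : ℕ) (k : St d) (ω ω' : ℕ → St d) :
    splice (l + 1) (consω k ω) ω' = consω k (splice l ω ω') := by
  funext n
  cases n with
  | zero => simp [splice, consω]
  | succ n =>
    simp only [splice, consω, Nat.add_lt_add_iff_right, Nat.add_sub_add_right]

theorem Ex_splice (l n : ℕ) (f : (ℕ → St d) → R) :
    Ex (l + n) f = Ex l (fun ω => Ex n (fun ω' => f (splice l ω ω'))) := by
  induction l generalizing f with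
  | zero =>
    simp only [Ex, splice_zero, Nat.zero_add]
  | succ l ih =>
    rw [Nat.add_right_comm]
    simp only [Ex]
    refine Finset.sum_congr rfl fun k _ => ?_
    rw [ih]
    simp only [splice_cons]

theorem Ex_dep {l n : ℕ} (h : l ≤ n) {f : (ℕ → St d) → R} (hf : Dep l f) : Ex n f = Ex l f := by
  obtain ⟨m, rfl⟩ := Nat.exists_eq_add_of_le h
  rw [Ex_splice]
  congr 1
  funext ω
  have : (fun ω' => f (splice l ω ω')) = fun _ => f ω := by
    funext ω'
    apply hf
    intro i hi
    simp [splice, hi]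
  rw [this, Ex_const]

end gen

theorem Ex_mul (n : ℕ) (c : ℝ≥0∞) (f : (ℕ → St d) → ℝ≥0∞) : Ex n (fun ω => c * f ω) = c * Ex n f := by
  induction n generalizing f with
  | zero => rfl
  | succ n ih =>
    simp only [Ex]
    rw [Finset.mul_sum]
    refine Finset.sum_congr rfl fun k _ => ?_
    rw [ih, mul_smul_comm]

theorem Ex_mulR (n : ℕ) (c : ℝ) (f : (ℕ → St d) → ℝ) : Ex n (fun ω => c * f ω) = c * Ex n f := by
  induction n generalizing f with
  | zero => rfl
  | succ n ih =>
    simp only [Ex]
    rw [Finset.mul_sum]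
    refine Finset.sum_congr rfl fun k _ => ?_
    rw [ih, mul_smul_comm]

theorem Ex_mono (n : ℕ) {f g : (ℕ → St d) → ℝ≥0∞} (h : ∀ ω, f ω ≤ g ω) : Ex n f ≤ Ex n g := by
  induction n generalizing f g with
  | zero => exact h _
  | succ n ih =>
    simp only [Ex]
    refine Finset.sum_le_sum fun k _ => ?_
    simp only [ENNReal.smul_def, smul_eq_mul]
    gcongr
    exact ih fun ω => h _

theorem Ex_monoR (n : ℕ) {f g : (ℕ → St d) → ℝ} (h : ∀ ω, f ω ≤ g ω) : Ex n f ≤ Ex n g := by
  induction n generalizing f g with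
  | zero => exact h _
  | succ n ih =>
    simp only [Ex]
    refine Finset.sum_le_sum fun k _ => ?_
    exact smul_le_smul_of_nonneg_left (ih fun ω => h _) zero_le

theorem Ex_nonneg (n : ℕ) {f : (ℕ → St d) → ℝ} (h : ∀ ω, 0 ≤ f ω) : 0 ≤ Ex n f := by
  have := Ex_monoR n h
  rwa [Ex_zero] at this

theorem Ex_ofReal (n : ℕ) {f : (ℕ → St d) → ℝ} (hf : ∀ ω, 0 ≤ f ω) :
    ENNReal.ofReal (Ex n f) = Ex n (fun ω => ENNReal.ofReal (f ω)) := by
  induction n generalizing f with
  | zero => rfl
  | succ n ih =>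
    simp only [Ex]
    rw [ENNReal.ofReal_sum_of_nonneg]
    · refine Finset.sum_congr rfl fun k _ => ?_
      rw [← ih (fun ω => hf _)]
      simp only [NNReal.smul_def, ENNReal.smul_def, smul_eq_mul]
      rw [ENNReal.ofReal_mul (NNReal.coe_nonneg _), ENNReal.ofReal_coe_nnreal]
    · intro k _
      exact smul_nonneg zero_le (Ex_nonneg n fun ω => hf _)

theorem Ex_ne_top (n : ℕ) {f : (ℕ → St d) → ℝ≥0∞} (hf : ∀ ω, f ω ≠ ⊤) : Ex n f ≠ ⊤ := by
  induction n generalizing f with
  | zero => exact hf _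
  | succ n ih =>
    simp only [Ex]
    refine ENNReal.sum_ne_top.2 fun k _ => ?_
    simp only [ENNReal.smul_def, smul_eq_mul]
    exact ENNReal.mul_ne_top ENNReal.coe_ne_top (ih fun ω => hf _)

theorem Ex_norm_le {V : Type*} [NormedAddCommGroup V] [NormedSpace ℝ V] (n : ℕ) (f : (ℕ → St d) → V) :
    ‖Ex n f‖ ≤ Ex n (fun ω => ‖f ω‖) := by
  induction n generalizing f with
  | zero => exact le_rfl
  | succ n ih =>
    simp only [Ex]
    refine (norm_sum_le _ _).trans (Finset.sum_le_sum fun k _ => ?_)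
    simp only [NNReal.smul_def, smul_eq_mul]
    rw [norm_smul, Real.norm_of_nonneg (NNReal.coe_nonneg _)]
    exact mul_le_mul_of_nonneg_left (ih _) (NNReal.coe_nonneg _)

theorem Ex_enorm_le {V : Type*} [NormedAddCommGroup V] [NormedSpace ℝ V] (n : ℕ) (f : (ℕ → St d) → V) :
    ‖Ex n f‖ₑ ≤ Ex n (fun ω => ‖f ω‖ₑ) := by
  have h := ENNReal.ofReal_le_ofReal (Ex_norm_le n f)
  rw [Ex_ofReal n (fun ω => norm_nonneg _)] at h
  simpa only [ofReal_norm] using h

/-- linear functionals -/
theorem Ex_inner {V : Type*} [NormedAddCommGroup V] [InnerProductSpace ℝ V] (n : ℕ) (q : V) (f : (ℕ → St d) → V) :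
    inner ℝ q (Ex n f) = Ex n (fun ω => inner ℝ q (f ω)) := by
  induction n generalizing f with
  | zero => rfl
  | succ n ih =>
    simp only [Ex]
    rw [inner_sum]
    refine Finset.sum_congr rfl fun k _ => ?_
    rw [← ih]
    simp only [NNReal.smul_def, smul_eq_mul]
    rw [real_inner_smul_right]

theorem Ex_measurable (n : ℕ) {f : E d → (ℕ → St d) → ℝ≥0∞} (hf : ∀ ω, Measurable (fun x => f x ω)) :
    Measurable (fun x => Ex n (f x)) := by
  induction n generalizing f with
  | zero => exact hf _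
  | succ n ih =>
    simp only [Ex]
    refine Finset.measurable_sum _ fun k _ => ?_
    simp only [ENNReal.smul_def, smul_eq_mul]
    exact (ih (f := fun x ω => f x (consω k ω)) fun ω => hf _).const_mul _

theorem Ex_lintegral (n : ℕ) {f : E d → (ℕ → St d) → ℝ≥0∞} (hf : ∀ ω, Measurable (fun x => f x ω)) :
    ∫⁻ x : E d, Ex n (f x) = Ex n (fun ω => ∫⁻ x : E d, f x ω) := by
  induction n generalizing f with
  | zero => rfl
  | succ n ih =>
    simp only [Ex]
    rw [lintegral_finsetSum']
    · refine Finset.sum_congr rfl fun k _ => ?_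
      rw [← ih (f := fun x ω => f x (consω k ω)) (fun ω => hf _)]
      simp only [ENNReal.smul_def, smul_eq_mul]
      rw [lintegral_const_mul]
      exact Ex_measurable n (f := fun x ω => f x (consω k ω)) fun ω => hf _
    · intro k _
      simp only [ENNReal.smul_def, smul_eq_mul]
      exact ((Ex_measurable n (f := fun x ω => f x (consω k ω)) fun ω => hf _).const_mul _).aemeasurable

end HG
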