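import Pool.Agent.W_MP_825298_an.Ex1

open MeasureTheory Set Filter Topology
open scoped ENNReal NNReal BigOperators

namespace HG
variable {d : ℕ}

theorem norm_kv_le (k : St d) : ‖kv k‖ ≤ 2 := by
  refine (pi_norm_le_iff_of_nonneg (by norm_num)).2 (fun i => ?_)
  have h1 : ((k i : ℕ) : ℝ) ≤ 4 := by
    have : (k i : ℕ) ≤ 4 := Nat.lt_succ_iff.1 (k i).isLt
    exact_mod_cast this
  have h0 : (0 : ℝ) ≤ ((k i : ℕ) : ℝ) := Nat.cast_nonneg _
  unfold kv
  rw [Real.norm_eq_abs, abs_le]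
  constructor <;> linarith

theorem norm_Zp_le (l : ℕ) (ω : ℕ → St d) : ‖Zp l ω‖ ≤ 2 * (1 - ((2 : ℝ) ^ l)⁻¹) := by
  induction l with
  | zero => simp [Zp]
  | succ l ih =>
    have h1 : Zp (l + 1) ω = Zp l ω + ((2 : ℝ) ^ (l + 1))⁻¹ • kv (ω l) := by
      unfold Zp
      rw [Finset.sum_range_succ]
    rw [h1]
    refine (norm_add_le _ _).trans ?_
    have h2 : ‖((2 : ℝ) ^ (l + 1))⁻¹ • kv (ω l)‖ ≤ ((2 : ℝ) ^ (l + 1))⁻¹ * 2 := by
      rw [norm_smul, Real.norm_eq_abs, abs_of_pos (by positivity)]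
      exact mul_le_mul_of_nonneg_left (norm_kv_le _) (by positivity)
    have h3 : ((2 : ℝ) ^ l)⁻¹ = 2 * ((2 : ℝ) ^ (l + 1))⁻¹ := by
      rw [pow_succ]
      field_simp
    rw [h3] at ih
    linarith

theorem Zp_dep (l : ℕ) : Dep l (Zp (d := d) l) := by
  intro ω ω' h
  unfold Zp
  refine Finset.sum_congr rfl (fun i hi => ?_)
  rw [h i (Finset.mem_range.1 hi)]

theorem Zp_splice (l j : ℕ) (ω ω' : ℕ → St d) :
    Zp (l + j) (splice l ω ω') = Zp l ω + ((2 : ℝ) ^ l)⁻¹ • Zp j ω' := by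
  unfold Zp
  rw [Finset.sum_range_add, Finset.smul_sum]
  congr 1
  · refine Finset.sum_congr rfl (fun i hi => ?_)
    rw [splice, if_pos (Finset.mem_range.1 hi)]
  · refine Finset.sum_congr rfl (fun i _ => ?_)
    rw [splice, if_neg (by omega), Nat.add_sub_cancel_left, smul_smul, ← mul_inv, ← pow_add, add_assoc]

theorem Zp_splice_le {l j : ℕ} (h : j ≤ l) (ω ω' : ℕ → St d) : Zp j (splice l ω ω') = Zp j ω := by
  refine Zp_dep j _ _ (fun i hi => ?_)
  rw [splice, if_pos (by omega)]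

/-- later positions are within `2 · 2^{-l}` -/
theorem norm_Zp_sub_le {l j : ℕ} (h : l ≤ j) (ω : ℕ → St d) : ‖Zp j ω - Zp l ω‖ ≤ 2 * ((2 : ℝ) ^ l)⁻¹ := by
  obtain ⟨t, rfl⟩ := Nat.exists_eq_add_of_le h
  have h1 : splice l ω (fun n => ω (n + l)) = ω := by
    funext n
    unfold splice
    split_ifs with hn
    · rfl
    · show ω (n - l + l) = ω n
      rw [Nat.sub_add_cancel (by omega)]
  have h2 := Zp_splice l t ω (fun n => ω (n + l))
  rw [h1] at h2
  rw [h2, add_sub_cancel_left, norm_smul, Real.norm_eq_abs, abs_of_pos (by positivity), mul_comm]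
  refine mul_le_mul_of_nonneg_right ?_ (by positivity)
  refine (norm_Zp_le t _).trans ?_
  have : (0 : ℝ) < ((2 : ℝ) ^ t)⁻¹ := by positivity
  linarith

theorem Zp_cons (l : ℕ) (k : St d) (ω : ℕ → St d) :
    Zp (l + 1) (consω k ω) = (1 / 2 : ℝ) • kv k + (1 / 2 : ℝ) • Zp l ω := by
  unfold Zp
  rw [Finset.sum_range_succ', Finset.smul_sum, add_comm]
  congr 1
  · simp [consω]
  · refine Finset.sum_congr rfl (fun i _ => ?_)
    rw [smul_smul]
    congr 1
    rw [pow_succ (2 : ℝ) (i + 1), mul_inv]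
    ring

section
variable {V : Type*} [NormedAddCommGroup V] [NormedSpace ℝ V]

theorem Ex_RefEq {m : E d → ℝ → V} (hm : RefEq m) (x : E d) {r : ℝ} (hr : 0 < r) (l : ℕ) :
    Ex l (fun ω : ℕ → St d => m (x + r • Zp l ω) (r / 2 ^ l)) = m x r := by
  induction l generalizing x r with
  | zero => simp [Ex, Zp]
  | succ l ih =>
    rw [Ex]
    conv_rhs => rw [hm x r hr]
    refine Finset.sum_congr rfl (fun k _ => ?_)
    rw [NNReal.smul_def]
    congr 1
    rw [← ih (x + (r / 2) • kv k) (half_pos hr)]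
    congr 1
    funext ω
    rw [Zp_cons]
    congr 1
    · rw [smul_add, smul_smul, smul_smul, ← add_assoc]
      congr 2
      · congr 1
        congr 1
        ring
      · ring
    · rw [pow_succ, div_div, mul_comm (2 : ℝ)]

theorem av_dep (m : E d → ℝ → V) (x : E d) (r : ℝ) (l : ℕ) : Dep l (fun ω => av m x r ω l) := by
  intro ω ω' h
  simp only [av]
  rw [Zp_dep l ω ω' h]

theorem wv_dep (W : E d → ℝ → ℝ≥0∞) (x : E d) (r : ℝ) (l : ℕ) : Dep l (fun ω => wv W x r ω l) := by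
  intro ω ω' h
  simp only [wv]
  rw [Zp_dep l ω ω' h]

theorem splice_pos (x : E d) (r : ℝ) (l j : ℕ) (ω ω' : ℕ → St d) :
    x + r • Zp (l + j) (splice l ω ω') = x + r • Zp l ω + (r / 2 ^ l) • Zp j ω' := by
  rw [Zp_splice, smul_add, smul_smul, ← add_assoc, div_eq_mul_inv]

theorem av_splice (m : E d → ℝ → V) (x : E d) (r : ℝ) (l j : ℕ) (ω ω' : ℕ → St d) :
    av m x r (splice l ω ω') (l + j) = av m (x + r • Zp l ω) (r / 2 ^ l) ω' j := by
  unfold av
  rw [splice_pos, pow_add, ← div_div]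

theorem wv_splice (W : E d → ℝ → ℝ≥0∞) (x : E d) (r : ℝ) (l j : ℕ) (ω ω' : ℕ → St d) :
    wv W x r (splice l ω ω') (l + j) = wv W (x + r • Zp l ω) (r / 2 ^ l) ω' j := by
  unfold wv
  rw [splice_pos, pow_add, ← div_div]

/-- one step: `∑ wt k ‖m(next)‖ = ‖m‖ + gamma` -/
theorem gamE_spec {m : E d → ℝ → V} (hm : RefEq m) (x : E d) {r : ℝ} (hr : 0 < r) :
    ∑ k : St d, (wt k : ℝ≥0∞) * ‖m (x + (r / 2) • kv k) (r / 2)‖ₑ = ‖m x r‖ₑ + gamE m x r := by
  unfold gamE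
  rw [add_tsub_cancel_of_le]
  rw [hm x r hr]
  refine (enorm_sum_le _ _).trans (Finset.sum_le_sum (fun k _ => ?_))
  rw [enorm_smul]
  refine mul_le_mul_left (le_of_eq ?_) _
  rw [Real.enorm_eq_ofReal (NNReal.coe_nonneg _), ENNReal.ofReal_coe_nnreal]

theorem gamE_ne_top (m : E d → ℝ → V) (x : E d) (r : ℝ) : gamE m x r ≠ ⊤ := by
  unfold gamE
  refine ne_top_of_le_ne_top ?_ tsub_le_self
  refine ENNReal.sum_ne_top.2 (fun k _ => ENNReal.mul_ne_top ENNReal.coe_ne_top enorm_ne_top)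

/-- submartingale identity with an adapted weight -/
theorem M1 {m : E d → ℝ → V} (hm : RefEq m) (x : E d) {r : ℝ} (hr : 0 < r) {l : ℕ} {f : (ℕ → St d) → ℝ≥0∞}
    (hf : Dep l f) : Ex (l + 1) (fun ω : ℕ → St d => f ω * av m x r ω (l + 1))
      = Ex l (fun ω : ℕ → St d => f ω * (av m x r ω l + wv (gamE m) x r ω l)) := by
  rw [Ex_splice l 1]
  congr 1
  funext ω
  have h1 : ∀ ω' : ℕ → St d, f (splice l ω ω') * av m x r (splice l ω ω') (l + 1)
      = f ω * av m (x + r • Zp l ω) (r / 2 ^ l) ω' 1 := by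
    intro ω'
    rw [av_splice, hf (splice l ω ω') ω (fun i hi => by rw [splice, if_pos hi])]
  simp only [h1]
  rw [Ex_mul]
  congr 1
  have h2 : (0 : ℝ) < r / 2 ^ l := by positivity
  have h3 := gamE_spec hm (x + r • Zp l ω) h2
  have h4 : Ex 1 (fun ω' : ℕ → St d => av m (x + r • Zp l ω) (r / 2 ^ l) ω' 1)
      = ∑ k : St d, (wt k : ℝ≥0∞) * ‖m (x + r • Zp l ω + (r / 2 ^ l / 2) • kv k) (r / 2 ^ l / 2)‖ₑ := by
    rw [Ex]
    refine Finset.sum_congr rfl (fun k _ => ?_)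
    rw [ENNReal.smul_def, smul_eq_mul]
    congr 1
    rw [Ex]
    unfold av
    have h5 : Zp 1 (consω k (fun _ => (0 : St d))) = (1 / 2 : ℝ) • kv k := by
      rw [Zp_cons]; simp [Zp]
    rw [h5, smul_smul, pow_one]
    congr 5
    ring
  rw [h4, h3]
  rfl

end

/-- invariance of Lebesgue measure -/
theorem inv_lintegral {g : E d → ℝ≥0∞} (hg : Measurable g) (n l : ℕ) (r : ℝ) :
    ∫⁻ x : E d, Ex n (fun ω : ℕ → St d => g (x + r • Zp l ω)) = ∫⁻ x : E d, g x := by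
  rw [Ex_lintegral n (f := fun x ω => g (x + r • Zp l ω))
    (fun ω => hg.comp (measurable_id.add_const _))]
  have h : ∀ ω : ℕ → St d, ∫⁻ x : E d, g (x + r • Zp l ω) = ∫⁻ x : E d, g x := fun ω =>
    lintegral_add_right_eq_self g _
  simp only [h]
  exact Ex_const n _

end HG
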