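import Pool.Agent.W_MP_825298_an.Ex2

open MeasureTheory Set Filter Topology
open scoped ENNReal NNReal BigOperators

namespace HG
variable {d : ℕ}

variable {V : Type*} [NormedAddCommGroup V] [NormedSpace ℝ V]

theorem Ex3_gam_step {m : E d → ℝ → V} (hm : RefEq m) (hmeas : ∀ r, Measurable (fun x => ‖m x r‖ₑ)) {s : ℝ}
    (hs : 0 < s) : (∫⁻ x : E d, ‖m x s‖ₑ) + ∫⁻ x : E d, gamE m x s = ∫⁻ x : E d, ‖m x (s / 2)‖ₑ := by
  rw [← lintegral_add_left (hmeas s)]
  have h1 : ∀ x : E d, ‖m x s‖ₑ + gamE m x s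
      = ∑ k : St d, (wt k : ℝ≥0∞) * ‖m (x + (s / 2) • kv k) (s / 2)‖ₑ := fun x => (gamE_spec hm x hs).symm
  simp only [h1]
  have hmk : ∀ k : St d, Measurable (fun x : E d => ‖m (x + (s / 2) • kv k) (s / 2)‖ₑ) := fun k =>
    (hmeas (s / 2)).comp (measurable_id.add_const _)
  rw [lintegral_finsetSum' _ (fun k _ => ((hmk k).const_mul _).aemeasurable)]
  have h2 : ∀ k : St d, ∫⁻ x : E d, (wt k : ℝ≥0∞) * ‖m (x + (s / 2) • kv k) (s / 2)‖ₑ
      = (wt k : ℝ≥0∞) * ∫⁻ x : E d, ‖m x (s / 2)‖ₑ := by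
    intro k
    rw [lintegral_const_mul _ (hmk k)]
    congr 1
    exact lintegral_add_right_eq_self (fun x => ‖m x (s / 2)‖ₑ) _
  simp only [h2]
  rw [← Finset.sum_mul, ← ENNReal.ofNNReal_finsetSum, sum_wt, ENNReal.coe_one, one_mul]

/-- total misalignment telescopes (`gamE_spec`, translation invariance of Lebesgue measure) -/
theorem gam_total {m : E d → ℝ → V} (hm : RefEq m) (hmeas : ∀ r, Measurable (fun x => ‖m x r‖ₑ)) {r : ℝ} (hr : 0 < r)
    (n : ℕ) : (∫⁻ x : E d, ‖m x r‖ₑ) + ∑ l ∈ Finset.range n, ∫⁻ x : E d, gamE m x (r / 2 ^ l)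
      = ∫⁻ x : E d, ‖m x (r / 2 ^ n)‖ₑ := by
  induction n with
  | zero => simp
  | succ n ih =>
    rw [Finset.sum_range_succ, ← add_assoc, ih, Ex3_gam_step hm hmeas (by positivity), div_div, ← pow_succ]

/-- the weighted expectation of one step -/
theorem Ex3_step {m : E d → ℝ → V} (hm : RefEq m) (x : E d) {r : ℝ} (hr : 0 < r) {N j : ℕ} (hj : j < N)
    {b : (ℕ → St d) → Prop} (hb : Dep j b) :
    Ex N (fun ω => ind (b ω) * av m x r ω (j + 1))
      = Ex N (fun ω => ind (b ω) * av m x r ω j) + Ex N (fun ω => ind (b ω) * wv (gamE m) x r ω j) := by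
  have hind : Dep j (fun ω => ind (b ω)) := by
    intro ω ω' h
    simp only [hb ω ω' h]
  have hd1 : Dep (j + 1) (fun ω => ind (b ω) * av m x r ω (j + 1)) := by
    intro ω ω' h
    simp only
    have e1 : ind (b ω) = ind (b ω') := hind ω ω' (fun i hi => h i (by omega))
    have e2 : av m x r ω (j + 1) = av m x r ω' (j + 1) := av_dep m x r (j + 1) ω ω' h
    rw [e1, e2]
  have hd2 : Dep j (fun ω => ind (b ω) * (av m x r ω j + wv (gamE m) x r ω j)) := by
    intro ω ω' h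
    simp only
    have e1 : ind (b ω) = ind (b ω') := hind ω ω' h
    have e2 : av m x r ω j = av m x r ω' j := av_dep m x r j ω ω' h
    have e3 : wv (gamE m) x r ω j = wv (gamE m) x r ω' j := wv_dep (gamE m) x r j ω ω' h
    rw [e1, e2, e3]
  rw [Ex_dep (by omega : j + 1 ≤ N) hd1, M1 hm x hr hind, ← Ex_dep hj.le hd2, ← Ex_add]
  congr 1
  funext ω
  rw [mul_add]

theorem Ex3_ind_ne_top (p : Prop) : ind p ≠ ⊤ := by
  unfold ind
  split_ifs
  · exact ENNReal.one_ne_top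
  · exact ENNReal.zero_ne_top

theorem Ex3_ne_top (m : E d → ℝ → V) (x : E d) (r : ℝ) (N : ℕ) (b : ℕ → (ℕ → St d) → Prop) :
    ∑ j ∈ Finset.range N, Ex N (fun ω => ind (b j ω) * av m x r ω j) ≠ ⊤ := by
  refine ENNReal.sum_ne_top.2 fun j _ => Ex_ne_top N fun ω => ?_
  refine ENNReal.mul_ne_top (Ex3_ind_ne_top _) ?_
  unfold av
  exact enorm_ne_top

/-- optional stopping, upper form. Take expectations of the pathwise inequality, use `M1` for each `j < N`
(`ind (b j ω)` depends on `j` steps), cancel the finite quantity `∑_j Ex (ind (b j) a_j)`. -/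
theorem osi_upper {m : E d → ℝ → V} (hm : RefEq m) (x : E d) {r : ℝ} (hr : 0 < r) (N : ℕ)
    (b : ℕ → (ℕ → St d) → Prop) (hb : ∀ j < N, Dep j (b j)) (X Y : (ℕ → St d) → ℝ≥0∞)
    (hXY : ∀ ω, X ω + ∑ j ∈ Finset.range N, ind (b j ω) * av m x r ω j
      ≤ Y ω + ∑ j ∈ Finset.range N, ind (b j ω) * av m x r ω (j + 1)) :
    Ex N X ≤ Ex N Y + Ex N (fun ω => ∑ j ∈ Finset.range N, ind (b j ω) * wv (gamE m) x r ω j) := by
  have h1 := Ex_mono N hXY
  rw [Ex_add, Ex_add, Ex_sum, Ex_sum] at h1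
  rw [Ex_sum]
  have h2 : ∑ j ∈ Finset.range N, Ex N (fun ω => ind (b j ω) * av m x r ω (j + 1))
      = (∑ j ∈ Finset.range N, Ex N (fun ω => ind (b j ω) * av m x r ω j))
        + ∑ j ∈ Finset.range N, Ex N (fun ω => ind (b j ω) * wv (gamE m) x r ω j) := by
    rw [← Finset.sum_add_distrib]
    refine Finset.sum_congr rfl fun j hj => ?_
    have hj' := Finset.mem_range.1 hj
    exact Ex3_step hm x hr hj' (hb j hj')
  rw [h2] at h1
  have h3 := Ex3_ne_top m x r N b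
  refine (ENNReal.add_le_add_iff_right h3).1 (h1.trans (le_of_eq ?_))
  ring

/-- optional stopping, lower form (submartingale) -/
theorem osi_lower {m : E d → ℝ → V} (hm : RefEq m) (x : E d) {r : ℝ} (hr : 0 < r) (N : ℕ)
    (b : ℕ → (ℕ → St d) → Prop) (hb : ∀ j < N, Dep j (b j)) (X Y : (ℕ → St d) → ℝ≥0∞)
    (hXY : ∀ ω, X ω + ∑ j ∈ Finset.range N, ind (b j ω) * av m x r ω (j + 1)
      ≤ Y ω + ∑ j ∈ Finset.range N, ind (b j ω) * av m x r ω j) :
    Ex N X ≤ Ex N Y := by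
  have h1 := Ex_mono N hXY
  rw [Ex_add, Ex_add, Ex_sum, Ex_sum] at h1
  have h2 : (∑ j ∈ Finset.range N, Ex N (fun ω => ind (b j ω) * av m x r ω j))
      ≤ ∑ j ∈ Finset.range N, Ex N (fun ω => ind (b j ω) * av m x r ω (j + 1)) := by
    refine Finset.sum_le_sum fun j hj => ?_
    have hj' := Finset.mem_range.1 hj
    rw [Ex3_step hm x hr hj' (hb j hj')]
    exact le_self_add
  have h3 := Ex3_ne_top m x r N b
  exact (ENNReal.add_le_add_iff_right h3).1 ((add_le_add le_rfl h2).trans h1)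

end HG
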