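import Pool.Agent.W_MP_825298_an.FinDefs

open MeasureTheory Set Filter Topology
open scoped ENNReal NNReal BigOperators

namespace NTMax

/-- A closed cone minus its vertex inside an open one is uniformly inside: let `K₂, K₃` be the open cones and `ρ₂, ρ₃` the radii.
The compact set `S = closure K₂ ∩ sphere 0 1` lies in `K₃` (`(ρ₂/2) • ω ∈ closure Γ₂`), so `ball ω b₁ ⊆ K₃` for `ω ∈ S`
(`IsCompact.exists_thickening_subset_open`), hence `ball Q (b₁‖Q‖) ⊆ K₃` for `Q ∈ closure Γ₂ \ {0}` by scaling; for `‖Q‖ (1+b₁) ≤ ρ₃` this ball is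
in `Γ₃`.  For `‖Q‖ ≥ ρ₃/(1+b₁)`: `closure Γ₂ \ ball 0 (..)` is compact if `Γ₃` is bounded (it is closed in the bounded set
`closure Γ₂ ⊆ Γ₃ ∪ {0}`), again a uniform thickening; the norms are bounded there. -/
theorem cone_unif {n : ℕ} {Γ₂ Γ₃ : Set (W n)} (h2 : IsCone Γ₂) (h3 : IsCone Γ₃) (hb : Bornology.IsBounded Γ₃)
    (hsub : closure Γ₂ \ {0} ⊆ Γ₃) :
    ∃ b : ℝ, 0 < b ∧ ∀ X ∈ closure Γ₂ \ {0}, Metric.ball X (b * ‖X‖) ⊆ Γ₃ := by
  obtain ⟨K₂, hK2o, -, hK2c, -, hG2K, -, ρ₂, hρ2, hK2ρ⟩ := h2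
  obtain ⟨K₃, hK3o, -, hK3c, hG3o, hG3K, -, ρ₃, hρ3, hK3ρ⟩ := h3
  -- the closure of `K₂` is a cone
  have hclc : ∀ X ∈ closure K₂, ∀ t : ℝ, 0 < t → t • X ∈ closure K₂ := by
    intro X hX t ht
    exact map_mem_closure (f := fun Y : W n => t • Y) (continuous_const_smul t) hX
      fun Y hY => hK2c Y hY t ht
  have hS : closure K₂ ∩ Metric.sphere 0 1 ⊆ K₃ := by
    rintro ω ⟨hω, hω1⟩
    rw [mem_sphere_zero_iff_norm] at hω1
    have hω0 : (ρ₂ / 2) • ω ∈ closure K₂ := hclc ω hω _ (by positivity)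
    have hball : (ρ₂ / 2) • ω ∈ Metric.ball (0 : W n) ρ₂ := by
      rw [mem_ball_zero_iff, norm_smul, hω1, Real.norm_eq_abs, abs_of_pos (by positivity)]
      linarith
    have hmem : (ρ₂ / 2) • ω ∈ closure Γ₂ := by
      refine closure_mono (show Metric.ball (0 : W n) ρ₂ ∩ K₂ ⊆ Γ₂ from fun Y hY => hK2ρ hY.symm) ?_
      exact Metric.isOpen_ball.inter_closure ⟨hball, hω0⟩
    have hne : (ρ₂ / 2) • ω ≠ 0 := by
      intro h0
      have : ‖(ρ₂ / 2) • ω‖ = ρ₂ / 2 := by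
        rw [norm_smul, hω1, Real.norm_eq_abs, abs_of_pos (by positivity), mul_one]
      rw [h0, norm_zero] at this
      linarith
    have h3 : (ρ₂ / 2) • ω ∈ K₃ := hG3K (hsub ⟨hmem, hne⟩)
    have := hK3c _ h3 (2 / ρ₂) (by positivity)
    rwa [smul_smul, show 2 / ρ₂ * (ρ₂ / 2) = 1 by field_simp, one_smul] at this
  have hScpt : IsCompact (closure K₂ ∩ Metric.sphere (0 : W n) 1) :=
    (isCompact_sphere (0 : W n) 1).inter_left isClosed_closure
  obtain ⟨b₁, hb1, hth⟩ := hScpt.exists_thickening_subset_open hK3o hS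
  have hfar : ∀ X ∈ closure Γ₂ \ {0}, Metric.ball X (b₁ * ‖X‖) ⊆ K₃ := by
    rintro X ⟨hX, hX0⟩ Y hY
    have hX0' : 0 < ‖X‖ := norm_pos_iff.2 hX0
    have hXK : X ∈ closure K₂ := closure_mono hG2K hX
    have hω : ‖X‖⁻¹ • X ∈ closure K₂ ∩ Metric.sphere (0 : W n) 1 := by
      refine ⟨hclc X hXK _ (by positivity), ?_⟩
      rw [mem_sphere_zero_iff_norm, norm_smul, norm_inv, norm_norm]
      exact inv_mul_cancel₀ hX0'.ne'
    have hY' : ‖X‖⁻¹ • Y ∈ K₃ := by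
      refine hth (Metric.mem_thickening_iff.2 ⟨_, hω, ?_⟩)
      rw [dist_eq_norm, ← smul_sub, norm_smul, norm_inv, norm_norm, ← dist_eq_norm]
      rw [Metric.mem_ball] at hY
      calc ‖X‖⁻¹ * dist Y X < ‖X‖⁻¹ * (b₁ * ‖X‖) := by gcongr
        _ = b₁ := by field_simp
    have := hK3c _ hY' ‖X‖ hX0'
    rwa [smul_smul, mul_inv_cancel₀ hX0'.ne', one_smul] at this
  set δ : ℝ := ρ₃ / (1 + b₁) with hδ
  have hδ0 : 0 < δ := by positivity
  -- the compact part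
  have hCb : Bornology.IsBounded (closure Γ₂ ∩ (Metric.ball (0 : W n) δ)ᶜ) := by
    refine hb.subset fun X hX => hsub ⟨hX.1, ?_⟩
    intro h0
    rw [mem_singleton_iff] at h0
    refine hX.2 ?_
    rw [h0]
    exact Metric.mem_ball_self hδ0
  have hCcpt : IsCompact (closure Γ₂ ∩ (Metric.ball (0 : W n) δ)ᶜ) :=
    Metric.isCompact_of_isClosed_isBounded
      (isClosed_closure.inter Metric.isOpen_ball.isClosed_compl) hCb
  have hCsub : closure Γ₂ ∩ (Metric.ball (0 : W n) δ)ᶜ ⊆ Γ₃ := by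
    intro X hX
    refine hsub ⟨hX.1, ?_⟩
    intro h0
    rw [mem_singleton_iff] at h0
    refine hX.2 ?_
    rw [h0]
    exact Metric.mem_ball_self hδ0
  obtain ⟨b₂, hb2, hth2⟩ := hCcpt.exists_thickening_subset_open hG3o hCsub
  obtain ⟨R, hR0, hR⟩ := hCb.exists_pos_norm_le
  refine ⟨min b₁ (b₂ / R), lt_min hb1 (by positivity), ?_⟩
  intro X hX Y hY
  rw [Metric.mem_ball] at hY
  have hX0 : 0 < ‖X‖ := norm_pos_iff.2 hX.2
  by_cases hc : ‖X‖ < δ
  · have hYb : dist Y X < b₁ * ‖X‖ :=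
      hY.trans_le (mul_le_mul_of_nonneg_right (min_le_left _ _) hX0.le)
    refine hK3ρ ⟨hfar X hX hYb, ?_⟩
    rw [mem_ball_zero_iff]
    have h1 : ‖Y‖ ≤ dist Y X + ‖X‖ := by
      rw [dist_eq_norm]
      have := norm_add_le (Y - X) X
      rwa [sub_add_cancel] at this
    have h2 : (1 + b₁) * ‖X‖ < ρ₃ := by
      rw [hδ, lt_div_iff₀ (by positivity)] at hc
      linarith
    linarith
  · have hXC : X ∈ closure Γ₂ ∩ (Metric.ball (0 : W n) δ)ᶜ := by
      refine ⟨hX.1, ?_⟩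
      rw [mem_compl_iff, mem_ball_zero_iff]
      exact hc
    have hYb : dist Y X < b₂ := by
      refine hY.trans_le ?_
      calc min b₁ (b₂ / R) * ‖X‖ ≤ b₂ / R * R := by
            gcongr
            · exact min_le_right _ _
            · exact hR X hXC
        _ = b₂ := by field_simp
    exact hth2 (Metric.mem_thickening_iff.2 ⟨X, hXC, hYb⟩)

/-- Regular families of cones consist of nontangential approach regions. (`cone_unif` for each of the finitely many pieces which meet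
`frontier D`; for those `Γ₃` is bounded since `P + Γ₃ ⊆ D`.) -/
theorem regular_nontangential {n : ℕ} {D : Set (W n)} (hD : Bornology.IsBounded D) {Γ : W n → Set (W n)}
    (hΓ : IsRegularFamily D Γ) :
    ∃ b : ℝ, 0 < b ∧ ∀ P ∈ frontier D, ∀ Q ∈ Γ P, Q ≠ P ∧ Metric.ball Q (b * ‖Q - P‖) ⊆ D := by
  obtain ⟨m, S, Γ₁, Γ₂, Γ₃, hcov, hreg⟩ := hΓ
  have key : ∀ i : Fin m, ∃ b : ℝ, 0 < b ∧ ∀ P ∈ frontier D ∩ S i,
      ∀ X ∈ closure (Γ₂ i) \ {0}, Metric.ball X (b * ‖X‖) ⊆ Γ₃ i := by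
    intro i
    obtain ⟨-, h2, h3, hsub, hP⟩ := hreg i
    by_cases hne : (frontier D ∩ S i).Nonempty
    · obtain ⟨P, hPm⟩ := hne
      have hb3 : Bornology.IsBounded (Γ₃ i) := by
        have h1 : Bornology.IsBounded ((fun X : W n => P + X) ⁻¹' D) := by
          have := (IsometryEquiv.addLeft P).isometry.antilipschitz.isBounded_preimage hD
          exact this
        exact h1.subset fun X hX => (hP P hPm).2.2 X hX
      obtain ⟨b, hb0, hb⟩ := cone_unif h2 h3 hb3 hsub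
      exact ⟨b, hb0, fun _ _ => hb⟩
    · exact ⟨1, one_pos, fun P hPm => absurd ⟨P, hPm⟩ hne⟩
  choose β hβ0 hβ using key
  have hev : ∀ᶠ b : ℝ in 𝓝[>] 0, (∀ i, b < β i) := by
    rw [eventually_all]
    intro i
    filter_upwards [Ioo_mem_nhdsGT (hβ0 i)] with b hb using hb.2
  obtain ⟨b, hbβ, hb0⟩ := (hev.and self_mem_nhdsWithin).exists
  refine ⟨b, hb0, ?_⟩
  intro P hP Q hQ
  obtain ⟨i, hi⟩ := mem_iUnion.1 (hcov hP)
  have hX := ((hreg i).2.2.2.2 P ⟨hP, hi⟩).2.1 Q hQ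
  refine ⟨fun h => hX.2 (by rw [h, sub_self]; rfl), ?_⟩
  intro Y hY
  rw [Metric.mem_ball] at hY
  have h1 : Y - P ∈ Γ₃ i := by
    refine hβ i P ⟨hP, hi⟩ (Q - P) hX ?_
    rw [Metric.mem_ball, dist_sub_right]
    exact hY.trans_le (mul_le_mul_of_nonneg_right (hbβ i).le (norm_nonneg _))
  have := ((hreg i).2.2.2.2 P ⟨hP, hi⟩).2.2 _ h1
  rwa [add_sub_cancel] at this

end NTMax
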