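import Pool.Agent.W_MP_825298_an.NewtonDefs

open MeasureTheory Set Filter Topology
open scoped ENNReal NNReal BigOperators

namespace HG
variable {d : ℕ}

theorem Newton1_sum_option (f : Ix d → ℝ) : ∑ a : Ix d, f a = f none + ∑ i : Fin d, f (some i) :=
  Fintype.sum_option f

theorem Newton1_co_sq_le_sq (a : Ix d) (X : P d) : (co a X) ^ 2 ≤ sq X :=
  Finset.single_le_sum (f := fun a => (co a X) ^ 2) (fun _ _ => sq_nonneg _) (Finset.mem_univ a)

theorem Newton1_abs_co_le (a : Ix d) (X : P d) : |co a X| ≤ ‖X‖ := by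
  cases a with
  | none => exact norm_snd_le X
  | some i => exact (norm_le_pi_norm X.1 i).trans (norm_fst_le X)

theorem Newton1_sq_nonneg (X : P d) : 0 ≤ sq X := Finset.sum_nonneg fun _ _ => sq_nonneg _

/-- `‖X‖² ≤ sq X ≤ (d+1)‖X‖²` (sup norm). -/
theorem norm_sq_le_sq (X : P d) : ‖X‖ ^ 2 ≤ sq X ∧ sq X ≤ ((d : ℝ) + 1) * ‖X‖ ^ 2 := by
  constructor
  · have h : ‖X‖ ≤ Real.sqrt (sq X) := by
      rw [norm_prod_le_iff]
      constructor
      · rw [pi_norm_le_iff_of_nonneg (Real.sqrt_nonneg _)]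
        intro i
        exact Real.abs_le_sqrt (Newton1_co_sq_le_sq (some i) X)
      · exact Real.abs_le_sqrt (Newton1_co_sq_le_sq none X)
    calc ‖X‖ ^ 2 ≤ (Real.sqrt (sq X)) ^ 2 := pow_le_pow_left₀ (norm_nonneg _) h 2
      _ = sq X := Real.sq_sqrt (Newton1_sq_nonneg X)
  · have h : ∀ a : Ix d, (co a X) ^ 2 ≤ ‖X‖ ^ 2 := fun a =>
      sq_le_sq' (by linarith [neg_abs_le (co a X), Newton1_abs_co_le a X])
        ((le_abs_self _).trans (Newton1_abs_co_le a X))
    calc sq X ≤ ∑ _a : Ix d, ‖X‖ ^ 2 := Finset.sum_le_sum fun a _ => h a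
      _ = ((d : ℝ) + 1) * ‖X‖ ^ 2 := by
        rw [Finset.sum_const, Finset.card_univ, Fintype.card_option, Fintype.card_fin,
          nsmul_eq_mul]
        push_cast
        ring

/-- coordinates as continuous linear maps -/
noncomputable def Newton1_coL : Ix d → (P d →L[ℝ] ℝ)
  | none => ContinuousLinearMap.snd ℝ (Fin d → ℝ) ℝ
  | some i => (ContinuousLinearMap.proj (R := ℝ) (φ := fun _ : Fin d => ℝ) i).comp
      (ContinuousLinearMap.fst ℝ (Fin d → ℝ) ℝ)

theorem Newton1_coL_apply (a : Ix d) (X : P d) : Newton1_coL a X = co a X := by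
  cases a <;> rfl

theorem Newton1_co_eb (a b : Ix d) : co a (eb b) = if a = b then 1 else 0 := by
  cases a with
  | none =>
    cases b with
    | none => simp [co, eb]
    | some j => simp [co, eb]
  | some i =>
    cases b with
    | none => simp [co, eb]
    | some j => simp [co, eb, Pi.single_apply]

theorem Newton1_hasFDerivAt_co (a : Ix d) (X : P d) :
    HasFDerivAt (fun Y : P d => co a Y) (Newton1_coL a) X := by
  have h := (Newton1_coL a).hasFDerivAt (x := X)
  have e : (fun Y : P d => co a Y) = fun Y => Newton1_coL a Y := by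
    funext Y
    rw [Newton1_coL_apply]
  rw [e]
  exact h

theorem Newton1_hasFDerivAt_sq (X : P d) :
    HasFDerivAt (fun Y : P d => sq Y) (∑ a : Ix d, (2 * co a X) • (Newton1_coL a : P d →L[ℝ] ℝ))
      X := by
  have h : ∀ a ∈ (Finset.univ : Finset (Ix d)), HasFDerivAt (fun Y : P d => (co a Y) ^ 2)
      ((2 * co a X) • (Newton1_coL a : P d →L[ℝ] ℝ)) X := by
    intro a _
    have h1 := (Newton1_hasFDerivAt_co a X).pow 2
    simpa using h1
  have h2 := HasFDerivAt.fun_sum h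
  exact h2

theorem Newton1_contDiff_co (a : Ix d) {n : WithTop ℕ∞} : ContDiff ℝ n (fun Y : P d => co a Y) := by
  have e : (fun Y : P d => co a Y) = fun Y => Newton1_coL a Y := by
    funext Y
    rw [Newton1_coL_apply]
  rw [e]
  exact (Newton1_coL a).contDiff

theorem Newton1_contDiff_sq {n : WithTop ℕ∞} : ContDiff ℝ n (fun Y : P d => sq Y) := by
  unfold sq
  exact ContDiff.sum fun a _ => (Newton1_contDiff_co a).pow 2

theorem Newton1_base_pos {ε : ℝ} (hε : 0 < ε) (X : P d) : 0 < sq X + ε ^ 2 :=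
  add_pos_of_nonneg_of_pos (Newton1_sq_nonneg X) (pow_pos hε 2)

theorem Newton1_pd_nkr {ε : ℝ} (hε : 0 < ε) (a b : Ix d) (X : P d) :
    pd b (nkr ε a) X = cN d * ((if a = b then 1 else 0) *
      (sq X + ε ^ 2) ^ (-(((d : ℝ) + 1) / 2)) +
      co a X * ((-(((d : ℝ) + 1) / 2)) * (sq X + ε ^ 2) ^ (-(((d : ℝ) + 1) / 2) - 1) *
        (2 * co b X))) := by
  have hs := (Newton1_hasFDerivAt_sq X).add_const (ε ^ 2)
  have hp := hs.rpow_const (p := -(((d : ℝ) + 1) / 2)) (Or.inl (Newton1_base_pos hε X).ne')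
  have hc := (Newton1_hasFDerivAt_co a X).const_mul (cN d)
  have h2 : fderiv ℝ (fun Y : P d => cN d * co a Y *
      (sq Y + ε ^ 2) ^ (-(((d : ℝ) + 1) / 2))) X = _ := (hc.mul hp).fderiv
  unfold pd
  have e : nkr (d := d) ε a = fun Y : P d => cN d * co a Y *
      (sq Y + ε ^ 2) ^ (-(((d : ℝ) + 1) / 2)) := rfl
  rw [e]
  rw [h2]
  simp only [ContinuousLinearMap.add_apply, ContinuousLinearMap.smul_apply, smul_eq_mul,
    ContinuousLinearMap.sum_apply, Newton1_coL_apply, Newton1_co_eb]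
  have hsum : ∑ x : Ix d, 2 * co x X * (if x = b then (1 : ℝ) else 0) = 2 * co b X := by
    rw [Finset.sum_eq_single b]
    · simp
    · intro c _ hc
      simp [hc]
    · intro h
      exact absurd (Finset.mem_univ b) h
  rw [hsum]
  ring

/-- the integral defining `cN` is finite (`(1+sq)^{-(n/2+1)} ≤ (1+‖X‖²)^{-(n/2+1)}`) and positive -/
theorem cN_pos (d : ℕ) : 0 < cN d := by
  unfold cN
  rw [inv_pos]
  have hH : (volume : Measure (P d)).IsAddHaarMeasure := by
    rw [Measure.volume_eq_prod]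
    infer_instance
  have hint : Integrable (fun X : P d => (1 + ‖X‖ ^ 2) ^ (-(((d : ℝ) + 1) + 2) / 2)) := by
    refine integrable_rpow_neg_one_add_norm_sq ?_
    rw [Module.finrank_prod, Module.finrank_fin_fun, Module.finrank_self]
    push_cast
    linarith
  have hcont : Continuous (fun X : P d => ((d : ℝ) + 1) *
      (1 + sq X) ^ (-(((d : ℝ) + 1) / 2 + 1))) := by
    have h1 : Continuous (fun X : P d => 1 + sq X) :=
      continuous_const.add (Newton1_contDiff_sq (n := 0)).continuous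
    refine continuous_const.mul (h1.rpow_const fun X => Or.inl ?_)
    have := Newton1_sq_nonneg X
    positivity
  have hpos : ∀ X : P d, 0 < ((d : ℝ) + 1) * (1 + sq X) ^ (-(((d : ℝ) + 1) / 2 + 1)) := by
    intro X
    have := Newton1_sq_nonneg X
    positivity
  have hint2 : Integrable (fun X : P d => ((d : ℝ) + 1) *
      (1 + sq X) ^ (-(((d : ℝ) + 1) / 2 + 1))) := by
    refine (hint.const_mul ((d : ℝ) + 1)).mono' hcont.aestronglyMeasurable
      (Eventually.of_forall fun X => ?_)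
    rw [Real.norm_of_nonneg (hpos X).le]
    refine mul_le_mul_of_nonneg_left ?_ (by positivity)
    have e : -(((d : ℝ) + 1) + 2) / 2 = -(((d : ℝ) + 1) / 2 + 1) := by ring
    rw [e]
    refine Real.rpow_le_rpow_of_nonpos (by positivity) ?_ ?_
    · have := (norm_sq_le_sq X).1
      linarith
    · have : (0 : ℝ) ≤ d := Nat.cast_nonneg d
      linarith
  rw [integral_pos_iff_support_of_nonneg (fun X => (hpos X).le) hint2]
  have hsupp : Function.support (fun X : P d => ((d : ℝ) + 1) *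
      (1 + sq X) ^ (-(((d : ℝ) + 1) / 2 + 1))) = univ := by
    ext X
    simp only [Function.mem_support, mem_univ, iff_true]
    exact (hpos X).ne'
  rw [hsupp]
  exact isOpen_univ.measure_pos volume univ_nonempty

theorem nkr_contDiff {ε : ℝ} (hε : 0 < ε) (a : Ix d) : ContDiff ℝ 3 (nkr (d := d) ε a) := by
  have e : nkr (d := d) ε a = fun Y : P d => cN d * co a Y *
      (sq Y + ε ^ 2) ^ (-(((d : ℝ) + 1) / 2)) := rfl
  rw [e]
  refine (contDiff_const.mul (Newton1_contDiff_co a)).mul ?_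
  exact (Newton1_contDiff_sq.add contDiff_const).rpow_const_of_ne fun X =>
    (Newton1_base_pos hε X).ne'

theorem nkr_curl {ε : ℝ} (hε : 0 < ε) (a b : Ix d) (X : P d) :
    pd b (nkr ε a) X = pd a (nkr ε b) X := by
  rw [Newton1_pd_nkr hε, Newton1_pd_nkr hε]
  have h : (if a = b then (1 : ℝ) else 0) = if b = a then 1 else 0 := by
    by_cases h : a = b
    · simp [h]
    · simp [h, Ne.symm h]
  rw [h]
  ring

/-- `∑_a ∂_a [X_a (sq+ε²)^{-n/2}] = n (sq+ε²)^{-n/2} - n sq (sq+ε²)^{-n/2-1} = n ε² (sq+ε²)^{-n/2-1}`. -/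
theorem nkr_div {ε : ℝ} (hε : 0 < ε) (X : P d) : ∑ a : Ix d, pd a (nkr ε a) X = aid ε X := by
  have hb := Newton1_base_pos hε X
  have h1 : ∀ a : Ix d, pd a (nkr ε a) X = cN d * (sq X + ε ^ 2) ^ (-(((d : ℝ) + 1) / 2)) +
      cN d * ((-(((d : ℝ) + 1) / 2)) * (sq X + ε ^ 2) ^ (-(((d : ℝ) + 1) / 2) - 1) * 2) *
        (co a X) ^ 2 := by
    intro a
    rw [Newton1_pd_nkr hε]
    simp only [if_true]
    ring
  have h2 : ∑ a : Ix d, (co a X) ^ 2 = sq X := rfl
  rw [Finset.sum_congr rfl fun a _ => h1 a, Finset.sum_add_distrib,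
    Finset.sum_const, Finset.card_univ, Fintype.card_option, Fintype.card_fin, nsmul_eq_mul,
    ← Finset.mul_sum, h2]
  have h3 : (sq X + ε ^ 2) ^ (-(((d : ℝ) + 1) / 2)) =
      (sq X + ε ^ 2) ^ (-(((d : ℝ) + 1) / 2) - 1) * (sq X + ε ^ 2) := by
    rw [← Real.rpow_add_one hb.ne']
    congr 1
    ring
  have h4 : -(((d : ℝ) + 1) / 2 + 1) = -(((d : ℝ) + 1) / 2) - 1 := by ring
  unfold aid
  rw [h4, h3]
  push_cast
  ring

end HG
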