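import Pool.Agent.W_MP_825298_an.NewtonDefs

/-! Section 6 (reduction of the problem to the graph theorem), local part: definitions (helper94). -/

open MeasureTheory Set Filter Topology
open scoped ENNReal NNReal BigOperators

namespace HG
variable {d : ℕ}

/-- the box above the graph of `φ` over the cube of radius `ρ` around `x0` -/
def bx (φ : E d → ℝ) (x0 : E d) (ρ : ℝ) : Set (P d) :=
  {X | ‖X.1 - x0‖ < ρ ∧ φ X.1 < X.2 ∧ X.2 < φ X.1 + ρ}

/-- the gradient of `u` as a family of functions -/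
noncomputable def gr (u : P d → ℝ) : Ix d → P d → ℝ := fun a => pd a u

/-- the point of the graph above (or below) `x0` -/
def gpt (φ : E d → ℝ) (x0 : E d) : P d := (x0, φ x0)

/-- a point below the graph -/
def bpt (φ : E d → ℝ) (x0 : E d) : P d := (x0, φ x0 - 1)

/-- `C²` harmonic functions in the box whose gradient has bounded `L¹` norms on the translates of the graph -/
structure LocHarm (φ : E d → ℝ) (x0 : E d) (ρ : ℝ) (u : P d → ℝ) (A : ℝ≥0∞) : Prop where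
  cd : ContDiffOn ℝ 2 u (bx φ x0 ρ)
  harm : ∀ X ∈ bx φ x0 ρ, lap u X = 0
  sl : ∀ ε : ℝ, 0 < ε → ε < ρ →
    ∫⁻ x in Metric.ball x0 ρ, ENNReal.ofReal (nF (gr u) (x, φ x + ε)) ≤ A

/-- the properties of the localised function `w = χ u` -/
structure CutP (φ : E d → ℝ) (x0 : E d) (r1 Cc : ℝ) (u w : P d → ℝ) : Prop where
  cd : ContDiffOn ℝ 2 w (above φ)
  eq : ∀ X ∈ above φ, ‖X - gpt φ x0‖ < r1 → w X = u X
  zero : ∀ X ∈ above φ, 2 * r1 < ‖X - gpt φ x0‖ → w X = 0
  le1 : ∀ X ∈ above φ, ‖X - gpt φ x0‖ ≤ 2 * r1 → nF (gr w) X ≤ Cc * (|u X| + nF (gr u) X)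
  le2 : ∀ X ∈ above φ, ‖X - gpt φ x0‖ ≤ 2 * r1 → |lap w X| ≤ Cc * (|u X| + nF (gr u) X)

/-- the gradient of the Newtonian potential of `f` -/
noncomputable def NP (f : P d → ℝ) (a : Ix d) (X : P d) : ℝ := ∫ Y : P d, nk a (X - Y) * f Y

open Classical in
/-- `Δ w` cut off at height `ε/2` above the graph -/
noncomputable def fe (φ : E d → ℝ) (w : P d → ℝ) (ε : ℝ) (Y : P d) : ℝ :=
  if φ Y.1 + ε / 2 < Y.2 then lap w Y else 0

/-- the corrected field `∇w - N*f + (∫f) N(· - X₁)` -/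
noncomputable def Fe (φ : E d → ℝ) (x0 : E d) (w : P d → ℝ) (ε : ℝ) (a : Ix d) (X : P d) : ℝ :=
  pd a w X - NP (fe φ w ε) a X + (∫ Y, fe φ w ε Y) * nk a (X - bpt φ x0)

end HG
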