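import Pool.Agent.W_MP_825298_an.FinDefs
import Pool.Agent.W_MP_825298_an.RedDefs
import Pool.Agent.W_MP_825298_an.Newton1

open MeasureTheory Set Filter Topology
open scoped ENNReal NNReal BigOperators

namespace NTMax
variable {d : ℕ}

/-- the point of Euclidean space with coordinates `X = (x,t)` -/
noncomputable def emb (X : HG.P d) : W (d + 1) :=
  WithLp.toLp 2 (Fin.snoc (α := fun _ => ℝ) X.1 X.2)

theorem Fin2_emb_castSucc (X : HG.P d) (i : Fin d) : emb X (Fin.castSucc i) = X.1 i := by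
  simp [emb]

theorem Fin2_emb_last (X : HG.P d) : emb X (Fin.last d) = X.2 := by
  simp [emb]

theorem Fin2_ext {Y Z : W (d + 1)} (h1 : ∀ i : Fin d, Y (Fin.castSucc i) = Z (Fin.castSucc i))
    (h2 : Y (Fin.last d) = Z (Fin.last d)) : Y = Z := by
  ext i
  refine Fin.lastCases ?_ (fun i => ?_) i
  · exact h2
  · exact h1 i

theorem hor_emb (X : HG.P d) : hor (emb X) = WithLp.toLp 2 X.1 := by
  ext i
  simp [hor, Fin2_emb_castSucc]

theorem ver_emb (X : HG.P d) : ver (emb X) = X.2 := by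
  simp [ver, Fin2_emb_last]

/-- `emb` is onto -/
theorem emb_hor_ver (Y : W (d + 1)) : emb ((fun i => hor Y i), ver Y) = Y := by
  refine Fin2_ext (fun i => ?_) ?_
  · rw [Fin2_emb_castSucc]
    simp [hor]
  · rw [Fin2_emb_last]
    simp [ver]

theorem emb_sub (X Y : HG.P d) : emb (X - Y) = emb X - emb Y := by
  refine Fin2_ext (fun i => ?_) ?_
  · simp [Fin2_emb_castSucc]
  · simp [Fin2_emb_last]

theorem norm_emb_sq (X : HG.P d) : ‖emb X‖ ^ 2 = HG.sq X := by
  rw [EuclideanSpace.real_norm_sq_eq, Fin.sum_univ_castSucc, HG.sq, HG.Newton1_sum_option, add_comm]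
  simp only [Fin2_emb_castSucc, Fin2_emb_last]
  rfl

/-- comparison of the sup norm and the Euclidean norm -/
theorem norm_le_emb (X : HG.P d) : ‖X‖ ≤ ‖emb X‖ ∧ ‖emb X‖ ≤ (d + 1) * ‖X‖ := by
  have h := HG.norm_sq_le_sq X
  rw [← norm_emb_sq] at h
  have h0 := norm_nonneg X
  have h1 := norm_nonneg (emb X)
  have hd : (0 : ℝ) ≤ d := Nat.cast_nonneg d
  constructor
  · exact le_of_sq_le_sq h.1 h1
  · refine le_of_sq_le_sq (h.2.trans ?_) (by positivity)
    rw [mul_pow]
    refine mul_le_mul_of_nonneg_right ?_ (by positivity)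
    nlinarith

/-- `emb` as a continuous linear equivalence -/
noncomputable def Fin2_embL (d : ℕ) : HG.P d ≃L[ℝ] W (d + 1) :=
  LinearEquiv.toContinuousLinearEquiv
    { toFun := emb
      invFun := fun Y => ((fun i => hor Y i), ver Y)
      map_add' := fun X Y => by
        refine Fin2_ext (fun i => ?_) ?_
        · simp [Fin2_emb_castSucc]
        · simp [Fin2_emb_last]
      map_smul' := fun c X => by
        refine Fin2_ext (fun i => ?_) ?_
        · simp [Fin2_emb_castSucc]
        · simp [Fin2_emb_last]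
      left_inv := fun X => by
        refine Prod.ext (funext fun i => ?_) ?_
        · simp [hor_emb]
        · simp [ver_emb]
      right_inv := fun Y => emb_hor_ver Y }

theorem Fin2_embL_apply (X : HG.P d) : Fin2_embL d X = emb X := rfl

/-- the linear part of `T ∘ emb` -/
noncomputable def Fin2_L (T : W (d + 1) ≃ᵢ W (d + 1)) : HG.P d ≃L[ℝ] W (d + 1) :=
  (Fin2_embL d).trans
    (T.toRealAffineIsometryEquiv.linearIsometryEquiv.toContinuousLinearEquiv)

theorem Fin2_T_emb (T : W (d + 1) ≃ᵢ W (d + 1)) (X : HG.P d) :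
    T (emb X) = Fin2_L T X + T 0 := by
  have h := T.toRealAffineIsometryEquiv.map_vadd (0 : W (d + 1)) (emb X)
  rw [IsometryEquiv.coeFn_toRealAffineIsometryEquiv] at h
  have h2 : T (emb X) = T.toRealAffineIsometryEquiv.linearIsometryEquiv (emb X) + T 0 := by
    simpa using h
  exact h2

theorem Fin2_fderiv (T : W (d + 1) ≃ᵢ W (d + 1)) {F : Type*} [NormedAddCommGroup F]
    [NormedSpace ℝ F] (f : W (d + 1) → F) (X : HG.P d) :
    fderiv ℝ (fun Z => f (T (emb Z))) X =
      (fderiv ℝ f (T (emb X))).comp (Fin2_L T : HG.P d →L[ℝ] W (d + 1)) := by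
  have h1 : (fun Z : HG.P d => f (T (emb Z))) = (fun y => f (y + T 0)) ∘ (Fin2_L T) := by
    funext Z
    simp only [Function.comp_apply, Fin2_T_emb]
  rw [h1, ContinuousLinearEquiv.comp_right_fderiv, fderiv_comp_add_right, Fin2_T_emb]

/-- the orthonormal basis of the images of the coordinate vectors -/
noncomputable def Fin2_b (T : W (d + 1) ≃ᵢ W (d + 1)) : OrthonormalBasis (HG.Ix d) ℝ (W (d + 1)) :=
  (((EuclideanSpace.basisFun (Fin (d + 1)) ℝ).reindex finSuccEquivLast).map
    T.toRealAffineIsometryEquiv.linearIsometryEquiv)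

theorem Fin2_b_apply (T : W (d + 1) ≃ᵢ W (d + 1)) (a : HG.Ix d) :
    Fin2_b T a = Fin2_L T (HG.eb a) := by
  have h : emb (HG.eb a : HG.P d) = (EuclideanSpace.basisFun (Fin (d + 1)) ℝ) (finSuccEquivLast.symm a) := by
    cases a with
    | none =>
      refine Fin2_ext (fun i => ?_) ?_
      · rw [Fin2_emb_castSucc]
        simp [HG.eb, (Fin.castSucc_lt_last i).ne]
      · rw [Fin2_emb_last]
        simp [HG.eb]
    | some j =>
      refine Fin2_ext (fun i => ?_) ?_
      · rw [Fin2_emb_castSucc]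
        simp [HG.eb, Pi.single_apply]
      · rw [Fin2_emb_last]
        simp [HG.eb, (Fin.castSucc_lt_last j).ne']
  unfold Fin2_b Fin2_L
  rw [OrthonormalBasis.map_apply, OrthonormalBasis.reindex_apply, ← h]
  rfl

theorem Fin2_pd (T : W (d + 1) ≃ᵢ W (d + 1)) (f : W (d + 1) → ℝ) (a : HG.Ix d) (X : HG.P d) :
    HG.pd a (fun Z => f (T (emb Z))) X = fderiv ℝ f (T (emb X)) (Fin2_b T a) := by
  unfold HG.pd
  rw [Fin2_fderiv, Fin2_b_apply]
  rfl

/-- Gradients in the two models, for every function (if `f` is not differentiable at the point neither is the composition, both sides are `0`).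
`T` is affine (`IsometryEquiv.toRealAffineIsometryEquiv`), `pd a (f ∘ T ∘ emb) X = fderiv f (T (emb X)) (e_a)` where the
`e_a = T.linear (emb (eb a))` form an orthonormal basis; `‖∇f‖² = ∑ (fderiv f e_a)²`. -/
theorem grad_compare (T : W (d + 1) ≃ᵢ W (d + 1)) (f : W (d + 1) → ℝ) (X : HG.P d) :
    HG.nF (HG.gr (fun Z => f (T (emb Z)))) X ≤ (d + 1) * ‖gradient f (T (emb X))‖ ∧
    ‖gradient f (T (emb X))‖ ≤ HG.nF (HG.gr (fun Z => f (T (emb Z)))) X := by
  set g := gradient f (T (emb X)) with hg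
  have h1 : ∀ a : HG.Ix d, HG.gr (fun Z => f (T (emb Z))) a X = inner ℝ g (Fin2_b T a) := by
    intro a
    show HG.pd a _ X = _
    rw [Fin2_pd, hg, gradient, InnerProductSpace.toDual_symm_apply]
  unfold HG.nF
  simp only [h1]
  constructor
  · calc ∑ a : HG.Ix d, |inner ℝ g (Fin2_b T a)| ≤ ∑ _a : HG.Ix d, ‖g‖ := by
          refine Finset.sum_le_sum fun a _ => ?_
          have := abs_real_inner_le_norm g (Fin2_b T a)
          rwa [(Fin2_b T).orthonormal.1 a, mul_one] at this
      _ = (d + 1) * ‖g‖ := by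
          rw [Finset.sum_const, Finset.card_univ, Fintype.card_option, Fintype.card_fin, nsmul_eq_mul]
          push_cast
          ring
  · calc ‖g‖ = ‖∑ a, inner ℝ (Fin2_b T a) g • Fin2_b T a‖ := by rw [(Fin2_b T).sum_repr']
      _ ≤ ∑ a, ‖inner ℝ (Fin2_b T a) g • Fin2_b T a‖ := norm_sum_le _ _
      _ = ∑ a, |inner ℝ g (Fin2_b T a)| := by
          refine Finset.sum_congr rfl fun a _ => ?_
          rw [norm_smul, (Fin2_b T).orthonormal.1 a, mul_one, real_inner_comm, Real.norm_eq_abs]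

theorem Fin2_contDiff (T : W (d + 1) ≃ᵢ W (d + 1)) {n : WithTop ℕ∞} :
    ContDiff ℝ n (fun Z : HG.P d => T (emb Z)) := by
  have h1 : (fun Z : HG.P d => T (emb Z)) = fun Z => Fin2_L T Z + T 0 := by
    funext Z
    rw [Fin2_T_emb]
  rw [h1]
  exact (Fin2_L T).contDiff.add contDiff_const

/-- Harmonic functions in the two models (`InnerProductSpace.laplacian_eq_iteratedFDeriv_orthonormalBasis`). -/
theorem harm_transfer (T : W (d + 1) ≃ᵢ W (d + 1)) {f : W (d + 1) → ℝ} {X : HG.P d}
    (hf : InnerProductSpace.HarmonicAt f (T (emb X))) :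
    ContDiffAt ℝ 2 (fun Z => f (T (emb Z))) X ∧ HG.lap (fun Z => f (T (emb Z))) X = 0 := by
  refine ⟨hf.1.comp X (Fin2_contDiff T).contDiffAt, ?_⟩
  have h1 : ∀ a : HG.Ix d, HG.pd a (HG.pd a (fun Z => f (T (emb Z)))) X =
      iteratedFDeriv ℝ 2 f (T (emb X)) ![Fin2_b T a, Fin2_b T a] := by
    intro a
    have h2 : HG.pd a (fun Z : HG.P d => f (T (emb Z))) =
        fun Z => (fun y => fderiv ℝ f y (Fin2_b T a)) (T (emb Z)) := by
      funext Z
      exact Fin2_pd T f a Z
    rw [h2]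
    refine (Fin2_pd T (fun y => fderiv ℝ f y (Fin2_b T a)) a X).trans ?_
    rw [iteratedFDeriv_two_apply]
    have h3 : DifferentiableAt ℝ (fderiv ℝ f) (T (emb X)) :=
      (hf.1.fderiv_right (m := 1) (by norm_num)).differentiableAt (by norm_num)
    have h4 : fderiv ℝ (fun y => fderiv ℝ f y (Fin2_b T a)) (T (emb X)) =
        (fderiv ℝ (fderiv ℝ f) (T (emb X))).flip (Fin2_b T a) := by
      rw [fderiv_clm_apply h3 (differentiableAt_const _)]
      simp
    rw [h4]
    simp
  have h5 : ∑ a : HG.Ix d, iteratedFDeriv ℝ 2 f (T (emb X)) ![Fin2_b T a, Fin2_b T a] = 0 := by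
    have h6 := hf.2.self_of_nhds
    rw [InnerProductSpace.laplacian_eq_iteratedFDeriv_orthonormalBasis f (Fin2_b T)] at h6
    exact h6
  unfold HG.lap
  rw [← h5]
  exact Finset.sum_congr rfl fun a _ => h1 a

end NTMax
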