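import Pool.Agent.W_MP_825298_an.Fin2

open MeasureTheory Set Filter Topology
open scoped ENNReal NNReal BigOperators

namespace NTMax
variable {d : ℕ}

/-- the graph function in the sup norm model -/
noncomputable def Chart.ψ {D : Set (W (d + 1))} (c : Chart D) (x : HG.E d) : ℝ := c.φ (WithLp.toLp 2 x)

/-- parametrisation of the translated graph -/
noncomputable def Chart.par {D : Set (W (d + 1))} (c : Chart D) (ε : ℝ) (x : HG.E d) : W (d + 1) :=
  c.T (emb (x, c.ψ x + ε))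

private lemma Fin3_norm_toLp (v : HG.E d) : ‖(WithLp.toLp 2 v : W d)‖ ≤ d * ‖v‖ := by
  rw [EuclideanSpace.norm_eq]
  apply Real.sqrt_le_iff.2
  refine ⟨by positivity, ?_⟩
  have h1 : ∑ i : Fin d, ‖(WithLp.toLp 2 v : W d) i‖ ^ 2 ≤
      (∑ i : Fin d, ‖(WithLp.toLp 2 v : W d) i‖) ^ 2 :=
    Finset.sum_sq_le_sq_sum_of_nonneg fun _ _ => norm_nonneg _
  refine h1.trans ?_
  apply pow_le_pow_left₀ (Finset.sum_nonneg fun _ _ => norm_nonneg _)
  calc ∑ i : Fin d, ‖(WithLp.toLp 2 v : W d) i‖ ≤ ∑ _i : Fin d, ‖v‖ :=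
        Finset.sum_le_sum fun i _ => norm_le_pi_norm v i
    _ = d * ‖v‖ := by rw [Finset.sum_const, Finset.card_univ, Fintype.card_fin, nsmul_eq_mul]

/-- `‖toLp 2 x‖ ≤ √d ‖x‖ ≤ d ‖x‖` (`d = 0` is trivial). -/
theorem Chart.lip_ψ {D : Set (W (d + 1))} (c : Chart D) : LipschitzWith (d * c.L) c.ψ := by
  apply LipschitzWith.of_dist_le_mul
  intro x y
  have h1 := c.lip.dist_le_mul (WithLp.toLp 2 x) (WithLp.toLp 2 y)
  have h2 : dist (WithLp.toLp 2 x : W d) (WithLp.toLp 2 y) ≤ d * dist x y := by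
    rw [dist_eq_norm, dist_eq_norm, ← WithLp.toLp_sub]
    exact Fin3_norm_toLp _
  unfold Chart.ψ
  refine h1.trans ?_
  push_cast
  calc (c.L : ℝ) * dist (WithLp.toLp 2 x : W d) (WithLp.toLp 2 y) ≤ c.L * (d * dist x y) :=
        mul_le_mul_of_nonneg_left h2 c.L.coe_nonneg
    _ = d * c.L * dist x y := by ring

private lemma Fin3_emb_lip : LipschitzWith (d + 1 : ℝ≥0) (emb (d := d)) := by
  apply LipschitzWith.of_dist_le_mul
  intro X Y
  rw [dist_eq_norm, dist_eq_norm, ← emb_sub]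
  push_cast
  exact (norm_le_emb _).2

private lemma Fin3_continuous_hor : Continuous (hor (d := d)) := by
  unfold hor
  fun_prop

private lemma Fin3_continuous_ver : Continuous (ver (d := d)) := by
  unfold ver
  fun_prop

private lemma Fin3_mem_frontier {X : Type*} [TopologicalSpace X] (A : Set X) (x : X) :
    x ∈ frontier A ↔ (∃ᶠ y in 𝓝 x, y ∈ A) ∧ ¬ ∀ᶠ y in 𝓝 x, y ∈ A := by
  unfold frontier
  rw [Set.mem_sdiff, mem_closure_iff_frequently, mem_interior_iff_mem_nhds]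
  rfl

/-- the frontier in a cylinder is the graph -/
theorem Chart.frontier_iff {D : Set (W (d + 1))} (c : Chart D) {Y : W (d + 1)} (h1 : ‖hor Y‖ < c.r)
    (h2 : |ver Y| < c.h) : c.T Y ∈ frontier D ↔ ver Y = c.φ (hor Y) := by
  have hT : c.T Y ∈ frontier D ↔ Y ∈ frontier (c.T ⁻¹' D) := by
    have h := c.T.toHomeomorph.preimage_frontier D
    have h' : (c.T ⁻¹' frontier D) = frontier (c.T ⁻¹' D) := h
    rw [← h']
    rfl
  have hev : ∀ᶠ Z in 𝓝 Y, (Z ∈ c.T ⁻¹' D ↔ c.φ (hor Z) < ver Z) := by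
    have h3 : ∀ᶠ Z in 𝓝 Y, ‖hor Z‖ < c.r :=
      (Fin3_continuous_hor.norm.continuousAt).eventually_lt continuousAt_const h1
    have h4 : ∀ᶠ Z in 𝓝 Y, |ver Z| < c.h :=
      (Fin3_continuous_ver.abs.continuousAt).eventually_lt continuousAt_const h2
    filter_upwards [h3, h4] with Z hZ1 hZ2
    exact c.dom Z hZ1 hZ2
  rw [hT, Fin3_mem_frontier]
  have hφ : Continuous fun Z : W (d + 1) => c.φ (hor Z) := c.lip.continuous.comp Fin3_continuous_hor
  have hf : (∃ᶠ Z in 𝓝 Y, Z ∈ c.T ⁻¹' D) ↔ ∃ᶠ Z in 𝓝 Y, c.φ (hor Z) < ver Z :=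
    frequently_congr hev
  have he : (∀ᶠ Z in 𝓝 Y, Z ∈ c.T ⁻¹' D) ↔ ∀ᶠ Z in 𝓝 Y, c.φ (hor Z) < ver Z :=
    eventually_congr hev
  rw [hf, he]
  constructor
  · rintro ⟨h3, h4⟩
    rcases lt_trichotomy (c.φ (hor Y)) (ver Y) with h5 | h5 | h5
    · exact absurd (hφ.continuousAt.eventually_lt Fin3_continuous_ver.continuousAt h5) h4
    · exact h5.symm
    · exfalso
      have h6 := Fin3_continuous_ver.continuousAt.eventually_lt hφ.continuousAt h5
      obtain ⟨Z, hZ1, hZ2⟩ := (h3.and_eventually h6).exists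
      exact lt_asymm hZ1 hZ2
  · intro h3
    constructor
    · -- points above
      have hlim : Tendsto (fun t : ℝ => emb ((fun i => hor Y i), ver Y + t)) (𝓝[>] 0) (𝓝 Y) := by
        have h4 : Continuous (fun t : ℝ => emb ((fun i => hor Y i), ver Y + t)) :=
          Fin3_emb_lip.continuous.comp (by fun_prop)
        have h5 := h4.tendsto 0
        rw [add_zero, emb_hor_ver] at h5
        exact h5.mono_left nhdsWithin_le_nhds
      apply hlim.frequently
      apply Eventually.frequently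
      filter_upwards [self_mem_nhdsWithin] with t ht
      have ht' : 0 < t := ht
      rw [ver_emb, hor_emb]
      change c.φ (hor Y) < ver Y + t
      linarith
    · intro h4
      have h5 := h4.self_of_nhds
      linarith

private lemma Fin3_anti {D : Set (W (d + 1))} (c : Chart D) (ε : ℝ) :
    AntilipschitzWith 1 (c.par ε) := by
  apply AntilipschitzWith.of_le_mul_dist
  intro x y
  unfold Chart.par
  rw [c.T.dist_eq, dist_eq_norm, dist_eq_norm, ← emb_sub, NNReal.coe_one, one_mul]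
  refine le_trans ?_ (norm_le_emb _).1
  rw [Prod.norm_def]
  exact le_max_left _ _

private lemma Fin3_lip {D : Set (W (d + 1))} (c : Chart D) (ε : ℝ) :
    LipschitzWith ((d + 1) * (1 + d * c.L)) (c.par ε) := by
  apply LipschitzWith.of_dist_le_mul
  intro x y
  unfold Chart.par
  rw [c.T.dist_eq, dist_eq_norm, ← emb_sub]
  refine (norm_le_emb _).2.trans ?_
  push_cast
  rw [mul_assoc]
  apply mul_le_mul_of_nonneg_left _ (by positivity)
  have h1 := c.lip_ψ.dist_le_mul x y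
  push_cast at h1
  have h2 : 0 ≤ (d : ℝ) * c.L * dist x y := by positivity
  rw [Prod.norm_def]
  apply max_le
  · change ‖x - y‖ ≤ _
    rw [← dist_eq_norm]
    linarith
  · change ‖c.ψ x + ε - (c.ψ y + ε)‖ ≤ _
    rw [add_sub_add_right_eq_sub, ← dist_eq_norm]
    have h3 : 0 ≤ dist x y := dist_nonneg
    linarith

private lemma Fin3_vol (s : Set (HG.E d)) :
    volume s = Measure.hausdorffMeasure (d : ℝ) s := by
  have h := hausdorffMeasure_pi_real (ι := Fin d)
  rw [Fintype.card_fin] at h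
  rw [← h]

/-- Lower bound for the surface measure: `par ε` does not decrease distances (`‖x - x'‖ ≤ ‖par x - par x'‖`), so
`volume (A ∩ par⁻¹ S) = μH[d] (A ∩ par⁻¹ S) ≤ μH[d] (S ∩ par '' A)` (`MeasureTheory.hausdorffMeasure_pi_real`,
`AntilipschitzWith.le_hausdorffMeasure_image`); i.e. `map par (volume.restrict A) ≤ (μH[d]).restrict (surf ε)`. -/
theorem Chart.lintegral_le_surf {D : Set (W (d + 1))} (c : Chart D) (ε : ℝ) {A : Set (HG.E d)} (hA : MeasurableSet A)
    (hsub : ∀ x ∈ A, ‖(WithLp.toLp 2 x : W d)‖ < c.r ∧ |c.ψ x + ε| < c.h) {g : W (d + 1) → ℝ≥0∞} (hg : Measurable g) :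
    ∫⁻ x in A, g (c.par ε x) ≤ ∫⁻ Q in c.surf ε, g Q ∂(Measure.hausdorffMeasure (d : ℝ)) := by
  have hpm : Measurable (c.par ε) := (Fin3_lip c ε).continuous.measurable
  have hle : (volume.restrict A).map (c.par ε) ≤
      (Measure.hausdorffMeasure (d : ℝ) : Measure (W (d + 1))).restrict (c.surf ε) := by
    rw [Measure.le_iff]
    intro S hS
    rw [Measure.map_apply hpm hS, Measure.restrict_apply (hpm hS), Measure.restrict_apply hS,
      Fin3_vol]
    have h1 := (Fin3_anti c ε).le_hausdorffMeasure_image (d := (d : ℝ)) (Nat.cast_nonneg d)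
      (c.par ε ⁻¹' S ∩ A)
    rw [ENNReal.coe_one, ENNReal.one_rpow, one_mul] at h1
    refine h1.trans (measure_mono ?_)
    rintro _ ⟨x, ⟨hxS, hxA⟩, rfl⟩
    refine ⟨hxS, ?_⟩
    refine ⟨emb (x, c.ψ x + ε), ?_, rfl⟩
    rw [Set.mem_ofPred_eq, hor_emb, ver_emb]
    exact ⟨(hsub x hxA).1, (hsub x hxA).2, rfl⟩
  rw [← lintegral_map hg hpm]
  exact lintegral_mono' hle le_rfl

/-- Upper bound: `par 0` is Lipschitz (`LipschitzWith.hausdorffMeasure_image_le`), for measurable `g`. -/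
theorem Chart.surf_le_lintegral {D : Set (W (d + 1))} (c : Chart D) : ∃ K : ℝ≥0∞, K ≠ ⊤ ∧
    ∀ A : Set (HG.E d), MeasurableSet A → ∀ g : W (d + 1) → ℝ≥0∞, Measurable g →
    ∫⁻ Q in c.par 0 '' A, g Q ∂(Measure.hausdorffMeasure (d : ℝ)) ≤ K * ∫⁻ x in A, g (c.par 0 x) := by
  refine ⟨(((d + 1) * (1 + d * c.L) : ℝ≥0) : ℝ≥0∞) ^ (d : ℝ), ?_, ?_⟩
  · exact ENNReal.rpow_ne_top_of_nonneg (Nat.cast_nonneg d) ENNReal.coe_ne_top
  · intro A hA g hg
    set K : ℝ≥0∞ := (((d + 1) * (1 + d * c.L) : ℝ≥0) : ℝ≥0∞) ^ (d : ℝ) with hK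
    have hpm : Measurable (c.par 0) := (Fin3_lip c 0).continuous.measurable
    have hle : (Measure.hausdorffMeasure (d : ℝ) : Measure (W (d + 1))).restrict (c.par 0 '' A) ≤
        K • (volume.restrict A).map (c.par 0) := by
      rw [Measure.le_iff]
      intro S hS
      rw [Measure.smul_apply, smul_eq_mul, Measure.map_apply hpm hS,
        Measure.restrict_apply (hpm hS), Measure.restrict_apply hS, Fin3_vol]
      have h1 := (Fin3_lip c 0).hausdorffMeasure_image_le (d := (d : ℝ)) (Nat.cast_nonneg d)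
        (c.par 0 ⁻¹' S ∩ A)
      refine le_trans (measure_mono ?_) h1
      rintro _ ⟨hQ, x, hxA, rfl⟩
      exact ⟨x, ⟨hQ, hxA⟩, rfl⟩
    refine (lintegral_mono' hle le_rfl).trans ?_
    rw [lintegral_smul_measure, lintegral_map hg hpm, smul_eq_mul]

end NTMax
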