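import Pool.Agent.W_MP_825298_an.Fin3

open MeasureTheory Set Filter Topology
open scoped ENNReal NNReal BigOperators

namespace NTMax
variable {d : ℕ}

theorem Fin4_measurable_gradient (u : W (d + 1) → ℝ) :
    Measurable (fun Q : W (d + 1) => ‖gradient u Q‖ₑ) := by
  have h1 : Measurable (fun Q : W (d + 1) => fderiv ℝ u Q) := measurable_fderiv ℝ u
  have h2 : Measurable (fun Q : W (d + 1) => gradient u Q) := by
    unfold gradient
    exact (InnerProductSpace.toDual ℝ (W (d + 1))).symm.continuous.measurable.comp h1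
  exact h2.enorm

/-- From a chart to the local hypothesis. `x0 = hor Y0`, `|ψ x0| = |ver Y0| < h`; take `ρ ≤ ε0` so small that
`‖x-x0‖ < ρ`, `0 ≤ τ < ρ` imply `‖toLp x‖ < r` and `|ψ x + τ| < h`.  `harm_transfer`, `grad_compare`, `lintegral_le_surf`
(`gradient u` is measurable: `measurable_fderiv`). -/
theorem Chart.locHarm {D : Set (W (d + 1))} (c : Chart D) {u : W (d + 1) → ℝ}
    (hu : InnerProductSpace.HarmonicOnNhd u D) {ε0 : ℝ} (hε0 : 0 < ε0) {A : ℝ≥0∞} (hA : A ≠ ⊤)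
    (hA' : ∀ ε : ℝ, 0 < ε → ε < ε0 →
      ∫⁻ Q in c.surf ε, ‖gradient u Q‖ₑ ∂(Measure.hausdorffMeasure (d : ℝ)) ≤ A)
    {x0 : HG.E d} (hx0 : ‖(WithLp.toLp 2 x0 : W d)‖ < c.r) (ht0 : |c.ψ x0| < c.h) :
    ∃ ρ : ℝ, 0 < ρ ∧ ρ ≤ ε0 ∧ (∀ x : HG.E d, ‖x - x0‖ < ρ → ∀ τ : ℝ, |τ| < ρ →
        ‖(WithLp.toLp 2 x : W d)‖ < c.r ∧ |c.ψ x + τ| < c.h) ∧
      HG.LocHarm c.ψ x0 ρ (fun Z => u (c.T (emb Z))) (((d : ℝ≥0∞) + 1) * A) := by
  -- choice of `ρ`
  have hcont1 : Continuous (fun p : HG.E d × ℝ => ‖(WithLp.toLp 2 p.1 : W d)‖) :=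
    ((PiLp.continuous_toLp 2 (fun _ : Fin d => ℝ)).comp continuous_fst).norm
  have hcont2 : Continuous (fun p : HG.E d × ℝ => |c.ψ p.1 + p.2|) :=
    ((c.lip_ψ.continuous.comp continuous_fst).add continuous_snd).abs
  have hev : ∀ᶠ p : HG.E d × ℝ in 𝓝 (x0, 0), ‖(WithLp.toLp 2 p.1 : W d)‖ < c.r ∧
      |c.ψ p.1 + p.2| < c.h := by
    refine Filter.Eventually.and ?_ ?_
    · exact hcont1.continuousAt.eventually_lt continuousAt_const hx0
    · refine hcont2.continuousAt.eventually_lt continuousAt_const ?_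
      simpa using ht0
  obtain ⟨ρ', hρ', hρ⟩ := Metric.eventually_nhds_iff.1 hev
  have hkey : ∀ x : HG.E d, ‖x - x0‖ < min ρ' ε0 → ∀ τ : ℝ, |τ| < min ρ' ε0 →
      ‖(WithLp.toLp 2 x : W d)‖ < c.r ∧ |c.ψ x + τ| < c.h := by
    intro x hx τ hτ
    have h1 : dist ((x, τ) : HG.E d × ℝ) ((x0, 0) : HG.E d × ℝ) < ρ' := by
      rw [Prod.dist_eq, max_lt_iff]
      refine ⟨?_, ?_⟩
      · rw [dist_eq_norm]
        exact lt_of_lt_of_le hx (min_le_left _ _)
      · rw [Real.dist_eq, sub_zero]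
        exact lt_of_lt_of_le hτ (min_le_left _ _)
    exact @hρ (x, τ) h1
  refine ⟨min ρ' ε0, lt_min hρ' hε0, min_le_right _ _, hkey, ?_⟩
  set ρ := min ρ' ε0 with hρdef
  -- points of the box are in `D`
  have hD : ∀ X ∈ HG.bx c.ψ x0 ρ, c.T (emb X) ∈ D := by
    rintro X ⟨h1, h2, h3⟩
    have h4 : |X.2 - c.ψ X.1| < ρ := by
      rw [abs_of_pos (by linarith)]
      linarith
    obtain ⟨h5, h6⟩ := hkey X.1 h1 _ h4
    rw [add_sub_cancel] at h6
    rw [c.dom (emb X) (by rw [hor_emb]; exact h5) (by rw [ver_emb]; exact h6), hor_emb, ver_emb]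
    exact h2
  refine ⟨?_, ?_, ?_⟩
  · intro X hX
    exact (harm_transfer c.T (hu _ (hD X hX))).1.contDiffWithinAt
  · intro X hX
    exact (harm_transfer c.T (hu _ (hD X hX))).2
  · intro ε hε hερ
    have hmeas := Fin4_measurable_gradient u
    have hsub : ∀ x ∈ Metric.ball x0 ρ, ‖(WithLp.toLp 2 x : W d)‖ < c.r ∧ |c.ψ x + ε| < c.h := by
      intro x hx
      rw [Metric.mem_ball, dist_eq_norm] at hx
      exact hkey x hx ε (by rwa [abs_of_pos hε])
    calc ∫⁻ x in Metric.ball x0 ρ, ENNReal.ofReal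
          (HG.nF (HG.gr (fun Z => u (c.T (emb Z)))) (x, c.ψ x + ε))
        ≤ ∫⁻ x in Metric.ball x0 ρ, ((d : ℝ≥0∞) + 1) * ‖gradient u (c.par ε x)‖ₑ := by
          refine lintegral_mono fun x => ?_
          have h1 := (grad_compare c.T u (x, c.ψ x + ε)).1
          calc ENNReal.ofReal (HG.nF (HG.gr (fun Z => u (c.T (emb Z)))) (x, c.ψ x + ε))
              ≤ ENNReal.ofReal (((d : ℝ) + 1) * ‖gradient u (c.T (emb (x, c.ψ x + ε)))‖) :=
                ENNReal.ofReal_le_ofReal h1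
            _ = ((d : ℝ≥0∞) + 1) * ‖gradient u (c.par ε x)‖ₑ := by
                rw [ENNReal.ofReal_mul (by positivity), ofReal_norm]
                congr 1
                rw [ENNReal.ofReal_add (by positivity) (by norm_num), ENNReal.ofReal_natCast,
                  ENNReal.ofReal_one]
      _ = ((d : ℝ≥0∞) + 1) * ∫⁻ x in Metric.ball x0 ρ, ‖gradient u (c.par ε x)‖ₑ := by
          rw [lintegral_const_mul']
          exact ENNReal.add_ne_top.2 ⟨ENNReal.natCast_ne_top _, ENNReal.one_ne_top⟩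
      _ ≤ ((d : ℝ≥0∞) + 1) * A := by
          gcongr
          exact (c.lintegral_le_surf ε Metric.isOpen_ball.measurableSet hsub hmeas).trans
            (hA' ε hε (lt_of_lt_of_le hερ (min_le_right _ _)))

end NTMax
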