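import Pool.Agent.W_MP_825298_an.GA5

open MeasureTheory Set Filter Topology
open scoped ENNReal NNReal BigOperators

namespace HG
variable {d : ℕ}

/-- THE GRAPH THEOREM (interface between the main argument and the reduction, section 6):
the nontangential maximal function of a field above a Lipschitz graph which is regular up to the boundary and decays is
controlled in `L¹` by the boundary values, with a constant depending only on `d`, `M` and the aperture `a`. -/
theorem graph_theorem (hd : 3 ≤ d) (M : ℝ≥0) (a : ℝ) : ∃ C : ℝ, 0 < C ∧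
    ∀ (φ : E d → ℝ), LipschitzWith M φ → ∀ (U : Set (P d)), IsOpen U → aboveC φ ⊆ U →
    ∀ (F : Ix d → P d → ℝ), IsField U F →
    ∀ CF : ℝ, (∀ X ∈ aboveC φ, nF F X ≤ CF * (1 + ‖X‖) ^ (-((d : ℝ) + 1))) →
    ∃ g : E d → ℝ≥0∞, Measurable g ∧
      (∀ (x : E d), ∀ X ∈ above φ, ‖X.1 - x‖ ≤ a * (X.2 - φ X.1) → ENNReal.ofReal (nF F X) ≤ g x) ∧
      ∫⁻ x : E d, g x ≤ ENNReal.ofReal C * ∫⁻ x : E d, ENNReal.ofReal (nF F (x, φ x)) :=
  graph_theorem' hd M a

end HG
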