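import Pool.Agent.W_MP_825298_an.Red7
import Pool.Agent.W_MP_825298_an.GT

open MeasureTheory Set Filter Topology
open scoped ENNReal NNReal BigOperators

namespace HG
variable {d : ℕ}

/-- The Euclidean step: the point `X` near `gpt φ x` is near `gpt φ x0`. -/
theorem Red8_near {M : ℝ≥0} {φ : E d → ℝ} (hφ : LipschitzWith M φ) {x0 x : E d} {r : ℝ} (hr : 0 < r)
    (hx : ‖x - x0‖ < r / (4 * (1 + M))) {X : P d} (hX : ‖X - gpt φ x‖ < r / (4 * (1 + M))) :
    ‖X - gpt φ x0‖ < r / 2 := by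
  have hM : (0 : ℝ) ≤ M := M.2
  have h1 : ‖gpt φ x - gpt φ x0‖ ≤ (1 + M) * ‖x - x0‖ := by
    have h2 : |φ x - φ x0| ≤ M * ‖x - x0‖ := by
      have := hφ.dist_le_mul x x0
      rwa [Real.dist_eq, dist_eq_norm] at this
    have h3 : gpt φ x - gpt φ x0 = (x - x0, φ x - φ x0) := rfl
    rw [h3, Prod.norm_def]
    refine max_le ?_ ?_
    · show ‖x - x0‖ ≤ _
      nlinarith [norm_nonneg (x - x0)]
    · show ‖φ x - φ x0‖ ≤ _
      rw [Real.norm_eq_abs]
      nlinarith [norm_nonneg (x - x0)]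
  have h4 : ‖X - gpt φ x0‖ ≤ ‖X - gpt φ x‖ + ‖gpt φ x - gpt φ x0‖ := by
    have := norm_add_le (X - gpt φ x) (gpt φ x - gpt φ x0)
    rwa [sub_add_sub_cancel] at this
  set ρ' : ℝ := r / (4 * (1 + M)) with hρ'
  have h5 : ρ' * (4 * (1 + M)) = r := by
    rw [hρ']
    field_simp
  have h6 : (1 + (M : ℝ)) * ‖x - x0‖ ≤ (1 + M) * ρ' := mul_le_mul_of_nonneg_left hx.le (by positivity)
  have h7 : 0 < ρ' := by positivity
  nlinarith

/-- LOCAL THEOREM. `w` from `cut_exists`.  For `ε = ε_k = 2^{-k} ε₁` apply `graph_theorem` to the graph of `φ + ε`,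
`U = above (φ + ε/2)`, `F = Fe φ x0 w ε` (`Fe_field`, `Fe_decay`) with aperture `2|a|`: measurable `g_k` with `∫ g_k ≤ C B`.
Put `g = liminf g_k + B`, `ρ' = r1/(4(1+M))`.  If `X` is above the graph with `‖X.1-x‖ ≤ a (X.2-φ X.1)`, then for all large `k`
`‖X.1-x‖ ≤ 2|a| (X.2-φ X.1-ε_k)`, so `ofReal (nF (gr u) X) ≤ ofReal (nF Fe X) + B ≤ g_k x + B`.  Fatou (`lintegral_liminf_le`). -/
theorem local_theorem (hd : 3 ≤ d) {M : ℝ≥0} {φ : E d → ℝ} (hφ : LipschitzWith M φ) {x0 : E d} {ρ : ℝ} (hρ : 0 < ρ)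
    {u : P d → ℝ} {A : ℝ≥0∞} (hA : A ≠ ⊤) (hu : LocHarm φ x0 ρ u A) (a : ℝ) :
    ∃ ρ' : ℝ, 0 < ρ' ∧ ρ' ≤ ρ ∧ ∃ g : E d → ℝ≥0∞, Measurable g ∧
      (∀ x : E d, ‖x - x0‖ < ρ' → ∀ X ∈ above φ, ‖X - gpt φ x‖ < ρ' → ‖X.1 - x‖ ≤ a * (X.2 - φ X.1) →
        ENNReal.ofReal (nF (gr u) X) ≤ g x) ∧
      ∫⁻ x in Metric.ball x0 ρ', g x ≠ ⊤ := by
  have hd1 : 1 ≤ d := by omega
  have hM : (0 : ℝ) ≤ M := M.2
  obtain ⟨Cc, hCc, w, hw⟩ := cut_exists hφ x0 hρ hu.cd hu.harm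
  obtain ⟨B, hB, hFe⟩ := Fe_bounds hd1 hφ hρ hA hu hCc hw
  set r1 : ℝ := ρ / (4 * (1 + M)) with hr1
  have hr1p : 0 < r1 := by positivity
  have hr1le : r1 ≤ ρ := by
    rw [hr1]
    exact div_le_self hρ.le (by linarith)
  obtain ⟨C, hC, hgt⟩ := graph_theorem hd M (2 * |a|)
  -- the sequence of heights
  set ε1 : ℝ := min 1 (ρ / 2) with hε1
  have hε1p : 0 < ε1 := lt_min one_pos (by positivity)
  set ε : ℕ → ℝ := fun k => (1 / 2 : ℝ) ^ k * ε1 with hε
  have hεp : ∀ k, 0 < ε k := fun k => by positivity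
  have hεle : ∀ k, ε k ≤ ε1 := fun k => by
    have : (1 / 2 : ℝ) ^ k ≤ 1 := pow_le_one₀ (by norm_num) (by norm_num)
    simp only [hε]
    nlinarith
  have hε1' : ∀ k, ε k ≤ 1 := fun k => (hεle k).trans (min_le_left _ _)
  have hε2' : ∀ k, ε k ≤ ρ / 2 := fun k => (hεle k).trans (min_le_right _ _)
  have hεlim : Tendsto ε atTop (𝓝 0) := by
    have h1 : Tendsto (fun k : ℕ => (1 / 2 : ℝ) ^ k) atTop (𝓝 0) :=
      tendsto_pow_atTop_nhds_zero_of_lt_one (by norm_num) (by norm_num)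
    have h2 := h1.mul_const ε1
    rwa [zero_mul] at h2
  have hwz : ∀ X ∈ above φ, 2 * r1 < ‖X - gpt φ x0‖ → w X = 0 := hw.zero
  have hstep : ∀ k, ∃ g : E d → ℝ≥0∞, Measurable g ∧
      (∀ (x : E d), ∀ X ∈ above (fun x => φ x + ε k), ‖X.1 - x‖ ≤ 2 * |a| * (X.2 - (φ X.1 + ε k)) →
        ENNReal.ofReal (nF (Fe φ x0 w (ε k)) X) ≤ g x) ∧
      ∫⁻ x : E d, g x ≤ ENNReal.ofReal C * B := by
    intro k
    have hφk : LipschitzWith M (fun x => φ x + ε k) := by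
      intro x y
      simpa using hφ x y
    have hopen : IsOpen (above (fun x => φ x + ε k / 2)) :=
      isOpen_lt ((hφ.continuous.comp continuous_fst).add continuous_const) continuous_snd
    have hsub : aboveC (fun x => φ x + ε k) ⊆ above (fun x => φ x + ε k / 2) := by
      intro X hX
      have h1 : φ X.1 + ε k ≤ X.2 := hX
      have h2 := hεp k
      show φ X.1 + ε k / 2 < X.2
      linarith
    obtain ⟨CF, hCF⟩ := Fe_decay hd1 hφ hw.cd hwz (hεp k)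
    obtain ⟨g, hg1, hg2, hg3⟩ := hgt (fun x => φ x + ε k) hφk _ hopen hsub _
      (Fe_field hd1 hφ hw.cd hwz (hεp k)) CF hCF
    refine ⟨g, hg1, hg2, hg3.trans ?_⟩
    exact mul_le_mul_right ((hFe (ε k) (hεp k) (hε1' k) (hε2' k)).1) _
  choose g hg1 hg2 hg3 using hstep
  set ρ' : ℝ := r1 / (4 * (1 + M)) with hρ'
  have hρ'p : 0 < ρ' := by positivity
  have hρ'le : ρ' ≤ ρ := by
    have : ρ' ≤ r1 := by
      rw [hρ']
      exact div_le_self hr1p.le (by linarith)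
    linarith
  refine ⟨ρ', hρ'p, hρ'le, fun x => liminf (fun k => g k x) atTop + B, ?_, ?_, ?_⟩
  · exact (Measurable.liminf hg1).add_const B
  · intro x hx X hX hXx hXa
    have hXn : ‖X - gpt φ x0‖ < r1 / 2 := Red8_near hφ hr1p hx hXx
    have hh : 0 < X.2 - φ X.1 := by
      have h1 : φ X.1 < X.2 := hX
      linarith
    rw [← tsub_le_iff_right]
    refine le_liminf_of_le (by isBoundedDefault) ?_
    have hev : ∀ᶠ k in atTop, ε k < (X.2 - φ X.1) / 2 := hεlim.eventually (gt_mem_nhds (by linarith))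
    filter_upwards [hev] with k hk
    rw [tsub_le_iff_right]
    have hXk : X ∈ above (fun x => φ x + ε k) := by
      show φ X.1 + ε k < X.2
      linarith
    have hXk' : ‖X.1 - x‖ ≤ 2 * |a| * (X.2 - (φ X.1 + ε k)) := by
      have h1 : a * (X.2 - φ X.1) ≤ |a| * (X.2 - φ X.1) :=
        mul_le_mul_of_nonneg_right (le_abs_self a) hh.le
      have h2 : |a| * (X.2 - φ X.1) ≤ 2 * |a| * (X.2 - (φ X.1 + ε k)) := by
        have h3 : |a| * (X.2 - φ X.1) ≤ |a| * (2 * (X.2 - (φ X.1 + ε k))) :=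
          mul_le_mul_of_nonneg_left (by linarith) (abs_nonneg a)
        linarith
      linarith
    have h1 := (hFe (ε k) (hεp k) (hε1' k) (hε2' k)).2 X hX hXn
    have h2 := hg2 k x X hXk hXk'
    exact h1.trans (add_le_add_left h2 B)
  · have hball : volume (Metric.ball x0 ρ' : Set (E d)) ≠ ⊤ := measure_ball_lt_top.ne
    have h1 : ∫⁻ x in Metric.ball x0 ρ', (liminf (fun k => g k x) atTop + B) ≤
        ENNReal.ofReal C * B + B * volume (Metric.ball x0 ρ' : Set (E d)) := by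
      rw [lintegral_add_right _ measurable_const, setLIntegral_const]
      refine add_le_add_left ?_ _
      calc ∫⁻ x in Metric.ball x0 ρ', liminf (fun k => g k x) atTop
          ≤ ∫⁻ x : E d, liminf (fun k => g k x) atTop := setLIntegral_le_lintegral _ _
        _ ≤ liminf (fun k => ∫⁻ x : E d, g k x) atTop := lintegral_liminf_le hg1
        _ ≤ liminf (fun _ : ℕ => ENNReal.ofReal C * B) atTop :=
            liminf_le_liminf (Filter.Eventually.of_forall hg3)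
        _ = ENNReal.ofReal C * B := liminf_const _
    refine ne_top_of_le_ne_top ?_ h1
    exact ENNReal.add_ne_top.2 ⟨ENNReal.mul_ne_top ENNReal.ofReal_ne_top hB,
      ENNReal.mul_ne_top hB hball⟩

end HG
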