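import Pool.Agent.W_MP_825298_an.Fin4
import Pool.Agent.W_MP_825298_an.Red8

open MeasureTheory Set Filter Topology
open scoped ENNReal NNReal BigOperators

namespace NTMax
variable {d : ℕ}

/-- horizontal coordinates in the sup norm model -/
noncomputable def horE (Y : W (d + 1)) : HG.E d := fun i => hor Y i

theorem toLp_horE (Y : W (d + 1)) : (WithLp.toLp 2 (horE Y) : W d) = hor Y := rfl

theorem emb_horE (Y : W (d + 1)) : emb (horE Y, ver Y) = Y := emb_hor_ver Y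

theorem horE_emb (X : HG.P d) : horE (emb X) = X.1 := by
  funext i
  unfold horE
  rw [hor_emb]

theorem continuous_horE : Continuous (horE (d := d)) := by
  unfold horE hor
  fun_prop

theorem norm_horE_sub_le (Y Z : W (d + 1)) : ‖horE Y - horE Z‖ ≤ ‖Y - Z‖ ∧
    |ver Y - ver Z| ≤ ‖Y - Z‖ := by
  have h := (norm_le_emb ((horE Y, ver Y) - (horE Z, ver Z))).1
  rw [emb_sub, emb_horE, emb_horE] at h
  exact ⟨(norm_fst_le _).trans h, (norm_snd_le ((horE Y, ver Y) - (horE Z, ver Z))).trans h⟩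

theorem norm_emb_vert (x : HG.E d) (s t : ℝ) : ‖emb (x, s) - emb (x, t)‖ = |s - t| := by
  rw [← emb_sub]
  have h : ‖emb ((x, s) - (x, t))‖ ^ 2 = |s - t| ^ 2 := by
    rw [norm_emb_sq, sq_abs]
    unfold HG.sq
    rw [Fintype.sum_option]
    simp [HG.co]
  exact (pow_left_inj₀ (norm_nonneg _) (abs_nonneg _) two_ne_zero).1 h

/-- Local theorem in Euclidean space near a boundary point `P0` in the cylinder of a chart.
`Y0 = T⁻¹ P0`, `x0 = hor Y0`; `ver Y0 = φ (hor Y0)` by `Chart.frontier_iff`.  `locHarm` and `HG.local_theorem` with aperture `a = 1/b` give `ρ', g'`;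
`g P = (d+1) * g' (hor (T⁻¹ P))`.  If `P = par 0 x`, `Q = T (emb X)` are close to `P0`, `ball Q (b‖Q-P‖) ⊆ D`, then the frontier point
`par 0 X.1` is not in this ball, so `|X.2 - ψ X.1| ≥ b ‖Q - P‖ ≥ b ‖X - gpt ψ x‖ ≥ b ‖X.1 - x‖`.
Integral: `Chart.surf_le_lintegral` with `A = ball x0 ρ''`. -/
theorem Chart.local_max (hd : 3 ≤ d) {D : Set (W (d + 1))} (c : Chart D) {u : W (d + 1) → ℝ}
    (hu : InnerProductSpace.HarmonicOnNhd u D) {ε0 : ℝ} (hε0 : 0 < ε0) {A : ℝ≥0∞} (hA : A ≠ ⊤)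
    (hA' : ∀ ε : ℝ, 0 < ε → ε < ε0 →
      ∫⁻ Q in c.surf ε, ‖gradient u Q‖ₑ ∂(Measure.hausdorffMeasure (d : ℝ)) ≤ A)
    {b : ℝ} (hb : 0 < b) {P0 : W (d + 1)} (hP0 : P0 ∈ frontier D) (hc : P0 ∈ c.cyl) :
    ∃ δ : ℝ, 0 < δ ∧ Measure.hausdorffMeasure (d : ℝ) (frontier D ∩ Metric.ball P0 δ) ≠ ⊤ ∧
      ∃ g : W (d + 1) → ℝ≥0∞, Measurable g ∧
      (∀ P ∈ frontier D, ‖P - P0‖ < δ → ∀ Q ∈ D, ‖Q - P‖ < δ → Metric.ball Q (b * ‖Q - P‖) ⊆ D →
        ‖gradient u Q‖ₑ ≤ g P) ∧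
      ∫⁻ P in frontier D ∩ Metric.ball P0 δ, g P ∂(Measure.hausdorffMeasure (d : ℝ)) ≠ ⊤ := by
  obtain ⟨Y0, ⟨hr0, hh0⟩, rfl⟩ := hc
  have hver0 : ver Y0 = c.φ (hor Y0) := (c.frontier_iff hr0 hh0).1 hP0
  set x0 : HG.E d := horE Y0 with hx0
  have hψ0 : c.ψ x0 = ver Y0 := by rw [hver0]; rfl
  obtain ⟨ρ, hρ, _, hdom, hloc⟩ := c.locHarm hu hε0 hA hA' (x0 := x0) hr0 (by rw [hψ0]; exact hh0)
  have hA2 : ((d : ℝ≥0∞) + 1) * A ≠ ⊤ :=
    ENNReal.mul_ne_top (ENNReal.add_ne_top.2 ⟨ENNReal.natCast_ne_top d, ENNReal.one_ne_top⟩) hA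
  obtain ⟨ρ', hρ', hρ'ρ, g', hg'm, hg', hg'int⟩ := HG.local_theorem hd c.lip_ψ hρ hA2 hloc (1 / b)
  obtain ⟨K, hK, hKle⟩ := c.surf_le_lintegral
  set δ : ℝ := min (ρ' / 2) ((c.h - |ver Y0|) / 2) with hδ
  have hδpos : 0 < δ := by
    rw [hδ]
    have : 0 < c.h - |ver Y0| := by linarith
    positivity
  have hδ1 : 2 * δ ≤ ρ' := by
    have := min_le_left (ρ' / 2) ((c.h - |ver Y0|) / 2)
    rw [← hδ] at this
    linarith
  have hδ2 : 2 * δ ≤ c.h - |ver Y0| := by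
    have := min_le_right (ρ' / 2) ((c.h - |ver Y0|) / 2)
    rw [← hδ] at this
    linarith
  -- points close to `P0`
  have hT : ∀ Y Z : W (d + 1), ‖c.T Y - c.T Z‖ = ‖Y - Z‖ := fun Y Z => by
    rw [← dist_eq_norm, ← dist_eq_norm, c.T.dist_eq]
  have hclose : ∀ Y : W (d + 1), ‖Y - Y0‖ < 2 * δ →
      ‖horE Y - x0‖ < ρ' ∧ ‖hor Y‖ < c.r ∧ |ver Y| < c.h ∧ |c.ψ (horE Y)| < c.h := by
    intro Y hY
    have h1 := norm_horE_sub_le Y Y0
    have h2 : ‖horE Y - x0‖ < ρ' := by linarith [h1.1]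
    have h3 := hdom (horE Y) (by linarith) 0 (by simpa using hρ)
    rw [toLp_horE, add_zero] at h3
    refine ⟨h2, h3.1, ?_, h3.2⟩
    have h4 : |ver Y| ≤ |ver Y0| + |ver Y - ver Y0| := by
      have := abs_add_le (ver Y0) (ver Y - ver Y0)
      rwa [add_sub_cancel] at this
    linarith [h1.2]
  have hpar : ∀ x : HG.E d, c.par 0 x = c.T (emb (x, c.ψ x)) := fun x => by
    unfold Chart.par
    rw [add_zero]
  have hsubset : frontier D ∩ Metric.ball (c.T Y0) δ ⊆ c.par 0 '' Metric.ball x0 ρ' := by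
    rintro P ⟨hPf, hPb⟩
    obtain ⟨Y, rfl⟩ := c.T.surjective P
    rw [Metric.mem_ball, dist_eq_norm, hT] at hPb
    obtain ⟨k1, k2, k3, k4⟩ := hclose Y (by linarith)
    have k5 := (c.frontier_iff k2 k3).1 hPf
    refine ⟨horE Y, by rw [Metric.mem_ball, dist_eq_norm]; exact k1, ?_⟩
    rw [hpar]
    have k6 : c.ψ (horE Y) = ver Y := by rw [k5]; rfl
    rw [k6, emb_horE]
  have hgm : Measurable fun P : W (d + 1) => g' (horE (c.T.symm P)) :=
    hg'm.comp ((continuous_horE.comp c.T.symm.continuous).measurable)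
  refine ⟨δ, hδpos, ?_, fun P => g' (horE (c.T.symm P)), hgm, ?_, ?_⟩
  · have h1 := hKle (Metric.ball x0 ρ') measurableSet_ball (fun _ => 1) measurable_const
    rw [lintegral_one, lintegral_one, Measure.restrict_apply_univ, Measure.restrict_apply_univ] at h1
    refine ne_top_of_le_ne_top ?_ ((measure_mono hsubset).trans h1)
    exact ENNReal.mul_ne_top hK (measure_ball_lt_top.ne)
  · intro P hPf hP Q hQ hQP hball
    obtain ⟨Y, rfl⟩ := c.T.surjective P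
    obtain ⟨Z, rfl⟩ := c.T.surjective Q
    rw [hT] at hP hQP hball
    obtain ⟨k1, k2, k3, k4⟩ := hclose Y (by linarith)
    have k5 := (c.frontier_iff k2 k3).1 hPf
    have k6 : c.ψ (horE Y) = ver Y := by rw [k5]; rfl
    have hZ : ‖Z - Y0‖ < 2 * δ := by
      have : Z - Y0 = (Z - Y) + (Y - Y0) := by abel
      rw [this]
      refine (norm_add_le _ _).trans_lt ?_
      linarith
    obtain ⟨m1, m2, m3, m4⟩ := hclose Z hZ
    have m5 := (c.dom Z m2 m3).1 hQ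
    set X : HG.P d := (horE Z, ver Z) with hX
    have hXZ : emb X = Z := emb_horE Z
    have hYe : emb (HG.gpt c.ψ (horE Y)) = Y := by
      unfold HG.gpt
      rw [k6, emb_horE]
    have hab : X ∈ HG.above c.ψ := m5
    have hnorm : ‖X - HG.gpt c.ψ (horE Y)‖ ≤ ‖Z - Y‖ := by
      have := (norm_le_emb (X - HG.gpt c.ψ (horE Y))).1
      rwa [emb_sub, hXZ, hYe] at this
    -- the point of the graph below `Z`
    have hnot : c.T (emb (X.1, c.ψ X.1)) ∉ D := by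
      rw [c.dom (emb (X.1, c.ψ X.1)) (by rw [hor_emb]; exact m2) (by rw [ver_emb]; exact m4),
        hor_emb, ver_emb]
      exact lt_irrefl _
    have hfar : b * ‖Z - Y‖ ≤ X.2 - c.ψ X.1 := by
      by_contra hcon
      push Not at hcon
      apply hnot
      apply hball
      rw [Metric.mem_ball, dist_eq_norm, hT, ← hXZ]
      have : emb X = emb (X.1, X.2) := rfl
      rw [this, norm_emb_vert, abs_sub_comm, abs_of_pos (sub_pos.2 hab)]
      rw [← this, hXZ]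
      exact hcon
    have hcone : ‖X.1 - horE Y‖ ≤ 1 / b * (X.2 - c.ψ X.1) := by
      have h1 : ‖X.1 - horE Y‖ ≤ ‖Z - Y‖ := (norm_horE_sub_le Z Y).1
      rw [one_div, inv_mul_eq_div, le_div_iff₀ hb]
      calc ‖X.1 - horE Y‖ * b ≤ ‖Z - Y‖ * b := mul_le_mul_of_nonneg_right h1 hb.le
        _ = b * ‖Z - Y‖ := mul_comm _ _
        _ ≤ _ := hfar
    have hmain := hg' (horE Y) k1 X hab (by linarith) hcone
    have hgc := (grad_compare c.T u X).2
    rw [hXZ] at hgc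
    simp only [c.T.symm_apply_apply]
    calc ‖gradient u (c.T Z)‖ₑ = ENNReal.ofReal ‖gradient u (c.T Z)‖ := (ofReal_norm _).symm
      _ ≤ ENNReal.ofReal (HG.nF (HG.gr (fun Z => u (c.T (emb Z)))) X) :=
        ENNReal.ofReal_le_ofReal hgc
      _ ≤ g' (horE Y) := hmain
  · have h1 := hKle (Metric.ball x0 ρ') measurableSet_ball _ hgm
    have h2 : ∀ x : HG.E d, g' (horE (c.T.symm (c.par 0 x))) = g' x := fun x => by
      rw [hpar, c.T.symm_apply_apply, horE_emb]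
    simp only [h2] at h1
    refine ne_top_of_le_ne_top ?_ ((lintegral_mono_set hsubset).trans h1)
    exact ENNReal.mul_ne_top hK hg'int

end NTMax
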