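import Pool.Agent.W_MP_825298_an.Fin1
import Pool.Agent.W_MP_825298_an.Fin5

open MeasureTheory Set Filter Topology
open scoped ENNReal NNReal BigOperators

namespace NTMax
variable {d : ℕ}

/-- The gradient of a harmonic function is bounded on the points of `D` which are at distance at least `ρ` from the complement of `D`. -/
theorem Fin6_bound {n : ℕ} {D : Set (W n)} (hDb : Bornology.IsBounded D) {u : W n → ℝ}
    (hu : InnerProductSpace.HarmonicOnNhd u D) {ρ : ℝ} (hρ : 0 < ρ) :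
    ∃ C : ℝ, ∀ Q : W n, Metric.ball Q ρ ⊆ D → ‖gradient u Q‖ ≤ C := by
  have hK : IsCompact ((Metric.thickening ρ Dᶜ)ᶜ ∩ closure D) :=
    Metric.isCompact_of_isClosed_isBounded
      (Metric.isOpen_thickening.isClosed_compl.inter isClosed_closure)
      (hDb.closure.subset inter_subset_right)
  have hKD : (Metric.thickening ρ Dᶜ)ᶜ ∩ closure D ⊆ D := by
    rintro Q ⟨h1, -⟩
    by_contra h2
    exact h1 (Metric.self_subset_thickening hρ _ h2)
  have hc : ContinuousOn (gradient u) ((Metric.thickening ρ Dᶜ)ᶜ ∩ closure D) := by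
    intro Q hQ
    have h1 : ContDiffAt ℝ 2 u Q := (hu Q (hKD hQ)).1
    have h2 : ContDiffAt ℝ 1 (fderiv ℝ u) Q := h1.fderiv_right (by norm_num)
    refine ContinuousAt.continuousWithinAt ?_
    exact (InnerProductSpace.toDual ℝ (W n)).symm.continuous.continuousAt.comp h2.continuousAt
  obtain ⟨C, hC⟩ := hK.exists_bound_of_continuousOn hc
  refine ⟨C, fun Q hQ => hC Q ⟨?_, subset_closure (hQ (Metric.mem_ball_self hρ))⟩⟩
  intro h
  obtain ⟨z, hz, hzQ⟩ := Metric.mem_thickening_iff.1 h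
  exact hz (hQ (by rw [Metric.mem_ball, dist_comm]; exact hzQ))

/-- FINAL THEOREM. `regular_nontangential` gives `b`; for every boundary point `Chart.local_max` gives `δ, g`; compactness of `frontier D` gives finitely
many of them; `δ` = the minimum; for `Q ∈ Γ P` with `‖Q-P‖ < δ` use the local majorant, otherwise `ball Q (b δ) ⊆ D`, and on the compact set
`{Q | ball Q (b δ) ⊆ D} ∩ closure D` (contained in `D`) `‖∇u‖` is bounded. `g = const + ∑ indicator (ball) g_i`. -/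
theorem nontangential_L1 (hd : 3 ≤ d) (D : Set (W (d + 1))) (hD : IsOpen D) (hDb : Bornology.IsBounded D)
    {ι : Type*} [Finite ι] (c : ι → Chart D) (hcov : frontier D ⊆ ⋃ i, (c i).cyl)
    (u : W (d + 1) → ℝ) (hu : InnerProductSpace.HarmonicOnNhd u D)
    (hstar : ∀ i, ∃ ε0 : ℝ, 0 < ε0 ∧ ∃ A : ℝ≥0∞, A ≠ ⊤ ∧ ∀ ε : ℝ, 0 < ε → ε < ε0 →
      ∫⁻ Q in (c i).surf ε, ‖gradient u Q‖ₑ ∂(Measure.hausdorffMeasure (d : ℝ)) ≤ A)
    (Γ : W (d + 1) → Set (W (d + 1))) (hΓ : IsRegularFamily D Γ) :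
    ∃ g : W (d + 1) → ℝ≥0∞, Measurable g ∧ (∀ P ∈ frontier D, ⨆ Q ∈ Γ P, ‖gradient u Q‖ₑ ≤ g P) ∧
      ∫⁻ P in frontier D, g P ∂(Measure.hausdorffMeasure (d : ℝ)) < ⊤ := by
  classical
  obtain ⟨b, hb, hnt⟩ := regular_nontangential hDb hΓ
  set μ : Measure (W (d + 1)) := Measure.hausdorffMeasure (d : ℝ) with hμ
  have hloc : ∀ P0 : W (d + 1), ∃ δ : ℝ, ∃ g : W (d + 1) → ℝ≥0∞, P0 ∈ frontier D →
      0 < δ ∧ μ (frontier D ∩ Metric.ball P0 δ) ≠ ⊤ ∧ Measurable g ∧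
      (∀ P ∈ frontier D, ‖P - P0‖ < δ → ∀ Q ∈ D, ‖Q - P‖ < δ → Metric.ball Q (b * ‖Q - P‖) ⊆ D →
        ‖gradient u Q‖ₑ ≤ g P) ∧
      ∫⁻ P in frontier D ∩ Metric.ball P0 δ, g P ∂μ ≠ ⊤ := by
    intro P0
    by_cases hP0 : P0 ∈ frontier D
    · obtain ⟨i, hi⟩ := mem_iUnion.1 (hcov hP0)
      obtain ⟨ε0, hε0, A, hA, hA'⟩ := hstar i
      obtain ⟨δ, hδ, h1, g, h2, h3, h4⟩ := (c i).local_max hd hu hε0 hA hA' hb hP0 hi
      exact ⟨δ, g, fun _ => ⟨hδ, h1, h2, h3, h4⟩⟩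
    · exact ⟨0, 0, fun h => absurd h hP0⟩
  choose δ g hg using hloc
  have hcomp : IsCompact (frontier D) :=
    Metric.isCompact_of_isClosed_isBounded isClosed_frontier
      (hDb.closure.subset frontier_subset_closure)
  obtain ⟨t, ht, hcover⟩ := hcomp.elim_nhds_subcover (fun P0 => Metric.ball P0 (δ P0))
    (fun P0 hP0 => Metric.ball_mem_nhds P0 (hg P0 hP0).1)
  -- a uniform radius
  obtain ⟨ρ, hρ, hρt⟩ : ∃ ρ : ℝ, 0 < ρ ∧ ∀ P0 ∈ t, ρ ≤ δ P0 := by
    rcases t.eq_empty_or_nonempty with h | h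
    · exact ⟨1, one_pos, fun P0 hP0 => by simp [h] at hP0⟩
    · refine ⟨t.inf' h δ, ?_, fun P0 hP0 => Finset.inf'_le _ hP0⟩
      rw [Finset.lt_inf'_iff]
      exact fun P0 hP0 => (hg P0 (ht P0 hP0)).1
  obtain ⟨C, hC⟩ := Fin6_bound hDb hu (mul_pos hb hρ)
  refine ⟨fun P => ENNReal.ofReal C + ∑ P0 ∈ t, (Metric.ball P0 (δ P0)).indicator (g P0) P, ?_, ?_, ?_⟩
  · have hm : Measurable fun P => ∑ P0 ∈ t, (Metric.ball P0 (δ P0)).indicator (g P0) P :=
      Finset.measurable_fun_sum t fun P0 hP0 =>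
        (hg P0 (ht P0 hP0)).2.2.1.indicator measurableSet_ball
    exact hm.const_add _
  · intro P hP
    refine iSup₂_le fun Q hQ => ?_
    obtain ⟨hne, hball⟩ := hnt P hP Q hQ
    have hpos : 0 < ‖Q - P‖ := norm_pos_iff.2 (sub_ne_zero.2 hne)
    have hQD : Q ∈ D := hball (Metric.mem_ball_self (mul_pos hb hpos))
    rcases lt_or_ge ‖Q - P‖ ρ with hlt | hge
    · obtain ⟨P0, hP0, hPP0⟩ := mem_iUnion₂.1 (hcover hP)
      have h1 : ‖gradient u Q‖ₑ ≤ g P0 P :=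
        (hg P0 (ht P0 hP0)).2.2.2.1 P hP (by rw [← dist_eq_norm]; exact hPP0) Q hQD
          (hlt.trans_le (hρt P0 hP0)) hball
      refine h1.trans ?_
      refine le_trans ?_ le_add_self
      refine le_trans ?_ (Finset.single_le_sum (f := fun P0 => (Metric.ball P0 (δ P0)).indicator (g P0) P)
        (fun _ _ => bot_le) hP0)
      rw [indicator_of_mem hPP0]
    · have h1 : ‖gradient u Q‖ ≤ C := hC Q ((Metric.ball_subset_ball
        (mul_le_mul_of_nonneg_left hge hb.le)).trans hball)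
      refine le_trans ?_ le_self_add
      rw [← ofReal_norm]
      exact ENNReal.ofReal_le_ofReal h1
  · have hfin : μ (frontier D) < ⊤ := by
      have h1 : frontier D ⊆ ⋃ P0 ∈ t, (frontier D ∩ Metric.ball P0 (δ P0)) := by
        intro P hP
        obtain ⟨P0, hP0, hPP0⟩ := mem_iUnion₂.1 (hcover hP)
        exact mem_iUnion₂.2 ⟨P0, hP0, hP, hPP0⟩
      refine (measure_mono h1).trans_lt ((measure_biUnion_finset_le t _).trans_lt ?_)
      exact ENNReal.sum_lt_top.2 fun P0 hP0 => (hg P0 (ht P0 hP0)).2.1.lt_top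
    rw [lintegral_add_left measurable_const, setLIntegral_const,
      lintegral_finsetSum' t fun P0 hP0 =>
        ((hg P0 (ht P0 hP0)).2.2.1.indicator measurableSet_ball).aemeasurable]
    refine ENNReal.add_lt_top.2 ⟨ENNReal.mul_lt_top ENNReal.ofReal_lt_top hfin, ?_⟩
    refine ENNReal.sum_lt_top.2 fun P0 hP0 => ?_
    rw [setLIntegral_indicator measurableSet_ball, inter_comm]
    exact (hg P0 (ht P0 hP0)).2.2.2.2.lt_top

end NTMax
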