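import Mathlib

/-!
# MP_825298_an: definitions used in the final statement (helper94)

Bounded Lipschitz domains given by coordinate cylinders, translates of the boundary, regular families of cones.
-/

open MeasureTheory Set Filter Topology
open scoped ENNReal NNReal BigOperators

namespace NTMax

/-- Euclidean space `ℝ^n` -/
abbrev W (n : ℕ) := EuclideanSpace ℝ (Fin n)

variable {d : ℕ}

/-- the first `d` coordinates of a point of `ℝ^(d+1)` -/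
noncomputable def hor (Y : W (d + 1)) : W d := WithLp.toLp 2 (fun i : Fin d => Y (Fin.castSucc i))

/-- the last coordinate of a point of `ℝ^(d+1)` -/
def ver (Y : W (d + 1)) : ℝ := Y (Fin.last d)

/-- A Lipschitz coordinate cylinder for the set `D ⊆ ℝ^(d+1)`: in the coordinates `Y = T⁻¹ Q` (`T` a rigid motion)
the part of `D` in the cylinder `{‖hor Y‖ < r, |ver Y| < h}` is the part above the graph of the Lipschitz function `φ`. -/
structure Chart (D : Set (W (d + 1))) where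
  T : W (d + 1) ≃ᵢ W (d + 1)
  r : ℝ
  h : ℝ
  L : ℝ≥0
  φ : W d → ℝ
  r_pos : 0 < r
  h_pos : 0 < h
  lip : LipschitzWith L φ
  dom : ∀ Y : W (d + 1), ‖hor Y‖ < r → |ver Y| < h → (T Y ∈ D ↔ φ (hor Y) < ver Y)

/-- the (open) cylinder of a chart -/
def Chart.cyl {D : Set (W (d + 1))} (c : Chart D) : Set (W (d + 1)) :=
  c.T '' {Y | ‖hor Y‖ < c.r ∧ |ver Y| < c.h}

/-- the part in the cylinder of the translate by `ε` of the boundary of `D` -/
def Chart.surf {D : Set (W (d + 1))} (c : Chart D) (ε : ℝ) : Set (W (d + 1)) :=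
  c.T '' {Y | ‖hor Y‖ < c.r ∧ |ver Y| < c.h ∧ ver Y = c.φ (hor Y) + ε}

/-- (Truncated) open cones with vertex `0`: an open subset `Γ` of an open cone `K` which is star-shaped with respect to `0`
and coincides with `K` near `0`. -/
def IsCone {n : ℕ} (Γ : Set (W n)) : Prop :=
  ∃ K : Set (W n), IsOpen K ∧ K.Nonempty ∧ (∀ X ∈ K, ∀ t : ℝ, 0 < t → t • X ∈ K) ∧
    IsOpen Γ ∧ Γ ⊆ K ∧ (∀ X ∈ Γ, ∀ t : ℝ, 0 < t → t ≤ 1 → t • X ∈ Γ) ∧
    ∃ ρ : ℝ, 0 < ρ ∧ K ∩ Metric.ball 0 ρ ⊆ Γ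

/-- Regular families of cones for `D`. -/
def IsRegularFamily {n : ℕ} (D : Set (W n)) (Γ : W n → Set (W n)) : Prop :=
  ∃ (m : ℕ) (S Γ₁ Γ₂ Γ₃ : Fin m → Set (W n)), frontier D ⊆ ⋃ i, S i ∧
    ∀ i, IsCone (Γ₁ i) ∧ IsCone (Γ₂ i) ∧ IsCone (Γ₃ i) ∧ closure (Γ₂ i) \ {0} ⊆ Γ₃ i ∧
      ∀ P ∈ frontier D ∩ S i,
        (∀ X ∈ Γ₁ i, P + X ∈ Γ P) ∧ (∀ Q ∈ Γ P, Q - P ∈ closure (Γ₂ i) \ {0}) ∧ (∀ X ∈ Γ₃ i, P + X ∈ D)

end NTMax
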