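import Pool.Agent.W_MP_825298_an.TBDefs
import Pool.Agent.W_MP_825298_an.CertAlg5

open MeasureTheory Set Filter Topology
open scoped ENNReal NNReal BigOperators

namespace HG
variable {d : ℕ}

/-- the integrand of `Wf`, cut off, is jointly measurable -/
theorem GA1_meas_aux {M : ℝ≥0} {φ : E d → ℝ} (hφ : LipschitzWith M φ) {U : Set (P d)} (hDU : aboveC φ ⊆ U)
    {F : Ix d → P d → ℝ} (hF : ∀ a, ContinuousOn (F a) U) (R : ℝ) :
    Measurable (fun p : E d × ℝ => (Ioc (0 : ℝ) R).indicator (fun τ : ℝ =>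
      ENNReal.ofReal (τ ^ (-(1 / 2) : ℝ)) * ENNReal.ofReal (nF F (p.1, φ p.1 + τ))) p.2) := by
  classical
  have hS : MeasurableSet {p : E d × ℝ | p.2 ∈ Ioc (0 : ℝ) R} := measurableSet_Ioc.preimage measurable_snd
  have hmap : Continuous (fun p : E d × ℝ => ((p.1, φ p.1 + p.2) : P d)) :=
    continuous_fst.prodMk ((hφ.continuous.comp continuous_fst).add continuous_snd)
  have hcont : ContinuousOn (fun p : E d × ℝ => nF F (p.1, φ p.1 + p.2))
      {p : E d × ℝ | p.2 ∈ Ioc (0 : ℝ) R} := by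
    unfold nF
    refine continuousOn_finsetSum _ fun a _ => ?_
    refine ContinuousOn.abs ?_
    refine (hF a).comp hmap.continuousOn fun p hp => hDU ?_
    have : 0 < p.2 := hp.1
    show φ p.1 ≤ φ p.1 + p.2
    linarith
  have h1 : Measurable (({p : E d × ℝ | p.2 ∈ Ioc (0 : ℝ) R}).piecewise
      (fun p : E d × ℝ => nF F (p.1, φ p.1 + p.2)) (fun _ => 0)) :=
    hcont.measurable_piecewise continuousOn_const hS
  have h2 : Measurable (({p : E d × ℝ | p.2 ∈ Ioc (0 : ℝ) R}).indicator (fun p : E d × ℝ =>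
      ENNReal.ofReal (p.2 ^ (-(1 / 2) : ℝ)) * ENNReal.ofReal
        ((({p : E d × ℝ | p.2 ∈ Ioc (0 : ℝ) R}).piecewise
      (fun p : E d × ℝ => nF F (p.1, φ p.1 + p.2)) (fun _ => 0)) p))) := by
    refine Measurable.indicator ?_ hS
    exact ((measurable_snd.pow_const _).ennreal_ofReal).mul h1.ennreal_ofReal
  refine (congrArg Measurable (funext fun p => ?_)).mpr h2
  by_cases hp : p.2 ∈ Ioc (0 : ℝ) R
  · rw [indicator_of_mem (show p ∈ {p : E d × ℝ | p.2 ∈ Ioc (0 : ℝ) R} from hp),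
      indicator_of_mem hp]
    congr 2
    have hp' : p ∈ {p : E d × ℝ | p.2 ∈ Ioc (0 : ℝ) R} := hp
    exact (piecewise_eq_of_mem _ (fun p : E d × ℝ => nF F (p.1, φ p.1 + p.2)) (fun _ => 0) hp').symm
  · rw [indicator_of_notMem (show p ∉ {p : E d × ℝ | p.2 ∈ Ioc (0 : ℝ) R} from hp),
      indicator_of_notMem hp]

/-- `Wf` is measurable in `x` for every `r` (for `r ≤ 0` it is `0`). `(y,τ) ↦ nF F (y, φ y+τ)` is continuous on `τ > 0`
(`F` is continuous on `U ⊇ aboveC φ`); `∫⁻_{closedBall x R} G = ∫⁻ 1_{‖y-x‖≤R} G(y)`, `Measurable.lintegral_prod_right`. -/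
theorem Wf_measurable {M : ℝ≥0} {φ : E d → ℝ} (hφ : LipschitzWith M φ) {U : Set (P d)} (hDU : aboveC φ ⊆ U)
    {F : Ix d → P d → ℝ} (hF : ∀ a, ContinuousOn (F a) U) (c r : ℝ) : Measurable (fun x => Wf φ F c x r) := by
  unfold Wf
  refine Measurable.const_mul ?_ _
  have hG : Measurable (fun y : E d => ∫⁻ τ in Ioc (0 : ℝ) (c * r),
      ENNReal.ofReal (τ ^ (-(1 / 2) : ℝ)) * ENNReal.ofReal (nF F (y, φ y + τ))) := by
    have h1 := (GA1_meas_aux hφ hDU hF (c * r)).lintegral_prod_right' (ν := (volume : Measure ℝ))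
    refine (congrArg Measurable (funext fun y => ?_)).mpr h1
    exact (lintegral_indicator measurableSet_Ioc _).symm
  have hS : MeasurableSet {p : E d × E d | p.2 ∈ Metric.closedBall p.1 (c * r)} := by
    have : {p : E d × E d | p.2 ∈ Metric.closedBall p.1 (c * r)} =
        {p : E d × E d | dist p.2 p.1 ≤ c * r} := rfl
    rw [this]
    exact measurableSet_le (measurable_snd.dist measurable_fst) measurable_const
  have h2 : Measurable (({p : E d × E d | p.2 ∈ Metric.closedBall p.1 (c * r)}).indicator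
      (fun p : E d × E d => ∫⁻ τ in Ioc (0 : ℝ) (c * r),
      ENNReal.ofReal (τ ^ (-(1 / 2) : ℝ)) * ENNReal.ofReal (nF F (p.2, φ p.2 + τ)))) :=
    (hG.comp measurable_snd).indicator hS
  have h3 := h2.lintegral_prod_right' (ν := (volume : Measure (E d)))
  refine (congrArg Measurable (funext fun x => ?_)).mpr h3
  rw [← lintegral_indicator Metric.isClosed_closedBall.measurableSet]
  rfl

/-- Growth: `closedBall x' (c r/2) ⊆ closedBall x (c r)` for `c ≥ 2`, `(r/2)^{-(d+1/2)} ≤ 2^{d+1} r^{-(d+1/2)}`. -/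
theorem Wf_growth (φ : E d → ℝ) (F : Ix d → P d → ℝ) {c : ℝ} (hc : 2 ≤ c) (x x' : E d) {r : ℝ} (hr : 0 < r)
    (hx : ‖x' - x‖ ≤ r) : Wf φ F c x' (r / 2) ≤ ((2 ^ (d + 1) : ℝ≥0) : ℝ≥0∞) * Wf φ F c x r := by
  unfold Wf
  rw [← mul_assoc]
  have hcr : c * (r / 2) ≤ c * r := by nlinarith
  have h1 : ENNReal.ofReal ((r / 2) ^ (-((d : ℝ) + 1 / 2))) ≤
      ((2 ^ (d + 1) : ℝ≥0) : ℝ≥0∞) * ENNReal.ofReal (r ^ (-((d : ℝ) + 1 / 2))) := by
    have e0 : ((2 ^ (d + 1) : ℝ≥0) : ℝ≥0∞) = ENNReal.ofReal (2 ^ (d + 1)) := by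
      rw [ENNReal.ofReal]
      congr 1
      ext
      rw [Real.coe_toNNReal _ (by positivity)]
      push_cast
      rfl
    rw [e0, ← ENNReal.ofReal_mul (by positivity)]
    refine ENNReal.ofReal_le_ofReal ?_
    have e1 : (r / 2) ^ (-((d : ℝ) + 1 / 2)) = r ^ (-((d : ℝ) + 1 / 2)) * 2 ^ ((d : ℝ) + 1 / 2) := by
      rw [Real.div_rpow hr.le (by norm_num), Real.rpow_neg (by norm_num : (0 : ℝ) ≤ 2), div_inv_eq_mul]
    have e2 : (2 : ℝ) ^ ((d : ℝ) + 1 / 2) ≤ 2 ^ (d + 1) := by
      rw [← Real.rpow_natCast 2 (d + 1)]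
      refine Real.rpow_le_rpow_of_exponent_le (by norm_num) ?_
      push_cast
      linarith
    rw [e1, mul_comm]
    exact mul_le_mul_of_nonneg_right e2 (Real.rpow_nonneg hr.le _)
  refine mul_le_mul' h1 ?_
  have hsub : Metric.closedBall x' (c * (r / 2)) ⊆ Metric.closedBall x (c * r) := by
    refine Metric.closedBall_subset_closedBall' ?_
    rw [dist_eq_norm]
    nlinarith
  refine (lintegral_mono_set hsub).trans ?_
  refine lintegral_mono fun y => ?_
  exact lintegral_mono_set (Ioc_subset_Ioc_right hcr)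

/-- Measurability of the averages for every `r`: `(x,y) ↦ pk y • h (x + r • y)` is jointly (strongly) measurable for measurable `h`
with values in a second countable space (`StronglyMeasurable.integral_prod_right`); `pk` is continuous. -/
theorem avg_enorm_measurable {h : E d → VV d} (hh : Measurable h) (hp : Measurable (pk (d := d))) (r : ℝ) :
    Measurable (fun x => ‖avg h x r‖ₑ) := by
  have h1 : Measurable (fun p : E d × E d => pk p.2 • h (p.1 + r • p.2)) :=
    (hp.comp measurable_snd).smul (hh.comp (measurable_fst.add (measurable_snd.const_smul r)))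
  have h2 : StronglyMeasurable (fun x : E d => ∫ y : E d, pk y • h (x + r • y)) :=
    h1.stronglyMeasurable.integral_prod_right' (ν := (volume : Measure (E d)))
  exact h2.measurable.enorm

end HG
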