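import Pool.Agent.W_MP_825298_an.Spl1

open MeasureTheory Set Filter Topology
open scoped ENNReal NNReal BigOperators

namespace HG
variable {d : ℕ}

theorem pk_contDiff : ContDiff ℝ 2 (pk (d := d)) := by
  unfold pk
  exact contDiff_prod fun i _ => bs_contDiff.comp (contDiff_apply ℝ ℝ i)

/-- a large coordinate -/
theorem Spl2_exists {y : E d} {c : ℝ} (hc : 0 < c) (hy : c ≤ ‖y‖) : ∃ i, c ≤ |y i| := by
  by_contra h
  push Not at h
  have := (pi_norm_lt_iff hc).2 (fun i => by rw [Real.norm_eq_abs]; exact h i)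
  linarith

theorem pk_zero {y : E d} (hy : 2 ≤ ‖y‖) (hd : 1 ≤ d) : pk y = 0 := by
  obtain ⟨i, hi⟩ := Spl2_exists (by norm_num) hy
  exact Finset.prod_eq_zero (Finset.mem_univ i) (bs_zero hi)

theorem pk_nonneg (y : E d) : 0 ≤ pk y :=
  Finset.prod_nonneg fun i _ => bs_nonneg _

theorem pk_le_one (y : E d) : pk y ≤ 1 :=
  Finset.prod_le_one (fun i _ => bs_nonneg _) (fun i _ => bs_le_one _)

theorem pk_lower {y : E d} (hy : ‖y‖ ≤ 1) : (1 / 6 : ℝ) ^ d ≤ pk y := by
  have h : (1 / 6 : ℝ) ^ d = ∏ _i : Fin d, (1 / 6 : ℝ) := by simp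
  rw [h]
  refine Finset.prod_le_prod (fun _ _ => by norm_num) fun i _ => bs_lower ?_
  have := norm_le_pi_norm y i
  rw [Real.norm_eq_abs] at this
  exact this.trans hy

theorem pk_integral : ∫ y : E d, pk y = 1 := by
  unfold pk
  rw [integral_fintype_prod_volume_eq_prod (fun _ : Fin d => bs)]
  simp [bs_integral]

theorem pk_refine (y : E d) : pk y = ∑ k : St d, (2 : ℝ) ^ d * (wt k : ℝ) * pk ((2 : ℝ) • y - kv k) := by
  unfold pk
  have h1 : ∏ i : Fin d, bs (y i) =
      ∏ i : Fin d, ∑ k : Fin 5, 2 * (w5 k : ℝ) * bs (2 * y i - (((k : ℕ) : ℝ) - 2)) :=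
    Finset.prod_congr rfl fun i _ => bs_refine (y i)
  rw [h1, Finset.prod_univ_sum, Fintype.piFinset_univ]
  refine Finset.sum_congr rfl fun k _ => ?_
  rw [Finset.prod_mul_distrib, Finset.prod_mul_distrib]
  simp only [Finset.prod_const, Finset.card_univ, Fintype.card_fin]
  congr 1
  congr 1
  unfold wt
  push_cast
  rfl

theorem Spl2_fderiv (y : E d) (i : Fin d) : fderiv ℝ pk y (Pi.single i 1) =
    deriv bs (y i) * ∏ j ∈ Finset.univ.erase i, bs (y j) := by
  have hd : DifferentiableAt ℝ pk y := (pk_contDiff.differentiable (by norm_num)).differentiableAt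
  have h1 : HasDerivAt (fun t : ℝ => pk (y + t • (Pi.single i 1 : E d)))
      (fderiv ℝ pk y (Pi.single i 1)) 0 := (hd.hasFDerivAt.hasLineDerivAt (Pi.single i 1))
  have hbd : DifferentiableAt ℝ bs (y i) :=
    (bs_contDiff.differentiable (by norm_num)).differentiableAt
  have h2 : HasDerivAt (fun t : ℝ => bs (y i + t) * ∏ j ∈ Finset.univ.erase i, bs (y j))
      (deriv bs (y i) * ∏ j ∈ Finset.univ.erase i, bs (y j)) 0 := by
    refine HasDerivAt.mul_const ?_ _
    have h3 : HasDerivAt bs (deriv bs (y i)) (y i + 0) := by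
      rw [add_zero]; exact hbd.hasDerivAt
    exact h3.comp_const_add (y i) 0
  have h4 : (fun t : ℝ => pk (y + t • (Pi.single i 1 : E d))) =
      fun t : ℝ => bs (y i + t) * ∏ j ∈ Finset.univ.erase i, bs (y j) := by
    funext t
    unfold pk
    rw [← Finset.mul_prod_erase Finset.univ _ (Finset.mem_univ i)]
    congr 1
    · simp
    · refine Finset.prod_congr rfl fun j hj => ?_
      have hji : j ≠ i := Finset.ne_of_mem_erase hj
      simp [Pi.single_apply, hji]
  rw [h4] at h1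
  exact h1.unique h2

theorem Spl2_prod_le (y : E d) (s : Finset (Fin d)) :
    0 ≤ ∏ j ∈ s, bs (y j) ∧ ∏ j ∈ s, bs (y j) ≤ 1 :=
  ⟨Finset.prod_nonneg fun i _ => bs_nonneg _,
    Finset.prod_le_one (fun i _ => bs_nonneg _) (fun i _ => bs_le_one _)⟩

theorem pk_fderiv_le (y : E d) (i : Fin d) : |fderiv ℝ pk y (Pi.single i 1)| ≤ 1 := by
  rw [Spl2_fderiv, abs_mul]
  have h := Spl2_prod_le y (Finset.univ.erase i)
  rw [abs_of_nonneg h.1]
  exact mul_le_one₀ (bs_deriv_le _) h.1 h.2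

theorem pk_edge {y : E d} {η : ℝ} (hη : 0 < η) (hη1 : η ≤ 1) (hy : 2 - η ≤ ‖y‖) (hd : 1 ≤ d) :
    pk y ≤ η ^ 3 ∧ ∀ i : Fin d, |fderiv ℝ pk y (Pi.single i 1)| ≤ η ^ 2 := by
  obtain ⟨i₀, hi₀⟩ := Spl2_exists (by linarith : (0 : ℝ) < 2 - η) hy
  have hedge := bs_edge hη hη1 hi₀
  constructor
  · unfold pk
    rw [← Finset.mul_prod_erase Finset.univ _ (Finset.mem_univ i₀)]
    have h := Spl2_prod_le y (Finset.univ.erase i₀)
    calc bs (y i₀) * ∏ j ∈ Finset.univ.erase i₀, bs (y j) ≤ bs (y i₀) * 1 :=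
          mul_le_mul_of_nonneg_left h.2 (bs_nonneg _)
      _ ≤ η ^ 3 := by rw [mul_one]; exact hedge.1
  · intro i
    rw [Spl2_fderiv, abs_mul]
    have h := Spl2_prod_le y (Finset.univ.erase i)
    rw [abs_of_nonneg h.1]
    by_cases hi : i = i₀
    · subst hi
      calc |deriv bs (y i)| * ∏ j ∈ Finset.univ.erase i, bs (y j) ≤ |deriv bs (y i)| * 1 :=
            mul_le_mul_of_nonneg_left h.2 (abs_nonneg _)
        _ ≤ η ^ 2 := by rw [mul_one]; exact hedge.2
    · have hmem : i₀ ∈ Finset.univ.erase i := Finset.mem_erase.2 ⟨fun h => hi h.symm,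
        Finset.mem_univ _⟩
      have h1 : ∏ j ∈ Finset.univ.erase i, bs (y j) ≤ η ^ 3 := by
        rw [← Finset.mul_prod_erase _ _ hmem]
        have h' := Spl2_prod_le y ((Finset.univ.erase i).erase i₀)
        calc bs (y i₀) * ∏ j ∈ (Finset.univ.erase i).erase i₀, bs (y j) ≤ bs (y i₀) * 1 :=
              mul_le_mul_of_nonneg_left h'.2 (bs_nonneg _)
          _ ≤ η ^ 3 := by rw [mul_one]; exact hedge.1
      have h2 : η ^ 3 ≤ η ^ 2 := pow_le_pow_of_le_one hη.le hη1 (by norm_num)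
      calc |deriv bs (y i)| * ∏ j ∈ Finset.univ.erase i, bs (y j)
          ≤ 1 * ∏ j ∈ Finset.univ.erase i, bs (y j) :=
            mul_le_mul_of_nonneg_right (bs_deriv_le _) h.1
        _ ≤ η ^ 2 := by rw [one_mul]; exact h1.trans h2

end HG
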