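import Pool.Agent.W_MP_825298_an.TBDefs
import Pool.Agent.W_MP_825298_an.CertAlg5
import Pool.Agent.W_MP_825298_an.Spl2
import Pool.Agent.W_MP_825298_an.Ex2

open MeasureTheory Set Filter Topology
open scoped ENNReal NNReal BigOperators

namespace HG
variable {d : ℕ}

theorem GA2_nF_nonneg (F : Ix d → P d → ℝ) (X : P d) : 0 ≤ nF F X :=
  Finset.sum_nonneg fun _ _ => abs_nonneg _

theorem GA2_CF_nonneg {φ : E d → ℝ} {F : Ix d → P d → ℝ} {CF : ℝ}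
    (hdec : ∀ X ∈ aboveC φ, nF F X ≤ CF * (1 + ‖X‖) ^ (-((d : ℝ) + 1))) : 0 ≤ CF := by
  have h3 := hdec ((0, φ 0) : P d) (le_refl (φ 0))
  have h4 := GA2_nF_nonneg F ((0, φ 0) : P d)
  have h5 : 0 < (1 + ‖((0, φ 0) : P d)‖) ^ (-((d : ℝ) + 1)) := by positivity
  by_contra h7
  push Not at h7
  have := mul_neg_of_neg_of_pos h7 h5
  linarith

theorem GA2_dec {φ : E d → ℝ} {F : Ix d → P d → ℝ} {CF : ℝ}
    (hdec : ∀ X ∈ aboveC φ, nF F X ≤ CF * (1 + ‖X‖) ^ (-((d : ℝ) + 1))) (y : E d) {τ : ℝ}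
    (hτ : 0 ≤ τ) : nF F (y, φ y + τ) ≤ CF * (1 + ‖y‖) ^ (-((d : ℝ) + 1)) := by
  have hx : ((y, φ y + τ) : P d) ∈ aboveC φ := by
    change φ y ≤ φ y + τ
    linarith
  have h6 := GA2_CF_nonneg hdec
  refine (hdec _ hx).trans (mul_le_mul_of_nonneg_left ?_ h6)
  have hd0 : (0 : ℝ) ≤ d := Nat.cast_nonneg d
  refine Real.rpow_le_rpow_of_nonpos (by positivity) ?_ (by linarith)
  have := norm_fst_le ((y, φ y + τ) : P d)
  simp only at this
  linarith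

theorem GA2_hb_le {M : ℝ≥0} {φ : E d → ℝ} (hφ : LipschitzWith M φ) {F : Ix d → P d → ℝ} {CF C2 : ℝ}
    (hC2 : 0 < C2) (hhb : ∀ (φ : E d → ℝ), LipschitzWith M φ →
    ∀ (F : Ix d → P d → ℝ) (x : E d), ‖hb φ F x‖ ≤ C2 * nF F (x, φ x))
    (hdec : ∀ X ∈ aboveC φ, nF F X ≤ CF * (1 + ‖X‖) ^ (-((d : ℝ) + 1))) (x : E d) :
    ‖hb φ F x‖ ≤ C2 * (CF * (1 + ‖x‖) ^ (-((d : ℝ) + 1))) := by
  refine (hhb φ hφ F x).trans (mul_le_mul_of_nonneg_left ?_ hC2.le)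
  have := GA2_dec hdec x (le_refl (0 : ℝ))
  rwa [add_zero] at this

/-- The boundary data are integrable: `‖hb‖ ≤ C nF F ≤ C CF (1+‖x‖)^{-(d+1)}` (`hb_norm_le`, `hb_measurable`). -/
theorem hb_integrable {M : ℝ≥0} {φ : E d → ℝ} (hφ : LipschitzWith M φ) {U : Set (P d)} (hDU : aboveC φ ⊆ U)
    {F : Ix d → P d → ℝ} (hF : ∀ a, ContinuousOn (F a) U) {CF : ℝ}
    (hdec : ∀ X ∈ aboveC φ, nF F X ≤ CF * (1 + ‖X‖) ^ (-((d : ℝ) + 1))) : Integrable (hb φ F) := by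
  obtain ⟨C2, hC2, hhb⟩ := hb_norm_le d M
  have hmeas : AEStronglyMeasurable (hb φ F) volume := (hb_measurable hφ hDU hF).aestronglyMeasurable
  have hr : ((Module.finrank ℝ (E d) : ℕ) : ℝ) < (d : ℝ) + 1 := by
    rw [Module.finrank_fin_fun]
    linarith
  have hint := (integrable_one_add_norm (μ := (volume : Measure (E d))) hr).const_mul (C2 * CF)
  refine hint.mono' hmeas (Filter.Eventually.of_forall fun x => ?_)
  refine (GA2_hb_le hφ hC2 hhb hdec x).trans (le_of_eq ?_)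
  ring

/-- comparison of the weights at nearby points -/
theorem GA2_weight {R : ℝ} (hR : 0 ≤ R) {x z : E d} (h : ‖z - x‖ ≤ R) :
    (1 + ‖z‖) ^ (-((d : ℝ) + 1)) ≤ (1 + R) ^ ((d : ℝ) + 1) * (1 + ‖x‖) ^ (-((d : ℝ) + 1)) := by
  have hx : 0 < 1 + ‖x‖ := by positivity
  have hz : 0 < 1 + ‖z‖ := by positivity
  have hp : (0 : ℝ) ≤ (d : ℝ) + 1 := by positivity
  have h1 : 1 + ‖x‖ ≤ (1 + R) * (1 + ‖z‖) := by
    have h2 : ‖x‖ ≤ ‖z‖ + ‖z - x‖ := by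
      have := norm_sub_norm_le x z
      rw [norm_sub_rev] at this
      linarith
    nlinarith [norm_nonneg z]
  have h3 : (1 + ‖x‖) ^ ((d : ℝ) + 1) ≤ (1 + R) ^ ((d : ℝ) + 1) * (1 + ‖z‖) ^ ((d : ℝ) + 1) := by
    rw [← Real.mul_rpow (by linarith) hz.le]
    exact Real.rpow_le_rpow hx.le h1 hp
  rw [Real.rpow_neg hz.le, Real.rpow_neg hx.le, inv_le_iff_one_le_mul₀ (by positivity)]
  have h4 : 0 < (1 + ‖x‖) ^ ((d : ℝ) + 1) := by positivity
  rw [mul_assoc, mul_comm, mul_assoc, ← div_eq_inv_mul, le_div_iff₀ h4, one_mul, mul_comm]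
  exact h3

theorem GA2_lint_pk (hd : 1 ≤ d) : ∫⁻ y : E d, ENNReal.ofReal (pk y) = 1 := by
  have hcs : HasCompactSupport (pk (d := d)) := by
    refine HasCompactSupport.intro (isCompact_closedBall (0 : E d) 2) ?_
    intro y hy
    rw [mem_closedBall_zero_iff, not_le] at hy
    exact pk_zero hy.le hd
  have hint : Integrable (pk (d := d)) :=
    pk_contDiff.continuous.integrable_of_hasCompactSupport hcs
  rw [← ofReal_integral_eq_lintegral_ofReal hint (Eventually.of_forall fun y => pk_nonneg y),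
    pk_integral, ENNReal.ofReal_one]

/-- bound of an average by a bound of the function -/
theorem GA2_avg_le (hd : 1 ≤ d) {h : E d → VV d} {X : E d} {ρ : ℝ} (hρ : 0 ≤ ρ) {S : ℝ≥0∞}
    (hS : ∀ z, ‖z - X‖ ≤ 2 * ρ → ‖h z‖ₑ ≤ S) : ‖avg h X ρ‖ₑ ≤ S := by
  unfold avg
  refine (enorm_integral_le_lintegral_enorm _).trans ?_
  calc ∫⁻ y : E d, ‖pk y • h (X + ρ • y)‖ₑ ≤ ∫⁻ y : E d, ENNReal.ofReal (pk y) * S := by
        refine lintegral_mono fun y => ?_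
        rw [enorm_smul, Real.enorm_eq_ofReal (pk_nonneg y)]
        by_cases hy : ‖y‖ ≤ 2
        · refine mul_le_mul_right (hS _ ?_) _
          rw [add_sub_cancel_left, norm_smul, Real.norm_of_nonneg hρ]
          nlinarith
        · push Not at hy
          rw [pk_zero hy.le hd, ENNReal.ofReal_zero, zero_mul, zero_mul]
    _ = S := by
        rw [lintegral_mul_const _ (pk_contDiff.continuous.measurable.ennreal_ofReal),
          GA2_lint_pk hd, one_mul]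

theorem GA2_lint_tau {a : ℝ} (ha : 0 ≤ a) :
    ∫⁻ τ in Ioc (0 : ℝ) a, ENNReal.ofReal (τ ^ (-(1 / 2) : ℝ)) = ENNReal.ofReal (2 * a ^ (1 / 2 : ℝ)) := by
  have h1 : IntervalIntegrable (fun τ : ℝ => τ ^ (-(1 / 2) : ℝ)) volume 0 a :=
    intervalIntegral.intervalIntegrable_rpow' (by norm_num)
  have h2 : IntegrableOn (fun τ : ℝ => τ ^ (-(1 / 2) : ℝ)) (Ioc 0 a) :=
    (intervalIntegrable_iff_integrableOn_Ioc_of_le ha).1 h1
  rw [← ofReal_integral_eq_lintegral_ofReal h2]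
  · congr 1
    rw [← intervalIntegral.integral_of_le ha, integral_rpow (Or.inl (by norm_num))]
    have h3 : (-(1 / 2) : ℝ) + 1 = 1 / 2 := by norm_num
    rw [h3, Real.zero_rpow (by norm_num)]
    ring
  · refine (ae_restrict_iff' measurableSet_Ioc).2 (Eventually.of_forall fun τ hτ => ?_)
    exact Real.rpow_nonneg hτ.1.le _

/-- bound of the box functional by a bound of the field -/
theorem GA2_Wf_le (φ : E d → ℝ) (F : Ix d → P d → ℝ) {c : ℝ} (hc : 0 < c) (X : E d) {ρ : ℝ} (hρ : 0 < ρ)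
    {S : ℝ} (hS0 : 0 ≤ S) (hS : ∀ y τ, ‖y - X‖ ≤ c * ρ → 0 ≤ τ → nF F (y, φ y + τ) ≤ S) :
    Wf φ F c X ρ ≤ ENNReal.ofReal ((2 * c) ^ d * (2 * c ^ (1 / 2 : ℝ)) * S) := by
  have hcρ : 0 ≤ c * ρ := by positivity
  unfold Wf
  have h1 : (∫⁻ y in Metric.closedBall X (c * ρ), ∫⁻ τ in Ioc (0 : ℝ) (c * ρ),
      ENNReal.ofReal (τ ^ (-(1 / 2) : ℝ)) * ENNReal.ofReal (nF F (y, φ y + τ))) ≤
      ∫⁻ _y in Metric.closedBall X (c * ρ), ENNReal.ofReal (2 * (c * ρ) ^ (1 / 2 : ℝ)) * ENNReal.ofReal S := by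
    refine setLIntegral_mono' Metric.isClosed_closedBall.measurableSet fun y hy => ?_
    rw [mem_closedBall_iff_norm] at hy
    calc (∫⁻ τ in Ioc (0 : ℝ) (c * ρ),
        ENNReal.ofReal (τ ^ (-(1 / 2) : ℝ)) * ENNReal.ofReal (nF F (y, φ y + τ)))
        ≤ ∫⁻ τ in Ioc (0 : ℝ) (c * ρ), ENNReal.ofReal (τ ^ (-(1 / 2) : ℝ)) * ENNReal.ofReal S := by
          refine setLIntegral_mono' measurableSet_Ioc fun τ hτ => ?_
          exact mul_le_mul_right (ENNReal.ofReal_le_ofReal (hS y τ hy hτ.1.le)) _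
      _ = _ := by
          rw [lintegral_mul_const _ (by fun_prop), GA2_lint_tau hcρ]
  refine (mul_le_mul_right h1 _).trans (le_of_eq ?_)
  rw [setLIntegral_const, Real.volume_pi_closedBall X hcρ, Fintype.card_fin,
    ← ENNReal.ofReal_mul (by positivity), ← ENNReal.ofReal_mul (by positivity),
    ← ENNReal.ofReal_mul (by positivity)]
  congr 1
  have e1 : (c * ρ) ^ (1 / 2 : ℝ) = c ^ (1 / 2 : ℝ) * ρ ^ (1 / 2 : ℝ) := Real.mul_rpow hc.le hρ.le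
  have e2 : ρ ^ (-((d : ℝ) + 1 / 2)) * (ρ ^ d * ρ ^ (1 / 2 : ℝ)) = 1 := by
    rw [← Real.rpow_natCast ρ d, ← Real.rpow_add hρ, ← Real.rpow_add hρ, neg_add_cancel, Real.rpow_zero]
  have e3 : (2 * (c * ρ)) ^ d = (2 * c) ^ d * ρ ^ d := by
    rw [← mul_pow]
    congr 1
    ring
  rw [e1, e3]
  calc ρ ^ (-((d : ℝ) + 1 / 2)) * (2 * (c ^ (1 / 2 : ℝ) * ρ ^ (1 / 2 : ℝ)) * S * ((2 * c) ^ d * ρ ^ d))
      = (ρ ^ (-((d : ℝ) + 1 / 2)) * (ρ ^ d * ρ ^ (1 / 2 : ℝ))) *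
          ((2 * c) ^ d * (2 * c ^ (1 / 2 : ℝ)) * S) := by ring
    _ = _ := by rw [e2, one_mul]

/-- A priori majorant along all paths. With `X_l = x + r0 Zp l ω` (`‖Zp‖ ≤ 2`): the points `x'` involved satisfy
`1+‖x‖ ≤ (1 + K r0) (1+‖x'‖)`, so everything is `≤ C' (1+‖x‖)^{-(d+1)}`;
`av ≤ ∫ pk ‖h‖ ≤ sup`, `Wf ≤ r^{-(d+1/2)} (2 c r)^d 2 (c r)^{1/2} sup`. -/
theorem apriori (hd : 1 ≤ d) {M : ℝ≥0} {φ : E d → ℝ} (hφ : LipschitzWith M φ) {U : Set (P d)} (hDU : aboveC φ ⊆ U)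
    {F : Ix d → P d → ℝ} (hF : ∀ a, ContinuousOn (F a) U) {CF : ℝ}
    (hdec : ∀ X ∈ aboveC φ, nF F X ≤ CF * (1 + ‖X‖) ^ (-((d : ℝ) + 1))) {c : ℝ} (hc : 0 < c) {r0 : ℝ} (hr0 : 0 < r0) :
    ∃ g : E d → ℝ≥0∞, Measurable g ∧ ∫⁻ x : E d, g x ≠ ⊤ ∧
      ∀ (x : E d) (ω : ℕ → St d) (l : ℕ), av (avg (hb φ F)) x r0 ω l ≤ g x ∧ wv (Wf φ F c) x r0 ω l ≤ g x := by
  have _ := hDU
  have _ := hF
  obtain ⟨C2, hC2, hhb⟩ := hb_norm_le d M
  have hCF := GA2_CF_nonneg hdec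
  set R : ℝ := (c + 4) * r0 with hR
  have hR0 : 0 ≤ R := by positivity
  set A : ℝ := (1 + R) ^ ((d : ℝ) + 1) with hA
  have hA0 : 0 ≤ A := by positivity
  set K1 : ℝ := C2 * (CF * A) with hK1
  set K2 : ℝ := (2 * c) ^ d * (2 * c ^ (1 / 2 : ℝ)) * (CF * A) with hK2
  have hK10 : 0 ≤ K1 := by positivity
  have hK20 : 0 ≤ K2 := by positivity
  have hcont : Continuous (fun x : E d => (K1 + K2) * (1 + ‖x‖) ^ (-((d : ℝ) + 1))) := by
    refine continuous_const.mul (Continuous.rpow_const (by fun_prop) fun x => Or.inl ?_)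
    positivity
  refine ⟨fun x => ENNReal.ofReal ((K1 + K2) * (1 + ‖x‖) ^ (-((d : ℝ) + 1))),
    hcont.measurable.ennreal_ofReal, ?_, ?_⟩
  · have hr : ((Module.finrank ℝ (E d) : ℕ) : ℝ) < (d : ℝ) + 1 := by
      rw [Module.finrank_fin_fun]
      linarith
    have hint := (integrable_one_add_norm (μ := (volume : Measure (E d))) hr).const_mul (K1 + K2)
    exact hint.lintegral_lt_top.ne
  · intro x ω l
    have hZ : ‖Zp l ω‖ ≤ 2 := by
      refine (norm_Zp_le l ω).trans ?_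
      have : (0 : ℝ) ≤ ((2 : ℝ) ^ l)⁻¹ := by positivity
      linarith
    have hX : ‖(x + r0 • Zp l ω) - x‖ ≤ 2 * r0 := by
      rw [add_sub_cancel_left, norm_smul, Real.norm_of_nonneg hr0.le]
      nlinarith
    have hρ0 : 0 < r0 / 2 ^ l := by positivity
    have hρ1 : r0 / 2 ^ l ≤ r0 := div_le_self hr0.le (one_le_pow₀ (by norm_num))
    have hw0 : 0 ≤ (1 + ‖x‖) ^ (-((d : ℝ) + 1)) := by positivity
    constructor
    · unfold av
      refine GA2_avg_le hd hρ0.le fun z hz => ?_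
      have h1 : ‖z - x‖ ≤ R := by
        have h2 : z - x = (z - (x + r0 • Zp l ω)) + ((x + r0 • Zp l ω) - x) := by abel
        rw [h2]
        refine (norm_add_le _ _).trans ?_
        have : 0 ≤ c * r0 := by positivity
        rw [hR]
        linarith
      rw [← ofReal_norm_eq_enorm]
      refine ENNReal.ofReal_le_ofReal ?_
      calc ‖hb φ F z‖ ≤ C2 * (CF * (1 + ‖z‖) ^ (-((d : ℝ) + 1))) := GA2_hb_le hφ hC2 hhb hdec z
        _ ≤ C2 * (CF * (A * (1 + ‖x‖) ^ (-((d : ℝ) + 1)))) := by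
            have := GA2_weight hR0 h1
            gcongr
        _ = K1 * (1 + ‖x‖) ^ (-((d : ℝ) + 1)) := by rw [hK1]; ring
        _ ≤ (K1 + K2) * (1 + ‖x‖) ^ (-((d : ℝ) + 1)) :=
            mul_le_mul_of_nonneg_right (by linarith) hw0
    · unfold wv
      have hS : ∀ y τ, ‖y - (x + r0 • Zp l ω)‖ ≤ c * (r0 / 2 ^ l) → 0 ≤ τ →
          nF F (y, φ y + τ) ≤ CF * (A * (1 + ‖x‖) ^ (-((d : ℝ) + 1))) := by
        intro y τ hy hτ
        have h1 : ‖y - x‖ ≤ R := by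
          have h2 : y - x = (y - (x + r0 • Zp l ω)) + ((x + r0 • Zp l ω) - x) := by abel
          rw [h2]
          refine (norm_add_le _ _).trans ?_
          have h3 : c * (r0 / 2 ^ l) ≤ c * r0 := mul_le_mul_of_nonneg_left hρ1 hc.le
          rw [hR]
          linarith
        exact (GA2_dec hdec y hτ).trans (mul_le_mul_of_nonneg_left (GA2_weight hR0 h1) hCF)
      refine (GA2_Wf_le φ F hc _ hρ0 (by positivity) hS).trans ?_
      refine ENNReal.ofReal_le_ofReal ?_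
      calc (2 * c) ^ d * (2 * c ^ (1 / 2 : ℝ)) * (CF * (A * (1 + ‖x‖) ^ (-((d : ℝ) + 1))))
          = K2 * (1 + ‖x‖) ^ (-((d : ℝ) + 1)) := by rw [hK2]; ring
        _ ≤ (K1 + K2) * (1 + ‖x‖) ^ (-((d : ℝ) + 1)) :=
            mul_le_mul_of_nonneg_right (by linarith) hw0

end HG
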