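import Pool.Agent.W_MP_825298_an.MVDefs

open MeasureTheory Set Filter Topology
open scoped ENNReal NNReal BigOperators

namespace HG
variable {d : ℕ}

private lemma fwh_cont_mul {O : Set (P d)} {u v : P d → ℝ} (hO : IsOpen O) (hu : ContinuousOn u O)
    (hv : Continuous v) (hvO : tsupport v ⊆ O) : Continuous (fun X => u X * v X) := by
  refine continuous_of_tsupport fun X hX => ?_
  have hXO : X ∈ O := hvO ((closure_mono (Function.support_mul_subset_right u v)) hX)
  exact (hu.continuousAt (hO.mem_nhds hXO)).mul hv.continuousAt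

private lemma fwh_int {O : Set (P d)} {u v : P d → ℝ} (hO : IsOpen O) (hu : ContinuousOn u O)
    (hv : Continuous v) (hc : HasCompactSupport v) (hvO : tsupport v ⊆ O) :
    Integrable (fun X => u X * v X) :=
  (fwh_cont_mul hO hu hv hvO).integrable_of_hasCompactSupport hc.mul_left

private lemma fwh_tsupport_pd {v : P d → ℝ} (c : Ix d) : tsupport (pd c v) ⊆ tsupport v := by
  refine closure_minimal ?_ isClosed_closure
  intro X hX
  by_contra h
  apply hX
  have h0 : v =ᶠ[𝓝 X] fun _ => 0 := notMem_tsupport_iff_eventuallyEq.1 h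
  simp [pd, h0.fderiv_eq]

private lemma fwh_cpt_pd {v : P d → ℝ} (hc : HasCompactSupport v) (c : Ix d) :
    HasCompactSupport (pd c v) :=
  hc.of_isClosed_subset isClosed_closure (fwh_tsupport_pd c)

private lemma fwh_contDiff_pd {v : P d → ℝ} {n m : WithTop ℕ∞} (hv : ContDiff ℝ n v) (hmn : m + 1 ≤ n) (c : Ix d) :
    ContDiff ℝ m (pd c v) :=
  (hv.fderiv_right hmn).clm_apply contDiff_const

private lemma fwh_parts {O : Set (P d)} {u v : P d → ℝ} (hO : IsOpen O) (hu : ContDiffOn ℝ 1 u O)
    (hv : ContDiff ℝ 1 v) (hc : HasCompactSupport v) (hvO : tsupport v ⊆ O) (c : Ix d) :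
    ∫ X, u X * pd c v X = - ∫ X, pd c u X * v X := by
  have hcu : ContinuousOn (pd c u) O :=
    (hu.continuousOn_fderiv_of_isOpen hO le_rfl).clm_apply continuousOn_const
  have hi1 : Integrable (fun X => u X * pd c v X) :=
    fwh_int hO hu.continuousOn ((hv.continuous_fderiv one_ne_zero).clm_apply continuous_const)
      (fwh_cpt_pd hc c) ((fwh_tsupport_pd c).trans hvO)
  have hi2 : Integrable (fun X => pd c u X * v X) := fwh_int hO hcu hv.continuous hc hvO
  have : (volume : Measure (P d)).IsAddHaarMeasure := by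
    change ((volume : Measure (E d)).prod (volume : Measure ℝ)).IsAddHaarMeasure
    infer_instance
  have hi3 : Integrable (fun X => u X * v X) := fwh_int hO hu.continuousOn hv.continuous hc hvO
  exact integral_mul_fderiv_eq_neg_fderiv_mul_of_integrable (μ := (volume : Measure (P d)))
    (f := u) (g := v) (v := eb c) hi2 hi1 hi3
    (fun X hX => (hu.contDiffAt (hO.mem_nhds (hvO hX))).differentiableAt one_ne_zero)
    (fun X _ => hv.contDiffAt.differentiableAt one_ne_zero)

private lemma fwh_symm {v : P d → ℝ} (hv : ContDiff ℝ 2 v) (a b : Ix d) (X : P d) :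
    pd a (pd b v) X = pd b (pd a v) X := by
  have hd : DifferentiableAt ℝ (fderiv ℝ v) X :=
    ((hv.fderiv_right (m := 1) (by norm_num)).differentiable one_ne_zero) X
  have h : ∀ a b : Ix d, pd a (pd b v) X = fderiv ℝ (fderiv ℝ v) X (eb a) (eb b) := by
    intro a b
    unfold pd
    rw [fderiv_clm_apply hd (differentiableAt_const _)]
    simp
  rw [h a b, h b a]
  have hs : IsSymmSndFDerivAt ℝ v X := hv.contDiffAt.isSymmSndFDerivAt (by simp)
  exact hs (eb a) (eb b)

/-- components of fields are weakly harmonic: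
`∫ F_a ∂_b∂_b θ = -∫ ∂_bF_a ∂_bθ = -∫ ∂_aF_b ∂_bθ = ∫ F_b ∂_a∂_bθ`, sum over `b` and integrate by parts again. -/
theorem field_weakHarm {O : Set (P d)} (hO : IsOpen O) {F : Ix d → P d → ℝ} (hF : IsField O F) (a : Ix d) :
    WeakHarm O (F a) := by
  intro θ hθ hc hθO
  have hθ2 : ContDiff ℝ 2 θ := hθ.of_le (by norm_num)
  have hpc : ∀ c, ContDiff ℝ 3 (pd c θ) := fun c => fwh_contDiff_pd hθ (by norm_num) c
  have hpc1 : ∀ c, ContDiff ℝ 1 (pd c θ) := fun c => (hpc c).of_le (by norm_num)
  have hps : ∀ c, tsupport (pd c θ) ⊆ O := fun c => (fwh_tsupport_pd c).trans hθO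
  have hpk : ∀ c, HasCompactSupport (pd c θ) := fun c => fwh_cpt_pd hc c
  have hppc : ∀ c e, Continuous (pd c (pd e θ)) := fun c e =>
    ((hpc1 e).continuous_fderiv one_ne_zero).clm_apply continuous_const
  have hpps : ∀ c e, tsupport (pd c (pd e θ)) ⊆ O := fun c e => (fwh_tsupport_pd c).trans (hps e)
  have hppk : ∀ c e, HasCompactSupport (pd c (pd e θ)) := fun c e => fwh_cpt_pd (hpk e) c
  have hI : ∀ f c e, Integrable (fun X => F f X * pd c (pd e θ) X) := fun f c e =>
    fwh_int hO (hF.cd f).continuousOn (hppc c e) (hppk c e) (hpps c e)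
  have hcu : ∀ f c, ContinuousOn (pd c (F f)) O := fun f c =>
    ((hF.cd f).continuousOn_fderiv_of_isOpen hO le_rfl).clm_apply continuousOn_const
  have hJ : ∀ f c e, Integrable (fun X => pd c (F f) X * pd e θ X) := fun f c e =>
    fwh_int hO (hcu f c) (hpc1 e).continuous (hpk e) (hps e)
  have key : ∀ b, ∫ X, F a X * pd b (pd b θ) X = - ∫ X, pd b (F b) X * pd a θ X := by
    intro b
    calc ∫ X, F a X * pd b (pd b θ) X = - ∫ X, pd b (F a) X * pd b θ X :=
          fwh_parts hO (hF.cd a) (hpc1 b) (hpk b) (hps b) b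
      _ = - ∫ X, pd a (F b) X * pd b θ X := by
          congr 1
          refine integral_congr_ae (Filter.Eventually.of_forall fun X => ?_)
          by_cases hX : X ∈ O
          · simp only []
            rw [hF.curl b a X hX]
          · have : pd b θ X = 0 := image_eq_zero_of_notMem_tsupport fun h => hX (hps b h)
            simp [this]
      _ = ∫ X, F b X * pd a (pd b θ) X :=
          (fwh_parts hO (hF.cd b) (hpc1 b) (hpk b) (hps b) a).symm
      _ = ∫ X, F b X * pd b (pd a θ) X := by
          simp_rw [fwh_symm hθ2 a b]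
      _ = - ∫ X, pd b (F b) X * pd a θ X :=
          fwh_parts hO (hF.cd b) (hpc1 a) (hpk a) (hps a) b
  simp only [lap, Finset.mul_sum]
  rw [integral_finsetSum _ fun b _ => hI a b b]
  simp_rw [key]
  rw [Finset.sum_neg_distrib, ← integral_finsetSum _ fun b _ => hJ b b a]
  rw [neg_eq_zero]
  rw [integral_eq_zero_of_ae]
  refine Filter.Eventually.of_forall fun X => ?_
  simp only [Pi.zero_apply]
  rw [← Finset.sum_mul]
  by_cases hX : X ∈ O
  · rw [hF.div X hX, zero_mul]
  · have : pd a θ X = 0 := image_eq_zero_of_notMem_tsupport fun h => hX (hps a h)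
    simp [this]

end HG
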