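import Pool.Agent.W_MP_825298_an.MV1b

open MeasureTheory Set Filter Topology
open scoped ENNReal NNReal BigOperators

namespace HG
variable {d : ℕ}

theorem volP_haar_h60 (d : ℕ) : (volume : Measure (P d)).IsAddHaarMeasure := by
  change ((volume : Measure (Fin d → ℝ)).prod (volume : Measure ℝ)).IsAddHaarMeasure
  infer_instance

/-- convolution (auxiliary) -/
noncomputable def cvl (g k : P d → ℝ) (X : P d) : ℝ :=
  (MeasureTheory.convolution g k (ContinuousLinearMap.mul ℝ ℝ) volume) X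

theorem cvl_eq (g k : P d → ℝ) (X : P d) : cvl g k X = ∫ Y, g Y * k (X - Y) := by
  rw [cvl, MeasureTheory.convolution_def]
  rfl

theorem pd_contDiff {k : P d → ℝ} {n : ℕ} (hk : ContDiff ℝ (n + 1 : ℕ) k) (a : Ix d) :
    ContDiff ℝ n (pd a k) := by
  have h : ContDiff ℝ n (fun X => fderiv ℝ k X (eb a)) := by
    refine (hk.fderiv_right (m := n) ?_).clm_apply contDiff_const
    push_cast
    exact le_rfl
  exact h

theorem pd_hasCompactSupport {k : P d → ℝ} (hkc : HasCompactSupport k) (a : Ix d) :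
    HasCompactSupport (pd a k) :=
  hkc.fderiv_apply ℝ (eb a)

theorem pd_cvl {g k : P d → ℝ} (hg : Integrable g) (hk : ContDiff ℝ 1 k) (hkc : HasCompactSupport k)
    (a : Ix d) (X : P d) : pd a (cvl g k) X = cvl g (pd a k) X := by
  have := volP_haar_h60 d
  have h := hkc.hasFDerivAt_convolution_right (μ := volume) (ContinuousLinearMap.mul ℝ ℝ)
    hg.locallyIntegrable hk X
  have h2 : fderiv ℝ (cvl g k) X = _ := h.fderiv
  rw [pd, h2]
  exact convolution_precompR_apply (ContinuousLinearMap.mul ℝ ℝ) hg.locallyIntegrable (hkc.fderiv ℝ)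
    (hk.continuous_fderiv (by norm_num)) X (eb a)

theorem cvl_bound {g m : P d → ℝ} (hg : Integrable g) {M : ℝ} (hm : ∀ Z, |m Z| ≤ M) (X : P d) :
    |cvl g m X| ≤ M * ∫ Y, |g Y| := by
  rw [cvl_eq, ← integral_const_mul]
  refine norm_integral_le_of_norm_le (f := fun Y => g Y * m (X - Y)) (hg.abs.const_mul M)
    (Eventually.of_forall fun Y => ?_)
  rw [Real.norm_eq_abs, abs_mul, mul_comm]
  exact mul_le_mul_of_nonneg_right (hm _) (abs_nonneg _)

theorem kr_hasCompactSupport {r : ℝ} (hr0 : 0 < r) : HasCompactSupport (kr (d := d) r) := by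
  refine HasCompactSupport.intro (isCompact_closedBall (0 : P d) r) ?_
  intro Z hZ
  refine kr_eq_zero hr0 ?_
  simp only [Metric.mem_closedBall, dist_zero_right, not_le] at hZ
  exact hZ.le

/-- interior estimates (differentiate `f(X) = ∫ f(Y) k_ρ(Y-X) dY`, `ρ < r` close to `r`, or `X` only). -/
theorem mvp_estimates (d : ℕ) : ∃ C : ℝ, 0 < C ∧ ∀ (O : Set (P d)), IsOpen O → ∀ (f : P d → ℝ), MVP O f →
    ∀ (X : P d) (r : ℝ), 0 < r → Metric.closedBall X r ⊆ O →
    |f X| ≤ C / r ^ (d + 1) * (∫ Y in Metric.closedBall X r, |f Y|) ∧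
    (∀ a : Ix d, |pd a f X| ≤ C / r ^ (d + 2) * ∫ Y in Metric.closedBall X r, |f Y|) ∧
    (∀ a b : Ix d, |pd b (pd a f) X| ≤ C / r ^ (d + 3) * ∫ Y in Metric.closedBall X r, |f Y|) := by
  obtain ⟨C, hC, hb⟩ := kr_bounds d
  refine ⟨C * 2 ^ (d + 3), by positivity, ?_⟩
  intro O hO f hf X r hr hsub
  set ρ : ℝ := r / 2 with hρ
  have hρ0 : 0 < ρ := by positivity
  set K : Set (P d) := Metric.closedBall X r with hK
  have hKc : IsCompact K := isCompact_closedBall _ _
  set g : P d → ℝ := K.indicator f with hg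
  have hgint : Integrable g := by
    rw [hg, integrable_indicator_iff hKc.measurableSet]
    exact (hf.1.mono hsub).integrableOn_compact hKc
  have hgabs : ∫ Y, |g Y| = ∫ Y in K, |f Y| := by
    rw [← integral_indicator hKc.measurableSet]
    refine integral_congr_ae (Eventually.of_forall fun Y => ?_)
    by_cases hY : Y ∈ K
    · simp [hg, hY]
    · simp [hg, hY]
  have hkc : HasCompactSupport (kr (d := d) ρ) := kr_hasCompactSupport hρ0
  have hk3 : ContDiff ℝ (2 + 1 : ℕ) (kr (d := d) ρ) := by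
    have := kr_contDiff (d := d) ρ
    exact_mod_cast this
  have hk2 : ∀ a : Ix d, ContDiff ℝ (1 + 1 : ℕ) (pd a (kr (d := d) ρ)) := fun a => pd_contDiff hk3 a
  have heq : ∀ X' ∈ Metric.ball X ρ, f X' = cvl g (kr ρ) X' := by
    intro X' hX'
    have hXs : Metric.closedBall X' ρ ⊆ K := by
      refine Metric.closedBall_subset_closedBall' ?_
      have := Metric.mem_ball.1 hX'
      linarith
    rw [hf.2 X' ρ hρ0 (hXs.trans hsub), kr_conv_comm, cvl_eq]
    refine integral_congr_ae (Eventually.of_forall fun Y => ?_)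
    by_cases hY : Y ∈ K
    · simp only []
      rw [hg, indicator_of_mem hY, ← kr_neg ρ (Y - X'), neg_sub]
    · have h1 : kr ρ (Y - X') = 0 := by
        refine kr_eq_zero hρ0 ?_
        by_contra hlt
        push Not at hlt
        exact hY (hXs (by
          rw [Metric.mem_closedBall, dist_eq_norm]; exact hlt.le))
      simp only []
      rw [hg, indicator_of_notMem hY, h1]; simp
  have hev : ∀ X' ∈ Metric.ball X ρ, f =ᶠ[𝓝 X'] cvl g (kr ρ) := by
    intro X' hX'
    filter_upwards [Metric.isOpen_ball.mem_nhds hX'] with Y hY using heq Y hY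
  have hpd : ∀ a : Ix d, ∀ X' ∈ Metric.ball X ρ, pd a f X' = cvl g (pd a (kr ρ)) X' := by
    intro a X' hX'
    rw [← pd_cvl hgint (hk3.of_le (by norm_num)) hkc a X', pd, pd, (hev X' hX').fderiv_eq]
  have hev2 : ∀ a : Ix d, pd a f =ᶠ[𝓝 X] cvl g (pd a (kr ρ)) := by
    intro a
    filter_upwards [Metric.isOpen_ball.mem_nhds (Metric.mem_ball_self hρ0)] with Y hY using hpd a Y hY
  have hXm : X ∈ Metric.ball X ρ := Metric.mem_ball_self hρ0
  have key : ∀ (j : ℕ), j ≤ d + 3 → C / ρ ^ j ≤ C * 2 ^ (d + 3) / r ^ j := by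
    intro j hj
    rw [hρ, div_pow, div_div_eq_mul_div]
    have : (2 : ℝ) ^ j ≤ 2 ^ (d + 3) := pow_le_pow_right₀ (by norm_num) hj
    gcongr
  have hI : 0 ≤ ∫ Y, |g Y| := integral_nonneg fun Y => abs_nonneg _
  rw [← hgabs]
  refine ⟨?_, ?_, ?_⟩
  · rw [heq X hXm]
    refine (cvl_bound hgint (M := C / ρ ^ (d + 1)) ?_ X).trans
      (mul_le_mul_of_nonneg_right (key _ (by omega)) hI)
    intro Z
    rw [abs_of_nonneg (kr_nonneg hρ0 Z)]
    exact (hb ρ Z hρ0).1
  · intro a
    rw [hpd a X hXm]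
    refine (cvl_bound hgint (M := C / ρ ^ (d + 2)) ?_ X).trans
      (mul_le_mul_of_nonneg_right (key _ (by omega)) hI)
    intro Z
    exact (hb ρ Z hρ0).2.1 a
  · intro a b
    have : pd b (pd a f) X = cvl g (pd b (pd a (kr ρ))) X := by
      rw [← pd_cvl hgint ((hk2 a).of_le (by norm_num)) (pd_hasCompactSupport hkc a) b X]
      rw [pd, (hev2 a).fderiv_eq]
      rfl
    rw [this]
    refine (cvl_bound hgint (M := C / ρ ^ (d + 3)) ?_ X).trans
      (mul_le_mul_of_nonneg_right (key _ (by omega)) hI)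
    intro Z
    exact (hb ρ Z hρ0).2.2 a b

end HG
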