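import Pool.Agent.W_MP_825298_an.MV3a
import Pool.Agent.W_MP_825298_an.MV3b
import Pool.Agent.W_MP_825298_an.MV3d

open MeasureTheory Set Filter Topology
open scoped ENNReal NNReal BigOperators

namespace HG
variable {d : ℕ}

theorem field_mvp {O : Set (P d)} (hO : IsOpen O) {F : Ix d → P d → ℝ} (hF : IsField O F) (a : Ix d) :
    MVP O (F a) :=
  mvp_of_weakHarm hO (hF.cd a).continuousOn (field_weakHarm hO hF a)

/-- Interior estimates for fields (sum `mvp_estimates` over the components). -/
theorem field_estimates (d : ℕ) : ∃ C : ℝ, 0 < C ∧ ∀ (O : Set (P d)), IsOpen O → ∀ (F : Ix d → P d → ℝ),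
    IsField O F → ∀ (X : P d) (r : ℝ), 0 < r → Metric.closedBall X r ⊆ O →
    nF F X ≤ C / r ^ (d + 1) * (∫ Y in Metric.closedBall X r, nF F Y) ∧
    (∀ a b : Ix d, |pd b (F a) X| ≤ C / r ^ (d + 2) * ∫ Y in Metric.closedBall X r, nF F Y) := by
  obtain ⟨C, hC, h⟩ := mvp_estimates d
  refine ⟨C, hC, fun O hO F hF X r hr hB => ?_⟩
  have hint : ∀ a : Ix d, IntegrableOn (fun Y => |F a Y|) (Metric.closedBall X r) := fun a =>
    (((hF.cd a).continuousOn.mono hB).integrableOn_compact (isCompact_closedBall X r)).abs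
  have hE : ∀ a, _ := fun a => h O hO (F a) (field_mvp hO hF a) X r hr hB
  have hsum : ∫ Y in Metric.closedBall X r, nF F Y =
      ∑ a : Ix d, ∫ Y in Metric.closedBall X r, |F a Y| := by
    simp only [nF]
    exact integral_finsetSum _ fun a _ => hint a
  refine ⟨?_, fun a b => ?_⟩
  · rw [hsum, Finset.mul_sum]
    exact Finset.sum_le_sum fun a _ => (hE a).1
  · refine ((hE a).2.1 b).trans ?_
    refine mul_le_mul_of_nonneg_left ?_ (by positivity)
    rw [hsum]
    exact Finset.single_le_sum (f := fun a => ∫ Y in Metric.closedBall X r, |F a Y|)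
      (fun c _ => integral_nonneg fun Y => abs_nonneg _) (Finset.mem_univ a)

end HG
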