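import Pool.Agent.W_MP_825298_an.TBDefs
import Pool.Agent.W_MP_825298_an.MV4a
import Pool.Agent.W_MP_825298_an.Above

open MeasureTheory Set Filter Topology
open scoped ENNReal NNReal BigOperators

namespace HG
variable {d : ℕ}

/-- constants: `C0/(η t)^(d+1) * (3t/2)^(1/2) ≤ C * r^(-(d+1/2))` -/
theorem GA3_const (d : ℕ) {C0 η t r : ℝ} (hC0 : 0 < C0) (hη : 0 < η) (hr : 0 < r) (hrt : r ≤ 2 * t) :
    C0 / (η * t) ^ (d + 1) * (3 * t / 2) ^ ((1 : ℝ) / 2) ≤
      C0 / η ^ (d + 1) * (3 / 2 : ℝ) ^ ((1 : ℝ) / 2) * 2 ^ ((d : ℝ) + 1 / 2) * r ^ (-((d : ℝ) + 1 / 2)) := by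
  have ht : 0 < t := by linarith
  have h1 : (3 * t / 2) ^ ((1 : ℝ) / 2) = (3 / 2 : ℝ) ^ ((1 : ℝ) / 2) * t ^ ((1 : ℝ) / 2) := by
    rw [← Real.mul_rpow (by norm_num) ht.le]
    congr 1
    ring
  have h2 : t ^ ((1 : ℝ) / 2) / t ^ (d + 1) = t ^ (-((d : ℝ) + 1 / 2)) := by
    rw [← Real.rpow_natCast t (d + 1), ← Real.rpow_sub ht]
    congr 1
    push_cast
    ring
  have h3 : t ^ (-((d : ℝ) + 1 / 2)) ≤ 2 ^ ((d : ℝ) + 1 / 2) * r ^ (-((d : ℝ) + 1 / 2)) := by
    have h4 : t ^ (-((d : ℝ) + 1 / 2)) ≤ (r / 2) ^ (-((d : ℝ) + 1 / 2)) :=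
      Real.rpow_le_rpow_of_nonpos (by positivity) (by linarith) (by
        have : (0 : ℝ) ≤ d := Nat.cast_nonneg d
        linarith)
    refine h4.trans (le_of_eq ?_)
    rw [div_eq_mul_inv, Real.mul_rpow hr.le (by norm_num), Real.inv_rpow (by norm_num),
      Real.rpow_neg (show (0 : ℝ) ≤ 2 by norm_num), inv_inv]
    ring
  calc C0 / (η * t) ^ (d + 1) * (3 * t / 2) ^ ((1 : ℝ) / 2)
      = C0 / η ^ (d + 1) * (3 / 2 : ℝ) ^ ((1 : ℝ) / 2) * (t ^ ((1 : ℝ) / 2) / t ^ (d + 1)) := by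
        rw [h1, mul_pow]
        field_simp
    _ = C0 / η ^ (d + 1) * (3 / 2 : ℝ) ^ ((1 : ℝ) / 2) * t ^ (-((d : ℝ) + 1 / 2)) := by rw [h2]
    _ ≤ C0 / η ^ (d + 1) * (3 / 2 : ℝ) ^ ((1 : ℝ) / 2) *
        (2 ^ ((d : ℝ) + 1 / 2) * r ^ (-((d : ℝ) + 1 / 2))) :=
        mul_le_mul_of_nonneg_left h3 (by positivity)
    _ = _ := by ring

/-- Interior bound of the field by the solid averages. `t = X.2 - φ X.1`, `η = 1/(2(1+M))`, `field_estimates` on `closedBall X (η t) ⊆ above φ`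
(the heights of its points are in `[t/2, 3t/2]`, the horizontal coordinates in `closedBall x (c r)`), `lintegral_above` (shear), and
`τ^{-1/2} ≥ (3t/2)^{-1/2}`: `nF F X ≤ C t^{-(d+1)} t^{1/2} ∫∫ τ^{-1/2} nF F ≤ C' r^{-(d+1/2)} ∫∫`. -/
theorem nF_le_Wf (M : ℝ≥0) : ∃ C : ℝ≥0, ∀ (φ : E d → ℝ), LipschitzWith M φ → ∀ (F : Ix d → P d → ℝ), IsField (above φ) F →
    ∀ (c : ℝ) (x : E d) (r : ℝ) (X : P d), 0 < r → r ≤ 2 * (X.2 - φ X.1) → 2 * (X.2 - φ X.1) ≤ c * r →
    ‖X.1 - x‖ + (X.2 - φ X.1) ≤ c * r → ENNReal.ofReal (nF F X) ≤ C * Wf φ F c x r := by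
  obtain ⟨C0, hC0, hest⟩ := field_estimates d
  obtain ⟨η, hη⟩ : ∃ η : ℝ, η = 1 / (2 * (1 + (M : ℝ))) := ⟨_, rfl⟩
  have hM1 : (0 : ℝ) < 1 + M := by positivity
  have hη0 : 0 < η := by rw [hη]; positivity
  have hηM : η * (1 + M) = 1 / 2 := by
    rw [hη]
    field_simp
  have hη1 : η ≤ 1 / 2 := by
    rw [← hηM]
    have : (0 : ℝ) ≤ M := M.2
    nlinarith
  refine ⟨Real.toNNReal (C0 / η ^ (d + 1) * (3 / 2 : ℝ) ^ ((1 : ℝ) / 2) * 2 ^ ((d : ℝ) + 1 / 2)), ?_⟩
  intro φ hφ F hF c x r X hr hrt htc hXc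
  obtain ⟨t, ht⟩ : ∃ t : ℝ, t = X.2 - φ X.1 := ⟨_, rfl⟩
  rw [← ht] at hrt htc hXc
  have ht0 : 0 < t := by linarith
  have hρ0 : 0 < η * t := by positivity
  have hopen : IsOpen (above φ) := isOpen_lt (hφ.continuous.comp continuous_fst) continuous_snd
  have hgeo : ∀ Y ∈ Metric.closedBall X (η * t), t / 2 ≤ Y.2 - φ Y.1 ∧ Y.2 - φ Y.1 ≤ 3 * t / 2 ∧
      Y.1 ∈ Metric.closedBall x (c * r) := by
    intro Y hY
    rw [Metric.mem_closedBall, Prod.dist_eq, max_le_iff] at hY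
    obtain ⟨h1, h2⟩ := hY
    have h3 : |φ Y.1 - φ X.1| ≤ M * (η * t) := by
      have := hφ.dist_le_mul Y.1 X.1
      rw [Real.dist_eq] at this
      exact this.trans (mul_le_mul_of_nonneg_left h1 M.2)
    rw [Real.dist_eq] at h2
    have h4 : η * t + M * (η * t) = t / 2 := by
      have : η * t + M * (η * t) = η * (1 + M) * t := by ring
      rw [this, hηM]
      ring
    rw [abs_le] at h2 h3
    refine ⟨by linarith [h2.1, h2.2, h3.1, h3.2], by linarith [h2.1, h2.2, h3.1, h3.2], ?_⟩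
    rw [Metric.mem_closedBall]
    have h5 : dist Y.1 x ≤ dist Y.1 X.1 + dist X.1 x := dist_triangle _ _ _
    rw [dist_eq_norm X.1 x] at h5
    have h6 : η * t ≤ t / 2 := by nlinarith
    linarith
  have hsub : Metric.closedBall X (η * t) ⊆ above φ := by
    intro Y hY
    have := (hgeo Y hY).1
    show φ Y.1 < Y.2
    linarith
  have h1 := (hest (above φ) hopen F hF X (η * t) hρ0 hsub).1
  have hcont : ContinuousOn (nF F) (above φ) := by
    unfold nF
    exact continuousOn_finsetSum _ fun a _ => ((hF.cd a).continuousOn).abs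
  have hint : IntegrableOn (nF F) (Metric.closedBall X (η * t)) :=
    (hcont.mono hsub).integrableOn_compact (isCompact_closedBall X _)
  have hnn : ∀ Y, 0 ≤ nF F Y := fun Y => Finset.sum_nonneg fun a _ => abs_nonneg _
  have h2 : ENNReal.ofReal (∫ Y in Metric.closedBall X (η * t), nF F Y) =
      ∫⁻ Y in Metric.closedBall X (η * t), ENNReal.ofReal (nF F Y) :=
    ofReal_integral_eq_lintegral_ofReal hint (Filter.Eventually.of_forall hnn)
  have h3 : ∫⁻ Y in Metric.closedBall X (η * t), ENNReal.ofReal (nF F Y) =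
      ∫⁻ Y in above φ, (Metric.closedBall X (η * t)).indicator (fun Y => ENNReal.ofReal (nF F Y)) Y := by
    rw [setLIntegral_indicator Metric.isClosed_closedBall.measurableSet, Set.inter_eq_left.2 hsub]
  have hae : AEMeasurable ((Metric.closedBall X (η * t)).indicator (fun Y => ENNReal.ofReal (nF F Y)))
      (volume.restrict (above φ)) := by
    refine AEMeasurable.indicator ?_ Metric.isClosed_closedBall.measurableSet
    exact (hcont.aemeasurable (measurableSet_above hφ)).ennreal_ofReal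
  have h4 : ∫⁻ Y in Metric.closedBall X (η * t), ENNReal.ofReal (nF F Y) ≤
      ENNReal.ofReal ((3 * t / 2) ^ ((1 : ℝ) / 2)) *
      ∫⁻ y in Metric.closedBall x (c * r), ∫⁻ τ in Ioc (0 : ℝ) (c * r),
        ENNReal.ofReal (τ ^ (-(1 / 2) : ℝ)) * ENNReal.ofReal (nF F (y, φ y + τ)) := by
    rw [h3, lintegral_above hφ _ hae]
    rw [← lintegral_const_mul' _ _ ENNReal.ofReal_ne_top]
    rw [← lintegral_indicator Metric.isClosed_closedBall.measurableSet]
    refine lintegral_mono fun y => ?_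
    by_cases hy : y ∈ Metric.closedBall x (c * r)
    · rw [Set.indicator_of_mem hy, ← lintegral_const_mul' _ _ ENNReal.ofReal_ne_top,
        ← lintegral_indicator measurableSet_Ioi, ← lintegral_indicator measurableSet_Ioc]
      refine lintegral_mono fun τ => ?_
      by_cases hY : ((y, φ y + τ) : P d) ∈ Metric.closedBall X (η * t)
      · obtain ⟨g1, g2, g3⟩ := hgeo _ hY
        have e : ((y, φ y + τ) : P d).2 - φ ((y, φ y + τ) : P d).1 = τ := by simp
        rw [e] at g1 g2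
        have hτ0 : 0 < τ := by linarith
        rw [Set.indicator_of_mem (show τ ∈ Ioi (0 : ℝ) from hτ0), Set.indicator_of_mem hY,
          Set.indicator_of_mem (show τ ∈ Ioc (0 : ℝ) (c * r) from ⟨hτ0, by linarith⟩)]
        rw [← mul_assoc, ← ENNReal.ofReal_mul (by positivity)]
        refine le_mul_of_one_le_left (zero_le) ?_
        rw [← ENNReal.ofReal_one]
        refine ENNReal.ofReal_le_ofReal ?_
        rw [Real.rpow_neg hτ0.le, ← div_eq_mul_inv, ← Real.div_rpow (by positivity) hτ0.le]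
        exact Real.one_le_rpow (by rw [le_div_iff₀ hτ0]; linarith) (by norm_num)
      · have : (Ioi (0 : ℝ)).indicator (fun a => (Metric.closedBall X (η * t)).indicator
            (fun Y => ENNReal.ofReal (nF F Y)) (y, φ y + a)) τ = 0 := by
          rw [Set.indicator_apply]
          split_ifs
          · exact Set.indicator_of_notMem hY _
          · rfl
        rw [this]
        exact zero_le
    · rw [Set.indicator_of_notMem hy]
      refine le_of_eq ?_
      have : ∀ τ : ℝ, (Metric.closedBall X (η * t)).indicator (fun Y => ENNReal.ofReal (nF F Y))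
          ((y, φ y + τ) : P d) = 0 := by
        intro τ
        exact Set.indicator_of_notMem (fun hY => hy (hgeo _ hY).2.2) _
      simp only [this, lintegral_zero]
  calc ENNReal.ofReal (nF F X)
      ≤ ENNReal.ofReal (C0 / (η * t) ^ (d + 1) * ∫ Y in Metric.closedBall X (η * t), nF F Y) :=
        ENNReal.ofReal_le_ofReal h1
    _ = ENNReal.ofReal (C0 / (η * t) ^ (d + 1)) *
        ∫⁻ Y in Metric.closedBall X (η * t), ENNReal.ofReal (nF F Y) := by
        rw [ENNReal.ofReal_mul (by positivity), h2]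
    _ ≤ ENNReal.ofReal (C0 / (η * t) ^ (d + 1)) * (ENNReal.ofReal ((3 * t / 2) ^ ((1 : ℝ) / 2)) *
        ∫⁻ y in Metric.closedBall x (c * r), ∫⁻ τ in Ioc (0 : ℝ) (c * r),
        ENNReal.ofReal (τ ^ (-(1 / 2) : ℝ)) * ENNReal.ofReal (nF F (y, φ y + τ))) :=
        mul_le_mul_right h4 _
    _ = ENNReal.ofReal (C0 / (η * t) ^ (d + 1) * (3 * t / 2) ^ ((1 : ℝ) / 2)) *
        ∫⁻ y in Metric.closedBall x (c * r), ∫⁻ τ in Ioc (0 : ℝ) (c * r),
        ENNReal.ofReal (τ ^ (-(1 / 2) : ℝ)) * ENNReal.ofReal (nF F (y, φ y + τ)) := by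
        rw [← mul_assoc, ENNReal.ofReal_mul (by positivity)]
    _ ≤ ENNReal.ofReal (C0 / η ^ (d + 1) * (3 / 2 : ℝ) ^ ((1 : ℝ) / 2) * 2 ^ ((d : ℝ) + 1 / 2) *
        r ^ (-((d : ℝ) + 1 / 2))) *
        ∫⁻ y in Metric.closedBall x (c * r), ∫⁻ τ in Ioc (0 : ℝ) (c * r),
        ENNReal.ofReal (τ ^ (-(1 / 2) : ℝ)) * ENNReal.ofReal (nF F (y, φ y + τ)) :=
        mul_le_mul_left (ENNReal.ofReal_le_ofReal (GA3_const d hC0 hη0 hr hrt)) _
    _ = _ := by
        rw [ENNReal.ofReal_mul (by positivity), Wf, ← mul_assoc]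
        rfl

end HG
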