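import Pool.Agent.W_MP_825298_an.GA3
import Pool.Agent.W_MP_825298_an.Ex2

open MeasureTheory Set Filter Topology
open scoped ENNReal NNReal BigOperators

namespace HG
variable {d : ℕ}

/-- the maximal function over a (doubly) truncated cone -/
noncomputable def GN (φ : E d → ℝ) (F : Ix d → P d → ℝ) (a ρ R : ℝ) (x : E d) : ℝ≥0∞ :=
  ⨆ X ∈ {X : P d | ‖X.1 - x‖ < a * (X.2 - φ X.1) ∧ ρ < X.2 - φ X.1 ∧ X.2 - φ X.1 < R}, ENNReal.ofReal (nF F X)

/-- lower semicontinuous: `{x | t < GN x}` is a union of open sets (balls) -/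
theorem GN_measurable (φ : E d → ℝ) (F : Ix d → P d → ℝ) (a ρ R : ℝ) : Measurable (GN φ F a ρ R) := by
  refine measurable_of_Ioi fun t => IsOpen.measurableSet ?_
  have h1 : (GN φ F a ρ R) ⁻¹' (Ioi t) = ⋃ X ∈ {X : P d | (ρ < X.2 - φ X.1 ∧ X.2 - φ X.1 < R)
      ∧ t < ENNReal.ofReal (nF F X)}, Metric.ball X.1 (a * (X.2 - φ X.1)) := by
    ext x
    simp only [mem_preimage, mem_Ioi, GN, lt_iSup_iff, mem_iUnion, Metric.mem_ball, mem_ofPred_eq, exists_prop]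
    constructor
    · rintro ⟨X, ⟨h1, h2, h3⟩, h4⟩
      refine ⟨X, ⟨⟨h2, h3⟩, h4⟩, ?_⟩
      rw [dist_comm, dist_eq_norm]
      exact h1
    · rintro ⟨X, ⟨⟨h2, h3⟩, h4⟩, h5⟩
      refine ⟨X, ⟨?_, h2, h3⟩, h4⟩
      rw [dist_comm, dist_eq_norm] at h5
      exact h5
  rw [h1]
  exact isOpen_biUnion fun X _ => Metric.isOpen_ball

/-- Pathwise bound. For `X` in the cone at `x + r0 Zp N ω` of height `t`, `r0/2^N < t < r0`, take `l` with `r0/2^(l+1) < t ≤ r0/2^l` (`l < N`);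
`‖X.1 - (x + r0 Zp l ω)‖ ≤ a t + 2 r0/2^l` (`norm_Zp_sub_le`), apply `nF_le_Wf` with `r = r0/2^l`. -/
theorem GN_le_path (M : ℝ≥0) {a : ℝ} (ha : 0 < a) {c : ℝ} (hc : a + 3 ≤ c) : ∃ C : ℝ≥0, ∀ (φ : E d → ℝ), LipschitzWith M φ →
    ∀ (F : Ix d → P d → ℝ), IsField (above φ) F → ∀ (r0 : ℝ), 0 < r0 → ∀ (N : ℕ) (x : E d) (ω : ℕ → St d),
    GN φ F a (r0 / 2 ^ N) r0 (x + r0 • Zp N ω) ≤ C * ⨆ l ∈ Finset.range (N + 1), wv (Wf φ F c) x r0 ω l := by
  obtain ⟨C, hC⟩ := nF_le_Wf (d := d) M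
  refine ⟨C, fun φ hφ F hF r0 hr0 N x ω => ?_⟩
  refine iSup₂_le fun X hX => ?_
  obtain ⟨h1, h2, h3⟩ := hX
  set t := X.2 - φ X.1 with ht
  -- the scale
  have hex : ∃ l : ℕ, r0 / 2 ^ l < t := ⟨N, h2⟩
  classical
  obtain ⟨l, hl1, hl2, hlN⟩ : ∃ l : ℕ, r0 / 2 ^ (l + 1) < t ∧ t ≤ r0 / 2 ^ l ∧ l < N := by
    have hn : Nat.find hex ≠ 0 := by
      intro h0
      have := Nat.find_spec hex
      rw [h0, pow_zero, div_one] at this
      linarith
    obtain ⟨l, hl⟩ := Nat.exists_eq_succ_of_ne_zero hn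
    refine ⟨l, ?_, ?_, ?_⟩
    · have := Nat.find_spec hex
      rwa [hl] at this
    · have := Nat.find_min hex (m := l) (by omega)
      exact not_lt.1 this
    · have := Nat.find_min' hex h2
      omega
  have htpos : 0 < t := lt_trans (by positivity) h2
  have hrpos : 0 < r0 / 2 ^ l := by positivity
  have hhalf : r0 / 2 ^ (l + 1) = r0 / 2 ^ l / 2 := by
    rw [pow_succ]; field_simp
  rw [hhalf] at hl1
  have hz : ‖X.1 - (x + r0 • Zp l ω)‖ ≤ a * t + 2 * (r0 / 2 ^ l) := by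
    have e : X.1 - (x + r0 • Zp l ω) = (X.1 - (x + r0 • Zp N ω)) + r0 • (Zp N ω - Zp l ω) := by
      rw [smul_sub]; abel
    rw [e]
    refine (norm_add_le _ _).trans (add_le_add h1.le ?_)
    rw [norm_smul, Real.norm_eq_abs, abs_of_pos hr0]
    have := mul_le_mul_of_nonneg_left (norm_Zp_sub_le hlN.le ω) hr0.le
    refine this.trans (le_of_eq ?_)
    rw [div_eq_mul_inv]; ring
  have hat : a * t ≤ a * (r0 / 2 ^ l) := mul_le_mul_of_nonneg_left hl2 ha.le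
  have hcr : (a + 3) * (r0 / 2 ^ l) ≤ c * (r0 / 2 ^ l) := mul_le_mul_of_nonneg_right hc hrpos.le
  have har : 0 < a * (r0 / 2 ^ l) := by positivity
  have key := hC φ hφ F hF c (x + r0 • Zp l ω) (r0 / 2 ^ l) X hrpos (by rw [← ht]; linarith)
    (by rw [← ht]; linarith) (by rw [← ht]; linarith)
  refine key.trans (mul_le_mul_right ?_ _)
  exact le_iSup₂_of_le (f := fun l _ => wv (Wf φ F c) x r0 ω l) l (Finset.mem_range.2 (by omega)) le_rfl

end HG
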