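import Pool.Agent.W_MP_825298_an.KDefs

open MeasureTheory Set Filter Topology
open scoped ENNReal NNReal BigOperators

namespace HG
variable {d : ℕ}

/-- rescaled graph -/
noncomputable def scφ (x : E d) (r : ℝ) (φ : E d → ℝ) (y : E d) : ℝ := φ (x + r • y) / r

/-- rescaled field -/
noncomputable def scF (x : E d) (r c : ℝ) (F : Ix d → P d → ℝ) (a : Ix d) (Y : P d) : ℝ := c * F a (x + r • Y.1, r * Y.2)

/-- rescaled open set -/
def scU (x : E d) (r : ℝ) (U : Set (P d)) : Set (P d) := {Y | ((x + r • Y.1, r * Y.2) : P d) ∈ U}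

/-- the affine map -/
theorem sc_hasFDeriv (x : E d) (r : ℝ) (Y : P d) :
    HasFDerivAt (fun Y : P d => ((x + r • Y.1, r * Y.2) : P d)) (r • ContinuousLinearMap.id ℝ (P d)) Y := by
  have h : (fun Y : P d => ((x + r • Y.1, r * Y.2) : P d)) = fun Y : P d => ((x, 0) : P d) + r • Y := by
    funext Y
    ext
    · simp
    · simp
  rw [h]
  exact ((hasFDerivAt_id Y).const_smul r).const_add _

theorem sc_contDiff (x : E d) (r : ℝ) {n : WithTop ℕ∞} :
    ContDiff ℝ n (fun Y : P d => ((x + r • Y.1, r * Y.2) : P d)) := by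
  have h : (fun Y : P d => ((x + r • Y.1, r * Y.2) : P d)) = fun Y : P d => ((x, 0) : P d) + r • Y := by
    funext Y
    ext
    · simp
    · simp
  rw [h]
  exact contDiff_const.add (contDiff_id.const_smul r)

theorem sc_pd {U : Set (P d)} (hU : IsOpen U) {f : P d → ℝ} (hf : ContDiffOn ℝ 1 f U) (x : E d) (r c : ℝ) (a : Ix d)
    {Y : P d} (hY : Y ∈ scU x r U) :
    pd a (fun Y : P d => c * f (x + r • Y.1, r * Y.2)) Y = c * (r * pd a f (x + r • Y.1, r * Y.2)) := by
  have h1 : DifferentiableAt ℝ f (x + r • Y.1, r * Y.2) :=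
    (hf.differentiableOn one_ne_zero).differentiableAt (hU.mem_nhds hY)
  have h2 := (h1.hasFDerivAt.comp Y (sc_hasFDeriv x r Y)).const_mul c
  have h3 : (fun Y : P d => c * f (x + r • Y.1, r * Y.2)) =
      fun Y => c * (f ∘ fun Y : P d => ((x + r • Y.1, r * Y.2) : P d)) Y := rfl
  unfold pd
  rw [h3, h2.fderiv]
  simp

/-- chain rule for the affine map `Y ↦ (x,0) + r Y` -/
theorem sc_GFd {M : ℝ≥0} {φ : E d → ℝ} {U : Set (P d)} {F : Ix d → P d → ℝ} (h : GFd M φ U F) (x : E d) {r : ℝ} (hr : 0 < r) (c : ℝ) :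
    GFd M (scφ x r φ) (scU x r U) (scF x r c F) := by
  refine ⟨?_, ?_, ?_, ?_, ?_, ?_⟩
  · refine LipschitzWith.of_dist_le_mul fun y y' => ?_
    have h1 := h.lip.dist_le_mul (x + r • y) (x + r • y')
    rw [Real.dist_eq] at h1 ⊢
    have h2 : dist (x + r • y) (x + r • y') = r * dist y y' := by
      rw [dist_add_left, dist_smul₀, Real.norm_of_nonneg hr.le]
    rw [h2] at h1
    unfold scφ
    rw [← sub_div, abs_div, abs_of_pos hr, div_le_iff₀ hr]
    calc _ ≤ _ := h1
      _ = M * dist y y' * r := by ring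
  · exact h.op.preimage (sc_contDiff x r (n := 0)).continuous
  · intro Y hY
    have h1 : φ (x + r • Y.1) / r ≤ Y.2 := hY
    have h2 : φ (x + r • Y.1) ≤ r * Y.2 := by
      rwa [div_le_iff₀ hr, mul_comm] at h1
    exact h.sub h2
  · intro a
    have h1 : ContDiffOn ℝ 1 (fun Y : P d => F a (x + r • Y.1, r * Y.2)) (scU x r U) :=
      (h.fld.cd a).comp (sc_contDiff x r).contDiffOn (fun Y hY => hY)
    exact contDiffOn_const.mul h1
  · intro a b Y hY
    have h1 := sc_pd h.op (h.fld.cd b) x r c a hY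
    have h2 := sc_pd h.op (h.fld.cd a) x r c b hY
    have h3 := h.fld.curl a b _ hY
    show pd a (fun Y : P d => c * F b (x + r • Y.1, r * Y.2)) Y = pd b (fun Y : P d => c * F a (x + r • Y.1, r * Y.2)) Y
    rw [h1, h2, h3]
  · intro Y hY
    have h3 := h.fld.div _ hY
    have h1 : ∀ a : Ix d, pd a (scF x r c F a) Y = (c * r) * pd a (F a) (x + r • Y.1, r * Y.2) := fun a => by
      have := sc_pd h.op (h.fld.cd a) x r c a hY
      rw [mul_assoc]
      exact this
    simp only [h1, ← Finset.mul_sum]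
    rw [h3, mul_zero]

/-- derivative of the rescaled graph function, also at points of non-differentiability -/
theorem sc_fderiv (φ : E d → ℝ) (x : E d) {r : ℝ} (hr : 0 < r) (y : E d) (v : E d) :
    fderiv ℝ (scφ x r φ) y v = fderiv ℝ φ (x + r • y) v := by
  have hA : ∀ z : E d, HasFDerivAt (fun y : E d => x + r • y) (r • ContinuousLinearMap.id ℝ (E d)) z := fun z =>
    ((hasFDerivAt_id z).const_smul r).const_add x
  by_cases hφ : DifferentiableAt ℝ φ (x + r • y)
  · have h1 := (hφ.hasFDerivAt.comp y (hA y)).const_mul r⁻¹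
    have h2 : scφ x r φ = fun y => r⁻¹ * (φ ∘ fun y : E d => x + r • y) y := by
      funext z
      unfold scφ
      rw [div_eq_inv_mul]
      rfl
    rw [h2, h1.fderiv]
    simp [hr.ne']
  · have h3 : ¬ DifferentiableAt ℝ (scφ x r φ) y := by
      intro h4
      apply hφ
      have hB : HasFDerivAt (fun z : E d => r⁻¹ • (z - x)) (r⁻¹ • ContinuousLinearMap.id ℝ (E d)) (x + r • y) :=
        ((hasFDerivAt_id (x + r • y)).sub_const x).const_smul r⁻¹
      have h5 : r⁻¹ • ((x + r • y) - x) = y := by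
        rw [add_sub_cancel_left, smul_smul, inv_mul_cancel₀ hr.ne', one_smul]
      have h4' : DifferentiableAt ℝ (scφ x r φ) (r⁻¹ • ((x + r • y) - x)) := by rw [h5]; exact h4
      have h6 := (h4'.comp (x + r • y) hB.differentiableAt).const_mul r
      have h7 : (fun z => r * (scφ x r φ ∘ fun z : E d => r⁻¹ • (z - x)) z) = φ := by
        funext z
        simp only [Function.comp_apply, scφ]
        rw [smul_smul, mul_inv_cancel₀ hr.ne', one_smul, add_sub_cancel, mul_div_cancel₀ _ hr.ne']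
      rw [h7] at h6
      exact h6
    rw [fderiv_zero_of_not_differentiableAt hφ, fderiv_zero_of_not_differentiableAt h3]

/-- `fderiv (scφ) y (Pi.single i 1) = fderiv φ (x+ry) (Pi.single i 1)` also at points of non-differentiability -/
theorem sc_hb (φ : E d → ℝ) (F : Ix d → P d → ℝ) (x : E d) {r : ℝ} (hr : 0 < r) (c : ℝ) (y : E d) :
    hb (scφ x r φ) (scF x r c F) y = c • hb φ F (x + r • y) := by
  have h1 : ∀ a : Ix d, om (scφ x r φ) a y = om φ a (x + r • y) := by
    intro a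
    cases a with
    | none => rfl
    | some i => exact sc_fderiv φ x hr y _
  have h2 : ∀ a : Ix d, scF x r c F a (y, scφ x r φ y) = c * F a (x + r • y, φ (x + r • y)) := by
    intro a
    unfold scF scφ
    simp only
    rw [mul_div_cancel₀ _ hr.ne']
  unfold hb bvec
  ext o
  rcases o with _ | ⟨a, b⟩
  · simp only [h1, h2, PiLp.smul_apply, smul_eq_mul, Finset.mul_sum]
    refine Finset.sum_congr rfl fun a _ => ?_
    ring
  · simp only [h1, h2, PiLp.smul_apply, smul_eq_mul]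
    ring

theorem sc_avg (φ : E d → ℝ) (F : Ix d → P d → ℝ) (x : E d) {r : ℝ} (hr : 0 < r) (c : ℝ) (y : E d) (ρ : ℝ) :
    avg (hb (scφ x r φ) (scF x r c F)) y ρ = c • avg (hb φ F) (x + r • y) (r * ρ) := by
  unfold avg
  rw [← integral_smul]
  refine integral_congr_ae (Eventually.of_forall fun z => ?_)
  simp only
  rw [sc_hb φ F x hr c, smul_comm, smul_add, smul_smul r ρ z, add_assoc]

theorem sc_nF (F : Ix d → P d → ℝ) (x : E d) (r : ℝ) {c : ℝ} (hc : 0 ≤ c) (Y : P d) :
    nF (scF x r c F) Y = c * nF F (x + r • Y.1, r * Y.2) := by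
  unfold nF scF
  rw [Finset.mul_sum]
  exact Finset.sum_congr rfl fun a _ => by rw [abs_mul, abs_of_nonneg hc]

/-- scaling of a one dimensional integral -/
theorem sc_int1 (f : ℝ → ℝ≥0∞) {r : ℝ} (hr : 0 < r) (a : ℝ) :
    ∫⁻ τ in Ioc (0 : ℝ) a, f (r * τ) = ENNReal.ofReal r⁻¹ * ∫⁻ τ in Ioc (0 : ℝ) (r * a), f τ := by
  have e : MeasurableEmbedding (fun t : ℝ => r * t) := (Homeomorph.mulLeft₀ r hr.ne').measurableEmbedding
  have h1 : Measure.map (fun t : ℝ => r * t) volume = ENNReal.ofReal r⁻¹ • (volume : Measure ℝ) := by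
    have := Real.map_volume_mul_left hr.ne'
    rw [this, abs_of_pos (inv_pos.2 hr)]
  have h2 : (fun t : ℝ => r * t) ⁻¹' (Ioc 0 (r * a)) = Ioc 0 a := by
    ext t
    simp only [mem_preimage, mem_Ioc]
    constructor
    · rintro ⟨h3, h4⟩
      exact ⟨(pos_iff_pos_of_mul_pos h3).1 hr, le_of_mul_le_mul_left h4 hr⟩
    · rintro ⟨h3, h4⟩
      exact ⟨mul_pos hr h3, mul_le_mul_of_nonneg_left h4 hr.le⟩
  have h3 : ∫⁻ τ in Ioc (0 : ℝ) (r * a), f τ ∂(Measure.map (fun t : ℝ => r * t) volume) =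
      ∫⁻ τ in Ioc (0 : ℝ) a, f (r * τ) := by
    rw [e.restrict_map, e.lintegral_map, h2]
  rw [← h3, h1, Measure.restrict_smul, lintegral_smul_measure, smul_eq_mul]

/-- scaling of a `d`-dimensional integral -/
theorem sc_intd (f : E d → ℝ≥0∞) (x : E d) {r : ℝ} (hr : 0 < r) (y : E d) (a : ℝ) :
    ∫⁻ z in Metric.closedBall y a, f (x + r • z) =
      ENNReal.ofReal ((r ^ d)⁻¹) * ∫⁻ z in Metric.closedBall (x + r • y) (r * a), f z := by
  have e1 : MeasurableEmbedding (fun z : E d => r • z) := (Homeomorph.smulOfNeZero r hr.ne').measurableEmbedding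
  have e2 : MeasurableEmbedding (fun z : E d => x + z) := (Homeomorph.addLeft x).measurableEmbedding
  have e : MeasurableEmbedding (fun z : E d => x + r • z) := e2.comp e1
  have h1 : Measure.map (fun z : E d => x + r • z) volume = ENNReal.ofReal ((r ^ d)⁻¹) • (volume : Measure (E d)) := by
    have h3 : (fun z : E d => x + r • z) = (fun z => x + z) ∘ (fun z => r • z) := rfl
    rw [h3, ← Measure.map_map e2.measurable e1.measurable, Measure.map_addHaar_smul _ hr.ne', Measure.map_smul,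
      map_add_left_eq_self]
    congr 2
    rw [abs_of_pos (by positivity)]
    simp
  have h2 : (fun z : E d => x + r • z) ⁻¹' (Metric.closedBall (x + r • y) (r * a)) = Metric.closedBall y a := by
    ext z
    simp only [mem_preimage, Metric.mem_closedBall]
    rw [dist_add_left, dist_smul₀, Real.norm_of_nonneg hr.le]
    exact mul_le_mul_iff_right₀ hr
  have h3 : ∫⁻ z in Metric.closedBall (x + r • y) (r * a), f z ∂(Measure.map (fun z : E d => x + r • z) volume) =
      ∫⁻ z in Metric.closedBall y a, f (x + r • z) := by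
    rw [e.restrict_map, e.lintegral_map, h2]
  rw [← h3, h1, Measure.restrict_smul, lintegral_smul_measure, smul_eq_mul]

/-- substitution `z' = x + r z`, `τ' = r τ` -/
theorem sc_WdE {M : ℝ≥0} {φ : E d → ℝ} {U : Set (P d)} {F : Ix d → P d → ℝ} (h : GFd M φ U F) (c1 : ℝ) (x : E d) {r : ℝ} (hr : 0 < r)
    {c : ℝ} (hc : 0 ≤ c) (y : E d) {ρ : ℝ} (hρ : 0 < ρ) :
    WdE (scφ x r φ) (scF x r c F) c1 y ρ = ENNReal.ofReal c * WdE φ F c1 (x + r • y) (r * ρ) := by
  unfold WdE
  have h1 : ∀ z : E d, ∫⁻ τ in Ioc (0 : ℝ) (c1 * ρ),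
      ENNReal.ofReal (nF (scF x r c F) (z, scφ x r φ z + τ) * τ ^ (-(1 / 2) : ℝ)) =
      ENNReal.ofReal c * (ENNReal.ofReal (r ^ (-(1 / 2) : ℝ)) * ∫⁻ τ in Ioc (0 : ℝ) (c1 * (r * ρ)),
        ENNReal.ofReal (nF F (x + r • z, φ (x + r • z) + τ) * τ ^ (-(1 / 2) : ℝ))) := by
    intro z
    have h2 : ∫⁻ τ in Ioc (0 : ℝ) (c1 * ρ),
        ENNReal.ofReal (nF (scF x r c F) (z, scφ x r φ z + τ) * τ ^ (-(1 / 2) : ℝ)) =
        ∫⁻ τ in Ioc (0 : ℝ) (c1 * ρ), ENNReal.ofReal (c * r ^ (1 / 2 : ℝ)) *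
          ENNReal.ofReal (nF F (x + r • z, φ (x + r • z) + r * τ) * (r * τ) ^ (-(1 / 2) : ℝ)) := by
      refine setLIntegral_congr_fun measurableSet_Ioc fun τ hτ => ?_
      rw [sc_nF F x r hc, ← ENNReal.ofReal_mul (by positivity), Real.mul_rpow hr.le hτ.1.le]
      congr 1
      simp only [scφ]
      have h4 : r * (φ (x + r • z) / r + τ) = φ (x + r • z) + r * τ := by
        field_simp
      rw [h4]
      have h5 : r ^ (1 / 2 : ℝ) * r ^ (-(1 / 2) : ℝ) = 1 := by
        rw [← Real.rpow_add hr]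
        norm_num
      calc c * nF F (x + r • z, φ (x + r • z) + r * τ) * τ ^ (-(1 / 2) : ℝ)
          = c * nF F (x + r • z, φ (x + r • z) + r * τ) * τ ^ (-(1 / 2) : ℝ) *
            (r ^ (1 / 2 : ℝ) * r ^ (-(1 / 2) : ℝ)) := by rw [h5, mul_one]
        _ = _ := by ring
    rw [h2, lintegral_const_mul' _ _ ENNReal.ofReal_ne_top,
      sc_int1 (fun τ => ENNReal.ofReal (nF F (x + r • z, φ (x + r • z) + τ) * τ ^ (-(1 / 2) : ℝ))) hr]
    rw [ENNReal.ofReal_mul hc, show r * (c1 * ρ) = c1 * (r * ρ) by ring, mul_assoc, ← mul_assoc (ENNReal.ofReal _)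
      (ENNReal.ofReal r⁻¹), ← ENNReal.ofReal_mul (by positivity)]
    congr 3
    rw [← Real.rpow_neg_one r, ← Real.rpow_add hr]
    norm_num
  simp only [h1]
  rw [lintegral_const_mul' _ _ ENNReal.ofReal_ne_top, lintegral_const_mul' _ _ ENNReal.ofReal_ne_top,
    sc_intd (fun z => ∫⁻ τ in Ioc (0 : ℝ) (c1 * (r * ρ)), ENNReal.ofReal (nF F (z, φ z + τ) * τ ^ (-(1 / 2) : ℝ))) x hr]
  rw [show r * (c1 * ρ) = c1 * (r * ρ) by ring]
  have h6 : ENNReal.ofReal ((r * ρ) ^ (-((d : ℝ) + 1 / 2))) = ENNReal.ofReal (ρ ^ (-((d : ℝ) + 1 / 2))) *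
      (ENNReal.ofReal (r ^ (-(1 / 2) : ℝ)) * ENNReal.ofReal ((r ^ d)⁻¹)) := by
    rw [← ENNReal.ofReal_mul (by positivity), ← ENNReal.ofReal_mul (by positivity)]
    congr 1
    rw [Real.mul_rpow hr.le hρ.le, mul_comm]
    congr 1
    rw [← Real.rpow_natCast r d, ← Real.rpow_neg hr.le, ← Real.rpow_add hr]
    congr 1
    ring
  rw [h6]
  ring

end HG
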