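import Pool.Agent.W_MP_825298_an.Kz6
import Pool.Agent.W_MP_825298_an.Ksc1
import Pool.Agent.W_MP_825298_an.Ex1

open MeasureTheory Set Filter Topology
open scoped ENNReal NNReal BigOperators

namespace HG
variable {d : ℕ}

variable {V : Type*} [NormedAddCommGroup V] [NormedSpace ℝ V]

theorem sc_enorm_smul {c : ℝ} (hc : 0 ≤ c) (v : V) : ‖c • v‖ₑ = ENNReal.ofReal c * ‖v‖ₑ := by
  rw [enorm_smul, Real.enorm_eq_ofReal hc]

theorem sc_gamE (m : E d → ℝ → V) (x : E d) (r : ℝ) {c : ℝ} (hc : 0 ≤ c) (y : E d) (ρ : ℝ) :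
    gamE (fun y ρ => c • m (x + r • y) (r * ρ)) y ρ = ENNReal.ofReal c * gamE m (x + r • y) (r * ρ) := by
  unfold gamE
  rw [ENNReal.mul_sub (fun _ _ => ENNReal.ofReal_ne_top), Finset.mul_sum]
  congr 1
  · refine Finset.sum_congr rfl fun k _ => ?_
    have e1 : x + r • (y + (ρ / 2) • kv k) = x + r • y + (r * ρ / 2) • kv k := by
      rw [smul_add, smul_smul, add_assoc, mul_div_assoc]
    have e2 : r * (ρ / 2) = r * ρ / 2 := by ring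
    simp only [e1, e2]
    rw [sc_enorm_smul hc]
    ring
  · exact sc_enorm_smul hc _

theorem sc_Hit {t : ℝ≥0∞} (ht0 : t ≠ 0) (ht : t ≠ ⊤) (κ A : ℝ≥0∞) (a w : ℕ → ℝ≥0∞) (a0 : ℝ≥0∞)
    (l : ℕ) : Hit κ A (fun l => t * a l) (fun l => t * w l) (t * a0) l ↔ Hit κ A a w a0 l := by
  unfold Hit Good
  have h1 : κ * (t * w l) = t * (κ * w l) := by ring
  have h2 : A * (t * a0) = t * (A * a0) := by ring
  rw [h1, h2, ENNReal.mul_le_mul_iff_right ht0 ht, ENNReal.mul_lt_mul_iff_right ht0 ht]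

/-- homogeneity of the path functionals -/
theorem K1_smul {t : ℝ≥0∞} (ht0 : t ≠ 0) (ht : t ≠ ⊤) (κ A : ℝ≥0∞) (a w : ℕ → ℝ≥0∞) (N : ℕ) :
    K1 κ A (fun l => t * a l) (fun l => t * w l) N = t * K1 κ A a w N := by
  unfold K1
  rw [Finset.mul_sum]
  refine Finset.sum_congr rfl fun l _ => ?_
  have e : (FirstHit (Hit κ A (fun l => t * a l) (fun l => t * w l) (t * a 0)) l ∧
      ∀ j < l, κ * (t * w j) ≤ A * (t * a 0)) ↔
      (FirstHit (Hit κ A a w (a 0)) l ∧ ∀ j < l, κ * w j ≤ A * a 0) := by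
    unfold FirstHit
    refine and_congr (and_congr (sc_Hit ht0 ht κ A a w (a 0) l)
      (forall₂_congr fun j _ => not_congr (sc_Hit ht0 ht κ A a w (a 0) j)))
      (forall₂_congr fun j _ => ?_)
    have h1 : κ * (t * w j) = t * (κ * w j) := by ring
    have h2 : A * (t * a 0) = t * (A * a 0) := by ring
    rw [h1, h2, ENNReal.mul_le_mul_iff_right ht0 ht]
  rw [propext e]
  ring

theorem K2_smul {t : ℝ≥0∞} (ht0 : t ≠ 0) (ht : t ≠ ⊤) (κ A : ℝ≥0∞) (a w g : ℕ → ℝ≥0∞) (N J : ℕ) :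
    K2 κ A (fun l => t * a l) (fun l => t * w l) (fun l => t * g l) N J = t * K2 κ A a w g N J := by
  unfold K2
  rw [Finset.mul_sum]
  refine Finset.sum_congr rfl fun l _ => ?_
  have e : (∀ j, j + J ≤ l → ¬ Hit κ A (fun l => t * a l) (fun l => t * w l) (t * a 0) j) ↔
      (∀ j, j + J ≤ l → ¬ Hit κ A a w (a 0) j) :=
    forall₂_congr fun j _ => not_congr (sc_Hit ht0 ht κ A a w (a 0) j)
  rw [propext e]
  ring

/-- The Key Lemma at all scales: `KL_unit` for the rescaled data with `c = 1/‖m(x,r)‖`. (`sc_WdE` is only available for positive scales, which is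
all that is needed: `1/2^l > 0`.) -/
theorem KL_main (hd : 3 ≤ d) (M : ℝ≥0) {c1 : ℝ} (hc1 : c1m M ≤ c1) {κ : ℝ≥0} (hκ : 0 < κ) :
    ∃ (L J : ℕ) (C1 : ℝ≥0), 1 ≤ L ∧ ∀ (φ : E d → ℝ) (U : Set (P d)) (F : Ix d → P d → ℝ), GFd M φ U F → ∀ r0 : ℝ,
    KLH κ (2 ^ L) C1 J r0 (avg (hb φ F)) (WdE φ F c1) := by
  obtain ⟨L, J, C1, hL, H⟩ := KL_unit hd M hc1 hκ
  refine ⟨L, J, C1, hL, fun φ U F hG r0 x r N hr _ hW hm => ?_⟩
  obtain ⟨m, hmdef⟩ : ∃ m, m = avg (hb φ F) := ⟨_, rfl⟩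
  rw [← hmdef] at hW hm ⊢
  have hnorm : 0 < ‖m x r‖ := norm_pos_iff.2 hm
  obtain ⟨c, hc⟩ : ∃ c : ℝ, c = ‖m x r‖⁻¹ := ⟨_, rfl⟩
  have hcpos : 0 < c := hc ▸ inv_pos.2 hnorm
  obtain ⟨t, htdef⟩ : ∃ t : ℝ≥0∞, t = ENNReal.ofReal c := ⟨_, rfl⟩
  have ht0 : t ≠ 0 := by
    rw [htdef]
    exact (ENNReal.ofReal_pos.2 hcpos).ne'
  have ht : t ≠ ⊤ := by
    rw [htdef]
    exact ENNReal.ofReal_ne_top
  have htm : t * ‖m x r‖ₑ = 1 := by
    rw [htdef, ← sc_enorm_smul hcpos.le, ← ofReal_norm, norm_smul, Real.norm_of_nonneg hcpos.le, hc,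
      inv_mul_cancel₀ hnorm.ne', ENNReal.ofReal_one]
  obtain ⟨m', hm'⟩ : ∃ m', m' = avg (hb (scφ x r φ) (scF x r c F)) := ⟨_, rfl⟩
  have hm'2 : m' = fun y ρ => c • m (x + r • y) (r * ρ) := by
    funext y ρ
    rw [hm', sc_avg φ F x hr c y ρ, ← hmdef]
  have hW' : ∀ (y : E d) {ρ : ℝ}, 0 < ρ → WdE (scφ x r φ) (scF x r c F) c1 y ρ =
      t * WdE φ F c1 (x + r • y) (r * ρ) := fun y ρ hρ => by
    rw [htdef]
    exact sc_WdE hG c1 x hr hcpos.le y hρ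
  have hpow : ∀ l : ℕ, (0 : ℝ) < 1 / 2 ^ l := fun l => by positivity
  have hrl : ∀ l : ℕ, r * (1 / 2 ^ l) = r / 2 ^ l := fun l => by ring
  have hav : ∀ ω : ℕ → St d, av m' 0 1 ω = fun l => t * av m x r ω l := by
    intro ω
    funext l
    unfold av
    rw [hm'2]
    simp only
    rw [sc_enorm_smul hcpos.le, ← htdef, one_smul, zero_add, hrl]
  have hwv : ∀ ω : ℕ → St d, wv (WdE (scφ x r φ) (scF x r c F) c1) 0 1 ω =
      fun l => t * wv (WdE φ F c1) x r ω l := by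
    intro ω
    funext l
    unfold wv
    rw [hW' _ (hpow l), one_smul, zero_add, hrl]
  have hgam : ∀ ω : ℕ → St d, wv (gamE m') 0 1 ω = fun l => t * wv (gamE m) x r ω l := by
    intro ω
    funext l
    unfold wv
    rw [hm'2, sc_gamE m x r hcpos.le, ← htdef, one_smul, zero_add, hrl]
  have hgam8 : ∀ (ω : ℕ → St d) (i : ℕ), wv (gamE m') 0 8 ω i =
      t * gamE m (x + (8 * r) • Zp i ω) (8 * r / 2 ^ i) := by
    intro ω i
    unfold wv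
    rw [hm'2, sc_gamE m x r hcpos.le, ← htdef, zero_add, smul_smul]
    have e1 : r * 8 = 8 * r := by ring
    have e2 : r * (8 / 2 ^ i) = 8 * r / 2 ^ i := by ring
    rw [e1, e2]
  have h1 : ‖m' 0 1‖ₑ = 1 := by
    rw [hm'2]
    simp only
    rw [sc_enorm_smul hcpos.le, ← htdef, smul_zero, add_zero, mul_one, htm]
  have h2 : (κ : ℝ≥0∞) * WdE (scφ x r φ) (scF x r c F) c1 0 1 ≤ 1 := by
    rw [hW' _ one_pos, smul_zero, add_zero, mul_one]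
    calc (κ : ℝ≥0∞) * (t * WdE φ F c1 x r) = t * (κ * WdE φ F c1 x r) := by ring
      _ ≤ t * ‖m x r‖ₑ := by gcongr
      _ = 1 := htm
  have hG' := sc_GFd hG x hr c
  have key := H (scφ x r φ) (scU x r U) (scF x r c F) hG' (by rw [← hm']; exact h1) h2 N
  rw [← hm'] at key
  unfold Gam at key
  simp only [hav, hwv, hgam, hgam8] at key
  simp only [K1_smul ht0 ht, K2_smul ht0 ht] at key
  simp only [← Finset.mul_sum] at key
  rw [Ex_mul, Ex_mul, Ex_mul] at key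
  have hmt : ‖m x r‖ₑ * t = 1 := by rw [mul_comm]; exact htm
  obtain ⟨X, hX⟩ : ∃ X, X = Ex N (fun ω : ℕ → St d => K1 κ ((2 ^ L : ℝ≥0) : ℝ≥0∞) (av m x r ω)
    (wv (WdE φ F c1) x r ω) N) := ⟨_, rfl⟩
  obtain ⟨Y, hY⟩ : ∃ Y, Y = Ex (N + J) (fun ω : ℕ → St d => K2 κ ((2 ^ L : ℝ≥0) : ℝ≥0∞)
    (av m x r ω) (wv (WdE φ F c1) x r ω) (wv (gamE m) x r ω) N J) := ⟨_, rfl⟩
  obtain ⟨Z, hZ⟩ : ∃ Z, Z = Ex J (fun ω : ℕ → St d => ∑ i ∈ Finset.range (J + 1),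
    gamE m (x + (8 * r) • Zp i ω) (8 * r / 2 ^ i)) := ⟨_, rfl⟩
  rw [← hX, ← hY, ← hZ] at key
  rw [← hX, ← hY, ← hZ]
  calc X = ‖m x r‖ₑ * t * X := by rw [hmt, one_mul]
    _ = ‖m x r‖ₑ * (t * X) := by ring
    _ ≤ ‖m x r‖ₑ * (1 / 2 + C1 * (t * Y + t * Z)) := by gcongr
    _ = ‖m x r‖ₑ * (1 / 2) + C1 * ((‖m x r‖ₑ * t) * (Y + Z)) := by ring
    _ = ‖m x r‖ₑ / 2 + C1 * (Y + Z) := by rw [hmt, one_mul, mul_one_div]

end HG
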