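import Pool.Agent.W_MP_825298_an.TBDefs
import Pool.Agent.W_MP_825298_an.Ksc2

open MeasureTheory Set Filter Topology
open scoped ENNReal NNReal BigOperators

namespace HG
variable {d : ℕ}

/-- the two notations for the box functional agree -/
theorem KLS_Wf_eq (φ : E d → ℝ) (F : Ix d → P d → ℝ) (c : ℝ) : Wf φ F c = WdE φ F c := by
  funext x r
  unfold WdE Wf
  congr 1
  refine lintegral_congr fun y => ?_
  refine lintegral_congr fun τ => ?_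
  have h0 : 0 ≤ nF F (y, φ y + τ) := Finset.sum_nonneg fun _ _ => abs_nonneg _
  rw [ENNReal.ofReal_mul h0, mul_comm]

/-- THE KL LEMMA (helper67, section 4 of the paper proof), interface for the final assembly. -/
theorem KL_lemma (hd : 3 ≤ d) (M : ℝ≥0) : ∃ c0 : ℝ, 1 ≤ c0 ∧ ∀ c : ℝ, c0 ≤ c → ∀ κ : ℝ≥0, 0 < κ →
    ∃ (L J : ℕ) (C1 : ℝ≥0), 1 ≤ L ∧ ∀ (φ : E d → ℝ), LipschitzWith M φ →
    ∀ (U : Set (P d)), IsOpen U → aboveC φ ⊆ U → ∀ (F : Ix d → P d → ℝ), IsField U F →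
    ∀ CF : ℝ, (∀ X ∈ aboveC φ, nF F X ≤ CF * (1 + ‖X‖) ^ (-((d : ℝ) + 1))) →
    ∀ r0 : ℝ, KLH κ (2 ^ L) C1 J r0 (avg (hb φ F)) (Wf φ F c) := by
  refine ⟨c1m M, ?_, ?_⟩
  · unfold c1m
    have := M.2
    have h : (0 : ℝ) ≤ (M : ℝ) := M.2
    linarith
  intro c hc κ hκ
  obtain ⟨L, J, C1, hL, h⟩ := KL_main hd M hc hκ
  refine ⟨L, J, C1, hL, fun φ hφ U hU hDU F hF CF _ r0 => ?_⟩
  rw [KLS_Wf_eq]
  exact h φ U F ⟨hφ, hU, hDU, hF⟩ r0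

end HG
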