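import Pool.Agent.W_MP_825298_an.Repr1
import Pool.Agent.W_MP_825298_an.CertAlg5

open MeasureTheory Set Filter Topology
open scoped ENNReal NNReal BigOperators

namespace HG
variable {d : ℕ}

theorem Repr3_apply {f : E d → VV d} (hf : Integrable f) (o : Option (Ix d × Ix d)) :
    (∫ x, f x) o = ∫ x, (f x) o := by
  have h := (EuclideanSpace.proj (𝕜 := ℝ) o : VV d →L[ℝ] ℝ).integral_comp_comm hf
  exact h.symm

theorem Repr3_integrable_apply {f : E d → VV d} (hf : Integrable f) (o : Option (Ix d × Ix d)) :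
    Integrable (fun x => (f x) o) :=
  (EuclideanSpace.proj (𝕜 := ℝ) o : VV d →L[ℝ] ℝ).integrable_comp hf

/-- the distance from a pole off the graph -/
theorem Repr3_dist {M : ℝ≥0} {φ : E d → ℝ} (hφ : LipschitzWith M φ) {Z : P d}
    (hZ : φ Z.1 ≠ Z.2) : ∃ c : ℝ, 0 < c ∧ ∀ x : E d, c * (1 + ‖x‖) ≤ ‖((x, φ x) : P d) - Z‖ := by
  set η : ℝ := |φ Z.1 - Z.2| with hη
  have hη0 : 0 < η := abs_pos.2 (sub_ne_zero.2 hZ)
  have hM : (0 : ℝ) ≤ M := M.2
  set c0 : ℝ := η / (1 + M) with hc0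
  have hc0p : 0 < c0 := by positivity
  set r : ℝ := ‖Z.1‖ with hr
  have hr0 : 0 ≤ r := norm_nonneg _
  have h1 : ∀ x : E d, ‖x - Z.1‖ ≤ ‖((x, φ x) : P d) - Z‖ := fun x => norm_fst_le (((x, φ x) : P d) - Z)
  have h2 : ∀ x : E d, |φ x - Z.2| ≤ ‖((x, φ x) : P d) - Z‖ := fun x => by
    have := norm_snd_le (((x, φ x) : P d) - Z)
    rwa [Real.norm_eq_abs] at this
  have h3 : ∀ x : E d, c0 ≤ ‖((x, φ x) : P d) - Z‖ := by
    intro x
    by_cases hx : c0 ≤ ‖x - Z.1‖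
    · exact hx.trans (h1 x)
    · push Not at hx
      refine le_trans ?_ (h2 x)
      have h4 : |φ x - φ Z.1| ≤ M * ‖x - Z.1‖ := by
        have := hφ.dist_le_mul x Z.1
        rwa [Real.dist_eq, dist_eq_norm] at this
      have h5 : η ≤ |φ x - Z.2| + |φ x - φ Z.1| := by
        rw [hη]
        have : φ Z.1 - Z.2 = (φ x - Z.2) - (φ x - φ Z.1) := by ring
        rw [this]
        exact abs_sub _ _
      have h6 : (M : ℝ) * ‖x - Z.1‖ ≤ M * c0 := mul_le_mul_of_nonneg_left hx.le hM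
      have h7 : c0 + M * c0 = η := by
        rw [hc0]
        field_simp
      linarith
  refine ⟨((1 + r) / c0 + 1)⁻¹, by positivity, fun x => ?_⟩
  rw [inv_mul_le_iff₀ (by positivity)]
  have h8 : ‖x‖ ≤ r + ‖x - Z.1‖ := by
    have := norm_add_le Z.1 (x - Z.1)
    rwa [add_sub_cancel] at this
  have h9 : 1 + r ≤ (1 + r) / c0 * ‖((x, φ x) : P d) - Z‖ := by
    calc 1 + r = (1 + r) / c0 * c0 := by field_simp
      _ ≤ _ := mul_le_mul_of_nonneg_left (h3 x) (by positivity)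
  have := h1 x
  nlinarith

theorem Repr3_ne {φ : E d → ℝ} {Z : P d} (hZ : φ Z.1 ≠ Z.2) (x : E d) :
    ((x, φ x) : P d) - Z ≠ 0 := by
  intro h
  have h1 : ((x, φ x) : P d) = Z := sub_eq_zero.1 h
  apply hZ
  rw [← h1]

theorem Repr3_integrable {M : ℝ≥0} {φ : E d → ℝ} (hφ : LipschitzWith M φ) {U : Set (P d)}
    (hDU : aboveC φ ⊆ U) {F : Ix d → P d → ℝ} (hF : IsField U F) {CF δ : ℝ}
    (hδ : 0 < δ) (hdec : ∀ X ∈ aboveC φ, nF F X ≤ CF * (1 + ‖X‖) ^ (-δ)) {Z : P d}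
    (hZ : φ Z.1 ≠ Z.2) (b : Ix d) :
    Integrable (fun x : E d => nk b ((x, φ x) - Z) • hb φ F x) := by
  obtain ⟨c, hc, hdist⟩ := Repr3_dist hφ hZ
  obtain ⟨C1, hC1, hnk, -⟩ := nk_bound d
  obtain ⟨C2, hC2, hhb⟩ := hb_norm_le d M
  have hmeas : AEStronglyMeasurable (fun x : E d => nk b ((x, φ x) - Z) • hb φ F x) volume := by
    have hg : Measurable (fun x : E d => ((x, φ x) : P d) - Z) :=
      (measurable_id.prodMk hφ.continuous.measurable).sub_const Z
    have h1 : Measurable (fun x : E d => nk b (((x, φ x) : P d) - Z)) :=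
      (nk_measurable b).comp hg
    have h2 : Measurable (hb φ F) := hb_measurable hφ hDU (fun a => (hF.cd a).continuousOn)
    exact (h1.smul h2).aestronglyMeasurable
  have hr : ((Module.finrank ℝ (E d) : ℕ) : ℝ) < (d : ℝ) + δ := by
    rw [Module.finrank_fin_fun]
    linarith
  have hint := (integrable_one_add_norm (μ := (volume : Measure (E d))) hr).const_mul
    (C1 / c ^ d * (C2 * CF))
  refine hint.mono' hmeas (Filter.Eventually.of_forall fun x => ?_)
  rw [norm_smul, Real.norm_eq_abs]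
  have hx1 : 0 < 1 + ‖x‖ := by positivity
  have hx : ((x, φ x) : P d) ∈ aboveC φ := le_refl (φ x)
  have hd1 := hdist x
  have hp : 0 < c * (1 + ‖x‖) := by positivity
  have h1 : |nk b (((x, φ x) : P d) - Z)| ≤ C1 / (c * (1 + ‖x‖)) ^ d := by
    refine (hnk b _ (Repr3_ne hZ x)).trans ?_
    gcongr
  have h2 : nF F (x, φ x) ≤ CF * (1 + ‖x‖) ^ (-δ) := by
    have h3 := hdec _ hx
    have h4 : 0 ≤ nF F (x, φ x) := Finset.sum_nonneg fun _ _ => abs_nonneg _
    have h5 : 0 < (1 + ‖((x, φ x) : P d)‖) ^ (-δ) := by positivity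
    have h6 : 0 ≤ CF := by
      by_contra h7
      push Not at h7
      have := mul_neg_of_neg_of_pos h7 h5
      linarith
    refine h3.trans (mul_le_mul_of_nonneg_left ?_ h6)
    refine Real.rpow_le_rpow_of_nonpos hx1 ?_ (by linarith)
    have := norm_fst_le ((x, φ x) : P d)
    simp only at this
    linarith
  have h3 : ‖hb φ F x‖ ≤ C2 * (CF * (1 + ‖x‖) ^ (-δ)) :=
    (hhb φ hφ F x).trans (mul_le_mul_of_nonneg_left h2 hC2.le)
  calc |nk b (((x, φ x) : P d) - Z)| * ‖hb φ F x‖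
      ≤ C1 / (c * (1 + ‖x‖)) ^ d * (C2 * (CF * (1 + ‖x‖) ^ (-δ))) :=
        mul_le_mul h1 h3 (norm_nonneg _) (by positivity)
    _ = C1 / c ^ d * (C2 * CF) * (1 + ‖x‖) ^ (-((d : ℝ) + δ)) := by
      have h4 : (1 + ‖x‖) ^ (-((d : ℝ) + δ)) = ((1 + ‖x‖) ^ d)⁻¹ * (1 + ‖x‖) ^ (-δ) := by
        rw [neg_add, Real.rpow_add hx1, Real.rpow_neg hx1.le, Real.rpow_natCast]
      rw [h4, mul_pow]
      field_simp

/-- Corollary of `repr_in` at `X₀` and `repr_out` at `X₁`: with `k_b(x) = nk b ((x,φ x)-X₀) - nk b ((x,φ x)-X₁)`,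
`F_a(X₀) = ∫ k_a h_none + ∑_b √2 ∫ k_b h_(a,b)`, `h = hb φ F` (all integrals converge absolutely). -/
theorem repr_vec (hd : 1 ≤ d) : ∃ C : ℝ, 0 < C ∧ ∀ (M : ℝ≥0) (φ : E d → ℝ), LipschitzWith M φ →
    ∀ (U : Set (P d)), IsOpen U → aboveC φ ⊆ U → ∀ (F : Ix d → P d → ℝ), IsField U F →
    ∀ (CF δ : ℝ), 0 < δ → (∀ X ∈ aboveC φ, nF F X ≤ CF * (1 + ‖X‖) ^ (-δ)) →
    ∀ X₀ ∈ above φ, ∀ X₁, X₁ ∉ aboveC φ → nF F X₀ ≤
      C * ∑ b : Ix d, ‖∫ x : E d, (nk b ((x, φ x) - X₀) - nk b ((x, φ x) - X₁)) • hb φ F x‖ := by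
  refine ⟨(Fintype.card (Ix d) : ℝ) * (1 + Real.sqrt 2), by positivity, ?_⟩
  intro M φ hφ U hU hDU F hF CF δ hδ hdec X₀ hX₀ X₁ hX₁
  have hZ0 : φ X₀.1 ≠ X₀.2 := by
    have h : φ X₀.1 < X₀.2 := hX₀
    exact h.ne
  have hZ1 : φ X₁.1 ≠ X₁.2 := by
    intro h
    exact hX₁ (le_of_eq h)
  set w : Ix d → E d → VV d := fun b x =>
    (nk b ((x, φ x) - X₀) - nk b ((x, φ x) - X₁)) • hb φ F x with hw
  have hwint : ∀ b, Integrable (w b) := by
    intro b
    have h0 := Repr3_integrable hφ hDU hF hδ hdec hZ0 b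
    have h1 := Repr3_integrable hφ hDU hF hδ hdec hZ1 b
    have h2 : w b = fun x => nk b ((x, φ x) - X₀) • hb φ F x - nk b ((x, φ x) - X₁) • hb φ F x := by
      funext x
      exact sub_smul _ _ _
    rw [h2]
    exact h0.sub h1
  have hs2 : Real.sqrt 2 ≠ 0 := by positivity
  have hpt : ∀ (a : Ix d) (x : E d), rdens φ F a X₀ x - rdens φ F a X₁ x =
      (w a x) none + Real.sqrt 2 * ∑ b : Ix d, (w b x) (some (a, b)) := by
    intro a x
    have e1 : (w a x) none = (nk a ((x, φ x) - X₀) - nk a ((x, φ x) - X₁)) *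
        ∑ b : Ix d, om φ b x * F b (x, φ x) := rfl
    have e2 : ∀ b, (w b x) (some (a, b)) = (nk b ((x, φ x) - X₀) - nk b ((x, φ x) - X₁)) *
        ((F a (x, φ x) * om φ b x - F b (x, φ x) * om φ a x) / Real.sqrt 2) := fun b => rfl
    rw [e1, Finset.mul_sum Finset.univ _ (Real.sqrt 2)]
    simp only [e2]
    unfold rdens
    have e3 : ∀ b : Ix d, Real.sqrt 2 * ((nk b ((x, φ x) - X₀) - nk b ((x, φ x) - X₁)) *
        ((F a (x, φ x) * om φ b x - F b (x, φ x) * om φ a x) / Real.sqrt 2)) =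
        nk b ((x, φ x) - X₀) * (F a (x, φ x) * om φ b x - F b (x, φ x) * om φ a x) -
        nk b ((x, φ x) - X₁) * (F a (x, φ x) * om φ b x - F b (x, φ x) * om φ a x) := by
      intro b
      field_simp
    simp only [e3]
    rw [Finset.sum_sub_distrib]
    ring
  have hFa : ∀ a : Ix d, F a X₀ = (∫ x, w a x) none +
      Real.sqrt 2 * ∑ b : Ix d, (∫ x, w b x) (some (a, b)) := by
    intro a
    obtain ⟨i0, r0⟩ := repr_in hd hφ hU hDU hF hδ hdec a hX₀
    obtain ⟨i1, r1⟩ := repr_out hd hφ hU hDU hF hδ hdec a hX₁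
    have h1 : ∫ x : E d, (rdens φ F a X₀ x - rdens φ F a X₁ x) = F a X₀ := by
      rw [integral_sub i0 i1, r0, r1, sub_zero]
    have h2 : ∫ x : E d, (rdens φ F a X₀ x - rdens φ F a X₁ x) =
        ∫ x : E d, ((w a x) none + Real.sqrt 2 * ∑ b : Ix d, (w b x) (some (a, b))) :=
      integral_congr_ae (Filter.Eventually.of_forall fun x => hpt a x)
    rw [← h1, h2, integral_add (Repr3_integrable_apply (hwint a) none)
      ((integrable_finsetSum _ fun b _ => Repr3_integrable_apply (hwint b) (some (a, b))).const_mul _),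
      integral_const_mul, integral_finsetSum _ fun b _ => Repr3_integrable_apply (hwint b) (some (a, b)),
      Repr3_apply (hwint a)]
    congr 2
    refine Finset.sum_congr rfl fun b _ => ?_
    rw [Repr3_apply (hwint b)]
  set S : ℝ := ∑ b : Ix d, ‖∫ x : E d, w b x‖ with hS
  have hle : ∀ a : Ix d, |F a X₀| ≤ (1 + Real.sqrt 2) * S := by
    intro a
    rw [hFa a]
    have h1 : |(∫ x, w a x) none| ≤ S := by
      have h2 : |(∫ x, w a x) none| ≤ ‖∫ x, w a x‖ := by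
        have := PiLp.norm_apply_le (∫ x, w a x) none
        rwa [Real.norm_eq_abs] at this
      exact h2.trans (Finset.single_le_sum (f := fun b => ‖∫ x : E d, w b x‖)
        (fun b _ => norm_nonneg _) (Finset.mem_univ a))
    have h3 : |∑ b : Ix d, (∫ x, w b x) (some (a, b))| ≤ S := by
      refine (Finset.abs_sum_le_sum_abs _ _).trans (Finset.sum_le_sum fun b _ => ?_)
      have := PiLp.norm_apply_le (∫ x, w b x) (some (a, b))
      rwa [Real.norm_eq_abs] at this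
    calc |(∫ x, w a x) none + Real.sqrt 2 * ∑ b : Ix d, (∫ x, w b x) (some (a, b))|
        ≤ |(∫ x, w a x) none| + |Real.sqrt 2 * ∑ b : Ix d, (∫ x, w b x) (some (a, b))| :=
          abs_add_le _ _
      _ ≤ S + Real.sqrt 2 * S := by
          rw [abs_mul, abs_of_nonneg (Real.sqrt_nonneg 2)]
          exact add_le_add h1 (mul_le_mul_of_nonneg_left h3 (Real.sqrt_nonneg 2))
      _ = (1 + Real.sqrt 2) * S := by ring
  calc nF F X₀ = ∑ a : Ix d, |F a X₀| := rfl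
    _ ≤ ∑ _a : Ix d, (1 + Real.sqrt 2) * S := Finset.sum_le_sum fun a _ => hle a
    _ = (Fintype.card (Ix d) : ℝ) * (1 + Real.sqrt 2) * S := by
      rw [Finset.sum_const, Finset.card_univ, nsmul_eq_mul]
      ring

end HG
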