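import Pool.Agent.W_MP_825298_an.Spl2

open MeasureTheory Set Filter Topology
open scoped ENNReal NNReal BigOperators

namespace HG
variable {d : ℕ}

variable {V : Type*} [NormedAddCommGroup V] [NormedSpace ℝ V] [CompleteSpace V]

theorem s3_pk_continuous : Continuous (pk (d := d)) := pk_contDiff.continuous

theorem s3_pk_compact (hd : 1 ≤ d) : HasCompactSupport (pk (d := d)) := by
  refine HasCompactSupport.of_support_subset_isCompact (isCompact_closedBall (0 : E d) 2) ?_
  intro y hy
  rw [Function.mem_support] at hy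
  rw [mem_closedBall_zero_iff]
  by_contra h
  exact hy (pk_zero (not_le.1 h).le hd)

theorem s3_pk_integrable : Integrable (pk (d := d)) := by
  apply not_imp_comm.1 (integral_undef (μ := (volume : Measure (E d))))
  rw [pk_integral]
  norm_num

omit [CompleteSpace V] in
/-- substitution `z = x + r y` -/
theorem s3_subst (F : E d → V) (x : E d) {r : ℝ} (hr : 0 < r) :
    ∫ y : E d, F (x + r • y) = (r ^ d)⁻¹ • ∫ z : E d, F z := by
  have h1 := Measure.integral_comp_smul (μ := (volume : Measure (E d))) (fun y : E d => F (x + y)) r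
  rw [h1]
  have h2 := integral_add_left_eq_self (μ := (volume : Measure (E d))) F x
  rw [h2]
  simp only [Module.finrank_fintype_fun_eq_card, Fintype.card_fin]
  rw [abs_of_pos (by positivity)]

omit [CompleteSpace V] in
theorem s3_integrable_subst {F : E d → V} (hF : Integrable F) (x : E d) {r : ℝ} (hr : 0 < r) :
    Integrable (fun y : E d => F (x + r • y)) := by
  have h1 : Integrable (fun y : E d => F (x + y)) := hF.comp_add_left x
  exact h1.comp_smul hr.ne'

omit [CompleteSpace V] in
theorem s3_avg_eq (h : E d → V) (x : E d) {r : ℝ} (hr : 0 < r) :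
    avg h x r = ∫ z : E d, ((r ^ d)⁻¹ * pk (r⁻¹ • (z - x))) • h z := by
  have h1 := s3_subst (fun z : E d => pk (r⁻¹ • (z - x)) • h z) x hr
  unfold avg
  have h2 : (fun y : E d => pk y • h (x + r • y)) =
      fun y : E d => (fun z : E d => pk (r⁻¹ • (z - x)) • h z) (x + r • y) := by
    funext y
    have : r⁻¹ • (x + r • y - x) = y := by
      rw [add_sub_cancel_left, smul_smul, inv_mul_cancel₀ hr.ne', one_smul]
    simp only [this]
  rw [h2, h1, ← integral_smul]
  simp_rw [smul_smul]


omit [CompleteSpace V] in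
/-- refinement equation for averages: insert `pk_refine` and substitute `y = (kv k + y')/2`. -/
theorem s3_refEq (hd : 1 ≤ d) {h : E d → V} (hh : LocallyIntegrable h) : RefEq (avg h) := by
  intro x r hr
  have hr2 : 0 < r / 2 := by positivity
  have hterm : ∀ k : St d, Integrable (fun y : E d =>
      ((2 : ℝ) ^ d * (wt k : ℝ) * pk ((2 : ℝ) • y - kv k)) • h (x + r • y)) := by
    intro k
    have hc : Continuous (fun z : E d =>
        (2 : ℝ) ^ d * (wt k : ℝ) * pk ((2 : ℝ) • (r⁻¹ • (z - x)) - kv k)) := by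
      have := s3_pk_continuous (d := d)
      fun_prop
    have hcs : HasCompactSupport (fun z : E d =>
        (2 : ℝ) ^ d * (wt k : ℝ) * pk ((2 : ℝ) • (r⁻¹ • (z - x)) - kv k)) := by
      refine HasCompactSupport.of_support_subset_isCompact
        (isCompact_closedBall x (r * ((2 + ‖(kv k : E d)‖) / 2))) ?_
      intro z hz
      rw [Function.mem_support] at hz
      have h1 : pk ((2 : ℝ) • (r⁻¹ • (z - x)) - kv k) ≠ 0 := fun h0 => hz (by rw [h0, mul_zero])
      have h2 : ‖(2 : ℝ) • (r⁻¹ • (z - x)) - kv k‖ < 2 := by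
        by_contra h
        exact h1 (pk_zero (not_lt.1 h) hd)
      have h3 : ‖(2 : ℝ) • (r⁻¹ • (z - x))‖ ≤ 2 + ‖(kv k : E d)‖ := by
        calc ‖(2 : ℝ) • (r⁻¹ • (z - x))‖
            = ‖((2 : ℝ) • (r⁻¹ • (z - x)) - kv k) + kv k‖ := by rw [sub_add_cancel]
          _ ≤ ‖(2 : ℝ) • (r⁻¹ • (z - x)) - kv k‖ + ‖(kv k : E d)‖ := norm_add_le _ _
          _ ≤ _ := by linarith
      rw [norm_smul, norm_smul, Real.norm_of_nonneg (by norm_num : (0 : ℝ) ≤ 2),
        Real.norm_of_nonneg (inv_nonneg.mpr hr.le)] at h3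
      rw [Metric.mem_closedBall, dist_eq_norm]
      have h4 : ‖z - x‖ = r * (r⁻¹ * ‖z - x‖) := by field_simp
      rw [h4]
      apply mul_le_mul_of_nonneg_left _ hr.le
      linarith
    have h5 := hh.integrable_smul_left_of_hasCompactSupport hc hcs
    have h6 := s3_integrable_subst h5 x hr
    refine h6.congr (Eventually.of_forall fun y => ?_)
    have : r⁻¹ • (x + r • y - x) = y := by
      rw [add_sub_cancel_left, smul_smul, inv_mul_cancel₀ hr.ne', one_smul]
    simp only [this]
  have h1 : avg h x r = ∑ k : St d, ∫ y : E d,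
      ((2 : ℝ) ^ d * (wt k : ℝ) * pk ((2 : ℝ) • y - kv k)) • h (x + r • y) := by
    rw [← integral_finsetSum _ (fun k _ => hterm k)]
    unfold avg
    refine integral_congr_ae (Eventually.of_forall fun y => ?_)
    simp only
    rw [← Finset.sum_smul, ← pk_refine]
  rw [h1]
  refine Finset.sum_congr rfl fun k _ => ?_
  -- substitute `y' = 2 y - kv k`
  have h2 := s3_subst (V := V) (fun y' : E d => (pk y') • h (x + (r / 2) • kv k + (r / 2) • y'))
    (-kv k) (two_pos)
  have h3 : (fun y : E d => ((2 : ℝ) ^ d * (wt k : ℝ) * pk ((2 : ℝ) • y - kv k)) • h (x + r • y)) =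
      fun y : E d => ((2 : ℝ) ^ d * (wt k : ℝ)) •
        ((fun y' : E d => (pk y') • h (x + (r / 2) • kv k + (r / 2) • y')) (-kv k + (2 : ℝ) • y)) := by
    funext y
    simp only
    have e1 : -kv k + (2 : ℝ) • y = (2 : ℝ) • y - kv k := by abel
    have e2 : x + (r / 2) • kv k + (r / 2) • ((2 : ℝ) • y - kv k) = x + r • y := by
      rw [smul_sub, smul_smul, show r / 2 * 2 = r by ring]
      abel
    rw [e1, e2, smul_smul]
  rw [h3, integral_smul, h2, smul_smul]
  unfold avg
  congr 1
  field_simp

theorem s3_K_hasCompactSupport (hd : 1 ≤ d) {r : ℝ} (hr : 0 < r) :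
    HasCompactSupport (fun y : E d => (r ^ d)⁻¹ * pk (r⁻¹ • (-y))) := by
  refine HasCompactSupport.of_support_subset_isCompact (isCompact_closedBall (0 : E d) (2 * r)) ?_
  intro y hy
  rw [Function.mem_support] at hy
  have h1 : pk (r⁻¹ • (-y)) ≠ 0 := fun h0 => hy (by rw [h0, mul_zero])
  have h2 : ‖r⁻¹ • (-y)‖ < 2 := by
    by_contra h
    exact h1 (pk_zero (not_lt.1 h) hd)
  rw [norm_smul, norm_neg, Real.norm_of_nonneg (inv_nonneg.mpr hr.le)] at h2
  rw [mem_closedBall_zero_iff]
  have h4 : ‖y‖ = r * (r⁻¹ * ‖y‖) := by field_simp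
  rw [h4]
  nlinarith

theorem s3_continuous (hd : 1 ≤ d) {h : E d → V} (hh : LocallyIntegrable h) {r : ℝ} (hr : 0 < r) :
    Continuous (fun x => avg h x r) := by
  have hcs := s3_K_hasCompactSupport hd hr
  have hc : Continuous (fun y : E d => (r ^ d)⁻¹ * pk (r⁻¹ • (-y))) := by
    have := s3_pk_continuous (d := d)
    fun_prop
  have h1 := hcs.continuous_convolution_right (L := (ContinuousLinearMap.lsmul ℝ ℝ).flip) hh hc
  refine h1.congr fun x => ?_
  rw [s3_avg_eq h x hr]
  unfold convolution
  refine integral_congr_ae (Eventually.of_forall fun z => ?_)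
  simp


theorem s3_K_integral_right (z : E d) {r : ℝ} (hr : 0 < r) :
    ∫ x : E d, (r ^ d)⁻¹ * pk (r⁻¹ • (z - x)) = 1 := by
  rw [integral_const_mul]
  have h1 := integral_sub_left_eq_self (fun x : E d => pk (r⁻¹ • x)) (volume : Measure (E d)) z
  rw [h1, Measure.integral_comp_smul (volume : Measure (E d)) (fun x : E d => pk x) r⁻¹, pk_integral]
  simp only [Module.finrank_fintype_fun_eq_card, Fintype.card_fin, smul_eq_mul, mul_one]
  rw [inv_pow, inv_inv, abs_of_pos (by positivity)]
  field_simp

theorem s3_K_integrable_right (z : E d) {r : ℝ} (hr : 0 < r) :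
    Integrable (fun x : E d => (r ^ d)⁻¹ * pk (r⁻¹ • (z - x))) := by
  apply not_imp_comm.1 (integral_undef (μ := (volume : Measure (E d))))
  rw [s3_K_integral_right z hr]
  norm_num

theorem s3_K_nonneg (z x : E d) {r : ℝ} (hr : 0 < r) : 0 ≤ (r ^ d)⁻¹ * pk (r⁻¹ • (z - x)) :=
  mul_nonneg (by positivity) (pk_nonneg _)

omit [CompleteSpace V] in
theorem s3_lintegral_le {h : E d → V} (hh : AEStronglyMeasurable h volume) {r : ℝ} (hr : 0 < r) :
    ∫⁻ x : E d, ‖avg h x r‖ₑ ≤ ∫⁻ x : E d, ‖h x‖ₑ := by
  have h1 : ∀ x : E d, ‖avg h x r‖ₑ ≤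
      ∫⁻ z : E d, ENNReal.ofReal ((r ^ d)⁻¹ * pk (r⁻¹ • (z - x))) * ‖h z‖ₑ := by
    intro x
    rw [s3_avg_eq h x hr]
    refine (enorm_integral_le_lintegral_enorm _).trans (le_of_eq ?_)
    refine lintegral_congr fun z => ?_
    rw [enorm_smul, Real.enorm_of_nonneg (s3_K_nonneg z x hr)]
  refine (lintegral_mono h1).trans ?_
  have hm : AEMeasurable (Function.uncurry fun (x z : E d) =>
      ENNReal.ofReal ((r ^ d)⁻¹ * pk (r⁻¹ • (z - x))) * ‖h z‖ₑ)
      ((volume : Measure (E d)).prod volume) := by
    have hc : Continuous fun p : E d × E d => (r ^ d)⁻¹ * pk (r⁻¹ • (p.2 - p.1)) := by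
      have := s3_pk_continuous (d := d)
      fun_prop
    exact hc.measurable.ennreal_ofReal.aemeasurable.mul (hh.comp_snd.enorm)
  rw [lintegral_lintegral_swap hm]
  refine le_of_eq (lintegral_congr fun z => ?_)
  have hc : Continuous fun x : E d => (r ^ d)⁻¹ * pk (r⁻¹ • (z - x)) := by
    have := s3_pk_continuous (d := d)
    fun_prop
  rw [lintegral_mul_const _ hc.measurable.ennreal_ofReal]
  rw [← ofReal_integral_eq_lintegral_ofReal (s3_K_integrable_right z hr)
    (Eventually.of_forall fun x => s3_K_nonneg z x hr), s3_K_integral_right z hr]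
  simp

/-- the smoothed test function -/
noncomputable def s3_B (b : E d → ℝ) (s : ℝ) (z : E d) : ℝ := ∫ y : E d, pk y * b (z - s • y)

theorem s3_B_eq (b : E d → ℝ) {s : ℝ} (hs : 0 < s) (z : E d) :
    ∫ x : E d, b x * ((s ^ d)⁻¹ * pk (s⁻¹ • (z - x))) = s3_B b s z := by
  unfold s3_B
  have h1 := integral_sub_left_eq_self (fun w : E d => b (z - w) * ((s ^ d)⁻¹ * pk (s⁻¹ • w)))
    (volume : Measure (E d)) z
  have h2 : (fun x : E d => b x * ((s ^ d)⁻¹ * pk (s⁻¹ • (z - x)))) =
      fun x : E d => b (z - (z - x)) * ((s ^ d)⁻¹ * pk (s⁻¹ • (z - x))) := by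
    funext x; rw [sub_sub_cancel]
  rw [h2, h1]
  have h3 := Measure.integral_comp_smul (volume : Measure (E d))
    (fun w : E d => b (z - s • w) * ((s ^ d)⁻¹ * pk w)) s⁻¹
  have h4 : (fun w : E d => b (z - w) * ((s ^ d)⁻¹ * pk (s⁻¹ • w))) =
      fun w : E d => b (z - s • (s⁻¹ • w)) * ((s ^ d)⁻¹ * pk (s⁻¹ • w)) := by
    funext w; rw [smul_smul, mul_inv_cancel₀ hs.ne', one_smul]
  rw [h4, h3]
  simp only [Module.finrank_fintype_fun_eq_card, Fintype.card_fin, smul_eq_mul]
  rw [inv_pow, inv_inv, abs_of_pos (by positivity), ← integral_const_mul]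
  refine integral_congr_ae (Eventually.of_forall fun y => ?_)
  simp only
  field_simp

theorem s3_B_tendsto {b : E d → ℝ} (hb : Continuous b) (hc : HasCompactSupport b) {r : ℝ}
    (z : E d) : Tendsto (fun l : ℕ => s3_B b (r / 2 ^ l) z) atTop (𝓝 (b z)) := by
  obtain ⟨C, hC⟩ := hb.bounded_above_of_compact_support hc
  have h1 : b z = ∫ y : E d, pk y * b z := by
    rw [integral_mul_const, pk_integral, one_mul]
  rw [h1]
  unfold s3_B
  refine tendsto_integral_of_dominated_convergence (fun y => pk y * C) ?_ ?_ ?_ ?_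
  · intro l
    have := s3_pk_continuous (d := d)
    exact (by fun_prop : Continuous fun y : E d => pk y * b (z - (r / 2 ^ l) • y)).aestronglyMeasurable
  · exact s3_pk_integrable.mul_const C
  · intro l
    refine Eventually.of_forall fun y => ?_
    rw [norm_mul, Real.norm_of_nonneg (pk_nonneg y)]
    exact mul_le_mul_of_nonneg_left (hC _) (pk_nonneg y)
  · refine Eventually.of_forall fun y => ?_
    apply Tendsto.const_mul
    have h2 : Tendsto (fun l : ℕ => r / (2 : ℝ) ^ l) atTop (𝓝 0) := by
      have := tendsto_pow_atTop_nhds_zero_of_lt_one (r := (1 / 2 : ℝ)) (by norm_num) (by norm_num)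
      have h3 := this.const_mul r
      rw [mul_zero] at h3
      refine h3.congr fun l => ?_
      rw [one_div, inv_pow]; rfl
    have h3 : Tendsto (fun l : ℕ => z - (r / (2 : ℝ) ^ l) • y) atTop (𝓝 (z - (0 : ℝ) • y)) :=
      tendsto_const_nhds.sub (h2.smul_const y)
    rw [zero_smul, sub_zero] at h3
    exact (hb.tendsto z).comp h3

/-- Fubini -/
theorem s3_fubini {h : E d → V} (hh : LocallyIntegrable h) (hd : 1 ≤ d) {b : E d → ℝ}
    (hb : Continuous b) (hc : HasCompactSupport b) {s : ℝ} (hs : 0 < s) :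
    ∫ x : E d, b x • avg h x s = ∫ z : E d, s3_B b s z • h z := by
  obtain ⟨C, hC⟩ := hb.bounded_above_of_compact_support hc
  obtain ⟨R, hR⟩ := hc.isCompact.isBounded.subset_closedBall (0 : E d)
  have hC0 : 0 ≤ C := (norm_nonneg _).trans (hC 0)
  have hint : Integrable (Function.uncurry fun (x z : E d) =>
      (b x * ((s ^ d)⁻¹ * pk (s⁻¹ • (z - x)))) • h z)
      ((volume : Measure (E d)).prod volume) := by
    set K : Set (E d) := Metric.closedBall 0 (R + 2 * s) with hK
    have hKc : IsCompact K := isCompact_closedBall _ _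
    have hi1 : Integrable (fun x : E d => (K.indicator (fun _ => (1 : ℝ)) x)) :=
      (integrable_indicator_iff hKc.measurableSet).2
        (integrableOn_const (hs := hKc.measure_lt_top.ne))
    have hi2 : Integrable (fun z : E d => K.indicator (fun z => ‖h z‖) z) :=
      (integrable_indicator_iff hKc.measurableSet).2 (hh.integrableOn_isCompact hKc).norm
    have hi3 := (hi1.mul_prod hi2).const_mul (C * (s ^ d)⁻¹)
    refine hi3.mono' ?_ ?_
    · have hcc : Continuous fun p : E d × E d => b p.1 * ((s ^ d)⁻¹ * pk (s⁻¹ • (p.2 - p.1))) := by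
        have := s3_pk_continuous (d := d)
        fun_prop
      exact hcc.aestronglyMeasurable.smul hh.aestronglyMeasurable.comp_snd
    · refine Eventually.of_forall fun p => ?_
      obtain ⟨x, z⟩ := p
      simp only [Function.uncurry]
      by_cases hx : b x = 0
      · rw [hx, zero_mul, zero_smul, norm_zero]
        have : 0 ≤ K.indicator (fun _ => (1 : ℝ)) x := indicator_nonneg (fun _ _ => zero_le_one) x
        have h2 : 0 ≤ K.indicator (fun z => ‖h z‖) z := indicator_nonneg (fun _ _ => norm_nonneg _) z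
        positivity
      by_cases hp : pk (s⁻¹ • (z - x)) = 0
      · rw [hp, mul_zero, mul_zero, zero_smul, norm_zero]
        have : 0 ≤ K.indicator (fun _ => (1 : ℝ)) x := indicator_nonneg (fun _ _ => zero_le_one) x
        have h2 : 0 ≤ K.indicator (fun z => ‖h z‖) z := indicator_nonneg (fun _ _ => norm_nonneg _) z
        positivity
      have hxR : ‖x‖ ≤ R := by
        have : x ∈ Metric.closedBall (0 : E d) R :=
          hR (subset_tsupport _ (Function.mem_support.2 hx))
        simpa using this
      have hzx : ‖z - x‖ ≤ 2 * s := by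
        have h2 : ‖s⁻¹ • (z - x)‖ < 2 := by
          by_contra hcon
          exact hp (pk_zero (not_lt.1 hcon) hd)
        rw [norm_smul, Real.norm_of_nonneg (inv_nonneg.mpr hs.le)] at h2
        have h4 : ‖z - x‖ = s * (s⁻¹ * ‖z - x‖) := by field_simp
        rw [h4]
        nlinarith
      have hxK : x ∈ K := by
        rw [hK, mem_closedBall_zero_iff]; linarith
      have hzK : z ∈ K := by
        rw [hK, mem_closedBall_zero_iff]
        calc ‖z‖ = ‖(z - x) + x‖ := by rw [sub_add_cancel]
          _ ≤ ‖z - x‖ + ‖x‖ := norm_add_le _ _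
          _ ≤ _ := by linarith
      rw [indicator_of_mem hxK, indicator_of_mem hzK, norm_smul, norm_mul, norm_mul, one_mul]
      have h5 : ‖(s ^ d)⁻¹‖ = (s ^ d)⁻¹ := Real.norm_of_nonneg (by positivity)
      have h6 : ‖pk (s⁻¹ • (z - x))‖ ≤ 1 := by
        rw [Real.norm_of_nonneg (pk_nonneg _)]; exact pk_le_one _
      rw [h5]
      apply mul_le_mul_of_nonneg_right _ (norm_nonneg _)
      calc ‖b x‖ * ((s ^ d)⁻¹ * ‖pk (s⁻¹ • (z - x))‖) ≤ C * ((s ^ d)⁻¹ * 1) := by
            apply mul_le_mul (hC x) _ (by positivity) hC0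
            apply mul_le_mul_of_nonneg_left h6 (by positivity)
        _ = C * (s ^ d)⁻¹ := by rw [mul_one]
  have h1 : ∫ x : E d, b x • avg h x s =
      ∫ x : E d, ∫ z : E d, (b x * ((s ^ d)⁻¹ * pk (s⁻¹ • (z - x)))) • h z := by
    refine integral_congr_ae (Eventually.of_forall fun x => ?_)
    simp only
    rw [s3_avg_eq h x hs, ← integral_smul]
    simp_rw [smul_smul]
  rw [h1, integral_integral_swap hint]
  refine integral_congr_ae (Eventually.of_forall fun z => ?_)
  simp only
  rw [integral_smul_const, s3_B_eq b hs z]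

theorem s3_tendsto {h : E d → V} (hh : LocallyIntegrable h) (hd : 1 ≤ d) {b : E d → ℝ}
    (hb : Continuous b) (hc : HasCompactSupport b) (r : ℝ) (hr : 0 < r) :
    Tendsto (fun l : ℕ => ∫ z : E d, b z • avg h z (r / 2 ^ l)) atTop (𝓝 (∫ z : E d, b z • h z)) := by
  obtain ⟨C, hC⟩ := hb.bounded_above_of_compact_support hc
  obtain ⟨R, hR⟩ := hc.isCompact.isBounded.subset_closedBall (0 : E d)
  have hC0 : 0 ≤ C := (norm_nonneg _).trans (hC 0)
  have hs : ∀ l : ℕ, 0 < r / (2 : ℝ) ^ l := fun l => by positivity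
  have hsr : ∀ l : ℕ, r / (2 : ℝ) ^ l ≤ r := fun l =>
    div_le_self hr.le (one_le_pow₀ (by norm_num))
  simp_rw [fun l : ℕ => s3_fubini hh hd hb hc (hs l)]
  set K : Set (E d) := Metric.closedBall 0 (R + 2 * r) with hK
  have hKc : IsCompact K := isCompact_closedBall _ _
  refine tendsto_integral_of_dominated_convergence (fun z => K.indicator (fun z => C * ‖h z‖) z) ?_ ?_ ?_ ?_
  · intro l
    have hBc : Continuous (s3_B b (r / 2 ^ l)) := by
      unfold s3_B
      refine continuous_of_dominated (bound := fun y => pk y * C) ?_ ?_ ?_ ?_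
      · intro z
        have := s3_pk_continuous (d := d)
        exact (by fun_prop : Continuous fun y : E d => pk y * b (z - (r / 2 ^ l) • y)).aestronglyMeasurable
      · intro z
        refine Eventually.of_forall fun y => ?_
        rw [norm_mul, Real.norm_of_nonneg (pk_nonneg y)]
        exact mul_le_mul_of_nonneg_left (hC _) (pk_nonneg y)
      · exact s3_pk_integrable.mul_const C
      · refine Eventually.of_forall fun y => ?_
        fun_prop
    exact hBc.aestronglyMeasurable.smul hh.aestronglyMeasurable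
  · exact (integrable_indicator_iff hKc.measurableSet).2
      ((hh.integrableOn_isCompact hKc).norm.const_mul C)
  · intro l
    refine Eventually.of_forall fun z => ?_
    have hBb : ‖s3_B b (r / 2 ^ l) z‖ ≤ C := by
      unfold s3_B
      refine (norm_integral_le_of_norm_le (s3_pk_integrable.mul_const C)
        (Eventually.of_forall fun y => ?_)).trans (le_of_eq ?_)
      · rw [norm_mul, Real.norm_of_nonneg (pk_nonneg y)]
        exact mul_le_mul_of_nonneg_left (hC _) (pk_nonneg y)
      · rw [integral_mul_const, pk_integral, one_mul]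
    by_cases hz : z ∈ K
    · rw [indicator_of_mem hz, norm_smul]
      exact mul_le_mul_of_nonneg_right hBb (norm_nonneg _)
    · rw [indicator_of_notMem hz]
      have : s3_B b (r / 2 ^ l) z = 0 := by
        unfold s3_B
        rw [integral_eq_zero_of_ae (Eventually.of_forall fun y => ?_)]
        simp only [Pi.zero_apply]
        by_cases hy : 2 ≤ ‖y‖
        · rw [pk_zero hy hd, zero_mul]
        · have h1 : b (z - (r / 2 ^ l) • y) = 0 := by
            by_contra hne
            have h2 : z - (r / 2 ^ l) • y ∈ Metric.closedBall (0 : E d) R :=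
              hR (subset_tsupport _ (Function.mem_support.2 hne))
            rw [mem_closedBall_zero_iff] at h2
            apply hz
            rw [hK, mem_closedBall_zero_iff]
            calc ‖z‖ = ‖(z - (r / 2 ^ l) • y) + (r / 2 ^ l) • y‖ := by rw [sub_add_cancel]
              _ ≤ ‖z - (r / 2 ^ l) • y‖ + ‖(r / 2 ^ l) • y‖ := norm_add_le _ _
              _ ≤ R + r * 2 := by
                apply add_le_add h2
                rw [norm_smul, Real.norm_of_nonneg (hs l).le]
                exact mul_le_mul (hsr l) (not_le.1 hy).le (norm_nonneg _) hr.le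
              _ = R + 2 * r := by ring
          rw [h1, mul_zero]
      rw [this, zero_smul, norm_zero]
  · refine Eventually.of_forall fun z => ?_
    exact (s3_B_tendsto hb hc z).smul_const (h z)


/-- refinement equation for averages: insert `pk_refine` and substitute `y = (kv k + y')/2`. -/
theorem avg_refEq (hd : 1 ≤ d) {h : E d → V} (hh : LocallyIntegrable h) : RefEq (avg h) :=
  s3_refEq hd hh

/-- the averages are continuous in `x` (for `r ≠ 0`): convolution of a locally integrable function with a continuous kernel of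
compact support -/
theorem avg_continuous (hd : 1 ≤ d) {h : E d → V} (hh : LocallyIntegrable h) {r : ℝ} (hr : 0 < r) :
    Continuous (fun x => avg h x r) :=
  s3_continuous hd hh hr

theorem avg_lintegral_le {h : E d → V} (hh : AEStronglyMeasurable h volume) {r : ℝ} (hr : 0 < r) :
    ∫⁻ x : E d, ‖avg h x r‖ₑ ≤ ∫⁻ x : E d, ‖h x‖ₑ :=
  s3_lintegral_le hh hr

/-- convergence at small scales (Lebesgue points or continuity; weak form: against a continuous function with compact support) -/
theorem avg_tendsto {h : E d → V} (hh : LocallyIntegrable h) (hd : 1 ≤ d) {b : E d → ℝ} (hb : Continuous b)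
    (hc : HasCompactSupport b) (r : ℝ) (hr : 0 < r) :
    Tendsto (fun l : ℕ => ∫ z : E d, b z • avg h z (r / 2 ^ l)) atTop (𝓝 (∫ z : E d, b z • h z)) :=
  s3_tendsto hh hd hb hc r hr

/-- change of variables -/
theorem avg_eq (h : E d → V) (x : E d) {r : ℝ} (hr : 0 < r) :
    avg h x r = ∫ z : E d, ((r ^ d)⁻¹ * pk (r⁻¹ • (z - x))) • h z :=
  s3_avg_eq h x hr

end HG
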