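import Pool.Agent.W_MP_825298_an.TBDefs
import Pool.Agent.W_MP_825298_an.Spl3

open MeasureTheory Set Filter Topology
open scoped ENNReal NNReal BigOperators

namespace HG
variable {d : ℕ}

variable {V : Type*} [NormedAddCommGroup V] [NormedSpace ℝ V] [CompleteSpace V]

/-- the averages of an integrable function are integrable -/
theorem TB3_avg_integrable (hd : 1 ≤ d) {h : E d → V} (hh : Integrable h) {r : ℝ} (hr : 0 < r) :
    Integrable (fun z => avg h z r) := by
  refine ⟨(avg_continuous hd hh.locallyIntegrable hr).aestronglyMeasurable, ?_⟩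
  exact lt_of_le_of_lt (avg_lintegral_le hh.aestronglyMeasurable hr) hh.2

theorem TB3_integral_norm_le (hd : 1 ≤ d) {h : E d → V} (hh : Integrable h) {r : ℝ} (hr : 0 < r) :
    ∫ z : E d, ‖avg h z r‖ ≤ ∫ z : E d, ‖h z‖ := by
  rw [integral_norm_eq_lintegral_enorm (TB3_avg_integrable hd hh hr).aestronglyMeasurable,
    integral_norm_eq_lintegral_enorm hh.aestronglyMeasurable]
  exact ENNReal.toReal_mono hh.2.ne (avg_lintegral_le hh.aestronglyMeasurable hr)

/-- One step: insert `avg_refEq` and translate: `∫ k(z) m(z,ρ) dz = ∑_j wt j ∫ k(z - (ρ/2) kv j) m(z,ρ/2) dz`. -/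
theorem tele_step (hd : 1 ≤ d) {h : E d → V} (hh : Integrable h) {k : E d → ℝ} (hk : Continuous k) {K : ℝ} (hK : ∀ z, |k z| ≤ K)
    {ρ : ℝ} (hρ : 0 < ρ) :
    (∫ z : E d, k z • avg h z (ρ / 2)) = (∫ z : E d, k z • avg h z ρ) + ∫ z : E d, Dk k ρ z • avg h z (ρ / 2) := by
  have hρ2 : 0 < ρ / 2 := by positivity
  have hm := TB3_avg_integrable hd hh hρ2
  have hbm : ∀ {g : E d → ℝ} {m : E d → V}, Continuous g → (∀ z, |g z| ≤ K) → Integrable m →
      Integrable (fun z => g z • m z) := by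
    intro g m hg hgK hmm
    exact hmm.bdd_smul K hg.aestronglyMeasurable (Eventually.of_forall hgK)
  have hkm : Integrable (fun z => k z • avg h z (ρ / 2)) := hbm hk hK hm
  have hterm : ∀ j : St d, Integrable
      (fun z => ((wt j : ℝ) * k (z - (ρ / 2) • kv j)) • avg h z (ρ / 2)) := by
    intro j
    have h1 : Integrable (fun z => k (z - (ρ / 2) • kv j) • avg h z (ρ / 2)) :=
      hbm (hk.comp (continuous_id.sub continuous_const)) (fun z => hK _) hm
    simp only [mul_smul]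
    exact h1.smul (wt j : ℝ)
  have h1 : ∫ z : E d, Dk k ρ z • avg h z (ρ / 2) = (∫ z : E d, k z • avg h z (ρ / 2)) -
      ∑ j : St d, (wt j : ℝ) • ∫ z : E d, k (z - (ρ / 2) • kv j) • avg h z (ρ / 2) := by
    have h2 : ∀ z : E d, Dk k ρ z • avg h z (ρ / 2) = k z • avg h z (ρ / 2) -
        ∑ j : St d, ((wt j : ℝ) * k (z - (ρ / 2) • kv j)) • avg h z (ρ / 2) := by
      intro z
      unfold Dk
      rw [sub_smul, Finset.sum_smul]
    simp only [h2]
    rw [integral_sub hkm (integrable_finsetSum _ fun j _ => hterm j),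
      integral_finsetSum _ fun j _ => hterm j]
    congr 1
    refine Finset.sum_congr rfl fun j _ => ?_
    rw [← integral_smul]
    simp only [mul_smul]
  have h3 : ∫ z : E d, k z • avg h z ρ =
      ∑ j : St d, (wt j : ℝ) • ∫ z : E d, k (z - (ρ / 2) • kv j) • avg h z (ρ / 2) := by
    have h4 : ∀ z : E d, k z • avg h z ρ =
        ∑ j : St d, (wt j : ℝ) • (k z • avg h (z + (ρ / 2) • kv j) (ρ / 2)) := by
      intro z
      rw [avg_refEq hd hh.locallyIntegrable z ρ hρ, Finset.smul_sum]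
      refine Finset.sum_congr rfl fun j _ => ?_
      rw [smul_comm]
    have h5 : ∀ j : St d, Integrable
        (fun z => (wt j : ℝ) • (k z • avg h (z + (ρ / 2) • kv j) (ρ / 2))) := by
      intro j
      have h6 : Integrable (fun z => avg h (z + (ρ / 2) • kv j) (ρ / 2)) := hm.comp_add_right _
      exact (hbm hk hK h6).smul (wt j : ℝ)
    simp only [h4]
    rw [integral_finsetSum _ fun j _ => h5 j]
    refine Finset.sum_congr rfl fun j _ => ?_
    rw [integral_smul]
    congr 1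
    have h7 := integral_add_right_eq_self (μ := (volume : Measure (E d)))
      (fun z => k (z - (ρ / 2) • kv j) • avg h z (ρ / 2)) ((ρ / 2) • kv j)
    rw [← h7]
    simp only [add_sub_cancel_right]
  rw [h1, h3]
  abel

/-- uniform approximation by compactly supported functions -/
theorem TB3_approx {k : E d → ℝ} (hk : Continuous k) (hk0 : Tendsto k (cocompact (E d)) (𝓝 0))
    {ε : ℝ} (hε : 0 < ε) :
    ∃ b : E d → ℝ, Continuous b ∧ HasCompactSupport b ∧ ∀ z, |k z - b z| ≤ ε := by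
  refine ⟨fun z => k z - max (-ε) (min ε (k z)), ?_, ?_, ?_⟩
  · exact hk.sub (continuous_const.max (continuous_const.min hk))
  · have h1 : ∀ᶠ z in cocompact (E d), |k z| < ε := by
      have := hk0.abs
      rw [abs_zero] at this
      exact this.eventually (gt_mem_nhds hε)
    rw [Filter.eventually_iff, Filter.mem_cocompact] at h1
    obtain ⟨S, hS, hS2⟩ := h1
    refine HasCompactSupport.of_support_subset_isCompact hS ?_
    intro z hz
    by_contra hzS
    have h2 : |k z| < ε := hS2 hzS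
    have h3 := abs_lt.1 h2
    apply hz
    simp only
    rw [min_eq_right h3.2.le, max_eq_right h3.1.le, sub_self]
  · intro z
    rw [sub_sub_cancel]
    exact abs_le.2 ⟨le_max_left _ _, max_le (by linarith) (min_le_left _ _)⟩

theorem TB3_bounded {k : E d → ℝ} (hk : Continuous k) (hk0 : Tendsto k (cocompact (E d)) (𝓝 0)) :
    ∃ K : ℝ, ∀ z, |k z| ≤ K := by
  obtain ⟨b, hb, hbc, hkb⟩ := TB3_approx hk hk0 one_pos
  obtain ⟨C, hC⟩ := hb.bounded_above_of_compact_support hbc
  refine ⟨1 + C, fun z => ?_⟩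
  have h1 := hkb z
  have h2 : |b z| ≤ C := hC z
  have h3 : |k z| ≤ |k z - b z| + |b z| := by
    have := abs_add_le (k z - b z) (b z)
    rwa [sub_add_cancel] at this
  linarith

omit [CompleteSpace V] in
theorem TB3_diff_le {k b : E d → ℝ} (hk : Continuous k) (hb : Continuous b) {K B : ℝ}
    (hK : ∀ z, |k z| ≤ K) (hB : ∀ z, |b z| ≤ B) {ε : ℝ} (hkb : ∀ z, |k z - b z| ≤ ε)
    {m : E d → V} (hm : Integrable m) :
    ‖(∫ z : E d, k z • m z) - ∫ z : E d, b z • m z‖ ≤ ε * ∫ z : E d, ‖m z‖ := by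
  have h1 : Integrable (fun z => k z • m z) :=
    hm.bdd_smul K hk.aestronglyMeasurable (Eventually.of_forall hK)
  have h2 : Integrable (fun z => b z • m z) :=
    hm.bdd_smul B hb.aestronglyMeasurable (Eventually.of_forall hB)
  rw [← integral_sub h1 h2, ← integral_const_mul]
  refine norm_integral_le_of_norm_le (hm.norm.const_mul ε) (Eventually.of_forall fun z => ?_)
  rw [← sub_smul, norm_smul]
  exact mul_le_mul_of_nonneg_right (hkb z) (norm_nonneg _)

/-- Convergence of `∫ k m(.,r_l)` to `∫ k h` for continuous `k → 0` at infinity: split `k = k η + k (1-η)`, `η` a continuous compactly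
supported cutoff, `avg_tendsto` for the first part, `avg_lintegral_le` and `sup |k (1-η)|` small for the second. -/
theorem tele_limit (hd : 1 ≤ d) {h : E d → V} (hh : Integrable h) {k : E d → ℝ} (hk : Continuous k)
    (hk0 : Tendsto k (cocompact (E d)) (𝓝 0)) {r : ℝ} (hr : 0 < r) :
    Tendsto (fun l : ℕ => ∫ z : E d, k z • avg h z (r / 2 ^ l)) atTop (𝓝 (∫ z : E d, k z • h z)) := by
  obtain ⟨K, hK⟩ := TB3_bounded hk hk0
  rw [Metric.tendsto_atTop]
  intro δ hδ
  set I : ℝ := ∫ z : E d, ‖h z‖ with hI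
  have hI0 : 0 ≤ I := integral_nonneg fun z => norm_nonneg _
  set ε : ℝ := δ / (3 * (I + 1)) with hεdef
  have hε : 0 < ε := by positivity
  have hεI : ε * I < δ / 3 := by
    rw [hεdef, div_mul_eq_mul_div, div_lt_div_iff₀ (by positivity) (by norm_num)]
    nlinarith
  obtain ⟨b, hb, hbc, hkb⟩ := TB3_approx hk hk0 hε
  obtain ⟨B, hB⟩ := hb.bounded_above_of_compact_support hbc
  have hlim := avg_tendsto hh.locallyIntegrable hd hb hbc r hr
  rw [Metric.tendsto_atTop] at hlim
  obtain ⟨N, hN⟩ := hlim (δ / 3) (by positivity)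
  refine ⟨N, fun l hl => ?_⟩
  have hs : (0 : ℝ) < r / 2 ^ l := by positivity
  have h1 := TB3_diff_le hk hb hK hB hkb (TB3_avg_integrable hd hh hs)
  have h2 := TB3_diff_le hk hb hK hB hkb hh
  have h3 := TB3_integral_norm_le hd hh hs
  have h4 := hN l hl
  rw [dist_eq_norm] at h4 ⊢
  have h5 : ε * ∫ z : E d, ‖avg h z (r / 2 ^ l)‖ ≤ ε * I := mul_le_mul_of_nonneg_left h3 hε.le
  have h6 : (∫ z : E d, k z • avg h z (r / 2 ^ l)) - ∫ z : E d, k z • h z =
      ((∫ z : E d, k z • avg h z (r / 2 ^ l)) - ∫ z : E d, b z • avg h z (r / 2 ^ l)) +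
      ((∫ z : E d, b z • avg h z (r / 2 ^ l)) - ∫ z : E d, b z • h z) -
      ((∫ z : E d, k z • h z) - ∫ z : E d, b z • h z) := by abel
  rw [h6]
  refine (norm_sub_le _ _).trans_lt ?_
  have h7 := norm_add_le
    ((∫ z : E d, k z • avg h z (r / 2 ^ l)) - ∫ z : E d, b z • avg h z (r / 2 ^ l))
    ((∫ z : E d, b z • avg h z (r / 2 ^ l)) - ∫ z : E d, b z • h z)
  linarith

/-- Telescoping bound. -/
theorem tele_bound (hd : 1 ≤ d) {h : E d → V} (hh : Integrable h) {k : E d → ℝ} (hk : Continuous k)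
    (hk0 : Tendsto k (cocompact (E d)) (𝓝 0)) {r : ℝ} (hr : 0 < r) :
    ‖∫ z : E d, k z • h z‖ₑ ≤ (∫⁻ z : E d, ‖k z‖ₑ * ‖avg h z r‖ₑ)
      + ∑' j : ℕ, ∫⁻ z : E d, ‖Dk k (r / 2 ^ j) z‖ₑ * ‖avg h z (r / 2 ^ (j + 1))‖ₑ := by
  obtain ⟨K, hK⟩ := TB3_bounded hk hk0
  have hle : ∀ (g : E d → ℝ) (m : E d → V), ‖∫ z : E d, g z • m z‖ₑ ≤ ∫⁻ z : E d, ‖g z‖ₑ * ‖m z‖ₑ := by
    intro g m
    refine (enorm_integral_le_lintegral_enorm _).trans (le_of_eq ?_)
    exact lintegral_congr fun z => enorm_smul _ _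
  have hsum : ∀ l : ℕ, ∫ z : E d, k z • avg h z (r / 2 ^ l) = (∫ z : E d, k z • avg h z r) +
      ∑ j ∈ Finset.range l, ∫ z : E d, Dk k (r / 2 ^ j) z • avg h z (r / 2 ^ (j + 1)) := by
    intro l
    induction l with
    | zero => simp
    | succ l ih =>
      have hs : (0 : ℝ) < r / 2 ^ l := by positivity
      have h1 := tele_step hd hh hk hK hs
      have h2 : r / 2 ^ l / 2 = r / 2 ^ (l + 1) := by
        rw [div_div, ← pow_succ]
      rw [h2] at h1
      rw [h1, ih, Finset.sum_range_succ, add_assoc]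
  have hbound : ∀ l : ℕ, ‖∫ z : E d, k z • avg h z (r / 2 ^ l)‖ₑ ≤
      (∫⁻ z : E d, ‖k z‖ₑ * ‖avg h z r‖ₑ)
      + ∑' j : ℕ, ∫⁻ z : E d, ‖Dk k (r / 2 ^ j) z‖ₑ * ‖avg h z (r / 2 ^ (j + 1))‖ₑ := by
    intro l
    rw [hsum l]
    refine (enorm_add_le _ _).trans (add_le_add (hle _ _) ?_)
    refine (enorm_sum_le _ _).trans ?_
    refine (Finset.sum_le_sum fun j _ => hle _ _).trans ?_
    exact ENNReal.sum_le_tsum _
  have hlim := (tele_limit hd hh hk hk0 hr).enorm
  exact le_of_tendsto' hlim hbound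

end HG
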