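import Pool.Agent.W_MP_825298_an.Spl3
import Pool.Agent.W_MP_825298_an.Ex2

open MeasureTheory Set Filter Topology
open scoped ENNReal NNReal BigOperators

namespace HG
variable {d : ℕ}

/-- facts on the tail kernel -/
theorem kap_nonneg {ρ : ℝ} (hρ : 0 < ρ) (z : E d) : 0 ≤ kap ρ z := by
  unfold kap
  positivity

theorem kap_pos {ρ : ℝ} (hρ : 0 < ρ) (z : E d) : 0 < kap ρ z := by
  unfold kap
  positivity

theorem kap_measurable (ρ : ℝ) : Measurable (kap (d := d) ρ) := by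
  unfold kap
  fun_prop

theorem kap_continuous {ρ : ℝ} (hρ : 0 < ρ) : Continuous (kap (d := d) ρ) := by
  unfold kap
  refine continuous_const.div (by fun_prop) ?_
  intro z
  positivity

theorem kap_one_integrable : Integrable (kap (d := d) 1) := by
  have h := integrable_one_add_norm (E := E d) (μ := volume) (r := (d : ℝ) + 1) (by simp)
  refine h.congr (Filter.Eventually.of_forall fun z => ?_)
  simp only [kap]
  have h1 : (0 : ℝ) ≤ 1 + ‖z‖ := by positivity
  rw [Real.rpow_neg h1, one_div]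
  congr 1
  have : ((d : ℝ) + 1) = ((d + 1 : ℕ) : ℝ) := by push_cast; ring
  rw [this, Real.rpow_natCast]

theorem kap_scale {ρ : ℝ} (hρ : 0 < ρ) (z : E d) : kap ρ z = (ρ ^ d)⁻¹ * kap 1 (ρ⁻¹ • z) := by
  unfold kap
  have h1 : ‖ρ⁻¹ • z‖ = ρ⁻¹ * ‖z‖ := by
    rw [norm_smul, Real.norm_eq_abs, abs_of_pos (inv_pos.2 hρ)]
  rw [h1]
  have h2 : ρ + ‖z‖ = ρ * (1 + ρ⁻¹ * ‖z‖) := by field_simp
  rw [h2, mul_pow]
  have h3 : (1 + ρ⁻¹ * ‖z‖) ^ (d + 1) ≠ 0 := by positivity
  have h4 : ρ ≠ 0 := hρ.ne'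
  field_simp
  ring

theorem kap_integrable {ρ : ℝ} (hρ : 0 < ρ) : Integrable (kap (d := d) ρ) := by
  have h : (kap (d := d) ρ) = fun z => (ρ ^ d)⁻¹ * kap 1 (ρ⁻¹ • z) := funext (kap_scale hρ)
  rw [h]
  exact ((integrable_comp_smul_iff volume (kap (d := d) 1) (inv_ne_zero hρ.ne')).2 kap_one_integrable).const_mul _

theorem kap_integral {ρ : ℝ} (hρ : 0 < ρ) : ∫ z : E d, kap ρ z = ∫ z : E d, kap 1 z := by
  have h : (kap (d := d) ρ) = fun z => (ρ ^ d)⁻¹ * kap 1 (ρ⁻¹ • z) := funext (kap_scale hρ)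
  rw [h, integral_const_mul, Measure.integral_comp_inv_smul]
  have hf : Module.finrank ℝ (E d) = d := by simp
  rw [hf, abs_of_nonneg (by positivity), smul_eq_mul, ← mul_assoc, inv_mul_cancel₀ (by positivity), one_mul]

/-- the integral does not depend on `ρ` and is finite -/
theorem kap_lintegral (d : ℕ) : ∃ C : ℝ≥0, ∀ ρ : ℝ, 0 < ρ → ∫⁻ z : E d, ENNReal.ofReal (kap ρ z) ≤ C := by
  refine ⟨(∫ z : E d, kap 1 z).toNNReal, fun ρ hρ => ?_⟩
  rw [← ofReal_integral_eq_lintegral_ofReal (kap_integrable hρ) (Filter.Eventually.of_forall fun z => kap_nonneg hρ z),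
    kap_integral hρ]
  rfl

theorem kap_comp' {ρ : ℝ} (z z' : E d) (hρ : 0 < ρ) (h : ‖z - z'‖ ≤ 8 * ρ) : kap ρ z ≤ 9 ^ (d + 1) * kap ρ z' := by
  unfold kap
  have h1 : ρ + ‖z'‖ ≤ 9 * (ρ + ‖z‖) := by
    have := norm_sub_norm_le z' z
    rw [norm_sub_rev] at this
    have h0 := norm_nonneg z
    linarith
  have h2 : (ρ + ‖z'‖) ^ (d + 1) ≤ 9 ^ (d + 1) * (ρ + ‖z‖) ^ (d + 1) := by
    rw [← mul_pow]
    exact pow_le_pow_left₀ (by positivity) h1 _
  have h3 : 0 < (ρ + ‖z‖) ^ (d + 1) := by positivity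
  have h4 : 0 < (ρ + ‖z'‖) ^ (d + 1) := by positivity
  rw [div_le_iff₀ h3, mul_div_assoc', div_mul_eq_mul_div, le_div_iff₀ h4]
  nlinarith

theorem kap_comp (d : ℕ) : ∃ C : ℝ, 0 < C ∧ ∀ (ρ : ℝ) (z z' : E d), 0 < ρ → ‖z - z'‖ ≤ 8 * ρ → kap ρ z ≤ C * kap ρ z' :=
  ⟨9 ^ (d + 1), by positivity, fun _ z z' hρ h => kap_comp' z z' hρ h⟩

theorem pk_hcs (hd : 1 ≤ d) : HasCompactSupport (pk (d := d)) := by
  refine HasCompactSupport.intro (isCompact_closedBall (0 : E d) 2) (fun y hy => pk_zero ?_ hd)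
  simp only [Metric.mem_closedBall, dist_zero_right, not_le] at hy
  exact hy.le

/-- product of the spline with a continuous function -/
theorem pk_mul_integrable (hd : 1 ≤ d) {f : E d → ℝ} (hf : Continuous f) : Integrable (fun y => pk y * f y) :=
  (pk_contDiff.continuous.mul hf).integrable_of_hasCompactSupport (pk_hcs hd).mul_right

/-- average of the tail kernel -/
theorem kap_avg_le (hd : 1 ≤ d) : ∃ C : ℝ, 0 < C ∧ ∀ (ρ R : ℝ) (u : E d), 0 < ρ → ρ ≤ R →
    ∫ y : E d, pk y * kap ρ (u - R • y) ≤ C * kap R u := by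
  set I : ℝ := ∫ z : E d, kap 1 z with hI
  have hI0 : 0 ≤ I := integral_nonneg fun z => kap_nonneg one_pos z
  refine ⟨5 ^ (d + 1) * (I + 1), by positivity, fun ρ R u hρ hρR => ?_⟩
  have hR : 0 < R := lt_of_lt_of_le hρ hρR
  have hcont : Continuous fun y : E d => kap ρ (u - R • y) := (kap_continuous hρ).comp (by fun_prop)
  have hint := pk_mul_integrable hd hcont
  rcases le_or_gt (4 * R) ‖u‖ with hu | hu
  · -- far case
    have hb : ∀ y : E d, pk y * kap ρ (u - R • y) ≤ pk y * (5 ^ (d + 1) * kap R u) := by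
      intro y
      rcases le_or_gt 2 ‖y‖ with hy | hy
      · rw [pk_zero hy hd]; simp
      refine mul_le_mul_of_nonneg_left ?_ (pk_nonneg y)
      have h1 : ‖u‖ / 2 ≤ ‖u - R • y‖ := by
        have h2 := norm_sub_norm_le u (R • y)
        rw [norm_smul, Real.norm_eq_abs, abs_of_pos hR] at h2
        nlinarith
      unfold kap
      have h3 : R + ‖u‖ ≤ 5 * (ρ + ‖u - R • y‖) := by linarith
      have h4 : (R + ‖u‖) ^ (d + 1) ≤ 5 ^ (d + 1) * (ρ + ‖u - R • y‖) ^ (d + 1) := by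
        rw [← mul_pow]
        exact pow_le_pow_left₀ (by positivity) h3 _
      have h5 : 0 < (ρ + ‖u - R • y‖) ^ (d + 1) := by positivity
      have h6 : 0 < (R + ‖u‖) ^ (d + 1) := by positivity
      rw [div_le_iff₀ h5, mul_div_assoc', div_mul_eq_mul_div, le_div_iff₀ h6]
      calc ρ * (R + ‖u‖) ^ (d + 1) ≤ R * (5 ^ (d + 1) * (ρ + ‖u - R • y‖) ^ (d + 1)) :=
            mul_le_mul hρR h4 h6.le hR.le
        _ = _ := by ring
    calc ∫ y : E d, pk y * kap ρ (u - R • y) ≤ ∫ y : E d, pk y * (5 ^ (d + 1) * kap R u) :=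
          integral_mono hint (pk_mul_integrable hd continuous_const) hb
      _ = 5 ^ (d + 1) * kap R u := by rw [integral_mul_const, pk_integral, one_mul]
      _ ≤ 5 ^ (d + 1) * (I + 1) * kap R u := by
          have := kap_nonneg hR u
          have h7 : 0 ≤ (5 : ℝ) ^ (d + 1) * kap R u := by positivity
          nlinarith
  · have h1 : ∫ y : E d, pk y * kap ρ (u - R • y) ≤ ∫ y : E d, kap ρ (u - R • y) := by
      have hint2 : Integrable fun y : E d => kap ρ (u - R • y) := by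
        have h2 : Integrable fun y : E d => kap ρ (u - y) := (kap_integrable hρ).comp_sub_left u
        exact (integrable_comp_smul_iff volume (fun y : E d => kap ρ (u - y)) hR.ne').2 h2
      refine integral_mono hint hint2 fun y => ?_
      have := kap_nonneg hρ (u - R • y)
      have := pk_le_one y
      have := pk_nonneg y
      simp only
      nlinarith
    have h2 : ∫ y : E d, kap ρ (u - R • y) = (R ^ d)⁻¹ * I := by
      have h3 := Measure.integral_comp_smul volume (fun y : E d => kap ρ (u - y)) R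
      rw [h3]
      have hf : Module.finrank ℝ (E d) = d := by simp
      rw [hf, abs_of_nonneg (by positivity), smul_eq_mul, integral_sub_left_eq_self (fun y : E d => kap ρ y) volume u,
        kap_integral hρ]
    have h3 : (R ^ d)⁻¹ ≤ 5 ^ (d + 1) * kap R u := by
      unfold kap
      have h4 : R + ‖u‖ ≤ 5 * R := by linarith
      have h5 : (R + ‖u‖) ^ (d + 1) ≤ 5 ^ (d + 1) * R ^ (d + 1) := by
        rw [← mul_pow]
        exact pow_le_pow_left₀ (by positivity) h4 _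
      have h6 : 0 < (R + ‖u‖) ^ (d + 1) := by positivity
      rw [mul_div_assoc', le_div_iff₀ h6, inv_mul_le_iff₀ (by positivity)]
      calc (R + ‖u‖) ^ (d + 1) ≤ 5 ^ (d + 1) * R ^ (d + 1) := h5
        _ = _ := by ring
    calc ∫ y : E d, pk y * kap ρ (u - R • y) ≤ (R ^ d)⁻¹ * I := by rw [← h2]; exact h1
      _ ≤ (5 ^ (d + 1) * kap R u) * I := mul_le_mul_of_nonneg_right h3 hI0
      _ ≤ 5 ^ (d + 1) * (I + 1) * kap R u := by
          have := kap_nonneg hR u
          have h7 : 0 ≤ (5 : ℝ) ^ (d + 1) * kap R u := by positivity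
          nlinarith

/-- Averaging the fine kernel over the walk. `kap ρ(v) ≤ C kap ρ (v - (R/2^j) y)` for `‖y‖ ≤ 2` (as `R/2^j ≤ ρ`), so the left side is
`≤ C Ex_j ∫ p(y) kap ρ (u - R Zp j ω - (R/2^j) y) dy = C ∫ p(y) kap ρ(u - R y) dy` (refinement equation `Ex_RefEq` for the averages of
`kap ρ (u - ·)`), and this is `≤ C kap R u` (distinguish `‖u‖ ≥ 4R` and `‖u‖ < 4R`; in the latter case use `kap_lintegral`). -/
theorem kap_walk (hd : 1 ≤ d) : ∃ C : ℝ, 0 < C ∧ ∀ (ρ R : ℝ) (u : E d) (j : ℕ), 0 < ρ → ρ ≤ R → R / 2 ^ j ≤ ρ →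
    Ex j (fun ω : ℕ → St d => kap ρ (u - R • Zp j ω)) ≤ C * kap R u := by
  obtain ⟨C, hC, hCb⟩ := kap_avg_le hd
  refine ⟨9 ^ (d + 1) * C, by positivity, fun ρ R u j hρ hρR hj => ?_⟩
  have hR : 0 < R := lt_of_lt_of_le hρ hρR
  set h : E d → ℝ := fun z => kap ρ (u - z) with hh
  have hcont : Continuous h := (kap_continuous hρ).comp (by fun_prop)
  have hRef : RefEq (avg h) := avg_refEq hd hcont.locallyIntegrable
  have key := Ex_RefEq hRef (0 : E d) hR j
  have hlow : ∀ ω : ℕ → St d, kap ρ (u - R • Zp j ω) ≤ 9 ^ (d + 1) * avg h (0 + R • Zp j ω) (R / 2 ^ j) := by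
    intro ω
    set x : E d := 0 + R • Zp j ω with hx
    have hx' : x = R • Zp j ω := by simp [hx]
    have hr : 0 < R / 2 ^ j := by positivity
    have h1 : avg h x (R / 2 ^ j) = ∫ y : E d, pk y * kap ρ (u - (x + (R / 2 ^ j) • y)) := rfl
    have hc1 : Continuous fun y : E d => kap ρ (u - (x + (R / 2 ^ j) • y)) := (kap_continuous hρ).comp (by fun_prop)
    have h2 : ∀ y : E d, pk y * kap ρ (u - x) ≤ pk y * (9 ^ (d + 1) * kap ρ (u - (x + (R / 2 ^ j) • y))) := by
      intro y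
      rcases le_or_gt 2 ‖y‖ with hy | hy
      · rw [pk_zero hy hd]; simp
      refine mul_le_mul_of_nonneg_left (kap_comp' _ _ hρ ?_) (pk_nonneg y)
      have h3 : u - x - (u - (x + (R / 2 ^ j) • y)) = (R / 2 ^ j) • y := by abel
      rw [h3, norm_smul, Real.norm_eq_abs, abs_of_pos hr]
      nlinarith [norm_nonneg y]
    rw [← hx', h1, ← integral_const_mul]
    calc kap ρ (u - x) = ∫ y : E d, pk y * kap ρ (u - x) := by rw [integral_mul_const, pk_integral, one_mul]
      _ ≤ ∫ y : E d, pk y * (9 ^ (d + 1) * kap ρ (u - (x + (R / 2 ^ j) • y))) :=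
          integral_mono (pk_mul_integrable hd continuous_const) (pk_mul_integrable hd (continuous_const.mul hc1)) h2
      _ = _ := by
          congr 1
          ext y
          ring
  calc Ex j (fun ω : ℕ → St d => kap ρ (u - R • Zp j ω))
      ≤ Ex j (fun ω : ℕ → St d => 9 ^ (d + 1) * avg h (0 + R • Zp j ω) (R / 2 ^ j)) := Ex_monoR j hlow
    _ = 9 ^ (d + 1) * Ex j (fun ω : ℕ → St d => avg h (0 + R • Zp j ω) (R / 2 ^ j)) := Ex_mulR _ _ _
    _ = 9 ^ (d + 1) * avg h 0 R := by rw [key]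
    _ ≤ 9 ^ (d + 1) * (C * kap R u) := by
        refine mul_le_mul_of_nonneg_left ?_ (by positivity)
        have h1 : avg h 0 R = ∫ y : E d, pk y * kap ρ (u - R • y) := by
          simp only [avg, hh, zero_add, smul_eq_mul]
        rw [h1]
        exact hCb ρ R u hρ hρR
    _ = _ := by ring

end HG
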