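import Pool.Agent.W_MP_825298_an.TBDefs
import Pool.Agent.W_MP_825298_an.TM1

open MeasureTheory Set Filter Topology
open scoped ENNReal NNReal BigOperators

namespace HG
variable {d : ℕ}

theorem TB4_lint_rpow {p b : ℝ} (hp : -1 < p) (hb : 0 < b) :
    ∫⁻ τ in Ioc (0 : ℝ) b, ENNReal.ofReal (τ ^ p) = ENNReal.ofReal (b ^ (p + 1) / (p + 1)) := by
  have hint : IntegrableOn (fun τ : ℝ => τ ^ p) (Ioc 0 b) volume := by
    have := intervalIntegral.intervalIntegrable_rpow' (a := 0) (b := b) hp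
    rwa [intervalIntegrable_iff_integrableOn_Ioc_of_le hb.le] at this
  rw [← ofReal_integral_eq_lintegral_ofReal hint, ← intervalIntegral.integral_of_le hb.le,
    integral_rpow (Or.inl hp), Real.zero_rpow (by linarith), sub_zero]
  rw [Filter.EventuallyLE, ae_restrict_iff' measurableSet_Ioc]
  exact Filter.Eventually.of_forall fun τ hτ => Real.rpow_nonneg hτ.1.le p

/-- the basic kernel integral -/
theorem TB4_ke (d : ℕ) : ∃ I : ℝ≥0, ∀ (τ : ℝ), 0 < τ → ∀ z : E d,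
    ∫⁻ y : E d, ENNReal.ofReal ((‖z - y‖ + τ) ^ (-((d : ℝ) + 1 / 4))) ≤
      I * ENNReal.ofReal (τ ^ (-(1 / 4) : ℝ)) := by
  set f : E d → ℝ := fun v => (1 + ‖v‖) ^ (-((d : ℝ) + 1 / 4)) with hf
  have hfi : Integrable f := integrable_one_add_norm (E := E d) (μ := volume)
    (r := (d : ℝ) + 1 / 4) (by simp)
  have hI0 : 0 ≤ ∫ v, f v := integral_nonneg fun v => by simp only [hf]; positivity
  refine ⟨(∫ v, f v).toNNReal, fun τ hτ z => ?_⟩
  have h1 : ∫⁻ y : E d, ENNReal.ofReal ((‖z - y‖ + τ) ^ (-((d : ℝ) + 1 / 4)))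
      = ∫⁻ y : E d, ENNReal.ofReal ((‖y‖ + τ) ^ (-((d : ℝ) + 1 / 4))) :=
    lintegral_sub_left_eq_self
      (fun y : E d => ENNReal.ofReal ((‖y‖ + τ) ^ (-((d : ℝ) + 1 / 4)))) z
  rw [h1]
  have h2 : ∀ y : E d, (‖y‖ + τ) ^ (-((d : ℝ) + 1 / 4))
      = τ ^ (-((d : ℝ) + 1 / 4)) * f (τ⁻¹ • y) := by
    intro y
    have h3 : ‖y‖ + τ = τ * (1 + ‖τ⁻¹ • y‖) := by
      rw [norm_smul, Real.norm_eq_abs, abs_of_pos (inv_pos.2 hτ)]
      field_simp
      ring
    rw [h3, Real.mul_rpow hτ.le (by positivity)]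
  have hint : Integrable (fun y : E d => τ ^ (-((d : ℝ) + 1 / 4)) * f (τ⁻¹ • y)) :=
    ((integrable_comp_smul_iff volume f (inv_ne_zero hτ.ne')).2 hfi).const_mul _
  have h4 : ∫⁻ y : E d, ENNReal.ofReal ((‖y‖ + τ) ^ (-((d : ℝ) + 1 / 4)))
      = ENNReal.ofReal (τ ^ (-((d : ℝ) + 1 / 4)) * (τ ^ d * ∫ v, f v)) := by
    simp only [h2]
    rw [← ofReal_integral_eq_lintegral_ofReal hint, integral_const_mul,
      Measure.integral_comp_inv_smul]
    · have hfr : Module.finrank ℝ (E d) = d := by simp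
      rw [hfr, abs_of_nonneg (by positivity), smul_eq_mul]
    · refine Filter.Eventually.of_forall fun y => ?_
      simp only [hf]
      positivity
  rw [h4]
  have h5 : τ ^ (-((d : ℝ) + 1 / 4)) * (τ ^ d * ∫ v, f v) = (∫ v, f v) * τ ^ (-(1 / 4) : ℝ) := by
    have : τ ^ (-((d : ℝ) + 1 / 4)) * τ ^ d = τ ^ (-(1 / 4) : ℝ) := by
      rw [← Real.rpow_natCast τ d, ← Real.rpow_add hτ]
      congr 1
      ring
    rw [← mul_assoc, this, mul_comm]
  rw [h5, ENNReal.ofReal_mul hI0]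
  rfl

/-- the double integral of the basic kernel -/
theorem TB4_double (d : ℕ) : ∃ I : ℝ≥0, ∀ (b : ℝ), 0 < b → ∀ (S : Set (E d)) (z : E d),
    ∫⁻ y in S, ∫⁻ τ in Ioc (0 : ℝ) b, ENNReal.ofReal (τ ^ (-(1 / 2) : ℝ)) *
      ENNReal.ofReal ((‖z - y‖ + τ) ^ (-((d : ℝ) + 1 / 4))) ≤
      I * ENNReal.ofReal (b ^ (1 / 4 : ℝ)) := by
  obtain ⟨I, hI⟩ := TB4_ke d
  refine ⟨I * 4, fun b hb S z => ?_⟩
  rw [lintegral_lintegral_swap (by fun_prop)]
  have h1 : ∀ τ ∈ Ioc (0 : ℝ) b, ∫⁻ y in S, ENNReal.ofReal (τ ^ (-(1 / 2) : ℝ)) *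
      ENNReal.ofReal ((‖z - y‖ + τ) ^ (-((d : ℝ) + 1 / 4)))
      ≤ I * ENNReal.ofReal (τ ^ (-(3 / 4) : ℝ)) := by
    intro τ hτ
    rw [lintegral_const_mul _ (by fun_prop)]
    calc ENNReal.ofReal (τ ^ (-(1 / 2) : ℝ)) *
          ∫⁻ y in S, ENNReal.ofReal ((‖z - y‖ + τ) ^ (-((d : ℝ) + 1 / 4)))
        ≤ ENNReal.ofReal (τ ^ (-(1 / 2) : ℝ)) * (I * ENNReal.ofReal (τ ^ (-(1 / 4) : ℝ))) := by
          gcongr
          exact (setLIntegral_le_lintegral _ _).trans (hI τ hτ.1 z)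
      _ = I * ENNReal.ofReal (τ ^ (-(3 / 4) : ℝ)) := by
          rw [mul_left_comm, ← ENNReal.ofReal_mul (Real.rpow_nonneg hτ.1.le _),
            ← Real.rpow_add hτ.1]
          norm_num
  calc ∫⁻ τ in Ioc (0 : ℝ) b, ∫⁻ y in S, ENNReal.ofReal (τ ^ (-(1 / 2) : ℝ)) *
        ENNReal.ofReal ((‖z - y‖ + τ) ^ (-((d : ℝ) + 1 / 4)))
      ≤ ∫⁻ τ in Ioc (0 : ℝ) b, I * ENNReal.ofReal (τ ^ (-(3 / 4) : ℝ)) :=
        setLIntegral_mono' measurableSet_Ioc h1
    _ = I * ENNReal.ofReal (b ^ (-(3 / 4) + 1 : ℝ) / (-(3 / 4) + 1)) := by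
        rw [lintegral_const_mul _ (by fun_prop), TB4_lint_rpow (by norm_num) hb]
    _ = (I * 4 : ℝ≥0) * ENNReal.ofReal (b ^ (1 / 4 : ℝ)) := by
        have : b ^ (-(3 / 4) + 1 : ℝ) / (-(3 / 4) + 1) = 4 * b ^ (1 / 4 : ℝ) := by
          have e : (-(3 / 4) + 1 : ℝ) = 1 / 4 := by norm_num
          rw [e]
          ring
        rw [this, ENNReal.ofReal_mul (by norm_num), ENNReal.coe_mul, mul_assoc]
        congr 2
        norm_num

/-- pointwise bounds -/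
theorem TB4_pt {c : ℝ} (hc : 1 ≤ c) {x z y : E d} {r τ : ℝ} (hr : 0 < r) (hy : ‖y - x‖ ≤ c * r)
    (hτ : 0 < τ) (hτ' : τ ≤ c * r) :
    0 < sK y τ z ∧ sK y τ z ≤ 2 * c * (r + ‖x - z‖) ∧ r + ‖x - z‖ ≤ (1 + c) * r + sK y τ z ∧
      min 1 (r / sK y τ z) ≤ (2 + c) * (r / (r + ‖x - z‖)) := by
  have hs : 0 < sK y τ z := by unfold sK; positivity
  have h1 : ‖z - y‖ ≤ ‖x - z‖ + c * r := by
    have : z - y = (z - x) - (y - x) := by abel
    rw [this, norm_sub_rev x z]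
    exact (norm_sub_le _ _).trans (by linarith)
  have h2 : ‖x - z‖ ≤ c * r + ‖z - y‖ := by
    have : x - z = -(y - x) - (z - y) := by abel
    rw [this]
    refine (norm_sub_le _ _).trans ?_
    rw [norm_neg]
    linarith
  have hD : 0 < r + ‖x - z‖ := by positivity
  have hn := norm_nonneg (x - z)
  have h3 : r + ‖x - z‖ ≤ (1 + c) * r + sK y τ z := by unfold sK; linarith
  refine ⟨hs, ?_, h3, ?_⟩
  · unfold sK
    nlinarith
  · rcases le_or_gt (sK y τ z) r with h | h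
    · refine (min_le_left _ _).trans ?_
      rw [mul_div_assoc', le_div_iff₀ hD]
      nlinarith
    · refine (min_le_right _ _).trans ?_
      rw [mul_div_assoc', div_le_div_iff₀ hs hD]
      nlinarith

theorem TB4_main {a : ℝ} (ha0 : 0 ≤ a) (ha : a ≤ 1 / 4) {c : ℝ} (hc : 1 ≤ c) : ∃ C : ℝ≥0,
    ∀ (x z : E d) (r : ℝ), 0 < r →
    (∫⁻ y in Metric.closedBall x (c * r), ∫⁻ τ in Ioc (0 : ℝ) (c * r),
      ENNReal.ofReal (τ ^ (-(1 / 2) : ℝ)) *
        ENNReal.ofReal (sK y τ z ^ (-((d : ℝ) + a)) * min 1 (r / sK y τ z)))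
      ≤ C * ENNReal.ofReal (r ^ ((d : ℝ) + 1 / 2 - a) * kap r (x - z)) := by
  obtain ⟨I, hI⟩ := TB4_double d
  set C1 : ℝ := (2 ^ (d + 1) * (2 + c)) * ((2 * c) ^ d * (2 * c)) with hC1
  set C2 : ℝ := (4 * c * (1 + c) * (2 + c)) * (I * c) * (2 * (1 + c)) ^ d with hC2
  have hC1pos : 0 ≤ C1 := by positivity
  have hC2pos : 0 ≤ C2 := by positivity
  refine ⟨(C1 + C2).toNNReal, fun x z r hr => ?_⟩
  have hc0 : 0 < c := by linarith
  have hcr : 0 < c * r := by positivity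
  set D : ℝ := r + ‖x - z‖ with hD
  have hDr : r ≤ D := by rw [hD]; linarith [norm_nonneg (x - z)]
  have hDpos : 0 < D := lt_of_lt_of_le hr hDr
  have hkap : kap r (x - z) = r / D ^ (d + 1) := rfl
  have hgoal : ((C1 + C2).toNNReal : ℝ≥0∞) * ENNReal.ofReal (r ^ ((d : ℝ) + 1 / 2 - a) * kap r (x - z))
      = ENNReal.ofReal ((C1 + C2) * (r ^ ((d : ℝ) + 1 / 2 - a) * (r / D ^ (d + 1)))) := by
    rw [hkap, ENNReal.ofReal_mul (p := C1 + C2) (by positivity)]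
    rfl
  rw [hgoal]
  have hrr : r ^ ((d : ℝ) + 1 / 2 - a) = r ^ d * r ^ (1 / 2 : ℝ) * r ^ (-a) := by
    rw [← Real.rpow_natCast r d, ← Real.rpow_add hr, ← Real.rpow_add hr]
    congr 1
  rcases le_or_gt (2 * (1 + c) * r) D with hfar | hnear
  · -- far case
    have hpt : ∀ y ∈ Metric.closedBall x (c * r), ∀ τ ∈ Ioc (0 : ℝ) (c * r),
        ENNReal.ofReal (τ ^ (-(1 / 2) : ℝ)) *
          ENNReal.ofReal (sK y τ z ^ (-((d : ℝ) + a)) * min 1 (r / sK y τ z))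
        ≤ ENNReal.ofReal (2 ^ (d + 1) * (2 + c) * ((D ^ d)⁻¹ * r ^ (-a) * (r / D))) *
          ENNReal.ofReal (τ ^ (-(1 / 2) : ℝ)) := by
      intro y hy τ hτ
      rw [Metric.mem_closedBall, dist_eq_norm] at hy
      obtain ⟨hs, _, h3, h4⟩ := TB4_pt (z := z) hc hr hy hτ.1 hτ.2
      rw [mul_comm]
      refine mul_le_mul' (ENNReal.ofReal_le_ofReal ?_) le_rfl
      have h5 : D / 2 ≤ sK y τ z := by linarith
      have h6 : sK y τ z ^ (-((d : ℝ) + a)) ≤ 2 ^ (d + 1) * ((D ^ d)⁻¹ * r ^ (-a)) := by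
        calc sK y τ z ^ (-((d : ℝ) + a)) ≤ (D / 2) ^ (-((d : ℝ) + a)) :=
              Real.rpow_le_rpow_of_nonpos (by positivity) h5 (by have := Nat.cast_nonneg (α := ℝ) d; linarith)
          _ = (2 : ℝ) ^ ((d : ℝ) + a) * (D ^ (-(d : ℝ)) * D ^ (-a)) := by
              rw [Real.div_rpow hDpos.le (by norm_num), ← Real.rpow_add hDpos,
                Real.rpow_neg (by norm_num : (0 : ℝ) ≤ 2), div_inv_eq_mul, mul_comm]
              congr 2
              ring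
          _ ≤ 2 ^ (d + 1) * ((D ^ d)⁻¹ * r ^ (-a)) := by
              have e1 : (2 : ℝ) ^ ((d : ℝ) + a) ≤ 2 ^ (d + 1) := by
                rw [← Real.rpow_natCast 2 (d + 1)]
                apply Real.rpow_le_rpow_of_exponent_le (by norm_num)
                push_cast
                linarith
              have e2 : D ^ (-(d : ℝ)) = (D ^ d)⁻¹ := by
                rw [Real.rpow_neg hDpos.le, Real.rpow_natCast]
              have e3 : D ^ (-a) ≤ r ^ (-a) :=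
                Real.rpow_le_rpow_of_nonpos hr hDr (by linarith)
              rw [e2]
              gcongr
      calc sK y τ z ^ (-((d : ℝ) + a)) * min 1 (r / sK y τ z)
          ≤ (2 ^ (d + 1) * ((D ^ d)⁻¹ * r ^ (-a))) * ((2 + c) * (r / D)) := by
            apply mul_le_mul h6 h4 (le_min zero_le_one (by positivity)) (by positivity)
        _ = _ := by ring
    calc ∫⁻ y in Metric.closedBall x (c * r), ∫⁻ τ in Ioc (0 : ℝ) (c * r),
          ENNReal.ofReal (τ ^ (-(1 / 2) : ℝ)) *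
            ENNReal.ofReal (sK y τ z ^ (-((d : ℝ) + a)) * min 1 (r / sK y τ z))
        ≤ ∫⁻ _y in Metric.closedBall x (c * r), ∫⁻ τ in Ioc (0 : ℝ) (c * r),
          ENNReal.ofReal (2 ^ (d + 1) * (2 + c) * ((D ^ d)⁻¹ * r ^ (-a) * (r / D))) *
          ENNReal.ofReal (τ ^ (-(1 / 2) : ℝ)) :=
          setLIntegral_mono' Metric.isClosed_closedBall.measurableSet fun y hy =>
            setLIntegral_mono' measurableSet_Ioc fun τ hτ => hpt y hy τ hτ
      _ = ENNReal.ofReal (2 ^ (d + 1) * (2 + c) * ((D ^ d)⁻¹ * r ^ (-a) * (r / D))) *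
          ENNReal.ofReal ((c * r) ^ (-(1 / 2) + 1 : ℝ) / (-(1 / 2) + 1)) *
          ENNReal.ofReal ((2 * (c * r)) ^ d) := by
          rw [setLIntegral_const, Real.volume_pi_closedBall _ hcr.le, Fintype.card_fin,
            lintegral_const_mul _ (by fun_prop), TB4_lint_rpow (by norm_num) hcr]
      _ = ENNReal.ofReal ((2 ^ (d + 1) * (2 + c) * ((D ^ d)⁻¹ * r ^ (-a) * (r / D))) *
          ((c * r) ^ (-(1 / 2) + 1 : ℝ) / (-(1 / 2) + 1)) * (2 * (c * r)) ^ d) := by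
          rw [← ENNReal.ofReal_mul (by positivity), ← ENNReal.ofReal_mul (by positivity)]
      _ ≤ ENNReal.ofReal ((C1 + C2) * (r ^ ((d : ℝ) + 1 / 2 - a) * (r / D ^ (d + 1)))) := by
          apply ENNReal.ofReal_le_ofReal
          have e1 : (c * r) ^ (-(1 / 2) + 1 : ℝ) / (-(1 / 2) + 1) ≤ 2 * c * r ^ (1 / 2 : ℝ) := by
            have e : (-(1 / 2) + 1 : ℝ) = 1 / 2 := by norm_num
            rw [e, Real.mul_rpow hc0.le hr.le]
            have : c ^ (1 / 2 : ℝ) ≤ c := by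
              calc c ^ (1 / 2 : ℝ) ≤ c ^ (1 : ℝ) :=
                    Real.rpow_le_rpow_of_exponent_le hc (by norm_num)
                _ = c := Real.rpow_one c
            have h9 : 0 ≤ r ^ (1 / 2 : ℝ) := by positivity
            rw [div_le_iff₀ (by norm_num)]
            nlinarith
          calc (2 ^ (d + 1) * (2 + c) * ((D ^ d)⁻¹ * r ^ (-a) * (r / D))) *
              ((c * r) ^ (-(1 / 2) + 1 : ℝ) / (-(1 / 2) + 1)) * (2 * (c * r)) ^ d
              ≤ (2 ^ (d + 1) * (2 + c) * ((D ^ d)⁻¹ * r ^ (-a) * (r / D))) *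
              (2 * c * r ^ (1 / 2 : ℝ)) * (2 * (c * r)) ^ d := by gcongr
            _ = C1 * (r ^ ((d : ℝ) + 1 / 2 - a) * (r / D ^ (d + 1))) := by
              rw [hrr, hC1]
              have e2 : (2 * (c * r)) ^ d = (2 * c) ^ d * r ^ d := by
                rw [← mul_pow]; ring_nf
              rw [e2]
              field_simp
              ring
            _ ≤ (C1 + C2) * (r ^ ((d : ℝ) + 1 / 2 - a) * (r / D ^ (d + 1))) := by
              apply mul_le_mul_of_nonneg_right (by linarith) (by positivity)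
  · -- near case
    have hpt : ∀ y ∈ Metric.closedBall x (c * r), ∀ τ ∈ Ioc (0 : ℝ) (c * r),
        ENNReal.ofReal (τ ^ (-(1 / 2) : ℝ)) *
          ENNReal.ofReal (sK y τ z ^ (-((d : ℝ) + a)) * min 1 (r / sK y τ z))
        ≤ ENNReal.ofReal ((4 * c * (1 + c) * (2 + c)) * (r ^ (1 / 4 - a) * (r / D))) *
          (ENNReal.ofReal (τ ^ (-(1 / 2) : ℝ)) *
            ENNReal.ofReal ((‖z - y‖ + τ) ^ (-((d : ℝ) + 1 / 4)))) := by
      intro y hy τ hτ
      rw [Metric.mem_closedBall, dist_eq_norm] at hy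
      obtain ⟨hs, h2, h3, h4⟩ := TB4_pt (z := z) hc hr hy hτ.1 hτ.2
      rw [mul_left_comm]
      refine mul_le_mul' le_rfl ?_
      rw [← ENNReal.ofReal_mul (by positivity)]
      apply ENNReal.ofReal_le_ofReal
      have e1 : sK y τ z ^ (-((d : ℝ) + a))
          = (‖z - y‖ + τ) ^ (-((d : ℝ) + 1 / 4)) * sK y τ z ^ (1 / 4 - a) := by
        have : ‖z - y‖ + τ = sK y τ z := rfl
        rw [this, ← Real.rpow_add hs]
        congr 1
        ring
      have e2 : sK y τ z ^ (1 / 4 - a) ≤ (4 * c * (1 + c)) * r ^ (1 / 4 - a) := by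
        have hb : sK y τ z ≤ (4 * c * (1 + c)) * r := by
          refine h2.trans ?_
          rw [← hD]
          nlinarith
        have hbase : (1 : ℝ) ≤ 4 * c * (1 + c) := by nlinarith
        calc sK y τ z ^ (1 / 4 - a) ≤ ((4 * c * (1 + c)) * r) ^ (1 / 4 - a) :=
              Real.rpow_le_rpow hs.le hb (by linarith)
          _ = (4 * c * (1 + c)) ^ (1 / 4 - a) * r ^ (1 / 4 - a) :=
              Real.mul_rpow (by positivity) hr.le
          _ ≤ (4 * c * (1 + c)) ^ (1 : ℝ) * r ^ (1 / 4 - a) := by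
              gcongr
              linarith
          _ = _ := by rw [Real.rpow_one]
      calc sK y τ z ^ (-((d : ℝ) + a)) * min 1 (r / sK y τ z)
          ≤ ((‖z - y‖ + τ) ^ (-((d : ℝ) + 1 / 4)) * ((4 * c * (1 + c)) * r ^ (1 / 4 - a))) *
            ((2 + c) * (r / D)) := by
            rw [e1]
            have h9 : 0 ≤ (‖z - y‖ + τ) ^ (-((d : ℝ) + 1 / 4)) :=
              Real.rpow_nonneg (by have := hτ.1; positivity) _
            apply mul_le_mul (mul_le_mul_of_nonneg_left e2 h9) h4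
              (le_min zero_le_one (by positivity)) (by positivity)
        _ = _ := by ring
    have hmeas : Measurable fun y : E d => ∫⁻ τ in Ioc (0 : ℝ) (c * r),
        ENNReal.ofReal (τ ^ (-(1 / 2) : ℝ)) *
          ENNReal.ofReal ((‖z - y‖ + τ) ^ (-((d : ℝ) + 1 / 4))) := by
      apply Measurable.lintegral_prod_right'
        (f := fun p : E d × ℝ => ENNReal.ofReal (p.2 ^ (-(1 / 2) : ℝ)) *
          ENNReal.ofReal ((‖z - p.1‖ + p.2) ^ (-((d : ℝ) + 1 / 4))))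
      fun_prop
    calc ∫⁻ y in Metric.closedBall x (c * r), ∫⁻ τ in Ioc (0 : ℝ) (c * r),
          ENNReal.ofReal (τ ^ (-(1 / 2) : ℝ)) *
            ENNReal.ofReal (sK y τ z ^ (-((d : ℝ) + a)) * min 1 (r / sK y τ z))
        ≤ ∫⁻ y in Metric.closedBall x (c * r), ∫⁻ τ in Ioc (0 : ℝ) (c * r),
          ENNReal.ofReal ((4 * c * (1 + c) * (2 + c)) * (r ^ (1 / 4 - a) * (r / D))) *
          (ENNReal.ofReal (τ ^ (-(1 / 2) : ℝ)) *
            ENNReal.ofReal ((‖z - y‖ + τ) ^ (-((d : ℝ) + 1 / 4)))) :=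
          setLIntegral_mono' Metric.isClosed_closedBall.measurableSet fun y hy =>
            setLIntegral_mono' measurableSet_Ioc fun τ hτ => hpt y hy τ hτ
      _ = ENNReal.ofReal ((4 * c * (1 + c) * (2 + c)) * (r ^ (1 / 4 - a) * (r / D))) *
          ∫⁻ y in Metric.closedBall x (c * r), ∫⁻ τ in Ioc (0 : ℝ) (c * r),
          (ENNReal.ofReal (τ ^ (-(1 / 2) : ℝ)) *
            ENNReal.ofReal ((‖z - y‖ + τ) ^ (-((d : ℝ) + 1 / 4)))) := by
          rw [← lintegral_const_mul _ hmeas]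
          refine lintegral_congr fun y => ?_
          rw [lintegral_const_mul _ (by fun_prop)]
      _ ≤ ENNReal.ofReal ((4 * c * (1 + c) * (2 + c)) * (r ^ (1 / 4 - a) * (r / D))) *
          (I * ENNReal.ofReal ((c * r) ^ (1 / 4 : ℝ))) := by
          gcongr
          exact hI (c * r) hcr _ z
      _ = ENNReal.ofReal ((4 * c * (1 + c) * (2 + c)) * (r ^ (1 / 4 - a) * (r / D)) *
          (I * (c * r) ^ (1 / 4 : ℝ))) := by
          rw [ENNReal.ofReal_mul (p := (4 * c * (1 + c) * (2 + c)) * (r ^ (1 / 4 - a) * (r / D)))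
            (by positivity), ENNReal.ofReal_mul (p := (I : ℝ)) (by positivity),
            ENNReal.ofReal_coe_nnreal]
      _ ≤ ENNReal.ofReal ((C1 + C2) * (r ^ ((d : ℝ) + 1 / 2 - a) * (r / D ^ (d + 1)))) := by
          apply ENNReal.ofReal_le_ofReal
          have e1 : (c * r) ^ (1 / 4 : ℝ) ≤ c * r ^ (1 / 4 : ℝ) := by
            rw [Real.mul_rpow hc0.le hr.le]
            have : c ^ (1 / 4 : ℝ) ≤ c := by
              calc c ^ (1 / 4 : ℝ) ≤ c ^ (1 : ℝ) :=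
                    Real.rpow_le_rpow_of_exponent_le hc (by norm_num)
                _ = c := Real.rpow_one c
            exact mul_le_mul_of_nonneg_right this (by positivity)
          have e2 : r ^ (1 / 4 - a) * r ^ (1 / 4 : ℝ) = r ^ (1 / 2 : ℝ) * r ^ (-a) := by
            rw [← Real.rpow_add hr, ← Real.rpow_add hr]
            congr 1
            ring
          have e3 : D ^ d ≤ (2 * (1 + c)) ^ d * r ^ d := by
            rw [← mul_pow]
            exact pow_le_pow_left₀ hDpos.le hnear.le d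
          calc (4 * c * (1 + c) * (2 + c)) * (r ^ (1 / 4 - a) * (r / D)) *
                (I * (c * r) ^ (1 / 4 : ℝ))
              ≤ (4 * c * (1 + c) * (2 + c)) * (r ^ (1 / 4 - a) * (r / D)) *
                (I * (c * r ^ (1 / 4 : ℝ))) := by gcongr
            _ = (4 * c * (1 + c) * (2 + c)) * (I * c) * (r / D) *
                (r ^ (1 / 4 - a) * r ^ (1 / 4 : ℝ)) := by ring
            _ = (4 * c * (1 + c) * (2 + c)) * (I * c) * (r / D) *
                (r ^ (1 / 2 : ℝ) * r ^ (-a)) * (D ^ d / D ^ d) := by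
                rw [e2, div_self (by positivity), mul_one]
            _ ≤ (4 * c * (1 + c) * (2 + c)) * (I * c) * (r / D) *
                (r ^ (1 / 2 : ℝ) * r ^ (-a)) * (((2 * (1 + c)) ^ d * r ^ d) / D ^ d) := by
                gcongr
            _ = C2 * (r ^ ((d : ℝ) + 1 / 2 - a) * (r / D ^ (d + 1))) := by
              rw [hrr, hC2]
              field_simp
              ring
            _ ≤ (C1 + C2) * (r ^ ((d : ℝ) + 1 / 2 - a) * (r / D ^ (d + 1))) := by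
              apply mul_le_mul_of_nonneg_right (by linarith) (by positivity)

/-- Integration of the kernel bounds over the box, `s = |z-y|+τ`. WLOG scale `r = 1` or work directly.
Far case `‖x-z‖ ≥ 2 c r`: `s ≥ ‖x-z‖/2`, the integrand is `≤ C ‖x-z‖^{-d} (r/‖x-z‖) τ^{-1/2}`, the box has volume `(2cr)^d`,
`∫_0^{cr} τ^{-1/2} = 2 (cr)^{1/2}`; and `kap r (x-z) ≥ c' r ‖x-z‖^{-d-1}`.
Near case: `min 1 (r/s) ≤ 1`, `s^{-d} ≤ C s^{-(d+1/4)} r^{1/4}` (as `s ≤ C r`), and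
`∫_y (|z-y|+τ)^{-(d+1/4)} dy ≤ C τ^{-1/4}`, `∫_0^{cr} τ^{-3/4} = 4 (cr)^{1/4}`; `kap r (x-z) ≥ c' r^{-d}`. -/
theorem ker_int0 (_hd : 1 ≤ d) {c : ℝ} (hc : 1 ≤ c) : ∃ C : ℝ≥0, ∀ (x z : E d) (r : ℝ), 0 < r →
    ENNReal.ofReal (r ^ (-((d : ℝ) + 1 / 2))) * (∫⁻ y in Metric.closedBall x (c * r), ∫⁻ τ in Ioc (0 : ℝ) (c * r),
      ENNReal.ofReal (τ ^ (-(1 / 2) : ℝ)) * ENNReal.ofReal (sK y τ z ^ (-(d : ℝ)) * min 1 (r / sK y τ z)))
      ≤ C * ENNReal.ofReal (kap r (x - z)) := by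
  obtain ⟨C, hC⟩ := TB4_main (d := d) (a := 0) le_rfl (by norm_num) hc
  refine ⟨C, fun x z r hr => ?_⟩
  have h := hC x z r hr
  simp only [add_zero, sub_zero] at h
  calc _ ≤ ENNReal.ofReal (r ^ (-((d : ℝ) + 1 / 2))) *
        (C * ENNReal.ofReal (r ^ ((d : ℝ) + 1 / 2) * kap r (x - z))) := by gcongr
    _ = C * ENNReal.ofReal (kap r (x - z)) := by
        rw [mul_left_comm, ← ENNReal.ofReal_mul (by positivity), ← mul_assoc,
          ← Real.rpow_add hr, neg_add_cancel, Real.rpow_zero, one_mul]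

/-- The same with the additional factor `(ρ/s)^{1/4}`. -/
theorem ker_int1 (_hd : 1 ≤ d) {c : ℝ} (hc : 1 ≤ c) : ∃ C : ℝ≥0, ∀ (x z : E d) (r ρ : ℝ), 0 < r → 0 < ρ →
    ENNReal.ofReal (r ^ (-((d : ℝ) + 1 / 2))) * (∫⁻ y in Metric.closedBall x (c * r), ∫⁻ τ in Ioc (0 : ℝ) (c * r),
      ENNReal.ofReal (τ ^ (-(1 / 2) : ℝ)) *
        ENNReal.ofReal (sK y τ z ^ (-(d : ℝ)) * (ρ / sK y τ z) ^ (1 / 4 : ℝ) * min 1 (r / sK y τ z)))
      ≤ C * ENNReal.ofReal ((ρ / r) ^ (1 / 4 : ℝ)) * ENNReal.ofReal (kap r (x - z)) := by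
  obtain ⟨C, hC⟩ := TB4_main (d := d) (a := 1 / 4) (by norm_num) le_rfl hc
  refine ⟨C, fun x z r ρ hr hρ => ?_⟩
  have h := hC x z r hr
  have hpt : ∀ y : E d, ∀ τ ∈ Ioc (0 : ℝ) (c * r), ENNReal.ofReal (τ ^ (-(1 / 2) : ℝ)) *
        ENNReal.ofReal (sK y τ z ^ (-(d : ℝ)) * (ρ / sK y τ z) ^ (1 / 4 : ℝ) * min 1 (r / sK y τ z))
      = ENNReal.ofReal (ρ ^ (1 / 4 : ℝ)) * (ENNReal.ofReal (τ ^ (-(1 / 2) : ℝ)) *
        ENNReal.ofReal (sK y τ z ^ (-((d : ℝ) + 1 / 4)) * min 1 (r / sK y τ z))) := by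
    intro y τ hτ
    have hs : 0 < sK y τ z := by
      unfold sK
      have := hτ.1
      positivity
    rw [mul_left_comm (ENNReal.ofReal (ρ ^ (1 / 4 : ℝ)))]
    congr 1
    rw [← ENNReal.ofReal_mul (by positivity)]
    congr 1
    rw [Real.div_rpow hρ.le hs.le, neg_add, Real.rpow_add hs, Real.rpow_neg hs.le (1 / 4)]
    field_simp
  have hmeas : Measurable fun y : E d => ∫⁻ τ in Ioc (0 : ℝ) (c * r),
      ENNReal.ofReal (τ ^ (-(1 / 2) : ℝ)) *
        ENNReal.ofReal (sK y τ z ^ (-((d : ℝ) + 1 / 4)) * min 1 (r / sK y τ z)) := by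
    apply Measurable.lintegral_prod_right'
      (f := fun p : E d × ℝ => ENNReal.ofReal (p.2 ^ (-(1 / 2) : ℝ)) *
        ENNReal.ofReal (sK p.1 p.2 z ^ (-((d : ℝ) + 1 / 4)) * min 1 (r / sK p.1 p.2 z)))
    unfold sK
    fun_prop
  have heq : (∫⁻ y in Metric.closedBall x (c * r), ∫⁻ τ in Ioc (0 : ℝ) (c * r),
      ENNReal.ofReal (τ ^ (-(1 / 2) : ℝ)) *
        ENNReal.ofReal (sK y τ z ^ (-(d : ℝ)) * (ρ / sK y τ z) ^ (1 / 4 : ℝ) * min 1 (r / sK y τ z)))
      = ENNReal.ofReal (ρ ^ (1 / 4 : ℝ)) * ∫⁻ y in Metric.closedBall x (c * r),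
        ∫⁻ τ in Ioc (0 : ℝ) (c * r), ENNReal.ofReal (τ ^ (-(1 / 2) : ℝ)) *
        ENNReal.ofReal (sK y τ z ^ (-((d : ℝ) + 1 / 4)) * min 1 (r / sK y τ z)) := by
    rw [← lintegral_const_mul _ hmeas]
    refine lintegral_congr fun y => ?_
    have hm2 : Measurable fun τ : ℝ => ENNReal.ofReal (τ ^ (-(1 / 2) : ℝ)) *
        ENNReal.ofReal (sK y τ z ^ (-((d : ℝ) + 1 / 4)) * min 1 (r / sK y τ z)) := by
      unfold sK
      fun_prop
    rw [← lintegral_const_mul _ hm2]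
    exact setLIntegral_congr_fun measurableSet_Ioc (fun τ hτ => hpt y τ hτ)
  rw [heq]
  calc ENNReal.ofReal (r ^ (-((d : ℝ) + 1 / 2))) * (ENNReal.ofReal (ρ ^ (1 / 4 : ℝ)) *
        ∫⁻ y in Metric.closedBall x (c * r),
        ∫⁻ τ in Ioc (0 : ℝ) (c * r), ENNReal.ofReal (τ ^ (-(1 / 2) : ℝ)) *
        ENNReal.ofReal (sK y τ z ^ (-((d : ℝ) + 1 / 4)) * min 1 (r / sK y τ z)))
      ≤ ENNReal.ofReal (r ^ (-((d : ℝ) + 1 / 2))) * (ENNReal.ofReal (ρ ^ (1 / 4 : ℝ)) *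
        (C * ENNReal.ofReal (r ^ ((d : ℝ) + 1 / 2 - 1 / 4) * kap r (x - z)))) := by gcongr
    _ = C * ENNReal.ofReal ((ρ / r) ^ (1 / 4 : ℝ)) * ENNReal.ofReal (kap r (x - z)) := by
        have e1 : r ^ ((d : ℝ) + 1 / 2 - 1 / 4) = r ^ ((d : ℝ) + 1 / 2) * r ^ (-(1 / 4) : ℝ) := by
          rw [← Real.rpow_add hr]
          congr 1
        have e2 : (ρ / r) ^ (1 / 4 : ℝ) = ρ ^ (1 / 4 : ℝ) * r ^ (-(1 / 4) : ℝ) := by
          rw [Real.div_rpow hρ.le hr.le, Real.rpow_neg hr.le]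
          rfl
        have e3 : ENNReal.ofReal (r ^ (-((d : ℝ) + 1 / 2))) * ENNReal.ofReal (r ^ ((d : ℝ) + 1 / 2)) = 1 := by
          rw [← ENNReal.ofReal_mul (by positivity), ← Real.rpow_add hr, neg_add_cancel,
            Real.rpow_zero, ENNReal.ofReal_one]
        rw [e1, e2, ENNReal.ofReal_mul (p := r ^ ((d : ℝ) + 1 / 2) * r ^ (-(1 / 4) : ℝ)) (by positivity),
          ENNReal.ofReal_mul (p := r ^ ((d : ℝ) + 1 / 2)) (by positivity),
          ENNReal.ofReal_mul (p := ρ ^ (1 / 4 : ℝ)) (by positivity)]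
        calc ENNReal.ofReal (r ^ (-((d : ℝ) + 1 / 2))) * (ENNReal.ofReal (ρ ^ (1 / 4 : ℝ)) *
              (C * (ENNReal.ofReal (r ^ ((d : ℝ) + 1 / 2)) * ENNReal.ofReal (r ^ (-(1 / 4) : ℝ)) *
                ENNReal.ofReal (kap r (x - z)))))
            = (ENNReal.ofReal (r ^ (-((d : ℝ) + 1 / 2))) * ENNReal.ofReal (r ^ ((d : ℝ) + 1 / 2))) *
              (C * (ENNReal.ofReal (ρ ^ (1 / 4 : ℝ)) * ENNReal.ofReal (r ^ (-(1 / 4) : ℝ))) *
                ENNReal.ofReal (kap r (x - z))) := by ring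
          _ = _ := by rw [e3, one_mul]

end HG
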