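import Pool.Agent.W_MP_825298_an.TB2
import Pool.Agent.W_MP_825298_an.TB3
import Pool.Agent.W_MP_825298_an.TB4
import Pool.Agent.W_MP_825298_an.Repr3

open MeasureTheory Set Filter Topology
open scoped ENNReal NNReal BigOperators

namespace HG
variable {d : ℕ}

/-- the weight -/
noncomputable def TB5_w (p : E d × ℝ) : ℝ≥0∞ := ENNReal.ofReal (p.2 ^ (-(1 / 2) : ℝ))

/-- the box measure -/
noncomputable abbrev TB5_nu (c : ℝ) (x : E d) (r : ℝ) : Measure (E d × ℝ) :=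
  (volume.restrict (Metric.closedBall x (c * r))).prod (volume.restrict (Ioc (0 : ℝ) (c * r)))

/-- the weighted integral over the box -/
noncomputable def TB5_L (c : ℝ) (x : E d) (r : ℝ) (G : E d × ℝ → ℝ≥0∞) : ℝ≥0∞ :=
  ENNReal.ofReal (r ^ (-((d : ℝ) + 1 / 2))) * ∫⁻ p, TB5_w p * G p ∂(TB5_nu c x r)

theorem TB5_w_meas : Measurable (TB5_w : E d × ℝ → ℝ≥0∞) :=
  (measurable_snd.pow_const _).ennreal_ofReal

theorem TB5_wG {G : E d × ℝ → ℝ≥0∞} (hG : Measurable G) : Measurable (fun p => TB5_w p * G p) :=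
  TB5_w_meas.mul hG

theorem TB5_L_eq (c : ℝ) (x : E d) (r : ℝ) {G : E d × ℝ → ℝ≥0∞} (hG : Measurable G) :
    TB5_L c x r G = ENNReal.ofReal (r ^ (-((d : ℝ) + 1 / 2))) *
      ∫⁻ y in Metric.closedBall x (c * r), ∫⁻ τ in Ioc (0 : ℝ) (c * r),
        ENNReal.ofReal (τ ^ (-(1 / 2) : ℝ)) * G (y, τ) := by
  unfold TB5_L
  rw [lintegral_prod _ (TB5_wG hG).aemeasurable]
  rfl

theorem TB5_L_add (c : ℝ) (x : E d) (r : ℝ) {G H : E d × ℝ → ℝ≥0∞} (hG : Measurable G) :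
    TB5_L c x r (fun p => G p + H p) = TB5_L c x r G + TB5_L c x r H := by
  unfold TB5_L
  simp only [mul_add]
  rw [lintegral_add_left (TB5_wG hG), mul_add]

theorem TB5_L_mul (c : ℝ) (x : E d) (r : ℝ) {G : E d × ℝ → ℝ≥0∞} (hG : Measurable G) (k : ℝ≥0∞) :
    TB5_L c x r (fun p => k * G p) = k * TB5_L c x r G := by
  unfold TB5_L
  simp only [mul_left_comm _ k]
  rw [lintegral_const_mul _ (TB5_wG hG)]
  ring

theorem TB5_L_tsum (c : ℝ) (x : E d) (r : ℝ) {G : ℕ → E d × ℝ → ℝ≥0∞} (hG : ∀ j, Measurable (G j)) :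
    TB5_L c x r (fun p => ∑' j, G j p) = ∑' j, TB5_L c x r (G j) := by
  unfold TB5_L
  rw [ENNReal.tsum_mul_left]
  simp only [← ENNReal.tsum_mul_left (f := fun j => G j _)]
  rw [lintegral_tsum fun j => (TB5_wG (hG j)).aemeasurable]

theorem TB5_L_sum (c : ℝ) (x : E d) (r : ℝ) {ι : Type} (s : Finset ι) {G : ι → E d × ℝ → ℝ≥0∞}
    (hG : ∀ j, Measurable (G j)) :
    TB5_L c x r (fun p => ∑ j ∈ s, G j p) = ∑ j ∈ s, TB5_L c x r (G j) := by
  unfold TB5_L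
  simp only [Finset.mul_sum]
  rw [lintegral_finsetSum _ fun j _ => TB5_wG (hG j), Finset.mul_sum]

theorem TB5_L_swap (c : ℝ) (x : E d) (r : ℝ) {g : (E d × ℝ) → E d → ℝ≥0∞} (hg : Measurable (Function.uncurry g))
    {m : E d → ℝ≥0∞} (hm : Measurable m) :
    TB5_L c x r (fun p => ∫⁻ z, g p z * m z) = ∫⁻ z, TB5_L c x r (fun p => g p z) * m z := by
  unfold TB5_L
  have hg1 : ∀ p, Measurable (g p) := fun p => hg.comp measurable_prodMk_left
  have hg2 : ∀ z, Measurable (fun p => g p z) := fun z => hg.comp measurable_prodMk_right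
  have h1 : ∀ p : E d × ℝ, TB5_w p * ∫⁻ z, g p z * m z = ∫⁻ z, TB5_w p * g p z * m z := by
    intro p
    have hgm : Measurable (fun z => g p z * m z) := (hg1 p).mul hm
    rw [← lintegral_const_mul _ hgm]
    simp only [mul_assoc]
  simp only [h1]
  rw [lintegral_lintegral_swap]
  · have h2 : ∀ z : E d, ∫⁻ p, TB5_w p * g p z * m z ∂(TB5_nu c x r) =
        (∫⁻ p, TB5_w p * g p z ∂(TB5_nu c x r)) * m z := by
      intro z
      rw [lintegral_mul_const _ (TB5_wG (hg2 z))]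
    simp only [h2]
    rw [← lintegral_const_mul]
    · simp only [mul_assoc]
    · refine Measurable.mul ?_ hm
      have h3 : Measurable (Function.uncurry fun (z : E d) (p : E d × ℝ) => TB5_w p * g p z) := by
        refine (TB5_w_meas.comp measurable_snd).mul ?_
        exact hg.comp (measurable_snd.prodMk measurable_fst)
      exact h3.lintegral_prod_right
  · refine Measurable.aemeasurable ?_
    refine ((TB5_w_meas.comp measurable_fst).mul hg).mul (hm.comp measurable_snd)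

/-- the two kernels -/
noncomputable def TB5_g0 (r : ℝ) (p : E d × ℝ) (z : E d) : ℝ :=
  sK p.1 p.2 z ^ (-(d : ℝ)) * min 1 (r / sK p.1 p.2 z)

noncomputable def TB5_g1 (r ρ : ℝ) (p : E d × ℝ) (z : E d) : ℝ :=
  sK p.1 p.2 z ^ (-(d : ℝ)) * (ρ / sK p.1 p.2 z) ^ (1 / 4 : ℝ) * min 1 (r / sK p.1 p.2 z)

theorem TB5_sK_meas : Measurable (fun q : (E d × ℝ) × E d => sK q.1.1 q.1.2 q.2) := by
  unfold sK
  exact ((measurable_snd.sub (measurable_fst.comp measurable_fst)).norm).add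
    (measurable_snd.comp measurable_fst)

theorem TB5_g0_meas (r : ℝ) : Measurable (fun q : (E d × ℝ) × E d => TB5_g0 r q.1 q.2) := by
  unfold TB5_g0
  exact (TB5_sK_meas.pow_const _).mul (measurable_const.min (measurable_const.div TB5_sK_meas))

theorem TB5_g1_meas (r ρ : ℝ) : Measurable (fun q : (E d × ℝ) × E d => TB5_g1 r ρ q.1 q.2) := by
  unfold TB5_g1
  exact ((TB5_sK_meas.pow_const _).mul ((measurable_const.div TB5_sK_meas).pow_const _)).mul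
    (measurable_const.min (measurable_const.div TB5_sK_meas))

theorem TB5_g1s_meas (r ρ : ℝ) (v : E d) :
    Measurable (fun q : (E d × ℝ) × E d => TB5_g1 r ρ q.1 (q.2 - v)) := by
  have h0 : Measurable (fun q : (E d × ℝ) × E d => sK q.1.1 q.1.2 (q.2 - v)) := by
    unfold sK
    exact (((measurable_snd.sub_const v).sub (measurable_fst.comp measurable_fst)).norm).add
      (measurable_snd.comp measurable_fst)
  unfold TB5_g1
  exact ((h0.pow_const _).mul ((measurable_const.div h0).pow_const _)).mul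
    (measurable_const.min (measurable_const.div h0))

theorem TB5_g1_nonneg {r ρ : ℝ} (hr : 0 < r) (hρ : 0 < ρ) {p : E d × ℝ} (hp : 0 < p.2) (z : E d) :
    0 ≤ TB5_g1 r ρ p z := by
  have hs : 0 < sK p.1 p.2 z := by
    unfold sK
    positivity
  unfold TB5_g1
  positivity

theorem TB5_pow (r : ℝ) (hr : 0 < r) (j : ℕ) :
    ENNReal.ofReal ((r / 2 ^ j / r) ^ (1 / 4 : ℝ)) ≤ 2 * ENNReal.ofReal ((2 : ℝ) ^ (-(((j + 1 : ℕ) : ℝ) / 4))) := by
  have h1 : r / 2 ^ j / r = (2 : ℝ) ^ (-(j : ℝ)) := by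
    rw [Real.rpow_neg (by norm_num), Real.rpow_natCast]
    field_simp
  rw [h1, ← Real.rpow_mul (by norm_num)]
  have h2 : (2 : ℝ) ^ (-(j : ℝ) * (1 / 4)) ≤ 2 * (2 : ℝ) ^ (-(((j + 1 : ℕ) : ℝ) / 4)) := by
    have h3 : (2 : ℝ) * (2 : ℝ) ^ (-(((j + 1 : ℕ) : ℝ) / 4)) = (2 : ℝ) ^ (1 + (-(((j + 1 : ℕ) : ℝ) / 4))) := by
      rw [Real.rpow_add (by norm_num), Real.rpow_one]
    rw [h3]
    refine Real.rpow_le_rpow_of_exponent_le (by norm_num) ?_
    push_cast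
    linarith
  calc ENNReal.ofReal ((2 : ℝ) ^ (-(j : ℝ) * (1 / 4)))
      ≤ ENNReal.ofReal (2 * (2 : ℝ) ^ (-(((j + 1 : ℕ) : ℝ) / 4))) := ENNReal.ofReal_le_ofReal h2
    _ = 2 * ENNReal.ofReal ((2 : ℝ) ^ (-(((j + 1 : ℕ) : ℝ) / 4))) := by
      rw [ENNReal.ofReal_mul (by norm_num)]
      norm_num


/-- the terms of the tail sum -/
noncomputable def TB5_I (a : E d → ℝ≥0∞) (x : E d) (r : ℝ) : ℝ≥0∞ :=
  ∫⁻ z : E d, ENNReal.ofReal (kap r (x - z)) * a z

theorem TB5_first {c : ℝ} {K0 : ℝ≥0} (hK0 : ∀ (x z : E d) (r : ℝ), 0 < r →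
    ENNReal.ofReal (r ^ (-((d : ℝ) + 1 / 2))) * (∫⁻ y in Metric.closedBall x (c * r), ∫⁻ τ in Ioc (0 : ℝ) (c * r),
      ENNReal.ofReal (τ ^ (-(1 / 2) : ℝ)) * ENNReal.ofReal (sK y τ z ^ (-(d : ℝ)) * min 1 (r / sK y τ z)))
      ≤ K0 * ENNReal.ofReal (kap r (x - z)))
    (x : E d) {r : ℝ} (hr : 0 < r) {a : E d → ℝ≥0∞} (ha : Measurable a) :
    TB5_L c x r (fun p => ∫⁻ z, ENNReal.ofReal (TB5_g0 r p z) * a z) ≤ K0 * TB5_I a x r := by
  rw [TB5_L_swap c x r (g := fun p z => ENNReal.ofReal (TB5_g0 r p z)) (TB5_g0_meas r).ennreal_ofReal ha]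
  unfold TB5_I
  rw [← lintegral_const_mul' _ _ ENNReal.coe_ne_top]
  refine lintegral_mono fun z => ?_
  rw [← mul_assoc]
  refine mul_le_mul_left ?_ (a z)
  rw [TB5_L_eq c x r (G := fun p => ENNReal.ofReal (TB5_g0 r p z))
    ((TB5_g0_meas r).comp measurable_prodMk_right).ennreal_ofReal]
  exact hK0 x z r hr

theorem TB5_second {c : ℝ} {K1 : ℝ≥0} (hK1 : ∀ (x z : E d) (r ρ : ℝ), 0 < r → 0 < ρ →
    ENNReal.ofReal (r ^ (-((d : ℝ) + 1 / 2))) * (∫⁻ y in Metric.closedBall x (c * r), ∫⁻ τ in Ioc (0 : ℝ) (c * r),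
      ENNReal.ofReal (τ ^ (-(1 / 2) : ℝ)) *
        ENNReal.ofReal (sK y τ z ^ (-(d : ℝ)) * (ρ / sK y τ z) ^ (1 / 4 : ℝ) * min 1 (r / sK y τ z)))
      ≤ K1 * ENNReal.ofReal ((ρ / r) ^ (1 / 4 : ℝ)) * ENNReal.ofReal (kap r (x - z)))
    {C4 : ℝ} (hC4 : 0 < C4) (hkap : ∀ (ρ : ℝ) (z z' : E d), 0 < ρ → ‖z - z'‖ ≤ 8 * ρ → kap ρ z ≤ C4 * kap ρ z')
    (x : E d) {r : ℝ} (hr : 0 < r) {a : E d → ℝ≥0∞} (ha : Measurable a) (j : ℕ) (i : St d) :
    TB5_L c x r (fun p => ∫⁻ z, ENNReal.ofReal (TB5_g1 r (r / 2 ^ j) p (z - (r / 2 ^ j / 2) • kv i)) * a z) ≤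
      (K1 * ENNReal.ofReal C4 * 2) * (ENNReal.ofReal ((2 : ℝ) ^ (-(((j + 1 : ℕ) : ℝ) / 4))) * TB5_I a x r) := by
  have hm : Measurable (fun q : (E d × ℝ) × E d => TB5_g1 r (r / 2 ^ j) q.1 (q.2 - (r / 2 ^ j / 2) • kv i)) :=
    TB5_g1s_meas r (r / 2 ^ j) ((r / 2 ^ j / 2) • kv i)
  rw [TB5_L_swap c x r (g := fun p z => ENNReal.ofReal (TB5_g1 r (r / 2 ^ j) p (z - (r / 2 ^ j / 2) • kv i)))
    hm.ennreal_ofReal ha]
  unfold TB5_I
  rw [← mul_assoc, ← lintegral_const_mul' _ _ (by finiteness)]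
  refine lintegral_mono fun z => ?_
  rw [← mul_assoc]
  refine mul_le_mul_left ?_ (a z)
  rw [TB5_L_eq c x r (G := fun p => ENNReal.ofReal (TB5_g1 r (r / 2 ^ j) p (z - (r / 2 ^ j / 2) • kv i)))
    (hm.comp measurable_prodMk_right).ennreal_ofReal]
  have hρ : 0 < r / 2 ^ j := by positivity
  refine (hK1 x (z - (r / 2 ^ j / 2) • kv i) r (r / 2 ^ j) hr hρ).trans ?_
  have h1 : kap r (x - (z - (r / 2 ^ j / 2) • kv i)) ≤ C4 * kap r (x - z) := by
    refine hkap r _ _ hr ?_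
    have h2 : x - (z - (r / 2 ^ j / 2) • kv i) - (x - z) = (r / 2 ^ j / 2) • kv i := by abel
    rw [h2, norm_smul, Real.norm_eq_abs, abs_of_pos (by positivity)]
    have h3 : r / 2 ^ j ≤ r := div_le_self hr.le (one_le_pow₀ (by norm_num))
    have h4 := norm_kv_le i
    have h5 := norm_nonneg (kv i)
    nlinarith
  calc (K1 : ℝ≥0∞) * ENNReal.ofReal ((r / 2 ^ j / r) ^ (1 / 4 : ℝ)) *
        ENNReal.ofReal (kap r (x - (z - (r / 2 ^ j / 2) • kv i)))
      ≤ K1 * (2 * ENNReal.ofReal ((2 : ℝ) ^ (-(((j + 1 : ℕ) : ℝ) / 4)))) *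
        (ENNReal.ofReal C4 * ENNReal.ofReal (kap r (x - z))) := by
        gcongr
        · exact TB5_pow r hr j
        · rw [← ENNReal.ofReal_mul hC4.le]
          exact ENNReal.ofReal_le_ofReal h1
    _ = _ := by ring

/-- TAIL BOUND. For `X0 = (y,φ y+τ)`, `X1 = (y,φ y-r)` (`X1 ∉ aboveC φ`): `repr_vec`, `tele_bound` with `k = kX φ b X0 X1`
(`kX_continuous`, `kX_tendsto`), `kX_bound`, `Dk_bound` (`ρ = r/2^j`); integrate over `y ∈ closedBall x (c r)`, `0 < τ ≤ c r` against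
`r^{-(d+1/2)} τ^{-1/2}` (Tonelli; the kernel bounds are continuous functions of `(y,τ,z)`), `ker_int0`, `ker_int1`;
in the terms with `z - (ρ/2) kv j` use `kap_comp`. `(ρ/r)^{1/4} = 2^{-j/4} = 2^{1/4} 2^{-(j+1)/4}`. -/
theorem tail_bound (hd : 1 ≤ d) (M : ℝ≥0) {c : ℝ} (hc : 1 ≤ c) : ∃ CT : ℝ≥0, ∀ (φ : E d → ℝ), LipschitzWith M φ →
    ∀ (U : Set (P d)), IsOpen U → aboveC φ ⊆ U → ∀ (F : Ix d → P d → ℝ), IsField U F →
    ∀ (CF δ : ℝ), 0 < δ → (∀ X ∈ aboveC φ, nF F X ≤ CF * (1 + ‖X‖) ^ (-δ)) → Integrable (hb φ F) →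
    ∀ r0 : ℝ, TBH CT r0 (avg (hb φ F)) (Wf φ F c) := by
  obtain ⟨C1, hC1, hrep⟩ := repr_vec hd
  obtain ⟨C2, hC2, hkX⟩ := kX_bound (d := d) M (lt_of_lt_of_le one_pos hc)
  obtain ⟨C3, hC3, hDk⟩ := Dk_bound (d := d) M (lt_of_lt_of_le one_pos hc)
  obtain ⟨K0, hK0⟩ := ker_int0 hd hc
  obtain ⟨K1, hK1⟩ := ker_int1 hd hc
  obtain ⟨C4, hC4, hkap⟩ := kap_comp d
  refine ⟨(Real.toNNReal C1 * ((Fintype.card (Ix d) : ℝ≥0) * (Real.toNNReal C2 + Real.toNNReal C3))) *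
    (K0 + (Fintype.card (St d) : ℝ≥0) * (K1 * Real.toNNReal C4 * 2)), ?_⟩
  intro φ hφ U hU hDU F hF CF δ hδ hdec hint r0 x r hr _
  have hcr : 0 < c * r := by positivity
  set h : E d → VV d := hb φ F with hh
  set a : ℕ → E d → ℝ≥0∞ := fun j z => ‖avg h z (r / 2 ^ j)‖ₑ with ha
  have ham : ∀ j, Measurable (a j) := fun j =>
    (avg_continuous hd hint.locallyIntegrable (by positivity : (0 : ℝ) < r / 2 ^ j)).enorm.measurable
  set U0 : E d × ℝ → ℝ≥0∞ := fun p => ∫⁻ z, ENNReal.ofReal (TB5_g0 r p z) * a 0 z with hU0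
  set U1 : ℕ → St d → E d × ℝ → ℝ≥0∞ := fun j i p =>
    ∫⁻ z, ENNReal.ofReal (TB5_g1 r (r / 2 ^ j) p (z - (r / 2 ^ j / 2) • kv i)) * a (j + 1) z with hU1
  have hU0m : Measurable U0 := by
    have h1 : Measurable (Function.uncurry fun (p : E d × ℝ) (z : E d) => ENNReal.ofReal (TB5_g0 r p z) * a 0 z) :=
      (TB5_g0_meas r).ennreal_ofReal.mul ((ham 0).comp measurable_snd)
    exact h1.lintegral_prod_right
  have hU1m : ∀ j i, Measurable (U1 j i) := by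
    intro j i
    have hm : Measurable (fun q : (E d × ℝ) × E d => TB5_g1 r (r / 2 ^ j) q.1 (q.2 - (r / 2 ^ j / 2) • kv i)) :=
      TB5_g1s_meas r (r / 2 ^ j) ((r / 2 ^ j / 2) • kv i)
    have h1 : Measurable (Function.uncurry fun (p : E d × ℝ) (z : E d) =>
        ENNReal.ofReal (TB5_g1 r (r / 2 ^ j) p (z - (r / 2 ^ j / 2) • kv i)) * a (j + 1) z) :=
      hm.ennreal_ofReal.mul ((ham (j + 1)).comp measurable_snd)
    exact h1.lintegral_prod_right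
  have hS1m : ∀ j, Measurable (fun p => ∑ i : St d, U1 j i p) := fun j =>
    Finset.measurable_sum _ fun i _ => hU1m j i
  have hSm : Measurable (fun p => ∑' j : ℕ, ∑ i : St d, U1 j i p) := Measurable.tsum hS1m
  set K : ℝ≥0∞ := ENNReal.ofReal C1 * ((Fintype.card (Ix d) : ℝ≥0∞) * (ENNReal.ofReal C2 + ENNReal.ofReal C3))
    with hK
  -- pointwise bound
  have hpt : ∀ (y : E d) (τ : ℝ), 0 < τ → τ ≤ c * r → ENNReal.ofReal (nF F (y, φ y + τ)) ≤
      K * (U0 (y, τ) + ∑' j : ℕ, ∑ i : St d, U1 j i (y, τ)) := by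
    intro y τ hτ hτc
    have hX0 : ((y, φ y + τ) : P d) ∈ above φ := by
      show φ y < φ y + τ
      linarith
    have hX1 : ((y, φ y - r) : P d) ∉ aboveC φ := by
      show ¬ (φ y ≤ φ y - r)
      linarith
    have h1 := hrep M φ hφ U hU hDU F hF CF δ hδ hdec _ hX0 _ hX1
    have h2 : ∀ b : Ix d, ‖∫ z : E d, kX φ b (y, φ y + τ) (y, φ y - r) z • h z‖ₑ ≤
        (ENNReal.ofReal C2 + ENNReal.ofReal C3) * (U0 (y, τ) + ∑' j : ℕ, ∑ i : St d, U1 j i (y, τ)) := by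
      intro b
      refine (tele_bound hd hint (kX_continuous hφ b y hτ hr) (kX_tendsto hd hφ b y hτ hr) hr).trans ?_
      have e1 : (∫⁻ z : E d, ‖kX φ b (y, φ y + τ) (y, φ y - r) z‖ₑ * ‖avg h z r‖ₑ) ≤
          ENNReal.ofReal C2 * U0 (y, τ) := by
        rw [hU0, ← lintegral_const_mul' _ _ ENNReal.ofReal_ne_top]
        refine lintegral_mono fun z => ?_
        have e2 : a 0 z = ‖avg h z r‖ₑ := by
          simp only [ha, pow_zero, div_one]
        rw [e2, ← mul_assoc]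
        refine mul_le_mul_left ?_ _
        rw [Real.enorm_eq_ofReal_abs, ← ENNReal.ofReal_mul hC2.le]
        exact ENNReal.ofReal_le_ofReal (hkX φ hφ b y z τ r hτ hr hτc)
      have e3 : ∀ j : ℕ, (∫⁻ z : E d, ‖Dk (kX φ b (y, φ y + τ) (y, φ y - r)) (r / 2 ^ j) z‖ₑ *
          ‖avg h z (r / 2 ^ (j + 1))‖ₑ) ≤ ENNReal.ofReal C3 * ∑ i : St d, U1 j i (y, τ) := by
        intro j
        have e4 : ∑ i : St d, U1 j i (y, τ) = ∫⁻ z, (∑ i : St d,
            ENNReal.ofReal (TB5_g1 r (r / 2 ^ j) (y, τ) (z - (r / 2 ^ j / 2) • kv i))) * a (j + 1) z := by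
          rw [hU1]
          simp only [Finset.sum_mul]
          rw [lintegral_finsetSum]
          intro i _
          have hm : Measurable (fun q : (E d × ℝ) × E d => TB5_g1 r (r / 2 ^ j) q.1 (q.2 - (r / 2 ^ j / 2) • kv i)) :=
            TB5_g1s_meas r (r / 2 ^ j) ((r / 2 ^ j / 2) • kv i)
          exact (hm.comp measurable_prodMk_left).ennreal_ofReal.mul (ham (j + 1))
        rw [e4, ← lintegral_const_mul' _ _ ENNReal.ofReal_ne_top]
        refine lintegral_mono fun z => ?_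
        rw [← mul_assoc]
        refine mul_le_mul_left ?_ _
        rw [Real.enorm_eq_ofReal_abs]
        have hρ : 0 < r / 2 ^ j := by positivity
        have hρr : r / 2 ^ j ≤ r := div_le_self hr.le (one_le_pow₀ (by norm_num))
        have e5 := hDk φ hφ b y z τ r (r / 2 ^ j) hτ hr hτc hρ hρr
        rw [← ENNReal.ofReal_sum_of_nonneg fun i _ => TB5_g1_nonneg hr hρ (p := (y, τ)) hτ _,
          ← ENNReal.ofReal_mul hC3.le]
        exact ENNReal.ofReal_le_ofReal e5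
      calc (∫⁻ z : E d, ‖kX φ b (y, φ y + τ) (y, φ y - r) z‖ₑ * ‖avg h z r‖ₑ)
          + ∑' j : ℕ, ∫⁻ z : E d, ‖Dk (kX φ b (y, φ y + τ) (y, φ y - r)) (r / 2 ^ j) z‖ₑ *
            ‖avg h z (r / 2 ^ (j + 1))‖ₑ
          ≤ ENNReal.ofReal C2 * U0 (y, τ) + ∑' j : ℕ, ENNReal.ofReal C3 * ∑ i : St d, U1 j i (y, τ) :=
            add_le_add e1 (ENNReal.tsum_le_tsum e3)
        _ = ENNReal.ofReal C2 * U0 (y, τ) + ENNReal.ofReal C3 * ∑' j : ℕ, ∑ i : St d, U1 j i (y, τ) := by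
            rw [ENNReal.tsum_mul_left]
        _ ≤ (ENNReal.ofReal C2 + ENNReal.ofReal C3) * U0 (y, τ) +
            (ENNReal.ofReal C2 + ENNReal.ofReal C3) * ∑' j : ℕ, ∑ i : St d, U1 j i (y, τ) := by
            gcongr
            · exact le_self_add
            · exact le_add_self
        _ = _ := by rw [mul_add]
    calc ENNReal.ofReal (nF F (y, φ y + τ))
        ≤ ENNReal.ofReal (C1 * ∑ b : Ix d, ‖∫ z : E d, kX φ b (y, φ y + τ) (y, φ y - r) z • h z‖) :=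
          ENNReal.ofReal_le_ofReal h1
      _ = ENNReal.ofReal C1 * ∑ b : Ix d, ‖∫ z : E d, kX φ b (y, φ y + τ) (y, φ y - r) z • h z‖ₑ := by
          rw [ENNReal.ofReal_mul hC1.le, ENNReal.ofReal_sum_of_nonneg fun b _ => norm_nonneg _]
          simp only [ofReal_norm]
      _ ≤ ENNReal.ofReal C1 * ∑ _b : Ix d, (ENNReal.ofReal C2 + ENNReal.ofReal C3) *
            (U0 (y, τ) + ∑' j : ℕ, ∑ i : St d, U1 j i (y, τ)) :=
          mul_le_mul_right (Finset.sum_le_sum fun b _ => h2 b) _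
      _ = _ := by
          rw [Finset.sum_const, Finset.card_univ, nsmul_eq_mul, hK]
          ring
  -- integration
  have hGm : Measurable (fun p => U0 p + ∑' j : ℕ, ∑ i : St d, U1 j i p) := hU0m.add hSm
  have hW : Wf φ F c x r ≤ K * (TB5_L c x r U0 + ∑' j : ℕ, ∑ i : St d, TB5_L c x r (U1 j i)) := by
    have h3 : TB5_L c x r (fun p => K * (U0 p + ∑' j : ℕ, ∑ i : St d, U1 j i p)) =
        K * (TB5_L c x r U0 + ∑' j : ℕ, ∑ i : St d, TB5_L c x r (U1 j i)) := by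
      rw [TB5_L_mul c x r hGm, TB5_L_add c x r hU0m, TB5_L_tsum c x r hS1m]
      congr 2
      refine tsum_congr fun j => ?_
      rw [TB5_L_sum c x r _ (hU1m j)]
    rw [← h3, TB5_L_eq c x r (G := fun p => K * (U0 p + ∑' j : ℕ, ∑ i : St d, U1 j i p)) (hGm.const_mul K)]
    unfold Wf
    refine mul_le_mul_right ?_ _
    refine setLIntegral_mono' Metric.isClosed_closedBall.measurableSet fun y _ => ?_
    refine setLIntegral_mono' measurableSet_Ioc fun τ hτ => ?_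
    exact mul_le_mul_right (hpt y τ hτ.1 hτ.2) _
  have h4 : TB5_L c x r U0 ≤ K0 * TB5_I (a 0) x r := TB5_first hK0 x hr (ham 0)
  have h5 : ∀ j i, TB5_L c x r (U1 j i) ≤ (K1 * ENNReal.ofReal C4 * 2) *
      (ENNReal.ofReal ((2 : ℝ) ^ (-(((j + 1 : ℕ) : ℝ) / 4))) * TB5_I (a (j + 1)) x r) := fun j i =>
    TB5_second hK1 hC4 hkap x hr (ham (j + 1)) j i
  set T : ℕ → ℝ≥0∞ := fun j => ENNReal.ofReal ((2 : ℝ) ^ (-((j : ℝ) / 4))) * TB5_I (a j) x r with hT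
  have hT0 : T 0 = TB5_I (a 0) x r := by
    simp [hT]
  have h6 : TB5_L c x r U0 + ∑' j : ℕ, ∑ i : St d, TB5_L c x r (U1 j i) ≤
      (K0 + (Fintype.card (St d) : ℝ≥0∞) * (K1 * ENNReal.ofReal C4 * 2)) * ∑' j, T j := by
    have h7 : ∑' j : ℕ, ∑ i : St d, TB5_L c x r (U1 j i) ≤
        (Fintype.card (St d) : ℝ≥0∞) * (K1 * ENNReal.ofReal C4 * 2) * ∑' j, T (j + 1) := by
      rw [← ENNReal.tsum_mul_left]
      refine ENNReal.tsum_le_tsum fun j => ?_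
      calc ∑ i : St d, TB5_L c x r (U1 j i) ≤ ∑ _i : St d, (K1 * ENNReal.ofReal C4 * 2) * T (j + 1) :=
            Finset.sum_le_sum fun i _ => h5 j i
        _ = _ := by
            rw [Finset.sum_const, Finset.card_univ, nsmul_eq_mul]
            ring
    have h8 : ∑' j, T j = T 0 + ∑' j, T (j + 1) := tsum_eq_zero_add' ENNReal.summable
    calc TB5_L c x r U0 + ∑' j : ℕ, ∑ i : St d, TB5_L c x r (U1 j i)
        ≤ K0 * T 0 + (Fintype.card (St d) : ℝ≥0∞) * (K1 * ENNReal.ofReal C4 * 2) * ∑' j, T (j + 1) := by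
          rw [hT0]
          exact add_le_add h4 h7
      _ ≤ (K0 + (Fintype.card (St d) : ℝ≥0∞) * (K1 * ENNReal.ofReal C4 * 2)) * T 0 +
          (K0 + (Fintype.card (St d) : ℝ≥0∞) * (K1 * ENNReal.ofReal C4 * 2)) * ∑' j, T (j + 1) := by
          gcongr
          · exact le_self_add
          · exact le_add_self
      _ = _ := by rw [h8, mul_add]
  calc Wf φ F c x r ≤ K * (TB5_L c x r U0 + ∑' j : ℕ, ∑ i : St d, TB5_L c x r (U1 j i)) := hW
    _ ≤ K * ((K0 + (Fintype.card (St d) : ℝ≥0∞) * (K1 * ENNReal.ofReal C4 * 2)) * ∑' j, T j) :=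
        mul_le_mul_right h6 _
    _ = _ := by
        have h9 : (∑' j : ℕ, ENNReal.ofReal ((2 : ℝ) ^ (-((j : ℝ) / 4))) *
          ∫⁻ z : E d, ENNReal.ofReal (kap r (x - z)) * ‖avg h z (r / 2 ^ j)‖ₑ) = ∑' j, T j := rfl
        rw [h9, ← mul_assoc]
        congr 1

end HG
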