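import Pool.Agent.W_MP_825298_an.GA1
import Pool.Agent.W_MP_825298_an.GA2
import Pool.Agent.W_MP_825298_an.GA4
import Pool.Agent.W_MP_825298_an.TB5
import Pool.Agent.W_MP_825298_an.Asm3
import Pool.Agent.W_MP_825298_an.KLS

open MeasureTheory Set Filter Topology
open scoped ENNReal NNReal BigOperators

namespace HG
variable {d : ℕ}

theorem GA5_isField_mono {U V : Set (P d)} {F : Ix d → P d → ℝ} (hF : IsField U F) (h : V ⊆ U) :
    IsField V F :=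
  ⟨fun a => (hF.cd a).mono h, fun a b X hX => hF.curl a b X (h hX), fun X hX => hF.div X (h hX)⟩

theorem GA5_mono (φ : E d → ℝ) (F : Ix d → P d → ℝ) (a : ℝ) {ρ ρ' R R' : ℝ} (hρ : ρ' ≤ ρ)
    (hR : R ≤ R') (x : E d) : GN φ F a ρ R x ≤ GN φ F a ρ' R' x := by
  unfold GN
  refine iSup₂_le fun X hX => ?_
  obtain ⟨h1, h2, h3⟩ := hX
  exact le_iSup₂_of_le X ⟨h1, hρ.trans_lt h2, h3.trans_le hR⟩ le_rfl

/-- Truncated form of the graph theorem. `c = max c0 (max (a+3) 2)` with `c0` from `KL_lemma`; `CW = 2^(d+1)` (`Wf_growth`), `CT` from `tail_bound`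
(`δ = d+1`), `κ` from `assembly (V := VV d)`, `L, J, C1` from `KL_lemma`, `C` from `assembly`; `N1 = ∫⁻ ‖hb φ F‖ₑ`
(`avg_lintegral_le`), `avg_refEq`, `apriori`, `hb_integrable`, `Wf_measurable`, `avg_enorm_measurable`; finally
`∫ GN = ∫ Ex_N GN(x + r0 Zp N ω)` (`inv_lintegral`), `GN_le_path`, and `‖hb‖ ≤ C nF F` (`hb_norm_le`). -/
theorem graph_trunc (hd : 3 ≤ d) (M : ℝ≥0) {a : ℝ} (ha : 0 < a) : ∃ C : ℝ≥0,
    ∀ (φ : E d → ℝ), LipschitzWith M φ → ∀ (U : Set (P d)), IsOpen U → aboveC φ ⊆ U →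
    ∀ (F : Ix d → P d → ℝ), IsField U F →
    ∀ CF : ℝ, (∀ X ∈ aboveC φ, nF F X ≤ CF * (1 + ‖X‖) ^ (-((d : ℝ) + 1))) →
    ∀ (r0 : ℝ), 0 < r0 → ∀ N : ℕ,
      ∫⁻ x : E d, GN φ F a (r0 / 2 ^ N) r0 x ≤ C * ∫⁻ x : E d, ENNReal.ofReal (nF F (x, φ x)) := by
  have hd1 : 1 ≤ d := by omega
  obtain ⟨c0, hc0, hKL⟩ := KL_lemma (d := d) hd M
  obtain ⟨c, hcc0, hca, hc2⟩ : ∃ c : ℝ, c0 ≤ c ∧ a + 3 ≤ c ∧ 2 ≤ c :=
    ⟨max c0 (max (a + 3) 2), le_max_left _ _, (le_max_left _ _).trans (le_max_right _ _),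
      (le_max_right _ _).trans (le_max_right _ _)⟩
  have hc1 : 1 ≤ c := by linarith
  have hcp : 0 < c := by linarith
  obtain ⟨CT, hCT⟩ := tail_bound (d := d) hd1 M hc1
  obtain ⟨κ, hκ, hAs⟩ := assembly (V := VV d) (d := d) hd1 (2 ^ (d + 1)) CT
  obtain ⟨L, J, C1, hL, hKL'⟩ := hKL c hcc0 κ hκ
  obtain ⟨CA, hCA⟩ := hAs L J C1 hL
  obtain ⟨CG, hCG⟩ := GN_le_path (d := d) M ha hca
  obtain ⟨CH, hCH0, hCH⟩ := hb_norm_le d M
  refine ⟨CG * (CA * CH.toNNReal), ?_⟩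
  intro φ hφ U hU hDU F hF CF hdec r0 hr0 N
  have hFc : ∀ a, ContinuousOn (F a) U := fun a => (hF.cd a).continuousOn
  have habove : above φ ⊆ U := fun X hX => by
    have h1 : φ X.1 < X.2 := hX
    exact hDU (show φ X.1 ≤ X.2 from h1.le)
  have hFa : IsField (above φ) F := GA5_isField_mono hF habove
  have hint : Integrable (hb φ F) := hb_integrable hφ hDU hFc hdec
  have hbm : Measurable (hb φ F) := hb_measurable hφ hDU hFc
  have hmain : ∫⁻ x : E d, Ex N (fun ω : ℕ → St d => ⨆ l ∈ Finset.range (N + 1),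
      wv (Wf φ F c) x r0 ω l) ≤ CA * ∫⁻ x : E d, ‖hb φ F x‖ₑ := by
    refine hCA (avg (hb φ F)) (Wf φ F c) r0 (∫⁻ x : E d, ‖hb φ F x‖ₑ)
      (avg_refEq hd1 hint.locallyIntegrable)
      (avg_enorm_measurable hbm pk_contDiff.continuous.measurable)
      (fun r => Wf_measurable hφ hDU hFc c r) ?_ hr0 ?_ ?_ ?_ ?_ N
    · intro x x' r hr hx
      exact Wf_growth φ F hc2 x x' hr hx
    · intro r hr
      exact avg_lintegral_le hint.aestronglyMeasurable hr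
    · exact hCT φ hφ U hU hDU F hF CF ((d : ℝ) + 1) (by positivity) hdec hint r0
    · exact hKL' φ hφ U hU hDU F hF CF hdec r0
    · exact apriori hd1 hφ hDU hFc hdec hcp hr0
  have hhb : ∫⁻ x : E d, ‖hb φ F x‖ₑ ≤
      (CH.toNNReal : ℝ≥0∞) * ∫⁻ x : E d, ENNReal.ofReal (nF F (x, φ x)) := by
    rw [← lintegral_const_mul' _ _ ENNReal.coe_ne_top]
    refine lintegral_mono fun x => ?_
    have h1 := hCH φ hφ F x
    calc ‖hb φ F x‖ₑ = ENNReal.ofReal ‖hb φ F x‖ := (ofReal_norm _).symm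
      _ ≤ ENNReal.ofReal (CH * nF F (x, φ x)) := ENNReal.ofReal_le_ofReal h1
      _ = ENNReal.ofReal CH * ENNReal.ofReal (nF F (x, φ x)) := ENNReal.ofReal_mul hCH0.le
      _ = _ := rfl
  calc ∫⁻ x : E d, GN φ F a (r0 / 2 ^ N) r0 x
      = ∫⁻ x : E d, Ex N (fun ω : ℕ → St d => GN φ F a (r0 / 2 ^ N) r0 (x + r0 • Zp N ω)) :=
        (inv_lintegral (GN_measurable φ F a (r0 / 2 ^ N) r0) N N r0).symm
    _ ≤ ∫⁻ x : E d, CG * Ex N (fun ω : ℕ → St d => ⨆ l ∈ Finset.range (N + 1),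
          wv (Wf φ F c) x r0 ω l) := by
        refine lintegral_mono fun x => ?_
        simp only
        rw [← Ex_mul]
        exact Ex_mono N fun ω => hCG φ hφ F hFa r0 hr0 N x ω
    _ = CG * ∫⁻ x : E d, Ex N (fun ω : ℕ → St d => ⨆ l ∈ Finset.range (N + 1),
          wv (Wf φ F c) x r0 ω l) := lintegral_const_mul' _ _ ENNReal.coe_ne_top
    _ ≤ CG * (CA * ((CH.toNNReal : ℝ≥0∞) * ∫⁻ x : E d, ENNReal.ofReal (nF F (x, φ x)))) := by
        gcongr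
        exact hmain.trans (by gcongr)
    _ = ((CG * (CA * CH.toNNReal) : ℝ≥0) : ℝ≥0∞) * ∫⁻ x : E d, ENNReal.ofReal (nF F (x, φ x)) := by
        push_cast
        ring

/-- The graph theorem: `g = ⨆ n, GN φ F (|a|+1) (2^n/2^(2n)) (2^n)` (monotone in `n`; `lintegral_iSup`). -/
theorem graph_theorem' (hd : 3 ≤ d) (M : ℝ≥0) (a : ℝ) : ∃ C : ℝ, 0 < C ∧
    ∀ (φ : E d → ℝ), LipschitzWith M φ → ∀ (U : Set (P d)), IsOpen U → aboveC φ ⊆ U →
    ∀ (F : Ix d → P d → ℝ), IsField U F →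
    ∀ CF : ℝ, (∀ X ∈ aboveC φ, nF F X ≤ CF * (1 + ‖X‖) ^ (-((d : ℝ) + 1))) →
    ∃ g : E d → ℝ≥0∞, Measurable g ∧
      (∀ (x : E d), ∀ X ∈ above φ, ‖X.1 - x‖ ≤ a * (X.2 - φ X.1) → ENNReal.ofReal (nF F X) ≤ g x) ∧
      ∫⁻ x : E d, g x ≤ ENNReal.ofReal C * ∫⁻ x : E d, ENNReal.ofReal (nF F (x, φ x)) := by
  have ha : 0 < |a| + 1 := by positivity
  obtain ⟨C, hC⟩ := graph_trunc hd M ha
  refine ⟨(C : ℝ) + 1, by positivity, ?_⟩
  intro φ hφ U hU hDU F hF CF hdec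
  have hlow : ∀ n : ℕ, (2 : ℝ) ^ n / 2 ^ (2 * n) = ((2 : ℝ) ^ n)⁻¹ := by
    intro n
    rw [two_mul, pow_add]
    field_simp
  have hmono : Monotone (fun n : ℕ => GN φ F (|a| + 1) ((2 : ℝ) ^ n / 2 ^ (2 * n)) (2 ^ n)) := by
    intro m n hmn x
    refine GA5_mono φ F _ ?_ ?_ x
    · rw [hlow, hlow]
      exact inv_anti₀ (by positivity) (pow_le_pow_right₀ (by norm_num) hmn)
    · exact pow_le_pow_right₀ (by norm_num) hmn
  refine ⟨fun x => ⨆ n : ℕ, GN φ F (|a| + 1) ((2 : ℝ) ^ n / 2 ^ (2 * n)) (2 ^ n) x, ?_, ?_, ?_⟩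
  · exact Measurable.iSup fun n => GN_measurable _ _ _ _ _
  · intro x X hX hXa
    have ht : 0 < X.2 - φ X.1 := by
      have h1 : φ X.1 < X.2 := hX
      linarith
    set t := X.2 - φ X.1 with htdef
    obtain ⟨n1, hn1⟩ := pow_unbounded_of_one_lt t (by norm_num : (1 : ℝ) < 2)
    obtain ⟨n2, hn2⟩ := pow_unbounded_of_one_lt t⁻¹ (by norm_num : (1 : ℝ) < 2)
    have h1 : t < 2 ^ (max n1 n2) := hn1.trans_le (pow_le_pow_right₀ (by norm_num) (le_max_left _ _))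
    have h2 : t⁻¹ < 2 ^ (max n1 n2) :=
      hn2.trans_le (pow_le_pow_right₀ (by norm_num) (le_max_right _ _))
    have h3 : ((2 : ℝ) ^ (max n1 n2))⁻¹ < t := inv_lt_of_inv_lt₀ ht h2
    refine le_iSup_of_le (max n1 n2) ?_
    unfold GN
    refine le_iSup₂_of_le X ⟨?_, ?_, ?_⟩ le_rfl
    · have h4 : a * t ≤ |a| * t := mul_le_mul_of_nonneg_right (le_abs_self a) ht.le
      have h5 : (|a| + 1) * t = |a| * t + t := by ring
      rw [← htdef, h5]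
      linarith
    · rw [hlow, ← htdef]
      exact h3
    · exact h1
  · rw [lintegral_iSup (fun n => GN_measurable _ _ _ _ _) hmono]
    refine iSup_le fun n => ?_
    refine (hC φ hφ U hU hDU F hF CF hdec (2 ^ n) (by positivity) (2 * n)).trans ?_
    gcongr
    rw [← ENNReal.ofReal_coe_nnreal]
    exact ENNReal.ofReal_le_ofReal (by linarith)

end HG
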