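import Pool.Agent.W_MP_825298_an.MV3d

open MeasureTheory Set Filter Topology
open scoped ENNReal NNReal BigOperators

namespace HG
variable {d : ℕ}

/-- points near `(x,t+τ)`: height above the graph -/
theorem gf1_height {M : ℝ≥0} {ψ : E d → ℝ} (hψ : LipschitzWith M ψ) {X Y : P d} {ε τ r : ℝ}
    (hX : ψ X.1 + ε ≤ X.2) (hr : r = (ε + τ) / (4 * (1 + M)))
    (hY : Y ∈ Metric.closedBall ((X.1, X.2 + τ) : P d) r) :
    ψ Y.1 + 3 / 4 * (ε + τ) ≤ Y.2 := by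
  have hM : (0 : ℝ) ≤ M := M.2
  rw [mem_closedBall_iff_norm, Prod.norm_def, sup_le_iff] at hY
  obtain ⟨h1, h2⟩ := hY
  have h1' : ‖Y.1 - X.1‖ ≤ r := h1
  have h2' : |Y.2 - (X.2 + τ)| ≤ r := h2
  have h3 := hψ.dist_le_mul Y.1 X.1
  rw [Real.dist_eq, dist_eq_norm] at h3
  have h4 := (abs_le.1 h2').1
  have h5 := (abs_le.1 h3).2
  have h6 : (M : ℝ) * ‖Y.1 - X.1‖ ≤ M * r := mul_le_mul_of_nonneg_left h1' hM
  have h7 : (1 + (M : ℝ)) * r = (ε + τ) / 4 := by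
    rw [hr]; field_simp
  nlinarith

/-- distance to `Z0` -/
theorem gf1_dist {M : ℝ≥0} {ψ : E d → ℝ} (hψ : LipschitzWith M ψ) {X Y Z0 : P d} (hZ0 : Z0.2 ≤ ψ Z0.1)
    {ε τ r : ℝ} (hε : 0 < ε) (hτ : 0 ≤ τ)
    (hX : ψ X.1 + ε ≤ X.2) (hr : r = (ε + τ) / (4 * (1 + M)))
    (hY : Y ∈ Metric.closedBall ((X.1, X.2 + τ) : P d) r) :
    1 + ‖X‖ + τ ≤ (4 + 3 * M + ‖Z0‖) * (1 + ‖Y - Z0‖) := by
  have hM : (0 : ℝ) ≤ M := M.2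
  have hh := gf1_height hψ hX hr hY
  have h1 : ‖(Y - Z0).1‖ ≤ ‖Y - Z0‖ := norm_fst_le _
  have h2 : ‖(Y - Z0).2‖ ≤ ‖Y - Z0‖ := norm_snd_le _
  have h1' : ‖Y.1 - Z0.1‖ ≤ ‖Y - Z0‖ := h1
  have h2' : |Y.2 - Z0.2| ≤ ‖Y - Z0‖ := h2
  have h3 := hψ.dist_le_mul Y.1 Z0.1
  rw [Real.dist_eq, dist_eq_norm] at h3
  have h4 := (abs_le.1 h2').2
  have h5 := (abs_le.1 h3).1
  have h6 : (M : ℝ) * ‖Y.1 - Z0.1‖ ≤ M * ‖Y - Z0‖ := mul_le_mul_of_nonneg_left h1' hM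
  have h7 : 3 / 4 * (ε + τ) ≤ (1 + M) * ‖Y - Z0‖ := by nlinarith
  -- distance to X
  have h8 : ‖Y - (X.1, X.2 + τ)‖ ≤ r := by
    rw [mem_closedBall_iff_norm] at hY; exact hY
  have h9 : ‖((X.1, X.2 + τ) : P d) - X‖ ≤ τ := by
    rw [Prod.norm_def, sup_le_iff]
    constructor
    · simp [hτ]
    · simp [abs_of_nonneg hτ]
  have h10 : r ≤ (ε + τ) / 4 := by
    rw [hr]
    apply div_le_div_of_nonneg_left (by positivity) (by norm_num)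
    nlinarith
  have h11 : ‖X‖ ≤ ‖Y - Z0‖ + ‖Z0‖ + r + τ := by
    have : X = (Y - Z0) + Z0 - (Y - (X.1, X.2 + τ)) - (((X.1, X.2 + τ) : P d) - X) := by abel
    calc ‖X‖ = ‖(Y - Z0) + Z0 - (Y - (X.1, X.2 + τ)) - (((X.1, X.2 + τ) : P d) - X)‖ := by rw [← this]
      _ ≤ ‖(Y - Z0) + Z0 - (Y - (X.1, X.2 + τ))‖ + ‖((X.1, X.2 + τ) : P d) - X‖ := norm_sub_le _ _
      _ ≤ ‖(Y - Z0) + Z0‖ + ‖Y - (X.1, X.2 + τ)‖ + ‖((X.1, X.2 + τ) : P d) - X‖ := by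
          gcongr; exact norm_sub_le _ _
      _ ≤ ‖Y - Z0‖ + ‖Z0‖ + ‖Y - (X.1, X.2 + τ)‖ + ‖((X.1, X.2 + τ) : P d) - X‖ := by
          gcongr; exact norm_add_le _ _
      _ ≤ ‖Y - Z0‖ + ‖Z0‖ + r + τ := by gcongr
  have hn : 0 ≤ ‖Y - Z0‖ := norm_nonneg _
  have hz : 0 ≤ ‖Z0‖ := norm_nonneg _
  nlinarith [mul_nonneg hM hn, mul_nonneg hz hn]

theorem gf1_bound {M : ℝ≥0} {ψ : E d → ℝ} (hψ : LipschitzWith M ψ) {H : P d → ℝ} (hd : 1 ≤ d)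
    (h0 : ∀ X ∈ above ψ, 0 ≤ H X) {B0 : ℝ} {Z0 : P d} (hZ0 : Z0.2 ≤ ψ Z0.1)
    (hb : ∀ X ∈ above ψ, H X ≤ B0 * (1 + ‖X - Z0‖) ^ (-((d : ℝ) - 1)))
    {X Y : P d} {ε τ r : ℝ} (hε : 0 < ε) (hτ : 0 ≤ τ)
    (hX : ψ X.1 + ε ≤ X.2) (hr : r = (ε + τ) / (4 * (1 + M)))
    (hY : Y ∈ Metric.closedBall ((X.1, X.2 + τ) : P d) r) :
    0 ≤ H Y ∧ H Y ≤ |B0| * (4 + 3 * M + ‖Z0‖) ^ ((d : ℝ) - 1) * (1 + ‖X‖ + τ) ^ (-((d : ℝ) - 1)) := by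
  have hM : (0 : ℝ) ≤ M := M.2
  have hh := gf1_height hψ hX hr hY
  have hYa : Y ∈ above ψ := by
    show ψ Y.1 < Y.2
    linarith
  refine ⟨h0 Y hYa, (hb Y hYa).trans ?_⟩
  have hD := gf1_dist hψ hZ0 hε hτ hX hr hY
  have hd' : (0 : ℝ) ≤ (d : ℝ) - 1 := by
    have : (1 : ℝ) ≤ d := by exact_mod_cast hd
    linarith
  have hK : 0 < 4 + 3 * (M : ℝ) + ‖Z0‖ := by positivity
  have hX1 : 0 < 1 + ‖X‖ + τ := by positivity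
  have hY1 : 0 < 1 + ‖Y - Z0‖ := by positivity
  have key : (1 + ‖Y - Z0‖) ^ (-((d : ℝ) - 1)) ≤
      (4 + 3 * M + ‖Z0‖) ^ ((d : ℝ) - 1) * (1 + ‖X‖ + τ) ^ (-((d : ℝ) - 1)) := by
    have e1 : ((1 + ‖X‖ + τ) / (4 + 3 * M + ‖Z0‖)) ^ (-((d : ℝ) - 1)) =
        (4 + 3 * M + ‖Z0‖) ^ ((d : ℝ) - 1) * (1 + ‖X‖ + τ) ^ (-((d : ℝ) - 1)) := by
      rw [Real.div_rpow hX1.le hK.le, Real.rpow_neg hK.le ((d : ℝ) - 1)]
      field_simp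
    rw [← e1]
    apply Real.rpow_le_rpow_of_nonpos (by positivity)
    · rw [div_le_iff₀ hK]; linarith
    · linarith
  have hp : 0 ≤ (1 + ‖Y - Z0‖) ^ (-((d : ℝ) - 1)) := by positivity
  calc B0 * (1 + ‖Y - Z0‖) ^ (-((d : ℝ) - 1)) ≤ |B0| * (1 + ‖Y - Z0‖) ^ (-((d : ℝ) - 1)) := by
        gcongr; exact le_abs_self _
    _ ≤ |B0| * ((4 + 3 * M + ‖Z0‖) ^ ((d : ℝ) - 1) * (1 + ‖X‖ + τ) ^ (-((d : ℝ) - 1))) := by gcongr
    _ = _ := by ring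

theorem gf1_volume (X : P d) {r : ℝ} (hr : 0 ≤ r) :
    (volume (Metric.closedBall X r)).toReal = (2 * r) ^ (d + 1) := by
  have h : Metric.closedBall X r = Metric.closedBall X.1 r ×ˢ Metric.closedBall X.2 r :=
    (closedBall_prod_same X.1 X.2 r).symm
  rw [h, Measure.volume_eq_prod, Measure.prod_prod, Real.volume_pi_closedBall _ hr, Real.volume_closedBall,
    ENNReal.toReal_mul, ENNReal.toReal_ofReal (by positivity), ENNReal.toReal_ofReal (by positivity),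
    Fintype.card_fin]
  ring

/-- Decay of the derivatives of `H` along vertical half lines. With `r = (ε+τ)/(4(1+M))` the ball
`closedBall (x,t+τ) r` lies in `above ψ` and on it `1+‖Y-Z0‖ ≥ c (1+‖X‖+τ)` (as `Z0` is not above the graph,
`‖(x,t+τ)-Z0‖ ≥ (ε+τ)/(1+M)` and `≥ c‖X-Z0‖`); apply `mvp_estimates`. -/
theorem H_deriv_decay (hd : 1 ≤ d) {M : ℝ≥0} {ψ : E d → ℝ} (hψ : LipschitzWith M ψ) {H : P d → ℝ}
    (hH : MVP (above ψ) H) (h0 : ∀ X ∈ above ψ, 0 ≤ H X) {B0 : ℝ} {Z0 : P d} (hZ0 : Z0.2 ≤ ψ Z0.1)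
    (hb : ∀ X ∈ above ψ, H X ≤ B0 * (1 + ‖X - Z0‖) ^ (-((d : ℝ) - 1))) {ε : ℝ} (hε : 0 < ε) :
    ∃ C : ℝ, 0 < C ∧ ∀ X : P d, ψ X.1 + ε ≤ X.2 → ∀ τ : ℝ, 0 ≤ τ →
      H (X.1, X.2 + τ) ≤ C * (1 + ‖X‖ + τ) ^ (-((d : ℝ) - 1)) ∧
      (∀ a : Ix d, |pd a H (X.1, X.2 + τ)| ≤ C * (ε + τ)⁻¹ * (1 + ‖X‖ + τ) ^ (-((d : ℝ) - 1))) ∧
      (∀ a b : Ix d, |pd b (pd a H) (X.1, X.2 + τ)| ≤ C * ((ε + τ) ^ 2)⁻¹ * (1 + ‖X‖ + τ) ^ (-((d : ℝ) - 1))) := by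
  obtain ⟨Cm, hCm, hmv⟩ := mvp_estimates d
  have hM : (0 : ℝ) ≤ M := M.2
  set A : ℝ := |B0| * (4 + 3 * M + ‖Z0‖) ^ ((d : ℝ) - 1) with hA
  have hA0 : 0 ≤ A := by positivity
  set C1 : ℝ := Cm * 2 ^ (d + 1) * (4 * (1 + M)) * A with hC1
  set C2 : ℝ := Cm * 2 ^ (d + 1) * (4 * (1 + M)) ^ 2 * A with hC2
  have hC10 : 0 ≤ C1 := by positivity
  have hC20 : 0 ≤ C2 := by positivity
  have hopen : IsOpen (above ψ) := by
    have hc := hψ.continuous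
    exact isOpen_lt (hc.comp continuous_fst) continuous_snd
  refine ⟨A + C1 + C2 + 1, by positivity, ?_⟩
  intro X hX τ hτ
  have hs : 0 < ε + τ := by linarith
  obtain ⟨r, hr⟩ : ∃ r : ℝ, r = (ε + τ) / (4 * (1 + M)) := ⟨_, rfl⟩
  have hr0 : 0 < r := by rw [hr]; positivity
  set S : ℝ := (1 + ‖X‖ + τ) ^ (-((d : ℝ) - 1)) with hS
  have hS0 : 0 ≤ S := by positivity
  have hball : ∀ Y ∈ Metric.closedBall ((X.1, X.2 + τ) : P d) r, 0 ≤ H Y ∧ H Y ≤ A * S := fun Y hY =>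
    gf1_bound hψ hd h0 hZ0 hb hε hτ hX hr hY
  have hsub : Metric.closedBall ((X.1, X.2 + τ) : P d) r ⊆ above ψ := by
    intro Y hY
    have := gf1_height hψ hX hr hY
    show ψ Y.1 < Y.2
    linarith
  obtain ⟨-, m1, m2⟩ := hmv (above ψ) hopen H hH (X.1, X.2 + τ) r hr0 hsub
  have hint : ∫ Y in Metric.closedBall ((X.1, X.2 + τ) : P d) r, |H Y| ≤ A * S * (2 * r) ^ (d + 1) := by
    have hfin : volume (Metric.closedBall ((X.1, X.2 + τ) : P d) r) < ∞ :=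
      (isCompact_closedBall _ _).measure_lt_top
    have h := norm_setIntegral_le_of_norm_le_const (μ := volume) (f := fun Y => |H Y|) (C := A * S) hfin
      (fun Y hY => by
        rw [Real.norm_eq_abs, abs_abs, abs_of_nonneg (hball Y hY).1]
        exact (hball Y hY).2)
    rw [Measure.real, gf1_volume _ hr0.le] at h
    exact (le_abs_self _).trans h
  have hrinv : r⁻¹ = (4 * (1 + M)) * (ε + τ)⁻¹ := by
    rw [hr]; field_simp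
  refine ⟨?_, ?_, ?_⟩
  · have h := (hball (X.1, X.2 + τ) (Metric.mem_closedBall_self hr0.le)).2
    calc H (X.1, X.2 + τ) ≤ A * S := h
      _ ≤ (A + C1 + C2 + 1) * S := by
        apply mul_le_mul_of_nonneg_right _ hS0
        linarith
  · intro a
    calc |pd a H (X.1, X.2 + τ)| ≤ Cm / r ^ (d + 2) * ∫ Y in Metric.closedBall ((X.1, X.2 + τ) : P d) r, |H Y| :=
          m1 a
      _ ≤ Cm / r ^ (d + 2) * (A * S * (2 * r) ^ (d + 1)) := by gcongr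
      _ = Cm * 2 ^ (d + 1) * A * S * r⁻¹ := by
          rw [mul_pow, show d + 2 = (d + 1) + 1 by ring, pow_succ r (d + 1)]
          field_simp
      _ = C1 * (ε + τ)⁻¹ * S := by rw [hrinv, hC1]; ring
      _ ≤ (A + C1 + C2 + 1) * (ε + τ)⁻¹ * S := by
          gcongr
          linarith
  · intro a b
    calc |pd b (pd a H) (X.1, X.2 + τ)|
        ≤ Cm / r ^ (d + 3) * ∫ Y in Metric.closedBall ((X.1, X.2 + τ) : P d) r, |H Y| := m2 a b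
      _ ≤ Cm / r ^ (d + 3) * (A * S * (2 * r) ^ (d + 1)) := by gcongr
      _ = Cm * 2 ^ (d + 1) * A * S * (r⁻¹) ^ 2 := by
          rw [mul_pow, show d + 3 = (d + 1) + 2 by ring, pow_add r (d + 1) 2]
          field_simp
      _ = C2 * ((ε + τ) ^ 2)⁻¹ * S := by rw [hrinv, hC2, mul_pow, inv_pow]; ring
      _ ≤ (A + C1 + C2 + 1) * ((ε + τ) ^ 2)⁻¹ * S := by
          gcongr
          linarith

end HG
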