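import Pool.Agent.W_MP_825298_an.MV1b

open MeasureTheory Set Filter Topology
open scoped ENNReal NNReal BigOperators

namespace HG
variable {d : ℕ}

/-- functions with the mean value property are `C³` (locally `f = f * k_r` with `r` fixed and `k_r ∈ C³_c`). -/
theorem mvp_contDiffOn {O : Set (P d)} (hO : IsOpen O) {f : P d → ℝ} (hf : MVP O f) : ContDiffOn ℝ 3 f O := by
  intro X₀ hX₀
  obtain ⟨ε, hε, hball⟩ := Metric.isOpen_iff.1 hO X₀ hX₀
  set r : ℝ := ε / 3 with hr
  have hr0 : 0 < r := by positivity
  have hsub : Metric.closedBall X₀ (2 * r) ⊆ O := by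
    refine Subset.trans (Metric.closedBall_subset_ball ?_) hball
    rw [hr]; linarith
  set K : Set (P d) := Metric.closedBall X₀ (2 * r) with hK
  have hKc : IsCompact K := isCompact_closedBall _ _
  set g : P d → ℝ := K.indicator f with hg
  have hgint : Integrable g := by
    rw [hg, integrable_indicator_iff hKc.measurableSet]
    exact (hf.1.mono hsub).integrableOn_compact hKc
  have hkc : HasCompactSupport (kr (d := d) r) := by
    refine HasCompactSupport.intro (isCompact_closedBall (0 : P d) r) ?_
    intro Z hZ
    refine kr_eq_zero hr0 ?_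
    simp only [Metric.mem_closedBall, dist_zero_right, not_le] at hZ
    exact hZ.le
  have hconv : ContDiff ℝ 3 (MeasureTheory.convolution g (kr (d := d) r) (ContinuousLinearMap.mul ℝ ℝ) volume) :=
    hkc.contDiff_convolution_right _ hgint.locallyIntegrable (kr_contDiff r)
  have heq : ∀ X ∈ Metric.ball X₀ r, f X =
      (MeasureTheory.convolution g (kr (d := d) r) (ContinuousLinearMap.mul ℝ ℝ) volume) X := by
    intro X hX
    have hXs : Metric.closedBall X r ⊆ K := by
      refine Metric.closedBall_subset_closedBall' ?_
      have := Metric.mem_ball.1 hX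
      linarith
    rw [hf.2 X r hr0 (hXs.trans hsub), kr_conv_comm, MeasureTheory.convolution_def]
    refine integral_congr_ae (Eventually.of_forall fun Y => ?_)
    simp only [ContinuousLinearMap.mul_apply']
    by_cases hY : Y ∈ K
    · rw [hg, indicator_of_mem hY, ← kr_neg r (Y - X), neg_sub]
    · have h1 : kr r (Y - X) = 0 := by
        refine kr_eq_zero hr0 ?_
        by_contra hlt
        push Not at hlt
        exact hY (hXs (by
          rw [Metric.mem_closedBall, dist_eq_norm]; exact hlt.le))
      rw [hg, indicator_of_notMem hY, h1]; simp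
  have h2 : ContDiffAt ℝ 3 f X₀ := by
    refine (hconv.contDiffAt (x := X₀)).congr_of_eventuallyEq ?_
    filter_upwards [Metric.ball_mem_nhds X₀ hr0] with X hX using heq X hX
  exact h2.contDiffWithinAt

end HG
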