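import Pool.Agent.W_MP_825298_an.MV1a

open MeasureTheory Set Filter Topology
open scoped ENNReal NNReal BigOperators

namespace HG
variable {d : ℕ}

theorem MV1b_base_cont (r : ℝ) (k : ℕ) : Continuous (fun Z : P d => (max (r ^ 2 - sq Z) 0) ^ k) := by
  have h1 : Continuous (fun X : P d => r ^ 2 - sq X) :=
    continuous_const.sub (Newton1_contDiff_sq (n := 0)).continuous
  exact (h1.max continuous_const).pow k

theorem MV1b_base_compact {r : ℝ} (hr : 0 < r) (k : ℕ) (hk : k ≠ 0) :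
    HasCompactSupport (fun Z : P d => (max (r ^ 2 - sq Z) 0) ^ k) := by
  refine HasCompactSupport.intro (isCompact_closedBall (0 : P d) r) fun Z hZ => ?_
  rw [mem_closedBall_zero_iff, not_le] at hZ
  rw [MV1a_max_eq_zero hr hZ.le]
  exact zero_pow hk

/-- positivity, normalisation (scaling `kr r Z = r^{-(d+1)} kr 1 (Z/r)`). -/
theorem cM_pos (d : ℕ) : 0 < cM d := by
  have := MV1a_haar d
  unfold cM
  rw [inv_pos]
  have h1 := MV1b_base_cont (d := d) 1 4
  have h2 := MV1b_base_compact (d := d) one_pos 4 (by norm_num)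
  simp only [one_pow] at h1 h2
  refine h1.integral_pos_of_hasCompactSupport_nonneg_nonzero (x := (0 : P d)) h2
    (fun Z => by positivity) ?_
  have : sq (0 : P d) = 0 := by
    unfold sq
    refine Finset.sum_eq_zero fun a _ => ?_
    cases a <;> simp [co]
  simp [this]

theorem kr_nonneg {r : ℝ} (hr : 0 < r) (Z : P d) : 0 ≤ kr r Z := by
  unfold kr
  have := cM_pos d
  positivity

theorem MV1b_sq_smul (r : ℝ) (Z : P d) : sq (r • Z) = r ^ 2 * sq Z := by
  unfold sq
  rw [Finset.mul_sum]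
  refine Finset.sum_congr rfl fun a _ => ?_
  cases a <;> simp [co, mul_pow]

theorem kr_integral {r : ℝ} (hr : 0 < r) : ∫ Z : P d, kr r Z = 1 := by
  have := MV1a_haar d
  unfold kr
  rw [integral_const_mul]
  have h1 := Measure.integral_comp_smul (volume : Measure (P d))
    (fun Z : P d => (max (r ^ 2 - sq Z) 0) ^ 4) r
  have h2 : ∀ Z : P d, (max (r ^ 2 - sq (r • Z)) 0) ^ 4 = r ^ 8 * (max (1 - sq Z) 0) ^ 4 := by
    intro Z
    rw [MV1b_sq_smul]
    have : max (r ^ 2 - r ^ 2 * sq Z) 0 = r ^ 2 * max (1 - sq Z) 0 := by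
      rw [mul_max_of_nonneg _ _ (by positivity)]
      ring_nf
    rw [this]
    ring
  simp only [h2] at h1
  rw [integral_const_mul, Module.finrank_prod, Module.finrank_fin_fun, Module.finrank_self,
    smul_eq_mul, abs_of_pos (by positivity)] at h1
  have h3 : (∫ Z : P d, (max (r ^ 2 - sq Z) 0) ^ 4) =
      r ^ (d + 9) * ∫ Z : P d, (max (1 - sq Z) 0) ^ 4 := by
    have hr' : (r ^ (d + 1)) ≠ 0 := by positivity
    calc (∫ Z : P d, (max (r ^ 2 - sq Z) 0) ^ 4) = r ^ (d + 1) * ((r ^ (d + 1))⁻¹ *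
        ∫ Z : P d, (max (r ^ 2 - sq Z) 0) ^ 4) := by
          rw [← mul_assoc, mul_inv_cancel₀ hr', one_mul]
      _ = r ^ (d + 1) * (r ^ 8 * ∫ Z : P d, (max (1 - sq Z) 0) ^ 4) := by rw [h1]
      _ = _ := by ring
  rw [h3]
  have h4 := cM_pos d
  have h5 : cM d * ∫ Z : P d, (max (1 - sq Z) 0) ^ 4 = 1 := by
    unfold cM at h4 ⊢
    rw [inv_pos] at h4
    exact inv_mul_cancel₀ h4.ne'
  have hr' : (r ^ (d + 9)) ≠ 0 := by positivity
  calc cM d * (r ^ (d + 9))⁻¹ * (r ^ (d + 9) * ∫ Z : P d, (max (1 - sq Z) 0) ^ 4)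
      = (cM d * ∫ Z : P d, (max (1 - sq Z) 0) ^ 4) * ((r ^ (d + 9))⁻¹ * r ^ (d + 9)) := by ring
    _ = 1 := by rw [h5, inv_mul_cancel₀ hr', one_mul]

theorem MV1b_Q_le (r : ℝ) (Z : P d) : max (r ^ 2 - sq Z) 0 ≤ r ^ 2 := by
  have := Newton1_sq_nonneg Z
  exact max_le (by linarith) (by positivity)

theorem MV1b_co_le {r : ℝ} {Z : P d} (hZ : ‖Z‖ < r) (a : Ix d) : |co a Z| ≤ r :=
  (Newton1_abs_co_le a Z).trans hZ.le

theorem MV1b_pd_kr (r : ℝ) (a : Ix d) (Z : P d) :
    pd a (kr r) Z = (cM d * (r ^ (d + 9))⁻¹ * (-8)) * co a Z * (max (r ^ 2 - sq Z) 0) ^ 3 := by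
  have h := (MV1a_hasFDerivAt_posPow 2 r Z).const_mul (cM d * (r ^ (d + 9))⁻¹)
  have e : kr (d := d) r = fun Y : P d => cM d * (r ^ (d + 9))⁻¹ * (max (r ^ 2 - sq Y) 0) ^ (2 + 2) := rfl
  unfold pd
  rw [e, h.fderiv, smul_apply, smul_apply, neg_apply, MV1a_sum_eb]
  simp only [smul_eq_mul]
  push_cast
  ring

theorem MV1b_pd_pd_kr (r : ℝ) (a b : Ix d) (Z : P d) :
    pd b (pd a (kr r)) Z = (cM d * (r ^ (d + 9))⁻¹) * ((-8) * (if a = b then 1 else 0) *
      (max (r ^ 2 - sq Z) 0) ^ 3 + 48 * co a Z * co b Z * (max (r ^ 2 - sq Z) 0) ^ 2) := by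
  have e : pd a (kr (d := d) r) = fun Y : P d => (cM d * (r ^ (d + 9))⁻¹ * (-8)) * co a Y *
      (max (r ^ 2 - sq Y) 0) ^ (1 + 2) := by
    funext Y
    exact MV1b_pd_kr r a Y
  rw [e, MV1a_pd_co_mul_posPow]
  push_cast
  ring

/-- size bounds of the kernel and its derivatives. -/
theorem kr_bounds (d : ℕ) : ∃ C : ℝ, 0 < C ∧ ∀ (r : ℝ) (Z : P d), 0 < r →
    kr r Z ≤ C / r ^ (d + 1) ∧ (∀ a : Ix d, |pd a (kr r) Z| ≤ C / r ^ (d + 2)) ∧
    (∀ a b : Ix d, |pd b (pd a (kr r)) Z| ≤ C / r ^ (d + 3)) := by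
  have hc := cM_pos d
  refine ⟨56 * cM d, by positivity, fun r Z hr => ?_⟩
  have hQ := MV1b_Q_le r Z
  have hQ0 : 0 ≤ max (r ^ 2 - sq Z) 0 := le_max_right _ _
  have hk : ∀ k : ℕ, (max (r ^ 2 - sq Z) 0) ^ k ≤ r ^ (2 * k) := by
    intro k
    rw [pow_mul]
    exact pow_le_pow_left₀ hQ0 hQ k
  refine ⟨?_, ?_, ?_⟩
  · unfold kr
    calc cM d * (r ^ (d + 9))⁻¹ * max (r ^ 2 - sq Z) 0 ^ 4
        ≤ cM d * (r ^ (d + 9))⁻¹ * r ^ (2 * 4) := by
          refine mul_le_mul_of_nonneg_left (hk 4) (by positivity)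
      _ = cM d / r ^ (d + 1) := by
        field_simp
        ring
      _ ≤ 56 * cM d / r ^ (d + 1) := by
        refine div_le_div_of_nonneg_right ?_ (by positivity)
        linarith
  · intro a
    rw [MV1b_pd_kr]
    rcases le_or_gt r ‖Z‖ with h | h
    · rw [MV1a_max_eq_zero hr h]
      simp only [ne_eq, OfNat.ofNat_ne_zero, not_false_eq_true, zero_pow, mul_zero, abs_zero]
      positivity
    · have hco := MV1b_co_le h a
      have e : |cM d * (r ^ (d + 9))⁻¹ * (-8) * co a Z * max (r ^ 2 - sq Z) 0 ^ 3| =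
          (8 * cM d * (r ^ (d + 9))⁻¹) * (|co a Z| * max (r ^ 2 - sq Z) 0 ^ 3) := by
        rw [abs_mul, abs_mul, abs_mul, abs_mul, abs_of_pos hc, abs_of_pos (by positivity : 0 < (r ^ (d + 9))⁻¹),
          abs_of_nonneg (by positivity : 0 ≤ max (r ^ 2 - sq Z) 0 ^ 3)]
        norm_num
        ring
      rw [e]
      calc (8 * cM d * (r ^ (d + 9))⁻¹) * (|co a Z| * max (r ^ 2 - sq Z) 0 ^ 3)
          ≤ (8 * cM d * (r ^ (d + 9))⁻¹) * (r * r ^ (2 * 3)) := by
            refine mul_le_mul_of_nonneg_left ?_ (by positivity)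
            exact mul_le_mul hco (hk 3) (by positivity) hr.le
        _ = 8 * cM d / r ^ (d + 2) := by
          field_simp
          ring
        _ ≤ 56 * cM d / r ^ (d + 2) := by
          refine div_le_div_of_nonneg_right ?_ (by positivity)
          linarith
  · intro a b
    rw [MV1b_pd_pd_kr]
    rcases le_or_gt r ‖Z‖ with h | h
    · rw [MV1a_max_eq_zero hr h]
      simp only [ne_eq, OfNat.ofNat_ne_zero, not_false_eq_true, zero_pow, mul_zero, add_zero, abs_zero]
      positivity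
    · have hca := MV1b_co_le h a
      have hcb := MV1b_co_le h b
      rw [abs_mul, abs_of_pos (by positivity : 0 < cM d * (r ^ (d + 9))⁻¹)]
      have h1 : |(-8) * (if a = b then (1 : ℝ) else 0) * (max (r ^ 2 - sq Z) 0) ^ 3| ≤ 8 * r ^ 6 := by
        rw [abs_mul, abs_mul, abs_of_nonneg (by positivity : 0 ≤ max (r ^ 2 - sq Z) 0 ^ 3)]
        have h3 := hk 3
        have h4 : |if a = b then (1 : ℝ) else 0| ≤ 1 := by
          split_ifs <;> simp
        have h5 : |(-8 : ℝ)| = 8 := by norm_num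
        rw [h5]
        calc 8 * |if a = b then (1 : ℝ) else 0| * max (r ^ 2 - sq Z) 0 ^ 3
            ≤ 8 * 1 * r ^ (2 * 3) := by
              refine mul_le_mul ?_ h3 (by positivity) (by norm_num)
              linarith
          _ = 8 * r ^ 6 := by ring
      have h2 : |48 * co a Z * co b Z * (max (r ^ 2 - sq Z) 0) ^ 2| ≤ 48 * r ^ 6 := by
        rw [abs_mul, abs_mul, abs_mul, abs_of_nonneg (by positivity : 0 ≤ max (r ^ 2 - sq Z) 0 ^ 2)]
        have h5 : |(48 : ℝ)| = 48 := by norm_num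
        rw [h5]
        calc 48 * |co a Z| * |co b Z| * max (r ^ 2 - sq Z) 0 ^ 2
            ≤ 48 * r * r * r ^ (2 * 2) := by
              refine mul_le_mul ?_ (hk 2) (by positivity) (by positivity)
              refine mul_le_mul ?_ hcb (abs_nonneg _) (by positivity)
              exact mul_le_mul_of_nonneg_left hca (by norm_num)
          _ = 48 * r ^ 6 := by ring
      calc cM d * (r ^ (d + 9))⁻¹ * |(-8) * (if a = b then (1 : ℝ) else 0) * (max (r ^ 2 - sq Z) 0) ^ 3 +
            48 * co a Z * co b Z * (max (r ^ 2 - sq Z) 0) ^ 2|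
          ≤ cM d * (r ^ (d + 9))⁻¹ * (8 * r ^ 6 + 48 * r ^ 6) := by
            refine mul_le_mul_of_nonneg_left ?_ (by positivity)
            exact (abs_add_le _ _).trans (add_le_add h1 h2)
        _ = 56 * cM d / r ^ (d + 3) := by
          field_simp
          ring

/-- translation and cut off to a ball -/
theorem MV1b_cut_integrable {g : P d → ℝ} {X : P d} {R : ℝ}
    (hg : IntegrableOn g (Metric.closedBall X R)) :
    Integrable ((Metric.closedBall (0 : P d) R).indicator (fun Z => g (X + Z))) := by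
  have := MV1a_haar d
  have h1 : Integrable ((Metric.closedBall X R).indicator g) :=
    (integrable_indicator_iff Metric.isClosed_closedBall.measurableSet).2 hg
  have h2 := h1.comp_add_left X
  have e : (Metric.closedBall (0 : P d) R).indicator (fun Z => g (X + Z)) =
      fun Z => (Metric.closedBall X R).indicator g (X + Z) := by
    funext Z
    simp only [indicator, Metric.mem_closedBall, dist_self_add_left, dist_zero_right]
  rw [e]
  exact h2

/-- multiplication with a kernel supported in the ball does not see the cut off -/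
theorem MV1b_cut_mul {g : P d → ℝ} {X : P d} {R : ℝ} {k : P d → ℝ}
    (hk : ∀ Z : P d, R < ‖Z‖ → k Z = 0) (Z : P d) :
    g (X + Z) * k Z = (Metric.closedBall (0 : P d) R).indicator (fun Z => g (X + Z)) Z * k Z := by
  by_cases h : Z ∈ Metric.closedBall (0 : P d) R
  · rw [indicator_of_mem h]
  · rw [indicator_of_notMem h]
    rw [mem_closedBall_zero_iff, not_le] at h
    rw [hk Z h]
    simp

end HG
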