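import Pool.Agent.W_MP_825298_an.MV2a
import Pool.Agent.W_MP_825298_an.MV1b

open MeasureTheory Set Filter Topology
open scoped ENNReal NNReal BigOperators

namespace HG
variable {d : ℕ}

/-- the radial derivative of the kernel, as a function of both variables -/
noncomputable def MV2b_D (p : ℝ × P d) : ℝ :=
  cM d * (p.1 ^ (d + 10))⁻¹ / 10 * (10 * (max (p.1 ^ 2 - sq p.2) 0) ^ 3 *
    (8 * p.1 ^ 2 - ((d : ℝ) + 9) * max (p.1 ^ 2 - sq p.2) 0))

theorem MV2b_D_eq (s : ℝ) (Z : P d) :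
    MV2b_D (s, Z) = cM d * (s ^ (d + 10))⁻¹ / 10 * lap (q5 s) Z := by
  rw [lap_q5]
  rfl

theorem MV2b_D_meas : Measurable (MV2b_D (d := d)) := by
  have hsq : Measurable (fun p : ℝ × P d => sq p.2) :=
    ((Newton1_contDiff_sq (n := 0)).continuous.comp continuous_snd).measurable
  unfold MV2b_D
  fun_prop

theorem MV2b_D_bound {r1 r2 : ℝ} (h1 : 0 < r1) {s : ℝ} (hs : s ∈ Icc r1 r2) (Z : P d) :
    |MV2b_D (s, Z)| ≤ cM d * (r1 ^ (d + 10))⁻¹ / 10 * (10 * (r2 ^ 2) ^ 3 *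
      (8 * r2 ^ 2 + ((d : ℝ) + 9) * r2 ^ 2)) := by
  have hc := cM_pos d
  have hs0 : 0 < s := lt_of_lt_of_le h1 hs.1
  have hQ : max (s ^ 2 - sq Z) 0 ≤ r2 ^ 2 :=
    (MV1b_Q_le s Z).trans (pow_le_pow_left₀ hs0.le hs.2 2)
  have hQ0 : 0 ≤ max (s ^ 2 - sq Z) 0 := le_max_right _ _
  have hs2 : s ^ 2 ≤ r2 ^ 2 := pow_le_pow_left₀ hs0.le hs.2 2
  unfold MV2b_D
  simp only
  rw [abs_mul, abs_mul, abs_of_nonneg (by positivity : 0 ≤ cM d * (s ^ (d + 10))⁻¹ / 10),
    abs_of_nonneg (by positivity : 0 ≤ 10 * max (s ^ 2 - sq Z) 0 ^ 3)]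
  have h3 : |8 * s ^ 2 - ((d : ℝ) + 9) * max (s ^ 2 - sq Z) 0| ≤ 8 * r2 ^ 2 + ((d : ℝ) + 9) * r2 ^ 2 := by
    rw [abs_le]
    constructor
    · have : ((d : ℝ) + 9) * max (s ^ 2 - sq Z) 0 ≤ ((d : ℝ) + 9) * r2 ^ 2 :=
        mul_le_mul_of_nonneg_left hQ (by positivity)
      have h8 : 0 ≤ 8 * s ^ 2 := by positivity
      have h9 : 0 ≤ 8 * r2 ^ 2 := by positivity
      linarith
    · have : 0 ≤ ((d : ℝ) + 9) * max (s ^ 2 - sq Z) 0 := by positivity
      have h9 : 0 ≤ ((d : ℝ) + 9) * r2 ^ 2 := by positivity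
      linarith
  refine mul_le_mul ?_ ?_ (by positivity) (by positivity)
  · refine div_le_div_of_nonneg_right ?_ (by norm_num)
    refine mul_le_mul_of_nonneg_left ?_ hc.le
    refine inv_anti₀ (by positivity) ?_
    exact pow_le_pow_left₀ h1.le hs.1 _
  · refine mul_le_mul ?_ h3 (abs_nonneg _) (by positivity)
    refine mul_le_mul_of_nonneg_left ?_ (by norm_num)
    exact pow_le_pow_left₀ hQ0 hQ 3

theorem MV2b_D_eq_zero {s R : ℝ} (h0 : 0 < s) (hs : s ≤ R) {Z : P d} (hZ : R < ‖Z‖) :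
    MV2b_D (s, Z) = 0 := by
  unfold MV2b_D
  simp only
  rw [MV1a_max_eq_zero h0 (hs.trans hZ.le)]
  simp

theorem MV2b_ftc {r1 r2 : ℝ} (h1 : 0 < r1) (h12 : r1 ≤ r2) (Z : P d) :
    kr r2 Z - kr r1 Z = ∫ s in r1..r2, MV2b_D (s, Z) := by
  rw [intervalIntegral.integral_eq_sub_of_hasDerivAt (f := fun s => kr s Z)]
  · intro s hs
    rw [uIcc_of_le h12] at hs
    rw [MV2b_D_eq]
    exact kr_hasDerivAt (lt_of_lt_of_le h1 hs.1) Z
  · rw [intervalIntegrable_iff_integrableOn_Ioc_of_le h12]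
    refine Measure.integrableOn_of_bounded (M := cM d * (r1 ^ (d + 10))⁻¹ / 10 * (10 * (r2 ^ 2) ^ 3 *
      (8 * r2 ^ 2 + ((d : ℝ) + 9) * r2 ^ 2))) (by simp) ?_ ?_
    · exact (MV2b_D_meas.comp (measurable_id.prodMk measurable_const)).aestronglyMeasurable
    · rw [ae_restrict_iff' measurableSet_Ioc]
      exact Eventually.of_forall fun s hs => MV2b_D_bound h1 (Ioc_subset_Icc_self hs) Z

/-- integrated form (fundamental theorem of calculus in `s` and Fubini; `lap_q5` gives boundedness and support). -/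
theorem kr_diff {g : P d → ℝ} {X : P d} {R : ℝ} (hg : IntegrableOn g (Metric.closedBall X R))
    {r1 r2 : ℝ} (h1 : 0 < r1) (h12 : r1 ≤ r2) (h2 : r2 ≤ R) :
    (∫ Z, g (X + Z) * kr r2 Z) - ∫ Z, g (X + Z) * kr r1 Z
      = ∫ s in r1..r2, cM d * (s ^ (d + 10))⁻¹ / 10 * ∫ Z, g (X + Z) * lap (q5 s) Z := by
  set G : P d → ℝ := (Metric.closedBall (0 : P d) R).indicator (fun Z => g (X + Z)) with hG
  have hGi : Integrable G := MV1b_cut_integrable hg
  have hk : ∀ s : ℝ, 0 < s → s ≤ R → ∀ Z, g (X + Z) * kr s Z = G Z * kr s Z := by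
    intro s hs hsR Z
    exact MV1b_cut_mul (fun Z hZ => kr_eq_zero hs (hsR.trans hZ.le)) Z
  have hD : ∀ s : ℝ, 0 < s → s ≤ R → ∀ Z, g (X + Z) * MV2b_D (s, Z) = G Z * MV2b_D (s, Z) := by
    intro s hs hsR Z
    exact MV1b_cut_mul (k := fun Z => MV2b_D (s, Z)) (fun Z hZ => MV2b_D_eq_zero hs hsR hZ) Z
  have hGk : ∀ s : ℝ, 0 < s → Integrable (fun Z => G Z * kr s Z) := by
    intro s hs
    obtain ⟨C, hC, hCb⟩ := kr_bounds d
    refine hGi.mul_bdd (c := C / s ^ (d + 1)) (kr_contDiff s).continuous.aestronglyMeasurable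
      (Eventually.of_forall fun Z => ?_)
    rw [Real.norm_of_nonneg (kr_nonneg hs Z)]
    exact (hCb s Z hs).1
  have hr2 : 0 < r2 := lt_of_lt_of_le h1 h12
  rw [integral_congr_ae (Eventually.of_forall (hk r2 hr2 h2)),
    integral_congr_ae (Eventually.of_forall (hk r1 h1 (h12.trans h2))),
    ← integral_sub (hGk r2 hr2) (hGk r1 h1)]
  have e1 : ∀ Z, G Z * kr r2 Z - G Z * kr r1 Z = ∫ s in Ioc r1 r2, G Z * MV2b_D (s, Z) := by
    intro Z
    rw [← mul_sub, MV2b_ftc h1 h12, intervalIntegral.integral_of_le h12, integral_const_mul]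
  rw [integral_congr_ae (Eventually.of_forall e1)]
  have hint : Integrable (Function.uncurry fun (Z : P d) (s : ℝ) => G Z * MV2b_D (s, Z))
      (volume.prod (volume.restrict (Ioc r1 r2))) := by
    have hone : Integrable (fun _ : ℝ => (1 : ℝ)) (volume.restrict (Ioc r1 r2)) :=
      integrable_const _
    have hp := hGi.mul_prod hone
    have hmeas : AEStronglyMeasurable (fun z : P d × ℝ => MV2b_D (z.2, z.1))
        (volume.prod (volume.restrict (Ioc r1 r2))) :=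
      (MV2b_D_meas.comp measurable_swap).aestronglyMeasurable
    have hb : ∀ᵐ z : P d × ℝ ∂(volume.prod (volume.restrict (Ioc r1 r2))),
        ‖MV2b_D (z.2, z.1)‖ ≤ cM d * (r1 ^ (d + 10))⁻¹ / 10 * (10 * (r2 ^ 2) ^ 3 *
      (8 * r2 ^ 2 + ((d : ℝ) + 9) * r2 ^ 2)) := by
      have h3 : ∀ᵐ z : P d × ℝ ∂(volume.prod (volume.restrict (Ioc r1 r2))), z.2 ∈ Ioc r1 r2 := by
        have h4 : ∀ᵐ s : ℝ ∂(volume.restrict (Ioc r1 r2)), s ∈ Ioc r1 r2 :=
          ae_restrict_mem measurableSet_Ioc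
        exact Measure.quasiMeasurePreserving_snd.ae h4
      filter_upwards [h3] with z hz
      exact MV2b_D_bound h1 (Ioc_subset_Icc_self hz) z.1
    have h5 := hp.mul_bdd hmeas hb
    refine h5.congr (Eventually.of_forall fun z => ?_)
    simp [Function.uncurry]
  rw [integral_integral_swap hint, intervalIntegral.integral_of_le h12]
  refine setIntegral_congr_fun measurableSet_Ioc fun s hs => ?_
  have hs0 : 0 < s := h1.trans hs.1
  rw [← integral_const_mul]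
  refine integral_congr_ae (Eventually.of_forall fun Z => ?_)
  simp only
  rw [← hD s hs0 (hs.2.trans h2) Z, MV2b_D_eq]
  ring

end HG
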