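import Pool.Agent.W_MP_825298_an.MV3c
import Pool.Agent.W_MP_825298_an.MV2b

open MeasureTheory Set Filter Topology
open scoped ENNReal NNReal BigOperators

namespace HG
variable {d : ℕ}

namespace MV3eAux

theorem volP_haar (d : ℕ) : (volume : Measure (P d)).IsAddHaarMeasure := by
  change ((volume : Measure (Fin d → ℝ)).prod (volume : Measure ℝ)).IsAddHaarMeasure
  infer_instance

theorem pd_contDiff {k : P d → ℝ} {n : ℕ} (hk : ContDiff ℝ (n + 1 : ℕ) k) (a : Ix d) :
    ContDiff ℝ n (pd a k) := by
  have h : ContDiff ℝ n (fun X => fderiv ℝ k X (eb a)) := by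
    refine (hk.fderiv_right (m := n) ?_).clm_apply contDiff_const
    push_cast
    exact le_rfl
  exact h

theorem pd_hasCompactSupport {k : P d → ℝ} (hkc : HasCompactSupport k) (a : Ix d) :
    HasCompactSupport (pd a k) :=
  hkc.fderiv_apply ℝ (eb a)

/-- integration by parts -/
theorem ibp {F q : P d → ℝ} (hF : ContDiff ℝ 1 F) (hq : ContDiff ℝ 1 q) (hqc : HasCompactSupport q)
    (a : Ix d) : ∫ Z, F Z * pd a q Z = - ∫ Z, pd a F Z * q Z := by
  have := volP_haar d
  have hF' : Continuous (pd a F) := (pd_contDiff (n := 0) (by simpa using hF) a).continuous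
  have hq' : Continuous (pd a q) := (pd_contDiff (n := 0) (by simpa using hq) a).continuous
  refine integral_mul_fderiv_eq_neg_fderiv_mul_of_integrable (f := F) (g := q) (v := eb a) ?_ ?_ ?_
    (fun x _ => (hF.differentiable (by norm_num)) x) (fun x _ => (hq.differentiable (by norm_num)) x)
  · exact (hF'.mul hq.continuous).integrable_of_hasCompactSupport hqc.mul_left
  · exact (hF.continuous.mul hq').integrable_of_hasCompactSupport (pd_hasCompactSupport hqc a).mul_left
  · exact (hF.continuous.mul hq.continuous).integrable_of_hasCompactSupport hqc.mul_left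

theorem lap_continuous {F : P d → ℝ} (hF : ContDiff ℝ 2 F) : Continuous (lap F) := by
  have : Continuous fun X => ∑ a : Ix d, pd a (pd a F) X := by
    refine continuous_finsetSum _ fun a _ => ?_
    exact (pd_contDiff (n := 0) (by simpa using pd_contDiff (n := 1) (by exact_mod_cast hF) a) a).continuous
  exact this

theorem green {F q : P d → ℝ} (hF : ContDiff ℝ 2 F) (hq : ContDiff ℝ 2 q) (hqc : HasCompactSupport q) :
    ∫ Z, F Z * lap q Z = ∫ Z, lap F Z * q Z := by
  have := volP_haar d
  have hF1 : ∀ a : Ix d, ContDiff ℝ 1 (pd a F) := fun a => by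
    exact_mod_cast pd_contDiff (n := 1) (by exact_mod_cast hF) a
  have hq1 : ∀ a : Ix d, ContDiff ℝ 1 (pd a q) := fun a => by
    exact_mod_cast pd_contDiff (n := 1) (by exact_mod_cast hq) a
  have hF2 : ∀ a : Ix d, Continuous (pd a (pd a F)) := fun a =>
    (pd_contDiff (n := 0) (by simpa using hF1 a) a).continuous
  have hq2 : ∀ a : Ix d, Continuous (pd a (pd a q)) := fun a =>
    (pd_contDiff (n := 0) (by simpa using hq1 a) a).continuous
  have h1 : ∫ Z, F Z * lap q Z = ∑ a : Ix d, ∫ Z, F Z * pd a (pd a q) Z := by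
    rw [← integral_finsetSum]
    · refine integral_congr_ae (Eventually.of_forall fun Z => ?_)
      simp only [lap, Finset.mul_sum]
    · intro a _
      exact (hF.continuous.mul (hq2 a)).integrable_of_hasCompactSupport
        (pd_hasCompactSupport (pd_hasCompactSupport hqc a) a).mul_left
  have h2 : ∫ Z, lap F Z * q Z = ∑ a : Ix d, ∫ Z, pd a (pd a F) Z * q Z := by
    rw [← integral_finsetSum]
    · refine integral_congr_ae (Eventually.of_forall fun Z => ?_)
      simp only [lap, Finset.sum_mul]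
    · intro a _
      exact ((hF2 a).mul hq.continuous).integrable_of_hasCompactSupport hqc.mul_left
  rw [h1, h2]
  refine Finset.sum_congr rfl fun a _ => ?_
  rw [ibp (hF.of_le (by norm_num)) (hq1 a) (pd_hasCompactSupport hqc a) a,
    ibp (hF1 a) (hq.of_le (by norm_num)) hqc a, neg_neg]

theorem pd_congr {f g : P d → ℝ} {X : P d} (h : f =ᶠ[𝓝 X] g) (a : Ix d) : pd a f =ᶠ[𝓝 X] pd a g := by
  filter_upwards [h.fderiv (𝕜 := ℝ)] with Y hY
  rw [pd, pd, hY]

theorem lap_congr {f g : P d → ℝ} {X : P d} (h : f =ᶠ[𝓝 X] g) : lap f X = lap g X := by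
  rw [lap, lap]
  exact Finset.sum_congr rfl fun a _ => (pd_congr (pd_congr h a) a).eq_of_nhds

theorem pd_translate (f : P d → ℝ) (X : P d) (a : Ix d) :
    pd a (fun Z => f (X + Z)) = fun Z => pd a f (X + Z) := by
  funext Z
  rw [pd, pd, fderiv_comp_add_left]

theorem lap_translate (f : P d → ℝ) (X Z : P d) :
    lap (fun Z => f (X + Z)) Z = lap f (X + Z) := by
  rw [lap, lap]
  refine Finset.sum_congr rfl fun a _ => ?_
  rw [pd_translate f X a, pd_translate (pd a f) X a]

theorem pd_contDiffOn {k : P d → ℝ} {O : Set (P d)} (hO : IsOpen O) {n : ℕ}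
    (hk : ContDiffOn ℝ (n + 1 : ℕ) k O) (a : Ix d) : ContDiffOn ℝ n (pd a k) O := by
  have h : ContDiffOn ℝ n (fun X => fderiv ℝ k X (eb a)) O := by
    refine (hk.fderiv_of_isOpen hO (m := n) ?_).clm_apply contDiffOn_const
    push_cast
    exact le_rfl
  exact h

theorem lap_continuousOn {k : P d → ℝ} {O : Set (P d)} (hO : IsOpen O)
    (hk : ContDiffOn ℝ 2 k O) : ContinuousOn (lap k) O := by
  have : ContinuousOn (fun X => ∑ a : Ix d, pd a (pd a k) X) O := by
    refine continuousOn_finsetSum _ fun a _ => ?_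
    exact (pd_contDiffOn hO (n := 0) (by simpa using pd_contDiffOn hO (n := 1) (by exact_mod_cast hk) a) a).continuousOn
  exact this

end MV3eAux

open MV3eAux

/-- functions with the mean value property are harmonic: by `kr_diff` and the mean value property
`0 = ∫_{r1}^{r2} c s^{-..} ∫ f(X+Z) Δq5_s(Z) dZ ds`, `∫ f(X+Z) Δq5_s(Z) dZ = ∫ Δf(X+Z) q5_s(Z) dZ` (`f ∈ C³`), which has the sign
of `Δf(X)` for small `s` if `Δf(X) ≠ 0`. -/
theorem mvp_lap {O : Set (P d)} (hO : IsOpen O) {f : P d → ℝ} (hf : MVP O f) : ∀ X ∈ O, lap f X = 0 := by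
  intro X hX
  have := volP_haar d
  by_contra hne
  have hC3 : ContDiffOn ℝ 3 f O := mvp_contDiffOn hO hf
  set L : ℝ := lap f X with hL
  have hLc : ContinuousOn (lap f) O := lap_continuousOn hO (hC3.of_le (by norm_num))
  have hLat : ContinuousAt (fun Y => L * lap f Y) X :=
    continuousAt_const.mul (hLc.continuousAt (hO.mem_nhds hX))
  have hLL : 0 < L * L := mul_self_pos.2 hne
  have hev : ∀ᶠ Y in 𝓝 X, 0 < L * lap f Y := by
    refine hLat.eventually (lt_mem_nhds ?_)
    simpa [← hL] using hLL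
  obtain ⟨ε₁, hε₁, hb1⟩ := Metric.eventually_nhds_iff_ball.1 hev
  obtain ⟨ε₂, hε₂, hb2⟩ := Metric.isOpen_iff.1 hO X hX
  set R : ℝ := min ε₁ ε₂ / 4 with hR
  have hR0 : 0 < R := by positivity
  have hR1 : 2 * R < ε₁ := by
    have := min_le_left ε₁ ε₂
    rw [hR]; linarith
  have hR2 : 2 * R < ε₂ := by
    have := min_le_right ε₁ ε₂
    rw [hR]; linarith
  -- cut-off
  let χ : ContDiffBump (0 : P d) := ⟨R, 2 * R, hR0, by linarith⟩
  set F : P d → ℝ := fun Z => χ Z * f (X + Z) with hF
  have hFsm : ContDiff ℝ 3 F := by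
    rw [contDiff_iff_contDiffAt]
    intro Z
    by_cases hZ : ‖Z‖ < ε₂
    · have hXZ : X + Z ∈ O := by
        apply hb2
        rw [Metric.mem_ball, dist_eq_norm, add_sub_cancel_left]
        exact hZ
      have h1 : ContDiffAt ℝ 3 f (X + Z) := (hC3 (X + Z) hXZ).contDiffAt (hO.mem_nhds hXZ)
      have h2 : ContDiffAt ℝ 3 (fun Z => f (X + Z)) Z :=
        ContDiffAt.comp Z h1 (contDiffAt_const.add contDiffAt_id)
      exact (χ.contDiffAt).mul h2
    · have h0 : F =ᶠ[𝓝 Z] fun _ => 0 := by
        have : ∀ᶠ W in 𝓝 Z, 2 * R < ‖W‖ :=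
          continuous_norm.continuousAt.eventually (lt_mem_nhds (by push Not at hZ; linarith))
        filter_upwards [this] with W hW
        have : χ W = 0 := by
          refine χ.zero_of_le_dist ?_
          rw [dist_zero_right]; exact hW.le
        rw [hF]; simp only []; rw [this, zero_mul]
      exact contDiffAt_const.congr_of_eventuallyEq h0
  have hFeq : ∀ Z : P d, ‖Z‖ ≤ R → F Z = f (X + Z) := by
    intro Z hZ
    have : χ Z = 1 := by
      refine χ.one_of_mem_closedBall ?_
      rw [Metric.mem_closedBall, dist_zero_right]; exact hZ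
    rw [hF]; simp only []; rw [this, one_mul]
  have hlapF : ∀ Z : P d, ‖Z‖ < R → lap F Z = lap f (X + Z) := by
    intro Z hZ
    rw [← lap_translate]
    refine lap_congr ?_
    have : ∀ᶠ W in 𝓝 Z, ‖W‖ < R := continuous_norm.continuousAt.eventually (gt_mem_nhds hZ)
    filter_upwards [this] with W hW using hFeq W hW.le
  have hpos : ∀ Z : P d, ‖Z‖ < R → 0 < L * lap F Z := by
    intro Z hZ
    rw [hlapF Z hZ]
    refine hb1 _ ?_
    rw [Metric.mem_ball, dist_eq_norm, add_sub_cancel_left]
    linarith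
  -- support of lap q5
  have hlapq : ∀ (s : ℝ) (Z : P d), 0 < s → s < ‖Z‖ → lap (q5 s) Z = 0 := by
    intro s Z hs hZ
    rw [lap_q5]
    have h1 : s ^ 2 - sq Z ≤ 0 := by
      have h2 := (norm_sq_le_sq Z).1
      have h3 : s ^ 2 ≤ ‖Z‖ ^ 2 := pow_le_pow_left₀ hs.le hZ.le 2
      linarith
    rw [max_eq_right h1]; ring
  have hqsupp : ∀ s : ℝ, 0 < s → HasCompactSupport (q5 (d := d) s) := by
    intro s hs
    refine HasCompactSupport.intro (isCompact_closedBall (0 : P d) s) ?_
    intro Z hZ
    refine q5_eq_zero hs ?_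
    simp only [Metric.mem_closedBall, dist_zero_right, not_le] at hZ
    exact hZ.le
  set Ψ : ℝ → ℝ := fun s => ∫ Z, f (X + Z) * lap (q5 s) Z with hΨ
  have hΨeq : ∀ s : ℝ, 0 < s → s ≤ R → Ψ s = ∫ Z, lap F Z * q5 s Z := by
    intro s hs hsR
    rw [← green (hFsm.of_le (by norm_num)) ((q5_contDiff s).of_le (by norm_num)) (hqsupp s hs)]
    refine integral_congr_ae (Eventually.of_forall fun Z => ?_)
    simp only []
    by_cases hZ : ‖Z‖ ≤ R
    · rw [hFeq Z hZ]
    · rw [hlapq s Z hs (by push Not at hZ; linarith)]; ring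
  have hcont : Continuous (lap F) := lap_continuous (hFsm.of_le (by norm_num))
  have hint : ∀ s : ℝ, 0 < s → Integrable (fun Z => L * (lap F Z * q5 s Z)) := by
    intro s hs
    refine Integrable.const_mul ?_ L
    exact (hcont.mul (q5_contDiff s).continuous).integrable_of_hasCompactSupport (hqsupp s hs).mul_left
  have hmono : MonotoneOn (fun s => L * Ψ s) (uIcc (R / 2) R) := by
    rw [uIcc_of_le (by linarith)]
    intro s hs s' hs' hss
    have hs0 : 0 < s := by linarith [hs.1]
    have hs0' : 0 < s' := by linarith [hs'.1]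
    simp only []
    rw [hΨeq s hs0 hs.2, hΨeq s' hs0' hs'.2, ← integral_const_mul, ← integral_const_mul]
    refine integral_mono (hint s hs0) (hint s' hs0') ?_
    intro Z
    simp only []
    by_cases hZ : ‖Z‖ < R
    · rw [← mul_assoc, ← mul_assoc]
      refine mul_le_mul_of_nonneg_left ?_ (hpos Z hZ).le
      rw [q5, q5]
      refine pow_le_pow_left₀ (le_max_right _ _) ?_ 5
      refine max_le_max ?_ le_rfl
      have : s ^ 2 ≤ s' ^ 2 := pow_le_pow_left₀ hs0.le hss 2
      linarith
    · push Not at hZ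
      rw [q5_eq_zero hs0 (hs.2.trans hZ), q5_eq_zero hs0' (hs'.2.trans hZ)]
  have hΨpos : ∀ s : ℝ, 0 < s → s ≤ R → 0 < L * Ψ s := by
    intro s hs hsR
    rw [hΨeq s hs hsR, ← integral_const_mul]
    have hc : Continuous fun Z => L * (lap F Z * q5 s Z) :=
      continuous_const.mul (hcont.mul (q5_contDiff s).continuous)
    have hcs : HasCompactSupport fun Z => L * (lap F Z * q5 s Z) :=
      ((hqsupp s hs).mul_left).mul_left
    refine hc.integral_pos_of_hasCompactSupport_nonneg_nonzero hcs (x := 0) ?_ ?_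
    · intro Z
      simp only [Pi.zero_apply]
      by_cases hZ : ‖Z‖ < R
      · rw [← mul_assoc]
        refine mul_nonneg (hpos Z hZ).le ?_
        rw [q5]; positivity
      · push Not at hZ
        rw [q5_eq_zero hs (hsR.trans hZ)]; simp
    · have h0 : 0 < L * lap F 0 := hpos 0 (by simpa using hR0)
      have hsq : sq (0 : P d) = 0 := by
        have h1 := (norm_sq_le_sq (0 : P d))
        rw [norm_zero] at h1
        apply le_antisymm <;> [simpa using h1.2; simpa using h1.1]
      have hq : 0 < q5 s (0 : P d) := by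
        rw [q5, hsq, sub_zero]
        have : 0 < max (s ^ 2) 0 := lt_max_of_lt_left (by positivity)
        positivity
      rw [← mul_assoc]
      exact (mul_pos h0 hq).ne'
  -- conclusion
  have hsubR : Metric.closedBall X R ⊆ O := by
    refine Subset.trans (Metric.closedBall_subset_ball ?_) hb2
    linarith
  have hgint : IntegrableOn f (Metric.closedBall X R) :=
    (hf.1.mono hsubR).integrableOn_compact (isCompact_closedBall _ _)
  have hdiff := kr_diff (d := d) hgint (r1 := R / 2) (r2 := R) (by linarith) (by linarith) le_rfl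
  rw [← hf.2 X R hR0 hsubR, ← hf.2 X (R / 2) (by linarith)
    ((Metric.closedBall_subset_closedBall (by linarith)).trans hsubR), sub_self] at hdiff
  have h0 : ∫ s in (R / 2)..R, (cM d * (s ^ (d + 10))⁻¹ / 10) * (L * Ψ s) = 0 := by
    have : ∀ s : ℝ, (cM d * (s ^ (d + 10))⁻¹ / 10) * (L * Ψ s)
        = L * (cM d * (s ^ (d + 10))⁻¹ / 10 * ∫ Z, f (X + Z) * lap (q5 s) Z) := by
      intro s; rw [hΨ]; ring
    simp_rw [this]
    rw [intervalIntegral.integral_const_mul, ← hdiff, mul_zero]
  have hco : ContinuousOn (fun s : ℝ => cM d * (s ^ (d + 10))⁻¹ / 10) (uIcc (R / 2) R) := by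
    rw [uIcc_of_le (by linarith)]
    refine ContinuousOn.div_const (continuousOn_const.mul ?_) _
    refine ContinuousOn.inv₀ (continuousOn_pow _) ?_
    intro s hs
    have : 0 < s := by linarith [hs.1]
    positivity
  have hii : IntervalIntegrable (fun s => (cM d * (s ^ (d + 10))⁻¹ / 10) * (L * Ψ s)) volume (R / 2) R :=
    (hmono.intervalIntegrable).continuousOn_mul hco
  have hgt := intervalIntegral.intervalIntegral_pos_of_pos_on hii (fun s hs => ?_) (by linarith)
  · rw [h0] at hgt
    exact lt_irrefl _ hgt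
  · have hs0 : 0 < s := by linarith [hs.1]
    have := hΨpos s hs0 hs.2.le
    have hc := cM_pos d
    positivity

end HG
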