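import Pool.Agent.W_MP_825298_an.GF1
import Pool.Agent.W_MP_825298_an.MV3c
import Pool.Agent.W_MP_825298_an.MV3e

open MeasureTheory Set Filter Topology
open scoped ENNReal NNReal BigOperators

namespace HG
variable {d : ℕ}

/-- `G_a(X) = - ∫_0^∞ ∂_a H(X + τ e_n) dτ` -/
noncomputable def Gf (H : P d → ℝ) (a : Ix d) (X : P d) : ℝ := - ∫ τ in Ioi (0 : ℝ), pd a H (X.1, X.2 + τ)

theorem gf2_isOpen_above {M : ℝ≥0} {ψ : E d → ℝ} (hψ : LipschitzWith M ψ) : IsOpen (above ψ) :=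
  isOpen_lt (hψ.continuous.comp continuous_fst) continuous_snd

theorem gf2_decomp (X : P d) : X = ∑ b : Ix d, co b X • (eb b : P d) := by
  rw [Fintype.sum_option]
  refine Prod.ext ?_ ?_
  · ext j
    simp [co, eb, Prod.fst_sum, Finset.sum_apply, Pi.single_apply]
  · simp [co, eb, Prod.snd_sum]

theorem gf2_co_le (b : Ix d) (X : P d) : |co b X| ≤ ‖X‖ := by
  cases b with
  | none => exact norm_snd_le X
  | some i => exact (norm_le_pi_norm X.1 i).trans (norm_fst_le X)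

theorem gf2_norm_le (L : P d →L[ℝ] ℝ) : ‖L‖ ≤ ∑ b : Ix d, |L (eb b)| := by
  refine L.opNorm_le_bound (Finset.sum_nonneg fun _ _ => abs_nonneg _) fun X => ?_
  have h1 : L X = ∑ b : Ix d, co b X * L (eb b) := by
    conv_lhs => rw [gf2_decomp X]
    rw [map_sum]
    simp
  rw [h1, Real.norm_eq_abs, Finset.sum_mul]
  refine (Finset.abs_sum_le_sum_abs _ _).trans (Finset.sum_le_sum fun b _ => ?_)
  rw [abs_mul, mul_comm]
  exact mul_le_mul_of_nonneg_left (gf2_co_le b X) (abs_nonneg _)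

theorem gf2_key {U : Set (P d)} (hU : IsOpen U) (hup : ∀ X ∈ U, ∀ τ : ℝ, 0 ≤ τ → ((X.1, X.2 + τ) : P d) ∈ U)
    {f : P d → ℝ} (hf : ContDiffOn ℝ 1 f U)
    (hb : ∀ X ∈ U, ∃ s ∈ 𝓝 X, s ⊆ U ∧ ∃ bound : ℝ → ℝ, IntegrableOn bound (Ioi 0) ∧ ∀ Y ∈ s, ∀ τ : ℝ, 0 < τ →
      |f (Y.1, Y.2 + τ)| ≤ bound τ ∧ ‖fderiv ℝ f (Y.1, Y.2 + τ)‖ ≤ bound τ) :
    (∀ X ∈ U, HasFDerivAt (fun Y : P d => ∫ τ in Ioi (0 : ℝ), f (Y.1, Y.2 + τ))
      (∫ τ in Ioi (0 : ℝ), fderiv ℝ f (X.1, X.2 + τ)) X) ∧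
    ContinuousOn (fun X : P d => ∫ τ in Ioi (0 : ℝ), fderiv ℝ f (X.1, X.2 + τ)) U ∧
    (∀ X ∈ U, IntegrableOn (fun τ => f (X.1, X.2 + τ)) (Ioi 0)) ∧
    (∀ X ∈ U, IntegrableOn (fun τ => fderiv ℝ f (X.1, X.2 + τ)) (Ioi 0)) := by
  have hfc : ContinuousOn f U := hf.continuousOn
  have hf'c : ContinuousOn (fderiv ℝ f) U := hf.continuousOn_fderiv_of_isOpen hU le_rfl
  have hline : ∀ X : P d, Continuous (fun τ : ℝ => ((X.1, X.2 + τ) : P d)) := fun X => by fun_prop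
  have hmaps : ∀ X ∈ U, MapsTo (fun τ : ℝ => ((X.1, X.2 + τ) : P d)) (Ioi 0) U := fun X hX τ hτ =>
    hup X hX τ (le_of_lt hτ)
  have hm1 : ∀ X ∈ U, AEStronglyMeasurable (fun τ => f (X.1, X.2 + τ)) (volume.restrict (Ioi (0 : ℝ))) :=
    fun X hX => (hfc.comp (hline X).continuousOn (hmaps X hX)).aestronglyMeasurable measurableSet_Ioi
  have hm2 : ∀ X ∈ U, AEStronglyMeasurable (fun τ => fderiv ℝ f (X.1, X.2 + τ)) (volume.restrict (Ioi (0 : ℝ))) :=
    fun X hX => (hf'c.comp (hline X).continuousOn (hmaps X hX)).aestronglyMeasurable measurableSet_Ioi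
  have hi1 : ∀ X ∈ U, IntegrableOn (fun τ => f (X.1, X.2 + τ)) (Ioi 0) := by
    intro X hX
    obtain ⟨s, hs, -, bound, hbi, hbd⟩ := hb X hX
    refine Integrable.mono' hbi (hm1 X hX) ?_
    exact (ae_restrict_iff' measurableSet_Ioi).2 (Eventually.of_forall fun τ hτ => (hbd X (mem_of_mem_nhds hs) τ hτ).1)
  have hi2 : ∀ X ∈ U, IntegrableOn (fun τ => fderiv ℝ f (X.1, X.2 + τ)) (Ioi 0) := by
    intro X hX
    obtain ⟨s, hs, -, bound, hbi, hbd⟩ := hb X hX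
    refine Integrable.mono' hbi (hm2 X hX) ?_
    exact (ae_restrict_iff' measurableSet_Ioi).2 (Eventually.of_forall fun τ hτ => (hbd X (mem_of_mem_nhds hs) τ hτ).2)
  refine ⟨?_, ?_, hi1, hi2⟩
  · intro X hX
    obtain ⟨s, hs, hsU, bound, hbi, hbd⟩ := hb X hX
    refine hasFDerivAt_integral_of_dominated_of_fderiv_le (bound := bound)
      (F := fun (Y : P d) (τ : ℝ) => f (Y.1, Y.2 + τ))
      (F' := fun (Y : P d) (τ : ℝ) => fderiv ℝ f (Y.1, Y.2 + τ)) hs ?_ (hi1 X hX) (hm2 X hX) ?_ hbi ?_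
    · filter_upwards [hU.mem_nhds hX] with Y hY using hm1 Y hY
    · refine (ae_restrict_iff' measurableSet_Ioi).2 (Eventually.of_forall fun τ hτ Y hY => (hbd Y hY τ hτ).2)
    · refine (ae_restrict_iff' measurableSet_Ioi).2 (Eventually.of_forall fun τ hτ Y hY => ?_)
      have hY' : ((Y.1, Y.2 + τ) : P d) ∈ U := hup Y (hsU hY) τ (le_of_lt hτ)
      have hd1 : HasFDerivAt f (fderiv ℝ f (Y.1, Y.2 + τ)) (Y.1, Y.2 + τ) :=
        ((hf.differentiableOn (by norm_num)).differentiableAt (hU.mem_nhds hY')).hasFDerivAt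
      have hsh : ∀ Z : P d, ((Z.1, Z.2 + τ) : P d) = Z + ((0, τ) : P d) := fun Z => by
        refine Prod.ext ?_ rfl
        simp
      rw [hsh] at hd1
      have := (hasFDerivAt_comp_add_right (f := f) ((0, τ) : P d)).2 hd1
      simpa only [hsh] using this
  · intro X hX
    obtain ⟨s, hs, hsU, bound, hbi, hbd⟩ := hb X hX
    refine ContinuousAt.continuousWithinAt ?_
    refine continuousAt_of_dominated (bound := bound)
      (F := fun (Y : P d) (τ : ℝ) => fderiv ℝ f (Y.1, Y.2 + τ)) ?_ ?_ hbi ?_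
    · filter_upwards [hU.mem_nhds hX] with Y hY using hm2 Y hY
    · filter_upwards [hs] with Y hY
      exact (ae_restrict_iff' measurableSet_Ioi).2 (Eventually.of_forall fun τ hτ => (hbd Y hY τ hτ).2)
    · refine (ae_restrict_iff' measurableSet_Ioi).2 (Eventually.of_forall fun τ hτ => ?_)
      have hY' : ((X.1, X.2 + τ) : P d) ∈ U := hup X hX τ (le_of_lt hτ)
      have h1 : ContinuousAt (fderiv ℝ f) (X.1, X.2 + τ) := hf'c.continuousAt (hU.mem_nhds hY')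
      have h2 : ContinuousAt (fun Y : P d => ((Y.1, Y.2 + τ) : P d)) X := by fun_prop
      exact ContinuousAt.comp (f := fun Y : P d => ((Y.1, Y.2 + τ) : P d)) (x := X) (g := fderiv ℝ f) h1 h2

/-- `Gf H` is a field: differentiate under the integral sign (`hasFDerivAt_integral_of_dominated_of_fderiv_le`, `H_deriv_decay`;
the integrand of the derivative is dominated by `C (ε+τ)^{-2}`), symmetry of second derivatives, `Δ H = 0` (`mvp_lap`).
`Gf H none = H` because `H → 0` at infinity along vertical lines. Needs only `d ≥ 2`. -/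
theorem Gf_field (hd : 2 ≤ d) {M : ℝ≥0} {ψ : E d → ℝ} (hψ : LipschitzWith M ψ) {H : P d → ℝ}
    (hH : MVP (above ψ) H) (h0 : ∀ X ∈ above ψ, 0 ≤ H X) {B0 : ℝ} {Z0 : P d} (hZ0 : Z0.2 ≤ ψ Z0.1)
    (hb : ∀ X ∈ above ψ, H X ≤ B0 * (1 + ‖X - Z0‖) ^ (-((d : ℝ) - 1))) :
    IsField (above ψ) (Gf H) ∧ ∀ X ∈ above ψ, Gf H none X = H X := by
  have hO : IsOpen (above ψ) := gf2_isOpen_above hψ
  have hup : ∀ X ∈ above ψ, ∀ τ : ℝ, 0 ≤ τ → ((X.1, X.2 + τ) : P d) ∈ above ψ := by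
    intro X hX τ hτ
    have : ψ X.1 < X.2 := hX
    show ψ X.1 < X.2 + τ
    linarith
  have hH3 : ContDiffOn ℝ 3 H (above ψ) := mvp_contDiffOn hO hH
  have hlap := mvp_lap hO hH
  have hd1 : (1 : ℝ) ≤ (d : ℝ) - 1 := by
    have : (2 : ℝ) ≤ d := by exact_mod_cast hd
    linarith
  -- regularity of the derivative
  have hF2 : ContDiffOn ℝ 2 (fderiv ℝ H) (above ψ) := by
    have : ContDiffOn ℝ (2 + 1) H (above ψ) := by
      have h3 : (2 + 1 : WithTop ℕ∞) = 3 := by norm_num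
      rw [h3]; exact hH3
    exact ((contDiffOn_succ_iff_fderiv_of_isOpen hO).1 this).2.2
  have hpd2 : ∀ a : Ix d, ContDiffOn ℝ 2 (pd a H) (above ψ) := by
    intro a
    exact hF2.clm_apply contDiffOn_const
  have hpd1 : ∀ a : Ix d, ContDiffOn ℝ 1 (pd a H) (above ψ) := fun a => (hpd2 a).of_le (by norm_num)
  -- domination
  have hdom : ∀ a : Ix d, ∀ X ∈ above ψ, ∃ s ∈ 𝓝 X, s ⊆ above ψ ∧ ∃ bound : ℝ → ℝ, IntegrableOn bound (Ioi 0) ∧
      ∀ Y ∈ s, ∀ τ : ℝ, 0 < τ →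
      |pd a H (Y.1, Y.2 + τ)| ≤ bound τ ∧ ‖fderiv ℝ (pd a H) (Y.1, Y.2 + τ)‖ ≤ bound τ := by
    intro a X hX
    set ε : ℝ := min ((X.2 - ψ X.1) / 2) 1 with hεdef
    have hX' : ψ X.1 < X.2 := hX
    have hε : 0 < ε := lt_min (by linarith) one_pos
    have hε1 : ε ≤ 1 := min_le_right _ _
    have hε2 : ψ X.1 + ε < X.2 := by
      have := min_le_left ((X.2 - ψ X.1) / 2) 1
      linarith
    obtain ⟨C, hC, hCb⟩ := H_deriv_decay (by omega : 1 ≤ d) hψ hH h0 hZ0 hb hε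
    refine ⟨{Y | ψ Y.1 + ε < Y.2}, ?_, ?_, fun τ => (Fintype.card (Ix d) : ℝ) * C * ((ε + τ) ^ (-2 : ℝ)), ?_, ?_⟩
    · exact (isOpen_lt ((hψ.continuous.comp continuous_fst).add continuous_const) continuous_snd).mem_nhds hε2
    · intro Y hY
      have : ψ Y.1 + ε < Y.2 := hY
      show ψ Y.1 < Y.2
      linarith
    · refine Integrable.const_mul ?_ _
      have h1 := integrableOn_add_rpow_Ioi_of_lt (a := (-2 : ℝ)) (c := 0) (m := ε) (by norm_num) (by linarith)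
      refine h1.congr_fun (fun τ _ => ?_) measurableSet_Ioi
      simp only [add_comm]
    · intro Y hY τ hτ
      obtain ⟨-, h2, h3⟩ := hCb Y (le_of_lt hY) τ hτ.le
      have hετ : 0 < ε + τ := by linarith
      have hpow : ((ε + τ) ^ (-2 : ℝ)) = ((ε + τ) ^ 2)⁻¹ := by
        rw [Real.rpow_neg hετ.le]; norm_cast
      have hcard : (1 : ℝ) ≤ (Fintype.card (Ix d) : ℝ) := by
        exact_mod_cast Fintype.card_pos
      have hbase : (1 + ‖Y‖ + τ) ^ (-((d : ℝ) - 1)) ≤ (ε + τ)⁻¹ := by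
        have hb1 : (1 : ℝ) ≤ 1 + ‖Y‖ + τ := by have := norm_nonneg Y; linarith
        calc (1 + ‖Y‖ + τ) ^ (-((d : ℝ) - 1)) ≤ (1 + ‖Y‖ + τ) ^ (-1 : ℝ) :=
              Real.rpow_le_rpow_of_exponent_le hb1 (by linarith)
          _ = (1 + ‖Y‖ + τ)⁻¹ := by rw [Real.rpow_neg_one]
          _ ≤ (ε + τ)⁻¹ := by
              apply inv_anti₀ hετ
              have := norm_nonneg Y; linarith
      have hbase1 : (1 + ‖Y‖ + τ) ^ (-((d : ℝ) - 1)) ≤ 1 := by
        have hb1 : (1 : ℝ) ≤ 1 + ‖Y‖ + τ := by have := norm_nonneg Y; linarith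
        exact Real.rpow_le_one_of_one_le_of_nonpos hb1 (by linarith)
      have hq : 0 ≤ ((ε + τ) ^ 2)⁻¹ := by positivity
      constructor
      · show |pd a H (Y.1, Y.2 + τ)| ≤ (Fintype.card (Ix d) : ℝ) * C * ((ε + τ) ^ (-2 : ℝ))
        rw [hpow]
        calc |pd a H (Y.1, Y.2 + τ)| ≤ C * (ε + τ)⁻¹ * (1 + ‖Y‖ + τ) ^ (-((d : ℝ) - 1)) := h2 a
          _ ≤ C * (ε + τ)⁻¹ * (ε + τ)⁻¹ := mul_le_mul_of_nonneg_left hbase (by positivity)
          _ = 1 * C * ((ε + τ) ^ 2)⁻¹ := by field_simp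
          _ ≤ (Fintype.card (Ix d) : ℝ) * C * ((ε + τ) ^ 2)⁻¹ := by
              refine mul_le_mul_of_nonneg_right (mul_le_mul_of_nonneg_right hcard hC.le) hq
      · show ‖fderiv ℝ (pd a H) (Y.1, Y.2 + τ)‖ ≤ (Fintype.card (Ix d) : ℝ) * C * ((ε + τ) ^ (-2 : ℝ))
        rw [hpow]
        refine (gf2_norm_le _).trans ?_
        calc ∑ b : Ix d, |fderiv ℝ (pd a H) (Y.1, Y.2 + τ) (eb b)| ≤ ∑ _b : Ix d, C * ((ε + τ) ^ 2)⁻¹ := by
              refine Finset.sum_le_sum fun b _ => ?_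
              calc |fderiv ℝ (pd a H) (Y.1, Y.2 + τ) (eb b)| ≤ C * ((ε + τ) ^ 2)⁻¹ * (1 + ‖Y‖ + τ) ^ (-((d : ℝ) - 1)) :=
                    h3 a b
                _ ≤ C * ((ε + τ) ^ 2)⁻¹ * 1 := mul_le_mul_of_nonneg_left hbase1 (by positivity)
                _ = _ := mul_one _
          _ = (Fintype.card (Ix d) : ℝ) * C * ((ε + τ) ^ 2)⁻¹ := by
              rw [Finset.sum_const, Finset.card_univ, nsmul_eq_mul]; ring
  have hkey := fun a => gf2_key hO hup (hpd1 a) (hdom a)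
  have hGder : ∀ a : Ix d, ∀ X ∈ above ψ, HasFDerivAt (Gf H a)
      (-∫ τ in Ioi (0 : ℝ), fderiv ℝ (pd a H) (X.1, X.2 + τ)) X := fun a X hX => ((hkey a).1 X hX).neg
  have hGpd : ∀ a b : Ix d, ∀ X ∈ above ψ, pd b (Gf H a) X
      = - ∫ τ in Ioi (0 : ℝ), pd b (pd a H) (X.1, X.2 + τ) := by
    intro a b X hX
    unfold pd
    have h1 := (hGder a X hX).fderiv
    unfold pd at h1
    rw [h1, _root_.neg_apply]
    congr 1
    exact ContinuousLinearMap.integral_apply ((hkey a).2.2.2 X hX) (eb b)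
  have hsymm : ∀ a b : Ix d, ∀ X ∈ above ψ, pd b (pd a H) X = pd a (pd b H) X := by
    intro a b X hX
    have hdiff : DifferentiableAt ℝ (fderiv ℝ H) X :=
      (hF2.differentiableOn (by norm_num)).differentiableAt (hO.mem_nhds hX)
    have hval : ∀ a b : Ix d, pd b (pd a H) X = fderiv ℝ (fderiv ℝ H) X (eb b) (eb a) := by
      intro a b
      show fderiv ℝ (fun Y => fderiv ℝ H Y (eb a)) X (eb b) = _
      have h1 : HasFDerivAt (fun Y => fderiv ℝ H Y (eb a))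
          (((ContinuousLinearMap.apply ℝ ℝ (eb a : P d))).comp (fderiv ℝ (fderiv ℝ H) X)) X :=
        ((ContinuousLinearMap.apply ℝ ℝ (eb a : P d)).hasFDerivAt).comp X hdiff.hasFDerivAt
      rw [h1.fderiv]
      rfl
    rw [hval, hval]
    have hs : IsSymmSndFDerivAt ℝ H X := by
      refine ContDiffAt.isSymmSndFDerivAt (n := 3) (hH3.contDiffAt (hO.mem_nhds hX)) ?_
      simp [minSmoothness_of_isRCLikeNormedField]
      norm_num
    exact hs (eb b) (eb a)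
  refine ⟨⟨?_, ?_, ?_⟩, ?_⟩
  · intro a
    have h01 : (1 : WithTop ℕ∞) = 0 + 1 := by norm_num
    rw [h01, contDiffOn_succ_iff_fderiv_of_isOpen hO]
    refine ⟨fun X hX => (hGder a X hX).differentiableAt.differentiableWithinAt, by simp, ?_⟩
    rw [contDiffOn_zero]
    refine ((hkey a).2.1.neg).congr fun X hX => ?_
    exact (hGder a X hX).fderiv
  · intro a b X hX
    rw [hGpd b a X hX, hGpd a b X hX]
    congr 1
    refine setIntegral_congr_fun measurableSet_Ioi fun τ hτ => ?_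
    exact hsymm b a _ (hup X hX τ (le_of_lt hτ))
  · intro X hX
    have h1 : ∀ a : Ix d, pd a (Gf H a) X = - ∫ τ in Ioi (0 : ℝ), pd a (pd a H) (X.1, X.2 + τ) :=
      fun a => hGpd a a X hX
    simp_rw [h1]
    rw [Finset.sum_neg_distrib, neg_eq_zero, ← integral_finsetSum]
    · have : ∀ τ ∈ Ioi (0 : ℝ), ∑ a : Ix d, pd a (pd a H) (X.1, X.2 + τ) = 0 := fun τ hτ =>
        hlap _ (hup X hX τ (le_of_lt hτ))
      rw [setIntegral_congr_fun measurableSet_Ioi this]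
      simp
    · intro a _
      exact ((hkey a).2.2.2 X hX).apply_continuousLinearMap (eb a)
  · intro X hX
    have hX' : ψ X.1 < X.2 := hX
    have hε : 0 < X.2 - ψ X.1 := by linarith
    obtain ⟨C, hC, hCb⟩ := H_deriv_decay (by omega : 1 ≤ d) hψ hH h0 hZ0 hb hε
    have hcomp := hCb X (by linarith)
    have hderiv : ∀ τ ∈ Ici (0 : ℝ), HasDerivAt (fun τ : ℝ => H (X.1, X.2 + τ)) (pd none H (X.1, X.2 + τ)) τ := by
      intro τ hτ
      have hY' := hup X hX τ hτ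
      have hdf : HasFDerivAt H (fderiv ℝ H (X.1, X.2 + τ)) (X.1, X.2 + τ) :=
        ((hH3.differentiableOn (by norm_num)).differentiableAt (hO.mem_nhds hY')).hasFDerivAt
      have hl : HasDerivAt (fun τ : ℝ => ((X.1, X.2 + τ) : P d)) ((0, 1) : P d) τ := by
        refine HasDerivAt.prodMk (hasDerivAt_const _ _) ?_
        simpa using (hasDerivAt_id τ).const_add X.2
      exact hdf.comp_hasDerivAt τ hl
    have hlim : Tendsto (fun τ : ℝ => H (X.1, X.2 + τ)) atTop (𝓝 0) := by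
      have hlow : ∀ᶠ τ : ℝ in atTop, 0 ≤ H (X.1, X.2 + τ) := by
        filter_upwards [eventually_ge_atTop (0 : ℝ)] with τ hτ using h0 _ (hup X hX τ hτ)
      have hhigh : ∀ᶠ τ : ℝ in atTop, H (X.1, X.2 + τ) ≤ C * (1 + ‖X‖ + τ) ^ (-((d : ℝ) - 1)) := by
        filter_upwards [eventually_ge_atTop (0 : ℝ)] with τ hτ using (hcomp τ hτ).1
      have ht : Tendsto (fun τ : ℝ => C * (1 + ‖X‖ + τ) ^ (-((d : ℝ) - 1))) atTop (𝓝 0) := by
        have h1 : Tendsto (fun τ : ℝ => 1 + ‖X‖ + τ) atTop atTop := tendsto_atTop_add_const_left _ _ tendsto_id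
        have h2 := (tendsto_rpow_neg_atTop (by linarith : 0 < (d : ℝ) - 1)).comp h1
        simpa using h2.const_mul C
      exact tendsto_of_tendsto_of_tendsto_of_le_of_le' tendsto_const_nhds ht hlow hhigh
    have := integral_Ioi_of_hasDerivAt_of_tendsto' hderiv ((hkey none).2.2.1 X hX) hlim
    unfold Gf
    rw [this]
    simp

end HG
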