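import Pool.Agent.W_MP_825298_an.GF2

open MeasureTheory Set Filter Topology
open scoped ENNReal NNReal BigOperators

namespace HG
variable {d : ℕ}

/-- decay of `Gf H`: `∫_0^∞ (ε+τ)^{-1} (1+‖X‖+τ)^{-(d-1)} dτ ≤ (1+‖X‖)^{-(d-5/4)} ∫_0^∞ (ε+τ)^{-1}(1+τ)^{-1/4} dτ`. -/
theorem Gf_decay (hd : 3 ≤ d) {M : ℝ≥0} {ψ : E d → ℝ} (hψ : LipschitzWith M ψ) {H : P d → ℝ}
    (hH : MVP (above ψ) H) (h0 : ∀ X ∈ above ψ, 0 ≤ H X) {B0 : ℝ} {Z0 : P d} (hZ0 : Z0.2 ≤ ψ Z0.1)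
    (hb : ∀ X ∈ above ψ, H X ≤ B0 * (1 + ‖X - Z0‖) ^ (-((d : ℝ) - 1))) {ε : ℝ} (hε : 0 < ε) :
    ∃ C : ℝ, ∀ X : P d, ψ X.1 + ε ≤ X.2 → nF (Gf H) X ≤ C * (1 + ‖X‖) ^ (-((d : ℝ) - 5 / 4)) := by
  obtain ⟨C, hC0, hC⟩ := H_deriv_decay (by omega) hψ hH h0 hZ0 hb hε
  have hd3 : (3 : ℝ) ≤ d := by exact_mod_cast hd
  set m : ℝ := max 1 ε⁻¹ with hm
  have hm0 : 0 < m := lt_of_lt_of_le one_pos (le_max_left _ _)
  set J : ℝ := ∫ τ in Ioi (0 : ℝ), (τ + 1) ^ (-(5 / 4) : ℝ) with hJ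
  have hJi : IntegrableOn (fun τ : ℝ => (τ + 1) ^ (-(5 / 4) : ℝ)) (Ioi 0) :=
    integrableOn_add_rpow_Ioi_of_lt (by norm_num) (by norm_num)
  refine ⟨((d : ℝ) + 1) * (C * m * J), ?_⟩
  intro X hX
  have hpt : ∀ a : Ix d, ∀ τ : ℝ, 0 < τ → |pd a H (X.1, X.2 + τ)|
      ≤ C * m * (1 + ‖X‖) ^ (-((d : ℝ) - 5 / 4)) * (τ + 1) ^ (-(5 / 4) : ℝ) := by
    intro a τ hτ
    refine ((hC X hX τ hτ.le).2.1 a).trans ?_
    have hX0 := norm_nonneg X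
    have h1 : (ε + τ)⁻¹ ≤ m * (τ + 1)⁻¹ := by
      rw [inv_le_comm₀ (by positivity) (by positivity)]
      rw [mul_inv, inv_inv]
      rw [inv_mul_le_iff₀ hm0]
      have hm1 : 1 ≤ m := le_max_left _ _
      have hm2 : 1 ≤ m * ε := by
        have : ε⁻¹ ≤ m := le_max_right _ _
        calc (1 : ℝ) = ε⁻¹ * ε := (inv_mul_cancel₀ hε.ne').symm
          _ ≤ m * ε := mul_le_mul_of_nonneg_right this hε.le
      nlinarith
    have h2 : (1 + ‖X‖ + τ) ^ (-((d : ℝ) - 1)) ≤ (1 + ‖X‖) ^ (-((d : ℝ) - 5 / 4)) * (τ + 1) ^ (-(1 / 4) : ℝ) := by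
      have e : (-((d : ℝ) - 1)) = (-((d : ℝ) - 5 / 4)) + (-(1 / 4)) := by ring
      rw [e, Real.rpow_add (by positivity)]
      refine mul_le_mul ?_ ?_ (by positivity) (by positivity)
      · exact Real.rpow_le_rpow_of_nonpos (by positivity) (by linarith) (by linarith)
      · exact Real.rpow_le_rpow_of_nonpos (by positivity) (by linarith) (by norm_num)
    have h3 : (τ + 1)⁻¹ * (τ + 1) ^ (-(1 / 4) : ℝ) = (τ + 1) ^ (-(5 / 4) : ℝ) := by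
      rw [← Real.rpow_neg_one, ← Real.rpow_add (by positivity)]
      norm_num
    calc C * (ε + τ)⁻¹ * (1 + ‖X‖ + τ) ^ (-((d : ℝ) - 1))
        ≤ C * (m * (τ + 1)⁻¹) * ((1 + ‖X‖) ^ (-((d : ℝ) - 5 / 4)) * (τ + 1) ^ (-(1 / 4) : ℝ)) := by
          refine mul_le_mul (mul_le_mul_of_nonneg_left h1 hC0.le) h2 (by positivity) (by positivity)
      _ = C * m * (1 + ‖X‖) ^ (-((d : ℝ) - 5 / 4)) * ((τ + 1)⁻¹ * (τ + 1) ^ (-(1 / 4) : ℝ)) := by ring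
      _ = _ := by rw [h3]
  have hG : ∀ a : Ix d, |Gf H a X| ≤ C * m * J * (1 + ‖X‖) ^ (-((d : ℝ) - 5 / 4)) := by
    intro a
    have h1 : ‖∫ τ in Ioi (0 : ℝ), pd a H (X.1, X.2 + τ)‖
        ≤ ∫ τ in Ioi (0 : ℝ), C * m * (1 + ‖X‖) ^ (-((d : ℝ) - 5 / 4)) * (τ + 1) ^ (-(5 / 4) : ℝ) := by
      refine norm_integral_le_of_norm_le (hJi.const_mul _) ?_
      filter_upwards [ae_restrict_mem measurableSet_Ioi] with τ hτ
      exact hpt a τ hτ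
    rw [integral_const_mul] at h1
    unfold Gf
    rw [abs_neg]
    rw [Real.norm_eq_abs] at h1
    refine h1.trans (le_of_eq ?_)
    rw [← hJ]
    ring
  unfold nF
  calc ∑ a : Ix d, |Gf H a X| ≤ ∑ _a : Ix d, C * m * J * (1 + ‖X‖) ^ (-((d : ℝ) - 5 / 4)) :=
        Finset.sum_le_sum fun a _ => hG a
    _ = ((d : ℝ) + 1) * (C * m * J) * (1 + ‖X‖) ^ (-((d : ℝ) - 5 / 4)) := by
        rw [Finset.sum_const, Finset.card_univ, Fintype.card_option, Fintype.card_fin, nsmul_eq_mul]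
        push_cast
        ring

end HG
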