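import Pool.Agent.W_MP_825298_an.Var1a

open MeasureTheory Set Filter Topology
open scoped ENNReal NNReal BigOperators

namespace HG
variable {d : ℕ}

theorem trunc_lip (a b : ℝ) : |max 0 (min 1 a) - max 0 (min 1 b)| ≤ |a - b| := by
  have h1 : |max 0 (min 1 a) - max 0 (min 1 b)| ≤ |min 1 a - min 1 b| := by
    have := abs_max_sub_max_le_max (0 : ℝ) (min 1 a) 0 (min 1 b)
    simpa using this
  have h2 : |min 1 a - min 1 b| ≤ |a - b| := by
    have := abs_min_sub_min_le_max (1 : ℝ) a 1 b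
    simpa using this
  exact h1.trans h2

/-- a pointwise 1-Lipschitz dominated function has smaller partial derivatives -/
theorem trunc_pd_le {w u : P d → ℝ} (h : ∀ X Y, |u X - u Y| ≤ |w X - w Y|) {X : P d}
    (hw : DifferentiableAt ℝ w X) (hu : DifferentiableAt ℝ u X) (a : Ix d) :
    |pd a u X| ≤ |pd a w X| := by
  have h1 := ((hw.hasFDerivAt.hasLineDerivAt (eb a)).tendsto_slope_zero).abs
  have h2 := ((hu.hasFDerivAt.hasLineDerivAt (eb a)).tendsto_slope_zero).abs
  refine le_of_tendsto_of_tendsto' h2 h1 fun t => ?_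
  rw [smul_eq_mul, smul_eq_mul, abs_mul, abs_mul]
  exact mul_le_mul_of_nonneg_left (h _ _) (abs_nonneg _)

/-- Truncation. At a.e. point `|pd a (clip w)| ≤ |pd a w|` (at points of differentiability of both,
`|clip w(X+h) - clip w(X)| ≤ |w(X+h) - w(X)|`). -/
theorem comp_trunc {ψ ζ : E d → ℝ} (hψ : Measurable ψ) (hζ : BdFun ζ) {w : P d → ℝ} (hw : Comp ψ ζ w) :
    Comp ψ ζ (fun X => max 0 (min 1 (w X))) ∧ en ψ (fun X => max 0 (min 1 (w X))) ≤ en ψ w := by
  obtain ⟨K, hK⟩ := hw.lip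
  obtain ⟨B, hB⟩ := hw.supp
  have hu : LipschitzWith K (fun X => max 0 (min 1 (w X))) := by
    refine LipschitzWith.of_dist_le_mul fun X Y => ?_
    rw [Real.dist_eq]
    refine (trunc_lip _ _).trans ?_
    have := hK.dist_le_mul X Y
    rwa [Real.dist_eq] at this
  have hL : LipB (fun X => max 0 (min 1 (w X))) := by
    refine ⟨⟨K, hu⟩, ⟨B, fun X hX => ?_⟩⟩
    rw [hB X hX]
    simp
  refine ⟨⟨hL, fun x => ?_⟩, ?_⟩
  · rw [hw.bd, min_eq_right (hζ.le1 x), max_eq_right (hζ.nn x)]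
  · unfold en
    refine integral_mono_ae (lipB_integrable_sq hL).integrableOn
      (lipB_integrable_sq hw.toLipB).integrableOn ?_
    refine ae_restrict_of_ae ?_
    filter_upwards [intPd_ae hK, intPd_ae hu] with X h1 h2
    refine Finset.sum_le_sum fun a _ => ?_
    exact sq_le_sq.2 (trunc_pd_le (fun X Y => trunc_lip _ _) h1 h2 a)

end HG
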