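import Pool.Agent.W_MP_825298_an.VarDefs

open MeasureTheory Set Filter Topology
open scoped ENNReal NNReal BigOperators

namespace HG
variable {d : ℕ}

/-- A competitor exists: `ζ(x) (1-|t-ψ x|)_+`. -/
theorem comp_exists {M : ℝ≥0} {ψ ζ : E d → ℝ} (hψ : LipschitzWith M ψ) (hζ : BdFun ζ) :
    Comp ψ ζ (fun X => ζ X.1 * max (1 - |X.2 - ψ X.1|) 0) := by
  obtain ⟨K, hK⟩ := hζ.lip
  obtain ⟨B, hB⟩ := hζ.supp
  refine ⟨⟨⟨K + (1 + M), ?_⟩, ?_⟩, ?_⟩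
  · apply LipschitzWith.of_dist_le_mul
    intro X Y
    rw [Real.dist_eq]
    have g1 : ∀ X : P d, 0 ≤ max (1 - |X.2 - ψ X.1|) 0 := fun X => le_max_right _ _
    have g2 : ∀ X : P d, max (1 - |X.2 - ψ X.1|) 0 ≤ 1 := fun X =>
      max_le (by linarith [abs_nonneg (X.2 - ψ X.1)]) (by norm_num)
    have hd1 : dist X.1 Y.1 ≤ dist X Y := by rw [Prod.dist_eq]; exact le_max_left _ _
    have hd2 : dist X.2 Y.2 ≤ dist X Y := by rw [Prod.dist_eq]; exact le_max_right _ _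
    have k1 : |ζ X.1 - ζ Y.1| ≤ K * dist X Y := by
      have := hK.dist_le_mul X.1 Y.1
      rw [Real.dist_eq] at this
      exact this.trans (mul_le_mul_of_nonneg_left hd1 K.2)
    have k2 : |ψ X.1 - ψ Y.1| ≤ M * dist X Y := by
      have := hψ.dist_le_mul X.1 Y.1
      rw [Real.dist_eq] at this
      exact this.trans (mul_le_mul_of_nonneg_left hd1 M.2)
    have k3 : |X.2 - Y.2| ≤ dist X Y := by
      rw [Real.dist_eq] at hd2
      exact hd2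
    have k4 : |max (1 - |X.2 - ψ X.1|) 0 - max (1 - |Y.2 - ψ Y.1|) 0| ≤ (1 + M) * dist X Y := by
      have h1 := abs_max_sub_max_le_abs (1 - |X.2 - ψ X.1|) (1 - |Y.2 - ψ Y.1|) 0
      have h2 : |1 - |X.2 - ψ X.1| - (1 - |Y.2 - ψ Y.1|)| ≤ |(X.2 - ψ X.1) - (Y.2 - ψ Y.1)| := by
        rw [show 1 - |X.2 - ψ X.1| - (1 - |Y.2 - ψ Y.1|) = -(|X.2 - ψ X.1| - |Y.2 - ψ Y.1|) by ring, abs_neg]
        exact abs_abs_sub_abs_le _ _
      have h3 : |(X.2 - ψ X.1) - (Y.2 - ψ Y.1)| ≤ |X.2 - Y.2| + |ψ X.1 - ψ Y.1| := by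
        rw [show (X.2 - ψ X.1) - (Y.2 - ψ Y.1) = (X.2 - Y.2) - (ψ X.1 - ψ Y.1) by ring]
        exact abs_sub _ _
      linarith
    have e : ζ X.1 * max (1 - |X.2 - ψ X.1|) 0 - ζ Y.1 * max (1 - |Y.2 - ψ Y.1|) 0
        = (ζ X.1 - ζ Y.1) * max (1 - |X.2 - ψ X.1|) 0
          + ζ Y.1 * (max (1 - |X.2 - ψ X.1|) 0 - max (1 - |Y.2 - ψ Y.1|) 0) := by ring
    show |ζ X.1 * max (1 - |X.2 - ψ X.1|) 0 - ζ Y.1 * max (1 - |Y.2 - ψ Y.1|) 0| ≤ _
    rw [e]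
    refine (abs_add_le _ _).trans ?_
    rw [abs_mul, abs_mul, abs_of_nonneg (g1 X), abs_of_nonneg (hζ.nn Y.1)]
    have m1 : |ζ X.1 - ζ Y.1| * max (1 - |X.2 - ψ X.1|) 0 ≤ |ζ X.1 - ζ Y.1| :=
      mul_le_of_le_one_right (abs_nonneg _) (g2 X)
    have m2 : ζ Y.1 * |max (1 - |X.2 - ψ X.1|) 0 - max (1 - |Y.2 - ψ Y.1|) 0|
        ≤ |max (1 - |X.2 - ψ X.1|) 0 - max (1 - |Y.2 - ψ Y.1|) 0| :=
      mul_le_of_le_one_left (abs_nonneg _) (hζ.le1 _)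
    push_cast
    nlinarith
  · refine ⟨max B (|ψ 0| + M * |B| + 1), fun X hX => ?_⟩
    show ζ X.1 * max (1 - |X.2 - ψ X.1|) 0 = 0
    by_cases h : B ≤ ‖X.1‖
    · rw [hB _ h, zero_mul]
    · push Not at h
      have h1 : |ψ X.1| ≤ |ψ 0| + M * |B| := by
        have h2 := hψ.dist_le_mul X.1 0
        rw [Real.dist_eq, dist_zero_right] at h2
        have h3 : |ψ X.1| ≤ |ψ 0| + |ψ X.1 - ψ 0| := by
          have := abs_add_le (ψ 0) (ψ X.1 - ψ 0)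
          rwa [add_sub_cancel] at this
        have h4 : (M : ℝ) * ‖X.1‖ ≤ M * |B| :=
          mul_le_mul_of_nonneg_left (h.le.trans (le_abs_self B)) M.2
        linarith
      have hX1 : ‖X.1‖ < max B (|ψ 0| + M * |B| + 1) := lt_of_lt_of_le h (le_max_left _ _)
      have hX2 : max B (|ψ 0| + M * |B| + 1) ≤ ‖X.2‖ := by
        rw [Prod.norm_def] at hX
        rcases le_max_iff.1 hX with h' | h'
        · exact absurd h' (not_le.2 hX1)
        · exact h'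
      have h5 : |ψ 0| + M * |B| + 1 ≤ |X.2| := (le_max_right _ _).trans hX2
      have h6 : 1 ≤ |X.2 - ψ X.1| := by
        have := abs_sub_abs_le_abs_sub X.2 (ψ X.1)
        linarith
      rw [max_eq_right (by linarith), mul_zero]
  · intro x
    show ζ x * max (1 - |ψ x - ψ x|) 0 = ζ x
    simp

end HG
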