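import Pool.Agent.W_MP_825298_an.Var1b
import Pool.Agent.W_MP_825298_an.Var2b
import Pool.Agent.W_MP_825298_an.Var3d

open MeasureTheory Set Filter Topology
open scoped ENNReal NNReal BigOperators

namespace HG
variable {d : ℕ}

/-- minimising sequences with values in `[0,1]` exist (`comp_exists`, `comp_trunc`). -/
theorem minSeq_exists {M : ℝ≥0} {ψ ζ : E d → ℝ} (hψ : LipschitzWith M ψ) (hζ : BdFun ζ) :
    ∃ w : ℕ → P d → ℝ, IsMinSeq ψ ζ w ∧ ∀ m X, 0 ≤ w m X ∧ w m X ≤ 1 := by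
  have hne : {e | ∃ w, Comp ψ ζ w ∧ e = en ψ w}.Nonempty := ⟨_, _, comp_exists hψ hζ, rfl⟩
  have hbd : BddBelow {e | ∃ w, Comp ψ ζ w ∧ e = en ψ w} := by
    refine ⟨0, ?_⟩
    rintro e ⟨w, _, rfl⟩
    exact en_nonneg ψ w
  obtain ⟨u, -, hu, huS⟩ := exists_seq_tendsto_sInf hne hbd
  choose w hw hwu using huS
  have hmeas : Measurable ψ := hψ.continuous.measurable
  have htr := fun m => comp_trunc hmeas hζ (hw m)
  refine ⟨fun m X => max 0 (min 1 (w m X)), ⟨fun m => (htr m).1, ?_⟩, fun m X => ⟨le_max_left _ _,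
    max_le zero_le_one (min_le_left _ _)⟩⟩
  refine tendsto_of_tendsto_of_tendsto_of_le_of_le tendsto_const_nhds hu
    (fun m => enInf_le (htr m).1) (fun m => ?_)
  rw [hwu m]
  exact (htr m).2

end HG
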