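import Pool.Agent.W_MP_825298_an.Var3b
import Pool.Agent.W_MP_825298_an.MV1b

open MeasureTheory Set Filter Topology
open scoped ENNReal NNReal BigOperators

namespace HG
variable {d : ℕ}

theorem lipB_cont_h68 {w : P d → ℝ} (hw : LipB w) : Continuous w := by
  obtain ⟨K, hK⟩ := hw.lip
  exact hK.continuous

theorem lipB_hcs_h68 {w : P d → ℝ} (hw : LipB w) : HasCompactSupport w := by
  obtain ⟨B, hB⟩ := hw.supp
  refine HasCompactSupport.of_support_subset_isCompact (isCompact_closedBall (0 : P d) B) ?_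
  intro X hX
  rw [mem_closedBall_zero_iff]
  by_contra h
  exact hX (hB X (not_le.1 h).le)

theorem kr_continuous_h68 (r : ℝ) : Continuous (kr (d := d) r) := (kr_contDiff r).continuous

theorem kr_hcs_h68 {r : ℝ} (hr : 0 < r) : HasCompactSupport (kr (d := d) r) := by
  refine HasCompactSupport.of_support_subset_isCompact (isCompact_closedBall (0 : P d) r) ?_
  intro X hX
  rw [mem_closedBall_zero_iff]
  by_contra h
  exact hX (kr_eq_zero hr (not_le.1 h).le)

/-- averages are controlled by the energy: Cauchy-Schwarz with the probability density `kr r`, `kr ≤ C/r^{d+1}`,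
`slab_poincare` with `T = X.2 - ψ X.1 + (1+M) r`. -/
theorem avg_sq_le (d : ℕ) : ∃ C : ℝ, 0 < C ∧ ∀ (M : ℝ≥0) (ψ : E d → ℝ), LipschitzWith M ψ → ∀ (v : P d → ℝ), LipB v →
    (∀ x, v (x, ψ x) = 0) → ∀ (X : P d) (r : ℝ), 0 < r → Metric.closedBall X r ⊆ above ψ →
    (∫ Z, v (X + Z) * kr r Z) ^ 2 ≤ C / r ^ (d + 1) * (X.2 - ψ X.1 + (1 + M) * r) ^ 2 * en ψ v := by
  obtain ⟨C, hC0, hC⟩ := kr_bounds d
  refine ⟨C, hC0, ?_⟩
  intro M ψ hψ v hv h0 X r hr hX
  have hvc := lipB_cont_h68 hv
  have hkc := kr_continuous_h68 (d := d) r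
  have hks := kr_hcs_h68 (d := d) hr
  have hshift : Continuous fun Z : P d => X + Z := continuous_const.add continuous_id
  -- integrability
  have i1 : Integrable (fun Z => v (X + Z) * kr r Z) :=
    ((hvc.comp hshift).mul hkc).integrable_of_hasCompactSupport hks.mul_left
  have i2 : Integrable (fun Z => (v (X + Z)) ^ 2 * kr r Z) :=
    (((hvc.comp hshift).pow 2).mul hkc).integrable_of_hasCompactSupport hks.mul_left
  have i3 : Integrable (fun Z : P d => kr r Z) := hkc.integrable_of_hasCompactSupport hks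
  -- Cauchy-Schwarz
  set A : ℝ := ∫ Z, v (X + Z) * kr r Z with hA
  have hCS : A ^ 2 ≤ ∫ Z, (v (X + Z)) ^ 2 * kr r Z := by
    have h1 : 0 ≤ ∫ Z, (v (X + Z) - A) ^ 2 * kr r Z :=
      integral_nonneg fun Z => mul_nonneg (sq_nonneg _) (kr_nonneg hr Z)
    have h2 : (fun Z => (v (X + Z) - A) ^ 2 * kr r Z)
        = fun Z => ((v (X + Z)) ^ 2 * kr r Z - 2 * A * (v (X + Z) * kr r Z)) + A ^ 2 * kr r Z := by
      funext Z
      ring
    have i4 : Integrable (fun Z => (v (X + Z)) ^ 2 * kr r Z - 2 * A * (v (X + Z) * kr r Z)) :=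
      i2.sub (i1.const_mul _)
    have i5 : Integrable (fun Z : P d => A ^ 2 * kr r Z) := i3.const_mul _
    rw [h2, integral_add i4 i5,
      integral_sub i2 (i1.const_mul _), integral_const_mul, integral_const_mul, kr_integral hr,
      ← hA] at h1
    nlinarith [h1]
  -- pointwise bound by the slab
  set T : ℝ := X.2 - ψ X.1 + (1 + M) * r with hT
  have hXa : ψ X.1 < X.2 := hX (Metric.mem_closedBall_self hr.le)
  have hT0 : 0 ≤ T := by
    have : 0 ≤ (1 + (M : ℝ)) * r := by positivity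
    linarith
  have hmeasψ : Measurable ψ := hψ.continuous.measurable
  set S : Set (P d) := {Y : P d | ψ Y.1 < Y.2 ∧ Y.2 ≤ ψ Y.1 + T} with hS
  have hSm : MeasurableSet S := by
    refine MeasurableSet.inter ?_ ?_
    · exact measurableSet_lt (hmeasψ.comp measurable_fst) measurable_snd
    · exact measurableSet_le measurable_snd ((hmeasψ.comp measurable_fst).add_const T)
  have hball : Metric.closedBall X r ⊆ S := by
    intro Y hY
    refine ⟨hX hY, ?_⟩
    rw [Metric.mem_closedBall, dist_eq_norm] at hY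
    have h1 : ‖Y.1 - X.1‖ ≤ r := (norm_fst_le (Y - X)).trans hY
    have h2 : |Y.2 - X.2| ≤ r := by
      have := (norm_snd_le (Y - X)).trans hY
      rwa [Real.norm_eq_abs] at this
    have h3 : |ψ Y.1 - ψ X.1| ≤ M * r := by
      have h4 := hψ.dist_le_mul Y.1 X.1
      rw [Real.dist_eq, dist_eq_norm] at h4
      exact h4.trans (mul_le_mul_of_nonneg_left h1 M.2)
    have h5 := abs_le.1 h2
    have h6 := abs_le.1 h3
    show Y.2 ≤ ψ Y.1 + T
    rw [hT]
    linarith [h5.2, h6.1]
  have hcs2 : HasCompactSupport (fun Y => (v Y) ^ 2) := by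
    have h1 : HasCompactSupport (fun Y => v Y * v Y) := (lipB_hcs_h68 hv).mul_left
    simpa only [pow_two] using h1
  have hv2 : Integrable (fun Y => (v Y) ^ 2) := (hvc.pow 2).integrable_of_hasCompactSupport hcs2
  have hconv : ∫ Z, (v (X + Z)) ^ 2 * kr r Z = ∫ Y, (v Y) ^ 2 * kr r (Y - X) :=
    kr_conv_comm r (fun Y => (v Y) ^ 2) X
  have hle : ∫ Y, (v Y) ^ 2 * kr r (Y - X) ≤ ∫ Y, S.indicator (fun Y => C / r ^ (d + 1) * (v Y) ^ 2) Y := by
    refine integral_mono ?_ ?_ ?_
    · have hcomp : Continuous fun Y : P d => kr r (Y - X) := hkc.comp (continuous_id.sub continuous_const)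
      exact ((hvc.pow 2).mul hcomp).integrable_of_hasCompactSupport hcs2.mul_right
    · exact (hv2.const_mul _).indicator hSm
    · intro Y
      simp only
      by_cases hY : Y ∈ S
      · rw [indicator_of_mem hY]
        have h1 := (hC r (Y - X) hr).1
        have h2 := mul_le_mul_of_nonneg_left h1 (sq_nonneg (v Y))
        linarith [h2, mul_comm ((v Y) ^ 2) (C / r ^ (d + 1))]
      · rw [indicator_of_notMem hY]
        have h1 : Y ∉ Metric.closedBall X r := fun h => hY (hball h)
        rw [Metric.mem_closedBall, dist_eq_norm, not_le] at h1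
        rw [kr_eq_zero hr h1.le, mul_zero]
  rw [integral_indicator hSm, integral_const_mul] at hle
  have hslab := slab_poincare hψ hv h0 hT0
  have hC' : 0 ≤ C / r ^ (d + 1) := by positivity
  calc A ^ 2 ≤ ∫ Z, (v (X + Z)) ^ 2 * kr r Z := hCS
    _ = ∫ Y, (v Y) ^ 2 * kr r (Y - X) := hconv
    _ ≤ C / r ^ (d + 1) * ∫ Y in S, (v Y) ^ 2 := hle
    _ ≤ C / r ^ (d + 1) * (T ^ 2 * en ψ v) := mul_le_mul_of_nonneg_left hslab hC'
    _ = C / r ^ (d + 1) * T ^ 2 * en ψ v := by ring

end HG
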