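import Pool.Agent.W_MP_825298_an.Var1a

open MeasureTheory Set Filter Topology
open scoped ENNReal NNReal BigOperators

namespace HG
variable {d : ℕ}

/-- expansion of the energy: `en(w+tv) = en w + 2t ∫∇w·∇v + t² en v`. -/
theorem en_expand (ψ : E d → ℝ) (hψ : Measurable ψ) {w v : P d → ℝ} (hw : LipB w) (hv : LipB v) (t : ℝ) :
    en ψ (fun X => w X + t * v X)
      = en ψ w + 2 * t * (∫ X in above ψ, ∑ a : Ix d, pd a w X * pd a v X) + t ^ 2 * en ψ v := by
  have _ := hψ
  unfold en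
  have h1 := lipB_pd_add hw (hv.smul t)
  have h2 := lipB_pd_smul hv t
  have hae : ∀ᵐ X ∂(volume.restrict (above ψ)),
      ∑ a : Ix d, (pd a (fun X => w X + t * v X) X) ^ 2
        = (∑ a : Ix d, (pd a w X) ^ 2) + (2 * t * ∑ a : Ix d, pd a w X * pd a v X)
          + t ^ 2 * ∑ a : Ix d, (pd a v X) ^ 2 := by
    refine ae_restrict_of_ae ?_
    filter_upwards [h1, h2] with X hX1 hX2
    rw [Finset.mul_sum, Finset.mul_sum, ← Finset.sum_add_distrib, ← Finset.sum_add_distrib]
    refine Finset.sum_congr rfl fun a _ => ?_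
    rw [hX1 a, hX2 a]
    ring
  rw [integral_congr_ae hae]
  have i1 : Integrable (fun X => ∑ a : Ix d, (pd a w X) ^ 2) (volume.restrict (above ψ)) :=
    (lipB_integrable_sq hw).restrict
  have i2 : Integrable (fun X => ∑ a : Ix d, pd a w X * pd a v X) (volume.restrict (above ψ)) :=
    (lipB_integrable_mul hw hv).restrict
  have i3 : Integrable (fun X => ∑ a : Ix d, (pd a v X) ^ 2) (volume.restrict (above ψ)) :=
    (lipB_integrable_sq hv).restrict
  have i12 : Integrable (fun X => (∑ a : Ix d, (pd a w X) ^ 2) + (2 * t * ∑ a : Ix d, pd a w X * pd a v X))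
      (volume.restrict (above ψ)) := i1.add (i2.const_mul _)
  rw [integral_add i12 (i3.const_mul _), integral_add i1 (i2.const_mul _),
    integral_const_mul, integral_const_mul]

theorem enInf_le {ψ ζ : E d → ℝ} {w : P d → ℝ} (hw : Comp ψ ζ w) : enInf ψ ζ ≤ en ψ w := by
  refine csInf_le ⟨0, ?_⟩ ⟨w, hw, rfl⟩
  rintro e ⟨w', _, rfl⟩
  exact en_nonneg ψ w'

theorem enInf_nonneg (ψ ζ : E d → ℝ) : 0 ≤ enInf ψ ζ := by
  refine Real.sInf_nonneg ?_
  rintro e ⟨w', _, rfl⟩
  exact en_nonneg ψ w'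

/-- parallelogram law: `en(w-w') ≤ 2(en w + en w' - 2 inf)` for competitors (`(w+w')/2` is a competitor). -/
theorem en_diff_le {ψ ζ : E d → ℝ} (hψ : Measurable ψ) {w w' : P d → ℝ} (hw : Comp ψ ζ w) (hw' : Comp ψ ζ w') :
    en ψ (fun X => w X - w' X) ≤ 2 * (en ψ w + en ψ w' - 2 * enInf ψ ζ) := by
  have hv : LipB (fun X => w X - w' X) := hw.toLipB.sub hw'.toLipB
  have hc : Comp ψ ζ (fun X => w' X + (1 / 2 : ℝ) * (w X - w' X)) := by
    refine { toLipB := hw'.toLipB.add (hv.smul (1 / 2)), bd := fun x => ?_ }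
    simp only [hw.bd, hw'.bd]
    ring
  have e1 := en_expand ψ hψ hw'.toLipB hv (1 / 2)
  have e2 := en_expand ψ hψ hw'.toLipB hv 1
  have h3 : (fun X => w' X + (1 : ℝ) * (w X - w' X)) = w := by
    funext X
    ring
  rw [h3] at e2
  have h4 := enInf_le hc
  rw [e1] at h4
  nlinarith [h4, e2]

end HG
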