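import Pool.Agent.W_MP_825298_an.HE2
import Pool.Agent.W_MP_825298_an.Var1b

open MeasureTheory Set Filter Topology
open scoped ENNReal NNReal BigOperators

namespace HG
variable {d : ℕ}

theorem HE3_integrable {w : P d → ℝ} (hw : LipB w) (X : P d) {r : ℝ} (hr : 0 < r) :
    Integrable (fun Z => w (X + Z) * kr r Z) := by
  obtain ⟨K, hK⟩ := hw.lip
  have hk : Continuous (kr (d := d) r) := (kr_contDiff r).continuous
  have hkc : HasCompactSupport (kr (d := d) r) := by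
    refine HasCompactSupport.intro (isCompact_closedBall (0 : P d) r) ?_
    intro Z hZ
    refine kr_eq_zero hr ?_
    simp only [Metric.mem_closedBall, dist_zero_right, not_le] at hZ
    exact hZ.le
  have hwc : Continuous (fun Z => w (X + Z)) := hK.continuous.comp (by fun_prop)
  exact (hwc.mul hk).integrable_of_hasCompactSupport (hkc.mul_left (f := fun Z => w (X + Z)))

theorem HE3_diff {M : ℝ≥0} {ψ ζ : E d → ℝ} (hψ : LipschitzWith M ψ) {X : P d} {r : ℝ} (hr : 0 < r)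
    (hX : Metric.closedBall X r ⊆ above ψ) :
    ∃ K : ℝ, 0 < K ∧ ∀ w w' : P d → ℝ, Comp ψ ζ w → Comp ψ ζ w' →
      ((∫ Z, w (X + Z) * kr r Z) - ∫ Z, w' (X + Z) * kr r Z) ^ 2 ≤
        K * ((en ψ w - enInf ψ ζ) + (en ψ w' - enInf ψ ζ)) := by
  obtain ⟨C, hC, h⟩ := avg_sq_le d
  set T : ℝ := C / r ^ (d + 1) * (X.2 - ψ X.1 + (1 + M) * r) ^ 2 with hT
  have hT0 : 0 ≤ T := by positivity
  refine ⟨2 * T + 1, by positivity, fun w w' hw hw' => ?_⟩
  have e : (∫ Z, w (X + Z) * kr r Z) - ∫ Z, w' (X + Z) * kr r Z =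
      ∫ Z, (w (X + Z) - w' (X + Z)) * kr r Z := by
    rw [← integral_sub (HE3_integrable hw.toLipB X hr) (HE3_integrable hw'.toLipB X hr)]
    refine integral_congr_ae (Eventually.of_forall fun Z => ?_)
    simp only
    ring
  have h1 := h M ψ hψ (fun Y => w Y - w' Y) (hw.toLipB.sub hw'.toLipB)
    (fun x => by simp only [hw.bd x, hw'.bd x, sub_self]) X r hr hX
  have h2 := en_diff_le (ψ := ψ) (ζ := ζ) hψ.continuous.measurable hw hw'
  have h3 : 0 ≤ (en ψ w - enInf ψ ζ) + (en ψ w' - enInf ψ ζ) := by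
    have := enInf_le hw
    have := enInf_le hw'
    linarith
  rw [e]
  calc (∫ Z, (w (X + Z) - w' (X + Z)) * kr r Z) ^ 2 ≤ T * en ψ (fun Y => w Y - w' Y) := h1
    _ ≤ T * (2 * (en ψ w + en ψ w' - 2 * enInf ψ ζ)) := mul_le_mul_of_nonneg_left h2 hT0
    _ = 2 * T * ((en ψ w - enInf ψ ζ) + (en ψ w' - enInf ψ ζ)) := by ring
    _ ≤ (2 * T + 1) * ((en ψ w - enInf ψ ζ) + (en ψ w' - enInf ψ ζ)) :=
        mul_le_mul_of_nonneg_right (by linarith) h3

/-- For any two minimising sequences the averages have the same limit, and it exists: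
`en(w_m - w'_l) → 0` by `en_diff_le`; `avg_sq_le`. -/
theorem avg_cauchy {M : ℝ≥0} {ψ ζ : E d → ℝ} (hψ : LipschitzWith M ψ) {w w' : ℕ → P d → ℝ}
    (hw : IsMinSeq ψ ζ w) (hw' : IsMinSeq ψ ζ w') {X : P d} {r : ℝ} (hr : 0 < r)
    (hX : Metric.closedBall X r ⊆ above ψ) :
    ∃ L : ℝ, Tendsto (fun m => ∫ Z, w m (X + Z) * kr r Z) atTop (𝓝 L) ∧
      Tendsto (fun m => ∫ Z, w' m (X + Z) * kr r Z) atTop (𝓝 L) := by
  obtain ⟨K, hK, h⟩ := HE3_diff (ζ := ζ) hψ hr hX
  have t1 : Tendsto (fun m => en ψ (w m) - enInf ψ ζ) atTop (𝓝 0) := by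
    simpa using hw.2.sub_const (enInf ψ ζ)
  have t2 : Tendsto (fun m => en ψ (w' m) - enInf ψ ζ) atTop (𝓝 0) := by
    simpa using hw'.2.sub_const (enInf ψ ζ)
  have hcau : CauchySeq (fun m => ∫ Z, w m (X + Z) * kr r Z) := by
    rw [Metric.cauchySeq_iff]
    intro ε hε
    have hε2 : 0 < ε ^ 2 / (2 * K) := by positivity
    obtain ⟨N, hN⟩ := eventually_atTop.1 (t1.eventually (gt_mem_nhds hε2))
    refine ⟨N, fun m hm l hl => ?_⟩
    have h1 := h _ _ (hw.1 m) (hw.1 l)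
    have h2 : K * ((en ψ (w m) - enInf ψ ζ) + (en ψ (w l) - enInf ψ ζ)) < ε ^ 2 := by
      have e1 := hN m hm
      have e2 := hN l hl
      calc K * ((en ψ (w m) - enInf ψ ζ) + (en ψ (w l) - enInf ψ ζ))
          < K * (ε ^ 2 / (2 * K) + ε ^ 2 / (2 * K)) := by
            exact mul_lt_mul_of_pos_left (add_lt_add e1 e2) hK
        _ = ε ^ 2 := by field_simp; ring
    rw [Real.dist_eq]
    exact abs_lt_of_sq_lt_sq (lt_of_le_of_lt h1 h2) hε.le
  obtain ⟨L, hL⟩ := cauchySeq_tendsto_of_complete hcau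
  refine ⟨L, hL, ?_⟩
  have hdiff : Tendsto (fun m => (∫ Z, w' m (X + Z) * kr r Z) - ∫ Z, w m (X + Z) * kr r Z)
      atTop (𝓝 0) := by
    have hsq : Tendsto (fun m => ((∫ Z, w' m (X + Z) * kr r Z) -
        ∫ Z, w m (X + Z) * kr r Z) ^ 2) atTop (𝓝 0) := by
      refine squeeze_zero (fun m => sq_nonneg _) (fun m => h _ _ (hw'.1 m) (hw.1 m)) ?_
      simpa using (t2.add t1).const_mul K
    have := (Real.continuous_sqrt.tendsto 0).comp hsq
    simp only [Real.sqrt_zero, Function.comp_def, Real.sqrt_sq_eq_abs] at this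
    exact (tendsto_zero_iff_abs_tendsto_zero _).2 this
  simpa using hdiff.add hL

end HG
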