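import Pool.Agent.W_MP_825298_an.Var3c
import Pool.Agent.W_MP_825298_an.MV2b
import Pool.Agent.W_MP_825298_an.Newton1

open MeasureTheory Set Filter Topology
open scoped ENNReal NNReal BigOperators

namespace HG
variable {d : ℕ}

/-- derivative of `t ↦ (max t 0)^5` -/
theorem HE4_hasDerivAt_max (t : ℝ) :
    HasDerivAt (fun t : ℝ => (max t 0) ^ 5) (5 * (max t 0) ^ 4) t := by
  rcases lt_trichotomy t 0 with ht | ht | ht
  · have h1 : (fun t : ℝ => (max t 0) ^ 5) =ᶠ[𝓝 t] fun _ => (0 : ℝ) := by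
      filter_upwards [Iio_mem_nhds ht] with s hs
      rw [max_eq_right (le_of_lt hs)]
      norm_num
    have h2 : (5 : ℝ) * (max t 0) ^ 4 = 0 := by
      rw [max_eq_right ht.le]
      norm_num
    rw [h2]
    exact (hasDerivAt_const t (0 : ℝ)).congr_of_eventuallyEq h1
  · subst ht
    rw [hasDerivAt_iff_tendsto_slope]
    have h1 : Tendsto (fun s : ℝ => (max s 0) ^ 4) (𝓝[≠] (0 : ℝ)) (𝓝 (5 * (max (0 : ℝ) 0) ^ 4)) := by
      have hc : Continuous fun s : ℝ => (max s 0) ^ 4 := (continuous_id.max continuous_const).pow 4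
      have h2 := hc.tendsto 0
      have h3 : (5 : ℝ) * (max (0 : ℝ) 0) ^ 4 = (max (0 : ℝ) 0) ^ 4 := by norm_num
      rw [h3]
      exact h2.mono_left nhdsWithin_le_nhds
    refine h1.congr' ?_
    filter_upwards [self_mem_nhdsWithin] with s hs
    have hs' : s ≠ 0 := hs
    rw [slope_def_field]
    rcases le_or_gt s 0 with h | h
    · rw [max_eq_right h]
      simp
    · rw [max_eq_left h.le]
      field_simp
      simp
      ring
  · have h1 : (fun t : ℝ => (max t 0) ^ 5) =ᶠ[𝓝 t] fun s => s ^ 5 := by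
      filter_upwards [Ioi_mem_nhds ht] with s hs
      rw [max_eq_left (le_of_lt hs)]
    rw [max_eq_left ht.le]
    have h2 := (hasDerivAt_pow 5 t).congr_of_eventuallyEq h1
    simpa using h2

theorem HE4_pd_q5 (s : ℝ) (a : Ix d) (Z : P d) :
    pd a (q5 s) Z = - (10 * (max (s ^ 2 - sq Z) 0) ^ 4 * co a Z) := by
  have h1 : HasFDerivAt (fun Y : P d => s ^ 2 - sq Y) (-(∑ b : Ix d, (2 * co b Z) • Newton1_coL b)) Z :=
    (Newton1_hasFDerivAt_sq Z).const_sub _
  have h2 := (HE4_hasDerivAt_max (s ^ 2 - sq Z)).comp_hasFDerivAt Z h1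
  have h3 : fderiv ℝ (q5 s) Z = (5 * (max (s ^ 2 - sq Z) 0) ^ 4) •
      (-(∑ b : Ix d, (2 * co b Z) • Newton1_coL b)) := h2.fderiv
  unfold pd
  rw [h3]
  simp only [ContinuousLinearMap.smul_apply, ContinuousLinearMap.neg_apply,
    ContinuousLinearMap.sum_apply, Newton1_coL_apply, Newton1_co_eb, smul_eq_mul]
  simp
  ring

theorem HE4_pd_q5_le {s R : ℝ} (hs : 0 < s) (hsR : s ≤ R) (a : Ix d) (Z : P d) :
    (pd a (q5 s) Z) ^ 2 ≤ 100 * R ^ 18 := by
  have hR : 0 < R := hs.trans_le hsR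
  by_cases hZ : s ≤ ‖Z‖
  · have h1 : max (s ^ 2 - sq Z) 0 = 0 := by
      apply max_eq_right
      have := (norm_sq_le_sq Z).1
      have : s ^ 2 ≤ ‖Z‖ ^ 2 := by gcongr
      linarith
    rw [HE4_pd_q5, h1]
    have : (0 : ℝ) ≤ 100 * R ^ 18 := by positivity
    simpa using this
  · rw [not_le] at hZ
    rw [HE4_pd_q5]
    have h1 : max (s ^ 2 - sq Z) 0 ≤ R ^ 2 := by
      apply max_le _ (by positivity)
      have h2 := Newton1_sq_nonneg Z
      have : s ^ 2 ≤ R ^ 2 := by gcongr
      linarith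
    have h0 : 0 ≤ max (s ^ 2 - sq Z) 0 := le_max_right _ _
    have h2 : |co a Z| ≤ R := (Newton1_abs_co_le a Z).trans (hZ.le.trans hsR)
    have h3 : |(-(10 * (max (s ^ 2 - sq Z) 0) ^ 4 * co a Z))| ≤ 10 * (R ^ 2) ^ 4 * R := by
      rw [abs_neg, abs_mul, abs_mul, abs_of_nonneg (pow_nonneg h0 4), abs_of_nonneg (by norm_num : (0:ℝ) ≤ 10)]
      gcongr
    calc (-(10 * (max (s ^ 2 - sq Z) 0) ^ 4 * co a Z)) ^ 2
        = |(-(10 * (max (s ^ 2 - sq Z) 0) ^ 4 * co a Z))| ^ 2 := (sq_abs _).symm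
      _ ≤ (10 * (R ^ 2) ^ 4 * R) ^ 2 := by gcongr
      _ = 100 * R ^ 18 := by ring

theorem HE4_pd_translate (f : P d → ℝ) (X : P d) (a : Ix d) :
    pd a (fun Y => f (Y - X)) = fun Y => pd a f (Y - X) := by
  funext Y
  unfold pd
  rw [fderiv_comp_sub]

theorem HE4_lap_translate (f : P d → ℝ) (X Y : P d) :
    lap (fun Y => f (Y - X)) Y = lap f (Y - X) := by
  unfold lap
  refine Finset.sum_congr rfl fun a _ => ?_
  rw [HE4_pd_translate f X a, HE4_pd_translate (pd a f) X a]

/-- energy of the test functions -/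
theorem HE4_en_le (ψ : E d → ℝ) {s R : ℝ} (hs : 0 < s) (hsR : s ≤ R) (X : P d) :
    en ψ (fun Y => q5 s (Y - X)) ≤ (∑ _a : Ix d, 100 * R ^ 18) * volume.real (Metric.closedBall X R) := by
  have hR : 0 < R := hs.trans_le hsR
  unfold en
  set g : P d → ℝ := fun Y => ∑ a : Ix d, (pd a (fun Y => q5 s (Y - X)) Y) ^ 2 with hg
  have hg0 : ∀ Y, 0 ≤ g Y := fun Y => Finset.sum_nonneg fun a _ => sq_nonneg _
  have hg1 : ∀ Y, g Y ≤ ∑ _a : Ix d, 100 * R ^ 18 := by
    intro Y
    refine Finset.sum_le_sum fun a _ => ?_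
    rw [HE4_pd_translate]
    exact HE4_pd_q5_le hs hsR a _
  have hg2 : ∀ Y, Y ∉ Metric.closedBall X R → g Y = 0 := by
    intro Y hY
    rw [Metric.mem_closedBall, dist_eq_norm, not_le] at hY
    refine Finset.sum_eq_zero fun a _ => ?_
    rw [HE4_pd_translate]
    have h1 : max (s ^ 2 - sq (Y - X)) 0 = 0 := by
      apply max_eq_right
      have h2 := (norm_sq_le_sq (Y - X)).1
      have h3 : s ^ 2 ≤ ‖Y - X‖ ^ 2 := by
        have := hsR.trans hY.le
        gcongr
      linarith
    simp only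
    rw [HE4_pd_q5, h1]
    simp
  by_cases hint : Integrable g (volume.restrict (above ψ))
  · calc ∫ Y in above ψ, g Y ≤ ∫ Y in above ψ, (Metric.closedBall X R).indicator (fun _ => ∑ _a : Ix d, 100 * R ^ 18) Y := by
          refine integral_mono hint ?_ ?_
          · refine IntegrableOn.integrable_indicator ?_ Metric.isClosed_closedBall.measurableSet
            refine integrableOn_const ?_
            refine ne_of_lt ((Measure.restrict_apply_le _ _).trans_lt ?_)
            exact measure_closedBall_lt_top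
          · intro Y
            simp only
            by_cases hY : Y ∈ Metric.closedBall X R
            · rw [indicator_of_mem hY]
              exact hg1 Y
            · rw [indicator_of_notMem hY, hg2 Y hY]
      _ = (volume.restrict (above ψ)).real (Metric.closedBall X R) * (∑ _a : Ix d, 100 * R ^ 18) := by
          rw [integral_indicator Metric.isClosed_closedBall.measurableSet, setIntegral_const,
            smul_eq_mul]
      _ ≤ volume.real (Metric.closedBall X R) * (∑ _a : Ix d, 100 * R ^ 18) := by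
          refine mul_le_mul_of_nonneg_right ?_ (Finset.sum_nonneg fun a _ => by positivity)
          refine ENNReal.toReal_mono measure_closedBall_lt_top.ne (Measure.restrict_apply_le _ _)
      _ = _ := mul_comm _ _
  · rw [integral_undef hint]
    have : (0 : ℝ) ≤ ∑ _a : Ix d, 100 * R ^ 18 := Finset.sum_nonneg fun a _ => by positivity
    exact mul_nonneg this measureReal_nonneg

/-- the ordered case -/
theorem HE4_aux {M : ℝ≥0} {ψ ζ : E d → ℝ} (hψ : LipschitzWith M ψ) {w : ℕ → P d → ℝ}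
    (hw : IsMinSeq ψ ζ w) {X : P d} {r r' : ℝ} (hr : 0 < r) (hrr : r ≤ r')
    (hX' : Metric.closedBall X r' ⊆ above ψ) {L L' : ℝ}
    (hL : Tendsto (fun m => ∫ Z, w m (X + Z) * kr r Z) atTop (𝓝 L))
    (hL' : Tendsto (fun m => ∫ Z, w m (X + Z) * kr r' Z) atTop (𝓝 L')) : L = L' := by
  set K : ℝ := (∑ _a : Ix d, 100 * r' ^ 18) * volume.real (Metric.closedBall X r') with hK
  have hK0 : 0 ≤ K := mul_nonneg (Finset.sum_nonneg fun a _ => by positivity) measureReal_nonneg
  -- bound of the inner integral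
  have hinner : ∀ (m : ℕ) (s : ℝ), r ≤ s → s ≤ r' →
      |∫ Z, w m (X + Z) * lap (q5 s) Z| ≤ Real.sqrt ((en ψ (w m) - enInf ψ ζ) * K) := by
    intro m s hs hs'
    have hs0 : 0 < s := hr.trans_le hs
    have hsupp : Function.support (fun Y : P d => q5 s (Y - X)) ⊆ Metric.closedBall X s := by
      intro Y hY
      rw [Metric.mem_closedBall, dist_eq_norm]
      by_contra h
      exact hY (q5_eq_zero hs0 (not_le.1 h).le)
    have htsupp : tsupport (fun Y : P d => q5 s (Y - X)) ⊆ Metric.closedBall X s :=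
      closure_minimal hsupp Metric.isClosed_closedBall
    have hcd : ContDiff ℝ 2 (fun Y : P d => q5 s (Y - X)) := by
      have h1 : ContDiff ℝ 2 (q5 (d := d) s) := (q5_contDiff s).of_le (by norm_num)
      exact h1.comp (contDiff_id.sub contDiff_const)
    have hcs : HasCompactSupport (fun Y : P d => q5 s (Y - X)) :=
      HasCompactSupport.of_support_subset_isCompact (isCompact_closedBall X s) hsupp
    have h1 := first_variation hψ (hw.1 m) hcd hcs
      (htsupp.trans ((Metric.closedBall_subset_closedBall hs').trans hX'))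
    have h2 : ∫ Z, w m (X + Z) * lap (q5 s) Z = ∫ Y, w m Y * lap (fun Y => q5 s (Y - X)) Y := by
      haveI : (volume : Measure (P d)).IsAddLeftInvariant := by
        rw [Measure.volume_eq_prod]
        infer_instance
      rw [← integral_add_left_eq_self (fun Y => w m Y * lap (fun Y => q5 s (Y - X)) Y) X]
      refine integral_congr_ae (Filter.Eventually.of_forall fun Z => ?_)
      simp only
      rw [HE4_lap_translate, add_sub_cancel_left]
    rw [h2]
    refine Real.abs_le_sqrt (h1.trans ?_)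
    refine mul_le_mul_of_nonneg_left (HE4_en_le ψ hs0 hs' X) ?_
    have := enInf_le (hw.1 m)
    linarith
  -- bound of the difference
  have hdiff : ∀ m : ℕ, ‖(∫ Z, w m (X + Z) * kr r' Z) - ∫ Z, w m (X + Z) * kr r Z‖ ≤
      (|cM d| * (r ^ (d + 10))⁻¹ / 10 * Real.sqrt ((en ψ (w m) - enInf ψ ζ) * K)) * |r' - r| := by
    intro m
    obtain ⟨Kl, hKl⟩ := (hw.1 m).lip
    have hgi : IntegrableOn (w m) (Metric.closedBall X r') :=
      hKl.continuous.continuousOn.integrableOn_compact (isCompact_closedBall X r')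
    rw [kr_diff hgi hr hrr le_rfl]
    refine intervalIntegral.norm_integral_le_of_norm_le_const ?_
    intro s hs
    rw [uIoc_of_le hrr] at hs
    have hs0 : 0 < s := hr.trans hs.1
    rw [norm_mul, Real.norm_eq_abs, Real.norm_eq_abs]
    refine mul_le_mul ?_ (hinner m s hs.1.le hs.2) (abs_nonneg _) (by positivity)
    rw [abs_div, abs_mul, abs_of_pos (by norm_num : (0 : ℝ) < 10), abs_of_pos (by positivity : 0 < (s ^ (d + 10))⁻¹)]
    have hs1 := hs.1.le
    gcongr
  have hlim : Tendsto (fun m => (|cM d| * (r ^ (d + 10))⁻¹ / 10 *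
      Real.sqrt ((en ψ (w m) - enInf ψ ζ) * K)) * |r' - r|) atTop (𝓝 0) := by
    have h1 : Tendsto (fun m => (en ψ (w m) - enInf ψ ζ) * K) atTop (𝓝 ((enInf ψ ζ - enInf ψ ζ) * K)) :=
      (hw.2.sub_const _).mul_const _
    have h2 := (((Real.continuous_sqrt.tendsto _).comp h1).const_mul
      (|cM d| * (r ^ (d + 10))⁻¹ / 10)).mul_const |r' - r|
    simpa using h2
  have h0 : Tendsto (fun m => (∫ Z, w m (X + Z) * kr r' Z) - ∫ Z, w m (X + Z) * kr r Z) atTop (𝓝 0) :=
    squeeze_zero_norm hdiff hlim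
  have h1 := tendsto_nhds_unique h0 (hL'.sub hL)
  linarith

/-- The limit does not depend on the radius (`kr_diff`, `first_variation` for `θ = q5 s (· - X)`, dominated convergence in `s`). -/
theorem avg_radius {M : ℝ≥0} {ψ ζ : E d → ℝ} (hψ : LipschitzWith M ψ) {w : ℕ → P d → ℝ}
    (hw : IsMinSeq ψ ζ w) (hb : ∀ m X, 0 ≤ w m X ∧ w m X ≤ 1) {X : P d} {r r' : ℝ} (hr : 0 < r) (hr' : 0 < r')
    (hX : Metric.closedBall X r ⊆ above ψ) (hX' : Metric.closedBall X r' ⊆ above ψ) {L L' : ℝ}
    (hL : Tendsto (fun m => ∫ Z, w m (X + Z) * kr r Z) atTop (𝓝 L))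
    (hL' : Tendsto (fun m => ∫ Z, w m (X + Z) * kr r' Z) atTop (𝓝 L')) : L = L' := by
  rcases le_total r r' with h | h
  · exact HE4_aux hψ hw hr h hX' hL hL'
  · exact (HE4_aux hψ hw hr' h hX hL' hL).symm

end HG
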