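import Pool.Agent.W_MP_825298_an.MV1b

open MeasureTheory Set Filter Topology
open scoped ENNReal NNReal BigOperators

namespace HG
variable {d : ℕ}

/-- approximate identity -/
theorem kr_tendsto {f : P d → ℝ} {X : P d} {R : ℝ} (hR : 0 < R) (hf : IntegrableOn f (Metric.closedBall X R))
    (hc : ContinuousAt f X) :
    Tendsto (fun r : ℝ => ∫ Z, f (X + Z) * kr r Z) (𝓝[>] 0) (𝓝 (f X)) := by
  rw [Metric.tendsto_nhds]
  intro ε hε
  rw [Metric.continuousAt_iff] at hc
  obtain ⟨δ, hδ, hc⟩ := hc (ε / 2) (by positivity)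
  have hmem : Ioo (0 : ℝ) (min δ R) ∈ 𝓝[>] (0 : ℝ) := Ioo_mem_nhdsGT (lt_min hδ hR)
  filter_upwards [hmem] with r hr
  have hr0 : 0 < r := hr.1
  have hrδ : r < δ := lt_of_lt_of_le hr.2 (min_le_left _ _)
  have hrR : r < R := lt_of_lt_of_le hr.2 (min_le_right _ _)
  obtain ⟨C, hC, hCb⟩ := kr_bounds d
  have hG := MV1b_cut_integrable hf
  have hbd : ∀ᵐ Z : P d, ‖kr r Z‖ ≤ C / r ^ (d + 1) := Eventually.of_forall fun Z => by
    rw [Real.norm_of_nonneg (kr_nonneg hr0 Z)]
    exact (hCb r Z hr0).1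
  have hi : Integrable (fun Z => f (X + Z) * kr r Z) := by
    refine (hG.mul_bdd (kr_contDiff r).continuous.aestronglyMeasurable hbd).congr
      (Eventually.of_forall fun Z => ?_)
    exact (MV1b_cut_mul (fun Z hZ => kr_eq_zero hr0 (hrR.le.trans hZ.le)) Z).symm
  have hki : Integrable (kr (d := d) r) := by
    refine (kr_contDiff r).continuous.integrable_of_hasCompactSupport ?_
    refine HasCompactSupport.intro (isCompact_closedBall (0 : P d) r) fun Z hZ => ?_
    rw [mem_closedBall_zero_iff, not_le] at hZ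
    exact kr_eq_zero hr0 hZ.le
  have e1 : (∫ Z, f (X + Z) * kr r Z) - f X = ∫ Z, (f (X + Z) - f X) * kr r Z := by
    have h1 : f X = ∫ Z, f X * kr (d := d) r Z := by
      rw [integral_const_mul, kr_integral hr0, mul_one]
    have h2 : ∫ Z, (f (X + Z) - f X) * kr r Z =
        (∫ Z, f (X + Z) * kr r Z) - ∫ Z : P d, f X * kr r Z := by
      rw [← integral_sub hi (hki.const_mul (f X))]
      refine integral_congr_ae (Eventually.of_forall fun Z => ?_)
      simp only
      ring
    rw [h2, ← h1]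
  rw [Real.dist_eq, e1, ← Real.norm_eq_abs]
  have h3 : ‖∫ Z, (f (X + Z) - f X) * kr r Z‖ ≤ ∫ Z, ε / 2 * kr (d := d) r Z := by
    refine norm_integral_le_of_norm_le (hki.const_mul _) (Eventually.of_forall fun Z => ?_)
    rw [norm_mul, Real.norm_of_nonneg (kr_nonneg hr0 Z)]
    rcases lt_or_ge ‖Z‖ r with h | h
    · refine mul_le_mul_of_nonneg_right ?_ (kr_nonneg hr0 Z)
      rw [Real.norm_eq_abs, ← Real.dist_eq]
      refine (hc ?_).le
      rw [dist_self_add_left]
      exact h.trans hrδ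
    · rw [kr_eq_zero hr0 h]
      simp
  rw [integral_const_mul, kr_integral hr0, mul_one] at h3
  linarith

end HG
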