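import Pool.Agent.W_MP_825298_an.HE1
import Pool.Agent.W_MP_825298_an.HE3
import Pool.Agent.W_MP_825298_an.HE4
import Pool.Agent.W_MP_825298_an.MV2c

open MeasureTheory Set Filter Topology
open scoped ENNReal NNReal BigOperators

namespace HG
variable {d : ℕ}

/-- `H` is the limit of averages of all minimising sequences -/
def IsSol (ψ ζ : E d → ℝ) (H : P d → ℝ) : Prop :=
  MVP (above ψ) H ∧ ∀ w : ℕ → P d → ℝ, IsMinSeq ψ ζ w → ∀ (X : P d) (r : ℝ), 0 < r →
      Metric.closedBall X r ⊆ above ψ → Tendsto (fun m => ∫ Z, w m (X + Z) * kr r Z) atTop (𝓝 (H X))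

namespace HE5

theorem kr_hcs {r : ℝ} (hr : 0 < r) : HasCompactSupport (kr (d := d) r) := by
  apply HasCompactSupport.of_support_subset_isCompact (isCompact_closedBall (0 : P d) r)
  intro Z hZ
  by_contra h
  apply hZ
  apply kr_eq_zero hr
  simp only [Metric.mem_closedBall, dist_zero_right, not_le] at h
  exact h.le

theorem kr_cont (r : ℝ) : Continuous (kr (d := d) r) := (kr_contDiff r).continuous

theorem kr_int {r : ℝ} (hr : 0 < r) : Integrable (kr (d := d) r) :=
  (kr_cont r).integrable_of_hasCompactSupport (kr_hcs hr)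

theorem kr_lip {r : ℝ} (hr : 0 < r) : ∃ K : ℝ≥0, LipschitzWith K (kr (d := d) r) :=
  ContDiff.lipschitzWith_of_hasCompactSupport (kr_hcs hr) (kr_contDiff r) (by norm_num)

/-- average -/
noncomputable def av (w : P d → ℝ) (r : ℝ) (X : P d) : ℝ := ∫ Z, w (X + Z) * kr r Z

theorem av_abs_le {w : P d → ℝ} (hw : ∀ X, |w X| ≤ 1) {r : ℝ} (hr : 0 < r) (X : P d) : |av w r X| ≤ 1 := by
  unfold av
  rw [← Real.norm_eq_abs]
  calc ‖∫ Z, w (X + Z) * kr r Z‖ ≤ ∫ Z : P d, kr r Z := by
        apply norm_integral_le_of_norm_le (kr_int hr)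
        filter_upwards with Z
        rw [norm_mul, Real.norm_eq_abs, Real.norm_eq_abs, abs_of_nonneg (kr_nonneg hr Z)]
        exact mul_le_of_le_one_left (kr_nonneg hr Z) (hw _)
    _ = 1 := kr_integral hr

theorem av_lip {w : P d → ℝ} (hc : Continuous w) (hw : ∀ X, |w X| ≤ 1) {r : ℝ} (hr : 0 < r)
    {K : ℝ≥0} (hK : LipschitzWith K (kr (d := d) r)) (X0 X X' : P d) (hX : X ∈ Metric.closedBall X0 r)
    (hX' : X' ∈ Metric.closedBall X0 r) :
    |av w r X - av w r X'| ≤ K * (volume (Metric.closedBall X0 (2 * r))).toReal * ‖X - X'‖ := by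
  unfold av
  rw [kr_conv_comm, kr_conv_comm]
  have hi : ∀ Y : P d, Integrable (fun Z => w Z * kr r (Z - Y)) := by
    intro Y
    apply Continuous.integrable_of_hasCompactSupport
    · exact hc.mul ((kr_cont r).comp (continuous_id.sub continuous_const))
    · apply HasCompactSupport.mul_left
      exact (kr_hcs hr).comp_homeomorph (Homeomorph.subRight Y)
  rw [← integral_sub (hi X) (hi X')]
  rw [← setIntegral_eq_integral_of_forall_compl_eq_zero (s := Metric.closedBall X0 (2 * r))]
  · rw [← Real.norm_eq_abs]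
    have := norm_setIntegral_le_of_norm_le_const (μ := volume) (s := Metric.closedBall X0 (2 * r))
      (f := fun Z => w Z * kr r (Z - X) - w Z * kr r (Z - X')) (C := K * ‖X - X'‖)
      (measure_closedBall_lt_top) (fun Z _ => by
        rw [← mul_sub, norm_mul, Real.norm_eq_abs]
        have h1 := hK.dist_le_mul (Z - X) (Z - X')
        rw [dist_eq_norm, dist_eq_norm] at h1
        have h2 : ‖Z - X - (Z - X')‖ = ‖X - X'‖ := by
          rw [sub_sub_sub_cancel_left, norm_sub_rev]
        rw [h2] at h1
        calc |w Z| * ‖kr r (Z - X) - kr r (Z - X')‖ ≤ 1 * (K * ‖X - X'‖) :=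
              mul_le_mul (hw Z) h1 (norm_nonneg _) (by norm_num)
          _ = _ := one_mul _)
    refine this.trans (le_of_eq ?_)
    rw [Measure.real]
    ring
  · intro Z hZ
    have key : ∀ Y ∈ Metric.closedBall X0 r, kr r (Z - Y) = 0 := by
      intro Y hY
      apply kr_eq_zero hr
      simp only [Metric.mem_closedBall, not_le] at hZ hY
      have := dist_triangle Z Y X0
      rw [dist_eq_norm Z Y] at this
      linarith
    simp only [key X hX, key X' hX', mul_zero, sub_zero]

theorem av_cont {w : P d → ℝ} (hc : Continuous w) (hw : ∀ X, |w X| ≤ 1) {r : ℝ} (hr : 0 < r) :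
    Continuous (av w r) := by
  obtain ⟨K, hK⟩ := kr_lip (d := d) hr
  rw [continuous_iff_continuousAt]
  intro X0
  rw [Metric.continuousAt_iff]
  intro ε hε
  set L : ℝ := K * (volume (Metric.closedBall X0 (2 * r))).toReal with hL
  have hL0 : 0 ≤ L := by positivity
  refine ⟨min r (ε / (L + 1)), by positivity, fun {X} hX => ?_⟩
  have h1 : dist X X0 < r := lt_of_lt_of_le hX (min_le_left _ _)
  have h2 : dist X X0 < ε / (L + 1) := lt_of_lt_of_le hX (min_le_right _ _)
  have h3 := av_lip hc hw hr hK X0 X X0 (Metric.mem_closedBall.2 h1.le) (Metric.mem_closedBall_self hr.le)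
  rw [← hL] at h3
  rw [Real.dist_eq]
  rw [dist_eq_norm] at h2
  have h4 : (L + 1) * ‖X - X0‖ < ε := by
    rw [lt_div_iff₀ (by positivity)] at h2
    linarith
  have h5 : 0 ≤ ‖X - X0‖ := norm_nonneg _
  nlinarith

theorem av_swap {w : P d → ℝ} (hc : Continuous w) {r s : ℝ} (hr : 0 < r) (hs : 0 < s) (X : P d) :
    ∫ Z', av w s (X + Z') * kr r Z' = ∫ Z, av w r (X + Z) * kr s Z := by
  unfold av
  have h1 : ∀ Z' : P d, (∫ Z, w (X + Z' + Z) * kr s Z) * kr r Z'
      = ∫ Z, w (X + Z' + Z) * kr s Z * kr r Z' := fun Z' => by rw [integral_mul_const]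
  have h2 : ∀ Z : P d, (∫ Z', w (X + Z + Z') * kr r Z') * kr s Z
      = ∫ Z', w (X + Z + Z') * kr r Z' * kr s Z := fun Z => by rw [integral_mul_const]
  simp_rw [h1, h2]
  rw [integral_integral_swap]
  · congr 1
    ext Z
    congr 1
    ext Z'
    rw [show X + Z' + Z = X + Z + Z' by abel]
    ring
  · apply Continuous.integrable_of_hasCompactSupport
    · have e1 : Continuous (fun p : P d × P d => w (X + p.1 + p.2)) :=
        hc.comp ((continuous_const.add continuous_fst).add continuous_snd)
      have e2 : Continuous (fun p : P d × P d => kr s p.2) := (kr_cont s).comp continuous_snd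
      have e3 : Continuous (fun p : P d × P d => kr r p.1) := (kr_cont r).comp continuous_fst
      exact (e1.mul e2).mul e3
    · apply HasCompactSupport.of_support_subset_isCompact
        ((isCompact_closedBall (0 : P d) r).prod (isCompact_closedBall (0 : P d) s))
      intro p hp
      by_contra h
      apply hp
      rw [Set.mem_prod, not_and_or] at h
      simp only [Function.uncurry]
      rcases h with h | h
      · simp only [Metric.mem_closedBall, dist_zero_right, not_le] at h
        rw [kr_eq_zero hr h.le, mul_zero]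
      · simp only [Metric.mem_closedBall, dist_zero_right, not_le] at h
        rw [kr_eq_zero hs h.le, mul_zero, zero_mul]

end HE5

open HE5 in
/-- The solution `H`. Define `H X` as the limit of the averages over some admissible radius.
Continuity on `above ψ`: for fixed small `r` the functions `X ↦ ∫ w_m(X+Z) kr r Z` are continuous and converge locally uniformly
(`avg_sq_le` applied to `w_m - w_l`).  Mean value property: by Fubini
`∫ kr r' Z' (w_m * k_r)(X+Z') dZ' = ∫ kr r Z (w_m * k_r')(X+Z) dZ`; let `m → ∞` (all bounded by `1`):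
`∫ kr r' Z' H(X+Z') dZ' = ∫ kr r Z H(X+Z) dZ` for small `r, r'`; let `r → 0` (`kr_tendsto`).  For a general ball
`closedBall X r' ⊆ above ψ` choose `r` so small that `closedBall X (r + r') ⊆ above ψ` (compactness). -/
theorem H_exists {M : ℝ≥0} {ψ ζ : E d → ℝ} (hψ : LipschitzWith M ψ) (hζ : BdFun ζ) :
    ∃ H : P d → ℝ, IsSol ψ ζ H := by
  obtain ⟨w, hw, hb⟩ := minSeq_exists hψ hζ
  have hwc : ∀ m, Continuous (w m) := by
    intro m
    obtain ⟨K, hK⟩ := (hw.1 m).toLipB.lip
    exact hK.continuous
  have hwb : ∀ m X, |w m X| ≤ 1 := by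
    intro m X
    rw [abs_of_nonneg (hb m X).1]
    exact (hb m X).2
  have hopen : IsOpen (above ψ) := by
    unfold above
    exact isOpen_lt (hψ.continuous.comp continuous_fst) continuous_snd
  have claim : ∀ X : P d, ∃ L : ℝ, ∀ r : ℝ, 0 < r → Metric.closedBall X r ⊆ above ψ →
      Tendsto (fun m => av (w m) r X) atTop (𝓝 L) := by
    intro X
    by_cases h : ∃ r : ℝ, 0 < r ∧ Metric.closedBall X r ⊆ above ψ
    · obtain ⟨r, hr, hX⟩ := h
      obtain ⟨L, hL, -⟩ := avg_cauchy hψ hw hw hr hX
      refine ⟨L, fun r' hr' hX' => ?_⟩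
      obtain ⟨L', hL', -⟩ := avg_cauchy hψ hw hw hr' hX'
      have := avg_radius hψ hw hb hr hr' hX hX' hL hL'
      rw [this]
      exact hL'
    · refine ⟨0, fun r hr hX => absurd ⟨r, hr, hX⟩ h⟩
  choose H hH using claim
  have hcont : ContinuousOn H (above ψ) := by
    intro X0 hX0
    apply ContinuousAt.continuousWithinAt
    obtain ⟨ρ, hρ, hball⟩ := Metric.isOpen_iff.1 hopen X0 hX0
    set r : ℝ := ρ / 3 with hrdef
    have hr : 0 < r := by positivity
    have hsub : ∀ X ∈ Metric.closedBall X0 r, Metric.closedBall X r ⊆ above ψ := by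
      intro X hX Y hY
      apply hball
      rw [Metric.mem_closedBall] at hX hY
      rw [Metric.mem_ball]
      have := dist_triangle Y X X0
      linarith
    obtain ⟨K, hK⟩ := kr_lip (d := d) hr
    set L : ℝ := K * (volume (Metric.closedBall X0 (2 * r))).toReal with hL
    have hL0 : 0 ≤ L := by positivity
    have hlip : ∀ X ∈ Metric.closedBall X0 r, |H X - H X0| ≤ L * ‖X - X0‖ := by
      intro X hX
      have t1 := hH X r hr (hsub X hX)
      have t2 := hH X0 r hr (hsub X0 (Metric.mem_closedBall_self hr.le))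
      have t3 := (t1.sub t2).abs
      apply le_of_tendsto t3
      filter_upwards with m
      exact av_lip (hwc m) (hwb m) hr hK X0 X X0 hX (Metric.mem_closedBall_self hr.le)
    rw [Metric.continuousAt_iff]
    intro ε hε
    refine ⟨min r (ε / (L + 1)), by positivity, fun {X} hX => ?_⟩
    have h1 : dist X X0 < r := lt_of_lt_of_le hX (min_le_left _ _)
    have h2 : dist X X0 < ε / (L + 1) := lt_of_lt_of_le hX (min_le_right _ _)
    have h3 := hlip X (Metric.mem_closedBall.2 h1.le)
    rw [Real.dist_eq]
    rw [dist_eq_norm] at h2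
    have h4 : (L + 1) * ‖X - X0‖ < ε := by
      rw [lt_div_iff₀ (by positivity)] at h2
      linarith
    have h5 : 0 ≤ ‖X - X0‖ := norm_nonneg _
    nlinarith
  refine ⟨H, ⟨hcont, ?_⟩, ?_⟩
  · -- mean value property
    have T : ∀ (X : P d) (s r : ℝ), 0 < s → 0 < r → Metric.closedBall X (s + r) ⊆ above ψ →
        Tendsto (fun m => ∫ Z, av (w m) s (X + Z) * kr r Z) atTop (𝓝 (∫ Z, H (X + Z) * kr r Z)) := by
      intro X s r hs hr hX
      apply tendsto_integral_of_dominated_convergence (fun Z => kr r Z)
      · intro m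
        exact (((av_cont (hwc m) (hwb m) hs).comp (continuous_const.add continuous_id)).mul
          (kr_cont r)).aestronglyMeasurable
      · exact kr_int hr
      · intro m
        filter_upwards with Z
        rw [norm_mul, Real.norm_eq_abs, Real.norm_eq_abs, abs_of_nonneg (kr_nonneg hr Z)]
        exact mul_le_of_le_one_left (kr_nonneg hr Z) (av_abs_le (hwb m) hs _)
      · filter_upwards with Z
        by_cases hZ : r ≤ ‖Z‖
        · simp only [kr_eq_zero hr hZ, mul_zero]
          exact tendsto_const_nhds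
        · push Not at hZ
          apply Tendsto.mul_const
          apply hH (X + Z) s hs
          intro Y hY
          apply hX
          rw [Metric.mem_closedBall] at hY ⊢
          have h1 := dist_triangle Y (X + Z) X
          have h2 : dist (X + Z) X = ‖Z‖ := by
            rw [dist_eq_norm, add_sub_cancel_left]
          linarith
    intro X r hr hX
    obtain ⟨δ, hδ, hsub⟩ := (isCompact_closedBall X r).exists_cthickening_subset_open hopen hX
    rw [cthickening_closedBall hδ.le hr.le] at hsub
    have key : ∀ s : ℝ, 0 < s → s ≤ δ → ∫ Z, H (X + Z) * kr r Z = ∫ Z, H (X + Z) * kr s Z := by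
      intro s hs hsδ
      have h1 := T X s r hs hr ((Metric.closedBall_subset_closedBall (by linarith)).trans hsub)
      have h2 := T X r s hr hs ((Metric.closedBall_subset_closedBall (by linarith)).trans hsub)
      have h3 : (fun m => ∫ Z, av (w m) s (X + Z) * kr r Z) = fun m => ∫ Z, av (w m) r (X + Z) * kr s Z := by
        ext m
        exact av_swap (hwc m) hr hs X
      rw [h3] at h1
      exact tendsto_nhds_unique h1 h2
    have hXm : X ∈ above ψ := hX (Metric.mem_closedBall_self hr.le)
    have hi : IntegrableOn H (Metric.closedBall X r) :=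
      (hcont.mono hX).integrableOn_compact (isCompact_closedBall X r)
    have t := kr_tendsto hr hi (hcont.continuousAt (hopen.mem_nhds hXm))
    have t' : Tendsto (fun s : ℝ => ∫ Z, H (X + Z) * kr s Z) (𝓝[>] 0) (𝓝 (∫ Z, H (X + Z) * kr r Z)) := by
      apply tendsto_const_nhds.congr'
      have : Ioc (0 : ℝ) δ ∈ 𝓝[>] (0 : ℝ) := Ioc_mem_nhdsGT hδ
      filter_upwards [this] with s hs
      exact key s hs.1 hs.2
    exact tendsto_nhds_unique t t'
  · -- all minimising sequences
    intro w' hw' X r hr hX
    obtain ⟨L, hL, hL'⟩ := avg_cauchy hψ hw hw' hr hX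
    have := tendsto_nhds_unique hL (hH X r hr hX)
    rw [← this]
    exact hL'

end HG
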