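import Pool.Agent.W_MP_825298_an.Var2a
import Pool.Agent.W_MP_825298_an.Var1b

open MeasureTheory Set Filter Topology
open scoped ENNReal NNReal BigOperators

namespace HG
variable {d : ℕ}

/-- Rademacher -/
theorem Var2c_diff {w : P d → ℝ} (hw : LipB w) : ∀ᵐ X : P d, DifferentiableAt ℝ w X := by
  obtain ⟨K, hK⟩ := hw.lip
  have : (volume : Measure (P d)).IsAddHaarMeasure :=
    inferInstanceAs ((volume : Measure (Fin d → ℝ)).prod (volume : Measure ℝ)).IsAddHaarMeasure
  exact hK.ae_differentiableAt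

/-- chain rule for a positive part: `v = max h 0` with `h`, `v` differentiable at `X`. -/
theorem Var2c_pos {h : P d → ℝ} {X : P d} (hh : DifferentiableAt ℝ h X) (a : Ix d) :
    (0 < h X → pd a (fun Y => max (h Y) 0) X = pd a h X) ∧
    (h X ≤ 0 → pd a (fun Y => max (h Y) 0) X = 0) := by
  constructor
  · intro hpos
    have hev : (fun Y => max (h Y) 0) =ᶠ[𝓝 X] h := by
      filter_upwards [hh.continuousAt.eventually (lt_mem_nhds hpos)] with Y hY
      exact max_eq_left hY.le
    unfold pd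
    rw [hev.fderiv_eq]
  · intro hle
    have hmin : IsLocalMin (fun Y => max (h Y) 0) X := by
      filter_upwards with Y
      simp only [max_eq_right hle]
      exact le_max_right _ _
    unfold pd
    rw [hmin.fderiv_eq_zero]
    rfl

/-- the key identity: `∇b·∇v = ∇w·∇v ∓ |∇v|²`, `v = (w-b)_+` or `(b-w)_+`. -/
theorem Var2c_key {w b : P d → ℝ} {X : P d} (hw : DifferentiableAt ℝ w X)
    (hb : DifferentiableAt ℝ b X) (a : Ix d) :
    (pd a b X * pd a (fun Y => max (w Y - b Y) 0) X =
      pd a w X * pd a (fun Y => max (w Y - b Y) 0) X - pd a (fun Y => max (w Y - b Y) 0) X ^ 2) ∧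
    (pd a b X * pd a (fun Y => max (b Y - w Y) 0) X =
      pd a w X * pd a (fun Y => max (b Y - w Y) 0) X + pd a (fun Y => max (b Y - w Y) 0) X ^ 2) := by
  have h1 : pd a (fun Y => w Y - b Y) X = pd a w X - pd a b X := by
    unfold pd
    rw [fderiv_fun_sub hw hb]
    rfl
  have h2 : pd a (fun Y => b Y - w Y) X = pd a b X - pd a w X := by
    unfold pd
    rw [fderiv_fun_sub hb hw]
    rfl
  constructor
  · have h3 := Var2c_pos (hw.fun_sub hb) a
    rcases lt_or_ge 0 (w X - b X) with hp | hn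
    · rw [h3.1 hp, h1]; ring
    · rw [h3.2 hn]; ring
  · have h3 := Var2c_pos (hb.fun_sub hw) a
    rcases lt_or_ge 0 (b X - w X) with hp | hn
    · rw [h3.1 hp, h2]; ring
    · rw [h3.2 hn]; ring

theorem Var2c_lip_max {f : P d → ℝ} {K : ℝ≥0} (hf : LipschitzWith K f) :
    LipschitzWith K (fun X => max (f X) 0) := by
  simpa using hf.max_const 0

/-- Upper barrier. With `v = (w-b)_+` one has `∇v = 1_{v>0} ∇(w-b)` a.e. (at a point with `v = 0` where `v` is
differentiable the gradient vanishes, as `v` has a minimum there), `min w b = w - v`,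
`en w - en (w-v) = ∫ 2∇w·∇v - |∇v|² = ∫ |∇v|² + 2∫∇b·∇v ≥ 2 ∫∇b·∇v = -2∫ v Δb ≥ 0` (`ibp_var`). -/
theorem comp_min {M : ℝ≥0} {ψ ζ : E d → ℝ} (hψ : LipschitzWith M ψ) {w b : P d → ℝ} (hw : Comp ψ ζ w)
    (hb : ContDiff ℝ 2 b) (hbl : ∃ K : ℝ≥0, LipschitzWith K b) (hb0 : ∀ X, 0 ≤ b X)
    (hlap : ∀ X ∈ above ψ, lap b X ≤ 0) (hbd : ∀ x, ζ x ≤ b (x, ψ x)) :
    Comp ψ ζ (fun X => min (w X) (b X)) ∧ en ψ (fun X => min (w X) (b X)) ≤ en ψ w := by
  obtain ⟨K, hK⟩ := hw.lip
  obtain ⟨L, hL⟩ := hbl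
  obtain ⟨B, hB⟩ := hw.supp
  have hwB : LipB w := hw.toLipB
  set v : P d → ℝ := fun X => max (w X - b X) 0 with hv
  have hvB : LipB v := by
    refine ⟨⟨K + L, Var2c_lip_max (hK.sub hL)⟩, B, fun X hX => ?_⟩
    have h1 := hB X hX
    have h2 := hb0 X
    simp only [hv, h1]
    exact max_eq_right (by linarith)
  have hu : (fun X => min (w X) (b X)) = fun X => w X - v X := by
    funext X
    simp only [hv]
    rcases le_total (w X) (b X) with h | h
    · rw [min_eq_left h, max_eq_right (by linarith)]; ring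
    · rw [min_eq_right h, max_eq_left (by linarith)]; ring
  have huB : LipB (fun X => w X - v X) := hwB.sub hvB
  have hv0 : ∀ x, v (x, ψ x) = 0 := by
    intro x
    simp only [hv, hw.bd x]
    exact max_eq_right (by linarith [hbd x])
  have hms : MeasurableSet (above ψ) :=
    measurableSet_lt (hψ.continuous.measurable.comp measurable_fst) measurable_snd
  refine ⟨?_, ?_⟩
  · refine ⟨by rw [hu]; exact huB, fun x => ?_⟩
    show min (w (x, ψ x)) (b (x, ψ x)) = ζ x
    rw [hw.bd x]
    exact min_eq_left (hbd x)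
  · rw [hu]
    have hibp := ibp_var hψ hvB hv0 hb
    have hpos : 0 ≤ ∫ X in above ψ, ∑ a : Ix d, pd a b X * pd a v X := by
      rw [hibp]
      rw [← integral_neg]
      refine setIntegral_nonneg hms fun X hX => ?_
      have h1 := hlap X hX
      have h2 : 0 ≤ v X := le_max_right _ _
      nlinarith
    have hI1 := (lipB_integrable_sq hwB).integrableOn (s := above ψ)
    have hI2 := (lipB_integrable_sq hvB).integrableOn (s := above ψ)
    have hI3 := (lipB_integrable_mul hwB hvB).integrableOn (s := above ψ)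
    have hbdiff : ∀ X, DifferentiableAt ℝ b X := fun X =>
      (hb.differentiable (by norm_num)).differentiableAt
    have e1 : ∫ X in above ψ, ∑ a : Ix d, pd a b X * pd a v X =
        ∫ X in above ψ, ((∑ a : Ix d, pd a w X * pd a v X) - ∑ a : Ix d, pd a v X ^ 2) := by
      refine setIntegral_congr_ae hms ?_
      filter_upwards [Var2c_diff hwB] with X hX _
      rw [← Finset.sum_sub_distrib]
      exact Finset.sum_congr rfl fun a _ => (Var2c_key hX (hbdiff X) a).1
    rw [integral_sub hI3 hI2] at e1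
    have e2 : en ψ (fun X => w X - v X) =
        ∫ X in above ψ, (((∑ a : Ix d, pd a w X ^ 2) - 2 * (∑ a : Ix d, pd a w X * pd a v X)) +
          ∑ a : Ix d, pd a v X ^ 2) := by
      unfold en
      refine setIntegral_congr_ae hms ?_
      filter_upwards [lipB_pd_sub hwB hvB] with X hX _
      rw [Finset.mul_sum, ← Finset.sum_sub_distrib, ← Finset.sum_add_distrib]
      refine Finset.sum_congr rfl fun a _ => ?_
      rw [hX a]
      ring
    have hI4 : IntegrableOn (fun X => (∑ a : Ix d, pd a w X ^ 2) -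
        2 * (∑ a : Ix d, pd a w X * pd a v X)) (above ψ) := hI1.sub (hI3.const_mul 2)
    rw [integral_add hI4 hI2, integral_sub hI1 (hI3.const_mul 2), integral_const_mul] at e2
    have e3 : 0 ≤ ∫ X in above ψ, ∑ a : Ix d, pd a v X ^ 2 := en_nonneg ψ v
    have e4 : en ψ w = ∫ X in above ψ, ∑ a : Ix d, pd a w X ^ 2 := rfl
    linarith

/-- Lower barrier (same argument with `v = (b-w)_+`; bounded support because `w ≥ 0` and `b ≤ 0` far away). -/
theorem comp_max {M : ℝ≥0} {ψ ζ : E d → ℝ} (hψ : LipschitzWith M ψ) {w b : P d → ℝ} (hw : Comp ψ ζ w)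
    (hw0 : ∀ X, 0 ≤ w X) (hb : ContDiff ℝ 2 b) (hbl : ∃ K : ℝ≥0, LipschitzWith K b)
    (hb0 : ∃ B : ℝ, ∀ X, B ≤ ‖X‖ → b X ≤ 0) (hlap : ∀ X ∈ above ψ, 0 ≤ lap b X)
    (hbd : ∀ x, b (x, ψ x) ≤ ζ x) :
    Comp ψ ζ (fun X => max (w X) (b X)) ∧ en ψ (fun X => max (w X) (b X)) ≤ en ψ w := by
  obtain ⟨K, hK⟩ := hw.lip
  obtain ⟨L, hL⟩ := hbl
  obtain ⟨B, hB⟩ := hb0
  have hwB : LipB w := hw.toLipB
  set v : P d → ℝ := fun X => max (b X - w X) 0 with hv
  have hvB : LipB v := by
    refine ⟨⟨L + K, Var2c_lip_max (hL.sub hK)⟩, B, fun X hX => ?_⟩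
    have h1 := hB X hX
    have h2 := hw0 X
    simp only [hv]
    exact max_eq_right (by linarith)
  have hu : (fun X => max (w X) (b X)) = fun X => w X + v X := by
    funext X
    simp only [hv]
    rcases le_total (w X) (b X) with h | h
    · rw [max_eq_right h, max_eq_left (by linarith)]; ring
    · rw [max_eq_left h, max_eq_right (by linarith)]; ring
  have huB : LipB (fun X => w X + v X) := hwB.add hvB
  have hv0 : ∀ x, v (x, ψ x) = 0 := by
    intro x
    simp only [hv, hw.bd x]
    exact max_eq_right (by linarith [hbd x])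
  have hms : MeasurableSet (above ψ) :=
    measurableSet_lt (hψ.continuous.measurable.comp measurable_fst) measurable_snd
  refine ⟨?_, ?_⟩
  · refine ⟨by rw [hu]; exact huB, fun x => ?_⟩
    show max (w (x, ψ x)) (b (x, ψ x)) = ζ x
    rw [hw.bd x]
    exact max_eq_left (hbd x)
  · rw [hu]
    have hibp := ibp_var hψ hvB hv0 hb
    have hneg : ∫ X in above ψ, ∑ a : Ix d, pd a b X * pd a v X ≤ 0 := by
      rw [hibp]
      refine neg_nonpos.2 (setIntegral_nonneg hms fun X hX => ?_)
      exact mul_nonneg (le_max_right _ _) (hlap X hX)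
    have hI1 := (lipB_integrable_sq hwB).integrableOn (s := above ψ)
    have hI2 := (lipB_integrable_sq hvB).integrableOn (s := above ψ)
    have hI3 := (lipB_integrable_mul hwB hvB).integrableOn (s := above ψ)
    have hbdiff : ∀ X, DifferentiableAt ℝ b X := fun X =>
      (hb.differentiable (by norm_num)).differentiableAt
    have e1 : ∫ X in above ψ, ∑ a : Ix d, pd a b X * pd a v X =
        ∫ X in above ψ, ((∑ a : Ix d, pd a w X * pd a v X) + ∑ a : Ix d, pd a v X ^ 2) := by
      refine setIntegral_congr_ae hms ?_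
      filter_upwards [Var2c_diff hwB] with X hX _
      rw [← Finset.sum_add_distrib]
      exact Finset.sum_congr rfl fun a _ => (Var2c_key hX (hbdiff X) a).2
    rw [integral_add hI3 hI2] at e1
    have e2 : en ψ (fun X => w X + v X) =
        ∫ X in above ψ, (((∑ a : Ix d, pd a w X ^ 2) + 2 * (∑ a : Ix d, pd a w X * pd a v X)) +
          ∑ a : Ix d, pd a v X ^ 2) := by
      unfold en
      refine setIntegral_congr_ae hms ?_
      filter_upwards [lipB_pd_add hwB hvB] with X hX _
      rw [Finset.mul_sum, ← Finset.sum_add_distrib, ← Finset.sum_add_distrib]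
      refine Finset.sum_congr rfl fun a _ => ?_
      rw [hX a]
      ring
    have hI4 : IntegrableOn (fun X => (∑ a : Ix d, pd a w X ^ 2) +
        2 * (∑ a : Ix d, pd a w X * pd a v X)) (above ψ) := hI1.add (hI3.const_mul 2)
    rw [integral_add hI4 hI2, integral_add hI1 (hI3.const_mul 2), integral_const_mul] at e2
    have e3 : 0 ≤ ∫ X in above ψ, ∑ a : Ix d, pd a v X ^ 2 := en_nonneg ψ v
    have e4 : en ψ w = ∫ X in above ψ, ∑ a : Ix d, pd a w X ^ 2 := rfl
    linarith

end HG
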