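import Pool.Agent.W_MP_825298_an.HE5
import Pool.Agent.W_MP_825298_an.Var2c

open MeasureTheory Set Filter Topology
open scoped ENNReal NNReal BigOperators

namespace HG
variable {d : ℕ}

/-- the domain above a Lipschitz graph is open -/
theorem hp1_isOpen_above {M : ℝ≥0} {ψ : E d → ℝ} (hψ : LipschitzWith M ψ) : IsOpen (above ψ) := by
  have : Continuous ψ := hψ.continuous
  exact isOpen_lt (this.comp continuous_fst) continuous_snd

theorem hp1_radius {M : ℝ≥0} {ψ : E d → ℝ} (hψ : LipschitzWith M ψ) {X : P d} (hX : X ∈ above ψ) :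
    ∃ r : ℝ, 0 < r ∧ Metric.closedBall X r ⊆ above ψ :=
  Metric.nhds_basis_closedBall.mem_iff.1 ((hp1_isOpen_above hψ).mem_nhds hX)

theorem hp1_kr_continuous (r : ℝ) : Continuous (kr (d := d) r) := (kr_contDiff r).continuous

theorem hp1_kr_compact {r : ℝ} (hr : 0 < r) : HasCompactSupport (kr (d := d) r) := by
  refine HasCompactSupport.intro (isCompact_closedBall (0 : P d) r) ?_
  intro Z hZ
  refine kr_eq_zero hr ?_
  rw [Metric.mem_closedBall, dist_zero_right, not_le] at hZ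
  exact hZ.le

theorem hp1_kr_integrable {r : ℝ} (hr : 0 < r) : Integrable (kr (d := d) r) :=
  (hp1_kr_continuous r).integrable_of_hasCompactSupport (hp1_kr_compact hr)

/-- averages of continuous functions are well defined -/
theorem hp1_avg_integrable {f : P d → ℝ} (hf : Continuous f) (X : P d) {r : ℝ} (hr : 0 < r) :
    Integrable (fun Z => f (X + Z) * kr r Z) := by
  refine Continuous.integrable_of_hasCompactSupport
    ((hf.comp (continuous_const.add continuous_id)).mul (hp1_kr_continuous r)) ?_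
  exact (hp1_kr_compact hr).mul_left

theorem hp1_avg_mono {f g : P d → ℝ} (hf : Continuous f) (hg : Continuous g) (hfg : ∀ X, f X ≤ g X) (X : P d)
    {r : ℝ} (hr : 0 < r) : ∫ Z, f (X + Z) * kr r Z ≤ ∫ Z, g (X + Z) * kr r Z := by
  refine integral_mono (hp1_avg_integrable hf X hr) (hp1_avg_integrable hg X hr) ?_
  intro Z
  exact mul_le_mul_of_nonneg_right (hfg _) (kr_nonneg hr Z)

theorem hp1_avg_const (c : ℝ) {r : ℝ} (hr : 0 < r) : ∫ Z : P d, c * kr r Z = c := by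
  rw [integral_const_mul, kr_integral hr, mul_one]

theorem hp1_lipB_continuous {w : P d → ℝ} (hw : LipB w) : Continuous w := by
  obtain ⟨K, hK⟩ := hw.lip
  exact hK.continuous

theorem sol_bounds {M : ℝ≥0} {ψ ζ : E d → ℝ} (hψ : LipschitzWith M ψ) (hζ : BdFun ζ) {H : P d → ℝ}
    (hH : IsSol ψ ζ H) : ∀ X ∈ above ψ, 0 ≤ H X ∧ H X ≤ 1 := by
  intro X hX
  obtain ⟨w, hw, hw01⟩ := minSeq_exists hψ hζ
  obtain ⟨r, hr, hball⟩ := hp1_radius hψ hX
  have hlim := hH.2 w hw X r hr hball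
  have hcont : ∀ m, Continuous (w m) := fun m => (hw.1 m).toLipB |> hp1_lipB_continuous
  constructor
  · refine ge_of_tendsto' hlim ?_
    intro m
    have h := hp1_avg_mono (continuous_const (y := (0 : ℝ))) (hcont m) (fun Y => (hw01 m Y).1) X hr
    simpa using h
  · refine le_of_tendsto' hlim ?_
    intro m
    have h := hp1_avg_mono (hcont m) (continuous_const (y := (1 : ℝ))) (fun Y => (hw01 m Y).2) X hr
    have h1 : ∫ Z : P d, (1 : ℝ) * kr r Z = 1 := hp1_avg_const 1 hr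
    rw [h1] at h
    exact h

/-- If the energies do not increase the sequence stays minimising. -/
theorem hp1_minSeq_of_le {ψ ζ : E d → ℝ} {w w' : ℕ → P d → ℝ} (hw : IsMinSeq ψ ζ w)
    (hc : ∀ m, Comp ψ ζ (w' m)) (hle : ∀ m, en ψ (w' m) ≤ en ψ (w m)) : IsMinSeq ψ ζ w' := by
  refine ⟨hc, ?_⟩
  exact tendsto_of_tendsto_of_tendsto_of_le_of_le tendsto_const_nhds hw.2 (fun m => enInf_le (hc m)) hle

theorem hp1_eventually_ball {M : ℝ≥0} {ψ : E d → ℝ} (hψ : LipschitzWith M ψ) {X : P d} (hX : X ∈ above ψ) :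
    ∀ᶠ r : ℝ in 𝓝[>] (0 : ℝ), 0 < r ∧ Metric.closedBall X r ⊆ above ψ := by
  obtain ⟨R, hR, hball⟩ := hp1_radius hψ hX
  filter_upwards [Ioo_mem_nhdsGT hR] with r hr
  exact ⟨hr.1, (Metric.closedBall_subset_closedBall hr.2.le).trans hball⟩

theorem hp1_kr_tendsto {b : P d → ℝ} (hb : Continuous b) (X : P d) :
    Tendsto (fun r : ℝ => ∫ Z, b (X + Z) * kr r Z) (𝓝[>] 0) (𝓝 (b X)) :=
  kr_tendsto (R := 1) one_pos (hb.continuousOn.integrableOn_compact (isCompact_closedBall X 1)) hb.continuousAt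

/-- If `(w_m)` is minimising so is `(min w_m b)` (`comp_min`), hence `H X ≤ ∫ b(X+Z) kr r Z` for all small `r`;
let `r → 0` (`kr_tendsto`). -/
theorem sol_le_barrier {M : ℝ≥0} {ψ ζ : E d → ℝ} (hψ : LipschitzWith M ψ) (hζ : BdFun ζ) {H b : P d → ℝ}
    (hH : IsSol ψ ζ H) (hb : ContDiff ℝ 2 b) (hbl : ∃ K : ℝ≥0, LipschitzWith K b) (hb0 : ∀ X, 0 ≤ b X)
    (hlap : ∀ X ∈ above ψ, lap b X ≤ 0) (hbd : ∀ x, ζ x ≤ b (x, ψ x)) :
    ∀ X ∈ above ψ, H X ≤ b X := by
  intro X hX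
  obtain ⟨w, hw, -⟩ := minSeq_exists hψ hζ
  have hc : ∀ m, Comp ψ ζ (fun Y => min (w m Y) (b Y)) ∧ en ψ (fun Y => min (w m Y) (b Y)) ≤ en ψ (w m) :=
    fun m => comp_min hψ (hw.1 m) hb hbl hb0 hlap hbd
  have hmin : IsMinSeq ψ ζ (fun m Y => min (w m Y) (b Y)) :=
    hp1_minSeq_of_le hw (fun m => (hc m).1) (fun m => (hc m).2)
  have hcw : ∀ m, Continuous (fun Y => min (w m Y) (b Y)) := fun m => (hmin.1 m).toLipB |> hp1_lipB_continuous
  refine ge_of_tendsto (hp1_kr_tendsto hb.continuous X) ?_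
  filter_upwards [hp1_eventually_ball hψ hX] with r hr
  refine le_of_tendsto' (hH.2 _ hmin X r hr.1 hr.2) ?_
  intro m
  exact hp1_avg_mono (hcw m) hb.continuous (fun Y => min_le_right _ _) X hr.1

/-- Same with `comp_max`. -/
theorem barrier_le_sol {M : ℝ≥0} {ψ ζ : E d → ℝ} (hψ : LipschitzWith M ψ) (hζ : BdFun ζ) {H b : P d → ℝ}
    (hH : IsSol ψ ζ H) (hb : ContDiff ℝ 2 b) (hbl : ∃ K : ℝ≥0, LipschitzWith K b)
    (hb0 : ∃ B : ℝ, ∀ X, B ≤ ‖X‖ → b X ≤ 0) (hlap : ∀ X ∈ above ψ, 0 ≤ lap b X)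
    (hbd : ∀ x, b (x, ψ x) ≤ ζ x) : ∀ X ∈ above ψ, b X ≤ H X := by
  intro X hX
  obtain ⟨w, hw, hw01⟩ := minSeq_exists hψ hζ
  have hc : ∀ m, Comp ψ ζ (fun Y => max (w m Y) (b Y)) ∧ en ψ (fun Y => max (w m Y) (b Y)) ≤ en ψ (w m) :=
    fun m => comp_max hψ (hw.1 m) (fun Y => (hw01 m Y).1) hb hbl hb0 hlap hbd
  have hmin : IsMinSeq ψ ζ (fun m Y => max (w m Y) (b Y)) :=
    hp1_minSeq_of_le hw (fun m => (hc m).1) (fun m => (hc m).2)
  have hcw : ∀ m, Continuous (fun Y => max (w m Y) (b Y)) := fun m => (hmin.1 m).toLipB |> hp1_lipB_continuous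
  refine le_of_tendsto (hp1_kr_tendsto hb.continuous X) ?_
  filter_upwards [hp1_eventually_ball hψ hX] with r hr
  refine ge_of_tendsto' (hH.2 _ hmin X r hr.1 hr.2) ?_
  intro m
  exact hp1_avg_mono hb.continuous (hcw m) (fun Y => le_max_right _ _) X hr.1

end HG
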