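import Pool.Agent.W_MP_825298_an.Var1a
import Pool.Agent.W_MP_825298_an.Above

open MeasureTheory Set Filter Topology
open scoped ENNReal NNReal BigOperators

namespace HG
variable {d : ℕ}

theorem var3a_cs (f : ℝ → ℝ) {τ : ℝ} (hτ : 0 ≤ τ) (hf : IntervalIntegrable f volume 0 τ)
    (hf2 : IntervalIntegrable (fun s => (f s) ^ 2) volume 0 τ) :
    (∫ s in (0 : ℝ)..τ, f s) ^ 2 ≤ τ * ∫ s in (0 : ℝ)..τ, (f s) ^ 2 := by
  rcases hτ.eq_or_lt with h | h
  · subst h
    simp
  · set I := ∫ s in (0 : ℝ)..τ, f s with hI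
    set J := ∫ s in (0 : ℝ)..τ, (f s) ^ 2 with hJ
    have h0 : 0 ≤ ∫ s in (0 : ℝ)..τ, (f s - I / τ) ^ 2 :=
      intervalIntegral.integral_nonneg hτ (fun s _ => sq_nonneg _)
    have h1 : ∫ s in (0 : ℝ)..τ, (f s - I / τ) ^ 2 = J - 2 * (I / τ) * I + τ * (I / τ) ^ 2 := by
      have e : (fun s => (f s - I / τ) ^ 2) = fun s => ((f s) ^ 2 - (2 * (I / τ)) * f s) + (I / τ) ^ 2 := by
        funext s
        ring
      rw [e, intervalIntegral.integral_add (hf2.sub (hf.const_mul _)) (by simp),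
        intervalIntegral.integral_sub hf2 (hf.const_mul _), intervalIntegral.integral_const_mul]
      simp [hI, hJ]
    rw [h1] at h0
    have h2 : J - 2 * (I / τ) * I + τ * (I / τ) ^ 2 = J - I ^ 2 / τ := by
      field_simp
      ring
    rw [h2] at h0
    have h3 : I ^ 2 / τ ≤ J := by linarith
    rw [div_le_iff₀ h] at h3
    linarith

/-- the fundamental theorem of calculus on one slice -/
theorem var3a_slice {v : P d → ℝ} {K : ℝ≥0} (hK : LipschitzWith K v) (x : E d) (c : ℝ)
    (h0 : v (x, c) = 0) (hd : ∀ᵐ s : ℝ, DifferentiableAt ℝ v (x, c + s))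
    (hi : IntegrableOn (fun s : ℝ => ∑ a : Ix d, (pd a v (x, c + s)) ^ 2) (Ioi 0)) {t : ℝ} (ht : 0 ≤ t) :
    (v (x, c + t)) ^ 2 ≤ t * ∫ s in Ioi (0 : ℝ), ∑ a : Ix d, (pd a v (x, c + s)) ^ 2 := by
  set h : ℝ → ℝ := fun s => v (x, c + s) with hh
  have hL : LipschitzWith K h := by
    refine LipschitzWith.of_dist_le_mul ?_
    intro s s'
    refine (hK.dist_le_mul _ _).trans ?_
    refine mul_le_mul_of_nonneg_left ?_ K.2
    rw [Prod.dist_eq, dist_self, dist_add_left]
    simp
  have hder : ∀ᵐ s : ℝ, deriv h s = pd none v (x, c + s) := by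
    filter_upwards [hd] with s hs
    have h1 : HasDerivAt (fun s : ℝ => ((x, c + s) : P d)) (0, 1) s :=
      (hasDerivAt_const s x).prodMk ((hasDerivAt_id s).const_add c)
    have h2 := hs.hasFDerivAt.comp_hasDerivAt s h1
    exact h2.deriv
  have hac : AbsolutelyContinuousOnInterval h 0 t :=
    (hL.lipschitzOnWith (s := uIcc 0 t)).absolutelyContinuousOnInterval
  have hint := hac.intervalIntegrable_deriv
  have hbd : ∀ s, ‖deriv h s‖ ≤ K := fun s => norm_deriv_le_of_lipschitz hL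
  have hint2 : IntervalIntegrable (fun s => (deriv h s) ^ 2) volume 0 t := by
    refine intervalIntegrable_iff.2 ?_
    refine Measure.integrableOn_of_bounded (M := (K : ℝ) ^ 2) ?_ ?_ ?_
    · simp
    · exact ((measurable_deriv h).pow_const 2).aestronglyMeasurable
    · refine Filter.Eventually.of_forall fun s => ?_
      rw [norm_pow]
      exact pow_le_pow_left₀ (norm_nonneg _) (hbd s) 2
  have key := var3a_cs (deriv h) ht hint hint2
  rw [hac.integral_deriv_eq_sub] at key
  have h00 : h 0 = 0 := by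
    simp only [hh, add_zero]
    exact h0
  rw [h00, sub_zero] at key
  refine key.trans (mul_le_mul_of_nonneg_left ?_ ht)
  have e1 : ∫ s in (0 : ℝ)..t, (deriv h s) ^ 2 = ∫ s in Ioc (0 : ℝ) t, (pd none v (x, c + s)) ^ 2 := by
    rw [intervalIntegral.integral_of_le ht]
    refine setIntegral_congr_ae measurableSet_Ioc ?_
    filter_upwards [hder] with s hs _
    rw [hs]
  rw [e1]
  have hle : ∀ s : ℝ, (pd none v (x, c + s)) ^ 2 ≤ ∑ a : Ix d, (pd a v (x, c + s)) ^ 2 := fun s =>
    Finset.single_le_sum (f := fun a : Ix d => (pd a v (x, c + s)) ^ 2)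
      (fun a _ => sq_nonneg _) (Finset.mem_univ none)
  have hi1 : IntegrableOn (fun s : ℝ => (pd none v (x, c + s)) ^ 2) (Ioc 0 t) := by
    have := (intervalIntegrable_iff_integrableOn_Ioc_of_le ht).1 hint2
    refine this.congr ?_
    filter_upwards [ae_restrict_of_ae hder] with s hs
    simp only [hs]
  calc ∫ s in Ioc (0 : ℝ) t, (pd none v (x, c + s)) ^ 2
      ≤ ∫ s in Ioc (0 : ℝ) t, ∑ a : Ix d, (pd a v (x, c + s)) ^ 2 :=
        setIntegral_mono hi1 (hi.mono_set Ioc_subset_Ioi_self) hle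
    _ ≤ ∫ s in Ioi (0 : ℝ), ∑ a : Ix d, (pd a v (x, c + s)) ^ 2 :=
        setIntegral_mono_set hi (Filter.Eventually.of_forall fun s =>
          Finset.sum_nonneg fun a _ => sq_nonneg _) Ioc_subset_Ioi_self.eventuallyLE

/-- Vertical Poincaré inequality on (variable) slices:
`|v(x,ψ+τ)|² ≤ τ ∫_0^τ |∂_n v(x,ψ+s)|² ds` (fundamental theorem of calculus for the Lipschitz function `s ↦ v(x,ψ x+s)` and
Cauchy-Schwarz), integrate in `x` and use `integral_above`/`lintegral_above`.
(For a.e. `x`, `pd none v (x, ψ x + s) = deriv (fun s => v (x, ψ x + s)) s` for a.e. `s`, by Rademacher and Fubini;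
FTC for absolutely continuous functions is in Mathlib.) -/
theorem slice_poincare {M : ℝ≥0} {ψ : E d → ℝ} (hψ : LipschitzWith M ψ) {v : P d → ℝ} (hv : LipB v)
    (h0 : ∀ x, v (x, ψ x) = 0) {τ : E d → ℝ} (hτ : Measurable τ) {T : ℝ} (hT : ∀ x, 0 ≤ τ x ∧ τ x ≤ T) :
    Integrable (fun x : E d => (v (x, ψ x + τ x)) ^ 2) ∧
    ∫ x : E d, (v (x, ψ x + τ x)) ^ 2 ≤ T * en ψ v := by
  obtain ⟨K, hK⟩ := hv.lip
  obtain ⟨B, hB⟩ := hv.supp
  have hψm : Measurable ψ := hψ.continuous.measurable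
  have hvc : Continuous v := hK.continuous
  have hmp := measurePreserving_shear hψ
  have hemb : MeasurableEmbedding (fun X : P d => ((X.1, ψ X.1 + X.2) : P d)) :=
    (above_equiv hψ).measurableEmbedding
  have hgi : IntegrableOn (fun X : P d => ∑ a : Ix d, (pd a v (X.1, ψ X.1 + X.2)) ^ 2)
      ((univ : Set (E d)) ×ˢ Ioi (0 : ℝ)) := by
    have := (hmp.integrableOn_comp_preimage hemb (f := fun X => ∑ a : Ix d, (pd a v X) ^ 2)
      (s := above ψ)).2 (lipB_integrable_sq hv).integrableOn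
    rw [above_preimage] at this
    exact this
  rw [Measure.volume_eq_prod, IntegrableOn, ← Measure.prod_restrict, Measure.restrict_univ] at hgi
  have hH : (volume : Measure (P d)).IsAddHaarMeasure := by
    rw [Measure.volume_eq_prod]
    infer_instance
  have hd1 : ∀ᵐ X : P d, DifferentiableAt ℝ v (X.1, ψ X.1 + X.2) :=
    hmp.quasiMeasurePreserving.ae hK.ae_differentiableAt
  rw [Measure.volume_eq_prod] at hd1
  have hd2 := Measure.ae_ae_of_ae_prod hd1
  have hpt : ∀ᵐ x : E d, (v (x, ψ x + τ x)) ^ 2 ≤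
      T * ∫ s in Ioi (0 : ℝ), ∑ a : Ix d, (pd a v (x, ψ x + s)) ^ 2 := by
    filter_upwards [hd2, hgi.prod_right_ae] with x hx1 hx2
    refine (var3a_slice hK x (ψ x) (h0 x) hx1 hx2 (hT x).1).trans ?_
    refine mul_le_mul_of_nonneg_right (hT x).2 ?_
    exact integral_nonneg fun s => Finset.sum_nonneg fun a _ => sq_nonneg _
  have hR : Integrable (fun x : E d =>
      T * ∫ s in Ioi (0 : ℝ), ∑ a : Ix d, (pd a v (x, ψ x + s)) ^ 2) :=
    hgi.integral_prod_left.const_mul T
  have hm : Measurable (fun x : E d => (v (x, ψ x + τ x)) ^ 2) :=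
    (hvc.measurable.comp (measurable_id.prodMk (hψm.add hτ))).pow_const 2
  have hI : Integrable (fun x : E d => (v (x, ψ x + τ x)) ^ 2) := by
    refine hR.mono' hm.aestronglyMeasurable ?_
    filter_upwards [hpt] with x hx
    rw [Real.norm_of_nonneg (sq_nonneg _)]
    exact hx
  refine ⟨hI, ?_⟩
  refine (integral_mono_ae hI hR hpt).trans ?_
  rw [integral_const_mul, en, integral_above hψ _ (lipB_integrable_sq hv).integrableOn]

end HG
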