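import Pool.Agent.W_MP_825298_an.HE5
import Pool.Agent.W_MP_825298_an.Var3a

open MeasureTheory Set Filter Topology
open scoped ENNReal NNReal BigOperators

namespace HG
variable {d : ℕ}

theorem HP2_kr_cont (r : ℝ) : Continuous (kr (d := d) r) := (kr_contDiff r).continuous

theorem HP2_int {r : ℝ} (hr : 0 < r) {f : P d → ℝ} (hf : Continuous f) :
    Integrable (fun Z : P d => f Z * kr r Z) := by
  refine Continuous.integrable_of_hasCompactSupport (hf.mul (HP2_kr_cont r)) ?_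
  refine HasCompactSupport.intro (isCompact_closedBall (0 : P d) r) (fun Z hZ => ?_)
  have : r ≤ ‖Z‖ := by
    simp only [Metric.mem_closedBall, dist_zero_right, not_le] at hZ
    exact hZ.le
  rw [kr_eq_zero hr this, mul_zero]

/-- Jensen -/
theorem HP2_jensen {r : ℝ} (hr : 0 < r) {f : P d → ℝ} (hf : Continuous f) :
    (∫ Z : P d, f Z * kr r Z) ^ 2 ≤ ∫ Z : P d, (f Z) ^ 2 * kr r Z := by
  obtain ⟨c, hc⟩ : ∃ c : ℝ, c = ∫ Z : P d, f Z * kr r Z := ⟨_, rfl⟩
  have h1 : 0 ≤ ∫ Z : P d, (f Z - c) ^ 2 * kr r Z :=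
    integral_nonneg (fun Z => mul_nonneg (sq_nonneg _) (kr_nonneg hr Z))
  have i1 : Integrable (fun Z : P d => (f Z) ^ 2 * kr r Z) := HP2_int hr (hf.pow 2)
  have i2 : Integrable (fun Z : P d => (2 * c) * (f Z * kr r Z)) := (HP2_int hr hf).const_mul _
  have i3 : Integrable (fun Z : P d => c ^ 2 * kr r Z) := by
    have := (HP2_int (d := d) hr (continuous_const (y := (1 : ℝ)))).const_mul (c ^ 2)
    simpa using this
  have h2 : ∫ Z : P d, (f Z - c) ^ 2 * kr r Z =
      ((∫ Z : P d, (f Z) ^ 2 * kr r Z) - ∫ Z : P d, (2 * c) * (f Z * kr r Z)) +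
        ∫ Z : P d, c ^ 2 * kr r Z := by
    rw [← integral_sub i1 i2]
    refine Eq.trans ?_ (integral_add (i1.sub i2) i3)
    refine integral_congr_ae (Eventually.of_forall fun Z => ?_)
    simp only [Pi.sub_apply]
    ring
  rw [integral_const_mul, integral_const_mul, kr_integral hr, ← hc] at h2
  rw [← hc]
  nlinarith

theorem HP2_key {r ε K : ℝ} (hr : 0 < r) {ψ : E d → ℝ} (hψ : Continuous ψ) {v : P d → ℝ}
    (hv : Continuous v)
    (hK : ∀ Z : P d, ‖Z‖ < r →
      ∫⁻ x : E d, ENNReal.ofReal ((v (x + Z.1, ψ x + ε + Z.2)) ^ 2) ≤ ENNReal.ofReal K) :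
    ∫⁻ x : E d, ENNReal.ofReal ((∫ Z : P d, v ((x, ψ x + ε) + Z) * kr r Z) ^ 2) ≤
      ENNReal.ofReal K := by
  have hc : Continuous (fun q : E d × P d => v ((q.1, ψ q.1 + ε) + q.2)) := by
    fun_prop
  have hkc := HP2_kr_cont (d := d) r
  calc ∫⁻ x : E d, ENNReal.ofReal ((∫ Z : P d, v ((x, ψ x + ε) + Z) * kr r Z) ^ 2)
      ≤ ∫⁻ x : E d, ∫⁻ Z : P d, ENNReal.ofReal ((v ((x, ψ x + ε) + Z)) ^ 2) *
          ENNReal.ofReal (kr r Z) := by
        refine lintegral_mono (fun x => ?_)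
        have hcx : Continuous (fun Z : P d => v ((x, ψ x + ε) + Z)) := by fun_prop
        refine (ENNReal.ofReal_le_ofReal (HP2_jensen hr hcx)).trans ?_
        rw [ofReal_integral_eq_lintegral_ofReal
          (f := fun Z : P d => (v ((x, ψ x + ε) + Z)) ^ 2 * kr r Z) (HP2_int hr (hcx.pow 2))
          (Eventually.of_forall fun Z => mul_nonneg (sq_nonneg _) (kr_nonneg hr Z))]
        refine lintegral_mono (fun Z => ?_)
        rw [ENNReal.ofReal_mul (sq_nonneg _)]
    _ = ∫⁻ Z : P d, ∫⁻ x : E d, ENNReal.ofReal ((v ((x, ψ x + ε) + Z)) ^ 2) *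
          ENNReal.ofReal (kr r Z) := by
        refine lintegral_lintegral_swap ?_
        refine Measurable.aemeasurable ?_
        change Measurable (fun q : E d × P d => ENNReal.ofReal ((v ((q.1, ψ q.1 + ε) + q.2)) ^ 2) *
          ENNReal.ofReal (kr r q.2))
        have m1 : Measurable (fun q : E d × P d =>
            ENNReal.ofReal ((v ((q.1, ψ q.1 + ε) + q.2)) ^ 2)) :=
          (hc.pow 2).measurable.ennreal_ofReal
        have m2 : Measurable (fun q : E d × P d => ENNReal.ofReal (kr r q.2)) :=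
          (hkc.comp continuous_snd).measurable.ennreal_ofReal
        exact m1.mul m2
    _ ≤ ∫⁻ Z : P d, ENNReal.ofReal K * ENNReal.ofReal (kr r Z) := by
        refine lintegral_mono (fun Z => ?_)
        rw [lintegral_mul_const'']
        · rcases lt_or_ge ‖Z‖ r with hZ | hZ
          · exact mul_le_mul_left (hK Z hZ) _
          · rw [kr_eq_zero hr hZ]
            simp
        · refine Measurable.aemeasurable ?_
          have hcx : Continuous (fun x : E d => (v ((x, ψ x + ε) + Z)) ^ 2) := by fun_prop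
          exact hcx.measurable.ennreal_ofReal
    _ = ENNReal.ofReal K := by
        rw [lintegral_const_mul'' _ hkc.measurable.ennreal_ofReal.aemeasurable,
          ← ofReal_integral_eq_lintegral_ofReal, kr_integral hr, ENNReal.ofReal_one, mul_one]
        · have := HP2_int hr (continuous_const (y := (1 : ℝ)) : Continuous (fun _ : P d => (1:ℝ)))
          simpa using this
        · exact Eventually.of_forall fun Z => kr_nonneg hr Z

/-- `L²` trace. Let `v_m = w_m - ζ̃`, `ζ̃(X) = ζ(x)(1-|t-ψ x|)_+` (`comp_exists`), `ε ≤ 1`, `r = ε/(2(1+M))`. For `X = (x,ψ x+ε)`: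
`|∫ v_m(X+Z) kr r Z|² ≤ ∫ v_m(X+Z)² kr r Z`, and for fixed `Z` with `‖Z‖ ≤ r` the point `X+Z` has height in `[0,2ε]` above the graph, so
`∫ v_m(X+Z)² dx ≤ 2ε en v_m` (`slice_poincare` after the translation `x ↦ x + Z.1`); `en v_m` is bounded (`en_diff_le`). Moreover
`|∫ ζ̃(X+Z) kr r Z - ζ x| ≤ K (r+ε)` and it vanishes for `‖x‖` large. Fatou and the triangle inequality in `L²`. -/
theorem sol_trace {M : ℝ≥0} {ψ ζ : E d → ℝ} (hψ : LipschitzWith M ψ) (hζ : BdFun ζ) {H : P d → ℝ}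
    (hH : IsSol ψ ζ H) : ∃ Cs : ℝ, 0 ≤ Cs ∧ ∀ ε : ℝ, 0 < ε → ε ≤ 1 →
      ∫⁻ x : E d, ENNReal.ofReal ((H (x, ψ x + ε)) ^ 2)
        ≤ ENNReal.ofReal ((Real.sqrt (∫ x : E d, (ζ x) ^ 2) + Cs * Real.sqrt ε) ^ 2) := by
  obtain ⟨w, hw, hw01⟩ := minSeq_exists hψ hζ
  obtain ⟨zt, hzt⟩ : ∃ zt : P d → ℝ, zt = fun X => ζ X.1 * max (1 - |X.2 - ψ X.1|) 0 := ⟨_, rfl⟩
  have hztC : Comp ψ ζ zt := by rw [hzt]; exact comp_exists hψ hζ
  have hψm : Measurable ψ := hψ.continuous.measurable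
  have hζc : Continuous ζ := by
    obtain ⟨K, hK⟩ := hζ.lip
    exact hK.continuous
  have hztc : Continuous zt := by
    obtain ⟨K, hK⟩ := hztC.lip
    exact hK.continuous
  have hwc : ∀ m, Continuous (w m) := fun m => by
    obtain ⟨K, hK⟩ := (hw.1 m).lip
    exact hK.continuous
  -- the energies are bounded
  obtain ⟨CE, hCE⟩ : ∃ CE : ℝ, ∀ m, en ψ (w m) ≤ CE := by
    obtain ⟨CE, hCE⟩ := hw.2.bddAbove_range
    exact ⟨CE, fun m => hCE ⟨m, rfl⟩⟩
  set CV : ℝ := 2 * (CE + en ψ zt) with hCV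
  have hen : ∀ m, en ψ (fun X => w m X - zt X) ≤ CV := by
    intro m
    refine (en_diff_le hψm (hw.1 m) hztC).trans ?_
    have := enInf_nonneg ψ ζ
    have := hCE m
    rw [hCV]
    linarith
  have hCV0 : 0 ≤ CV := (en_nonneg ψ _).trans (hen 0)
  refine ⟨Real.sqrt (2 * CV), Real.sqrt_nonneg _, fun ε hε hε1 => ?_⟩
  have hM : (0 : ℝ) ≤ M := M.2
  set r : ℝ := ε / (2 * (1 + M)) with hr_def
  have hr : 0 < r := by positivity
  have hrM : (1 + M) * r = ε / 2 := by
    rw [hr_def]; field_simp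
  -- A_m
  have hA : ∀ m, ∫⁻ x : E d,
      ENNReal.ofReal ((∫ Z : P d, (w m ((x, ψ x + ε) + Z) - zt ((x, ψ x + ε) + Z)) * kr r Z) ^ 2) ≤
      ENNReal.ofReal (2 * ε * CV) := by
    intro m
    refine HP2_key (v := fun X => w m X - zt X) hr hψ.continuous ((hwc m).sub hztc) ?_
    intro Z hZ
    have hLB : LipB (fun X => w m X - zt X) := LipB.sub (hw.1 m).toLipB hztC.toLipB
    have h0 : ∀ x, (fun X => w m X - zt X) (x, ψ x) = 0 := fun x => by
      simp only [(hw.1 m).bd x, hztC.bd x, sub_self]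
    have hZ1 : ‖Z.1‖ ≤ r := (norm_fst_le Z).trans hZ.le
    have hZ2 : |Z.2| ≤ r := (norm_snd_le Z).trans hZ.le
    have hτ : ∀ y, 0 ≤ (ψ (y - Z.1) - ψ y + ε + Z.2) ∧ (ψ (y - Z.1) - ψ y + ε + Z.2) ≤ 2 * ε := by
      intro y
      have h1 : |ψ (y - Z.1) - ψ y| ≤ M * r := by
        have := hψ.dist_le_mul (y - Z.1) y
        rw [Real.dist_eq, dist_eq_norm] at this
        refine this.trans ?_
        have h2 : ‖y - Z.1 - y‖ = ‖Z.1‖ := by rw [sub_sub_cancel_left, norm_neg]
        rw [h2]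
        exact mul_le_mul_of_nonneg_left hZ1 hM
      have h3 := abs_le.1 h1
      have h4 := abs_le.1 hZ2
      constructor <;> nlinarith [h3.1, h3.2, h4.1, h4.2]
    have hτm : Measurable (fun y : E d => ψ (y - Z.1) - ψ y + ε + Z.2) := by
      have : Continuous (fun y : E d => ψ (y - Z.1) - ψ y + ε + Z.2) := by
        have := hψ.continuous
        fun_prop
      exact this.measurable
    obtain ⟨hI, hle⟩ := slice_poincare hψ hLB h0 hτm hτ
    have h5 : ∫⁻ x : E d, ENNReal.ofReal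
        (((fun X => w m X - zt X) (x + Z.1, ψ x + ε + Z.2)) ^ 2) =
        ∫⁻ y : E d, ENNReal.ofReal
        (((fun X => w m X - zt X) (y, ψ y + (ψ (y - Z.1) - ψ y + ε + Z.2))) ^ 2) := by
      refine Eq.trans ?_ (lintegral_add_right_eq_self (fun y : E d => ENNReal.ofReal
        (((fun X => w m X - zt X) (y, ψ y + (ψ (y - Z.1) - ψ y + ε + Z.2))) ^ 2)) Z.1)
      refine lintegral_congr (fun x => ?_)
      have e1 : ψ (x + Z.1) + (ψ (x + Z.1 - Z.1) - ψ (x + Z.1) + ε + Z.2) = ψ x + ε + Z.2 := by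
        rw [add_sub_cancel_right]; ring
      simp only [e1]
    rw [h5, ← ofReal_integral_eq_lintegral_ofReal hI (Eventually.of_forall fun y => sq_nonneg _)]
    refine ENNReal.ofReal_le_ofReal (hle.trans ?_)
    exact mul_le_mul_of_nonneg_left (hen m) (by positivity)
  -- B'
  have hB : ∫⁻ x : E d, ENNReal.ofReal ((∫ Z : P d, ζ ((x, ψ x + ε) + Z).1 * kr r Z) ^ 2) ≤
      ENNReal.ofReal (∫ x : E d, (ζ x) ^ 2) := by
    refine HP2_key (v := fun X => ζ X.1) hr hψ.continuous (hζc.comp continuous_fst) ?_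
    intro Z _
    have h1 : ∫⁻ x : E d, ENNReal.ofReal ((ζ (x + Z.1)) ^ 2) =
        ∫⁻ x : E d, ENNReal.ofReal ((ζ x) ^ 2) :=
      lintegral_add_right_eq_self (fun x => ENNReal.ofReal ((ζ x) ^ 2)) Z.1
    simp only
    rw [h1, ← ofReal_integral_eq_lintegral_ofReal]
    · refine Continuous.integrable_of_hasCompactSupport (hζc.pow 2) ?_
      obtain ⟨B, hB⟩ := hζ.supp
      refine HasCompactSupport.intro (isCompact_closedBall (0 : E d) B) (fun x hx => ?_)
      have : B ≤ ‖x‖ := by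
        simp only [Metric.mem_closedBall, dist_zero_right, not_le] at hx
        exact hx.le
      rw [hB x this]; simp
    · exact Eventually.of_forall fun x => sq_nonneg _
  have hψc := hψ.continuous
  have hmeasW : ∀ m, Measurable (fun x : E d => ∫ Z : P d, w m ((x, ψ x + ε) + Z) * kr r Z) := by
    intro m
    have hc : Continuous (fun q : E d × P d => w m ((q.1, ψ q.1 + ε) + q.2) * kr r q.2) := by
      have h1 := hwc m
      have h2 := HP2_kr_cont (d := d) r
      fun_prop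
    exact (hc.stronglyMeasurable.integral_prod_right').measurable
  have hmeasA : ∀ m, Measurable (fun x : E d =>
      ∫ Z : P d, (w m ((x, ψ x + ε) + Z) - zt ((x, ψ x + ε) + Z)) * kr r Z) := by
    intro m
    have hc : Continuous (fun q : E d × P d =>
        (w m ((q.1, ψ q.1 + ε) + q.2) - zt ((q.1, ψ q.1 + ε) + q.2)) * kr r q.2) := by
      have h1 := hwc m
      have h2 := HP2_kr_cont (d := d) r
      fun_prop
    exact (hc.stronglyMeasurable.integral_prod_right').measurable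
  have hmeasB : Measurable (fun x : E d =>
      ∫ Z : P d, ζ ((x, ψ x + ε) + Z).1 * kr r Z) := by
    have hc : Continuous (fun q : E d × P d =>
        ζ ((q.1, ψ q.1 + ε) + q.2).1 * kr r q.2) := by
      have h2 := HP2_kr_cont (d := d) r
      fun_prop
    exact (hc.stronglyMeasurable.integral_prod_right').measurable
  -- pointwise bound
  have hpt : ∀ m (x : E d), |∫ Z : P d, w m ((x, ψ x + ε) + Z) * kr r Z| ≤
      |∫ Z : P d, (w m ((x, ψ x + ε) + Z) - zt ((x, ψ x + ε) + Z)) * kr r Z| +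
        |∫ Z : P d, ζ ((x, ψ x + ε) + Z).1 * kr r Z| := by
    intro m x
    have hc1 : Continuous (fun Z : P d => w m ((x, ψ x + ε) + Z)) := by
      have h1 := hwc m
      fun_prop
    have hc2 : Continuous (fun Z : P d => zt ((x, ψ x + ε) + Z)) := by fun_prop
    have hc3 : Continuous (fun Z : P d => ζ ((x, ψ x + ε) + Z).1) := by fun_prop
    have h1 : ∫ Z : P d, w m ((x, ψ x + ε) + Z) * kr r Z =
        (∫ Z : P d, (w m ((x, ψ x + ε) + Z) - zt ((x, ψ x + ε) + Z)) * kr r Z) +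
        ∫ Z : P d, zt ((x, ψ x + ε) + Z) * kr r Z := by
      have hadd := integral_add (HP2_int hr (hc1.sub hc2)) (HP2_int hr hc2)
      refine Eq.trans ?_ hadd
      refine integral_congr_ae (Eventually.of_forall fun Z => ?_)
      simp only [Pi.sub_apply]
      ring
    rw [h1]
    refine (abs_add_le _ _).trans (add_le_add le_rfl ?_)
    have h2 : 0 ≤ ∫ Z : P d, zt ((x, ψ x + ε) + Z) * kr r Z := by
      refine integral_nonneg (fun Z => mul_nonneg ?_ (kr_nonneg hr Z))
      rw [hzt]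
      exact mul_nonneg (hζ.nn _) (le_max_right _ _)
    have h3 : ∫ Z : P d, zt ((x, ψ x + ε) + Z) * kr r Z ≤
        ∫ Z : P d, ζ ((x, ψ x + ε) + Z).1 * kr r Z := by
      refine integral_mono (HP2_int hr hc2) (HP2_int hr hc3) (fun Z => ?_)
      refine mul_le_mul_of_nonneg_right ?_ (kr_nonneg hr Z)
      rw [hzt]
      refine mul_le_of_le_one_right (hζ.nn _) ?_
      refine max_le ?_ zero_le_one
      have := abs_nonneg (((x, ψ x + ε) + Z).2 - ψ ((x, ψ x + ε) + Z).1)
      linarith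
    rw [abs_of_nonneg h2, abs_of_nonneg (h2.trans h3)]
    exact h3
  -- L² bound of the averages
  have hL2 : ∀ m, ∫⁻ x : E d, ENNReal.ofReal ((∫ Z : P d, w m ((x, ψ x + ε) + Z) * kr r Z) ^ 2) ≤
      ENNReal.ofReal ((Real.sqrt (∫ x : E d, (ζ x) ^ 2) + Real.sqrt (2 * CV) * Real.sqrt ε) ^ 2) := by
    intro m
    set A : E d → ℝ := fun x =>
      ∫ Z : P d, (w m ((x, ψ x + ε) + Z) - zt ((x, ψ x + ε) + Z)) * kr r Z with hAdef
    set B : E d → ℝ := fun x => ∫ Z : P d, ζ ((x, ψ x + ε) + Z).1 * kr r Z with hBdef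
    have hsq : ∀ t : ℝ, ENNReal.ofReal |t| ^ (2 : ℝ) = ENNReal.ofReal (t ^ 2) := by
      intro t
      rw [ENNReal.ofReal_rpow_of_nonneg (abs_nonneg _) (by norm_num)]
      congr 1
      rw [show (2 : ℝ) = ((2 : ℕ) : ℝ) by norm_num, Real.rpow_natCast, sq_abs]
    have hmink := ENNReal.lintegral_Lp_add_le (μ := (volume : Measure (E d))) (p := 2)
      (f := fun x => ENNReal.ofReal |A x|) (g := fun x => ENNReal.ofReal |B x|)
      ((measurable_norm.comp (hmeasA m)).ennreal_ofReal.aemeasurable)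
      ((measurable_norm.comp hmeasB).ennreal_ofReal.aemeasurable) (by norm_num)
    have h1 : (∫⁻ x : E d, ENNReal.ofReal ((∫ Z : P d, w m ((x, ψ x + ε) + Z) * kr r Z) ^ 2)) ≤
        ∫⁻ x : E d, ((fun x => ENNReal.ofReal |A x|) + fun x => ENNReal.ofReal |B x|) x ^ (2 : ℝ) := by
      refine lintegral_mono (fun x => ?_)
      rw [← hsq]
      refine ENNReal.rpow_le_rpow ?_ (by norm_num)
      simp only [Pi.add_apply]
      rw [← ENNReal.ofReal_add (abs_nonneg _) (abs_nonneg _)]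
      exact ENNReal.ofReal_le_ofReal (hpt m x)
    have h2 : (∫⁻ x : E d, ENNReal.ofReal |A x| ^ (2 : ℝ)) ≤ ENNReal.ofReal (2 * ε * CV) := by
      simp only [hsq]
      exact hA m
    have h3 : (∫⁻ x : E d, ENNReal.ofReal |B x| ^ (2 : ℝ)) ≤
        ENNReal.ofReal (∫ x : E d, (ζ x) ^ 2) := by
      simp only [hsq]
      exact hB
    have hζ2 : 0 ≤ ∫ x : E d, (ζ x) ^ 2 := integral_nonneg fun x => sq_nonneg _
    have h4 : ∀ t : ℝ, 0 ≤ t → ENNReal.ofReal t ^ (1 / (2 : ℝ)) = ENNReal.ofReal (Real.sqrt t) := by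
      intro t ht
      rw [ENNReal.ofReal_rpow_of_nonneg ht (by norm_num), Real.sqrt_eq_rpow]
    have h5 : (∫⁻ x : E d, ((fun x => ENNReal.ofReal |A x|) + fun x => ENNReal.ofReal |B x|) x ^
        (2 : ℝ)) ^ (1 / (2 : ℝ)) ≤
        ENNReal.ofReal (Real.sqrt (∫ x : E d, (ζ x) ^ 2) + Real.sqrt (2 * CV) * Real.sqrt ε) := by
      refine hmink.trans ?_
      refine (add_le_add (ENNReal.rpow_le_rpow h2 (by norm_num))
        (ENNReal.rpow_le_rpow h3 (by norm_num))).trans ?_
      rw [h4 _ (by positivity), h4 _ hζ2, ← ENNReal.ofReal_add (Real.sqrt_nonneg _) (Real.sqrt_nonneg _)]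
      refine ENNReal.ofReal_le_ofReal ?_
      rw [show 2 * ε * CV = 2 * CV * ε by ring, Real.sqrt_mul (by positivity)]
      linarith
    have h6 := ENNReal.rpow_le_rpow h5 (show (0 : ℝ) ≤ 2 by norm_num)
    rw [← ENNReal.rpow_mul, show (1 / (2 : ℝ)) * 2 = 1 by norm_num, ENNReal.rpow_one] at h6
    refine (h1.trans h6).trans ?_
    have h7 : 0 ≤ Real.sqrt (∫ x : E d, (ζ x) ^ 2) + Real.sqrt (2 * CV) * Real.sqrt ε := by
      positivity
    rw [← hsq, abs_of_nonneg h7]
  -- Fatou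
  have hball : ∀ x : E d, Metric.closedBall ((x, ψ x + ε) : P d) r ⊆ above ψ := by
    intro x Y hY
    rw [Metric.mem_closedBall, Prod.dist_eq] at hY
    have hY1 : dist Y.1 x ≤ r := (le_max_left _ _).trans hY
    have hY2 : |Y.2 - (ψ x + ε)| ≤ r := (le_max_right _ _).trans hY
    have h1 : |ψ Y.1 - ψ x| ≤ M * r := by
      have := hψ.dist_le_mul Y.1 x
      rw [Real.dist_eq] at this
      exact this.trans (mul_le_mul_of_nonneg_left hY1 hM)
    have h2 := abs_le.1 h1
    have h3 := abs_le.1 hY2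
    change ψ Y.1 < Y.2
    nlinarith [h2.1, h2.2, h3.1, h3.2]
  have hlim : ∀ x : E d, Tendsto (fun m =>
      ENNReal.ofReal ((∫ Z : P d, w m ((x, ψ x + ε) + Z) * kr r Z) ^ 2)) atTop
      (𝓝 (ENNReal.ofReal ((H (x, ψ x + ε)) ^ 2))) := by
    intro x
    have h1 := hH.2 w hw (x, ψ x + ε) r hr (hball x)
    exact ENNReal.tendsto_ofReal (h1.pow 2)
  calc ∫⁻ x : E d, ENNReal.ofReal ((H (x, ψ x + ε)) ^ 2)
      = ∫⁻ x : E d, liminf (fun m =>
          ENNReal.ofReal ((∫ Z : P d, w m ((x, ψ x + ε) + Z) * kr r Z) ^ 2)) atTop := by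
        refine lintegral_congr (fun x => ?_)
        exact (hlim x).liminf_eq.symm
    _ ≤ liminf (fun m => ∫⁻ x : E d,
          ENNReal.ofReal ((∫ Z : P d, w m ((x, ψ x + ε) + Z) * kr r Z) ^ 2)) atTop :=
        lintegral_liminf_le (fun m => ((hmeasW m).pow_const 2).ennreal_ofReal)
    _ ≤ _ := by
        refine liminf_le_of_le (by isBoundedDefault) ?_
        intro b hb
        obtain ⟨m, hm⟩ := hb.exists
        exact hm.trans (hL2 m)

end HG
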