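import Pool.Agent.W_MP_825298_an.Defs

open MeasureTheory Set Filter Topology
open scoped ENNReal NNReal BigOperators

namespace HG
variable {d : ℕ}

theorem intPd_haar (d : ℕ) : (volume : Measure (P d)).IsAddHaarMeasure := by
  change ((volume : Measure (E d)).prod (volume : Measure ℝ)).IsAddHaarMeasure
  infer_instance

theorem intPd_ae {v : P d → ℝ} {K : ℝ≥0} (hv : LipschitzWith K v) :
    ∀ᵐ X : P d, DifferentiableAt ℝ v X := by
  have := intPd_haar d
  exact hv.ae_differentiableAt

/-- Whole space integration by parts for Lipschitz functions: a Lipschitz function with bounded support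
has `∫ pd a v = 0` (`pd a v` is a.e. the line derivative; `LipschitzWith.integral_lineDeriv_mul_eq` with the constant function). -/
theorem integral_pd_eq_zero {v : P d → ℝ} {K : ℝ≥0} (hv : LipschitzWith K v) {B : ℝ}
    (hB : ∀ X, B ≤ ‖X‖ → v X = 0) (a : Ix d) : ∫ X, pd a v X = 0 := by
  have := intPd_haar d
  have hcs : HasCompactSupport v := by
    refine HasCompactSupport.intro (isCompact_closedBall (0 : P d) |B|) ?_
    intro X hX
    apply hB
    rw [mem_closedBall_zero_iff, not_le] at hX
    exact (le_abs_self B).trans hX.le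
  have h1 := LipschitzWith.integral_lineDeriv_mul_eq (μ := (volume : Measure (P d)))
    (LipschitzWith.const' (K := 0) (1 : ℝ)) hv hcs (-(eb a))
  simp only [neg_neg, mul_one] at h1
  have h2 : ∀ x : P d, lineDeriv ℝ (fun _ : P d => (1 : ℝ)) x (-(eb a)) = 0 := by
    intro x
    simp [lineDeriv]
  simp only [h2, zero_mul, integral_zero] at h1
  rw [h1]
  refine integral_congr_ae ?_
  filter_upwards [intPd_ae hv] with X hX
  exact hX.lineDeriv_eq_fderiv.symm

end HG
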