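import Pool.Agent.W_MP_825298_an.WDefs

open MeasureTheory Set Filter Topology
open scoped ENNReal NNReal BigOperators

namespace HG
variable {d : ℕ}

/-- lattice of mesh `2^{-j}` -/
def Lat (j : ℕ) : Set (E d) := {y | ∀ i, ∃ k : ℤ, y i = k / 2 ^ j}

/-- stops at unit scale: `m` large or `W` large -/
def IsStop (M : ℝ≥0) (φ : E d → ℝ) (F : Ix d → P d → ℝ) (A A' : ℝ) (j : ℕ) (y : E d) : Prop :=
  A < ‖avg (hb φ F) y (1 / 2 ^ j)‖ ∨ ENNReal.ofReal A' < WdE φ F (c0 M) y (1 / 2 ^ j)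

/-- the finite set of lattice stops up to level `N` -/
def StopSet (M : ℝ≥0) (φ : E d → ℝ) (F : Ix d → P d → ℝ) (A A' : ℝ) (N : ℕ) (S : Finset (ℕ × E d)) : Prop :=
  ∀ (j : ℕ) (y : E d), (j, y) ∈ S ↔ (j ≤ N ∧ y ∈ Lat j ∧ ‖y‖ ≤ 8 ∧ IsStop M φ F A A' j y)

/-- `sup_{(j,y')∈S} (2·2^{-j} - ‖y-y'‖/4)_+` -/
noncomputable def sfun (S : Finset (ℕ × E d)) (y : E d) : ℝ≥0 :=
  S.sup (fun p => Real.toNNReal (2 * (1 / 2 ^ p.1) - ‖y - p.2‖ / 4))

/-- the resolution function `s*` -/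
noncomputable def sst (S : Finset (ℕ × E d)) (δ : ℝ) (N : ℕ) (y : E d) : ℝ :=
  max (sfun S y : ℝ) (max (min ((‖y‖ - 2 + δ) / 4) (1 / 4)) (1 / 2 ^ N))

/-- general properties of a resolution function used in most lemmas -/
structure ResFun (N : ℕ) (s : E d → ℝ) : Prop where
  lip : LipschitzWith (1 / 4) s
  lower : ∀ y, 1 / 2 ^ N ≤ s y
  upper : ∀ y, s y ≤ 1 / 4

/-- resolution time of the path from `(x,r)` -/
noncomputable def Rl (s : E d → ℝ) (ε3 : ℝ) (x : E d) (r : ℝ) (ω : ℕ → St d) : ℕ :=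
  sInf {l : ℕ | r / 2 ^ l ≤ ε3 * s (x + r • Zp l ω)}

/-- position at the resolution time -/
noncomputable def XR (s : E d → ℝ) (ε3 : ℝ) (x : E d) (r : ℝ) (ω : ℕ → St d) : E d :=
  x + r • Zp (Rl s ε3 x r ω) ω

/-- scale at the resolution time -/
noncomputable def ρR (s : E d → ℝ) (ε3 : ℝ) (x : E d) (r : ℝ) (ω : ℕ → St d) : ℝ := r / 2 ^ (Rl s ε3 x r ω)

/-- local average of the certificate field on the ball of radius `c s(x)` around the graph point over `x` -/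
noncomputable def AA (φ : E d → ℝ) (G : Ix d → P d → ℝ) (s : E d → ℝ) (c : ℝ) (x : E d) : ℝ≥0∞ :=
  ENNReal.ofReal (((s x) ^ (d + 1))⁻¹) * ∫⁻ X in Metric.closedBall ((x, φ x) : P d) (c * s x), ENNReal.ofReal (nF G X)

/-- the set of `m`-stops at top level -/
noncomputable def TopF (φ : E d → ℝ) (F : Ix d → P d → ℝ) (A : ℝ) (s : E d → ℝ)
    (S : Finset (ℕ × E d)) : Finset (ℕ × E d) := by
  classical exact S.filter (fun p => A < ‖avg (hb φ F) p.2 (1 / 2 ^ p.1)‖ ∧ s p.2 ≤ 3 * (1 / 2 ^ p.1))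

/-- boundary function for the certificate -/
noncomputable def zet (T : Finset (ℕ × E d)) (C3 : ℝ) (y : E d) : ℝ :=
  min 1 ((T.sup (fun p => Real.toNNReal (2 - ‖y - p.2‖ / (C3 * (1 / 2 ^ p.1)))) : ℝ≥0) : ℝ)

/-- smooth horizontal cutoff: `1` on `‖y‖ ≤ 2`, `0` on `‖y‖ ≥ 4` -/
noncomputable def chi1 (y : E d) : ℝ := ∏ i : Fin d, (Real.smoothTransition (2 - y i / 2) * Real.smoothTransition (2 + y i / 2))

/-- smooth vertical cutoff: `1` on `|t| ≤ a`, `0` on `|t| ≥ a+1` -/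
noncomputable def chi2 (a t : ℝ) : ℝ := Real.smoothTransition (a + 1 - t) * Real.smoothTransition (a + 1 + t)

/-- edge function: `0` on `‖y‖ ≤ 2-2δ`, `1` on `‖y‖ ≥ 2-δ` -/
noncomputable def theta (δ : ℝ) (y : E d) : ℝ :=
  1 - ∏ i : Fin d, (Real.smoothTransition ((2 - δ - y i) / δ) * Real.smoothTransition ((2 - δ + y i) / δ))

/-- the vector multiplier of the certificate, `p₈(y) = 8^{-d} p(y/8)` -/
noncomputable def Psi (G : Ix d → P d → ℝ) (q : VV d) (X : P d) : VV d :=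
  (chi1 X.1 / (((8 : ℝ) ^ d)⁻¹ * pk ((8 : ℝ)⁻¹ • X.1))) • Kvec (fun a => G a X) q

/-- the box of the pair lemma -/
def Bx (φ : E d → ℝ) (M : ℝ≥0) (x : E d) (ρ : ℝ) : Set (P d) := {X | ‖X.1 - x‖ ≤ 2 * ρ ∧ |X.2 - φ x| ≤ (2 * M + 2) * ρ}

/-- box bound at the resolution scale -/
def WBP (φ : E d → ℝ) (F : Ix d → P d → ℝ) (s : E d → ℝ) (B : ℝ) : Prop :=
  ∀ z : E d, ‖z‖ ≤ 7 → ∫⁻ y in Metric.closedBall z (s z / 4), ∫⁻ τ in Ioc (0 : ℝ) (s z),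
    ENNReal.ofReal (nF F (y, φ y + τ) * τ ^ (-(1 / 2) : ℝ)) ≤ ENNReal.ofReal ((s z) ^ ((d : ℝ) + 1 / 2) * B)

/-- radius constant for `AA` -/
noncomputable def cAA (M : ℝ≥0) : ℝ := 1 / (8 * (1 + M))

end HG
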