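import Pool.Agent.W_MP_825298_an.KDefs
import Pool.Agent.W_MP_825298_an.MV4a
import Pool.Agent.W_MP_825298_an.Above

open MeasureTheory Set Filter Topology
open scoped ENNReal NNReal BigOperators

namespace HG
variable {d : ℕ}

theorem ka1_lip {s : E d → ℝ} (hs : LipschitzWith (1 / 4) s) (x y : E d) :
    |s x - s y| ≤ 1 / 4 * ‖x - y‖ := by
  have h := hs.dist_le_mul x y
  rw [Real.dist_eq, dist_eq_norm] at h
  have : (((1 / 4 : ℝ≥0)) : ℝ) = 1 / 4 := by norm_num
  rwa [this] at h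

theorem ka1_lipφ {M : ℝ≥0} {φ : E d → ℝ} (hφ : LipschitzWith M φ) (x y : E d) :
    |φ x - φ y| ≤ M * ‖x - y‖ := by
  have h := hφ.dist_le_mul x y
  rwa [Real.dist_eq, dist_eq_norm] at h

theorem ka1_mem {x : E d} {t : ℝ} {r : ℝ} {X : P d} :
    X ∈ Metric.closedBall ((x, t) : P d) r ↔ ‖X.1 - x‖ ≤ r ∧ |X.2 - t| ≤ r := by
  rw [Metric.mem_closedBall, Prod.dist_eq, max_le_iff, dist_eq_norm, Real.dist_eq]

/-- the ball of radius `c s(x)` around the graph point lies in the domain above `φ - s` and in the strip `|t-φ| ≤ s/2` -/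
theorem ball_sub {M : ℝ≥0} {φ : E d → ℝ} (hφ : LipschitzWith M φ) {s : E d → ℝ} (hs : LipschitzWith (1 / 4) s) (hs0 : ∀ y, 0 < s y)
    {c : ℝ} (hc0 : 0 ≤ c) (hc : c ≤ 1 / (4 * (1 + M))) (x : E d) :
    Metric.closedBall ((x, φ x) : P d) (c * s x) ⊆ above (fun y => φ y - s y) ∧
    ∀ X ∈ Metric.closedBall ((x, φ x) : P d) (c * s x), |X.2 - φ X.1| ≤ s X.1 / 2 := by
  have hM : (0 : ℝ) ≤ M := M.2
  have key : ∀ X ∈ Metric.closedBall ((x, φ x) : P d) (c * s x), |X.2 - φ X.1| ≤ s X.1 / 2 := by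
    intro X hX
    obtain ⟨h1, h2⟩ := ka1_mem.1 hX
    have h3 := ka1_lipφ hφ X.1 x
    have h4 := ka1_lip hs X.1 x
    have h5 : |X.2 - φ X.1| ≤ |X.2 - φ x| + |φ X.1 - φ x| := by
      have : X.2 - φ X.1 = (X.2 - φ x) - (φ X.1 - φ x) := by ring
      rw [this]; exact abs_sub _ _
    have hsx := hs0 x
    have h6 : (1 + M) * c ≤ 1 / 4 := by
      rw [le_div_iff₀ (by positivity)] at hc
      nlinarith
    have hc4 : c ≤ 1 / 4 := by nlinarith
    have h7 : (M : ℝ) * ‖X.1 - x‖ ≤ M * (c * s x) := mul_le_mul_of_nonneg_left h1 hM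
    have h8 : (1 + M) * c * s x ≤ 1 / 4 * s x := mul_le_mul_of_nonneg_right h6 hsx.le
    have h9 : c * s x ≤ 1 / 4 * s x := mul_le_mul_of_nonneg_right hc4 hsx.le
    have h10 := (abs_le.1 h4).1
    nlinarith
  refine ⟨fun X hX => ?_, key⟩
  have h1 := key X hX
  have h2 := (abs_le.1 h1).1
  have h3 := hs0 X.1
  change φ X.1 - s X.1 < X.2
  linarith

theorem ka1_isOpen {M : ℝ≥0} {φ : E d → ℝ} (hφ : LipschitzWith M φ) {s : E d → ℝ}
    (hs : LipschitzWith (1 / 4) s) : IsOpen (above (fun y => φ y - s y)) := by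
  have h1 : Continuous fun X : P d => φ X.1 - s X.1 :=
    (hφ.continuous.comp continuous_fst).sub (hs.continuous.comp continuous_fst)
  exact isOpen_lt h1 continuous_snd

theorem ka1_nF_cont {O : Set (P d)} {G : Ix d → P d → ℝ} (hG : IsField O G) :
    ContinuousOn (nF G) O := by
  unfold nF
  exact continuousOn_finsetSum _ fun a _ => (hG.cd a).continuousOn.abs

theorem ka1_nF_nonneg (G : Ix d → P d → ℝ) (X : P d) : 0 ≤ nF G X :=
  Finset.sum_nonneg fun a _ => abs_nonneg _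

theorem ka1_lintegral_ball {O : Set (P d)} {G : Ix d → P d → ℝ} (hG : IsField O G)
    {X : P d} {r : ℝ} (h : Metric.closedBall X r ⊆ O) :
    IntegrableOn (nF G) (Metric.closedBall X r) ∧
    ∫⁻ Y in Metric.closedBall X r, ENNReal.ofReal (nF G Y) =
      ENNReal.ofReal (∫ Y in Metric.closedBall X r, nF G Y) := by
  have h1 : IntegrableOn (nF G) (Metric.closedBall X r) :=
    ((ka1_nF_cont hG).mono h).integrableOn_compact (isCompact_closedBall X r)
  exact ⟨h1, (ofReal_integral_eq_lintegral_ofReal h1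
    (Filter.Eventually.of_forall fun Y => ka1_nF_nonneg G Y)).symm⟩

theorem ka1_cAA (M : ℝ≥0) : 0 < cAA M ∧ cAA M ≤ 1 / (4 * (1 + M)) ∧ 2 * cAA M ≤ 1 / (4 * (1 + M)) ∧
    (1 + M) * cAA M = 1 / 8 ∧ cAA M ≤ 1 / 8 := by
  have hM : (0 : ℝ) ≤ M := M.2
  have h0 : (0 : ℝ) < 1 + M := by positivity
  have h1 : (1 + M) * cAA M = 1 / 8 := by
    unfold cAA; field_simp
  have h2 : 0 < cAA M := by unfold cAA; positivity
  have h3 : 2 * cAA M ≤ 1 / (4 * (1 + M)) := by
    rw [le_div_iff₀ (by positivity)]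
    nlinarith
  refine ⟨h2, by linarith, h3, h1, ?_⟩
  nlinarith

/-- interior estimates near the graph (`field_estimates` on balls of radius `c s(x)/2` around points of `closedBall (x,φ x) (c s(x)/2)`) -/
theorem AA_bound (d : ℕ) (M : ℝ≥0) : ∃ C : ℝ, 0 < C ∧ ∀ (φ : E d → ℝ), LipschitzWith M φ → ∀ (s : E d → ℝ), LipschitzWith (1 / 4) s →
    (∀ y, 0 < s y) → ∀ (G : Ix d → P d → ℝ), IsField (above (fun y => φ y - s y)) G → ∀ x : E d,
    ∀ X ∈ Metric.closedBall ((x, φ x) : P d) (cAA M * s x / 2),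
      ENNReal.ofReal (nF G X) ≤ ENNReal.ofReal C * AA φ G s (cAA M) x ∧
      ∀ a b : Ix d, ENNReal.ofReal |pd b (G a) X| ≤ ENNReal.ofReal (C * (s x)⁻¹) * AA φ G s (cAA M) x := by
  obtain ⟨C, hC, hfe⟩ := field_estimates d
  obtain ⟨hc0, hc1, hc2, hc3, hc4⟩ := ka1_cAA M
  have hq : 1 ≤ 2 / cAA M := by
    rw [le_div_iff₀ hc0]; linarith
  refine ⟨C * (2 / cAA M) ^ (d + 2), by positivity, ?_⟩
  intro φ hφ s hs hs0 G hG x X hX
  have hsx := hs0 x
  have hO := ka1_isOpen hφ hs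
  obtain ⟨hball, -⟩ := ball_sub hφ hs hs0 hc0.le hc1 x
  obtain ⟨hint, hlint⟩ := ka1_lintegral_ball hG hball
  have hr : 0 < cAA M * s x / 2 := by positivity
  have hsub : Metric.closedBall X (cAA M * s x / 2) ⊆ Metric.closedBall ((x, φ x) : P d) (cAA M * s x) := by
    refine Metric.closedBall_subset_closedBall' ?_
    have := Metric.mem_closedBall.1 hX
    linarith
  obtain ⟨h1, h2⟩ := hfe _ hO G hG X _ hr (hsub.trans hball)
  have hI : ∫ Y in Metric.closedBall X (cAA M * s x / 2), nF G Y ≤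
      ∫ Y in Metric.closedBall ((x, φ x) : P d) (cAA M * s x), nF G Y :=
    setIntegral_mono_set hint (Filter.Eventually.of_forall fun Y => ka1_nF_nonneg G Y)
      (Filter.Eventually.of_forall hsub)
  have hI0 : 0 ≤ ∫ Y in Metric.closedBall ((x, φ x) : P d) (cAA M * s x), nF G Y :=
    integral_nonneg fun Y => ka1_nF_nonneg G Y
  unfold AA
  rw [hlint]
  generalize (∫ Y in Metric.closedBall ((x, φ x) : P d) (cAA M * s x), nF G Y) = I at hI hI0 ⊢
  have hr1 : ∀ m : ℕ, (cAA M * s x / 2) ^ m = ((2 / cAA M) ^ m)⁻¹ * (s x) ^ m := by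
    intro m
    rw [← inv_pow, ← mul_pow]
    congr 1
    field_simp
  constructor
  · rw [← ENNReal.ofReal_mul (by positivity), ← ENNReal.ofReal_mul (by positivity)]
    refine ENNReal.ofReal_le_ofReal (h1.trans ?_)
    have h3 : C / (cAA M * s x / 2) ^ (d + 1) = C * (2 / cAA M) ^ (d + 1) * ((s x) ^ (d + 1))⁻¹ := by
      rw [hr1]; field_simp
    rw [h3]
    have h4 : (2 / cAA M) ^ (d + 1) ≤ (2 / cAA M) ^ (d + 2) := pow_le_pow_right₀ hq (by omega)
    calc C * (2 / cAA M) ^ (d + 1) * ((s x) ^ (d + 1))⁻¹ *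
          (∫ Y in Metric.closedBall X (cAA M * s x / 2), nF G Y)
        ≤ C * (2 / cAA M) ^ (d + 1) * ((s x) ^ (d + 1))⁻¹ * I :=
          mul_le_mul_of_nonneg_left hI (by positivity)
      _ ≤ C * (2 / cAA M) ^ (d + 2) * ((s x) ^ (d + 1))⁻¹ * I := by
          gcongr
      _ = C * (2 / cAA M) ^ (d + 2) * (((s x) ^ (d + 1))⁻¹ * I) := by ring
  · intro a b
    rw [← ENNReal.ofReal_mul (by positivity), ← ENNReal.ofReal_mul (by positivity)]
    refine ENNReal.ofReal_le_ofReal ((h2 a b).trans ?_)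
    have h3 : C / (cAA M * s x / 2) ^ (d + 2) = C * (2 / cAA M) ^ (d + 2) * ((s x) ^ (d + 2))⁻¹ := by
      rw [hr1]; field_simp
    rw [h3]
    calc C * (2 / cAA M) ^ (d + 2) * ((s x) ^ (d + 2))⁻¹ *
          (∫ Y in Metric.closedBall X (cAA M * s x / 2), nF G Y)
        ≤ C * (2 / cAA M) ^ (d + 2) * ((s x) ^ (d + 2))⁻¹ * I :=
          mul_le_mul_of_nonneg_left hI (by positivity)
      _ = C * (2 / cAA M) ^ (d + 2) * (s x)⁻¹ * (((s x) ^ (d + 1))⁻¹ * I) := by
          rw [pow_succ (s x) (d + 1), mul_inv]; ring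

theorem AA_ne_top {M : ℝ≥0} {φ : E d → ℝ} (hφ : LipschitzWith M φ) {s : E d → ℝ} (hs : LipschitzWith (1 / 4) s) (hs0 : ∀ y, 0 < s y)
    {G : Ix d → P d → ℝ} (hG : IsField (above (fun y => φ y - s y)) G) {c : ℝ} (hc0 : 0 ≤ c) (hc : c ≤ 1 / (4 * (1 + M))) (x : E d) :
    AA φ G s c x ≠ ⊤ := by
  obtain ⟨hball, -⟩ := ball_sub hφ hs hs0 hc0 hc x
  obtain ⟨hint, hlint⟩ := ka1_lintegral_ball hG hball
  unfold AA
  rw [hlint]
  exact ENNReal.mul_ne_top ENNReal.ofReal_ne_top ENNReal.ofReal_ne_top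

/-- the field, cut off outside the domain -/
noncomputable def ka1H (φ s : E d → ℝ) (G : Ix d → P d → ℝ) : P d → ℝ≥0∞ :=
  (above (fun y => φ y - s y)).indicator fun X => ENNReal.ofReal (nF G X)

theorem ka1H_measurable {M : ℝ≥0} {φ : E d → ℝ} (hφ : LipschitzWith M φ) {s : E d → ℝ}
    (hs : LipschitzWith (1 / 4) s) {G : Ix d → P d → ℝ}
    (hG : IsField (above (fun y => φ y - s y)) G) : Measurable (ka1H φ s G) := by
  have hO := ka1_isOpen hφ hs
  have h1 : ContinuousOn (fun X => ENNReal.ofReal (nF G X)) (above (fun y => φ y - s y)) :=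
    ENNReal.continuous_ofReal.comp_continuousOn (ka1_nF_cont hG)
  classical
  have h2 : ka1H φ s G = (above (fun y => φ y - s y)).piecewise
      (fun X => ENNReal.ofReal (nF G X)) (fun _ => (0 : ℝ≥0∞)) :=
    (Set.piecewise_eq_indicator).symm
  rw [h2]
  exact h1.measurable_piecewise continuousOn_const hO.measurableSet

theorem ka1_AA_eq {M : ℝ≥0} {φ : E d → ℝ} (hφ : LipschitzWith M φ) {s : E d → ℝ}
    (hs : LipschitzWith (1 / 4) s) (hs0 : ∀ y, 0 < s y)
    (G : Ix d → P d → ℝ) {c : ℝ}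
    (hc0 : 0 ≤ c) (hc : c ≤ 1 / (4 * (1 + M))) (x : E d) :
    AA φ G s c x = ENNReal.ofReal (((s x) ^ (d + 1))⁻¹) *
      ∫⁻ X, (Metric.closedBall ((x, φ x) : P d) (c * s x)).indicator (ka1H φ s G) X := by
  obtain ⟨hball, -⟩ := ball_sub hφ hs hs0 hc0 hc x
  unfold AA
  rw [lintegral_indicator Metric.isClosed_closedBall.measurableSet]
  congr 1
  refine setLIntegral_congr_fun Metric.isClosed_closedBall.measurableSet fun X hX => ?_
  exact (Set.indicator_of_mem (hball hX) (fun X => ENNReal.ofReal (nF G X))).symm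

theorem ka1_measSet {φ s : E d → ℝ} (hφ : Continuous φ) (hs : Continuous s) (c : ℝ) :
    MeasurableSet {p : E d × P d | p.2 ∈ Metric.closedBall ((p.1, φ p.1) : P d) (c * s p.1)} := by
  have h : {p : E d × P d | p.2 ∈ Metric.closedBall ((p.1, φ p.1) : P d) (c * s p.1)} =
      {p : E d × P d | dist p.2 ((p.1, φ p.1) : P d) ≤ c * s p.1} := rfl
  rw [h]
  refine (isClosed_le ?_ ?_).measurableSet
  · exact continuous_snd.dist (continuous_fst.prodMk (hφ.comp continuous_fst))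
  · exact continuous_const.mul (hs.comp continuous_fst)

theorem AA_measurable {M : ℝ≥0} {φ : E d → ℝ} (hφ : LipschitzWith M φ) {s : E d → ℝ} (hs : LipschitzWith (1 / 4) s) (hs0 : ∀ y, 0 < s y)
    {G : Ix d → P d → ℝ} (hG : IsField (above (fun y => φ y - s y)) G) {c : ℝ} (hc0 : 0 ≤ c) (hc : c ≤ 1 / (4 * (1 + M))) :
    Measurable (AA φ G s c) := by
  have h : AA φ G s c = fun x => ENNReal.ofReal (((s x) ^ (d + 1))⁻¹) *
      ∫⁻ X, (Metric.closedBall ((x, φ x) : P d) (c * s x)).indicator (ka1H φ s G) X :=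
    funext fun x => ka1_AA_eq hφ hs hs0 G hc0 hc x
  rw [h]
  refine Measurable.mul ?_ ?_
  · exact ((hs.continuous.measurable.pow_const _).inv).ennreal_ofReal
  · have h2 : Measurable fun p : E d × P d =>
        {p : E d × P d | p.2 ∈ Metric.closedBall ((p.1, φ p.1) : P d) (c * s p.1)}.indicator
          (fun p => ka1H φ s G p.2) p :=
      ((ka1H_measurable hφ hs hG).comp measurable_snd).indicator
        (ka1_measSet hφ.continuous hs.continuous c)
    exact h2.lintegral_prod_right'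

/-- slow variation: if `‖x-z‖ ≤ c6 s(x)`, `c6 = cAA/(4(1+M))`, then the ball over `x` is contained in the ball with twice the constant over `z` -/
theorem AA_slow (d : ℕ) (M : ℝ≥0) : ∃ C : ℝ, 0 < C ∧ ∀ (φ : E d → ℝ), LipschitzWith M φ → ∀ (s : E d → ℝ), LipschitzWith (1 / 4) s →
    (∀ y, 0 < s y) → ∀ (G : Ix d → P d → ℝ) (x z : E d), ‖x - z‖ ≤ cAA M / (4 * (1 + M)) * s x →
    AA φ G s (cAA M) x ≤ ENNReal.ofReal C * AA φ G s (2 * cAA M) z := by
  obtain ⟨hc0, hc1, hc2, hc3, hc4⟩ := ka1_cAA M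
  have hM : (0 : ℝ) ≤ M := M.2
  refine ⟨2 ^ (d + 1), by positivity, ?_⟩
  intro φ hφ s hs hs0 G x z hxz
  have hsx := hs0 x
  have hsz := hs0 z
  have h1 := ka1_lip hs x z
  have h2 := ka1_lipφ hφ x z
  have h3 : (1 + M) * ‖x - z‖ ≤ cAA M * s x / 4 := by
    have := mul_le_mul_of_nonneg_left hxz (show (0 : ℝ) ≤ 1 + M by positivity)
    refine this.trans (le_of_eq ?_)
    field_simp
  have h0 := norm_nonneg (x - z)
  have h4 : ‖x - z‖ ≤ cAA M * s x / 4 := by nlinarith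
  have h5 : cAA M * s x ≤ 1 / 8 * s x := mul_le_mul_of_nonneg_right hc4 hsx.le
  have h6 := abs_le.1 h1
  have h7 : s z ≤ 2 * s x := by linarith [h6.1]
  have h8 : s x ≤ 16 / 15 * s z := by linarith [h6.2]
  have hsub : Metric.closedBall ((x, φ x) : P d) (cAA M * s x) ⊆
      Metric.closedBall ((z, φ z) : P d) (2 * cAA M * s z) := by
    refine Metric.closedBall_subset_closedBall' ?_
    have h9 : dist ((x, φ x) : P d) ((z, φ z) : P d) ≤ cAA M * s x / 4 := by
      rw [Prod.dist_eq, max_le_iff]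
      refine ⟨by rw [dist_eq_norm]; exact h4, ?_⟩
      rw [Real.dist_eq]
      refine h2.trans ?_
      nlinarith
    have h10 : cAA M * s x ≤ cAA M * (16 / 15 * s z) := mul_le_mul_of_nonneg_left h8 hc0.le
    have h11 : 0 < cAA M * s z := by positivity
    linarith
  unfold AA
  have h12 : ENNReal.ofReal (((s x) ^ (d + 1))⁻¹) ≤
      ENNReal.ofReal (2 ^ (d + 1)) * ENNReal.ofReal (((s z) ^ (d + 1))⁻¹) := by
    rw [← ENNReal.ofReal_mul (by positivity)]
    refine ENNReal.ofReal_le_ofReal ?_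
    have h13 : (s z) ^ (d + 1) ≤ 2 ^ (d + 1) * (s x) ^ (d + 1) := by
      rw [← mul_pow]
      exact pow_le_pow_left₀ hsz.le h7 _
    have h14 : 0 < (s x) ^ (d + 1) := by positivity
    have h15 : 0 < (s z) ^ (d + 1) := by positivity
    rw [← div_eq_mul_inv, le_div_iff₀ h15, inv_mul_le_iff₀ h14]
    linarith
  calc ENNReal.ofReal (((s x) ^ (d + 1))⁻¹) * ∫⁻ X in Metric.closedBall ((x, φ x) : P d) (cAA M * s x), ENNReal.ofReal (nF G X)
      ≤ (ENNReal.ofReal (2 ^ (d + 1)) * ENNReal.ofReal (((s z) ^ (d + 1))⁻¹)) *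
        ∫⁻ X in Metric.closedBall ((z, φ z) : P d) (2 * cAA M * s z), ENNReal.ofReal (nF G X) :=
        mul_le_mul' h12 (lintegral_mono_set hsub)
    _ = _ := by rw [mul_assoc]

/-- Cauchy-Schwarz for indicator functions. -/
theorem ka1_cs {B : Set (P d)} (hB : MeasurableSet B) {f : P d → ℝ≥0∞} (hf : Measurable f) :
    (∫⁻ X, B.indicator f X) ^ 2 ≤ volume B * ∫⁻ X, B.indicator (fun X => (f X) ^ 2) X := by
  have hpq : (2 : ℝ).HolderConjugate 2 := by
    rw [Real.holderConjugate_iff]; norm_num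
  have h := ENNReal.lintegral_mul_le_Lp_mul_Lq (volume.restrict B : Measure (P d)) hpq
    (f := fun _ => (1 : ℝ≥0∞)) (g := f) aemeasurable_const hf.aemeasurable
  rw [lintegral_indicator hB, lintegral_indicator hB]
  have e1 : ∫⁻ X in B, f X = ∫⁻ X in B, ((fun _ : P d => (1 : ℝ≥0∞)) * f) X := by
    refine lintegral_congr fun X => ?_
    simp
  have e2 : ∫⁻ _X in B, (1 : ℝ≥0∞) ^ (2 : ℝ) = volume B := by
    simp
  have e3 : ∫⁻ X in B, (f X) ^ (2 : ℝ) = ∫⁻ X in B, (f X) ^ 2 := by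
    refine lintegral_congr fun X => ?_
    exact ENNReal.rpow_ofNat _ 2
  rw [← e1, e2, e3] at h
  calc (∫⁻ X in B, f X) ^ 2 ≤ (volume B ^ (1 / (2 : ℝ)) * (∫⁻ X in B, (f X) ^ 2) ^ (1 / (2 : ℝ))) ^ 2 :=
        pow_le_pow_left' h 2
    _ = volume B * ∫⁻ X in B, (f X) ^ 2 := by
        rw [mul_pow, ← ENNReal.rpow_ofNat, ← ENNReal.rpow_ofNat, ← ENNReal.rpow_mul,
          ← ENNReal.rpow_mul]
        norm_num

theorem ka1_vol_ball (X : P d) {r : ℝ} (hr : 0 ≤ r) :
    volume (Metric.closedBall X r) = ENNReal.ofReal ((2 * r) ^ (d + 1)) := by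
  obtain ⟨x, t⟩ := X
  rw [← closedBall_prod_same, Measure.volume_eq_prod, Measure.prod_prod,
    Real.volume_pi_closedBall _ hr, Real.volume_closedBall, Fintype.card_fin,
    ← ENNReal.ofReal_mul (by positivity), pow_succ]

/-- one-dimensional change of variables -/
theorem ka1_cov (f : ℝ → ℝ≥0∞) (a : ℝ) {b : ℝ} (hb : 0 < b) :
    ∫⁻ t, f t = ENNReal.ofReal b * ∫⁻ θ, f (a + θ * b) := by
  have h1 : ∫⁻ t, f t = ∫⁻ t, f (a + t) := (lintegral_add_left_eq_self f a).symm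
  rw [h1]
  have h2 := Real.smul_map_volume_mul_right hb.ne'
  have h3 : MeasurableEmbedding (fun x : ℝ => x * b) :=
    (Homeomorph.mulRight₀ b hb.ne').measurableEmbedding
  calc ∫⁻ t, f (a + t) = ∫⁻ t, f (a + t) ∂(ENNReal.ofReal |b| • Measure.map (fun x => x * b) volume) := by
        rw [h2]
    _ = ENNReal.ofReal b * ∫⁻ t, f (a + t) ∂(Measure.map (fun x => x * b) volume) := by
        rw [lintegral_smul_measure, abs_of_pos hb, smul_eq_mul]
    _ = _ := by rw [h3.lintegral_map]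

theorem ka1_kernel {M : ℝ≥0} {φ : E d → ℝ} (hφ : LipschitzWith M φ) {s : E d → ℝ}
    (hs : LipschitzWith (1 / 4) s) (hs0 : ∀ y, 0 < s y) {c : ℝ} (hc0 : 0 ≤ c)
    (hc : c ≤ 1 / (4 * (1 + M))) (X : P d) (z : E d)
    (h : X ∈ Metric.closedBall ((z, φ z) : P d) (c * s z)) :
    |X.2 - φ X.1| ≤ s X.1 / 2 ∧ z ∈ Metric.closedBall X.1 (s X.1) ∧
      ((s z) ^ (d + 1))⁻¹ ≤ 2 ^ (d + 1) * ((s X.1) ^ (d + 1))⁻¹ := by
  have hM : (0 : ℝ) ≤ M := M.2
  have h1 := (ball_sub hφ hs hs0 hc0 hc z).2 X h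
  obtain ⟨h2, -⟩ := ka1_mem.1 h
  have h3 := ka1_lip hs X.1 z
  have hc4 : c ≤ 1 / 4 := by
    rw [le_div_iff₀ (by positivity)] at hc
    nlinarith
  have hz := hs0 z
  have hX := hs0 X.1
  have h4 : c * s z ≤ 1 / 4 * s z := mul_le_mul_of_nonneg_right hc4 hz.le
  have h5 := abs_le.1 h3
  have h6 : s z ≤ 16 / 15 * s X.1 := by linarith [h5.1]
  have h7 : s X.1 ≤ 2 * s z := by linarith [h5.2]
  refine ⟨h1, ?_, ?_⟩
  · rw [Metric.mem_closedBall, dist_comm, dist_eq_norm]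
    linarith
  · have h13 : (s X.1) ^ (d + 1) ≤ 2 ^ (d + 1) * (s z) ^ (d + 1) := by
      rw [← mul_pow]
      exact pow_le_pow_left₀ hX.le h7 _
    have h14 : 0 < (s X.1) ^ (d + 1) := by positivity
    have h15 : 0 < (s z) ^ (d + 1) := by positivity
    rw [← div_eq_mul_inv, le_div_iff₀ h14, inv_mul_le_iff₀ h15]
    linarith

/-- the strip -/
def ka1S (φ s : E d → ℝ) : Set (P d) := {X | |X.2 - φ X.1| ≤ s X.1 / 2}

theorem ka1S_measurable {φ s : E d → ℝ} (hφ : Continuous φ) (hs : Continuous s) :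
    MeasurableSet (ka1S φ s) := by
  refine (isClosed_le ?_ ?_).measurableSet
  · exact (continuous_snd.sub (hφ.comp continuous_fst)).abs
  · exact (hs.comp continuous_fst).div_const _

theorem ka1_strip {M : ℝ≥0} {φ : E d → ℝ} (hφ : LipschitzWith M φ) {s : E d → ℝ}
    (hs : LipschitzWith (1 / 4) s) (hs0 : ∀ y, 0 < s y) {G : Ix d → P d → ℝ}
    (hG : IsField (above (fun y => φ y - s y)) G) (K : ℝ≥0∞)
    (hK : ∀ θ : ℝ, |θ| ≤ 1 / 2 →
      ∫⁻ x : E d, ENNReal.ofReal ((nF G (x, φ x + θ * s x)) ^ 2) ≤ K) :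
    ∫⁻ X : P d, ENNReal.ofReal ((s X.1)⁻¹) *
      (ka1S φ s).indicator (fun X => (ka1H φ s G X) ^ 2) X ≤ K := by
  have hφc := hφ.continuous
  have hsc := hs.continuous
  have hJ : Measurable ((ka1S φ s).indicator (fun X => (ka1H φ s G X) ^ 2)) :=
    ((ka1H_measurable hφ hs hG).pow_const 2).indicator (ka1S_measurable hφc hsc)
  have hm1 : Measurable fun X : P d => ENNReal.ofReal ((s X.1)⁻¹) :=
    ((hsc.measurable.comp measurable_fst).inv).ennreal_ofReal
  rw [Measure.volume_eq_prod, lintegral_prod (fun X : P d => ENNReal.ofReal ((s X.1)⁻¹) *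
      (ka1S φ s).indicator (fun X => (ka1H φ s G X) ^ 2) X) (hm1.mul hJ).aemeasurable]
  have h1 : ∀ y : E d, ∫⁻ t : ℝ, ENNReal.ofReal ((s y)⁻¹) *
      (ka1S φ s).indicator (fun X => (ka1H φ s G X) ^ 2) (y, t) =
      ∫⁻ θ : ℝ, (ka1S φ s).indicator (fun X => (ka1H φ s G X) ^ 2) (y, φ y + θ * s y) := by
    intro y
    have hy := hs0 y
    rw [lintegral_const_mul' _ _ ENNReal.ofReal_ne_top,
      ka1_cov (fun t => (ka1S φ s).indicator (fun X => (ka1H φ s G X) ^ 2) (y, t)) (φ y) hy,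
      ← mul_assoc, ← ENNReal.ofReal_mul (by positivity), inv_mul_cancel₀ hy.ne',
      ENNReal.ofReal_one, one_mul]
  have h1' : ∫⁻ y : E d, ∫⁻ t : ℝ, ENNReal.ofReal ((s y)⁻¹) *
      (ka1S φ s).indicator (fun X => (ka1H φ s G X) ^ 2) (y, t) =
      ∫⁻ y : E d, ∫⁻ θ : ℝ,
        (ka1S φ s).indicator (fun X => (ka1H φ s G X) ^ 2) (y, φ y + θ * s y) :=
    lintegral_congr h1
  rw [h1']
  have hJ2 : Measurable fun p : E d × ℝ =>
      (ka1S φ s).indicator (fun X => (ka1H φ s G X) ^ 2) (p.1, φ p.1 + p.2 * s p.1) := by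
    refine hJ.comp ?_
    exact measurable_fst.prodMk ((hφc.measurable.comp measurable_fst).add
      (measurable_snd.mul (hsc.measurable.comp measurable_fst)))
  rw [lintegral_lintegral_swap (f := fun (y : E d) (θ : ℝ) =>
    (ka1S φ s).indicator (fun X => (ka1H φ s G X) ^ 2) (y, φ y + θ * s y)) hJ2.aemeasurable]
  have h2 : ∀ θ : ℝ, ∫⁻ y : E d,
      (ka1S φ s).indicator (fun X => (ka1H φ s G X) ^ 2) (y, φ y + θ * s y) ≤
      (Icc (-(1 / 2) : ℝ) (1 / 2)).indicator (fun _ => K) θ := by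
    intro θ
    by_cases hθ : θ ∈ Icc (-(1 / 2) : ℝ) (1 / 2)
    · rw [Set.indicator_of_mem hθ]
      refine le_trans (lintegral_mono fun y => ?_) (hK θ (abs_le.2 hθ))
      refine le_trans (Set.indicator_le_self _ _ _) ?_
      have hy := hs0 y
      have hmem : ((y, φ y + θ * s y) : P d) ∈ above (fun y => φ y - s y) := by
        change φ y - s y < φ y + θ * s y
        have := hθ.1
        nlinarith
      have h3 : ka1H φ s G (y, φ y + θ * s y) = ENNReal.ofReal (nF G (y, φ y + θ * s y)) :=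
        Set.indicator_of_mem hmem (fun X => ENNReal.ofReal (nF G X))
      rw [h3, ENNReal.ofReal_pow (ka1_nF_nonneg G _)]
    · rw [Set.indicator_of_notMem hθ]
      refine le_of_eq ?_
      rw [← lintegral_zero_fun (α := E d) (μ := volume)]
      refine lintegral_congr fun y => ?_
      refine Set.indicator_of_notMem ?_ _
      intro hmem
      have h4 : |(φ y + θ * s y) - φ y| ≤ s y / 2 := hmem
      have hy := hs0 y
      rw [add_sub_cancel_left, abs_mul, abs_of_pos hy] at h4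
      refine hθ (abs_le.1 ?_)
      by_contra hc
      push Not at hc
      nlinarith
  refine (lintegral_mono h2).trans ?_
  rw [lintegral_indicator measurableSet_Icc, lintegral_const, Measure.restrict_apply_univ,
    Real.volume_Icc]
  norm_num

/-- `L²` bound: Cauchy-Schwarz, Fubini with `Y = (y, φ y + θ s y)`, `dY = s y dy dθ`, `|{z : Y ∈ ball(z)}| ≤ C s(y)^d`. -/
theorem AA_sq (d : ℕ) (M : ℝ≥0) : ∃ C : ℝ, 0 < C ∧ ∀ (φ : E d → ℝ), LipschitzWith M φ → ∀ (s : E d → ℝ), LipschitzWith (1 / 4) s →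
    (∀ y, 0 < s y) → ∀ (G : Ix d → P d → ℝ), IsField (above (fun y => φ y - s y)) G → ∀ K : ℝ≥0∞,
    (∀ θ : ℝ, |θ| ≤ 1 / 2 → ∫⁻ x : E d, ENNReal.ofReal ((nF G (x, φ x + θ * s x)) ^ 2) ≤ K) →
    ∫⁻ z : E d, (AA φ G s (2 * cAA M) z) ^ 2 ≤ ENNReal.ofReal C * K := by
  obtain ⟨hcp, hc1, hc2, hc3, hc4⟩ := ka1_cAA M
  have hc0 : 0 < 2 * cAA M := by positivity
  generalize 2 * cAA M = c at hc0 hc2 ⊢
  refine ⟨(2 * c) ^ (d + 1) * 2 ^ (2 * d + 1), by positivity, ?_⟩
  intro φ hφ s hs hs0 G hG K hK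
  have hφc := hφ.continuous
  have hsc := hs.continuous
  have hHm := ka1H_measurable hφ hs hG
  -- the kernel
  let k : E d → P d → ℝ≥0∞ := fun z X => ENNReal.ofReal (((s z) ^ (d + 1))⁻¹) *
    (Metric.closedBall ((z, φ z) : P d) (c * s z)).indicator (fun X => (ka1H φ s G X) ^ 2) X
  have hkm : Measurable fun p : E d × P d => k p.1 p.2 := by
    have h1 : Measurable fun p : E d × P d => ENNReal.ofReal (((s p.1) ^ (d + 1))⁻¹) :=
      (((hsc.measurable.comp measurable_fst).pow_const _).inv).ennreal_ofReal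
    have h2 : Measurable fun p : E d × P d =>
        {p : E d × P d | p.2 ∈ Metric.closedBall ((p.1, φ p.1) : P d) (c * s p.1)}.indicator
          (fun p => (ka1H φ s G p.2) ^ 2) p :=
      ((hHm.comp measurable_snd).pow_const 2).indicator (ka1_measSet hφc hsc c)
    exact h1.mul h2
  have step1 : ∀ z : E d, (AA φ G s c z) ^ 2 ≤ ENNReal.ofReal ((2 * c) ^ (d + 1)) * ∫⁻ X, k z X := by
    intro z
    have hz := hs0 z
    rw [ka1_AA_eq hφ hs hs0 G hc0.le hc2 z, mul_pow]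
    have h1 := ka1_cs (Metric.isClosed_closedBall (x := ((z, φ z) : P d)) (ε := c * s z)).measurableSet hHm
    refine (mul_le_mul' le_rfl h1).trans (le_of_eq ?_)
    rw [ka1_vol_ball _ (by positivity)]
    have h2 : ∫⁻ X, k z X = ENNReal.ofReal (((s z) ^ (d + 1))⁻¹) *
        ∫⁻ X, (Metric.closedBall ((z, φ z) : P d) (c * s z)).indicator
          (fun X => (ka1H φ s G X) ^ 2) X :=
      lintegral_const_mul' _ _ ENNReal.ofReal_ne_top
    have h3 : ENNReal.ofReal (((s z) ^ (d + 1))⁻¹) ^ 2 * ENNReal.ofReal ((2 * (c * s z)) ^ (d + 1)) =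
        ENNReal.ofReal ((2 * c) ^ (d + 1)) * ENNReal.ofReal (((s z) ^ (d + 1))⁻¹) := by
      rw [← ENNReal.ofReal_pow (by positivity), ← ENNReal.ofReal_mul (by positivity),
        ← ENNReal.ofReal_mul (by positivity)]
      congr 1
      rw [show 2 * (c * s z) = (2 * c) * s z by ring, mul_pow (2 * c) (s z)]
      field_simp
    rw [h2, ← mul_assoc (ENNReal.ofReal (((s z) ^ (d + 1))⁻¹) ^ 2), h3, mul_assoc]
  have step2 : ∫⁻ z : E d, (AA φ G s c z) ^ 2 ≤
      ENNReal.ofReal ((2 * c) ^ (d + 1)) * ∫⁻ X, ∫⁻ z, k z X := by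
    refine (lintegral_mono step1).trans (le_of_eq ?_)
    rw [lintegral_const_mul' _ _ ENNReal.ofReal_ne_top,
      lintegral_lintegral_swap (f := k) hkm.aemeasurable]
  have step3 : ∀ X : P d, ∫⁻ z, k z X ≤ ENNReal.ofReal (2 ^ (2 * d + 1)) *
      (ENNReal.ofReal ((s X.1)⁻¹) * (ka1S φ s).indicator (fun X => (ka1H φ s G X) ^ 2) X) := by
    intro X
    have hX := hs0 X.1
    have h1 : ∀ z, k z X ≤ (Metric.closedBall X.1 (s X.1)).indicator (fun _ =>
        ENNReal.ofReal (2 ^ (d + 1) * ((s X.1) ^ (d + 1))⁻¹) *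
        (ka1S φ s).indicator (fun X => (ka1H φ s G X) ^ 2) X) z := by
      intro z
      by_cases hz : X ∈ Metric.closedBall ((z, φ z) : P d) (c * s z)
      · obtain ⟨h2, h3, h4⟩ := ka1_kernel hφ hs hs0 hc0.le hc2 X z hz
        have h5 : X ∈ ka1S φ s := h2
        rw [Set.indicator_of_mem h3, Set.indicator_of_mem h5]
        change ENNReal.ofReal (((s z) ^ (d + 1))⁻¹) * _ ≤ _
        rw [Set.indicator_of_mem hz]
        exact mul_le_mul' (ENNReal.ofReal_le_ofReal h4) le_rfl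
      · change ENNReal.ofReal (((s z) ^ (d + 1))⁻¹) * _ ≤ _
        rw [Set.indicator_of_notMem hz, mul_zero]
        exact zero_le
    refine (lintegral_mono h1).trans (le_of_eq ?_)
    rw [lintegral_indicator Metric.isClosed_closedBall.measurableSet, lintegral_const,
      Measure.restrict_apply_univ, Real.volume_pi_closedBall _ hX.le, Fintype.card_fin,
      ← mul_assoc, mul_right_comm, ← ENNReal.ofReal_mul (by positivity),
      ← ENNReal.ofReal_mul (by positivity)]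
    congr 2
    rw [mul_pow 2 (s X.1) d, pow_succ (s X.1) d, mul_inv, show 2 * d + 1 = d + 1 + d by ring,
      pow_add 2 (d + 1) d]
    field_simp
  refine step2.trans ?_
  have step4 : ∫⁻ X, ∫⁻ z, k z X ≤ ENNReal.ofReal (2 ^ (2 * d + 1)) * K := by
    refine (lintegral_mono step3).trans ?_
    rw [lintegral_const_mul' _ _ ENNReal.ofReal_ne_top]
    exact mul_le_mul' le_rfl (ka1_strip hφ hs hs0 hG K hK)
  refine (mul_le_mul' le_rfl step4).trans (le_of_eq ?_)
  rw [← mul_assoc, ← ENNReal.ofReal_mul (by positivity)]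

end HG
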