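import Pool.Agent.W_MP_825298_an.KDefs
import Pool.Agent.W_MP_825298_an.CertAlg5
import Pool.Agent.W_MP_825298_an.Above

open MeasureTheory Set Filter Topology
open scoped ENNReal NNReal BigOperators

namespace HG
variable {d : ℕ}

theorem Kb1_nF_nonneg (F : Ix d → P d → ℝ) (X : P d) : 0 ≤ nF F X :=
  Finset.sum_nonneg fun _ _ => abs_nonneg _

/-- `1 ≤ (cρ)^{1/2} τ^{-1/2}` on `(0,cρ]` -/
theorem wE_le_WdE (φ : E d → ℝ) (F : Ix d → P d → ℝ) {c ρ : ℝ} (hc : 0 < c) (hρ : 0 < ρ) (x : E d) :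
    wE φ F c x ρ ≤ ENNReal.ofReal (Real.sqrt c) * WdE φ F c x ρ := by
  have hcρ : 0 < c * ρ := mul_pos hc hρ
  have h1 : ∀ y : E d, ∫⁻ τ in Ioc (0 : ℝ) (c * ρ), ENNReal.ofReal (nF F (y, φ y + τ)) ≤
      ENNReal.ofReal (Real.sqrt (c * ρ)) * ∫⁻ τ in Ioc (0 : ℝ) (c * ρ),
        ENNReal.ofReal (nF F (y, φ y + τ) * τ ^ (-(1 / 2) : ℝ)) := by
    intro y
    rw [← lintegral_const_mul' _ _ ENNReal.ofReal_ne_top]
    refine setLIntegral_mono' measurableSet_Ioc fun τ hτ => ?_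
    rw [← ENNReal.ofReal_mul (Real.sqrt_nonneg _)]
    refine ENNReal.ofReal_le_ofReal ?_
    have h2 : 1 ≤ Real.sqrt (c * ρ) * τ ^ (-(1 / 2) : ℝ) := by
      rw [Real.rpow_neg hτ.1.le, ← Real.sqrt_eq_rpow, ← div_eq_mul_inv, one_le_div (Real.sqrt_pos.2 hτ.1)]
      exact Real.sqrt_le_sqrt hτ.2
    nlinarith [Kb1_nF_nonneg F (y, φ y + τ)]
  have h2 : ∫⁻ y in Metric.closedBall x (c * ρ), ∫⁻ τ in Ioc (0 : ℝ) (c * ρ), ENNReal.ofReal (nF F (y, φ y + τ)) ≤
      ENNReal.ofReal (Real.sqrt (c * ρ)) * ∫⁻ y in Metric.closedBall x (c * ρ), ∫⁻ τ in Ioc (0 : ℝ) (c * ρ),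
        ENNReal.ofReal (nF F (y, φ y + τ) * τ ^ (-(1 / 2) : ℝ)) := by
    rw [← lintegral_const_mul' _ _ ENNReal.ofReal_ne_top]
    exact lintegral_mono fun y => h1 y
  unfold wE WdE
  refine (mul_le_mul_right h2 _).trans (le_of_eq ?_)
  rw [← mul_assoc, ← mul_assoc, ← ENNReal.ofReal_mul (by positivity), ← ENNReal.ofReal_mul (Real.sqrt_nonneg _)]
  congr 2
  rw [Real.sqrt_mul hc.le, Real.sqrt_eq_rpow ρ]
  have h3 : (ρ ^ (d + 1))⁻¹ = ρ ^ (-((d : ℝ) + 1)) := by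
    rw [Real.rpow_neg hρ.le, ← Real.rpow_natCast]
    push_cast
    rfl
  rw [h3, mul_left_comm, ← Real.rpow_add hρ]
  congr 2
  ring

/-- monotonicity of boxes -/
theorem WdE_mono (φ : E d → ℝ) (F : Ix d → P d → ℝ) {c c' ρ ρ' : ℝ} {x x' : E d} (hρ' : 0 < ρ') (hρ : ρ' ≤ ρ)
    (h : ‖x' - x‖ + c' * ρ' ≤ c * ρ) :
    WdE φ F c' x' ρ' ≤ ENNReal.ofReal ((ρ / ρ') ^ ((d : ℝ) + 1 / 2)) * WdE φ F c x ρ := by
  have hρ0 : 0 < ρ := hρ'.trans_le hρ
  unfold WdE
  rw [← mul_assoc, ← ENNReal.ofReal_mul (by positivity)]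
  have h1 : (ρ / ρ') ^ ((d : ℝ) + 1 / 2) * ρ ^ (-((d : ℝ) + 1 / 2)) = ρ' ^ (-((d : ℝ) + 1 / 2)) := by
    rw [Real.div_rpow hρ0.le hρ'.le, Real.rpow_neg hρ0.le, Real.rpow_neg hρ'.le]
    have : ρ ^ ((d : ℝ) + 1 / 2) ≠ 0 := (Real.rpow_pos_of_pos hρ0 _).ne'
    field_simp
  rw [h1]
  refine mul_le_mul_right ?_ _
  have h2 : Metric.closedBall x' (c' * ρ') ⊆ Metric.closedBall x (c * ρ) := by
    refine Metric.closedBall_subset_closedBall' ?_
    rw [dist_eq_norm]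
    linarith
  have h3 : Ioc (0 : ℝ) (c' * ρ') ⊆ Ioc (0 : ℝ) (c * ρ) :=
    Ioc_subset_Ioc_right (by linarith [norm_nonneg (x' - x)])
  refine (lintegral_mono_set h2).trans (lintegral_mono fun y => lintegral_mono_set h3)

theorem WdE_grow (φ : E d → ℝ) (F : Ix d → P d → ℝ) {c : ℝ} (hc : 2 ≤ c) (x x' : E d) {r : ℝ} (hr : 0 < r)
    (h : ‖x' - x‖ ≤ r) : WdE φ F c x' (r / 2) ≤ ENNReal.ofReal ((2 : ℝ) ^ ((d : ℝ) + 1 / 2)) * WdE φ F c x r := by
  have h1 := WdE_mono φ F (c := c) (c' := c) (ρ := r) (ρ' := r / 2) (x := x) (x' := x') (by linarith) (by linarith)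
    (by nlinarith)
  have h2 : r / (r / 2) = 2 := by field_simp
  rwa [h2] at h1

theorem Kb1_cont {M : ℝ≥0} {φ : E d → ℝ} {U : Set (P d)} {F : Ix d → P d → ℝ} (h : GFd M φ U F) :
    Continuous (fun p : E d × ℝ => nF F (p.1, φ p.1 + max p.2 0)) := by
  unfold nF
  refine continuous_finsetSum _ fun a _ => Continuous.abs ?_
  have hg : Continuous (fun p : E d × ℝ => ((p.1, φ p.1 + max p.2 0) : P d)) :=
    continuous_fst.prodMk ((h.lip.continuous.comp continuous_fst).add (continuous_snd.max continuous_const))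
  refine ((h.fld.cd a).continuousOn).comp_continuous hg fun p => h.sub ?_
  show φ p.1 ≤ φ p.1 + max p.2 0
  linarith [le_max_right p.2 0]

theorem Kb1_inner {M : ℝ≥0} {φ : E d → ℝ} {U : Set (P d)} {F : Ix d → P d → ℝ} (h : GFd M φ U F) (R : ℝ) :
    Measurable (fun y : E d => ∫⁻ τ in Ioc (0 : ℝ) R, ENNReal.ofReal (nF F (y, φ y + τ) * τ ^ (-(1 / 2) : ℝ))) := by
  have h1 : ∀ y : E d, ∫⁻ τ in Ioc (0 : ℝ) R, ENNReal.ofReal (nF F (y, φ y + τ) * τ ^ (-(1 / 2) : ℝ)) =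
      ∫⁻ τ in Ioc (0 : ℝ) R, ENNReal.ofReal (nF F (y, φ y + max τ 0) * τ ^ (-(1 / 2) : ℝ)) := by
    intro y
    refine setLIntegral_congr_fun measurableSet_Ioc fun τ hτ => ?_
    simp only [max_eq_left hτ.1.le]
  simp only [h1]
  have h2 : Measurable (fun p : E d × ℝ => ENNReal.ofReal (nF F (p.1, φ p.1 + max p.2 0) * p.2 ^ (-(1 / 2) : ℝ))) :=
    ((Kb1_cont h).measurable.mul (measurable_snd.pow_const _)).ennreal_ofReal
  exact Measurable.lintegral_prod_right' (ν := (volume : Measure ℝ).restrict (Ioc (0 : ℝ) R)) h2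

theorem WdE_measurable {M : ℝ≥0} {φ : E d → ℝ} {U : Set (P d)} {F : Ix d → P d → ℝ} (h : GFd M φ U F) (c r : ℝ) :
    Measurable (fun x => WdE φ F c x r) := by
  unfold WdE
  refine Measurable.const_mul ?_ _
  set Ψ : E d → ℝ≥0∞ := fun y => ∫⁻ τ in Ioc (0 : ℝ) (c * r), ENNReal.ofReal (nF F (y, φ y + τ) * τ ^ (-(1 / 2) : ℝ)) with hΨ
  have hm : Measurable Ψ := Kb1_inner h (c * r)
  have h1 : ∀ x : E d, ∫⁻ y in Metric.closedBall x (c * r), Ψ y =
      ∫⁻ y, ({p : E d × E d | dist p.2 p.1 ≤ c * r}.indicator (fun p => Ψ p.2)) (x, y) := by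
    intro x
    rw [← lintegral_indicator Metric.isClosed_closedBall.measurableSet]
    refine lintegral_congr fun y => ?_
    by_cases hy : y ∈ Metric.closedBall x (c * r)
    · rw [indicator_of_mem hy, indicator_of_mem]
      exact hy
    · rw [indicator_of_notMem hy, indicator_of_notMem]
      exact hy
  simp only [h1]
  refine Measurable.lintegral_prod_right' (ν := (volume : Measure (E d))) ?_
  refine (hm.comp measurable_snd).indicator ?_
  exact (isClosed_le (continuous_snd.dist continuous_fst) continuous_const).measurableSet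

/-- finiteness: `F` is bounded on the compact box (closed domain part) -/
theorem WdE_ne_top {M : ℝ≥0} {φ : E d → ℝ} {U : Set (P d)} {F : Ix d → P d → ℝ} (h : GFd M φ U F) (c : ℝ) (x : E d)
    {r : ℝ} (hr : 0 < r) : WdE φ F c x r ≠ ⊤ := by
  unfold WdE
  refine ENNReal.mul_ne_top ENNReal.ofReal_ne_top ?_
  have hK : IsCompact (Metric.closedBall x (c * r) ×ˢ Icc (0 : ℝ) (c * r)) :=
    (isCompact_closedBall _ _).prod isCompact_Icc
  obtain ⟨B, hB⟩ := (hK.image (Kb1_cont h)).bddAbove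
  have hB1 : ∀ y ∈ Metric.closedBall x (c * r), ∀ τ ∈ Ioc (0 : ℝ) (c * r), nF F (y, φ y + τ) ≤ max B 0 := by
    intro y hy τ hτ
    have h1 : nF F (y, φ y + max τ 0) ≤ B := hB ⟨(y, τ), ⟨hy, hτ.1.le, hτ.2⟩, rfl⟩
    rw [max_eq_left hτ.1.le] at h1
    exact h1.trans (le_max_left _ _)
  have h1 : ∀ y ∈ Metric.closedBall x (c * r), ∫⁻ τ in Ioc (0 : ℝ) (c * r), ENNReal.ofReal (nF F (y, φ y + τ) * τ ^ (-(1 / 2) : ℝ))
      ≤ ENNReal.ofReal (max B 0) * ∫⁻ τ in Ioc (0 : ℝ) (c * r), ENNReal.ofReal (τ ^ (-(1 / 2) : ℝ)) := by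
    intro y hy
    rw [← lintegral_const_mul' _ _ ENNReal.ofReal_ne_top]
    refine setLIntegral_mono' measurableSet_Ioc fun τ hτ => ?_
    rw [← ENNReal.ofReal_mul (le_max_right _ _)]
    exact ENNReal.ofReal_le_ofReal (mul_le_mul_of_nonneg_right (hB1 y hy τ hτ) (Real.rpow_nonneg hτ.1.le _))
  refine ne_top_of_le_ne_top ?_ (setLIntegral_mono' Metric.isClosed_closedBall.measurableSet h1)
  rw [setLIntegral_const]
  refine ENNReal.mul_ne_top (ENNReal.mul_ne_top ENNReal.ofReal_ne_top ?_) (isCompact_closedBall x _).measure_lt_top.ne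
  by_cases hc : 0 ≤ c * r
  · have h2 : IntegrableOn (fun τ : ℝ => τ ^ (-(1 / 2) : ℝ)) (Ioc 0 (c * r)) := by
      have := (intervalIntegral.intervalIntegrable_rpow' (a := 0) (b := c * r) (r := (-(1 / 2) : ℝ)) (by norm_num)).1
      exact this
    exact (h2.lintegral_lt_top).ne
  · rw [Ioc_eq_empty (by intro h3; exact hc h3.le)]
    simp

/-- the boundary data are locally integrable (bounded on bounded sets, measurable) -/
theorem hb_locallyIntegrable {M : ℝ≥0} {φ : E d → ℝ} {U : Set (P d)} {F : Ix d → P d → ℝ} (h : GFd M φ U F) :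
    LocallyIntegrable (hb φ F) := by
  obtain ⟨C, hC, hCb⟩ := hb_norm_le d M
  have hc : Continuous (fun x : E d => C * nF F (x, φ x)) := by
    have h1 : Continuous (fun x : E d => ((x, (0 : ℝ)) : E d × ℝ)) := continuous_id.prodMk continuous_const
    have h2 := (Kb1_cont h).comp h1
    simp only [Function.comp_def, max_self, add_zero] at h2
    exact continuous_const.mul h2
  refine (hc.locallyIntegrable).mono (hb_measurable h.lip h.sub fun a => (h.fld.cd a).continuousOn).aestronglyMeasurable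
    (Filter.Eventually.of_forall fun x => ?_)
  refine (hCb φ h.lip F x).trans ?_
  rw [Real.norm_eq_abs]
  exact le_abs_self _

end HG
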