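import Pool.Agent.W_MP_825298_an.KDefs
import Pool.Agent.W_MP_825298_an.Cert2
import Pool.Agent.W_MP_825298_an.Spl3
import Pool.Agent.W_MP_825298_an.Above

open MeasureTheory Set Filter Topology
open scoped ENNReal NNReal BigOperators

namespace HG
variable {d : ℕ}

theorem Kb2_pdA (x : E d) {r : ℝ} (hr : 0 < r) (b : Ix d) (X : P d) :
    DifferentiableAt ℝ (fun X : P d => pk (r⁻¹ • (X.1 - x))) X ∧
    |pd b (fun X : P d => pk (r⁻¹ • (X.1 - x))) X| ≤ r⁻¹ := by
  have h1 : HasFDerivAt (fun X : P d => r⁻¹ • (X.1 - x))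
      (r⁻¹ • ContinuousLinearMap.fst ℝ (E d) ℝ) X := by
    have h2 : HasFDerivAt (fun X : P d => X.1 - x) (ContinuousLinearMap.fst ℝ (E d) ℝ) X :=
      hasFDerivAt_fst.sub_const x
    exact h2.const_smul r⁻¹
  have hpd : DifferentiableAt ℝ (pk (d := d)) (r⁻¹ • (X.1 - x)) :=
    (pk_contDiff.differentiable (by norm_num)).differentiableAt
  have h3 := hpd.hasFDerivAt.comp X h1
  refine ⟨h3.differentiableAt, ?_⟩
  have h4 : pd b (fun X : P d => pk (r⁻¹ • (X.1 - x))) X =
      fderiv ℝ pk (r⁻¹ • (X.1 - x)) (r⁻¹ • (eb b).1) := by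
    unfold pd
    have h5 : fderiv ℝ (fun X : P d => pk (r⁻¹ • (X.1 - x))) X = _ := h3.fderiv
    rw [h5]
    rfl
  rw [h4, map_smul, smul_eq_mul, abs_mul, abs_of_pos (inv_pos.2 hr)]
  cases b with
  | none =>
    simp only [eb, map_zero, abs_zero, mul_zero]
    exact (inv_pos.2 hr).le
  | some i =>
    simp only [eb]
    exact mul_le_of_le_one_right (inv_pos.2 hr).le (pk_fderiv_le _ i)

theorem Kb2_pdB {η : ℝ → ℝ} (hη : Differentiable ℝ η) {C : ℝ} (hC : ∀ s, |deriv η s| ≤ C)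
    (t₀ : ℝ) {r : ℝ} (hr : 0 < r) (b : Ix d) (X : P d) :
    DifferentiableAt ℝ (fun X : P d => η (r⁻¹ * (X.2 - t₀))) X ∧
    |pd b (fun X : P d => η (r⁻¹ * (X.2 - t₀))) X| ≤ C * r⁻¹ := by
  have hC0 : 0 ≤ C := (abs_nonneg _).trans (hC 0)
  have h1 : HasFDerivAt (fun X : P d => r⁻¹ * (X.2 - t₀))
      (r⁻¹ • ContinuousLinearMap.snd ℝ (E d) ℝ) X := by
    have h2 : HasFDerivAt (fun X : P d => X.2 - t₀) (ContinuousLinearMap.snd ℝ (E d) ℝ) X :=
      hasFDerivAt_snd.sub_const t₀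
    exact h2.const_mul r⁻¹
  have h3 := (hη (r⁻¹ * (X.2 - t₀))).hasDerivAt.comp_hasFDerivAt X h1
  refine ⟨h3.differentiableAt, ?_⟩
  have h4 : pd b (fun X : P d => η (r⁻¹ * (X.2 - t₀))) X =
      deriv η (r⁻¹ * (X.2 - t₀)) * (r⁻¹ * (eb b).2) := by
    unfold pd
    have h5 : fderiv ℝ (fun X : P d => η (r⁻¹ * (X.2 - t₀))) X = _ := h3.fderiv
    rw [h5]
    simp
  rw [h4, abs_mul, abs_mul, abs_of_pos (inv_pos.2 hr)]
  have h6 : |(eb b : P d).2| ≤ 1 := by
    cases b <;> simp [eb]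
  calc |deriv η (r⁻¹ * (X.2 - t₀))| * (r⁻¹ * |(eb b : P d).2|) ≤ C * (r⁻¹ * 1) := by
        refine mul_le_mul (hC _) ?_ (by positivity) hC0
        exact mul_le_mul_of_nonneg_left h6 (inv_pos.2 hr).le
    _ = C * r⁻¹ := by rw [mul_one]

theorem Kb2_pd_mul {f g : P d → ℝ} {X : P d} (hf : DifferentiableAt ℝ f X)
    (hg : DifferentiableAt ℝ g X) (b : Ix d) :
    pd b (fun X => f X * g X) X = f X * pd b g X + pd b f X * g X := by
  unfold pd
  rw [fderiv_fun_mul hf hg]
  simp [mul_comm]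

/-- `m(x,r) = ∫ r^{-d} p((z-x)/r) h(z) dz`; `test_ineq` with `χ(z,t) = r^{-d} p((z-x)/r) η((t-φ x)/r)`, `η` a smooth function, `= 1` on
`|s| ≤ 2M`, `= 0` for `|s| ≥ 2M+1`; `|∇χ| ≤ C r^{-d-1}`, and `supp χ ∩ above φ` is contained in `‖z-x‖ ≤ 2r`, `0 < t-φ z ≤ (4M+1) r`. -/
theorem avg_le_wE (hd : 1 ≤ d) (M : ℝ≥0) : ∃ C : ℝ≥0, ∀ (φ : E d → ℝ) (U : Set (P d)) (F : Ix d → P d → ℝ), GFd M φ U F →
    ∀ (x : E d) (r : ℝ), 0 < r → ‖avg (hb φ F) x r‖ₑ ≤ C * wE φ F (c0 M) x r := by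
  classical
  have hM : (0 : ℝ) ≤ M := M.2
  obtain ⟨Ct, hCt, htest⟩ := test_ineq d
  -- the vertical cutoff
  let η : ContDiffBump (0 : ℝ) :=
    { rIn := 2 * M + 1 / 2, rOut := 2 * M + 1, rIn_pos := by positivity, rIn_lt_rOut := by linarith }
  have hηc : ContDiff ℝ 2 (η : ℝ → ℝ) := η.contDiff
  have hηd : Differentiable ℝ (η : ℝ → ℝ) := hηc.differentiable (by norm_num)
  have hη1 : ∀ s : ℝ, |s| ≤ 2 * M → η s = 1 := by
    intro s hs
    refine η.one_of_mem_closedBall ?_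
    rw [Metric.mem_closedBall, Real.dist_eq, sub_zero]
    have : (2 : ℝ) * M ≤ 2 * M + 1 / 2 := by linarith
    exact hs.trans this
  have hη0 : ∀ s : ℝ, 2 * M + 1 ≤ |s| → η s = 0 := by
    intro s hs
    exact η.zero_of_le_dist (by rw [Real.dist_eq, sub_zero]; exact hs)
  obtain ⟨Cη, hCη⟩ : ∃ C : ℝ, ∀ s, |deriv (η : ℝ → ℝ) s| ≤ C := by
    have h1 : Continuous (deriv (η : ℝ → ℝ)) := hηc.continuous_deriv (by norm_num)
    obtain ⟨C, hC⟩ := h1.bounded_above_of_compact_support η.hasCompactSupport.deriv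
    exact ⟨C, hC⟩
  have hCη0 : 0 ≤ Cη := (abs_nonneg _).trans (hCη 0)
  set n : ℝ := (Fintype.card (Ix d) : ℝ) with hn
  have hn0 : 0 ≤ n := Nat.cast_nonneg _
  set C' : ℝ := Ct * (n * (Cη + 1)) with hC'
  have hC'0 : 0 ≤ C' := by positivity
  refine ⟨C'.toNNReal, ?_⟩
  intro φ U F hG x r hr
  have hri : 0 < r⁻¹ := inv_pos.2 hr
  have hφ := hG.lip
  -- the test function
  set cr : ℝ := (r ^ d)⁻¹ with hcr
  have hcr0 : 0 < cr := by positivity
  set fA : P d → ℝ := fun X => pk (r⁻¹ • (X.1 - x)) with hfA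
  set fB : P d → ℝ := fun X => η (r⁻¹ * (X.2 - φ x)) with hfB
  set χ : P d → ℝ := fun X => cr * (fA X * fB X) with hχ
  have hfAc : ContDiff ℝ 2 fA :=
    pk_contDiff.comp ((contDiff_fst.sub contDiff_const).const_smul r⁻¹)
  have hfBc : ContDiff ℝ 2 fB :=
    hηc.comp (contDiff_const.mul (contDiff_snd.sub contDiff_const))
  have hχc : ContDiff ℝ 2 χ := contDiff_const.mul (hfAc.mul hfBc)
  -- support
  have hsupp : ∀ X : P d, ¬ (‖X.1 - x‖ ≤ 2 * r ∧ |X.2 - φ x| ≤ (2 * M + 1) * r) → χ X = 0 := by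
    intro X hX
    by_cases h1 : ‖X.1 - x‖ ≤ 2 * r
    · have h2 : (2 * M + 1) * r < |X.2 - φ x| := by
        by_contra h
        exact hX ⟨h1, not_lt.1 h⟩
      have h3 : fB X = 0 := by
        refine hη0 _ ?_
        rw [abs_mul, abs_of_pos hri, inv_mul_eq_div, le_div_iff₀ hr]
        exact h2.le
      simp only [hχ, h3, mul_zero]
    · have h3 : fA X = 0 := by
        refine pk_zero ?_ hd
        rw [norm_smul, Real.norm_of_nonneg hri.le, inv_mul_eq_div, le_div_iff₀ hr]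
        exact (not_le.1 h1).le
      simp only [hχ, h3, zero_mul, mul_zero]
  -- the restriction to the graph
  have hgraph : ∀ z : E d, χ (z, φ z) = cr * pk (r⁻¹ • (z - x)) := by
    intro z
    by_cases h1 : ‖z - x‖ ≤ 2 * r
    · have h2 : |φ z - φ x| ≤ M * ‖z - x‖ := by
        have := hφ.dist_le_mul z x
        rwa [Real.dist_eq, dist_eq_norm] at this
      have h3 : fB (z, φ z) = 1 := by
        refine hη1 _ ?_
        simp only
        rw [abs_mul, abs_of_pos hri, inv_mul_eq_div, div_le_iff₀ hr]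
        calc |φ z - φ x| ≤ M * ‖z - x‖ := h2
          _ ≤ M * (2 * r) := mul_le_mul_of_nonneg_left h1 hM
          _ = 2 * M * r := by ring
      simp only [hχ, h3, mul_one, hfA]
    · have h3 : pk (r⁻¹ • (z - x)) = 0 := by
        refine pk_zero ?_ hd
        rw [norm_smul, Real.norm_of_nonneg hri.le, inv_mul_eq_div, le_div_iff₀ hr]
        exact (not_le.1 h1).le
      simp only [hχ, hfA, h3, zero_mul, mul_zero]
  -- the derivative
  have hpd : ∀ (b : Ix d) (X : P d), |pd b χ X| ≤ cr * ((Cη + 1) * r⁻¹) := by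
    intro b X
    have hA := Kb2_pdA x hr b X
    have hB := Kb2_pdB hηd hCη (φ x) hr b X
    have h1 : pd b χ X = cr * (fA X * pd b fB X + pd b fA X * fB X) := by
      have h2 := Kb2_pd_mul (f := fun _ : P d => cr) (g := fun X => fA X * fB X)
        (differentiableAt_const cr) (hA.1.mul hB.1) b
      have h3 := Kb2_pd_mul (f := fA) (g := fB) hA.1 hB.1 b
      have h4 : pd b (fun _ : P d => cr) X = 0 := by simp [pd]
      rw [h3, h4, zero_mul, add_zero] at h2
      exact h2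
    rw [h1, abs_mul, abs_of_pos hcr0]
    refine mul_le_mul_of_nonneg_left ?_ hcr0.le
    refine (abs_add_le _ _).trans ?_
    rw [abs_mul, abs_mul]
    have e1 : |fA X| ≤ 1 := by
      rw [abs_of_nonneg (pk_nonneg _)]; exact pk_le_one _
    have e2 : |fB X| ≤ 1 := by
      rw [abs_of_nonneg η.nonneg]; exact η.le_one
    calc |fA X| * |pd b fB X| + |pd b fA X| * |fB X| ≤ 1 * (Cη * r⁻¹) + r⁻¹ * 1 :=
          add_le_add (mul_le_mul e1 hB.2 (abs_nonneg _) zero_le_one)
            (mul_le_mul hA.2 e2 (abs_nonneg _) hri.le)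
      _ = (Cη + 1) * r⁻¹ := by ring
  set S : Set (P d) := {X | ‖X.1 - x‖ ≤ 2 * r ∧ |X.2 - φ x| ≤ (2 * M + 1) * r} with hS
  have hSc : IsClosed S := by
    refine IsClosed.inter ?_ ?_
    · exact isClosed_le (continuous_fst.sub continuous_const).norm continuous_const
    · exact isClosed_le (continuous_snd.sub continuous_const).abs continuous_const
  have hpd0 : ∀ (b : Ix d) (X : P d), X ∉ S → pd b χ X = 0 := by
    intro b X hX
    have h1 : χ =ᶠ[𝓝 X] fun _ => 0 := by
      filter_upwards [hSc.isOpen_compl.mem_nhds hX] with Y hY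
      exact hsupp Y hY
    unfold pd
    rw [h1.fderiv_eq]
    simp
  -- apply the test inequality
  have hB : ∀ X ∈ aboveC φ, ‖((x, φ x) : P d)‖ + ((2 * M + 3) * r) ≤ ‖X‖ → χ X = 0 := by
    intro X _ hX
    refine hsupp X ?_
    rintro ⟨h1, h2⟩
    have h3 : ‖X - (x, φ x)‖ ≤ (2 * M + 2) * r := by
      refine (norm_prod_le_iff).2 ⟨?_, ?_⟩
      · refine h1.trans ?_
        have : 0 ≤ M * r := mul_nonneg hM hr.le
        linarith
      · refine (h2 : ‖(X - (x, φ x)).2‖ ≤ _).trans ?_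
        linarith
    have h4 : ‖X‖ ≤ ‖X - (x, φ x)‖ + ‖((x, φ x) : P d)‖ := by
      have := norm_add_le (X - (x, φ x)) (x, φ x)
      rwa [sub_add_cancel] at this
    linarith
  have ht := htest M φ hφ U hG.op hG.sub F hG.fld χ ((hχc.of_le (by norm_num)).contDiffOn)
    (‖((x, φ x) : P d)‖ + ((2 * M + 3) * r)) hB
  have havg : avg (hb φ F) x r = ∫ z : E d, χ (z, φ z) • hb φ F z := by
    rw [avg_eq _ x hr]
    simp only [hgraph, hcr]
  rw [havg]
  -- pass to lintegrals
  have h1 : ‖∫ z : E d, χ (z, φ z) • hb φ F z‖ₑ ≤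
      ENNReal.ofReal Ct * ∫⁻ X in above φ, ‖(∑ b : Ix d, |pd b χ X|) * nF F X‖ₑ := by
    rw [← ofReal_norm_eq_enorm]
    refine (ENNReal.ofReal_le_ofReal ht).trans ?_
    rw [ENNReal.ofReal_mul hCt.le]
    refine mul_le_mul_right ?_ _
    refine le_trans ?_ (enorm_integral_le_lintegral_enorm _)
    rw [← ofReal_norm_eq_enorm]
    exact ENNReal.ofReal_le_ofReal (le_abs_self _)
  refine h1.trans ?_
  set K : ℝ := n * (cr * ((Cη + 1) * r⁻¹)) with hK
  have hK0 : 0 ≤ K := by positivity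
  have h2 : ∀ X ∈ above φ, ‖(∑ b : Ix d, |pd b χ X|) * nF F X‖ₑ ≤
      ENNReal.ofReal K * S.indicator (fun X => ENNReal.ofReal (nF F X)) X := by
    intro X _
    have hF0 : 0 ≤ nF F X := Finset.sum_nonneg fun a _ => abs_nonneg _
    have hs0 : 0 ≤ ∑ b : Ix d, |pd b χ X| := Finset.sum_nonneg fun a _ => abs_nonneg _
    rw [Real.enorm_of_nonneg (mul_nonneg hs0 hF0)]
    by_cases hX : X ∈ S
    · rw [indicator_of_mem hX, ← ENNReal.ofReal_mul hK0]
      refine ENNReal.ofReal_le_ofReal (mul_le_mul_of_nonneg_right ?_ hF0)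
      refine (Finset.sum_le_sum fun b _ => hpd b X).trans ?_
      rw [Finset.sum_const, Finset.card_univ, nsmul_eq_mul]
    · have h3 : ∑ b : Ix d, |pd b χ X| = 0 :=
        Finset.sum_eq_zero fun b _ => by rw [hpd0 b X hX, abs_zero]
      rw [h3, zero_mul, ENNReal.ofReal_zero]
      exact bot_le
  have hmeas : MeasurableSet (above φ) := measurableSet_above hφ
  have hcl : above φ ⊆ U := by
    intro X hX
    have h : φ X.1 < X.2 := hX
    exact hG.sub (h.le : φ X.1 ≤ X.2)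
  have hcont : ContinuousOn (fun X => nF F X) U := by
    unfold nF
    exact continuousOn_finsetSum _ fun a _ => (hG.fld.cd a).continuousOn.abs
  have hae : AEMeasurable (S.indicator (fun X => ENNReal.ofReal (nF F X)))
      (volume.restrict (above φ)) := by
    refine AEMeasurable.indicator ?_ hSc.measurableSet
    exact ((hcont.mono hcl).aemeasurable hmeas).ennreal_ofReal
  have h3 : ∫⁻ X in above φ, ‖(∑ b : Ix d, |pd b χ X|) * nF F X‖ₑ ≤
      ENNReal.ofReal K * ∫⁻ X in above φ, S.indicator (fun X => ENNReal.ofReal (nF F X)) X := by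
    rw [← lintegral_const_mul' _ _ ENNReal.ofReal_ne_top]
    exact setLIntegral_mono' hmeas h2
  have h4 : ∫⁻ X in above φ, S.indicator (fun X => ENNReal.ofReal (nF F X)) X ≤
      ∫⁻ y in Metric.closedBall x (c0 M * r), ∫⁻ τ in Ioc (0 : ℝ) (c0 M * r),
        ENNReal.ofReal (nF F (y, φ y + τ)) := by
    rw [lintegral_above hφ _ hae, ← lintegral_indicator measurableSet_closedBall]
    refine lintegral_mono fun y => ?_
    by_cases hy : y ∈ Metric.closedBall x (c0 M * r)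
    · rw [indicator_of_mem hy, ← lintegral_indicator measurableSet_Ioi,
        ← lintegral_indicator measurableSet_Ioc]
      refine lintegral_mono fun τ => ?_
      by_cases hτ : τ ∈ Ioi (0 : ℝ)
      · rw [indicator_of_mem hτ]
        by_cases hX : ((y, φ y + τ) : P d) ∈ S
        · have h5 : |φ y - φ x| ≤ M * ‖y - x‖ := by
            have := hφ.dist_le_mul y x
            rwa [Real.dist_eq, dist_eq_norm] at this
          have h6 : τ ∈ Ioc (0 : ℝ) (c0 M * r) := by
            refine ⟨hτ, ?_⟩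
            have h7 : |φ y + τ - φ x| ≤ (2 * M + 1) * r := hX.2
            have h8 : ‖y - x‖ ≤ 2 * r := hX.1
            have h9 := (abs_le.1 h7).2
            have h10 := (abs_le.1 h5).1
            have h11 : M * ‖y - x‖ ≤ M * (2 * r) := mul_le_mul_of_nonneg_left h8 hM
            unfold c0
            nlinarith
          rw [indicator_of_mem hX, indicator_of_mem h6]
        · rw [indicator_of_notMem hX]
          exact bot_le
      · rw [indicator_of_notMem hτ]
        exact bot_le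
    · rw [indicator_of_notMem hy]
      have h5 : ∀ τ : ℝ, S.indicator (fun X => ENNReal.ofReal (nF F X)) (y, φ y + τ) = 0 := by
        intro τ
        refine indicator_of_notMem ?_ _
        rintro ⟨h6, -⟩
        apply hy
        rw [Metric.mem_closedBall, dist_eq_norm]
        refine (h6 : ‖y - x‖ ≤ 2 * r).trans ?_
        unfold c0
        have : 0 ≤ M * r := mul_nonneg hM hr.le
        nlinarith
      simp only [h5, lintegral_zero, le_refl]
  have h5 : ENNReal.ofReal Ct * ENNReal.ofReal K = (C'.toNNReal : ℝ≥0∞) *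
      ENNReal.ofReal ((r ^ (d + 1))⁻¹) := by
    rw [← ENNReal.ofReal_mul hCt.le, show (C'.toNNReal : ℝ≥0∞) = ENNReal.ofReal C' from rfl,
      ← ENNReal.ofReal_mul hC'0]
    congr 1
    rw [hK, hC', hcr, pow_succ, mul_inv]
    ring
  calc ENNReal.ofReal Ct * ∫⁻ X in above φ, ‖(∑ b : Ix d, |pd b χ X|) * nF F X‖ₑ
      ≤ ENNReal.ofReal Ct * (ENNReal.ofReal K *
        ∫⁻ y in Metric.closedBall x (c0 M * r), ∫⁻ τ in Ioc (0 : ℝ) (c0 M * r),
        ENNReal.ofReal (nF F (y, φ y + τ))) :=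
        mul_le_mul_right (h3.trans (mul_le_mul_right h4 _)) _
    _ = C'.toNNReal * wE φ F (c0 M) x r := by
        rw [← mul_assoc, h5, mul_assoc]
        rfl

end HG
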