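import Pool.Agent.W_MP_825298_an.KDefs
import Pool.Agent.W_MP_825298_an.Cert2
import Pool.Agent.W_MP_825298_an.Spl3
import Pool.Agent.W_MP_825298_an.Above
import Pool.Agent.W_MP_825298_an.Kb1

open MeasureTheory Set Filter Topology
open scoped ENNReal NNReal BigOperators

namespace HG
variable {d : ℕ}

/-! the cutoff -/

theorem Kb3_chi2_contDiff (a : ℝ) : ContDiff ℝ 2 (chi2 a) := by
  unfold chi2
  have h := Real.smoothTransition.contDiff (n := 2)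
  exact (h.comp (contDiff_const.sub contDiff_id)).mul (h.comp (contDiff_const.add contDiff_id))

theorem Kb3_chi2_one {a t : ℝ} (h : |t| ≤ a) : chi2 a t = 1 := by
  rw [abs_le] at h
  unfold chi2
  rw [Real.smoothTransition.one_of_one_le (by linarith), Real.smoothTransition.one_of_one_le (by linarith)]
  norm_num

theorem Kb3_chi2_zero {a t : ℝ} (h : a + 1 ≤ |t|) : chi2 a t = 0 := by
  unfold chi2
  rcases le_abs.1 h with h | h
  · rw [Real.smoothTransition.zero_of_nonpos (by linarith : a + 1 - t ≤ 0), zero_mul]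
  · rw [Real.smoothTransition.zero_of_nonpos (by linarith : a + 1 + t ≤ 0), mul_zero]

/-- the unscaled cutoff -/
noncomputable def Kb3_w0 (M : ℝ≥0) (Y : P d) : ℝ := pk Y.1 * chi2 (2 * M) Y.2

theorem Kb3_w0_contDiff (M : ℝ≥0) : ContDiff ℝ 1 (Kb3_w0 (d := d) M) := by
  unfold Kb3_w0
  exact (((pk_contDiff (d := d)).comp contDiff_fst).mul ((Kb3_chi2_contDiff _).comp contDiff_snd)).of_le
    (by norm_num)

theorem Kb3_w0_zero (hd : 1 ≤ d) (M : ℝ≥0) {Y : P d} (h : 2 ≤ ‖Y.1‖ ∨ 2 * (M : ℝ) + 1 ≤ |Y.2|) :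
    Kb3_w0 M Y = 0 := by
  unfold Kb3_w0
  rcases h with h | h
  · rw [pk_zero h hd, zero_mul]
  · rw [Kb3_chi2_zero h, mul_zero]

theorem Kb3_w0_compact (hd : 1 ≤ d) (M : ℝ≥0) : HasCompactSupport (Kb3_w0 (d := d) M) := by
  refine HasCompactSupport.intro (isCompact_closedBall (0 : P d) (2 * M + 2)) ?_
  intro Y hY
  rw [mem_closedBall_zero_iff, not_le, Prod.norm_def, lt_max_iff] at hY
  apply Kb3_w0_zero hd
  have hM : (0 : ℝ) ≤ M := M.coe_nonneg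
  rcases hY with h | h
  · left; linarith
  · right
    rw [Real.norm_eq_abs] at h
    linarith

theorem Kb3_eb_norm (b : Ix d) : ‖(eb b : P d)‖ ≤ 1 := by
  cases b with
  | none => simp [eb, Prod.norm_def]
  | some i =>
    show ‖((Pi.single i 1, 0) : P d)‖ ≤ 1
    rw [Prod.norm_def, max_le_iff]
    constructor
    · rw [pi_norm_le_iff_of_nonneg zero_le_one]
      intro j
      change ‖(Pi.single i (1 : ℝ) : E d) j‖ ≤ 1
      rw [Pi.single_apply]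
      split_ifs <;> simp
    · simp

theorem Kb3_w0_bound (hd : 1 ≤ d) (M : ℝ≥0) : ∃ C : ℝ, 0 < C ∧ ∀ Y : P d, |Kb3_w0 M Y| ≤ C ∧
    ∀ b : Ix d, |pd b (Kb3_w0 M) Y| ≤ C := by
  have hc := Kb3_w0_contDiff (d := d) M
  have hcs := Kb3_w0_compact hd M
  obtain ⟨C1, hC1⟩ := hc.continuous.bounded_above_of_compact_support hcs
  obtain ⟨C2, hC2⟩ := (hc.continuous_fderiv one_ne_zero).bounded_above_of_compact_support
    (hcs.fderiv (𝕜 := ℝ))
  refine ⟨max 1 (max C1 C2), lt_of_lt_of_le one_pos (le_max_left _ _), fun Y => ⟨?_, fun b => ?_⟩⟩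
  · exact (hC1 Y).trans ((le_max_left _ _).trans (le_max_right _ _))
  · refine le_trans ?_ ((hC2 Y).trans ((le_max_right _ _).trans (le_max_right _ _)))
    have h1 := (fderiv ℝ (Kb3_w0 M) Y).le_opNorm (eb b)
    refine h1.trans ?_
    calc ‖fderiv ℝ (Kb3_w0 M) Y‖ * ‖(eb b : P d)‖ ≤ ‖fderiv ℝ (Kb3_w0 M) Y‖ * 1 :=
          mul_le_mul_of_nonneg_left (Kb3_eb_norm b) (norm_nonneg _)
      _ = ‖fderiv ℝ (Kb3_w0 M) Y‖ := mul_one _

/-- the scaled cutoff -/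
noncomputable def Kb3_w (M : ℝ≥0) (X0 : P d) (ρ : ℝ) (X : P d) : ℝ :=
  (ρ ^ d)⁻¹ * Kb3_w0 M (ρ⁻¹ • (X - X0))

theorem Kb3_w_contDiff (M : ℝ≥0) (X0 : P d) (ρ : ℝ) : ContDiff ℝ 1 (Kb3_w M X0 ρ) := by
  unfold Kb3_w
  exact contDiff_const.mul ((Kb3_w0_contDiff M).comp ((contDiff_id.sub contDiff_const).const_smul ρ⁻¹))

theorem Kb3_w_pd (M : ℝ≥0) (X0 : P d) (ρ : ℝ) (b : Ix d) (X : P d) :
    pd b (Kb3_w M X0 ρ) X = (ρ ^ d)⁻¹ * (ρ⁻¹ * pd b (Kb3_w0 M) (ρ⁻¹ • (X - X0))) := by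
  have h1 : HasFDerivAt (Kb3_w0 M) (fderiv ℝ (Kb3_w0 M) (ρ⁻¹ • (X - X0))) (ρ⁻¹ • (X - X0)) :=
    ((Kb3_w0_contDiff M).differentiable one_ne_zero _).hasFDerivAt
  have h2 : HasFDerivAt (fun X : P d => ρ⁻¹ • (X - X0)) (ρ⁻¹ • (ContinuousLinearMap.id ℝ (P d))) X :=
    ((hasFDerivAt_id X).sub_const X0).const_smul ρ⁻¹
  have h3 := (h1.comp X h2).const_mul ((ρ ^ d)⁻¹)
  have h4 : fderiv ℝ (Kb3_w M X0 ρ) X = _ := h3.fderiv
  unfold pd
  rw [h4]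
  simp

/-- the support box -/
def Kb3_box (M : ℝ≥0) (X0 : P d) (ρ : ℝ) : Set (P d) :=
  {X | ‖X.1 - X0.1‖ ≤ 2 * ρ ∧ |X.2 - X0.2| ≤ (2 * M + 1) * ρ}

theorem Kb3_box_closed (M : ℝ≥0) (X0 : P d) (ρ : ℝ) : IsClosed (Kb3_box M X0 ρ) := by
  refine IsClosed.inter ?_ ?_
  · exact isClosed_le (f := fun X : P d => ‖X.1 - X0.1‖) (g := fun _ => 2 * ρ) (by fun_prop)
      continuous_const
  · exact isClosed_le (f := fun X : P d => |X.2 - X0.2|) (g := fun _ => (2 * M + 1) * ρ)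
      (by fun_prop) continuous_const

theorem Kb3_w_zero (hd : 1 ≤ d) (M : ℝ≥0) (X0 : P d) {ρ : ℝ} (hρ : 0 < ρ) {X : P d}
    (hX : X ∉ Kb3_box M X0 ρ) : Kb3_w M X0 ρ X = 0 := by
  unfold Kb3_w
  rw [Kb3_w0_zero hd M, mul_zero]
  have h : ¬ (‖X.1 - X0.1‖ ≤ 2 * ρ) ∨ ¬ (|X.2 - X0.2| ≤ (2 * M + 1) * ρ) := by
    by_contra hcon
    push Not at hcon
    exact hX hcon
  rcases h with h | h
  · left
    rw [not_le] at h
    rw [Prod.smul_fst, norm_smul, Real.norm_of_nonneg (inv_nonneg.2 hρ.le), Prod.fst_sub]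
    rw [inv_mul_eq_div, le_div_iff₀ hρ]
    exact h.le
  · right
    rw [not_le] at h
    rw [Prod.smul_snd, smul_eq_mul, abs_mul, abs_of_pos (inv_pos.2 hρ), Prod.snd_sub]
    rw [inv_mul_eq_div, le_div_iff₀ hρ]
    exact h.le

/-! mean value theorem on the box `Bx` -/

theorem Kb3_fderiv_apply (f : P d → ℝ) (X v : P d) :
    fderiv ℝ f X v = ∑ b : Ix d, co b v * pd b f X := by
  have hv : v = ∑ b : Ix d, co b v • (eb b : P d) := by
    rw [Fintype.sum_option]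
    refine Prod.ext ?_ ?_
    · rw [Prod.fst_add, Prod.fst_sum]
      funext j
      simp [co, eb, Finset.sum_apply, Pi.single_apply]
    · rw [Prod.snd_add, Prod.snd_sum]
      simp [co, eb]
  conv_lhs => rw [hv]
  rw [map_sum]
  refine Finset.sum_congr rfl fun b _ => ?_
  rw [map_smul]
  rfl

theorem Kb3_co_le (b : Ix d) (v : P d) : |co b v| ≤ ‖v‖ := by
  cases b with
  | none => exact norm_snd_le v
  | some i => exact (norm_le_pi_norm v.1 i).trans (norm_fst_le v)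

theorem Kb3_mv (φ : E d → ℝ) (M : ℝ≥0) (x : E d) {ρ : ℝ} (hρ : 0 < ρ) {O : Set (P d)}
    (hO : IsOpen O) (hBO : Bx φ M x ρ ⊆ O) {f : P d → ℝ} (hf : ContDiffOn ℝ 1 f O) {Λ : ℝ}
    (hΛ : 0 ≤ Λ) (hfd : ∀ b : Ix d, ∀ X ∈ Bx φ M x ρ, |pd b f X| ≤ Λ) {X : P d}
    (hX : X ∈ Bx φ M x ρ) : |f X - f (x, φ x)| ≤ Λ * ((d + 1) * (2 * M + 2)) * ρ := by
  have hM : (0 : ℝ) ≤ M := M.coe_nonneg
  have hconv : Convex ℝ (Bx φ M x ρ) := by
    have e : Bx φ M x ρ = Metric.closedBall x (2 * ρ) ×ˢ Metric.closedBall (φ x) ((2 * M + 2) * ρ) := by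
      ext Y
      simp [Bx, dist_eq_norm]
    rw [e]
    exact (convex_closedBall _ _).prod (convex_closedBall _ _)
  have hx : ((x, φ x) : P d) ∈ Bx φ M x ρ := by
    constructor
    · rw [sub_self, norm_zero]; positivity
    · rw [sub_self, abs_zero]; positivity
  have hbd : ∀ Y ∈ Bx φ M x ρ, ‖fderiv ℝ f Y‖ ≤ Λ * (d + 1) := by
    intro Y hY
    refine ContinuousLinearMap.opNorm_le_bound _ (by positivity) fun v => ?_
    rw [Kb3_fderiv_apply, Real.norm_eq_abs]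
    refine (Finset.abs_sum_le_sum_abs _ _).trans ?_
    have h1 : ∀ b ∈ (Finset.univ : Finset (Ix d)), |co b v * pd b f Y| ≤ ‖v‖ * Λ := by
      intro b _
      rw [abs_mul]
      exact mul_le_mul (Kb3_co_le b v) (hfd b Y hY) (abs_nonneg _) (norm_nonneg _)
    refine (Finset.sum_le_card_nsmul _ _ _ h1).trans (le_of_eq ?_)
    rw [nsmul_eq_mul, Finset.card_univ, Fintype.card_option, Fintype.card_fin]
    push_cast
    ring
  have key := hconv.norm_image_sub_le_of_norm_fderiv_le (𝕜 := ℝ) (f := f)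
    (fun Y hY => (hf.contDiffAt (hO.mem_nhds (hBO hY))).differentiableAt one_ne_zero) hbd hx hX
  rw [Real.norm_eq_abs] at key
  refine key.trans ?_
  have h2 : ‖X - ((x, φ x) : P d)‖ ≤ (2 * M + 2) * ρ := by
    rw [Prod.norm_def, max_le_iff]
    constructor
    · refine hX.1.trans ?_
      nlinarith
    · exact hX.2
  calc Λ * (d + 1) * ‖X - ((x, φ x) : P d)‖ ≤ Λ * (d + 1) * ((2 * M + 2) * ρ) :=
        mul_le_mul_of_nonneg_left h2 (by positivity)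
    _ = _ := by ring

/-! the test function -/

theorem Kb3_box_sub (φ : E d → ℝ) (M : ℝ≥0) (x : E d) {ρ : ℝ} (hρ : 0 < ρ) :
    Kb3_box M ((x, φ x) : P d) ρ ⊆ Bx φ M x ρ := by
  rintro X ⟨h1, h2⟩
  refine ⟨h1, h2.trans ?_⟩
  nlinarith

/-- the scalar test function -/
noncomputable def Kb3_chi (M : ℝ≥0) (X0 : P d) (ρ : ℝ) (f : P d → ℝ) (X : P d) : ℝ :=
  (f X - f X0) * Kb3_w M X0 ρ X

theorem Kb3_chi_zero (hd : 1 ≤ d) (M : ℝ≥0) (X0 : P d) {ρ : ℝ} (hρ : 0 < ρ) (f : P d → ℝ) {X : P d}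
    (hX : X ∉ Kb3_box M X0 ρ) : Kb3_chi M X0 ρ f X = 0 := by
  unfold Kb3_chi
  rw [Kb3_w_zero hd M X0 hρ hX, mul_zero]

theorem Kb3_chi_ev (hd : 1 ≤ d) (M : ℝ≥0) (X0 : P d) {ρ : ℝ} (hρ : 0 < ρ) (f : P d → ℝ) {X : P d}
    (hX : X ∉ Kb3_box M X0 ρ) : Kb3_chi M X0 ρ f =ᶠ[𝓝 X] fun _ => 0 := by
  filter_upwards [(Kb3_box_closed M X0 ρ).isOpen_compl.mem_nhds hX] with Y hY
  exact Kb3_chi_zero hd M X0 hρ f hY

theorem Kb3_chi_contDiff (hd : 1 ≤ d) (φ : E d → ℝ) (M : ℝ≥0) (x : E d) {ρ : ℝ} (hρ : 0 < ρ)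
    {O : Set (P d)} (hO : IsOpen O) (hBO : Bx φ M x ρ ⊆ O) {f : P d → ℝ}
    (hf : ContDiffOn ℝ 1 f O) : ContDiff ℝ 1 (Kb3_chi M (x, φ x) ρ f) := by
  rw [contDiff_iff_contDiffAt]
  intro X
  by_cases hX : X ∈ Kb3_box M ((x, φ x) : P d) ρ
  · have h1 : ContDiffAt ℝ 1 f X := hf.contDiffAt (hO.mem_nhds (hBO (Kb3_box_sub φ M x hρ hX)))
    exact (h1.sub contDiffAt_const).mul (Kb3_w_contDiff M _ ρ).contDiffAt
  · exact contDiffAt_const.congr_of_eventuallyEq (Kb3_chi_ev hd M _ hρ f hX)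

theorem Kb3_chi_pd_zero (hd : 1 ≤ d) (M : ℝ≥0) (X0 : P d) {ρ : ℝ} (hρ : 0 < ρ) (f : P d → ℝ) {X : P d}
    (hX : X ∉ Kb3_box M X0 ρ) (b : Ix d) : pd b (Kb3_chi M X0 ρ f) X = 0 := by
  unfold pd
  rw [(Kb3_chi_ev hd M X0 hρ f hX).fderiv_eq]
  simp

theorem Kb3_chi_pd (φ : E d → ℝ) (M : ℝ≥0) (x : E d) {ρ : ℝ} (hρ : 0 < ρ)
    {C0 : ℝ} (hC0 : ∀ Y : P d, |Kb3_w0 M Y| ≤ C0 ∧ ∀ b : Ix d, |pd b (Kb3_w0 M) Y| ≤ C0)
    {O : Set (P d)} (hO : IsOpen O) (hBO : Bx φ M x ρ ⊆ O) {f : P d → ℝ}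
    (hf : ContDiffOn ℝ 1 f O) {Λ : ℝ}
    (hΛ : 0 ≤ Λ) (hfd : ∀ b : Ix d, ∀ X ∈ Bx φ M x ρ, |pd b f X| ≤ Λ) {X : P d}
    (hX : X ∈ Kb3_box M ((x, φ x) : P d) ρ) (b : Ix d) :
    |pd b (Kb3_chi M (x, φ x) ρ f) X| ≤ C0 * ((d + 1) * (2 * M + 2) + 1) * Λ * (ρ ^ d)⁻¹ := by
  have hM : (0 : ℝ) ≤ M := M.coe_nonneg
  have hXB := Kb3_box_sub φ M x hρ hX
  have hC00 : 0 ≤ C0 := (abs_nonneg _).trans (hC0 0).1
  have hfd' : DifferentiableAt ℝ f X :=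
    (hf.contDiffAt (hO.mem_nhds (hBO hXB))).differentiableAt one_ne_zero
  have hwd : DifferentiableAt ℝ (Kb3_w M ((x, φ x) : P d) ρ) X :=
    (Kb3_w_contDiff M _ ρ).differentiable one_ne_zero X
  have h1 : pd b (Kb3_chi M (x, φ x) ρ f) X =
      (f X - f (x, φ x)) * pd b (Kb3_w M ((x, φ x) : P d) ρ) X + Kb3_w M ((x, φ x) : P d) ρ X * pd b f X := by
    have h2 := (hfd'.hasFDerivAt.sub_const (f (x, φ x))).mul hwd.hasFDerivAt
    have h3 : fderiv ℝ (Kb3_chi M (x, φ x) ρ f) X = _ := h2.fderiv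
    unfold pd
    rw [h3]
    simp
  rw [h1, Kb3_w_pd]
  have h4 := Kb3_mv φ M x hρ hO hBO hf hΛ hfd hXB
  have h5 := (hC0 (ρ⁻¹ • (X - (x, φ x)))).1
  have h6 := (hC0 (ρ⁻¹ • (X - (x, φ x)))).2 b
  have h7 := hfd b X hXB
  have hρd : 0 < (ρ ^ d)⁻¹ := by positivity
  have hρi : 0 < ρ⁻¹ := inv_pos.2 hρ
  refine (abs_add_le _ _).trans ?_
  rw [abs_mul, abs_mul, abs_mul, abs_mul, abs_of_pos hρd, abs_of_pos hρi]
  unfold Kb3_w
  rw [abs_mul, abs_of_pos hρd]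
  have e1 : |f X - f (x, φ x)| * ((ρ ^ d)⁻¹ * (ρ⁻¹ * |pd b (Kb3_w0 M) (ρ⁻¹ • (X - (x, φ x)))|)) ≤
      (Λ * ((d + 1) * (2 * M + 2)) * ρ) * ((ρ ^ d)⁻¹ * (ρ⁻¹ * C0)) := by
    refine mul_le_mul h4 ?_ (by positivity) (by positivity)
    exact mul_le_mul_of_nonneg_left (mul_le_mul_of_nonneg_left h6 hρi.le) hρd.le
  have e2 : (ρ ^ d)⁻¹ * |Kb3_w0 M (ρ⁻¹ • (X - (x, φ x)))| * |pd b f X| ≤ (ρ ^ d)⁻¹ * C0 * Λ :=
    mul_le_mul (mul_le_mul_of_nonneg_left h5 hρd.le) h7 (abs_nonneg _) (by positivity)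
  refine (add_le_add e1 e2).trans (le_of_eq ?_)
  field_simp

theorem Kb3_box_norm (M : ℝ≥0) (X0 : P d) {ρ : ℝ} (hρ : 0 < ρ) {X : P d} (hX : X ∈ Kb3_box M X0 ρ) :
    ‖X - X0‖ ≤ (2 * M + 2) * ρ := by
  have hM : (0 : ℝ) ≤ M := M.coe_nonneg
  rw [Prod.norm_def, max_le_iff]
  constructor
  · refine hX.1.trans ?_
    nlinarith
  · refine le_trans hX.2 ?_
    nlinarith

/-! the integral over the box -/

theorem Kb3_lint {M : ℝ≥0} {φ : E d → ℝ} {U : Set (P d)} {F : Ix d → P d → ℝ} (h : GFd M φ U F)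
    (x : E d) {ρ : ℝ} (hρ : 0 < ρ) :
    ∫⁻ X in above φ, (Kb3_box M ((x, φ x) : P d) ρ).indicator (fun X => ENNReal.ofReal (nF F X)) X
      ≤ ENNReal.ofReal (ρ ^ (d + 1)) * wE φ F (c0 M) x ρ := by
  have hM : (0 : ℝ) ≤ M := M.coe_nonneg
  have hcont : ContinuousOn (nF F) (above φ) := by
    unfold nF
    refine continuousOn_finsetSum _ fun a _ => ?_
    exact ((h.fld.cd a).continuousOn.mono (fun X (hX : φ X.1 < X.2) =>
      h.sub (show φ X.1 ≤ X.2 from hX.le))).abs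
  have hmeas : AEMeasurable ((Kb3_box M ((x, φ x) : P d) ρ).indicator
      (fun X => ENNReal.ofReal (nF F X))) (volume.restrict (above φ)) := by
    refine AEMeasurable.indicator ?_ (Kb3_box_closed M _ ρ).measurableSet
    exact (hcont.aemeasurable (measurableSet_above h.lip)).ennreal_ofReal
  rw [lintegral_above h.lip _ hmeas]
  have hstep : ∀ y : E d, ∫⁻ τ in Ioi (0 : ℝ), (Kb3_box M ((x, φ x) : P d) ρ).indicator
      (fun X => ENNReal.ofReal (nF F X)) (y, φ y + τ) ≤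
      (Metric.closedBall x (c0 M * ρ)).indicator (fun y => ∫⁻ τ in Ioc (0 : ℝ) (c0 M * ρ),
        ENNReal.ofReal (nF F (y, φ y + τ))) y := by
    intro y
    by_cases hy : y ∈ Metric.closedBall x (c0 M * ρ)
    · rw [indicator_of_mem hy, ← lintegral_indicator measurableSet_Ioi,
        ← lintegral_indicator measurableSet_Ioc]
      refine lintegral_mono fun τ => ?_
      by_cases hτ : τ ∈ Ioi (0 : ℝ)
      · rw [indicator_of_mem hτ]
        by_cases hX : ((y, φ y + τ) : P d) ∈ Kb3_box M ((x, φ x) : P d) ρ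
        · have hτ2 : τ ∈ Ioc (0 : ℝ) (c0 M * ρ) := by
            refine ⟨hτ, ?_⟩
            have h1 : ‖y - x‖ ≤ 2 * ρ := hX.1
            have h2 : |φ y + τ - φ x| ≤ (2 * M + 1) * ρ := hX.2
            have h3 : |φ y - φ x| ≤ M * ‖y - x‖ := by
              have := h.lip.dist_le_mul y x
              rwa [Real.dist_eq, dist_eq_norm] at this
            have h4 : (M : ℝ) * ‖y - x‖ ≤ M * (2 * ρ) := mul_le_mul_of_nonneg_left h1 hM
            rw [abs_le] at h2 h3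
            unfold c0
            nlinarith [h2.2, h3.1]
          rw [indicator_of_mem hX, indicator_of_mem hτ2]
        · rw [indicator_of_notMem hX]
          exact zero_le
      · rw [indicator_of_notMem hτ]
        exact zero_le
    · rw [indicator_of_notMem hy]
      have h0 : ∀ τ : ℝ, (Kb3_box M ((x, φ x) : P d) ρ).indicator
          (fun X => ENNReal.ofReal (nF F X)) (y, φ y + τ) = 0 := by
        intro τ
        refine indicator_of_notMem ?_ _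
        intro hX
        apply hy
        rw [Metric.mem_closedBall, dist_eq_norm]
        have h1 : ‖y - x‖ ≤ 2 * ρ := hX.1
        refine h1.trans ?_
        unfold c0
        nlinarith
      simp [h0]
  refine (lintegral_mono hstep).trans ?_
  rw [lintegral_indicator Metric.isClosed_closedBall.measurableSet]
  unfold wE
  rw [← mul_assoc, ← ENNReal.ofReal_mul (by positivity), mul_inv_cancel₀ (by positivity),
    ENNReal.ofReal_one, one_mul]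

/-- scalar estimate -/
theorem Kb3_scalar (hd : 1 ≤ d) (M : ℝ≥0) : ∃ C : ℝ, 0 < C ∧ ∀ (φ : E d → ℝ) (U : Set (P d))
    (F : Ix d → P d → ℝ), GFd M φ U F → ∀ (x : E d) (ρ : ℝ), 0 < ρ → ∀ (f : P d → ℝ) (O : Set (P d)),
    IsOpen O → Bx φ M x ρ ⊆ O → ContDiffOn ℝ 1 f O → ∀ Λ : ℝ, 0 ≤ Λ →
    (∀ b : Ix d, ∀ X ∈ Bx φ M x ρ, |pd b f X| ≤ Λ) →
    ‖∫ z : E d, Kb3_chi M (x, φ x) ρ f (z, φ z) • hb φ F z‖ₑ ≤
      ENNReal.ofReal C * ENNReal.ofReal (Λ * ρ) * wE φ F (c0 M) x ρ := by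
  obtain ⟨Ct, hCt, ht⟩ := test_ineq d
  obtain ⟨C0, hC0, hw0⟩ := Kb3_w0_bound hd M
  have hM : (0 : ℝ) ≤ M := M.coe_nonneg
  refine ⟨Ct * ((d + 1) * (C0 * ((d + 1) * (2 * M + 2) + 1))), by positivity, ?_⟩
  intro φ U F h x ρ hρ f O hO hBO hf Λ hΛ hfd
  have h1 := ht M φ h.lip U h.op h.sub F h.fld (Kb3_chi M (x, φ x) ρ f)
    (Kb3_chi_contDiff hd φ M x hρ hO hBO hf).contDiffOn
    (‖((x, φ x) : P d)‖ + (2 * M + 2) * ρ + 1) (by
      intro X _ hX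
      apply Kb3_chi_zero hd M _ hρ f
      intro hmem
      have h2 := Kb3_box_norm M _ hρ hmem
      have h3 : ‖X‖ ≤ ‖X - ((x, φ x) : P d)‖ + ‖((x, φ x) : P d)‖ := by
        have := norm_add_le (X - ((x, φ x) : P d)) ((x, φ x) : P d)
        rwa [sub_add_cancel] at this
      linarith)
  have h2 : ‖∫ X in above φ, (∑ b : Ix d, |pd b (Kb3_chi M (x, φ x) ρ f) X|) * nF F X‖ₑ ≤
      ENNReal.ofReal ((d + 1) * (C0 * ((d + 1) * (2 * M + 2) + 1) * Λ * (ρ ^ d)⁻¹)) *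
        (ENNReal.ofReal (ρ ^ (d + 1)) * wE φ F (c0 M) x ρ) := by
    refine (enorm_integral_le_lintegral_enorm _).trans ?_
    refine le_trans ?_ (mul_le_mul' le_rfl (Kb3_lint h x hρ))
    rw [← lintegral_const_mul' _ _ ENNReal.ofReal_ne_top]
    refine lintegral_mono fun X => ?_
    have hnF : 0 ≤ nF F X := Finset.sum_nonneg fun _ _ => abs_nonneg _
    by_cases hX : X ∈ Kb3_box M ((x, φ x) : P d) ρ
    · simp only [indicator_of_mem hX]
      rw [Real.enorm_of_nonneg (mul_nonneg (Finset.sum_nonneg fun _ _ => abs_nonneg _) hnF),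
        ← ENNReal.ofReal_mul (by positivity)]
      refine ENNReal.ofReal_le_ofReal (mul_le_mul_of_nonneg_right ?_ hnF)
      refine (Finset.sum_le_card_nsmul _ _ _ fun b _ =>
        Kb3_chi_pd φ M x hρ hw0 hO hBO hf hΛ hfd hX b).trans (le_of_eq ?_)
      rw [nsmul_eq_mul, Finset.card_univ, Fintype.card_option, Fintype.card_fin]
      push_cast
      ring
    · have h0 : ∀ b : Ix d, |pd b (Kb3_chi M (x, φ x) ρ f) X| = 0 := fun b => by
        rw [Kb3_chi_pd_zero hd M _ hρ f hX b, abs_zero]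
      simp [h0]
  have h3 : ‖∫ z : E d, Kb3_chi M (x, φ x) ρ f (z, φ z) • hb φ F z‖ₑ ≤ ENNReal.ofReal Ct *
      ‖∫ X in above φ, (∑ b : Ix d, |pd b (Kb3_chi M (x, φ x) ρ f) X|) * nF F X‖ₑ := by
    rw [← ofReal_norm, ← ofReal_norm, ← ENNReal.ofReal_mul hCt.le]
    refine ENNReal.ofReal_le_ofReal (h1.trans ?_)
    exact mul_le_mul_of_nonneg_left (le_abs_self _) hCt.le
  refine (h3.trans (mul_le_mul' le_rfl h2)).trans (le_of_eq ?_)
  rw [← mul_assoc, ← mul_assoc, ← ENNReal.ofReal_mul hCt.le, ← ENNReal.ofReal_mul (by positivity),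
    ← ENNReal.ofReal_mul (by positivity)]
  congr 2
  rw [pow_succ]
  field_simp

/-- Pair lemma. For each component `o` apply `test_ineq` to
`χ_o(z,t) = (Ψ_o(z,t) - Ψ_o(x,φ x)) ρ^{-d} p((z-x)/ρ) η((t-φ x)/ρ)` (`η` as in `avg_le_wE`), which is `C¹` on `P d` (its support lies in
`Bx φ M x ρ ⊆ O`), `|Ψ_o(z,t)-Ψ_o(x,φ x)| ≤ C Λ ρ` on the (convex) box, so `|∇χ_o| ≤ C Λ ρ^{-d}`; `|⟨Δ, h⟩| ≤ ∑_o |Δ_o h_o|` and the
`o`-component of `∫ χ_o • h` is `∫ χ_o h_o`. -/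
theorem pair_le (hd : 1 ≤ d) (M : ℝ≥0) : ∃ C : ℝ≥0, ∀ (φ : E d → ℝ) (U : Set (P d)) (F : Ix d → P d → ℝ), GFd M φ U F →
    ∀ (x : E d) (ρ : ℝ), 0 < ρ → ∀ (Ψ : P d → VV d) (O : Set (P d)), IsOpen O → Bx φ M x ρ ⊆ O →
    (∀ o, ContDiffOn ℝ 1 (fun X => Ψ X o) O) → ∀ Λ : ℝ, 0 ≤ Λ →
    (∀ o, ∀ b : Ix d, ∀ X ∈ Bx φ M x ρ, |pd b (fun Y => Ψ Y o) X| ≤ Λ) →
    ENNReal.ofReal |∫ y : E d, pk y * inner ℝ (Ψ (x + ρ • y, φ (x + ρ • y)) - Ψ (x, φ x)) (hb φ F (x + ρ • y))|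
      ≤ C * ENNReal.ofReal (Λ * ρ) * wE φ F (c0 M) x ρ := by
  classical
  obtain ⟨C, hC, hsc⟩ := Kb3_scalar hd M
  have hM : (0 : ℝ) ≤ M := M.coe_nonneg
  refine ⟨(Fintype.card (Option (Ix d × Ix d)) : ℝ≥0) * Real.toNNReal C, ?_⟩
  intro φ U F h x ρ hρ Ψ O hO hBO hΨ Λ hΛ hΨd
  have hloc := hb_locallyIntegrable h
  have hφc : Continuous φ := h.lip.continuous
  have hint : ∀ o, Integrable (fun z : E d => Kb3_chi M (x, φ x) ρ (fun X => Ψ X o) (z, φ z) • hb φ F z) := by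
    intro o
    have hc : Continuous (fun z : E d => Kb3_chi M (x, φ x) ρ (fun X => Ψ X o) (z, φ z)) :=
      (Kb3_chi_contDiff hd φ M x hρ hO hBO (hΨ o)).continuous.comp (continuous_id.prodMk hφc)
    have hcs : HasCompactSupport (fun z : E d => Kb3_chi M (x, φ x) ρ (fun X => Ψ X o) (z, φ z)) := by
      refine HasCompactSupport.intro (isCompact_closedBall x (2 * ρ)) ?_
      intro z hz
      apply Kb3_chi_zero hd M _ hρ
      intro hmem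
      apply hz
      rw [Metric.mem_closedBall, dist_eq_norm]
      exact hmem.1
    exact hloc.integrable_smul_left_of_hasCompactSupport hc hcs
  have hpt : ∀ z : E d, (ρ ^ d)⁻¹ * (pk (ρ⁻¹ • (z - x)) * inner ℝ (Ψ (z, φ z) - Ψ (x, φ x)) (hb φ F z)) =
      ∑ o, (Kb3_chi M (x, φ x) ρ (fun X => Ψ X o) (z, φ z) • hb φ F z) o := by
    intro z
    have hw : Kb3_w M ((x, φ x) : P d) ρ (z, φ z) = (ρ ^ d)⁻¹ * pk (ρ⁻¹ • (z - x)) := by
      unfold Kb3_w Kb3_w0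
      congr 1
      show pk (ρ⁻¹ • (z - x)) * chi2 (2 * M) (ρ⁻¹ * (φ z - φ x)) = pk (ρ⁻¹ • (z - x))
      by_cases hz : ‖z - x‖ ≤ 2 * ρ
      · rw [Kb3_chi2_one, mul_one]
        rw [abs_mul, abs_of_pos (inv_pos.2 hρ), inv_mul_eq_div, div_le_iff₀ hρ]
        have h3 : |φ z - φ x| ≤ M * ‖z - x‖ := by
          have := h.lip.dist_le_mul z x
          rwa [Real.dist_eq, dist_eq_norm] at this
        refine h3.trans ?_
        calc (M : ℝ) * ‖z - x‖ ≤ M * (2 * ρ) := mul_le_mul_of_nonneg_left hz hM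
          _ = 2 * M * ρ := by ring
      · rw [pk_zero _ hd, zero_mul]
        rw [norm_smul, Real.norm_of_nonneg (inv_nonneg.2 hρ.le), inv_mul_eq_div, le_div_iff₀ hρ]
        exact (not_le.1 hz).le
    rw [PiLp.inner_apply, Finset.mul_sum, Finset.mul_sum]
    refine Finset.sum_congr rfl fun o _ => ?_
    have e : (Kb3_chi M (x, φ x) ρ (fun X => Ψ X o) (z, φ z) • hb φ F z) o =
        Kb3_chi M (x, φ x) ρ (fun X => Ψ X o) (z, φ z) * (hb φ F z) o := rfl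
    rw [e]
    unfold Kb3_chi
    rw [hw]
    simp only [PiLp.sub_apply, RCLike.inner_apply, conj_trivial]
    ring
  have hLHS : ∫ y : E d, pk y * inner ℝ (Ψ (x + ρ • y, φ (x + ρ • y)) - Ψ (x, φ x)) (hb φ F (x + ρ • y)) =
      ∑ o, (∫ z : E d, Kb3_chi M (x, φ x) ρ (fun X => Ψ X o) (z, φ z) • hb φ F z) o := by
    have h1 := s3_subst (V := ℝ) (fun z : E d => pk (ρ⁻¹ • (z - x)) *
      inner ℝ (Ψ (z, φ z) - Ψ (x, φ x)) (hb φ F z)) x hρ
    have h2 : (fun y : E d => pk y * inner ℝ (Ψ (x + ρ • y, φ (x + ρ • y)) - Ψ (x, φ x)) (hb φ F (x + ρ • y))) =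
        fun y : E d => (fun z : E d => pk (ρ⁻¹ • (z - x)) *
          inner ℝ (Ψ (z, φ z) - Ψ (x, φ x)) (hb φ F z)) (x + ρ • y) := by
      funext y
      have : ρ⁻¹ • (x + ρ • y - x) = y := by
        rw [add_sub_cancel_left, smul_smul, inv_mul_cancel₀ hρ.ne', one_smul]
      simp only [this]
    rw [h2, h1, smul_eq_mul, ← integral_const_mul]
    have h3 : (fun z : E d => (ρ ^ d)⁻¹ * (pk (ρ⁻¹ • (z - x)) *
        inner ℝ (Ψ (z, φ z) - Ψ (x, φ x)) (hb φ F z))) =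
        fun z : E d => ∑ o, (Kb3_chi M (x, φ x) ρ (fun X => Ψ X o) (z, φ z) • hb φ F z) o := funext hpt
    rw [h3, integral_finsetSum]
    · exact Finset.sum_congr rfl fun o _ => (Cert2_apply (hint o) o).symm
    · intro o _
      exact (EuclideanSpace.proj (𝕜 := ℝ) o : VV d →L[ℝ] ℝ).integrable_comp (hint o)
  rw [hLHS]
  have hfin : ENNReal.ofReal |∑ o, (∫ z : E d, Kb3_chi M (x, φ x) ρ (fun X => Ψ X o) (z, φ z) • hb φ F z) o| ≤
      ∑ o, ‖∫ z : E d, Kb3_chi M (x, φ x) ρ (fun X => Ψ X o) (z, φ z) • hb φ F z‖ₑ := by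
    refine (ENNReal.ofReal_le_ofReal (Finset.abs_sum_le_sum_abs _ _)).trans ?_
    rw [ENNReal.ofReal_sum_of_nonneg fun _ _ => abs_nonneg _]
    refine Finset.sum_le_sum fun o _ => ?_
    rw [← ofReal_norm]
    have hno := PiLp.norm_apply_le
      (∫ z : E d, Kb3_chi M (x, φ x) ρ (fun X => Ψ X o) (z, φ z) • hb φ F z) o
    rw [Real.norm_eq_abs] at hno
    exact ENNReal.ofReal_le_ofReal hno
  refine hfin.trans ?_
  refine (Finset.sum_le_card_nsmul _ _ _ fun o _ =>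
    hsc φ U F h x ρ hρ (fun X => Ψ X o) O hO hBO (hΨ o) Λ hΛ (hΨd o)).trans (le_of_eq ?_)
  rw [nsmul_eq_mul, Finset.card_univ, ENNReal.coe_mul, mul_assoc, mul_assoc, mul_assoc]
  congr 1

end HG
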