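import Pool.Agent.W_MP_825298_an.KDefs
import Pool.Agent.W_MP_825298_an.Ex3
import Pool.Agent.W_MP_825298_an.Spl2

open MeasureTheory Set Filter Topology
open scoped ENNReal NNReal BigOperators

namespace HG
variable {d : ℕ}

variable {V : Type*} [NormedAddCommGroup V] [NormedSpace ℝ V]

theorem Kr1_bound {N : ℕ} {s : E d → ℝ} (hs : ResFun N s) (J3 k : ℕ) {r : ℝ} (hr : r ≤ 2 ^ k) {n : ℕ}
    (hn : N + J3 + k ≤ n) (y : E d) : r / 2 ^ n ≤ 1 / 2 ^ J3 * s y := by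
  have h1 := hs.lower y
  have h2 : (2 : ℝ) ^ (N + J3 + k) ≤ 2 ^ n := pow_le_pow_right₀ (by norm_num) hn
  calc r / 2 ^ n ≤ 2 ^ k / 2 ^ n := by gcongr
    _ ≤ 2 ^ k / 2 ^ (N + J3 + k) := by gcongr
    _ = 1 / 2 ^ J3 * (1 / 2 ^ N) := by
        rw [pow_add, pow_add]
        field_simp
    _ ≤ 1 / 2 ^ J3 * s y := by gcongr

theorem Kr1_le {s : E d → ℝ} {ε3 : ℝ} {x : E d} {r : ℝ} {ω : ℕ → St d} {l : ℕ}
    (h : r / 2 ^ l ≤ ε3 * s (x + r • Zp l ω)) : Rl s ε3 x r ω ≤ l :=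
  Nat.sInf_le h

theorem Kr1_spec {s : E d → ℝ} {ε3 : ℝ} {x : E d} {r : ℝ} {ω : ℕ → St d} {l : ℕ}
    (h : r / 2 ^ l ≤ ε3 * s (x + r • Zp l ω)) :
    r / 2 ^ (Rl s ε3 x r ω) ≤ ε3 * s (x + r • Zp (Rl s ε3 x r ω) ω) :=
  Nat.sInf_mem (s := {l : ℕ | r / 2 ^ l ≤ ε3 * s (x + r • Zp l ω)}) ⟨l, h⟩

theorem Kr1_zero {s : E d → ℝ} {ε3 : ℝ} {x : E d} {r : ℝ} (h : r ≤ ε3 * s x) (ω : ℕ → St d) :
    Rl s ε3 x r ω = 0 := by
  refine Nat.le_zero.1 (Kr1_le ?_)
  simpa [Zp] using h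

theorem Kr1_pos (x : E d) (r : ℝ) (l : ℕ) (k : St d) (ω : ℕ → St d) :
    x + r • Zp (l + 1) (consω k ω) = (x + (r / 2) • kv k) + (r / 2) • Zp l ω := by
  rw [Zp_cons, smul_add, smul_smul, smul_smul, ← add_assoc, mul_one_div]

theorem Kr1_scale (r : ℝ) (l : ℕ) : r / 2 ^ (l + 1) = r / 2 / 2 ^ l := by
  rw [pow_succ, div_div, mul_comm (2 : ℝ)]

theorem Kr1_succ {s : E d → ℝ} {ε3 : ℝ} {x : E d} {r : ℝ} (h : ¬ r ≤ ε3 * s x) {k : St d} {ω : ℕ → St d} {l : ℕ}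
    (hl : r / 2 / 2 ^ l ≤ ε3 * s ((x + (r / 2) • kv k) + (r / 2) • Zp l ω)) :
    Rl s ε3 x r (consω k ω) = Rl s ε3 (x + (r / 2) • kv k) (r / 2) ω + 1 := by
  have hmem : r / 2 ^ (l + 1) ≤ ε3 * s (x + r • Zp (l + 1) (consω k ω)) := by
    rw [Kr1_pos, Kr1_scale]
    exact hl
  have h1 : 1 ≤ sInf {l : ℕ | r / 2 ^ l ≤ ε3 * s (x + r • Zp l (consω k ω))} := by
    rw [Nat.one_le_iff_ne_zero]
    intro h0
    have h2 := Kr1_spec hmem
    have h3 : Rl s ε3 x r (consω k ω) = 0 := h0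
    rw [h3] at h2
    apply h
    simpa [Zp] using h2
  have h2 := Nat.sInf_add h1
  unfold Rl
  rw [← h2]
  simp only [Kr1_pos, Kr1_scale]

/-- the resolution time is bounded: at level `N+J3+k` the scale is `≤ 2^{-N-J3} ≤ ε3 s` -/
theorem Rl_le {N : ℕ} {s : E d → ℝ} (hs : ResFun N s) (J3 k : ℕ) (x : E d) {r : ℝ} (hr : r ≤ 2 ^ k) (ω : ℕ → St d) :
    Rl s (1 / 2 ^ J3) x r ω ≤ N + J3 + k :=
  Kr1_le (Kr1_bound hs J3 k hr le_rfl _)

theorem Rl_spec {N : ℕ} {s : E d → ℝ} (hs : ResFun N s) (J3 k : ℕ) (x : E d) {r : ℝ} (hr : r ≤ 2 ^ k) (ω : ℕ → St d) :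
    ρR s (1 / 2 ^ J3) x r ω ≤ 1 / 2 ^ J3 * s (XR s (1 / 2 ^ J3) x r ω) :=
  Kr1_spec (Kr1_bound hs J3 k hr le_rfl _)

theorem Rl_lt_spec {s : E d → ℝ} {ε3 : ℝ} {x : E d} {r : ℝ} {ω : ℕ → St d} {l : ℕ} (hl : l < Rl s ε3 x r ω) :
    ε3 * s (x + r • Zp l ω) < r / 2 ^ l :=
  not_le.1 fun h => absurd (Kr1_le h) (not_le.2 hl)

/-- adaptedness -/
theorem Rl_dep {N : ℕ} {s : E d → ℝ} (hs : ResFun N s) (J3 k : ℕ) (x : E d) {r : ℝ} (hr : r ≤ 2 ^ k) (l : ℕ) :
    Dep l (fun ω : ℕ → St d => (Rl s (1 / 2 ^ J3) x r ω = l)) ∧ Dep l (fun ω : ℕ → St d => (l < Rl s (1 / 2 ^ J3) x r ω)) := by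
  have key : ∀ ω ω' : ℕ → St d, (∀ i < l, ω i = ω' i) → ∀ j ≤ l,
      r / 2 ^ j ≤ 1 / 2 ^ J3 * s (x + r • Zp j ω) → r / 2 ^ j ≤ 1 / 2 ^ J3 * s (x + r • Zp j ω') := by
    intro ω ω' h j hj h1
    rwa [Zp_dep j ω ω' (fun i hi => h i (lt_of_lt_of_le hi hj))] at h1
  have hlt : ∀ ω ω' : ℕ → St d, (∀ i < l, ω i = ω' i) → l < Rl s (1 / 2 ^ J3) x r ω →
      l < Rl s (1 / 2 ^ J3) x r ω' := by
    intro ω ω' h h1
    by_contra hc
    push Not at hc
    have h2 := key ω' ω (fun i hi => (h i hi).symm) _ hc (Rl_spec hs J3 k x hr ω')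
    exact absurd (Kr1_le h2) (not_le.2 (lt_of_le_of_lt hc h1))
  have heq : ∀ ω ω' : ℕ → St d, (∀ i < l, ω i = ω' i) → Rl s (1 / 2 ^ J3) x r ω = l →
      Rl s (1 / 2 ^ J3) x r ω' = l := by
    intro ω ω' h h1
    have h2 := Kr1_spec (s := s) (ε3 := 1 / 2 ^ J3) (x := x) (r := r) (ω := ω)
      (Kr1_bound hs J3 k hr le_rfl _)
    rw [h1] at h2
    have h3 := Kr1_le (key ω ω' h l le_rfl h2)
    refine le_antisymm h3 ?_
    have h4 := key ω' ω (fun i hi => (h i hi).symm) _ h3 (Rl_spec hs J3 k x hr ω')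
    have h5 := Kr1_le h4
    rwa [h1] at h5
  constructor
  · intro ω ω' h
    exact propext ⟨heq ω ω' h, heq ω' ω fun i hi => (h i hi).symm⟩
  · intro ω ω' h
    exact propext ⟨hlt ω ω' h, hlt ω' ω fun i hi => (h i hi).symm⟩

/-- if the path is not resolved at time `0`, the resolution scale is comparable: `ε3 s(XR) ≤ 3 ρR` -/
theorem ρR_lower {N : ℕ} {s : E d → ℝ} (hs : ResFun N s) (J3 k : ℕ) (x : E d) {r : ℝ} (hr0 : 0 < r) (hr : r ≤ 2 ^ k)
    (h0 : 1 / 2 ^ J3 * s x < r) (ω : ℕ → St d) :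
    1 / 2 ^ J3 * s (XR s (1 / 2 ^ J3) x r ω) ≤ 3 * ρR s (1 / 2 ^ J3) x r ω := by
  have h1 : Rl s (1 / 2 ^ J3) x r ω ≠ 0 := by
    intro h2
    have h3 := Rl_spec hs J3 k x hr ω
    unfold ρR XR at h3
    rw [h2] at h3
    simp only [pow_zero, div_one, Zp, Finset.range_zero, Finset.sum_empty, smul_zero, add_zero] at h3
    linarith
  obtain ⟨l, hl⟩ := Nat.exists_eq_succ_of_ne_zero h1
  have h2 := Rl_lt_spec (s := s) (ε3 := 1 / 2 ^ J3) (x := x) (r := r) (ω := ω) (l := l)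
    (by rw [hl]; exact Nat.lt_succ_self l)
  have h3 : ρR s (1 / 2 ^ J3) x r ω = r / 2 / 2 ^ l := by
    unfold ρR
    rw [hl]
    exact Kr1_scale r l
  have h4 : XR s (1 / 2 ^ J3) x r ω = x + r • Zp (l + 1) ω := by
    unfold XR
    rw [hl]
  have h5 : ‖(x + r • Zp (l + 1) ω) - (x + r • Zp l ω)‖ ≤ r * (2 * ((2 : ℝ) ^ l)⁻¹) := by
    rw [add_sub_add_left_eq_sub, ← smul_sub, norm_smul, Real.norm_of_nonneg hr0.le]
    exact mul_le_mul_of_nonneg_left (norm_Zp_sub_le (Nat.le_succ l) ω) hr0.le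
  have h6 := hs.lip.dist_le_mul (x + r • Zp (l + 1) ω) (x + r • Zp l ω)
  rw [Real.dist_eq, dist_eq_norm] at h6
  have h7 := (abs_le.1 h6).2
  have h8 : ((1 / 4 : ℝ≥0) : ℝ) = 1 / 4 := by norm_num
  rw [h8] at h7
  have h9 : (1 : ℝ) / 2 ^ J3 ≤ 1 := by
    rw [div_le_one (by positivity)]
    exact one_le_pow₀ (by norm_num)
  have h10 : (0 : ℝ) < 1 / 2 ^ J3 := by positivity
  rw [h4, h3]
  have h11 : r / 2 / 2 ^ l = r * ((2 : ℝ) ^ l)⁻¹ / 2 := by ring
  have h12 : r / 2 ^ l = r * ((2 : ℝ) ^ l)⁻¹ := by ring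
  rw [h12] at h2
  rw [h11]
  have h13 : 0 < r * ((2 : ℝ) ^ l)⁻¹ := by positivity
  have h14 : r * (2 * ((2 : ℝ) ^ l)⁻¹) = 2 * (r * ((2 : ℝ) ^ l)⁻¹) := by ring
  rw [h14] at h5
  generalize r * ((2 : ℝ) ^ l)⁻¹ = t at h2 h5 h13 ⊢
  generalize (1 : ℝ) / 2 ^ J3 = e at h2 h9 h10 ⊢
  have h15 : s (x + r • Zp (l + 1) ω) ≤ s (x + r • Zp l ω) + t / 2 := by
    linarith
  calc e * s (x + r • Zp (l + 1) ω) ≤ e * (s (x + r • Zp l ω) + t / 2) :=
        mul_le_mul_of_nonneg_left h15 h10.le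
    _ = e * s (x + r • Zp l ω) + e * (t / 2) := by ring
    _ ≤ t + 1 * (t / 2) := add_le_add h2.le (mul_le_mul_of_nonneg_right h9 (by linarith))
    _ = 3 * (t / 2) := by ring

/-- distance of the resolution position from the position at time `l` -/
theorem XR_dist (s : E d → ℝ) (ε3 : ℝ) (x : E d) {r : ℝ} (hr : 0 < r) (ω : ℕ → St d) (l : ℕ) :
    (l ≤ Rl s ε3 x r ω → ‖XR s ε3 x r ω - (x + r • Zp l ω)‖ ≤ 2 * (r / 2 ^ l)) ∧
    (Rl s ε3 x r ω ≤ l → ‖XR s ε3 x r ω - (x + r • Zp l ω)‖ ≤ 2 * ρR s ε3 x r ω) := by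
  constructor
  · intro h
    unfold XR
    rw [add_sub_add_left_eq_sub, ← smul_sub, norm_smul, Real.norm_of_nonneg hr.le]
    refine (mul_le_mul_of_nonneg_left (norm_Zp_sub_le h ω) hr.le).trans (le_of_eq ?_)
    ring
  · intro h
    unfold XR ρR
    rw [add_sub_add_left_eq_sub, ← smul_sub, norm_smul, Real.norm_of_nonneg hr.le, norm_sub_rev]
    refine (mul_le_mul_of_nonneg_left (norm_Zp_sub_le h ω) hr.le).trans (le_of_eq ?_)
    ring

/-- optional stopping for an invariant family -/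
theorem Kr1_opt {R : Type*} [AddCommMonoid R] [Module ℝ≥0 R] {s : E d → ℝ} {ε3 : ℝ} {G : E d → ℝ → R}
    (hG : ∀ (x : E d) (r : ℝ), 0 < r → G x r = ∑ k : St d, wt k • G (x + (r / 2) • kv k) (r / 2)) (n : ℕ) :
    ∀ (x : E d) (r : ℝ), 0 < r → (∀ y, r / 2 ^ n ≤ ε3 * s y) →
      Ex n (fun ω : ℕ → St d => G (XR s ε3 x r ω) (ρR s ε3 x r ω)) = G x r := by
  have hzero : ∀ (n : ℕ) (x : E d) (r : ℝ), r ≤ ε3 * s x →
      Ex n (fun ω : ℕ → St d => G (XR s ε3 x r ω) (ρR s ε3 x r ω)) = G x r := by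
    intro n x r h
    have h1 : (fun ω : ℕ → St d => G (XR s ε3 x r ω) (ρR s ε3 x r ω)) = fun _ => G x r := by
      funext ω
      unfold XR ρR
      rw [Kr1_zero h]
      simp [Zp]
    rw [h1, Ex_const]
  induction n with
  | zero =>
    intro x r hr H
    exact hzero 0 x r (by simpa using H x)
  | succ n ih =>
    intro x r hr H
    by_cases h : r ≤ ε3 * s x
    · exact hzero _ x r h
    · have H' : ∀ y, r / 2 / 2 ^ n ≤ ε3 * s y := by
        intro y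
        rw [← Kr1_scale]
        exact H y
      rw [Ex, hG x r hr]
      refine Finset.sum_congr rfl fun k _ => ?_
      rw [← ih (x + (r / 2) • kv k) (r / 2) (half_pos hr) H']
      congr 2
      funext ω
      unfold XR ρR
      rw [Kr1_succ h (H' _), Kr1_pos, Kr1_scale]

/-- optional stopping at the resolution time, vector form -/
theorem opt_vec {N : ℕ} {s : E d → ℝ} (hs : ResFun N s) (J3 k : ℕ) {f : E d → ℝ → V} (hf : RefEq f) (x : E d) {r : ℝ} (hr0 : 0 < r)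
    (hr : r ≤ 2 ^ k) {n : ℕ} (hn : N + J3 + k ≤ n) :
    Ex n (fun ω : ℕ → St d => f (XR s (1 / 2 ^ J3) x r ω) (ρR s (1 / 2 ^ J3) x r ω)) = f x r :=
  Kr1_opt (fun x r hr => hf x r hr) n x r hr0 fun y => Kr1_bound hs J3 k hr hn y

/-- optional stopping for norms -/
theorem opt_norm {N : ℕ} {s : E d → ℝ} (hs : ResFun N s) (J3 k : ℕ) {m : E d → ℝ → V} (hm : RefEq m) (x : E d) {r : ℝ} (hr0 : 0 < r)
    (hr : r ≤ 2 ^ k) {n : ℕ} (hn : N + J3 + k ≤ n) :
    Ex n (fun ω : ℕ → St d => ‖m (XR s (1 / 2 ^ J3) x r ω) (ρR s (1 / 2 ^ J3) x r ω)‖ₑ)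
      = ‖m x r‖ₑ + Ex n (fun ω : ℕ → St d => ∑ l ∈ Finset.range (Rl s (1 / 2 ^ J3) x r ω), wv (gamE m) x r ω l) := by
  have hzero : ∀ (n : ℕ) (x : E d) (r : ℝ), r ≤ 1 / 2 ^ J3 * s x →
      Ex n (fun ω : ℕ → St d => ‖m (XR s (1 / 2 ^ J3) x r ω) (ρR s (1 / 2 ^ J3) x r ω)‖ₑ)
      = ‖m x r‖ₑ + Ex n (fun ω : ℕ → St d => ∑ l ∈ Finset.range (Rl s (1 / 2 ^ J3) x r ω), wv (gamE m) x r ω l) := by
    intro n x r h
    have h1 : (fun ω : ℕ → St d => ‖m (XR s (1 / 2 ^ J3) x r ω) (ρR s (1 / 2 ^ J3) x r ω)‖ₑ) = fun _ => ‖m x r‖ₑ := by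
      funext ω
      unfold XR ρR
      rw [Kr1_zero h]
      simp [Zp]
    have h2 : (fun ω : ℕ → St d => ∑ l ∈ Finset.range (Rl s (1 / 2 ^ J3) x r ω), wv (gamE m) x r ω l)
        = fun _ => 0 := by
      funext ω
      rw [Kr1_zero h]
      simp
    rw [h1, h2, Ex_const, Ex_zero, add_zero]
  have main : ∀ (n : ℕ) (x : E d) (r : ℝ), 0 < r → (∀ y, r / 2 ^ n ≤ 1 / 2 ^ J3 * s y) →
      Ex n (fun ω : ℕ → St d => ‖m (XR s (1 / 2 ^ J3) x r ω) (ρR s (1 / 2 ^ J3) x r ω)‖ₑ)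
      = ‖m x r‖ₑ + Ex n (fun ω : ℕ → St d => ∑ l ∈ Finset.range (Rl s (1 / 2 ^ J3) x r ω), wv (gamE m) x r ω l) := by
    intro n
    induction n with
    | zero =>
      intro x r hr H
      exact hzero 0 x r (by simpa using H x)
    | succ n ih =>
      intro x r hr H
      by_cases h : r ≤ 1 / 2 ^ J3 * s x
      · exact hzero _ x r h
      · have H' : ∀ y, r / 2 / 2 ^ n ≤ 1 / 2 ^ J3 * s y := by
          intro y
          rw [← Kr1_scale]
          exact H y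
        have e1 : ∀ k : St d, Ex n (fun ω : ℕ → St d =>
            ‖m (XR s (1 / 2 ^ J3) x r (consω k ω)) (ρR s (1 / 2 ^ J3) x r (consω k ω))‖ₑ)
            = ‖m (x + (r / 2) • kv k) (r / 2)‖ₑ + Ex n (fun ω : ℕ → St d =>
              ∑ l ∈ Finset.range (Rl s (1 / 2 ^ J3) (x + (r / 2) • kv k) (r / 2) ω),
                wv (gamE m) (x + (r / 2) • kv k) (r / 2) ω l) := by
          intro k
          rw [← ih (x + (r / 2) • kv k) (r / 2) (half_pos hr) H']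
          congr 1
          funext ω
          unfold XR ρR
          rw [Kr1_succ h (H' _), Kr1_pos, Kr1_scale]
        have e2 : ∀ k : St d, Ex n (fun ω : ℕ → St d =>
            ∑ l ∈ Finset.range (Rl s (1 / 2 ^ J3) x r (consω k ω)), wv (gamE m) x r (consω k ω) l)
            = gamE m x r + Ex n (fun ω : ℕ → St d =>
              ∑ l ∈ Finset.range (Rl s (1 / 2 ^ J3) (x + (r / 2) • kv k) (r / 2) ω),
                wv (gamE m) (x + (r / 2) • kv k) (r / 2) ω l) := by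
          intro k
          rw [← Ex_const (d := d) n (gamE m x r), ← Ex_add]
          congr 1
          funext ω
          rw [Kr1_succ h (H' _), Finset.sum_range_succ', add_comm]
          congr 1
          · simp [wv, Zp]
          · refine Finset.sum_congr rfl fun l _ => ?_
            unfold wv
            rw [Kr1_pos, Kr1_scale]
        simp only [Ex, e1, e2]
        simp only [smul_add, Finset.sum_add_distrib]
        have e3 : ∑ k : St d, wt k • ‖m (x + (r / 2) • kv k) (r / 2)‖ₑ = ‖m x r‖ₑ + gamE m x r :=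
          gamE_spec hm x hr
        have e4 : ∑ k : St d, wt k • gamE m x r = gamE m x r := by
          rw [← Finset.sum_smul, sum_wt, one_smul]
        rw [e3, e4, add_assoc]
  exact main n x r hr0 fun y => Kr1_bound hs J3 k hr hn y

/-- the refinement equation in `lintegral` form -/
theorem Kr1_ref {f : E d → ℝ≥0∞} (hf : Measurable f) (x : E d) {r : ℝ} (hr : 0 < r) :
    ∫⁻ y : E d, ENNReal.ofReal (pk y) * f (x + r • y)
      = ∑ k : St d, wt k • ∫⁻ y : E d, ENNReal.ofReal (pk y) * f ((x + (r / 2) • kv k) + (r / 2) • y) := by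
  have hpk : Continuous (pk (d := d)) := pk_contDiff.continuous
  have h1 : ∀ y : E d, ENNReal.ofReal (pk y) * f (x + r • y)
      = ∑ k : St d, ENNReal.ofReal ((2 : ℝ) ^ d * (wt k : ℝ) * pk ((2 : ℝ) • y - kv k)) * f (x + r • y) := by
    intro y
    rw [← Finset.sum_mul, ← ENNReal.ofReal_sum_of_nonneg, ← pk_refine]
    intro k _
    have := pk_nonneg ((2 : ℝ) • y - kv k)
    positivity
  simp only [h1]
  have hm1 : ∀ k : St d, Measurable fun y : E d =>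
      ENNReal.ofReal ((2 : ℝ) ^ d * (wt k : ℝ) * pk ((2 : ℝ) • y - kv k)) * f (x + r • y) := by
    intro k
    refine Measurable.mul ?_ ?_
    · have : Continuous fun y : E d => (2 : ℝ) ^ d * (wt k : ℝ) * pk ((2 : ℝ) • y - kv k) := by
        fun_prop
      exact this.measurable.ennreal_ofReal
    · have : Continuous fun y : E d => x + r • y := by fun_prop
      exact hf.comp this.measurable
  rw [lintegral_finsetSum' _ (fun k _ => (hm1 k).aemeasurable)]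
  refine Finset.sum_congr rfl fun k _ => ?_
  have hmg : Measurable fun y : E d => ENNReal.ofReal (pk y) * f ((x + (r / 2) • kv k) + (r / 2) • y) := by
    refine Measurable.mul hpk.measurable.ennreal_ofReal ?_
    have : Continuous fun y : E d => (x + (r / 2) • kv k) + (r / 2) • y := by fun_prop
    exact hf.comp this.measurable
  have hmh : Measurable fun z : E d =>
      (fun y : E d => ENNReal.ofReal (pk y) * f ((x + (r / 2) • kv k) + (r / 2) • y)) (z - kv k) := by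
    have : Continuous fun z : E d => z - kv k := by fun_prop
    exact hmg.comp this.measurable
  have h2 : ∀ y : E d, ENNReal.ofReal ((2 : ℝ) ^ d * (wt k : ℝ) * pk ((2 : ℝ) • y - kv k)) * f (x + r • y)
      = ENNReal.ofReal ((2 : ℝ) ^ d * (wt k : ℝ)) *
        ((fun y : E d => ENNReal.ofReal (pk y) * f ((x + (r / 2) • kv k) + (r / 2) • y)) ((2 : ℝ) • y - kv k)) := by
    intro y
    simp only
    have e2 : x + (r / 2) • kv k + (r / 2) • ((2 : ℝ) • y - kv k) = x + r • y := by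
      rw [smul_sub, smul_smul, show r / 2 * 2 = r by ring]
      abel
    rw [e2, ENNReal.ofReal_mul (by positivity), mul_assoc]
  simp only [h2]
  have hmc : Measurable fun y : E d =>
      (fun y : E d => ENNReal.ofReal (pk y) * f ((x + (r / 2) • kv k) + (r / 2) • y)) ((2 : ℝ) • y - kv k) := by
    have : Continuous fun y : E d => (2 : ℝ) • y := by fun_prop
    exact hmh.comp this.measurable
  rw [lintegral_const_mul _ hmc]
  have h3 : ∫⁻ y : E d, (fun z : E d =>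
      (fun y : E d => ENNReal.ofReal (pk y) * f ((x + (r / 2) • kv k) + (r / 2) • y)) (z - kv k)) ((2 : ℝ) • y)
      = ∫⁻ z, (fun z : E d =>
      (fun y : E d => ENNReal.ofReal (pk y) * f ((x + (r / 2) • kv k) + (r / 2) • y)) (z - kv k)) z
        ∂(Measure.map (fun y : E d => (2 : ℝ) • y) volume) := by
    rw [lintegral_map hmh (measurable_const_smul (2 : ℝ))]
  have h4 := Measure.map_addHaar_smul (volume : Measure (E d)) (two_ne_zero (α := ℝ))
  rw [h4, lintegral_smul_measure] at h3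
  have h5 := lintegral_sub_right_eq_self (μ := (volume : Measure (E d)))
    (fun y : E d => ENNReal.ofReal (pk y) * f ((x + (r / 2) • kv k) + (r / 2) • y)) (kv k)
  simp only at h3 h5 ⊢
  rw [h3, h5, smul_eq_mul, ← mul_assoc, ENNReal.smul_def, smul_eq_mul]
  congr 1
  simp only [Module.finrank_fintype_fun_eq_card, Fintype.card_fin]
  rw [← ENNReal.ofReal_mul (by positivity), abs_of_pos (by positivity)]
  have h6 : (2 : ℝ) ^ d * (wt k : ℝ) * ((2 : ℝ) ^ d)⁻¹ = wt k := by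
    field_simp
  rw [h6, ENNReal.ofReal_coe_nnreal]

/-- optional stopping for a nonnegative function integrated against the spline (`pk_refine` in `lintegral` form) -/
theorem opt_lint {N : ℕ} {s : E d → ℝ} (hs : ResFun N s) (J3 k : ℕ) {f : E d → ℝ≥0∞} (hf : Measurable f) (x : E d) {r : ℝ}
    (hr0 : 0 < r) (hr : r ≤ 2 ^ k) {n : ℕ} (hn : N + J3 + k ≤ n) :
    Ex n (fun ω : ℕ → St d => ∫⁻ y : E d, ENNReal.ofReal (pk y) *
        f (XR s (1 / 2 ^ J3) x r ω + ρR s (1 / 2 ^ J3) x r ω • y))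
      = ∫⁻ y : E d, ENNReal.ofReal (pk y) * f (x + r • y) :=
  Kr1_opt (s := s) (ε3 := 1 / 2 ^ J3) (G := fun x r => ∫⁻ y : E d, ENNReal.ofReal (pk y) * f (x + r • y))
    (fun x _ h => Kr1_ref hf x h) n x r hr0 fun y => Kr1_bound hs J3 k hr hn y

end HG
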