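import Pool.Agent.W_MP_825298_an.Ke1
import Pool.Agent.W_MP_825298_an.Kb1
import Pool.Agent.W_MP_825298_an.Kb3
import Pool.Agent.W_MP_825298_an.Kr1
import Pool.Agent.W_MP_825298_an.Cert1
import Pool.Agent.W_MP_825298_an.CertAlg1
import Pool.Agent.W_MP_825298_an.CertAlg3
import Pool.Agent.W_MP_825298_an.Ka1

open MeasureTheory Set Filter Topology
open scoped ENNReal NNReal BigOperators

namespace HG
variable {d : ℕ}

/-- the cutoff -/
noncomputable def Kc1_chi (a t0 : ℝ) (X : P d) : ℝ := chi1 X.1 * chi2 a (X.2 - t0)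

/-- bounds for the derivative of the cutoff -/
theorem Kc1_pd (d : ℕ) : ∃ K : ℝ, 0 < K ∧ ∀ (a : ℝ), 0 ≤ a → ∀ (t0 : ℝ) (X : P d),
    ∑ b : Ix d, |pd b (Kc1_chi a t0) X| ≤ K := by
  obtain ⟨C1, hC1, h1, h2, h3, h4, h5, -⟩ := chi1_facts d
  obtain ⟨C2, hC2, h6⟩ := chi2_deriv
  refine ⟨∑ _b : Ix d, (C1 + C2), ?_, ?_⟩
  · refine Finset.sum_pos (fun _ _ => by positivity) ⟨none, Finset.mem_univ _⟩
  · intro a ha t0 X
    obtain ⟨g1, g2, g3, g4⟩ := chi2_facts a ha
    have e1 : HasFDerivAt (fun X : P d => chi1 X.1)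
        ((fderiv ℝ chi1 X.1).comp (ContinuousLinearMap.fst ℝ (E d) ℝ)) X :=
      ((h1.differentiable (by norm_num) X.1).hasFDerivAt).comp X hasFDerivAt_fst
    have e2a : HasFDerivAt (fun X : P d => X.2 - t0) (ContinuousLinearMap.snd ℝ (E d) ℝ) X :=
      (hasFDerivAt_snd (𝕜 := ℝ) (E := E d) (F := ℝ) (p := X)).sub_const t0
    have e2b : HasDerivAt (chi2 a) (deriv (chi2 a) (X.2 - t0)) (X.2 - t0) :=
      (g1.differentiable (by norm_num) (X.2 - t0)).hasDerivAt
    have e2 : HasFDerivAt (fun X : P d => chi2 a (X.2 - t0))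
        ((deriv (chi2 a) (X.2 - t0)) • (ContinuousLinearMap.snd ℝ (E d) ℝ)) X := by
      have e2c := HasDerivAt.comp_hasFDerivAt (h₂ := chi2 a)
        (f := fun X : P d => X.2 - t0) X e2b e2a
      exact e2c
    have e3 := e1.mul e2
    refine Finset.sum_le_sum fun b _ => ?_
    have e4 : pd b (Kc1_chi a t0) X = (chi1 X.1 • ((deriv (chi2 a) (X.2 - t0)) •
        (ContinuousLinearMap.snd ℝ (E d) ℝ)) + chi2 a (X.2 - t0) • ((fderiv ℝ chi1 X.1).comp
        (ContinuousLinearMap.fst ℝ (E d) ℝ))) (eb b) := by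
      unfold pd
      rw [← e3.fderiv]
      rfl
    rw [e4]
    have k1 : |chi1 X.1| ≤ 1 := abs_le.2 ⟨by linarith [(h2 X.1).1], (h2 X.1).2⟩
    have k2 : |chi2 a (X.2 - t0)| ≤ 1 :=
      abs_le.2 ⟨by linarith [(g2 (X.2 - t0)).1], (g2 (X.2 - t0)).2⟩
    have k3 := h6 a ha (X.2 - t0)
    cases b with
    | none =>
      simp only [eb, _root_.add_apply, _root_.smul_apply, smul_eq_mul,
        ContinuousLinearMap.coe_snd', ContinuousLinearMap.comp_apply,
        ContinuousLinearMap.coe_fst', map_zero, mul_zero, add_zero, mul_one]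
      rw [abs_mul]
      have : |chi1 X.1| * |deriv (chi2 a) (X.2 - t0)| ≤ 1 * C2 :=
        mul_le_mul k1 k3 (abs_nonneg _) zero_le_one
      linarith
    | some i =>
      simp only [eb, _root_.add_apply, _root_.smul_apply, smul_eq_mul,
        ContinuousLinearMap.coe_snd', ContinuousLinearMap.comp_apply,
        ContinuousLinearMap.coe_fst', mul_zero, zero_add]
      rw [abs_mul]
      have : |chi2 a (X.2 - t0)| * |fderiv ℝ chi1 X.1 (Pi.single i 1)| ≤ 1 * C1 :=
        mul_le_mul k2 (h5 X.1 i) (abs_nonneg _) zero_le_one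
      linarith

/-- where the derivative of the cutoff does not vanish -/
theorem Kc1_supp {a t0 : ℝ} (ha : 0 ≤ a) {X : P d}
    (hX : ∑ b : Ix d, |pd b (Kc1_chi a t0) X| ≠ 0) :
    ‖X.1‖ ≤ 4 ∧ |X.2 - t0| ≤ a + 1 ∧ (2 ≤ ‖X.1‖ ∨ a ≤ |X.2 - t0|) := by
  obtain ⟨C1, hC1, h1, h2, h3, h4, h5, -⟩ := chi1_facts d
  obtain ⟨g1, g2, g3, g4⟩ := chi2_facts a ha
  have key : ∀ c : ℝ, ¬ (Kc1_chi (d := d) a t0 =ᶠ[𝓝 X] fun _ => c) := by
    intro c hc
    apply hX
    refine Finset.sum_eq_zero fun b _ => ?_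
    unfold pd
    rw [hc.fderiv_eq]
    simp
  have hc1 : Continuous fun Y : P d => ‖Y.1‖ := by fun_prop
  have hc2 : Continuous fun Y : P d => |Y.2 - t0| := by fun_prop
  refine ⟨?_, ?_, ?_⟩
  · by_contra h
    apply key 0
    filter_upwards [hc1.continuousAt.eventually (lt_mem_nhds (not_le.1 h))] with Y hY
    unfold Kc1_chi
    rw [h4 Y.1 hY.le, zero_mul]
  · by_contra h
    apply key 0
    filter_upwards [hc2.continuousAt.eventually (lt_mem_nhds (not_le.1 h))] with Y hY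
    unfold Kc1_chi
    rw [g4 _ hY.le, mul_zero]
  · by_contra h
    push Not at h
    apply key 1
    filter_upwards [hc1.continuousAt.eventually (gt_mem_nhds h.1),
      hc2.continuousAt.eventually (gt_mem_nhds h.2)] with Y hY hY2
    unfold Kc1_chi
    rw [h3 Y.1 hY.le, g3 _ hY2.le, mul_one]

theorem Kc1_lint {M : ℝ≥0} {φ : E d → ℝ} {U : Set (P d)} {F : Ix d → P d → ℝ}
    (h : GFd M φ U F) {c : ℝ} (hc4 : 4 ≤ c) (c2 : ℝ) (hc2 : c2 ≤ c) :
    ∫⁻ X in above φ, ({X : P d | ‖X.1‖ ≤ 4 ∧ X.2 - φ X.1 ≤ c2}).indicator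
      (fun X => ENNReal.ofReal (nF F X)) X ≤ wE φ F c 0 1 := by
  have hφc : Continuous φ := h.lip.continuous
  have hR : MeasurableSet {X : P d | ‖X.1‖ ≤ 4 ∧ X.2 - φ X.1 ≤ c2} := by
    have h1 : IsClosed {X : P d | ‖X.1‖ ≤ 4 ∧ X.2 - φ X.1 ≤ c2} :=
      (isClosed_le (f := fun X : P d => ‖X.1‖) (by fun_prop) continuous_const).inter
        (isClosed_le (f := fun X : P d => X.2 - φ X.1) (by fun_prop) continuous_const)
    exact h1.measurableSet
  have hcont : ContinuousOn (fun X => nF F X) U := by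
    unfold nF
    exact continuousOn_finsetSum _ fun a _ => (h.fld.cd a).continuousOn.abs
  have hsub : above φ ⊆ U := fun X hX => h.sub (show φ X.1 ≤ X.2 from le_of_lt hX)
  have hmeas : AEMeasurable (fun X => nF F X) (volume.restrict (above φ)) :=
    (hcont.mono hsub).aemeasurable (measurableSet_above h.lip)
  rw [lintegral_above h.lip _ (hmeas.ennreal_ofReal.indicator hR)]
  unfold wE
  simp only [one_pow, inv_one, ENNReal.ofReal_one, one_mul, mul_one]
  rw [← lintegral_indicator measurableSet_closedBall]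
  refine lintegral_mono fun x => ?_
  by_cases hx : x ∈ Metric.closedBall (0 : E d) c
  · rw [indicator_of_mem hx]
    have h1 : ∫⁻ τ in Ioi (0 : ℝ), ({X : P d | ‖X.1‖ ≤ 4 ∧ X.2 - φ X.1 ≤ c2}).indicator
        (fun X => ENNReal.ofReal (nF F X)) (x, φ x + τ) ≤ ∫⁻ τ in Ioi (0 : ℝ),
        (Ioc (0 : ℝ) c).indicator (fun τ => ENNReal.ofReal (nF F (x, φ x + τ))) τ := by
      refine setLIntegral_mono' measurableSet_Ioi fun τ hτ => ?_
      by_cases hX : ((x, φ x + τ) : P d) ∈ {X : P d | ‖X.1‖ ≤ 4 ∧ X.2 - φ X.1 ≤ c2}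
      · rw [indicator_of_mem hX, indicator_of_mem]
        have h2 : φ x + τ - φ x ≤ c2 := hX.2
        exact ⟨hτ, by linarith⟩
      · rw [indicator_of_notMem hX]
        exact zero_le
    refine h1.trans ?_
    refine (setLIntegral_le_lintegral _ _).trans ?_
    rw [lintegral_indicator measurableSet_Ioc]
  · rw [indicator_of_notMem hx]
    have h1 : ∀ τ : ℝ, ({X : P d | ‖X.1‖ ≤ 4 ∧ X.2 - φ X.1 ≤ c2}).indicator
        (fun X => ENNReal.ofReal (nF F X)) (x, φ x + τ) = 0 := by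
      intro τ
      apply indicator_of_notMem
      intro hX
      apply hx
      have h2 : ‖x‖ ≤ 4 := hX.1
      rw [mem_closedBall_zero_iff]
      linarith
    simp only [h1, lintegral_zero, le_refl]

/-- The bulk bound: `cert_ineq` with `χ(y,t) = chi1 y * chi2 (4M+1) (t-φ 0)`; on the graph over `‖y‖ ≤ 4` the vertical cutoff is `1`; on `supp ∇χ ∩ above φ`
the height over `φ - s` is `≥ δ/4`, and this set is contained in `‖y‖ ≤ 4`, `0 < t-φ y ≤ 8M+2`. -/
theorem bulk_le (hd : 1 ≤ d) (M : ℝ≥0) : ∃ C : ℝ, 0 < C ∧ ∀ c1 : ℝ, c1m M ≤ c1 →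
    ∀ (φ : E d → ℝ) (U : Set (P d)) (F : Ix d → P d → ℝ), GFd M φ U F → ∀ (s : E d → ℝ), LipschitzWith (1 / 4) s → (∀ y, 0 < s y) →
    ∀ δ : ℝ, 0 < δ → δ ≤ 1 → (∀ y, 2 ≤ ‖y‖ → δ / 4 ≤ s y) →
    ∀ (G : Ix d → P d → ℝ), IsField (above (fun y => φ y - s y)) G → ∀ gs : ℝ, 0 ≤ gs →
    (∀ X ∈ above φ, δ / 4 ≤ X.2 - φ X.1 + s X.1 → nF G X ≤ gs) → ∀ q : VV d, IsAnti q →
    ENNReal.ofReal |∫ y : E d, chi1 y * inner ℝ (Kvec (fun a => G a (y, φ y)) q) (hb φ F y)|
      ≤ ENNReal.ofReal (C * gs * ‖q‖) * WdE φ F c1 0 1 := by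
  obtain ⟨Cc, hCc, hcert⟩ := cert_ineq d
  obtain ⟨K, hK, hpd⟩ := Kc1_pd d
  have hM0 : (0 : ℝ) ≤ M := M.coe_nonneg
  have hcpos : (0 : ℝ) < 8 * M + 4 := by linarith
  refine ⟨Cc * K * Real.sqrt (8 * M + 4), by positivity, ?_⟩
  intro c1 hc1 φ U F hGF s hs hs0 δ hδ hδ1 hδs G hG gs hgs hGle q hq
  obtain ⟨C1, hC1, h1, h2, h3, h4, h5, -⟩ := chi1_facts d
  have ha : (0 : ℝ) ≤ 4 * M + 1 := by linarith
  obtain ⟨g1, g2, g3, g4⟩ := chi2_facts (4 * M + 1) ha
  set a : ℝ := 4 * M + 1 with hadef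
  set t0 : ℝ := φ 0 with ht0
  have hlip : ∀ y : E d, |φ y - t0| ≤ M * ‖y‖ := by
    intro y
    have := hGF.lip.dist_le_mul y 0
    rwa [Real.dist_eq, dist_zero_right] at this
  -- common domain
  set U' : Set (P d) := U ∩ above (fun y => φ y - s y) with hU'
  have hφc : Continuous φ := hGF.lip.continuous
  have hsc : Continuous s := hs.continuous
  have hop : IsOpen (above (fun y => φ y - s y)) := by
    unfold above
    exact isOpen_lt (by fun_prop) (by fun_prop)
  have hU'o : IsOpen U' := hGF.op.inter hop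
  have hU's : aboveC φ ⊆ U' := by
    intro X hX
    refine ⟨hGF.sub hX, ?_⟩
    have h6 : φ X.1 ≤ X.2 := hX
    have h7 := hs0 X.1
    change φ X.1 - s X.1 < X.2
    linarith
  have hmono : ∀ {V W : Set (P d)} {H : Ix d → P d → ℝ}, V ⊆ W → IsField W H → IsField V H :=
    fun hVW hH => ⟨fun b => (hH.cd b).mono hVW, fun b c X hX => hH.curl b c X (hVW hX),
      fun X hX => hH.div X (hVW hX)⟩
  have hχ : ContDiff ℝ 1 (Kc1_chi (d := d) a t0) := by
    unfold Kc1_chi
    exact ((h1.of_le (by norm_num)).comp contDiff_fst).mul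
      ((g1.of_le (by norm_num)).comp (contDiff_snd.sub contDiff_const))
  have hcer := hcert M φ hGF.lip U' hU'o hU's F G (hmono inter_subset_left hGF.fld)
    (hmono inter_subset_right hG) q hq (Kc1_chi a t0) hχ.contDiffOn (max 4 (|t0| + (a + 1))) (by
      intro X _ hX
      unfold Kc1_chi
      by_cases h6 : 4 ≤ ‖X.1‖
      · rw [h4 _ h6, zero_mul]
      · have h7 : max 4 (|t0| + (a + 1)) ≤ max ‖X.1‖ ‖X.2‖ := hX
        have h8 : max 4 (|t0| + (a + 1)) ≤ ‖X.2‖ := by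
          rcases le_max_iff.1 h7 with h9 | h9
          · exact absurd ((le_max_left _ _).trans h9) h6
          · exact h9
        have h9 : |t0| + (a + 1) ≤ |X.2| := (le_max_right _ _).trans h8
        have h10 : |X.2| ≤ |X.2 - t0| + |t0| := by
          have := abs_add_le (X.2 - t0) t0
          simpa using this
        rw [g4 _ (by linarith), mul_zero])
  have hLHS : ∀ y : E d, Kc1_chi a t0 (y, φ y) = chi1 y := by
    intro y
    unfold Kc1_chi
    by_cases h6 : 4 ≤ ‖y‖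
    · rw [h4 _ h6, zero_mul]
    · have h7 := hlip y
      have h8 : (M : ℝ) * ‖y‖ ≤ M * 4 := by
        have := not_le.1 h6
        exact mul_le_mul_of_nonneg_left this.le hM0
      rw [g3 _ (by simp only; linarith), mul_one]
  simp only [hLHS] at hcer
  -- the right side
  set R : Set (P d) := {X : P d | ‖X.1‖ ≤ 4 ∧ X.2 - φ X.1 ≤ 8 * M + 2} with hRdef
  have hnF0 : ∀ (H : Ix d → P d → ℝ) X, 0 ≤ nF H X := fun H X =>
    Finset.sum_nonneg fun _ _ => abs_nonneg _
  have hpt : ∀ X ∈ above φ, (∑ b : Ix d, |pd b (Kc1_chi a t0) X|) * nF G X * nF F X ≤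
      K * gs * R.indicator (fun X => nF F X) X := by
    intro X hX
    have hXa : φ X.1 < X.2 := hX
    have hRn : 0 ≤ R.indicator (fun X => nF F X) X := indicator_nonneg (fun X _ => hnF0 F X) X
    by_cases h6 : ∑ b : Ix d, |pd b (Kc1_chi a t0) X| = 0
    · rw [h6, zero_mul, zero_mul]
      positivity
    · obtain ⟨k1, k2, k3⟩ := Kc1_supp ha h6
      have k4 := abs_le.1 (hlip X.1)
      have k5 := abs_le.1 k2
      have k6 : (M : ℝ) * ‖X.1‖ ≤ M * 4 := mul_le_mul_of_nonneg_left k1 hM0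
      have hXR : X ∈ R := ⟨k1, by linarith⟩
      rw [indicator_of_mem hXR]
      have hG2 : nF G X ≤ gs := by
        apply hGle X hX
        have hs1 := hs0 X.1
        by_cases k7 : 2 ≤ ‖X.1‖
        · have := hδs X.1 k7
          linarith
        · have k8 := k3.resolve_left k7
          have k9 : (M : ℝ) * ‖X.1‖ ≤ M * 2 := mul_le_mul_of_nonneg_left (not_le.1 k7).le hM0
          rcases le_abs.1 k8 with k10 | k10
          · linarith
          · linarith
      exact mul_le_mul_of_nonneg_right (mul_le_mul (hpd a ha t0 X) hG2 (hnF0 G X) hK.le)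
        (hnF0 F X)
  have hint : ENNReal.ofReal (∫ X in above φ, (∑ b : Ix d, |pd b (Kc1_chi a t0) X|) * nF G X *
      nF F X) ≤ ENNReal.ofReal (K * gs) * wE φ F (8 * M + 4) 0 1 := by
    have hnn : ∀ X, 0 ≤ (∑ b : Ix d, |pd b (Kc1_chi a t0) X|) * nF G X * nF F X := fun X =>
      mul_nonneg (mul_nonneg (Finset.sum_nonneg fun _ _ => abs_nonneg _) (hnF0 G X)) (hnF0 F X)
    have hle : ENNReal.ofReal (∫ X in above φ, (∑ b : Ix d, |pd b (Kc1_chi a t0) X|) * nF G X *
        nF F X) ≤ ∫⁻ X in above φ, ENNReal.ofReal ((∑ b : Ix d, |pd b (Kc1_chi a t0) X|) *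
        nF G X * nF F X) := by
      by_cases hI : IntegrableOn (fun X => (∑ b : Ix d, |pd b (Kc1_chi a t0) X|) * nF G X *
        nF F X) (above φ)
      · rw [ofReal_integral_eq_lintegral_ofReal hI (Eventually.of_forall hnn)]
      · rw [integral_undef hI, ENNReal.ofReal_zero]
        exact zero_le
    refine hle.trans ?_
    have hle2 : ∫⁻ X in above φ, ENNReal.ofReal ((∑ b : Ix d, |pd b (Kc1_chi a t0) X|) *
        nF G X * nF F X) ≤ ∫⁻ X in above φ, ENNReal.ofReal (K * gs) *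
        R.indicator (fun X => ENNReal.ofReal (nF F X)) X := by
      refine setLIntegral_mono' (measurableSet_above hGF.lip) fun X hX => ?_
      refine (ENNReal.ofReal_le_ofReal (hpt X hX)).trans ?_
      rw [ENNReal.ofReal_mul (by positivity)]
      by_cases hXR : X ∈ R
      · rw [indicator_of_mem hXR, indicator_of_mem hXR]
      · rw [indicator_of_notMem hXR, indicator_of_notMem hXR]
        simp
    refine hle2.trans ?_
    rw [lintegral_const_mul' _ _ ENNReal.ofReal_ne_top]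
    refine mul_le_mul' le_rfl ?_
    exact Kc1_lint hGF (by linarith) _ (by linarith)
  have hW1 : wE φ F (8 * M + 4) 0 1 ≤ ENNReal.ofReal (Real.sqrt (8 * M + 4)) *
      WdE φ F (8 * M + 4) 0 1 := wE_le_WdE φ F hcpos one_pos 0
  have hW2 : WdE φ F (8 * M + 4) 0 1 ≤ WdE φ F c1 0 1 := by
    have hc1' : (40 : ℝ) * M + 80 ≤ c1 := hc1
    have := WdE_mono φ F (c := c1) (c' := 8 * M + 4) (ρ := 1) (ρ' := 1) (x := 0) (x' := 0)
      one_pos le_rfl (by rw [sub_self, norm_zero]; linarith)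
    simpa using this
  calc ENNReal.ofReal |∫ y : E d, chi1 y * inner ℝ (Kvec (fun a => G a (y, φ y)) q) (hb φ F y)|
      ≤ ENNReal.ofReal (Cc * ‖q‖ * ∫ X in above φ, (∑ b : Ix d, |pd b (Kc1_chi a t0) X|) *
          nF G X * nF F X) := ENNReal.ofReal_le_ofReal hcer
    _ = ENNReal.ofReal (Cc * ‖q‖) * ENNReal.ofReal (∫ X in above φ,
          (∑ b : Ix d, |pd b (Kc1_chi a t0) X|) * nF G X * nF F X) := by
        rw [ENNReal.ofReal_mul (by positivity)]
    _ ≤ ENNReal.ofReal (Cc * ‖q‖) * (ENNReal.ofReal (K * gs) *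
          (ENNReal.ofReal (Real.sqrt (8 * M + 4)) * WdE φ F c1 0 1)) := by
        refine mul_le_mul' le_rfl (hint.trans ?_)
        refine mul_le_mul' le_rfl (hW1.trans ?_)
        exact mul_le_mul' le_rfl hW2
    _ = ENNReal.ofReal (Cc * K * Real.sqrt (8 * M + 4) * gs * ‖q‖) * WdE φ F c1 0 1 := by
        rw [← mul_assoc, ← mul_assoc, ← ENNReal.ofReal_mul (by positivity),
          ← ENNReal.ofReal_mul (by positivity)]
        congr 2
        ring

end HG
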