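import Pool.Agent.W_MP_825298_an.Kc1

open MeasureTheory Set Filter Topology
open scoped ENNReal NNReal BigOperators

namespace HG
variable {d : ℕ}

/-- `Kvec` as a linear functional of `g`, componentwise -/
theorem Kc2_lin (q : VV d) (o : Option (Ix d × Ix d)) : ∃ L : (Ix d → ℝ) →ₗ[ℝ] ℝ, ∀ g, Kvec g q o = L g := by
  match o with
  | none => exact ⟨Cert1_K0 q, fun g => Cert1_K0_eq g q⟩
  | some (a, b) =>
    refine ⟨(Real.sqrt 2)⁻¹ • Cert1_K q a b, fun g => ?_⟩
    have h := Cert1_K_eq g q a b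
    have h2 : Real.sqrt 2 ≠ 0 := by positivity
    rw [LinearMap.smul_apply, smul_eq_mul, ← h]
    field_simp

/-- the coefficients of `Kvec` -/
noncomputable def Kc2_kap (q : VV d) (o : Option (Ix d × Ix d)) (a : Ix d) : ℝ :=
  Kvec (fun j => if a = j then 1 else 0) q o

theorem Kc2_sum (g : Ix d → ℝ) (q : VV d) (o : Option (Ix d × Ix d)) :
    Kvec g q o = ∑ a : Ix d, g a * Kc2_kap q o a := by
  obtain ⟨L, hL⟩ := Kc2_lin q o
  rw [hL, LinearMap.pi_apply_eq_sum_univ L g]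
  refine Finset.sum_congr rfl fun a _ => ?_
  rw [smul_eq_mul]
  congr 1
  rw [Kc2_kap, hL]

theorem Kc2_kap_le (d : ℕ) : ∃ C : ℝ, 0 < C ∧ ∀ (q : VV d), ‖q‖ ≤ 1 → ∀ (o : Option (Ix d × Ix d)) (a : Ix d),
    |Kc2_kap q o a| ≤ C := by
  obtain ⟨C, hC, h⟩ := Kvec_norm_le d
  refine ⟨C, hC, fun q hq o a => ?_⟩
  refine (ca2_abs_coord_le _ o).trans ((h _ q).trans ?_)
  have h1 : ∑ a' : Ix d, |(if a = a' then (1 : ℝ) else 0)| = 1 := by
    have : ∀ a' : Ix d, |(if a = a' then (1 : ℝ) else 0)| = if a = a' then 1 else 0 := by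
      intro a'
      split_ifs <;> simp
    simp only [this]
    simp
  rw [h1, mul_one]
  calc C * ‖q‖ ≤ C * 1 := mul_le_mul_of_nonneg_left hq hC.le
    _ = C := mul_one C

theorem Kc2_comp_le (g : Ix d → ℝ) (q : VV d) (o : Option (Ix d × Ix d)) {C : ℝ}
    (hC : ∀ a, |Kc2_kap q o a| ≤ C) : |∑ a : Ix d, g a * Kc2_kap q o a| ≤ C * ∑ a : Ix d, |g a| := by
  rw [Finset.mul_sum]
  refine (Finset.abs_sum_le_sum_abs _ _).trans (Finset.sum_le_sum fun a _ => ?_)
  rw [abs_mul, mul_comm]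
  exact mul_le_mul_of_nonneg_right (hC a) (abs_nonneg _)

/-- the horizontal weight -/
noncomputable def Kc2_w (y : E d) : ℝ := chi1 y / (((8 : ℝ) ^ d)⁻¹ * pk ((8 : ℝ)⁻¹ • y))

theorem Kc2_Psi (G : Ix d → P d → ℝ) (q : VV d) (o : Option (Ix d × Ix d)) :
    (fun X : P d => Psi G q X o) = fun X => Kc2_w X.1 * ∑ a : Ix d, G a X * Kc2_kap q o a := by
  funext X
  unfold Psi Kc2_w
  rw [PiLp.smul_apply, smul_eq_mul, Kc2_sum]

/-- the open set where `Psi` is smooth -/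
def Kc2_O (ψ : E d → ℝ) : Set (P d) := {X | X.1 ∈ Metric.ball (0 : E d) 8} ∩ above ψ

theorem Kc2_isOpen_above {ψ : E d → ℝ} (hψ : Continuous ψ) : IsOpen (above ψ) :=
  isOpen_lt (hψ.comp continuous_fst) continuous_snd

theorem Kc2_isOpen {ψ : E d → ℝ} (hψ : Continuous ψ) : IsOpen (Kc2_O ψ) :=
  (Metric.isOpen_ball.preimage continuous_fst).inter (Kc2_isOpen_above hψ)

theorem Kc2_contDiffOn {ψ : E d → ℝ} {G : Ix d → P d → ℝ} (hG : IsField (above ψ) G)
    (q : VV d) (o : Option (Ix d × Ix d)) : ContDiffOn ℝ 1 (fun X => Psi G q X o) (Kc2_O ψ) := by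
  obtain ⟨C, -, -, -, -, -, -, hw, -⟩ := chi1_facts d
  rw [Kc2_Psi]
  refine ContDiffOn.mul ?_ ?_
  · exact hw.comp (t := Metric.ball (0 : E d) 8) contDiff_fst.contDiffOn (fun X hX => hX.1)
  · refine ContDiffOn.sum fun a _ => ?_
    exact ((hG.cd a).mono (fun X hX => hX.2)).mul contDiffOn_const

theorem Kc2_pd_bound (d : ℕ) : ∃ C : ℝ, 0 < C ∧ ∀ (ψ : E d → ℝ), Continuous ψ → ∀ (G : Ix d → P d → ℝ),
    IsField (above ψ) G → ∀ q : VV d, ‖q‖ ≤ 1 → ∀ (o : Option (Ix d × Ix d)) (b : Ix d), ∀ X ∈ Kc2_O ψ,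
    |pd b (fun Y => Psi G q Y o) X| ≤ C * (nF G X + ∑ a : Ix d, |pd b (G a) X|) := by
  obtain ⟨Cw, hCw0, -, -, -, -, -, hw, hwb⟩ := chi1_facts d
  obtain ⟨Ck, hCk0, hCk⟩ := Kc2_kap_le d
  refine ⟨Cw * Ck, by positivity, fun ψ hψ G hG q hq o b X hX => ?_⟩
  have hX1 : X.1 ∈ Metric.ball (0 : E d) 8 := hX.1
  have hX2 : X ∈ above ψ := hX.2
  -- differentiability
  have hdw : DifferentiableAt ℝ (Kc2_w (d := d)) X.1 :=
    ((hw.contDiffAt (Metric.isOpen_ball.mem_nhds hX1)).differentiableAt (by norm_num))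
  have hdG : ∀ a, DifferentiableAt ℝ (G a) X := fun a =>
    (((hG.cd a).contDiffAt ((Kc2_isOpen_above hψ).mem_nhds hX2)).differentiableAt (by norm_num))
  have hdwf : HasFDerivAt (fun Y : P d => Kc2_w Y.1) ((fderiv ℝ Kc2_w X.1).comp (ContinuousLinearMap.fst ℝ (E d) ℝ)) X :=
    hdw.hasFDerivAt.comp X hasFDerivAt_fst
  have hdS : HasFDerivAt (fun Y : P d => ∑ a : Ix d, G a Y * Kc2_kap q o a)
      (∑ a : Ix d, Kc2_kap q o a • fderiv ℝ (G a) X) X := by
    refine HasFDerivAt.fun_sum fun a _ => ?_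
    exact (hdG a).hasFDerivAt.mul_const _
  have hprod := hdwf.mul hdS
  have hpd : pd b (fun Y => Psi G q Y o) X
      = Kc2_w X.1 * (∑ a : Ix d, Kc2_kap q o a * pd b (G a) X)
        + (∑ a : Ix d, G a X * Kc2_kap q o a) * (fderiv ℝ Kc2_w X.1 (eb b).1) := by
    have hfd : fderiv ℝ (fun Y : P d => Kc2_w Y.1 * ∑ a : Ix d, G a Y * Kc2_kap q o a) X = _ := hprod.fderiv
    unfold pd
    rw [Kc2_Psi, hfd]
    simp only [add_apply, smul_apply, sum_apply, ContinuousLinearMap.comp_apply, smul_eq_mul,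
      ContinuousLinearMap.coe_fst']
  rw [hpd]
  have hb1 := hwb X.1 hX1
  have hw1 : |Kc2_w X.1| ≤ Cw := hb1.1
  have hw2 : |fderiv ℝ Kc2_w X.1 (eb b).1| ≤ Cw := by
    cases b with
    | none =>
      have : (eb (none : Ix d)).1 = 0 := rfl
      rw [this, map_zero, abs_zero]
      exact hCw0.le
    | some i => exact hb1.2 i
  have hs1 : |∑ a : Ix d, Kc2_kap q o a * pd b (G a) X| ≤ Ck * ∑ a : Ix d, |pd b (G a) X| := by
    have := Kc2_comp_le (fun a => pd b (G a) X) q o (fun a => hCk q hq o a)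
    simp only [mul_comm (pd b _ X)] at this
    exact this
  have hs2 : |∑ a : Ix d, G a X * Kc2_kap q o a| ≤ Ck * nF G X :=
    Kc2_comp_le (fun a => G a X) q o (fun a => hCk q hq o a)
  have hn0 : 0 ≤ ∑ a : Ix d, |pd b (G a) X| := Finset.sum_nonneg fun _ _ => abs_nonneg _
  have hn1 : 0 ≤ nF G X := Finset.sum_nonneg fun _ _ => abs_nonneg _
  calc |Kc2_w X.1 * (∑ a : Ix d, Kc2_kap q o a * pd b (G a) X)
        + (∑ a : Ix d, G a X * Kc2_kap q o a) * (fderiv ℝ Kc2_w X.1 (eb b).1)|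
      ≤ |Kc2_w X.1| * |∑ a : Ix d, Kc2_kap q o a * pd b (G a) X|
        + |∑ a : Ix d, G a X * Kc2_kap q o a| * |fderiv ℝ Kc2_w X.1 (eb b).1| := by
        refine (abs_add_le _ _).trans (le_of_eq ?_)
        rw [abs_mul, abs_mul]
    _ ≤ Cw * (Ck * ∑ a : Ix d, |pd b (G a) X|) + (Ck * nF G X) * Cw := by
        refine add_le_add (mul_le_mul hw1 hs1 (abs_nonneg _) hCw0.le)
          (mul_le_mul hs2 hw2 (abs_nonneg _) (by positivity))
    _ = Cw * Ck * (nF G X + ∑ a : Ix d, |pd b (G a) X|) := by ring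

theorem Kc2_chi1_zero {y : E d} (hy : 4 ≤ ‖y‖) : chi1 y = 0 := by
  obtain ⟨C, -, -, -, -, h, -⟩ := chi1_facts d
  exact h y hy

theorem Kc2_Psi_zero (G : Ix d → P d → ℝ) (q : VV d) {X : P d} (hX : 4 ≤ ‖X.1‖) : Psi G q X = 0 := by
  unfold Psi
  rw [Kc2_chi1_zero hX, zero_div, zero_smul]

/-- continuity of `y ↦ Psi G q (y, φ y)` -/
theorem Kc2_Psi_cont {φ ψ : E d → ℝ} (hφ : Continuous φ) (hψ : Continuous ψ) (hlt : ∀ y, ψ y < φ y)
    {G : Ix d → P d → ℝ} (hG : IsField (above ψ) G) (q : VV d) :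
    Continuous (fun y : E d => Psi G q (y, φ y)) := by
  have hcomp : ∀ o, Continuous (fun y : E d => Psi G q (y, φ y) o) := by
    intro o
    rw [continuous_iff_continuousAt]
    intro y
    by_cases hy : ‖y‖ < 8
    · have hg : Continuous (fun y : E d => ((y, φ y) : P d)) := continuous_id.prodMk hφ
      have hmem : ((y, φ y) : P d) ∈ Kc2_O ψ := by
        refine ⟨?_, hlt y⟩
        show y ∈ Metric.ball (0 : E d) 8
        rwa [mem_ball_zero_iff]
      have h1 := ((Kc2_contDiffOn hG q o).continuousOn).continuousAt ((Kc2_isOpen hψ).mem_nhds hmem)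
      exact ContinuousAt.comp (f := fun y : E d => ((y, φ y) : P d)) h1 hg.continuousAt
    · rw [not_lt] at hy
      have hev : (fun y : E d => Psi G q (y, φ y) o) =ᶠ[𝓝 y] fun _ => 0 := by
        have hopen : IsOpen {z : E d | 4 < ‖z‖} := isOpen_lt continuous_const continuous_norm
        filter_upwards [hopen.mem_nhds (show (4 : ℝ) < ‖y‖ by linarith)] with z hz
        have hz' : (4 : ℝ) ≤ ‖z‖ := le_of_lt hz
        rw [Kc2_Psi_zero G q (X := (z, φ z)) hz']
        rfl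
      exact (continuousAt_const (y := (0 : ℝ))).congr hev.symm
  exact (PiLp.continuous_toLp 2 _).comp (continuous_pi hcomp)

/-- `f y = ⟨Psi G q (y, φ y), h y⟩` is locally integrable -/
theorem Kc2_f_loc {φ : E d → ℝ} {A : E d → VV d} (hA : Continuous A) {h : E d → VV d}
    (hh : LocallyIntegrable h) : LocallyIntegrable (fun y => (inner ℝ (A y) (h y) : ℝ)) := by
  have _ := φ
  rw [locallyIntegrable_iff]
  intro K hK
  have h1 : IntegrableOn h K := (locallyIntegrable_iff.1 hh) K hK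
  obtain ⟨B, hB⟩ := hK.exists_bound_of_continuousOn hA.continuousOn
  have h2 : Integrable (fun y => B * ‖h y‖) (volume.restrict K) := h1.norm.const_mul B
  refine Integrable.mono' h2 ?_ ?_
  · exact (hA.aestronglyMeasurable).inner h1.aestronglyMeasurable
  · rw [ae_restrict_iff' hK.measurableSet]
    refine Filter.Eventually.of_forall fun y hy => ?_
    refine (norm_inner_le_norm _ _).trans ?_
    exact mul_le_mul_of_nonneg_right (hB y hy) (norm_nonneg _)

theorem Kc2_int_smul (hd : 1 ≤ d) {V : Type*} [NormedAddCommGroup V] [NormedSpace ℝ V] {h : E d → V}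
    (hh : LocallyIntegrable h) (x : E d) {r : ℝ} (hr : 0 < r) :
    Integrable (fun y : E d => pk y • h (x + r • y)) := by
  have hc : Continuous (fun z : E d => pk (r⁻¹ • (z - x))) := by
    have := s3_pk_continuous (d := d)
    fun_prop
  have hcs : HasCompactSupport (fun z : E d => pk (r⁻¹ • (z - x))) := by
    refine HasCompactSupport.of_support_subset_isCompact (isCompact_closedBall x (2 * r)) ?_
    intro y hy
    rw [Function.mem_support] at hy
    have h2 : ‖r⁻¹ • (y - x)‖ < 2 := by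
      by_contra hcon
      exact hy (pk_zero (not_lt.1 hcon) hd)
    rw [norm_smul, norm_inv, Real.norm_eq_abs, abs_of_pos hr, inv_mul_lt_iff₀ hr] at h2
    rw [Metric.mem_closedBall, dist_eq_norm]
    linarith
  have h1 : Integrable (fun z : E d => pk (r⁻¹ • (z - x)) • h z) :=
    hh.integrable_smul_left_of_hasCompactSupport hc hcs
  have h2 := s3_integrable_subst h1 x hr
  refine h2.congr (Filter.Eventually.of_forall fun y => ?_)
  simp only
  rw [add_sub_cancel_left, smul_smul, inv_mul_cancel₀ hr.ne', one_smul]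

/-- the difference of averages as an integral -/
theorem Kc2_diff (hd : 1 ≤ d) {A : E d → VV d} (hA : Continuous A) {h : E d → VV d}
    (hh : LocallyIntegrable h) (x : E d) {r : ℝ} (hr : 0 < r) :
    avg (fun y => (inner ℝ (A y) (h y) : ℝ)) x r - inner ℝ (A x) (avg h x r)
      = ∫ y : E d, pk y * inner ℝ (A (x + r • y) - A x) (h (x + r • y)) := by
  have h1 := Kc2_int_smul hd (Kc2_f_loc (φ := fun _ => 0) hA hh) x hr
  have h2 := Kc2_int_smul hd hh x hr
  unfold avg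
  rw [← integral_inner h2 (A x), ← integral_sub h1 (h2.const_inner (A x))]
  refine integral_congr_ae (Filter.Eventually.of_forall fun y => ?_)
  simp only
  rw [inner_sub_left, real_inner_smul_right, smul_eq_mul]
  ring

/-- the horizontal integral as an average at scale `8` -/
theorem Kc2_avg8 (φ : E d → ℝ) (G : Ix d → P d → ℝ) (q : VV d) (h : E d → VV d) :
    avg (fun y => (inner ℝ (Psi G q (y, φ y)) (h y) : ℝ)) 0 8
      = ∫ y : E d, chi1 y * inner ℝ (Kvec (fun a => G a (y, φ y)) q) (h y) := by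
  rw [s3_avg_eq _ _ (by norm_num : (0 : ℝ) < 8)]
  refine integral_congr_ae (Filter.Eventually.of_forall fun y => ?_)
  simp only [sub_zero, smul_eq_mul]
  unfold Psi
  rw [real_inner_smul_left]
  by_cases hy : ‖y‖ < 4
  · have hp : 0 < pk ((8 : ℝ)⁻¹ • y) := by
      refine lt_of_lt_of_le ?_ (pk_lower (y := (8 : ℝ)⁻¹ • y) ?_)
      · positivity
      · rw [norm_smul, norm_inv, Real.norm_eq_abs, abs_of_pos (by norm_num : (0 : ℝ) < 8)]
        linarith
    have h8 : ((8 : ℝ) ^ d)⁻¹ ≠ 0 := by positivity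
    simp only
    generalize pk ((8 : ℝ)⁻¹ • y) = p at hp
    generalize ((8 : ℝ) ^ d)⁻¹ = c at h8
    have hp' := hp.ne'
    field_simp
  · rw [Kc2_chi1_zero (not_lt.1 hy)]
    simp

theorem Kc2_ind_true {p : Prop} (h : p) : ind p = 1 := by
  unfold ind
  exact if_pos h

theorem Kc2_Ex_sub (n : ℕ) (f g : (ℕ → St d) → ℝ) : Ex n (fun ω => f ω - g ω) = Ex n f - Ex n g := by
  have h := Ex_add n (fun ω => f ω - g ω) g
  simp only [sub_add_cancel] at h
  linarith [h]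

/-- Passing from the graph integral to the resolved walk from `(0,8)`, `f(y) = ⟨Psi G q (y,φ y), h(y)⟩`:
`∫ chi1 ⟨K,h⟩ = avg f 0 8 = E[avg f XR ρR]` (`opt_vec`), and `avg f XR ρR = ⟨Psi(XR,φ XR), m_R⟩ + ∫ p ⟨Psi(z,φ z) - Psi(XR,φ XR), h(z)⟩`;
`pair_le` with `Λ = C s(XR)^{-1} AA(XR)` (`AA_bound`, `chi1_facts`) if `‖XR‖ ≤ 5`; if `‖XR‖ > 5` the difference vanishes (`chi1 = 0` nearby). -/
theorem graph_to_walk (hd : 1 ≤ d) (M : ℝ≥0) : ∃ C : ℝ, 0 < C ∧ ∃ J30 : ℕ,
    ∀ (φ : E d → ℝ) (U : Set (P d)) (F : Ix d → P d → ℝ), GFd M φ U F → ∀ (N J3 : ℕ) (s : E d → ℝ), ResFun N s → J30 ≤ J3 →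
    ∀ (G : Ix d → P d → ℝ), IsField (above (fun y => φ y - s y)) G → ∀ q : VV d, IsAnti q → ‖q‖ ≤ 1 → ∀ n : ℕ, N + J3 + 3 ≤ n →
    ENNReal.ofReal |(∫ y : E d, chi1 y * inner ℝ (Kvec (fun a => G a (y, φ y)) q) (hb φ F y))
        - Ex n (fun ω : ℕ → St d => inner ℝ (Psi G q (XR s (1 / 2 ^ J3) 0 8 ω, φ (XR s (1 / 2 ^ J3) 0 8 ω)))
            (avg (hb φ F) (XR s (1 / 2 ^ J3) 0 8 ω) (ρR s (1 / 2 ^ J3) 0 8 ω)))|
      ≤ ENNReal.ofReal C * Ex n (fun ω : ℕ → St d => ind (‖XR s (1 / 2 ^ J3) 0 8 ω‖ ≤ 5) *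
          (ENNReal.ofReal ((s (XR s (1 / 2 ^ J3) 0 8 ω))⁻¹) * AA φ G s (cAA M) (XR s (1 / 2 ^ J3) 0 8 ω) *
          (ENNReal.ofReal (ρR s (1 / 2 ^ J3) 0 8 ω) *
            wE φ F (c0 M) (XR s (1 / 2 ^ J3) 0 8 ω) (ρR s (1 / 2 ^ J3) 0 8 ω)))) := by
  obtain ⟨CP, hCP⟩ := pair_le (d := d) hd M
  obtain ⟨CA, hCA0, hCA⟩ := AA_bound d M
  obtain ⟨CD, hCD0, hCD⟩ := Kc2_pd_bound d
  obtain ⟨J30, hJ30⟩ := pow_unbounded_of_one_lt (32 * (1 + (M : ℝ)) ^ 2) (by norm_num : (1 : ℝ) < 2)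
  set K : ℝ := CD * (CA * ((d : ℝ) + 2)) with hK
  have hK0 : 0 < K := by positivity
  refine ⟨(CP + 1) * K, by positivity, J30, ?_⟩
  intro φ U F hF N J3 s hs hJ G hG q _ hq n hn
  have hφc : Continuous φ := hF.lip.continuous
  have hsc : Continuous s := hs.lip.continuous
  have hs0 : ∀ y, 0 < s y := fun y => lt_of_lt_of_le (by positivity) (hs.lower y)
  have hψc : Continuous (fun y => φ y - s y) := hφc.sub hsc
  have hAc : Continuous (fun y : E d => Psi G q (y, φ y)) :=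
    Kc2_Psi_cont hφc hψc (fun y => by linarith [hs0 y]) hG q
  have hhb := hb_locallyIntegrable hF
  set f : E d → ℝ := fun y => (inner ℝ (Psi G q (y, φ y)) (hb φ F y) : ℝ) with hf
  have hfl : LocallyIntegrable f := Kc2_f_loc (φ := φ) hAc hhb
  have hJ3 : 32 * (1 + (M : ℝ)) ^ 2 ≤ 2 ^ J3 :=
    hJ30.le.trans (pow_le_pow_right₀ (by norm_num) hJ)
  have hopt := opt_vec hs J3 3 (s3_refEq hd hfl) 0 (by norm_num : (0 : ℝ) < 8) (by norm_num) hn
  rw [← Kc2_avg8, ← hopt, ← Kc2_Ex_sub, ← Real.enorm_eq_ofReal_abs]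
  refine (Ex_enorm_le n _).trans ?_
  rw [← Ex_mul]
  refine Ex_mono n fun ω => ?_
  set x : E d := XR s (1 / 2 ^ J3) 0 8 ω with hx
  set ρ : ℝ := ρR s (1 / 2 ^ J3) 0 8 ω with hρ
  have hρ0 : 0 < ρ := by
    rw [hρ]
    unfold ρR
    positivity
  have hρs : ρ ≤ 1 / 2 ^ J3 * s x := Rl_spec hs J3 3 0 (by norm_num) ω
  have h2J : (0 : ℝ) < 2 ^ J3 := by positivity
  have hsx := hs.upper x
  have hM0 : (0 : ℝ) ≤ M := M.2
  have hbig : (32 : ℝ) ≤ 2 ^ J3 := by
    refine le_trans ?_ hJ3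
    nlinarith
  have hρ1 : ρ ≤ 1 / 32 * s x := by
    refine hρs.trans (mul_le_mul_of_nonneg_right ?_ (hs0 x).le)
    exact one_div_le_one_div_of_le (by norm_num) hbig
  have hdiff := Kc2_diff hd hAc hhb x hρ0
  rw [Real.enorm_eq_ofReal_abs, hdiff]
  by_cases hx5 : ‖x‖ ≤ 5
  · -- pair lemma
    rw [Kc2_ind_true hx5, one_mul]
    have hc : cAA M ≤ 1 / (4 * (1 + M)) := by
      unfold cAA
      apply one_div_le_one_div_of_le <;> nlinarith
    have hc0 : 0 < cAA M := by unfold cAA; positivity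
    have hAfin := AA_ne_top hF.lip hs.lip hs0 hG hc0.le hc x
    set a : ℝ := (AA φ G s (cAA M) x).toReal with ha
    have haE : AA φ G s (cAA M) x = ENNReal.ofReal a := (ENNReal.ofReal_toReal hAfin).symm
    have ha0 : 0 ≤ a := ENNReal.toReal_nonneg
    have hballsub := (ball_sub hF.lip hs.lip hs0 hc0.le hc x).1
    -- the box is contained in the small ball
    have hbox : Bx φ M x ρ ⊆ Metric.closedBall ((x, φ x) : P d) (cAA M * s x / 2) := by
      intro X hX
      obtain ⟨h1, h2⟩ := hX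
      have h3 : (2 * (M : ℝ) + 2) * ρ ≤ cAA M * s x / 2 := by
        have h4 : (2 * (M : ℝ) + 2) * ρ ≤ (2 * (M : ℝ) + 2) * (1 / 2 ^ J3 * s x) :=
          mul_le_mul_of_nonneg_left hρs (by positivity)
        refine h4.trans ?_
        have h5 : (2 * (M : ℝ) + 2) * (1 / 2 ^ J3) ≤ cAA M / 2 := by
          unfold cAA
          rw [mul_one_div, div_le_iff₀ h2J]
          have h6 : (1 : ℝ) / (8 * (1 + M)) / 2 * 2 ^ J3 ≥ 1 / (8 * (1 + M)) / 2 * (32 * (1 + (M : ℝ)) ^ 2) :=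
            mul_le_mul_of_nonneg_left hJ3 (by positivity)
          refine le_trans (le_of_eq ?_) h6
          field_simp
          ring
        calc (2 * (M : ℝ) + 2) * (1 / 2 ^ J3 * s x) = ((2 * (M : ℝ) + 2) * (1 / 2 ^ J3)) * s x := by ring
          _ ≤ (cAA M / 2) * s x := mul_le_mul_of_nonneg_right h5 (hs0 x).le
          _ = cAA M * s x / 2 := by ring
      rw [Metric.mem_closedBall, Prod.dist_eq, max_le_iff, dist_eq_norm, Real.dist_eq]
      refine ⟨h1.trans (le_trans ?_ h3), h2.trans h3⟩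
      have : 0 ≤ (M : ℝ) * ρ := by positivity
      nlinarith
    have hO : Bx φ M x ρ ⊆ Kc2_O (fun y => φ y - s y) := by
      intro X hX
      refine ⟨?_, hballsub (Metric.closedBall_subset_closedBall ?_ (hbox hX))⟩
      · show X.1 ∈ Metric.ball (0 : E d) 8
        rw [mem_ball_zero_iff]
        have h1 : ‖X.1‖ ≤ ‖X.1 - x‖ + ‖x‖ := by
          have := norm_add_le (X.1 - x) x
          rwa [sub_add_cancel] at this
        have h2 : ‖X.1 - x‖ ≤ 2 * ρ := hX.1
        linarith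
      · have := mul_pos hc0 (hs0 x)
        linarith
    have hs1 : 1 ≤ (s x)⁻¹ := by
      rw [one_le_inv₀ (hs0 x)]
      linarith
    have hpd : ∀ o, ∀ b : Ix d, ∀ X ∈ Bx φ M x ρ, |pd b (fun Y => Psi G q Y o) X| ≤ K * (s x)⁻¹ * a := by
      intro o b X hX
      have h1 := hCD _ hψc G hG q hq o b X (hO hX)
      have h2 := hCA φ hF.lip s hs.lip hs0 G hG x X (hbox hX)
      rw [haE] at h2
      have h3 : nF G X ≤ CA * a := by
        have := h2.1
        rw [← ENNReal.ofReal_mul hCA0.le] at this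
        exact (ENNReal.ofReal_le_ofReal_iff (by positivity)).1 this
      have h4 : ∀ a' : Ix d, |pd b (G a') X| ≤ CA * (s x)⁻¹ * a := by
        intro a'
        have := h2.2 a' b
        rw [← ENNReal.ofReal_mul (by positivity)] at this
        exact (ENNReal.ofReal_le_ofReal_iff (by positivity)).1 this
      have h5 : ∑ a' : Ix d, |pd b (G a') X| ≤ ((d : ℝ) + 1) * (CA * (s x)⁻¹ * a) := by
        refine (Finset.sum_le_sum fun a' _ => h4 a').trans (le_of_eq ?_)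
        rw [Finset.sum_const, nsmul_eq_mul]
        simp
      have h6 : CA * a ≤ CA * (s x)⁻¹ * a := by
        have : CA * a * 1 ≤ CA * a * (s x)⁻¹ := mul_le_mul_of_nonneg_left hs1 (by positivity)
        linarith
      refine h1.trans ?_
      calc CD * (nF G X + ∑ a' : Ix d, |pd b (G a') X|)
          ≤ CD * (CA * (s x)⁻¹ * a + ((d : ℝ) + 1) * (CA * (s x)⁻¹ * a)) :=
            mul_le_mul_of_nonneg_left (add_le_add (h3.trans h6) h5) hCD0.le
        _ = K * (s x)⁻¹ * a := by rw [hK]; ring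
    have hmain := hCP φ U F hF x ρ hρ0 (Psi G q) (Kc2_O (fun y => φ y - s y)) (Kc2_isOpen hψc) hO
      (fun o => Kc2_contDiffOn hG q o) (K * (s x)⁻¹ * a) (by positivity) hpd
    refine hmain.trans ?_
    rw [haE]
    have e1 : ENNReal.ofReal (K * (s x)⁻¹ * a * ρ) = ENNReal.ofReal K * ENNReal.ofReal ((s x)⁻¹) *
        ENNReal.ofReal a * ENNReal.ofReal ρ := by
      rw [ENNReal.ofReal_mul (by positivity), ENNReal.ofReal_mul (by positivity), ENNReal.ofReal_mul hK0.le]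
    have e0 : (CP : ℝ≥0∞) ≤ ENNReal.ofReal ((CP : ℝ) + 1) := by
      rw [← ENNReal.ofReal_coe_nnreal]
      exact ENNReal.ofReal_le_ofReal (by linarith)
    have e2 : (CP : ℝ≥0∞) * ENNReal.ofReal K ≤ ENNReal.ofReal (((CP : ℝ) + 1) * K) := by
      rw [ENNReal.ofReal_mul (p := (CP : ℝ) + 1) (by positivity)]
      gcongr
    rw [e1]
    calc (CP : ℝ≥0∞) * (ENNReal.ofReal K * ENNReal.ofReal ((s x)⁻¹) * ENNReal.ofReal a * ENNReal.ofReal ρ) *
          wE φ F (c0 M) x ρ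
        = ((CP : ℝ≥0∞) * ENNReal.ofReal K) * (ENNReal.ofReal ((s x)⁻¹) * ENNReal.ofReal a *
          (ENNReal.ofReal ρ * wE φ F (c0 M) x ρ)) := by ring
      _ ≤ ENNReal.ofReal (((CP : ℝ) + 1) * K) * (ENNReal.ofReal ((s x)⁻¹) * ENNReal.ofReal a *
          (ENNReal.ofReal ρ * wE φ F (c0 M) x ρ)) := mul_le_mul_left e2 _
  · -- the difference vanishes
    rw [not_le] at hx5
    have hz : ∀ y : E d, pk y * inner ℝ (Psi G q (x + ρ • y, φ (x + ρ • y)) - Psi G q (x, φ x))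
        (hb φ F (x + ρ • y)) = 0 := by
      intro y
      by_cases hy : 2 ≤ ‖y‖
      · rw [pk_zero hy hd, zero_mul]
      · rw [not_le] at hy
        have h1 : Psi G q (x, φ x) = 0 := Kc2_Psi_zero G q (X := (x, φ x)) (by show (4 : ℝ) ≤ ‖x‖; linarith)
        have h2 : Psi G q (x + ρ • y, φ (x + ρ • y)) = 0 := by
          refine Kc2_Psi_zero G q (X := (x + ρ • y, φ (x + ρ • y))) ?_
          show (4 : ℝ) ≤ ‖x + ρ • y‖
          have h3 : ‖x‖ ≤ ‖x + ρ • y‖ + ‖ρ • y‖ := by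
            have := norm_sub_le (x + ρ • y) (ρ • y)
            rwa [add_sub_cancel_right] at this
          have h4 : ‖ρ • y‖ ≤ ρ * 2 := by
            rw [norm_smul, Real.norm_eq_abs, abs_of_pos hρ0]
            exact mul_le_mul_of_nonneg_left hy.le hρ0.le
          linarith
        rw [h1, h2, sub_zero, inner_zero_left, mul_zero]
    simp only [hz, integral_zero, abs_zero, ENNReal.ofReal_zero]
    exact bot_le

end HG
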