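import Pool.Agent.W_MP_825298_an.Kc2

open MeasureTheory Set Filter Topology
open scoped ENNReal NNReal BigOperators

namespace HG
variable {d : ℕ}

/-- the pointwise inequality behind the certificate step -/
theorem Kc3_pointwise (d : ℕ) : ∃ C : ℝ, 0 < C ∧ ∀ (g : Ix d → ℝ) (q m : VV d), IsAnti q → ‖q‖ = 1 → ∀ lam : ℝ, 0 < lam →
    0 ≤ ‖m‖ - inner ℝ q m ∧
    ‖m‖ * g none ≤ inner ℝ (Kvec g q) m
      + C * (lam * ((∑ a : Ix d, |g a|) ^ 2 * ‖m‖) + lam⁻¹ * (‖m‖ - inner ℝ q m)) := by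
  obtain ⟨C, hC0, hC⟩ := Kvec_norm_le d
  refine ⟨C, hC0, fun g q m hq hq1 lam hlam => ?_⟩
  set S : ℝ := ∑ a : Ix d, |g a| with hS
  have hS0 : 0 ≤ S := Finset.sum_nonneg fun _ _ => abs_nonneg _
  set mis : ℝ := ‖m‖ - inner ℝ q m with hmis
  have hmis0 : 0 ≤ mis := by
    have := real_inner_le_norm q m
    rw [hq1, one_mul] at this
    rw [hmis]
    linarith
  refine ⟨hmis0, ?_⟩
  set v : VV d := m - ‖m‖ • q with hv
  have hvsq : ‖v‖ ^ 2 = 2 * ‖m‖ * mis := by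
    rw [hv, @norm_sub_sq_real, real_inner_smul_right, norm_smul, hq1, mul_one, norm_norm,
      real_inner_comm, hmis]
    ring
  have hinner : inner ℝ (Kvec g q) m = ‖m‖ * g none + inner ℝ (Kvec g q) v := by
    have h1 : m = ‖m‖ • q + v := by rw [hv]; abel
    conv_lhs => rw [h1]
    rw [inner_add_right, real_inner_smul_right, Kvec_inner g q hq, hq1]
    ring
  have h2 : |inner ℝ (Kvec g q) v| ≤ C * (S * ‖v‖) := by
    refine (abs_real_inner_le_norm _ _).trans ?_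
    have h3 := hC g q
    rw [hq1, mul_one] at h3
    calc ‖Kvec g q‖ * ‖v‖ ≤ (C * S) * ‖v‖ := mul_le_mul_of_nonneg_right h3 (norm_nonneg _)
      _ = C * (S * ‖v‖) := by ring
  have h4 : S * ‖v‖ ≤ lam * (S ^ 2 * ‖m‖) + lam⁻¹ * mis := by
    have hA : 0 ≤ lam * (S ^ 2 * ‖m‖) := by positivity
    have hB : 0 ≤ lam⁻¹ * mis := by positivity
    refine abs_le_of_sq_le_sq' ?_ (add_nonneg hA hB) |>.2
    have h5 : (S * ‖v‖) ^ 2 = 2 * ((lam * (S ^ 2 * ‖m‖)) * (lam⁻¹ * mis)) := by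
      rw [mul_pow, hvsq]
      field_simp
    rw [h5]
    nlinarith [mul_nonneg hA hB, sq_nonneg (lam * (S ^ 2 * ‖m‖) - lam⁻¹ * mis)]
  have h6 := mul_le_mul_of_nonneg_left h4 hC0.le
  rw [hinner]
  have h7 := (abs_le.1 h2).1
  linarith

/-- a unit antisymmetric vector -/
theorem Kc3_unit (d : ℕ) : ∃ q : VV d, IsAnti q ∧ ‖q‖ = 1 := by
  refine ⟨EuclideanSpace.single none (1 : ℝ), ?_, ?_⟩
  · intro a b
    simp
  · simp

theorem Kc3_anti_smul {q : VV d} (hq : IsAnti q) (c : ℝ) : IsAnti (c • q) := by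
  intro a b
  rw [PiLp.smul_apply, PiLp.smul_apply, hq a b, smul_eq_mul, smul_eq_mul]
  ring

/-- averages of the boundary data are antisymmetric -/
theorem Kc3_avg_anti (hd : 1 ≤ d) {M : ℝ≥0} {φ : E d → ℝ} {U : Set (P d)} {F : Ix d → P d → ℝ} (hF : GFd M φ U F)
    (x : E d) {r : ℝ} (hr : 0 < r) : IsAnti (avg (hb φ F) x r) := by
  have hint := Kc2_int_smul hd (hb_locallyIntegrable hF) x hr
  have hcomp : ∀ o : Option (Ix d × Ix d), avg (hb φ F) x r o = ∫ y : E d, pk y * (hb φ F (x + r • y) o) := by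
    intro o
    have h1 := (EuclideanSpace.proj o : VV d →L[ℝ] ℝ).integral_comp_comm hint
    unfold avg
    rw [show (∫ y : E d, pk y • hb φ F (x + r • y)) o
      = (EuclideanSpace.proj o : VV d →L[ℝ] ℝ) (∫ y : E d, pk y • hb φ F (x + r • y)) from rfl, ← h1]
    rfl
  intro a b
  rw [hcomp, hcomp, ← integral_neg]
  refine integral_congr_ae (Filter.Eventually.of_forall fun y => ?_)
  simp only
  have := bvec_anti (fun a => om φ a (x + r • y)) (fun a => F a (x + r • y, φ (x + r • y))) a b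
  unfold hb
  rw [this]
  ring

theorem Kc3_w_nonneg (y : E d) : 0 ≤ Kc2_w y := by
  obtain ⟨C, -, -, h, -⟩ := chi1_facts d
  exact div_nonneg (h y).1 (mul_nonneg (by positivity) (pk_nonneg _))

theorem Kc3_w_ge {y : E d} (hy : ‖y‖ ≤ 2) : 1 ≤ Kc2_w y := by
  obtain ⟨C, -, -, -, h, -⟩ := chi1_facts d
  unfold Kc2_w
  rw [h y hy]
  have hp : 0 < pk ((8 : ℝ)⁻¹ • y) := by
    refine lt_of_lt_of_le ?_ (pk_lower (y := (8 : ℝ)⁻¹ • y) ?_)
    · positivity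
    · rw [norm_smul, norm_inv, Real.norm_eq_abs, abs_of_pos (by norm_num : (0 : ℝ) < 8)]
      linarith
  have h8 : 0 < ((8 : ℝ) ^ d)⁻¹ := by positivity
  rw [le_div_iff₀ (mul_pos h8 hp), one_mul]
  refine mul_le_one₀ ?_ hp.le (pk_le_one _)
  exact inv_le_one_of_one_le₀ (one_le_pow₀ (by norm_num))

theorem Kc3_ind_real (p : Prop) [Decidable p] : ind p = ENNReal.ofReal (if p then 1 else 0) := by
  unfold ind
  by_cases h : p
  · simp [h]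
  · simp [h]

/-- The certificate step. `q = m(0,8)/‖m(0,8)‖` (any unit antisymmetric vector if `m(0,8) = 0`), `mis = ‖m_R‖ - ⟨q,m_R⟩ ≥ 0`, `E mis = E∑_{l<R}γ`
(`opt_norm`, `opt_vec`). `⟨K[g]q, m⟩ = ‖m‖⟨K q,q⟩ + ⟨Kq, m-‖m‖q⟩ ≥ ‖m‖ g_n - C|g| (2‖m‖ mis)^{1/2}` (`Kvec_inner`, `Kvec_norm_le`), AM-GM with `λ`,
`Psi = (chi1/p₈) K`, `chi1/p₈ ≥ 1` on `‖y‖ ≤ 2`, `≤ C` always (`= 0` for `‖y‖ ≥ 4`). Then `graph_to_walk`, `bulk_le`. -/
theorem cert_step (hd : 1 ≤ d) (M : ℝ≥0) : ∃ C : ℝ, 0 < C ∧ ∃ J30 : ℕ, ∀ c1 : ℝ, c1m M ≤ c1 →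
    ∀ (φ : E d → ℝ) (U : Set (P d)) (F : Ix d → P d → ℝ), GFd M φ U F → ∀ (N J3 : ℕ) (s : E d → ℝ), ResFun N s → J30 ≤ J3 →
    ∀ δ : ℝ, 0 < δ → δ ≤ 1 → (∀ y, 2 ≤ ‖y‖ → δ / 4 ≤ s y) →
    ∀ (G : Ix d → P d → ℝ), IsField (above (fun y => φ y - s y)) G → (∀ X ∈ above (fun y => φ y - s y), 0 ≤ G none X) →
    ∀ gs : ℝ, 0 ≤ gs → (∀ X ∈ above φ, δ / 4 ≤ X.2 - φ X.1 + s X.1 → nF G X ≤ gs) →
    ∀ lam : ℝ, 0 < lam → ∀ n : ℕ, N + J3 + 3 ≤ n →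
    Ex n (fun ω : ℕ → St d => ind (‖XR s (1 / 2 ^ J3) 0 8 ω‖ ≤ 2) *
        (‖avg (hb φ F) (XR s (1 / 2 ^ J3) 0 8 ω) (ρR s (1 / 2 ^ J3) 0 8 ω)‖ₑ *
          ENNReal.ofReal (G none (XR s (1 / 2 ^ J3) 0 8 ω, φ (XR s (1 / 2 ^ J3) 0 8 ω)))))
      ≤ ENNReal.ofReal C * (ENNReal.ofReal gs * WdE φ F c1 0 1
        + Ex n (fun ω : ℕ → St d => ind (‖XR s (1 / 2 ^ J3) 0 8 ω‖ ≤ 5) *
          (ENNReal.ofReal ((s (XR s (1 / 2 ^ J3) 0 8 ω))⁻¹) * AA φ G s (cAA M) (XR s (1 / 2 ^ J3) 0 8 ω) *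
          (ENNReal.ofReal (ρR s (1 / 2 ^ J3) 0 8 ω) *
            wE φ F (c0 M) (XR s (1 / 2 ^ J3) 0 8 ω) (ρR s (1 / 2 ^ J3) 0 8 ω))))
        + ENNReal.ofReal lam * Ex n (fun ω : ℕ → St d => ind (‖XR s (1 / 2 ^ J3) 0 8 ω‖ ≤ 5) *
            (ENNReal.ofReal ((nF G (XR s (1 / 2 ^ J3) 0 8 ω, φ (XR s (1 / 2 ^ J3) 0 8 ω))) ^ 2) *
              ‖avg (hb φ F) (XR s (1 / 2 ^ J3) 0 8 ω) (ρR s (1 / 2 ^ J3) 0 8 ω)‖ₑ))
        + ENNReal.ofReal (lam⁻¹) * Ex n (fun ω : ℕ → St d =>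
            ∑ l ∈ Finset.range (Rl s (1 / 2 ^ J3) 0 8 ω), wv (gamE (avg (hb φ F))) 0 8 ω l)) := by
  classical
  obtain ⟨CB, hCB0, hCB⟩ := bulk_le (d := d) hd M
  obtain ⟨CG, hCG0, J30, hCG⟩ := graph_to_walk (d := d) hd M
  obtain ⟨CK, hCK0, hCK⟩ := Kc3_pointwise d
  obtain ⟨Cw, hCw0, -, -, -, -, -, -, hwb⟩ := chi1_facts d
  refine ⟨CB + CG + Cw * CK, by positivity, J30, ?_⟩
  intro c1 hc1 φ U F hF N J3 s hs hJ δ hδ hδ1 hsδ G hG hGn gs hgs hGb lam hlam n hn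
  have hs0 : ∀ y, 0 < s y := fun y => lt_of_lt_of_le (by positivity) (hs.lower y)
  set h : E d → VV d := hb φ F with hh
  have hhl : LocallyIntegrable h := hb_locallyIntegrable hF
  have hRE : RefEq (avg h) := s3_refEq hd hhl
  -- the direction
  obtain ⟨q, hqa, hq1, hqm⟩ : ∃ q : VV d, IsAnti q ∧ ‖q‖ = 1 ∧ inner ℝ q (avg h 0 8) = ‖avg h 0 8‖ := by
    by_cases hm : avg h 0 8 = 0
    · obtain ⟨q, h1, h2⟩ := Kc3_unit d
      exact ⟨q, h1, h2, by rw [hm, inner_zero_right, norm_zero]⟩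
    · have hn0 : ‖avg h 0 8‖ ≠ 0 := norm_ne_zero_iff.2 hm
      refine ⟨‖avg h 0 8‖⁻¹ • avg h 0 8, Kc3_anti_smul (Kc3_avg_anti hd hF 0 (by norm_num)) _, ?_, ?_⟩
      · rw [norm_smul, norm_inv, norm_norm, inv_mul_cancel₀ hn0]
      · rw [real_inner_smul_left, real_inner_self_eq_norm_sq]
        field_simp
  -- abbreviations
  set X : (ℕ → St d) → E d := fun ω => XR s (1 / 2 ^ J3) 0 8 ω with hX
  set mR : (ℕ → St d) → VV d := fun ω => avg h (XR s (1 / 2 ^ J3) 0 8 ω) (ρR s (1 / 2 ^ J3) 0 8 ω) with hmR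
  set gn : (ℕ → St d) → ℝ := fun ω => G none (X ω, φ (X ω)) with hgn
  set gF : (ℕ → St d) → ℝ := fun ω => nF G (X ω, φ (X ω)) with hgF
  set T : (ℕ → St d) → ℝ := fun ω => inner ℝ (Psi G q (X ω, φ (X ω))) (mR ω) with hT
  set I0 : ℝ := ∫ y : E d, chi1 y * inner ℝ (Kvec (fun a => G a (y, φ y)) q) (hb φ F y) with hI0
  have hgn0 : ∀ ω, 0 ≤ gn ω := fun ω => hGn _ (by
    show φ (X ω) - s (X ω) < φ (X ω)
    linarith [hs0 (X ω)])
  -- pointwise inequality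
  have hpt : ∀ ω, (if ‖X ω‖ ≤ 2 then ‖mR ω‖ * gn ω else 0) ≤ T ω +
      (Cw * CK) * (lam * (if ‖X ω‖ ≤ 5 then gF ω ^ 2 * ‖mR ω‖ else 0) + lam⁻¹ * (‖mR ω‖ - inner ℝ q (mR ω))) := by
    intro ω
    obtain ⟨hmis, hin⟩ := hCK (fun a => G a (X ω, φ (X ω))) q (mR ω) hqa hq1 lam hlam
    have hw0 := Kc3_w_nonneg (X ω)
    have hTeq : T ω = Kc2_w (X ω) * inner ℝ (Kvec (fun a => G a (X ω, φ (X ω))) q) (mR ω) := by
      rw [hT]
      simp only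
      unfold Psi Kc2_w
      rw [real_inner_smul_left]
    have hL : (if ‖X ω‖ ≤ 2 then ‖mR ω‖ * gn ω else 0) ≤ Kc2_w (X ω) * (‖mR ω‖ * gn ω) := by
      have h0 : 0 ≤ ‖mR ω‖ * gn ω := mul_nonneg (norm_nonneg _) (hgn0 ω)
      split_ifs with h2
      · have := mul_le_mul_of_nonneg_right (Kc3_w_ge h2) h0
        linarith
      · exact mul_nonneg hw0 h0
    have hin2 := mul_le_mul_of_nonneg_left hin hw0
    have hA0 : 0 ≤ lam * (gF ω ^ 2 * ‖mR ω‖) := by positivity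
    have hB0 : 0 ≤ lam⁻¹ * (‖mR ω‖ - inner ℝ q (mR ω)) := mul_nonneg (by positivity) hmis
    have hrem : Kc2_w (X ω) * (CK * (lam * (gF ω ^ 2 * ‖mR ω‖) + lam⁻¹ * (‖mR ω‖ - inner ℝ q (mR ω))))
        ≤ (Cw * CK) * (lam * (if ‖X ω‖ ≤ 5 then gF ω ^ 2 * ‖mR ω‖ else 0) + lam⁻¹ * (‖mR ω‖ - inner ℝ q (mR ω))) := by
      by_cases h5 : ‖X ω‖ ≤ 5
      · rw [if_pos h5]
        have hwc : Kc2_w (X ω) ≤ Cw := (le_abs_self _).trans
          (hwb (X ω) (by rw [mem_ball_zero_iff]; linarith)).1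
        calc _ ≤ Cw * (CK * (lam * (gF ω ^ 2 * ‖mR ω‖) + lam⁻¹ * (‖mR ω‖ - inner ℝ q (mR ω)))) :=
              mul_le_mul_of_nonneg_right hwc (mul_nonneg hCK0.le (add_nonneg hA0 hB0))
          _ = _ := by ring
      · rw [if_neg h5, mul_zero, zero_add]
        have hwz : Kc2_w (X ω) = 0 := by
          unfold Kc2_w
          rw [Kc2_chi1_zero (by linarith [not_le.1 h5]), zero_div]
        rw [hwz, zero_mul]
        positivity
    have hin3 : Kc2_w (X ω) * (‖mR ω‖ * gn ω) ≤ T ω +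
        Kc2_w (X ω) * (CK * (lam * (gF ω ^ 2 * ‖mR ω‖) + lam⁻¹ * (‖mR ω‖ - inner ℝ q (mR ω)))) := by
      rw [hTeq]
      have e : Kc2_w (X ω) * inner ℝ (Kvec (fun a => G a (X ω, φ (X ω))) q) (mR ω) +
          Kc2_w (X ω) * (CK * (lam * (gF ω ^ 2 * ‖mR ω‖) + lam⁻¹ * (‖mR ω‖ - inner ℝ q (mR ω))))
          = Kc2_w (X ω) * (inner ℝ (Kvec (fun a => G a (X ω, φ (X ω))) q) (mR ω) +
            CK * (lam * (gF ω ^ 2 * ‖mR ω‖) + lam⁻¹ * (‖mR ω‖ - inner ℝ q (mR ω)))) := by ring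
      rw [e]
      exact hin2
    linarith
  -- expectation
  set Q : ℝ := Ex n (fun ω => if ‖X ω‖ ≤ 5 then gF ω ^ 2 * ‖mR ω‖ else 0) with hQ
  set Mi : ℝ := Ex n (fun ω => ‖mR ω‖ - inner ℝ q (mR ω)) with hMi
  have hE := Ex_monoR n hpt
  rw [Ex_add, Ex_mulR, Ex_add, Ex_mulR, Ex_mulR, ← hQ, ← hMi] at hE
  -- misalignment
  have hopt := opt_vec hs J3 3 hRE 0 (by norm_num : (0 : ℝ) < 8) (by norm_num) hn
  have hoptn := opt_norm hs J3 3 hRE 0 (by norm_num : (0 : ℝ) < 8) (by norm_num) hn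
  have hMi2 : Mi = Ex n (fun ω => ‖mR ω‖) - ‖avg h 0 8‖ := by
    rw [hMi, Kc2_Ex_sub, ← Ex_inner, hopt, hqm]
  have hMiE : ENNReal.ofReal Mi = Ex n (fun ω : ℕ → St d =>
      ∑ l ∈ Finset.range (Rl s (1 / 2 ^ J3) 0 8 ω), wv (gamE (avg h)) 0 8 ω l) := by
    rw [hMi2, ENNReal.ofReal_sub _ (norm_nonneg _), Ex_ofReal n (fun ω => norm_nonneg _)]
    simp only [ofReal_norm]
    rw [hoptn, ENNReal.add_sub_cancel_left enorm_ne_top]
  have hMi0 : 0 ≤ Mi := Ex_nonneg n fun ω => (hCK (fun _ => 0) q (mR ω) hqa hq1 lam hlam).1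
  have hQ0 : 0 ≤ Q := Ex_nonneg n fun ω => by
    split_ifs
    · positivity
    · exact le_rfl
  have hQE : ENNReal.ofReal Q = Ex n (fun ω : ℕ → St d => ind (‖X ω‖ ≤ 5) *
      (ENNReal.ofReal (gF ω ^ 2) * ‖mR ω‖ₑ)) := by
    rw [hQ, Ex_ofReal n]
    · congr 1
      funext ω
      by_cases h5 : ‖X ω‖ ≤ 5
      · rw [if_pos h5, Kc2_ind_true h5, one_mul, ENNReal.ofReal_mul (by positivity), ofReal_norm]
      · rw [if_neg h5, Kc3_ind_real, if_neg h5]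
        simp
    · intro ω
      split_ifs
      · positivity
      · exact le_rfl
  have hLE : ENNReal.ofReal (Ex n (fun ω => if ‖X ω‖ ≤ 2 then ‖mR ω‖ * gn ω else 0))
      = Ex n (fun ω : ℕ → St d => ind (‖X ω‖ ≤ 2) * (‖mR ω‖ₑ * ENNReal.ofReal (gn ω))) := by
    rw [Ex_ofReal n]
    · congr 1
      funext ω
      by_cases h2 : ‖X ω‖ ≤ 2
      · rw [if_pos h2, Kc2_ind_true h2, one_mul, ENNReal.ofReal_mul (norm_nonneg _), ofReal_norm]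
      · rw [if_neg h2, Kc3_ind_real, if_neg h2]
        simp
    · intro ω
      split_ifs
      · exact mul_nonneg (norm_nonneg _) (hgn0 ω)
      · exact le_rfl
  -- the two error terms
  have hbulk := hCB c1 hc1 φ U F hF s hs.lip hs0 δ hδ hδ1 hsδ G hG gs hgs hGb q hqa
  have hwalk := hCG φ U F hF N J3 s hs hJ G hG q hqa hq1.le n hn
  rw [hq1, mul_one, ENNReal.ofReal_mul hCB0.le] at hbulk
  set PT : ℝ≥0∞ := Ex n (fun ω : ℕ → St d => ind (‖XR s (1 / 2 ^ J3) 0 8 ω‖ ≤ 5) *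
          (ENNReal.ofReal ((s (XR s (1 / 2 ^ J3) 0 8 ω))⁻¹) * AA φ G s (cAA M) (XR s (1 / 2 ^ J3) 0 8 ω) *
          (ENNReal.ofReal (ρR s (1 / 2 ^ J3) 0 8 ω) *
            wE φ F (c0 M) (XR s (1 / 2 ^ J3) 0 8 ω) (ρR s (1 / 2 ^ J3) 0 8 ω)))) with hPT
  have hfin : Ex n (fun ω => if ‖X ω‖ ≤ 2 then ‖mR ω‖ * gn ω else 0)
      ≤ |I0| + |I0 - Ex n T| + (Cw * CK) * (lam * Q + lam⁻¹ * Mi) := by
    have h1 : Ex n T ≤ |I0| + |I0 - Ex n T| := by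
      have h2 := le_abs_self I0
      have h3 := neg_abs_le (I0 - Ex n T)
      linarith
    exact hE.trans (add_le_add h1 le_rfl)
  have hfinE := ENNReal.ofReal_le_ofReal hfin
  rw [hLE, ENNReal.ofReal_add (by positivity) (by positivity), ENNReal.ofReal_add (abs_nonneg _) (abs_nonneg _),
    ENNReal.ofReal_mul (p := Cw * CK) (by positivity), ENNReal.ofReal_add (by positivity) (by positivity),
    ENNReal.ofReal_mul (p := lam) hlam.le, ENNReal.ofReal_mul (p := lam⁻¹) (by positivity), hMiE, hQE] at hfinE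
  refine hfinE.trans ?_
  have c1' : ENNReal.ofReal CB ≤ ENNReal.ofReal (CB + CG + Cw * CK) :=
    ENNReal.ofReal_le_ofReal (by have : 0 ≤ Cw * CK := by positivity
                                 linarith)
  have c2' : ENNReal.ofReal CG ≤ ENNReal.ofReal (CB + CG + Cw * CK) :=
    ENNReal.ofReal_le_ofReal (by have : 0 ≤ Cw * CK := by positivity
                                 linarith)
  have c3' : ENNReal.ofReal (Cw * CK) ≤ ENNReal.ofReal (CB + CG + Cw * CK) :=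
    ENNReal.ofReal_le_ofReal (by linarith)
  have t1 : ENNReal.ofReal |I0| ≤ ENNReal.ofReal (CB + CG + Cw * CK) * (ENNReal.ofReal gs * WdE φ F c1 0 1) := by
    refine hbulk.trans ?_
    rw [mul_assoc]
    exact mul_le_mul_left c1' _
  have t2 : ENNReal.ofReal |I0 - Ex n T| ≤ ENNReal.ofReal (CB + CG + Cw * CK) * PT :=
    hwalk.trans (mul_le_mul_left c2' _)
  calc _ ≤ ENNReal.ofReal (CB + CG + Cw * CK) * (ENNReal.ofReal gs * WdE φ F c1 0 1) +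
          ENNReal.ofReal (CB + CG + Cw * CK) * PT +
          ENNReal.ofReal (CB + CG + Cw * CK) * (ENNReal.ofReal lam * Ex n (fun ω : ℕ → St d => ind (‖X ω‖ ≤ 5) *
            (ENNReal.ofReal (gF ω ^ 2) * ‖mR ω‖ₑ)) + ENNReal.ofReal (lam⁻¹) * Ex n (fun ω : ℕ → St d =>
            ∑ l ∈ Finset.range (Rl s (1 / 2 ^ J3) 0 8 ω), wv (gamE (avg h)) 0 8 ω l)) :=
        add_le_add (add_le_add t1 t2) (mul_le_mul_left c3' _)
    _ = _ := by ring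

end HG
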