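import Pool.Agent.W_MP_825298_an.Ks1
import Pool.Agent.W_MP_825298_an.Kb1
import Pool.Agent.W_MP_825298_an.Kb2
import Pool.Agent.W_MP_825298_an.Ex2

open MeasureTheory Set Filter Topology
open scoped ENNReal NNReal BigOperators

namespace HG
variable {d : ℕ}

theorem ks2_lat_finite (j : ℕ) : (Lat (d := d) j ∩ {y | ‖y‖ ≤ 8}).Finite := by
  have h1 : (Set.Icc (fun _ : Fin d => -(8 * 2 ^ j : ℤ)) (fun _ => (8 * 2 ^ j : ℤ))).Finite :=
    Set.finite_Icc _ _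
  refine (h1.image (fun k i => ((k i : ℤ) : ℝ) / 2 ^ j)).subset ?_
  rintro y ⟨hy, hn⟩
  choose k hk using hy
  have hpos : (0 : ℝ) < 2 ^ j := by positivity
  have hb : ∀ i, |(k i : ℝ)| ≤ 8 * 2 ^ j := by
    intro i
    have h2 : |y i| ≤ 8 := by
      have := norm_le_pi_norm y i
      rw [Real.norm_eq_abs] at this
      exact this.trans hn
    rw [hk, abs_div, abs_of_pos hpos, div_le_iff₀ hpos] at h2
    exact h2
  refine ⟨k, ⟨fun i => ?_, fun i => ?_⟩, ?_⟩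
  · have h3 := (abs_le.1 (hb i)).1
    have h4 : ((-(8 * 2 ^ j) : ℤ) : ℝ) ≤ (k i : ℝ) := by push_cast; exact h3
    exact_mod_cast h4
  · have h3 := (abs_le.1 (hb i)).2
    have h4 : (k i : ℝ) ≤ ((8 * 2 ^ j : ℤ) : ℝ) := by push_cast; exact h3
    exact_mod_cast h4
  · funext i
    exact (hk i).symm

/-- finitely many lattice points -/
theorem stopSet_exists (M : ℝ≥0) (φ : E d → ℝ) (F : Ix d → P d → ℝ) (A A' : ℝ) (N : ℕ) :
    ∃ S : Finset (ℕ × E d), StopSet M φ F A A' N S := by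
  have hfin : {p : ℕ × E d | p.1 ≤ N ∧ p.2 ∈ Lat p.1 ∧ ‖p.2‖ ≤ 8 ∧ IsStop M φ F A A' p.1 p.2}.Finite := by
    have h1 : (⋃ j ∈ Finset.range (N + 1),
        (Prod.mk j) '' (Lat (d := d) j ∩ {y | ‖y‖ ≤ 8})).Finite :=
      Set.Finite.biUnion (Finset.finite_toSet _) (fun j _ => (ks2_lat_finite j).image _)
    refine h1.subset ?_
    rintro ⟨j, y⟩ ⟨hj, hy, hn, -⟩
    simp only [Set.mem_iUnion, Finset.mem_range]
    exact ⟨j, Nat.lt_succ_of_le hj, y, ⟨hy, hn⟩, rfl⟩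
  refine ⟨hfin.toFinset, fun j y => ?_⟩
  rw [Set.Finite.mem_toFinset]
  rfl

/-- walk positions are lattice points -/
theorem Zp_mem_Lat (l : ℕ) (ω : ℕ → St d) : Zp l ω ∈ Lat l := by
  induction l with
  | zero =>
    intro i
    exact ⟨0, by simp [Zp]⟩
  | succ l ih =>
    intro i
    obtain ⟨k, hk⟩ := ih i
    refine ⟨2 * k + ((ω l i : ℕ) : ℤ) - 2, ?_⟩
    have h1 : Zp (l + 1) ω = Zp l ω + ((2 : ℝ) ^ (l + 1))⁻¹ • kv (ω l) := by
      unfold Zp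
      rw [Finset.sum_range_succ]
    rw [h1, Pi.add_apply, Pi.smul_apply, smul_eq_mul, hk]
    unfold kv
    push_cast
    rw [pow_succ]
    field_simp
    ring

theorem Zp8_mem_Lat (l : ℕ) (ω : ℕ → St d) : (8 : ℝ) • Zp (l + 3) ω ∈ Lat (d := d) l := by
  intro i
  obtain ⟨k, hk⟩ := Zp_mem_Lat (l + 3) ω i
  refine ⟨k, ?_⟩
  rw [Pi.smul_apply, smul_eq_mul, hk, pow_add]
  field_simp
  norm_num
  ring

theorem ks2_c0_pos (M : ℝ≥0) : 6 ≤ c0 M := by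
  have : (0 : ℝ) ≤ M := M.2
  unfold c0
  linarith

/-- `‖m‖ ≤ C W` -/
theorem ks2_avg_le_WdE (hd : 1 ≤ d) (M : ℝ≥0) : ∃ C : ℝ, 0 < C ∧ ∀ (φ : E d → ℝ) (U : Set (P d)) (F : Ix d → P d → ℝ),
    GFd M φ U F → ∀ (x : E d) (r : ℝ), 0 < r → ∀ B : ℝ, 0 ≤ B → WdE φ F (c0 M) x r ≤ ENNReal.ofReal B →
    ‖avg (hb φ F) x r‖ ≤ C * B := by
  obtain ⟨C0, hC0⟩ := avg_le_wE hd M
  refine ⟨C0 * Real.sqrt (c0 M) + 1, by positivity, ?_⟩
  intro φ U F h x r hr B hB hW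
  have hc : 0 < c0 M := by linarith [ks2_c0_pos M]
  have h1 : ‖avg (hb φ F) x r‖ₑ ≤ ENNReal.ofReal (C0 * Real.sqrt (c0 M) * B) := by
    refine (hC0 φ U F h x r hr).trans ?_
    refine (mul_le_mul_right (wE_le_WdE φ F hc hr x) _).trans ?_
    rw [ENNReal.ofReal_mul (by positivity), ENNReal.ofReal_mul (by positivity),
      ENNReal.ofReal_coe_nnreal, mul_assoc]
    exact mul_le_mul_right (mul_le_mul_right hW _) _
  rw [← ofReal_norm] at h1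
  have h2 := (ENNReal.ofReal_le_ofReal_iff (by positivity)).1 h1
  have : C0 * Real.sqrt (c0 M) * B ≤ (C0 * Real.sqrt (c0 M) + 1) * B := by nlinarith
  exact h2.trans this

/-- no stops at coarse levels: `‖m(y,2^{-j})‖ ≤ C wE ≤ C' WdE(c0,y,2^{-j}) ≤ C' 2^{j(d+1/2)} WdE(c1,0,1)` (`avg_le_wE`, `wE_le_WdE`, `WdE_mono`). -/
theorem stop_coarse (hd : 1 ≤ d) (M : ℝ≥0) : ∃ C : ℝ, 0 < C ∧ ∀ c1 : ℝ, c1m M ≤ c1 →
    ∀ (φ : E d → ℝ) (U : Set (P d)) (F : Ix d → P d → ℝ), GFd M φ U F →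
    ∀ w : ℝ, 0 < w → WdE φ F c1 0 1 ≤ ENNReal.ofReal w → ∀ (A A' : ℝ) (jm : ℕ), C * w * 2 ^ ((d + 1) * jm) ≤ A → A ≤ A' →
    ∀ (N : ℕ) (S : Finset (ℕ × E d)), StopSet M φ F A A' N S → ∀ p ∈ S, jm < p.1 := by
  obtain ⟨C, hC, hCC⟩ := ks2_avg_le_WdE hd M
  refine ⟨C + 1, by positivity, ?_⟩
  intro c1 hc1 φ U F h w hw hW A A' jm hA hAA N S hS p hp
  obtain ⟨j, y⟩ := p
  obtain ⟨-, -, hy8, hst⟩ := (hS j y).1 hp
  by_contra hc
  have hj : j ≤ jm := not_lt.1 hc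
  have hM : (0 : ℝ) ≤ M := M.2
  have hρ : (0 : ℝ) < 1 / 2 ^ j := by positivity
  have hρ1 : (1 : ℝ) / 2 ^ j ≤ 1 := by
    rw [div_le_one (by positivity)]
    exact one_le_pow₀ (by norm_num)
  have h1 : WdE φ F (c0 M) y (1 / 2 ^ j) ≤ ENNReal.ofReal (2 ^ ((d + 1) * jm) * w) := by
    refine (WdE_mono φ F (x := 0) (c := c1) (ρ := 1) hρ hρ1 ?_).trans ?_
    · rw [sub_zero]
      have : c0 M * (1 / 2 ^ j) ≤ c0 M * 1 :=
        mul_le_mul_of_nonneg_left hρ1 (by linarith [ks2_c0_pos M])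
      unfold c0 c1m at *
      linarith
    · rw [ENNReal.ofReal_mul (by positivity)]
      refine mul_le_mul' (ENNReal.ofReal_le_ofReal ?_) hW
      rw [one_div_one_div]
      have h2 : (1 : ℝ) ≤ 2 ^ j := one_le_pow₀ (by norm_num)
      have h3 : ((2 : ℝ) ^ j) ^ ((d : ℝ) + 1 / 2) ≤ ((2 : ℝ) ^ j) ^ (((d + 1 : ℕ)) : ℝ) := by
        refine Real.rpow_le_rpow_of_exponent_le h2 ?_
        push_cast
        linarith
      rw [Real.rpow_natCast, ← pow_mul] at h3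
      refine h3.trans ?_
      refine pow_le_pow_right₀ (by norm_num) ?_
      rw [mul_comm]
      exact Nat.mul_le_mul_left _ hj
  have hpos : (0 : ℝ) < 2 ^ ((d + 1) * jm) * w := by positivity
  rcases hst with hst | hst
  · have h2 := hCC φ U F h y (1 / 2 ^ j) hρ _ hpos.le h1
    nlinarith
  · have h2 := hst.trans_le h1
    have h3 : A' < 2 ^ ((d + 1) * jm) * w := (ENNReal.ofReal_lt_ofReal_iff hpos).1 h2
    nlinarith

/-- Nearest lattice non-stop: for `‖z‖ ≤ 7` choose `j` with `(3/4) s z < 2^{-j} ≤ (3/2) s z` (`j ≤ N` because `s z ≥ 2^{-N}`) and the nearest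
lattice point `y'`; a stop there would give `s y' ≥ 2·2^{-j}`, but `s y' ≤ s z + 2^{-j}/8`. -/
theorem nonstop {M : ℝ≥0} {φ : E d → ℝ} {F : Ix d → P d → ℝ} {A A' : ℝ} {N : ℕ} {S : Finset (ℕ × E d)}
    (hS : StopSet M φ F A A' N S) {δ : ℝ} (h3 : ∀ p ∈ S, 3 ≤ p.1) (hN : 2 ≤ N) {z : E d} (hz : ‖z‖ ≤ 7) :
    ∃ (j : ℕ) (y' : E d), (3 / 4) * sst S δ N z < 1 / 2 ^ j ∧ 1 / 2 ^ j ≤ (3 / 2) * sst S δ N z ∧ ‖y' - z‖ ≤ (1 / 2 ^ j) / 2 ∧
      ‖avg (hb φ F) y' (1 / 2 ^ j)‖ ≤ A ∧ WdE φ F (c0 M) y' (1 / 2 ^ j) ≤ ENNReal.ofReal A' := by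
  have hlow := sst_lower S δ N z
  have hup := sst_upper (δ := δ) h3 hN z
  have hNpos : (0 : ℝ) < 1 / 2 ^ N := by positivity
  have hex : ∃ j : ℕ, (1 : ℝ) / 2 ^ j ≤ (3 / 2) * sst S δ N z := ⟨N, by linarith⟩
  classical
  set j := Nat.find hex with hj
  have hj1 : (1 : ℝ) / 2 ^ j ≤ (3 / 2) * sst S δ N z := Nat.find_spec hex
  have hjN : j ≤ N := Nat.find_min' hex (by linarith)
  have hj0 : j ≠ 0 := by
    intro h0
    rw [h0] at hj1
    norm_num at hj1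
    linarith
  obtain ⟨i, hi⟩ := Nat.exists_eq_succ_of_ne_zero hj0
  have hj2 : (3 / 4) * sst S δ N z < 1 / 2 ^ j := by
    have h4 := Nat.find_min hex (m := i) (by rw [← hj, hi]; exact Nat.lt_succ_self i)
    rw [not_le] at h4
    have h5 : (1 : ℝ) / 2 ^ j = (1 / 2 ^ i) / 2 := by
      rw [hi, Nat.succ_eq_add_one, pow_succ]
      field_simp
    rw [h5]
    linarith
  have hpos : (0 : ℝ) < 2 ^ j := by positivity
  have hρ : (0 : ℝ) < 1 / 2 ^ j := by positivity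
  set y' : E d := fun i => (round (z i * 2 ^ j) : ℝ) / 2 ^ j with hy'
  have hdist : ‖y' - z‖ ≤ (1 / 2 ^ j) / 2 := by
    refine (pi_norm_le_iff_of_nonneg (by positivity)).2 (fun i => ?_)
    have h4 := abs_sub_round (z i * 2 ^ j)
    have h5 : (y' - z) i = -((z i * 2 ^ j - round (z i * 2 ^ j)) / 2 ^ j) := by
      rw [Pi.sub_apply, hy']
      field_simp
      ring
    rw [h5, norm_neg, Real.norm_eq_abs, abs_div, abs_of_pos hpos, div_le_iff₀ hpos]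
    have h6 : 1 / 2 ^ j / 2 * (2 : ℝ) ^ j = 1 / 2 := by field_simp
    rw [h6]
    exact h4
  have hns : ¬ IsStop M φ F A A' j y' := by
    intro hst
    have hmem : (j, y') ∈ S := by
      rw [hS]
      refine ⟨hjN, fun i => ⟨round (z i * 2 ^ j), rfl⟩, ?_, hst⟩
      have h4 : ‖y'‖ ≤ ‖y' - z‖ + ‖z‖ := by
        have := norm_add_le (y' - z) z
        rwa [sub_add_cancel] at this
      have h5 : (1 : ℝ) / 2 ^ j ≤ 1 := by
        rw [div_le_one hpos]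
        exact one_le_pow₀ (by norm_num)
      linarith
    have h4 := sst_stop δ N hmem z
    rw [norm_sub_rev] at h4
    linarith
  unfold IsStop at hns
  rw [not_or, not_lt, not_lt] at hns
  exact ⟨j, y', hj2, hj1, hdist, hns.1, hns.2⟩

/-- the integral inside `WdE` -/
theorem ks2_int_eq (φ : E d → ℝ) (F : Ix d → P d → ℝ) (c : ℝ) (x : E d) {r : ℝ} (hr : 0 < r) :
    ∫⁻ y in Metric.closedBall x (c * r), ∫⁻ τ in Ioc (0 : ℝ) (c * r),
      ENNReal.ofReal (nF F (y, φ y + τ) * τ ^ (-(1 / 2) : ℝ)) =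
    ENNReal.ofReal (r ^ ((d : ℝ) + 1 / 2)) * WdE φ F c x r := by
  unfold WdE
  rw [← mul_assoc, ← ENNReal.ofReal_mul (by positivity), ← Real.rpow_add hr, add_neg_cancel,
    Real.rpow_zero, ENNReal.ofReal_one, one_mul]

/-- monotonicity of the double integral -/
theorem ks2_int_mono (φ : E d → ℝ) (F : Ix d → P d → ℝ) {A B : Set (E d)} {a b : ℝ} (hAB : A ⊆ B)
    (hab : a ≤ b) :
    ∫⁻ y in A, ∫⁻ τ in Ioc (0 : ℝ) a, ENNReal.ofReal (nF F (y, φ y + τ) * τ ^ (-(1 / 2) : ℝ)) ≤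
    ∫⁻ y in B, ∫⁻ τ in Ioc (0 : ℝ) b, ENNReal.ofReal (nF F (y, φ y + τ) * τ ^ (-(1 / 2) : ℝ)) := by
  refine (lintegral_mono_set hAB).trans (lintegral_mono (fun y => ?_))
  exact lintegral_mono_set (Ioc_subset_Ioc_right hab)

/-- the box bound at the resolution scale -/
theorem wbp_of_stopSet (d : ℕ) : ∃ C : ℝ, 0 < C ∧ ∀ (M : ℝ≥0) (φ : E d → ℝ) (F : Ix d → P d → ℝ) (A A' : ℝ) (N : ℕ)
    (S : Finset (ℕ × E d)), 0 ≤ A' → StopSet M φ F A A' N S → ∀ δ : ℝ, (∀ p ∈ S, 3 ≤ p.1) → 2 ≤ N →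
    WBP φ F (sst S δ N) (C * A') := by
  refine ⟨(3 / 2 : ℝ) ^ ((d : ℝ) + 1 / 2), by positivity, ?_⟩
  intro M φ F A A' N S hA' hS δ h3 hN z hz
  obtain ⟨j, y', h1, h2, h4, -, h5⟩ := nonstop hS (δ := δ) h3 hN hz
  have hlow := sst_lower S δ N z
  have hNpos : (0 : ℝ) < 1 / 2 ^ N := by positivity
  set s := sst S δ N z with hs
  have hs0 : 0 < s := by linarith
  have hρ : (0 : ℝ) < 1 / 2 ^ j := by positivity
  have hc := ks2_c0_pos M
  have hcρ : 6 * (1 / 2 ^ j) ≤ c0 M * (1 / 2 ^ j) := mul_le_mul_of_nonneg_right hc hρ.le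
  refine (ks2_int_mono φ F (B := Metric.closedBall y' (c0 M * (1 / 2 ^ j))) (b := c0 M * (1 / 2 ^ j))
    ?_ ?_).trans ?_
  · refine Metric.closedBall_subset_closedBall' ?_
    rw [dist_eq_norm, norm_sub_rev]
    linarith
  · linarith
  · rw [ks2_int_eq φ F _ _ hρ]
    have h6 : (1 / 2 ^ j : ℝ) ^ ((d : ℝ) + 1 / 2) ≤ ((3 / 2) * s) ^ ((d : ℝ) + 1 / 2) :=
      Real.rpow_le_rpow hρ.le h2 (by positivity)
    refine (mul_le_mul' (ENNReal.ofReal_le_ofReal h6) h5).trans (le_of_eq ?_)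
    rw [← ENNReal.ofReal_mul (by positivity), Real.mul_rpow (by norm_num) hs0.le]
    congr 1
    ring

/-- `‖m(x,ρ)‖ ≤ C (s x/ρ)^{d+1/2} B` if `c0 ρ ≤ s x/4` -/
theorem avg_le_of_wbp (hd : 1 ≤ d) (M : ℝ≥0) : ∃ C : ℝ, 0 < C ∧ ∀ (φ : E d → ℝ) (U : Set (P d)) (F : Ix d → P d → ℝ), GFd M φ U F →
    ∀ (s : E d → ℝ) (B : ℝ), 0 ≤ B → WBP φ F s B → ∀ (x : E d) (ρ : ℝ), ‖x‖ ≤ 7 → 0 < ρ → c0 M * ρ ≤ s x / 4 →
    ‖avg (hb φ F) x ρ‖ ≤ C * (s x / ρ) ^ ((d : ℝ) + 1 / 2) * B := by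
  obtain ⟨C, hC, hCC⟩ := ks2_avg_le_WdE hd M
  refine ⟨C, hC, ?_⟩
  intro φ U F h s B hB hW x ρ hx hρ hcs
  have hc := ks2_c0_pos M
  have hcρ : 0 < c0 M * ρ := by positivity
  have hs0 : 0 < s x := by linarith
  rw [mul_assoc]
  refine hCC φ U F h x ρ hρ _ (by positivity) ?_
  unfold WdE
  refine (mul_le_mul_right ((ks2_int_mono φ F (B := Metric.closedBall x (s x / 4)) (b := s x)
    (Metric.closedBall_subset_closedBall hcs) (by linarith)).trans (hW x hx)) _).trans (le_of_eq ?_)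
  rw [← ENNReal.ofReal_mul (by positivity), Real.div_rpow hs0.le hρ.le, Real.rpow_neg hρ.le]
  congr 1
  field_simp

end HG
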