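import Pool.Agent.W_MP_825298_an.Kr1
import Pool.Agent.W_MP_825298_an.Ks2

open MeasureTheory Set Filter Topology
open scoped ENNReal NNReal BigOperators

namespace HG
variable {d : ℕ}

theorem Kd1_cons_tail (ω : ℕ → St d) : consω (ω 0) (fun n => ω (n + 1)) = ω := by
  funext n
  cases n with
  | zero => rfl
  | succ n => rfl

/-- one path bounds the expectation from below -/
theorem Kd1_single (n : ℕ) (ω : ℕ → St d) {f : (ℕ → St d) → ℝ≥0∞} (hf : Dep n f) :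
    (((∏ i ∈ Finset.range n, wt (ω i) : ℝ≥0)) : ℝ≥0∞) * f ω ≤ Ex n f := by
  induction n generalizing ω f with
  | zero =>
    simp only [Finset.range_zero, Finset.prod_empty, ENNReal.coe_one, one_mul, Ex]
    exact le_of_eq (hf _ _ (fun i hi => absurd hi (Nat.not_lt_zero i)))
  | succ n ih =>
    rw [Finset.prod_range_succ']
    have h1 : Dep n (fun ω' => f (consω (ω 0) ω')) := by
      intro ω1 ω2 h
      refine hf _ _ (fun i hi => ?_)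
      cases i with
      | zero => rfl
      | succ i => exact h i (by omega)
    have h2 := ih (fun n => ω (n + 1)) h1
    have h3 : f (consω (ω 0) (fun n => ω (n + 1))) = f ω := by rw [Kd1_cons_tail]
    rw [h3] at h2
    have h4 : wt (ω 0) • Ex n (fun ω' => f (consω (ω 0) ω')) ≤ Ex (n + 1) f := by
      rw [Ex]
      exact Finset.single_le_sum (f := fun k => wt k • Ex n (fun ω' => f (consω k ω')))
        (fun k _ => zero_le) (Finset.mem_univ (ω 0))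
    refine le_trans ?_ h4
    rw [ENNReal.smul_def, smul_eq_mul, ENNReal.coe_mul]
    calc ((∏ i ∈ Finset.range n, wt (ω (i + 1)) : ℝ≥0) : ℝ≥0∞) * (wt (ω 0) : ℝ≥0∞) * f ω
        = (wt (ω 0) : ℝ≥0∞) * (((∏ i ∈ Finset.range n, wt (ω (i + 1)) : ℝ≥0) : ℝ≥0∞) * f ω) := by ring
      _ ≤ _ := by gcongr

theorem Kd1_w5_ge (j : Fin 5) : 1 / 16 ≤ w5 j := by
  have h : ∀ a : ℝ≥0, 1 ≤ a → 1 / 16 ≤ a / 16 := fun a ha => by gcongr
  fin_cases j
  · exact h 1 le_rfl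
  · exact h 4 (by norm_num)
  · exact h 6 (by norm_num)
  · exact h 4 (by norm_num)
  · exact h 1 le_rfl

theorem Kd1_wt_ge (k : St d) : (1 / 16) ^ d ≤ wt k := by
  unfold wt
  have h : ((1 / 16 : ℝ≥0)) ^ d = ∏ _i : Fin d, (1 / 16 : ℝ≥0) := by simp
  rw [h]
  exact Finset.prod_le_prod (fun _ _ => zero_le) (fun i _ => Kd1_w5_ge _)

theorem Kd1_prod_ge (n : ℕ) (ω : ℕ → St d) : ((1 / 16) ^ d) ^ n ≤ ∏ i ∈ Finset.range n, wt (ω i) := by
  have h : (((1 / 16 : ℝ≥0)) ^ d) ^ n = ∏ _i ∈ Finset.range n, ((1 / 16 : ℝ≥0)) ^ d := by simp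
  rw [h]
  exact Finset.prod_le_prod (fun _ _ => zero_le) (fun i _ => Kd1_wt_ge _)

/-- every path functional is dominated by the expectation -/
theorem Kd1_dom (n : ℕ) (ω : ℕ → St d) {f : (ℕ → St d) → ℝ≥0∞} (hf : Dep n f) :
    f ω ≤ ((((16 : ℝ≥0) ^ d) ^ n : ℝ≥0) : ℝ≥0∞) * Ex n f := by
  have h1 : ((((1 / 16 : ℝ≥0) ^ d) ^ n : ℝ≥0) : ℝ≥0∞) * f ω ≤ Ex n f := by
    refine le_trans ?_ (Kd1_single n ω hf)
    gcongr
    exact Kd1_prod_ge n ω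
  have h2 : ((((16 : ℝ≥0) ^ d) ^ n : ℝ≥0) : ℝ≥0∞) * ((((1 / 16 : ℝ≥0) ^ d) ^ n : ℝ≥0) : ℝ≥0∞) = 1 := by
    rw [← ENNReal.coe_mul, ← mul_pow, ← mul_pow]
    have : (16 : ℝ≥0) * (1 / 16) = 1 := by
      rw [mul_one_div, div_self (by norm_num)]
    rw [this]
    simp
  calc f ω = ((((16 : ℝ≥0) ^ d) ^ n : ℝ≥0) : ℝ≥0∞) * (((((1 / 16 : ℝ≥0) ^ d) ^ n : ℝ≥0) : ℝ≥0∞) * f ω) := by
        rw [← mul_assoc, h2, one_mul]
    _ ≤ _ := by gcongr

/-- the step sequence constantly equal to the zero step -/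
def Kd1_z (d : ℕ) : ℕ → St d := fun _ _ => 2

theorem Kd1_kv (n : ℕ) : kv (Kd1_z d n) = 0 := by
  funext i
  simp [kv, Kd1_z]

theorem Kd1_Zp (n : ℕ) : Zp n (Kd1_z d) = 0 := by
  unfold Zp
  simp [Kd1_kv]

/-- the resolution data depends on finitely many steps -/
theorem Kd1_dep {N J3 : ℕ} {s : E d → ℝ} (hs : ResFun N s) (Φ : E d → ℝ → ℝ≥0∞) :
    Dep (N + J3) (fun ω : ℕ → St d => Φ (XR s (1 / 2 ^ J3) 0 1 ω) (ρR s (1 / 2 ^ J3) 0 1 ω)) := by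
  intro ω ω' h
  have hle : Rl s (1 / 2 ^ J3) 0 1 ω ≤ N + J3 := by
    have := Rl_le hs J3 0 (0 : E d) (r := 1) (by norm_num) ω
    simpa using this
  have hd := (Rl_dep hs J3 0 (0 : E d) (r := 1) (by norm_num) (Rl s (1 / 2 ^ J3) 0 1 ω)).1 ω ω'
    (fun i hi => h i (lt_of_lt_of_le hi hle))
  have hR : Rl s (1 / 2 ^ J3) 0 1 ω' = Rl s (1 / 2 ^ J3) 0 1 ω := by
    simpa using hd
  have hZ : Zp (Rl s (1 / 2 ^ J3) 0 1 ω) ω = Zp (Rl s (1 / 2 ^ J3) 0 1 ω) ω' :=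
    Zp_dep _ _ _ (fun i hi => h i (lt_of_lt_of_le hi hle))
  simp only [XR, ρR, hR, hZ]

/-- shift by three zero steps -/
theorem Kd1_shift {N J3 : ℕ} {s : E d → ℝ} (hs : ResFun N s) (ω : ℕ → St d) :
    Rl s (1 / 2 ^ J3) 0 8 (splice 3 (Kd1_z d) ω) = 3 + Rl s (1 / 2 ^ J3) 0 1 ω := by
  have hpos : ∀ l, (0 : E d) + (8 : ℝ) • Zp (3 + l) (splice 3 (Kd1_z d) ω) = 0 + (1 : ℝ) • Zp l ω := by
    intro l
    rw [splice_pos, Kd1_Zp]
    norm_num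
  have hsc : ∀ l : ℕ, (8 : ℝ) / 2 ^ (3 + l) = 1 / 2 ^ l := by
    intro l
    rw [pow_add]
    norm_num
    field_simp
  have hmem : ∀ l : ℕ, (3 + l) ∈ {l : ℕ | (8 : ℝ) / 2 ^ l ≤ (1 / 2 ^ J3) * s (0 + (8 : ℝ) • Zp l (splice 3 (Kd1_z d) ω))} ↔
      l ∈ {l : ℕ | (1 : ℝ) / 2 ^ l ≤ (1 / 2 ^ J3) * s (0 + (1 : ℝ) • Zp l ω)} := by
    intro l
    simp only [Set.mem_ofPred_eq]
    rw [hpos, hsc]
  have hsmall : ∀ l ∈ {l : ℕ | (8 : ℝ) / 2 ^ l ≤ (1 / 2 ^ J3) * s (0 + (8 : ℝ) • Zp l (splice 3 (Kd1_z d) ω))}, 3 ≤ l := by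
    intro l hl
    by_contra hcon
    push Not at hcon
    simp only [Set.mem_ofPred_eq] at hl
    have h1 : (2 : ℝ) ≤ 8 / 2 ^ l := by
      have h2 : (2 : ℝ) ^ l ≤ 2 ^ 2 := pow_le_pow_right₀ (by norm_num) (by omega)
      rw [le_div_iff₀ (by positivity)]
      linarith
    have h3 : (1 / 2 ^ J3 : ℝ) * s (0 + (8 : ℝ) • Zp l (splice 3 (Kd1_z d) ω)) ≤ 1 * (1 / 4) := by
      refine mul_le_mul ?_ (hs.upper _) ?_ (by norm_num)
      · rw [div_le_one (by positivity)]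
        exact one_le_pow₀ (by norm_num)
      · exact le_trans (by positivity) (hs.lower _)
    linarith
  have hspec : Rl s (1 / 2 ^ J3) 0 1 ω ∈ {l : ℕ | (1 : ℝ) / 2 ^ l ≤ (1 / 2 ^ J3) * s (0 + (1 : ℝ) • Zp l ω)} := by
    have := Rl_spec hs J3 0 (0 : E d) (r := 1) (by norm_num) ω
    exact this
  apply le_antisymm
  · exact Nat.sInf_le ((hmem _).2 hspec)
  · have hne : {l : ℕ | (8 : ℝ) / 2 ^ l ≤ (1 / 2 ^ J3) * s (0 + (8 : ℝ) • Zp l (splice 3 (Kd1_z d) ω))}.Nonempty :=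
      ⟨_, (hmem _).2 hspec⟩
    have h1 := Nat.sInf_mem hne
    have h2 := hsmall _ h1
    obtain ⟨t, ht⟩ := Nat.exists_eq_add_of_le h2
    rw [ht, hmem] at h1
    have h3 : Rl s (1 / 2 ^ J3) 0 1 ω ≤ t := Nat.sInf_le h1
    have h4 : Rl s (1 / 2 ^ J3) 0 8 (splice 3 (Kd1_z d) ω) = 3 + t := ht
    omega

theorem Kd1_XR {N J3 : ℕ} {s : E d → ℝ} (hs : ResFun N s) (ω : ℕ → St d) :
    XR s (1 / 2 ^ J3) 0 8 (splice 3 (Kd1_z d) ω) = XR s (1 / 2 ^ J3) 0 1 ω := by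
  unfold XR
  rw [Kd1_shift hs, splice_pos, Kd1_Zp]
  norm_num

theorem Kd1_ρR {N J3 : ℕ} {s : E d → ℝ} (hs : ResFun N s) (ω : ℕ → St d) :
    ρR s (1 / 2 ^ J3) 0 8 (splice 3 (Kd1_z d) ω) = ρR s (1 / 2 ^ J3) 0 1 ω := by
  unfold ρR
  rw [Kd1_shift hs, pow_add]
  norm_num
  field_simp

/-- domination of the path from `(0,1)` by the path from `(0,8)` (first three steps zero: step `k = 2` in each coordinate, probability `(6/16)^{3d}`) -/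
theorem dom3 (d : ℕ) : ∃ C : ℝ≥0, ∀ (N J3 : ℕ) (s : E d → ℝ), ResFun N s → ∀ (Φ : E d → ℝ → ℝ≥0∞) (n n' : ℕ), N + J3 ≤ n → N + J3 + 3 ≤ n' →
    Ex n (fun ω : ℕ → St d => Φ (XR s (1 / 2 ^ J3) 0 1 ω) (ρR s (1 / 2 ^ J3) 0 1 ω))
      ≤ C * Ex n' (fun ω : ℕ → St d => Φ (XR s (1 / 2 ^ J3) 0 8 ω) (ρR s (1 / 2 ^ J3) 0 8 ω)) := by
  refine ⟨((16 : ℝ≥0) ^ d) ^ 3, fun N J3 s hs Φ n n' hn hn' => ?_⟩
  obtain ⟨m, rfl⟩ : ∃ m, n' = 3 + m := ⟨n' - 3, by omega⟩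
  have hdep := Kd1_dep (J3 := J3) hs Φ
  rw [Ex_dep hn hdep, Ex_splice 3 m]
  have h1 : Dep 3 (fun ω : ℕ → St d => Ex m (fun ω' : ℕ → St d =>
      Φ (XR s (1 / 2 ^ J3) 0 8 (splice 3 ω ω')) (ρR s (1 / 2 ^ J3) 0 8 (splice 3 ω ω')))) := by
    intro ω1 ω2 h
    have h2 : ∀ ω' : ℕ → St d, splice 3 ω1 ω' = splice 3 ω2 ω' := by
      intro ω'
      funext i
      unfold splice
      split_ifs with hi
      · exact h i hi
      · rfl
    simp only [h2]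
  refine le_trans (le_of_eq ?_) (Kd1_dom 3 (Kd1_z d) h1)
  have hm : N + J3 ≤ m := by omega
  simp only [Kd1_XR hs, Kd1_ρR hs]
  rw [Ex_dep hm hdep]

theorem Kd1_digit (P a : ℤ) (hP : 1 ≤ P) (h1 : a ≤ 2 * (2 * P - 1)) (h2 : -(2 * (2 * P - 1)) ≤ a) :
    ∃ b k : ℤ, a = 2 * b + k ∧ -2 ≤ k ∧ k ≤ 2 ∧ b ≤ 2 * (P - 1) ∧ -(2 * (P - 1)) ≤ b := by
  by_cases h3 : a / 2 > 2 * (P - 1)
  · exact ⟨2 * (P - 1), a - 2 * (2 * (P - 1)), by omega, by omega, by omega, by omega, by omega⟩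
  · by_cases h4 : a / 2 < -(2 * (P - 1))
    · exact ⟨-(2 * (P - 1)), a + 2 * (2 * (P - 1)), by omega, by omega, by omega, by omega, by omega⟩
    · exact ⟨a / 2, a - 2 * (a / 2), by omega, by omega, by omega, by omega, by omega⟩

/-- integer form of `reach` -/
theorem Kd1_reach (L : ℕ) (a : Fin d → ℤ) (h1 : ∀ i, a i ≤ 2 * (2 ^ L - 1)) (h2 : ∀ i, -(2 * (2 ^ L - 1)) ≤ a i) :
    ∃ ω : ℕ → St d, Zp L ω = fun i => (a i : ℝ) / 2 ^ L := by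
  induction L generalizing a with
  | zero =>
    refine ⟨fun _ => 0, ?_⟩
    funext i
    have e1 := h1 i
    have e2 := h2 i
    have : a i = 0 := by
      simp at e1 e2
      omega
    simp [Zp, this]
  | succ L ih =>
    have hP : (1 : ℤ) ≤ 2 ^ L := one_le_pow₀ (by norm_num)
    have h3 : ∀ i, ∃ b k : ℤ, a i = 2 * b + k ∧ -2 ≤ k ∧ k ≤ 2 ∧ b ≤ 2 * (2 ^ L - 1) ∧ -(2 * (2 ^ L - 1)) ≤ b := by
      intro i
      refine Kd1_digit (2 ^ L) (a i) hP ?_ ?_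
      · have := h1 i
        rw [pow_succ] at this
        linarith
      · have := h2 i
        rw [pow_succ] at this
        linarith
    choose b k hb hk1 hk2 hb1 hb2 using h3
    obtain ⟨ω, hω⟩ := ih b hb1 hb2
    have hkN : ∀ i, ∃ j : Fin 5, ((j : ℕ) : ℤ) = k i + 2 := by
      intro i
      refine ⟨⟨(k i + 2).toNat, ?_⟩, ?_⟩
      · have := hk1 i
        have := hk2 i
        omega
      · have := hk1 i
        simp only
        omega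
    choose j hj using hkN
    refine ⟨fun n => if n = L then j else ω n, ?_⟩
    have e1 : Zp (L + 1) (fun n => if n = L then j else ω n) = Zp L ω + ((2 : ℝ) ^ (L + 1))⁻¹ • kv j := by
      unfold Zp
      rw [Finset.sum_range_succ]
      congr 1
      · refine Finset.sum_congr rfl fun i hi => ?_
        have : i ≠ L := by
          have := Finset.mem_range.1 hi
          omega
        simp [this]
      · simp
    rw [e1, hω]
    funext i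
    have e2 : ((j i : ℕ) : ℝ) = (k i : ℝ) + 2 := by
      have := hj i
      have h5 : (((j i : ℕ) : ℤ) : ℝ) = ((k i + 2 : ℤ) : ℝ) := by rw [this]
      push_cast at h5
      exact h5
    simp only [Pi.add_apply, Pi.smul_apply, smul_eq_mul, kv, e2]
    rw [hb i]
    push_cast
    rw [pow_succ]
    field_simp
    ring

/-- every lattice point of mesh `2^{-L}` in `‖z‖ ≤ 2 - 2·2^{-L}` is reached from `(0,1)` after `L` steps
(one coordinate: every integer `a` with `|a| ≤ 2(2^L-1)` is `∑_{i<L} 2^{L-1-i} k_i`, `k_i ∈ {-2,..,2}`) -/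
theorem reach {L : ℕ} {z : E d} (hz : z ∈ Lat L) (hz2 : ‖z‖ ≤ 2 - 2 * (1 / 2 ^ L)) : ∃ ω : ℕ → St d, Zp L ω = z := by
  choose a ha using hz
  have hP : (0 : ℝ) < 2 ^ L := by positivity
  have hb : ∀ i, |(a i : ℝ)| ≤ 2 * (2 ^ L - 1) := by
    intro i
    have h1 : |z i| ≤ 2 - 2 * (1 / 2 ^ L) := by
      have := norm_le_pi_norm z i
      rw [Real.norm_eq_abs] at this
      exact this.trans hz2
    rw [ha i, abs_div, abs_of_pos hP, div_le_iff₀ hP] at h1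
    refine h1.trans (le_of_eq ?_)
    field_simp
  obtain ⟨ω, hω⟩ := Kd1_reach L a
    (fun i => by
      have := (abs_le.1 (hb i)).2
      exact_mod_cast this)
    (fun i => by
      have := (abs_le.1 (hb i)).1
      exact_mod_cast this)
  refine ⟨ω, ?_⟩
  rw [hω]
  funext i
  exact (ha i).symm

/-- comparison at level `L` (scale `2^{-L}`) -/
theorem comp8 (d L : ℕ) : ∃ C : ℝ≥0, ∀ Φ : E d → ℝ≥0∞,
    Ex (L + 3) (fun ω : ℕ → St d => ind (‖(8 : ℝ) • Zp (L + 3) ω‖ ≤ 2 - 2 * (1 / 2 ^ L)) * Φ ((8 : ℝ) • Zp (L + 3) ω))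
      ≤ C * Ex L (fun ω : ℕ → St d => Φ (Zp L ω)) := by
  refine ⟨((16 : ℝ≥0) ^ d) ^ L, fun Φ => ?_⟩
  have hdep : Dep L (fun ω : ℕ → St d => Φ (Zp L ω)) := by
    intro ω ω' h
    simp only [Zp_dep L ω ω' h]
  have key : ∀ ω : ℕ → St d, ind (‖(8 : ℝ) • Zp (L + 3) ω‖ ≤ 2 - 2 * (1 / 2 ^ L)) * Φ ((8 : ℝ) • Zp (L + 3) ω)
      ≤ ((((16 : ℝ≥0) ^ d) ^ L : ℝ≥0) : ℝ≥0∞) * Ex L (fun ω : ℕ → St d => Φ (Zp L ω)) := by
    intro ω
    unfold ind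
    split_ifs with h
    · obtain ⟨ω0, h0⟩ := reach (Zp8_mem_Lat L ω) h
      rw [one_mul, ← h0]
      exact Kd1_dom L ω0 hdep
    · rw [zero_mul]
      exact zero_le
  refine (Ex_mono (L + 3) key).trans ?_
  rw [Ex_const]

end HG
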