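import Pool.Agent.W_MP_825298_an.Ks2
import Pool.Agent.W_MP_825298_an.Kr1

open MeasureTheory Set Filter Topology
open scoped ENNReal NNReal BigOperators

namespace HG
variable {d : ℕ}

/-- a hit is a stop -/
theorem kg1_mem {M : ℝ≥0} {φ : E d → ℝ} {F : Ix d → P d → ℝ} {A A' : ℝ} {N : ℕ} {S : Finset (ℕ × E d)}
    (hS : StopSet M φ F A A' N S) (ω : ℕ → St d) {l : ℕ} (hl : l ≤ N)
    (hA : A < ‖avg (hb φ F) (Zp l ω) (1 / 2 ^ l)‖) : (l, Zp l ω) ∈ S := by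
  refine (hS l (Zp l ω)).2 ⟨hl, Zp_mem_Lat l ω, ?_, Or.inl hA⟩
  have h1 := norm_Zp_le l ω
  have h2 : (0 : ℝ) ≤ ((2 : ℝ) ^ l)⁻¹ := by positivity
  linarith

theorem kg1_lip {S : Finset (ℕ × E d)} {δ : ℝ} {N : ℕ} (y y' : E d) :
    sst S δ N y ≤ sst S δ N y' + ‖y' - y‖ / 4 := by
  have h := (sst_lip S δ N).dist_le_mul y y'
  rw [Real.dist_eq, dist_eq_norm, norm_sub_rev] at h
  have h2 := le_abs_self (sst S δ N y - sst S δ N y')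
  have h3 : (((1 / 4 : ℝ≥0) : ℝ≥0) : ℝ) = 1 / 4 := by norm_num
  rw [h3] at h
  linarith

theorem kg1_pow_le {j l : ℕ} (h : (3 / 4 : ℝ) * (1 / 2 ^ l) ≤ 1 / 2 ^ j) : j ≤ l := by
  by_contra hc
  have h1 : l + 1 ≤ j := by omega
  have h2 : (1 / 2 ^ j : ℝ) ≤ 1 / 2 ^ (l + 1) :=
    one_div_le_one_div_of_le (by positivity) (pow_le_pow_right₀ (by norm_num) h1)
  have h3 : (1 / 2 ^ (l + 1) : ℝ) = (1 / 2) * (1 / 2 ^ l) := by
    rw [pow_succ]; field_simp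
  have h4 : (0 : ℝ) < 1 / 2 ^ l := by positivity
  rw [h3] at h2
  linarith

theorem kg1_eps {J3 : ℕ} (hJ3 : 4 ≤ J3) : (1 / 2 ^ J3 : ℝ) ≤ 1 / 16 := by
  have h2 : (1 / 2 ^ J3 : ℝ) ≤ 1 / 2 ^ 4 :=
    one_div_le_one_div_of_le (by positivity) (pow_le_pow_right₀ (by norm_num) hJ3)
  norm_num at h2 ⊢
  linarith

/-- distance from the resolution position to the path at time `j` -/
theorem kg1_dist {N : ℕ} {s : E d → ℝ} (hs : ResFun N s) {J3 : ℕ} (ω : ℕ → St d) (j : ℕ) :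
    ‖XR s (1 / 2 ^ J3) 0 1 ω - Zp j ω‖ ≤ 2 * (1 / 2 ^ j) ∨
    ‖XR s (1 / 2 ^ J3) 0 1 ω - Zp j ω‖ ≤ 2 * (1 / 2 ^ J3 * s (XR s (1 / 2 ^ J3) 0 1 ω)) := by
  have hd := XR_dist s (1 / 2 ^ J3) (0 : E d) one_pos ω j
  rw [zero_add, one_smul] at hd
  rcases le_total j (Rl s (1 / 2 ^ J3) 0 1 ω) with h | h
  · exact Or.inl (hd.1 h)
  · refine Or.inr ((hd.2 h).trans ?_)
    have := Rl_spec hs J3 0 (0 : E d) (r := 1) (by norm_num) ω
    linarith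

/-- Geometry. Let `s = sst S δ N`, `R` the resolution time, `X = XR`. `(l, Zp l ω) ∈ S`. If `R ≥ l` then `‖X - Zp l ω‖ ≤ 2·2^{-l}`, `s X ≥ (3/2) 2^{-l}`;
if `R < l` then `‖X - Zp l ω‖ ≤ 2ρR ≤ 2ε3 s X`, `s X ≥ 2·2^{-l}/(1+ε3/2)`. As `‖X‖ ≤ 2-δ` the edge term is `≤ 0`, and `s X > 2^{-N}`; so `s X` is attained at a
stop `(j',y')` with `2^{-j'} ≥ 2^{-l}` (`2·2^{-j'} ≥ s X`), `‖X-y'‖ ≤ 8·2^{-j'}`, and the path is within `10·2^{-j'}` of `y'` at time `j' ≤ l`.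
If `(j',y')` is an `m`-stop, `s y' ≤ s X + ‖X-y'‖/4 = 2·2^{-j'}`: it is in `TopF`. If it is a `W`-stop, then
`WdE c1 (Zp j' ω) 2^{-j'} ≥ WdE c0 y' 2^{-j'} > A'`, so `j' = l` by `hW`, and then `(l, Zp l ω)` itself is in `TopF` (`s (Zp l ω) ≤ 3·2^{-l}`). -/
theorem geom {M : ℝ≥0} {φ : E d → ℝ} {F : Ix d → P d → ℝ} {A A' : ℝ} {N : ℕ} {S : Finset (ℕ × E d)}
    (hS : StopSet M φ F A A' N S) (h3 : ∀ p ∈ S, 3 ≤ p.1) (hN : 2 ≤ N) {c1 : ℝ} (hc1 : c1m M ≤ c1) {J3 : ℕ} (hJ3 : 4 ≤ J3)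
    {δ : ℝ} (hδ : 0 < δ) (hδ1 : δ ≤ 1) (ω : ℕ → St d) {l : ℕ} (hl : l ≤ N)
    (hA : A < ‖avg (hb φ F) (Zp l ω) (1 / 2 ^ l)‖)
    (hW : ∀ j < l, WdE φ F c1 (Zp j ω) (1 / 2 ^ j) ≤ ENNReal.ofReal A')
    (hR : ‖XR (sst S δ N) (1 / 2 ^ J3) 0 1 ω‖ ≤ 2 - δ) :
    ∃ (j : ℕ) (y' : E d), (j, y') ∈ TopF φ F A (sst S δ N) S ∧ ‖XR (sst S δ N) (1 / 2 ^ J3) 0 1 ω - y'‖ ≤ 8 * (1 / 2 ^ j) := by
  classical
  have hres : ResFun N (sst S δ N) := sst_resFun h3 hN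
  have hmem := kg1_mem hS ω hl hA
  obtain ⟨X, hX⟩ : ∃ X, X = XR (sst S δ N) (1 / 2 ^ J3) 0 1 ω := ⟨_, rfl⟩
  have hdist := fun j => kg1_dist hres (J3 := J3) ω j
  rw [← hX] at hR
  simp only [← hX] at hdist
  rw [← hX]
  have hε := kg1_eps hJ3
  have hε0 : (0 : ℝ) < 1 / 2 ^ J3 := by positivity
  have hs0 : 0 < sst S δ N X := lt_of_lt_of_le (by positivity) (sst_lower S δ N X)
  have hl0 : (0 : ℝ) < 1 / 2 ^ l := by positivity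
  -- `s X ≥ (3/2) 2^{-l}`
  have hsX : (3 / 2 : ℝ) * (1 / 2 ^ l) ≤ sst S δ N X := by
    have h1 := sst_stop δ N hmem X
    rcases hdist l with h | h
    · linarith
    · have h2 : 1 / 2 ^ J3 * sst S δ N X ≤ 1 / 16 * sst S δ N X :=
        mul_le_mul_of_nonneg_right hε hs0.le
      linarith
  have hNl : (1 / 2 ^ N : ℝ) ≤ 1 / 2 ^ l :=
    one_div_le_one_div_of_le (by positivity) (pow_le_pow_right₀ (by norm_num) hl)
  have hmax : max (min ((‖X‖ - 2 + δ) / 4) (1 / 4)) (1 / 2 ^ N) < sst S δ N X := by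
    refine max_lt ((min_le_left _ _).trans_lt ?_) ?_
    · linarith
    · linarith
  obtain ⟨j, y', hjS, hval⟩ := sst_attained hmax
  have hn0 : 0 ≤ ‖X - y'‖ := norm_nonneg _
  have hj0 : (0 : ℝ) < 1 / 2 ^ j := by positivity
  have hjl : j ≤ l := kg1_pow_le (by linarith)
  have hdy : ‖X - y'‖ ≤ 8 * (1 / 2 ^ j) := by linarith
  have hsX2 : sst S δ N X ≤ 2 * (1 / 2 ^ j) := by linarith
  have hstop := ((hS j y').1 hjS).2.2.2
  by_cases hm : A < ‖avg (hb φ F) y' (1 / 2 ^ j)‖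
  · refine ⟨j, y', ?_, hdy⟩
    unfold TopF
    rw [Finset.mem_filter]
    refine ⟨hjS, hm, ?_⟩
    have := kg1_lip (S := S) (δ := δ) (N := N) y' X
    show sst S δ N y' ≤ 3 * (1 / 2 ^ j)
    linarith
  · have hWs : ENNReal.ofReal A' < WdE φ F (c0 M) y' (1 / 2 ^ j) := hstop.resolve_left hm
    have hM : (0 : ℝ) ≤ M := M.2
    have hdj : ‖X - Zp j ω‖ ≤ 2 * (1 / 2 ^ j) := by
      rcases hdist j with h | h
      · exact h
      · have h2 : 1 / 2 ^ J3 * sst S δ N X ≤ 1 / 16 * sst S δ N X :=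
          mul_le_mul_of_nonneg_right hε hs0.le
        linarith
    have hyz : ‖y' - Zp j ω‖ ≤ 10 * (1 / 2 ^ j) := by
      have : y' - Zp j ω = (X - Zp j ω) - (X - y') := by abel
      rw [this]
      exact (norm_sub_le _ _).trans (by linarith)
    have hmono := WdE_mono φ F (c := c1) (c' := c0 M) (x := Zp j ω) (x' := y') hj0 le_rfl (by
      have h1 : (c0 M + 10) * (1 / 2 ^ j) ≤ c1 * (1 / 2 ^ j) := by
        apply mul_le_mul_of_nonneg_right _ hj0.le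
        unfold c0
        unfold c1m at hc1
        linarith
      have h2 : (c0 M + 10) * (1 / 2 ^ j : ℝ) = c0 M * (1 / 2 ^ j) + 10 * (1 / 2 ^ j) := by ring
      linarith)
    rw [div_self hj0.ne', Real.one_rpow, ENNReal.ofReal_one, one_mul] at hmono
    have hjeq : j = l := by
      by_contra hne
      have := hW j (lt_of_le_of_ne hjl hne)
      exact absurd (lt_of_lt_of_le hWs (hmono.trans this)) (lt_irrefl _)
    subst hjeq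
    refine ⟨j, Zp j ω, ?_, by linarith⟩
    unfold TopF
    rw [Finset.mem_filter]
    refine ⟨hmem, hA, ?_⟩
    have := kg1_lip (S := S) (δ := δ) (N := N) (Zp j ω) X
    show sst S δ N (Zp j ω) ≤ 3 * (1 / 2 ^ j)
    linarith

/-- a hit resolves the path after `J3` further steps -/
theorem hit_resolves {M : ℝ≥0} {φ : E d → ℝ} {F : Ix d → P d → ℝ} {A A' : ℝ} {N : ℕ} {S : Finset (ℕ × E d)}
    (hS : StopSet M φ F A A' N S) {J3 : ℕ} (δ : ℝ) (ω : ℕ → St d) {l : ℕ} (hl : l ≤ N)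
    (hA : A < ‖avg (hb φ F) (Zp l ω) (1 / 2 ^ l)‖) :
    Rl (sst S δ N) (1 / 2 ^ J3) 0 1 ω ≤ l + J3 := by
  have hmem := kg1_mem hS ω hl hA
  unfold Rl
  apply Nat.sInf_le
  show (1 : ℝ) / 2 ^ (l + J3) ≤ 1 / 2 ^ J3 * sst S δ N (0 + (1 : ℝ) • Zp (l + J3) ω)
  rw [zero_add, one_smul]
  have h1 := sst_stop δ N hmem (Zp (l + J3) ω)
  have h2 := norm_Zp_sub_le (Nat.le_add_right l J3) ω
  have h3 : (((2 : ℝ) ^ l)⁻¹) = 1 / 2 ^ l := (one_div _).symm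
  rw [h3] at h2
  have hl0 : (0 : ℝ) < 1 / 2 ^ l := by positivity
  have h4 : (1 / 2 ^ l : ℝ) ≤ sst S δ N (Zp (l + J3) ω) := by linarith
  have h5 : (1 : ℝ) / 2 ^ (l + J3) = 1 / 2 ^ J3 * (1 / 2 ^ l) := by
    rw [pow_add]; field_simp
  rw [h5]
  exact mul_le_mul_of_nonneg_left h4 (by positivity)

end HG
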