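import Pool.Agent.W_MP_825298_an.Kd1
import Pool.Agent.W_MP_825298_an.Kg1

open MeasureTheory Set Filter Topology
open scoped ENNReal NNReal BigOperators

namespace HG
variable {d : ℕ}

variable {V : Type*} [NormedAddCommGroup V] [NormedSpace ℝ V]

/-- the misalignment of the path from `(x,r)` before resolution -/
private noncomputable def Kd2_SG (m : E d → ℝ → V) (s : E d → ℝ) (ε3 : ℝ) (x : E d) (r : ℝ)
    (ω : ℕ → St d) : ℝ≥0∞ :=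
  ∑ l ∈ Finset.range (Rl s ε3 x r ω), wv (gamE m) x r ω l

private theorem Kd2_ind_true {p : Prop} (h : p) : ind p = 1 := by
  unfold ind
  rw [if_pos h]

private theorem Kd2_ind_false {p : Prop} (h : ¬ p) : ind p = 0 := by
  unfold ind
  rw [if_neg h]

private theorem Kd2_SG_dep (m : E d → ℝ → V) {N : ℕ} {s : E d → ℝ} (hs : ResFun N s) (J3 k : ℕ)
    (x : E d) {r : ℝ} (hr : r ≤ 2 ^ k) :
    Dep (N + J3 + k) (Kd2_SG m s (1 / 2 ^ J3) x r) := by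
  have h1 : ∀ ω : ℕ → St d, Kd2_SG m s (1 / 2 ^ J3) x r ω =
      ∑ l ∈ Finset.range (N + J3 + k), ind (l < Rl s (1 / 2 ^ J3) x r ω) * wv (gamE m) x r ω l := by
    intro ω
    have hle := Rl_le hs J3 k x hr ω
    unfold Kd2_SG
    have hsub : Finset.range (Rl s (1 / 2 ^ J3) x r ω) ⊆ Finset.range (N + J3 + k) :=
      Finset.range_subset_range.2 hle
    rw [← Finset.sum_subset hsub]
    · refine Finset.sum_congr rfl fun l hl => ?_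
      rw [Kd2_ind_true (Finset.mem_range.1 hl), one_mul]
    · intro l _ hl
      rw [Kd2_ind_false (fun h => hl (Finset.mem_range.2 h)), zero_mul]
  intro ω ω' h
  rw [h1, h1]
  refine Finset.sum_congr rfl fun l hl => ?_
  have hl' := Finset.mem_range.1 hl
  have h2 := (Rl_dep hs J3 k x hr l).2 ω ω' (fun i hi => h i (by omega))
  have h3 := wv_dep (gamE m) x r l ω ω' (fun i hi => h i (by omega))
  simp only at h2 h3
  rw [h2, h3]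

private theorem Kd2_Rl_splice (s : E d → ℝ) (ε3 : ℝ) (x : E d) (r : ℝ) (L : ℕ) (ω ω' : ℕ → St d)
    (h : L ≤ Rl s ε3 x r (splice L ω ω')) :
    Rl s ε3 x r (splice L ω ω') = L + Rl s ε3 (x + r • Zp L ω) (r / 2 ^ L) ω' := by
  unfold Rl at h ⊢
  rw [← Nat.sInf_add h, add_comm]
  congr 2
  ext j
  simp only [Set.mem_ofPred_eq]
  rw [add_comm j L, splice_pos, pow_add, div_div]

private theorem Kd2_SG_splice (m : E d → ℝ → V) (s : E d → ℝ) (ε3 : ℝ) (x : E d) (r : ℝ) (L : ℕ)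
    (ω ω' : ℕ → St d) (h : L ≤ Rl s ε3 x r (splice L ω ω')) :
    Kd2_SG m s ε3 x r (splice L ω ω') =
      (∑ l ∈ Finset.range L, wv (gamE m) x r (splice L ω ω') l) +
        Kd2_SG m s ε3 (x + r • Zp L ω) (r / 2 ^ L) ω' := by
  unfold Kd2_SG
  rw [Kd2_Rl_splice s ε3 x r L ω ω' h, Finset.sum_range_add]
  congr 1
  refine Finset.sum_congr rfl fun j _ => ?_
  rw [wv_splice]

private theorem Kd2_K2 {m : E d → ℝ → V} {N J3 J : ℕ} {s : E d → ℝ} (hs : ResFun N s) (hJ : J3 ≤ J)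
    {W : E d → ℝ → ℝ≥0∞} {κ A : ℝ≥0∞}
    (hres : ∀ ω : ℕ → St d, ∀ j ≤ N, Hit κ A (av m 0 1 ω) (wv W 0 1 ω) (av m 0 1 ω 0) j →
      Rl s (1 / 2 ^ J3) 0 1 ω ≤ j + J3) (ω : ℕ → St d) :
    Kd2_SG m s (1 / 2 ^ J3) 0 1 ω ≤
      K2 κ A (av m 0 1 ω) (wv W 0 1 ω) (wv (gamE m) 0 1 ω) N J := by
  unfold Kd2_SG K2
  have hle := Rl_le hs J3 0 (0 : E d) (r := 1) (by norm_num) ω
  have hsub : Finset.range (Rl s (1 / 2 ^ J3) 0 1 ω) ⊆ Finset.range (N + J) :=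
    Finset.range_subset_range.2 (by omega)
  refine le_trans (Finset.sum_le_sum fun l hl => ?_) (Finset.sum_le_sum_of_subset hsub)
  have hl' := Finset.mem_range.1 hl
  rw [Kd2_ind_true, one_mul]
  intro j hj hh
  have := hres ω j (by omega) hh
  omega

/-- The misalignment of the path from `(0,8)` before resolution. Choose `L0` with `2·2^{-L0} ≤ δ/4`; assume `J3 ≥ J30` so that `ε3/4 < 2^{-L0}` (no resolution
before level `L0`) and `J` with `8/2^J ≤ ε3 δ/8`, `J ≥ J3`, `J ≥ L0+3`.  At time `L0+3`: if `‖X‖ > 2-δ/4` then `‖X_l‖ ≥ 2-δ/2` for all later `l`, `s ≥ δ/8` there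
and the path is resolved before level `J`. If `‖X‖ ≤ 2-δ/4`, use `comp8` with `Φ(z) = E_{z,2^{-L0}} ∑_{l<R} γ` and `Ex_splice` for both paths.
For the path from `(0,1)`: `l < R` implies that there is no hit `j` with `j + J ≤ l` (`hres`). -/
theorem gam8_le (d : ℕ) (δ : ℝ) (hδ : 0 < δ) (hδ1 : δ ≤ 1) : ∃ J30 : ℕ, ∃ C : ℝ≥0, ∀ J3 : ℕ, J30 ≤ J3 → ∃ J0 : ℕ, ∀ J : ℕ, J0 ≤ J →
    ∀ (N : ℕ) (s : E d → ℝ), ResFun N s → (∀ y, min ((‖y‖ - 2 + δ) / 4) (1 / 4) ≤ s y) →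
    ∀ (m : E d → ℝ → V), RefEq m → ∀ (W : E d → ℝ → ℝ≥0∞) (κ A : ℝ≥0∞),
    (∀ ω : ℕ → St d, ∀ j ≤ N, Hit κ A (av m 0 1 ω) (wv W 0 1 ω) (av m 0 1 ω 0) j → Rl s (1 / 2 ^ J3) 0 1 ω ≤ j + J3) →
    ∀ n : ℕ, N + J3 + 3 ≤ n →
    Ex n (fun ω : ℕ → St d => ∑ l ∈ Finset.range (Rl s (1 / 2 ^ J3) 0 8 ω), wv (gamE m) 0 8 ω l)
      ≤ Ex J (fun ω : ℕ → St d => ∑ i ∈ Finset.range (J + 1), wv (gamE m) 0 8 ω i)
        + C * Ex (N + J) (fun ω : ℕ → St d => K2 κ A (av m 0 1 ω) (wv W 0 1 ω) (wv (gamE m) 0 1 ω) N J) := by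
  obtain ⟨L0, hL0⟩ : ∃ L0 : ℕ, (1 / 2 : ℝ) ^ L0 < δ / 8 :=
    exists_pow_lt_of_lt_one (by positivity) (by norm_num)
  have hL0' : (1 : ℝ) / 2 ^ L0 < δ / 8 := by rwa [one_div_pow] at hL0
  obtain ⟨C, hC⟩ := comp8 d L0
  refine ⟨L0, C, fun J3 hJ3 => ?_⟩
  obtain ⟨J1, hJ1⟩ : ∃ J1 : ℕ, (1 / 2 : ℝ) ^ J1 < 1 / 2 ^ J3 * (δ / 8) / 8 :=
    exists_pow_lt_of_lt_one (by positivity) (by norm_num)
  refine ⟨max J1 (max J3 (L0 + 3)), fun J hJ N s hs hsl m hm W κ A hres n hn => ?_⟩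
  have hJJ1 : J1 ≤ J := le_trans (le_max_left _ _) hJ
  have hJJ3 : J3 ≤ J := le_trans (le_trans (le_max_left _ _) (le_max_right _ _)) hJ
  have hJL : L0 + 3 ≤ J := le_trans (le_trans (le_max_right _ _) (le_max_right _ _)) hJ
  have hJpow : (8 : ℝ) / 2 ^ J ≤ 1 / 2 ^ J3 * (δ / 8) := by
    have h1 : (1 / 2 : ℝ) ^ J ≤ (1 / 2 : ℝ) ^ J1 :=
      pow_le_pow_of_le_one (by norm_num) (by norm_num) hJJ1
    have h2 : (8 : ℝ) / 2 ^ J = 8 * (1 / 2 : ℝ) ^ J := by rw [one_div_pow]; ring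
    rw [h2]
    linarith
  -- the geometric claim
  have hgeo : ∀ ω : ℕ → St d, 2 - 2 * (1 / 2 ^ L0) < ‖(8 : ℝ) • Zp (L0 + 3) ω‖ →
      Rl s (1 / 2 ^ J3) 0 8 ω ≤ J := by
    intro ω hω
    unfold Rl
    refine Nat.sInf_le ?_
    show (8 : ℝ) / 2 ^ J ≤ 1 / 2 ^ J3 * s (0 + (8 : ℝ) • Zp J ω)
    refine hJpow.trans (mul_le_mul_of_nonneg_left ?_ (by positivity))
    have h1 := norm_Zp_sub_le hJL ω
    have h2 : ‖(8 : ℝ) • Zp J ω - (8 : ℝ) • Zp (L0 + 3) ω‖ ≤ 2 * (1 / 2 ^ L0) := by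
      rw [← smul_sub, norm_smul, Real.norm_eq_abs, abs_of_pos (by norm_num : (0 : ℝ) < 8)]
      have h3 : (8 : ℝ) * (2 * ((2 : ℝ) ^ (L0 + 3))⁻¹) = 2 * (1 / 2 ^ L0) := by
        rw [pow_add]
        field_simp
        norm_num
      rw [← h3]
      exact mul_le_mul_of_nonneg_left h1 (by norm_num)
    have h4 : ‖(8 : ℝ) • Zp (L0 + 3) ω‖ ≤ ‖(8 : ℝ) • Zp J ω‖ + 2 * (1 / 2 ^ L0) := by
      have h5 := norm_sub_norm_le ((8 : ℝ) • Zp (L0 + 3) ω) ((8 : ℝ) • Zp J ω)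
      rw [norm_sub_rev] at h5
      linarith
    refine le_trans ?_ (hsl _)
    rw [zero_add]
    refine le_min ?_ (by linarith)
    linarith
  -- no resolution before level `L0` for the path from `(0,1)`
  have hnores : ∀ ω : ℕ → St d, L0 ≤ Rl s (1 / 2 ^ J3) 0 1 ω := by
    intro ω
    by_contra hc
    push Not at hc
    have h1 := Rl_spec hs J3 0 (0 : E d) (r := 1) (by norm_num) ω
    unfold ρR at h1
    have h2 := hs.upper (XR s (1 / 2 ^ J3) 0 1 ω)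
    have h3 : (1 : ℝ) / 2 ^ J3 ≤ 1 / 2 ^ L0 :=
      one_div_le_one_div_of_le (by positivity) (pow_le_pow_right₀ (by norm_num) hJ3)
    have h4 : (1 : ℝ) / 2 ^ L0 ≤ 1 / 2 ^ (Rl s (1 / 2 ^ J3) 0 1 ω) :=
      one_div_le_one_div_of_le (by positivity) (pow_le_pow_right₀ (by norm_num) hc.le)
    have h5 : (1 : ℝ) / 2 ^ J3 * s (XR s (1 / 2 ^ J3) 0 1 ω) ≤ 1 / 2 ^ J3 * (1 / 4) :=
      mul_le_mul_of_nonneg_left h2 (by positivity)
    have h6 : (0 : ℝ) < 1 / 2 ^ J3 := by positivity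
    linarith
  set n2 : ℕ := N + J3 + J with hn2
  set Φ : E d → ℝ≥0∞ := fun z => Ex n2 (Kd2_SG m s (1 / 2 ^ J3) z (1 / 2 ^ L0)) with hΦ
  -- reduce the number of steps
  have hdep8 : Dep (N + J3 + 3) (Kd2_SG m s (1 / 2 ^ J3) (0 : E d) 8) :=
    Kd2_SG_dep m hs J3 3 0 (by norm_num)
  have hdep1 : Dep (N + J3 + 0) (Kd2_SG m s (1 / 2 ^ J3) (0 : E d) 1) :=
    Kd2_SG_dep m hs J3 0 0 (by norm_num)
  have hstep0 : Ex n (fun ω : ℕ → St d =>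
      ∑ l ∈ Finset.range (Rl s (1 / 2 ^ J3) 0 8 ω), wv (gamE m) 0 8 ω l) =
      Ex (L0 + 3 + n2) (Kd2_SG m s (1 / 2 ^ J3) (0 : E d) 8) := by
    have h1 : (fun ω : ℕ → St d =>
      ∑ l ∈ Finset.range (Rl s (1 / 2 ^ J3) 0 8 ω), wv (gamE m) 0 8 ω l) =
      Kd2_SG m s (1 / 2 ^ J3) (0 : E d) 8 := rfl
    rw [h1, Ex_dep hn hdep8, Ex_dep (by omega : N + J3 + 3 ≤ L0 + 3 + n2) hdep8]
  rw [hstep0, Ex_splice]
  -- pathwise inequality
  have hpath : ∀ ω ω' : ℕ → St d,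
      Kd2_SG m s (1 / 2 ^ J3) (0 : E d) 8 (splice (L0 + 3) ω ω') ≤
      (∑ i ∈ Finset.range (J + 1), wv (gamE m) 0 8 (splice (L0 + 3) ω ω') i) +
      ind (‖(8 : ℝ) • Zp (L0 + 3) ω‖ ≤ 2 - 2 * (1 / 2 ^ L0)) *
        Kd2_SG m s (1 / 2 ^ J3) ((8 : ℝ) • Zp (L0 + 3) ω) (1 / 2 ^ L0) ω' := by
    intro ω ω'
    rcases le_or_gt (Rl s (1 / 2 ^ J3) 0 8 (splice (L0 + 3) ω ω')) (J + 1) with hle | hlt
    · refine le_trans ?_ le_self_add
      unfold Kd2_SG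
      exact Finset.sum_le_sum_of_subset (Finset.range_subset_range.2 hle)
    · have hX : ‖(8 : ℝ) • Zp (L0 + 3) ω‖ ≤ 2 - 2 * (1 / 2 ^ L0) := by
        by_contra hc
        push Not at hc
        have h1 := hgeo (splice (L0 + 3) ω ω') (by rwa [Zp_splice_le le_rfl])
        omega
      rw [Kd2_ind_true hX, one_mul,
        Kd2_SG_splice m s (1 / 2 ^ J3) 0 8 (L0 + 3) ω ω' (by omega)]
      have h2 : (8 : ℝ) / 2 ^ (L0 + 3) = 1 / 2 ^ L0 := by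
        rw [pow_add]
        field_simp
        norm_num
      rw [zero_add, h2]
      refine add_le_add ?_ le_rfl
      exact Finset.sum_le_sum_of_subset (Finset.range_subset_range.2 (by omega))
  have hA : Ex (L0 + 3) (fun ω => Ex n2 (fun ω' =>
      Kd2_SG m s (1 / 2 ^ J3) (0 : E d) 8 (splice (L0 + 3) ω ω'))) ≤
      Ex (L0 + 3) (fun ω => Ex n2 (fun ω' =>
        ∑ i ∈ Finset.range (J + 1), wv (gamE m) 0 8 (splice (L0 + 3) ω ω') i)) +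
      Ex (L0 + 3) (fun ω => ind (‖(8 : ℝ) • Zp (L0 + 3) ω‖ ≤ 2 - 2 * (1 / 2 ^ L0)) *
        Φ ((8 : ℝ) • Zp (L0 + 3) ω)) := by
    rw [← Ex_add]
    refine Ex_mono _ fun ω => ?_
    rw [hΦ]
    simp only
    rw [← Ex_mul, ← Ex_add]
    exact Ex_mono _ fun ω' => hpath ω ω'
  refine hA.trans (add_le_add (le_of_eq ?_) ?_)
  · rw [← Ex_splice (L0 + 3) n2
      (fun ω => ∑ i ∈ Finset.range (J + 1), wv (gamE m) (0 : E d) 8 ω i)]
    refine Ex_dep (by omega) ?_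
    intro ω ω' h
    refine Finset.sum_congr rfl fun l hl => ?_
    have hl' := Finset.mem_range.1 hl
    exact wv_dep (gamE m) 0 8 l ω ω' (fun i hi => h i (by omega))
  · refine (hC Φ).trans ?_
    refine mul_le_mul_right ?_ _
    calc Ex L0 (fun ω : ℕ → St d => Φ (Zp L0 ω)) ≤
        Ex L0 (fun ω => Ex n2 (fun ω' => Kd2_SG m s (1 / 2 ^ J3) (0 : E d) 1 (splice L0 ω ω'))) := by
          refine Ex_mono _ fun ω => Ex_mono _ fun ω' => ?_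
          rw [Kd2_SG_splice m s (1 / 2 ^ J3) 0 1 L0 ω ω' (hnores _), zero_add, one_smul]
          exact le_add_self
      _ = Ex (L0 + n2) (Kd2_SG m s (1 / 2 ^ J3) (0 : E d) 1) := by rw [Ex_splice]
      _ = Ex (N + J) (Kd2_SG m s (1 / 2 ^ J3) (0 : E d) 1) := by
          rw [Ex_dep (by omega : N + J3 + 0 ≤ L0 + n2) hdep1,
            Ex_dep (by omega : N + J3 + 0 ≤ N + J) hdep1]
      _ ≤ _ := Ex_mono _ fun ω => Kd2_K2 hs hJJ3 hres ω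

end HG
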