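import Pool.Agent.W_MP_825298_an.Spl2
import Pool.Agent.W_MP_825298_an.KDefs

open MeasureTheory Set Filter Topology
open scoped ENNReal NNReal BigOperators

namespace HG
variable {d : ℕ}

theorem Ke1_sT_deriv : ∃ K : ℝ, 0 < K ∧ ∀ x : ℝ, |deriv Real.smoothTransition x| ≤ K := by
  have hc : Continuous (deriv Real.smoothTransition) :=
    (Real.smoothTransition.contDiff (n := 1)).continuous_deriv le_rfl
  obtain ⟨K, hK⟩ := (isCompact_Icc (a := (0 : ℝ)) (b := 1)).exists_bound_of_continuousOn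
    hc.continuousOn
  refine ⟨max K 1, lt_of_lt_of_le one_pos (le_max_right _ _), fun x => ?_⟩
  by_cases hx : x ∈ Icc (0 : ℝ) 1
  · exact (hK x hx).trans (le_max_left _ _)
  · have h0 : deriv Real.smoothTransition x = 0 := by
      rw [mem_Icc, not_and_or, not_le, not_le] at hx
      rcases hx with hx | hx
      · have : Real.smoothTransition =ᶠ[𝓝 x] fun _ => (0 : ℝ) := by
          filter_upwards [Iio_mem_nhds hx] with y hy
          exact Real.smoothTransition.zero_of_nonpos (le_of_lt hy)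
        rw [this.deriv_eq]
        simp
      · have : Real.smoothTransition =ᶠ[𝓝 x] fun _ => (1 : ℝ) := by
          filter_upwards [Ioi_mem_nhds hx] with y hy
          exact Real.smoothTransition.one_of_one_le (le_of_lt hy)
        rw [this.deriv_eq]
        simp
    rw [h0, abs_zero]
    exact le_trans zero_le_one (le_max_right _ _)

/-- one-dimensional profile -/
noncomputable def Ke1_u (c s t : ℝ) : ℝ :=
  Real.smoothTransition ((c - t) * s) * Real.smoothTransition ((c + t) * s)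

theorem Ke1_u_contDiff (c s : ℝ) : ContDiff ℝ 2 (Ke1_u c s) := by
  unfold Ke1_u
  refine ContDiff.mul ?_ ?_
  · exact Real.smoothTransition.contDiff.comp ((contDiff_const.sub contDiff_id).mul contDiff_const)
  · exact Real.smoothTransition.contDiff.comp ((contDiff_const.add contDiff_id).mul contDiff_const)

theorem Ke1_u_nonneg (c s t : ℝ) : 0 ≤ Ke1_u c s t :=
  mul_nonneg (Real.smoothTransition.nonneg _) (Real.smoothTransition.nonneg _)

theorem Ke1_u_le_one (c s t : ℝ) : Ke1_u c s t ≤ 1 :=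
  mul_le_one₀ (Real.smoothTransition.le_one _) (Real.smoothTransition.nonneg _)
    (Real.smoothTransition.le_one _)

theorem Ke1_u_zero {c s t : ℝ} (hs : 0 ≤ s) (ht : c ≤ |t|) : Ke1_u c s t = 0 := by
  unfold Ke1_u
  rcases abs_cases t with ⟨h, _⟩ | ⟨h, _⟩
  · rw [Real.smoothTransition.zero_of_nonpos, zero_mul]
    exact mul_nonpos_of_nonpos_of_nonneg (by linarith) hs
  · rw [Real.smoothTransition.zero_of_nonpos (x := (c + t) * s), mul_zero]
    exact mul_nonpos_of_nonpos_of_nonneg (by linarith) hs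

theorem Ke1_u_one {c s t : ℝ} (hs : 0 ≤ s) (ht : 1 ≤ (c - |t|) * s) : Ke1_u c s t = 1 := by
  unfold Ke1_u
  have h1 := le_abs_self t
  have h2 := neg_abs_le t
  rw [Real.smoothTransition.one_of_one_le, Real.smoothTransition.one_of_one_le, mul_one]
  · exact ht.trans (mul_le_mul_of_nonneg_right (by linarith) hs)
  · exact ht.trans (mul_le_mul_of_nonneg_right (by linarith) hs)

theorem Ke1_u_deriv {K : ℝ} (hK : ∀ x : ℝ, |deriv Real.smoothTransition x| ≤ K) {c s t : ℝ}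
    (hs : 0 ≤ s) : |deriv (Ke1_u c s) t| ≤ 2 * K * s := by
  have hd : ∀ x, HasDerivAt Real.smoothTransition (deriv Real.smoothTransition x) x := fun x =>
    (((Real.smoothTransition.contDiff (n := 1)).differentiable (by norm_num)) x).hasDerivAt
  have h1 : HasDerivAt (fun t : ℝ => (c - t) * s) (-1 * s) t :=
    ((hasDerivAt_id t).const_sub c).mul_const s
  have h2 : HasDerivAt (fun t : ℝ => (c + t) * s) (1 * s) t :=
    ((hasDerivAt_id t).const_add c).mul_const s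
  have h3 : HasDerivAt (fun t : ℝ => Real.smoothTransition ((c - t) * s))
      (deriv Real.smoothTransition ((c - t) * s) * (-1 * s)) t :=
    HasDerivAt.comp t (hd _) h1
  have h4 : HasDerivAt (fun t : ℝ => Real.smoothTransition ((c + t) * s))
      (deriv Real.smoothTransition ((c + t) * s) * (1 * s)) t :=
    HasDerivAt.comp t (hd _) h2
  have h5 : HasDerivAt (Ke1_u c s) _ t := h3.mul h4
  rw [h5.deriv]
  have hK0 : 0 ≤ K := (abs_nonneg _).trans (hK 0)
  have a1 := hK ((c - t) * s)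
  have a2 := hK ((c + t) * s)
  have b1 := Real.smoothTransition.nonneg ((c - t) * s)
  have b2 := Real.smoothTransition.nonneg ((c + t) * s)
  have c1 := Real.smoothTransition.le_one ((c - t) * s)
  have c2 := Real.smoothTransition.le_one ((c + t) * s)
  have e1 : |deriv Real.smoothTransition ((c - t) * s) * (-1 * s) *
      Real.smoothTransition ((c + t) * s)| ≤ K * s := by
    rw [abs_mul, abs_mul, abs_of_nonneg b2, abs_mul, abs_neg, abs_one, one_mul, abs_of_nonneg hs]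
    calc |deriv Real.smoothTransition ((c - t) * s)| * s * Real.smoothTransition ((c + t) * s)
        ≤ K * s * 1 := by gcongr
      _ = K * s := mul_one _
  have e2 : |Real.smoothTransition ((c - t) * s) *
      (deriv Real.smoothTransition ((c + t) * s) * (1 * s))| ≤ K * s := by
    rw [abs_mul, abs_mul, abs_of_nonneg b1, one_mul, abs_of_nonneg hs]
    calc Real.smoothTransition ((c - t) * s) * (|deriv Real.smoothTransition ((c + t) * s)| * s)
        ≤ 1 * (K * s) := by gcongr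
      _ = K * s := one_mul _
  refine (abs_add_le _ _).trans ?_
  linarith

/-! products -/

theorem Ke1_prod_contDiff {u : ℝ → ℝ} (hu : ContDiff ℝ 2 u) :
    ContDiff ℝ 2 (fun y : E d => ∏ i : Fin d, u (y i)) :=
  contDiff_prod fun i _ => hu.comp (contDiff_apply ℝ ℝ i)

theorem Ke1_prod_fderiv {u : ℝ → ℝ} (hu : ContDiff ℝ 2 u) (y : E d) (i : Fin d) :
    fderiv ℝ (fun y : E d => ∏ i : Fin d, u (y i)) y (Pi.single i 1) =
    deriv u (y i) * ∏ j ∈ Finset.univ.erase i, u (y j) := by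
  have hd : DifferentiableAt ℝ (fun y : E d => ∏ i : Fin d, u (y i)) y :=
    ((Ke1_prod_contDiff hu).differentiable (by norm_num)).differentiableAt
  have h1 : HasDerivAt (fun t : ℝ => (fun y : E d => ∏ i : Fin d, u (y i)) (y + t • (Pi.single i 1 : E d)))
      (fderiv ℝ (fun y : E d => ∏ i : Fin d, u (y i)) y (Pi.single i 1)) 0 :=
    (hd.hasFDerivAt.hasLineDerivAt (Pi.single i 1))
  have hbd : DifferentiableAt ℝ u (y i) := (hu.differentiable (by norm_num)).differentiableAt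
  have h2 : HasDerivAt (fun t : ℝ => u (y i + t) * ∏ j ∈ Finset.univ.erase i, u (y j))
      (deriv u (y i) * ∏ j ∈ Finset.univ.erase i, u (y j)) 0 := by
    refine HasDerivAt.mul_const ?_ _
    have h3 : HasDerivAt u (deriv u (y i)) (y i + 0) := by
      rw [add_zero]; exact hbd.hasDerivAt
    exact h3.comp_const_add (y i) 0
  have h4 : (fun t : ℝ => (fun y : E d => ∏ i : Fin d, u (y i)) (y + t • (Pi.single i 1 : E d))) =
      fun t : ℝ => u (y i + t) * ∏ j ∈ Finset.univ.erase i, u (y j) := by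
    funext t
    show ∏ i' : Fin d, u ((y + t • (Pi.single i 1 : E d)) i') = _
    rw [← Finset.mul_prod_erase Finset.univ _ (Finset.mem_univ i)]
    congr 1
    · simp
    · refine Finset.prod_congr rfl fun j hj => ?_
      have hji : j ≠ i := Finset.ne_of_mem_erase hj
      simp [hji]
  rw [h4] at h1
  exact h1.unique h2

theorem Ke1_prod_fderiv_le {u : ℝ → ℝ} (hu : ContDiff ℝ 2 u) (h0 : ∀ t, 0 ≤ u t) (h1 : ∀ t, u t ≤ 1)
    {C : ℝ} (hC : ∀ t, |deriv u t| ≤ C) (y : E d) (i : Fin d) :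
    |fderiv ℝ (fun y : E d => ∏ i : Fin d, u (y i)) y (Pi.single i 1)| ≤ C := by
  rw [Ke1_prod_fderiv hu, abs_mul]
  have ha : 0 ≤ ∏ j ∈ Finset.univ.erase i, u (y j) := Finset.prod_nonneg fun _ _ => h0 _
  have hb : ∏ j ∈ Finset.univ.erase i, u (y j) ≤ 1 :=
    Finset.prod_le_one (fun _ _ => h0 _) (fun _ _ => h1 _)
  rw [abs_of_nonneg ha]
  calc |deriv u (y i)| * ∏ j ∈ Finset.univ.erase i, u (y j) ≤ C * 1 :=
        mul_le_mul (hC _) hb ha ((abs_nonneg _).trans (hC (y i)))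
    _ = C := mul_one _

theorem Ke1_theta_eq (δ : ℝ) : (theta δ : E d → ℝ) =
    fun y => 1 - ∏ i : Fin d, Ke1_u (2 - δ) δ⁻¹ (y i) := by
  funext y
  unfold theta Ke1_u
  simp only [div_eq_mul_inv]

theorem Ke1_chi1_eq : (chi1 : E d → ℝ) = fun y => ∏ i : Fin d, Ke1_u 4 (1 / 2) (y i) := by
  funext y
  unfold chi1 Ke1_u
  refine Finset.prod_congr rfl fun i _ => ?_
  congr 2 <;> ring

theorem Ke1_chi2_eq (a : ℝ) : chi2 a = Ke1_u (a + 1) 1 := by
  funext t
  unfold chi2 Ke1_u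
  simp only [mul_one]

/-- line derivative of a product -/
theorem Ke1_line {f : E d → ℝ} {y : E d} (hf : DifferentiableAt ℝ f y) (v : E d) :
    HasDerivAt (fun t : ℝ => f (y + t • v)) (fderiv ℝ f y v) 0 :=
  hf.hasFDerivAt.hasLineDerivAt v

/-- edge function -/
theorem theta_facts (d : ℕ) : ∃ C : ℝ, 0 < C ∧ ∀ δ : ℝ, 0 < δ → δ ≤ 1 / 2 →
    ContDiff ℝ 2 (theta (d := d) δ) ∧ (∀ y : E d, 0 ≤ theta δ y ∧ theta δ y ≤ 1) ∧ (∀ y : E d, 2 - δ ≤ ‖y‖ → 1 ≤ d → theta δ y = 1) ∧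
    (∀ y : E d, ‖y‖ ≤ 2 - 2 * δ → theta δ y = 0) ∧ (∀ (y : E d) (i : Fin d), |fderiv ℝ (theta δ) y (Pi.single i 1)| ≤ C / δ) ∧
    (∀ (y : E d) (i : Fin d), 1 ≤ d → |fderiv ℝ (fun z : E d => theta δ z * pk z) y (Pi.single i 1)| ≤ C * δ) := by
  obtain ⟨K, hK0, hK⟩ := Ke1_sT_deriv
  refine ⟨4 + 16 * K, by positivity, fun δ hδ hδ2 => ?_⟩
  have hs : (0 : ℝ) ≤ δ⁻¹ := by positivity
  have hu := Ke1_u_contDiff (2 - δ) δ⁻¹
  have hcd : ContDiff ℝ 2 (theta (d := d) δ) := by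
    rw [Ke1_theta_eq]
    exact contDiff_const.sub (Ke1_prod_contDiff hu)
  have h01 : ∀ y : E d, 0 ≤ theta δ y ∧ theta δ y ≤ 1 := by
    intro y
    rw [Ke1_theta_eq]
    have h1 : ∏ i : Fin d, Ke1_u (2 - δ) δ⁻¹ (y i) ≤ 1 :=
      Finset.prod_le_one (fun _ _ => Ke1_u_nonneg _ _ _) (fun _ _ => Ke1_u_le_one _ _ _)
    have h2 : 0 ≤ ∏ i : Fin d, Ke1_u (2 - δ) δ⁻¹ (y i) :=
      Finset.prod_nonneg fun _ _ => Ke1_u_nonneg _ _ _
    constructor
    · simpa using h1
    · simpa using h2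
  have hzero : ∀ y : E d, ‖y‖ ≤ 2 - 2 * δ → theta δ y = 0 := by
    intro y hy
    rw [Ke1_theta_eq]
    have h1 : ∏ i : Fin d, Ke1_u (2 - δ) δ⁻¹ (y i) = 1 := by
      refine Finset.prod_eq_one fun i _ => Ke1_u_one hs ?_
      have h2 := norm_le_pi_norm y i
      rw [Real.norm_eq_abs] at h2
      rw [← div_eq_mul_inv, le_div_iff₀ hδ]
      linarith
    simp [h1]
  have hfd : ∀ (y : E d) (i : Fin d), |fderiv ℝ (theta δ) y (Pi.single i 1)| ≤ 2 * K / δ := by
    intro y i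
    rw [Ke1_theta_eq, fderiv_const_sub]
    have h1 := Ke1_prod_fderiv_le hu (Ke1_u_nonneg _ _) (Ke1_u_le_one _ _)
      (fun t => Ke1_u_deriv hK (c := 2 - δ) (t := t) hs) y i
    rw [neg_apply, abs_neg]
    rw [div_eq_mul_inv]
    exact h1
  refine ⟨hcd, h01, ?_, hzero, ?_, ?_⟩
  · intro y hy _
    rw [Ke1_theta_eq]
    obtain ⟨i, hi⟩ := Spl2_exists (by linarith : (0 : ℝ) < 2 - δ) hy
    have h1 : ∏ i : Fin d, Ke1_u (2 - δ) δ⁻¹ (y i) = 0 :=
      Finset.prod_eq_zero (Finset.mem_univ i) (Ke1_u_zero hs hi)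
    simp [h1]
  · intro y i
    refine (hfd y i).trans ?_
    gcongr
    linarith
  · intro y i hd
    by_cases hy : ‖y‖ < 2 - 2 * δ
    · have h1 : (fun z : E d => theta δ z * pk z) =ᶠ[𝓝 y] fun _ => (0 : ℝ) := by
        filter_upwards [continuous_norm.continuousAt.preimage_mem_nhds (Iio_mem_nhds hy)] with z hz
        have hz' : ‖z‖ < 2 - 2 * δ := hz
        rw [hzero z hz'.le, zero_mul]
      rw [h1.fderiv_eq]
      simp only [fderiv_fun_const, Pi.zero_apply, zero_apply, abs_zero]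
      positivity
    · rw [not_lt] at hy
      have hη : 0 < 2 * δ := by linarith
      obtain ⟨e1, e2⟩ := pk_edge hη (by linarith) hy hd
      have d1 : DifferentiableAt ℝ (theta δ) y := (hcd.differentiable (by norm_num)).differentiableAt
      have d2 : DifferentiableAt ℝ (pk (d := d)) y :=
        (pk_contDiff.differentiable (by norm_num)).differentiableAt
      rw [fderiv_fun_mul d1 d2]
      simp only [add_apply, smul_apply, smul_eq_mul]
      have a1 : |theta δ y * fderiv ℝ pk y (Pi.single i 1)| ≤ (2 * δ) ^ 2 := by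
        rw [abs_mul, abs_of_nonneg (h01 y).1]
        calc theta δ y * |fderiv ℝ pk y (Pi.single i 1)| ≤ 1 * (2 * δ) ^ 2 :=
              mul_le_mul (h01 y).2 (e2 i) (abs_nonneg _) zero_le_one
          _ = (2 * δ) ^ 2 := one_mul _
      have a2 : |pk y * fderiv ℝ (theta δ) y (Pi.single i 1)| ≤ (2 * δ) ^ 3 * (2 * K / δ) := by
        rw [abs_mul, abs_of_nonneg (pk_nonneg y)]
        exact mul_le_mul e1 (hfd y i) (abs_nonneg _) (by positivity)
      refine (abs_add_le _ _).trans ((add_le_add a1 a2).trans ?_)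
      have h3 : (2 * δ) ^ 3 * (2 * K / δ) = 16 * K * δ ^ 2 := by
        field_simp
        ring
      rw [h3]
      have h4 : δ ^ 2 ≤ δ := by nlinarith
      have h5 : 16 * K * δ ^ 2 ≤ 16 * K * δ := mul_le_mul_of_nonneg_left h4 (by positivity)
      nlinarith

/-- horizontal cutoff -/
theorem chi1_facts (d : ℕ) : ∃ C : ℝ, 0 < C ∧ ContDiff ℝ 2 (chi1 (d := d)) ∧ (∀ y : E d, 0 ≤ chi1 y ∧ chi1 y ≤ 1) ∧
    (∀ y : E d, ‖y‖ ≤ 2 → chi1 y = 1) ∧ (∀ y : E d, 4 ≤ ‖y‖ → chi1 y = 0) ∧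
    (∀ (y : E d) (i : Fin d), |fderiv ℝ chi1 y (Pi.single i 1)| ≤ C) ∧
    ContDiffOn ℝ 1 (fun y : E d => chi1 y / (((8 : ℝ) ^ d)⁻¹ * pk ((8 : ℝ)⁻¹ • y))) (Metric.ball 0 8) ∧
    (∀ y ∈ Metric.ball (0 : E d) 8, |chi1 y / (((8 : ℝ) ^ d)⁻¹ * pk ((8 : ℝ)⁻¹ • y))| ≤ C ∧
      ∀ i : Fin d, |fderiv ℝ (fun y : E d => chi1 y / (((8 : ℝ) ^ d)⁻¹ * pk ((8 : ℝ)⁻¹ • y))) y (Pi.single i 1)| ≤ C) := by
  obtain ⟨K, hK0, hK⟩ := Ke1_sT_deriv
  have hs : (0 : ℝ) ≤ 1 / 2 := by norm_num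
  have hu := Ke1_u_contDiff 4 (1 / 2)
  have hcd : ContDiff ℝ 2 (chi1 (d := d)) := by
    rw [Ke1_chi1_eq]
    exact Ke1_prod_contDiff hu
  have h01 : ∀ y : E d, 0 ≤ chi1 y ∧ chi1 y ≤ 1 := by
    intro y
    rw [Ke1_chi1_eq]
    exact ⟨Finset.prod_nonneg fun _ _ => Ke1_u_nonneg _ _ _,
      Finset.prod_le_one (fun _ _ => Ke1_u_nonneg _ _ _) (fun _ _ => Ke1_u_le_one _ _ _)⟩
  have hfd : ∀ (y : E d) (i : Fin d), |fderiv ℝ chi1 y (Pi.single i 1)| ≤ K := by
    intro y i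
    rw [Ke1_chi1_eq]
    have h1 := Ke1_prod_fderiv_le hu (Ke1_u_nonneg _ _) (Ke1_u_le_one _ _)
      (fun t => Ke1_u_deriv hK (c := 4) (t := t) hs) y i
    refine h1.trans (le_of_eq ?_)
    ring
  -- the denominator
  set g : E d → ℝ := fun y => ((8 : ℝ) ^ d)⁻¹ * pk ((8 : ℝ)⁻¹ • y) with hg
  set m : ℝ := ((8 : ℝ) ^ d)⁻¹ * (1 / 6) ^ d with hm
  have hm0 : 0 < m := by positivity
  have hgcd : ContDiff ℝ 2 g := by
    have h1 : ContDiff ℝ 2 (fun y : E d => (8 : ℝ)⁻¹ • y) := by fun_prop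
    exact contDiff_const.mul (pk_contDiff.comp h1)
  have hglow : ∀ y ∈ Metric.ball (0 : E d) 8, m ≤ g y := by
    intro y hy
    rw [mem_ball_zero_iff] at hy
    refine mul_le_mul_of_nonneg_left (pk_lower ?_) (by positivity)
    rw [norm_smul, Real.norm_of_nonneg (by norm_num)]
    rw [inv_mul_le_iff₀ (by norm_num)]
    linarith
  have hgfd : ∀ (y : E d) (i : Fin d), |fderiv ℝ g y (Pi.single i 1)| ≤ 1 := by
    intro y i
    have d1 : DifferentiableAt ℝ (pk (d := d)) ((8 : ℝ)⁻¹ • y) :=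
      (pk_contDiff.differentiable (by norm_num)).differentiableAt
    have h1 := Ke1_line ((hgcd.differentiable (by norm_num)).differentiableAt (x := y)) (Pi.single i 1)
    have h2 := Ke1_line d1 (Pi.single i 1)
    have h3 : HasDerivAt (fun t : ℝ => g (y + t • (Pi.single i 1 : E d)))
        (((8 : ℝ) ^ d)⁻¹ * (fderiv ℝ pk ((8 : ℝ)⁻¹ • y) (Pi.single i 1) * (8 : ℝ)⁻¹)) 0 := by
      have h4 : HasDerivAt (fun t : ℝ => t * (8 : ℝ)⁻¹) (8 : ℝ)⁻¹ 0 := by
        simpa using (hasDerivAt_id (0 : ℝ)).mul_const (8 : ℝ)⁻¹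
      have h2' : HasDerivAt (fun t : ℝ => pk ((8 : ℝ)⁻¹ • y + t • (Pi.single i 1 : E d)))
          (fderiv ℝ pk ((8 : ℝ)⁻¹ • y) (Pi.single i 1)) (0 * (8 : ℝ)⁻¹) := by
        rw [zero_mul]
        exact h2
      have h5 := HasDerivAt.comp (0 : ℝ) h2' h4
      have h6 := h5.const_mul ((8 : ℝ) ^ d)⁻¹
      refine h6.congr_of_eventuallyEq (Eventually.of_forall fun t => ?_)
      show ((8 : ℝ) ^ d)⁻¹ * pk ((8 : ℝ)⁻¹ • (y + t • (Pi.single i 1 : E d))) =
        ((8 : ℝ) ^ d)⁻¹ * pk ((8 : ℝ)⁻¹ • y + (t * (8 : ℝ)⁻¹) • (Pi.single i 1 : E d))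
      rw [smul_add, smul_smul, mul_comm t]
    rw [h1.unique h3, abs_mul, abs_mul, abs_of_pos (by positivity : (0 : ℝ) < ((8 : ℝ) ^ d)⁻¹),
      abs_of_pos (by norm_num : (0 : ℝ) < (8 : ℝ)⁻¹)]
    have h7 : ((8 : ℝ) ^ d)⁻¹ ≤ 1 := inv_le_one_of_one_le₀ (one_le_pow₀ (by norm_num))
    have h8 := pk_fderiv_le ((8 : ℝ)⁻¹ • y) i
    calc ((8 : ℝ) ^ d)⁻¹ * (|fderiv ℝ pk ((8 : ℝ)⁻¹ • y) (Pi.single i 1)| * (8 : ℝ)⁻¹)
        ≤ 1 * (1 * 1) := by
          refine mul_le_mul h7 (mul_le_mul h8 (by norm_num) (by norm_num) (by norm_num))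
            (by positivity) (by norm_num)
      _ = 1 := by norm_num
  have hgle : ∀ y, |g y| ≤ 1 := by
    intro y
    have h7 : ((8 : ℝ) ^ d)⁻¹ ≤ 1 := inv_le_one_of_one_le₀ (one_le_pow₀ (by norm_num))
    rw [abs_of_nonneg (mul_nonneg (by positivity) (pk_nonneg _))]
    exact mul_le_one₀ h7 (pk_nonneg _) (pk_le_one _)
  refine ⟨K + 1 / m + (K + 1) / m ^ 2, by positivity, hcd, h01, ?_, ?_, ?_, ?_, ?_⟩
  · intro y hy
    rw [Ke1_chi1_eq]
    refine Finset.prod_eq_one fun i _ => Ke1_u_one hs ?_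
    have h2 := norm_le_pi_norm y i
    rw [Real.norm_eq_abs] at h2
    linarith
  · intro y hy
    rw [Ke1_chi1_eq]
    obtain ⟨i, hi⟩ := Spl2_exists (by norm_num : (0 : ℝ) < 4) hy
    exact Finset.prod_eq_zero (Finset.mem_univ i) (Ke1_u_zero hs hi)
  · intro y i
    refine (hfd y i).trans ?_
    have : 0 ≤ 1 / m + (K + 1) / m ^ 2 := by positivity
    linarith
  · refine ContDiffOn.div (hcd.of_le (by norm_num)).contDiffOn (hgcd.of_le (by norm_num)).contDiffOn ?_
    intro y hy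
    exact (lt_of_lt_of_le hm0 (hglow y hy)).ne'
  · intro y hy
    have hgy := hglow y hy
    have hgy0 : 0 < g y := lt_of_lt_of_le hm0 hgy
    constructor
    · have h1 : |chi1 y / g y| ≤ 1 / m := by
        rw [abs_div, abs_of_nonneg (h01 y).1, abs_of_pos hgy0]
        exact div_le_div₀ zero_le_one (h01 y).2 hm0 hgy
      refine h1.trans ?_
      have : 0 ≤ (K + 1) / m ^ 2 := by positivity
      linarith
    · intro i
      have d1 : DifferentiableAt ℝ (chi1 (d := d)) y :=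
        (hcd.differentiable (by norm_num)).differentiableAt
      have d2 : DifferentiableAt ℝ g y := (hgcd.differentiable (by norm_num)).differentiableAt
      have d3 : DifferentiableAt ℝ (fun y : E d => chi1 y / g y) y :=
        (hcd.contDiffAt.div hgcd.contDiffAt hgy0.ne').differentiableAt (by norm_num)
      have l1 := Ke1_line d1 (Pi.single i 1)
      have l2 := Ke1_line d2 (Pi.single i 1)
      have l3 := Ke1_line d3 (Pi.single i 1)
      have hne : g (y + (0 : ℝ) • (Pi.single i 1 : E d)) ≠ 0 := by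
        rw [zero_smul, add_zero]
        exact hgy0.ne'
      have l4 := l1.div l2 hne
      have l5 := l3.unique l4
      simp only [zero_smul, add_zero] at l5
      have h1 : |fderiv ℝ (fun y : E d => chi1 y / g y) y (Pi.single i 1)| ≤ (K + 1) / m ^ 2 := by
        rw [l5, abs_div]
        refine div_le_div₀ (by positivity) ?_ (by positivity) ?_
        · refine (abs_sub _ _).trans (add_le_add ?_ ?_)
          · rw [abs_mul]
            calc |fderiv ℝ chi1 y (Pi.single i 1)| * |g y| ≤ K * 1 :=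
                  mul_le_mul (hfd y i) (hgle y) (abs_nonneg _) hK0.le
              _ = K := mul_one _
          · rw [abs_mul, abs_of_nonneg (h01 y).1]
            exact mul_le_one₀ (h01 y).2 (abs_nonneg _) (hgfd y i)
        · rw [abs_of_pos (by positivity : (0 : ℝ) < g y ^ 2)]
          exact pow_le_pow_left₀ hm0.le hgy 2
      refine h1.trans ?_
      have : 0 ≤ K + 1 / m := by positivity
      linarith

theorem chi2_facts (a : ℝ) (ha : 0 ≤ a) : ContDiff ℝ 2 (chi2 a) ∧ (∀ t, 0 ≤ chi2 a t ∧ chi2 a t ≤ 1) ∧ (∀ t, |t| ≤ a → chi2 a t = 1) ∧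
    (∀ t, a + 1 ≤ |t| → chi2 a t = 0) := by
  rw [Ke1_chi2_eq]
  refine ⟨Ke1_u_contDiff _ _, fun t => ⟨Ke1_u_nonneg _ _ _, Ke1_u_le_one _ _ _⟩, ?_, ?_⟩
  · intro t ht
    refine Ke1_u_one zero_le_one ?_
    linarith
  · intro t ht
    exact Ke1_u_zero zero_le_one ht

theorem chi2_deriv : ∃ C : ℝ, 0 < C ∧ ∀ a : ℝ, 0 ≤ a → ∀ t, |deriv (chi2 a) t| ≤ C := by
  obtain ⟨K, hK0, hK⟩ := Ke1_sT_deriv
  refine ⟨2 * K, by positivity, fun a _ t => ?_⟩
  rw [Ke1_chi2_eq]
  have := Ke1_u_deriv hK (c := a + 1) (s := 1) (t := t) zero_le_one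
  rwa [mul_one] at this

end HG
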