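import Pool.Agent.W_MP_825298_an.Ke1
import Pool.Agent.W_MP_825298_an.Kb1
import Pool.Agent.W_MP_825298_an.Kb3
import Pool.Agent.W_MP_825298_an.Kr1
import Pool.Agent.W_MP_825298_an.Cert2

open MeasureTheory Set Filter Topology
open scoped ENNReal NNReal BigOperators

namespace HG
variable {d : ℕ}

theorem ke2_ofReal_integral_le {α : Type*} [MeasurableSpace α] {μ : Measure α} {g : α → ℝ} (hg : ∀ x, 0 ≤ g x) :
    ENNReal.ofReal (∫ x, g x ∂μ) ≤ ∫⁻ x, ENNReal.ofReal (g x) ∂μ := by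
  by_cases h : Integrable g μ
  · rw [ofReal_integral_eq_lintegral_ofReal h (Filter.Eventually.of_forall hg)]
  · rw [integral_undef h, ENNReal.ofReal_zero]
    exact zero_le

/-- averages of locally integrable functions are defined by convergent integrals -/
theorem ke2_int {V : Type*} [NormedAddCommGroup V] [NormedSpace ℝ V] [CompleteSpace V] (hd : 1 ≤ d) {h : E d → V}
    (hh : LocallyIntegrable h) (x : E d) {ρ : ℝ} (hρ : 0 < ρ) : Integrable (fun y : E d => pk y • h (x + ρ • y)) := by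
  have hc : Continuous (fun z : E d => pk (ρ⁻¹ • (z - x))) := by
    have := s3_pk_continuous (d := d)
    fun_prop
  have hcs : HasCompactSupport (fun z : E d => pk (ρ⁻¹ • (z - x))) := by
    refine HasCompactSupport.of_support_subset_isCompact (isCompact_closedBall x (2 * ρ)) ?_
    intro z hz
    rw [Function.mem_support] at hz
    have h2 : ‖ρ⁻¹ • (z - x)‖ < 2 := by
      by_contra h
      exact hz (pk_zero (not_lt.1 h) hd)
    rw [norm_smul, Real.norm_of_nonneg (inv_nonneg.mpr hρ.le)] at h2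
    rw [Metric.mem_closedBall, dist_eq_norm]
    have h4 : ‖z - x‖ = ρ * (ρ⁻¹ * ‖z - x‖) := by field_simp
    rw [h4]
    nlinarith
  have h5 := hh.integrable_smul_left_of_hasCompactSupport hc hcs
  have h6 := s3_integrable_subst h5 x hρ
  refine h6.congr (Eventually.of_forall fun y => ?_)
  have : ρ⁻¹ • (x + ρ • y - x) = y := by
    rw [add_sub_cancel_left, smul_smul, inv_mul_cancel₀ hρ.ne', one_smul]
  simp only [this]

theorem ke2_loc {θ : E d → ℝ} (hθc : Continuous θ) (hθ : ∀ y, 0 ≤ θ y ∧ θ y ≤ 1) {h : E d → VV d}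
    (hh : LocallyIntegrable h) (q : VV d) : LocallyIntegrable (fun z : E d => θ z * inner ℝ q (h z)) := by
  have h1 : LocallyIntegrable (fun z : E d => ‖q‖ • h z) := hh.smul ‖q‖
  refine h1.mono ?_ ?_
  · exact hθc.aestronglyMeasurable.mul (aestronglyMeasurable_const.inner hh.aestronglyMeasurable)
  · refine Filter.Eventually.of_forall fun z => ?_
    rw [norm_mul, norm_smul, norm_norm, Real.norm_of_nonneg (hθ z).1]
    calc θ z * ‖inner ℝ q (h z)‖ ≤ 1 * (‖q‖ * ‖h z‖) :=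
          mul_le_mul (hθ z).2 (norm_inner_le_norm _ _) (norm_nonneg _) zero_le_one
      _ = _ := one_mul _

/-- components are bounded by the norm -/
theorem ke2_comp_le (q : VV d) (o : Option (Ix d × Ix d)) : |q o| ≤ ‖q‖ := by
  have := PiLp.norm_apply_le q o
  rwa [Real.norm_eq_abs] at this

/-- derivative of a product `u(z) v(t)` -/
theorem ke2_pd {u : E d → ℝ} {v : ℝ → ℝ} (hu : Differentiable ℝ u) (hv : Differentiable ℝ v) (c : ℝ) (X : P d) :
    (∀ i : Fin d, pd (some i) (fun Y : P d => u Y.1 * v (Y.2 - c)) X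
      = v (X.2 - c) * fderiv ℝ u X.1 (Pi.single i 1)) ∧
    pd none (fun Y : P d => u Y.1 * v (Y.2 - c)) X = u X.1 * deriv v (X.2 - c) := by
  have h1 : HasFDerivAt (fun Y : P d => u Y.1) ((fderiv ℝ u X.1).comp (ContinuousLinearMap.fst ℝ (E d) ℝ)) X :=
    (hu X.1).hasFDerivAt.comp X hasFDerivAt_fst
  have h2 : HasFDerivAt (fun Y : P d => v (Y.2 - c)) (deriv v (X.2 - c) • (ContinuousLinearMap.snd ℝ (E d) ℝ)) X := by
    have h3 : HasDerivAt v (deriv v (X.2 - c)) (X.2 - c) := (hv _).hasDerivAt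
    have h4 : HasFDerivAt (fun Y : P d => Y.2 - c) (ContinuousLinearMap.snd ℝ (E d) ℝ) X :=
      (hasFDerivAt_snd (p := X)).sub_const c
    exact h3.comp_hasFDerivAt X h4
  have h5 : fderiv ℝ (fun Y : P d => u Y.1 * v (Y.2 - c)) X = _ := (h1.mul h2).fderiv
  constructor
  · intro i
    unfold pd
    rw [h5]
    simp [eb]
  · unfold pd
    rw [h5]
    simp [eb]

/-- the boundary integral -/
theorem ke2_boundary (hd : 1 ≤ d) (M : ℝ≥0) : ∃ C : ℝ, 0 < C ∧ ∀ c1 : ℝ, c1m M ≤ c1 →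
    ∀ (φ : E d → ℝ) (U : Set (P d)) (F : Ix d → P d → ℝ), GFd M φ U F →
    ∀ δ : ℝ, 0 < δ → δ ≤ 1 / 2 →
      ENNReal.ofReal ‖∫ y : E d, (theta δ y * pk y) • hb φ F y‖ ≤ ENNReal.ofReal (C * δ) * WdE φ F c1 0 1 := by
  obtain ⟨Ct, hCt, htest⟩ := test_ineq d
  obtain ⟨Cθ, hCθ, hθ⟩ := theta_facts d
  obtain ⟨C2, hC2, hchi⟩ := chi2_deriv
  have hM : (0 : ℝ) ≤ M := M.2
  refine ⟨Ct * (d * Cθ + 2 * C2) * Real.sqrt (4 * M + 1), by positivity, ?_⟩
  intro c1 hc1 φ U F hG δ hδ hδ2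
  obtain ⟨hθc, hθ01, hθ1, hθ0, hθd, hθp⟩ := hθ δ hδ hδ2
  obtain ⟨hχc, hχ01, hχ1, hχ0⟩ := chi2_facts (2 * (M : ℝ)) (by positivity)
  set u : E d → ℝ := fun z => theta δ z * pk z with hu
  set v : ℝ → ℝ := chi2 (2 * (M : ℝ)) with hv
  set χ : P d → ℝ := fun Y => u Y.1 * v (Y.2 - φ 0) with hχ
  have huc : ContDiff ℝ 2 u := hθc.mul pk_contDiff
  have hud : Differentiable ℝ u := huc.differentiable (by norm_num)
  have hvd : Differentiable ℝ v := hχc.differentiable (by norm_num)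
  have hχcd : ContDiff ℝ 2 χ :=
    (huc.comp contDiff_fst).mul (hχc.comp (contDiff_snd.sub contDiff_const))
  have hu0 : ∀ z : E d, 2 ≤ ‖z‖ → u z = 0 := by
    intro z hz
    show theta δ z * pk z = 0
    rw [pk_zero hz hd, mul_zero]
  have hu_le : ∀ z : E d, |u z| ≤ 2 * δ := by
    intro z
    show |theta δ z * pk z| ≤ 2 * δ
    rcases le_total ‖z‖ (2 - 2 * δ) with h | h
    · rw [hθ0 z h, zero_mul, abs_zero]
      linarith
    · have h1 := (pk_edge (y := z) (η := 2 * δ) (by linarith) (by linarith) (by linarith) hd).1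
      rw [abs_mul, abs_of_nonneg (hθ01 z).1, abs_of_nonneg (pk_nonneg z)]
      calc theta δ z * pk z ≤ 1 * (2 * δ) ^ 3 :=
            mul_le_mul (hθ01 z).2 h1 (pk_nonneg z) zero_le_one
        _ ≤ 2 * δ := by nlinarith [mul_pos hδ hδ]
  -- the test function
  have hB : ∀ X ∈ aboveC φ, max 2 (|φ 0| + 2 * M + 1) ≤ ‖X‖ → χ X = 0 := by
    intro X _ hX
    show u X.1 * v (X.2 - φ 0) = 0
    rw [Prod.norm_def] at hX
    rcases le_max_iff.1 ((le_refl _).trans hX) with h | h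
    · rw [hu0 _ ((le_max_left _ _).trans h), zero_mul]
    · have h1 : |φ 0| + 2 * M + 1 ≤ |X.2| := (le_max_right _ _).trans h
      have h2 : |X.2| ≤ |X.2 - φ 0| + |φ 0| := by
        have := abs_add_le (X.2 - φ 0) (φ 0)
        rwa [sub_add_cancel] at this
      rw [hχ0 (X.2 - φ 0) (by linarith), mul_zero]
  have ht := htest M φ hG.lip U hG.op hG.sub F hG.fld χ (hχcd.of_le (by norm_num)).contDiffOn _ hB
  have hint_eq : ∫ y : E d, (theta δ y * pk y) • hb φ F y = ∫ x : E d, χ (x, φ x) • hb φ F x := by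
    refine integral_congr_ae (Eventually.of_forall fun y => ?_)
    show (theta δ y * pk y) • hb φ F y = (u y * v (φ y - φ 0)) • hb φ F y
    by_cases hy : 2 ≤ ‖y‖
    · rw [hu0 y hy, zero_mul, pk_zero hy hd, mul_zero]
    · have h1 : |φ y - φ 0| ≤ 2 * M := by
        have := hG.lip.dist_le_mul y 0
        rw [Real.dist_eq, dist_zero_right] at this
        rw [not_le] at hy
        nlinarith
      rw [hχ1 _ h1, mul_one]
  rw [hint_eq]
  have hg0 : ∀ X : P d, 0 ≤ (∑ b : Ix d, |pd b χ X|) * nF F X := fun X =>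
    mul_nonneg (Finset.sum_nonneg fun _ _ => abs_nonneg _) (Finset.sum_nonneg fun _ _ => abs_nonneg _)
  -- gradient bound
  have hpd := fun X : P d => ke2_pd hud hvd (φ 0) X
  have hgrad : ∀ X : P d, ∑ b : Ix d, |pd b χ X| ≤ (d * Cθ + 2 * C2) * δ := by
    intro X
    obtain ⟨h1, h2⟩ := hpd X
    rw [Fintype.sum_option]
    have h3 : |pd none χ X| ≤ 2 * C2 * δ := by
      rw [h2, abs_mul]
      calc |u X.1| * |deriv v (X.2 - φ 0)| ≤ (2 * δ) * C2 :=
            mul_le_mul (hu_le _) (hchi _ (by positivity) _) (abs_nonneg _) (by linarith)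
        _ = _ := by ring
    have h4 : ∑ i : Fin d, |pd (some i) χ X| ≤ d * (Cθ * δ) := by
      calc ∑ i : Fin d, |pd (some i) χ X| ≤ ∑ _i : Fin d, Cθ * δ := by
            refine Finset.sum_le_sum fun i _ => ?_
            rw [h1 i, abs_mul, abs_of_nonneg (hχ01 _).1]
            calc v (X.2 - φ 0) * |fderiv ℝ u X.1 (Pi.single i 1)| ≤ 1 * (Cθ * δ) :=
                  mul_le_mul (hχ01 _).2 (hθp X.1 i hd) (abs_nonneg _) zero_le_one
              _ = _ := one_mul _
        _ = _ := by simp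
    nlinarith
  have hgrad0 : ∀ X : P d, X ∈ above φ → ¬ (‖X.1‖ ≤ 2 ∧ X.2 - φ X.1 ≤ 4 * M + 1) →
      ∑ b : Ix d, |pd b χ X| = 0 := by
    intro X hX hn
    have hz : χ =ᶠ[𝓝 X] fun _ => 0 := by
      by_cases h1 : ‖X.1‖ ≤ 2
      · have h2 : 4 * M + 1 < X.2 - φ X.1 := by
          by_contra h3
          exact hn ⟨h1, not_lt.1 h3⟩
        have h3 : |φ X.1 - φ 0| ≤ 2 * M := by
          have := hG.lip.dist_le_mul X.1 0
          rw [Real.dist_eq, dist_zero_right] at this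
          nlinarith
        have h4 : 2 * (M : ℝ) + 1 < X.2 - φ 0 := by
          have := (abs_le.1 h3).1
          linarith
        have h5 : ∀ᶠ Y : P d in 𝓝 X, 2 * (M : ℝ) + 1 < Y.2 - φ 0 :=
          (continuous_snd.sub continuous_const).continuousAt.eventually (lt_mem_nhds h4)
        filter_upwards [h5] with Y hY
        show u Y.1 * v (Y.2 - φ 0) = 0
        rw [hχ0 (Y.2 - φ 0) (hY.le.trans (le_abs_self _)), mul_zero]
      · have h5 : ∀ᶠ Y : P d in 𝓝 X, 2 < ‖Y.1‖ :=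
          (continuous_fst.norm).continuousAt.eventually (lt_mem_nhds (not_le.1 h1))
        filter_upwards [h5] with Y hY
        show u Y.1 * v (Y.2 - φ 0) = 0
        rw [hu0 _ hY.le, zero_mul]
    refine Finset.sum_eq_zero fun b _ => ?_
    unfold pd
    rw [hz.fderiv_eq]
    simp
  -- measurability
  have hmeas : AEMeasurable (fun X : P d => ENNReal.ofReal ((∑ b : Ix d, |pd b χ X|) * nF F X))
      (volume.restrict (above φ)) := by
    have hm := measurableSet_above hG.lip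
    have hsub : above φ ⊆ U := fun X hX => hG.sub (show φ X.1 ≤ X.2 from le_of_lt hX)
    have h1 : ContinuousOn (fun X : P d => (∑ b : Ix d, |pd b χ X|) * nF F X) (above φ) := by
      refine ContinuousOn.mul ?_ ?_
      · refine continuousOn_finsetSum _ fun b _ => ?_
        have h2 : Continuous (pd b χ) :=
          (hχcd.continuous_fderiv (by norm_num)).clm_apply continuous_const
        exact h2.abs.continuousOn
      · unfold nF
        exact continuousOn_finsetSum _ fun a _ => ((hG.fld.cd a).continuousOn.mono hsub).abs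
    exact ENNReal.measurable_ofReal.comp_aemeasurable (h1.aemeasurable hm)
  -- the estimate
  have hs1 : (1 : ℝ) ≤ 4 * M + 1 := by linarith
  have hc1' : 4 * (M : ℝ) + 1 ≤ c1 * 1 := by
    have : c1m M ≤ c1 := hc1
    unfold c1m at this
    linarith
  have hmain : ∫⁻ X in above φ, ENNReal.ofReal ((∑ b : Ix d, |pd b χ X|) * nF F X)
      ≤ ENNReal.ofReal ((d * Cθ + 2 * C2) * δ * Real.sqrt (4 * M + 1)) * WdE φ F c1 0 1 := by
    rw [lintegral_above hG.lip _ hmeas]
    unfold WdE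
    rw [Real.one_rpow, ENNReal.ofReal_one, one_mul,
      ← lintegral_indicator measurableSet_closedBall, ← lintegral_const_mul' _ _ ENNReal.ofReal_ne_top]
    refine lintegral_mono fun x => ?_
    simp only
    by_cases hx : ‖x‖ ≤ 2
    · have hxb : x ∈ Metric.closedBall (0 : E d) (c1 * 1) := by
        rw [mem_closedBall_zero_iff]
        have : c1m M ≤ c1 := hc1
        unfold c1m at this
        linarith
      rw [indicator_of_mem hxb, ← lintegral_const_mul' _ _ ENNReal.ofReal_ne_top,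
        ← lintegral_indicator measurableSet_Ioi, ← lintegral_indicator measurableSet_Ioc]
      refine lintegral_mono fun τ => ?_
      simp only
      by_cases hτ : τ ∈ Ioi (0 : ℝ)
      · have hτ0 : 0 < τ := hτ
        rw [indicator_of_mem hτ]
        by_cases hτ2 : τ ≤ 4 * M + 1
        · have hτm : τ ∈ Ioc (0 : ℝ) (c1 * 1) := ⟨hτ0, hτ2.trans hc1'⟩
          rw [indicator_of_mem hτm, ← ENNReal.ofReal_mul (by positivity)]
          refine ENNReal.ofReal_le_ofReal ?_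
          have hn0 : 0 ≤ nF F (x, φ x + τ) := Finset.sum_nonneg fun _ _ => abs_nonneg _
          have h1 : 1 ≤ Real.sqrt (4 * M + 1) * τ ^ (-(1 / 2) : ℝ) := by
            rw [Real.rpow_neg hτ0.le, ← Real.sqrt_eq_rpow, ← div_eq_mul_inv, le_div_iff₀ (Real.sqrt_pos.2 hτ0),
              one_mul]
            exact Real.sqrt_le_sqrt hτ2
          calc (∑ b : Ix d, |pd b χ (x, φ x + τ)|) * nF F (x, φ x + τ)
              ≤ ((d * Cθ + 2 * C2) * δ) * nF F (x, φ x + τ) := mul_le_mul_of_nonneg_right (hgrad _) hn0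
            _ = ((d * Cθ + 2 * C2) * δ) * nF F (x, φ x + τ) * 1 := (mul_one _).symm
            _ ≤ ((d * Cθ + 2 * C2) * δ) * nF F (x, φ x + τ) * (Real.sqrt (4 * M + 1) * τ ^ (-(1 / 2) : ℝ)) :=
                mul_le_mul_of_nonneg_left h1 (by positivity)
            _ = _ := by ring
        · have h0 := hgrad0 (x, φ x + τ) (by show φ x < φ x + τ; linarith) (by
            rintro ⟨-, h⟩
            apply hτ2
            simpa using h)
          rw [h0, zero_mul, ENNReal.ofReal_zero]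
          exact zero_le
      · rw [indicator_of_notMem hτ]
        exact zero_le
    · have h0 : ∀ τ ∈ Ioi (0 : ℝ), ENNReal.ofReal ((∑ b : Ix d, |pd b χ (x, φ x + τ)|) * nF F (x, φ x + τ)) = 0 := by
        intro τ hτ
        have hτ0 : (0 : ℝ) < τ := hτ
        rw [hgrad0 (x, φ x + τ) (by show φ x < φ x + τ; linarith) (fun h => hx h.1), zero_mul, ENNReal.ofReal_zero]
      rw [setLIntegral_congr_fun measurableSet_Ioi h0, lintegral_zero]
      exact zero_le
  calc ENNReal.ofReal ‖∫ x : E d, χ (x, φ x) • hb φ F x‖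
      ≤ ENNReal.ofReal (Ct * ∫ X in above φ, (∑ b : Ix d, |pd b χ X|) * nF F X) := ENNReal.ofReal_le_ofReal ht
    _ = ENNReal.ofReal Ct * ENNReal.ofReal (∫ X in above φ, (∑ b : Ix d, |pd b χ X|) * nF F X) :=
        ENNReal.ofReal_mul hCt.le
    _ ≤ ENNReal.ofReal Ct * (ENNReal.ofReal ((d * Cθ + 2 * C2) * δ * Real.sqrt (4 * M + 1)) * WdE φ F c1 0 1) := by
        gcongr
        exact (ke2_ofReal_integral_le hg0).trans hmain
    _ = _ := by
        rw [← mul_assoc, ← ENNReal.ofReal_mul hCt.le]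
        congr 2
        ring

/-- the pair estimate for the scalar multiplier `θ` -/
theorem ke2_pair (hd : 1 ≤ d) (M : ℝ≥0) : ∃ C : ℝ, 0 < C ∧
    ∀ (φ : E d → ℝ) (U : Set (P d)) (F : Ix d → P d → ℝ), GFd M φ U F →
    ∀ δ : ℝ, 0 < δ → δ ≤ 1 / 2 → ∀ q : VV d, ‖q‖ ≤ 1 → ∀ (x : E d) (ρ : ℝ), 0 < ρ →
      ENNReal.ofReal |avg (fun z : E d => theta δ z * inner ℝ q (hb φ F z)) x ρ
          - theta δ x * inner ℝ q (avg (hb φ F) x ρ)|
        ≤ ENNReal.ofReal (C / δ) * (ENNReal.ofReal ρ * wE φ F (c0 M) x ρ) := by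
  obtain ⟨Cp, hpair⟩ := pair_le hd M
  obtain ⟨Cθ, hCθ, hθ⟩ := theta_facts d
  have hCp : (0 : ℝ) ≤ Cp := Cp.2
  refine ⟨(Cp + 1) * Cθ, by positivity, ?_⟩
  intro φ U F hG δ hδ hδ2 q hq x ρ hρ
  obtain ⟨hθc, hθ01, hθ1, hθ0, hθd, hθp⟩ := hθ δ hδ hδ2
  have hloc := hb_locallyIntegrable hG
  have hdiff : Differentiable ℝ (theta (d := d) δ) := hθc.differentiable (by norm_num)
  have hp := hpair φ U F hG x ρ hρ (fun X => theta δ X.1 • q) univ isOpen_univ (subset_univ _) (by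
      intro o
      have h1 : ContDiff ℝ 2 (fun X : P d => (theta δ X.1 • q) o) := by
        have h2 : ContDiff ℝ 2 (fun X : P d => theta δ X.1 * q o) :=
          (hθc.comp contDiff_fst).mul contDiff_const
        exact h2
      exact (h1.of_le (by norm_num)).contDiffOn) (Cθ / δ) (by positivity) (by
      intro o b X _
      have h1 : ∀ b : Ix d, pd b (fun Y : P d => (theta δ Y.1 • q) o) X
          = pd b (fun Y : P d => theta δ Y.1 * (fun _ : ℝ => q o) (Y.2 - 0)) X := fun b => rfl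
      obtain ⟨h2, h3⟩ := ke2_pd hdiff (differentiable_const (q o) : Differentiable ℝ fun _ : ℝ => q o) 0 X
      have hq' : |q o| ≤ 1 := (ke2_comp_le q o).trans hq
      cases b with
      | none =>
        rw [h1, h3]
        simp only [deriv_const, mul_zero, abs_zero]
        positivity
      | some i =>
        rw [h1, h2, abs_mul]
        calc |q o| * |fderiv ℝ (theta δ) X.1 (Pi.single i 1)| ≤ 1 * (Cθ / δ) :=
              mul_le_mul hq' (hθd X.1 i) (abs_nonneg _) zero_le_one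
          _ = _ := one_mul _)
  -- identify the integral
  have hi1 : Integrable (fun y : E d => pk y • (fun z : E d => theta δ z * inner ℝ q (hb φ F z)) (x + ρ • y)) :=
    ke2_int hd (ke2_loc hθc.continuous hθ01 hloc q) x hρ
  have hi2 : Integrable (fun y : E d => pk y • hb φ F (x + ρ • y)) := ke2_int hd hloc x hρ
  have hid : avg (fun z : E d => theta δ z * inner ℝ q (hb φ F z)) x ρ - theta δ x * inner ℝ q (avg (hb φ F) x ρ)
      = ∫ y : E d, pk y * inner ℝ (theta δ (x + ρ • y) • q - theta δ x • q) (hb φ F (x + ρ • y)) := by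
    unfold avg
    rw [← integral_inner hi2, ← integral_const_mul, ← integral_sub hi1]
    · refine integral_congr_ae (Eventually.of_forall fun y => ?_)
      simp only [smul_eq_mul, inner_sub_left, inner_smul_left, inner_smul_right, RCLike.conj_to_real]
      ring
    · exact (hi2.const_inner q).const_mul _
  rw [hid]
  refine hp.trans ?_
  rw [← mul_assoc, ← ENNReal.ofReal_mul (by positivity)]
  refine mul_le_mul_left ?_ _
  rw [show ((Cp : ℝ≥0∞)) = ENNReal.ofReal (Cp : ℝ) by simp, ← ENNReal.ofReal_mul hCp]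
  refine ENNReal.ofReal_le_ofReal ?_
  have : (Cp : ℝ) * (Cθ / δ * ρ) ≤ (Cp + 1) * (Cθ / δ * ρ) :=
    mul_le_mul_of_nonneg_right (by linarith) (by positivity)
  refine this.trans (le_of_eq ?_)
  ring

/-- Edge estimate. With `q0 = m(0,1)/‖m(0,1)‖` (if `m(0,1) = 0` then `E‖m_R‖ = E∑γ` directly):
`E[‖m_R‖ θ(XR)] ≤ E[⟨q0,m_R⟩θ(XR)] + E[‖m_R‖-⟨q0,m_R⟩]`, the last term is `E∑_{l<R}γ` (`opt_norm`, `opt_vec`), and
`E[⟨q0,m_R⟩θ(XR)] = ∫ θ p ⟨q0,h⟩ - e3` (`opt_vec` for `avg (θ⟨q0,h⟩)`), `|e3| ≤ E[(C/δ) ρR wE]` (`pair_le`, `Ψ(z,t) = θ(z) q0`),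
`|∫ θ p ⟨q0,h⟩| ≤ C δ ∫_{‖z‖≤2, 0<t-φ≤4M+1} |F|` (`test_ineq`, `χ = θ p η(t-φ 0)`). -/
theorem edge_le (hd : 1 ≤ d) (M : ℝ≥0) : ∃ C : ℝ, 0 < C ∧ ∀ c1 : ℝ, c1m M ≤ c1 →
    ∀ (φ : E d → ℝ) (U : Set (P d)) (F : Ix d → P d → ℝ), GFd M φ U F → ∀ (N J3 : ℕ) (s : E d → ℝ), ResFun N s →
    ∀ δ : ℝ, 0 < δ → δ ≤ 1 / 2 → ∀ n : ℕ, N + J3 ≤ n →
    Ex n (fun ω : ℕ → St d => ind (2 - δ < ‖XR s (1 / 2 ^ J3) 0 1 ω‖) *
        ‖avg (hb φ F) (XR s (1 / 2 ^ J3) 0 1 ω) (ρR s (1 / 2 ^ J3) 0 1 ω)‖ₑ)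
      ≤ ENNReal.ofReal (C * δ) * WdE φ F c1 0 1
        + ENNReal.ofReal (C / δ) * Ex n (fun ω : ℕ → St d => ENNReal.ofReal (ρR s (1 / 2 ^ J3) 0 1 ω) *
            wE φ F (c0 M) (XR s (1 / 2 ^ J3) 0 1 ω) (ρR s (1 / 2 ^ J3) 0 1 ω))
        + Ex n (fun ω : ℕ → St d => ∑ l ∈ Finset.range (Rl s (1 / 2 ^ J3) 0 1 ω), wv (gamE (avg (hb φ F))) 0 1 ω l) := by
  obtain ⟨Ca, hCa, hbdry⟩ := ke2_boundary hd M
  obtain ⟨Cb, hCb, hpair⟩ := ke2_pair hd M
  obtain ⟨Cθ, hCθ, hθ⟩ := theta_facts d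
  refine ⟨Ca + Cb, by positivity, ?_⟩
  intro c1 hc1 φ U F hG N J3 s hs δ hδ hδ2 n hn
  obtain ⟨hθc, hθ01, hθ1, hθ0, hθd, hθp⟩ := hθ δ hδ hδ2
  have hloc := hb_locallyIntegrable hG
  have hm : RefEq (avg (hb φ F)) := avg_refEq hd hloc
  have hnorm := opt_norm hs J3 0 hm 0 one_pos (by norm_num) (n := n) (by simpa using hn)
  have hvec := opt_vec hs J3 0 hm 0 one_pos (by norm_num) (n := n) (by simpa using hn)
  have hρpos : ∀ ω : ℕ → St d, 0 < ρR s (1 / 2 ^ J3) 0 1 ω := by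
    intro ω
    unfold ρR
    positivity
  by_cases h0 : avg (hb φ F) 0 1 = 0
  · -- trivial case
    rw [h0, enorm_zero, zero_add] at hnorm
    refine le_trans ?_ le_add_self
    rw [← hnorm]
    refine Ex_mono n fun ω => ?_
    by_cases h : 2 - δ < ‖XR s (1 / 2 ^ J3) 0 1 ω‖
    · unfold ind
      rw [if_pos h, one_mul]
    · unfold ind
      rw [if_neg h, zero_mul]
      exact zero_le
  · have hn0 : 0 < ‖avg (hb φ F) 0 1‖ := norm_pos_iff.2 h0
    obtain ⟨q, hq⟩ : ∃ q : VV d, q = (‖avg (hb φ F) 0 1‖)⁻¹ • avg (hb φ F) 0 1 := ⟨_, rfl⟩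
    have hq1 : ‖q‖ = 1 := by
      rw [hq, norm_smul, norm_inv, norm_norm, inv_mul_cancel₀ hn0.ne']
    have hqm : inner ℝ q (avg (hb φ F) 0 1) = ‖avg (hb φ F) 0 1‖ := by
      rw [hq, inner_smul_left, real_inner_self_eq_norm_sq]
      simp only [RCLike.conj_to_real]
      field_simp
    -- scalar averages
    have hmf : RefEq (avg (fun z : E d => theta δ z * inner ℝ q (hb φ F z))) :=
      avg_refEq hd (ke2_loc hθc.continuous hθ01 hloc q)
    have hvecf := opt_vec hs J3 0 hmf 0 one_pos (by norm_num) (n := n) (by simpa using hn)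
    set a : (ℕ → St d) → ℝ := fun ω => ‖avg (hb φ F) (XR s (1 / 2 ^ J3) 0 1 ω) (ρR s (1 / 2 ^ J3) 0 1 ω)‖ with ha
    set b : (ℕ → St d) → ℝ := fun ω =>
      inner ℝ q (avg (hb φ F) (XR s (1 / 2 ^ J3) 0 1 ω) (ρR s (1 / 2 ^ J3) 0 1 ω)) with hb'
    set t : (ℕ → St d) → ℝ := fun ω => theta δ (XR s (1 / 2 ^ J3) 0 1 ω) with ht
    set g : (ℕ → St d) → ℝ := fun ω => avg (fun z : E d => theta δ z * inner ℝ q (hb φ F z))
      (XR s (1 / 2 ^ J3) 0 1 ω) (ρR s (1 / 2 ^ J3) 0 1 ω) with hg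
    have hba : ∀ ω, b ω ≤ a ω := by
      intro ω
      have := real_inner_le_norm q (avg (hb φ F) (XR s (1 / 2 ^ J3) 0 1 ω) (ρR s (1 / 2 ^ J3) 0 1 ω))
      rw [hq1, one_mul] at this
      exact this
    have hEb : Ex n b = ‖avg (hb φ F) 0 1‖ := by
      rw [hb', ← Ex_inner, hvec, hqm]
    have hEg : Ex n g = avg (fun z : E d => theta δ z * inner ℝ q (hb φ F z)) 0 1 := hvecf
    -- pointwise
    have hpt : ∀ ω, ind (2 - δ < ‖XR s (1 / 2 ^ J3) 0 1 ω‖) *
        ‖avg (hb φ F) (XR s (1 / 2 ^ J3) 0 1 ω) (ρR s (1 / 2 ^ J3) 0 1 ω)‖ₑ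
          ≤ ENNReal.ofReal (g ω + |g ω - t ω * b ω| + (a ω + (-1) * b ω)) := by
      intro ω
      have h1 := abs_nonneg (g ω - t ω * b ω)
      have h2 := neg_le_abs (g ω - t ω * b ω)
      have h3 : 0 ≤ t ω ∧ t ω ≤ 1 := hθ01 _
      have h4 := hba ω
      have h5 : 0 ≤ a ω := norm_nonneg _
      have h6 : t ω * a ω ≤ g ω + |g ω - t ω * b ω| + (a ω + (-1) * b ω) := by
        have h7 : 0 ≤ (1 - t ω) * (a ω - b ω) := mul_nonneg (by linarith [h3.2]) (by linarith)
        nlinarith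
      by_cases h : 2 - δ < ‖XR s (1 / 2 ^ J3) 0 1 ω‖
      · unfold ind
        rw [if_pos h, one_mul, ← ofReal_norm]
        refine ENNReal.ofReal_le_ofReal ?_
        have h8 : t ω = 1 := hθ1 _ h.le hd
        have h9 : t ω * a ω = a ω := by rw [h8, one_mul]
        exact h9.symm.le.trans h6
      · unfold ind
        rw [if_neg h, zero_mul]
        exact zero_le
    have hnn : ∀ ω, 0 ≤ g ω + |g ω - t ω * b ω| + (a ω + (-1) * b ω) := by
      intro ω
      have h2 := neg_le_abs (g ω - t ω * b ω)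
      have h3 : 0 ≤ t ω ∧ t ω ≤ 1 := hθ01 _
      have h4 := hba ω
      have h5 : 0 ≤ a ω := norm_nonneg _
      have h7 : 0 ≤ (1 - t ω) * (a ω - b ω) := mul_nonneg (by linarith [h3.2]) (by linarith)
      have h8 : 0 ≤ t ω * a ω := mul_nonneg h3.1 h5
      nlinarith
    have hstep1 : Ex n (fun ω : ℕ → St d => ind (2 - δ < ‖XR s (1 / 2 ^ J3) 0 1 ω‖) *
        ‖avg (hb φ F) (XR s (1 / 2 ^ J3) 0 1 ω) (ρR s (1 / 2 ^ J3) 0 1 ω)‖ₑ)
        ≤ ENNReal.ofReal (Ex n g + Ex n (fun ω => |g ω - t ω * b ω|) + (Ex n a - Ex n b)) := by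
      refine (Ex_mono n hpt).trans ?_
      rw [← Ex_ofReal n hnn, Ex_add, Ex_add, Ex_add, Ex_mulR]
      refine ENNReal.ofReal_le_ofReal (le_of_eq ?_)
      ring
    refine hstep1.trans ?_
    -- the three terms
    have hT1 : ENNReal.ofReal (Ex n g) ≤ ENNReal.ofReal (Ca * δ) * WdE φ F c1 0 1 := by
      rw [hEg]
      refine le_trans (ENNReal.ofReal_le_ofReal ?_) (hbdry c1 hc1 φ U F hG δ hδ hδ2)
      have hi : Integrable (fun y : E d => (theta δ y * pk y) • hb φ F y) := by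
        have h1 : Continuous (fun y : E d => theta δ y * pk y) := hθc.continuous.mul s3_pk_continuous
        have h2 : HasCompactSupport (fun y : E d => theta δ y * pk y) := (s3_pk_compact hd).mul_left
        exact hloc.integrable_smul_left_of_hasCompactSupport h1 h2
      have h3 : avg (fun z : E d => theta δ z * inner ℝ q (hb φ F z)) 0 1
          = inner ℝ q (∫ y : E d, (theta δ y * pk y) • hb φ F y) := by
        rw [← integral_inner hi]
        unfold avg
        refine integral_congr_ae (Eventually.of_forall fun y => ?_)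
        simp only [zero_add, one_smul, smul_eq_mul, inner_smul_right]
        ring
      rw [h3]
      have := real_inner_le_norm q (∫ y : E d, (theta δ y * pk y) • hb φ F y)
      rwa [hq1, one_mul] at this
    have hT2 : ENNReal.ofReal (Ex n (fun ω => |g ω - t ω * b ω|))
        ≤ ENNReal.ofReal (Cb / δ) * Ex n (fun ω : ℕ → St d => ENNReal.ofReal (ρR s (1 / 2 ^ J3) 0 1 ω) *
            wE φ F (c0 M) (XR s (1 / 2 ^ J3) 0 1 ω) (ρR s (1 / 2 ^ J3) 0 1 ω)) := by
      rw [Ex_ofReal n (fun ω => abs_nonneg _), ← Ex_mul]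
      exact Ex_mono n fun ω => hpair φ U F hG δ hδ hδ2 q hq1.le _ _ (hρpos ω)
    have hT3 : ENNReal.ofReal (Ex n a - Ex n b)
        ≤ Ex n (fun ω : ℕ → St d => ∑ l ∈ Finset.range (Rl s (1 / 2 ^ J3) 0 1 ω),
            wv (gamE (avg (hb φ F))) 0 1 ω l) := by
      rw [hEb, ENNReal.ofReal_sub _ (norm_nonneg _)]
      have h1 : ENNReal.ofReal (Ex n a) = Ex n (fun ω : ℕ → St d =>
          ‖avg (hb φ F) (XR s (1 / 2 ^ J3) 0 1 ω) (ρR s (1 / 2 ^ J3) 0 1 ω)‖ₑ) := by
        rw [Ex_ofReal n (fun ω => norm_nonneg _)]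
        simp only [ofReal_norm]
      rw [h1, hnorm, ofReal_norm, tsub_le_iff_left]
    calc ENNReal.ofReal (Ex n g + Ex n (fun ω => |g ω - t ω * b ω|) + (Ex n a - Ex n b))
        ≤ ENNReal.ofReal (Ex n g) + ENNReal.ofReal (Ex n (fun ω => |g ω - t ω * b ω|))
            + ENNReal.ofReal (Ex n a - Ex n b) :=
          ENNReal.ofReal_add_le.trans (add_le_add ENNReal.ofReal_add_le le_rfl)
      _ ≤ _ := by
          refine add_le_add (add_le_add (hT1.trans ?_) (hT2.trans ?_)) hT3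
          · refine mul_le_mul_left (ENNReal.ofReal_le_ofReal ?_) _
            nlinarith
          · refine mul_le_mul_left (ENNReal.ofReal_le_ofReal ?_) _
            exact div_le_div_of_nonneg_right (by linarith) hδ.le

end HG
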