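import Pool.Agent.W_MP_825298_an.Kr1

open MeasureTheory Set Filter Topology
open scoped ENNReal NNReal BigOperators

namespace HG
variable {d : ℕ}

variable {V : Type*} [NormedAddCommGroup V] [NormedSpace ℝ V]

theorem Ko1_ind_true {p : Prop} (h : p) : ind p = 1 := by
  unfold ind
  rw [if_pos h]

theorem Ko1_ind_false {p : Prop} (h : ¬ p) : ind p = 0 := by
  unfold ind
  rw [if_neg h]

/-- telescoping -/
theorem Ko1_tele (a : ℕ → ℝ≥0∞) {l R : ℕ} (h : l ≤ R) :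
    a l + ∑ j ∈ Finset.Ico l R, a (j + 1) = a R + ∑ j ∈ Finset.Ico l R, a j := by
  induction R, h using Nat.le_induction with
  | base => simp
  | succ R hR ih =>
    rw [Finset.sum_Ico_succ_top hR, Finset.sum_Ico_succ_top hR, ← add_assoc, ih]
    ring

/-- sums with an indicator of an interval -/
theorem Ko1_sum_ind {p : ℕ → Prop} (f : ℕ → ℝ≥0∞) {l T n : ℕ} (hT : T ≤ n)
    (hp : ∀ j < n, (p j ↔ l ≤ j ∧ j < T)) :
    ∑ j ∈ Finset.range n, ind (p j) * f j = ∑ j ∈ Finset.Ico l T, f j := by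
  classical
  have h1 : ∑ j ∈ Finset.range n, ind (p j) * f j =
      ∑ j ∈ Finset.range n, if l ≤ j ∧ j < T then f j else 0 := by
    refine Finset.sum_congr rfl fun j hj => ?_
    have hj' := Finset.mem_range.1 hj
    by_cases h : p j
    · rw [Ko1_ind_true h, if_pos ((hp j hj').1 h), one_mul]
    · rw [Ko1_ind_false h, if_neg (fun h' => h ((hp j hj').2 h')), zero_mul]
  rw [h1, ← Finset.sum_filter]
  refine Finset.sum_congr ?_ fun _ _ => rfl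
  ext j
  simp only [Finset.mem_filter, Finset.mem_range, Finset.mem_Ico]
  constructor
  · rintro ⟨_, h⟩
    exact h
  · intro h
    exact ⟨by omega, h⟩

theorem Ko1_sum_zero {p : ℕ → Prop} (f : ℕ → ℝ≥0∞) {n : ℕ} (hp : ∀ j < n, ¬ p j) :
    ∑ j ∈ Finset.range n, ind (p j) * f j = 0 := by
  refine Finset.sum_eq_zero fun j hj => ?_
  rw [Ko1_ind_false (hp j (Finset.mem_range.1 hj)), zero_mul]

/-- pathwise inequality for `σ ≤ R` -/
theorem Ko1_pathA (a : ℕ → ℝ≥0∞) (p : ℕ → Prop) (hp : ∀ l l', p l → p l' → l = l') {R N n : ℕ}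
    (hR : R ≤ n) :
    (∑ l ∈ Finset.range (N + 1), ind (p l ∧ l ≤ R) * a l) +
      ∑ j ∈ Finset.range n, ind ((∃ l ≤ j, l ≤ N ∧ p l) ∧ j < R) * a (j + 1) ≤
    (∑ l ∈ Finset.range (N + 1), ind (p l ∧ l ≤ R) * a R) +
      ∑ j ∈ Finset.range n, ind ((∃ l ≤ j, l ≤ N ∧ p l) ∧ j < R) * a j := by
  by_cases hex : ∃ l, l ≤ N ∧ l ≤ R ∧ p l
  · obtain ⟨l0, h1, h2, h3⟩ := hex
    have hb : ∀ j < n, (((∃ l ≤ j, l ≤ N ∧ p l) ∧ j < R) ↔ l0 ≤ j ∧ j < R) := by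
      intro j _
      constructor
      · rintro ⟨⟨l, hl, _, hl'⟩, hj⟩
        have := hp l l0 hl' h3
        subst this
        exact ⟨hl, hj⟩
      · rintro ⟨hj1, hj2⟩
        exact ⟨⟨l0, hj1, h1, h3⟩, hj2⟩
    rw [Ko1_sum_ind (fun j => a (j + 1)) hR hb, Ko1_sum_ind a hR hb]
    have hs : ∀ f : ℕ → ℝ≥0∞, ∑ l ∈ Finset.range (N + 1), ind (p l ∧ l ≤ R) * f l = f l0 := by
      intro f
      rw [Finset.sum_eq_single l0]
      · rw [Ko1_ind_true ⟨h3, h2⟩, one_mul]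
      · intro l _ hl
        rw [Ko1_ind_false (fun h => hl (hp l l0 h.1 h3)), zero_mul]
      · intro h
        exact absurd (Finset.mem_range.2 (by omega)) h
    rw [hs a, hs (fun _ => a R)]
    exact (Ko1_tele a h2).le
  · have hb : ∀ j < n, ¬ ((∃ l ≤ j, l ≤ N ∧ p l) ∧ j < R) := by
      rintro j _ ⟨⟨l, hl, hlN, hl'⟩, hj⟩
      exact hex ⟨l, hlN, by omega, hl'⟩
    rw [Ko1_sum_zero (fun j => a (j + 1)) hb, Ko1_sum_zero a hb, add_zero, add_zero,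
      Ko1_sum_zero a (n := N + 1)]
    · exact zero_le
    · rintro l hl ⟨h1, h2⟩
      exact hex ⟨l, by omega, h2, h1⟩

/-- pathwise inequality for `R < σ ≤ N` -/
theorem Ko1_pathB (a : ℕ → ℝ≥0∞) (H Q : ℕ → Prop) (Bp : Prop) {R N n : ℕ} (hN : N ≤ n)
    (hB : ∀ l ≤ N, FirstHit H l → Q l → Bp) :
    (∑ l ∈ Finset.range (N + 1), ind ((FirstHit H l ∧ Q l) ∧ R < l) * a l) +
      ∑ j ∈ Finset.range n, ind (R ≤ j ∧ (∀ i ≤ j, ¬ H i) ∧ Bp ∧ j < N) * a j ≤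
    ind (Bp ∧ ∀ i ≤ R, ¬ H i) * a R +
      ∑ j ∈ Finset.range n, ind (R ≤ j ∧ (∀ i ≤ j, ¬ H i) ∧ Bp ∧ j < N) * a (j + 1) := by
  classical
  by_cases hc : Bp ∧ (∀ i ≤ R, ¬ H i) ∧ R < N
  · obtain ⟨hBp, hno, hRN⟩ := hc
    have hexT : ∃ j, H j ∨ N ≤ j := ⟨N, Or.inr le_rfl⟩
    set T := Nat.find hexT with hT
    have hT1 : H T ∨ N ≤ T := Nat.find_spec hexT
    have hT2 : ∀ j < T, ¬ H j ∧ j < N := by
      intro j hj
      have := Nat.find_min hexT hj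
      rw [not_or, not_le] at this
      exact this
    have hTN : T ≤ N := Nat.find_min' hexT (Or.inr le_rfl)
    have hRT : R < T := by
      by_contra hcon
      rw [not_lt] at hcon
      rcases hT1 with h | h
      · exact hno T hcon h
      · omega
    have hb : ∀ j < n, ((R ≤ j ∧ (∀ i ≤ j, ¬ H i) ∧ Bp ∧ j < N) ↔ R ≤ j ∧ j < T) := by
      intro j _
      constructor
      · rintro ⟨h1, h2, _, h4⟩
        refine ⟨h1, ?_⟩
        by_contra hcon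
        rw [not_lt] at hcon
        rcases hT1 with h | h
        · exact h2 T hcon h
        · omega
      · rintro ⟨h1, h2⟩
        exact ⟨h1, fun i hi => (hT2 i (lt_of_le_of_lt hi h2)).1, hBp, (hT2 j h2).2⟩
    rw [Ko1_sum_ind (fun j => a (j + 1)) (hTN.trans hN) hb, Ko1_sum_ind a (hTN.trans hN) hb,
      Ko1_ind_true ⟨hBp, hno⟩, one_mul, Ko1_tele a hRT.le]
    refine add_le_add ?_ le_rfl
    have hle : ∀ l ∈ Finset.range (N + 1), ind ((FirstHit H l ∧ Q l) ∧ R < l) * a l ≤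
        if l = T then a T else 0 := by
      intro l hl
      have hl' := Finset.mem_range.1 hl
      by_cases h : (FirstHit H l ∧ Q l) ∧ R < l
      · have hlT : l = T := by
          have h1 : T ≤ l := Nat.find_min' hexT (Or.inl h.1.1.1)
          rcases Nat.lt_or_ge T l with h2 | h2
          · exfalso
            rcases hT1 with h3 | h3
            · exact h.1.1.2 T h2 h3
            · omega
          · omega
        rw [if_pos hlT, Ko1_ind_true h, one_mul, hlT]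
      · rw [Ko1_ind_false h, zero_mul]
        exact zero_le
    refine (Finset.sum_le_sum hle).trans ?_
    rw [Finset.sum_ite_eq' (Finset.range (N + 1)) T (fun _ => a T),
      if_pos (Finset.mem_range.2 (by omega))]
  · have hb : ∀ j < n, ¬ (R ≤ j ∧ (∀ i ≤ j, ¬ H i) ∧ Bp ∧ j < N) := by
      rintro j _ ⟨h1, h2, h3, h4⟩
      exact hc ⟨h3, fun i hi => h2 i (hi.trans h1), lt_of_le_of_lt h1 h4⟩
    rw [Ko1_sum_zero (fun j => a (j + 1)) hb, Ko1_sum_zero a hb, add_zero, add_zero,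
      Ko1_sum_zero a (n := N + 1)]
    · exact zero_le
    · rintro l hl ⟨⟨h1, h2⟩, h3⟩
      exact hc ⟨hB l (by omega) h1 h2, fun i hi => h1.2 i (lt_of_le_of_lt hi h3), by omega⟩

/-- the sequences depend on the first steps only -/
theorem Ko1_seq_dep (m : E d → ℝ → V) (W : E d → ℝ → ℝ≥0∞) (x : E d) (r : ℝ) {l : ℕ} {ω ω' : ℕ → St d}
    (h : ∀ i < l, ω i = ω' i) : ∀ i ≤ l, av m x r ω i = av m x r ω' i ∧ wv W x r ω i = wv W x r ω' i := by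
  intro i hi
  exact ⟨av_dep m x r i ω ω' (fun j hj => h j (lt_of_lt_of_le hj hi)),
    wv_dep W x r i ω ω' (fun j hj => h j (lt_of_lt_of_le hj hi))⟩

/-- hits depend on the first steps only -/
theorem Ko1_hit_dep (m : E d → ℝ → V) (W : E d → ℝ → ℝ≥0∞) (κ A : ℝ≥0∞) {l : ℕ} {ω ω' : ℕ → St d}
    (h : ∀ i < l, ω i = ω' i) : ∀ i ≤ l,
      (Hit κ A (av m 0 1 ω) (wv W 0 1 ω) (av m 0 1 ω 0) i ↔
        Hit κ A (av m 0 1 ω') (wv W 0 1 ω') (av m 0 1 ω' 0) i) := by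
  intro i hi
  have hs := Ko1_seq_dep m W 0 1 h
  unfold Hit Good
  rw [(hs 0 (Nat.zero_le l)).1, (hs i hi).1, (hs i hi).2]

theorem Ko1_first_dep (m : E d → ℝ → V) (W : E d → ℝ → ℝ≥0∞) (κ A : ℝ≥0∞) {l : ℕ} {ω ω' : ℕ → St d}
    (h : ∀ i < l, ω i = ω' i) : ∀ i ≤ l,
      ((FirstHit (Hit κ A (av m 0 1 ω) (wv W 0 1 ω) (av m 0 1 ω 0)) i ∧
          ∀ j < i, κ * wv W 0 1 ω j ≤ A * av m 0 1 ω 0) ↔
        (FirstHit (Hit κ A (av m 0 1 ω') (wv W 0 1 ω') (av m 0 1 ω' 0)) i ∧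
          ∀ j < i, κ * wv W 0 1 ω' j ≤ A * av m 0 1 ω' 0)) := by
  intro i hi
  have hh := Ko1_hit_dep m W κ A h
  have hs := Ko1_seq_dep m W 0 1 h
  unfold FirstHit
  rw [hh i hi, (hs 0 (Nat.zero_le l)).1]
  have e1 : (∀ j < i, ¬ Hit κ A (av m 0 1 ω) (wv W 0 1 ω) (av m 0 1 ω' 0) j) ↔
      (∀ j < i, ¬ Hit κ A (av m 0 1 ω') (wv W 0 1 ω') (av m 0 1 ω' 0) j) := by
    refine forall₂_congr fun j hj => not_congr ?_
    have := hh j (hj.le.trans hi)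
    rw [(hs 0 (Nat.zero_le l)).1] at this
    exact this
  have e2 : (∀ j < i, κ * wv W 0 1 ω j ≤ A * av m 0 1 ω' 0) ↔
      (∀ j < i, κ * wv W 0 1 ω' j ≤ A * av m 0 1 ω' 0) := by
    refine forall₂_congr fun j hj => ?_
    rw [(hs j (hj.le.trans hi)).2]
  rw [e1, e2]

/-- Comparison of the first hit `σ` with the resolution time `R`. On `{σ ≤ R}`: `E[a_σ; ..] ≤ E[a_R; ..]` (`osi_lower`, `b_j` = `σ ≤ j < R` and the side
condition at `σ`), on `{R < σ ≤ N}`: `E[a_σ; ..] ≤ E[a_R; B(XR), R < σ] + E ∑_{R ≤ j < σ} γ` (`osi_upper`, `b_j` = `R ≤ j`, no hit up to `j`, `B(XR)`, `j < N`). -/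
theorem K1_le {m : E d → ℝ → V} (hm : RefEq m) (W : E d → ℝ → ℝ≥0∞) (κ A : ℝ≥0∞) {N : ℕ} {s : E d → ℝ} (hs : ResFun N s)
    {J3 J : ℕ} (hJ : J3 ≤ J) (B : E d → Prop)
    (hB : ∀ ω : ℕ → St d, ∀ l ≤ N, FirstHit (Hit κ A (av m 0 1 ω) (wv W 0 1 ω) (av m 0 1 ω 0)) l →
      (∀ j < l, κ * wv W 0 1 ω j ≤ A * av m 0 1 ω 0) → B (XR s (1 / 2 ^ J3) 0 1 ω)) :
    Ex N (fun ω : ℕ → St d => K1 κ A (av m 0 1 ω) (wv W 0 1 ω) N)
      ≤ Ex (N + J) (fun ω : ℕ → St d => ind (B (XR s (1 / 2 ^ J3) 0 1 ω)) *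
            ‖m (XR s (1 / 2 ^ J3) 0 1 ω) (ρR s (1 / 2 ^ J3) 0 1 ω)‖ₑ)
        + Ex (N + J) (fun ω : ℕ → St d => K2 κ A (av m 0 1 ω) (wv W 0 1 ω) (wv (gamE m) 0 1 ω) N J) := by
  have h11 : (1 : ℝ) ≤ 2 ^ 0 := by norm_num
  have hRle : ∀ ω : ℕ → St d, Rl s (1 / 2 ^ J3) 0 1 ω ≤ N + J := by
    intro ω
    have := Rl_le hs J3 0 (0 : E d) h11 ω
    omega
  have hR1 : ∀ l, Dep l (fun ω : ℕ → St d => (Rl s (1 / 2 ^ J3) 0 1 ω = l)) := fun l =>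
    (Rl_dep hs J3 0 (0 : E d) h11 l).1
  have hR2 : ∀ l, Dep l (fun ω : ℕ → St d => (l < Rl s (1 / 2 ^ J3) 0 1 ω)) := fun l =>
    (Rl_dep hs J3 0 (0 : E d) h11 l).2
  -- abbreviations
  set p : (ℕ → St d) → ℕ → Prop := fun ω l =>
    FirstHit (Hit κ A (av m 0 1 ω) (wv W 0 1 ω) (av m 0 1 ω 0)) l ∧
      ∀ j < l, κ * wv W 0 1 ω j ≤ A * av m 0 1 ω 0 with hp
  have hpuniq : ∀ ω l l', p ω l → p ω l' → l = l' := by
    intro ω l l' h h'
    rcases Nat.lt_trichotomy l l' with hlt | heq | hgt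
    · exact absurd h.1.1 (h'.1.2 l hlt)
    · exact heq
    · exact absurd h'.1.1 (h.1.2 l' hgt)
  -- dependence of `K1`
  have hK1 : Ex N (fun ω : ℕ → St d => K1 κ A (av m 0 1 ω) (wv W 0 1 ω) N) =
      Ex (N + J) (fun ω : ℕ → St d => K1 κ A (av m 0 1 ω) (wv W 0 1 ω) N) := by
    refine (Ex_dep (Nat.le_add_right N J) ?_).symm
    intro ω ω' h
    have hsd := Ko1_seq_dep m W 0 1 h
    simp only [K1]
    refine Finset.sum_congr rfl fun l hl => ?_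
    have hl' : l ≤ N := Nat.lt_succ_iff.1 (Finset.mem_range.1 hl)
    rw [(hsd l hl').1, propext (Ko1_first_dep m W κ A h l hl')]
  -- part A
  have stepA := osi_lower hm (0 : E d) one_pos (N + J)
    (fun j ω => (∃ l ≤ j, l ≤ N ∧ p ω l) ∧ j < Rl s (1 / 2 ^ J3) 0 1 ω)
    (by
      intro j _ ω ω' h
      have e1 : (∃ l ≤ j, l ≤ N ∧ p ω l) ↔ (∃ l ≤ j, l ≤ N ∧ p ω' l) := by
        constructor
        · rintro ⟨l, h1, h2, h3⟩
          exact ⟨l, h1, h2, (Ko1_first_dep m W κ A h l h1).1 h3⟩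
        · rintro ⟨l, h1, h2, h3⟩
          exact ⟨l, h1, h2, (Ko1_first_dep m W κ A h l h1).2 h3⟩
      have e2 := hR2 j ω ω' h
      simp only at e2
      show (_ ∧ _) = (_ ∧ _)
      rw [propext e1, e2])
    (fun ω => ∑ l ∈ Finset.range (N + 1), ind (p ω l ∧ l ≤ Rl s (1 / 2 ^ J3) 0 1 ω) * av m 0 1 ω l)
    (fun ω => ∑ l ∈ Finset.range (N + 1), ind (p ω l ∧ l ≤ Rl s (1 / 2 ^ J3) 0 1 ω) *
      av m 0 1 ω (Rl s (1 / 2 ^ J3) 0 1 ω))
    (fun ω => Ko1_pathA (av m 0 1 ω) (p ω) (hpuniq ω) (hRle ω))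
  -- part B
  have stepB := osi_upper hm (0 : E d) one_pos (N + J)
    (fun j ω => Rl s (1 / 2 ^ J3) 0 1 ω ≤ j ∧
      (∀ i ≤ j, ¬ Hit κ A (av m 0 1 ω) (wv W 0 1 ω) (av m 0 1 ω 0) i) ∧
      B (XR s (1 / 2 ^ J3) 0 1 ω) ∧ j < N)
    (by
      intro j _
      have key : ∀ ω ω' : ℕ → St d, (∀ i < j, ω i = ω' i) →
          (Rl s (1 / 2 ^ J3) 0 1 ω ≤ j ∧
            (∀ i ≤ j, ¬ Hit κ A (av m 0 1 ω) (wv W 0 1 ω) (av m 0 1 ω 0) i) ∧
            B (XR s (1 / 2 ^ J3) 0 1 ω) ∧ j < N) →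
          (Rl s (1 / 2 ^ J3) 0 1 ω' ≤ j ∧
            (∀ i ≤ j, ¬ Hit κ A (av m 0 1 ω') (wv W 0 1 ω') (av m 0 1 ω' 0) i) ∧
            B (XR s (1 / 2 ^ J3) 0 1 ω') ∧ j < N) := by
        rintro ω ω' h ⟨h1, h2, h3, h4⟩
        have hl : ∀ i < Rl s (1 / 2 ^ J3) 0 1 ω, ω i = ω' i := fun i hi => h i (lt_of_lt_of_le hi h1)
        have e1 := hR1 (Rl s (1 / 2 ^ J3) 0 1 ω) ω ω' hl
        simp only [true_iff, eq_iff_iff] at e1
        have e2 : XR s (1 / 2 ^ J3) 0 1 ω' = XR s (1 / 2 ^ J3) 0 1 ω := by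
          unfold XR
          rw [e1, Zp_dep _ ω ω' hl]
        refine ⟨by rw [e1]; exact h1, ?_, by rw [e2]; exact h3, h4⟩
        intro i hi hh
        exact h2 i hi ((Ko1_hit_dep m W κ A h i hi).2 hh)
      intro ω ω' h
      exact propext ⟨key ω ω' h, key ω' ω (fun i hi => (h i hi).symm)⟩)
    (fun ω => ∑ l ∈ Finset.range (N + 1), ind (p ω l ∧ Rl s (1 / 2 ^ J3) 0 1 ω < l) * av m 0 1 ω l)
    (fun ω => ind (B (XR s (1 / 2 ^ J3) 0 1 ω) ∧ ∀ i ≤ Rl s (1 / 2 ^ J3) 0 1 ω,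
        ¬ Hit κ A (av m 0 1 ω) (wv W 0 1 ω) (av m 0 1 ω 0) i) *
      av m 0 1 ω (Rl s (1 / 2 ^ J3) 0 1 ω))
    (fun ω => Ko1_pathB (av m 0 1 ω) (Hit κ A (av m 0 1 ω) (wv W 0 1 ω) (av m 0 1 ω 0))
      (fun l => ∀ j < l, κ * wv W 0 1 ω j ≤ A * av m 0 1 ω 0) _ (Nat.le_add_right N J)
      (fun l hl h1 h2 => hB ω l hl h1 h2))
  -- splitting of `K1`
  have hsplit : Ex (N + J) (fun ω : ℕ → St d => K1 κ A (av m 0 1 ω) (wv W 0 1 ω) N) ≤
      Ex (N + J) (fun ω => ∑ l ∈ Finset.range (N + 1),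
        ind (p ω l ∧ l ≤ Rl s (1 / 2 ^ J3) 0 1 ω) * av m 0 1 ω l) +
      Ex (N + J) (fun ω => ∑ l ∈ Finset.range (N + 1),
        ind (p ω l ∧ Rl s (1 / 2 ^ J3) 0 1 ω < l) * av m 0 1 ω l) := by
    rw [← Ex_add]
    refine Ex_mono _ fun ω => ?_
    unfold K1
    rw [← Finset.sum_add_distrib]
    refine Finset.sum_le_sum fun l _ => ?_
    rw [← add_mul]
    refine mul_le_mul_left ?_ _
    by_cases h : p ω l
    · rcases Nat.lt_or_ge (Rl s (1 / 2 ^ J3) 0 1 ω) l with h1 | h1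
      · rw [Ko1_ind_true (show _ ∧ _ from h), Ko1_ind_true (And.intro h h1)]
        exact le_add_self
      · rw [Ko1_ind_true (show _ ∧ _ from h), Ko1_ind_true (And.intro h h1)]
        exact le_self_add
    · rw [Ko1_ind_false (show ¬ (_ ∧ _) from h)]
      exact zero_le
  -- the values at the resolution time
  have hY : ∀ ω : ℕ → St d,
      (∑ l ∈ Finset.range (N + 1), ind (p ω l ∧ l ≤ Rl s (1 / 2 ^ J3) 0 1 ω) *
        av m 0 1 ω (Rl s (1 / 2 ^ J3) 0 1 ω)) +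
      ind (B (XR s (1 / 2 ^ J3) 0 1 ω) ∧ ∀ i ≤ Rl s (1 / 2 ^ J3) 0 1 ω,
        ¬ Hit κ A (av m 0 1 ω) (wv W 0 1 ω) (av m 0 1 ω 0) i) *
          av m 0 1 ω (Rl s (1 / 2 ^ J3) 0 1 ω) ≤
      ind (B (XR s (1 / 2 ^ J3) 0 1 ω)) *
        ‖m (XR s (1 / 2 ^ J3) 0 1 ω) (ρR s (1 / 2 ^ J3) 0 1 ω)‖ₑ := by
    intro ω
    show _ ≤ ind (B (XR s (1 / 2 ^ J3) 0 1 ω)) * av m 0 1 ω (Rl s (1 / 2 ^ J3) 0 1 ω)
    by_cases hex : ∃ l, l ≤ N ∧ l ≤ Rl s (1 / 2 ^ J3) 0 1 ω ∧ p ω l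
    · obtain ⟨l0, h1, h2, h3⟩ := hex
      rw [Finset.sum_eq_single l0]
      · rw [Ko1_ind_true (And.intro h3 h2), Ko1_ind_true (hB ω l0 h1 h3.1 h3.2),
          Ko1_ind_false (fun h => h.2 l0 h2 h3.1.1), zero_mul, add_zero]
      · intro l _ hl
        rw [Ko1_ind_false (fun h => hl (hpuniq ω l l0 h.1 h3)), zero_mul]
      · intro h
        exact absurd (Finset.mem_range.2 (by omega)) h
    · rw [Finset.sum_eq_zero]
      · rw [zero_add]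
        refine mul_le_mul_left ?_ _
        by_cases hb : B (XR s (1 / 2 ^ J3) 0 1 ω)
        · rw [Ko1_ind_true hb]
          unfold ind
          split_ifs
          · exact le_rfl
          · exact zero_le_one
        · rw [Ko1_ind_false (fun h => hb h.1)]
          exact zero_le
      · intro l hl
        rw [Ko1_ind_false, zero_mul]
        rintro ⟨h1, h2⟩
        exact hex ⟨l, Nat.lt_succ_iff.1 (Finset.mem_range.1 hl), h2, h1⟩
  -- the misalignment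
  have hG : ∀ ω : ℕ → St d, ∑ j ∈ Finset.range (N + J), ind (Rl s (1 / 2 ^ J3) 0 1 ω ≤ j ∧
      (∀ i ≤ j, ¬ Hit κ A (av m 0 1 ω) (wv W 0 1 ω) (av m 0 1 ω 0) i) ∧
      B (XR s (1 / 2 ^ J3) 0 1 ω) ∧ j < N) * wv (gamE m) 0 1 ω j ≤
      K2 κ A (av m 0 1 ω) (wv W 0 1 ω) (wv (gamE m) 0 1 ω) N J := by
    intro ω
    unfold K2
    refine Finset.sum_le_sum fun j _ => mul_le_mul_left ?_ _
    by_cases h : Rl s (1 / 2 ^ J3) 0 1 ω ≤ j ∧
      (∀ i ≤ j, ¬ Hit κ A (av m 0 1 ω) (wv W 0 1 ω) (av m 0 1 ω 0) i) ∧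
      B (XR s (1 / 2 ^ J3) 0 1 ω) ∧ j < N
    · rw [Ko1_ind_true h, Ko1_ind_true]
      intro i hi
      exact h.2.1 i (by omega)
    · rw [Ko1_ind_false h]
      exact zero_le
  rw [hK1]
  refine hsplit.trans ((add_le_add stepA stepB).trans ?_)
  rw [← add_assoc, ← Ex_add]
  exact add_le_add (Ex_mono _ hY) (Ex_mono _ hG)

end HG
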