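import Pool.Agent.W_MP_825298_an.Kr1

open MeasureTheory Set Filter Topology
open scoped ENNReal NNReal BigOperators

namespace HG
variable {d : ℕ}

theorem Kr2_lint_pk (hd : 1 ≤ d) : ∫⁻ y : E d, ENNReal.ofReal (pk y) = 1 := by
  have hcs : HasCompactSupport (pk (d := d)) := by
    refine HasCompactSupport.intro (isCompact_closedBall (0 : E d) 2) ?_
    intro y hy
    rw [mem_closedBall_zero_iff, not_le] at hy
    exact pk_zero hy.le hd
  have hint : Integrable (pk (d := d)) :=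
    pk_contDiff.continuous.integrable_of_hasCompactSupport hcs
  rw [← ofReal_integral_eq_lintegral_ofReal hint (Eventually.of_forall fun y => pk_nonneg y),
    pk_integral, ENNReal.ofReal_one]

theorem Kr2_scale {g : E d → ℝ≥0∞} (hg : Measurable g) :
    ∫⁻ y : E d, g ((8 : ℝ) • y) ≤ ∫⁻ y : E d, g y := by
  have h1 : ∫⁻ y : E d, g ((8 : ℝ) • y) =
      ∫⁻ y : E d, g y ∂(Measure.map (fun y : E d => (8 : ℝ) • y) volume) :=
    (lintegral_map hg (measurable_const_smul (8 : ℝ))).symm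
  rw [h1, Measure.map_addHaar_smul volume (by norm_num : (8 : ℝ) ≠ 0), lintegral_smul_measure,
    smul_eq_mul]
  refine (mul_le_mul_left ?_ _).trans (one_mul _).le
  rw [← ENNReal.ofReal_one]
  refine ENNReal.ofReal_le_ofReal ?_
  rw [abs_of_pos (by positivity)]
  exact inv_le_one_of_one_le₀ (one_le_pow₀ (by norm_num))

/-- Sum to integral, first form. For `‖y‖ ≤ 2` the point `z = XR + ρR y` satisfies `‖XR - z‖ ≤ 2 ρR ≤ 2 ε3 s(XR) ≤ 1`; so
`ind(‖XR‖≤5) α(XR) ≤ ∫ p(y) f(XR+ρR y) dy`, `f = ind(‖z‖≤6) β`; `opt_lint` and `∫ p(y) f(8y) dy ≤ ∫ f`. -/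
theorem SI1 (hd : 1 ≤ d) {N : ℕ} {s : E d → ℝ} (hs : ResFun N s) (J3 : ℕ) {α β : E d → ℝ≥0∞} (hβ : Measurable β)
    (hαβ : ∀ x z : E d, ‖x - z‖ ≤ 2 * (1 / 2 ^ J3) * s x → α x ≤ β z) {n : ℕ} (hn : N + J3 + 3 ≤ n) :
    Ex n (fun ω : ℕ → St d => ind (‖XR s (1 / 2 ^ J3) 0 8 ω‖ ≤ 5) * α (XR s (1 / 2 ^ J3) 0 8 ω))
      ≤ ∫⁻ z in Metric.closedBall (0 : E d) 6, β z := by
  have h8 : (8 : ℝ) ≤ 2 ^ 3 := by norm_num
  set f : E d → ℝ≥0∞ := (Metric.closedBall (0 : E d) 6).indicator β with hf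
  have hfm : Measurable f := hβ.indicator Metric.isClosed_closedBall.measurableSet
  have hopt := opt_lint hs J3 3 hfm (0 : E d) (by norm_num : (0 : ℝ) < 8) h8 hn
  have hfinal : ∫⁻ y : E d, ENNReal.ofReal (pk y) * f (0 + (8 : ℝ) • y) ≤
      ∫⁻ z in Metric.closedBall (0 : E d) 6, β z := by
    calc ∫⁻ y : E d, ENNReal.ofReal (pk y) * f (0 + (8 : ℝ) • y)
        ≤ ∫⁻ y : E d, f ((8 : ℝ) • y) := by
          refine lintegral_mono fun y => ?_
          rw [zero_add]
          refine (mul_le_mul_left ?_ _).trans (one_mul _).le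
          rw [← ENNReal.ofReal_one]
          exact ENNReal.ofReal_le_ofReal (pk_le_one y)
      _ ≤ ∫⁻ y : E d, f y := Kr2_scale hfm
      _ = ∫⁻ z in Metric.closedBall (0 : E d) 6, β z :=
          lintegral_indicator Metric.isClosed_closedBall.measurableSet _
  refine le_trans ?_ hfinal
  rw [← hopt]
  refine Ex_mono n fun ω => ?_
  set X := XR s (1 / 2 ^ J3) 0 8 ω with hX
  set ρ := ρR s (1 / 2 ^ J3) 0 8 ω with hρ
  have hspec : ρ ≤ 1 / 2 ^ J3 * s X := Rl_spec hs J3 3 0 h8 ω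
  have hρ0 : 0 ≤ ρ := by
    rw [hρ]
    unfold ρR
    positivity
  have hε0 : (0 : ℝ) < 1 / 2 ^ J3 := by positivity
  have hε1 : (1 : ℝ) / 2 ^ J3 ≤ 1 := by
    rw [div_le_one (by positivity)]
    exact one_le_pow₀ (by norm_num)
  have hsX0 : 0 ≤ s X := le_trans (by positivity) (hs.lower X)
  have hρ1 : ρ ≤ 1 / 4 := by
    refine hspec.trans ?_
    have h1 := hs.upper X
    nlinarith
  by_cases h5 : ‖X‖ ≤ 5
  · have hind : ind (‖X‖ ≤ 5) = 1 := by
      unfold ind
      rw [if_pos h5]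
    rw [hind, one_mul]
    calc α X = (∫⁻ y : E d, ENNReal.ofReal (pk y)) * α X := by rw [Kr2_lint_pk hd, one_mul]
      _ = ∫⁻ y : E d, ENNReal.ofReal (pk y) * α X := by
          rw [lintegral_mul_const _ (pk_contDiff.continuous.measurable.ennreal_ofReal)]
      _ ≤ ∫⁻ y : E d, ENNReal.ofReal (pk y) * f (X + ρ • y) := by
          refine lintegral_mono fun y => ?_
          by_cases hy : ‖y‖ ≤ 2
          · refine mul_le_mul_right ?_ _
            have h1 : ‖ρ • y‖ ≤ 2 * ρ := by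
              rw [norm_smul, Real.norm_of_nonneg hρ0]
              nlinarith
            have h2 : X + ρ • y ∈ Metric.closedBall (0 : E d) 6 := by
              rw [mem_closedBall_zero_iff]
              have := norm_add_le X (ρ • y)
              linarith
            rw [hf, indicator_of_mem h2]
            refine hαβ X (X + ρ • y) ?_
            have h3 : X - (X + ρ • y) = -(ρ • y) := by abel
            rw [h3, norm_neg]
            linarith
          · push Not at hy
            rw [pk_zero hy.le hd, ENNReal.ofReal_zero, zero_mul, zero_mul]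
  · have hind : ind (‖X‖ ≤ 5) = 0 := by
      unfold ind
      rw [if_neg h5]
    rw [hind, zero_mul]
    exact zero_le

end HG
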