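import Pool.Agent.W_MP_825298_an.Kr1
import Pool.Agent.W_MP_825298_an.Kb1

open MeasureTheory Set Filter Topology
open scoped ENNReal NNReal BigOperators

namespace HG
variable {d : ℕ}

theorem Kr3_ind_true {p : Prop} (h : p) : ind p = 1 := by
  unfold ind
  simp [h]

theorem Kr3_ind_false {p : Prop} (h : ¬ p) : ind p = 0 := by
  unfold ind
  simp [h]

theorem Kr3_pk_lint : ∫⁻ y : E d, ENNReal.ofReal (pk y) = 1 := by
  have hint : Integrable (fun y : E d => pk y) := by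
    by_contra h
    have h1 := pk_integral (d := d)
    rw [integral_undef h] at h1
    exact zero_ne_one h1
  rw [← ofReal_integral_eq_lintegral_ofReal hint (ae_of_all _ fun y => pk_nonneg y), pk_integral,
    ENNReal.ofReal_one]

theorem Kr3_scale {f : E d → ℝ≥0∞} (hf : Measurable f) :
    ∫⁻ y : E d, f ((0 : E d) + (8 : ℝ) • y) ≤ ∫⁻ y : E d, f y := by
  have h8 : Measurable (fun y : E d => (8 : ℝ) • y) := (continuous_const_smul (8 : ℝ)).measurable
  have h1 : ∫⁻ y : E d, f ((0 : E d) + (8 : ℝ) • y) =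
      ∫⁻ y : E d, f y ∂(Measure.map (fun y : E d => (8 : ℝ) • y) volume) := by
    rw [lintegral_map hf h8]
    simp only [zero_add]
  rw [h1, Measure.map_addHaar_smul volume (by norm_num : (8 : ℝ) ≠ 0), lintegral_smul_measure]
  have h2 : ENNReal.ofReal |((8 : ℝ) ^ Module.finrank ℝ (E d))⁻¹| ≤ 1 := by
    rw [← ENNReal.ofReal_one]
    apply ENNReal.ofReal_le_ofReal
    rw [abs_of_nonneg (by positivity)]
    exact inv_le_one_of_one_le₀ (one_le_pow₀ (by norm_num))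
  calc _ ≤ 1 * ∫⁻ y : E d, f y := mul_le_mul_left h2 _
    _ = _ := one_mul _

/-- vertical integrals of the field -/
noncomputable def Kr3_G (φ : E d → ℝ) (F : Ix d → P d → ℝ) (a : ℝ) (y : E d) : ℝ≥0∞ :=
  ∫⁻ τ in Ioc (0 : ℝ) a, ENNReal.ofReal (nF F (y, φ y + τ))

theorem Kr3_G_measurable {M : ℝ≥0} {φ : E d → ℝ} {U : Set (P d)} {F : Ix d → P d → ℝ}
    (h : GFd M φ U F) (a : ℝ) : Measurable (Kr3_G φ F a) := by
  have h1 : Kr3_G φ F a = fun y => ∫⁻ τ in Ioc (0 : ℝ) a,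
      ENNReal.ofReal (nF F (y, φ y + max τ 0)) := by
    funext y
    unfold Kr3_G
    refine setLIntegral_congr_fun measurableSet_Ioc fun τ hτ => ?_
    simp only [max_eq_left hτ.1.le]
  rw [h1]
  have h2 : Continuous (fun p : E d × ℝ => nF F (p.1, φ p.1 + max p.2 0)) := by
    unfold nF
    refine continuous_finsetSum _ fun b _ => Continuous.abs ?_
    have h3 : ContinuousOn (F b) U := (h.fld.cd b).continuousOn
    refine h3.comp_continuous (f := fun p : E d × ℝ => ((p.1, φ p.1 + max p.2 0) : P d)) ?_ ?_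
    · exact continuous_fst.prodMk ((h.lip.continuous.comp continuous_fst).add
        (continuous_snd.max continuous_const))
    · intro p
      apply h.sub
      change φ p.1 ≤ φ p.1 + max p.2 0
      linarith [le_max_right p.2 0]
  have h4 : Measurable (fun p : E d × ℝ => ENNReal.ofReal (nF F (p.1, φ p.1 + max p.2 0))) :=
    ENNReal.measurable_ofReal.comp h2.measurable
  exact h4.lintegral_prod_right'

theorem Kr3_G_mono {φ : E d → ℝ} {F : Ix d → P d → ℝ} {a a' : ℝ} (h : a ≤ a') (y : E d) :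
    Kr3_G φ F a y ≤ Kr3_G φ F a' y :=
  lintegral_mono_set (Ioc_subset_Ioc_right h)

/-- joint measurability of the integrals over balls -/
theorem Kr3_ball_measurable {G : E d → ℝ≥0∞} (hG : Measurable G) (b : ℝ) :
    Measurable (fun p : E d × E d => (Metric.closedBall p.1 b).indicator G p.2) := by
  have h1 : (fun p : E d × E d => (Metric.closedBall p.1 b).indicator G p.2) =
      {p : E d × E d | dist p.2 p.1 ≤ b}.indicator (fun p => G p.2) := by
    funext p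
    by_cases hp : dist p.2 p.1 ≤ b
    · rw [indicator_of_mem (show p.2 ∈ Metric.closedBall p.1 b from hp),
        indicator_of_mem (show p ∈ {p : E d × E d | dist p.2 p.1 ≤ b} from hp)]
    · rw [indicator_of_notMem (show p.2 ∉ Metric.closedBall p.1 b from hp),
        indicator_of_notMem (show p ∉ {p : E d × E d | dist p.2 p.1 ≤ b} from hp)]
  rw [h1]
  exact (hG.comp measurable_snd).indicator
    (measurableSet_le (measurable_snd.dist measurable_fst) measurable_const)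

theorem Kr3_ballint_measurable {G : E d → ℝ≥0∞} (hG : Measurable G) (b : ℝ) :
    Measurable (fun z : E d => ∫⁻ y in Metric.closedBall z b, G y) := by
  have h1 : (fun z : E d => ∫⁻ y in Metric.closedBall z b, G y) =
      fun z => ∫⁻ y, (Metric.closedBall z b).indicator G y := by
    funext z
    rw [lintegral_indicator Metric.isClosed_closedBall.measurableSet]
  rw [h1]
  exact (Kr3_ball_measurable hG b).lintegral_prod_right'

/-- Tonelli for integrals over balls -/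
theorem Kr3_tonelli {G : E d → ℝ≥0∞} (hG : Measurable G) (z' : E d) (a : ℝ) {b : ℝ} (hb : 0 ≤ b) :
    ∫⁻ z in Metric.closedBall z' a, ∫⁻ y in Metric.closedBall z b, G y ≤
      ENNReal.ofReal ((2 * b) ^ d) * ∫⁻ y in Metric.closedBall z' (a + b), G y := by
  have h1 : ∀ z : E d, ∫⁻ y in Metric.closedBall z b, G y =
      ∫⁻ y, (Metric.closedBall z b).indicator G y := fun z => by
    rw [lintegral_indicator Metric.isClosed_closedBall.measurableSet]
  simp only [h1]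
  rw [lintegral_lintegral_swap (Kr3_ball_measurable hG b).aemeasurable,
    ← lintegral_const_mul _ hG, ← lintegral_indicator Metric.isClosed_closedBall.measurableSet]
  refine lintegral_mono fun y => ?_
  by_cases hy : y ∈ Metric.closedBall z' (a + b)
  · rw [indicator_of_mem hy]
    calc ∫⁻ z in Metric.closedBall z' a, (Metric.closedBall z b).indicator G y
        ≤ ∫⁻ z, (Metric.closedBall z b).indicator G y := setLIntegral_le_lintegral _ _
      _ = ∫⁻ z, (Metric.closedBall y b).indicator (fun _ => G y) z := by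
          refine lintegral_congr fun z => ?_
          by_cases hz : z ∈ Metric.closedBall y b
          · rw [indicator_of_mem hz, indicator_of_mem]
            rw [Metric.mem_closedBall, dist_comm]
            exact hz
          · rw [indicator_of_notMem hz, indicator_of_notMem]
            rw [Metric.mem_closedBall, dist_comm]
            exact hz
      _ = ENNReal.ofReal ((2 * b) ^ d) * G y := by
          rw [lintegral_indicator_const Metric.isClosed_closedBall.measurableSet,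
            Real.volume_pi_closedBall _ hb, Fintype.card_fin, mul_comm]
  · rw [indicator_of_notMem hy, nonpos_iff_eq_zero]
    refine setLIntegral_eq_zero Metric.isClosed_closedBall.measurableSet fun z hz => ?_
    rw [Pi.zero_apply, indicator_of_notMem]
    intro hyz
    apply hy
    rw [Metric.mem_closedBall] at hz hyz ⊢
    linarith [dist_triangle y z z']

theorem Kr3_pk_measurable : Measurable (fun y : E d => ENNReal.ofReal (pk y)) :=
  ENNReal.measurable_ofReal.comp pk_contDiff.continuous.measurable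

theorem Kr3_slip {N : ℕ} {s : E d → ℝ} (hs : ResFun N s) (x y : E d) :
    s x ≤ s y + ‖x - y‖ / 4 := by
  have h := hs.lip.dist_le_mul x y
  rw [Real.dist_eq, dist_eq_norm] at h
  have h1 : ((1 / 4 : ℝ≥0) : ℝ) = 1 / 4 := by norm_num
  rw [h1] at h
  linarith [le_abs_self (s x - s y)]

theorem Kr3_spos {N : ℕ} {s : E d → ℝ} (hs : ResFun N s) (x : E d) : 0 < s x :=
  lt_of_lt_of_le (by positivity) (hs.lower x)

theorem Kr3_G_le_weight (φ : E d → ℝ) (F : Ix d → P d → ℝ) {a b : ℝ} (hab : a ≤ b)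
    (y : E d) : Kr3_G φ F a y ≤ ENNReal.ofReal (a ^ (1 / 2 : ℝ)) *
      ∫⁻ τ in Ioc (0 : ℝ) b, ENNReal.ofReal (nF F (y, φ y + τ) * τ ^ (-(1 / 2) : ℝ)) := by
  have h1 : Kr3_G φ F a y ≤ ∫⁻ τ in Ioc (0 : ℝ) a, ENNReal.ofReal (a ^ (1 / 2 : ℝ)) *
      ENNReal.ofReal (nF F (y, φ y + τ) * τ ^ (-(1 / 2) : ℝ)) := by
    refine setLIntegral_mono' measurableSet_Ioc fun τ hτ => ?_
    have hτ0 : 0 < τ := hτ.1
    have ha : 0 < a := lt_of_lt_of_le hτ0 hτ.2
    rw [← ENNReal.ofReal_mul (by positivity)]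
    apply ENNReal.ofReal_le_ofReal
    have hn : 0 ≤ nF F (y, φ y + τ) := Finset.sum_nonneg fun _ _ => abs_nonneg _
    have h2 : 1 ≤ a ^ (1 / 2 : ℝ) * τ ^ (-(1 / 2) : ℝ) := by
      rw [Real.rpow_neg hτ0.le, ← div_eq_mul_inv, one_le_div (by positivity)]
      exact Real.rpow_le_rpow hτ0.le hτ.2 (by norm_num)
    nlinarith
  refine h1.trans ?_
  rw [lintegral_const_mul' _ _ ENNReal.ofReal_ne_top]
  gcongr

/-- pointwise bound for the box averages on a neighbourhood -/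
theorem Kr3_box (φ : E d → ℝ) (F : Ix d → P d → ℝ) {c : ℝ} (hc : 0 ≤ c) {X z : E d} {ρ σ : ℝ}
    (hσ : 0 < σ) (h1 : σ / 4 ≤ ρ) (h2 : ρ ≤ 2 * σ) (hz : ‖z - X‖ ≤ 4 * σ) :
    ENNReal.ofReal ρ * wE φ F c X ρ ≤ ENNReal.ofReal (((σ / 4) ^ d)⁻¹) *
      ∫⁻ y in Metric.closedBall z ((2 * c + 4) * σ), Kr3_G φ F (2 * c * σ) y := by
  have hρ : 0 < ρ := lt_of_lt_of_le (by positivity) h1
  unfold wE
  rw [← mul_assoc, ← ENNReal.ofReal_mul hρ.le]
  refine mul_le_mul' (ENNReal.ofReal_le_ofReal ?_) ?_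
  · rw [pow_succ, mul_inv]
    have : ρ * ((ρ ^ d)⁻¹ * ρ⁻¹) = (ρ ^ d)⁻¹ := by field_simp
    rw [this]
    exact inv_anti₀ (by positivity) (pow_le_pow_left₀ (by positivity) h1 d)
  · have hcρ : c * ρ ≤ 2 * c * σ := by nlinarith
    refine (lintegral_mono_set ?_).trans (lintegral_mono fun y => Kr3_G_mono hcρ y)
    refine Metric.closedBall_subset_closedBall' ?_
    rw [dist_comm, dist_eq_norm]
    nlinarith

theorem Kr3_point (hd : 1 ≤ d) {φ : E d → ℝ} {F : Ix d → P d → ℝ} {c : ℝ} (hc : 0 ≤ c) {N : ℕ}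
    {s : E d → ℝ} (hs : ResFun N s) {J3 : ℕ} (hJ : (1 / 2 ^ J3 : ℝ) ≤ 1 / 120) (z' : E d)
    (ω : ℕ → St d) :
    ind (‖XR s (1 / 2 ^ J3) 0 8 ω - z'‖ ≤ s z' / 6) *
        (ENNReal.ofReal (ρR s (1 / 2 ^ J3) 0 8 ω) *
          wE φ F c (XR s (1 / 2 ^ J3) 0 8 ω) (ρR s (1 / 2 ^ J3) 0 8 ω)) ≤
      ∫⁻ y : E d, ENNReal.ofReal (pk y) * (Metric.closedBall z' (s z' / 5)).indicator
        (fun z => ENNReal.ofReal (((1 / 2 ^ J3 * s z' / 4) ^ d)⁻¹) *
          ∫⁻ y in Metric.closedBall z ((2 * c + 4) * (1 / 2 ^ J3 * s z')),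
            Kr3_G φ F (2 * c * (1 / 2 ^ J3 * s z')) y)
        (XR s (1 / 2 ^ J3) 0 8 ω + ρR s (1 / 2 ^ J3) 0 8 ω • y) := by
  by_cases hev : ‖XR s (1 / 2 ^ J3) 0 8 ω - z'‖ ≤ s z' / 6
  swap
  · rw [Kr3_ind_false hev, zero_mul]
    exact zero_le
  rw [Kr3_ind_true hev, one_mul]
  have h8 : (8 : ℝ) ≤ 2 ^ 3 := by norm_num
  have e1 := Rl_spec hs J3 3 0 h8 ω
  have hε : (0 : ℝ) < 1 / 2 ^ J3 := by positivity
  have h0 : 1 / 2 ^ J3 * s 0 < 8 := by
    have := hs.upper 0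
    have := Kr3_spos hs 0
    nlinarith
  have e2 := ρR_lower hs J3 3 0 (by norm_num : (0 : ℝ) < 8) h8 h0 ω
  have hρ : 0 < ρR s (1 / 2 ^ J3) 0 8 ω := by unfold ρR; positivity
  set X := XR s (1 / 2 ^ J3) 0 8 ω with hX
  set ρ := ρR s (1 / 2 ^ J3) 0 8 ω with hρdef
  set ε : ℝ := 1 / 2 ^ J3 with hεdef
  set s' := s z' with hs'
  have hs0 : 0 < s' := Kr3_spos hs z'
  have e3 : s X ≤ s' + ‖X - z'‖ / 4 := Kr3_slip hs X z'
  have e4 : s' ≤ s X + ‖X - z'‖ / 4 := by
    have := Kr3_slip hs z' X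
    rwa [norm_sub_rev] at this
  have e5 : ε * s' / 4 ≤ ρ := by nlinarith
  have e6 : ρ ≤ 2 * (ε * s') := by nlinarith
  calc ENNReal.ofReal ρ * wE φ F c X ρ
      = ∫⁻ y : E d, ENNReal.ofReal (pk y) * (ENNReal.ofReal ρ * wE φ F c X ρ) := by
        rw [lintegral_mul_const _ Kr3_pk_measurable, Kr3_pk_lint, one_mul]
    _ ≤ _ := by
        refine lintegral_mono fun y => ?_
        by_cases hy : 2 ≤ ‖y‖
        · simp only [pk_zero hy hd, ENNReal.ofReal_zero, zero_mul]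
          exact le_rfl
        · push Not at hy
          refine mul_le_mul_right ?_ _
          have h3 : ‖ρ • y‖ ≤ 2 * ρ := by
            rw [norm_smul, Real.norm_eq_abs, abs_of_pos hρ]
            nlinarith
          have h4 : X + ρ • y ∈ Metric.closedBall z' (s' / 5) := by
            rw [Metric.mem_closedBall, dist_eq_norm]
            calc ‖X + ρ • y - z'‖ = ‖(X - z') + ρ • y‖ := by congr 1; abel
              _ ≤ ‖X - z'‖ + ‖ρ • y‖ := norm_add_le _ _
              _ ≤ s' / 5 := by nlinarith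
          rw [indicator_of_mem h4]
          refine Kr3_box φ F hc (by positivity) e5 e6 ?_
          rw [add_sub_cancel_left]
          linarith

/-- Local form. Let `s' = s z'`, `ε = 1/2^J3`. On the event `‖XR-z'‖ ≤ s'/6` one has `ρR ∈ [ε s'/4, 2ε s']`, hence
`ρR wE(XR,ρR) ≤ V(XR) := (ε s'/4)^{-d} ∫_{‖y-XR‖≤2c0 ε s'} ∫_{0<τ≤2 c0 ε s'} |F|`, and `V(XR) ≤ V⁺(z)` for `‖z-XR‖ ≤ 2ρR`, `V⁺` the same integral over
`‖y-z‖ ≤ (2c0+4) ε s'`.  By `opt_lint` the left side is `≤ ∫_{‖z-z'‖≤s'/5} V⁺(z) dz ≤ C ∫_{‖y-z'‖≤s'/4} ∫_{0<τ≤2c0 ε s'} |F|` (Tonelli)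
`≤ C (2 c0 ε s')^{1/2} ∫_{‖y-z'‖≤s'/4}∫_{0<τ≤s'} |F| τ^{-1/2} ≤ C ε^{1/2} s'^{1/2} s'^{d+1/2} B`. -/
theorem LL (hd : 1 ≤ d) (M : ℝ≥0) : ∃ C : ℝ, 0 < C ∧ ∃ J30 : ℕ, ∀ (φ : E d → ℝ) (U : Set (P d)) (F : Ix d → P d → ℝ), GFd M φ U F →
    ∀ (N J3 : ℕ) (s : E d → ℝ), ResFun N s → J30 ≤ J3 → ∀ B : ℝ, 0 ≤ B → WBP φ F s B → ∀ z' : E d, ‖z'‖ ≤ 7 →
    ∀ n : ℕ, N + J3 + 3 ≤ n →
    Ex n (fun ω : ℕ → St d => ind (‖XR s (1 / 2 ^ J3) 0 8 ω - z'‖ ≤ s z' / 6) *
        (ENNReal.ofReal (ρR s (1 / 2 ^ J3) 0 8 ω) * wE φ F (c0 M) (XR s (1 / 2 ^ J3) 0 8 ω) (ρR s (1 / 2 ^ J3) 0 8 ω)))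
      ≤ ENNReal.ofReal (C * ((1 / 2 ^ J3 : ℝ) ^ (1 / 2 : ℝ) * (s z') ^ (d + 1) * B)) := by
  have hc0 : 6 ≤ c0 M := by
    unfold c0
    have := M.2
    nlinarith [NNReal.coe_nonneg M]
  set c := c0 M with hc
  set K : ℝ := 2 * c + 4 with hK
  have hK0 : 16 ≤ K := by linarith
  obtain ⟨J30, hJ30⟩ := exists_pow_lt_of_lt_one (show (0 : ℝ) < 1 / (20 * K) by positivity)
    (show (1 / 2 : ℝ) < 1 by norm_num)
  refine ⟨(8 * K) ^ d * (2 * c) ^ (1 / 2 : ℝ), by positivity, J30, ?_⟩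
  intro φ U F hF N J3 s hs hJ3 B hB hWB z' hz' n hn
  set ε : ℝ := 1 / 2 ^ J3 with hε
  have hε0 : 0 < ε := by positivity
  have hεK : K * ε ≤ 1 / 20 := by
    have h1 : ε ≤ (1 / 2 : ℝ) ^ J30 := by
      rw [hε, ← one_div_pow]
      exact pow_le_pow_of_le_one (by norm_num) (by norm_num) hJ3
    have h2 : ε < 1 / (20 * K) := lt_of_le_of_lt h1 hJ30
    rw [lt_div_iff₀ (by positivity)] at h2
    linarith
  have hε120 : ε ≤ 1 / 120 := by nlinarith
  set s' := s z' with hs'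
  have hs0 : 0 < s' := Kr3_spos hs z'
  -- the function
  set V : E d → ℝ≥0∞ := fun z => ENNReal.ofReal (((ε * s' / 4) ^ d)⁻¹) *
    ∫⁻ y in Metric.closedBall z (K * (ε * s')), Kr3_G φ F (2 * c * (ε * s')) y with hV
  have hGm := Kr3_G_measurable hF (2 * c * (ε * s'))
  have hVm : Measurable V := (Kr3_ballint_measurable hGm _).const_mul _
  have hfm : Measurable ((Metric.closedBall z' (s' / 5)).indicator V) :=
    hVm.indicator Metric.isClosed_closedBall.measurableSet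
  have h8 : (8 : ℝ) ≤ 2 ^ 3 := by norm_num
  have hpk1 : ∀ y : E d, ENNReal.ofReal (pk y) ≤ 1 := fun y => by
    rw [← ENNReal.ofReal_one]
    exact ENNReal.ofReal_le_ofReal (pk_le_one y)
  have hR : s' / 5 + K * (ε * s') ≤ s' / 4 := by nlinarith
  have hA : 2 * c * (ε * s') ≤ s' := by nlinarith
  calc Ex n (fun ω : ℕ → St d => ind (‖XR s ε 0 8 ω - z'‖ ≤ s' / 6) *
        (ENNReal.ofReal (ρR s ε 0 8 ω) * wE φ F c (XR s ε 0 8 ω) (ρR s ε 0 8 ω)))
      ≤ Ex n (fun ω : ℕ → St d => ∫⁻ y : E d, ENNReal.ofReal (pk y) *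
          (Metric.closedBall z' (s' / 5)).indicator V (XR s ε 0 8 ω + ρR s ε 0 8 ω • y)) :=
        Ex_mono n fun ω => Kr3_point hd (by linarith) hs hε120 z' ω
    _ = ∫⁻ y : E d, ENNReal.ofReal (pk y) *
          (Metric.closedBall z' (s' / 5)).indicator V (0 + (8 : ℝ) • y) :=
        opt_lint hs J3 3 hfm 0 (by norm_num) h8 hn
    _ ≤ ∫⁻ y : E d, (Metric.closedBall z' (s' / 5)).indicator V (0 + (8 : ℝ) • y) := by
        refine lintegral_mono fun y => ?_
        calc _ ≤ 1 * (Metric.closedBall z' (s' / 5)).indicator V (0 + (8 : ℝ) • y) :=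
              mul_le_mul_left (hpk1 y) _
          _ = _ := one_mul _
    _ ≤ ∫⁻ y : E d, (Metric.closedBall z' (s' / 5)).indicator V y := Kr3_scale hfm
    _ = ENNReal.ofReal (((ε * s' / 4) ^ d)⁻¹) * ∫⁻ z in Metric.closedBall z' (s' / 5),
          ∫⁻ y in Metric.closedBall z (K * (ε * s')), Kr3_G φ F (2 * c * (ε * s')) y := by
        rw [lintegral_indicator Metric.isClosed_closedBall.measurableSet, hV,
          lintegral_const_mul _ (Kr3_ballint_measurable hGm _)]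
    _ ≤ ENNReal.ofReal (((ε * s' / 4) ^ d)⁻¹) * (ENNReal.ofReal ((2 * (K * (ε * s'))) ^ d) *
          ∫⁻ y in Metric.closedBall z' (s' / 5 + K * (ε * s')), Kr3_G φ F (2 * c * (ε * s')) y) :=
        mul_le_mul_right (Kr3_tonelli hGm z' _ (by positivity)) _
    _ ≤ ENNReal.ofReal (((ε * s' / 4) ^ d)⁻¹) * (ENNReal.ofReal ((2 * (K * (ε * s'))) ^ d) *
          (ENNReal.ofReal ((2 * c * (ε * s')) ^ (1 / 2 : ℝ)) *
            ENNReal.ofReal (s' ^ ((d : ℝ) + 1 / 2) * B))) := by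
        refine mul_le_mul_right (mul_le_mul_right ?_ _) _
        calc ∫⁻ y in Metric.closedBall z' (s' / 5 + K * (ε * s')),
                Kr3_G φ F (2 * c * (ε * s')) y
            ≤ ∫⁻ y in Metric.closedBall z' (s' / 4), Kr3_G φ F (2 * c * (ε * s')) y :=
              lintegral_mono_set (Metric.closedBall_subset_closedBall hR)
          _ ≤ ∫⁻ y in Metric.closedBall z' (s' / 4),
                ENNReal.ofReal ((2 * c * (ε * s')) ^ (1 / 2 : ℝ)) *
                ∫⁻ τ in Ioc (0 : ℝ) s',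
                  ENNReal.ofReal (nF F (y, φ y + τ) * τ ^ (-(1 / 2) : ℝ)) :=
              lintegral_mono fun y => Kr3_G_le_weight φ F hA y
          _ = ENNReal.ofReal ((2 * c * (ε * s')) ^ (1 / 2 : ℝ)) *
                ∫⁻ y in Metric.closedBall z' (s' / 4), ∫⁻ τ in Ioc (0 : ℝ) s',
                  ENNReal.ofReal (nF F (y, φ y + τ) * τ ^ (-(1 / 2) : ℝ)) :=
              lintegral_const_mul' _ _ ENNReal.ofReal_ne_top
          _ ≤ _ := mul_le_mul_right (hWB z' hz') _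
    _ = ENNReal.ofReal ((8 * K) ^ d * (2 * c) ^ (1 / 2 : ℝ) *
          (ε ^ (1 / 2 : ℝ) * s' ^ (d + 1) * B)) := by
        rw [← ENNReal.ofReal_mul (by positivity), ← ENNReal.ofReal_mul (by positivity),
          ← ENNReal.ofReal_mul (by positivity)]
        congr 1
        have e1 : ((ε * s' / 4) ^ d)⁻¹ * (2 * (K * (ε * s'))) ^ d = (8 * K) ^ d := by
          rw [← inv_pow, ← mul_pow]
          congr 1
          field_simp
          ring
        have e2 : (2 * c * (ε * s')) ^ (1 / 2 : ℝ) =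
            (2 * c) ^ (1 / 2 : ℝ) * (ε ^ (1 / 2 : ℝ) * s' ^ (1 / 2 : ℝ)) := by
          rw [Real.mul_rpow (x := 2 * c) (y := ε * s') (by positivity) (by positivity),
            Real.mul_rpow (x := ε) (y := s') (by positivity) (by positivity)]
        have e3 : s' ^ (1 / 2 : ℝ) * s' ^ ((d : ℝ) + 1 / 2) = s' ^ (d + 1) := by
          rw [← Real.rpow_add hs0, ← Real.rpow_natCast]
          congr 1
          push_cast
          ring
        calc _ = (((ε * s' / 4) ^ d)⁻¹ * (2 * (K * (ε * s'))) ^ d) *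
              ((2 * c * (ε * s')) ^ (1 / 2 : ℝ) * s' ^ ((d : ℝ) + 1 / 2)) * B := by ring
          _ = (8 * K) ^ d * ((2 * c) ^ (1 / 2 : ℝ) * (ε ^ (1 / 2 : ℝ) *
              (s' ^ (1 / 2 : ℝ) * s' ^ ((d : ℝ) + 1 / 2)))) * B := by rw [e1, e2]; ring
          _ = _ := by rw [e3]; ring

theorem Kr3_ind_measurable {p : E d → Prop} (hp : MeasurableSet {x | p x}) :
    Measurable (fun x => ind (p x)) := by
  have h1 : (fun x => ind (p x)) = {x | p x}.indicator (fun _ => (1 : ℝ≥0∞)) := by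
    funext x
    by_cases hx : p x
    · rw [Kr3_ind_true hx, indicator_of_mem (show x ∈ {x | p x} from hx)]
    · rw [Kr3_ind_false hx, indicator_of_notMem (show x ∉ {x | p x} from hx)]
  rw [h1]
  exact measurable_const.indicator hp

theorem Kr3_avg {N : ℕ} {s : E d → ℝ} (hs : ResFun N s) {c6 : ℝ} (hc6 : 0 < c6) (hc6' : c6 ≤ 1 / 8)
    {α β : E d → ℝ≥0∞} (hαβ : ∀ x z : E d, ‖x - z‖ ≤ c6 * s x → α x ≤ β z) (X : E d)
    (T : ℝ≥0∞) :
    ind (‖X‖ ≤ 5) * (ENNReal.ofReal ((s X)⁻¹) * α X * T) ≤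
      ∫⁻ z : E d, (Metric.closedBall (0 : E d) 6).indicator (fun z =>
        ENNReal.ofReal (((2 * c6) ^ d)⁻¹ * 2 ^ (d + 1) * ((s z) ^ (d + 1))⁻¹) * β z *
          (ind (‖X - z‖ ≤ s z / 6) * T)) z := by
  by_cases hX : ‖X‖ ≤ 5
  swap
  · rw [Kr3_ind_false hX, zero_mul]
    exact zero_le
  rw [Kr3_ind_true hX, one_mul]
  have hsX : 0 < s X := Kr3_spos hs X
  have hsX4 : s X ≤ 1 / 4 := hs.upper X
  have h1 : ENNReal.ofReal ((s X)⁻¹) * α X * T = ∫⁻ z : E d,
      (Metric.closedBall X (c6 * s X)).indicator (fun _ =>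
        ENNReal.ofReal (((2 * c6) ^ d)⁻¹ * ((s X) ^ (d + 1))⁻¹) * (α X * T)) z := by
    rw [lintegral_indicator_const Metric.isClosed_closedBall.measurableSet,
      Real.volume_pi_closedBall _ (by positivity), Fintype.card_fin,
      mul_comm _ (ENNReal.ofReal ((2 * (c6 * s X)) ^ d)), ← mul_assoc (ENNReal.ofReal _),
      ← ENNReal.ofReal_mul (by positivity), mul_assoc]
    congr 2
    rw [pow_succ, mul_inv, mul_pow, mul_pow, mul_pow]
    field_simp
  rw [h1]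
  refine lintegral_mono fun z => ?_
  by_cases hz : z ∈ Metric.closedBall X (c6 * s X)
  swap
  · rw [indicator_of_notMem hz]
    exact zero_le
  have hz' : ‖X - z‖ ≤ c6 * s X := by
    rw [Metric.mem_closedBall, dist_comm, dist_eq_norm] at hz
    exact hz
  have hc6X : c6 * s X ≤ s X / 8 := by nlinarith
  have e1 : s X ≤ s z + ‖X - z‖ / 4 := Kr3_slip hs X z
  have e2 : s z ≤ s X + ‖X - z‖ / 4 := by
    have := Kr3_slip hs z X
    rwa [norm_sub_rev] at this
  have hsz : 0 < s z := Kr3_spos hs z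
  have h6 : z ∈ Metric.closedBall (0 : E d) 6 := by
    rw [Metric.mem_closedBall, dist_zero_right]
    have : ‖z‖ ≤ ‖X‖ + ‖X - z‖ := by
      calc ‖z‖ = ‖X - (X - z)‖ := by congr 1; abel
        _ ≤ _ := norm_sub_le _ _
    linarith
  have h7 : ‖X - z‖ ≤ s z / 6 := by linarith
  rw [indicator_of_mem hz, indicator_of_mem h6, Kr3_ind_true h7, one_mul]
  calc ENNReal.ofReal (((2 * c6) ^ d)⁻¹ * ((s X) ^ (d + 1))⁻¹) * (α X * T)
      ≤ ENNReal.ofReal (((2 * c6) ^ d)⁻¹ * 2 ^ (d + 1) * ((s z) ^ (d + 1))⁻¹) * (β z * T) := by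
        refine mul_le_mul' (ENNReal.ofReal_le_ofReal ?_) (mul_le_mul_left (hαβ X z hz') _)
        rw [mul_assoc ((2 * c6) ^ d)⁻¹]
        refine mul_le_mul_of_nonneg_left ?_ (by positivity)
        rw [← div_eq_mul_inv, ← div_pow, ← inv_pow]
        refine pow_le_pow_left₀ (by positivity) ?_ _
        rw [inv_eq_one_div, div_le_div_iff₀ hsX hsz]
        linarith
    _ = _ := by rw [← mul_assoc (ENNReal.ofReal _) (β z) T]

/-- Sum to integral, second form. `α(XR) ≤ C s(XR)^{-d} ∫_{‖z'-XR‖≤c6 s(XR)} β(z') dz'`; for such `z'`, `‖z'‖ ≤ 6`, `‖XR-z'‖ ≤ s z'/6`,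
`s(XR)^{-1-d} ≤ C (s z')^{-1-d}`; Tonelli and `LL`. -/
theorem SI2 (hd : 1 ≤ d) (M : ℝ≥0) (c6 : ℝ) (hc6 : 0 < c6) (hc6' : c6 ≤ 1 / 8) : ∃ C : ℝ, 0 < C ∧ ∃ J30 : ℕ,
    ∀ (φ : E d → ℝ) (U : Set (P d)) (F : Ix d → P d → ℝ), GFd M φ U F →
    ∀ (N J3 : ℕ) (s : E d → ℝ), ResFun N s → J30 ≤ J3 → ∀ B : ℝ, 0 ≤ B → WBP φ F s B →
    ∀ (α β : E d → ℝ≥0∞), Measurable β → (∀ x z : E d, ‖x - z‖ ≤ c6 * s x → α x ≤ β z) → ∀ n : ℕ, N + J3 + 3 ≤ n →
    Ex n (fun ω : ℕ → St d => ind (‖XR s (1 / 2 ^ J3) 0 8 ω‖ ≤ 5) *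
        (ENNReal.ofReal ((s (XR s (1 / 2 ^ J3) 0 8 ω))⁻¹) * α (XR s (1 / 2 ^ J3) 0 8 ω) *
        (ENNReal.ofReal (ρR s (1 / 2 ^ J3) 0 8 ω) * wE φ F (c0 M) (XR s (1 / 2 ^ J3) 0 8 ω) (ρR s (1 / 2 ^ J3) 0 8 ω))))
      ≤ ENNReal.ofReal (C * ((1 / 2 ^ J3 : ℝ) ^ (1 / 2 : ℝ) * B)) * ∫⁻ z in Metric.closedBall (0 : E d) 6, β z := by
  obtain ⟨CL, hCL, J30, hLL⟩ := LL hd M
  refine ⟨((2 * c6) ^ d)⁻¹ * 2 ^ (d + 1) * CL, by positivity, J30, ?_⟩
  intro φ U F hF N J3 s hs hJ3 B hB hWB α β hβ hαβ n hn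
  have hsm : Measurable s := hs.lip.continuous.measurable
  set g : E d → (ℕ → St d) → ℝ≥0∞ := fun z ω =>
    (Metric.closedBall (0 : E d) 6).indicator (fun z =>
        ENNReal.ofReal (((2 * c6) ^ d)⁻¹ * 2 ^ (d + 1) * ((s z) ^ (d + 1))⁻¹) * β z *
          (ind (‖XR s (1 / 2 ^ J3) 0 8 ω - z‖ ≤ s z / 6) *
            (ENNReal.ofReal (ρR s (1 / 2 ^ J3) 0 8 ω) *
              wE φ F (c0 M) (XR s (1 / 2 ^ J3) 0 8 ω) (ρR s (1 / 2 ^ J3) 0 8 ω)))) z with hg
  have hgm : ∀ ω, Measurable (fun z => g z ω) := by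
    intro ω
    refine Measurable.indicator ?_ Metric.isClosed_closedBall.measurableSet
    refine Measurable.mul (Measurable.mul ?_ hβ) (Measurable.mul_const ?_ _)
    · exact ENNReal.measurable_ofReal.comp (measurable_const.mul (hsm.pow_const _).inv)
    · refine Kr3_ind_measurable (measurableSet_le ?_ (hsm.div_const 6))
      exact (continuous_const.sub continuous_id).norm.measurable
  calc Ex n (fun ω : ℕ → St d => ind (‖XR s (1 / 2 ^ J3) 0 8 ω‖ ≤ 5) *
        (ENNReal.ofReal ((s (XR s (1 / 2 ^ J3) 0 8 ω))⁻¹) * α (XR s (1 / 2 ^ J3) 0 8 ω) *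
        (ENNReal.ofReal (ρR s (1 / 2 ^ J3) 0 8 ω) *
          wE φ F (c0 M) (XR s (1 / 2 ^ J3) 0 8 ω) (ρR s (1 / 2 ^ J3) 0 8 ω))))
      ≤ Ex n (fun ω : ℕ → St d => ∫⁻ z : E d, g z ω) :=
        Ex_mono n fun ω => Kr3_avg hs hc6 hc6' hαβ _ _
    _ = ∫⁻ z : E d, Ex n (g z) := (Ex_lintegral n hgm).symm
    _ ≤ ∫⁻ z : E d, (Metric.closedBall (0 : E d) 6).indicator (fun z =>
          ENNReal.ofReal (((2 * c6) ^ d)⁻¹ * 2 ^ (d + 1) * CL *
            ((1 / 2 ^ J3 : ℝ) ^ (1 / 2 : ℝ) * B)) * β z) z := by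
        refine lintegral_mono fun z => ?_
        by_cases hz : z ∈ Metric.closedBall (0 : E d) 6
        · have h1 : g z = fun ω => ENNReal.ofReal
              (((2 * c6) ^ d)⁻¹ * 2 ^ (d + 1) * ((s z) ^ (d + 1))⁻¹) * β z *
              (ind (‖XR s (1 / 2 ^ J3) 0 8 ω - z‖ ≤ s z / 6) *
                (ENNReal.ofReal (ρR s (1 / 2 ^ J3) 0 8 ω) *
                wE φ F (c0 M) (XR s (1 / 2 ^ J3) 0 8 ω) (ρR s (1 / 2 ^ J3) 0 8 ω))) := by
            funext ω
            rw [hg]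
            simp only [indicator_of_mem hz]
          rw [h1, Ex_mul, indicator_of_mem hz]
          have hz7 : ‖z‖ ≤ 7 := by
            rw [Metric.mem_closedBall, dist_zero_right] at hz
            linarith
          have hsz : 0 < s z := Kr3_spos hs z
          refine (mul_le_mul_right (hLL φ U F hF N J3 s hs hJ3 B hB hWB z hz7 n hn) _).trans
            (le_of_eq ?_)
          rw [mul_assoc, mul_comm (β z), ← mul_assoc, ← ENNReal.ofReal_mul (by positivity)]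
          congr 2
          field_simp
        · have h1 : g z = fun _ => 0 := by
            funext ω
            rw [hg]
            simp only [indicator_of_notMem hz]
          rw [h1, Ex_zero]
          exact zero_le
    _ = _ := by
        rw [lintegral_indicator Metric.isClosed_closedBall.measurableSet,
          lintegral_const_mul _ hβ]

end HG
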