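import Pool.Agent.W_MP_825298_an.KDefs

open MeasureTheory Set Filter Topology
open scoped ENNReal NNReal BigOperators

namespace HG
variable {d : ℕ}

theorem sst_lower (S : Finset (ℕ × E d)) (δ : ℝ) (N : ℕ) (y : E d) : 1 / 2 ^ N ≤ sst S δ N y :=
  (le_max_right _ _).trans (le_max_right _ _)

theorem sst_edge (S : Finset (ℕ × E d)) (δ : ℝ) (N : ℕ) (y : E d) :
    min ((‖y‖ - 2 + δ) / 4) (1 / 4) ≤ sst S δ N y :=
  (le_max_left _ _).trans (le_max_right _ _)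

theorem ks1_sfun_le (S : Finset (ℕ × E d)) (δ : ℝ) (N : ℕ) (y : E d) : (sfun S y : ℝ) ≤ sst S δ N y :=
  le_max_left _ _

theorem ks1_term_le {S : Finset (ℕ × E d)} {j : ℕ} {y' : E d} (h : (j, y') ∈ S) (y : E d) :
    2 * (1 / 2 ^ j) - ‖y - y'‖ / 4 ≤ (sfun S y : ℝ) := by
  have h1 : Real.toNNReal (2 * (1 / 2 ^ j) - ‖y - y'‖ / 4) ≤ sfun S y :=
    Finset.le_sup (f := fun p : ℕ × E d => Real.toNNReal (2 * (1 / 2 ^ p.1) - ‖y - p.2‖ / 4)) h
  exact (Real.le_coe_toNNReal _).trans (NNReal.coe_le_coe.2 h1)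

/-- the supremum is `0` or attained -/
theorem ks1_sfun_attained (S : Finset (ℕ × E d)) (y : E d) (h : 0 < sfun S y) :
    ∃ (j : ℕ) (y' : E d), (j, y') ∈ S ∧ (sfun S y : ℝ) = 2 * (1 / 2 ^ j) - ‖y - y'‖ / 4 := by
  have hne : S.Nonempty := by
    by_contra hc
    rw [Finset.not_nonempty_iff_eq_empty] at hc
    rw [hc] at h
    exact lt_irrefl _ h
  obtain ⟨p, hp, hsup⟩ := Finset.exists_mem_eq_sup S hne
    (fun p : ℕ × E d => Real.toNNReal (2 * (1 / 2 ^ p.1) - ‖y - p.2‖ / 4))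
  refine ⟨p.1, p.2, hp, ?_⟩
  have h1 : sfun S y = Real.toNNReal (2 * (1 / 2 ^ p.1) - ‖y - p.2‖ / 4) := hsup
  rw [h1] at h ⊢
  rw [Real.toNNReal_pos] at h
  exact Real.coe_toNNReal _ h.le

theorem ks1_sfun_lip (S : Finset (ℕ × E d)) (y z : E d) :
    (sfun S y : ℝ) ≤ sfun S z + 1 / 4 * ‖y - z‖ := by
  rcases eq_or_lt_of_le (bot_le : 0 ≤ sfun S y) with h | h
  · rw [← h]
    have := (sfun S z).2
    have h2 := norm_nonneg (y - z)
    show (0 : ℝ) ≤ (sfun S z : ℝ) + 1 / 4 * ‖y - z‖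
    have h3 : (0 : ℝ) ≤ (sfun S z : ℝ) := this
    linarith
  · obtain ⟨j, y', hj, hval⟩ := ks1_sfun_attained S y h
    have h1 := ks1_term_le hj z
    rw [hval]
    have h2 : ‖z - y'‖ ≤ ‖y - y'‖ + ‖y - z‖ := by
      have : z - y' = (y - y') - (y - z) := by abel
      rw [this]
      exact norm_sub_le _ _
    linarith

theorem sst_lip (S : Finset (ℕ × E d)) (δ : ℝ) (N : ℕ) : LipschitzWith (1 / 4) (sst S δ N) := by
  refine LipschitzWith.of_le_add_mul _ fun y z => ?_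
  have hc : (((1 / 4 : ℝ≥0) : ℝ≥0) : ℝ) = 1 / 4 := by norm_num
  rw [hc, dist_eq_norm]
  have hn := norm_nonneg (y - z)
  unfold sst
  refine max_le ?_ (max_le ?_ ?_)
  · exact (ks1_sfun_lip S y z).trans (add_le_add_left (le_max_left _ _) _)
  · have h0 : ‖y‖ ≤ ‖z‖ + ‖y - z‖ := by
      have : y = z + (y - z) := by abel
      calc ‖y‖ = ‖z + (y - z)‖ := by rw [← this]
        _ ≤ _ := norm_add_le _ _
    have h1 : min ((‖y‖ - 2 + δ) / 4) (1 / 4) ≤ min ((‖z‖ - 2 + δ) / 4) (1 / 4) + 1 / 4 * ‖y - z‖ := by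
      rw [← min_add_add_right]
      refine min_le_min ?_ ?_
      · linarith
      · linarith
    exact h1.trans (add_le_add_left ((le_max_left _ _).trans (le_max_right _ _)) _)
  · refine le_trans ((le_max_right _ _).trans (le_max_right _ _)) (le_add_of_nonneg_right (by positivity))

theorem sst_upper {S : Finset (ℕ × E d)} {δ : ℝ} {N : ℕ} (hS : ∀ p ∈ S, 3 ≤ p.1) (hN : 2 ≤ N) (y : E d) :
    sst S δ N y ≤ 1 / 4 := by
  have hpow : ∀ {a b : ℕ}, a ≤ b → (1 / 2 ^ b : ℝ) ≤ 1 / 2 ^ a := fun h =>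
    one_div_le_one_div_of_le (by positivity) (pow_le_pow_right₀ (by norm_num) h)
  unfold sst
  refine max_le ?_ (max_le (min_le_right _ _) ?_)
  · rcases eq_or_lt_of_le (bot_le : 0 ≤ sfun S y) with h | h
    · rw [← h]; norm_num
    · obtain ⟨j, y', hj, hval⟩ := ks1_sfun_attained S y h
      rw [hval]
      have h1 := hpow (hS _ hj)
      have h2 := norm_nonneg (y - y')
      norm_num at h1 ⊢
      linarith
  · have := hpow hN
    norm_num at this ⊢
    linarith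

theorem sst_stop {S : Finset (ℕ × E d)} (δ : ℝ) (N : ℕ) {j : ℕ} {y' : E d} (h : (j, y') ∈ S) (y : E d) :
    2 * (1 / 2 ^ j) - ‖y - y'‖ / 4 ≤ sst S δ N y :=
  (ks1_term_le h y).trans (ks1_sfun_le S δ N y)

/-- if the value is not produced by the edge function or the floor, it is attained at a stop -/
theorem sst_attained {S : Finset (ℕ × E d)} {δ : ℝ} {N : ℕ} {y : E d}
    (h : max (min ((‖y‖ - 2 + δ) / 4) (1 / 4)) (1 / 2 ^ N) < sst S δ N y) :
    ∃ (j : ℕ) (y' : E d), (j, y') ∈ S ∧ sst S δ N y = 2 * (1 / 2 ^ j) - ‖y - y'‖ / 4 := by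
  have h1 : sst S δ N y = (sfun S y : ℝ) := by
    unfold sst at h ⊢
    rcases le_total (sfun S y : ℝ) (max (min ((‖y‖ - 2 + δ) / 4) (1 / 4)) (1 / 2 ^ N)) with h2 | h2
    · rw [max_eq_right h2] at h
      exact absurd h (lt_irrefl _)
    · exact max_eq_left h2
  have h2 : 0 < sfun S y := by
    rw [← NNReal.coe_pos, ← h1]
    exact lt_of_lt_of_le (by positivity) (sst_lower S δ N y)
  rw [h1]
  exact ks1_sfun_attained S y h2

theorem sst_resFun {S : Finset (ℕ × E d)} {δ : ℝ} {N : ℕ} (hS : ∀ p ∈ S, 3 ≤ p.1) (hN : 2 ≤ N) : ResFun N (sst S δ N) :=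
  ⟨sst_lip S δ N, sst_lower S δ N, sst_upper hS hN⟩

end HG
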