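import Pool.Agent.W_MP_825298_an.Kr1
import Pool.Agent.W_MP_825298_an.Ks2

open MeasureTheory Set Filter Topology
open scoped ENNReal NNReal BigOperators

namespace HG
variable {d : ℕ}

theorem Kv1_ind_true {p : Prop} (h : p) : ind p = 1 := by
  simp [ind, h]

theorem Kv1_ind_false {p : Prop} (h : ¬ p) : ind p = 0 := by
  simp [ind, h]

theorem Kv1_ind_congr {p q : Prop} (h : p ↔ q) : ind p = ind q := by
  rw [propext h]

theorem Kv1_wt_ge (k : St d) : ((1 : ℝ≥0) / 16) ^ d ≤ wt k := by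
  have h : ((1 : ℝ≥0) / 16) ^ d = ∏ _i : Fin d, ((1 : ℝ≥0) / 16) := by simp
  rw [h]
  unfold wt
  refine Finset.prod_le_prod (fun _ _ => zero_le) fun i _ => ?_
  generalize k i = j
  fin_cases j <;> simp [w5] <;> (rw [← NNReal.coe_le_coe]; push_cast; norm_num)

theorem Kv1_Ex_ge (n : ℕ) (k : St d) (f : (ℕ → St d) → ℝ≥0∞) :
    ((wt k : ℝ≥0) : ℝ≥0∞) * Ex n (fun ω => f (consω k ω)) ≤ Ex (n + 1) f := by
  rw [Ex]
  have h := Finset.single_le_sum (s := Finset.univ) (f := fun k : St d => wt k • Ex n (fun ω => f (consω k ω)))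
    (fun _ _ => zero_le) (Finset.mem_univ k)
  simp only [ENNReal.smul_def, smul_eq_mul] at h ⊢
  exact h

/-- the steps of a given parity have total weight `2^{-d}` -/
theorem Kv1_parity (p : Fin d → Fin 2) :
    ∑ k ∈ (Fintype.piFinset fun i : Fin d => (Finset.univ.filter fun a : Fin 5 => (a : ℕ) % 2 = (p i : ℕ))),
      wt k = ((1 : ℝ≥0) / 2) ^ d := by
  have h := Finset.prod_univ_sum (fun i : Fin d => (Finset.univ.filter fun a : Fin 5 => (a : ℕ) % 2 = (p i : ℕ)))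
    (fun _ a => w5 a)
  unfold wt
  rw [← h]
  have h2 : ∀ i : Fin d, ∑ a ∈ (Finset.univ.filter fun a : Fin 5 => (a : ℕ) % 2 = (p i : ℕ)), w5 a = 1 / 2 := by
    intro i
    generalize p i = q
    fin_cases q
    · have : (Finset.univ.filter fun a : Fin 5 => (a : ℕ) % 2 = ((⟨0, by norm_num⟩ : Fin 2) : ℕ)) = {0, 2, 4} := by decide
      rw [this]
      rw [← NNReal.coe_inj]
      simp [w5]
      norm_num
    · have : (Finset.univ.filter fun a : Fin 5 => (a : ℕ) % 2 = ((⟨1, by norm_num⟩ : Fin 2) : ℕ)) = {1, 3} := by decide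
      rw [this]
      rw [← NNReal.coe_inj]
      simp [w5]
      norm_num
  rw [Finset.prod_congr rfl fun i _ => h2 i]
  simp

/-- last step decomposition of a hitting probability -/
theorem Kv1_last (l : ℕ) (y : E d) :
    Ex (l + 1) (fun ω : ℕ → St d => ind ((8 : ℝ) • Zp (l + 1) ω = y))
      = ∑ k : St d, (wt k : ℝ≥0∞) * Ex l (fun ω : ℕ → St d =>
          ind ((8 : ℝ) • Zp l ω = y - (8 / 2 ^ (l + 1) : ℝ) • kv k)) := by
  rw [Ex_splice l 1]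
  have h1 : ∀ ω : ℕ → St d, Ex 1 (fun ω' : ℕ → St d => ind ((8 : ℝ) • Zp (l + 1) (splice l ω ω') = y))
      = ∑ k : St d, (wt k : ℝ≥0∞) * ind ((8 : ℝ) • Zp l ω = y - (8 / 2 ^ (l + 1) : ℝ) • kv k) := by
    intro ω
    rw [Ex]
    refine Finset.sum_congr rfl fun k _ => ?_
    rw [ENNReal.smul_def, smul_eq_mul]
    congr 1
    rw [Ex, Zp_splice]
    have h5 : Zp 1 (consω k (fun _ => (0 : St d))) = (1 / 2 : ℝ) • kv k := by
      rw [Zp_cons]; simp [Zp]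
    rw [h5]
    refine Kv1_ind_congr ?_
    rw [eq_sub_iff_add_eq, smul_add, smul_smul, smul_smul]
    have h6 : (8 : ℝ) * ((2 ^ l)⁻¹ * (1 / 2)) = 8 / 2 ^ (l + 1) := by
      rw [pow_succ]; field_simp
    rw [← h6, mul_assoc]
  simp only [h1]
  rw [Ex_sum]
  refine Finset.sum_congr rfl fun k _ => ?_
  rw [Ex_mul]

theorem Kv1_base_coord (n : ℤ) (h1 : -10 ≤ n) (h2 : n ≤ 10) :
    ∃ a b c : Fin 5, (n : ℤ) = 4 * ((a : ℕ) - 2 : ℤ) + 2 * ((b : ℕ) - 2 : ℤ) + ((c : ℕ) - 2 : ℤ) := by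
  interval_cases n <;> decide

theorem Kv1_base (y : E d) (hy : y ∈ Lat 0) (hn : ‖y‖ ≤ 10) :
    (((1 / 16 : ℝ≥0) ^ d * ((1 / 16 : ℝ≥0) ^ d * (1 / 16 : ℝ≥0) ^ d) : ℝ≥0) : ℝ≥0∞)
      ≤ Ex 3 (fun ω : ℕ → St d => ind ((8 : ℝ) • Zp 3 ω = y)) := by
  have h1 : ∀ i, ∃ a b c : Fin 5, y i = 4 * (((a : ℕ) : ℝ) - 2) + 2 * (((b : ℕ) : ℝ) - 2) + (((c : ℕ) : ℝ) - 2) := by
    intro i
    obtain ⟨k, hk⟩ := hy i
    rw [pow_zero, div_one] at hk
    have hk2 := (norm_le_pi_norm y i).trans hn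
    rw [Real.norm_eq_abs, hk, abs_le] at hk2
    have h3 : -10 ≤ k := by exact_mod_cast hk2.1
    have h4 : k ≤ 10 := by exact_mod_cast hk2.2
    obtain ⟨a, b, c, habc⟩ := Kv1_base_coord k h3 h4
    refine ⟨a, b, c, ?_⟩
    rw [hk, habc]
    push_cast
    ring
  choose a b c habc using h1
  have h2 : ∀ ω : ℕ → St d, (8 : ℝ) • Zp 3 (consω a (consω b (consω c ω))) = y := by
    intro ω
    funext i
    rw [habc i]
    rw [Zp_cons, Zp_cons, Zp_cons]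
    simp only [Zp, Finset.range_zero, Finset.sum_empty, smul_zero, add_zero, Pi.smul_apply, Pi.add_apply, smul_eq_mul, kv]
    ring
  have h3 : ∀ ω : ℕ → St d, ind ((8 : ℝ) • Zp 3 (consω a (consω b (consω c ω))) = y) = 1 := fun ω => Kv1_ind_true (h2 ω)
  refine le_trans ?_ (Kv1_Ex_ge 2 a _)
  refine le_trans ?_ (mul_le_mul_right (Kv1_Ex_ge 1 b _) _)
  refine le_trans ?_ (mul_le_mul_right (mul_le_mul_right (Kv1_Ex_ge 0 c _) _) _)
  simp only [Ex, h3, mul_one]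
  rw [← ENNReal.coe_mul, ← ENNReal.coe_mul]
  refine ENNReal.coe_le_coe.2 ?_
  exact mul_le_mul' (Kv1_wt_ge a) (mul_le_mul' (Kv1_wt_ge b) (Kv1_wt_ge c))

/-- the induction step -/
theorem Kv1_step (c : ℝ≥0∞) (j : ℕ) (B : ℝ)
    (hP : ∀ y : E d, y ∈ Lat j → ‖y‖ ≤ B + 2 * (1 / 2 ^ j) →
      c ≤ Ex (j + 3) (fun ω : ℕ → St d => ind ((8 : ℝ) • Zp (j + 3) ω = y)))
    (y : E d) (hy : y ∈ Lat (j + 1)) (hn : ‖y‖ ≤ B + 2 * (1 / 2 ^ (j + 1))) :
    ((((1 : ℝ≥0) / 2) ^ d : ℝ≥0) : ℝ≥0∞) * c ≤ Ex (j + 1 + 3) (fun ω : ℕ → St d => ind ((8 : ℝ) • Zp (j + 1 + 3) ω = y)) := by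
  choose n hn' using hy
  set p : Fin d → Fin 2 := fun i => if n i % 2 = 0 then 0 else 1 with hp
  rw [show j + 1 + 3 = (j + 3) + 1 by omega, Kv1_last, ← Kv1_parity p]
  have hsub : (Fintype.piFinset fun i : Fin d => (Finset.univ.filter fun a : Fin 5 => (a : ℕ) % 2 = (p i : ℕ))) ⊆
      (Finset.univ : Finset (St d)) := Finset.subset_univ _
  refine le_trans ?_ (Finset.sum_le_sum_of_subset hsub)
  rw [ENNReal.ofNNReal_finsetSum, Finset.sum_mul]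
  refine Finset.sum_le_sum fun k hk => ?_
  refine mul_le_mul_right ?_ _
  have hcoef : (8 / 2 ^ (j + 3 + 1) : ℝ) = 1 / 2 ^ (j + 1) := by
    rw [show j + 3 + 1 = (j + 1) + 3 by omega, pow_add (2 : ℝ) (j + 1) 3]
    field_simp
    norm_num
  rw [hcoef]
  refine hP _ ?_ ?_
  · intro i
    have hk1 := (Fintype.mem_piFinset.1 hk) i
    rw [Finset.mem_filter] at hk1
    have hk2 : ((k i : ℕ) : ℤ) % 2 = n i % 2 := by
      have h3 := hk1.2
      simp only [hp] at h3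
      split_ifs at h3 with h4
      · have : ((k i : ℕ) : ℤ) % 2 = 0 := by exact_mod_cast h3
        omega
      · have : ((k i : ℕ) : ℤ) % 2 = 1 := by exact_mod_cast h3
        omega
    obtain ⟨q, hq⟩ : ∃ q : ℤ, n i - ((k i : ℕ) : ℤ) + 2 = 2 * q := ⟨(n i - ((k i : ℕ) : ℤ) + 2) / 2, by omega⟩
    refine ⟨q, ?_⟩
    have hq2 : (n i : ℝ) - ((k i : ℕ) : ℝ) + 2 = 2 * q := by exact_mod_cast hq
    simp only [Pi.sub_apply, Pi.smul_apply, smul_eq_mul, kv]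
    rw [hn' i]
    have h5 : (n i : ℝ) = 2 * q + ((k i : ℕ) : ℝ) - 2 := by linarith
    rw [h5, pow_succ]
    field_simp
    ring
  · have h6 : ‖(1 / 2 ^ (j + 1) : ℝ) • kv k‖ ≤ 2 * (1 / 2 ^ (j + 1)) := by
      rw [norm_smul, Real.norm_eq_abs, abs_of_pos (by positivity), mul_comm]
      exact mul_le_mul_of_nonneg_right (norm_kv_le k) (by positivity)
    have h7 : (2 : ℝ) * (1 / 2 ^ j) = 2 * (1 / 2 ^ (j + 1)) + 2 * (1 / 2 ^ (j + 1)) := by
      rw [pow_succ]; field_simp; norm_num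
    have h8 := norm_sub_le y ((1 / 2 ^ (j + 1) : ℝ) • kv k)
    linarith


theorem Kv1_all (j : ℕ) : ∀ y : E d, y ∈ Lat j → ‖y‖ ≤ 8 + 2 * (1 / 2 ^ j) →
    ((((1 : ℝ≥0) / 2) ^ d) ^ j * ((1 / 16 : ℝ≥0) ^ d * ((1 / 16 : ℝ≥0) ^ d * (1 / 16 : ℝ≥0) ^ d)) : ℝ≥0)
      ≤ Ex (j + 3) (fun ω : ℕ → St d => ind ((8 : ℝ) • Zp (j + 3) ω = y)) := by
  induction j with
  | zero =>
    intro y hy hn
    rw [pow_zero, one_mul]
    refine Kv1_base y hy ?_
    rw [pow_zero] at hn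
    linarith
  | succ j ih =>
    intro y hy hn
    have h := Kv1_step _ j 8 ih y hy hn
    rw [← ENNReal.coe_mul] at h
    refine le_trans (le_of_eq ?_) h
    rw [pow_succ (((1 : ℝ≥0) / 2) ^ d) j]
    congr 1
    ring

/-- lower bound for the probability of a lattice point: if `P_l ≥ c` at the lattice points of a box then `P_{l+1} ≥ c/2^d` on the box shrunk by the mesh
(the steps of a fixed parity have total weight `2^{-d}`); start at `l = 2` (positions at scale 2, range `12`), total shrinking `≤ 4`. -/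
theorem hit_prob (d : ℕ) : ∃ c : ℝ, 0 < c ∧ ∀ (j : ℕ) (y' : E d), y' ∈ Lat j → ‖y'‖ ≤ 8 →
    ENNReal.ofReal (c * (1 / 2 ^ j) ^ d) ≤ Ex (j + 3) (fun ω : ℕ → St d => ind ((8 : ℝ) • Zp (j + 3) ω = y')) := by
  refine ⟨((1 / 16 : ℝ) ^ d * ((1 / 16 : ℝ) ^ d * (1 / 16 : ℝ) ^ d)), by positivity, ?_⟩
  intro j y' hy hn
  have h := Kv1_all j y' hy (by
    have : (0 : ℝ) ≤ 2 * (1 / 2 ^ j) := by positivity
    linarith)
  refine le_trans (le_of_eq ?_) h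
  rw [← ENNReal.ofReal_coe_nnreal]
  congr 1
  push_cast
  rw [← pow_mul, ← one_div_pow, ← pow_mul, mul_comm d j, mul_comm]

/-- telescoping -/
theorem Kv1_tele (a : ℕ → ℝ≥0∞) {p q n : ℕ} (hpq : p ≤ q) (hqn : q ≤ n) :
    a p + ∑ l ∈ Finset.range n, ind (p ≤ l ∧ l < q) * a (l + 1)
      = a q + ∑ l ∈ Finset.range n, ind (p ≤ l ∧ l < q) * a l := by
  have h1 : ∀ f : ℕ → ℝ≥0∞, ∑ l ∈ Finset.range n, ind (p ≤ l ∧ l < q) * f l = ∑ l ∈ Finset.Ico p q, f l := by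
    intro f
    have hsub : Finset.Ico p q ⊆ Finset.range n := by
      intro l hl
      rw [Finset.mem_Ico] at hl
      exact Finset.mem_range.2 (by omega)
    rw [← Finset.sum_subset hsub (f := fun l => ind (p ≤ l ∧ l < q) * f l)]
    · refine Finset.sum_congr rfl fun l hl => ?_
      rw [Finset.mem_Ico] at hl
      rw [Kv1_ind_true hl, one_mul]
    · intro l _ hl
      rw [Finset.mem_Ico] at hl
      rw [Kv1_ind_false hl, zero_mul]
  rw [h1 (fun l => a (l + 1)), h1 a]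
  obtain ⟨t, rfl⟩ := Nat.exists_eq_add_of_le hpq
  clear h1 hpq hqn
  induction t with
  | zero => simp
  | succ t ih =>
    rw [← add_assoc, Finset.sum_Ico_succ_top (by omega), Finset.sum_Ico_succ_top (by omega), ← add_assoc, ih]
    ring

/-- the path is not resolved up to the time `j + 3` -/
theorem Kv1_unres {N : ℕ} {s : E d → ℝ} (hs : ResFun N s) {J3 : ℕ} (hJ3 : 4 ≤ J3) {j : ℕ} {y' : E d}
    (hsy : s y' ≤ 3 * (1 / 2 ^ j)) {ω : ℕ → St d} (hω : (8 : ℝ) • Zp (j + 3) ω = y') :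
    j + 3 < Rl s (1 / 2 ^ J3) 0 8 ω := by
  by_contra hcon
  push Not at hcon
  have h1 := Rl_spec hs J3 3 (0 : E d) (r := 8) (by norm_num) ω
  unfold XR ρR at h1
  set l := Rl s (1 / 2 ^ J3) 0 8 ω with hl
  have h2 : ‖(8 : ℝ) • Zp l ω - y'‖ ≤ 16 * (1 / 2 ^ l) := by
    rw [← hω, ← smul_sub, norm_smul, norm_sub_rev]
    have h3 := norm_Zp_sub_le hcon ω
    rw [Real.norm_eq_abs, abs_of_pos (by norm_num : (0 : ℝ) < 8), one_div]
    linarith
  have h3 := hs.lip.dist_le_mul ((0 : E d) + (8 : ℝ) • Zp l ω) y'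
  rw [zero_add, dist_eq_norm, dist_eq_norm, Real.norm_eq_abs] at h3
  rw [zero_add] at h1
  have h4 := (abs_le.1 h3).2
  have h5 : ((1 / 4 : ℝ≥0) : ℝ) = 1 / 4 := by push_cast; ring
  rw [h5] at h4
  have h6 : (1 : ℝ) / 2 ^ j ≤ 8 * (1 / 2 ^ l) := by
    have h7 : (2 : ℝ) ^ l ≤ 2 ^ (j + 3) := pow_le_pow_right₀ (by norm_num) hcon
    have h8 : (1 : ℝ) / 2 ^ (j + 3) ≤ 1 / 2 ^ l := one_div_le_one_div_of_le (by positivity) h7
    have h9 : (1 : ℝ) / 2 ^ j = 8 * (1 / 2 ^ (j + 3)) := by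
      rw [pow_add]; field_simp; norm_num
    rw [h9]
    linarith
  have h7 : s ((8 : ℝ) • Zp l ω) ≤ 28 * (1 / 2 ^ l) := by linarith
  have h8 : (1 : ℝ) / 2 ^ J3 ≤ 1 / 16 := by
    have : (2 : ℝ) ^ 4 ≤ 2 ^ J3 := pow_le_pow_right₀ (by norm_num) hJ3
    refine one_div_le_one_div_of_le (by norm_num) (le_trans (by norm_num) this)
  have h9 : (0 : ℝ) < 1 / 2 ^ l := by positivity
  have h10 : (1 : ℝ) / 2 ^ J3 * s ((8 : ℝ) • Zp l ω) ≤ 1 / 16 * (28 * (1 / 2 ^ l)) := by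
    refine (mul_le_mul_of_nonneg_left h7 (by positivity)).trans ?_
    exact mul_le_mul_of_nonneg_right h8 (by positivity)
  have h11 : (8 : ℝ) / 2 ^ l = 8 * (1 / 2 ^ l) := by ring
  rw [h11] at h1
  linarith

/-- A top `m`-stop is passed unresolved, and then `|m(y')| ≤ E[|m_R|]` (`osi_lower` for the path from `(0,8)` with `b_l` = `8 Zp (j+3) ω = y'` and `j+3 ≤ l < R`).
Not resolved before: at time `l ≤ j+3` the path is within `2·8/2^l` of `y'`, so `s ≤ 3·2^{-j} + 4/2^l ≤ 4·8/2^l`.. `< 8/2^l/ε3`. -/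
theorem pass_le (hd : 1 ≤ d) {M : ℝ≥0} {φ : E d → ℝ} {U : Set (P d)} {F : Ix d → P d → ℝ} (hF : GFd M φ U F) {A : ℝ} {N : ℕ}
    {s : E d → ℝ} (hs : ResFun N s) {J3 : ℕ} (hJ3 : 4 ≤ J3) {j : ℕ} {y' : E d} (hjN : j ≤ N)
    (hA : A < ‖avg (hb φ F) y' (1 / 2 ^ j)‖) (hA0 : 0 ≤ A) (hsy : s y' ≤ 3 * (1 / 2 ^ j)) {n : ℕ} (hn : N + J3 + 3 ≤ n) :
    (∀ ω : ℕ → St d, (8 : ℝ) • Zp (j + 3) ω = y' → ‖XR s (1 / 2 ^ J3) 0 8 ω - y'‖ ≤ 2 * (1 / 2 ^ j)) ∧
    Ex (j + 3) (fun ω : ℕ → St d => ind ((8 : ℝ) • Zp (j + 3) ω = y')) * ENNReal.ofReal A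
      ≤ Ex n (fun ω : ℕ → St d => ind ((8 : ℝ) • Zp (j + 3) ω = y') *
          ‖avg (hb φ F) (XR s (1 / 2 ^ J3) 0 8 ω) (ρR s (1 / 2 ^ J3) 0 8 ω)‖ₑ) := by
  have hscale : (8 : ℝ) / 2 ^ (j + 3) = 1 / 2 ^ j := by
    rw [pow_add]; field_simp; norm_num
  constructor
  · intro ω hω
    have h1 := (XR_dist s (1 / 2 ^ J3) (0 : E d) (r := 8) (by norm_num) ω (j + 3)).1 (Kv1_unres hs hJ3 hsy hω).le
    rw [zero_add, hω, hscale] at h1
    exact h1
  · set m : E d → ℝ → VV d := avg (hb φ F) with hm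
    have hRef : RefEq m := avg_refEq hd (hb_locallyIntegrable hF)
    have hdep0 : Dep (j + 3) (fun ω : ℕ → St d => ((8 : ℝ) • Zp (j + 3) ω = y')) := by
      intro ω ω' h
      simp only
      rw [Zp_dep (j + 3) ω ω' h]
    have hX : Dep (j + 3) (fun ω : ℕ → St d => ind ((8 : ℝ) • Zp (j + 3) ω = y') * av m 0 8 ω (j + 3)) := by
      intro ω ω' h
      simp only
      have e2 : av m 0 8 ω (j + 3) = av m 0 8 ω' (j + 3) := av_dep m 0 8 (j + 3) ω ω' h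
      rw [Zp_dep (j + 3) ω ω' h, e2]
    have key : Ex n (fun ω : ℕ → St d => ind ((8 : ℝ) • Zp (j + 3) ω = y') * av m 0 8 ω (j + 3))
        ≤ Ex n (fun ω : ℕ → St d => ind ((8 : ℝ) • Zp (j + 3) ω = y') *
          ‖m (XR s (1 / 2 ^ J3) 0 8 ω) (ρR s (1 / 2 ^ J3) 0 8 ω)‖ₑ) := by
      refine osi_lower hRef 0 (by norm_num : (0 : ℝ) < 8) n
        (fun l ω => ((8 : ℝ) • Zp (j + 3) ω = y' ∧ (j + 3 ≤ l ∧ l < Rl s (1 / 2 ^ J3) 0 8 ω))) ?_ _ _ ?_
      · intro l _ ω ω' h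
        simp only
        by_cases hl : j + 3 ≤ l
        · have e1 : ((8 : ℝ) • Zp (j + 3) ω = y') = ((8 : ℝ) • Zp (j + 3) ω' = y') :=
            hdep0 ω ω' (fun i hi => h i (by omega))
          have e2 : (l < Rl s (1 / 2 ^ J3) 0 8 ω) = (l < Rl s (1 / 2 ^ J3) 0 8 ω') :=
            (Rl_dep hs J3 3 (0 : E d) (r := 8) (by norm_num) l).2 ω ω' h
          rw [e1, e2]
        · simp [hl]
      · intro ω
        by_cases hω : (8 : ℝ) • Zp (j + 3) ω = y'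
        · have hR1 := Kv1_unres hs hJ3 hsy hω
          have hR2 := Rl_le hs J3 3 (0 : E d) (r := 8) (by norm_num) ω
          have h3 := Kv1_tele (av m 0 8 ω) hR1.le (hR2.trans hn)
          have h4 : ∀ l, ind ((8 : ℝ) • Zp (j + 3) ω = y' ∧ (j + 3 ≤ l ∧ l < Rl s (1 / 2 ^ J3) 0 8 ω))
              = ind (j + 3 ≤ l ∧ l < Rl s (1 / 2 ^ J3) 0 8 ω) := by
            intro l
            refine Kv1_ind_congr ?_
            simp [hω]
          simp only [h4]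
          rw [Kv1_ind_true hω, one_mul, one_mul]
          exact h3.le
        · have h4 : ∀ l, ind ((8 : ℝ) • Zp (j + 3) ω = y' ∧ (j + 3 ≤ l ∧ l < Rl s (1 / 2 ^ J3) 0 8 ω)) = 0 := by
            intro l
            exact Kv1_ind_false (fun h => hω h.1)
          simp only [h4]
          rw [Kv1_ind_false hω]
          simp
    refine le_trans ?_ key
    rw [Ex_dep (by omega : j + 3 ≤ n) hX, mul_comm, ← Ex_mul]
    refine Ex_mono _ fun ω => ?_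
    by_cases hω : (8 : ℝ) • Zp (j + 3) ω = y'
    · rw [Kv1_ind_true hω, one_mul, mul_one]
      unfold av
      rw [zero_add, hω, hscale, ← ofReal_norm]
      exact ENNReal.ofReal_le_ofReal hA.le
    · rw [Kv1_ind_false hω, mul_zero]
      exact zero_le

end HG
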