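import Pool.Agent.W_MP_825298_an.MVDefs

/-! The Dirichlet principle above a Lipschitz graph: definitions. -/

open MeasureTheory Set Filter Topology
open scoped ENNReal NNReal BigOperators

namespace HG
variable {d : ℕ}

/-- Lipschitz functions with bounded support -/
structure LipB (w : P d → ℝ) : Prop where
  lip : ∃ K : ℝ≥0, LipschitzWith K w
  supp : ∃ B : ℝ, ∀ X, B ≤ ‖X‖ → w X = 0

/-- competitors: boundary values `ζ` on the graph of `ψ` -/
structure Comp (ψ ζ : E d → ℝ) (w : P d → ℝ) : Prop extends LipB w where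
  bd : ∀ x, w (x, ψ x) = ζ x

/-- Dirichlet energy -/
noncomputable def en (ψ : E d → ℝ) (w : P d → ℝ) : ℝ := ∫ X in above ψ, ∑ a : Ix d, (pd a w X) ^ 2

/-- infimum of the energy -/
noncomputable def enInf (ψ ζ : E d → ℝ) : ℝ := sInf {e | ∃ w, Comp ψ ζ w ∧ e = en ψ w}

/-- minimising sequences -/
def IsMinSeq (ψ ζ : E d → ℝ) (w : ℕ → P d → ℝ) : Prop :=
  (∀ m, Comp ψ ζ (w m)) ∧ Tendsto (fun m => en ψ (w m)) atTop (𝓝 (enInf ψ ζ))

/-- admissible boundary functions -/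
structure BdFun (ζ : E d → ℝ) : Prop where
  lip : ∃ K : ℝ≥0, LipschitzWith K ζ
  supp : ∃ B : ℝ, ∀ x, B ≤ ‖x‖ → ζ x = 0
  nn : ∀ x, 0 ≤ ζ x
  le1 : ∀ x, ζ x ≤ 1

end HG
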