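import Pool.Agent.W_MP_825298_an.KDefs
import Pool.Agent.W_MP_825298_an.VarDefs

open MeasureTheory Set Filter Topology
open scoped ENNReal NNReal BigOperators

namespace HG
variable {d : ℕ}

/-- the bump of one stop -/
noncomputable def zb (C3 : ℝ) (y : E d) (p : ℕ × E d) : ℝ≥0 :=
  Real.toNNReal (2 - ‖y - p.2‖ / (C3 * (1 / 2 ^ p.1)))

theorem zet_eq_zb (T : Finset (ℕ × E d)) (C3 : ℝ) (y : E d) :
    zet T C3 y = min 1 ((T.sup (zb C3 y) : ℝ≥0) : ℝ) := rfl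

theorem kv2_scale_pos {C3 : ℝ} (hC3 : 0 < C3) (j : ℕ) : 0 < C3 * (1 / 2 ^ j) := by positivity

theorem zb_lip {C3 : ℝ} (hC3 : 0 < C3) (p : ℕ × E d) (y z : E d) :
    zb C3 y p ≤ zb C3 z p + Real.toNNReal (1 / (C3 * (1 / 2 ^ p.1))) * ‖y - z‖₊ := by
  have hc := kv2_scale_pos hC3 p.1
  have h1 : 2 - ‖y - p.2‖ / (C3 * (1 / 2 ^ p.1)) ≤ (2 - ‖z - p.2‖ / (C3 * (1 / 2 ^ p.1))) +
      1 / (C3 * (1 / 2 ^ p.1)) * ‖y - z‖ := by
    have h2 : ‖z - p.2‖ ≤ ‖y - p.2‖ + ‖y - z‖ := by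
      have := norm_sub_le_norm_sub_add_norm_sub z y p.2
      rw [norm_sub_rev z y] at this
      linarith
    have h3 : ‖z - p.2‖ / (C3 * (1 / 2 ^ p.1)) ≤ (‖y - p.2‖ + ‖y - z‖) / (C3 * (1 / 2 ^ p.1)) :=
      div_le_div_of_nonneg_right h2 hc.le
    rw [add_div] at h3
    have h4 : 1 / (C3 * (1 / 2 ^ p.1)) * ‖y - z‖ = ‖y - z‖ / (C3 * (1 / 2 ^ p.1)) := by ring
    rw [h4]
    linarith
  have h2 : zb C3 y p ≤ Real.toNNReal ((2 - ‖z - p.2‖ / (C3 * (1 / 2 ^ p.1))) +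
      1 / (C3 * (1 / 2 ^ p.1)) * ‖y - z‖) := Real.toNNReal_le_toNNReal h1
  refine h2.trans ((Real.toNNReal_add_le).trans ?_)
  rw [Real.toNNReal_mul (by positivity), norm_toNNReal]
  exact le_rfl

theorem zb_zero {C3 : ℝ} (hC3 : 0 < C3) (p : ℕ × E d) {y : E d} (h : 2 * C3 * (1 / 2 ^ p.1) ≤ ‖y - p.2‖) :
    zb C3 y p = 0 := by
  have hc := kv2_scale_pos hC3 p.1
  unfold zb
  rw [Real.toNNReal_eq_zero]
  have : 2 ≤ ‖y - p.2‖ / (C3 * (1 / 2 ^ p.1)) := by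
    rw [le_div_iff₀ hc]; linarith
  linarith

theorem zet_eq_zero {T : Finset (ℕ × E d)} {C3 : ℝ} (hC3 : 0 < C3) {y : E d}
    (h : ∀ p ∈ T, 2 * C3 * (1 / 2 ^ p.1) ≤ ‖y - p.2‖) : zet T C3 y = 0 := by
  rw [zet_eq_zb]
  have : T.sup (zb C3 y) = 0 := by
    rw [← bot_eq_zero', Finset.sup_eq_bot_iff]
    intro p hp
    rw [zb_zero hC3 p (h p hp)]
    rfl
  rw [this]; simp

/-- the boundary function `zet` -/
theorem zet_bdFun (T : Finset (ℕ × E d)) {C3 : ℝ} (hC3 : 0 < C3) : BdFun (zet T C3) := by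
  constructor
  · refine ⟨T.sup (fun p => Real.toNNReal (1 / (C3 * (1 / 2 ^ p.1)))), ?_⟩
    set K : ℝ≥0 := T.sup (fun p => Real.toNNReal (1 / (C3 * (1 / 2 ^ p.1)))) with hK
    have key : ∀ y z : E d, T.sup (zb C3 y) ≤ T.sup (zb C3 z) + K * ‖y - z‖₊ := by
      intro y z
      refine Finset.sup_le ?_
      intro p hp
      refine (zb_lip hC3 p y z).trans ?_
      refine add_le_add (Finset.le_sup hp) ?_
      refine mul_le_mul_left ?_ _
      exact Finset.le_sup (f := fun p : ℕ × E d => Real.toNNReal (1 / (C3 * (1 / 2 ^ p.1)))) hp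
    have key2 : ∀ y z : E d, zet T C3 y ≤ zet T C3 z + K * ‖y - z‖ := by
      intro y z
      have h1 : ((T.sup (zb C3 y) : ℝ≥0) : ℝ) ≤ ((T.sup (zb C3 z) : ℝ≥0) : ℝ) + K * ‖y - z‖ := by
        have := key y z
        have h2 : ((T.sup (zb C3 y) : ℝ≥0) : ℝ) ≤ ((T.sup (zb C3 z) + K * ‖y - z‖₊ : ℝ≥0) : ℝ) := by
          exact_mod_cast this
        simpa using h2
      rw [zet_eq_zb, zet_eq_zb]
      have hn : 0 ≤ (K : ℝ) * ‖y - z‖ := by positivity
      rcases le_total (1 : ℝ) ((T.sup (zb C3 z) : ℝ≥0) : ℝ) with h | h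
      · rw [min_eq_left h]
        exact (min_le_left _ _).trans (by linarith)
      · rw [min_eq_right h]
        exact (min_le_right _ _).trans h1
    refine LipschitzWith.of_dist_le_mul ?_
    intro y z
    rw [Real.dist_eq, dist_eq_norm, abs_sub_le_iff]
    constructor
    · linarith [key2 y z]
    · have := key2 z y
      rw [norm_sub_rev z y] at this
      linarith
  · refine ⟨∑ p ∈ T, (‖p.2‖ + 2 * C3 * (1 / 2 ^ p.1)), ?_⟩
    intro x hx
    refine zet_eq_zero hC3 ?_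
    intro p hp
    have h1 : ‖p.2‖ + 2 * C3 * (1 / 2 ^ p.1) ≤ ∑ p ∈ T, (‖p.2‖ + 2 * C3 * (1 / 2 ^ p.1)) :=
      Finset.single_le_sum (f := fun p : ℕ × E d => ‖p.2‖ + 2 * C3 * (1 / 2 ^ p.1))
        (fun q _ => by positivity) hp
    have h2 : ‖x‖ - ‖p.2‖ ≤ ‖x - p.2‖ := norm_sub_norm_le x p.2
    linarith
  · intro x
    rw [zet_eq_zb]
    exact le_min zero_le_one (NNReal.coe_nonneg _)
  · intro x
    rw [zet_eq_zb]
    exact min_le_left _ _

theorem zet_one {T : Finset (ℕ × E d)} {C3 : ℝ} (hC3 : 0 < C3) {j : ℕ} {y' : E d} (h : (j, y') ∈ T) {y : E d}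
    (hy : ‖y - y'‖ ≤ C3 * (1 / 2 ^ j)) : zet T C3 y = 1 := by
  have hc := kv2_scale_pos hC3 j
  rw [zet_eq_zb]
  refine min_eq_left ?_
  have h1 : zb C3 y (j, y') ≤ T.sup (zb C3 y) := Finset.le_sup h
  have h2 : (1 : ℝ) ≤ (zb C3 y (j, y') : ℝ) := by
    unfold zb
    refine le_trans ?_ (Real.le_coe_toNNReal _)
    have : ‖y - y'‖ / (C3 * (1 / 2 ^ j)) ≤ 1 := by
      rw [div_le_one hc]; exact hy
    show (1 : ℝ) ≤ 2 - ‖y - y'‖ / (C3 * (1 / 2 ^ j))
    linarith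
  exact h2.trans (by exact_mod_cast h1)

theorem zet_zero {T : Finset (ℕ × E d)} {C3 : ℝ} (hC3 : 0 < C3) (h8 : ∀ p ∈ T, ‖p.2‖ ≤ 8) (hj : ∀ p ∈ T, C3 * (1 / 2 ^ p.1) ≤ 1)
    {y : E d} (hy : 10 ≤ ‖y‖) : zet T C3 y = 0 := by
  refine zet_eq_zero hC3 ?_
  intro p hp
  have h1 := h8 p hp
  have h2 := hj p hp
  have h3 : ‖y‖ - ‖p.2‖ ≤ ‖y - p.2‖ := norm_sub_norm_le y p.2
  linarith

/-- Vitali: there is a subfamily `T'` of disjoint balls `closedBall y' (2 C3 2^{-j})` whose 5-fold enlargements cover the support of `zet` -/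
theorem zet_vitali (T : Finset (ℕ × E d)) {C3 : ℝ} (hC3 : 1 ≤ C3) : ∃ T' : Finset (ℕ × E d), T' ⊆ T ∧
    (∀ p ∈ T', ∀ p' ∈ T', p ≠ p' → Disjoint (Metric.closedBall p.2 (2 * C3 * (1 / 2 ^ p.1))) (Metric.closedBall p'.2 (2 * C3 * (1 / 2 ^ p'.1)))) ∧
    ∫⁻ y : E d, ENNReal.ofReal ((zet T C3 y) ^ 2) ≤ ∑ p ∈ T', ENNReal.ofReal ((20 * C3 * (1 / 2 ^ p.1)) ^ d) := by
  classical
  have hC0 : 0 < C3 := by linarith
  obtain ⟨u, hu, hdis, hcov⟩ := Vitali.exists_disjoint_subfamily_covering_enlargement_closedBall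
    (T : Set (ℕ × E d)) (fun p => p.2) (fun p => 2 * C3 * (1 / 2 ^ p.1)) (2 * C3) (by
      intro p _
      have : (1 : ℝ) / 2 ^ p.1 ≤ 1 := by
        rw [div_le_one (by positivity)]
        exact one_le_pow₀ (by norm_num)
      show 2 * C3 * (1 / 2 ^ p.1) ≤ 2 * C3
      nlinarith) 5 (by norm_num)
  have hufin : u.Finite := T.finite_toSet.subset hu
  refine ⟨hufin.toFinset, ?_, ?_, ?_⟩
  · intro p hp
    exact hu (hufin.mem_toFinset.mp hp)
  · intro p hp p' hp' hne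
    exact hdis (hufin.mem_toFinset.mp hp) (hufin.mem_toFinset.mp hp') hne
  · have hle : ∀ y : E d, ENNReal.ofReal ((zet T C3 y) ^ 2) ≤
        (⋃ p ∈ hufin.toFinset, Metric.closedBall p.2 (10 * C3 * (1 / 2 ^ p.1))).indicator (fun _ => (1 : ℝ≥0∞)) y := by
      intro y
      by_cases hy : y ∈ ⋃ p ∈ hufin.toFinset, Metric.closedBall p.2 (10 * C3 * (1 / 2 ^ p.1))
      · rw [indicator_of_mem hy]
        have h0 := (zet_bdFun T hC0).nn y
        have h1 := (zet_bdFun T hC0).le1 y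
        rw [ENNReal.ofReal_le_one]
        nlinarith
      · have : zet T C3 y = 0 := by
          refine zet_eq_zero hC0 ?_
          intro p hp
          by_contra hcon
          push Not at hcon
          obtain ⟨b, hb, hsub⟩ := hcov p hp
          apply hy
          have hmem : y ∈ Metric.closedBall p.2 (2 * C3 * (1 / 2 ^ p.1)) := by
            rw [Metric.mem_closedBall, dist_eq_norm]; exact hcon.le
          have h3 := hsub hmem
          rw [mem_iUnion₂]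
          refine ⟨b, hufin.mem_toFinset.mpr hb, ?_⟩
          rw [Metric.mem_closedBall] at h3 ⊢
          linarith
        rw [this]
        simp
    calc ∫⁻ y : E d, ENNReal.ofReal ((zet T C3 y) ^ 2)
        ≤ ∫⁻ y : E d, (⋃ p ∈ hufin.toFinset, Metric.closedBall p.2 (10 * C3 * (1 / 2 ^ p.1))).indicator
            (fun _ => (1 : ℝ≥0∞)) y := lintegral_mono hle
      _ = volume (⋃ p ∈ hufin.toFinset, Metric.closedBall p.2 (10 * C3 * (1 / 2 ^ p.1))) := by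
          rw [lintegral_indicator, setLIntegral_const, one_mul]
          exact Finset.measurableSet_biUnion _ (fun p _ => Metric.isClosed_closedBall.measurableSet)
      _ ≤ ∑ p ∈ hufin.toFinset, volume (Metric.closedBall p.2 (10 * C3 * (1 / 2 ^ p.1))) :=
          measure_biUnion_finset_le _ _
      _ = ∑ p ∈ hufin.toFinset, ENNReal.ofReal ((20 * C3 * (1 / 2 ^ p.1)) ^ d) := by
          refine Finset.sum_congr rfl ?_
          intro p _
          rw [Real.volume_pi_closedBall _ (by positivity), Fintype.card_fin]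
          congr 2
          ring

end HG
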