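import Pool.Agent.W_MP_825298_an.Kv1
import Pool.Agent.W_MP_825298_an.Kv2

open MeasureTheory Set Filter Topology
open scoped ENNReal NNReal BigOperators

namespace HG
variable {d : ℕ}

/-- disjoint events have total indicator at most one -/
theorem kv3_ind_sum {ι : Type*} (T : Finset ι) (P : ι → Prop)
    (h : ∀ i ∈ T, ∀ j ∈ T, P i → P j → i = j) : ∑ i ∈ T, ind (P i) ≤ 1 := by
  classical
  by_cases hex : ∃ i ∈ T, P i
  · obtain ⟨i, hi, hPi⟩ := hex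
    rw [Finset.sum_eq_single i]
    · unfold ind; rw [if_pos hPi]
    · intro j hj hne
      unfold ind
      rw [if_neg]
      intro hPj
      exact hne (h j hj i hi hPj hPi)
    · intro hni; exact absurd hi hni
  · push Not at hex
    rw [Finset.sum_eq_zero]
    · exact zero_le_one
    · intro i hi
      unfold ind
      rw [if_neg (hex i hi)]

/-- `A ‖zet‖₂² ≤ C E_{0,8} |m_R|`: `zet_vitali`, `hit_prob`, `pass_le` for each `p ∈ T'`; the events are disjoint because `XR` lies in the disjoint balls. -/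
theorem zet_L2 (hd : 1 ≤ d) (C3 : ℝ) (hC3 : 1 ≤ C3) : ∃ C : ℝ≥0, ∀ (M : ℝ≥0) (φ : E d → ℝ) (U : Set (P d)) (F : Ix d → P d → ℝ), GFd M φ U F →
    ∀ (A A' : ℝ) (N : ℕ) (S : Finset (ℕ × E d)), 0 < A → StopSet M φ F A A' N S → ∀ s : E d → ℝ, ResFun N s → ∀ J3 : ℕ, 4 ≤ J3 →
    ∀ n : ℕ, N + J3 + 3 ≤ n →
    ENNReal.ofReal A * ∫⁻ y : E d, ENNReal.ofReal ((zet (TopF φ F A s S) C3 y) ^ 2)
      ≤ C * Ex n (fun ω : ℕ → St d => ‖avg (hb φ F) (XR s (1 / 2 ^ J3) 0 8 ω) (ρR s (1 / 2 ^ J3) 0 8 ω)‖ₑ) := by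
  obtain ⟨c, hc, hhit⟩ := hit_prob d
  refine ⟨Real.toNNReal ((20 * C3) ^ d / c), ?_⟩
  intro M φ U F hF A A' N S hA hS s hs J3 hJ3 n hn
  obtain ⟨T', hT', hdis, hint⟩ := zet_vitali (TopF φ F A s S) hC3
  have hC0 : 0 < C3 := by linarith
  set g : (ℕ → St d) → ℝ≥0∞ :=
    fun ω => ‖avg (hb φ F) (XR s (1 / 2 ^ J3) 0 8 ω) (ρR s (1 / 2 ^ J3) 0 8 ω)‖ₑ with hg
  have hmem : ∀ p ∈ T', p.1 ≤ N ∧ p.2 ∈ Lat p.1 ∧ ‖p.2‖ ≤ 8 ∧ A < ‖avg (hb φ F) p.2 (1 / 2 ^ p.1)‖ ∧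
      s p.2 ≤ 3 * (1 / 2 ^ p.1) := by
    intro p hp
    have h1 := hT' hp
    unfold TopF at h1
    rw [Finset.mem_filter] at h1
    obtain ⟨hpS, h2, h3⟩ := h1
    have h4 := (hS p.1 p.2).mp hpS
    exact ⟨h4.1, h4.2.1, h4.2.2.1, h2, h3⟩
  have hpt : ∀ p ∈ T', ENNReal.ofReal A * ENNReal.ofReal ((20 * C3 * (1 / 2 ^ p.1)) ^ d) ≤
      ENNReal.ofReal ((20 * C3) ^ d / c) *
        Ex n (fun ω : ℕ → St d => ind ((8 : ℝ) • Zp (p.1 + 3) ω = p.2) * g ω) := by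
    intro p hp
    obtain ⟨h1, h2, h3, h4, h5⟩ := hmem p hp
    have h6 := hhit p.1 p.2 h2 h3
    have h7 := (pass_le hd hF hs hJ3 h1 h4 hA.le h5 hn).2
    have h8 : ENNReal.ofReal ((20 * C3 * (1 / 2 ^ p.1)) ^ d) =
        ENNReal.ofReal ((20 * C3) ^ d / c) * ENNReal.ofReal (c * (1 / 2 ^ p.1) ^ d) := by
      rw [← ENNReal.ofReal_mul (by positivity)]
      congr 1
      have h9 : (20 * C3 * (1 / 2 ^ p.1)) ^ d = (20 * C3) ^ d * (1 / 2 ^ p.1) ^ d := mul_pow _ _ _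
      rw [h9]
      field_simp
    calc ENNReal.ofReal A * ENNReal.ofReal ((20 * C3 * (1 / 2 ^ p.1)) ^ d)
        = ENNReal.ofReal ((20 * C3) ^ d / c) * (ENNReal.ofReal (c * (1 / 2 ^ p.1) ^ d) * ENNReal.ofReal A) := by
          rw [h8]; ring
      _ ≤ ENNReal.ofReal ((20 * C3) ^ d / c) *
          (Ex (p.1 + 3) (fun ω : ℕ → St d => ind ((8 : ℝ) • Zp (p.1 + 3) ω = p.2)) * ENNReal.ofReal A) := by
          gcongr
      _ ≤ ENNReal.ofReal ((20 * C3) ^ d / c) *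
        Ex n (fun ω : ℕ → St d => ind ((8 : ℝ) • Zp (p.1 + 3) ω = p.2) * g ω) := by
          gcongr
  calc ENNReal.ofReal A * ∫⁻ y : E d, ENNReal.ofReal ((zet (TopF φ F A s S) C3 y) ^ 2)
      ≤ ENNReal.ofReal A * ∑ p ∈ T', ENNReal.ofReal ((20 * C3 * (1 / 2 ^ p.1)) ^ d) := by gcongr
    _ = ∑ p ∈ T', ENNReal.ofReal A * ENNReal.ofReal ((20 * C3 * (1 / 2 ^ p.1)) ^ d) := by
        rw [Finset.mul_sum]
    _ ≤ ∑ p ∈ T', ENNReal.ofReal ((20 * C3) ^ d / c) *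
        Ex n (fun ω : ℕ → St d => ind ((8 : ℝ) • Zp (p.1 + 3) ω = p.2) * g ω) := Finset.sum_le_sum hpt
    _ = ENNReal.ofReal ((20 * C3) ^ d / c) *
        Ex n (fun ω : ℕ → St d => ∑ p ∈ T', ind ((8 : ℝ) • Zp (p.1 + 3) ω = p.2) * g ω) := by
        rw [← Finset.mul_sum, ← Ex_sum]
    _ ≤ ENNReal.ofReal ((20 * C3) ^ d / c) * Ex n g := by
        gcongr
        refine Ex_mono n ?_
        intro ω
        rw [← Finset.sum_mul]
        calc (∑ p ∈ T', ind ((8 : ℝ) • Zp (p.1 + 3) ω = p.2)) * g ω ≤ 1 * g ω := by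
              gcongr
              refine kv3_ind_sum T' _ ?_
              intro p hp p' hp' hP hP'
              by_contra hne
              obtain ⟨h1, h2, h3, h4, h5⟩ := hmem p hp
              obtain ⟨h1', h2', h3', h4', h5'⟩ := hmem p' hp'
              have h6 := (pass_le hd hF hs hJ3 h1 h4 hA.le h5 hn).1 ω hP
              have h6' := (pass_le hd hF hs hJ3 h1' h4' hA.le h5' hn).1 ω hP'
              have hdd := hdis p hp p' hp' hne
              have hsc : ∀ k : ℕ, (0 : ℝ) < 1 / 2 ^ k := fun k => by positivity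
              have m1 : XR s (1 / 2 ^ J3) 0 8 ω ∈ Metric.closedBall p.2 (2 * C3 * (1 / 2 ^ p.1)) := by
                rw [Metric.mem_closedBall, dist_eq_norm]
                have := hsc p.1
                nlinarith
              have m2 : XR s (1 / 2 ^ J3) 0 8 ω ∈ Metric.closedBall p'.2 (2 * C3 * (1 / 2 ^ p'.1)) := by
                rw [Metric.mem_closedBall, dist_eq_norm]
                have := hsc p'.1
                nlinarith
              exact Set.disjoint_left.mp hdd m1 m2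
          _ = g ω := one_mul _

end HG
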