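import Pool.Agent.W_MP_825298_an.Kb1
import Pool.Agent.W_MP_825298_an.Kb2
import Pool.Agent.W_MP_825298_an.Kr1
import Pool.Agent.W_MP_825298_an.Ks2

open MeasureTheory Set Filter Topology
open scoped ENNReal NNReal BigOperators

namespace HG
variable {d : ℕ}

/-- the box of size `8 c0` is contained in the box of size `c1` (`8 c0 = 32M+48 ≤ c1m`), the prefactor is `8^{-(d+1/2)} ≤ 1` -/
theorem WdE8_le {M : ℝ≥0} (φ : E d → ℝ) (F : Ix d → P d → ℝ) {c1 : ℝ} (hc1 : c1m M ≤ c1) :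
    WdE φ F (c0 M) 0 8 ≤ WdE φ F c1 0 1 := by
  have hM : (0 : ℝ) ≤ M := M.2
  have h1 : c0 M * 8 ≤ c1 * 1 := by
    unfold c0
    unfold c1m at hc1
    linarith
  unfold WdE
  refine mul_le_mul' (ENNReal.ofReal_le_ofReal ?_)
    (ks2_int_mono φ F (Metric.closedBall_subset_closedBall h1) h1)
  rw [Real.one_rpow]
  exact Real.rpow_le_one_of_one_le_of_nonpos (by norm_num) (by
    have : (0 : ℝ) ≤ d := Nat.cast_nonneg d
    linarith)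

/-- `avg_le_wE`, `wE_le_WdE`, `WdE8_le` -/
theorem m8_le (hd : 1 ≤ d) (M : ℝ≥0) : ∃ C : ℝ≥0, ∀ (φ : E d → ℝ) (U : Set (P d)) (F : Ix d → P d → ℝ), GFd M φ U F →
    ∀ c1 : ℝ, c1m M ≤ c1 → ‖avg (hb φ F) 0 8‖ₑ ≤ C * WdE φ F c1 0 1 := by
  obtain ⟨C, hC⟩ := avg_le_wE hd M
  refine ⟨C * Real.toNNReal (Real.sqrt (c0 M)), ?_⟩
  intro φ U F hF c1 hc1
  have hc : 0 < c0 M := by linarith [ks2_c0_pos M]
  calc ‖avg (hb φ F) 0 8‖ₑ ≤ C * wE φ F (c0 M) 0 8 := hC φ U F hF 0 8 (by norm_num)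
    _ ≤ C * (ENNReal.ofReal (Real.sqrt (c0 M)) * WdE φ F (c0 M) 0 8) :=
        mul_le_mul_right (wE_le_WdE φ F hc (by norm_num) 0) _
    _ ≤ C * (ENNReal.ofReal (Real.sqrt (c0 M)) * WdE φ F c1 0 1) :=
        mul_le_mul_right (mul_le_mul_right (WdE8_le φ F hc1) _) _
    _ = _ := by
        rw [← mul_assoc, ENNReal.coe_mul]
        rfl

variable {V : Type*} [NormedAddCommGroup V] [NormedSpace ℝ V]

/-- misalignment of the path from `(0,1)` before resolution: `l < R` (`≤ N+J3`) implies that there is no hit `j` with `j + J ≤ l`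
(such a `j` is `≤ N`, so `R ≤ j + J3 ≤ j + J ≤ l` by `hres`); the functional depends on the first `N+J3` steps only -/
theorem gam1_le {N : ℕ} {s : E d → ℝ} (hs : ResFun N s) {J3 J : ℕ} (hJ : J3 ≤ J) (m : E d → ℝ → V) (W : E d → ℝ → ℝ≥0∞)
    (κ A : ℝ≥0∞)
    (hres : ∀ ω : ℕ → St d, ∀ j ≤ N, Hit κ A (av m 0 1 ω) (wv W 0 1 ω) (av m 0 1 ω 0) j → Rl s (1 / 2 ^ J3) 0 1 ω ≤ j + J3)
    {n : ℕ} (hn : N + J3 ≤ n) :
    Ex n (fun ω : ℕ → St d => ∑ l ∈ Finset.range (Rl s (1 / 2 ^ J3) 0 1 ω), wv (gamE m) 0 1 ω l)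
      ≤ Ex (N + J) (fun ω : ℕ → St d => K2 κ A (av m 0 1 ω) (wv W 0 1 ω) (wv (gamE m) 0 1 ω) N J) := by
  have h1 : (1 : ℝ) ≤ 2 ^ 0 := by norm_num
  have hR : ∀ ω : ℕ → St d, Rl s (1 / 2 ^ J3) 0 1 ω ≤ N + J3 := fun ω => by
    have := Rl_le hs J3 0 0 h1 ω
    simpa using this
  have hdep : Dep (N + J3) (fun ω : ℕ → St d =>
      ∑ l ∈ Finset.range (Rl s (1 / 2 ^ J3) 0 1 ω), wv (gamE m) 0 1 ω l) := by
    intro ω ω' h
    have h2 := (Rl_dep hs J3 0 0 h1 (Rl s (1 / 2 ^ J3) 0 1 ω)).1 ω ω'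
      fun i hi => h i (lt_of_lt_of_le hi (hR ω))
    have h3 : Rl s (1 / 2 ^ J3) 0 1 ω' = Rl s (1 / 2 ^ J3) 0 1 ω := by
      exact (eq_iff_iff.1 h2).1 rfl
    simp only [h3]
    refine Finset.sum_congr rfl fun l hl => ?_
    exact wv_dep (gamE m) 0 1 l ω ω' fun i hi =>
      h i (lt_of_lt_of_le (hi.trans (Finset.mem_range.1 hl)) (hR ω))
  rw [Ex_dep hn hdep, ← Ex_dep (Nat.add_le_add_left hJ N) hdep]
  refine Ex_mono (N + J) fun ω => ?_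
  unfold K2
  have hRJ : Rl s (1 / 2 ^ J3) 0 1 ω ≤ N + J := (hR ω).trans (Nat.add_le_add_left hJ N)
  refine le_trans (Finset.sum_le_sum (g := fun l => ind (∀ j, j + J ≤ l →
    ¬ Hit κ A (av m 0 1 ω) (wv W 0 1 ω) (av m 0 1 ω 0) j) * wv (gamE m) 0 1 ω l) ?_)
    (Finset.sum_le_sum_of_subset (Finset.range_subset_range.2 hRJ))
  intro l hl
  have hl' := Finset.mem_range.1 hl
  have hnh : ∀ j, j + J ≤ l → ¬ Hit κ A (av m 0 1 ω) (wv W 0 1 ω) (av m 0 1 ω 0) j := by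
    intro j hj hh
    have hjN : j ≤ N := by omega
    have := hres ω j hjN hh
    omega
  have hi : ind (∀ j, j + J ≤ l → ¬ Hit κ A (av m 0 1 ω) (wv W 0 1 ω) (av m 0 1 ω 0) j) = 1 := by
    unfold ind
    simp only [if_pos hnh]
  rw [hi, one_mul]

end HG
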