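import Pool.Agent.W_MP_825298_an.Ka1

open MeasureTheory Set Filter Topology
open scoped ENNReal NNReal BigOperators

namespace HG
variable {d : ℕ}

theorem kz2_le (a : ℝ≥0∞) : a ≤ 1 + a ^ 2 := by
  rcases le_total a 1 with h | h
  · exact h.trans le_self_add
  · refine le_trans ?_ le_add_self
    calc a = a * 1 := (mul_one a).symm
      _ ≤ a * a := mul_le_mul_right h a
      _ = a ^ 2 := (pow_two a).symm

theorem kz2_lip {M : ℝ≥0} {φ s : E d → ℝ} (hφ : LipschitzWith M φ) (hs : LipschitzWith (1 / 4) s) {θ : ℝ}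
    (hθ : |θ| ≤ 1 / 2) : LipschitzWith (M + 1 / 4) (fun x => φ x + θ * s x) := by
  refine LipschitzWith.of_dist_le_mul fun x y => ?_
  have h1 := ka1_lipφ hφ x y
  have h2 := ka1_lip hs x y
  rw [Real.dist_eq, dist_eq_norm]
  have h3 : φ x + θ * s x - (φ y + θ * s y) = (φ x - φ y) + θ * (s x - s y) := by ring
  have h4 : |φ x + θ * s x - (φ y + θ * s y)| ≤ |φ x - φ y| + |θ| * |s x - s y| := by
    rw [h3, ← abs_mul]
    exact abs_add_le _ _
  have h5 : |θ| * |s x - s y| ≤ 1 / 2 * (1 / 4 * ‖x - y‖) :=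
    mul_le_mul hθ h2 (abs_nonneg _) (by norm_num)
  have h6 : ((M + 1 / 4 : ℝ≥0) : ℝ) = M + 1 / 4 := by
    rw [NNReal.coe_add]
    norm_num
  rw [h6]
  have h7 := norm_nonneg (x - y)
  linarith

/-- Integrals of `AA`. `AA_sq` with `K = CA` (for `|θ| ≤ 1/2` the function `g = φ + θ s` is `(M+1/4)`-Lipschitz and `φ - s + 2^{-N}/2 ≤ g`),
and `AA ≤ 1 + AA²` on the ball. -/
theorem AA_int (d : ℕ) (M : ℝ≥0) (CA : ℝ) : ∃ C : ℝ≥0, ∀ (φ : E d → ℝ), LipschitzWith M φ → ∀ (N : ℕ) (s : E d → ℝ), ResFun N s →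
    ∀ (G : Ix d → P d → ℝ), IsField (above (fun y => φ y - s y)) G →
    (∀ g : E d → ℝ, LipschitzWith (M + 1 / 4) g → (∃ ε : ℝ, 0 < ε ∧ ∀ x, φ x - s x + ε ≤ g x) →
      ∫⁻ x : E d, ENNReal.ofReal ((nF G (x, g x)) ^ 2) ≤ ENNReal.ofReal CA) →
    ∫⁻ z : E d, (AA φ G s (2 * cAA M) z) ^ 2 ≤ C ∧ ∫⁻ z in Metric.closedBall (0 : E d) 6, AA φ G s (2 * cAA M) z ≤ C := by
  obtain ⟨C, hC, hAA⟩ := AA_sq d M
  refine ⟨Real.toNNReal ((2 * 6) ^ d) + Real.toNNReal C * Real.toNNReal CA, ?_⟩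
  intro φ hφ N s hs G hG hg
  have hN : (0 : ℝ) < 1 / 2 ^ N := by positivity
  have hs0 : ∀ y, 0 < s y := fun y => hN.trans_le (hs.lower y)
  have hsq := hAA φ hφ s hs.lip hs0 G hG (ENNReal.ofReal CA) (by
    intro θ hθ
    refine hg (fun x => φ x + θ * s x) (kz2_lip hφ hs.lip hθ) ⟨1 / 2 ^ N / 2, by positivity, fun x => ?_⟩
    have h1 := hs.lower x
    have h2 := (abs_le.1 hθ).1
    have h3 := hs0 x
    nlinarith)
  have hsq' : ∫⁻ z : E d, (AA φ G s (2 * cAA M) z) ^ 2 ≤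
      ((Real.toNNReal C * Real.toNNReal CA : ℝ≥0) : ℝ≥0∞) := by
    rw [ENNReal.coe_mul]
    exact hsq
  rw [ENNReal.coe_add]
  refine ⟨hsq'.trans le_add_self, ?_⟩
  calc ∫⁻ z in Metric.closedBall (0 : E d) 6, AA φ G s (2 * cAA M) z
      ≤ ∫⁻ z in Metric.closedBall (0 : E d) 6, (1 + (AA φ G s (2 * cAA M) z) ^ 2) :=
        lintegral_mono fun z => kz2_le _
    _ = (∫⁻ _z in Metric.closedBall (0 : E d) 6, 1) +
        ∫⁻ z in Metric.closedBall (0 : E d) 6, (AA φ G s (2 * cAA M) z) ^ 2 :=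
        lintegral_add_left measurable_const _
    _ ≤ _ := by
        refine add_le_add ?_ ((setLIntegral_le_lintegral _ _).trans hsq')
        rw [lintegral_const, Measure.restrict_apply_univ, one_mul,
          Real.volume_pi_closedBall _ (by norm_num), Fintype.card_fin]
        exact le_rfl

end HG
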