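import Pool.Agent.W_MP_825298_an.Ka1
import Pool.Agent.W_MP_825298_an.Kr2
import Pool.Agent.W_MP_825298_an.Kr3
import Pool.Agent.W_MP_825298_an.Kd1
import Pool.Agent.W_MP_825298_an.Ks2

open MeasureTheory Set Filter Topology
open scoped ENNReal NNReal BigOperators

namespace HG
variable {d : ℕ}

theorem Kz3_cAA_pos (M : ℝ≥0) : 0 < cAA M := by
  unfold cAA
  positivity

theorem Kz3_2cAA (M : ℝ≥0) : 2 * cAA M ≤ 1 / (4 * (1 + (M : ℝ))) := by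
  have hM : (0 : ℝ) ≤ M := M.2
  refine le_of_eq ?_
  unfold cAA
  field_simp
  norm_num

theorem Kz3_c6_pos (M : ℝ≥0) : 0 < cAA M / (4 * (1 + (M : ℝ))) := by
  have := Kz3_cAA_pos M
  positivity

theorem Kz3_c6_le (M : ℝ≥0) : cAA M / (4 * (1 + (M : ℝ))) ≤ 1 / 8 := by
  have hM : (0 : ℝ) ≤ M := M.2
  have h1 : cAA M ≤ 1 / 8 := by
    unfold cAA
    exact one_div_le_one_div_of_le (by norm_num) (by linarith)
  calc cAA M / (4 * (1 + (M : ℝ))) ≤ cAA M / 1 :=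
        div_le_div_of_nonneg_left (Kz3_cAA_pos M).le one_pos (by linarith)
    _ ≤ 1 / 8 := by rw [div_one]; exact h1

theorem Kz3_s_pos {N : ℕ} {s : E d → ℝ} (hs : ResFun N s) (y : E d) : 0 < s y :=
  lt_of_lt_of_le (by positivity) (hs.lower y)

theorem Kz3_ind_le (p : Prop) : ind p ≤ 1 := by
  classical
  unfold ind
  split_ifs <;> simp

/-- `SI2` with `α = AA(cAA)`, `β = C·AA(2cAA)` (`AA_slow`, `AA_measurable`), `c6 = cAA/(4(1+M)) ≤ 1/8` -/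
theorem err1 (hd : 1 ≤ d) (M : ℝ≥0) : ∃ C : ℝ, 0 < C ∧ ∃ J30 : ℕ, ∀ (φ : E d → ℝ) (U : Set (P d)) (F : Ix d → P d → ℝ), GFd M φ U F →
    ∀ (N J3 : ℕ) (s : E d → ℝ), ResFun N s → J30 ≤ J3 → ∀ B : ℝ, 0 ≤ B → WBP φ F s B →
    ∀ (G : Ix d → P d → ℝ), IsField (above (fun y => φ y - s y)) G →
    ∀ K : ℝ≥0∞, ∫⁻ z in Metric.closedBall (0 : E d) 6, AA φ G s (2 * cAA M) z ≤ K → ∀ n : ℕ, N + J3 + 3 ≤ n →
    Ex n (fun ω : ℕ → St d => ind (‖XR s (1 / 2 ^ J3) 0 8 ω‖ ≤ 5) *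
        (ENNReal.ofReal ((s (XR s (1 / 2 ^ J3) 0 8 ω))⁻¹) * AA φ G s (cAA M) (XR s (1 / 2 ^ J3) 0 8 ω) *
        (ENNReal.ofReal (ρR s (1 / 2 ^ J3) 0 8 ω) * wE φ F (c0 M) (XR s (1 / 2 ^ J3) 0 8 ω) (ρR s (1 / 2 ^ J3) 0 8 ω))))
      ≤ ENNReal.ofReal (C * ((1 / 2 ^ J3 : ℝ) ^ (1 / 2 : ℝ) * B)) * K := by
  obtain ⟨C2, hC2, J30, h2⟩ := SI2 hd M _ (Kz3_c6_pos M) (Kz3_c6_le M)
  obtain ⟨C3, hC3, h3⟩ := AA_slow d M
  refine ⟨C2 * C3, by positivity, J30, ?_⟩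
  intro φ U F hF N J3 s hs hJ B hB hW G hG K hK n hn
  have hs0 := fun y => Kz3_s_pos hs y
  have hm : Measurable (AA φ G s (2 * cAA M)) :=
    AA_measurable hF.lip hs.lip hs0 hG (by have := Kz3_cAA_pos M; positivity) (Kz3_2cAA M)
  have h4 := h2 φ U F hF N J3 s hs hJ B hB hW (AA φ G s (cAA M))
    (fun z => ENNReal.ofReal C3 * AA φ G s (2 * cAA M) z) (hm.const_mul _)
    (fun x z hxz => h3 φ hF.lip s hs.lip hs0 G x z hxz) n hn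
  refine h4.trans ?_
  rw [lintegral_const_mul _ hm, mul_comm C2 C3, mul_assoc C3 C2, ENNReal.ofReal_mul hC3.le,
    ← mul_assoc, mul_comm (ENNReal.ofReal (C2 * _)) (ENNReal.ofReal C3)]
  exact mul_le_mul' le_rfl hK

/-- `dom3` with `Φ x ρ = ind (‖x‖ ≤ 5) * (ofReal ρ * wE φ F (c0 M) x ρ)` (`‖XR‖ ≤ 2` for the path from `(0,1)`), then `SI2` with `α = β = 1`
(`s⁻¹ ≥ 4`) -/
theorem err0 (hd : 1 ≤ d) (M : ℝ≥0) : ∃ C : ℝ, 0 < C ∧ ∃ J30 : ℕ, ∀ (φ : E d → ℝ) (U : Set (P d)) (F : Ix d → P d → ℝ), GFd M φ U F →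
    ∀ (N J3 : ℕ) (s : E d → ℝ), ResFun N s → J30 ≤ J3 → ∀ B : ℝ, 0 ≤ B → WBP φ F s B → ∀ n : ℕ, N + J3 ≤ n →
    Ex n (fun ω : ℕ → St d => ENNReal.ofReal (ρR s (1 / 2 ^ J3) 0 1 ω) *
        wE φ F (c0 M) (XR s (1 / 2 ^ J3) 0 1 ω) (ρR s (1 / 2 ^ J3) 0 1 ω))
      ≤ ENNReal.ofReal (C * ((1 / 2 ^ J3 : ℝ) ^ (1 / 2 : ℝ) * B)) := by
  obtain ⟨C2, hC2, J30, h2⟩ := SI2 hd M (1 / 8) (by norm_num) le_rfl
  obtain ⟨C0, h0⟩ := dom3 d
  have hV : (volume (Metric.closedBall (0 : E d) 6)) ≠ ⊤ := measure_closedBall_lt_top.ne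
  set V : ℝ := (volume (Metric.closedBall (0 : E d) 6)).toReal with hVdef
  have hV0 : 0 ≤ V := ENNReal.toReal_nonneg
  have hVe : volume (Metric.closedBall (0 : E d) 6) = ENNReal.ofReal V := by
    rw [hVdef, ENNReal.ofReal_toReal hV]
  refine ⟨((C0 : ℝ) + 1) * (V + 1) * C2, by positivity, J30, ?_⟩
  intro φ U F hF N J3 s hs hJ B hB hW n hn
  have hs0 := fun y => Kz3_s_pos hs y
  set Φ : E d → ℝ → ℝ≥0∞ := fun x ρ => ind (‖x‖ ≤ 5) * (ENNReal.ofReal ρ * wE φ F (c0 M) x ρ) with hΦ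
  have e1 : ∀ ω : ℕ → St d, ENNReal.ofReal (ρR s (1 / 2 ^ J3) 0 1 ω) *
        wE φ F (c0 M) (XR s (1 / 2 ^ J3) 0 1 ω) (ρR s (1 / 2 ^ J3) 0 1 ω) =
      Φ (XR s (1 / 2 ^ J3) 0 1 ω) (ρR s (1 / 2 ^ J3) 0 1 ω) := by
    intro ω
    have h5 : ‖XR s (1 / 2 ^ J3) 0 1 ω‖ ≤ 5 := by
      unfold XR
      rw [zero_add, one_smul]
      refine (norm_Zp_le _ ω).trans ?_
      have : (0 : ℝ) < ((2 : ℝ) ^ (Rl s (1 / 2 ^ J3) 0 1 ω))⁻¹ := by positivity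
      linarith
    have h6 : ind (‖XR s (1 / 2 ^ J3) 0 1 ω‖ ≤ 5) = 1 := by
      classical
      unfold ind
      exact if_pos h5
    simp only [hΦ, h6, one_mul]
  have h3 := h0 N J3 s hs Φ n (N + J3 + 3) hn le_rfl
  have h4 := h2 φ U F hF N J3 s hs hJ B hB hW (fun _ => 1) (fun _ => 1) measurable_const
    (fun _ _ _ => le_rfl) (N + J3 + 3) le_rfl
  have h5 : Ex (N + J3 + 3) (fun ω : ℕ → St d => Φ (XR s (1 / 2 ^ J3) 0 8 ω) (ρR s (1 / 2 ^ J3) 0 8 ω))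
      ≤ ENNReal.ofReal (C2 * ((1 / 2 ^ J3 : ℝ) ^ (1 / 2 : ℝ) * B)) * ENNReal.ofReal V := by
    refine (Ex_mono _ fun ω => ?_).trans (h4.trans (le_of_eq ?_))
    · simp only [hΦ]
      refine mul_le_mul' le_rfl ?_
      have h6 : (1 : ℝ≥0∞) ≤ ENNReal.ofReal ((s (XR s (1 / 2 ^ J3) 0 8 ω))⁻¹) * 1 := by
        rw [mul_one, ENNReal.one_le_ofReal]
        exact (one_le_inv₀ (hs0 _)).2 ((hs.upper _).trans (by norm_num))
      calc ENNReal.ofReal (ρR s (1 / 2 ^ J3) 0 8 ω) *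
            wE φ F (c0 M) (XR s (1 / 2 ^ J3) 0 8 ω) (ρR s (1 / 2 ^ J3) 0 8 ω)
          = 1 * (ENNReal.ofReal (ρR s (1 / 2 ^ J3) 0 8 ω) *
            wE φ F (c0 M) (XR s (1 / 2 ^ J3) 0 8 ω) (ρR s (1 / 2 ^ J3) 0 8 ω)) := (one_mul _).symm
        _ ≤ _ := mul_le_mul' h6 le_rfl
    · rw [lintegral_one, Measure.restrict_apply_univ, hVe]
  calc Ex n (fun ω : ℕ → St d => ENNReal.ofReal (ρR s (1 / 2 ^ J3) 0 1 ω) *
        wE φ F (c0 M) (XR s (1 / 2 ^ J3) 0 1 ω) (ρR s (1 / 2 ^ J3) 0 1 ω))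
      = Ex n (fun ω : ℕ → St d => Φ (XR s (1 / 2 ^ J3) 0 1 ω) (ρR s (1 / 2 ^ J3) 0 1 ω)) := by
        congr 1
        funext ω
        exact e1 ω
    _ ≤ C0 * (ENNReal.ofReal (C2 * ((1 / 2 ^ J3 : ℝ) ^ (1 / 2 : ℝ) * B)) * ENNReal.ofReal V) :=
        h3.trans (mul_le_mul' le_rfl h5)
    _ ≤ ENNReal.ofReal ((C0 : ℝ) + 1) * (ENNReal.ofReal (C2 * ((1 / 2 ^ J3 : ℝ) ^ (1 / 2 : ℝ) * B)) *
          ENNReal.ofReal (V + 1)) := by
        refine mul_le_mul' ?_ (mul_le_mul' le_rfl (ENNReal.ofReal_le_ofReal (by linarith)))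
        rw [← ENNReal.ofReal_coe_nnreal]
        exact ENNReal.ofReal_le_ofReal (by linarith)
    _ = _ := by
        rw [← ENNReal.ofReal_mul (by positivity), ← ENNReal.ofReal_mul (by positivity)]
        congr 1
        ring

/-- `‖m_R‖ ≤ C (s/ρR)^{d+1/2} B ≤ C (3·2^{J3})^{d+1/2} B` (`avg_le_of_wbp`, `ρR_lower`; `c0 ρR ≤ c0 2^{-J3} s ≤ s/4`), `nF G ≤ C AA(cAA)` at the
centre (`AA_bound`), `SI1` with `α = AA(cAA)²`, `β = (C·AA(2cAA))²` (`2·2^{-J3} ≤ cAA/(4(1+M))`) -/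
theorem err2 (hd : 1 ≤ d) (M : ℝ≥0) : ∃ C : ℝ, 0 < C ∧ ∃ J30 : ℕ, ∀ (φ : E d → ℝ) (U : Set (P d)) (F : Ix d → P d → ℝ), GFd M φ U F →
    ∀ (N J3 : ℕ) (s : E d → ℝ), ResFun N s → J30 ≤ J3 → ∀ B : ℝ, 0 ≤ B → WBP φ F s B →
    ∀ (G : Ix d → P d → ℝ), IsField (above (fun y => φ y - s y)) G →
    ∀ K : ℝ≥0∞, ∫⁻ z : E d, (AA φ G s (2 * cAA M) z) ^ 2 ≤ K → ∀ n : ℕ, N + J3 + 3 ≤ n →
    Ex n (fun ω : ℕ → St d => ind (‖XR s (1 / 2 ^ J3) 0 8 ω‖ ≤ 5) *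
        (ENNReal.ofReal ((nF G (XR s (1 / 2 ^ J3) 0 8 ω, φ (XR s (1 / 2 ^ J3) 0 8 ω))) ^ 2) *
          ‖avg (hb φ F) (XR s (1 / 2 ^ J3) 0 8 ω) (ρR s (1 / 2 ^ J3) 0 8 ω)‖ₑ))
      ≤ ENNReal.ofReal (C * ((2 : ℝ) ^ J3) ^ (d + 1) * B) * K := by
  obtain ⟨C3, hC3, h3⟩ := AA_slow d M
  obtain ⟨C4, hC4, h4⟩ := avg_le_of_wbp hd M
  obtain ⟨C5, hC5, h5⟩ := AA_bound d M
  have hM : (0 : ℝ) ≤ M := M.2
  have hc0 : 0 < c0 M := by
    unfold c0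
    positivity
  obtain ⟨J30, hJ30⟩ := pow_unbounded_of_one_lt (max (4 * c0 M) (2 / (cAA M / (4 * (1 + (M : ℝ))))))
    (by norm_num : (1 : ℝ) < 2)
  refine ⟨C5 ^ 2 * C4 * 3 ^ (d + 1) * C3 ^ 2, by positivity, J30, ?_⟩
  intro φ U F hF N J3 s hs hJ B hB hW G hG K hK n hn
  have hs0 := fun y => Kz3_s_pos hs y
  have hJ3 : max (4 * c0 M) (2 / (cAA M / (4 * (1 + (M : ℝ))))) < 2 ^ J3 :=
    hJ30.trans_le (pow_le_pow_right₀ (by norm_num) hJ)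
  have hJa : 4 * c0 M < 2 ^ J3 := (le_max_left _ _).trans_lt hJ3
  have hJb : 2 * (1 / 2 ^ J3) ≤ cAA M / (4 * (1 + (M : ℝ))) := by
    have h6 := ((le_max_right _ _).trans_lt hJ3).le
    rw [div_le_iff₀ (Kz3_c6_pos M)] at h6
    rw [mul_one_div, div_le_iff₀ (by positivity), mul_comm]
    exact h6
  have hm : Measurable (AA φ G s (2 * cAA M)) :=
    AA_measurable hF.lip hs.lip hs0 hG (by have := Kz3_cAA_pos M; positivity) (Kz3_2cAA M)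
  have hSI := SI1 hd hs J3 (α := fun x => (AA φ G s (cAA M) x) ^ 2)
    (β := fun z => (ENNReal.ofReal C3 * AA φ G s (2 * cAA M) z) ^ 2)
    ((hm.const_mul _).pow_const 2)
    (fun x z hxz => by
      have h7 : ‖x - z‖ ≤ cAA M / (4 * (1 + (M : ℝ))) * s x :=
        hxz.trans (mul_le_mul_of_nonneg_right hJb (hs0 x).le)
      exact pow_le_pow_left' (h3 φ hF.lip s hs.lip hs0 G x z h7) 2) hn
  have hSI' : Ex n (fun ω : ℕ → St d => ind (‖XR s (1 / 2 ^ J3) 0 8 ω‖ ≤ 5) *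
      (AA φ G s (cAA M) (XR s (1 / 2 ^ J3) 0 8 ω)) ^ 2) ≤ ENNReal.ofReal (C3 ^ 2) * K := by
    refine hSI.trans ((setLIntegral_le_lintegral _ _).trans ?_)
    simp only [mul_pow]
    rw [lintegral_const_mul _ (hm.pow_const 2), ← ENNReal.ofReal_pow hC3.le]
    exact mul_le_mul' le_rfl hK
  have hpt : ∀ ω : ℕ → St d, ind (‖XR s (1 / 2 ^ J3) 0 8 ω‖ ≤ 5) *
        (ENNReal.ofReal ((nF G (XR s (1 / 2 ^ J3) 0 8 ω, φ (XR s (1 / 2 ^ J3) 0 8 ω))) ^ 2) *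
          ‖avg (hb φ F) (XR s (1 / 2 ^ J3) 0 8 ω) (ρR s (1 / 2 ^ J3) 0 8 ω)‖ₑ)
      ≤ ENNReal.ofReal (C5 ^ 2 * C4 * 3 ^ (d + 1) * ((2 : ℝ) ^ J3) ^ (d + 1) * B) *
        (ind (‖XR s (1 / 2 ^ J3) 0 8 ω‖ ≤ 5) * (AA φ G s (cAA M) (XR s (1 / 2 ^ J3) 0 8 ω)) ^ 2) := by
    intro ω
    have hspec := Rl_spec hs J3 3 (0 : E d) (r := 8) (by norm_num) ω
    have hlow := ρR_lower hs J3 3 (0 : E d) (r := 8) (by norm_num) (by norm_num) (by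
      have h8 : (1 : ℝ) / 2 ^ J3 ≤ 1 := by
        rw [div_le_one (by positivity)]
        exact one_le_pow₀ (by norm_num)
      have h9 := hs.upper (0 : E d)
      have h10 := hs0 (0 : E d)
      calc (1 : ℝ) / 2 ^ J3 * s 0 ≤ 1 * s 0 := mul_le_mul_of_nonneg_right h8 h10.le
        _ < 8 := by linarith) ω
    have hρ0 : 0 < ρR s (1 / 2 ^ J3) (0 : E d) 8 ω := by
      unfold ρR
      positivity
    generalize hx : XR s (1 / 2 ^ J3) (0 : E d) 8 ω = x at *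
    generalize hρ : ρR s (1 / 2 ^ J3) (0 : E d) 8 ω = ρ at *
    by_cases h11 : ‖x‖ ≤ 5
    · have hi : ind (‖x‖ ≤ 5) = 1 := by
        classical
        unfold ind
        exact if_pos h11
      rw [hi, one_mul, one_mul]
      have hsx := hs0 x
      -- the field
      have hG1 := (h5 φ hF.lip s hs.lip hs0 G hG x (x, φ x)
        (Metric.mem_closedBall_self (by have := Kz3_cAA_pos M; positivity))).1
      have hnn : 0 ≤ nF G (x, φ x) := Finset.sum_nonneg fun a _ => abs_nonneg _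
      have hG2 : ENNReal.ofReal ((nF G (x, φ x)) ^ 2) ≤
          ENNReal.ofReal (C5 ^ 2) * (AA φ G s (cAA M) x) ^ 2 := by
        rw [ENNReal.ofReal_pow hnn, ENNReal.ofReal_pow hC5.le, ← mul_pow]
        exact pow_le_pow_left' hG1 2
      -- the average
      have hav := h4 φ U F hF s B hB hW x ρ (by linarith) hρ0 (by
        have h12 : c0 M * ρ ≤ c0 M * (1 / 2 ^ J3 * s x) := mul_le_mul_of_nonneg_left hspec hc0.le
        have h13 : c0 M * (1 / 2 ^ J3) ≤ 1 / 4 := by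
          rw [mul_one_div, div_le_iff₀ (by positivity)]
          linarith
        have h14 : c0 M * (1 / 2 ^ J3) * s x ≤ 1 / 4 * s x := mul_le_mul_of_nonneg_right h13 hsx.le
        linarith [mul_assoc (c0 M) (1 / 2 ^ J3) (s x)])
      have h1J : (1 : ℝ) ≤ 2 ^ J3 := one_le_pow₀ (by norm_num)
      have hratio : s x / ρ ≤ 3 * 2 ^ J3 := by
        rw [div_le_iff₀ hρ0]
        have h15 : 2 ^ J3 * (1 / 2 ^ J3 * s x) ≤ 2 ^ J3 * (3 * ρ) :=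
          mul_le_mul_of_nonneg_left hlow (by positivity)
        have h16 : (2 : ℝ) ^ J3 * (1 / 2 ^ J3 * s x) = s x := by
          field_simp
        linarith
      have hpow : (s x / ρ) ^ ((d : ℝ) + 1 / 2) ≤ 3 ^ (d + 1) * ((2 : ℝ) ^ J3) ^ (d + 1) := by
        calc (s x / ρ) ^ ((d : ℝ) + 1 / 2) ≤ (3 * 2 ^ J3) ^ ((d : ℝ) + 1 / 2) :=
              Real.rpow_le_rpow (by positivity) hratio (by positivity)
          _ ≤ (3 * 2 ^ J3) ^ (((d + 1 : ℕ)) : ℝ) := by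
              refine Real.rpow_le_rpow_of_exponent_le (by linarith) ?_
              push_cast
              linarith
          _ = 3 ^ (d + 1) * ((2 : ℝ) ^ J3) ^ (d + 1) := by
              rw [Real.rpow_natCast, mul_pow]
      have hav2 : ‖avg (hb φ F) x ρ‖ₑ ≤
          ENNReal.ofReal (C4 * (3 ^ (d + 1) * ((2 : ℝ) ^ J3) ^ (d + 1)) * B) := by
        rw [← ofReal_norm]
        refine ENNReal.ofReal_le_ofReal (hav.trans ?_)
        gcongr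
      calc ENNReal.ofReal ((nF G (x, φ x)) ^ 2) * ‖avg (hb φ F) x ρ‖ₑ
          ≤ (ENNReal.ofReal (C5 ^ 2) * (AA φ G s (cAA M) x) ^ 2) *
            ENNReal.ofReal (C4 * (3 ^ (d + 1) * ((2 : ℝ) ^ J3) ^ (d + 1)) * B) :=
            mul_le_mul' hG2 hav2
        _ = (ENNReal.ofReal (C5 ^ 2) *
            ENNReal.ofReal (C4 * (3 ^ (d + 1) * ((2 : ℝ) ^ J3) ^ (d + 1)) * B)) *
              (AA φ G s (cAA M) x) ^ 2 := by ring
        _ = _ := by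
            rw [← ENNReal.ofReal_mul (by positivity)]
            congr 2
            ring
    · have hi : ind (‖x‖ ≤ 5) = 0 := by
        classical
        unfold ind
        exact if_neg h11
      rw [hi, zero_mul]
      exact zero_le
  refine (Ex_mono n hpt).trans ?_
  rw [Ex_mul]
  refine (mul_le_mul' le_rfl hSI').trans (le_of_eq ?_)
  rw [← mul_assoc, ← ENNReal.ofReal_mul (by positivity)]
  congr 2
  ring

end HG
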