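import Pool.Agent.W_MP_825298_an.DivThm

open MeasureTheory Set Filter Topology
open scoped ENNReal NNReal BigOperators

namespace HG
variable {d : ℕ}

/-- the Rellich vector field -/
private noncomputable def RW (G : Ix d → P d → ℝ) (b : Ix d) (X : P d) : ℝ :=
  (∑ a : Ix d, (G a X) ^ 2) * dn b - 2 * (G none X * G b X)

private lemma RW_abs (G : Ix d → P d → ℝ) (b : Ix d) (X : P d) :
    |RW G b X| ≤ 3 * (nF G X) ^ 2 := by
  have h0 : ∀ a, |G a X| ≤ nF G X := fun a =>
    Finset.single_le_sum (f := fun a => |G a X|) (fun _ _ => abs_nonneg _) (Finset.mem_univ a)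
  have hn : 0 ≤ nF G X := Finset.sum_nonneg fun _ _ => abs_nonneg _
  have h1 : ∑ a : Ix d, (G a X) ^ 2 ≤ (nF G X) ^ 2 := by
    have h2 : ∑ a : Ix d, |G a X| ^ 2 ≤ (∑ a : Ix d, |G a X|) ^ 2 :=
      Finset.sum_sq_le_sq_sum_of_nonneg fun _ _ => abs_nonneg _
    simpa [sq_abs, nF] using h2
  have h1' : 0 ≤ ∑ a : Ix d, (G a X) ^ 2 := Finset.sum_nonneg fun _ _ => sq_nonneg _
  have h3 : |dn b| ≤ 1 := by
    unfold dn
    split_ifs <;> simp
  have h4 : |G none X * G b X| ≤ (nF G X) ^ 2 := by
    rw [abs_mul, pow_two]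
    exact mul_le_mul (h0 _) (h0 _) (abs_nonneg _) hn
  unfold RW
  refine (abs_sub _ _).trans ?_
  rw [abs_mul, abs_mul, abs_of_nonneg h1', abs_two]
  have h5 : (∑ a : Ix d, (G a X) ^ 2) * |dn b| ≤ (nF G X) ^ 2 * 1 :=
    mul_le_mul h1 h3 (abs_nonneg _) (by positivity)
  linarith

private lemma RW_hasFDerivAt {U : Set (P d)} (hU : IsOpen U) {G : Ix d → P d → ℝ}
    (hG : IsField U G) {X : P d} (hX : X ∈ U) (b : Ix d) :
    HasFDerivAt (RW G b) (dn b • (∑ a : Ix d, (2 * G a X) • fderiv ℝ (G a) X) -
      (2 : ℝ) • (G none X • fderiv ℝ (G b) X + G b X • fderiv ℝ (G none) X)) X := by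
  have hd : ∀ a, HasFDerivAt (G a) (fderiv ℝ (G a) X) X := fun a =>
    (((hG.cd a).contDiffAt (hU.mem_nhds hX)).differentiableAt one_ne_zero).hasFDerivAt
  have h1 : HasFDerivAt (fun Y => ∑ a : Ix d, (G a Y) ^ 2)
      (∑ a : Ix d, (2 * G a X) • fderiv ℝ (G a) X) X := by
    apply HasFDerivAt.fun_sum
    intro a _
    have := (hd a).pow 2
    simpa using this
  have h2 := (hd none).mul (hd b)
  have h3 := (h1.mul_const (dn b)).sub (h2.const_mul 2)
  exact h3

private lemma pd_RW {U : Set (P d)} (hU : IsOpen U) {G : Ix d → P d → ℝ}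
    (hG : IsField U G) {X : P d} (hX : X ∈ U) :
    ∑ b : Ix d, pd b (RW G b) X = 0 := by
  have h1 : ∀ b, pd b (RW G b) X = dn b * (∑ a : Ix d, (2 * G a X) * pd b (G a) X) -
      2 * (G none X * pd b (G b) X + G b X * pd none (G b) X) := by
    intro b
    unfold pd
    rw [(RW_hasFDerivAt hU hG hX b).fderiv]
    have hc := hG.curl b none X hX
    unfold pd at hc
    simp only [sub_apply, smul_apply, add_apply, sum_apply, smul_eq_mul]
    rw [hc]
  rw [Finset.sum_congr rfl fun b _ => h1 b, Finset.sum_sub_distrib]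
  have h2 : ∑ b : Ix d, dn b * (∑ a : Ix d, (2 * G a X) * pd b (G a) X) =
      ∑ a : Ix d, (2 * G a X) * pd none (G a) X := by
    rw [Finset.sum_eq_single none]
    · simp [dn]
    · intro b _ hb
      simp [dn, hb]
    · intro h
      exact absurd (Finset.mem_univ _) h
  have h3 : ∑ b : Ix d, 2 * (G none X * pd b (G b) X + G b X * pd none (G b) X) =
      2 * (G none X * ∑ b : Ix d, pd b (G b) X) + ∑ b : Ix d, (2 * G b X) * pd none (G b) X := by
    rw [Finset.mul_sum, Finset.mul_sum, ← Finset.sum_add_distrib]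
    refine Finset.sum_congr rfl fun b _ => ?_
    ring
  rw [h2, h3, hG.div X hX]
  ring

/-- cutoff functions -/
private lemma cutoff_exists (d : ℕ) : ∃ (χ : ℝ → P d → ℝ) (C : ℝ), 0 < C ∧ ∀ R : ℝ, 0 < R →
    ContDiff ℝ 1 (χ R) ∧ (∀ X, ‖X‖ ≤ R → χ R X = 1) ∧ (∀ X, 2 * R ≤ ‖X‖ → χ R X = 0) ∧
    (∀ X, |χ R X| ≤ 1) ∧ (∀ b X, |pd b (χ R) X| ≤ C / R) ∧
    (∀ b X, ‖X‖ < R → pd b (χ R) X = 0) ∧ (∀ b X, 2 * R < ‖X‖ → pd b (χ R) X = 0) := by
  let f : ContDiffBump (0 : P d) := ⟨1, 2, one_pos, one_lt_two⟩
  have hf1 : ContDiff ℝ 1 (f : P d → ℝ) := f.contDiff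
  have hcomp : HasCompactSupport (f : P d → ℝ) := f.hasCompactSupport
  obtain ⟨C, hC⟩ := (hf1.continuous_fderiv one_ne_zero).bounded_above_of_compact_support
    (hcomp.fderiv ℝ)
  have heb : ∀ b : Ix d, ‖(eb b : P d)‖ ≤ 1 := by
    intro b
    rcases b with _ | i
    · simp [eb, Prod.norm_def]
    · simp only [eb, Prod.norm_def, norm_zero]
      apply max_le
      · rw [Pi.norm_single]
        simp
      · exact zero_le_one
  refine ⟨fun R X => f (R⁻¹ • X), |C| + 1, by positivity, fun R hR => ?_⟩
  have hnorm : ∀ X : P d, ‖R⁻¹ • X‖ = ‖X‖ / R := by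
    intro X
    rw [norm_smul, norm_inv, Real.norm_of_nonneg hR.le]
    ring
  have hone : ∀ X : P d, ‖X‖ ≤ R → f (R⁻¹ • X) = 1 := by
    intro X hX
    apply f.one_of_mem_closedBall
    rw [mem_closedBall_zero_iff, hnorm, div_le_one hR]
    exact hX
  have hzero : ∀ X : P d, 2 * R ≤ ‖X‖ → f (R⁻¹ • X) = 0 := by
    intro X hX
    apply f.zero_of_le_dist
    rw [dist_zero_right, hnorm, le_div_iff₀ hR]
    exact hX
  refine ⟨hf1.comp (contDiff_const_smul _), hone, hzero, ?_, ?_, ?_, ?_⟩
  · intro X
    rw [abs_of_nonneg f.nonneg]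
    exact f.le_one
  · intro b X
    have h1 : HasFDerivAt (fun X : P d => f (R⁻¹ • X))
        ((fderiv ℝ f (R⁻¹ • X)).comp (R⁻¹ • ContinuousLinearMap.id ℝ (P d))) X := by
      have h2 : HasFDerivAt (fun X : P d => R⁻¹ • X) (R⁻¹ • ContinuousLinearMap.id ℝ (P d)) X :=
        (R⁻¹ • ContinuousLinearMap.id ℝ (P d)).hasFDerivAt
      exact ((hf1.differentiable one_ne_zero) _).hasFDerivAt.comp X h2
    unfold pd
    rw [h1.fderiv]
    simp only [ContinuousLinearMap.comp_apply, smul_apply,
      ContinuousLinearMap.id_apply, map_smul, smul_eq_mul]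
    rw [abs_mul, abs_of_pos (inv_pos.2 hR), div_eq_mul_inv, mul_comm]
    apply mul_le_mul_of_nonneg_right _ (inv_pos.2 hR).le
    calc |fderiv ℝ f (R⁻¹ • X) (eb b)| ≤ ‖fderiv ℝ f (R⁻¹ • X)‖ * ‖(eb b : P d)‖ := by
          rw [← Real.norm_eq_abs]
          exact ContinuousLinearMap.le_opNorm _ _
      _ ≤ C * 1 := mul_le_mul (hC _) (heb b) (norm_nonneg _) ((norm_nonneg _).trans (hC 0))
      _ ≤ |C| + 1 := by rw [mul_one]; linarith [le_abs_self C]
  · intro b X hX
    have h1 : (fun X : P d => f (R⁻¹ • X)) =ᶠ[𝓝 X] fun _ => 1 := by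
      have h2 : ∀ᶠ Y : P d in 𝓝 X, ‖Y‖ < R :=
        (continuous_norm.continuousAt (x := X)).eventually_lt continuousAt_const hX
      filter_upwards [h2] with Y hY
      exact hone Y hY.le
    unfold pd
    rw [h1.fderiv_eq]
    simp
  · intro b X hX
    have h1 : (fun X : P d => f (R⁻¹ • X)) =ᶠ[𝓝 X] fun _ => 0 := by
      have h2 : ∀ᶠ Y : P d in 𝓝 X, 2 * R < ‖Y‖ :=
        continuousAt_const.eventually_lt (continuous_norm.continuousAt (x := X)) hX
      filter_upwards [h2] with Y hY
      exact hzero Y hY.le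
    unfold pd
    rw [h1.fderiv_eq]
    simp

private lemma om_abs {M : ℝ≥0} {g : E d → ℝ} (hg : LipschitzWith M g) (a : Ix d) (x : E d) :
    |om g a x| ≤ 1 + M := by
  rcases a with _ | i
  · simp only [om, abs_neg, abs_one]
    linarith [M.coe_nonneg]
  · simp only [om]
    calc |fderiv ℝ g x (Pi.single i 1)| ≤ ‖fderiv ℝ g x‖ * ‖(Pi.single i 1 : E d)‖ := by
          rw [← Real.norm_eq_abs]
          exact ContinuousLinearMap.le_opNorm _ _
      _ ≤ M * 1 := by
          apply mul_le_mul (norm_fderiv_le_of_lipschitz ℝ hg) _ (norm_nonneg _) M.coe_nonneg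
          rw [Pi.norm_single]
          simp
      _ ≤ 1 + M := by linarith

private lemma om_meas (g : E d → ℝ) (a : Ix d) : Measurable (om g a) := by
  rcases a with _ | i
  · exact measurable_const
  · exact measurable_fderiv_apply_const ℝ g _

/-- the boundary identity -/
private lemma rellich_identity (hd : 1 ≤ d) {M : ℝ≥0} {g : E d → ℝ} (hg : LipschitzWith M g)
    {U : Set (P d)} (hU : IsOpen U) (hDU : aboveC g ⊆ U) {G : Ix d → P d → ℝ}
    (hG : IsField U G) {CF β : ℝ} (hβ : (d : ℝ) / 2 < β)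
    (hdec : ∀ X ∈ aboveC g, nF G X ≤ CF * (1 + ‖X‖) ^ (-β))
    (hint : Integrable (fun x : E d => (nF G (x, g x)) ^ 2)) :
    ∫ x : E d, ∑ b : Ix d, RW G b (x, g x) * om g b x = 0 := by
  obtain ⟨χ, C, hC, hχ⟩ := cutoff_exists d
  have hβ0 : 0 < β := lt_trans (by
    have : (1 : ℝ) ≤ d := by exact_mod_cast hd
    linarith) hβ
  have hcont : ∀ a, Continuous (fun x : E d => G a (x, g x)) := by
    intro a
    apply (hG.cd a).continuousOn.comp_continuous
    · exact continuous_id.prodMk hg.continuous
    · intro x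
      exact hDU (le_refl (g x))
  have hRWc : ∀ b, Continuous (fun x : E d => RW G b (x, g x)) := by
    intro b
    unfold RW
    exact ((continuous_finsetSum _ fun a _ => (hcont a).pow 2).mul continuous_const).sub
      (continuous_const.mul ((hcont none).mul (hcont b)))
  -- the right-hand sides
  have hR : Tendsto (fun N : ℕ => ∫ x : E d, ∑ b : Ix d, (χ (N + 1) (x, g x) * RW G b (x, g x)) *
      om g b x) atTop (𝓝 (∫ x : E d, ∑ b : Ix d, RW G b (x, g x) * om g b x)) := by
    apply tendsto_integral_of_dominated_convergence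
      (fun x : E d => (Fintype.card (Ix d) : ℝ) * (3 * (1 + M)) * (nF G (x, g x)) ^ 2)
    · intro N
      have hN : (0 : ℝ) < N + 1 := by positivity
      apply Measurable.aestronglyMeasurable
      apply Finset.measurable_sum
      intro b _
      apply Measurable.mul _ (om_meas g b)
      apply Measurable.mul _ (hRWc b).measurable
      exact ((hχ _ hN).1.continuous.comp (continuous_id.prodMk hg.continuous)).measurable
    · exact hint.const_mul _
    · intro N
      have hN : (0 : ℝ) < N + 1 := by positivity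
      refine Eventually.of_forall fun x => ?_
      rw [Real.norm_eq_abs]
      refine (Finset.abs_sum_le_sum_abs _ _).trans ?_
      have h1 : ∀ b ∈ (Finset.univ : Finset (Ix d)),
          |χ (N + 1) (x, g x) * RW G b (x, g x) * om g b x| ≤
            3 * (1 + M) * (nF G (x, g x)) ^ 2 := by
        intro b _
        rw [abs_mul, abs_mul]
        have h2 := (hχ _ hN).2.2.2.1 (x, g x)
        have h3 := RW_abs G b (x, g x)
        have h4 := om_abs hg b x
        calc |χ (N + 1) (x, g x)| * |RW G b (x, g x)| * |om g b x|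
            ≤ (1 * (3 * (nF G (x, g x)) ^ 2)) * (1 + M) := by
              apply mul_le_mul _ h4 (abs_nonneg _) (by positivity)
              exact mul_le_mul h2 h3 (abs_nonneg _) zero_le_one
          _ = 3 * (1 + M) * (nF G (x, g x)) ^ 2 := by ring
      refine (Finset.sum_le_sum h1).trans ?_
      rw [Finset.sum_const, nsmul_eq_mul, Finset.card_univ]
      apply le_of_eq
      ring
    · refine Eventually.of_forall fun x => ?_
      apply tendsto_const_nhds.congr'
      have h1 : ∀ᶠ N : ℕ in atTop, ‖((x, g x) : P d)‖ ≤ N :=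
        tendsto_natCast_atTop_atTop.eventually_ge_atTop _
      filter_upwards [h1] with N hN
      have hN' : (0 : ℝ) < N + 1 := by positivity
      have h2 : χ (N + 1) (x, g x) = 1 := (hχ _ hN').2.1 _ (by linarith)
      simp only [h2, one_mul]
  -- the left-hand sides
  have hL : Tendsto (fun N : ℕ => ∫ x : E d, ∑ b : Ix d, (χ (N + 1) (x, g x) * RW G b (x, g x)) *
      om g b x) atTop (𝓝 0) := by
    have hkey : ∀ N : ℕ, |∫ x : E d, ∑ b : Ix d, (χ (N + 1) (x, g x) * RW G b (x, g x)) *
        om g b x| ≤ ((Fintype.card (Ix d) : ℝ) * (C * (3 * CF ^ 2)) * 2 ^ (d + 1) *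
          volume.real (Metric.ball (0 : P d) 1)) * ((N : ℝ) + 1) ^ ((d : ℝ) - 2 * β) := by
      intro N
      set R : ℝ := N + 1 with hRdef
      have hR0 : 0 < R := by positivity
      obtain ⟨h1, h2, h3, h4, h5, h6, h7⟩ := hχ R hR0
      have hdt := div_thm hg hU hDU (V := fun b X => χ R X * RW G b X) (B := 2 * R) (by
        intro b
        apply h1.contDiffOn.mul
        unfold RW
        exact ((ContDiffOn.sum fun a _ => (hG.cd a).pow 2).mul contDiffOn_const).sub
          (contDiffOn_const.mul ((hG.cd none).mul (hG.cd b)))) (by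
        intro b X _ hX
        rw [h3 X hX, zero_mul])
      have hpt : ∀ X ∈ above g, ∑ b : Ix d, pd b (fun X => χ R X * RW G b X) X =
          ∑ b : Ix d, pd b (χ R) X * RW G b X := by
        intro X hX
        have hX' : g X.1 < X.2 := hX
        have hXC : X ∈ aboveC g := le_of_lt hX'
        have hXU : X ∈ U := hDU hXC
        have h8 : ∀ b, pd b (fun X => χ R X * RW G b X) X =
            pd b (χ R) X * RW G b X + χ R X * pd b (RW G b) X := by
          intro b
          have h9 := ((h1.differentiable one_ne_zero) X).hasFDerivAt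
          have h10 := RW_hasFDerivAt hU hG hXU b
          have h11 : HasFDerivAt (fun X => χ R X * RW G b X) _ X := h9.mul h10
          unfold pd
          rw [h11.fderiv, h10.fderiv]
          simp only [add_apply, smul_apply, smul_eq_mul]
          ring
        rw [Finset.sum_congr rfl fun b _ => h8 b, Finset.sum_add_distrib, ← Finset.mul_sum,
          pd_RW hU hG hXU, mul_zero, add_zero]
      have hms : MeasurableSet (above g) := measurableSet_above hg
      rw [setIntegral_congr_fun hms hpt] at hdt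
      rw [← hdt]
      have hsub : ∫ X in above g, ∑ b : Ix d, pd b (χ R) X * RW G b X =
          ∫ X in above g ∩ Metric.closedBall 0 (2 * R), ∑ b : Ix d, pd b (χ R) X * RW G b X := by
        apply setIntegral_eq_of_subset_of_forall_sdiff_eq_zero hms inter_subset_left
        intro X hX
        have h8 : 2 * R < ‖X‖ := by
          by_contra hcon
          push Not at hcon
          exact hX.2 ⟨hX.1, mem_closedBall_zero_iff.2 hcon⟩
        apply Finset.sum_eq_zero
        intro b _
        rw [h7 b X h8, zero_mul]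
      rw [hsub, ← Real.norm_eq_abs]
      have hvol : volume (above g ∩ Metric.closedBall (0 : P d) (2 * R)) < ⊤ :=
        lt_of_le_of_lt (measure_mono inter_subset_right) measure_closedBall_lt_top
      have hbound : ∀ X ∈ above g ∩ Metric.closedBall (0 : P d) (2 * R),
          ‖∑ b : Ix d, pd b (χ R) X * RW G b X‖ ≤
            (Fintype.card (Ix d) : ℝ) * (C / R * (3 * (CF ^ 2 * R ^ (-(2 * β))))) := by
        intro X hX
        rw [Real.norm_eq_abs]
        refine (Finset.abs_sum_le_sum_abs _ _).trans ?_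
        have h8 : ∀ b ∈ (Finset.univ : Finset (Ix d)), |pd b (χ R) X * RW G b X| ≤
            C / R * (3 * (CF ^ 2 * R ^ (-(2 * β)))) := by
          intro b _
          by_cases hXR : ‖X‖ < R
          · rw [h6 b X hXR, zero_mul, abs_zero]
            positivity
          · push Not at hXR
            rw [abs_mul]
            apply mul_le_mul (h5 b X) _ (abs_nonneg _) (by positivity)
            refine (RW_abs G b X).trans ?_
            have hX' : g X.1 < X.2 := hX.1
            have hXC : X ∈ aboveC g := le_of_lt hX'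
            have h9 := hdec X hXC
            have hn : 0 ≤ nF G X := Finset.sum_nonneg fun _ _ => abs_nonneg _
            have h10 : (nF G X) ^ 2 ≤ (CF * (1 + ‖X‖) ^ (-β)) ^ 2 := pow_le_pow_left₀ hn h9 2
            have h11 : (CF * (1 + ‖X‖) ^ (-β)) ^ 2 ≤ CF ^ 2 * R ^ (-(2 * β)) := by
              rw [mul_pow]
              apply mul_le_mul_of_nonneg_left _ (sq_nonneg _)
              rw [← Real.rpow_natCast, ← Real.rpow_mul (by positivity)]
              have h12 : -β * ((2 : ℕ) : ℝ) = -(2 * β) := by push_cast; ring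
              rw [h12]
              apply Real.rpow_le_rpow_of_nonpos hR0 (by linarith) (by linarith)
            linarith
        refine (Finset.sum_le_sum h8).trans ?_
        rw [Finset.sum_const, nsmul_eq_mul, Finset.card_univ]
      refine (norm_setIntegral_le_of_norm_le_const hvol hbound).trans ?_
      have hreal : volume.real (above g ∩ Metric.closedBall (0 : P d) (2 * R)) ≤
          (2 * R) ^ (d + 1) * volume.real (Metric.ball (0 : P d) 1) := by
        have h8 : volume.real (above g ∩ Metric.closedBall (0 : P d) (2 * R)) ≤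
            volume.real (Metric.closedBall (0 : P d) (2 * R)) :=
          measureReal_mono inter_subset_right measure_closedBall_lt_top.ne
        refine h8.trans (le_of_eq ?_)
        have hhaar : (volume : Measure (P d)).IsAddHaarMeasure := by
          rw [Measure.volume_eq_prod]
          infer_instance
        unfold Measure.real
        rw [Measure.addHaar_closedBall volume (0 : P d) (by positivity), ENNReal.toReal_mul,
          ENNReal.toReal_ofReal (by positivity)]
        congr 2
        simp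
      calc (Fintype.card (Ix d) : ℝ) * (C / R * (3 * (CF ^ 2 * R ^ (-(2 * β))))) *
            volume.real (above g ∩ Metric.closedBall (0 : P d) (2 * R))
          ≤ (Fintype.card (Ix d) : ℝ) * (C / R * (3 * (CF ^ 2 * R ^ (-(2 * β))))) *
            ((2 * R) ^ (d + 1) * volume.real (Metric.ball (0 : P d) 1)) :=
            mul_le_mul_of_nonneg_left hreal (by positivity)
        _ = ((Fintype.card (Ix d) : ℝ) * (C * (3 * CF ^ 2)) * 2 ^ (d + 1) *
          volume.real (Metric.ball (0 : P d) 1)) * (R ^ d * R ^ (-(2 * β))) := by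
            field_simp
            rw [mul_pow]
            ring
        _ = _ := by
            congr 1
            rw [← Real.rpow_natCast, ← Real.rpow_add hR0]
            rfl
    rw [tendsto_zero_iff_abs_tendsto_zero]
    refine squeeze_zero (fun N => abs_nonneg _) hkey ?_
    have h8 : Tendsto (fun N : ℕ => ((N : ℝ) + 1) ^ ((d : ℝ) - 2 * β)) atTop (𝓝 0) := by
      have h9 : Tendsto (fun x : ℝ => x ^ (-(2 * β - d))) atTop (𝓝 0) :=
        tendsto_rpow_neg_atTop (by linarith)
      have h10 : Tendsto (fun N : ℕ => (N : ℝ) + 1) atTop atTop :=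
        tendsto_atTop_add_const_right _ _ tendsto_natCast_atTop_atTop
      have h11 := h9.comp h10
      have h12 : ((d : ℝ) - 2 * β) = -(2 * β - d) := by ring
      rw [h12]
      exact h11
    simpa using h8.const_mul ((Fintype.card (Ix d) : ℝ) * (C * (3 * CF ^ 2)) * 2 ^ (d + 1) *
          volume.real (Metric.ball (0 : P d) 1))
  exact tendsto_nhds_unique hR hL

/-- Rellich inequality. `V_b = |G|² δ_{bn} - 2 G_n G_b` (`|G|² = ∑ G_a²`) is divergence free; apply `div_thm` with cutoffs `χ_R`;
the `∇χ_R` term is `O(R^{-1} R^{d+1} R^{-2β}) → 0` since `β > d/2`.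
Result: `∫ |G|² = -2 ∫ G_n ∑ om_b G_b ≤ C ∫ |G_n||G|`, Cauchy-Schwarz (everything is finite by the decay). -/
theorem rellich (M : ℝ≥0) (hd : 1 ≤ d) : ∃ C : ℝ, 0 < C ∧ ∀ (g : E d → ℝ), LipschitzWith M g → ∀ (U : Set (P d)), IsOpen U →
    aboveC g ⊆ U → ∀ (G : Ix d → P d → ℝ), IsField U G → ∀ (CF β : ℝ), (d : ℝ) / 2 < β →
    (∀ X ∈ aboveC g, nF G X ≤ CF * (1 + ‖X‖) ^ (-β)) →
    Integrable (fun x : E d => (nF G (x, g x)) ^ 2) ∧ Integrable (fun x : E d => (G none (x, g x)) ^ 2) ∧
    ∫ x : E d, (nF G (x, g x)) ^ 2 ≤ C * ∫ x : E d, (G none (x, g x)) ^ 2 := by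
  refine ⟨4 * ((d : ℝ) + 1) ^ 2 * (1 + M) ^ 2, by positivity, ?_⟩
  intro g hg U hU hDU G hG CF β hβ hdec
  have hβ0 : 0 < β := lt_trans (by
    have : (1 : ℝ) ≤ d := by exact_mod_cast hd
    linarith) hβ
  have hcont : ∀ a, Continuous (fun x : E d => G a (x, g x)) := by
    intro a
    apply (hG.cd a).continuousOn.comp_continuous
    · exact continuous_id.prodMk hg.continuous
    · intro x
      exact hDU (le_refl (g x))
  have hnc : Continuous (fun x : E d => nF G (x, g x)) := by
    unfold nF
    exact continuous_finsetSum _ fun a _ => (hcont a).abs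
  have hn0 : ∀ X, 0 ≤ nF G X := fun X => Finset.sum_nonneg fun _ _ => abs_nonneg _
  have hnone : ∀ X, |G none X| ≤ nF G X := fun X =>
    Finset.single_le_sum (f := fun a => |G a X|) (fun _ _ => abs_nonneg _) (Finset.mem_univ none)
  have hmaj : Integrable (fun x : E d => CF ^ 2 * (1 + ‖x‖) ^ (-(2 * β))) := by
    apply Integrable.const_mul
    apply integrable_one_add_norm
    simp only [Module.finrank_fintype_fun_eq_card, Fintype.card_fin]
    linarith
  have hint : Integrable (fun x : E d => (nF G (x, g x)) ^ 2) := by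
    apply hmaj.mono' (hnc.pow 2).aestronglyMeasurable
    refine Eventually.of_forall fun x => ?_
    change ‖(nF G (x, g x)) ^ 2‖ ≤ _
    rw [Real.norm_of_nonneg (sq_nonneg _)]
    have h1 := hdec (x, g x) (le_refl (g x))
    have h2 : (nF G (x, g x)) ^ 2 ≤ (CF * (1 + ‖((x, g x) : P d)‖) ^ (-β)) ^ 2 :=
      pow_le_pow_left₀ (hn0 _) h1 2
    refine h2.trans ?_
    rw [mul_pow]
    apply mul_le_mul_of_nonneg_left _ (sq_nonneg _)
    rw [← Real.rpow_natCast, ← Real.rpow_mul (by positivity)]
    have h12 : -β * ((2 : ℕ) : ℝ) = -(2 * β) := by push_cast; ring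
    rw [h12]
    apply Real.rpow_le_rpow_of_nonpos (by positivity) _ (by linarith)
    have h3 : ‖x‖ ≤ ‖((x, g x) : P d)‖ := by
      rw [Prod.norm_def]
      exact le_max_left _ _
    linarith
  have hint2 : Integrable (fun x : E d => (G none (x, g x)) ^ 2) := by
    apply hint.mono' ((hcont none).pow 2).aestronglyMeasurable
    refine Eventually.of_forall fun x => ?_
    change ‖(G none (x, g x)) ^ 2‖ ≤ _
    rw [Real.norm_of_nonneg (sq_nonneg _), ← sq_abs]
    exact pow_le_pow_left₀ (abs_nonneg _) (hnone _) 2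
  refine ⟨hint, hint2, ?_⟩
  have hid := rellich_identity hd hg hU hDU hG hβ hdec hint
  have hRWc : ∀ b, Continuous (fun x : E d => RW G b (x, g x)) := by
    intro b
    unfold RW
    exact ((continuous_finsetSum _ fun a _ => (hcont a).pow 2).mul continuous_const).sub
      (continuous_const.mul ((hcont none).mul (hcont b)))
  -- pointwise inequality
  have hn1 : (1 : ℝ) ≤ (d : ℝ) + 1 := by
    have : (0 : ℝ) ≤ d := Nat.cast_nonneg d
    linarith
  have hpt : ∀ x : E d, (1 / 2) * (nF G (x, g x)) ^ 2 ≤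
      2 * ((d : ℝ) + 1) ^ 2 * (1 + M) ^ 2 * (G none (x, g x)) ^ 2 -
        ((d : ℝ) + 1) * ∑ b : Ix d, RW G b (x, g x) * om g b x := by
    intro x
    have h1 : ∑ b : Ix d, RW G b (x, g x) * om g b x =
        -(∑ a : Ix d, (G a (x, g x)) ^ 2) -
          2 * G none (x, g x) * ∑ b : Ix d, G b (x, g x) * om g b x := by
      unfold RW
      have h2 : ∀ b ∈ (Finset.univ : Finset (Ix d)),
          ((∑ a : Ix d, (G a (x, g x)) ^ 2) * dn b - 2 * (G none (x, g x) * G b (x, g x))) *
            om g b x = (∑ a : Ix d, (G a (x, g x)) ^ 2) * (dn b * om g b x) -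
            2 * G none (x, g x) * (G b (x, g x) * om g b x) := by
        intro b _
        ring
      rw [Finset.sum_congr rfl h2, Finset.sum_sub_distrib, ← Finset.mul_sum, ← Finset.mul_sum]
      have h3 : ∑ b : Ix d, dn b * om g b x = -1 := by
        rw [Finset.sum_eq_single none]
        · simp [dn, om]
        · intro b _ hb
          simp [dn, hb]
        · intro h
          exact absurd (Finset.mem_univ _) h
      rw [h3]
      ring
    have h4 : (nF G (x, g x)) ^ 2 ≤ ((d : ℝ) + 1) * ∑ a : Ix d, (G a (x, g x)) ^ 2 := by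
      have h5 := sq_sum_le_card_mul_sum_sq (s := (Finset.univ : Finset (Ix d)))
        (f := fun a => |G a (x, g x)|)
      simpa [nF, sq_abs, Finset.card_univ] using h5
    have h6 : |∑ b : Ix d, G b (x, g x) * om g b x| ≤ (1 + M) * nF G (x, g x) := by
      refine (Finset.abs_sum_le_sum_abs _ _).trans ?_
      unfold nF
      rw [Finset.mul_sum]
      refine Finset.sum_le_sum fun b _ => ?_
      rw [abs_mul, mul_comm]
      exact mul_le_mul_of_nonneg_right (om_abs hg b x) (abs_nonneg _)
    have h7 : -(2 * G none (x, g x) * ∑ b : Ix d, G b (x, g x) * om g b x) ≤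
        2 * |G none (x, g x)| * ((1 + M) * nF G (x, g x)) := by
      refine (neg_le_abs _).trans ?_
      rw [abs_mul, abs_mul, abs_two]
      exact mul_le_mul_of_nonneg_left h6 (by positivity)
    rw [h1]
    have h8 := sq_abs (G none (x, g x))
    set p := |G none (x, g x)| with hp
    set t := nF G (x, g x) with ht
    set S := ∑ a : Ix d, (G a (x, g x)) ^ 2 with hS
    set T := ∑ b : Ix d, G b (x, g x) * om g b x with hT
    rw [← h8]
    have h9 : 0 ≤ (t - 2 * ((d : ℝ) + 1) * (1 + M) * p) ^ 2 := sq_nonneg _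
    have h10 : ((d : ℝ) + 1) * (-(2 * G none (x, g x) * T)) ≤
        ((d : ℝ) + 1) * (2 * p * ((1 + M) * t)) :=
      mul_le_mul_of_nonneg_left h7 (by linarith)
    nlinarith
  have hintR : Integrable (fun x : E d => ∑ b : Ix d, RW G b (x, g x) * om g b x) := by
    apply integrable_finsetSum
    intro b _
    apply (hint.const_mul (3 * (1 + (M : ℝ)))).mono'
    · exact ((hRWc b).measurable.mul (om_meas g b)).aestronglyMeasurable
    · refine Eventually.of_forall fun x => ?_
      rw [Real.norm_eq_abs, abs_mul]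
      calc |RW G b (x, g x)| * |om g b x| ≤ (3 * (nF G (x, g x)) ^ 2) * (1 + M) :=
            mul_le_mul (RW_abs G b _) (om_abs hg b x) (abs_nonneg _) (by positivity)
        _ = 3 * (1 + (M : ℝ)) * (nF G (x, g x)) ^ 2 := by ring
  have hfin := integral_mono (hint.const_mul (1 / 2))
    ((hint2.const_mul (2 * ((d : ℝ) + 1) ^ 2 * (1 + M) ^ 2)).sub
      (hintR.const_mul ((d : ℝ) + 1))) hpt
  rw [integral_const_mul] at hfin
  have h13 : ∫ x : E d, (2 * ((d : ℝ) + 1) ^ 2 * (1 + M) ^ 2 * (G none (x, g x)) ^ 2 -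
        ((d : ℝ) + 1) * ∑ b : Ix d, RW G b (x, g x) * om g b x) =
      2 * ((d : ℝ) + 1) ^ 2 * (1 + M) ^ 2 * ∫ x : E d, (G none (x, g x)) ^ 2 := by
    rw [integral_sub (hint2.const_mul _) (hintR.const_mul _), integral_const_mul,
      integral_const_mul, hid, mul_zero, sub_zero]
  have h14 : (1 / 2) * ∫ x : E d, (nF G (x, g x)) ^ 2 ≤
      2 * ((d : ℝ) + 1) ^ 2 * (1 + M) ^ 2 * ∫ x : E d, (G none (x, g x)) ^ 2 := by
    rw [← h13]
    exact hfin
  linarith

end HG
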