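import Pool.Agent.W_MP_825298_an.Repr1

open MeasureTheory Set Filter Topology
open scoped ENNReal NNReal BigOperators

namespace HG
variable {d : ℕ}

namespace Repr2

theorem abs_om_le {M : ℝ≥0} {φ : E d → ℝ} (hφ : LipschitzWith M φ) (b : Ix d) (x : E d) :
    |om φ b x| ≤ max (M : ℝ) 1 := by
  rcases b with _ | i
  · show |(-1 : ℝ)| ≤ _
    rw [abs_neg, abs_one]
    exact le_max_right _ _
  · show |fderiv ℝ φ x (Pi.single i 1)| ≤ _
    have h1 : ‖fderiv ℝ φ x‖ ≤ M := norm_fderiv_le_of_lipschitz ℝ hφ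
    have h2 : ‖(Pi.single i (1 : ℝ) : Fin d → ℝ)‖ = 1 := by
      rw [Pi.norm_single, norm_one]
    have h3 := (fderiv ℝ φ x).le_opNorm (Pi.single i (1 : ℝ))
    rw [h2, mul_one] at h3
    exact (h3.trans h1).trans (le_max_left _ _)

theorem card_Ix (d : ℕ) : (Finset.univ : Finset (Ix d)).card = d + 1 := by
  simp [Ix]

theorem abs_le_nF (F : Ix d → P d → ℝ) (X : P d) (b : Ix d) : |F b X| ≤ nF F X := by
  unfold nF
  exact Finset.single_le_sum (f := fun a => |F a X|) (fun _ _ => abs_nonneg _) (Finset.mem_univ b)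

end Repr2

open Repr2 in
/-- Corollary of `repr_in`: `|om| ≤ max M 1`, `nk_bound`. -/
theorem repr_bound (hd : 1 ≤ d) (M : ℝ≥0) : ∃ C : ℝ, 0 < C ∧ ∀ (φ : E d → ℝ), LipschitzWith M φ →
    ∀ (U : Set (P d)), IsOpen U → aboveC φ ⊆ U → ∀ (F : Ix d → P d → ℝ), IsField U F →
    ∀ (CF δ : ℝ), 0 < δ → (∀ X ∈ aboveC φ, nF F X ≤ CF * (1 + ‖X‖) ^ (-δ)) →
    ∀ X₀ ∈ above φ, ENNReal.ofReal (nF F X₀) ≤
      ENNReal.ofReal C * ∫⁻ x : E d, ENNReal.ofReal (nF F (x, φ x) / ‖((x, φ x) : P d) - X₀‖ ^ d) := by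
  obtain ⟨Cn, hCn, hnk, -⟩ := nk_bound d
  set M' : ℝ := max (M : ℝ) 1 with hM'
  have hM'pos : 0 < M' := lt_of_lt_of_le one_pos (le_max_right _ _)
  set C1 : ℝ := Cn * (M' * ((d : ℝ) + 3)) with hC1
  have hC1pos : 0 < C1 := by positivity
  refine ⟨((d : ℝ) + 1) * C1, by positivity, ?_⟩
  intro φ hφ U hU hDU F hF CF δ hδ hdec X₀ hX₀
  have hne : ∀ x : E d, ((x, φ x) : P d) - X₀ ≠ 0 := by
    intro x h
    rw [sub_eq_zero] at h
    rw [← h] at hX₀
    exact lt_irrefl (φ x) hX₀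
  have hn0 : ∀ X : P d, 0 ≤ nF F X := fun X => Finset.sum_nonneg fun _ _ => abs_nonneg _
  -- pointwise bound
  have hpt : ∀ (a : Ix d) (x : E d), |rdens φ F a X₀ x| ≤ C1 * (nF F (x, φ x) / ‖((x, φ x) : P d) - X₀‖ ^ d) := by
    intro a x
    unfold rdens
    set N : ℝ := Cn / ‖((x, φ x) : P d) - X₀‖ ^ d with hN
    have hNpos : 0 ≤ N := by positivity
    have hk : ∀ b : Ix d, |nk b ((x, φ x) - X₀)| ≤ N := fun b => hnk b _ (hne x)
    have hom := fun b : Ix d => abs_om_le hφ b x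
    rw [← hM'] at hom
    have hF' := fun b : Ix d => abs_le_nF F (x, φ x) b
    have hn := hn0 (x, φ x)
    have s1 : |∑ b : Ix d, om φ b x * F b (x, φ x)| ≤ M' * nF F (x, φ x) := by
      refine (Finset.abs_sum_le_sum_abs _ _).trans ?_
      unfold nF
      rw [Finset.mul_sum]
      apply Finset.sum_le_sum
      intro b _
      rw [abs_mul]
      exact mul_le_mul_of_nonneg_right (hom b) (abs_nonneg _)
    have s2 : |∑ b : Ix d, nk b ((x, φ x) - X₀) * (F a (x, φ x) * om φ b x - F b (x, φ x) * om φ a x)|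
        ≤ N * (M' * (((d : ℝ) + 2) * nF F (x, φ x))) := by
      refine (Finset.abs_sum_le_sum_abs _ _).trans ?_
      have t : ∀ b : Ix d, |nk b ((x, φ x) - X₀) * (F a (x, φ x) * om φ b x - F b (x, φ x) * om φ a x)|
          ≤ N * (M' * (nF F (x, φ x) + |F b (x, φ x)|)) := by
        intro b
        rw [abs_mul]
        apply mul_le_mul (hk b) _ (abs_nonneg _) hNpos
        have e1 : |F a (x, φ x) * om φ b x| ≤ M' * nF F (x, φ x) := by
          rw [abs_mul, mul_comm]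
          exact mul_le_mul (hom b) (hF' a) (abs_nonneg _) hM'pos.le
        have e2 : |F b (x, φ x) * om φ a x| ≤ M' * |F b (x, φ x)| := by
          rw [abs_mul, mul_comm]
          exact mul_le_mul_of_nonneg_right (hom a) (abs_nonneg _)
        have e3 := abs_sub (F a (x, φ x) * om φ b x) (F b (x, φ x) * om φ a x)
        linarith
      refine (Finset.sum_le_sum fun b _ => t b).trans (le_of_eq ?_)
      rw [← Finset.mul_sum, ← Finset.mul_sum, Finset.sum_add_distrib, Finset.sum_const, card_Ix, nsmul_eq_mul]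
      unfold nF
      push_cast
      ring
    refine (abs_add_le _ _).trans ?_
    rw [abs_mul]
    have s3 : |nk a ((x, φ x) - X₀)| * |∑ b : Ix d, om φ b x * F b (x, φ x)| ≤ N * (M' * nF F (x, φ x)) :=
      mul_le_mul (hk a) s1 (abs_nonneg _) hNpos
    have e : C1 * (nF F (x, φ x) / ‖((x, φ x) : P d) - X₀‖ ^ d)
        = N * (M' * nF F (x, φ x)) + N * (M' * (((d : ℝ) + 2) * nF F (x, φ x))) := by
      rw [hC1, hN]
      ring
    rw [e]
    linarith
  have hone : ∀ a : Ix d, ENNReal.ofReal |F a X₀| ≤ ENNReal.ofReal C1 *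
      ∫⁻ x : E d, ENNReal.ofReal (nF F (x, φ x) / ‖((x, φ x) : P d) - X₀‖ ^ d) := by
    intro a
    obtain ⟨-, h2⟩ := repr_in hd hφ hU hDU hF hδ hdec a hX₀
    rw [← h2, ← Real.norm_eq_abs, ofReal_norm]
    refine (enorm_integral_le_lintegral_enorm _).trans ?_
    rw [← lintegral_const_mul' _ _ ENNReal.ofReal_ne_top]
    apply lintegral_mono
    intro x
    show ‖rdens φ F a X₀ x‖ₑ ≤ ENNReal.ofReal C1 * ENNReal.ofReal (nF F (x, φ x) / ‖((x, φ x) : P d) - X₀‖ ^ d)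
    rw [← ENNReal.ofReal_mul hC1pos.le, ← ofReal_norm, Real.norm_eq_abs]
    exact ENNReal.ofReal_le_ofReal (hpt a x)
  calc ENNReal.ofReal (nF F X₀) = ∑ a : Ix d, ENNReal.ofReal |F a X₀| := by
        unfold nF
        exact ENNReal.ofReal_sum_of_nonneg fun _ _ => abs_nonneg _
    _ ≤ ∑ a : Ix d, ENNReal.ofReal C1 *
      ∫⁻ x : E d, ENNReal.ofReal (nF F (x, φ x) / ‖((x, φ x) : P d) - X₀‖ ^ d) :=
        Finset.sum_le_sum fun a _ => hone a
    _ = ENNReal.ofReal (((d : ℝ) + 1) * C1) *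
      ∫⁻ x : E d, ENNReal.ofReal (nF F (x, φ x) / ‖((x, φ x) : P d) - X₀‖ ^ d) := by
        rw [Finset.sum_const, card_Ix, nsmul_eq_mul, ← mul_assoc]
        congr 1
        rw [show ((d : ℝ) + 1) = ((d + 1 : ℕ) : ℝ) by push_cast; ring, ENNReal.ofReal_mul (Nat.cast_nonneg _),
          ENNReal.ofReal_natCast]

end HG
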