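import Pool.Agent.W_MP_825298_an.HP1
import Pool.Agent.W_MP_825298_an.Barrier1

open MeasureTheory Set Filter Topology
open scoped ENNReal NNReal BigOperators

namespace HG
variable {d : ℕ}

theorem thmA2_lap_const_mul {f : P d → ℝ} (hf : ContDiff ℝ 2 f) (c : ℝ) (X : P d) :
    lap (fun Y => c * f Y) X = c * lap f X := by
  have hd1 : Differentiable ℝ f := hf.differentiable (by norm_num)
  have hpd : ∀ a : Ix d, pd a (fun Y => c * f Y) = fun Y => c * pd a f Y := by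
    intro a
    funext Y
    unfold pd
    rw [fderiv_const_mul (hd1 Y)]
    simp
  have hd2 : ∀ a : Ix d, Differentiable ℝ (pd a f) := by
    intro a
    have h1 : ContDiff ℝ 1 (fderiv ℝ f) := hf.fderiv_right (by norm_num)
    have h2 : ContDiff ℝ 1 (fun Y => fderiv ℝ f Y (eb a)) := h1.clm_apply contDiff_const
    exact h2.differentiable (by norm_num)
  unfold lap
  rw [Finset.mul_sum]
  refine Finset.sum_congr rfl fun a _ => ?_
  rw [hpd a]
  change fderiv ℝ (fun Y => c * pd a f Y) X (eb a) = c * fderiv ℝ (pd a f) X (eb a)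
  rw [fderiv_const_mul (hd2 a X)]
  simp

/-- Upper bound. `b = C5 bup Z0`, `Z0 = (0, ψ 0)`; on the graph over `‖x‖ ≤ 10`, `sq ≤ 100 d + 100 M²`. -/
theorem sol_upper (hd : 1 ≤ d) (M : ℝ≥0) : ∃ C5 : ℝ, 0 < C5 ∧ ∀ (ψ ζ : E d → ℝ), LipschitzWith M ψ → BdFun ζ →
    (∀ x, 10 ≤ ‖x‖ → ζ x = 0) → ∀ (H : P d → ℝ), IsSol ψ ζ H → ∀ X ∈ above ψ,
      H X ≤ C5 * (1 + ‖X - ((0, ψ 0) : P d)‖) ^ (-((d : ℝ) - 1)) := by
  have hM : (0 : ℝ) ≤ M := M.coe_nonneg
  have hd' : (1 : ℝ) ≤ d := by exact_mod_cast hd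
  set p : ℝ := ((d : ℝ) - 1) / 2 with hp
  have hp0 : 0 ≤ p := by rw [hp]; linarith
  set A : ℝ := 1 + ((d : ℝ) + 1) * (10 * (1 + (M : ℝ))) ^ 2 with hA
  have hA0 : 0 < A := by rw [hA]; positivity
  have hAp : 0 < A ^ p := Real.rpow_pos_of_pos hA0 p
  refine ⟨A ^ p * 2 ^ p, mul_pos hAp (Real.rpow_pos_of_pos (by norm_num) p), ?_⟩
  intro ψ ζ hψ hζ hζ0 H hH X hX
  have hlip : ∀ a b : E d, |ψ a - ψ b| ≤ M * ‖a - b‖ := by
    intro a b
    have := hψ.dist_le_mul a b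
    rwa [Real.dist_eq, dist_eq_norm] at this
  set Z0 : P d := (0, ψ 0) with hZ0
  have hbup0 : ∀ Y, 0 ≤ bup Z0 Y := fun Y => by
    unfold bup
    exact Real.rpow_nonneg (by have := Newton1_sq_nonneg (Y - Z0); linarith) _
  have hcd : ContDiff ℝ 2 (fun Y => A ^ p * bup Z0 Y) := contDiff_const.mul (bup_contDiff Z0)
  have hlb : ∃ K : ℝ≥0, LipschitzWith K (fun Y => A ^ p * bup Z0 Y) := by
    obtain ⟨K, hK⟩ := bup_lipschitz hd Z0
    refine ⟨Real.toNNReal (A ^ p) * K, ?_⟩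
    refine LipschitzWith.of_dist_le_mul fun Y Y' => ?_
    have h1 := hK.dist_le_mul Y Y'
    rw [Real.dist_eq] at h1 ⊢
    rw [← mul_sub, abs_mul, abs_of_pos hAp, NNReal.coe_mul, Real.coe_toNNReal _ hAp.le, mul_assoc]
    exact mul_le_mul_of_nonneg_left h1 hAp.le
  have hmain := sol_le_barrier hψ hζ hH hcd hlb (fun Y => mul_nonneg hAp.le (hbup0 Y))
    (fun Y _ => by
      rw [thmA2_lap_const_mul (bup_contDiff Z0)]
      exact mul_nonpos_of_nonneg_of_nonpos hAp.le (bup_lap hd Z0 Y))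
    (fun x => by
      by_cases hx : 10 ≤ ‖x‖
      · rw [hζ0 x hx]
        exact mul_nonneg hAp.le (hbup0 _)
      · refine (hζ.le1 x).trans ?_
        have hx' : ‖x‖ ≤ 10 := (not_le.mp hx).le
        have hn : ‖((x, ψ x) : P d) - Z0‖ ≤ 10 * (1 + M) := by
          rw [norm_prod_le_iff]
          constructor
          · change ‖x - 0‖ ≤ _
            rw [sub_zero]
            nlinarith
          · change |ψ x - ψ 0| ≤ _
            have h1 := hlip x 0
            rw [sub_zero] at h1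
            nlinarith
        have hs : 1 + sq (((x, ψ x) : P d) - Z0) ≤ A := by
          have h1 := (norm_sq_le_sq (((x, ψ x) : P d) - Z0)).2
          have h2 : ((d : ℝ) + 1) * ‖((x, ψ x) : P d) - Z0‖ ^ 2 ≤ ((d : ℝ) + 1) * (10 * (1 + (M : ℝ))) ^ 2 :=
            mul_le_mul_of_nonneg_left (pow_le_pow_left₀ (norm_nonneg _) hn 2) (by linarith)
          rw [hA]; linarith
        have hpos : 0 < 1 + sq (((x, ψ x) : P d) - Z0) := by
          have := Newton1_sq_nonneg (((x, ψ x) : P d) - Z0); linarith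
        unfold bup
        rw [← hp, Real.rpow_neg hpos.le, ← div_eq_mul_inv, le_div_iff₀ (Real.rpow_pos_of_pos hpos p), one_mul]
        exact Real.rpow_le_rpow hpos.le hs hp0)
    X hX
  refine hmain.trans ?_
  rw [mul_assoc]
  refine mul_le_mul_of_nonneg_left ?_ hAp.le
  set t : ℝ := ‖X - Z0‖ with ht
  have ht0 : 0 ≤ t := norm_nonneg _
  have h1t : 0 < 1 + t := by linarith
  have hsq : t ^ 2 ≤ sq (X - Z0) := (norm_sq_le_sq (X - Z0)).1
  have hbase : (1 + t) ^ 2 / 2 ≤ 1 + sq (X - Z0) := by nlinarith [sq_nonneg (t - 1)]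
  have hb0 : 0 < (1 + t) ^ 2 / 2 := by positivity
  unfold bup
  rw [← hp]
  have h1 : (1 + sq (X - Z0)) ^ (-p) ≤ ((1 + t) ^ 2 / 2) ^ (-p) := by
    apply Real.rpow_le_rpow_of_nonpos hb0 hbase
    linarith
  refine h1.trans (le_of_eq ?_)
  rw [Real.div_rpow (by positivity) (by norm_num), Real.rpow_neg (by norm_num : (0 : ℝ) ≤ 2) p, div_inv_eq_mul,
    mul_comm, ← Real.rpow_natCast (1 + t) 2, ← Real.rpow_mul h1t.le]
  congr 2
  rw [hp]
  push_cast
  ring

end HG
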