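import Pool.Agent.W_MP_825298_an.ThmA1
import Pool.Agent.W_MP_825298_an.ThmA2
import Pool.Agent.W_MP_825298_an.GF3
import Pool.Agent.W_MP_825298_an.Rellich
import Pool.Agent.W_MP_825298_an.Repr2
import Pool.Agent.W_MP_825298_an.HP2

open MeasureTheory Set Filter Topology
open scoped ENNReal NNReal BigOperators

namespace HG
variable {d : ℕ}

theorem t3_isOpen_above {M : ℝ≥0} {ψ : E d → ℝ} (hψ : LipschitzWith M ψ) :
    IsOpen (above ψ) :=
  isOpen_lt (hψ.continuous.comp continuous_fst) continuous_snd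

theorem t3_nF_nonneg (F : Ix d → P d → ℝ) (X : P d) : 0 ≤ nF F X :=
  Finset.sum_nonneg fun _ _ => abs_nonneg _

theorem t3_continuous_nF {U : Set (P d)} {G : Ix d → P d → ℝ} (hG : IsField U G) {g : E d → ℝ}
    (hg : Continuous g) (hgU : ∀ x, ((x, g x) : P d) ∈ U) :
    Continuous fun x => nF G (x, g x) := by
  unfold nF
  refine continuous_finset_sum _ fun a _ => ?_
  refine Continuous.abs ?_
  exact (hG.cd a).continuousOn.comp_continuous (continuous_id.prodMk hg) hgU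

theorem t3_norm_lower {M : ℝ≥0} {φ : E d → ℝ} (hφ : LipschitzWith M φ) {x₀ : E d} {t₀ ρ : ℝ}
    (hρ : 0 < ρ) (h : ρ ≤ t₀ - φ x₀) (x : E d) :
    (ρ / (1 + M) + ‖x - x₀‖) / 2 ≤ ‖((x, φ x) : P d) - (x₀, t₀)‖ := by
  have hM : (0 : ℝ) ≤ M := M.2
  have h1 : ‖x - x₀‖ ≤ ‖((x, φ x) : P d) - (x₀, t₀)‖ := by
    have := norm_fst_le (((x, φ x) : P d) - (x₀, t₀))
    simpa using this
  have h2 : |φ x - t₀| ≤ ‖((x, φ x) : P d) - (x₀, t₀)‖ := by
    have := norm_snd_le (((x, φ x) : P d) - (x₀, t₀))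
    simpa using this
  have h3 : |φ x - φ x₀| ≤ M * ‖x - x₀‖ := by
    have := hφ.dist_le_mul x x₀
    rwa [Real.dist_eq, dist_eq_norm] at this
  have h4 : t₀ - φ x ≤ |φ x - t₀| := by
    rw [abs_sub_comm]; exact le_abs_self _
  have h5 : φ x - φ x₀ ≤ M * ‖x - x₀‖ := (le_abs_self _).trans h3
  have h6 : ρ ≤ (1 + M) * ‖((x, φ x) : P d) - (x₀, t₀)‖ := by
    have : (M : ℝ) * ‖x - x₀‖ ≤ M * ‖((x, φ x) : P d) - (x₀, t₀)‖ :=
      mul_le_mul_of_nonneg_left h1 hM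
    linarith
  have h7 : ρ / (1 + M) ≤ ‖((x, φ x) : P d) - (x₀, t₀)‖ := by
    rw [div_le_iff₀ (by positivity)]
    linarith
  linarith

theorem t3_integrable_J (d : ℕ) (hd : 1 ≤ d) :
    Integrable (fun x : E d => (1 + ‖x‖) ^ (-(2 * d : ℝ))) := by
  refine integrable_one_add_norm ?_
  have : (1 : ℝ) ≤ d := by exact_mod_cast hd
  simp
  linarith

/-- the kernel estimate -/
theorem t3_kernel (d : ℕ) (hd : 1 ≤ d) (M : ℝ≥0) : ∃ CK : ℝ, 0 ≤ CK ∧ ∀ (φ : E d → ℝ),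
    LipschitzWith M φ → ∀ (x₀ : E d) (t₀ ρ : ℝ), 0 < ρ → ρ ≤ t₀ - φ x₀ →
    ∫⁻ x : E d, ENNReal.ofReal ((1 / ‖((x, φ x) : P d) - (x₀, t₀)‖ ^ d) ^ 2) ≤
      ENNReal.ofReal (CK * (ρ ^ d)⁻¹) := by
  set J : ℝ := ∫ x : E d, (1 + ‖x‖) ^ (-(2 * d : ℝ)) with hJ
  have hJ0 : 0 ≤ J := integral_nonneg fun x => by positivity
  refine ⟨2 ^ (2 * d) * (1 + M) ^ d * J, by positivity, ?_⟩
  intro φ hφ x₀ t₀ ρ hρ h
  have hM1 : (0 : ℝ) < 1 + M := by positivity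
  set r : ℝ := ρ / (1 + M) with hr
  have hr0 : 0 < r := by positivity
  -- pointwise bound
  have hpt : ∀ x : E d, (1 / ‖((x, φ x) : P d) - (x₀, t₀)‖ ^ d) ^ 2 ≤
      2 ^ (2 * d) * (r ^ (2 * d))⁻¹ * (1 + ‖r⁻¹ • (x - x₀)‖) ^ (-(2 * d : ℝ)) := by
    intro x
    have h1 := t3_norm_lower hφ hρ h x
    have h2 : 0 < (r + ‖x - x₀‖) / 2 := by positivity
    have h3 : (1 / ‖((x, φ x) : P d) - (x₀, t₀)‖ ^ d) ^ 2 ≤ (1 / ((r + ‖x - x₀‖) / 2) ^ d) ^ 2 := by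
      have hA : 0 ≤ 1 / ‖((x, φ x) : P d) - (x₀, t₀)‖ ^ d := by positivity
      have hB : 1 / ‖((x, φ x) : P d) - (x₀, t₀)‖ ^ d ≤ 1 / ((r + ‖x - x₀‖) / 2) ^ d := by
        apply one_div_le_one_div_of_le (by positivity)
        exact pow_le_pow_left₀ h2.le h1 d
      exact pow_le_pow_left₀ hA hB 2
    refine h3.trans (le_of_eq ?_)
    have h4 : r + ‖x - x₀‖ = r * (1 + ‖r⁻¹ • (x - x₀)‖) := by
      rw [norm_smul, Real.norm_of_nonneg (inv_nonneg.mpr hr0.le)]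
      field_simp
    have h5 : (1 + ‖r⁻¹ • (x - x₀)‖) ^ (-(2 * d : ℝ)) = ((1 + ‖r⁻¹ • (x - x₀)‖) ^ (2 * d))⁻¹ := by
      rw [Real.rpow_neg (by positivity)]
      congr 1
      have : (2 * d : ℝ) = ((2 * d : ℕ) : ℝ) := by push_cast; ring
      rw [this, Real.rpow_natCast]
    rw [h4, h5]
    have h6 : (0 : ℝ) < 1 + ‖r⁻¹ • (x - x₀)‖ := by positivity
    rw [one_div, inv_pow, ← pow_mul, div_pow, mul_pow, mul_comm d 2]
    field_simp
  have hint : Integrable (fun x : E d => 2 ^ (2 * d) * (r ^ (2 * d))⁻¹ *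
      (1 + ‖r⁻¹ • (x - x₀)‖) ^ (-(2 * d : ℝ))) := by
    have h1 := (t3_integrable_J d hd).comp_smul (μ := volume) (inv_ne_zero hr0.ne')
    have h2 := h1.comp_sub_right x₀
    exact h2.const_mul _
  calc ∫⁻ x : E d, ENNReal.ofReal ((1 / ‖((x, φ x) : P d) - (x₀, t₀)‖ ^ d) ^ 2)
      ≤ ∫⁻ x : E d, ENNReal.ofReal (2 ^ (2 * d) * (r ^ (2 * d))⁻¹ *
          (1 + ‖r⁻¹ • (x - x₀)‖) ^ (-(2 * d : ℝ))) :=
        lintegral_mono fun x => ENNReal.ofReal_le_ofReal (hpt x)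
    _ = ENNReal.ofReal (∫ x : E d, 2 ^ (2 * d) * (r ^ (2 * d))⁻¹ *
          (1 + ‖r⁻¹ • (x - x₀)‖) ^ (-(2 * d : ℝ))) := by
        rw [ofReal_integral_eq_lintegral_ofReal hint]
        exact Eventually.of_forall fun x => by positivity
    _ ≤ _ := by
        apply ENNReal.ofReal_le_ofReal
        rw [integral_const_mul]
        have h1 : ∫ x : E d, (1 + ‖r⁻¹ • (x - x₀)‖) ^ (-(2 * d : ℝ)) = r ^ d * J := by
          have h2 := integral_sub_right_eq_self (μ := (volume : Measure (E d)))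
            (fun x : E d => (1 + ‖r⁻¹ • x‖) ^ (-(2 * d : ℝ))) x₀
          rw [h2]
          have h3 := Measure.integral_comp_smul (μ := (volume : Measure (E d)))
            (fun x : E d => (1 + ‖x‖) ^ (-(2 * d : ℝ))) r⁻¹
          rw [h3]
          simp only [Module.finrank_fintype_fun_eq_card, Fintype.card_fin, smul_eq_mul]
          rw [inv_pow, inv_inv, abs_of_pos (by positivity)]
        rw [h1]
        apply le_of_eq
        have h2 : r ^ (2 * d) = r ^ d * r ^ d := by rw [← pow_add]; congr 1; ring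
        have h3 : r ^ d * (1 + (M : ℝ)) ^ d = ρ ^ d := by
          rw [← mul_pow, hr]; congr 1; field_simp
        rw [← h3, h2]
        have hrd : 0 < r ^ d := by positivity
        have hMd : 0 < (1 + (M : ℝ)) ^ d := by positivity
        field_simp

theorem t3_cs {f g : E d → ℝ} (hf : Continuous f) (hg : Measurable g) (hf0 : ∀ x, 0 ≤ f x)
    (hg0 : ∀ x, 0 ≤ g x) {A B : ℝ} (hA : 0 ≤ A) (hB : 0 ≤ B)
    (h1 : ∫⁻ x, ENNReal.ofReal ((f x) ^ 2) ≤ ENNReal.ofReal (A ^ 2))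
    (h2 : ∫⁻ x, ENNReal.ofReal ((g x) ^ 2) ≤ ENNReal.ofReal (B ^ 2)) :
    ∫⁻ x, ENNReal.ofReal (f x * g x) ≤ ENNReal.ofReal (A * B) := by
  have hpq : (2 : ℝ).HolderConjugate 2 := by
    rw [Real.holderConjugate_iff]; norm_num
  have h := ENNReal.lintegral_mul_le_Lp_mul_Lq (volume : Measure (E d)) hpq
    (f := fun x => ENNReal.ofReal (f x)) (g := fun x => ENNReal.ofReal (g x))
    hf.measurable.ennreal_ofReal.aemeasurable hg.ennreal_ofReal.aemeasurable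
  have e1 : ∫⁻ x, ENNReal.ofReal (f x * g x) =
      ∫⁻ x, ((fun x => ENNReal.ofReal (f x)) * (fun x => ENNReal.ofReal (g x))) x := by
    refine lintegral_congr fun x => ?_
    simp [ENNReal.ofReal_mul (hf0 x)]
  have key : ∀ (u : E d → ℝ) (C : ℝ), (∀ x, 0 ≤ u x) → 0 ≤ C →
      ∫⁻ x, ENNReal.ofReal ((u x) ^ 2) ≤ ENNReal.ofReal (C ^ 2) →
      (∫⁻ x, ENNReal.ofReal (u x) ^ (2 : ℝ)) ^ (1 / (2 : ℝ)) ≤ ENNReal.ofReal C := by
    intro u C hu hC hle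
    have e2 : ∫⁻ x, ENNReal.ofReal (u x) ^ (2 : ℝ) = ∫⁻ x, ENNReal.ofReal ((u x) ^ 2) := by
      refine lintegral_congr fun x => ?_
      rw [ENNReal.ofReal_rpow_of_nonneg (hu x) (by norm_num)]
      norm_num
    rw [e2]
    calc (∫⁻ x, ENNReal.ofReal ((u x) ^ 2)) ^ (1 / (2 : ℝ))
        ≤ (ENNReal.ofReal (C ^ 2)) ^ (1 / (2 : ℝ)) := ENNReal.rpow_le_rpow hle (by norm_num)
      _ = ENNReal.ofReal C := by
        rw [ENNReal.ofReal_rpow_of_nonneg (by positivity) (by norm_num)]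
        congr 1
        rw [← Real.sqrt_eq_rpow, Real.sqrt_sq hC]
  rw [e1]
  refine h.trans ?_
  rw [ENNReal.ofReal_mul hA]
  exact mul_le_mul' (key f A hf0 hA h1) (key g B hg0 hB h2)

/-- THEOREM A. Take `H` from `H_exists`, `G = Gf H`.
(A2) `rellich` on the graph of `g` (decay `Gf_decay`, exponent `β = d - 5/4 > d/2`), `H(x,g x)² ≤ C5² (1+‖x‖)^{-2(d-1)}`, integrable as
`2(d-1) > d`.  (A3) `repr_bound` for the graph of `ψ+ε` (`0 < ε ≤ ρ/2`), Cauchy-Schwarz,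
`∫ ‖(x,ψ x+ε)-X‖^{-2d} dx ≤ C ρ^{-d}`, then `rellich` on the graph of `ψ+ε`, `sol_trace`, `ε → 0`.  (A4) `sol_lower`. -/
theorem thmA (d : ℕ) (hd : 3 ≤ d) (M : ℝ≥0) : ∃ CA cA C3 : ℝ, 0 < CA ∧ 0 < cA ∧ 1 ≤ C3 ∧
    ∀ (ψ ζ : E d → ℝ), LipschitzWith M ψ → BdFun ζ → (∀ x, 10 ≤ ‖x‖ → ζ x = 0) →
    ∃ G : Ix d → P d → ℝ, IsField (above ψ) G ∧ (∀ X ∈ above ψ, 0 ≤ G none X) ∧
      (∀ g : E d → ℝ, LipschitzWith M g → (∃ ε : ℝ, 0 < ε ∧ ∀ x, ψ x + ε ≤ g x) →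
        ∫⁻ x : E d, ENNReal.ofReal ((nF G (x, g x)) ^ 2) ≤ ENNReal.ofReal CA) ∧
      (∀ X ∈ above ψ, ∀ ρ : ℝ, 0 < ρ → ρ ≤ X.2 - ψ X.1 →
        nF G X ≤ CA * ρ ^ (-((d : ℝ) / 2)) * Real.sqrt (∫ x : E d, (ζ x) ^ 2)) ∧
      (∀ (y' : E d) (ρ' : ℝ), 0 < ρ' → (∀ y, ‖y - y'‖ ≤ C3 * ρ' → ζ y = 1) →
        ∀ (x : E d) (t : ℝ), ‖x - y'‖ ≤ 8 * ρ' → ψ x < t → t ≤ ψ x + 5 * ρ' → cA ≤ G none (x, t)) := by
  have hd1 : 1 ≤ d := by omega
  have hdR : (3 : ℝ) ≤ d := by exact_mod_cast hd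
  obtain ⟨cA, C3, hcA, hC3, hlow⟩ := sol_lower d M
  obtain ⟨C5, hC5, hup⟩ := sol_upper hd1 M
  obtain ⟨Cr, hCr, hrel⟩ := rellich (d := d) M hd1
  obtain ⟨Cp, hCp, hrep⟩ := repr_bound (d := d) hd1 M
  obtain ⟨CK, hCK, hker⟩ := t3_kernel d hd1 M
  set I : ℝ := ∫ x : E d, (1 + ‖x‖) ^ (-(2 * ((d : ℝ) - 1))) with hI
  have hI0 : 0 ≤ I := integral_nonneg fun x => by positivity
  have hIint : Integrable (fun x : E d => (1 + ‖x‖) ^ (-(2 * ((d : ℝ) - 1)))) := by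
    refine integrable_one_add_norm ?_
    simp only [Module.finrank_fintype_fun_eq_card, Fintype.card_fin]
    linarith
  set K1 : ℝ := Cr * (C5 ^ 2 * I) with hK1
  set K2 : ℝ := Cp * Real.sqrt Cr * Real.sqrt (CK * 2 ^ d) with hK2
  have hK1' : 0 ≤ K1 := by positivity
  have hK2' : 0 ≤ K2 := by positivity
  refine ⟨K1 + K2 + 1, cA, C3, by positivity, hcA, hC3, ?_⟩
  intro ψ ζ hψ hζ hζ10
  obtain ⟨H, hH⟩ := H_exists hψ hζ
  have hH0 : ∀ X ∈ above ψ, 0 ≤ H X := fun X hX => (sol_bounds hψ hζ hH X hX).1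
  have hHb : ∀ X ∈ above ψ, H X ≤ C5 * (1 + ‖X - ((0, ψ 0) : P d)‖) ^ (-((d : ℝ) - 1)) :=
    hup ψ ζ hψ hζ hζ10 H hH
  have hZ0 : (((0, ψ 0) : P d)).2 ≤ ψ (((0, ψ 0) : P d)).1 := le_refl _
  obtain ⟨hGf, hGn⟩ := Gf_field (by omega) hψ hH.1 hH0 hZ0 hHb
  have hβ : (d : ℝ) / 2 < (d : ℝ) - 5 / 4 := by linarith
  have hβ0 : 0 < (d : ℝ) - 5 / 4 := by linarith
  have hopen := t3_isOpen_above hψ
  -- Rellich on graphs above ψ + ε
  have hR : ∀ (g : E d → ℝ) (ε : ℝ), LipschitzWith M g → 0 < ε → (∀ x, ψ x + ε ≤ g x) →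
      Integrable (fun x : E d => (nF (Gf H) (x, g x)) ^ 2) ∧
      Integrable (fun x : E d => (H (x, g x)) ^ 2) ∧
      ∫ x : E d, (nF (Gf H) (x, g x)) ^ 2 ≤ Cr * ∫ x : E d, (H (x, g x)) ^ 2 ∧
      ∃ C : ℝ, ∀ X ∈ aboveC g, nF (Gf H) X ≤ C * (1 + ‖X‖) ^ (-((d : ℝ) - 5 / 4)) := by
    intro g ε hg hε hge
    obtain ⟨C, hC⟩ := Gf_decay hd hψ hH.1 hH0 hZ0 hHb hε
    have hsub : aboveC g ⊆ above ψ := by
      intro X hX
      have h1 := hge X.1
      have h2 : g X.1 ≤ X.2 := hX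
      show ψ X.1 < X.2
      linarith
    have hdec : ∀ X ∈ aboveC g, nF (Gf H) X ≤ C * (1 + ‖X‖) ^ (-((d : ℝ) - 5 / 4)) := by
      intro X hX
      exact hC X ((hge X.1).trans hX)
    obtain ⟨i1, i2, i3⟩ := hrel g hg (above ψ) hopen hsub (Gf H) hGf C _ hβ hdec
    have heq : (fun x : E d => (Gf H none (x, g x)) ^ 2) = fun x : E d => (H (x, g x)) ^ 2 := by
      funext x
      rw [hGn (x, g x) (hsub (show g x ≤ g x from le_refl _))]
    refine ⟨i1, ?_, ?_, C, hdec⟩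
    · rw [← heq]; exact i2
    · rw [← heq]; exact i3
  refine ⟨Gf H, hGf, ?_, ?_, ?_, ?_⟩
  · intro X hX
    rw [hGn X hX]; exact hH0 X hX
  · -- (A2)
    rintro g hg ⟨ε, hε, hge⟩
    obtain ⟨i1, i2, i3, -⟩ := hR g ε hg hε hge
    have h1 : ∫⁻ x : E d, ENNReal.ofReal ((nF (Gf H) (x, g x)) ^ 2) =
        ENNReal.ofReal (∫ x : E d, (nF (Gf H) (x, g x)) ^ 2) := by
      rw [ofReal_integral_eq_lintegral_ofReal i1]
      exact Eventually.of_forall fun x => by positivity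
    rw [h1]
    apply ENNReal.ofReal_le_ofReal
    have h2 : ∫ x : E d, (H (x, g x)) ^ 2 ≤ C5 ^ 2 * I := by
      rw [hI, ← integral_const_mul]
      refine integral_mono i2 (hIint.const_mul _) fun x => ?_
      have hxg : ((x, g x) : P d) ∈ above ψ := by
        show ψ x < g x
        linarith [hge x]
      have h3 := hHb _ hxg
      have h4 := hH0 _ hxg
      have h5 : ‖x‖ ≤ ‖((x, g x) : P d) - ((0, ψ 0) : P d)‖ := by
        have := norm_fst_le (((x, g x) : P d) - ((0, ψ 0) : P d))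
        simpa using this
      have h6 : (1 + ‖((x, g x) : P d) - ((0, ψ 0) : P d)‖) ^ (-((d : ℝ) - 1)) ≤
          (1 + ‖x‖) ^ (-((d : ℝ) - 1)) := by
        apply Real.rpow_le_rpow_of_nonpos (by positivity) (by linarith) (by linarith)
      have h7 : H (x, g x) ≤ C5 * (1 + ‖x‖) ^ (-((d : ℝ) - 1)) :=
        h3.trans (mul_le_mul_of_nonneg_left h6 hC5.le)
      have h8 : (H (x, g x)) ^ 2 ≤ (C5 * (1 + ‖x‖) ^ (-((d : ℝ) - 1))) ^ 2 :=
        pow_le_pow_left₀ h4 h7 2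
      refine h8.trans (le_of_eq ?_)
      rw [mul_pow, ← Real.rpow_natCast ((1 + ‖x‖) ^ (-((d : ℝ) - 1))) 2, ← Real.rpow_mul (by positivity)]
      congr 2
      push_cast; ring
    calc ∫ x : E d, (nF (Gf H) (x, g x)) ^ 2 ≤ Cr * ∫ x : E d, (H (x, g x)) ^ 2 := i3
      _ ≤ Cr * (C5 ^ 2 * I) := mul_le_mul_of_nonneg_left h2 hCr.le
      _ ≤ K1 + K2 + 1 := by rw [← hK1]; linarith
  · -- (A3)
    intro X hX ρ hρ hρX
    obtain ⟨Cs, hCs, htr⟩ := sol_trace hψ hζ hH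
    set Z : ℝ := Real.sqrt (∫ x : E d, (ζ x) ^ 2) with hZ
    have hZ' : 0 ≤ Z := Real.sqrt_nonneg _
    have hmain : ∀ ε : ℝ, 0 < ε → ε ≤ 1 → ε ≤ ρ / 2 →
        nF (Gf H) X ≤ Cp * ((Real.sqrt Cr * (Z + Cs * Real.sqrt ε)) *
          (Real.sqrt (CK * 2 ^ d) * ρ ^ (-((d : ℝ) / 2)))) := by
      intro ε hε hε1 hε2
      set φ : E d → ℝ := fun x => ψ x + ε with hφd
      have hφ : LipschitzWith M φ := by
        have := hψ.add (LipschitzWith.const (α := E d) ε)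
        simpa [hφd] using this
      obtain ⟨i1, i2, i3, C, hdec⟩ := hR φ ε hφ hε (fun x => le_refl _)
      have hsub : aboveC φ ⊆ above ψ := by
        intro Y hY
        have h2 : ψ Y.1 + ε ≤ Y.2 := hY
        show ψ Y.1 < Y.2
        linarith
      have hXφ : X ∈ above φ := by
        show ψ X.1 + ε < X.2
        linarith
      have h1 := hrep φ hφ (above ψ) hopen hsub (Gf H) hGf C _ hβ0 hdec X hXφ
      have hcont : Continuous fun x : E d => nF (Gf H) (x, φ x) :=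
        t3_continuous_nF hGf hφ.continuous (fun x => hsub (show φ x ≤ φ x from le_refl _))
      have hkm : Measurable fun x : E d => 1 / ‖((x, φ x) : P d) - (X.1, X.2)‖ ^ d := by
        have : Continuous fun x : E d => ‖((x, φ x) : P d) - (X.1, X.2)‖ ^ d := by
          have := hφ.continuous
          fun_prop
        exact measurable_const.div this.measurable
      have hA : ∫⁻ x : E d, ENNReal.ofReal ((nF (Gf H) (x, φ x)) ^ 2) ≤
          ENNReal.ofReal ((Real.sqrt Cr * (Z + Cs * Real.sqrt ε)) ^ 2) := by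
        have h2 : ∫⁻ x : E d, ENNReal.ofReal ((nF (Gf H) (x, φ x)) ^ 2) =
            ENNReal.ofReal (∫ x : E d, (nF (Gf H) (x, φ x)) ^ 2) := by
          rw [ofReal_integral_eq_lintegral_ofReal i1]
          exact Eventually.of_forall fun x => by positivity
        have h3 : ∫⁻ x : E d, ENNReal.ofReal ((H (x, φ x)) ^ 2) =
            ENNReal.ofReal (∫ x : E d, (H (x, φ x)) ^ 2) := by
          rw [ofReal_integral_eq_lintegral_ofReal i2]
          exact Eventually.of_forall fun x => by positivity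
        have h4 := htr ε hε hε1
        rw [show (fun x : E d => ENNReal.ofReal ((H (x, ψ x + ε)) ^ 2)) =
          fun x : E d => ENNReal.ofReal ((H (x, φ x)) ^ 2) from rfl, h3] at h4
        have h5 : ∫ x : E d, (H (x, φ x)) ^ 2 ≤ (Z + Cs * Real.sqrt ε) ^ 2 :=
          (ENNReal.ofReal_le_ofReal_iff (by positivity)).1 h4
        rw [h2]
        apply ENNReal.ofReal_le_ofReal
        rw [mul_pow, Real.sq_sqrt hCr.le]
        exact i3.trans (mul_le_mul_of_nonneg_left h5 hCr.le)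
      have hB : ∫⁻ x : E d, ENNReal.ofReal ((1 / ‖((x, φ x) : P d) - (X.1, X.2)‖ ^ d) ^ 2) ≤
          ENNReal.ofReal ((Real.sqrt (CK * 2 ^ d) * ρ ^ (-((d : ℝ) / 2))) ^ 2) := by
        refine (hker φ hφ X.1 X.2 (ρ / 2) (by positivity) ?_).trans (le_of_eq ?_)
        · show ρ / 2 ≤ X.2 - (ψ X.1 + ε)
          linarith
        · congr 1
          rw [mul_pow, Real.sq_sqrt (by positivity), ← Real.rpow_natCast (ρ ^ (-((d : ℝ) / 2))) 2,
            ← Real.rpow_mul hρ.le]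
          have h6 : -((d : ℝ) / 2) * ((2 : ℕ) : ℝ) = -(d : ℝ) := by push_cast; ring
          rw [h6, Real.rpow_neg hρ.le, Real.rpow_natCast, div_pow, inv_div]
          field_simp
      have h2 := t3_cs hcont hkm (fun x => t3_nF_nonneg _ _) (fun x => by positivity)
        (by positivity) (by positivity) hA hB
      have h3 : ∫⁻ x : E d, ENNReal.ofReal (nF (Gf H) (x, φ x) / ‖((x, φ x) : P d) - X‖ ^ d) =
          ∫⁻ x : E d, ENNReal.ofReal (nF (Gf H) (x, φ x) *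
            (1 / ‖((x, φ x) : P d) - (X.1, X.2)‖ ^ d)) := by
        refine lintegral_congr fun x => ?_
        rw [mul_one_div]
      rw [h3] at h1
      have h4 := h1.trans (mul_le_mul_right h2 (ENNReal.ofReal Cp))
      rw [← ENNReal.ofReal_mul hCp.le] at h4
      exact (ENNReal.ofReal_le_ofReal_iff (by positivity)).1 h4
    have hlim : Tendsto (fun ε : ℝ => Cp * ((Real.sqrt Cr * (Z + Cs * Real.sqrt ε)) *
          (Real.sqrt (CK * 2 ^ d) * ρ ^ (-((d : ℝ) / 2))))) (𝓝[>] 0)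
        (𝓝 (Cp * ((Real.sqrt Cr * (Z + Cs * Real.sqrt 0)) *
          (Real.sqrt (CK * 2 ^ d) * ρ ^ (-((d : ℝ) / 2)))))) := by
      apply Tendsto.mono_left _ nhdsWithin_le_nhds
      apply Continuous.tendsto
      fun_prop
    have hev : ∀ᶠ ε : ℝ in 𝓝[>] 0, nF (Gf H) X ≤ Cp * ((Real.sqrt Cr * (Z + Cs * Real.sqrt ε)) *
          (Real.sqrt (CK * 2 ^ d) * ρ ^ (-((d : ℝ) / 2)))) := by
      have h1 : ∀ᶠ ε : ℝ in 𝓝[>] 0, ε < min 1 (ρ / 2) :=
        nhdsWithin_le_nhds (Iio_mem_nhds (by positivity))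
      filter_upwards [h1, self_mem_nhdsWithin] with ε h2 h3
      exact hmain ε h3 (h2.le.trans (min_le_left _ _)) (h2.le.trans (min_le_right _ _))
    have hfin := ge_of_tendsto hlim hev
    rw [Real.sqrt_zero, mul_zero, add_zero] at hfin
    have hρd : 0 ≤ ρ ^ (-((d : ℝ) / 2)) := by positivity
    calc nF (Gf H) X ≤ _ := hfin
      _ = K2 * ρ ^ (-((d : ℝ) / 2)) * Z := by rw [hK2]; ring
      _ ≤ (K1 + K2 + 1) * ρ ^ (-((d : ℝ) / 2)) * Z := by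
        apply mul_le_mul_of_nonneg_right _ hZ'
        apply mul_le_mul_of_nonneg_right _ hρd
        linarith
  · -- (A4)
    intro y' ρ' hρ' hζ1 x t hx ht1 ht2
    rw [hGn (x, t) ht1]
    exact hlow ψ ζ hψ hζ H hH y' ρ' hρ' hζ1 x t hx ht1 ht2

end HG
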