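import Pool.Agent.W_MP_825298_an.Kz2
import Pool.Agent.W_MP_825298_an.Kz3
import Pool.Agent.W_MP_825298_an.Kc3
import Pool.Agent.W_MP_825298_an.Kv3
import Pool.Agent.W_MP_825298_an.ThmA3

open MeasureTheory Set Filter Topology
open scoped ENNReal NNReal BigOperators

namespace HG
variable {d : ℕ}

theorem kz4_ind_true {p : Prop} (h : p) : ind p = 1 := by
  classical
  unfold ind
  exact if_pos h

theorem kz4_ind_false {p : Prop} (h : ¬ p) : ind p = 0 := by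
  classical
  unfold ind
  exact if_neg h

/-- the resolution function near a stop at top level -/
theorem kz4_s_le {N : ℕ} {s : E d → ℝ} (hs : ResFun N s) {x y' : E d} {j : ℕ} (h1 : s y' ≤ 3 * (1 / 2 ^ j))
    (h2 : ‖x - y'‖ ≤ 8 * (1 / 2 ^ j)) : s x ≤ 5 * (1 / 2 ^ j) := by
  have h := (abs_le.1 (ka1_lip hs.lip x y')).2
  linarith

/-- the certificate is bounded below near a stop at top level -/
theorem kz4_lower {φ : E d → ℝ} {F : Ix d → P d → ℝ} {A : ℝ} {N : ℕ} {S : Finset (ℕ × E d)}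
    {s : E d → ℝ} (hs : ResFun N s) {G : Ix d → P d → ℝ} {cA C3 : ℝ} (hC3 : 0 < C3)
    (hG : ∀ (y' : E d) (ρ' : ℝ), 0 < ρ' → (∀ y, ‖y - y'‖ ≤ C3 * ρ' → zet (TopF φ F A s S) C3 y = 1) →
        ∀ (x : E d) (t : ℝ), ‖x - y'‖ ≤ 8 * ρ' → φ x - s x < t → t ≤ φ x - s x + 5 * ρ' → cA ≤ G none (x, t))
    (x : E d) (hx : ∃ p ∈ TopF φ F A s S, ‖x - p.2‖ ≤ 8 * (1 / 2 ^ p.1)) : cA ≤ G none (x, φ x) := by
  obtain ⟨⟨j, y'⟩, hp, hxp⟩ := hx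
  have hp2 := hp
  unfold TopF at hp2
  rw [Finset.mem_filter] at hp2
  have hs1 : s y' ≤ 3 * (1 / 2 ^ j) := hp2.2.2
  have hs2 := kz4_s_le hs hs1 hxp
  have hs0 := Kz3_s_pos hs x
  refine hG y' (1 / 2 ^ j) (by positivity) (fun y hy => zet_one hC3 hp hy) x (φ x) hxp ?_ ?_
  · linarith
  · linarith

/-- the square root of the integral of `ζ²` -/
theorem kz4_sqrt {ζ : E d → ℝ} (hζ : BdFun ζ) {A CZ : ℝ} (hA : 0 < A) (hCZ : 0 ≤ CZ) {X : ℝ≥0∞}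
    (h : ENNReal.ofReal A * ∫⁻ y : E d, ENNReal.ofReal ((ζ y) ^ 2) ≤ ENNReal.ofReal CZ * X) :
    ENNReal.ofReal (Real.sqrt (∫ y : E d, (ζ y) ^ 2)) ≤
      ENNReal.ofReal (Real.sqrt CZ) * (ENNReal.ofReal (A⁻¹) * X) ^ (1 / 2 : ℝ) := by
  obtain ⟨K, hK⟩ := hζ.lip
  have hint0 : 0 ≤ ∫ y : E d, (ζ y) ^ 2 := integral_nonneg fun y => sq_nonneg _
  have h1 : ENNReal.ofReal (∫ y : E d, (ζ y) ^ 2) ≤ ∫⁻ y : E d, ENNReal.ofReal ((ζ y) ^ 2) := by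
    rw [integral_eq_lintegral_of_nonneg_ae (Filter.Eventually.of_forall fun y => sq_nonneg _)
      ((hK.continuous.pow 2).aestronglyMeasurable)]
    exact ENNReal.ofReal_toReal_le
  have h2 : ∫⁻ y : E d, ENNReal.ofReal ((ζ y) ^ 2) ≤ ENNReal.ofReal CZ * (ENNReal.ofReal (A⁻¹) * X) := by
    calc ∫⁻ y : E d, ENNReal.ofReal ((ζ y) ^ 2)
        = ENNReal.ofReal (A⁻¹) * (ENNReal.ofReal A * ∫⁻ y : E d, ENNReal.ofReal ((ζ y) ^ 2)) := by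
          rw [← mul_assoc, ← ENNReal.ofReal_mul (by positivity), inv_mul_cancel₀ hA.ne',
            ENNReal.ofReal_one, one_mul]
      _ ≤ ENNReal.ofReal (A⁻¹) * (ENNReal.ofReal CZ * X) := mul_le_mul' le_rfl h
      _ = _ := by ring
  calc ENNReal.ofReal (Real.sqrt (∫ y : E d, (ζ y) ^ 2))
      = (ENNReal.ofReal (∫ y : E d, (ζ y) ^ 2)) ^ (1 / 2 : ℝ) := by
        rw [Real.sqrt_eq_rpow, ENNReal.ofReal_rpow_of_nonneg hint0 (by norm_num)]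
    _ ≤ (ENNReal.ofReal CZ * (ENNReal.ofReal (A⁻¹) * X)) ^ (1 / 2 : ℝ) :=
        ENNReal.rpow_le_rpow (h1.trans h2) (by norm_num)
    _ = ENNReal.ofReal (Real.sqrt CZ) * (ENNReal.ofReal (A⁻¹) * X) ^ (1 / 2 : ℝ) := by
        rw [ENNReal.mul_rpow_of_nonneg _ _ (by norm_num), Real.sqrt_eq_rpow,
          ENNReal.ofReal_rpow_of_nonneg hCZ (by norm_num)]

/-- The bulk term. `s = sst S δ N`, `ψ = φ - s` (`(M+1/4)`-Lipschitz), `ζ = zet (TopF φ F A s S) C3` with `C3` from `thmA d hd (M+1/4)`,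
`jm0 ≥ 3` with `C3/2^{jm0} ≤ 1` (`zet_bdFun`, `zet_zero`). `G` from `thmA`: if `(j,y') ∈ TopF` and `‖x-y'‖ ≤ 8/2^j` then `cA ≤ G_n(x,φ x)`, as `ζ = 1` on
`‖y-y'‖ ≤ C3/2^j` (`zet_one`) and `s x ≤ s y' + 2/2^j ≤ 5/2^j`. So the left side is `≤ cA⁻¹ E[ind(‖XR‖≤2) ‖m_R‖ G_n]`; `cert_step` with
`gs = CA (δ/4)^{-d/2} √(∫ζ²)`, and `∫ζ² ≤ (C/A) E‖m_R‖` (`zet_L2`); `err1`, `err2` with `B = C A'` (`wbp_of_stopSet`), `AA_int`. -/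
theorem top_le (hd : 3 ≤ d) (M : ℝ≥0) : ∃ C : ℝ, 0 < C ∧ ∃ J30 jm0 : ℕ, 3 ≤ jm0 ∧ ∀ c1 : ℝ, c1m M ≤ c1 →
    ∀ (φ : E d → ℝ) (U : Set (P d)) (F : Ix d → P d → ℝ), GFd M φ U F → ∀ (A A' : ℝ) (N : ℕ) (S : Finset (ℕ × E d)),
    1 ≤ A → 0 ≤ A' → StopSet M φ F A A' N S → (∀ p ∈ S, jm0 < p.1) → 2 ≤ N → ∀ δ : ℝ, 0 < δ → δ ≤ 1 →
    ∀ J3 : ℕ, J30 ≤ J3 → ∀ lam : ℝ, 0 < lam → ∀ n : ℕ, N + J3 + 3 ≤ n →
    Ex n (fun ω : ℕ → St d => ind (‖XR (sst S δ N) (1 / 2 ^ J3) 0 8 ω‖ ≤ 2) *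
        (ind (∃ p ∈ TopF φ F A (sst S δ N) S, ‖XR (sst S δ N) (1 / 2 ^ J3) 0 8 ω - p.2‖ ≤ 8 * (1 / 2 ^ p.1)) *
          ‖avg (hb φ F) (XR (sst S δ N) (1 / 2 ^ J3) 0 8 ω) (ρR (sst S δ N) (1 / 2 ^ J3) 0 8 ω)‖ₑ))
      ≤ ENNReal.ofReal (C * δ ^ (-((d : ℝ) / 2))) *
          (ENNReal.ofReal (A⁻¹) * Ex n (fun ω : ℕ → St d =>
            ‖avg (hb φ F) (XR (sst S δ N) (1 / 2 ^ J3) 0 8 ω) (ρR (sst S δ N) (1 / 2 ^ J3) 0 8 ω)‖ₑ)) ^ (1 / 2 : ℝ) * WdE φ F c1 0 1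
        + ENNReal.ofReal (C * ((1 / 2 ^ J3 : ℝ) ^ (1 / 2 : ℝ) * A'))
        + ENNReal.ofReal (C * lam * ((2 : ℝ) ^ J3) ^ (d + 1) * A')
        + ENNReal.ofReal (C * lam⁻¹) * Ex n (fun ω : ℕ → St d =>
            ∑ l ∈ Finset.range (Rl (sst S δ N) (1 / 2 ^ J3) 0 8 ω), wv (gamE (avg (hb φ F))) 0 8 ω l) := by
  classical
  have hd1 : 1 ≤ d := by omega
  obtain ⟨CA, cA, C3, hCA, hcA, hC3, hthm⟩ := thmA d hd (M + 1 / 4)
  obtain ⟨Cc, hCc, Jc, hcert⟩ := cert_step (d := d) hd1 M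
  obtain ⟨C1, hC1, J1, herr1⟩ := err1 (d := d) hd1 M
  obtain ⟨C2, hC2, J2, herr2⟩ := err2 (d := d) hd1 M
  obtain ⟨CZ, hCZ⟩ := zet_L2 (d := d) hd1 C3 hC3
  obtain ⟨CI, hCI⟩ := AA_int d M CA
  obtain ⟨CW, hCW, hwbp⟩ := wbp_of_stopSet d
  obtain ⟨jm, hjm⟩ := pow_unbounded_of_one_lt C3 (by norm_num : (1 : ℝ) < 2)
  have hC30 : 0 < C3 := by linarith
  have hCI0 : (0 : ℝ) ≤ CI := CI.2
  have hCZ0 : (0 : ℝ) ≤ CZ := CZ.2
  set C : ℝ := cA⁻¹ * Cc * (CA * (4 : ℝ) ^ ((d : ℝ) / 2) * Real.sqrt CZ + C1 * CW * CI + C2 * CW * CI + 1) with hCdef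
  have hk : 0 < cA⁻¹ * Cc := by positivity
  have ht1 : 0 ≤ CA * (4 : ℝ) ^ ((d : ℝ) / 2) * Real.sqrt CZ := by positivity
  have ht2 : 0 ≤ C1 * CW * CI := by positivity
  have ht3 : 0 ≤ C2 * CW * CI := by positivity
  have hCpos : 0 < C := by positivity
  have hCt1 : cA⁻¹ * Cc * (CA * (4 : ℝ) ^ ((d : ℝ) / 2) * Real.sqrt CZ) ≤ C :=
    mul_le_mul_of_nonneg_left (by linarith) hk.le
  have hCt2 : cA⁻¹ * Cc * (C1 * CW * CI) ≤ C := mul_le_mul_of_nonneg_left (by linarith) hk.le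
  have hCt3 : cA⁻¹ * Cc * (C2 * CW * CI) ≤ C := mul_le_mul_of_nonneg_left (by linarith) hk.le
  have hCt4 : cA⁻¹ * Cc ≤ C := by
    calc cA⁻¹ * Cc = cA⁻¹ * Cc * 1 := (mul_one _).symm
      _ ≤ C := mul_le_mul_of_nonneg_left (by linarith) hk.le
  refine ⟨C, hCpos, max (max Jc J1) (max J2 4), max 3 jm, le_max_left _ _, ?_⟩
  intro c1 hc1 φ U F hF A A' N S hA hA' hS hSj hN δ hδ hδ1 J3 hJ3 lam hlam n hn
  have hJc : Jc ≤ J3 := (le_max_left _ _).trans ((le_max_left _ _).trans hJ3)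
  have hJ1 : J1 ≤ J3 := (le_max_right _ _).trans ((le_max_left _ _).trans hJ3)
  have hJ2 : J2 ≤ J3 := (le_max_left _ _).trans ((le_max_right _ _).trans hJ3)
  have hJ4 : 4 ≤ J3 := (le_max_right _ _).trans ((le_max_right _ _).trans hJ3)
  have hS3 : ∀ p ∈ S, 3 ≤ p.1 := fun p hp => by
    have h1 := hSj p hp
    have h2 := le_max_left 3 jm
    omega
  have hSjm : ∀ p ∈ S, C3 * (1 / 2 ^ p.1) ≤ 1 := fun p hp => by
    have h1 := hSj p hp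
    have h2 := le_max_right 3 jm
    have h3 : (2 : ℝ) ^ jm ≤ 2 ^ p.1 := pow_le_pow_right₀ (by norm_num) (by omega)
    rw [mul_one_div, div_le_one (by positivity)]
    linarith
  have hA0 : 0 < A := by linarith
  have hs : ResFun N (sst S δ N) := sst_resFun hS3 hN
  have hW : WBP φ F (sst S δ N) (CW * A') := hwbp M φ F A A' N S hA' hS δ hS3 hN
  have hB : 0 ≤ CW * A' := by positivity
  generalize hsdef : sst S δ N = s at hs hW ⊢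
  have hsδ : ∀ y, 2 ≤ ‖y‖ → δ / 4 ≤ s y := fun y hy => by
    rw [← hsdef]
    refine le_trans ?_ (sst_edge S δ N y)
    exact le_min (by linarith) (by linarith)
  have hs0 := fun y => Kz3_s_pos hs y
  set T : Finset (ℕ × E d) := TopF φ F A s S with hT
  have hTS : ∀ p ∈ T, p ∈ S := fun p hp => by
    rw [hT] at hp
    unfold TopF at hp
    exact (Finset.mem_filter.1 hp).1
  have hζ : BdFun (zet T C3) := zet_bdFun T hC30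
  have hζ0 : ∀ y, 10 ≤ ‖y‖ → zet T C3 y = 0 := fun y hy =>
    zet_zero hC30 (fun p hp => ((hS p.1 p.2).1 (hTS p hp)).2.2.1) (fun p hp => hSjm p (hTS p hp)) hy
  have hψ : LipschitzWith (M + 1 / 4) (fun y => φ y - s y) := hF.lip.sub hs.lip
  obtain ⟨G, hG, hGn, hGi, hGb, hGl⟩ := hthm (fun y => φ y - s y) (zet T C3) hψ hζ hζ0
  obtain ⟨hI2, hI1⟩ := hCI φ hF.lip N s hs G hG hGi
  have hlow := kz4_lower (N := N) hs hC30 hGl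
  set Z : ℝ := Real.sqrt (∫ y : E d, (zet T C3 y) ^ 2) with hZ
  have hZ0 : 0 ≤ Z := Real.sqrt_nonneg _
  have hgs0 : 0 ≤ CA * (δ / 4) ^ (-((d : ℝ) / 2)) * Z := by positivity
  have hc := hcert c1 hc1 φ U F hF N J3 s hs hJc δ hδ hδ1 hsδ G hG hGn
    (CA * (δ / 4) ^ (-((d : ℝ) / 2)) * Z) hgs0 (fun X hX hX2 => by
      refine hGb X ?_ (δ / 4) (by positivity) ?_
      · show φ X.1 - s X.1 < X.2
        have h1 : φ X.1 < X.2 := hX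
        have h2 := hs0 X.1
        linarith
      · show δ / 4 ≤ X.2 - (φ X.1 - s X.1)
        linarith) lam hlam n hn
  have he1 := herr1 φ U F hF N J3 s hs hJ1 (CW * A') hB hW G hG CI hI1 n hn
  have he2 := herr2 φ U F hF N J3 s hs hJ2 (CW * A') hB hW G hG CI hI2 n hn
  have hz := hCZ M φ U F hF A A' N S hA0 hS s hs J3 hJ4 n hn
  have hz2 := kz4_sqrt (CZ := (CZ : ℝ)) hζ hA0 hCZ0 (by
    rw [ENNReal.ofReal_coe_nnreal]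
    exact hz)
  -- names for the expectations
  set EM : ℝ≥0∞ := Ex n (fun ω : ℕ → St d => ‖avg (hb φ F) (XR s (1 / 2 ^ J3) 0 8 ω) (ρR s (1 / 2 ^ J3) 0 8 ω)‖ₑ) with hEM
  set EG : ℝ≥0∞ := Ex n (fun ω : ℕ → St d =>
            ∑ l ∈ Finset.range (Rl s (1 / 2 ^ J3) 0 8 ω), wv (gamE (avg (hb φ F))) 0 8 ω l) with hEG
  have hleft : Ex n (fun ω : ℕ → St d => ind (‖XR s (1 / 2 ^ J3) 0 8 ω‖ ≤ 2) *
        (ind (∃ p ∈ T, ‖XR s (1 / 2 ^ J3) 0 8 ω - p.2‖ ≤ 8 * (1 / 2 ^ p.1)) *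
          ‖avg (hb φ F) (XR s (1 / 2 ^ J3) 0 8 ω) (ρR s (1 / 2 ^ J3) 0 8 ω)‖ₑ))
      ≤ ENNReal.ofReal cA⁻¹ * Ex n (fun ω : ℕ → St d => ind (‖XR s (1 / 2 ^ J3) 0 8 ω‖ ≤ 2) *
        (‖avg (hb φ F) (XR s (1 / 2 ^ J3) 0 8 ω) (ρR s (1 / 2 ^ J3) 0 8 ω)‖ₑ *
          ENNReal.ofReal (G none (XR s (1 / 2 ^ J3) 0 8 ω, φ (XR s (1 / 2 ^ J3) 0 8 ω))))) := by
    rw [← Ex_mul]
    refine Ex_mono n fun ω => ?_
    by_cases hex : ∃ p ∈ T, ‖XR s (1 / 2 ^ J3) 0 8 ω - p.2‖ ≤ 8 * (1 / 2 ^ p.1)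
    · rw [kz4_ind_true hex, one_mul]
      have h1 := hlow (XR s (1 / 2 ^ J3) 0 8 ω) hex
      have h2 : (1 : ℝ≥0∞) ≤ ENNReal.ofReal cA⁻¹ *
          ENNReal.ofReal (G none (XR s (1 / 2 ^ J3) 0 8 ω, φ (XR s (1 / 2 ^ J3) 0 8 ω))) := by
        rw [← ENNReal.ofReal_mul (by positivity), ENNReal.one_le_ofReal]
        calc (1 : ℝ) = cA⁻¹ * cA := (inv_mul_cancel₀ hcA.ne').symm
          _ ≤ _ := mul_le_mul_of_nonneg_left h1 (by positivity)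
      calc ind (‖XR s (1 / 2 ^ J3) 0 8 ω‖ ≤ 2) *
          ‖avg (hb φ F) (XR s (1 / 2 ^ J3) 0 8 ω) (ρR s (1 / 2 ^ J3) 0 8 ω)‖ₑ
          = (ind (‖XR s (1 / 2 ^ J3) 0 8 ω‖ ≤ 2) *
          ‖avg (hb φ F) (XR s (1 / 2 ^ J3) 0 8 ω) (ρR s (1 / 2 ^ J3) 0 8 ω)‖ₑ) * 1 := (mul_one _).symm
        _ ≤ (ind (‖XR s (1 / 2 ^ J3) 0 8 ω‖ ≤ 2) *
          ‖avg (hb φ F) (XR s (1 / 2 ^ J3) 0 8 ω) (ρR s (1 / 2 ^ J3) 0 8 ω)‖ₑ) *
          (ENNReal.ofReal cA⁻¹ *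
          ENNReal.ofReal (G none (XR s (1 / 2 ^ J3) 0 8 ω, φ (XR s (1 / 2 ^ J3) 0 8 ω)))) :=
            mul_le_mul' le_rfl h2
        _ = _ := by ring
    · rw [kz4_ind_false hex, zero_mul, mul_zero]
      exact bot_le
  refine hleft.trans ((mul_le_mul' le_rfl hc).trans ?_)
  rw [← mul_assoc, ← ENNReal.ofReal_mul (by positivity), mul_add, mul_add, mul_add]
  refine add_le_add (add_le_add (add_le_add ?_ ?_) ?_) ?_
  · -- first term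
    have hδ4 : (δ / 4) ^ (-((d : ℝ) / 2)) = δ ^ (-((d : ℝ) / 2)) * (4 : ℝ) ^ ((d : ℝ) / 2) := by
      rw [Real.div_rpow hδ.le (by norm_num), Real.rpow_neg (by norm_num : (0 : ℝ) ≤ 4), div_inv_eq_mul]
    have hδp : 0 ≤ δ ^ (-((d : ℝ) / 2)) := by positivity
    calc ENNReal.ofReal (cA⁻¹ * Cc) * (ENNReal.ofReal (CA * (δ / 4) ^ (-((d : ℝ) / 2)) * Z) * WdE φ F c1 0 1)
        = ENNReal.ofReal (cA⁻¹ * Cc * (CA * (4 : ℝ) ^ ((d : ℝ) / 2)) * δ ^ (-((d : ℝ) / 2))) *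
            ENNReal.ofReal Z * WdE φ F c1 0 1 := by
          rw [← mul_assoc, ← ENNReal.ofReal_mul (by positivity), ← ENNReal.ofReal_mul (by positivity), hδ4]
          congr 2
          ring
      _ ≤ ENNReal.ofReal (cA⁻¹ * Cc * (CA * (4 : ℝ) ^ ((d : ℝ) / 2)) * δ ^ (-((d : ℝ) / 2))) *
            (ENNReal.ofReal (Real.sqrt CZ) * (ENNReal.ofReal (A⁻¹) * EM) ^ (1 / 2 : ℝ)) * WdE φ F c1 0 1 :=
          mul_le_mul' (mul_le_mul' le_rfl hz2) le_rfl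
      _ = ENNReal.ofReal (cA⁻¹ * Cc * (CA * (4 : ℝ) ^ ((d : ℝ) / 2) * Real.sqrt CZ) * δ ^ (-((d : ℝ) / 2))) *
            (ENNReal.ofReal (A⁻¹) * EM) ^ (1 / 2 : ℝ) * WdE φ F c1 0 1 := by
          rw [← mul_assoc, ← ENNReal.ofReal_mul (by positivity)]
          congr 3
          ring
      _ ≤ _ := mul_le_mul' (mul_le_mul' (ENNReal.ofReal_le_ofReal
          (mul_le_mul_of_nonneg_right hCt1 hδp)) le_rfl) le_rfl
  · refine (mul_le_mul' le_rfl he1).trans ?_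
    rw [← ENNReal.ofReal_coe_nnreal, ← ENNReal.ofReal_mul (by positivity), ← ENNReal.ofReal_mul (by positivity)]
    refine ENNReal.ofReal_le_ofReal ?_
    calc cA⁻¹ * Cc * (C1 * ((1 / 2 ^ J3 : ℝ) ^ (1 / 2 : ℝ) * (CW * A')) * CI)
        = cA⁻¹ * Cc * (C1 * CW * CI) * ((1 / 2 ^ J3 : ℝ) ^ (1 / 2 : ℝ) * A') := by ring
      _ ≤ _ := mul_le_mul_of_nonneg_right hCt2 (by positivity)
  · refine (mul_le_mul' le_rfl (mul_le_mul' le_rfl he2)).trans ?_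
    rw [← ENNReal.ofReal_coe_nnreal, ← ENNReal.ofReal_mul (by positivity), ← ENNReal.ofReal_mul (by positivity),
      ← ENNReal.ofReal_mul (by positivity)]
    refine ENNReal.ofReal_le_ofReal ?_
    calc cA⁻¹ * Cc * (lam * (C2 * ((2 : ℝ) ^ J3) ^ (d + 1) * (CW * A') * CI))
        = cA⁻¹ * Cc * (C2 * CW * CI) * (lam * ((2 : ℝ) ^ J3) ^ (d + 1) * A') := by ring
      _ ≤ C * (lam * ((2 : ℝ) ^ J3) ^ (d + 1) * A') := mul_le_mul_of_nonneg_right hCt3 (by positivity)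
      _ = _ := by ring
  · rw [← mul_assoc, ← ENNReal.ofReal_mul (by positivity)]
    exact mul_le_mul' (ENNReal.ofReal_le_ofReal (mul_le_mul_of_nonneg_right hCt4 (by positivity))) le_rfl

end HG
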