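import Pool.Agent.W_MP_825298_an.Kz1
import Pool.Agent.W_MP_825298_an.Kz4
import Pool.Agent.W_MP_825298_an.Kg1
import Pool.Agent.W_MP_825298_an.Ko1
import Pool.Agent.W_MP_825298_an.Kd2
import Pool.Agent.W_MP_825298_an.Ke2

open MeasureTheory Set Filter Topology
open scoped ENNReal NNReal BigOperators

namespace HG
variable {d : ℕ}

/-- the misalignment terms of the Key Lemma at unit scale -/
noncomputable def Gam {V : Type*} [NormedAddCommGroup V] [NormedSpace ℝ V] (m : E d → ℝ → V) (W : E d → ℝ → ℝ≥0∞) (κ A : ℝ≥0∞)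
    (N J : ℕ) : ℝ≥0∞ :=
  Ex (N + J) (fun ω : ℕ → St d => K2 κ A (av m 0 1 ω) (wv W 0 1 ω) (wv (gamE m) 0 1 ω) N J)
    + Ex J (fun ω : ℕ → St d => ∑ i ∈ Finset.range (J + 1), wv (gamE m) 0 8 ω i)

theorem kz5_av0 {V : Type*} [NormedAddCommGroup V] [NormedSpace ℝ V] (m : E d → ℝ → V) (ω : ℕ → St d) (l : ℕ) :
    av m 0 1 ω l = ‖m (Zp l ω) (1 / 2 ^ l)‖ₑ := by
  unfold av
  rw [zero_add, one_smul]

theorem kz5_av00 {V : Type*} [NormedAddCommGroup V] [NormedSpace ℝ V] (m : E d → ℝ → V) (ω : ℕ → St d) :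
    av m 0 1 ω 0 = ‖m 0 1‖ₑ := by
  rw [kz5_av0]
  simp [Zp]

theorem kz5_hit {V : Type*} [NormedAddCommGroup V] [NormedSpace ℝ V] {m : E d → ℝ → V} {κ : ℝ≥0∞} {A : ℝ≥0}
    (h1 : ‖m 0 1‖ₑ = 1) {w : ℕ → ℝ≥0∞} {ω : ℕ → St d} {l : ℕ}
    (h : Hit κ A (av m 0 1 ω) w (av m 0 1 ω 0) l) : (A : ℝ) < ‖m (Zp l ω) (1 / 2 ^ l)‖ := by
  have h2 := h.2
  rw [kz5_av00, h1, mul_one, kz5_av0, enorm_eq_nnnorm, ENNReal.coe_lt_coe] at h2
  exact h2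

theorem kz5_ind_true {p : Prop} (h : p) : ind p = 1 := by
  unfold ind
  rw [if_pos h]

theorem kz5_ind_false {p : Prop} (h : ¬ p) : ind p = 0 := by
  unfold ind
  rw [if_neg h]

/-- no hit at the coarse levels: a hit at level `l ≤ N` gives the stop `(l, Zp l ω)` -/
theorem K1_coarse {M : ℝ≥0} {φ : E d → ℝ} {F : Ix d → P d → ℝ} {A : ℝ≥0} {A' : ℝ} {N jm : ℕ} {S : Finset (ℕ × E d)}
    (hS : StopSet M φ F A A' N S) (hjm : ∀ p ∈ S, jm < p.1) (hN : N ≤ jm) (h1 : ‖avg (hb φ F) 0 1‖ₑ = 1)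
    (W : E d → ℝ → ℝ≥0∞) (κ : ℝ≥0∞) :
    Ex N (fun ω : ℕ → St d => K1 κ A (av (avg (hb φ F)) 0 1 ω) (wv W 0 1 ω) N) = 0 := by
  have h0 : (fun ω : ℕ → St d => K1 κ A (av (avg (hb φ F)) 0 1 ω) (wv W 0 1 ω) N) = fun _ => 0 := by
    funext ω
    unfold K1
    refine Finset.sum_eq_zero fun l hl => ?_
    have hlN : l ≤ N := by
      have := Finset.mem_range.1 hl
      omega
    rw [kz5_ind_false, zero_mul]
    rintro ⟨⟨hh, _⟩, _⟩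
    have h2 := kz5_hit h1 hh
    have h3 := hjm _ (kg1_mem hS ω hlN h2)
    simp only at h3
    omega
  rw [h0, Ex_zero]

/-- Key Lemma with parameters, `K = 1 + κ⁻¹`, `A' = A K`, `S` from `stopSet_exists`, `s = sst S δ N`. `stop_coarse` (with `w = K`), `K1_coarse` if `N ≤ 2`.
First part: `K1_le` with `B = True`, `opt_norm`, `gam1_le`. Second part: `K1_le` with `B x = (∃ p ∈ TopF, ‖x-p.2‖ ≤ 8/2^{p.1}) ∨ 2-δ < ‖x‖`
(`geom`; the side condition of the first hit gives `WdE ≤ A/κ ≤ A'`); split `ind B ≤ ind(EE) ind(‖XR‖≤2) + ind(2-δ<‖XR‖)`;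
`edge_le`, `err0`, `gam1_le`; `dom3`, `top_le`, `E‖m_R‖ = ‖m(0,8)‖ + E∑γ` (`opt_norm`), `m8_le`, `gam8_le` (`hit_resolves`), `Gam ≤ 1`. -/
theorem KL_param (hd : 3 ≤ d) (M : ℝ≥0) : ∃ C : ℝ, 0 < C ∧ ∃ jm0 : ℕ, ∀ c1 : ℝ, c1m M ≤ c1 → ∀ δ : ℝ, 0 < δ → δ ≤ 1 / 2 →
    ∃ (Cδ : ℝ) (J30 : ℕ), 0 < Cδ ∧ ∀ J3 : ℕ, J30 ≤ J3 → ∃ J : ℕ, ∀ (κ A : ℝ≥0), 0 < κ → 1 ≤ A →
    C * (1 + (κ : ℝ)⁻¹) * 2 ^ ((d + 1) * jm0) ≤ A → ∀ lam : ℝ, 0 < lam →
    ∀ (φ : E d → ℝ) (U : Set (P d)) (F : Ix d → P d → ℝ), GFd M φ U F → ‖avg (hb φ F) 0 1‖ₑ = 1 →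
    (κ : ℝ≥0∞) * WdE φ F c1 0 1 ≤ 1 → ∀ N : ℕ,
    Ex N (fun ω : ℕ → St d => K1 κ A (av (avg (hb φ F)) 0 1 ω) (wv (WdE φ F c1) 0 1 ω) N)
        ≤ 1 + 2 * Gam (avg (hb φ F)) (WdE φ F c1) κ A N J ∧
    (Gam (avg (hb φ F)) (WdE φ F c1) κ A N J ≤ 1 →
      Ex N (fun ω : ℕ → St d => K1 κ A (av (avg (hb φ F)) 0 1 ω) (wv (WdE φ F c1) 0 1 ω) N)
        ≤ ENNReal.ofReal (C * δ * (1 + (κ : ℝ)⁻¹)
            + C * δ⁻¹ * ((1 / 2 ^ J3 : ℝ) ^ (1 / 2 : ℝ) * (A * (1 + (κ : ℝ)⁻¹)))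
            + C * δ ^ (-((d : ℝ) / 2)) * Real.sqrt ((1 + (κ : ℝ)⁻¹ + Cδ) / A) * (1 + (κ : ℝ)⁻¹)
            + C * lam * ((2 : ℝ) ^ J3) ^ (d + 1) * (A * (1 + (κ : ℝ)⁻¹)))
          + ENNReal.ofReal (Cδ * (1 + lam⁻¹)) * Gam (avg (hb φ F)) (WdE φ F c1) κ A N J) := by
  have hd1 : 1 ≤ d := by omega
  obtain ⟨Cs, hCs, hstop⟩ := stop_coarse hd1 M
  obtain ⟨Ce, hCe, hedge⟩ := edge_le hd1 M
  obtain ⟨C0, hC0, J30a, herr0⟩ := err0 hd1 M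
  obtain ⟨Cw, hCw, hwbp⟩ := wbp_of_stopSet d
  obtain ⟨Cd, hdom⟩ := dom3 d
  obtain ⟨Ct, hCt, J30b, jm0, hjm0, htop⟩ := top_le hd M
  obtain ⟨Cm, hm8⟩ := m8_le hd1 M
  have hCd : (0 : ℝ) ≤ (Cd : ℝ) := NNReal.coe_nonneg Cd
  have hCm : (0 : ℝ) ≤ (Cm : ℝ) := NNReal.coe_nonneg Cm
  refine ⟨Cs + Ce + (Ce * C0 * Cw + (Cd : ℝ) * Ct) + (Cd : ℝ) * Ct * ((Cm : ℝ) + 1), by positivity, jm0, ?_⟩
  intro c1 hc1 δ hδ hδ2
  have hδ1 : δ ≤ 1 := by linarith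
  obtain ⟨J30c, Cg, hg8⟩ := gam8_le (V := VV d) d δ hδ hδ1
  have hCg : (0 : ℝ) ≤ (Cg : ℝ) := NNReal.coe_nonneg Cg
  refine ⟨(Cd : ℝ) * Ct * (1 + (Cg : ℝ)) + 2 + (1 + (Cg : ℝ)), max (max 4 J30a) (max J30b J30c), by positivity, ?_⟩
  intro J3 hJ3
  have hJ3a : 4 ≤ J3 := (le_max_left _ _).trans ((le_max_left _ _).trans hJ3)
  have hJ3b : J30a ≤ J3 := (le_max_right _ _).trans ((le_max_left _ _).trans hJ3)
  have hJ3c : J30b ≤ J3 := (le_max_left _ _).trans ((le_max_right _ _).trans hJ3)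
  have hJ3d : J30c ≤ J3 := (le_max_right _ _).trans ((le_max_right _ _).trans hJ3)
  obtain ⟨J0, hJ0⟩ := hg8 J3 hJ3d
  refine ⟨max J0 J3, ?_⟩
  have hJ0J : J0 ≤ max J0 J3 := le_max_left _ _
  have hJ3J : J3 ≤ max J0 J3 := le_max_right _ _
  generalize max J0 J3 = J at hJ0J hJ3J
  intro κ A hκ hA hAC lam hlam φ U F hG hm1 hκW N
  have hκr : (0 : ℝ) < κ := hκ
  have hAr : (1 : ℝ) ≤ A := hA
  obtain ⟨K, hK⟩ : ∃ K : ℝ, K = 1 + (κ : ℝ)⁻¹ := ⟨_, rfl⟩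
  have hκi : (0 : ℝ) < (κ : ℝ)⁻¹ := inv_pos.2 hκr
  have hK1 : 1 ≤ K := by linarith
  have hK0 : 0 < K := by linarith
  rw [← hK] at hAC ⊢
  -- the bound for `W`
  have hdivκ : ∀ (w : ℝ≥0∞) (b : ℝ), 0 ≤ b → (κ : ℝ≥0∞) * w ≤ ENNReal.ofReal b → w ≤ ENNReal.ofReal (b * K) := by
    intro w b hb hw
    have hκ0 : (κ : ℝ≥0∞) ≠ 0 := by exact_mod_cast hκ.ne'
    have h2 : w ≤ (κ : ℝ≥0∞)⁻¹ * ENNReal.ofReal b := by
      calc w = (κ : ℝ≥0∞)⁻¹ * ((κ : ℝ≥0∞) * w) := by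
            rw [← mul_assoc, ENNReal.inv_mul_cancel hκ0 ENNReal.coe_ne_top, one_mul]
        _ ≤ _ := mul_le_mul_right hw _
    refine h2.trans ?_
    have h3 : (κ : ℝ≥0∞)⁻¹ = ENNReal.ofReal ((κ : ℝ)⁻¹) := by
      rw [ENNReal.ofReal_inv_of_pos hκr]
      simp
    rw [h3, ← ENNReal.ofReal_mul hκi.le]
    refine ENNReal.ofReal_le_ofReal ?_
    rw [mul_comm]
    exact mul_le_mul_of_nonneg_left (by linarith) hb
  have hW1 : WdE φ F c1 0 1 ≤ ENNReal.ofReal K := by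
    have := hdivκ (WdE φ F c1 0 1) 1 zero_le_one (by simpa using hκW)
    simpa using this
  obtain ⟨A', hA'⟩ : ∃ A' : ℝ, A' = A * K := ⟨_, rfl⟩
  have hAA' : (A : ℝ) ≤ A' := by
    rw [hA']
    nlinarith
  have hA'0 : 0 ≤ A' := by linarith
  obtain ⟨S, hS⟩ := stopSet_exists M φ F A A' N
  have hjm : ∀ p ∈ S, jm0 < p.1 := by
    refine hstop c1 hc1 φ U F hG K hK0 hW1 A A' jm0 ?_ hAA' N S hS
    refine le_trans ?_ hAC
    have h2 : 0 ≤ (Ce + (Ce * C0 * Cw + Cd * Ct) + Cd * Ct * (Cm + 1)) * K * 2 ^ ((d + 1) * jm0) := by positivity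
    linarith
  rw [← hA']
  rcases le_total N jm0 with hN | hN
  · have h0 := K1_coarse hS hjm hN hm1 (WdE φ F c1) κ
    rw [h0]
    exact ⟨zero_le, fun _ => zero_le⟩
  have hN2 : 2 ≤ N := by omega
  have h3S : ∀ p ∈ S, 3 ≤ p.1 := fun p hp => by
    have := hjm p hp
    omega
  obtain ⟨s, hs⟩ : ∃ s : E d → ℝ, s = sst S δ N := ⟨_, rfl⟩
  have hres : ResFun N s := by
    rw [hs]
    exact sst_resFun h3S hN2
  have hloc := hb_locallyIntegrable hG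
  obtain ⟨m, hm⟩ : ∃ m : E d → ℝ → VV d, m = avg (hb φ F) := ⟨_, rfl⟩
  have hmR : RefEq m := by
    rw [hm]
    exact avg_refEq hd1 hloc
  have hm1' : ‖m 0 1‖ₑ = 1 := by rw [hm]; exact hm1
  -- a hit resolves
  have hhit : ∀ ω : ℕ → St d, ∀ j ≤ N, Hit κ A (av m 0 1 ω) (wv (WdE φ F c1) 0 1 ω) (av m 0 1 ω 0) j →
      Rl s (1 / 2 ^ J3) 0 1 ω ≤ j + J3 := by
    intro ω j hj hh
    have h2 := kz5_hit hm1' hh
    rw [hm] at h2
    rw [hs]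
    exact hit_resolves hS δ ω hj h2
  have hgam1 := gam1_le hres hJ3J m (WdE φ F c1) κ A hhit (n := N + J) (by omega)
  obtain ⟨G1, hG1⟩ : ∃ G1 : ℝ≥0∞, G1 = Ex (N + J) (fun ω : ℕ → St d => K2 κ A (av m 0 1 ω) (wv (WdE φ F c1) 0 1 ω)
    (wv (gamE m) 0 1 ω) N J) := ⟨_, rfl⟩
  obtain ⟨G2, hG2⟩ : ∃ G2 : ℝ≥0∞, G2 = Ex J (fun ω : ℕ → St d => ∑ i ∈ Finset.range (J + 1), wv (gamE m) 0 8 ω i) :=
    ⟨_, rfl⟩
  have hGam : Gam m (WdE φ F c1) κ A N J = G1 + G2 := by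
    unfold Gam
    rw [hG1, hG2]
  rw [← hm, hGam]
  rw [← hG1] at hgam1
  refine ⟨?_, ?_⟩
  · -- first part
    have h2 := K1_le hmR (WdE φ F c1) κ A hres hJ3J (fun _ => True) (fun _ _ _ _ _ => trivial)
    rw [← hG1] at h2
    refine h2.trans ?_
    have h3 := opt_norm hres J3 0 hmR 0 one_pos (by norm_num) (n := N + J) (by omega)
    have h4 : Ex (N + J) (fun ω : ℕ → St d => ind True * ‖m (XR s (1 / 2 ^ J3) 0 1 ω) (ρR s (1 / 2 ^ J3) 0 1 ω)‖ₑ)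
        = Ex (N + J) (fun ω : ℕ → St d => ‖m (XR s (1 / 2 ^ J3) 0 1 ω) (ρR s (1 / 2 ^ J3) 0 1 ω)‖ₑ) := by
      simp only [kz5_ind_true trivial, one_mul]
    rw [h4, h3, hm1', add_assoc, two_mul]
    gcongr
    · exact hgam1.trans le_self_add
    · exact le_self_add
  · -- second part
    intro hGam1
    have hm0' : ‖m 0 1‖ₑ = 1 := hm1'
    have h2 := K1_le hmR (WdE φ F c1) κ A hres hJ3J
      (fun x => (∃ p ∈ TopF φ F A s S, ‖x - p.2‖ ≤ 8 * (1 / 2 ^ p.1)) ∨ 2 - δ < ‖x‖) (by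
        intro ω l hl hF hW
        by_cases hx : 2 - δ < ‖XR s (1 / 2 ^ J3) 0 1 ω‖
        · exact Or.inr hx
        · refine Or.inl ?_
          have h3 := kz5_hit hm1' hF.1
          rw [hm] at h3
          rw [hs] at hx ⊢
          obtain ⟨j, y', h4, h5⟩ := geom hS h3S hN2 hc1 hJ3a hδ hδ1 ω hl h3 (by
            intro j hj
            have h6 := hW j hj
            rw [kz5_av00, hm1', mul_one] at h6
            have h7 : wv (WdE φ F c1) 0 1 ω j = WdE φ F c1 (Zp j ω) (1 / 2 ^ j) := by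
              unfold wv
              rw [zero_add, one_smul]
            rw [h7] at h6
            rw [hA']
            refine hdivκ _ _ A.2 ?_
            simpa using h6) (not_lt.1 hx)
          exact ⟨(j, y'), h4, h5⟩)
    rw [← hG1] at h2
    refine h2.trans ?_
    -- split
    have hsplit : Ex (N + J) (fun ω : ℕ → St d =>
        ind ((∃ p ∈ TopF φ F A s S, ‖XR s (1 / 2 ^ J3) 0 1 ω - p.2‖ ≤ 8 * (1 / 2 ^ p.1)) ∨
          2 - δ < ‖XR s (1 / 2 ^ J3) 0 1 ω‖) *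
          ‖m (XR s (1 / 2 ^ J3) 0 1 ω) (ρR s (1 / 2 ^ J3) 0 1 ω)‖ₑ)
        ≤ Ex (N + J) (fun ω : ℕ → St d => ind (‖XR s (1 / 2 ^ J3) 0 1 ω‖ ≤ 2) *
            (ind (∃ p ∈ TopF φ F A s S, ‖XR s (1 / 2 ^ J3) 0 1 ω - p.2‖ ≤ 8 * (1 / 2 ^ p.1)) *
              ‖m (XR s (1 / 2 ^ J3) 0 1 ω) (ρR s (1 / 2 ^ J3) 0 1 ω)‖ₑ))
          + Ex (N + J) (fun ω : ℕ → St d => ind (2 - δ < ‖XR s (1 / 2 ^ J3) 0 1 ω‖) *
              ‖m (XR s (1 / 2 ^ J3) 0 1 ω) (ρR s (1 / 2 ^ J3) 0 1 ω)‖ₑ) := by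
      rw [← Ex_add]
      refine Ex_mono _ fun ω => ?_
      by_cases hx : 2 - δ < ‖XR s (1 / 2 ^ J3) 0 1 ω‖
      · rw [kz5_ind_true (Or.inr hx), kz5_ind_true hx]
        exact le_add_self
      · by_cases hE : ∃ p ∈ TopF φ F A s S, ‖XR s (1 / 2 ^ J3) 0 1 ω - p.2‖ ≤ 8 * (1 / 2 ^ p.1)
        · rw [kz5_ind_true (Or.inl hE), kz5_ind_true hE, kz5_ind_true (by linarith), one_mul, one_mul]
          exact le_self_add
        · rw [kz5_ind_false (by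
            rintro (h | h)
            · exact hE h
            · exact hx h), zero_mul]
          exact zero_le
    have hwb := hwbp M φ F A A' N S hA'0 hS δ h3S hN2
    rw [← hs] at hwb
    have hCwA : 0 ≤ Cw * A' := by positivity
    have he0 := herr0 φ U F hG N J3 s hres hJ3b (Cw * A') hCwA hwb (N + J) (by omega)
    have hed := hedge c1 hc1 φ U F hG N J3 s hres δ hδ hδ2 (N + J) (by omega)
    rw [← hm] at hed
    -- the top term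
    have hdm := hdom N J3 s hres (fun x ρ => ind (‖x‖ ≤ 2) *
            (ind (∃ p ∈ TopF φ F A s S, ‖x - p.2‖ ≤ 8 * (1 / 2 ^ p.1)) * ‖m x ρ‖ₑ)) (N + J) (N + J3 + 3)
            (by omega) le_rfl
    have htp := htop c1 hc1 φ U F hG A A' N S hAr hA'0 hS hjm hN2 δ hδ hδ1 J3 hJ3c lam hlam (N + J3 + 3) le_rfl
    rw [← hs, ← hm] at htp
    have hon := opt_norm hres J3 3 hmR 0 (r := 8) (by norm_num) (by norm_num) (n := N + J3 + 3) le_rfl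
    have hg := hJ0 J hJ0J N s hres (by rw [hs]; exact sst_edge S δ N) m hmR (WdE φ F c1) κ A hhit (N + J3 + 3) le_rfl
    rw [← hG1, ← hG2] at hg
    obtain ⟨G8, hG8⟩ : ∃ G8 : ℝ≥0∞, G8 = Ex (N + J3 + 3) (fun ω : ℕ → St d =>
      ∑ l ∈ Finset.range (Rl s (1 / 2 ^ J3) 0 8 ω), wv (gamE m) 0 8 ω l) := ⟨_, rfl⟩
    rw [← hG8] at hg hon htp
    have hmm8 := hm8 φ U F hG c1 hc1
    rw [← hm] at hmm8
    -- bound of `G8`
    have hG8b : G8 ≤ ENNReal.ofReal (1 + Cg) * (G1 + G2) := by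
      refine hg.trans ?_
      rw [ENNReal.ofReal_add zero_le_one hCg, ENNReal.ofReal_one, ENNReal.ofReal_coe_nnreal, add_mul, one_mul]
      gcongr
      · exact le_add_self
      · exact le_self_add
    have hG8c : G8 ≤ ENNReal.ofReal (1 + Cg) := by
      refine hG8b.trans ?_
      calc ENNReal.ofReal (1 + Cg) * (G1 + G2) ≤ ENNReal.ofReal (1 + Cg) * 1 := mul_le_mul_right hGam1 _
        _ = _ := mul_one _
    -- bound of `E‖m_R‖`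
    have hEm : ‖m 0 8‖ₑ + G8 ≤ ENNReal.ofReal ((Cm + 1) * (K + (Cd * Ct * (1 + Cg) + 2 + (1 + Cg)))) := by
      have h5 : ‖m 0 8‖ₑ ≤ ENNReal.ofReal (Cm * K) := by
        refine hmm8.trans ?_
        rw [ENNReal.ofReal_mul hCm, ENNReal.ofReal_coe_nnreal]
        exact mul_le_mul_right hW1 _
      refine (add_le_add h5 hG8c).trans ?_
      rw [← ENNReal.ofReal_add (by positivity) (by positivity)]
      refine ENNReal.ofReal_le_ofReal ?_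
      have h6 : 0 ≤ Cd * Ct * (1 + Cg) := by positivity
      nlinarith [mul_nonneg hCm h6, mul_nonneg hCm hCg]
    obtain ⟨Cδ, hCδ⟩ : ∃ Cδ : ℝ, Cδ = Cd * Ct * (1 + Cg) + 2 + (1 + Cg) := ⟨_, rfl⟩
    rw [← hCδ] at hEm ⊢
    have hCδ0 : 0 ≤ Cδ := by rw [hCδ]; positivity
    have hA0 : (0 : ℝ) < A := by linarith
    -- the square root term
    have hsq : (ENNReal.ofReal ((A : ℝ)⁻¹) * (‖m 0 8‖ₑ + G8)) ^ (1 / 2 : ℝ)
        ≤ ENNReal.ofReal ((Cm + 1) * Real.sqrt ((K + Cδ) / A)) := by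
      have h5 : ENNReal.ofReal ((A : ℝ)⁻¹) * (‖m 0 8‖ₑ + G8)
          ≤ ENNReal.ofReal ((Cm + 1) * ((K + Cδ) / A)) := by
        refine (mul_le_mul_right hEm _).trans ?_
        rw [← ENNReal.ofReal_mul (by positivity)]
        refine ENNReal.ofReal_le_ofReal (le_of_eq ?_)
        field_simp
      refine (ENNReal.rpow_le_rpow h5 (by norm_num)).trans ?_
      rw [ENNReal.ofReal_rpow_of_nonneg (by positivity) (by norm_num), ← Real.sqrt_eq_rpow]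
      refine ENNReal.ofReal_le_ofReal ?_
      rw [Real.sqrt_mul (by positivity)]
      refine mul_le_mul_of_nonneg_right ?_ (Real.sqrt_nonneg _)
      rw [Real.sqrt_le_left (by positivity)]
      nlinarith
    have hδd : 0 ≤ δ ^ (-((d : ℝ) / 2)) := Real.rpow_nonneg hδ.le _
    have hε : 0 ≤ (1 / 2 ^ J3 : ℝ) ^ (1 / 2 : ℝ) := Real.rpow_nonneg (by positivity) _
    have hsr := Real.sqrt_nonneg ((K + Cδ) / A)
    have htp2 : Ex (N + J3 + 3) (fun ω : ℕ → St d => ind (‖XR s (1 / 2 ^ J3) 0 8 ω‖ ≤ 2) *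
        (ind (∃ p ∈ TopF φ F A s S, ‖XR s (1 / 2 ^ J3) 0 8 ω - p.2‖ ≤ 8 * (1 / 2 ^ p.1)) *
          ‖m (XR s (1 / 2 ^ J3) 0 8 ω) (ρR s (1 / 2 ^ J3) 0 8 ω)‖ₑ))
        ≤ ENNReal.ofReal (Ct * δ ^ (-((d : ℝ) / 2)) * ((Cm + 1) * Real.sqrt ((K + Cδ) / A)) * K
            + Ct * ((1 / 2 ^ J3 : ℝ) ^ (1 / 2 : ℝ) * A') + Ct * lam * ((2 : ℝ) ^ J3) ^ (d + 1) * A')
          + ENNReal.ofReal (Ct * lam⁻¹ * (1 + Cg)) * (G1 + G2) := by
      refine htp.trans ?_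
      rw [hon, ENNReal.ofReal_add (by positivity) (by positivity), ENNReal.ofReal_add (by positivity) (by positivity),
        ENNReal.ofReal_mul (p := Ct * lam⁻¹) (by positivity), mul_assoc (ENNReal.ofReal (Ct * lam⁻¹)),
        ENNReal.ofReal_mul (q := K) (by positivity),
        ENNReal.ofReal_mul (q := (Cm + 1) * Real.sqrt ((K + Cδ) / A)) (by positivity)]
      gcongr
    have hdm2 : Ex (N + J) (fun ω : ℕ → St d => ind (‖XR s (1 / 2 ^ J3) 0 1 ω‖ ≤ 2) *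
            (ind (∃ p ∈ TopF φ F A s S, ‖XR s (1 / 2 ^ J3) 0 1 ω - p.2‖ ≤ 8 * (1 / 2 ^ p.1)) *
              ‖m (XR s (1 / 2 ^ J3) 0 1 ω) (ρR s (1 / 2 ^ J3) 0 1 ω)‖ₑ))
        ≤ ENNReal.ofReal (Cd * (Ct * δ ^ (-((d : ℝ) / 2)) * ((Cm + 1) * Real.sqrt ((K + Cδ) / A)) * K
            + Ct * ((1 / 2 ^ J3 : ℝ) ^ (1 / 2 : ℝ) * A') + Ct * lam * ((2 : ℝ) ^ J3) ^ (d + 1) * A'))
          + ENNReal.ofReal (Cd * (Ct * lam⁻¹ * (1 + Cg))) * (G1 + G2) := by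
      refine hdm.trans ?_
      rw [ENNReal.ofReal_mul hCd, ENNReal.ofReal_mul hCd, ENNReal.ofReal_coe_nnreal,
        mul_assoc (Cd : ℝ≥0∞) (ENNReal.ofReal (Ct * lam⁻¹ * (1 + (Cg : ℝ)))), ← mul_add]
      exact mul_le_mul_right htp2 _
    have hed2 : Ex (N + J) (fun ω : ℕ → St d => ind (2 - δ < ‖XR s (1 / 2 ^ J3) 0 1 ω‖) *
              ‖m (XR s (1 / 2 ^ J3) 0 1 ω) (ρR s (1 / 2 ^ J3) 0 1 ω)‖ₑ)
        ≤ ENNReal.ofReal (Ce * δ * K + Ce / δ * (C0 * ((1 / 2 ^ J3 : ℝ) ^ (1 / 2 : ℝ) * (Cw * A')))) + G1 := by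
      refine hed.trans ?_
      rw [ENNReal.ofReal_add (by positivity) (by positivity), ENNReal.ofReal_mul (q := K) (by positivity),
        ENNReal.ofReal_mul (p := Ce / δ) (by positivity)]
      gcongr
    calc Ex (N + J) (fun ω : ℕ → St d =>
        ind ((∃ p ∈ TopF φ F A s S, ‖XR s (1 / 2 ^ J3) 0 1 ω - p.2‖ ≤ 8 * (1 / 2 ^ p.1)) ∨
          2 - δ < ‖XR s (1 / 2 ^ J3) 0 1 ω‖) *
          ‖m (XR s (1 / 2 ^ J3) 0 1 ω) (ρR s (1 / 2 ^ J3) 0 1 ω)‖ₑ) + G1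
        ≤ (ENNReal.ofReal (Cd * (Ct * δ ^ (-((d : ℝ) / 2)) * ((Cm + 1) * Real.sqrt ((K + Cδ) / A)) * K
            + Ct * ((1 / 2 ^ J3 : ℝ) ^ (1 / 2 : ℝ) * A') + Ct * lam * ((2 : ℝ) ^ J3) ^ (d + 1) * A'))
          + ENNReal.ofReal (Cd * (Ct * lam⁻¹ * (1 + Cg))) * (G1 + G2))
          + (ENNReal.ofReal (Ce * δ * K + Ce / δ * (C0 * ((1 / 2 ^ J3 : ℝ) ^ (1 / 2 : ℝ) * (Cw * A')))) + G1) + G1 := by
          gcongr
          exact hsplit.trans (add_le_add hdm2 hed2)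
      _ ≤ (ENNReal.ofReal (Cd * (Ct * δ ^ (-((d : ℝ) / 2)) * ((Cm + 1) * Real.sqrt ((K + Cδ) / A)) * K
            + Ct * ((1 / 2 ^ J3 : ℝ) ^ (1 / 2 : ℝ) * A') + Ct * lam * ((2 : ℝ) ^ J3) ^ (d + 1) * A'))
          + ENNReal.ofReal (Cd * (Ct * lam⁻¹ * (1 + Cg))) * (G1 + G2))
          + (ENNReal.ofReal (Ce * δ * K + Ce / δ * (C0 * ((1 / 2 ^ J3 : ℝ) ^ (1 / 2 : ℝ) * (Cw * A')))) + (G1 + G2))
          + (G1 + G2) := by
          gcongr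
          · exact le_self_add
          · exact le_self_add
      _ = ENNReal.ofReal (Cd * (Ct * δ ^ (-((d : ℝ) / 2)) * ((Cm + 1) * Real.sqrt ((K + Cδ) / A)) * K
            + Ct * ((1 / 2 ^ J3 : ℝ) ^ (1 / 2 : ℝ) * A') + Ct * lam * ((2 : ℝ) ^ J3) ^ (d + 1) * A')
            + (Ce * δ * K + Ce / δ * (C0 * ((1 / 2 ^ J3 : ℝ) ^ (1 / 2 : ℝ) * (Cw * A')))))
          + ENNReal.ofReal (Cd * (Ct * lam⁻¹ * (1 + Cg)) + 2) * (G1 + G2) := by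
          rw [ENNReal.ofReal_add (p := Cd * (Ct * δ ^ (-((d : ℝ) / 2)) * ((Cm + 1) * Real.sqrt ((K + Cδ) / A)) * K
            + Ct * ((1 / 2 ^ J3 : ℝ) ^ (1 / 2 : ℝ) * A') + Ct * lam * ((2 : ℝ) ^ J3) ^ (d + 1) * A'))
            (by positivity) (by positivity),
            ENNReal.ofReal_add (p := Cd * (Ct * lam⁻¹ * (1 + Cg))) (by positivity) (by positivity), add_mul]
          have h2 : ENNReal.ofReal 2 = 2 := by simp
          rw [h2]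
          ring
      _ ≤ _ := by
          refine add_le_add (ENNReal.ofReal_le_ofReal ?_) (mul_le_mul_left (ENNReal.ofReal_le_ofReal ?_) _)
          · have e1 : Ce / δ = Ce * δ⁻¹ := div_eq_mul_inv _ _
            rw [e1]
            have hδi : 1 ≤ δ⁻¹ := (one_le_inv₀ hδ).2 hδ1
            obtain ⟨X1, hX1⟩ : ∃ X1 : ℝ, X1 = (1 / 2 ^ J3 : ℝ) ^ (1 / 2 : ℝ) * A' := ⟨_, rfl⟩
            obtain ⟨X2, hX2⟩ : ∃ X2 : ℝ, X2 = lam * ((2 : ℝ) ^ J3) ^ (d + 1) * A' := ⟨_, rfl⟩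
            obtain ⟨X3, hX3⟩ : ∃ X3 : ℝ, X3 = δ ^ (-((d : ℝ) / 2)) * Real.sqrt ((K + Cδ) / A) * K := ⟨_, rfl⟩
            have hX10 : 0 ≤ X1 := by rw [hX1]; positivity
            have hX20 : 0 ≤ X2 := by rw [hX2]; positivity
            have hX30 : 0 ≤ X3 := by rw [hX3]; positivity
            obtain ⟨D, hD⟩ : ∃ D : ℝ, D = Cs + Ce + (Ce * C0 * Cw + Cd * Ct) + Cd * Ct * (Cm + 1) := ⟨_, rfl⟩
            rw [← hD]
            have hD1 : Ce ≤ D := by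
              have : 0 ≤ Cs + (Ce * C0 * Cw + Cd * Ct) + Cd * Ct * (Cm + 1) := by positivity
              linarith
            have hD2 : Ce * C0 * Cw + Cd * Ct ≤ D := by
              have : 0 ≤ Cs + Ce + Cd * Ct * (Cm + 1) := by positivity
              linarith
            have hD3 : Cd * Ct * (Cm + 1) ≤ D := by
              have : 0 ≤ Cs + Ce + (Ce * C0 * Cw + Cd * Ct) := by positivity
              linarith
            have hD4 : Cd * Ct ≤ D := by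
              have : 0 ≤ Cs + Ce + Ce * C0 * Cw + Cd * Ct * (Cm + 1) := by positivity
              linarith
            have l1 : Cd * (Ct * δ ^ (-((d : ℝ) / 2)) * ((Cm + 1) * Real.sqrt ((K + Cδ) / A)) * K
                + Ct * ((1 / 2 ^ J3 : ℝ) ^ (1 / 2 : ℝ) * A') + Ct * lam * ((2 : ℝ) ^ J3) ^ (d + 1) * A')
                + (Ce * δ * K + Ce * δ⁻¹ * (C0 * ((1 / 2 ^ J3 : ℝ) ^ (1 / 2 : ℝ) * (Cw * A'))))
                = Ce * (δ * K) + (Cd * Ct * X1 + Ce * C0 * Cw * (δ⁻¹ * X1)) + Cd * Ct * (Cm + 1) * X3 + Cd * Ct * X2 := by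
              rw [hX1, hX2, hX3]; ring
            have l2 : D * δ * K + D * δ⁻¹ * ((1 / 2 ^ J3 : ℝ) ^ (1 / 2 : ℝ) * A')
                + D * δ ^ (-((d : ℝ) / 2)) * Real.sqrt ((K + Cδ) / A) * K + D * lam * ((2 : ℝ) ^ J3) ^ (d + 1) * A'
                = D * (δ * K) + D * (δ⁻¹ * X1) + D * X3 + D * X2 := by
              rw [hX1, hX2, hX3]; ring
            rw [l1, l2]
            have q1 : Ce * (δ * K) ≤ D * (δ * K) := mul_le_mul_of_nonneg_right hD1 (by positivity)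
            have q2 : Cd * Ct * X1 + Ce * C0 * Cw * (δ⁻¹ * X1) ≤ D * (δ⁻¹ * X1) := by
              have q3 : X1 ≤ δ⁻¹ * X1 := by nlinarith
              have q4 : Cd * Ct * X1 ≤ Cd * Ct * (δ⁻¹ * X1) := mul_le_mul_of_nonneg_left q3 (by positivity)
              have q5 : (Ce * C0 * Cw + Cd * Ct) * (δ⁻¹ * X1) ≤ D * (δ⁻¹ * X1) :=
                mul_le_mul_of_nonneg_right hD2 (by positivity)
              nlinarith
            have q3 : Cd * Ct * (Cm + 1) * X3 ≤ D * X3 := mul_le_mul_of_nonneg_right hD3 hX30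
            have q4 : Cd * Ct * X2 ≤ D * X2 := mul_le_mul_of_nonneg_right hD4 hX20
            linarith
          · have hli : 0 < lam⁻¹ := inv_pos.2 hlam
            rw [hCδ]
            have h7 : 0 ≤ Cd * Ct * (1 + Cg) := by positivity
            nlinarith [mul_nonneg h7 hli.le, mul_nonneg hCg hli.le]

end HG
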