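import Pool.Agent.W_MP_825298_an.Kz5

open MeasureTheory Set Filter Topology
open scoped ENNReal NNReal BigOperators

namespace HG
variable {d : ℕ}

theorem Kz6_tend_inv_two_pow : Tendsto (fun L : ℕ => (1 / 2 ^ L : ℝ)) atTop (𝓝 0) := by
  have h := tendsto_pow_atTop_nhds_zero_of_lt_one (r := (1 / 2 : ℝ)) (by norm_num) (by norm_num)
  refine h.congr fun n => ?_
  rw [div_pow, one_pow]

theorem Kz6_exists_L (C K Cδ D : ℝ) (jm : ℝ) : ∃ L : ℕ, 1 ≤ L ∧ jm ≤ 2 ^ L ∧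
    C * D * Real.sqrt ((K + Cδ) / 2 ^ L) * K ≤ 1 / 8 := by
  have h1 : Tendsto (fun L : ℕ => C * D * Real.sqrt ((K + Cδ) / 2 ^ L) * K) atTop (𝓝 0) := by
    have h2 : Tendsto (fun L : ℕ => (K + Cδ) / 2 ^ L) atTop (𝓝 0) := by
      have h3 := Kz6_tend_inv_two_pow.const_mul (K + Cδ)
      rw [mul_zero] at h3
      refine h3.congr fun n => ?_
      rw [mul_one_div]
    have h4 := (Real.continuous_sqrt.tendsto 0).comp h2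
    rw [Real.sqrt_zero] at h4
    have h5 := (h4.const_mul (C * D)).mul_const K
    rw [mul_zero, zero_mul] at h5
    exact h5
  have h6 : ∀ᶠ L : ℕ in atTop, C * D * Real.sqrt ((K + Cδ) / 2 ^ L) * K ≤ 1 / 8 :=
    (h1.eventually_lt_const (by norm_num)).mono fun _ h => h.le
  have h7 : ∀ᶠ L : ℕ in atTop, jm ≤ (2 : ℝ) ^ L :=
    (tendsto_pow_atTop_atTop_of_one_lt (by norm_num : (1 : ℝ) < 2)).eventually_ge_atTop jm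
  obtain ⟨L, h8, h9, h10⟩ := ((eventually_ge_atTop 1).and (h7.and h6)).exists
  exact ⟨L, h8, h9, h10⟩

theorem Kz6_exists_J (a b : ℝ) (J0 : ℕ) : ∃ J : ℕ, J0 ≤ J ∧
    a * ((1 / 2 ^ J : ℝ) ^ (1 / 2 : ℝ) * b) ≤ 1 / 8 := by
  have h1 : Tendsto (fun J : ℕ => a * ((1 / 2 ^ J : ℝ) ^ (1 / 2 : ℝ) * b)) atTop (𝓝 0) := by
    have h2 : Tendsto (fun J : ℕ => (1 / 2 ^ J : ℝ) ^ (1 / 2 : ℝ)) atTop (𝓝 0) := by
      have h3 := Kz6_tend_inv_two_pow.rpow_const (p := 1 / 2) (Or.inr (by norm_num))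
      rw [Real.zero_rpow (by norm_num)] at h3
      exact h3
    have h5 := (h2.mul_const b).const_mul a
    rw [zero_mul, mul_zero] at h5
    exact h5
  have h6 : ∀ᶠ J : ℕ in atTop, a * ((1 / 2 ^ J : ℝ) ^ (1 / 2 : ℝ) * b) ≤ 1 / 8 :=
    (h1.eventually_lt_const (by norm_num)).mono fun _ h => h.le
  obtain ⟨L, h8, h9⟩ := ((eventually_ge_atTop J0).and h6).exists
  exact ⟨L, h8, h9⟩

/-- Unit scale Key Lemma: choose `δ`, then `L`, then `J3`, then `lam` in `KL_param` so that each of the four terms is `≤ 1/8`; if `Gam ≥ 1` use the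
first part of `KL_param`: `1 + 2 Gam ≤ 3 Gam`. -/
theorem KL_unit (hd : 3 ≤ d) (M : ℝ≥0) {c1 : ℝ} (hc1 : c1m M ≤ c1) {κ : ℝ≥0} (hκ : 0 < κ) :
    ∃ (L J : ℕ) (C1 : ℝ≥0), 1 ≤ L ∧ ∀ (φ : E d → ℝ) (U : Set (P d)) (F : Ix d → P d → ℝ), GFd M φ U F →
    ‖avg (hb φ F) 0 1‖ₑ = 1 → (κ : ℝ≥0∞) * WdE φ F c1 0 1 ≤ 1 → ∀ N : ℕ,
    Ex N (fun ω : ℕ → St d => K1 κ ((2 ^ L : ℝ≥0) : ℝ≥0∞) (av (avg (hb φ F)) 0 1 ω) (wv (WdE φ F c1) 0 1 ω) N)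
      ≤ 1 / 2 + C1 * Gam (avg (hb φ F)) (WdE φ F c1) κ ((2 ^ L : ℝ≥0) : ℝ≥0∞) N J := by
  obtain ⟨C, hC, jm0, hP⟩ := KL_param hd M
  have hκ' : (0 : ℝ) < κ := hκ
  have hK : (0 : ℝ) < 1 + (κ : ℝ)⁻¹ := by positivity
  obtain ⟨δ, hδ⟩ : ∃ δ : ℝ, δ = min (1 / 2) (1 / (8 * C * (1 + (κ : ℝ)⁻¹))) := ⟨_, rfl⟩
  have hδ0 : 0 < δ := by
    rw [hδ]
    exact lt_min (by norm_num) (by positivity)
  have hδ1 : δ ≤ 1 / 2 := by rw [hδ]; exact min_le_left _ _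
  have hδ2 : C * δ * (1 + (κ : ℝ)⁻¹) ≤ 1 / 8 := by
    have h1 : δ ≤ 1 / (8 * C * (1 + (κ : ℝ)⁻¹)) := by rw [hδ]; exact min_le_right _ _
    rw [le_div_iff₀ (by positivity)] at h1
    linarith
  obtain ⟨Cδ, J30, hCδ, hP⟩ := hP c1 hc1 δ hδ0 hδ1
  obtain ⟨L, hL1, hL2, hL3⟩ := Kz6_exists_L C (1 + (κ : ℝ)⁻¹) Cδ (δ ^ (-((d : ℝ) / 2)))
    (C * (1 + (κ : ℝ)⁻¹) * 2 ^ ((d + 1) * jm0))
  obtain ⟨J3, hJ1, hJ2⟩ := Kz6_exists_J (C * δ⁻¹) (2 ^ L * (1 + (κ : ℝ)⁻¹)) J30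
  obtain ⟨J, hP⟩ := hP J3 hJ1
  obtain ⟨lam, hlam⟩ : ∃ lam : ℝ,
      lam = 1 / (8 * C * ((2 : ℝ) ^ J3) ^ (d + 1) * (2 ^ L * (1 + (κ : ℝ)⁻¹))) := ⟨_, rfl⟩
  have hlam0 : 0 < lam := by rw [hlam]; positivity
  have hlam1 : C * lam * ((2 : ℝ) ^ J3) ^ (d + 1) * (2 ^ L * (1 + (κ : ℝ)⁻¹)) ≤ 1 / 8 := by
    have h1 : lam ≤ 1 / (8 * C * ((2 : ℝ) ^ J3) ^ (d + 1) * (2 ^ L * (1 + (κ : ℝ)⁻¹))) := hlam.le
    rw [le_div_iff₀ (by positivity)] at h1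
    linarith
  refine ⟨L, J, 3 + Real.toNNReal (Cδ * (1 + lam⁻¹)), hL1, ?_⟩
  intro φ U F hF h1 hW N
  have hA1 : (1 : ℝ≥0) ≤ 2 ^ L := one_le_pow₀ (by norm_num)
  have hcast : (((2 : ℝ≥0) ^ L : ℝ≥0) : ℝ) = 2 ^ L := by push_cast; rfl
  obtain ⟨hfirst, hsecond⟩ := hP κ (2 ^ L) hκ hA1 (by rw [hcast]; exact hL2) lam hlam0 φ U F hF h1 hW N
  obtain ⟨G, hG⟩ : ∃ G, G = Gam (avg (hb φ F)) (WdE φ F c1) κ ((2 ^ L : ℝ≥0) : ℝ≥0∞) N J := ⟨_, rfl⟩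
  rw [← hG] at hfirst hsecond ⊢
  have h3 : ((3 + Real.toNNReal (Cδ * (1 + lam⁻¹)) : ℝ≥0) : ℝ≥0∞)
      = 3 + ENNReal.ofReal (Cδ * (1 + lam⁻¹)) := by
    rw [ENNReal.coe_add]
    rfl
  rw [h3]
  rcases le_total G 1 with hG1 | hG1
  · refine (hsecond hG1).trans ?_
    gcongr
    · rw [hcast]
      have h4 : (1 / 2 : ℝ≥0∞) = ENNReal.ofReal (1 / 2) := by
        rw [ENNReal.ofReal_div_of_pos (by norm_num)]
        simp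
      rw [h4]
      apply ENNReal.ofReal_le_ofReal
      linarith
    · exact le_add_self
  · refine hfirst.trans ?_
    calc 1 + 2 * G ≤ G + 2 * G := by gcongr
      _ = 3 * G := by ring
      _ ≤ (3 + ENNReal.ofReal (Cδ * (1 + lam⁻¹))) * G := by gcongr; exact le_self_add
      _ ≤ _ := le_add_self

end HG
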