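import Pool.Agent.W_MP_825298_an.MVDefs
import Pool.Agent.W_MP_825298_an.Newton1

open MeasureTheory Set Filter Topology
open scoped ENNReal NNReal BigOperators

namespace HG
variable {d : ℕ}

theorem MV1a_hasDerivAt_posPow (k : ℕ) (s : ℝ) :
    HasDerivAt (fun s : ℝ => (max s 0) ^ (k + 2)) (((k : ℝ) + 2) * (max s 0) ^ (k + 1)) s := by
  rcases lt_trichotomy s 0 with hs | hs | hs
  · have e : (fun s : ℝ => (max s 0) ^ (k + 2)) =ᶠ[𝓝 s] fun _ => (0 : ℝ) := by
      filter_upwards [Iio_mem_nhds hs] with t ht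
      rw [max_eq_right (le_of_lt ht)]
      simp
    have h0 : ((k : ℝ) + 2) * (max s 0) ^ (k + 1) = 0 := by
      rw [max_eq_right hs.le]
      simp
    rw [h0]
    exact (hasDerivAt_const s (0 : ℝ)).congr_of_eventuallyEq e
  · subst hs
    have h0 : ((k : ℝ) + 2) * (max (0 : ℝ) 0) ^ (k + 1) = 0 := by simp
    rw [h0, hasDerivAt_iff_isLittleO]
    simp only [max_self, sub_zero, smul_zero]
    have h1 : (fun x : ℝ => max x 0 ^ (k + 2) - 0 ^ (k + 2)) =O[𝓝 0] fun x : ℝ => x ^ (k + 2) := by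
      refine Asymptotics.IsBigO.of_bound 1 (Eventually.of_forall fun x => ?_)
      rw [one_mul, zero_pow (by omega), sub_zero, norm_pow, norm_pow]
      refine pow_le_pow_left₀ (norm_nonneg _) ?_ _
      rw [Real.norm_eq_abs, Real.norm_eq_abs, abs_of_nonneg (le_max_right x 0)]
      exact max_le (le_abs_self x) (abs_nonneg x)
    refine h1.trans_isLittleO ?_
    have := Asymptotics.isLittleO_pow_id (𝕜 := ℝ) (n := k + 2) (by omega)
    exact this
  · have e : (fun s : ℝ => (max s 0) ^ (k + 2)) =ᶠ[𝓝 s] fun s => s ^ (k + 2) := by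
      filter_upwards [Ioi_mem_nhds hs] with t ht
      rw [max_eq_left (le_of_lt ht)]
    rw [max_eq_left hs.le]
    have h := hasDerivAt_pow (k + 2) s
    refine (h.congr_of_eventuallyEq e).congr_deriv ?_
    push_cast
    ring_nf

theorem MV1a_contDiff_posPow (k : ℕ) : ContDiff ℝ k (fun s : ℝ => (max s 0) ^ (k + 1)) := by
  induction k with
  | zero =>
    rw [Nat.cast_zero, contDiff_zero]
    fun_prop
  | succ k ih =>
    rw [show ((k + 1 : ℕ) : WithTop ℕ∞) = (k : WithTop ℕ∞) + 1 by push_cast; rfl]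
    rw [contDiff_succ_iff_deriv]
    refine ⟨fun s => (MV1a_hasDerivAt_posPow k s).differentiableAt, ?_, ?_⟩
    · intro h
      simp at h
    · have e : deriv (fun s : ℝ => (max s 0) ^ (k + 1 + 1)) = fun s => ((k : ℝ) + 2) * (max s 0) ^ (k + 1) := by
        funext s
        exact (MV1a_hasDerivAt_posPow k s).deriv
      rw [e]
      exact contDiff_const.mul ih

theorem MV1a_hasFDerivAt_posPow (k : ℕ) (r : ℝ) (Z : P d) :
    HasFDerivAt (fun Y : P d => (max (r ^ 2 - sq Y) 0) ^ (k + 2))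
      ((((k : ℝ) + 2) * (max (r ^ 2 - sq Z) 0) ^ (k + 1)) •
        (-(∑ a : Ix d, (2 * co a Z) • (Newton1_coL a : P d →L[ℝ] ℝ)))) Z := by
  have h1 : HasFDerivAt (fun Y : P d => r ^ 2 - sq Y)
      (-(∑ a : Ix d, (2 * co a Z) • (Newton1_coL a : P d →L[ℝ] ℝ))) Z :=
    (Newton1_hasFDerivAt_sq Z).const_sub (r ^ 2)
  have h2 := MV1a_hasDerivAt_posPow k (r ^ 2 - sq Z)
  exact h2.comp_hasFDerivAt Z h1

theorem MV1a_sum_eb (b : Ix d) (Z : P d) :
    (∑ a : Ix d, (2 * co a Z) • (Newton1_coL a : P d →L[ℝ] ℝ)) (eb b) = 2 * co b Z := by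
  simp only [sum_apply, smul_apply, smul_eq_mul, Newton1_coL_apply, Newton1_co_eb]
  rw [Finset.sum_eq_single b]
  · simp
  · intro c _ hc
    simp [hc]
  · intro h
    exact absurd (Finset.mem_univ b) h

theorem MV1a_pd_posPow (k : ℕ) (r : ℝ) (b : Ix d) (Z : P d) :
    pd b (fun Y : P d => (max (r ^ 2 - sq Y) 0) ^ (k + 2)) Z =
      -(2 * ((k : ℝ) + 2)) * co b Z * (max (r ^ 2 - sq Z) 0) ^ (k + 1) := by
  unfold pd
  rw [(MV1a_hasFDerivAt_posPow k r Z).fderiv]
  rw [smul_apply, neg_apply, MV1a_sum_eb]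
  rw [smul_eq_mul]
  ring

theorem MV1a_pd_co_mul_posPow (k : ℕ) (r : ℝ) (a b : Ix d) (c : ℝ) (Z : P d) :
    pd b (fun Y : P d => c * co a Y * (max (r ^ 2 - sq Y) 0) ^ (k + 2)) Z =
      c * (if a = b then 1 else 0) * (max (r ^ 2 - sq Z) 0) ^ (k + 2)
        - 2 * ((k : ℝ) + 2) * c * co a Z * co b Z * (max (r ^ 2 - sq Z) 0) ^ (k + 1) := by
  have hc := (Newton1_hasFDerivAt_co a Z).const_mul c
  have h2 : fderiv ℝ (fun Y : P d => c * co a Y * (max (r ^ 2 - sq Y) 0) ^ (k + 2)) Z = _ :=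
    (hc.mul (MV1a_hasFDerivAt_posPow k r Z)).fderiv
  unfold pd
  rw [h2]
  rw [add_apply, smul_apply, smul_apply, smul_apply, smul_apply, neg_apply, MV1a_sum_eb,
    Newton1_coL_apply, Newton1_co_eb]
  simp only [smul_eq_mul]
  ring

/-- `s ↦ (max s 0)^4` is `C³`, `(max s 0)^5` is `C⁴`; compose with the polynomial `r²-sq`. -/
theorem kr_contDiff (r : ℝ) : ContDiff ℝ 3 (kr (d := d) r) := by
  have h := (MV1a_contDiff_posPow 3).comp (contDiff_const (c := r ^ 2).sub (Newton1_contDiff_sq (d := d)))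
  exact contDiff_const.mul h

theorem q5_contDiff (r : ℝ) : ContDiff ℝ 4 (q5 (d := d) r) := by
  have h := (MV1a_contDiff_posPow 4).comp (contDiff_const (c := r ^ 2).sub (Newton1_contDiff_sq (d := d)))
  exact h

theorem MV1a_max_eq_zero {r : ℝ} (hr : 0 < r) {Z : P d} (hZ : r ≤ ‖Z‖) : max (r ^ 2 - sq Z) 0 = 0 := by
  have h1 := (norm_sq_le_sq Z).1
  have h2 : r ^ 2 ≤ ‖Z‖ ^ 2 := pow_le_pow_left₀ hr.le hZ 2
  exact max_eq_right (by linarith)

theorem kr_eq_zero {r : ℝ} (hr : 0 < r) {Z : P d} (hZ : r ≤ ‖Z‖) : kr r Z = 0 := by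
  unfold kr
  rw [MV1a_max_eq_zero hr hZ]
  simp

theorem q5_eq_zero {r : ℝ} (hr : 0 < r) {Z : P d} (hZ : r ≤ ‖Z‖) : q5 r Z = 0 := by
  unfold q5
  rw [MV1a_max_eq_zero hr hZ]
  simp

theorem MV1a_sq_neg (Z : P d) : sq (-Z) = sq Z := by
  unfold sq
  refine Finset.sum_congr rfl fun a _ => ?_
  cases a <;> simp [co]

theorem kr_neg (r : ℝ) (Z : P d) : kr r (-Z) = kr r Z := by
  unfold kr
  rw [MV1a_sq_neg]

theorem MV1a_haar (d : ℕ) : (volume : Measure (P d)).IsAddHaarMeasure := by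
  rw [Measure.volume_eq_prod]
  infer_instance

/-- change of variables (true for every `f`) -/
theorem kr_conv_comm (r : ℝ) (f : P d → ℝ) (X : P d) :
    ∫ Z, f (X + Z) * kr r Z = ∫ Y, f Y * kr r (Y - X) := by
  have := MV1a_haar d
  have h := integral_add_left_eq_self (μ := (volume : Measure (P d))) (fun Y => f Y * kr r (Y - X)) X
  rw [← h]
  simp

end HG
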