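import Pool.Agent.W_MP_825298_an.MV1a

open MeasureTheory Set Filter Topology
open scoped ENNReal NNReal BigOperators

namespace HG
variable {d : ℕ}

/-- Laplacian of `q5`, with `Q = max (r²-|Z|²) 0`: `Δ Q^5 = 10 Q^3 (8 r² - (n+8) Q)`, `n = d+1`. -/
theorem lap_q5 (r : ℝ) (Z : P d) :
    lap (q5 r) Z = 10 * (max (r ^ 2 - sq Z) 0) ^ 3 * (8 * r ^ 2 - ((d : ℝ) + 9) * max (r ^ 2 - sq Z) 0) := by
  have h1 : ∀ a : Ix d, pd a (q5 r) = fun Y : P d => (-10) * co a Y * (max (r ^ 2 - sq Y) 0) ^ (2 + 2) := by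
    intro a
    funext Y
    have := MV1a_pd_posPow 3 r a Y
    have e : q5 (d := d) r = fun Y : P d => (max (r ^ 2 - sq Y) 0) ^ (3 + 2) := rfl
    rw [e, this]
    norm_num
  have h2 : ∀ a : Ix d, pd a (pd a (q5 r)) Z = -10 * (max (r ^ 2 - sq Z) 0) ^ 4
      + 80 * (max (r ^ 2 - sq Z) 0) ^ 3 * (co a Z) ^ 2 := by
    intro a
    rw [h1 a, MV1a_pd_co_mul_posPow]
    simp only [if_true]
    push_cast
    ring
  unfold lap
  rw [Finset.sum_congr rfl fun a _ => h2 a, Finset.sum_add_distrib,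
    Finset.sum_const, Finset.card_univ, Fintype.card_option, Fintype.card_fin, nsmul_eq_mul,
    ← Finset.mul_sum]
  have h3 : ∑ a : Ix d, (co a Z) ^ 2 = sq Z := rfl
  rw [h3]
  rcases le_total (r ^ 2 - sq Z) 0 with h | h
  · rw [max_eq_right h]
    simp
  · rw [max_eq_left h]
    push_cast
    ring

/-- `∂_r k_r = c r^{-(n+9)} Δ q5_r / 10`. -/
theorem kr_hasDerivAt {r : ℝ} (hr : 0 < r) (Z : P d) :
    HasDerivAt (fun s : ℝ => kr s Z) (cM d * (r ^ (d + 10))⁻¹ / 10 * lap (q5 r) Z) r := by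
  rw [lap_q5]
  have h1 : HasDerivAt (fun s : ℝ => s ^ 2 - sq Z) (2 * r) r := by
    have := (hasDerivAt_pow 2 r).sub_const (sq Z)
    simpa using this
  have h2 := (MV1a_hasDerivAt_posPow 2 (r ^ 2 - sq Z)).comp r h1
  have h3 : HasDerivAt (fun s : ℝ => (s ^ (d + 9))⁻¹) (-(((d + 9 : ℕ) : ℝ) * r ^ (d + 8)) / (r ^ (d + 9)) ^ 2) r := by
    have := (hasDerivAt_pow (d + 9) r).fun_inv (by positivity)
    simpa using this
  have h4 := (h3.const_mul (cM d)).mul h2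
  have e : (fun s : ℝ => kr s Z) = (fun s : ℝ => cM d * (s ^ (d + 9))⁻¹) *
      ((fun s : ℝ => (max s 0) ^ (2 + 2)) ∘ (fun s : ℝ => s ^ 2 - sq Z)) := by
    funext s
    rfl
  rw [e]
  refine h4.congr_deriv ?_
  simp only [Function.comp]
  have hr' : r ≠ 0 := hr.ne'
  push_cast
  field_simp
  ring

end HG
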