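import Pool.Agent.W_MP_825298_an.MV2b
import Pool.Agent.W_MP_825298_an.MV2c

open MeasureTheory Set Filter Topology
open scoped ENNReal NNReal BigOperators

namespace HG
variable {d : ℕ}

private lemma MV3a_pd_shift (a : Ix d) (g : P d → ℝ) (X Y : P d) :
    pd a (fun Y => g (Y - X)) Y = pd a g (Y - X) := by
  unfold pd
  rw [fderiv_comp_sub]

private lemma MV3a_lap_shift (g : P d → ℝ) (X Y : P d) :
    lap (fun Y => g (Y - X)) Y = lap g (Y - X) := by
  unfold lap
  refine Finset.sum_congr rfl fun a _ => ?_
  have h1 : pd a (fun Y => g (Y - X)) = fun Y => pd a g (Y - X) :=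
    funext fun Y => MV3a_pd_shift a g X Y
  rw [h1, MV3a_pd_shift a (pd a g) X Y]

/-- Continuous weakly harmonic functions have the mean value property: by `kr_diff` the average is independent
of `r` (the inner integral is `∫ f Δθ`, `θ = q5 s (· - X)`, whose support lies in `closedBall X s ⊆ O`), let `r → 0`. -/
theorem mvp_of_weakHarm {O : Set (P d)} (hO : IsOpen O) {f : P d → ℝ} (hc : ContinuousOn f O)
    (hw : WeakHarm O f) : MVP O f := by
  refine ⟨hc, fun X r hr hB => ?_⟩
  have hXO : X ∈ O := hB (Metric.mem_closedBall_self hr.le)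
  have hint : IntegrableOn f (Metric.closedBall X r) :=
    (hc.mono hB).integrableOn_compact (isCompact_closedBall X r)
  have hzero : ∀ t : ℝ, 0 < t → t ≤ r → ∫ Z, f (X + Z) * lap (q5 t) Z = 0 := by
    intro t ht htr
    have h1 := hw (fun Y => q5 t (Y - X)) ((q5_contDiff t).comp (contDiff_id.sub contDiff_const))
    have hsupp : tsupport (fun Y => q5 (d := d) t (Y - X)) ⊆ Metric.closedBall X t := by
      apply closure_minimal _ Metric.isClosed_closedBall
      intro Y hY
      by_contra hcon
      apply hY
      apply q5_eq_zero ht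
      rw [Metric.mem_closedBall, dist_eq_norm] at hcon
      exact (not_le.1 hcon).le
    have h2 := h1 ((isCompact_closedBall X t).of_isClosed_subset (isClosed_tsupport _) hsupp) (hsupp.trans
      ((Metric.closedBall_subset_closedBall htr).trans hB))
    have hinv : (volume : Measure (P d)).IsAddLeftInvariant := by
      rw [Measure.volume_eq_prod]
      infer_instance
    have h3 := integral_add_left_eq_self (μ := (volume : Measure (P d)))
      (fun Y => f Y * lap (q5 t) (Y - X)) X
    simp only [add_sub_cancel_left] at h3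
    rw [h3, ← h2]
    refine integral_congr_ae (Eventually.of_forall fun Y => ?_)
    simp only
    rw [MV3a_lap_shift]
  have hconst : ∀ s : ℝ, 0 < s → s ≤ r →
      ∫ Z, f (X + Z) * kr s Z = ∫ Z, f (X + Z) * kr r Z := by
    intro s hs hsr
    have h1 := kr_diff hint hs hsr le_rfl
    have h2 : ∫ t in s..r, cM d * (t ^ (d + 10))⁻¹ / 10 * ∫ Z, f (X + Z) * lap (q5 t) Z = 0 := by
      apply intervalIntegral.integral_zero_ae
      refine Eventually.of_forall fun t ht => ?_
      rw [uIoc_of_le hsr] at ht
      rw [hzero t (hs.trans ht.1) ht.2, mul_zero]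
    rw [h2] at h1
    exact (sub_eq_zero.1 h1).symm
  have hlim := kr_tendsto hr hint (hc.continuousAt (hO.mem_nhds hXO))
  have hlim2 : Tendsto (fun s : ℝ => ∫ Z, f (X + Z) * kr s Z) (𝓝[>] 0)
      (𝓝 (∫ Z, f (X + Z) * kr r Z)) := by
    apply tendsto_const_nhds.congr'
    filter_upwards [Ioc_mem_nhdsGT hr] with s hs
    exact (hconst s hs.1 hs.2).symm
  exact tendsto_nhds_unique hlim hlim2

end HG
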