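import Pool.Agent.W_MP_825298_an.MV3a
import Pool.Agent.W_MP_825298_an.MV3c

open MeasureTheory Set Filter Topology
open scoped ENNReal NNReal BigOperators

namespace HG
variable {d : ℕ}

theorem MV4b_integrable {O : Set (P d)} (hO : IsOpen O) {g θ : P d → ℝ} (hg : ContinuousOn g O)
    (hθ : Continuous θ) (hc : HasCompactSupport θ) (hs : tsupport θ ⊆ O) :
    Integrable (fun X => g X * θ X) := by
  have h1 : tsupport (fun X => g X * θ X) ⊆ O :=
    (tsupport_mul_subset_right (f := g) (g := θ)).trans hs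
  have h2 : Continuous (fun X => g X * θ X) :=
    (hg.mul hθ.continuousOn).continuous_of_tsupport_subset hO h1
  exact h2.integrable_of_hasCompactSupport (hc.mul_left (f := g))

theorem MV4b_pd_contDiff {k : ℕ} {θ : P d → ℝ} (hθ : ContDiff ℝ (k + 1 : ℕ) θ) (a : Ix d) :
    ContDiff ℝ k (pd a θ) := by
  have h : ContDiff ℝ (k : WithTop ℕ∞) (fderiv ℝ θ) := by
    refine hθ.fderiv_right ?_
    push_cast
    exact le_rfl
  exact h.clm_apply contDiff_const

theorem MV4b_pd_compact {θ : P d → ℝ} (hc : HasCompactSupport θ) (a : Ix d) :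
    HasCompactSupport (pd a θ) := hc.fderiv_apply (𝕜 := ℝ) (eb a)

theorem MV4b_pd_tsupport {θ : P d → ℝ} (a : Ix d) : tsupport (pd a θ) ⊆ tsupport θ :=
  tsupport_fderiv_apply_subset ℝ (eb a)

theorem MV4b_pd_comm {θ : P d → ℝ} (hθ : ContDiff ℝ 4 θ) (a b : Ix d) (X : P d) :
    pd a (pd b θ) X = pd b (pd a θ) X := by
  have hs : IsSymmSndFDerivAt ℝ θ X :=
    hθ.contDiffAt.isSymmSndFDerivAt (by
      rw [minSmoothness_of_isRCLikeNormedField]
      norm_num)
  have hd : DifferentiableAt ℝ (fderiv ℝ θ) X :=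
    ((hθ.fderiv_right (m := 3) (by norm_num)).differentiable (by norm_num)) X
  have key : ∀ u v : P d, fderiv ℝ (fun Y => fderiv ℝ θ Y u) X v = fderiv ℝ (fderiv ℝ θ) X v u := by
    intro u v
    rw [fderiv_clm_apply hd (differentiableAt_const u)]
    simp
  unfold pd
  rw [key, key]
  exact hs _ _

theorem MV4b_weakHarm {O : Set (P d)} (hO : IsOpen O) {F : Ix d → P d → ℝ}
    (hc : ∀ a, ContinuousOn (F a) O)
    (hcurl : ∀ (θ : P d → ℝ), ContDiff ℝ 3 θ → HasCompactSupport θ → tsupport θ ⊆ O → ∀ a b : Ix d,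
      ∫ X, F a X * pd b θ X = ∫ X, F b X * pd a θ X)
    (hdiv : ∀ (θ : P d → ℝ), ContDiff ℝ 3 θ → HasCompactSupport θ → tsupport θ ⊆ O →
      ∫ X, ∑ a : Ix d, F a X * pd a θ X = 0) (a : Ix d) : WeakHarm O (F a) := by
  intro θ hθ hcs hts
  have c3 : ∀ b, ContDiff ℝ 3 (pd b θ) := fun b => MV4b_pd_contDiff (k := 3) hθ b
  have c2 : ∀ b b', ContDiff ℝ 2 (pd b' (pd b θ)) := fun b b' => MV4b_pd_contDiff (k := 2) (c3 b) b'
  have s1 : ∀ b, tsupport (pd b θ) ⊆ O := fun b => (MV4b_pd_tsupport b).trans hts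
  have s2 : ∀ b b', tsupport (pd b' (pd b θ)) ⊆ O := fun b b' => (MV4b_pd_tsupport b').trans (s1 b)
  have k1 : ∀ b, HasCompactSupport (pd b θ) := fun b => MV4b_pd_compact hcs b
  have k2 : ∀ b b', HasCompactSupport (pd b' (pd b θ)) := fun b b' => MV4b_pd_compact (k1 b) b'
  have int : ∀ b' b c, Integrable (fun X => F b' X * pd b (pd c θ) X) := fun b' b c =>
    MV4b_integrable hO (hc b') (c2 c b).continuous (k2 c b) (s2 c b)
  calc ∫ X, F a X * lap θ X = ∫ X, ∑ b : Ix d, F a X * pd b (pd b θ) X := by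
        simp only [lap, Finset.mul_sum]
    _ = ∑ b : Ix d, ∫ X, F a X * pd b (pd b θ) X :=
        integral_finsetSum _ fun b _ => int a b b
    _ = ∑ b : Ix d, ∫ X, F b X * pd a (pd b θ) X :=
        Finset.sum_congr rfl fun b _ => hcurl (pd b θ) (c3 b) (k1 b) (s1 b) a b
    _ = ∑ b : Ix d, ∫ X, F b X * pd b (pd a θ) X := by
        refine Finset.sum_congr rfl fun b _ => integral_congr_ae (Eventually.of_forall fun X => ?_)
        simp only [MV4b_pd_comm hθ a b X]
    _ = ∫ X, ∑ b : Ix d, F b X * pd b (pd a θ) X :=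
        (integral_finsetSum _ fun b _ => int b b a).symm
    _ = 0 := hdiv (pd a θ) (c3 a) (k1 a) (s1 a)

theorem MV4b_zero {O : Set (P d)} (hO : IsOpen O) {g : P d → ℝ} (hg : ContinuousOn g O)
    (h : ∀ θ : P d → ℝ, ContDiff ℝ 3 θ → HasCompactSupport θ → tsupport θ ⊆ O →
      ∫ X, θ X * g X = 0) : ∀ X ∈ O, g X = 0 := by
  have h1 : ∀ᵐ X, X ∈ O → g X = 0 :=
    hO.ae_eq_zero_of_integral_contDiff_smul_eq_zero (hg.locallyIntegrableOn hO.measurableSet)
      fun θ hθ hc hs => by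
        have h3 : ContDiff ℝ 3 θ := by exact_mod_cast contDiff_infty.1 hθ 3
        simpa only [smul_eq_mul] using h θ h3 hc hs
  have h2 : g =ᵐ[volume.restrict O] (fun _ => (0 : ℝ)) :=
    (ae_restrict_iff' hO.measurableSet).2 h1
  exact Measure.eqOn_open_of_ae_eq h2 hO hg continuousOn_const

theorem MV4b_pd_continuousOn {O : Set (P d)} (hO : IsOpen O) {g : P d → ℝ}
    (hg : ContDiffOn ℝ 1 g O) (a : Ix d) : ContinuousOn (pd a g) O :=
  (hg.continuousOn_fderiv_of_isOpen hO le_rfl).clm_apply continuousOn_const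

theorem MV4b_ibp {O : Set (P d)} (hO : IsOpen O) {g θ : P d → ℝ} (hg : ContDiffOn ℝ 1 g O)
    (hθ : ContDiff ℝ 3 θ) (hc : HasCompactSupport θ) (hs : tsupport θ ⊆ O) (a : Ix d) :
    ∫ X, θ X * pd a g X = - ∫ X, g X * pd a θ X := by
  have : (volume : Measure (P d)).IsAddHaarMeasure :=
    inferInstanceAs ((volume : Measure (Fin d → ℝ)).prod (volume : Measure ℝ)).IsAddHaarMeasure
  have hgd : ∀ X ∈ tsupport θ, DifferentiableAt ℝ g X := fun X hX =>
    (hg.contDiffAt (hO.mem_nhds (hs hX))).differentiableAt (by norm_num)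
  have e : ∫ X, g X * pd a θ X = - ∫ X, pd a g X * θ X :=
    integral_mul_fderiv_eq_neg_fderiv_mul_of_integrable (μ := volume) (v := eb a)
      (MV4b_integrable hO (MV4b_pd_continuousOn hO hg a) hθ.continuous hc hs)
      (MV4b_integrable hO hg.continuousOn (MV4b_pd_contDiff (k := 2) hθ a).continuous
        (MV4b_pd_compact hc a) ((MV4b_pd_tsupport a).trans hs))
      (MV4b_integrable hO hg.continuousOn hθ.continuous hc hs)
      hgd (fun X _ => (hθ.differentiable (by norm_num)) X)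
  rw [e, neg_neg]
  simp only [mul_comm]

/-- A continuous vector field which is weakly curl free and divergence free is a field: each component is weakly
harmonic (`∫ F_a ∂_b∂_bθ = ∫ F_b ∂_a∂_bθ` by `hcurl` with the test function `∂_bθ`, sum over `b`, `hdiv` with `∂_aθ`),
hence `C³` (`mvp_of_weakHarm`, `mvp_contDiffOn`), and then the weak identities hold pointwise. -/
theorem field_of_weak {O : Set (P d)} (hO : IsOpen O) {F : Ix d → P d → ℝ} (hc : ∀ a, ContinuousOn (F a) O)
    (hcurl : ∀ (θ : P d → ℝ), ContDiff ℝ 3 θ → HasCompactSupport θ → tsupport θ ⊆ O → ∀ a b : Ix d,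
      ∫ X, F a X * pd b θ X = ∫ X, F b X * pd a θ X)
    (hdiv : ∀ (θ : P d → ℝ), ContDiff ℝ 3 θ → HasCompactSupport θ → tsupport θ ⊆ O →
      ∫ X, ∑ a : Ix d, F a X * pd a θ X = 0) : IsField O F := by
  have h3 : ∀ a, ContDiffOn ℝ 3 (F a) O := fun a =>
    mvp_contDiffOn hO (mvp_of_weakHarm hO (hc a) (MV4b_weakHarm hO hc hcurl hdiv a))
  have h1 : ∀ a, ContDiffOn ℝ 1 (F a) O := fun a => (h3 a).of_le (by norm_num)
  have cpd : ∀ a b, ContinuousOn (pd a (F b)) O := fun a b => MV4b_pd_continuousOn hO (h1 b) a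
  have hint : ∀ (θ : P d → ℝ), ContDiff ℝ 3 θ → HasCompactSupport θ → tsupport θ ⊆ O →
      ∀ a b, Integrable (fun X => θ X * pd a (F b) X) := by
    intro θ hθ hcs hts a b
    have := MV4b_integrable hO (cpd a b) hθ.continuous hcs hts
    simpa only [mul_comm] using this
  refine ⟨h1, ?_, ?_⟩
  · intro a b X hX
    have := MV4b_zero hO (g := fun X => pd a (F b) X - pd b (F a) X) ((cpd a b).sub (cpd b a))
      (fun θ hθ hcs hts => by
        simp only [mul_sub]
        rw [integral_sub (hint θ hθ hcs hts a b) (hint θ hθ hcs hts b a),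
          MV4b_ibp hO (h1 b) hθ hcs hts a, MV4b_ibp hO (h1 a) hθ hcs hts b,
          hcurl θ hθ hcs hts a b]
        ring) X hX
    simpa [sub_eq_zero] using this
  · intro X hX
    refine MV4b_zero hO (g := fun X => ∑ a : Ix d, pd a (F a) X)
      (continuousOn_finsetSum _ fun a _ => cpd a a) (fun θ hθ hcs hts => ?_) X hX
    simp only [Finset.mul_sum]
    rw [integral_finsetSum _ fun a _ => hint θ hθ hcs hts a a]
    have e : ∀ a : Ix d, ∫ X, θ X * pd a (F a) X = - ∫ X, F a X * pd a θ X := fun a =>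
      MV4b_ibp hO (h1 a) hθ hcs hts a
    simp only [e, Finset.sum_neg_distrib]
    rw [← integral_finsetSum _ fun a _ => MV4b_integrable hO (hc a)
      (MV4b_pd_contDiff (k := 2) hθ a).continuous (MV4b_pd_compact hcs a)
      ((MV4b_pd_tsupport a).trans hts), hdiv θ hθ hcs hts, neg_zero]

end HG
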