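import Pool.Agent.W_MP_825298_an.Defs

/-! Mean value kernels. `n = d+1`. -/

open MeasureTheory Set Filter Topology
open scoped ENNReal NNReal BigOperators

namespace HG
variable {d : ℕ}

/-- normalising constant -/
noncomputable def cM (d : ℕ) : ℝ := (∫ Z : P d, (max (1 - sq Z) 0) ^ 4)⁻¹

/-- `k_r(Z) = c r^{-(n+8)} (r²-|Z|²)_+^4` -/
noncomputable def kr (r : ℝ) (Z : P d) : ℝ := cM d * (r ^ (d + 9))⁻¹ * (max (r ^ 2 - sq Z) 0) ^ 4

/-- `(r²-|Z|²)_+^5` -/
noncomputable def q5 (r : ℝ) (Z : P d) : ℝ := (max (r ^ 2 - sq Z) 0) ^ 5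

/-- continuous functions with the mean value property on the open set `O` -/
def MVP (O : Set (P d)) (f : P d → ℝ) : Prop :=
  ContinuousOn f O ∧ ∀ (X : P d) (r : ℝ), 0 < r → Metric.closedBall X r ⊆ O →
    f X = ∫ Z, f (X + Z) * kr r Z

/-- weakly harmonic functions on `O` (test functions of class `C⁴`; `q5` is such a function) -/
def WeakHarm (O : Set (P d)) (f : P d → ℝ) : Prop :=
  ∀ θ : P d → ℝ, ContDiff ℝ 4 θ → HasCompactSupport θ → tsupport θ ⊆ O → ∫ X, f X * lap θ X = 0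

end HG
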