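import Pool.Agent.W_MP_825298_an.Newton1

open MeasureTheory Set Filter Topology
open scoped ENNReal NNReal BigOperators

namespace HG
variable {d : ℕ}

instance Newton2_haar : (volume : Measure (P d)).IsAddHaarMeasure :=
  inferInstanceAs (Measure.IsAddHaarMeasure
    ((volume : Measure (Fin d → ℝ)).prod (volume : Measure ℝ)))

/-- Scaling: `aid ε X = ε^{-(d+1)} aid 1 (X/ε)`, and `∫ aid 1 = 1` by the choice of `cN`. -/
theorem aid_nonneg (ε : ℝ) (X : P d) : 0 ≤ aid ε X := by
  have h1 : 0 ≤ sq X := Finset.sum_nonneg fun a _ => sq_nonneg _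
  have h2 := (cN_pos d).le
  unfold aid
  have h3 : 0 ≤ (sq X + ε ^ 2) ^ (-(((d : ℝ) + 1) / 2 + 1)) :=
    Real.rpow_nonneg (by positivity) _
  positivity

theorem Newton2_sq_smul (r : ℝ) (X : P d) : sq (r • X) = r ^ 2 * sq X := by
  unfold sq
  rw [Finset.mul_sum]
  refine Finset.sum_congr rfl fun a _ => ?_
  cases a with
  | none => simp [co, mul_pow]
  | some i => simp [co, mul_pow]

theorem Newton2_finrank : Module.finrank ℝ (P d) = d + 1 := by
  simp

theorem Newton2_sq_measurable : Measurable (sq (d := d)) := by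
  unfold sq
  refine Finset.measurable_sum _ fun a _ => ?_
  cases a with
  | none => exact (measurable_snd.pow_const 2)
  | some i => exact (((measurable_pi_apply i).comp measurable_fst).pow_const 2)

theorem Newton2_int0 : Integrable (fun X : P d => (1 + sq X) ^ (-(((d : ℝ) + 1) / 2 + 1))) := by
  have h := integrable_rpow_neg_one_add_norm_sq (E := P d) (μ := volume) (r := (d : ℝ) + 3) (by
    rw [Newton2_finrank]; push_cast; linarith)
  refine h.mono' ?_ ?_
  · exact ((measurable_const.add Newton2_sq_measurable).pow_const _).aestronglyMeasurable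
  · refine Filter.Eventually.of_forall fun X => ?_
    have h1 := (norm_sq_le_sq X).1
    have h2 : (0 : ℝ) < 1 + ‖X‖ ^ 2 := by positivity
    rw [Real.norm_of_nonneg (Real.rpow_nonneg (by linarith) _)]
    have h3 : -((d : ℝ) + 3) / 2 = -(((d : ℝ) + 1) / 2 + 1) := by ring
    rw [h3]
    exact Real.rpow_le_rpow_of_nonpos h2 (by linarith) (by
      have : (0 : ℝ) ≤ d := Nat.cast_nonneg d
      linarith)

theorem Newton2_aid_one (X : P d) :
    aid 1 X = cN d * (((d : ℝ) + 1) * (1 + sq X) ^ (-(((d : ℝ) + 1) / 2 + 1))) := by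
  unfold aid
  rw [one_pow, add_comm (sq X) 1]
  ring

theorem Newton2_integrable_one : Integrable (aid (d := d) 1) := by
  have h : aid (d := d) 1 = fun X => cN d * (((d : ℝ) + 1) *
      (1 + sq X) ^ (-(((d : ℝ) + 1) / 2 + 1))) := funext Newton2_aid_one
  rw [h]
  exact (Newton2_int0.const_mul _).const_mul _

theorem Newton2_integral_one : ∫ X : P d, aid 1 X = 1 := by
  simp only [Newton2_aid_one]
  rw [integral_const_mul]
  have h := cN_pos d
  unfold cN at h ⊢
  exact inv_mul_cancel₀ (inv_pos.1 h).ne'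

theorem Newton2_aid_smul {ε : ℝ} (hε : 0 < ε) (X : P d) :
    aid ε (ε • X) = (ε ^ (d + 1))⁻¹ * aid 1 X := by
  unfold aid
  have h0 : 0 ≤ sq X := Finset.sum_nonneg fun a _ => sq_nonneg _
  have h1 : sq (ε • X) + ε ^ 2 = ε ^ 2 * (sq X + 1 ^ 2) := by
    rw [Newton2_sq_smul]; ring
  rw [h1, Real.mul_rpow (by positivity) (by positivity)]
  have h2 : (ε ^ 2) ^ (-(((d : ℝ) + 1) / 2 + 1)) = (ε ^ (d + 3))⁻¹ := by
    rw [← Real.rpow_natCast ε 2, ← Real.rpow_mul hε.le, ← Real.rpow_natCast ε (d + 3),
      ← Real.rpow_neg hε.le]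
    congr 1
    push_cast
    ring
  rw [h2]
  have h3 : ε ^ (d + 3) = ε ^ (d + 1) * ε ^ 2 := by ring
  rw [h3]
  have h4 : ε ^ (d + 1) ≠ 0 := by positivity
  field_simp

theorem aid_integrable {ε : ℝ} (hε : 0 < ε) : Integrable (aid (d := d) ε) := by
  have h1 : Integrable (fun X : P d => aid ε (ε • X)) := by
    simp only [Newton2_aid_smul hε]
    exact Newton2_integrable_one.const_mul _
  exact (integrable_comp_smul_iff volume (aid (d := d) ε) hε.ne').1 h1

theorem Newton2_change {ε : ℝ} (hε : 0 < ε) (g : P d → ℝ) :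
    ∫ Z : P d, aid 1 Z * g (ε • Z) = ∫ Y : P d, aid ε Y * g Y := by
  have h1 := Measure.integral_comp_smul (volume : Measure (P d)) (fun Y => aid ε Y * g Y) ε
  rw [Newton2_finrank] at h1
  have h2 : (0 : ℝ) < ε ^ (d + 1) := by positivity
  rw [abs_of_pos (by positivity)] at h1
  simp only [Newton2_aid_smul hε, mul_assoc, smul_eq_mul] at h1
  rw [integral_const_mul] at h1
  exact mul_left_cancel₀ (inv_ne_zero h2.ne') h1

theorem aid_integral {ε : ℝ} (hε : 0 < ε) : ∫ X : P d, aid ε X = 1 := by
  have h1 := Newton2_change (d := d) hε (fun _ => 1)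
  simp only [mul_one] at h1
  rw [← h1, Newton2_integral_one]

/-- approximate identity: for a bounded measurable `f` which is continuous at `X₀`. -/
theorem aid_tendsto {f : P d → ℝ} (hf : AEStronglyMeasurable f volume) {C : ℝ} (hC : ∀ X, |f X| ≤ C)
    {X₀ : P d} (hc : ContinuousAt f X₀) :
    Tendsto (fun ε : ℝ => ∫ Y, aid ε (Y - X₀) * f Y) (𝓝[>] 0) (𝓝 (f X₀)) := by
  have h1 : ∀ᶠ ε : ℝ in 𝓝[>] 0, ∫ Y, aid ε (Y - X₀) * f Y =
      ∫ Z : P d, aid 1 Z * f (ε • Z + X₀) := by
    filter_upwards [self_mem_nhdsWithin] with ε hε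
    have hε' : (0 : ℝ) < ε := hε
    have h2 := integral_add_right_eq_self (μ := (volume : Measure (P d)))
      (fun Y => aid ε (Y - X₀) * f Y) X₀
    rw [← h2]
    simp only [add_sub_cancel_right]
    exact (Newton2_change hε' (fun Y => f (Y + X₀))).symm
  rw [tendsto_congr' h1]
  have h3 : f X₀ = ∫ Z : P d, aid 1 Z * f X₀ := by
    rw [integral_mul_const, Newton2_integral_one, one_mul]
  rw [h3]
  refine tendsto_integral_filter_of_dominated_convergence (fun Z => C * aid 1 Z) ?_ ?_ ?_ ?_
  · filter_upwards [self_mem_nhdsWithin] with ε hε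
    have hε' : (0 : ℝ) < ε := hε
    refine Newton2_integrable_one.aestronglyMeasurable.mul ?_
    have hq : Measure.QuasiMeasurePreserving (fun Z : P d => ε • Z + X₀) volume volume := by
      have hq1 : Measure.QuasiMeasurePreserving (fun Z : P d => ε • Z) volume volume := by
        refine ⟨measurable_const_smul ε, ?_⟩
        rw [Measure.map_addHaar_smul (volume : Measure (P d)) hε'.ne']
        exact Measure.smul_absolutelyContinuous
      exact (measurePreserving_add_right volume X₀).quasiMeasurePreserving.comp hq1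
    exact hf.comp_quasiMeasurePreserving hq
  · refine Filter.Eventually.of_forall fun ε => Filter.Eventually.of_forall fun Z => ?_
    rw [norm_mul, Real.norm_of_nonneg (aid_nonneg 1 Z), mul_comm]
    exact mul_le_mul_of_nonneg_right (hC _) (aid_nonneg 1 Z)
  · exact Newton2_integrable_one.const_mul _
  · refine Filter.Eventually.of_forall fun Z => ?_
    refine Tendsto.const_mul _ ?_
    have h4 : Tendsto (fun ε : ℝ => ε • Z + X₀) (𝓝[>] 0) (𝓝 X₀) := by
      have h5 : Tendsto (fun ε : ℝ => ε • Z + X₀) (𝓝 0) (𝓝 ((0 : ℝ) • Z + X₀)) :=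
        ((continuous_id.smul continuous_const).add continuous_const).tendsto 0
      rw [zero_smul, zero_add] at h5
      exact h5.mono_left nhdsWithin_le_nhds
    exact hc.tendsto.comp h4

end HG
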