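import Pool.Agent.W_MP_825298_an.Newton1

open MeasureTheory Set Filter Topology
open scoped ENNReal NNReal BigOperators

namespace HG
variable {d : ℕ}

theorem Newton3a_sq_pos {X : P d} (hX : X ≠ 0) : 0 < sq X := by
  have h := (norm_sq_le_sq X).1
  have h2 : 0 < ‖X‖ ^ 2 := pow_pos (norm_pos_iff.mpr hX) 2
  linarith

theorem Newton3a_rpow_le {X : P d} (hX : X ≠ 0) {s : ℝ} (hs : ‖X‖ ^ 2 ≤ s) :
    s ^ (-(((d : ℝ) + 1) / 2)) * ‖X‖ ≤ 1 / ‖X‖ ^ d := by
  have hn : 0 < ‖X‖ := norm_pos_iff.mpr hX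
  have h1 : s ^ (-(((d : ℝ) + 1) / 2)) ≤ (‖X‖ ^ 2) ^ (-(((d : ℝ) + 1) / 2)) := by
    refine Real.rpow_le_rpow_of_nonpos (pow_pos hn 2) hs ?_
    have : (0 : ℝ) ≤ d := Nat.cast_nonneg d
    linarith
  have h2 : (‖X‖ ^ 2) ^ (-(((d : ℝ) + 1) / 2)) = (‖X‖ ^ (d + 1))⁻¹ := by
    rw [← Real.rpow_natCast ‖X‖ 2, ← Real.rpow_mul hn.le, ← Real.rpow_natCast ‖X‖ (d + 1),
      ← Real.rpow_neg hn.le]
    congr 1
    push_cast
    ring
  rw [h2] at h1
  calc s ^ (-(((d : ℝ) + 1) / 2)) * ‖X‖ ≤ (‖X‖ ^ (d + 1))⁻¹ * ‖X‖ :=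
        mul_le_mul_of_nonneg_right h1 hn.le
    _ = 1 / ‖X‖ ^ d := by
        rw [pow_succ]
        field_simp

/-- size bounds -/
theorem nk_bound (d : ℕ) : ∃ C : ℝ, 0 < C ∧
    (∀ (a : Ix d) (X : P d), X ≠ 0 → |nk a X| ≤ C / ‖X‖ ^ d) ∧
    (∀ (ε : ℝ) (a : Ix d) (X : P d), 0 < ε → X ≠ 0 → |nkr ε a X| ≤ C / ‖X‖ ^ d) := by
  have hc := cN_pos d
  have key : ∀ (a : Ix d) (X : P d) (s : ℝ), X ≠ 0 → ‖X‖ ^ 2 ≤ s →
      |cN d * co a X * s ^ (-(((d : ℝ) + 1) / 2))| ≤ cN d / ‖X‖ ^ d := by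
    intro a X s hX hs
    have hs0 : 0 < s := lt_of_lt_of_le (pow_pos (norm_pos_iff.mpr hX) 2) hs
    have hsp : 0 < s ^ (-(((d : ℝ) + 1) / 2)) := Real.rpow_pos_of_pos hs0 _
    rw [abs_mul, abs_mul, abs_of_pos hc, abs_of_pos hsp]
    calc cN d * |co a X| * s ^ (-(((d : ℝ) + 1) / 2))
        ≤ cN d * ‖X‖ * s ^ (-(((d : ℝ) + 1) / 2)) := by
          gcongr
          exact Newton1_abs_co_le a X
      _ = cN d * (s ^ (-(((d : ℝ) + 1) / 2)) * ‖X‖) := by ring
      _ ≤ cN d * (1 / ‖X‖ ^ d) := mul_le_mul_of_nonneg_left (Newton3a_rpow_le hX hs) hc.le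
      _ = cN d / ‖X‖ ^ d := by ring
  refine ⟨cN d, hc, ?_, ?_⟩
  · intro a X hX
    exact key a X (sq X) hX (norm_sq_le_sq X).1
  · intro ε a X hε hX
    refine key a X (sq X + ε ^ 2) hX ?_
    have h1 := (norm_sq_le_sq X).1
    have h2 : 0 < ε ^ 2 := pow_pos hε 2
    linarith

theorem nkr_tendsto (a : Ix d) {X : P d} (hX : X ≠ 0) :
    Tendsto (fun ε : ℝ => nkr ε a X) (𝓝[>] 0) (𝓝 (nk a X)) := by
  have hs := Newton3a_sq_pos hX
  have h1 : ContinuousAt (fun ε : ℝ => nkr ε a X) 0 := by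
    unfold nkr
    refine continuousAt_const.mul ?_
    refine ContinuousAt.rpow_const ?_ (Or.inl ?_)
    · exact continuousAt_const.add (continuousAt_id.pow 2)
    · simpa using hs.ne'
  have h2 : nkr 0 a X = nk a X := by
    unfold nkr nk
    norm_num
  have h3 := h1.tendsto
  simp only [h2] at h3
  exact h3.mono_left nhdsWithin_le_nhds

theorem nk_contDiffAt (a : Ix d) {X : P d} (hX : X ≠ 0) : ContDiffAt ℝ 3 (nk (d := d) a) X := by
  have e : nk (d := d) a = fun Y : P d => cN d * co a Y *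
      (sq Y) ^ (-(((d : ℝ) + 1) / 2)) := rfl
  rw [e]
  refine (contDiffAt_const.mul (Newton1_contDiff_co a).contDiffAt).mul ?_
  exact (Newton1_contDiff_sq.contDiffAt).rpow_const_of_ne (Newton3a_sq_pos hX).ne'

theorem nk_measurable (a : Ix d) : Measurable (nk (d := d) a) := by
  have e : nk (d := d) a = fun Y : P d => cN d * co a Y *
      (sq Y) ^ (-(((d : ℝ) + 1) / 2)) := rfl
  rw [e]
  have h1 : Measurable (fun Y : P d => co a Y) :=
    (Newton1_contDiff_co (d := d) a (n := 0)).continuous.measurable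
  have h2 : Measurable (fun Y : P d => sq Y) :=
    (Newton1_contDiff_sq (d := d) (n := 0)).continuous.measurable
  exact (measurable_const.mul h1).mul (h2.pow_const _)

theorem Newton3a_pd_nk (a b : Ix d) {X : P d} (hX : X ≠ 0) :
    pd b (nk a) X = cN d * ((if a = b then 1 else 0) *
      (sq X) ^ (-(((d : ℝ) + 1) / 2)) +
      co a X * ((-(((d : ℝ) + 1) / 2)) * (sq X) ^ (-(((d : ℝ) + 1) / 2) - 1) *
        (2 * co b X))) := by
  have hs := Newton1_hasFDerivAt_sq X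
  have hp := hs.rpow_const (p := -(((d : ℝ) + 1) / 2)) (Or.inl (Newton3a_sq_pos hX).ne')
  have hc := (Newton1_hasFDerivAt_co a X).const_mul (cN d)
  have h2 : fderiv ℝ (fun Y : P d => cN d * co a Y *
      (sq Y) ^ (-(((d : ℝ) + 1) / 2))) X = _ := (hc.mul hp).fderiv
  unfold pd
  have e : nk (d := d) a = fun Y : P d => cN d * co a Y *
      (sq Y) ^ (-(((d : ℝ) + 1) / 2)) := rfl
  rw [e]
  rw [h2]
  simp only [_root_.add_apply, _root_.smul_apply, smul_eq_mul,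
    _root_.sum_apply, Newton1_coL_apply, Newton1_co_eb]
  have hsum : ∑ x : Ix d, 2 * co x X * (if x = b then (1 : ℝ) else 0) = 2 * co b X := by
    rw [Finset.sum_eq_single b]
    · simp
    · intro c _ hc
      simp [hc]
    · intro h
      exact absurd (Finset.mem_univ b) h
  rw [hsum]
  ring

theorem Newton3a_curl (a b : Ix d) {X : P d} (hX : X ≠ 0) :
    pd b (nk a) X = pd a (nk b) X := by
  rw [Newton3a_pd_nk _ _ hX, Newton3a_pd_nk _ _ hX]
  have h : (if a = b then (1 : ℝ) else 0) = if b = a then 1 else 0 := by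
    by_cases h : a = b
    · simp [h]
    · simp [h, Ne.symm h]
  rw [h]
  ring

theorem Newton3a_div {X : P d} (hX : X ≠ 0) : ∑ a : Ix d, pd a (nk a) X = 0 := by
  have hb := Newton3a_sq_pos hX
  have h1 : ∀ a : Ix d, pd a (nk a) X = cN d * (sq X) ^ (-(((d : ℝ) + 1) / 2)) +
      cN d * ((-(((d : ℝ) + 1) / 2)) * (sq X) ^ (-(((d : ℝ) + 1) / 2) - 1) * 2) *
        (co a X) ^ 2 := by
    intro a
    rw [Newton3a_pd_nk _ _ hX]
    simp only [if_true]
    ring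
  have h2 : ∑ a : Ix d, (co a X) ^ 2 = sq X := rfl
  rw [Finset.sum_congr rfl fun a _ => h1 a, Finset.sum_add_distrib,
    Finset.sum_const, Finset.card_univ, Fintype.card_option, Fintype.card_fin, nsmul_eq_mul,
    ← Finset.mul_sum, h2]
  have h3 : (sq X) ^ (-(((d : ℝ) + 1) / 2)) =
      (sq X) ^ (-(((d : ℝ) + 1) / 2) - 1) * (sq X) := by
    rw [← Real.rpow_add_one hb.ne']
    congr 1
    ring
  rw [h3]
  push_cast
  ring

/-- the translated Newton kernel is a field off its pole -/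
theorem nk_isField (X₀ : P d) : IsField {X₀}ᶜ (fun a X => nk a (X - X₀)) := by
  have hpd : ∀ (a b : Ix d) (X : P d), pd b (fun Y => nk a (Y - X₀)) X = pd b (nk a) (X - X₀) := by
    intro a b X
    unfold pd
    rw [fderiv_comp_sub]
  have hne : ∀ X ∈ ({X₀}ᶜ : Set (P d)), X - X₀ ≠ 0 := by
    intro X hX
    exact sub_ne_zero.mpr hX
  refine ⟨?_, ?_, ?_⟩
  · intro a X hX
    have h1 : ContDiffAt ℝ 3 (fun Y : P d => nk a (Y - X₀)) X :=
      (nk_contDiffAt a (hne X hX)).comp X (contDiff_id.sub contDiff_const).contDiffAt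
    exact (h1.of_le (by norm_num)).contDiffWithinAt
  · intro a b X hX
    rw [hpd, hpd]
    exact Newton3a_curl b a (hne X hX)
  · intro X hX
    rw [Finset.sum_congr rfl fun a _ => hpd a a X]
    exact Newton3a_div (hne X hX)

end HG
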