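import Pool.Agent.W_MP_825298_an.Newton1

open MeasureTheory Set Filter Topology
open scoped ENNReal NNReal BigOperators

namespace HG
variable {d : ℕ}

theorem N3b_co_contDiff (a : Ix d) : ContDiff ℝ 3 (co (d := d) a) := by
  cases a with
  | none => exact contDiff_snd
  | some i =>
    have h : ContDiff ℝ 3 (fun X : P d => X.1 i) :=
      (contDiff_apply ℝ ℝ i).comp contDiff_fst
    exact h

theorem N3b_sq_contDiff : ContDiff ℝ 3 (sq (d := d)) := by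
  unfold sq
  exact ContDiff.sum (fun a _ => (N3b_co_contDiff a).pow 2)

theorem N3b_sq_pos {X : P d} (hX : X ≠ 0) : 0 < sq X := by
  have h := (norm_sq_le_sq X).1
  have h2 : 0 < ‖X‖ := norm_pos_iff.2 hX
  have h3 : 0 < ‖X‖ ^ 2 := by positivity
  linarith

theorem N3b_contDiffAt (a : Ix d) {X : P d} (hX : X ≠ 0) : ContDiffAt ℝ 3 (nk (d := d) a) X := by
  unfold nk
  refine (contDiffAt_const.mul (N3b_co_contDiff a).contDiffAt).mul ?_
  exact (N3b_sq_contDiff.contDiffAt).rpow_const_of_ne (N3b_sq_pos hX).ne'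

theorem N3b_co_smul (a : Ix d) (t : ℝ) (Y : P d) : co a (t • Y) = t * co a Y := by
  cases a with
  | none => rfl
  | some i => rfl

theorem N3b_sq_smul (t : ℝ) (Y : P d) : sq (t • Y) = t ^ 2 * sq Y := by
  unfold sq
  rw [Finset.mul_sum]
  refine Finset.sum_congr rfl (fun a _ => ?_)
  rw [N3b_co_smul]
  ring

theorem N3b_hom (a : Ix d) {t : ℝ} (ht : 0 < t) (Y : P d) :
    nk a (t • Y) = (t ^ d)⁻¹ * nk a Y := by
  have h0 : 0 ≤ sq Y := le_trans (by positivity) (norm_sq_le_sq Y).1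
  have h1 : (t ^ 2) ^ (-(((d : ℝ) + 1) / 2)) = (t ^ (d + 1))⁻¹ := by
    rw [← Real.rpow_natCast t 2, ← Real.rpow_mul ht.le]
    have h2 : ((2 : ℕ) : ℝ) * -(((d : ℝ) + 1) / 2) = -(((d + 1 : ℕ) : ℝ)) := by
      push_cast
      ring
    rw [h2, Real.rpow_neg ht.le, Real.rpow_natCast]
  unfold nk
  rw [N3b_co_smul, N3b_sq_smul, Real.mul_rpow (by positivity) h0, h1]
  have h3 : t * (t ^ (d + 1))⁻¹ = (t ^ d)⁻¹ := by
    rw [pow_succ, mul_inv]
    field_simp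
  calc cN d * (t * co a Y) * ((t ^ (d + 1))⁻¹ * sq Y ^ (-(((d : ℝ) + 1) / 2)))
      = (t * (t ^ (d + 1))⁻¹) * (cN d * co a Y * sq Y ^ (-(((d : ℝ) + 1) / 2))) := by ring
    _ = _ := by rw [h3]

/-- the shell -/
def N3b_K (d : ℕ) : Set (P d) := Metric.closedBall 0 (3 / 2) ∩ {X | 1 / 2 ≤ ‖X‖}

theorem N3b_K_compact : IsCompact (N3b_K d) :=
  (isCompact_closedBall _ _).inter_right (isClosed_le continuous_const continuous_norm)

theorem N3b_ne {X : P d} (hX : X ∈ N3b_K d) : X ≠ 0 := by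
  intro h
  have h1 : (1 / 2 : ℝ) ≤ ‖X‖ := hX.2
  rw [h, norm_zero] at h1
  linarith

theorem N3b_ball {X : P d} (hX : ‖X‖ = 1) {Y : P d} (hY : Y ∈ Metric.closedBall X (1 / 2)) :
    Y ∈ N3b_K d := by
  rw [mem_closedBall_iff_norm] at hY
  constructor
  · rw [mem_closedBall_zero_iff]
    have h := norm_sub_norm_le Y X
    linarith
  · have h := norm_sub_norm_le X Y
    rw [norm_sub_rev] at h
    show (1 / 2 : ℝ) ≤ ‖Y‖
    linarith

theorem N3b_bound1 (a : Ix d) : ∃ C : ℝ, 0 ≤ C ∧ ∀ X ∈ N3b_K d, ‖fderiv ℝ (nk a) X‖ ≤ C := by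
  have hc : ContinuousOn (fderiv ℝ (nk (d := d) a)) (N3b_K d) := by
    intro X hX
    have h := (N3b_contDiffAt a (N3b_ne hX)).fderiv_right (m := 2) (by norm_num)
    exact h.continuousAt.continuousWithinAt
  obtain ⟨C, hC⟩ := N3b_K_compact.exists_bound_of_continuousOn hc
  exact ⟨max C 0, le_max_right _ _, fun X hX => (hC X hX).trans (le_max_left _ _)⟩

theorem N3b_bound2 (a : Ix d) : ∃ C : ℝ, 0 ≤ C ∧ ∀ X ∈ N3b_K d,
    ‖fderiv ℝ (fderiv ℝ (nk a)) X‖ ≤ C := by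
  have hn : ContinuousOn (fun X => ‖fderiv ℝ (fderiv ℝ (nk (d := d) a)) X‖) (N3b_K d) := by
    intro X hX
    have h := ((N3b_contDiffAt a (N3b_ne hX)).fderiv_right (m := 2) (by norm_num)).fderiv_right
      (m := 1) (by norm_num)
    exact (continuous_norm.continuousAt.comp h.continuousAt).continuousWithinAt
  obtain ⟨C, hC⟩ := N3b_K_compact.bddAbove_image hn
  refine ⟨max C 0, le_max_right _ _, fun X hX => le_trans ?_ (le_max_left C 0)⟩
  exact hC ⟨X, hX, rfl⟩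

theorem N3b_diff_a (a : Ix d) : ∃ C : ℝ, 0 ≤ C ∧ ∀ (X V : P d), X ≠ 0 → ‖V‖ ≤ ‖X‖ / 2 →
    |nk a (X + V) - nk a X| ≤ C * ‖V‖ / ‖X‖ ^ (d + 1) := by
  obtain ⟨C, hC0, hC⟩ := N3b_bound1 (d := d) a
  refine ⟨C, hC0, ?_⟩
  intro X V hX hV
  set t : ℝ := ‖X‖ with ht
  have htp : 0 < t := norm_pos_iff.2 hX
  have h1 : t • (t⁻¹ • X) = X := smul_inv_smul₀ htp.ne' X
  have h2 : t • (t⁻¹ • V) = V := smul_inv_smul₀ htp.ne' V
  have hX1 : ‖t⁻¹ • X‖ = 1 := by
    rw [norm_smul, norm_inv, Real.norm_of_nonneg htp.le, ← ht]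
    exact inv_mul_cancel₀ htp.ne'
  have hV1 : ‖t⁻¹ • V‖ = t⁻¹ * ‖V‖ := by
    rw [norm_smul, norm_inv, Real.norm_of_nonneg htp.le]
  have hV2 : ‖t⁻¹ • V‖ ≤ 1 / 2 := by
    rw [hV1]
    calc t⁻¹ * ‖V‖ ≤ t⁻¹ * (t / 2) := mul_le_mul_of_nonneg_left hV (by positivity)
      _ = 1 / 2 := by field_simp
  have h3 : nk a (X + V) = (t ^ d)⁻¹ * nk a (t⁻¹ • X + t⁻¹ • V) := by
    rw [← N3b_hom a htp, smul_add, h1, h2]
  have h4 : nk a X = (t ^ d)⁻¹ * nk a (t⁻¹ • X) := by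
    rw [← N3b_hom a htp, h1]
  have h5 : ‖nk a (t⁻¹ • X + t⁻¹ • V) - nk a (t⁻¹ • X)‖ ≤
      C * ‖(t⁻¹ • X + t⁻¹ • V) - t⁻¹ • X‖ := by
    refine Convex.norm_image_sub_le_of_norm_fderiv_le (𝕜 := ℝ)
      (s := Metric.closedBall (t⁻¹ • X) (1 / 2)) ?_ ?_ (convex_closedBall _ _) ?_ ?_
    · intro Y hY
      exact (N3b_contDiffAt a (N3b_ne (N3b_ball hX1 hY))).differentiableAt (by norm_num)
    · intro Y hY
      exact hC Y (N3b_ball hX1 hY)
    · exact Metric.mem_closedBall_self (by norm_num)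
    · rw [mem_closedBall_iff_norm, add_sub_cancel_left]
      exact hV2
  rw [add_sub_cancel_left, hV1, Real.norm_eq_abs] at h5
  rw [h3, h4, ← mul_sub, abs_mul, abs_of_pos (by positivity)]
  calc (t ^ d)⁻¹ * |nk a (t⁻¹ • X + t⁻¹ • V) - nk a (t⁻¹ • X)|
      ≤ (t ^ d)⁻¹ * (C * (t⁻¹ * ‖V‖)) := mul_le_mul_of_nonneg_left h5 (by positivity)
    _ = C * ‖V‖ / t ^ (d + 1) := by
      rw [pow_succ]
      field_simp

/-- first differences: the gradient of `nk a` is homogeneous of degree `-(d+1)` and continuous off `0` (explicit formula);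
integrate along the segment, on which `‖·‖ ≥ ‖X‖/2`. -/
theorem nk_diff (d : ℕ) : ∃ C : ℝ, 0 < C ∧ ∀ (a : Ix d) (X V : P d), X ≠ 0 → ‖V‖ ≤ ‖X‖ / 2 →
    |nk a (X + V) - nk a X| ≤ C * ‖V‖ / ‖X‖ ^ (d + 1) := by
  choose C hC0 hC using fun a : Ix d => N3b_diff_a a
  refine ⟨1 + ∑ a, C a, by have := Finset.sum_nonneg (fun a (_ : a ∈ Finset.univ) => hC0 a); linarith, ?_⟩
  intro a X V hX hV
  refine (hC a X V hX hV).trans ?_
  have h1 : C a ≤ 1 + ∑ a, C a := by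
    have := Finset.single_le_sum (fun b _ => hC0 b) (Finset.mem_univ a)
    linarith
  gcongr

theorem N3b_diff2_a (a : Ix d) : ∃ C : ℝ, 0 ≤ C ∧ ∀ (X V W : P d), X ≠ 0 → ‖V‖ ≤ ‖X‖ / 4 →
    ‖W‖ ≤ ‖X‖ / 4 →
    |nk a (X + V + W) - nk a (X + V) - nk a (X + W) + nk a X| ≤ C * ‖V‖ * ‖W‖ / ‖X‖ ^ (d + 2) := by
  obtain ⟨C, hC0, hC⟩ := N3b_bound2 (d := d) a
  refine ⟨C, hC0, ?_⟩
  intro X V W hX hV hW
  set t : ℝ := ‖X‖ with ht
  have htp : 0 < t := norm_pos_iff.2 hX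
  set X' := t⁻¹ • X with hX'
  set V' := t⁻¹ • V with hV'
  set W' := t⁻¹ • W with hW'
  have h1 : t • X' = X := smul_inv_smul₀ htp.ne' X
  have h2 : t • V' = V := smul_inv_smul₀ htp.ne' V
  have h2' : t • W' = W := smul_inv_smul₀ htp.ne' W
  have hX1 : ‖X'‖ = 1 := by
    rw [hX', norm_smul, norm_inv, Real.norm_of_nonneg htp.le, ← ht]
    exact inv_mul_cancel₀ htp.ne'
  have hV1 : ‖V'‖ = t⁻¹ * ‖V‖ := by
    rw [hV', norm_smul, norm_inv, Real.norm_of_nonneg htp.le]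
  have hW1 : ‖W'‖ = t⁻¹ * ‖W‖ := by
    rw [hW', norm_smul, norm_inv, Real.norm_of_nonneg htp.le]
  have hV2 : ‖V'‖ ≤ 1 / 4 := by
    rw [hV1]
    calc t⁻¹ * ‖V‖ ≤ t⁻¹ * (t / 4) := mul_le_mul_of_nonneg_left hV (by positivity)
      _ = 1 / 4 := by field_simp
  have hW2 : ‖W'‖ ≤ 1 / 4 := by
    rw [hW1]
    calc t⁻¹ * ‖W‖ ≤ t⁻¹ * (t / 4) := mul_le_mul_of_nonneg_left hW (by positivity)
      _ = 1 / 4 := by field_simp
  have e0 : nk a (X + V + W) = (t ^ d)⁻¹ * nk a (X' + W' + V') := by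
    rw [← N3b_hom a htp, smul_add, smul_add, h1, h2, h2']
    congr 1
    abel
  have e1 : nk a (X + V) = (t ^ d)⁻¹ * nk a (X' + V') := by
    rw [← N3b_hom a htp, smul_add, h1, h2]
  have e2 : nk a (X + W) = (t ^ d)⁻¹ * nk a (X' + W') := by
    rw [← N3b_hom a htp, smul_add, h1, h2']
  have e3 : nk a X = (t ^ d)⁻¹ * nk a X' := by
    rw [← N3b_hom a htp, h1]
  -- the derivative of the first difference
  have hin : ∀ Y ∈ Metric.closedBall X' (1 / 4), Y ∈ Metric.closedBall X' (1 / 2) ∧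
      Y + V' ∈ Metric.closedBall X' (1 / 2) := by
    intro Y hY
    rw [mem_closedBall_iff_norm] at hY
    constructor
    · rw [mem_closedBall_iff_norm]
      linarith
    · rw [mem_closedBall_iff_norm]
      have : Y + V' - X' = (Y - X') + V' := by abel
      rw [this]
      have := norm_add_le (Y - X') V'
      linarith
  have hdiff : ∀ Y ∈ Metric.closedBall X' (1 / 4),
      HasFDerivAt (fun Y => nk a (Y + V') - nk a Y)
        (fderiv ℝ (nk a) (Y + V') - fderiv ℝ (nk a) Y) Y := by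
    intro Y hY
    obtain ⟨k1, k2⟩ := hin Y hY
    have d1 : HasFDerivAt (nk a) (fderiv ℝ (nk a) Y) Y :=
      ((N3b_contDiffAt a (N3b_ne (N3b_ball hX1 k1))).differentiableAt (by norm_num)).hasFDerivAt
    have d2 : HasFDerivAt (nk a) (fderiv ℝ (nk a) (Y + V')) (Y + V') :=
      ((N3b_contDiffAt a (N3b_ne (N3b_ball hX1 k2))).differentiableAt (by norm_num)).hasFDerivAt
    exact ((hasFDerivAt_comp_add_right V').2 d2).sub d1
  have h5 : ‖(fun Y => nk a (Y + V') - nk a Y) (X' + W') - (fun Y => nk a (Y + V') - nk a Y) X'‖ ≤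
      (C * ‖V'‖) * ‖(X' + W') - X'‖ := by
    refine Convex.norm_image_sub_le_of_norm_hasFDerivWithin_le (𝕜 := ℝ)
      (s := Metric.closedBall X' (1 / 4)) (f := fun Y => nk a (Y + V') - nk a Y)
      (f' := fun Y => fderiv ℝ (nk a) (Y + V') - fderiv ℝ (nk a) Y) ?_ ?_
      (convex_closedBall _ _) ?_ ?_
    · intro Y hY
      exact (hdiff Y hY).hasFDerivWithinAt
    · intro Y hY
      obtain ⟨k1, k2⟩ := hin Y hY
      have h6 : ‖fderiv ℝ (nk a) (Y + V') - fderiv ℝ (nk a) Y‖ ≤ C * ‖(Y + V') - Y‖ := by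
        refine Convex.norm_image_sub_le_of_norm_fderiv_le (𝕜 := ℝ)
          (s := Metric.closedBall X' (1 / 2)) ?_ ?_ (convex_closedBall _ _) k1 k2
        · intro Z hZ
          exact ((N3b_contDiffAt a (N3b_ne (N3b_ball hX1 hZ))).fderiv_right (m := 2)
            (by norm_num)).differentiableAt (by norm_num)
        · intro Z hZ
          exact hC Z (N3b_ball hX1 hZ)
      rw [add_sub_cancel_left] at h6
      exact h6
    · exact Metric.mem_closedBall_self (by norm_num)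
    · rw [mem_closedBall_iff_norm, add_sub_cancel_left]
      exact hW2
  rw [add_sub_cancel_left, hV1, hW1, Real.norm_eq_abs] at h5
  have h7 : nk a (X + V + W) - nk a (X + V) - nk a (X + W) + nk a X =
      (t ^ d)⁻¹ * ((nk a (X' + W' + V') - nk a (X' + W')) - (nk a (X' + V') - nk a X')) := by
    rw [e0, e1, e2, e3]
    ring
  rw [h7, abs_mul, abs_of_pos (by positivity)]
  calc (t ^ d)⁻¹ * |nk a (X' + W' + V') - nk a (X' + W') - (nk a (X' + V') - nk a X')|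
      ≤ (t ^ d)⁻¹ * (C * (t⁻¹ * ‖V‖) * (t⁻¹ * ‖W‖)) :=
        mul_le_mul_of_nonneg_left h5 (by positivity)
    _ = C * ‖V‖ * ‖W‖ / t ^ (d + 2) := by
      rw [pow_add]
      field_simp

/-- mixed second differences -/
theorem nk_diff2 (d : ℕ) : ∃ C : ℝ, 0 < C ∧ ∀ (a : Ix d) (X V W : P d), X ≠ 0 → ‖V‖ ≤ ‖X‖ / 4 →
    ‖W‖ ≤ ‖X‖ / 4 →
    |nk a (X + V + W) - nk a (X + V) - nk a (X + W) + nk a X| ≤ C * ‖V‖ * ‖W‖ / ‖X‖ ^ (d + 2) := by
  choose C hC0 hC using fun a : Ix d => N3b_diff2_a a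
  refine ⟨1 + ∑ a, C a, by have := Finset.sum_nonneg (fun a (_ : a ∈ Finset.univ) => hC0 a); linarith, ?_⟩
  intro a X V W hX hV hW
  refine (hC a X V W hX hV hW).trans ?_
  have h1 : C a ≤ 1 + ∑ a, C a := by
    have := Finset.single_le_sum (fun b _ => hC0 b) (Finset.mem_univ a)
    linarith
  gcongr

end HG
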