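import Pool.Agent.W_MP_825298_an.Defs

/-! The Newton kernel (gradient of the fundamental solution) and its regularisation. `n = d+1`. -/

open MeasureTheory Set Filter Topology
open scoped ENNReal NNReal BigOperators

namespace HG
variable {d : ℕ}

/-- normalising constant -/
noncomputable def cN (d : ℕ) : ℝ :=
  (∫ X : P d, ((d : ℝ) + 1) * (1 + sq X) ^ (-(((d : ℝ) + 1) / 2 + 1)))⁻¹

/-- `c X_a / |X|^n` -/
noncomputable def nk (a : Ix d) (X : P d) : ℝ := cN d * co a X * (sq X) ^ (-(((d : ℝ) + 1) / 2))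

/-- regularised kernel `c X_a / (|X|²+ε²)^{n/2}` -/
noncomputable def nkr (ε : ℝ) (a : Ix d) (X : P d) : ℝ :=
  cN d * co a X * (sq X + ε ^ 2) ^ (-(((d : ℝ) + 1) / 2))

/-- divergence of the regularised kernel -/
noncomputable def aid (ε : ℝ) (X : P d) : ℝ :=
  cN d * ((d : ℝ) + 1) * ε ^ 2 * (sq X + ε ^ 2) ^ (-(((d : ℝ) + 1) / 2 + 1))

end HG
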