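import Pool.Agent.W_MP_825298_an.Newton2
import Pool.Agent.W_MP_825298_an.Newton3a

open MeasureTheory Set Filter Topology
open scoped ENNReal NNReal BigOperators

namespace HG
variable {d : ℕ}

instance nw_haar (d : ℕ) : (volume : Measure (P d)).IsAddHaarMeasure := by
  rw [Measure.volume_eq_prod]
  infer_instance

theorem nw_ball_integrable (d : ℕ) (r : ℝ) :
    IntegrableOn (fun X : P d => (‖X‖ ^ d)⁻¹) (Metric.ball 0 r) := by
  rw [integrableOn_fun_norm_addHaar (volume : Measure (P d)) (f := fun y : ℝ => (y ^ d)⁻¹)]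
  have hdim : Module.finrank ℝ (P d) = d + 1 := by simp
  rw [hdim]
  have h1 : IntegrableOn (fun _ : ℝ => (1 : ℝ)) (Ioo 0 r) := by
    refine integrableOn_const ?_ ?_
    · simp
    · simp
  refine h1.congr_fun ?_ measurableSet_Ioo
  intro y hy
  have hy0 : y ^ d ≠ 0 := pow_ne_zero _ (ne_of_gt hy.1)
  simp [hy0]

theorem nw_ae_ne (Y : P d) : ∀ᵐ X : P d, X ≠ Y := by
  have : (volume : Measure (P d)) {Y} = 0 := measure_singleton Y
  rw [ae_iff]
  simpa using this

theorem nw_norm_locallyIntegrable (d : ℕ) : LocallyIntegrable (fun X : P d => (‖X‖ ^ d)⁻¹) := by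
  rw [locallyIntegrable_iff]
  intro k hk
  obtain ⟨r, hr⟩ := hk.isBounded.subset_ball 0
  exact (nw_ball_integrable d r).mono_set hr

/-- local integrability (`|nk| ≤ C ‖X‖^{-d}` in dimension `d+1`) -/
theorem nk_locallyIntegrable (hd : 1 ≤ d) (a : Ix d) : LocallyIntegrable (nk (d := d) a) := by
  obtain ⟨C, hC, hC1, -⟩ := nk_bound d
  have h1 : LocallyIntegrable (fun X : P d => C * (‖X‖ ^ d)⁻¹) := by
    have := (nw_norm_locallyIntegrable d).smul C
    exact this
  refine h1.mono (nk_measurable a).aestronglyMeasurable ?_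
  filter_upwards [nw_ae_ne (0 : P d)] with X hX
  have h2 := hC1 a X hX
  rw [div_eq_mul_inv] at h2
  rw [Real.norm_eq_abs, Real.norm_eq_abs]
  exact h2.trans (le_abs_self _)

theorem nw_dom_integrable {g : P d → ℝ} (hg : Continuous g) (hc : HasCompactSupport g) (Y : P d) (C : ℝ) :
    Integrable (fun X : P d => C * (‖X - Y‖ ^ d)⁻¹ * |g X|) := by
  have hg' : Continuous (fun X : P d => |g (X + Y)|) := by fun_prop
  have hc' : HasCompactSupport (fun X : P d => |g (X + Y)|) := by
    have h1 : HasCompactSupport (fun X : P d => g (X + Y)) := hc.comp_homeomorph (Homeomorph.addRight Y)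
    exact h1.norm
  have h := (nw_norm_locallyIntegrable d).integrable_smul_left_of_hasCompactSupport hg' hc'
  have h2 := (h.comp_sub_right Y).const_mul C
  refine h2.congr (Filter.Eventually.of_forall fun X => ?_)
  simp only [smul_eq_mul, sub_add_cancel]
  ring

theorem nw_tendsto {g : P d → ℝ} (hg : Continuous g) (hc : HasCompactSupport g) (a : Ix d) (Y : P d) :
    Tendsto (fun ε : ℝ => ∫ X, nkr ε a (X - Y) * g X) (𝓝[>] 0) (𝓝 (∫ X, nk a (X - Y) * g X)) := by
  obtain ⟨C, hC, hC1, hC2⟩ := nk_bound d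
  refine tendsto_integral_filter_of_dominated_convergence (fun X => C * (‖X - Y‖ ^ d)⁻¹ * |g X|) ?_ ?_ ?_ ?_
  · filter_upwards [self_mem_nhdsWithin] with ε hε
    have h1 : Continuous (fun X : P d => nkr ε a (X - Y)) :=
      (nkr_contDiff hε a).continuous.comp (continuous_id.sub continuous_const)
    exact (h1.mul hg).aestronglyMeasurable
  · filter_upwards [self_mem_nhdsWithin] with ε hε
    filter_upwards [nw_ae_ne Y] with X hX
    rw [norm_mul, Real.norm_eq_abs, Real.norm_eq_abs]
    refine mul_le_mul_of_nonneg_right ?_ (abs_nonneg _)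
    have := hC2 ε a (X - Y) hε (sub_ne_zero.2 hX)
    rwa [div_eq_mul_inv] at this
  · exact nw_dom_integrable hg hc Y C
  · filter_upwards [nw_ae_ne Y] with X hX
    exact (nkr_tendsto a (sub_ne_zero.2 hX)).mul_const _

/-- integrability against the kernel -/
theorem nw_nk_integrable {g : P d → ℝ} (hg : Continuous g) (hc : HasCompactSupport g) (a : Ix d) (Y : P d) :
    Integrable (fun X : P d => nk a (X - Y) * g X) := by
  obtain ⟨C, hC, hC1, -⟩ := nk_bound d
  refine (nw_dom_integrable hg hc Y C).mono' ?_ ?_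
  · exact (((nk_measurable a).comp (measurable_id.sub_const Y)).mul hg.measurable).aestronglyMeasurable
  · filter_upwards [nw_ae_ne Y] with X hX
    rw [norm_mul, Real.norm_eq_abs, Real.norm_eq_abs]
    refine mul_le_mul_of_nonneg_right ?_ (abs_nonneg _)
    have := hC1 a (X - Y) (sub_ne_zero.2 hX)
    rwa [div_eq_mul_inv] at this

theorem nw_pd_continuous {θ : P d → ℝ} (hθ : ContDiff ℝ 1 θ) (b : Ix d) : Continuous (pd b θ) := by
  have h := hθ.continuous_fderiv one_ne_zero
  exact h.clm_apply continuous_const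

theorem nw_pd_compact {θ : P d → ℝ} (hc : HasCompactSupport θ) (b : Ix d) : HasCompactSupport (pd b θ) := by
  have h := hc.fderiv (𝕜 := ℝ)
  refine h.mono ?_
  intro X hX
  rw [Function.mem_support] at hX ⊢
  intro h0
  apply hX
  simp [pd, h0]

theorem nw_pd_sub (f : P d → ℝ) (b : Ix d) (Y X : P d) :
    pd b (fun Z => f (Z - Y)) X = pd b f (X - Y) := by
  unfold pd
  rw [fderiv_comp_sub]

/-- integration by parts against the regularised kernel -/
theorem nw_ibp {ε : ℝ} (hε : 0 < ε) {θ : P d → ℝ} (hθ : ContDiff ℝ 1 θ) (hc : HasCompactSupport θ) (a b : Ix d)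
    (Y : P d) : ∫ X, nkr ε a (X - Y) * pd b θ X = - ∫ X, pd b (nkr ε a) (X - Y) * θ X := by
  have hn : ContDiff ℝ 1 (fun X : P d => nkr ε a (X - Y)) :=
    ((nkr_contDiff hε a).of_le (by norm_num)).comp (contDiff_id.sub contDiff_const)
  have h := integral_mul_fderiv_eq_neg_fderiv_mul_of_integrable (μ := (volume : Measure (P d)))
    (f := fun X : P d => nkr ε a (X - Y)) (g := θ) (v := eb b) ?_ ?_ ?_ ?_ ?_
  · have h2 : ∀ X : P d, fderiv ℝ (fun X : P d => nkr ε a (X - Y)) X (eb b) = pd b (nkr ε a) (X - Y) := by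
      intro X
      exact nw_pd_sub (nkr ε a) b Y X
    simp only [h2] at h
    exact h
  · have h1 : Continuous (fun X => fderiv ℝ (fun X : P d => nkr ε a (X - Y)) X (eb b)) := nw_pd_continuous hn b
    exact (h1.mul hθ.continuous).integrable_of_hasCompactSupport hc.mul_left
  · exact (hn.continuous.mul (nw_pd_continuous hθ b)).integrable_of_hasCompactSupport (nw_pd_compact hc b).mul_left
  · exact (hn.continuous.mul hθ.continuous).integrable_of_hasCompactSupport hc.mul_left
  · intro X _
    exact (hn.differentiable (by norm_num)).differentiableAt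
  · intro X _
    exact (hθ.differentiable (by norm_num)).differentiableAt

/-- `nk` is weakly curl free: integrate by parts with `nkr ε`, use `nkr_curl`, let `ε → 0`. -/
theorem nk_weak_curl (hd : 1 ≤ d) {θ : P d → ℝ} (hθ : ContDiff ℝ 1 θ) (hc : HasCompactSupport θ) (a b : Ix d) (Y : P d) :
    ∫ X, nk a (X - Y) * pd b θ X = ∫ X, nk b (X - Y) * pd a θ X := by
  have h1 := nw_tendsto (nw_pd_continuous hθ b) (nw_pd_compact hc b) a Y
  have h2 := nw_tendsto (nw_pd_continuous hθ a) (nw_pd_compact hc a) b Y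
  refine tendsto_nhds_unique h1 (h2.congr' ?_)
  filter_upwards [self_mem_nhdsWithin] with ε hε
  rw [nw_ibp hε hθ hc, nw_ibp hε hθ hc]
  congr 2
  funext X
  rw [nkr_curl hε a b]

theorem nw_kr_integrable {ε : ℝ} (hε : 0 < ε) {g : P d → ℝ} (hg : Continuous g) (hc : HasCompactSupport g) (a : Ix d)
    (Y : P d) : Integrable (fun X : P d => nkr ε a (X - Y) * g X) := by
  have h1 : Continuous (fun X : P d => nkr ε a (X - Y)) :=
      (nkr_contDiff hε a).continuous.comp (continuous_id.sub continuous_const)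
  exact (h1.mul hg).integrable_of_hasCompactSupport hc.mul_left

/-- `div nk = δ_0`. -/
theorem nk_weak_div (hd : 1 ≤ d) {θ : P d → ℝ} (hθ : ContDiff ℝ 1 θ) (hc : HasCompactSupport θ) (Y : P d) :
    ∫ X, ∑ a : Ix d, nk a (X - Y) * pd a θ X = - θ Y := by
  rw [integral_finsetSum]
  swap
  · intro a _
    exact nw_nk_integrable (nw_pd_continuous hθ a) (nw_pd_compact hc a) a Y
  have h1 : Tendsto (fun ε : ℝ => ∑ a : Ix d, ∫ X, nkr ε a (X - Y) * pd a θ X) (𝓝[>] 0)
      (𝓝 (∑ a : Ix d, ∫ X, nk a (X - Y) * pd a θ X)) :=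
    tendsto_finsetSum _ fun a _ => nw_tendsto (nw_pd_continuous hθ a) (nw_pd_compact hc a) a Y
  have hbd : ∃ C : ℝ, ∀ X, |θ X| ≤ C := by
    obtain ⟨C, hC⟩ := hc.exists_bound_of_continuous hθ.continuous
    exact ⟨C, fun X => by simpa using hC X⟩
  obtain ⟨C, hC⟩ := hbd
  have h2 := (aid_tendsto (X₀ := Y) hθ.continuous.aestronglyMeasurable hC hθ.continuous.continuousAt).neg
  refine tendsto_nhds_unique h1 (h2.congr' ?_)
  filter_upwards [self_mem_nhdsWithin] with ε hε
  have h3 : ∀ a : Ix d, ∫ X, nkr ε a (X - Y) * pd a θ X = - ∫ X, pd a (nkr ε a) (X - Y) * θ X :=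
    fun a => nw_ibp hε hθ hc a a Y
  rw [Finset.sum_congr rfl fun a _ => h3 a, Finset.sum_neg_distrib, ← integral_finsetSum]
  · congr 2
    funext X
    rw [← Finset.sum_mul, nkr_div hε]
  · intro a _
    have h4 : Continuous (fun X : P d => pd a (nkr ε a) (X - Y)) :=
      (nw_pd_continuous ((nkr_contDiff hε a).of_le (by norm_num)) a).comp (continuous_id.sub continuous_const)
    exact (h4.mul hθ.continuous).integrable_of_hasCompactSupport hc.mul_left

end HG
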