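import Pool.Agent.W_MP_825298_an.Defs

open MeasureTheory Set Filter Topology
open scoped ENNReal NNReal BigOperators

namespace HG
variable {d : ℕ}

/-- centred cubic B-spline, supported in `[-2,2]` -/
noncomputable def bs (s : ℝ) : ℝ :=
  ((max (s + 2) 0) ^ 3 - 4 * (max (s + 1) 0) ^ 3 + 6 * (max s 0) ^ 3 - 4 * (max (s - 1) 0) ^ 3
    + (max (s - 2) 0) ^ 3) / 6

/-- tensor product cubic B-spline -/
noncomputable def pk (y : E d) : ℝ := ∏ i : Fin d, bs (y i)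

/-- one step of the random walk: an element of `{0,..,4}^d` -/
abbrev St (d : ℕ) := Fin d → Fin 5

/-- the corresponding vector in `{-2,..,2}^d` -/
noncomputable def kv (k : St d) : E d := fun i => ((k i : ℕ) : ℝ) - 2

noncomputable def w5 : Fin 5 → ℝ≥0 := ![1 / 16, 4 / 16, 6 / 16, 4 / 16, 1 / 16]

/-- the probability of a step -/
noncomputable def wt (k : St d) : ℝ≥0 := ∏ i : Fin d, w5 (k i)

/-- the averages `m(x,r) = ∫ p(y) h(x+ry) dy` -/
noncomputable def avg {V : Type*} [NormedAddCommGroup V] [NormedSpace ℝ V] (h : E d → V) (x : E d) (r : ℝ) : V :=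
  ∫ y : E d, pk y • h (x + r • y)

/-- the two-scale (refinement) equation -/
def RefEq {V : Type*} [NormedAddCommGroup V] [NormedSpace ℝ V] (m : E d → ℝ → V) : Prop :=
  ∀ (x : E d) (r : ℝ), 0 < r → m x r = ∑ k : St d, (wt k : ℝ) • m (x + (r / 2) • kv k) (r / 2)

/-- prepend a step -/
def consω (k : St d) (ω : ℕ → St d) : ℕ → St d
  | 0 => k
  | n + 1 => ω n

/-- follow `ω` for `l` steps, then `ω'` -/
def splice (l : ℕ) (ω ω' : ℕ → St d) : ℕ → St d := fun n => if n < l then ω n else ω' (n - l)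

/-- expectation over `n` independent steps of a functional of the step sequence (the steps after the `n`-th are `0`) -/
noncomputable def Ex {R : Type*} [AddCommMonoid R] [Module ℝ≥0 R] : ℕ → ((ℕ → St d) → R) → R
  | 0, f => f (fun _ => 0)
  | n + 1, f => ∑ k : St d, wt k • Ex n (fun ω => f (consω k ω))

/-- the normalised position after `l` steps: the path from `(x,r)` is at `x + r • Zp l ω` at scale `r / 2^l` -/
noncomputable def Zp (l : ℕ) (ω : ℕ → St d) : E d := ∑ i ∈ Finset.range l, ((2 : ℝ) ^ (i + 1))⁻¹ • kv (ω i)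

/-- `f` depends on the first `l` steps only -/
def Dep {R : Type*} (l : ℕ) (f : (ℕ → St d) → R) : Prop :=
  ∀ ω ω' : ℕ → St d, (∀ i < l, ω i = ω' i) → f ω = f ω'

/-- misalignment -/
noncomputable def gamE {V : Type*} [NormedAddCommGroup V] [NormedSpace ℝ V] (m : E d → ℝ → V) (x : E d) (r : ℝ) : ℝ≥0∞ :=
  (∑ k : St d, (wt k : ℝ≥0∞) * ‖m (x + (r / 2) • kv k) (r / 2)‖ₑ) - ‖m x r‖ₑ

/-- tail kernel `ρ (ρ+‖z‖)^{-(d+1)}` -/
noncomputable def kap (ρ : ℝ) (z : E d) : ℝ := ρ / (ρ + ‖z‖) ^ (d + 1)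

/-! path functionals -/

/-- value of `‖m‖` along the path from `(x,r)` -/
noncomputable def av {V : Type*} [NormedAddCommGroup V] [NormedSpace ℝ V] (m : E d → ℝ → V) (x : E d) (r : ℝ)
    (ω : ℕ → St d) (l : ℕ) : ℝ≥0∞ := ‖m (x + r • Zp l ω) (r / 2 ^ l)‖ₑ

/-- value of a function `W` of position and scale along the path from `(x,r)` -/
noncomputable def wv (W : E d → ℝ → ℝ≥0∞) (x : E d) (r : ℝ) (ω : ℕ → St d) (l : ℕ) : ℝ≥0∞ :=
  W (x + r • Zp l ω) (r / 2 ^ l)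

/-! records of a sequence `a` (with companion `w`) -/

/-- good indices -/
def Good (κ : ℝ≥0∞) (a w : ℕ → ℝ≥0∞) (l : ℕ) : Prop := κ * w l ≤ a l

open Classical in
/-- record value before time `l`, initial value `v0` -/
noncomputable def rv (κ : ℝ≥0∞) (a w : ℕ → ℝ≥0∞) (v0 : ℝ≥0∞) : ℕ → ℝ≥0∞
  | 0 => v0
  | l + 1 => if Good κ a w l ∧ 2 * rv κ a w v0 l < a l then a l else rv κ a w v0 l

/-- `l` is a record -/
def Rec (κ : ℝ≥0∞) (a w : ℕ → ℝ≥0∞) (v0 : ℝ≥0∞) (l : ℕ) : Prop :=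
  Good κ a w l ∧ 2 * rv κ a w v0 l < a l

open Classical in
/-- number of records before time `l` -/
noncomputable def cnt (κ : ℝ≥0∞) (a w : ℕ → ℝ≥0∞) (v0 : ℝ≥0∞) : ℕ → ℕ
  | 0 => 0
  | l + 1 => cnt κ a w v0 l + if Rec κ a w v0 l then 1 else 0

/-- indicator of a proposition -/
noncomputable def ind (p : Prop) : ℝ≥0∞ := by classical exact if p then 1 else 0

/-- hitting: good and `> A a_0` -/
def Hit (κ A : ℝ≥0∞) (a w : ℕ → ℝ≥0∞) (a0 : ℝ≥0∞) (l : ℕ) : Prop := Good κ a w l ∧ A * a0 < a l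

/-- first index with a property -/
def FirstHit (p : ℕ → Prop) (l : ℕ) : Prop := p l ∧ ∀ j < l, ¬ p j

/-- left side functional of the KL lemma: value at the first hit `σ ≤ N`, provided no `j < σ` has `κ w_j > A a_0` -/
noncomputable def K1 (κ A : ℝ≥0∞) (a w : ℕ → ℝ≥0∞) (N : ℕ) : ℝ≥0∞ :=
  ∑ l ∈ Finset.range (N + 1), ind (FirstHit (Hit κ A a w (a 0)) l ∧ ∀ j < l, κ * w j ≤ A * a 0) * a l

/-- misalignment before `σ + J` -/
noncomputable def K2 (κ A : ℝ≥0∞) (a w g : ℕ → ℝ≥0∞) (N J : ℕ) : ℝ≥0∞ :=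
  ∑ l ∈ Finset.range (N + J), ind (∀ j, j + J ≤ l → ¬ Hit κ A a w (a 0) j) * g l

/-- the KL hypothesis at all scales `≤ r0` -/
def KLH {V : Type*} [NormedAddCommGroup V] [NormedSpace ℝ V] (κ A C1 : ℝ≥0) (J : ℕ) (r0 : ℝ)
    (m : E d → ℝ → V) (W : E d → ℝ → ℝ≥0∞) : Prop :=
  ∀ (x : E d) (r : ℝ) (N : ℕ), 0 < r → r ≤ r0 → (κ : ℝ≥0∞) * W x r ≤ ‖m x r‖ₑ → m x r ≠ 0 →
    Ex N (fun ω : ℕ → St d => K1 κ A (av m x r ω) (wv W x r ω) N)
      ≤ ‖m x r‖ₑ / 2 + C1 * (Ex (N + J) (fun ω : ℕ → St d => K2 κ A (av m x r ω) (wv W x r ω) (wv (gamE m) x r ω) N J)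
        + Ex J (fun ω : ℕ → St d => ∑ i ∈ Finset.range (J + 1), gamE m (x + (8 * r) • Zp i ω) (8 * r / 2 ^ i)))

/-- the tail bound hypothesis -/
def TBH {V : Type*} [NormedAddCommGroup V] [NormedSpace ℝ V] (CT : ℝ≥0) (r0 : ℝ)
    (m : E d → ℝ → V) (W : E d → ℝ → ℝ≥0∞) : Prop :=
  ∀ (x : E d) (r : ℝ), 0 < r → r ≤ r0 → W x r ≤ CT * ∑' j : ℕ, ENNReal.ofReal ((2 : ℝ) ^ (-((j : ℝ) / 4))) *
    ∫⁻ z : E d, ENNReal.ofReal (kap r (x - z)) * ‖m z (r / 2 ^ j)‖ₑ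

end HG
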