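import Pool.Agent.W_MP_825298_an.PathDefs

open MeasureTheory Set Filter Topology
open scoped ENNReal NNReal BigOperators

namespace HG
variable {d : ℕ}

/-! pathwise facts on records of a sequence `a : ℕ → ℝ≥0∞` with finite values -/

theorem pw0_ind_true {p : Prop} (h : p) : ind p = 1 := by
  simp [ind, h]

theorem pw0_ind_false {p : Prop} (h : ¬ p) : ind p = 0 := by
  simp [ind, h]

theorem pw0_rv_succ_true {κ : ℝ≥0∞} {a w : ℕ → ℝ≥0∞} {v0 : ℝ≥0∞} {l : ℕ} (h : Rec κ a w v0 l) :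
    rv κ a w v0 (l + 1) = a l := by
  rw [rv]
  exact if_pos h

theorem pw0_rv_succ_false {κ : ℝ≥0∞} {a w : ℕ → ℝ≥0∞} {v0 : ℝ≥0∞} {l : ℕ} (h : ¬ Rec κ a w v0 l) :
    rv κ a w v0 (l + 1) = rv κ a w v0 l := by
  rw [rv]
  exact if_neg h

theorem pw0_cnt_succ_true {κ : ℝ≥0∞} {a w : ℕ → ℝ≥0∞} {v0 : ℝ≥0∞} {l : ℕ} (h : Rec κ a w v0 l) :
    cnt κ a w v0 (l + 1) = cnt κ a w v0 l + 1 := by
  rw [cnt, if_pos h]

theorem pw0_cnt_succ_false {κ : ℝ≥0∞} {a w : ℕ → ℝ≥0∞} {v0 : ℝ≥0∞} {l : ℕ} (h : ¬ Rec κ a w v0 l) :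
    cnt κ a w v0 (l + 1) = cnt κ a w v0 l := by
  rw [cnt, if_neg h, add_zero]

theorem pw0_cnt_mono {κ : ℝ≥0∞} {a w : ℕ → ℝ≥0∞} {v0 : ℝ≥0∞} : Monotone (cnt κ a w v0) := by
  refine monotone_nat_of_le_succ fun n => ?_
  by_cases h : Rec κ a w v0 n
  · rw [pw0_cnt_succ_true h]; exact Nat.le_succ _
  · rw [pw0_cnt_succ_false h]

/-- record values at least double: `∑_{rec} a ≤ 2 sup a` -/
theorem rec_sum_le (κ : ℝ≥0∞) (a w : ℕ → ℝ≥0∞) (N : ℕ) (S : ℝ≥0∞) (hS : ∀ l ≤ N, a l ≤ S) :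
    ∑ l ∈ Finset.range (N + 1), ind (Rec κ a w 0 l) * a l ≤ 2 * S := by
  have h1 : ∀ n : ℕ, ∑ l ∈ Finset.range n, ind (Rec κ a w 0 l) * a l ≤ 2 * rv κ a w 0 n := by
    intro n
    induction n with
    | zero => simp
    | succ n ih =>
      rw [Finset.sum_range_succ]
      by_cases h : Rec κ a w 0 n
      · rw [pw0_ind_true h, pw0_rv_succ_true h, one_mul, two_mul]
        exact add_le_add (ih.trans h.2.le) le_rfl
      · rw [pw0_ind_false h, pw0_rv_succ_false h, zero_mul, add_zero]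
        exact ih
  have h2 : ∀ n : ℕ, n ≤ N + 1 → rv κ a w 0 n ≤ S := by
    intro n
    induction n with
    | zero => intro _; simp [rv]
    | succ n ih =>
      intro hn
      by_cases h : Rec κ a w 0 n
      · rw [pw0_rv_succ_true h]
        exact hS n (by omega)
      · rw [pw0_rv_succ_false h]
        exact ih (by omega)
  exact (h1 (N + 1)).trans (mul_le_mul_right (h2 (N + 1) le_rfl) 2)

/-- every value is controlled by the records and by `w` -/
theorem le_rec_sum (κ : ℝ≥0∞) (a w : ℕ → ℝ≥0∞) (N : ℕ) (Sw : ℝ≥0∞) (hS : ∀ l ≤ N, w l ≤ Sw) {l : ℕ} (hl : l ≤ N) :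
    a l ≤ 2 * (∑ j ∈ Finset.range (N + 1), ind (Rec κ a w 0 j) * a j) + κ * Sw := by
  have h1 : ∀ n : ℕ, rv κ a w 0 n ≤ ∑ j ∈ Finset.range n, ind (Rec κ a w 0 j) * a j := by
    intro n
    induction n with
    | zero => simp [rv]
    | succ n ih =>
      rw [Finset.sum_range_succ]
      by_cases h : Rec κ a w 0 n
      · rw [pw0_ind_true h, pw0_rv_succ_true h, one_mul]
        exact le_add_self
      · rw [pw0_ind_false h, pw0_rv_succ_false h, zero_mul, add_zero]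
        exact ih
  have hmono : ∑ j ∈ Finset.range (l + 1), ind (Rec κ a w 0 j) * a j
      ≤ ∑ j ∈ Finset.range (N + 1), ind (Rec κ a w 0 j) * a j :=
    Finset.sum_le_sum_of_subset (Finset.range_mono (by omega))
  by_cases hg : Good κ a w l
  · by_cases h : Rec κ a w 0 l
    · have h2 : a l ≤ ∑ j ∈ Finset.range (l + 1), ind (Rec κ a w 0 j) * a j := by
        rw [Finset.sum_range_succ, pw0_ind_true h, one_mul]
        exact le_add_self
      calc a l ≤ ∑ j ∈ Finset.range (N + 1), ind (Rec κ a w 0 j) * a j := h2.trans hmono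
        _ ≤ 2 * ∑ j ∈ Finset.range (N + 1), ind (Rec κ a w 0 j) * a j := by
            rw [two_mul]; exact le_self_add
        _ ≤ _ := le_self_add
    · have h2 : a l ≤ 2 * rv κ a w 0 l := by
        by_contra h3
        exact h ⟨hg, not_le.mp h3⟩
      have h3 : rv κ a w 0 l ≤ ∑ j ∈ Finset.range (N + 1), ind (Rec κ a w 0 j) * a j :=
        (h1 l).trans (Finset.sum_le_sum_of_subset (Finset.range_mono (by omega)))
      exact (h2.trans (mul_le_mul_right h3 2)).trans le_self_add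
  · have h2 : a l ≤ κ * w l := (not_le.mp hg).le
    exact (h2.trans (mul_le_mul_right (hS l hl) κ)).trans le_add_self

theorem pw0_exists_cnt {κ : ℝ≥0∞} {a w : ℕ → ℝ≥0∞} {v0 : ℝ≥0∞} (n c : ℕ) (hc : c < cnt κ a w v0 n) :
    ∃ l < n, Rec κ a w v0 l ∧ cnt κ a w v0 l = c := by
  induction n with
  | zero => simp [cnt] at hc
  | succ n ih =>
    by_cases h : Rec κ a w v0 n
    · rw [pw0_cnt_succ_true h] at hc
      rcases Nat.lt_succ_iff_lt_or_eq.mp hc with h1 | h1
      · obtain ⟨l, hl, h2⟩ := ih h1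
        exact ⟨l, by omega, h2⟩
      · exact ⟨n, by omega, h, h1.symm⟩
    · rw [pw0_cnt_succ_false h] at hc
      obtain ⟨l, hl, h2⟩ := ih hc
      exact ⟨l, by omega, h2⟩

/-- split the records into the first `L` ones and those which have an `L`-th predecessor -/
theorem rec_split (κ : ℝ≥0∞) (a w : ℕ → ℝ≥0∞) (N L : ℕ) (hL : 1 ≤ L) :
    ∑ l ∈ Finset.range (N + 1), ind (Rec κ a w 0 l) * a l
      ≤ (∑ i ∈ Finset.range L, ∑ l ∈ Finset.range (N + 1), ind (Rec κ a w 0 l ∧ cnt κ a w 0 l = i) * a l)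
      + ∑ l ∈ Finset.range (N + 1), ind (Rec κ a w 0 l) *
          ∑ l' ∈ Finset.range (N + 1), ind (Rec κ a w 0 l' ∧ cnt κ a w 0 l' = cnt κ a w 0 l + L) * a l' := by
  rw [Finset.sum_comm]
  have h2 : ∑ l ∈ Finset.range (N + 1), ind (Rec κ a w 0 l) *
          ∑ l' ∈ Finset.range (N + 1), ind (Rec κ a w 0 l' ∧ cnt κ a w 0 l' = cnt κ a w 0 l + L) * a l'
      = ∑ l' ∈ Finset.range (N + 1), ∑ l ∈ Finset.range (N + 1), ind (Rec κ a w 0 l) *
          (ind (Rec κ a w 0 l' ∧ cnt κ a w 0 l' = cnt κ a w 0 l + L) * a l') := by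
    rw [Finset.sum_comm]
    exact Finset.sum_congr rfl fun l _ => by rw [Finset.mul_sum]
  rw [h2, ← Finset.sum_add_distrib]
  refine Finset.sum_le_sum fun l' hl' => ?_
  by_cases h : Rec κ a w 0 l'
  · rw [pw0_ind_true h, one_mul]
    rcases lt_or_ge (cnt κ a w 0 l') L with h3 | h3
    · refine le_trans ?_ le_self_add
      refine le_trans ?_ (Finset.single_le_sum (fun i _ => zero_le) (Finset.mem_range.mpr h3))
      rw [pw0_ind_true ⟨h, rfl⟩, one_mul]
    · refine le_trans ?_ le_add_self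
      obtain ⟨l, hl, hr, hcl⟩ := pw0_exists_cnt (κ := κ) (a := a) (w := w) (v0 := 0) l' (cnt κ a w 0 l' - L)
        (by omega)
      have hlm : l ∈ Finset.range (N + 1) := by
        rw [Finset.mem_range] at hl' ⊢
        omega
      refine le_trans ?_ (Finset.single_le_sum (fun i _ => zero_le) hlm)
      rw [pw0_ind_true hr, pw0_ind_true ⟨h, by omega⟩, one_mul, one_mul]
  · rw [pw0_ind_false h, zero_mul]
    exact zero_le

theorem pw0_restart {κ : ℝ≥0∞} {a w : ℕ → ℝ≥0∞} {v0 : ℝ≥0∞} {l : ℕ} (hrec : Rec κ a w v0 l) :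
    (¬ Rec κ (fun i => a (l + i)) (fun i => w (l + i)) (a l) 0) ∧
    ∀ j : ℕ, rv κ (fun i => a (l + i)) (fun i => w (l + i)) (a l) (j + 1) = rv κ a w v0 (l + (j + 1)) ∧
      (Rec κ (fun i => a (l + i)) (fun i => w (l + i)) (a l) (j + 1) ↔ Rec κ a w v0 (l + (j + 1))) ∧
      cnt κ (fun i => a (l + i)) (fun i => w (l + i)) (a l) (j + 1) + (cnt κ a w v0 l + 1)
        = cnt κ a w v0 (l + (j + 1)) := by
  have h0 : ¬ Rec κ (fun i => a (l + i)) (fun i => w (l + i)) (a l) 0 := by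
    rintro ⟨_, h⟩
    rw [rv] at h
    have h' : 2 * a l < a l := h
    rw [two_mul] at h'
    exact absurd h' (not_lt.mpr le_self_add)
  refine ⟨h0, ?_⟩
  have key : ∀ j : ℕ, rv κ (fun i => a (l + i)) (fun i => w (l + i)) (a l) (j + 1) = rv κ a w v0 (l + (j + 1)) →
      (Rec κ (fun i => a (l + i)) (fun i => w (l + i)) (a l) (j + 1) ↔ Rec κ a w v0 (l + (j + 1))) := by
    intro j h1
    unfold Rec Good
    rw [h1]
  intro j
  induction j with
  | zero =>
    have h1 : rv κ (fun i => a (l + i)) (fun i => w (l + i)) (a l) (0 + 1) = rv κ a w v0 (l + (0 + 1)) := by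
      rw [pw0_rv_succ_false h0, rv]
      exact (pw0_rv_succ_true hrec).symm
    refine ⟨h1, key 0 h1, ?_⟩
    rw [pw0_cnt_succ_false h0, cnt, zero_add]
    exact (pw0_cnt_succ_true hrec).symm
  | succ j ih =>
    obtain ⟨ih1, ih2, ih3⟩ := ih
    by_cases h : Rec κ a w v0 (l + (j + 1))
    · have h' := ih2.mpr h
      have h1 : rv κ (fun i => a (l + i)) (fun i => w (l + i)) (a l) (j + 1 + 1)
          = rv κ a w v0 (l + (j + 1 + 1)) := by
        rw [pw0_rv_succ_true h']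
        exact (pw0_rv_succ_true h).symm
      refine ⟨h1, key (j + 1) h1, ?_⟩
      rw [pw0_cnt_succ_true h']
      have h2 : cnt κ a w v0 (l + (j + 1 + 1)) = cnt κ a w v0 (l + (j + 1)) + 1 := pw0_cnt_succ_true h
      rw [h2, ← ih3]
      omega
    · have h' : ¬ Rec κ (fun i => a (l + i)) (fun i => w (l + i)) (a l) (j + 1) := fun h3 => h (ih2.mp h3)
      have h1 : rv κ (fun i => a (l + i)) (fun i => w (l + i)) (a l) (j + 1 + 1)
          = rv κ a w v0 (l + (j + 1 + 1)) := by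
        rw [pw0_rv_succ_false h', ih1]
        exact (pw0_rv_succ_false h).symm
      refine ⟨h1, key (j + 1) h1, ?_⟩
      rw [pw0_cnt_succ_false h']
      have h2 : cnt κ a w v0 (l + (j + 1 + 1)) = cnt κ a w v0 (l + (j + 1)) := pw0_cnt_succ_false h
      rw [h2, ← ih3]

/-- restart at a record `l` with `0 < a l < ⊤`: the shifted sequences with initial value `a l` have the same records after `l` -/
theorem rec_restart (κ : ℝ≥0∞) (a w : ℕ → ℝ≥0∞) {l : ℕ} (hrec : Rec κ a w 0 l) (h0 : a l ≠ ⊤) (N L : ℕ)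
    (hl : l ≤ N) (hL : 1 ≤ L) :
    ∑ l' ∈ Finset.range (N + 1), ind (Rec κ a w 0 l' ∧ cnt κ a w 0 l' = cnt κ a w 0 l + L) * a l'
      = ∑ j ∈ Finset.range (N - l + 1), ind (Rec κ (fun i => a (l + i)) (fun i => w (l + i)) (a l) j ∧
          cnt κ (fun i => a (l + i)) (fun i => w (l + i)) (a l) j + 1 = L) * a (l + j) := by
  have _ := h0
  obtain ⟨hr0, hr⟩ := pw0_restart hrec
  have hN : N + 1 = l + (N - l + 1) := by omega
  rw [hN, Finset.sum_range_add]
  have h1 : ∑ l' ∈ Finset.range l, ind (Rec κ a w 0 l' ∧ cnt κ a w 0 l' = cnt κ a w 0 l + L) * a l' = 0 := by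
    refine Finset.sum_eq_zero fun l' hl' => ?_
    rw [Finset.mem_range] at hl'
    have h2 : cnt κ a w 0 l' ≤ cnt κ a w 0 l := pw0_cnt_mono hl'.le
    rw [pw0_ind_false (fun h => by omega), zero_mul]
  rw [h1, zero_add]
  refine Finset.sum_congr rfl fun j _ => ?_
  rcases j with _ | j
  · rw [pw0_ind_false, zero_mul, pw0_ind_false, zero_mul]
    · exact fun h => hr0 h.1
    · intro h
      have h5 := h.2
      rw [Nat.add_zero] at h5
      omega
  · obtain ⟨_, h6, h7⟩ := hr j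
    have h8 : (Rec κ a w 0 (l + (j + 1)) ∧ cnt κ a w 0 (l + (j + 1)) = cnt κ a w 0 l + L) ↔
        (Rec κ (fun i => a (l + i)) (fun i => w (l + i)) (a l) (j + 1) ∧
          cnt κ (fun i => a (l + i)) (fun i => w (l + i)) (a l) (j + 1) + 1 = L) := by
      rw [h6, ← h7]
      constructor
      · rintro ⟨h9, h10⟩
        exact ⟨h9, by omega⟩
      · rintro ⟨h9, h10⟩
        exact ⟨h9, by omega⟩
    rw [propext h8]

/-- the `L`-th record after the start is a hit of level `2^L` -/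
theorem rec_hit (κ : ℝ≥0∞) (a w : ℕ → ℝ≥0∞) (h0 : a 0 ≠ 0) (h1 : a 0 ≠ ⊤) {L j : ℕ} (hL : 1 ≤ L)
    (hrec : Rec κ a w (a 0) j) (hc : cnt κ a w (a 0) j + 1 = L) : Hit κ (2 ^ L) a w (a 0) j := by
  have _ := h0
  have _ := h1
  have _ := hL
  have hind : ∀ n : ℕ, 2 ^ (cnt κ a w (a 0) n) * a 0 ≤ rv κ a w (a 0) n := by
    intro n
    induction n with
    | zero => simp [cnt, rv]
    | succ n ih =>
      by_cases h : Rec κ a w (a 0) n
      · rw [pw0_cnt_succ_true h, pw0_rv_succ_true h, pow_succ, mul_comm (2 ^ _) 2, mul_assoc]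
        exact (mul_le_mul_right ih 2).trans h.2.le
      · rw [pw0_cnt_succ_false h, pw0_rv_succ_false h]
        exact ih
  refine ⟨hrec.1, ?_⟩
  rw [← hc, pow_succ, mul_comm (2 ^ _) 2, mul_assoc]
  exact (mul_le_mul_right (hind j) 2).trans_lt hrec.2

end HG
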