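import Pool.Agent.W_MP_825298_an.RedDefs

open MeasureTheory Set Filter Topology
open scoped ENNReal NNReal BigOperators

namespace HG
variable {d : ℕ}

/-- Geometry: points above the graph near the base point are in the box
(`‖X.1-x0‖ ≤ 2 r1 ≤ ρ/2`, `X.2 - φ X.1 ≤ (1+M) 2 r1 = ρ/2`, `r1 = ρ/(4(1+M))`). -/
theorem near_mem_bx {M : ℝ≥0} {φ : E d → ℝ} (hφ : LipschitzWith M φ) {x0 : E d} {ρ : ℝ} (hρ : 0 < ρ)
    {X : P d} (hX : X ∈ above φ) (hn : ‖X - gpt φ x0‖ ≤ 2 * (ρ / (4 * (1 + M)))) :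
    X ∈ bx φ x0 ρ ∧ ‖X.1 - x0‖ ≤ ρ / 2 ∧ X.2 - φ X.1 ≤ ρ / 2 := by
  have hM : (0 : ℝ) ≤ M := M.2
  have h1 : ‖X.1 - x0‖ ≤ 2 * (ρ / (4 * (1 + M))) := le_trans (norm_fst_le (X - gpt φ x0)) hn
  have h2 : |X.2 - φ x0| ≤ 2 * (ρ / (4 * (1 + M))) := le_trans (norm_snd_le (X - gpt φ x0)) hn
  have h3 : |φ x0 - φ X.1| ≤ M * ‖X.1 - x0‖ := by
    have := hφ.dist_le_mul x0 X.1
    rw [Real.dist_eq, dist_comm, dist_eq_norm] at this
    exact this
  have h4 : 2 * (ρ / (4 * (1 + M))) * (1 + M) = ρ / 2 := by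
    have : (1 + (M : ℝ)) ≠ 0 := by positivity
    field_simp
    ring
  have h5 : 0 ≤ 2 * (ρ / (4 * (1 + (M : ℝ)))) := by positivity
  have h6 : 2 * (ρ / (4 * (1 + (M : ℝ)))) ≤ ρ / 2 := by
    rw [← h4]
    nlinarith
  have h7 : X.2 - φ X.1 ≤ ρ / 2 := by
    have h8 := (abs_le.1 h2).2
    have h9 := (abs_le.1 h3).2
    have h10 : (M : ℝ) * ‖X.1 - x0‖ ≤ M * (2 * (ρ / (4 * (1 + M)))) :=
      mul_le_mul_of_nonneg_left h1 hM
    have h11 : 2 * (ρ / (4 * (1 + (M : ℝ)))) + M * (2 * (ρ / (4 * (1 + M)))) = ρ / 2 := by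
      rw [← h4]; ring
    linarith
  have hX' : φ X.1 < X.2 := hX
  exact ⟨⟨by linarith, hX', by linarith⟩, by linarith, h7⟩

theorem Red1_pd_mul {f g : P d → ℝ} {X : P d} (hf : DifferentiableAt ℝ f X)
    (hg : DifferentiableAt ℝ g X) (b : Ix d) :
    pd b (fun X => f X * g X) X = f X * pd b g X + pd b f X * g X := by
  unfold pd
  rw [fderiv_fun_mul hf hg]
  simp [mul_comm]

theorem Red1_pd_add {f g : P d → ℝ} {X : P d} (hf : DifferentiableAt ℝ f X)
    (hg : DifferentiableAt ℝ g X) (b : Ix d) :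
    pd b (fun X => f X + g X) X = pd b f X + pd b g X := by
  unfold pd
  rw [fderiv_fun_add hf hg]
  rfl

theorem Red1_pd_cd {f : P d → ℝ} {X : P d} (hf : ContDiffAt ℝ 2 f X) (a : Ix d) :
    ContDiffAt ℝ 1 (pd a f) X := by
  have h1 : ContDiffAt ℝ 1 (fderiv ℝ f) X := hf.fderiv_right (by norm_num)
  exact h1.clm_apply contDiffAt_const

theorem Red1_isOpen_bx {M : ℝ≥0} {φ : E d → ℝ} (hφ : LipschitzWith M φ) (x0 : E d) (ρ : ℝ) :
    IsOpen (bx φ x0 ρ) := by
  have hc := hφ.continuous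
  have h1 : IsOpen {X : P d | ‖X.1 - x0‖ < ρ} :=
    isOpen_lt (continuous_fst.sub continuous_const).norm continuous_const
  have h2 : IsOpen {X : P d | φ X.1 < X.2} := isOpen_lt (hc.comp continuous_fst) continuous_snd
  have h3 : IsOpen {X : P d | X.2 < φ X.1 + ρ} :=
    isOpen_lt continuous_snd ((hc.comp continuous_fst).add continuous_const)
  exact h1.inter (h2.inter h3)

/-- the formulas for the derivatives of a product -/
theorem Red1_formulas {χ u : P d → ℝ} {X : P d} (hχ : ContDiff ℝ 2 χ) (hu : ContDiffAt ℝ 2 u X) :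
    (∀ a : Ix d, pd a (fun Y => χ Y * u Y) X = χ X * pd a u X + pd a χ X * u X) ∧
    lap (fun Y => χ Y * u Y) X =
      χ X * lap u X + 2 * (∑ a : Ix d, pd a χ X * pd a u X) + lap χ X * u X := by
  have hev : ∀ᶠ Y in 𝓝 X, ContDiffAt ℝ 2 u Y := hu.eventually (by norm_num)
  have h1 : ∀ᶠ Y in 𝓝 X, ∀ a : Ix d, pd a (fun Y => χ Y * u Y) Y =
      χ Y * pd a u Y + pd a χ Y * u Y := by
    filter_upwards [hev] with Y hY a
    exact Red1_pd_mul (hχ.differentiable (by norm_num) Y) (hY.differentiableAt (by norm_num)) a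
  refine ⟨h1.self_of_nhds, ?_⟩
  unfold lap
  have h2 : ∀ a : Ix d, pd a (pd a (fun Y => χ Y * u Y)) X =
      χ X * pd a (pd a u) X + 2 * (pd a χ X * pd a u X) + pd a (pd a χ) X * u X := by
    intro a
    have h3 : pd a (fun Y => χ Y * u Y) =ᶠ[𝓝 X] fun Y => χ Y * pd a u Y + pd a χ Y * u Y := by
      filter_upwards [h1] with Y hY
      exact hY a
    have hχd : DifferentiableAt ℝ χ X := hχ.differentiable (by norm_num) X
    have hud : DifferentiableAt ℝ u X := hu.differentiableAt (by norm_num)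
    have hχp : DifferentiableAt ℝ (pd a χ) X :=
      (Red1_pd_cd hχ.contDiffAt a).differentiableAt (by norm_num)
    have hup : DifferentiableAt ℝ (pd a u) X := (Red1_pd_cd hu a).differentiableAt (by norm_num)
    have h4 : pd a (pd a (fun Y => χ Y * u Y)) X =
        pd a (fun Y => χ Y * pd a u Y + pd a χ Y * u Y) X := by
      unfold pd at h3 ⊢
      rw [h3.fderiv_eq]
    have h5 := Red1_pd_add (f := fun Y => χ Y * pd a u Y) (g := fun Y => pd a χ Y * u Y)
      (hχd.mul hup) (hχp.mul hud) a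
    rw [h4, h5, Red1_pd_mul hχd hup, Red1_pd_mul hχp hud]
    ring
  rw [Finset.sum_congr rfl fun a _ => h2 a, Finset.sum_add_distrib, Finset.sum_add_distrib,
    ← Finset.mul_sum, ← Finset.mul_sum, ← Finset.sum_mul]

/-- Cutoff. Let `χ` be a smooth bump function on `P d` (`ContDiffBump` exists on finite dimensional spaces), `χ = 1` on
`closedBall (gpt φ x0) r1`, supported in `closedBall (gpt φ x0) (2 r1)`; `w = χ u`.
`above φ ⊆ bx ∪ {2 r1 < ‖X - gpt‖}` (open sets) by `near_mem_bx`, on the second one `w = 0`.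
On the box `pd a w = u pd a χ + χ pd a u`, `lap w = u lap χ + 2 ∑ pd a χ pd a u` (as `lap u = 0`); the derivatives of `χ` are bounded.
(For `‖X - gpt‖ ≤ 2 r1` the point is in the box, so these formulas hold.) -/
theorem cut_exists {M : ℝ≥0} {φ : E d → ℝ} (hφ : LipschitzWith M φ) (x0 : E d) {ρ : ℝ} (hρ : 0 < ρ)
    {u : P d → ℝ} (hcd : ContDiffOn ℝ 2 u (bx φ x0 ρ)) (hh : ∀ X ∈ bx φ x0 ρ, lap u X = 0) :
    ∃ Cc : ℝ, 0 ≤ Cc ∧ ∃ w : P d → ℝ, CutP φ x0 (ρ / (4 * (1 + M))) Cc u w := by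
  set r1 : ℝ := ρ / (4 * (1 + M)) with hr1
  have hr1pos : 0 < r1 := by
    have : (0 : ℝ) ≤ M := M.2
    positivity
  let χ : ContDiffBump (gpt φ x0 : P d) :=
    { rIn := r1, rOut := 2 * r1, rIn_pos := hr1pos, rIn_lt_rOut := by linarith }
  have hχ : ContDiff ℝ 2 (χ : P d → ℝ) := χ.contDiff
  have hχ0 : ∀ X : P d, 2 * r1 ≤ ‖X - gpt φ x0‖ → χ X = 0 := by
    intro X hX
    exact χ.zero_of_le_dist (by rw [dist_eq_norm]; exact hX)
  have hχ1 : ∀ X : P d, ‖X - gpt φ x0‖ ≤ r1 → χ X = 1 := by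
    intro X hX
    exact χ.one_of_mem_closedBall (by rw [Metric.mem_closedBall, dist_eq_norm]; exact hX)
  have hK : IsCompact (Metric.closedBall (gpt φ x0 : P d) (2 * r1)) := isCompact_closedBall _ _
  -- bounds for the derivatives
  have hpc : ∀ a : Ix d, Continuous (pd a (χ : P d → ℝ)) := by
    intro a
    have h1 : ContDiff ℝ 1 (fderiv ℝ (χ : P d → ℝ)) := hχ.fderiv_right (by norm_num)
    exact (h1.clm_apply contDiff_const).continuous
  have hlc : Continuous (lap (χ : P d → ℝ)) := by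
    unfold lap
    refine continuous_finsetSum _ fun a _ => ?_
    have h0 : ContDiff ℝ 1 (pd a (χ : P d → ℝ)) := by
      have h1 : ContDiff ℝ 1 (fderiv ℝ (χ : P d → ℝ)) := hχ.fderiv_right (by norm_num)
      exact h1.clm_apply contDiff_const
    have h1 : ContDiff ℝ 0 (fderiv ℝ (pd a (χ : P d → ℝ))) := h0.fderiv_right (by norm_num)
    exact (h1.clm_apply contDiff_const).continuous
  have hB1 : ∀ a : Ix d, ∃ C, ∀ X ∈ Metric.closedBall (gpt φ x0 : P d) (2 * r1),
      ‖pd a (χ : P d → ℝ) X‖ ≤ C := fun a => hK.exists_bound_of_continuousOn (hpc a).continuousOn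
  choose C1 hC1 using hB1
  obtain ⟨C2, hC2⟩ := hK.exists_bound_of_continuousOn hlc.continuousOn
  have hcen : (gpt φ x0 : P d) ∈ Metric.closedBall (gpt φ x0 : P d) (2 * r1) :=
    Metric.mem_closedBall_self (by linarith)
  have hC1' : ∀ a, 0 ≤ C1 a := fun a => (norm_nonneg _).trans (hC1 a _ hcen)
  have hC2' : 0 ≤ C2 := (norm_nonneg _).trans (hC2 _ hcen)
  have hS : 0 ≤ ∑ a, C1 a := Finset.sum_nonneg fun a _ => hC1' a
  have hle1 : ∀ a, C1 a ≤ ∑ a, C1 a := fun a =>
    Finset.single_le_sum (fun i _ => hC1' i) (Finset.mem_univ a)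
  refine ⟨1 + 2 * (∑ a, C1 a) + C2, by positivity, fun X => χ X * u X, ?_⟩
  have hopen := Red1_isOpen_bx hφ x0 ρ
  have hat : ∀ X ∈ bx φ x0 ρ, ContDiffAt ℝ 2 u X := fun X hX => hcd.contDiffAt (hopen.mem_nhds hX)
  refine ⟨?_, ?_, ?_, ?_, ?_⟩
  · intro X hX
    rcases le_or_gt ‖X - gpt φ x0‖ (2 * r1) with h | h
    · have hb := (near_mem_bx hφ hρ hX h).1
      exact (hχ.contDiffAt.mul (hat X hb)).contDiffWithinAt
    · have h1 : (fun Y => χ Y * u Y) =ᶠ[𝓝 X] fun _ => (0 : ℝ) := by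
        have h2 : IsOpen {Y : P d | 2 * r1 < ‖Y - gpt φ x0‖} :=
          isOpen_lt continuous_const (continuous_id.sub continuous_const).norm
        filter_upwards [h2.mem_nhds h] with Y hY
        rw [hχ0 Y (le_of_lt hY), zero_mul]
      exact (contDiffAt_const.congr_of_eventuallyEq h1).contDiffWithinAt
  · intro X hX h
    simp only [hχ1 X h.le, one_mul]
  · intro X hX h
    simp only [hχ0 X h.le, zero_mul]
  · intro X hX h
    have hb := (near_mem_bx hφ hρ hX h).1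
    have hf := (Red1_formulas hχ (hat X hb)).1
    have hball : X ∈ Metric.closedBall (gpt φ x0 : P d) (2 * r1) := by
      rw [Metric.mem_closedBall, dist_eq_norm]; exact h
    have hterm : ∀ a ∈ (Finset.univ : Finset (Ix d)), |gr (fun Y => χ Y * u Y) a X| ≤
        |gr u a X| + C1 a * |u X| := by
      intro a _
      unfold gr
      rw [hf a]
      refine (abs_add_le _ _).trans (add_le_add ?_ ?_)
      · rw [abs_mul, abs_of_nonneg χ.nonneg]
        exact mul_le_of_le_one_left (abs_nonneg _) χ.le_one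
      · rw [abs_mul]
        exact mul_le_mul_of_nonneg_right (hC1 a X hball) (abs_nonneg _)
    unfold nF
    refine (Finset.sum_le_sum hterm).trans ?_
    rw [Finset.sum_add_distrib, ← Finset.sum_mul]
    have h0 : 0 ≤ ∑ a : Ix d, |gr u a X| := Finset.sum_nonneg fun a _ => abs_nonneg _
    have h1 := abs_nonneg (u X)
    nlinarith [mul_nonneg hS h1, mul_nonneg hS h0, mul_nonneg hC2' h1, mul_nonneg hC2' h0]
  · intro X hX h
    have hb := (near_mem_bx hφ hρ hX h).1
    have hf := (Red1_formulas hχ (hat X hb)).2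
    have hball : X ∈ Metric.closedBall (gpt φ x0 : P d) (2 * r1) := by
      rw [Metric.mem_closedBall, dist_eq_norm]; exact h
    rw [hf, hh X hb, mul_zero, zero_add]
    have h1 : |∑ a : Ix d, pd a (χ : P d → ℝ) X * pd a u X| ≤ (∑ a, C1 a) * nF (gr u) X := by
      refine (Finset.abs_sum_le_sum_abs _ _).trans ?_
      unfold nF
      rw [Finset.mul_sum]
      refine Finset.sum_le_sum fun a _ => ?_
      rw [abs_mul]
      exact mul_le_mul ((hC1 a X hball).trans (hle1 a)) le_rfl (abs_nonneg _) hS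
    have h2 : |lap (χ : P d → ℝ) X * u X| ≤ C2 * |u X| := by
      rw [abs_mul]
      exact mul_le_mul_of_nonneg_right (hC2 X hball) (abs_nonneg _)
    have h0 : 0 ≤ nF (gr u) X := Finset.sum_nonneg fun a _ => abs_nonneg _
    have h3 := abs_nonneg (u X)
    calc |2 * (∑ a : Ix d, pd a (χ : P d → ℝ) X * pd a u X) + lap (χ : P d → ℝ) X * u X|
        ≤ |2 * (∑ a : Ix d, pd a (χ : P d → ℝ) X * pd a u X)| + |lap (χ : P d → ℝ) X * u X| :=
          abs_add_le _ _
      _ ≤ 2 * ((∑ a, C1 a) * nF (gr u) X) + C2 * |u X| := by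
          rw [abs_mul, abs_of_pos (by norm_num : (0 : ℝ) < 2)]
          exact add_le_add (mul_le_mul_of_nonneg_left h1 (by norm_num)) h2
      _ ≤ _ := by
          nlinarith [mul_nonneg hS h3, mul_nonneg hS h0, mul_nonneg hC2' h3, mul_nonneg hC2' h0]

end HG
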