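import Pool.Agent.W_MP_825298_an.RedDefs

open MeasureTheory Set Filter Topology
open scoped ENNReal NNReal BigOperators

namespace HG
variable {d : ℕ}

theorem Red2_isOpen_bx {φ : E d → ℝ} (hφ : Continuous φ) (x0 : E d) (ρ : ℝ) :
    IsOpen (bx φ x0 ρ) := by
  have h1 : IsOpen {X : P d | ‖X.1 - x0‖ < ρ} :=
    isOpen_lt (by fun_prop) continuous_const
  have h2 : IsOpen {X : P d | φ X.1 < X.2} :=
    isOpen_lt (hφ.comp continuous_fst) continuous_snd
  have h3 : IsOpen {X : P d | X.2 < φ X.1 + ρ} :=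
    isOpen_lt continuous_snd ((hφ.comp continuous_fst).add continuous_const)
  exact h1.inter (h2.inter h3)

theorem Red2_meas (u : P d → ℝ) : Measurable (nF (gr u)) := by
  have h : ∀ a : Ix d, Measurable (fun X : P d => |gr u a X|) := by
    intro a
    have h1 : Measurable (fun X : P d => fderiv ℝ u X (eb a)) :=
      measurable_fderiv_apply_const ℝ u (eb a)
    exact h1.norm
  exact Finset.measurable_sum _ fun a _ => h a

theorem Red2_le_nF (u : P d → ℝ) (X : P d) : |pd none u X| ≤ nF (gr u) X :=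
  Finset.single_le_sum (f := fun a : Ix d => |gr u a X|) (fun a _ => abs_nonneg _)
    (Finset.mem_univ none)

theorem Red2_nF_nonneg (u : P d → ℝ) (X : P d) : 0 ≤ nF (gr u) X :=
  Finset.sum_nonneg fun _ _ => abs_nonneg _

/-- fundamental theorem of calculus in the vertical variable -/
theorem Red2_ftc {φ : E d → ℝ} (hφ : Continuous φ) {x0 : E d} {ρ : ℝ} (hρ : 0 < ρ)
    {u : P d → ℝ} (hcd : ContDiffOn ℝ 2 u (bx φ x0 ρ)) {x : E d} (hx : ‖x - x0‖ < ρ) {τ : ℝ}
    (h0 : 0 < τ) (h1 : τ ≤ ρ / 2) :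
    ENNReal.ofReal |u (x, φ x + τ)| ≤ ENNReal.ofReal |u (x, φ x + ρ / 2)| +
      ∫⁻ s in Ioc 0 (ρ / 2), ENNReal.ofReal (nF (gr u) (x, φ x + s)) := by
  have hop := Red2_isOpen_bx hφ x0 ρ
  have hmem : ∀ s ∈ Icc τ (ρ / 2), ((x, φ x + s) : P d) ∈ bx φ x0 ρ := by
    intro s hs
    refine ⟨hx, ?_, ?_⟩
    · show φ x < φ x + s
      linarith [hs.1]
    · show φ x + s < φ x + ρ
      linarith [hs.2]
  have huIcc : uIcc τ (ρ / 2) = Icc τ (ρ / 2) := uIcc_of_le h1
  have hder : ∀ s ∈ uIcc τ (ρ / 2),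
      HasDerivAt (fun s => u (x, φ x + s)) (pd none u (x, φ x + s)) s := by
    intro s hs
    rw [huIcc] at hs
    have hd : DifferentiableAt ℝ u (x, φ x + s) :=
      (hcd.differentiableOn (by norm_num)).differentiableAt (hop.mem_nhds (hmem s hs))
    have hc : HasDerivAt (fun s : ℝ => ((x, φ x + s) : P d)) ((0, 1) : P d) s :=
      (hasDerivAt_const s x).prodMk ((hasDerivAt_id s).const_add (φ x))
    exact hd.hasFDerivAt.comp_hasDerivAt s hc
  have hcont : ContinuousOn (fun s => pd none u (x, φ x + s)) (Icc τ (ρ / 2)) := by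
    have h2 : ContinuousOn (fun X => fderiv ℝ u X) (bx φ x0 ρ) :=
      hcd.continuousOn_fderiv_of_isOpen hop (by norm_num)
    have h3 : ContinuousOn (fun X => pd none u X) (bx φ x0 ρ) :=
      h2.clm_apply continuousOn_const
    exact h3.comp (by fun_prop) hmem
  have hint : IntervalIntegrable (fun s => pd none u (x, φ x + s)) volume τ (ρ / 2) :=
    ContinuousOn.intervalIntegrable (by rwa [huIcc])
  have hftc := intervalIntegral.integral_eq_sub_of_hasDerivAt hder hint
  have habs : |u (x, φ x + τ)| ≤ |u (x, φ x + ρ / 2)| +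
      ∫ s in τ..(ρ / 2), |pd none u (x, φ x + s)| := by
    have h4 := intervalIntegral.abs_integral_le_integral_abs (f := fun s => pd none u (x, φ x + s))
      (μ := volume) h1
    have h5 : u (x, φ x + τ) = u (x, φ x + ρ / 2) - ∫ s in τ..(ρ / 2), pd none u (x, φ x + s) := by
      rw [hftc]; ring
    rw [h5]
    exact (abs_sub _ _).trans (add_le_add le_rfl h4)
  refine (ENNReal.ofReal_le_ofReal habs).trans ?_
  rw [ENNReal.ofReal_add (abs_nonneg _)
    (intervalIntegral.integral_nonneg h1 fun _ _ => abs_nonneg _)]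
  refine add_le_add le_rfl ?_
  rw [intervalIntegral.integral_of_le h1, ofReal_integral_eq_lintegral_ofReal]
  · calc ∫⁻ s in Ioc τ (ρ / 2), ENNReal.ofReal |pd none u (x, φ x + s)|
        ≤ ∫⁻ s in Ioc τ (ρ / 2), ENNReal.ofReal (nF (gr u) (x, φ x + s)) :=
          lintegral_mono fun s => ENNReal.ofReal_le_ofReal (Red2_le_nF _ _)
      _ ≤ ∫⁻ s in Ioc 0 (ρ / 2), ENNReal.ofReal (nF (gr u) (x, φ x + s)) :=
          lintegral_mono_set (Ioc_subset_Ioc_left h0.le)
  · exact (hint.1).norm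
  · exact Filter.Eventually.of_forall fun _ => abs_nonneg _

/-- Slices of `u`. For `x ∈ closedBall x0 (ρ/2)`, `0 < τ ≤ ρ/2`:
`|u(x,φx+τ)| ≤ |u(x,φx+ρ/2)| + ∫_τ^{ρ/2} |∂_n u(x,φx+s)| ds` (fundamental theorem of calculus, `u` is `C²` on the box);
the first term is bounded by compactness of `{(x,φx+ρ/2) : x ∈ closedBall x0 (ρ/2)} ⊆ bx`; integrate in `x`, Tonelli and `hu.sl`
give the bound `C0 vol + A ρ/2` for the second.  Measurability: `nF (gr u)` is measurable (`measurable_fderiv_apply_const`). -/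
theorem slice_bound {M : ℝ≥0} {φ : E d → ℝ} (hφ : LipschitzWith M φ) {x0 : E d} {ρ : ℝ} (hρ : 0 < ρ)
    {u : P d → ℝ} {A : ℝ≥0∞} (hA : A ≠ ⊤) (hu : LocHarm φ x0 ρ u A) :
    ∃ B : ℝ≥0∞, B ≠ ⊤ ∧ ∀ τ : ℝ, 0 < τ → τ ≤ ρ / 2 →
      ∫⁻ x in Metric.closedBall x0 (ρ / 2),
        ENNReal.ofReal (|u (x, φ x + τ)| + nF (gr u) (x, φ x + τ)) ≤ B := by
  have hφc := hφ.continuous
  set K := Metric.closedBall x0 (ρ / 2) with hK
  have hKc : IsCompact K := isCompact_closedBall x0 (ρ / 2)
  have hKm : MeasurableSet K := hKc.measurableSet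
  have hKx : ∀ x ∈ K, ‖x - x0‖ < ρ := by
    intro x hx
    have : ‖x - x0‖ ≤ ρ / 2 := by simpa [hK, dist_eq_norm] using hx
    linarith
  have hKball : K ⊆ Metric.ball x0 ρ := by
    intro x hx
    rw [Metric.mem_ball, dist_eq_norm]
    exact hKx x hx
  have hop := Red2_isOpen_bx hφc x0 ρ
  -- the bound on the top slice
  have htop : ContinuousOn (fun x : E d => u (x, φ x + ρ / 2)) K := by
    have h1 : ContinuousOn u (bx φ x0 ρ) := hu.cd.continuousOn
    refine h1.comp (f := fun x : E d => ((x, φ x + ρ / 2) : P d)) (by fun_prop) ?_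
    intro x hx
    refine ⟨hKx x hx, ?_, ?_⟩
    · show φ x < φ x + ρ / 2
      linarith
    · show φ x + ρ / 2 < φ x + ρ
      linarith
  obtain ⟨C0, hC0⟩ := hKc.exists_bound_of_continuousOn htop
  have hmeas := Red2_meas (d := d) u
  set f : E d × ℝ → ℝ≥0∞ := fun q => ENNReal.ofReal (nF (gr u) (q.1, φ q.1 + q.2)) with hf
  have hfm : Measurable f := by
    refine (hmeas.comp ?_).ennreal_ofReal
    have : Continuous (fun q : E d × ℝ => ((q.1, φ q.1 + q.2) : P d)) := by fun_prop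
    exact this.measurable
  set G : E d → ℝ≥0∞ := fun x => ∫⁻ s in Ioc 0 (ρ / 2), f (x, s) with hG
  have hGm : Measurable G := hfm.lintegral_prod_right'
  have hslice : ∀ s : ℝ, 0 < s → s < ρ → ∫⁻ x in K, f (x, s) ≤ A := by
    intro s h1 h2
    exact (lintegral_mono_set hKball).trans (hu.sl s h1 h2)
  have hGint : ∫⁻ x in K, G x ≤ A * ENNReal.ofReal (ρ / 2) := by
    calc ∫⁻ x in K, G x = ∫⁻ s in Ioc 0 (ρ / 2), ∫⁻ x in K, f (x, s) := by
          rw [hG]
          exact lintegral_lintegral_swap (f := fun x s => f (x, s)) hfm.aemeasurable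
      _ ≤ ∫⁻ _s in Ioc 0 (ρ / 2), A := by
          apply setLIntegral_mono' measurableSet_Ioc
          intro s hs
          exact hslice s hs.1 (by linarith [hs.2])
      _ = A * ENNReal.ofReal (ρ / 2) := by
          rw [lintegral_const, Measure.restrict_apply_univ, Real.volume_Ioc, sub_zero]
  have hvol : volume K < ⊤ := hKc.measure_lt_top
  refine ⟨(ENNReal.ofReal C0 * volume K + A * ENNReal.ofReal (ρ / 2)) + A, ?_, ?_⟩
  · exact ENNReal.add_ne_top.mpr ⟨ENNReal.add_ne_top.mpr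
      ⟨ENNReal.mul_ne_top ENNReal.ofReal_ne_top hvol.ne,
        ENNReal.mul_ne_top hA ENNReal.ofReal_ne_top⟩, hA⟩
  · intro τ h0 h1
    have hsplit : ∀ x : E d, ENNReal.ofReal (|u (x, φ x + τ)| + nF (gr u) (x, φ x + τ)) =
        ENNReal.ofReal |u (x, φ x + τ)| + f (x, τ) := fun x =>
      ENNReal.ofReal_add (abs_nonneg _) (Red2_nF_nonneg _ _)
    simp_rw [hsplit]
    have hfτ : Measurable (fun x : E d => f (x, τ)) :=
      hfm.comp (measurable_id.prodMk measurable_const)
    rw [lintegral_add_right _ hfτ]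
    refine add_le_add ?_ (hslice τ h0 (by linarith))
    calc ∫⁻ x in K, ENNReal.ofReal |u (x, φ x + τ)|
        ≤ ∫⁻ x in K, (ENNReal.ofReal C0 + G x) := by
          apply setLIntegral_mono' hKm
          intro x hx
          refine (Red2_ftc hφc hρ hu.cd (hKx x hx) h0 h1).trans (add_le_add ?_ le_rfl)
          exact ENNReal.ofReal_le_ofReal (hC0 x hx)
      _ = ENNReal.ofReal C0 * volume K + ∫⁻ x in K, G x := by
          rw [lintegral_add_left measurable_const, lintegral_const, Measure.restrict_apply_univ]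
      _ ≤ ENNReal.ofReal C0 * volume K + A * ENNReal.ofReal (ρ / 2) := add_le_add le_rfl hGint

end HG
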