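import Pool.Agent.W_MP_825298_an.RedDefs
import Pool.Agent.W_MP_825298_an.Newton3a
import Pool.Agent.W_MP_825298_an.NewtonWeak

open MeasureTheory Set Filter Topology
open scoped ENNReal NNReal BigOperators

namespace HG
variable {d : ℕ}

theorem Red3_integrable {f : P d → ℝ} (hf : Measurable f) {C R : ℝ} (hC : ∀ Y, |f Y| ≤ C)
    (hR : ∀ Y, R ≤ ‖Y‖ → f Y = 0) : Integrable f := by
  have h1 : Integrable ((Metric.ball (0 : P d) R).indicator fun _ : P d => C) := by
    rw [integrable_indicator_iff measurableSet_ball]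
    exact integrableOn_const (by exact measure_ball_lt_top.ne) (by simp)
  refine h1.mono' hf.aestronglyMeasurable (Eventually.of_forall fun Y => ?_)
  by_cases hY : ‖Y‖ < R
  · rw [indicator_of_mem (by simpa using hY)]
    exact hC Y
  · rw [hR Y (not_lt.1 hY)]
    simp only [norm_zero]
    exact indicator_nonneg (fun _ _ => (abs_nonneg _).trans (hC 0)) _

/-- the kernel restricted to a ball -/
theorem Red3_indicator_integrable {k : P d → ℝ} (hk : LocallyIntegrable k) (r : ℝ) :
    Integrable ((Metric.ball (0 : P d) r).indicator k) := by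
  rw [integrable_indicator_iff measurableSet_ball]
  exact (hk.integrableOn_isCompact (isCompact_closedBall 0 r)).mono_set Metric.ball_subset_closedBall

/-- on the support of `f` the kernel may be replaced by the restricted one -/
theorem Red3_restrict {f : P d → ℝ} {R : ℝ} (hR : ∀ Y, R ≤ ‖Y‖ → f Y = 0) {k : P d → ℝ} {r : ℝ}
    {X : P d} (hX : ‖X‖ < r) (Y : P d) :
    k (X - Y) * f Y = (Metric.ball (0 : P d) (r + R)).indicator k (X - Y) * f Y := by
  by_cases hY : ‖Y‖ < R
  · rw [indicator_of_mem]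
    rw [mem_ball_zero_iff]
    exact (norm_sub_le X Y).trans_lt (add_lt_add hX hY)
  · rw [hR Y (not_lt.1 hY)]
    simp

/-- pointwise bound of the potential -/
theorem Red3_bound {f : P d → ℝ} (hf : Measurable f) {C R : ℝ} (hC : ∀ Y, |f Y| ≤ C)
    (hR : ∀ Y, R ≤ ‖Y‖ → f Y = 0) {k : P d → ℝ} (hk : LocallyIntegrable k) {r : ℝ} {X : P d}
    (hX : ‖X‖ < r) : Integrable (fun Y => k (X - Y) * f Y) ∧
      |∫ Y, k (X - Y) * f Y| ≤ C * ∫ Z, |(Metric.ball (0 : P d) (r + R)).indicator k Z| := by
  have h1 := Red3_indicator_integrable hk (r + R)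
  have h2 : Integrable (fun Y => (Metric.ball (0 : P d) (r + R)).indicator k (X - Y)) :=
    h1.comp_sub_left X
  have h3 : Integrable (fun Y => k (X - Y) * f Y) := by
    simp only [Red3_restrict hR (k := k) hX]
    exact h2.mul_bdd hf.aestronglyMeasurable (Eventually.of_forall hC)
  refine ⟨h3, ?_⟩
  rw [← Real.norm_eq_abs]
  refine (norm_integral_le_integral_norm _).trans ?_
  have h4 : ∫ Z, |(Metric.ball (0 : P d) (r + R)).indicator k Z| =
      ∫ Y, |(Metric.ball (0 : P d) (r + R)).indicator k (X - Y)| :=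
    (integral_sub_left_eq_self (fun Z => |(Metric.ball (0 : P d) (r + R)).indicator k Z|)
      volume X).symm
  rw [h4, ← integral_const_mul]
  refine integral_mono h3.norm (h2.abs.const_mul C) fun Y => ?_
  simp only
  rw [Red3_restrict hR (k := k) hX, norm_mul, Real.norm_eq_abs, Real.norm_eq_abs, mul_comm]
  exact mul_le_mul_of_nonneg_right (hC Y) (abs_nonneg _)

theorem Red3_nkr_continuous {ε : ℝ} (hε : 0 < ε) (a : Ix d) : Continuous (nkr (d := d) ε a) :=
  (nkr_contDiff hε a).continuous

/-- the regularised potential is continuous -/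
theorem Red3_reg_continuous {ε : ℝ} (hε : 0 < ε) {f : P d → ℝ} (hf : Measurable f) {C R : ℝ}
    (hC : ∀ Y, |f Y| ≤ C) (hR : ∀ Y, R ≤ ‖Y‖ → f Y = 0) (a : Ix d) :
    Continuous (fun X => ∫ Y, nkr ε a (X - Y) * f Y) := by
  rw [continuous_iff_continuousAt]
  intro X₀
  have hcont := Red3_nkr_continuous hε a
  obtain ⟨B, hB⟩ := (isCompact_closedBall (0 : P d) (‖X₀‖ + 1 + |R|)).exists_bound_of_continuousOn
    hcont.continuousOn
  have hfi := Red3_integrable hf hC hR
  refine continuousAt_of_dominated (bound := fun Y => B * |f Y|) ?_ ?_ (hfi.abs.const_mul B) ?_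
  · exact Eventually.of_forall fun X =>
      (((hcont.measurable.comp (measurable_const.sub measurable_id)).mul hf)).aestronglyMeasurable
  · filter_upwards [Metric.ball_mem_nhds X₀ one_pos] with X hX
    refine Eventually.of_forall fun Y => ?_
    by_cases hY : ‖Y‖ < R
    · rw [norm_mul, Real.norm_eq_abs (f Y)]
      refine mul_le_mul_of_nonneg_right (hB _ ?_) (abs_nonneg _)
      rw [mem_closedBall_zero_iff]
      have h1 : ‖X‖ ≤ ‖X₀‖ + 1 := by
        have h2 : ‖X - X₀‖ < 1 := by simpa [dist_eq_norm] using hX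
        have h3 := norm_le_norm_add_norm_sub' X X₀
        linarith
      have h4 := norm_sub_le X Y
      have h5 := le_abs_self R
      linarith
    · rw [hR Y (not_lt.1 hY)]
      simp
  · refine Eventually.of_forall fun Y => ?_
    exact ((hcont.comp (continuous_id.sub continuous_const)).mul continuous_const).continuousAt

/-- the difference of the kernels is small in `L¹` of a ball -/
theorem Red3_diff_tendsto (hd : 1 ≤ d) (a : Ix d) (r : ℝ) :
    Tendsto (fun ε : ℝ => ∫ Z, |(Metric.ball (0 : P d) r).indicator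
      (fun Z => nk a Z - nkr ε a Z) Z|) (𝓝[>] 0) (𝓝 0) := by
  obtain ⟨C, hC, hC1, hC2⟩ := nk_bound d
  have h0 : 𝓝 (0 : ℝ) = 𝓝 (∫ _Z : P d, (0 : ℝ)) := by rw [integral_zero]
  rw [show Tendsto (fun ε : ℝ => ∫ Z, |(Metric.ball (0 : P d) r).indicator
      (fun Z => nk a Z - nkr ε a Z) Z|) (𝓝[>] 0) (𝓝 0) ↔ Tendsto (fun ε : ℝ => ∫ Z,
      |(Metric.ball (0 : P d) r).indicator (fun Z => nk a Z - nkr ε a Z) Z|) (𝓝[>] 0)
      (𝓝 (∫ _Z : P d, (0 : ℝ))) from by rw [← h0]]
  have hint := (Red3_indicator_integrable (nw_norm_locallyIntegrable d) r).const_mul (2 * C)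
  refine tendsto_integral_filter_of_dominated_convergence
    (fun Z => 2 * C * (Metric.ball (0 : P d) r).indicator (fun X : P d => (‖X‖ ^ d)⁻¹) Z) ?_ ?_
    hint ?_
  · filter_upwards [self_mem_nhdsWithin] with ε hε
    have h1 : Measurable (fun Z : P d => nk a Z - nkr ε a Z) :=
      (nk_measurable a).sub (Red3_nkr_continuous hε a).measurable
    have h2 : Measurable ((Metric.ball (0 : P d) r).indicator (fun Z => nk a Z - nkr ε a Z)) :=
      h1.indicator measurableSet_ball
    have h3 : Measurable fun Z => |(Metric.ball (0 : P d) r).indicator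
      (fun Z => nk a Z - nkr ε a Z) Z| := by fun_prop
    exact h3.aestronglyMeasurable
  · filter_upwards [self_mem_nhdsWithin] with ε hε
    filter_upwards [nw_ae_ne (0 : P d)] with Z hZ
    rw [Real.norm_eq_abs, abs_abs]
    by_cases hZb : Z ∈ Metric.ball (0 : P d) r
    · rw [indicator_of_mem hZb, indicator_of_mem hZb]
      have h1 := hC1 a Z hZ
      have h2 := hC2 ε a Z hε hZ
      have h3 := abs_sub (nk a Z) (nkr ε a Z)
      rw [div_eq_mul_inv] at h1 h2
      linarith
    · rw [indicator_of_notMem hZb, indicator_of_notMem hZb]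
      simp
  · filter_upwards [nw_ae_ne (0 : P d)] with Z hZ
    by_cases hZb : Z ∈ Metric.ball (0 : P d) r
    · simp only [indicator_of_mem hZb]
      have h1 := ((nkr_tendsto a hZ).const_sub (nk a Z)).abs
      simpa using h1
    · simp only [indicator_of_notMem hZb]
      simp

/-- The gradient of the Newtonian potential of a bounded function with bounded support is continuous:
`NP f a X = ∫ nk a Z * f (X - Z) dZ`; split `nk a = nk a 1_{‖Z‖<δ} + nk a 1_{‖Z‖≥δ}` (the first part has small `L¹` norm, `nk_locallyIntegrable`;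
the second kernel is continuous off a null set and dominated), or use `BddAbove.continuous_convolution_right_of_integrable`-type
lemmas: on bounded sets of `X` replace `nk a` by its restriction to a large ball (integrable) and approximate `f` in `L^p`,
or translate: `NP f a X - NP f a X' = ∫ (nk a (X-Y) - nk a (X'-Y)) f Y dY`, `|.| ≤ C ∫_{‖Y‖≤R} |nk a (X-Y) - nk a (X'-Y)| dY → 0`
(dominated convergence with `nk_bound` after splitting off a small ball around `X`). -/
theorem NP_continuous (hd : 1 ≤ d) {f : P d → ℝ} (hf : Measurable f) {C R : ℝ} (hC : ∀ Y, |f Y| ≤ C)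
    (hR : ∀ Y, R ≤ ‖Y‖ → f Y = 0) (a : Ix d) : Continuous (NP f a) := by
  have hlim : TendstoLocallyUniformly (fun (ε : ℝ) X => ∫ Y, nkr ε a (X - Y) * f Y) (NP f a)
      (𝓝[>] (0 : ℝ)) := by
    rw [Metric.tendstoLocallyUniformly_iff]
    intro δ hδ X₀
    refine ⟨Metric.ball X₀ 1, Metric.ball_mem_nhds X₀ one_pos, ?_⟩
    have h1 := (Red3_diff_tendsto hd a (‖X₀‖ + 1 + R)).const_mul C
    rw [mul_zero] at h1
    filter_upwards [h1.eventually_lt_const hδ, self_mem_nhdsWithin] with ε hε hε0 X hX
    have hXn : ‖X‖ < ‖X₀‖ + 1 := by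
      have h2 : ‖X - X₀‖ < 1 := by simpa [dist_eq_norm] using hX
      have h3 := norm_le_norm_add_norm_sub' X X₀
      linarith
    have hk : LocallyIntegrable (nk (d := d) a) := nk_locallyIntegrable hd a
    have hkr : LocallyIntegrable (nkr (d := d) ε a) := (Red3_nkr_continuous hε0 a).locallyIntegrable
    have hb := (Red3_bound hf hC hR (k := fun Z => nk a Z - nkr ε a Z) (hk.sub hkr) hXn).2
    have i1 := (Red3_bound hf hC hR hk hXn).1
    have i2 := (Red3_bound hf hC hR hkr hXn).1
    refine lt_of_le_of_lt ?_ hε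
    refine le_trans (le_of_eq ?_) hb
    rw [Real.dist_eq]
    congr 1
    unfold NP
    rw [← integral_sub i1 i2]
    congr 1
    funext Y
    ring
  refine hlim.continuous ?_
  refine Filter.Eventually.frequently ?_
  filter_upwards [self_mem_nhdsWithin] with ε hε
  exact Red3_reg_continuous hε hf hC hR a

/-- Fubini. -/
theorem Red3_fubini (hd : 1 ≤ d) {f : P d → ℝ} (hf : Measurable f) {C R : ℝ} (hC : ∀ Y, |f Y| ≤ C)
    (hR : ∀ Y, R ≤ ‖Y‖ → f Y = 0) {g : P d → ℝ} (hg : Continuous g) (hc : HasCompactSupport g)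
    (a : Ix d) : Integrable (fun Y => f Y * ∫ X, nk a (X - Y) * g X) ∧
      ∫ X, NP f a X * g X = ∫ Y, f Y * ∫ X, nk a (X - Y) * g X := by
  have hk : LocallyIntegrable (nk (d := d) a) := nk_locallyIntegrable hd a
  obtain ⟨r, hr⟩ := hc.isCompact.isBounded.subset_ball (0 : P d)
  obtain ⟨Cg, hCg⟩ := hc.exists_bound_of_continuous hg
  have hk1 := Red3_indicator_integrable hk (r + R)
  have hfi := Red3_integrable hf hC hR
  have h1 : Integrable (fun p : P d × P d => (ContinuousLinearMap.mul ℝ ℝ (f p.2))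
      ((Metric.ball (0 : P d) (r + R)).indicator (nk a) (p.1 - p.2))) (volume.prod volume) :=
    hfi.convolution_integrand (ContinuousLinearMap.mul ℝ ℝ) hk1
  have h2 : Integrable (fun p : P d × P d => ((ContinuousLinearMap.mul ℝ ℝ (f p.2))
      ((Metric.ball (0 : P d) (r + R)).indicator (nk a) (p.1 - p.2))) * g p.1)
      (volume.prod volume) :=
    h1.mul_bdd (hg.comp continuous_fst).aestronglyMeasurable
      (Eventually.of_forall fun p => hCg p.1)
  have h3 : (fun p : P d × P d => ((ContinuousLinearMap.mul ℝ ℝ (f p.2))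
      ((Metric.ball (0 : P d) (r + R)).indicator (nk a) (p.1 - p.2))) * g p.1) =
      Function.uncurry fun X Y => nk a (X - Y) * f Y * g X := by
    funext p
    simp only [ContinuousLinearMap.mul_apply', Function.uncurry]
    by_cases hX : ‖p.1‖ < r
    · rw [Red3_restrict hR (k := nk a) hX p.2, mul_comm (f p.2)]
    · have : g p.1 = 0 := by
        by_contra hne
        have h4 := hr (subset_tsupport g hne)
        exact hX (by simpa using h4)
      simp [this]
  rw [h3] at h2
  have h5 : ∀ Y, ∫ X, nk a (X - Y) * f Y * g X = f Y * ∫ X, nk a (X - Y) * g X := by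
    intro Y
    rw [← integral_const_mul]
    congr 1
    funext X
    ring
  constructor
  · have h6 := h2.integral_prod_right
    simp only [Function.uncurry] at h6
    simpa only [h5] using h6
  · have h7 : ∫ X, NP f a X * g X = ∫ X, ∫ Y, nk a (X - Y) * f Y * g X := by
      congr 1
      funext X
      unfold NP
      rw [integral_mul_const]
    rw [h7, integral_integral_swap h2]
    simp only [h5]

/-- Fubini and `nk_weak_curl`. -/
theorem NP_weak_curl (hd : 1 ≤ d) {f : P d → ℝ} (hf : Measurable f) {C R : ℝ} (hC : ∀ Y, |f Y| ≤ C)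
    (hR : ∀ Y, R ≤ ‖Y‖ → f Y = 0) {θ : P d → ℝ} (hθ : ContDiff ℝ 1 θ) (hc : HasCompactSupport θ) (a b : Ix d) :
    ∫ X, NP f a X * pd b θ X = ∫ X, NP f b X * pd a θ X := by
  rw [(Red3_fubini hd hf hC hR (nw_pd_continuous hθ b) (nw_pd_compact hc b) a).2,
    (Red3_fubini hd hf hC hR (nw_pd_continuous hθ a) (nw_pd_compact hc a) b).2]
  congr 1
  funext Y
  rw [nk_weak_curl hd hθ hc a b Y]

/-- Fubini and `nk_weak_div`. -/
theorem NP_weak_div (hd : 1 ≤ d) {f : P d → ℝ} (hf : Measurable f) {C R : ℝ} (hC : ∀ Y, |f Y| ≤ C)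
    (hR : ∀ Y, R ≤ ‖Y‖ → f Y = 0) {θ : P d → ℝ} (hθ : ContDiff ℝ 1 θ) (hc : HasCompactSupport θ) :
    ∫ X, ∑ a : Ix d, NP f a X * pd a θ X = - ∫ X, f X * θ X := by
  rw [integral_finsetSum]
  swap
  · intro a _
    exact ((NP_continuous hd hf hC hR a).mul (nw_pd_continuous hθ a)).integrable_of_hasCompactSupport
      (nw_pd_compact hc a).mul_left
  rw [Finset.sum_congr rfl fun a _ =>
    (Red3_fubini hd hf hC hR (nw_pd_continuous hθ a) (nw_pd_compact hc a) a).2,
    ← integral_finsetSum _ fun a _ =>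
    (Red3_fubini hd hf hC hR (nw_pd_continuous hθ a) (nw_pd_compact hc a) a).1, ← integral_neg]
  congr 1
  funext Y
  rw [← Finset.mul_sum, ← integral_finsetSum _ fun a _ =>
    nw_nk_integrable (nw_pd_continuous hθ a) (nw_pd_compact hc a) a Y, nk_weak_div hd hθ hc Y]
  ring

end HG
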