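import Pool.Agent.W_MP_825298_an.RedDefs
import Pool.Agent.W_MP_825298_an.Newton3a
import Pool.Agent.W_MP_825298_an.Newton3b

open MeasureTheory Set Filter Topology
open scoped ENNReal NNReal BigOperators

namespace HG
variable {d : ℕ}

theorem Red4_int {f : P d → ℝ} (hf : Integrable f) {X1 : P d} {R : ℝ} (hR : 0 < R)
    (hs : ∀ Y, R < ‖Y - X1‖ → f Y = 0) (a : Ix d) {X : P d} (hX : 2 * R ≤ ‖X - X1‖) :
    Integrable (fun Y : P d => nk a (X - Y) * f Y) := by
  obtain ⟨C', hC', hb, -⟩ := nk_bound d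
  have hm : Measurable (fun Y : P d => nk a (X - Y)) :=
    (nk_measurable a).comp (measurable_const.sub measurable_id)
  have h1 : Integrable (fun Y : P d =>
      ((Metric.closedBall X1 R).indicator (fun Y => nk a (X - Y)) Y) * f Y) := by
    refine hf.bdd_mul (c := C' / R ^ d) (hm.indicator measurableSet_closedBall).aestronglyMeasurable
      (Eventually.of_forall fun Y => ?_)
    by_cases hY : Y ∈ Metric.closedBall X1 R
    · rw [indicator_of_mem hY, Real.norm_eq_abs]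
      rw [mem_closedBall_iff_norm] at hY
      have h2 : R ≤ ‖X - Y‖ := by
        have : X - X1 = (X - Y) + (Y - X1) := by abel
        have h3 := norm_add_le (X - Y) (Y - X1)
        rw [← this] at h3
        linarith
      have h3 : X - Y ≠ 0 := by
        intro h
        rw [h, norm_zero] at h2
        linarith
      refine (hb a _ h3).trans ?_
      gcongr
    · rw [indicator_of_notMem hY, norm_zero]
      positivity
  refine h1.congr (Eventually.of_forall fun Y => ?_)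
  show ((Metric.closedBall X1 R).indicator (fun Y => nk a (X - Y)) Y) * f Y = nk a (X - Y) * f Y
  by_cases hY : Y ∈ Metric.closedBall X1 R
  · rw [indicator_of_mem hY]
  · have : f Y = 0 := by
      refine hs Y ?_
      rw [mem_closedBall_iff_norm] at hY
      exact not_le.1 hY
    rw [this, mul_zero, mul_zero]

/-- Far field of the Newtonian potential: `nk_diff` with `nk a (X - Y) = nk a ((X - X1) + (X1 - Y))`, `‖X1 - Y‖ ≤ R ≤ ‖X-X1‖/2`. -/
theorem NP_far (d : ℕ) : ∃ C : ℝ, 0 < C ∧ ∀ (f : P d → ℝ), Integrable f → ∀ (X1 : P d) (R : ℝ), 0 < R →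
    (∀ Y, R < ‖Y - X1‖ → f Y = 0) → ∀ (a : Ix d) (X : P d), 2 * R ≤ ‖X - X1‖ →
    |NP f a X - (∫ Y, f Y) * nk a (X - X1)| ≤ C * R * (∫ Y, |f Y|) / ‖X - X1‖ ^ (d + 1) := by
  obtain ⟨C, hC, hd⟩ := nk_diff d
  refine ⟨C, hC, ?_⟩
  intro f hf X1 R hR hsupp a X hX
  have hX0 : X - X1 ≠ 0 := by
    intro h
    rw [h, norm_zero] at hX
    linarith
  have hXn : 0 < ‖X - X1‖ := norm_pos_iff.2 hX0
  have hint := Red4_int hf hR hsupp a hX
  have hint2 : Integrable (fun Y : P d => nk a (X - X1) * f Y) := hf.const_mul _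
  have e1 : NP f a X - (∫ Y, f Y) * nk a (X - X1) =
      ∫ Y, (nk a (X - Y) * f Y - nk a (X - X1) * f Y) := by
    rw [integral_sub hint hint2, integral_const_mul]
    unfold NP
    ring
  rw [e1, ← Real.norm_eq_abs]
  have e2 : C * R * (∫ Y, |f Y|) / ‖X - X1‖ ^ (d + 1) =
      ∫ Y, (C * R / ‖X - X1‖ ^ (d + 1)) * |f Y| := by
    rw [integral_const_mul]
    ring
  rw [e2]
  refine norm_integral_le_of_norm_le (hf.abs.const_mul _) (Eventually.of_forall fun Y => ?_)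
  rw [← sub_mul, norm_mul, Real.norm_eq_abs, Real.norm_eq_abs]
  by_cases hY : R < ‖Y - X1‖
  · rw [hsupp Y hY, abs_zero, mul_zero, mul_zero]
  · push Not at hY
    have h1 : X - Y = (X - X1) + (X1 - Y) := by abel
    have h2 : ‖X1 - Y‖ ≤ R := by rwa [norm_sub_rev]
    have h3 : ‖X1 - Y‖ ≤ ‖X - X1‖ / 2 := by linarith
    have h4 := hd a (X - X1) (X1 - Y) hX0 h3
    rw [h1]
    refine mul_le_mul_of_nonneg_right ?_ (abs_nonneg _)
    refine h4.trans ?_
    gcongr

/-- Crude bound (no assumption on `f`): `nk_bound`. -/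
theorem NP_crude (d : ℕ) : ∃ C : ℝ, 0 < C ∧ ∀ (f : P d → ℝ) (a : Ix d) (X : P d),
    ENNReal.ofReal |NP f a X| ≤ ENNReal.ofReal C * ∫⁻ Y, ENNReal.ofReal (|f Y| / ‖X - Y‖ ^ d) := by
  obtain ⟨C', hC', hb, -⟩ := nk_bound d
  refine ⟨C', hC', ?_⟩
  intro f a X
  rw [← Real.enorm_eq_ofReal_abs]
  calc ‖NP f a X‖ₑ ≤ ∫⁻ Y, ‖nk a (X - Y) * f Y‖ₑ := enorm_integral_le_lintegral_enorm _
    _ ≤ ∫⁻ Y, ENNReal.ofReal C' * ENNReal.ofReal (|f Y| / ‖X - Y‖ ^ d) := by
      refine lintegral_mono fun Y => ?_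
      show ‖nk a (X - Y) * f Y‖ₑ ≤ ENNReal.ofReal C' * ENNReal.ofReal (|f Y| / ‖X - Y‖ ^ d)
      rw [Real.enorm_eq_ofReal_abs, ← ENNReal.ofReal_mul hC'.le]
      refine ENNReal.ofReal_le_ofReal ?_
      rw [abs_mul]
      by_cases h : X - Y = 0
      · rw [h]
        have h0 : nk a (0 : P d) = 0 := by
          unfold nk
          cases a <;> simp [co]
        rw [h0, abs_zero, zero_mul]
        positivity
      · calc |nk a (X - Y)| * |f Y| ≤ (C' / ‖X - Y‖ ^ d) * |f Y| :=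
              mul_le_mul_of_nonneg_right (hb a _ h) (abs_nonneg _)
          _ = C' * (|f Y| / ‖X - Y‖ ^ d) := by ring
    _ = _ := lintegral_const_mul' _ _ ENNReal.ofReal_ne_top

/-- local integrability of the singular kernel, uniformly in the pole -/
theorem Red4_ball (hd : 1 ≤ d) (R : ℝ) : ∃ K : ℝ≥0∞, K ≠ ⊤ ∧ ∀ (x0 y : E d),
    ∫⁻ x in Metric.ball x0 R, ENNReal.ofReal (‖x - y‖ ^ (-((d : ℝ) - 1 / 2))) ≤ K := by
  have hd' : (1 : ℝ) ≤ d := by exact_mod_cast hd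
  have hfr : Module.finrank ℝ (E d) = d := Module.finrank_fin_fun ℝ
  have hI : IntegrableOn (fun x : E d => ‖x‖ ^ (-((d : ℝ) - 1 / 2))) (Metric.ball 0 1) := by
    refine integrableOn_ball_of_norm_le_rpow (C := 1) (α := (d : ℝ) - 1 / 2) ?_ ?_ ?_ ?_
    · rw [hfr]
      exact hd
    · rw [hfr]
      linarith
    · refine Eventually.of_forall fun x => ?_
      rw [one_mul, Real.norm_eq_abs, abs_of_nonneg (Real.rpow_nonneg (norm_nonneg _) _)]
    · exact (measurable_norm.pow_const _).aestronglyMeasurable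
  refine ⟨(∫⁻ x : E d, (Metric.ball (0 : E d) 1).indicator
      (fun x => ENNReal.ofReal (‖x‖ ^ (-((d : ℝ) - 1 / 2)))) x) + volume (Metric.ball (0 : E d) R),
      ?_, ?_⟩
  · rw [lintegral_indicator measurableSet_ball]
    refine ENNReal.add_ne_top.2 ⟨?_, measure_ball_lt_top.ne⟩
    have h := hI.lintegral_lt_top
    exact h.ne
  · intro x0 y
    calc ∫⁻ x in Metric.ball x0 R, ENNReal.ofReal (‖x - y‖ ^ (-((d : ℝ) - 1 / 2)))
        ≤ ∫⁻ x in Metric.ball x0 R, ((Metric.ball (0 : E d) 1).indicator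
            (fun x => ENNReal.ofReal (‖x‖ ^ (-((d : ℝ) - 1 / 2)))) (x - y) + 1) := by
          refine lintegral_mono fun x => ?_
          by_cases hx : x - y ∈ Metric.ball (0 : E d) 1
          · show ENNReal.ofReal (‖x - y‖ ^ (-((d : ℝ) - 1 / 2))) ≤ (Metric.ball (0 : E d) 1).indicator
              (fun x => ENNReal.ofReal (‖x‖ ^ (-((d : ℝ) - 1 / 2)))) (x - y) + 1
            rw [indicator_of_mem hx]
            exact le_self_add
          · show ENNReal.ofReal (‖x - y‖ ^ (-((d : ℝ) - 1 / 2))) ≤ (Metric.ball (0 : E d) 1).indicator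
              (fun x => ENNReal.ofReal (‖x‖ ^ (-((d : ℝ) - 1 / 2)))) (x - y) + 1
            rw [indicator_of_notMem hx, zero_add]
            rw [mem_ball_zero_iff, not_lt] at hx
            refine ENNReal.ofReal_le_one.2 ?_
            exact Real.rpow_le_one_of_one_le_of_nonpos hx (by linarith)
      _ = (∫⁻ x in Metric.ball x0 R, (Metric.ball (0 : E d) 1).indicator
            (fun x => ENNReal.ofReal (‖x‖ ^ (-((d : ℝ) - 1 / 2)))) (x - y)) +
            volume (Metric.ball x0 R) := by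
          rw [lintegral_add_right _ measurable_const, setLIntegral_one]
      _ ≤ _ := by
          refine add_le_add ?_ ?_
          · refine (setLIntegral_le_lintegral _ _).trans ?_
            exact (lintegral_sub_right_eq_self (fun x : E d => (Metric.ball (0 : E d) 1).indicator
              (fun x => ENNReal.ofReal (‖x‖ ^ (-((d : ℝ) - 1 / 2)))) x) y).le
          · exact (Measure.addHaar_ball_center (volume : Measure (E d)) x0 R).le

/-- A slice integral of the kernel: with `s = |Y.2 - φ Y.1 - ε|` one has `(1+M) ‖(x,φ x+ε) - Y‖ ≥ s` and `≥ ‖x - Y.1‖`, so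
`‖(x,φ x+ε)-Y‖^{-d} ≤ C s^{-1/2} ‖x - Y.1‖^{-(d-1/2)}`, and `∫_{ball x0 R} ‖x-y‖^{-(d-1/2)} dx ≤ C_R` uniformly in `y`
(split into `‖x-y‖<1` and `≥ 1`; polar coordinates or a layer cake / dyadic sum for the integral over the unit ball). -/
theorem ker_slice (hd : 1 ≤ d) (M : ℝ≥0) (R : ℝ) : ∃ C : ℝ, 0 < C ∧ ∀ (φ : E d → ℝ), LipschitzWith M φ →
    ∀ (x0 : E d) (Y : P d) (ε : ℝ), Y.2 - φ Y.1 ≠ ε →
    ∫⁻ x in Metric.ball x0 R, ENNReal.ofReal (1 / ‖((x, φ x + ε) : P d) - Y‖ ^ d)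
      ≤ ENNReal.ofReal (C * |Y.2 - φ Y.1 - ε| ^ (-(1 / 2) : ℝ)) := by
  obtain ⟨K, hK, hKb⟩ := Red4_ball hd R
  have hd' : (1 : ℝ) ≤ d := by exact_mod_cast hd
  have hM : (0 : ℝ) < 1 + M := by positivity
  refine ⟨(1 + (M : ℝ)) ^ ((1 : ℝ) / 2) * (K.toReal + 1), by positivity, ?_⟩
  intro φ hφ x0 Y ε hne
  set s : ℝ := |Y.2 - φ Y.1 - ε| with hs
  have hspos : 0 < s := abs_pos.2 (sub_ne_zero.2 hne)
  haveI : Nonempty (Fin d) := ⟨⟨0, hd⟩⟩
  have hptw : ∀ x : E d, x ≠ Y.1 → 1 / ‖((x, φ x + ε) : P d) - Y‖ ^ d ≤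
      ((1 + (M : ℝ)) ^ ((1 : ℝ) / 2) * s ^ (-(1 / 2) : ℝ)) * ‖x - Y.1‖ ^ (-((d : ℝ) - 1 / 2)) := by
    intro x hx
    set N : ℝ := ‖((x, φ x + ε) : P d) - Y‖ with hN
    have hx0 : 0 < ‖x - Y.1‖ := norm_pos_iff.2 (sub_ne_zero.2 hx)
    have h1 : ‖x - Y.1‖ ≤ N := norm_fst_le (((x, φ x + ε) : P d) - Y)
    have h2 : |φ x + ε - Y.2| ≤ N := norm_snd_le (((x, φ x + ε) : P d) - Y)
    have hN0 : 0 < N := hx0.trans_le h1
    have h3 : |φ x - φ Y.1| ≤ M * ‖x - Y.1‖ := by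
      have := hφ.dist_le_mul x Y.1
      rwa [Real.dist_eq, dist_eq_norm] at this
    have h4 : s ≤ (1 + M) * N := by
      have e : Y.2 - φ Y.1 - ε = -(φ x + ε - Y.2) + (φ x - φ Y.1) := by ring
      calc s ≤ |φ x + ε - Y.2| + |φ x - φ Y.1| := by
            rw [hs, e]
            refine (abs_add_le _ _).trans ?_
            rw [abs_neg]
        _ ≤ N + M * N := by
            refine add_le_add h2 (h3.trans ?_)
            gcongr
        _ = (1 + M) * N := by ring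
    have h5 : s / (1 + M) ≤ N := by
      rw [div_le_iff₀ hM]
      linarith
    have h6 : N ^ (-(1 / 2) : ℝ) ≤ (1 + (M : ℝ)) ^ ((1 : ℝ) / 2) * s ^ (-(1 / 2) : ℝ) := by
      have h7 : N ^ (-(1 / 2) : ℝ) ≤ (s / (1 + M)) ^ (-(1 / 2) : ℝ) :=
        Real.rpow_le_rpow_of_nonpos (by positivity) h5 (by norm_num)
      refine h7.trans (le_of_eq ?_)
      rw [Real.div_rpow hspos.le hM.le, Real.rpow_neg hM.le, div_inv_eq_mul]
      ring_nf
    have h8 : N ^ (-((d : ℝ) - 1 / 2)) ≤ ‖x - Y.1‖ ^ (-((d : ℝ) - 1 / 2)) :=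
      Real.rpow_le_rpow_of_nonpos hx0 h1 (by linarith)
    have h9 : 1 / N ^ d = N ^ (-(1 / 2) : ℝ) * N ^ (-((d : ℝ) - 1 / 2)) := by
      rw [← Real.rpow_add hN0, one_div, ← Real.rpow_natCast, ← Real.rpow_neg hN0.le]
      congr 1
      ring
    rw [h9]
    exact mul_le_mul h6 h8 (Real.rpow_nonneg hN0.le _) (by positivity)
  calc ∫⁻ x in Metric.ball x0 R, ENNReal.ofReal (1 / ‖((x, φ x + ε) : P d) - Y‖ ^ d)
      ≤ ∫⁻ x in Metric.ball x0 R, ENNReal.ofReal ((1 + (M : ℝ)) ^ ((1 : ℝ) / 2) * s ^ (-(1 / 2) : ℝ)) *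
          ENNReal.ofReal (‖x - Y.1‖ ^ (-((d : ℝ) - 1 / 2))) := by
        refine lintegral_mono_ae ?_
        have hae : ∀ᵐ x ∂(volume.restrict (Metric.ball x0 R) : Measure (E d)), x ≠ Y.1 :=
          ae_restrict_of_ae (Measure.ae_ne volume Y.1)
        filter_upwards [hae] with x hx
        rw [← ENNReal.ofReal_mul (by positivity)]
        exact ENNReal.ofReal_le_ofReal (hptw x hx)
    _ = ENNReal.ofReal ((1 + (M : ℝ)) ^ ((1 : ℝ) / 2) * s ^ (-(1 / 2) : ℝ)) *
          ∫⁻ x in Metric.ball x0 R, ENNReal.ofReal (‖x - Y.1‖ ^ (-((d : ℝ) - 1 / 2))) :=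
        lintegral_const_mul' _ _ ENNReal.ofReal_ne_top
    _ ≤ ENNReal.ofReal ((1 + (M : ℝ)) ^ ((1 : ℝ) / 2) * s ^ (-(1 / 2) : ℝ)) *
          ENNReal.ofReal (K.toReal + 1) := by
        gcongr
        refine (hKb x0 Y.1).trans ?_
        rw [← ENNReal.ofReal_toReal hK]
        refine ENNReal.ofReal_le_ofReal ?_
        rw [ENNReal.toReal_ofReal ENNReal.toReal_nonneg]
        linarith
    _ = _ := by
        rw [← ENNReal.ofReal_mul (by positivity)]
        congr 1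
        ring

end HG
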