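import Pool.Agent.W_MP_825298_an.Red3
import Pool.Agent.W_MP_825298_an.Red4
import Pool.Agent.W_MP_825298_an.MV4b

open MeasureTheory Set Filter Topology
open scoped ENNReal NNReal BigOperators

namespace HG
variable {d : ℕ}

theorem Red5_isOpen_above {φ : E d → ℝ} (hφ : Continuous φ) : IsOpen (above φ) :=
  isOpen_lt (hφ.comp continuous_fst) continuous_snd

theorem Red5_pd_contDiffOn {φ : E d → ℝ} (hφ : Continuous φ) {w : P d → ℝ}
    (hw : ContDiffOn ℝ 2 w (above φ)) (a : Ix d) : ContDiffOn ℝ 1 (pd a w) (above φ) :=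
  (hw.fderiv_of_isOpen (Red5_isOpen_above hφ) (by norm_num)).clm_apply contDiffOn_const

theorem Red5_lap_continuousOn {φ : E d → ℝ} (hφ : Continuous φ) {w : P d → ℝ}
    (hw : ContDiffOn ℝ 2 w (above φ)) : ContinuousOn (lap w) (above φ) :=
  continuousOn_finsetSum _ fun a _ =>
    MV4b_pd_continuousOn (Red5_isOpen_above hφ) (Red5_pd_contDiffOn hφ hw a) a

theorem Red5_pd_congr {f g : P d → ℝ} {X : P d} (h : f =ᶠ[𝓝 X] g) (a : Ix d) :
    pd a f =ᶠ[𝓝 X] pd a g := by
  filter_upwards [h.fderiv (𝕜 := ℝ)] with Y hY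
  unfold pd
  rw [hY]

theorem Red5_lap_zero {f : P d → ℝ} {X : P d} (h : f =ᶠ[𝓝 X] fun _ => 0) : lap f X = 0 := by
  have h1 : ∀ a : Ix d, pd a f =ᶠ[𝓝 X] fun _ => 0 := by
    intro a
    have h2 := Red5_pd_congr h a
    refine h2.trans (Eventually.of_forall fun Y => ?_)
    simp [pd]
  unfold lap
  refine Finset.sum_eq_zero fun a _ => ?_
  have h3 := (Red5_pd_congr (h1 a) a).self_of_nhds
  rw [h3]
  simp [pd]

theorem Red5_lap_off {φ : E d → ℝ} (hφ : Continuous φ) {x0 : E d} {w : P d → ℝ} {R : ℝ}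
    (hw0 : ∀ X ∈ above φ, R < ‖X - gpt φ x0‖ → w X = 0) {Y : P d} (hY : Y ∈ above φ)
    (hR : R < ‖Y - gpt φ x0‖) : lap w Y = 0 := by
  refine Red5_lap_zero ?_
  have h1 : above φ ∈ 𝓝 Y := (Red5_isOpen_above hφ).mem_nhds hY
  have h2 : {X : P d | R < ‖X - gpt φ x0‖} ∈ 𝓝 Y :=
    (isOpen_lt continuous_const (continuous_id.sub continuous_const).norm).mem_nhds hR
  filter_upwards [h1, h2] with X hX1 hX2
  exact hw0 X hX1 hX2

/-- `fe` is measurable, bounded (`lap w` is continuous on the compact set `closedBall (gpt φ x0) R ∩ {φ + ε/2 ≤ t}` of `above φ`), and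
vanishes off `closedBall (gpt φ x0) R` (there `w = 0` near the point). -/
theorem fe_facts {M : ℝ≥0} {φ : E d → ℝ} (hφ : LipschitzWith M φ) {x0 : E d} {w : P d → ℝ}
    (hw : ContDiffOn ℝ 2 w (above φ)) {R : ℝ} (hw0 : ∀ X ∈ above φ, R < ‖X - gpt φ x0‖ → w X = 0)
    {ε : ℝ} (hε : 0 < ε) :
    Measurable (fe φ w ε) ∧ (∃ C : ℝ, ∀ Y, |fe φ w ε Y| ≤ C) ∧ (∀ Y, R < ‖Y - gpt φ x0‖ → fe φ w ε Y = 0) := by
  have hφc := hφ.continuous
  have hsub : ∀ Y : P d, φ Y.1 + ε / 2 < Y.2 → Y ∈ above φ := fun Y hY => by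
    have : φ Y.1 < Y.2 := by linarith
    exact this
  have hlap := Red5_lap_continuousOn hφc hw
  have hoff : ∀ Y, R < ‖Y - gpt φ x0‖ → fe φ w ε Y = 0 := by
    intro Y hY
    unfold fe
    split_ifs with h
    · exact Red5_lap_off hφc hw0 (hsub Y h) hY
    · rfl
  refine ⟨?_, ?_, hoff⟩
  · classical
    have hopen : IsOpen {Y : P d | φ Y.1 + ε / 2 < Y.2} :=
      isOpen_lt ((hφc.comp continuous_fst).add continuous_const) continuous_snd
    have h1 : ContinuousOn (lap w) {Y : P d | φ Y.1 + ε / 2 < Y.2} := hlap.mono hsub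
    have h2 := h1.measurable_piecewise (g := fun _ => (0 : ℝ)) continuousOn_const
      hopen.measurableSet
    convert h2 using 1
    funext Y
    simp [fe, Set.piecewise]
  · have hK : IsCompact (Metric.closedBall (gpt φ x0) R ∩ {Y : P d | φ Y.1 + ε / 2 ≤ Y.2}) :=
      (isCompact_closedBall _ _).inter_right
        (isClosed_le ((hφc.comp continuous_fst).add continuous_const) continuous_snd)
    have hKs : Metric.closedBall (gpt φ x0) R ∩ {Y : P d | φ Y.1 + ε / 2 ≤ Y.2} ⊆ above φ := by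
      intro Y hY
      have h1 : φ Y.1 + ε / 2 ≤ Y.2 := hY.2
      have h2 : φ Y.1 < Y.2 := by linarith
      exact h2
    obtain ⟨C, hC⟩ := hK.exists_bound_of_continuousOn (hlap.mono hKs)
    refine ⟨max C 0, fun Y => ?_⟩
    by_cases hY : R < ‖Y - gpt φ x0‖
    · rw [hoff Y hY, abs_zero]
      exact le_max_right _ _
    · unfold fe
      split_ifs with h
      · refine le_trans ?_ (le_max_left _ _)
        refine hC Y ⟨?_, ?_⟩
        · rw [mem_closedBall_iff_norm]
          exact not_lt.1 hY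
        · exact le_of_lt h
      · rw [abs_zero]
        exact le_max_right _ _

theorem Red5_pd_comm {f : P d → ℝ} {X : P d} (hf : ContDiffAt ℝ 2 f X) (a b : Ix d) :
    pd a (pd b f) X = pd b (pd a f) X := by
  have hs : IsSymmSndFDerivAt ℝ f X :=
    hf.isSymmSndFDerivAt (by rw [minSmoothness_of_isRCLikeNormedField])
  have hd : DifferentiableAt ℝ (fderiv ℝ f) X :=
    (hf.fderiv_right (m := 1) (by norm_num)).differentiableAt (by norm_num)
  have key : ∀ u v : P d, fderiv ℝ (fun Y => fderiv ℝ f Y u) X v = fderiv ℝ (fderiv ℝ f) X v u := by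
    intro u v
    rw [fderiv_clm_apply hd (differentiableAt_const u)]
    simp
  unfold pd
  rw [key, key]
  exact hs _ _

theorem Red5_bpt_notMem {φ : E d → ℝ} {x0 : E d} {ε : ℝ} (hε : 0 < ε) :
    bpt φ x0 ∉ above (fun x => φ x + ε / 2) := by
  intro h
  have h1 : φ x0 + ε / 2 < φ x0 - 1 := h
  linarith

/-- `Fe` is a field above the graph of `φ + ε/2`: `field_of_weak`, continuity from `NP_continuous`, `nk_contDiffAt`;
weak identities: for `∇w` integrate by parts (`w` is `C²` on `above φ`, `θ` compactly supported in it: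
`∫ ∑ ∂_a w ∂_a θ = -∫ θ Δw`, Mathlib `integral_mul_fderiv_eq_neg_fderiv_mul_of_integrable` for the globally `C¹` function `θ ∂_a w`), for `NP` use
`NP_weak_curl`, `NP_weak_div` and `fe = lap w` on the support of `θ`, for the last term `nk_weak_curl`, `nk_weak_div` (`θ (bpt φ x0) = 0`). -/
theorem Fe_field (hd : 1 ≤ d) {M : ℝ≥0} {φ : E d → ℝ} (hφ : LipschitzWith M φ) {x0 : E d} {w : P d → ℝ}
    (hw : ContDiffOn ℝ 2 w (above φ)) {R : ℝ} (hw0 : ∀ X ∈ above φ, R < ‖X - gpt φ x0‖ → w X = 0)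
    {ε : ℝ} (hε : 0 < ε) : IsField (above (fun x => φ x + ε / 2)) (Fe φ x0 w ε) := by
  have hφc := hφ.continuous
  obtain ⟨hfm, ⟨C, hfC⟩, hfR⟩ := fe_facts hφ hw hw0 hε
  have hO : IsOpen (above (fun x => φ x + ε / 2)) :=
    Red5_isOpen_above (hφc.add continuous_const)
  have hsub : above (fun x => φ x + ε / 2) ⊆ above φ := fun Y hY => by
    have h1 : φ Y.1 + ε / 2 < Y.2 := hY
    have h2 : φ Y.1 < Y.2 := by linarith
    exact h2
  have hR' : ∀ Y, R + ‖gpt φ x0‖ + 1 ≤ ‖Y‖ → fe φ w ε Y = 0 := by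
    intro Y hY
    refine hfR Y ?_
    have := norm_sub_norm_le Y (gpt φ x0)
    linarith
  have hb := Red5_bpt_notMem (φ := φ) (x0 := x0) hε
  -- the three continuous families
  have c1 : ∀ a, ContDiffOn ℝ 1 (pd a w) (above (fun x => φ x + ε / 2)) := fun a =>
    (Red5_pd_contDiffOn hφc hw a).mono hsub
  have c1' : ∀ a, ContinuousOn (pd a w) (above (fun x => φ x + ε / 2)) := fun a => (c1 a).continuousOn
  have c2 : ∀ a, Continuous (NP (fe φ w ε) a) := fun a => NP_continuous hd hfm hfC hR' a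
  have c3 : ∀ a : Ix d, ContinuousOn (fun X => nk a (X - bpt φ x0)) (above (fun x => φ x + ε / 2)) := by
    intro a X hX
    have hne : X - bpt φ x0 ≠ 0 := by
      intro h
      rw [sub_eq_zero] at h
      exact hb (h ▸ hX)
    have h1 : ContinuousAt (fun X : P d => nk a (X - bpt φ x0)) X :=
      ContinuousAt.comp (g := nk a) (f := fun X : P d => X - bpt φ x0)
        (nk_contDiffAt a hne).continuousAt
        (continuous_id.sub continuous_const).continuousAt
    exact h1.continuousWithinAt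
  have cF : ∀ a, ContinuousOn (Fe φ x0 w ε a) (above (fun x => φ x + ε / 2)) := fun a =>
    ((c1' a).sub (c2 a).continuousOn).add (continuousOn_const.mul (c3 a))
  -- integrability
  have i1 : ∀ (θ : P d → ℝ), ContDiff ℝ 3 θ → HasCompactSupport θ →
      tsupport θ ⊆ above (fun x => φ x + ε / 2) → ∀ a b, Integrable (fun X => pd a w X * pd b θ X) :=
    fun θ hθ hc hs a b => MV4b_integrable hO (c1' a) (MV4b_pd_contDiff (k := 2) hθ b).continuous
      (MV4b_pd_compact hc b) ((MV4b_pd_tsupport b).trans hs)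
  have i2 : ∀ (θ : P d → ℝ), ContDiff ℝ 3 θ → HasCompactSupport θ →
      tsupport θ ⊆ above (fun x => φ x + ε / 2) →
      ∀ a b, Integrable (fun X => NP (fe φ w ε) a X * pd b θ X) :=
    fun θ hθ hc hs a b => MV4b_integrable hO (c2 a).continuousOn
      (MV4b_pd_contDiff (k := 2) hθ b).continuous (MV4b_pd_compact hc b) ((MV4b_pd_tsupport b).trans hs)
  have i3 : ∀ (θ : P d → ℝ), ContDiff ℝ 3 θ → HasCompactSupport θ →
      tsupport θ ⊆ above (fun x => φ x + ε / 2) →
      ∀ a b, Integrable (fun X => nk a (X - bpt φ x0) * pd b θ X) :=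
    fun θ hθ hc hs a b => MV4b_integrable hO (c3 a)
      (MV4b_pd_contDiff (k := 2) hθ b).continuous (MV4b_pd_compact hc b) ((MV4b_pd_tsupport b).trans hs)
  have expand : ∀ (θ : P d → ℝ), ContDiff ℝ 3 θ → HasCompactSupport θ →
      tsupport θ ⊆ above (fun x => φ x + ε / 2) → ∀ a b,
      ∫ X, Fe φ x0 w ε a X * pd b θ X = (∫ X, pd a w X * pd b θ X)
        - (∫ X, NP (fe φ w ε) a X * pd b θ X)
        + (∫ Y, fe φ w ε Y) * (∫ X, nk a (X - bpt φ x0) * pd b θ X) := by
    intro θ hθ hc hs a b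
    have h1 : Integrable (fun X => pd a w X * pd b θ X - NP (fe φ w ε) a X * pd b θ X) :=
      (i1 θ hθ hc hs a b).sub (i2 θ hθ hc hs a b)
    have h2 : Integrable (fun X => (∫ Y, fe φ w ε Y) * (nk a (X - bpt φ x0) * pd b θ X)) :=
      (i3 θ hθ hc hs a b).const_mul _
    rw [← integral_const_mul, ← integral_sub (i1 θ hθ hc hs a b) (i2 θ hθ hc hs a b),
      ← integral_add h1 h2]
    refine integral_congr_ae (Eventually.of_forall fun X => ?_)
    simp only [Fe]
    ring
  have ibp : ∀ (θ : P d → ℝ), ContDiff ℝ 3 θ → HasCompactSupport θ →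
      tsupport θ ⊆ above (fun x => φ x + ε / 2) → ∀ a b,
      ∫ X, pd a w X * pd b θ X = - ∫ X, θ X * pd b (pd a w) X := by
    intro θ hθ hc hs a b
    rw [MV4b_ibp hO (c1 a) hθ hc hs b, neg_neg]
  refine field_of_weak hO cF ?_ ?_
  · intro θ hθ hc hs a b
    have hθ1 : ContDiff ℝ 1 θ := hθ.of_le (by norm_num)
    rw [expand θ hθ hc hs a b, expand θ hθ hc hs b a,
      NP_weak_curl hd hfm hfC hR' hθ1 hc a b, nk_weak_curl hd hθ1 hc a b]
    congr 2
    rw [ibp θ hθ hc hs a b, ibp θ hθ hc hs b a]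
    congr 1
    refine integral_congr_ae (Eventually.of_forall fun X => ?_)
    by_cases hX : X ∈ tsupport θ
    · have hX' : X ∈ above φ := hsub (hs hX)
      have h2 : ContDiffAt ℝ 2 w X := hw.contDiffAt ((Red5_isOpen_above hφc).mem_nhds hX')
      simp only [Red5_pd_comm h2 b a]
    · have : θ X = 0 := image_eq_zero_of_notMem_tsupport hX
      simp only [this, zero_mul]
  · intro θ hθ hc hs
    have hθ1 : ContDiff ℝ 1 θ := hθ.of_le (by norm_num)
    have hFi : ∀ a : Ix d, Integrable (fun X => Fe φ x0 w ε a X * pd a θ X) := fun a =>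
      MV4b_integrable hO (cF a) (MV4b_pd_contDiff (k := 2) hθ a).continuous
        (MV4b_pd_compact hc a) ((MV4b_pd_tsupport a).trans hs)
    rw [integral_finsetSum _ fun a _ => hFi a,
      Finset.sum_congr rfl fun a _ => expand θ hθ hc hs a a, Finset.sum_add_distrib,
      Finset.sum_sub_distrib, ← Finset.mul_sum,
      ← integral_finsetSum _ fun a _ => i2 θ hθ hc hs a a,
      ← integral_finsetSum _ fun a _ => i3 θ hθ hc hs a a,
      NP_weak_div hd hfm hfC hR' hθ1 hc, nk_weak_div hd hθ1 hc]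
    have hθb : θ (bpt φ x0) = 0 :=
      image_eq_zero_of_notMem_tsupport fun h => hb (hs h)
    have hint : ∀ a : Ix d, Integrable (fun X => θ X * pd a (pd a w) X) := by
      intro a
      have := MV4b_integrable hO (MV4b_pd_continuousOn hO (c1 a) a) hθ.continuous hc hs
      simpa only [mul_comm] using this
    have h1 : ∑ a : Ix d, ∫ X, pd a w X * pd a θ X = - ∫ X, fe φ w ε X * θ X := by
      rw [Finset.sum_congr rfl fun a _ => ibp θ hθ hc hs a a, Finset.sum_neg_distrib,
        ← integral_finsetSum _ fun a _ => hint a]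
      congr 1
      refine integral_congr_ae (Eventually.of_forall fun X => ?_)
      by_cases hX : X ∈ tsupport θ
      · have hX' : φ X.1 + ε / 2 < X.2 := hs hX
        simp only [fe, if_pos hX', lap, Finset.sum_mul]
        exact Finset.sum_congr rfl fun a _ => mul_comm _ _
      · have : θ X = 0 := image_eq_zero_of_notMem_tsupport hX
        simp only [this, zero_mul, mul_zero, Finset.sum_const_zero]
    rw [h1, hθb]
    ring

end HG
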