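import Pool.Agent.W_MP_825298_an.Red5

open MeasureTheory Set Filter Topology
open scoped ENNReal NNReal BigOperators

namespace HG
variable {d : ℕ}

/-- Decay: for `‖X‖` large `pd a w X = 0` and `NP_far` (with `X1 = bpt φ x0`); on the remaining compact part of `aboveC (φ + ε)` the
field is continuous, hence bounded. -/
theorem Fe_decay (hd : 1 ≤ d) {M : ℝ≥0} {φ : E d → ℝ} (hφ : LipschitzWith M φ) {x0 : E d} {w : P d → ℝ}
    (hw : ContDiffOn ℝ 2 w (above φ)) {R : ℝ} (hw0 : ∀ X ∈ above φ, R < ‖X - gpt φ x0‖ → w X = 0)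
    {ε : ℝ} (hε : 0 < ε) :
    ∃ CF : ℝ, ∀ X ∈ aboveC (fun x => φ x + ε), nF (Fe φ x0 w ε) X ≤ CF * (1 + ‖X‖) ^ (-((d : ℝ) + 1)) := by
  obtain ⟨hmeas, ⟨Cf, hCf⟩, hsupp⟩ := fe_facts hφ hw hw0 hε (x0 := x0)
  have hfield := Fe_field hd hφ hw hw0 hε
  obtain ⟨C, hC, hfar⟩ := NP_far d
  set X1 : P d := bpt φ x0 with hX1
  set R' : ℝ := max R 0 + 1 with hR'
  have hR'0 : 1 ≤ R' := by rw [hR']; linarith [le_max_right R 0]
  have hR'R : R + 1 ≤ R' := by rw [hR']; linarith [le_max_left R 0]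
  have hgb : ‖gpt φ x0 - X1‖ ≤ 1 := by
    have : gpt φ x0 - X1 = ((0 : E d), (1 : ℝ)) := by
      rw [hX1]
      unfold gpt bpt
      ext <;> simp
    rw [this, Prod.norm_def]
    simp
  have hd1 : ∀ X : P d, ‖X - X1‖ ≤ ‖X - gpt φ x0‖ + 1 := by
    intro X
    have : X - X1 = (X - gpt φ x0) + (gpt φ x0 - X1) := by abel
    rw [this]
    exact (norm_add_le _ _).trans (by linarith)
  have hsupp' : ∀ Y, R' < ‖Y - X1‖ → fe φ w ε Y = 0 := by
    intro Y hY
    exact hsupp Y (by linarith [hd1 Y])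
  -- integrability
  have hint : Integrable (fe φ w ε) := by
    have h1 : IntegrableOn (fe φ w ε) (Metric.closedBall X1 R') := by
      refine Measure.integrableOn_of_bounded (M := Cf) ?_ hmeas.aestronglyMeasurable ?_
      · exact (isCompact_closedBall X1 R').measure_lt_top.ne
      · exact Filter.Eventually.of_forall fun Y => by
          rw [Real.norm_eq_abs]; exact hCf Y
    refine (integrableOn_iff_integrable_of_support_subset ?_).1 h1
    intro Y hY
    by_contra hc
    rw [Metric.mem_closedBall, dist_eq_norm, not_le] at hc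
    exact hY (hsupp' Y hc)
  -- the compact part
  have hφc : Continuous φ := hφ.continuous
  have hK : IsCompact (Metric.closedBall X1 (2 * R') ∩ aboveC (fun x => φ x + ε)) := by
    refine (isCompact_closedBall X1 (2 * R')).inter_right ?_
    exact isClosed_le ((hφc.comp continuous_fst).add continuous_const) continuous_snd
  have hKs : Metric.closedBall X1 (2 * R') ∩ aboveC (fun x => φ x + ε) ⊆
      above (fun x => φ x + ε / 2) := by
    intro X hX
    have h1 : φ X.1 + ε ≤ X.2 := hX.2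
    show φ X.1 + ε / 2 < X.2
    linarith
  have hcont : ContinuousOn (nF (Fe φ x0 w ε))
      (Metric.closedBall X1 (2 * R') ∩ aboveC (fun x => φ x + ε)) := by
    have : nF (Fe φ x0 w ε) = fun X => ∑ a : Ix d, |Fe φ x0 w ε a X| := rfl
    rw [this]
    refine continuousOn_finsetSum _ fun a _ => ?_
    exact (((hfield.cd a).continuousOn).mono hKs).abs
  obtain ⟨B, hB⟩ := hK.exists_bound_of_continuousOn hcont
  set I : ℝ := ∫ Y, |fe φ w ε Y| with hI
  have hI0 : 0 ≤ I := integral_nonneg fun Y => abs_nonneg _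
  set T : ℝ := 1 + ‖X1‖ + 2 * R' with hT
  have hT0 : 0 ≤ T := by rw [hT]; linarith [norm_nonneg X1]
  set CF : ℝ := max B 0 * T ^ (d + 1) +
    (Fintype.card (Ix d) : ℝ) * (C * R' * I) * (2 + ‖X1‖) ^ (d + 1) with hCF
  have hA : 0 ≤ max B 0 * T ^ (d + 1) := mul_nonneg (le_max_right _ _) (pow_nonneg hT0 _)
  have hA2 : 0 ≤ (Fintype.card (Ix d) : ℝ) * (C * R' * I) * (2 + ‖X1‖) ^ (d + 1) := by
    have := norm_nonneg X1
    positivity
  refine ⟨CF, fun X hX => ?_⟩
  have hXpos : 0 < 1 + ‖X‖ := by linarith [norm_nonneg X]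
  have hpow : (1 + ‖X‖) ^ (-((d : ℝ) + 1)) = ((1 + ‖X‖) ^ (d + 1))⁻¹ := by
    rw [Real.rpow_neg hXpos.le]
    congr 1
    rw [← Real.rpow_natCast]
    congr 1
    push_cast
    ring
  rw [hpow, ← div_eq_mul_inv, le_div_iff₀ (pow_pos hXpos _)]
  rcases le_total ‖X - X1‖ (2 * R') with hle | hge
  · -- compact part
    have h1 : nF (Fe φ x0 w ε) X ≤ max B 0 := by
      have h2 := hB X ⟨by rw [Metric.mem_closedBall, dist_eq_norm]; exact hle, hX⟩
      rw [Real.norm_eq_abs] at h2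
      exact (le_abs_self _).trans (h2.trans (le_max_left _ _))
    have h3 : 1 + ‖X‖ ≤ T := by
      have : ‖X‖ ≤ ‖X - X1‖ + ‖X1‖ := by
        have h := norm_add_le (X - X1) X1
        rwa [sub_add_cancel] at h
      rw [hT]; linarith
    calc nF (Fe φ x0 w ε) X * (1 + ‖X‖) ^ (d + 1) ≤ max B 0 * T ^ (d + 1) :=
          mul_le_mul h1 (pow_le_pow_left₀ hXpos.le h3 _) (pow_nonneg hXpos.le _)
            (le_max_right _ _)
      _ ≤ CF := by rw [hCF]; linarith
  · -- far part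
    have hXX1 : 0 < ‖X - X1‖ := by linarith
    have hXX1' : 1 ≤ ‖X - X1‖ := by linarith
    have hXa : X ∈ above φ := by
      have h1 : φ X.1 + ε ≤ X.2 := hX
      show φ X.1 < X.2
      linarith
    have hXg : R < ‖X - gpt φ x0‖ := by linarith [hd1 X]
    have hopen : IsOpen (above φ ∩ {X : P d | R < ‖X - gpt φ x0‖}) := by
      refine IsOpen.inter ?_ ?_
      · exact isOpen_lt (hφc.comp continuous_fst) continuous_snd
      · exact isOpen_lt continuous_const ((continuous_id.sub continuous_const).norm)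
    have hev : w =ᶠ[𝓝 X] fun _ => (0 : ℝ) := by
      filter_upwards [hopen.mem_nhds ⟨hXa, hXg⟩] with Y hY
      exact hw0 Y hY.1 hY.2
    have hpd : ∀ a : Ix d, pd a w X = 0 := by
      intro a
      unfold pd
      rw [hev.fderiv_eq]
      simp
    have hFa : ∀ a : Ix d, |Fe φ x0 w ε a X| ≤ C * R' * I / ‖X - X1‖ ^ (d + 1) := by
      intro a
      have h1 := hfar (fe φ w ε) hint X1 R' (by linarith) hsupp' a X hge
      have h2 : Fe φ x0 w ε a X =
          -(NP (fe φ w ε) a X - (∫ Y, fe φ w ε Y) * nk a (X - X1)) := by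
        unfold Fe
        rw [hpd a]
        ring
      rw [h2, abs_neg]
      exact h1
    have hsum : nF (Fe φ x0 w ε) X ≤
        (Fintype.card (Ix d) : ℝ) * (C * R' * I / ‖X - X1‖ ^ (d + 1)) := by
      unfold nF
      refine (Finset.sum_le_sum fun a _ => hFa a).trans ?_
      rw [Finset.sum_const, Finset.card_univ, nsmul_eq_mul]
    have h3 : 1 + ‖X‖ ≤ (2 + ‖X1‖) * ‖X - X1‖ := by
      have h4 : ‖X‖ ≤ ‖X - X1‖ + ‖X1‖ := by
        have h := norm_add_le (X - X1) X1
        rwa [sub_add_cancel] at h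
      have h5 : ‖X1‖ ≤ ‖X1‖ * ‖X - X1‖ := le_mul_of_one_le_right (norm_nonneg _) hXX1'
      nlinarith
    have h6 : 0 ≤ C * R' * I / ‖X - X1‖ ^ (d + 1) := by positivity
    calc nF (Fe φ x0 w ε) X * (1 + ‖X‖) ^ (d + 1)
        ≤ ((Fintype.card (Ix d) : ℝ) * (C * R' * I / ‖X - X1‖ ^ (d + 1))) *
          ((2 + ‖X1‖) * ‖X - X1‖) ^ (d + 1) :=
          mul_le_mul hsum (pow_le_pow_left₀ hXpos.le h3 _) (pow_nonneg hXpos.le _)
            (mul_nonneg (Nat.cast_nonneg _) h6)
      _ = (Fintype.card (Ix d) : ℝ) * (C * R' * I) * (2 + ‖X1‖) ^ (d + 1) := by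
          rw [mul_pow]
          have : ‖X - X1‖ ^ (d + 1) ≠ 0 := (pow_pos hXX1 _).ne'
          field_simp
      _ ≤ CF := by rw [hCF]; linarith

end HG
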