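import Pool.Agent.W_MP_825298_an.Red4
import Pool.Agent.W_MP_825298_an.Above
import Pool.Agent.W_MP_825298_an.Newton3a

open MeasureTheory Set Filter Topology
open scoped ENNReal NNReal BigOperators

namespace HG
variable {d : ℕ}

theorem Red6_lintegral_Ioi {h : ℝ → ℝ≥0∞} {T : ℝ} (hT : ∀ τ, T < τ → h τ = 0) :
    ∫⁻ τ in Ioi (0 : ℝ), h τ = ∫⁻ τ in Ioc (0 : ℝ) T, h τ := by
  rw [← lintegral_indicator measurableSet_Ioi, ← lintegral_indicator measurableSet_Ioc]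
  refine lintegral_congr fun τ => ?_
  by_cases h0 : 0 < τ
  · by_cases h1 : τ ≤ T
    · rw [indicator_of_mem (show τ ∈ Ioi (0 : ℝ) from h0), indicator_of_mem (show τ ∈ Ioc (0 : ℝ) T from ⟨h0, h1⟩)]
    · rw [indicator_of_mem (show τ ∈ Ioi (0 : ℝ) from h0), indicator_of_notMem (fun h => h1 h.2), hT _ (not_le.1 h1)]
  · rw [indicator_of_notMem (show τ ∉ Ioi (0 : ℝ) from h0), indicator_of_notMem (fun h => h0 h.1)]

/-- Tonelli in the coordinates of the graph, for functions supported in a strip. -/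
theorem Red6_tonelli {M : ℝ≥0} {φ : E d → ℝ} (hφ : LipschitzWith M φ) {h : P d → ℝ≥0∞} (hh : Measurable h) {T : ℝ}
    (hs : ∀ Y, h Y ≠ 0 → φ Y.1 < Y.2 ∧ Y.2 ≤ φ Y.1 + T) :
    ∫⁻ Y, h Y = ∫⁻ τ in Ioc (0 : ℝ) T, ∫⁻ x : E d, h (x, φ x + τ) := by
  have h1 : ∫⁻ Y, h Y = ∫⁻ Y in above φ, h Y := by
    rw [← lintegral_indicator (measurableSet_above hφ)]
    refine lintegral_congr fun Y => ?_
    by_cases hY : Y ∈ above φ
    · rw [indicator_of_mem hY]
    · rw [indicator_of_notMem hY]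
      by_contra hc
      exact hY (hs Y hc).1
  rw [h1, lintegral_above hφ h hh.aemeasurable]
  have h2 : ∀ x : E d, ∫⁻ τ in Ioi (0 : ℝ), h (x, φ x + τ) = ∫⁻ τ in Ioc (0 : ℝ) T, h (x, φ x + τ) := by
    intro x
    refine Red6_lintegral_Ioi fun τ hτ => ?_
    by_contra hc
    have := (hs _ hc).2
    simp only at this
    linarith
  rw [lintegral_congr h2]
  refine lintegral_lintegral_swap ?_
  have hφm : Measurable φ := hφ.continuous.measurable
  exact (hh.comp (measurable_fst.prodMk ((hφm.comp measurable_fst).add measurable_snd))).aemeasurable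

/-- total mass from slices -/
theorem mass_le {M : ℝ≥0} {φ : E d → ℝ} (hφ : LipschitzWith M φ) {f : P d → ℝ} (hf : Measurable f) {T : ℝ}
    (hs : ∀ Y, f Y ≠ 0 → φ Y.1 < Y.2 ∧ Y.2 ≤ φ Y.1 + T) {B : ℝ≥0∞}
    (hB : ∀ τ : ℝ, 0 < τ → ∫⁻ x : E d, ENNReal.ofReal |f (x, φ x + τ)| ≤ B) :
    ∫⁻ Y, ENNReal.ofReal |f Y| ≤ ENNReal.ofReal T * B := by
  rw [Red6_tonelli hφ (h := fun Y => ENNReal.ofReal |f Y|) (ENNReal.measurable_ofReal.comp hf.abs) (T := T) (fun Y hY => hs Y (by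
    intro h0
    apply hY
    simp [h0]))]
  calc ∫⁻ τ in Ioc (0 : ℝ) T, ∫⁻ x : E d, ENNReal.ofReal |f (x, φ x + τ)| ≤ ∫⁻ _ in Ioc (0 : ℝ) T, B :=
        setLIntegral_mono' measurableSet_Ioc fun τ hτ => hB τ hτ.1
    _ = ENNReal.ofReal T * B := by
        rw [setLIntegral_const, Real.volume_Ioc, sub_zero, mul_comm]

theorem Red6_far_const (d : ℕ) : ∃ I : ℝ≥0∞, I ≠ ⊤ ∧ ∀ (x0 : E d) (R : ℝ), 1 ≤ R →
    ∫⁻ x in {x : E d | R ≤ ‖x - x0‖}, ENNReal.ofReal (1 / ‖x - x0‖ ^ (d + 1)) ≤ I := by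
  have hint : Integrable (fun x : E d => 2 ^ (d + 1) * (1 + ‖x‖) ^ (-((d : ℝ) + 1))) := by
    refine Integrable.const_mul ?_ _
    refine integrable_one_add_norm ?_
    rw [Module.finrank_fin_fun]
    linarith
  refine ⟨∫⁻ x : E d, ENNReal.ofReal (2 ^ (d + 1) * (1 + ‖x‖) ^ (-((d : ℝ) + 1))), hint.lintegral_lt_top.ne, ?_⟩
  intro x0 R hR
  have hms : MeasurableSet {x : E d | R ≤ ‖x - x0‖} :=
    (isClosed_le continuous_const ((continuous_id.sub continuous_const).norm)).measurableSet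
  calc ∫⁻ x in {x : E d | R ≤ ‖x - x0‖}, ENNReal.ofReal (1 / ‖x - x0‖ ^ (d + 1))
      ≤ ∫⁻ x in {x : E d | R ≤ ‖x - x0‖}, ENNReal.ofReal (2 ^ (d + 1) * (1 + ‖x - x0‖) ^ (-((d : ℝ) + 1))) := by
        refine setLIntegral_mono' hms fun x hx => ENNReal.ofReal_le_ofReal ?_
        have hx' : R ≤ ‖x - x0‖ := hx
        have hpos : 0 < ‖x - x0‖ := by linarith
        have h1 : (1 + ‖x - x0‖) ^ (-((d : ℝ) + 1)) = ((1 + ‖x - x0‖) ^ (d + 1))⁻¹ := by
          rw [Real.rpow_neg (by positivity)]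
          congr 1
          rw [← Real.rpow_natCast]
          push_cast
          rfl
        rw [h1, ← div_eq_mul_inv, div_le_div_iff₀ (by positivity) (by positivity), one_mul, ← mul_pow]
        exact pow_le_pow_left₀ (by positivity) (by linarith) _
    _ ≤ ∫⁻ x : E d, ENNReal.ofReal (2 ^ (d + 1) * (1 + ‖x - x0‖) ^ (-((d : ℝ) + 1))) := setLIntegral_le_lintegral _ _
    _ = ∫⁻ x : E d, ENNReal.ofReal (2 ^ (d + 1) * (1 + ‖x‖) ^ (-((d : ℝ) + 1))) :=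
        lintegral_sub_right_eq_self (fun x : E d => ENNReal.ofReal (2 ^ (d + 1) * (1 + ‖x‖) ^ (-((d : ℝ) + 1)))) x0

theorem Red6_half (C3 T : ℝ) : ∃ I : ℝ≥0∞, I ≠ ⊤ ∧ ∀ ε : ℝ, 0 < ε → ε ≤ 1 →
    ∫⁻ τ in Ioc (0 : ℝ) T, ENNReal.ofReal (C3 * |τ - ε| ^ (-(1 / 2) : ℝ)) ≤ I := by
  set a : ℝ := max T 1 with ha
  have ha1 : 1 ≤ a := le_max_right _ _
  have haT : T ≤ a := le_max_left _ _
  set G : ℝ → ℝ≥0∞ := fun s => ENNReal.ofReal (C3 * |s| ^ (-(1 / 2) : ℝ)) with hG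
  have hpos : ∫⁻ s in Icc 0 a, G s ≠ ⊤ := by
    have h1 : IntervalIntegrable (fun x : ℝ => x ^ (-(1 / 2) : ℝ)) volume 0 a :=
      intervalIntegral.intervalIntegrable_rpow' (by norm_num)
    have h2 : IntegrableOn (fun x : ℝ => x ^ (-(1 / 2) : ℝ)) (Icc 0 a) := by
      rw [integrableOn_Icc_iff_integrableOn_Ioc]
      exact (intervalIntegrable_iff_integrableOn_Ioc_of_le (by linarith)).1 h1
    have h3 : ∫⁻ s in Icc 0 a, G s = ∫⁻ s in Icc 0 a, ENNReal.ofReal (C3 * s ^ (-(1 / 2) : ℝ)) := by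
      refine setLIntegral_congr_fun measurableSet_Icc fun s hs => ?_
      simp only [hG]
      rw [abs_of_nonneg hs.1]
    rw [h3]
    exact (h2.const_mul C3).lintegral_lt_top.ne
  have hneg : ∫⁻ s in Icc (-a) 0, G s = ∫⁻ s in Icc 0 a, G s := by
    rw [← lintegral_indicator measurableSet_Icc, ← lintegral_indicator measurableSet_Icc,
      ← lintegral_neg_eq_self]
    refine lintegral_congr fun s => ?_
    have hGs : G (-s) = G s := by simp only [hG, abs_neg]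
    by_cases h : s ∈ Icc 0 a
    · rw [indicator_of_mem h, indicator_of_mem (show -s ∈ Icc (-a) 0 from ⟨by linarith [h.2], by linarith [h.1]⟩), hGs]
    · rw [indicator_of_notMem h, indicator_of_notMem]
      intro h'
      exact h ⟨by linarith [h'.2], by linarith [h'.1]⟩
  refine ⟨∫⁻ s in Icc (-a) a, G s, ?_, ?_⟩
  · rw [← Icc_union_Icc_eq_Icc (show -a ≤ 0 by linarith) (show (0 : ℝ) ≤ a by linarith)]
    refine ne_top_of_le_ne_top ?_ (lintegral_union_le _ _ _)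
    rw [hneg]
    exact ENNReal.add_ne_top.2 ⟨hpos, hpos⟩
  · intro ε hε hε1
    rw [← lintegral_indicator measurableSet_Ioc, ← lintegral_indicator measurableSet_Icc,
      ← lintegral_sub_right_eq_self (fun s => (Icc (-a) a).indicator G s) ε]
    refine lintegral_mono fun τ => ?_
    by_cases h : τ ∈ Ioc 0 T
    · rw [indicator_of_mem h, indicator_of_mem (show τ - ε ∈ Icc (-a) a from ⟨by linarith [h.1], by linarith [h.2]⟩)]
    · rw [indicator_of_notMem h]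
      exact bot_le

theorem Red6_near (hd : 1 ≤ d) (M : ℝ≥0) (R2 T : ℝ) : ∃ I : ℝ≥0∞, I ≠ ⊤ ∧
    ∀ (φ : E d → ℝ), LipschitzWith M φ → ∀ (x0 : E d) (f : P d → ℝ), Measurable f →
    (∀ Y, f Y ≠ 0 → φ Y.1 < Y.2 ∧ Y.2 ≤ φ Y.1 + T) →
    ∀ B : ℝ≥0∞, (∀ τ : ℝ, 0 < τ → ∫⁻ x : E d, ENNReal.ofReal |f (x, φ x + τ)| ≤ B) →
    ∀ ε : ℝ, 0 < ε → ε ≤ 1 →
    ∫⁻ x in Metric.ball x0 R2, ∫⁻ Y, ENNReal.ofReal (|f Y| / ‖((x, φ x + ε) : P d) - Y‖ ^ d) ≤ B * I := by
  obtain ⟨C3, hC3, hker⟩ := ker_slice hd M R2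
  obtain ⟨I, hI, hhalf⟩ := Red6_half C3 T
  refine ⟨I, hI, ?_⟩
  intro φ hφ x0 f hf hs B hB ε hε hε1
  have hφm : Measurable φ := hφ.continuous.measurable
  have hm1 : Measurable (fun p : E d × P d => ‖((p.1, φ p.1 + ε) : P d) - p.2‖ ^ d) := by
    have h1 : Measurable (fun p : E d × P d => (((p.1, φ p.1 + ε) : P d) - p.2)) :=
      (measurable_fst.prodMk ((hφm.comp measurable_fst).add_const ε)).sub measurable_snd
    exact h1.norm.pow_const d
  have hm2 : Measurable (fun p : E d × P d => ENNReal.ofReal (|f p.2| / ‖((p.1, φ p.1 + ε) : P d) - p.2‖ ^ d)) :=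
    ENNReal.measurable_ofReal.comp (((hf.comp measurable_snd).abs).div hm1)
  have hm3 : Measurable (fun p : E d × P d => ENNReal.ofReal (1 / ‖((p.1, φ p.1 + ε) : P d) - p.2‖ ^ d)) :=
    ENNReal.measurable_ofReal.comp (measurable_const.div hm1)
  set K : P d → ℝ≥0∞ := fun Y => ∫⁻ x in Metric.ball x0 R2, ENNReal.ofReal (1 / ‖((x, φ x + ε) : P d) - Y‖ ^ d) with hK
  have hKm : Measurable K := hm3.lintegral_prod_left'
  have hswap : ∫⁻ x in Metric.ball x0 R2, ∫⁻ Y, ENNReal.ofReal (|f Y| / ‖((x, φ x + ε) : P d) - Y‖ ^ d) =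
      ∫⁻ Y, ENNReal.ofReal |f Y| * K Y := by
    rw [lintegral_lintegral_swap hm2.aemeasurable]
    refine lintegral_congr fun Y => ?_
    rw [hK, ← lintegral_const_mul' _ _ ENNReal.ofReal_ne_top]
    refine lintegral_congr fun x => ?_
    rw [← ENNReal.ofReal_mul (abs_nonneg _)]
    congr 1
    ring
  rw [hswap, Red6_tonelli hφ (h := fun Y => ENNReal.ofReal |f Y| * K Y)
    ((ENNReal.measurable_ofReal.comp hf.abs).mul hKm) (T := T) (fun Y hY => hs Y (by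
      intro h0
      apply hY
      simp [h0]))]
  have hstep : ∀ τ : ℝ, 0 < τ → τ ≠ ε → ∫⁻ x : E d, ENNReal.ofReal |f (x, φ x + τ)| * K (x, φ x + τ) ≤
      B * ENNReal.ofReal (C3 * |τ - ε| ^ (-(1 / 2) : ℝ)) := by
    intro τ hτ hne
    calc ∫⁻ x : E d, ENNReal.ofReal |f (x, φ x + τ)| * K (x, φ x + τ)
        ≤ ∫⁻ x : E d, ENNReal.ofReal |f (x, φ x + τ)| * ENNReal.ofReal (C3 * |τ - ε| ^ (-(1 / 2) : ℝ)) := by
          refine lintegral_mono fun x => mul_le_mul_right ?_ _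
          have h1 := hker φ hφ x0 (x, φ x + τ) ε (by simpa using hne)
          simpa [hK] using h1
      _ = (∫⁻ x : E d, ENNReal.ofReal |f (x, φ x + τ)|) * ENNReal.ofReal (C3 * |τ - ε| ^ (-(1 / 2) : ℝ)) :=
          lintegral_mul_const' _ _ ENNReal.ofReal_ne_top
      _ ≤ B * ENNReal.ofReal (C3 * |τ - ε| ^ (-(1 / 2) : ℝ)) := mul_le_mul_left (hB τ hτ) _
  calc ∫⁻ τ in Ioc (0 : ℝ) T, ∫⁻ x : E d, ENNReal.ofReal |f (x, φ x + τ)| * K (x, φ x + τ)
      ≤ ∫⁻ τ in Ioc (0 : ℝ) T, B * ENNReal.ofReal (C3 * |τ - ε| ^ (-(1 / 2) : ℝ)) := by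
        refine lintegral_mono_ae ?_
        have hae : ∀ᵐ τ ∂(volume.restrict (Ioc (0 : ℝ) T)), τ ≠ ε :=
          ae_restrict_of_ae (by
            have : (volume : Measure ℝ) {ε} = 0 := Real.volume_singleton
            exact compl_mem_ae_iff.2 this)
        filter_upwards [hae, ae_restrict_mem measurableSet_Ioc] with τ h1 h2
        exact hstep τ h2.1 h1
    _ = B * ∫⁻ τ in Ioc (0 : ℝ) T, ENNReal.ofReal (C3 * |τ - ε| ^ (-(1 / 2) : ℝ)) := by
        refine lintegral_const_mul _ ?_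
        exact ENNReal.measurable_ofReal.comp (measurable_const.mul
          (((measurable_id.sub_const ε).abs).pow_const _))
    _ ≤ B * I := mul_le_mul_right (hhalf ε hε hε1) _

/-- `L¹` bound on the graph of `φ + ε` of the corrected Newtonian potential, uniform in `ε`.
For `‖x-x0‖ ≥ 2(R+1)` use `NP_far` (`X1 = bpt φ x0`, the support of `f` is in `closedBall X1 (R+1)`), `∫ |f| ≤ T B`, and
`∫_{‖x-x0‖≥2(R+1)} ‖x-x0‖^{-(d+1)} dx < ∞`.
For `‖x-x0‖ < 2(R+1)`: `NP_crude`, Tonelli, `ker_slice`, `lintegral_above`, Tonelli again: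
`∫∫ |f(y,φ y+τ)| |τ-ε|^{-1/2} dy dτ ≤ B ∫_0^T |τ-ε|^{-1/2} dτ ≤ 8 √(T+1) B`; and `|(∫f) nk a (X - X1)| ≤ T B C (1+M)^d` (`nk_bound`,
`‖X - X1‖ ≥ 1/(1+M)` for `X` above the graph). (If `B = ⊤` there is nothing to prove as `C` may be taken nonzero.) -/
theorem bdry_bound (hd : 1 ≤ d) (M : ℝ≥0) (R T : ℝ) (hR : 0 < R) (hT : 0 < T) : ∃ C : ℝ≥0∞, C ≠ ⊤ ∧
    ∀ (φ : E d → ℝ), LipschitzWith M φ → ∀ (x0 : E d) (f : P d → ℝ), Measurable f →
    (∀ Y, f Y ≠ 0 → ‖Y - gpt φ x0‖ ≤ R ∧ φ Y.1 < Y.2 ∧ Y.2 ≤ φ Y.1 + T) →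
    ∀ B : ℝ≥0∞, B ≠ ⊤ → (∀ τ : ℝ, 0 < τ → ∫⁻ x : E d, ENNReal.ofReal |f (x, φ x + τ)| ≤ B) →
    ∀ ε : ℝ, 0 < ε → ε ≤ 1 →
    ∫⁻ x : E d, ENNReal.ofReal (∑ a : Ix d, |NP f a (x, φ x + ε) - (∫ Y, f Y) * nk a (((x, φ x + ε) : P d) - bpt φ x0)|)
      ≤ C * B := by
  obtain ⟨C1, hC1, hfar⟩ := NP_far d
  obtain ⟨C2, hC2, hcrude⟩ := NP_crude d
  obtain ⟨C4, hC4, hnk, -⟩ := nk_bound d
  obtain ⟨I1, hI1, hI1'⟩ := Red6_far_const d
  obtain ⟨I2, hI2, hI2'⟩ := Red6_near hd M (2 * (R + 1)) T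
  set V : ℝ≥0∞ := ENNReal.ofReal ((2 * (2 * (R + 1))) ^ d) with hV
  have hVt : V ≠ ⊤ := ENNReal.ofReal_ne_top
  refine ⟨((d + 1 : ℕ) : ℝ≥0∞) * (ENNReal.ofReal C2 * I2 + ENNReal.ofReal T * ENNReal.ofReal (C4 * (1 + M) ^ d) * V) +
    ((d + 1 : ℕ) : ℝ≥0∞) * (ENNReal.ofReal (C1 * (R + 1)) * ENNReal.ofReal T * I1), ?_, ?_⟩
  · refine ENNReal.add_ne_top.2 ⟨ENNReal.mul_ne_top (ENNReal.natCast_ne_top _) (ENNReal.add_ne_top.2
      ⟨ENNReal.mul_ne_top ENNReal.ofReal_ne_top hI2,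
        ENNReal.mul_ne_top (ENNReal.mul_ne_top ENNReal.ofReal_ne_top ENNReal.ofReal_ne_top) hVt⟩),
      ENNReal.mul_ne_top (ENNReal.natCast_ne_top _)
        (ENNReal.mul_ne_top (ENNReal.mul_ne_top ENNReal.ofReal_ne_top ENNReal.ofReal_ne_top) hI1)⟩
  intro φ hφ x0 f hf hs B hBt hB ε hε hε1
  have hM0 : (0 : ℝ) ≤ M := M.coe_nonneg
  have hlip : ∀ a b : E d, |φ a - φ b| ≤ M * ‖a - b‖ := by
    intro a b
    have := hφ.dist_le_mul a b
    rwa [Real.dist_eq, dist_eq_norm] at this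
  have hmass := mass_le hφ hf (fun Y hY => (hs Y hY).2) hB
  have hint : Integrable f := by
    refine ⟨hf.aestronglyMeasurable, ?_⟩
    rw [hasFiniteIntegral_iff_norm]
    refine lt_of_le_of_lt hmass ?_
    exact ENNReal.mul_lt_top ENNReal.ofReal_lt_top (lt_top_iff_ne_top.2 hBt)
  have hofint : ENNReal.ofReal (∫ Y, |f Y|) ≤ ENNReal.ofReal T * B := by
    rw [ofReal_integral_eq_lintegral_ofReal hint.abs (Filter.Eventually.of_forall fun Y => abs_nonneg _)]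
    exact hmass
  have habsint : |∫ Y, f Y| ≤ ∫ Y, |f Y| := abs_integral_le_integral_abs
  have hnd0 : 0 ≤ ∫ Y, |f Y| := integral_nonneg fun _ => abs_nonneg _
  -- sum over `a`
  have hsum : ∀ (x : E d) (b : ℝ≥0∞), (∀ a : Ix d, ENNReal.ofReal
      |NP f a (x, φ x + ε) - (∫ Y, f Y) * nk a (((x, φ x + ε) : P d) - bpt φ x0)| ≤ b) →
      ENNReal.ofReal (∑ a : Ix d, |NP f a (x, φ x + ε) - (∫ Y, f Y) * nk a (((x, φ x + ε) : P d) - bpt φ x0)|) ≤
        ((d + 1 : ℕ) : ℝ≥0∞) * b := by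
    intro x b hb
    rw [ENNReal.ofReal_sum_of_nonneg fun a _ => abs_nonneg _]
    refine (Finset.sum_le_sum fun a _ => hb a).trans ?_
    rw [Finset.sum_const, Finset.card_univ, Fintype.card_option, Fintype.card_fin, nsmul_eq_mul]
  rw [← lintegral_add_compl _ (measurableSet_ball (x := x0) (ε := 2 * (R + 1))), add_mul]
  refine add_le_add ?_ ?_
  · -- near part
    have hpt : ∀ x ∈ Metric.ball x0 (2 * (R + 1)),
        ENNReal.ofReal (∑ a : Ix d, |NP f a (x, φ x + ε) - (∫ Y, f Y) * nk a (((x, φ x + ε) : P d) - bpt φ x0)|) ≤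
        ((d + 1 : ℕ) : ℝ≥0∞) * (ENNReal.ofReal C2 * (∫⁻ Y, ENNReal.ofReal (|f Y| / ‖((x, φ x + ε) : P d) - Y‖ ^ d)) +
          ENNReal.ofReal T * B * ENNReal.ofReal (C4 * (1 + M) ^ d)) := by
      intro x _
      refine hsum x _ fun a => ?_
      have h1 : |NP f a (x, φ x + ε) - (∫ Y, f Y) * nk a (((x, φ x + ε) : P d) - bpt φ x0)| ≤
          |NP f a (x, φ x + ε)| + |(∫ Y, f Y) * nk a (((x, φ x + ε) : P d) - bpt φ x0)| := abs_sub _ _
      refine (ENNReal.ofReal_le_ofReal h1).trans ?_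
      rw [ENNReal.ofReal_add (abs_nonneg _) (abs_nonneg _)]
      refine add_le_add (hcrude f a _) ?_
      -- lower bound for the norm
      have hnorm : 1 / (1 + (M : ℝ)) ≤ ‖((x, φ x + ε) : P d) - bpt φ x0‖ := by
        by_cases hc : 1 / (1 + (M : ℝ)) ≤ ‖x - x0‖
        · exact hc.trans (norm_fst_le (((x, φ x + ε) : P d) - bpt φ x0))
        · have hc' := (not_le.1 hc).le
          have h2 : |φ x - φ x0| ≤ M * (1 / (1 + M)) :=
            (hlip x x0).trans (mul_le_mul_of_nonneg_left hc' hM0)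
          have h3 := (abs_le.1 h2).1
          have h4 : (M : ℝ) * (1 / (1 + M)) = 1 - 1 / (1 + M) := by field_simp; ring
          calc 1 / (1 + (M : ℝ)) ≤ (φ x + ε) - (φ x0 - 1) := by linarith
            _ ≤ |(φ x + ε) - (φ x0 - 1)| := le_abs_self _
            _ = ‖(((x, φ x + ε) : P d) - bpt φ x0).2‖ := rfl
            _ ≤ _ := norm_snd_le _
      have hne : ((x, φ x + ε) : P d) - bpt φ x0 ≠ 0 := by
        intro h0
        rw [h0, norm_zero] at hnorm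
        have : 0 < 1 / (1 + (M : ℝ)) := by positivity
        linarith
      have h5 := hnk a _ hne
      have h6 : C4 / ‖((x, φ x + ε) : P d) - bpt φ x0‖ ^ d ≤ C4 * (1 + M) ^ d := by
        rw [div_le_iff₀ (pow_pos (norm_pos_iff.2 hne) d), mul_assoc, ← mul_pow]
        have h7 : 1 ≤ (1 + (M : ℝ)) * ‖((x, φ x + ε) : P d) - bpt φ x0‖ := by
          have := mul_le_mul_of_nonneg_left hnorm (by positivity : (0 : ℝ) ≤ 1 + M)
          rwa [mul_one_div_cancel (by positivity)] at this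
        have h8 := one_le_pow₀ h7 (n := d)
        nlinarith
      rw [abs_mul, ENNReal.ofReal_mul (abs_nonneg _)]
      exact mul_le_mul' ((ENNReal.ofReal_le_ofReal habsint).trans hofint) (ENNReal.ofReal_le_ofReal (h5.trans h6))
    refine (setLIntegral_mono' measurableSet_ball hpt).trans ?_
    rw [lintegral_const_mul' _ _ (ENNReal.natCast_ne_top _), mul_assoc ((d + 1 : ℕ) : ℝ≥0∞) _ B]
    refine mul_le_mul' (le_refl ((d + 1 : ℕ) : ℝ≥0∞)) ?_
    rw [lintegral_add_right _ measurable_const, lintegral_const_mul' _ _ ENNReal.ofReal_ne_top, setLIntegral_const,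
      Real.volume_pi_ball _ (by positivity), Fintype.card_fin, ← hV]
    have h9 := hI2' φ hφ x0 f hf (fun Y hY => (hs Y hY).2) B hB ε hε hε1
    calc ENNReal.ofReal C2 * (∫⁻ x in Metric.ball x0 (2 * (R + 1)), ∫⁻ Y,
            ENNReal.ofReal (|f Y| / ‖((x, φ x + ε) : P d) - Y‖ ^ d)) +
            ENNReal.ofReal T * B * ENNReal.ofReal (C4 * (1 + M) ^ d) * V
        ≤ ENNReal.ofReal C2 * (B * I2) + ENNReal.ofReal T * B * ENNReal.ofReal (C4 * (1 + M) ^ d) * V :=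
          add_le_add_left (mul_le_mul_right h9 _) _
      _ = (ENNReal.ofReal C2 * I2 + ENNReal.ofReal T * ENNReal.ofReal (C4 * (1 + M) ^ d) * V) * B := by ring
  · -- far part
    have hpt : ∀ x ∈ (Metric.ball x0 (2 * (R + 1)))ᶜ,
        ENNReal.ofReal (∑ a : Ix d, |NP f a (x, φ x + ε) - (∫ Y, f Y) * nk a (((x, φ x + ε) : P d) - bpt φ x0)|) ≤
        ((d + 1 : ℕ) : ℝ≥0∞) * (ENNReal.ofReal (C1 * (R + 1)) * (ENNReal.ofReal T * B) *
          ENNReal.ofReal (1 / ‖x - x0‖ ^ (d + 1))) := by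
      intro x hx
      refine hsum x _ fun a => ?_
      have hx' : 2 * (R + 1) ≤ ‖x - x0‖ := by
        rw [mem_compl_iff, Metric.mem_ball, not_lt, dist_eq_norm] at hx
        exact hx
      have hXn : ‖x - x0‖ ≤ ‖((x, φ x + ε) : P d) - bpt φ x0‖ := norm_fst_le (((x, φ x + ε) : P d) - bpt φ x0)
      have hsupp : ∀ Y, R + 1 < ‖Y - bpt φ x0‖ → f Y = 0 := by
        intro Y hY
        by_contra hc
        have h1 := (hs Y hc).1
        have h2 : ‖gpt φ x0 - bpt φ x0‖ ≤ 1 := by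
          rw [norm_prod_le_iff]
          constructor
          · change ‖x0 - x0‖ ≤ 1
            simp
          · change |φ x0 - (φ x0 - 1)| ≤ 1
            simp
        have h3 : ‖Y - bpt φ x0‖ ≤ ‖Y - gpt φ x0‖ + ‖gpt φ x0 - bpt φ x0‖ := by
          have := norm_add_le (Y - gpt φ x0) (gpt φ x0 - bpt φ x0)
          rwa [sub_add_sub_cancel] at this
        linarith
      have h4 := hfar f hint (bpt φ x0) (R + 1) (by linarith) hsupp a (x, φ x + ε) (by linarith)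
      have hpos : 0 < ‖x - x0‖ := by linarith
      have h5 : C1 * (R + 1) * (∫ Y, |f Y|) / ‖((x, φ x + ε) : P d) - bpt φ x0‖ ^ (d + 1) ≤
          C1 * (R + 1) * (∫ Y, |f Y|) * (1 / ‖x - x0‖ ^ (d + 1)) := by
        rw [mul_one_div]
        exact div_le_div_of_nonneg_left (by positivity) (by positivity)
          (pow_le_pow_left₀ hpos.le hXn _)
      refine (ENNReal.ofReal_le_ofReal (h4.trans h5)).trans ?_
      rw [ENNReal.ofReal_mul (by positivity), ENNReal.ofReal_mul (by positivity)]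
      exact mul_le_mul_left (mul_le_mul_right hofint _) _
    refine (setLIntegral_mono' measurableSet_ball.compl hpt).trans ?_
    rw [lintegral_const_mul' _ _ (ENNReal.natCast_ne_top _), mul_assoc]
    refine mul_le_mul' (le_refl ((d + 1 : ℕ) : ℝ≥0∞)) ?_
    rw [lintegral_const_mul' _ _ (ENNReal.mul_ne_top ENNReal.ofReal_ne_top (ENNReal.mul_ne_top ENNReal.ofReal_ne_top hBt))]
    have hset : (Metric.ball x0 (2 * (R + 1)))ᶜ = {x : E d | 2 * (R + 1) ≤ ‖x - x0‖} := by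
      ext x
      rw [mem_compl_iff, Metric.mem_ball, not_lt, dist_eq_norm]
      rfl
    rw [hset]
    have h6 := hI1' x0 (2 * (R + 1)) (by linarith)
    calc ENNReal.ofReal (C1 * (R + 1)) * (ENNReal.ofReal T * B) *
          ∫⁻ x in {x : E d | 2 * (R + 1) ≤ ‖x - x0‖}, ENNReal.ofReal (1 / ‖x - x0‖ ^ (d + 1))
        ≤ ENNReal.ofReal (C1 * (R + 1)) * (ENNReal.ofReal T * B) * I1 := mul_le_mul_right h6 _
      _ = ENNReal.ofReal (C1 * (R + 1)) * ENNReal.ofReal T * I1 * B := by ring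

end HG
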