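import Pool.Agent.W_MP_825298_an.Red1
import Pool.Agent.W_MP_825298_an.Red2
import Pool.Agent.W_MP_825298_an.Red5c
import Pool.Agent.W_MP_825298_an.Red6

open MeasureTheory Set Filter Topology
open scoped ENNReal NNReal BigOperators

namespace HG
variable {d : ℕ}

namespace Red7

theorem isOpen_above {M : ℝ≥0} {φ : E d → ℝ} (hφ : LipschitzWith M φ) : IsOpen (above φ) := by
  unfold above
  exact isOpen_lt (hφ.continuous.comp continuous_fst) continuous_snd

theorem nF_nonneg (F : Ix d → P d → ℝ) (X : P d) : 0 ≤ nF F X :=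
  Finset.sum_nonneg fun _ _ => abs_nonneg _

theorem pd_congr {w u : P d → ℝ} {X : P d} (h : w =ᶠ[𝓝 X] u) (a : Ix d) : pd a w X = pd a u X := by
  unfold pd
  rw [h.fderiv_eq]

theorem pd_congr' {w u : P d → ℝ} {X : P d} (h : w =ᶠ[𝓝 X] u) (a : Ix d) : pd a w =ᶠ[𝓝 X] pd a u := by
  filter_upwards [h.fderiv (𝕜 := ℝ)] with Y hY
  unfold pd
  rw [hY]

theorem lap_congr {w u : P d → ℝ} {X : P d} (h : w =ᶠ[𝓝 X] u) : lap w X = lap u X := by
  unfold lap
  exact Finset.sum_congr rfl fun a _ => pd_congr (pd_congr' h a) a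

theorem nFgr_congr {w u : P d → ℝ} {X : P d} (h : w =ᶠ[𝓝 X] u) : nF (gr w) X = nF (gr u) X := by
  unfold nF gr
  exact Finset.sum_congr rfl fun a _ => by rw [pd_congr h a]

theorem nFgr_measurable (w : P d → ℝ) : Measurable (nF (gr w)) := by
  unfold nF gr pd
  apply Finset.measurable_fun_sum
  intro a _
  have h : Measurable fun X => fderiv ℝ w X (eb a) := measurable_fderiv_apply_const ℝ w (eb a)
  exact h.abs

theorem card_Ix (d : ℕ) : (Finset.univ : Finset (Ix d)).card = d + 1 := by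
  simp [Ix]

/-- distance to the lower pole -/
theorem dist_bpt {M : ℝ≥0} {φ : E d → ℝ} (hφ : LipschitzWith M φ) {x0 : E d} {X : P d} (hX : X ∈ above φ) :
    1 ≤ (1 + (M : ℝ)) * ‖X - bpt φ x0‖ := by
  have h1 : ‖X.1 - x0‖ ≤ ‖X - bpt φ x0‖ := by
    have : (X - bpt φ x0).1 = X.1 - x0 := rfl
    rw [← this]
    exact norm_fst_le _
  have h2 : |X.2 - (φ x0 - 1)| ≤ ‖X - bpt φ x0‖ := by
    have : (X - bpt φ x0).2 = X.2 - (φ x0 - 1) := rfl
    rw [← this, ← Real.norm_eq_abs]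
    exact norm_snd_le _
  have h3 : |φ X.1 - φ x0| ≤ M * ‖X.1 - x0‖ := by
    have := hφ.dist_le_mul X.1 x0
    rwa [Real.dist_eq, dist_eq_norm] at this
  have h4 : φ X.1 < X.2 := hX
  have h5 := (abs_le.1 h3).1
  have h6 := (abs_le.1 h2).2
  have h7 : (M : ℝ) * ‖X.1 - x0‖ ≤ M * ‖X - bpt φ x0‖ := mul_le_mul_of_nonneg_left h1 M.2
  nlinarith

end Red7

open Red7 in
/-- Uniform bound of the boundary values of `Fe`, and the pointwise comparison of `∇u` with `Fe` near the base point.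
`r1 = ρ/(4(1+M))`.  `f = fe φ w ε` satisfies the hypotheses of `bdry_bound` with `R = 2 r1`, `T = ρ/2` and slices `≤ Cc B`
(`slice_bound`, `CutP.le2`, `near_mem_bx`), `∇w` has slices `≤ Cc B` (`CutP.le1`; it vanishes for `‖X-gpt‖ > 2 r1`).
Pointwise: for `‖X - gpt‖ < r1/2`: `pd a u X = pd a w X`, `f = 0` on `ball gpt r1` (there `w = u`, `lap u = 0`), so
`|NP f a X| ≤ C (2/r1)^d ∫|f|` (`NP_crude`), and `|(∫f) nk a (X - X1)| ≤ C (1+M)^d ∫|f|`. -/
theorem Fe_bounds (hd : 1 ≤ d) {M : ℝ≥0} {φ : E d → ℝ} (hφ : LipschitzWith M φ) {x0 : E d} {ρ : ℝ} (hρ : 0 < ρ)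
    {u : P d → ℝ} {A : ℝ≥0∞} (hA : A ≠ ⊤) (hu : LocHarm φ x0 ρ u A) {Cc : ℝ} (hCc : 0 ≤ Cc) {w : P d → ℝ}
    (hw : CutP φ x0 (ρ / (4 * (1 + M))) Cc u w) :
    ∃ B : ℝ≥0∞, B ≠ ⊤ ∧ ∀ ε : ℝ, 0 < ε → ε ≤ 1 → ε ≤ ρ / 2 →
      (∫⁻ x : E d, ENNReal.ofReal (nF (Fe φ x0 w ε) (x, φ x + ε)) ≤ B) ∧
      (∀ X ∈ above φ, ‖X - gpt φ x0‖ < ρ / (4 * (1 + M)) / 2 →
        ENNReal.ofReal (nF (gr u) X) ≤ ENNReal.ofReal (nF (Fe φ x0 w ε) X) + B) := by
  obtain ⟨r1, hr1⟩ : ∃ r1 : ℝ, r1 = ρ / (4 * (1 + M)) := ⟨_, rfl⟩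
  have hM0 : (0 : ℝ) ≤ M := M.2
  have hr1pos : 0 < r1 := by rw [hr1]; positivity
  rw [← hr1] at hw ⊢
  obtain ⟨B0, hB0, hsl⟩ := slice_bound hφ hρ hA hu
  obtain ⟨C1, hC1, hbd⟩ := bdry_bound hd M (2 * r1) (ρ / 2) (by positivity) (by positivity)
  obtain ⟨C2, hC2, hNP⟩ := NP_crude d
  obtain ⟨C3, hC3, hnk, -⟩ := nk_bound d
  have hnear : ∀ X ∈ above φ, ‖X - gpt φ x0‖ ≤ 2 * r1 → X ∈ bx φ x0 ρ ∧ ‖X.1 - x0‖ ≤ ρ / 2 ∧ X.2 - φ X.1 ≤ ρ / 2 := by
    intro X hX hn
    rw [hr1] at hn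
    exact near_mem_bx hφ hρ hX hn
  obtain ⟨B', hB'⟩ : ∃ B', B' = ENNReal.ofReal Cc * B0 := ⟨_, rfl⟩
  have hB'top : B' ≠ ⊤ := by rw [hB']; exact ENNReal.mul_ne_top ENNReal.ofReal_ne_top hB0
  obtain ⟨ms, hms⟩ : ∃ ms, ms = ENNReal.ofReal (ρ / 2) * B' := ⟨_, rfl⟩
  have hmstop : ms ≠ ⊤ := by rw [hms]; exact ENNReal.mul_ne_top ENNReal.ofReal_ne_top hB'top
  obtain ⟨Kp, hKp⟩ : ∃ Kp : ℝ≥0∞, Kp = ENNReal.ofReal C2 * (ENNReal.ofReal ((2 / r1) ^ d) * ms)
      + ENNReal.ofReal (C3 * (1 + M) ^ d) * ms := ⟨_, rfl⟩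
  have hKptop : Kp ≠ ⊤ := by
    rw [hKp]
    exact ENNReal.add_ne_top.2 ⟨ENNReal.mul_ne_top ENNReal.ofReal_ne_top
      (ENNReal.mul_ne_top ENNReal.ofReal_ne_top hmstop), ENNReal.mul_ne_top ENNReal.ofReal_ne_top hmstop⟩
  have hopen := isOpen_above hφ
  refine ⟨(B' + C1 * B') + ((d : ℝ≥0∞) + 1) * Kp, ?_, ?_⟩
  · refine ENNReal.add_ne_top.2 ⟨ENNReal.add_ne_top.2 ⟨hB'top, ENNReal.mul_ne_top hC1 hB'top⟩, ?_⟩
    exact ENNReal.mul_ne_top (ENNReal.add_ne_top.2 ⟨ENNReal.natCast_ne_top d, ENNReal.one_ne_top⟩) hKptop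
  intro ε hε hε1 hερ
  obtain ⟨hfm, -, hf0⟩ := fe_facts hφ hw.cd (R := 2 * r1) hw.zero hε
  obtain ⟨f, hf⟩ : ∃ f, f = fe φ w ε := ⟨_, rfl⟩
  rw [← hf] at hfm hf0
  -- support
  have hfs : ∀ Y, f Y ≠ 0 → Y ∈ above φ ∧ ‖Y - gpt φ x0‖ ≤ 2 * r1 ∧ f Y = lap w Y := by
    intro Y hY
    have h1 : φ Y.1 + ε / 2 < Y.2 := by
      by_contra h
      apply hY
      rw [hf]
      unfold fe
      rw [if_neg h]
    refine ⟨?_, ?_, ?_⟩
    · show φ Y.1 < Y.2
      linarith
    · by_contra h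
      exact hY (hf0 Y (not_le.1 h))
    · rw [hf]
      unfold fe
      rw [if_pos h1]
  have hfs2 : ∀ Y, f Y ≠ 0 → ‖Y - gpt φ x0‖ ≤ 2 * r1 ∧ φ Y.1 < Y.2 ∧ Y.2 ≤ φ Y.1 + ρ / 2 := by
    intro Y hY
    obtain ⟨h1, h2, -⟩ := hfs Y hY
    obtain ⟨-, -, h3⟩ := hnear Y h1 h2
    exact ⟨h2, h1, by linarith⟩
  -- f vanishes near the base point
  have hfar : ∀ Y, f Y ≠ 0 → r1 ≤ ‖Y - gpt φ x0‖ := by
    intro Y hY
    by_contra h
    push Not at h
    obtain ⟨h1, h2, h3⟩ := hfs Y hY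
    apply hY
    rw [h3]
    have he : w =ᶠ[𝓝 Y] u := by
      have ho : IsOpen (above φ ∩ {X : P d | ‖X - gpt φ x0‖ < r1}) :=
        hopen.inter (isOpen_lt (continuous_id.sub continuous_const).norm continuous_const)
      filter_upwards [ho.mem_nhds ⟨h1, h⟩] with X hX
      exact hw.eq X hX.1 hX.2
    rw [lap_congr he]
    exact hu.harm Y (hnear Y h1 h2).1
  -- slices of f
  have hfsl : ∀ τ : ℝ, 0 < τ → ∫⁻ x : E d, ENNReal.ofReal |f (x, φ x + τ)| ≤ B' := by
    intro τ hτ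
    by_cases hτρ : τ ≤ ρ / 2
    · have hpt : ∀ x : E d, ENNReal.ofReal |f (x, φ x + τ)| ≤
          (Metric.closedBall x0 (ρ / 2)).indicator (fun x => ENNReal.ofReal Cc *
            ENNReal.ofReal (|u (x, φ x + τ)| + nF (gr u) (x, φ x + τ))) x := by
        intro x
        by_cases h0 : f (x, φ x + τ) = 0
        · rw [h0, abs_zero, ENNReal.ofReal_zero]
          exact bot_le
        · obtain ⟨h1, h2, h3⟩ := hfs _ h0
          obtain ⟨-, h4, -⟩ := hnear _ h1 h2
          have hx : x ∈ Metric.closedBall x0 (ρ / 2) := by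
            rw [Metric.mem_closedBall, dist_eq_norm]
            exact h4
          rw [Set.indicator_of_mem hx, ← ENNReal.ofReal_mul hCc, h3]
          exact ENNReal.ofReal_le_ofReal (hw.le2 _ h1 h2)
      refine (lintegral_mono hpt).trans ?_
      rw [lintegral_indicator Metric.isClosed_closedBall.measurableSet,
        lintegral_const_mul' _ _ ENNReal.ofReal_ne_top, hB']
      exact mul_le_mul_right (hsl τ hτ hτρ) _
    · have : ∀ x : E d, ENNReal.ofReal |f (x, φ x + τ)| = 0 := by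
        intro x
        by_cases h0 : f (x, φ x + τ) = 0
        · rw [h0, abs_zero, ENNReal.ofReal_zero]
        · exfalso
          have := (hfs2 _ h0).2.2
          simp only at this
          linarith
      simp [this]
  have hmass : ∫⁻ Y, ENNReal.ofReal |f Y| ≤ ms := by
    rw [hms]
    exact mass_le hφ hfm (fun Y hY => (hfs2 Y hY).2) hfsl
  -- slices of the gradient of w
  have hwsl : ∫⁻ x : E d, ENNReal.ofReal (nF (gr w) (x, φ x + ε)) ≤ B' := by
    have hpt : ∀ x : E d, ENNReal.ofReal (nF (gr w) (x, φ x + ε)) ≤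
        (Metric.closedBall x0 (ρ / 2)).indicator (fun x => ENNReal.ofReal Cc *
          ENNReal.ofReal (|u (x, φ x + ε)| + nF (gr u) (x, φ x + ε))) x := by
      intro x
      have h1 : ((x, φ x + ε) : P d) ∈ above φ := by
        show φ x < φ x + ε
        linarith
      by_cases h2 : ‖((x, φ x + ε) : P d) - gpt φ x0‖ ≤ 2 * r1
      · obtain ⟨-, h4, -⟩ := hnear _ h1 h2
        have hx : x ∈ Metric.closedBall x0 (ρ / 2) := by
          rw [Metric.mem_closedBall, dist_eq_norm]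
          exact h4
        rw [Set.indicator_of_mem hx, ← ENNReal.ofReal_mul hCc]
        exact ENNReal.ofReal_le_ofReal (hw.le1 _ h1 h2)
      · push Not at h2
        have he : w =ᶠ[𝓝 ((x, φ x + ε) : P d)] fun _ => 0 := by
          have ho : IsOpen (above φ ∩ {X : P d | 2 * r1 < ‖X - gpt φ x0‖}) :=
            hopen.inter (isOpen_lt continuous_const (continuous_id.sub continuous_const).norm)
          filter_upwards [ho.mem_nhds ⟨h1, h2⟩] with X hX
          exact hw.zero X hX.1 hX.2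
        have : nF (gr w) (x, φ x + ε) = 0 := by
          rw [nFgr_congr he]
          unfold nF gr pd
          simp
        rw [this, ENNReal.ofReal_zero]
        exact bot_le
    refine (lintegral_mono hpt).trans ?_
    rw [lintegral_indicator Metric.isClosed_closedBall.measurableSet,
      lintegral_const_mul' _ _ ENNReal.ofReal_ne_top, hB']
    exact mul_le_mul_right (hsl ε hε hερ) _
  constructor
  · have hpt : ∀ x : E d, ENNReal.ofReal (nF (Fe φ x0 w ε) (x, φ x + ε)) ≤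
        ENNReal.ofReal (nF (gr w) (x, φ x + ε)) +
        ENNReal.ofReal (∑ a : Ix d, |NP f a (x, φ x + ε) - (∫ Y, f Y) * nk a (((x, φ x + ε) : P d) - bpt φ x0)|) := by
      intro x
      rw [← ENNReal.ofReal_add (nF_nonneg _ _) (Finset.sum_nonneg fun _ _ => abs_nonneg _)]
      apply ENNReal.ofReal_le_ofReal
      unfold nF gr Fe
      rw [← Finset.sum_add_distrib]
      apply Finset.sum_le_sum
      intro a _
      rw [← hf]
      have : pd a w (x, φ x + ε) - NP f a (x, φ x + ε) + (∫ Y, f Y) * nk a (((x, φ x + ε) : P d) - bpt φ x0)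
          = pd a w (x, φ x + ε) - (NP f a (x, φ x + ε) - (∫ Y, f Y) * nk a (((x, φ x + ε) : P d) - bpt φ x0)) := by ring
      rw [this]
      exact abs_sub _ _
    refine (lintegral_mono hpt).trans ?_
    have hmeas : Measurable fun x : E d => ENNReal.ofReal (nF (gr w) (x, φ x + ε)) := by
      apply Measurable.ennreal_ofReal
      exact (nFgr_measurable w).comp (measurable_id.prodMk (hφ.continuous.measurable.add_const ε))
    rw [lintegral_add_left hmeas]
    refine le_trans (add_le_add hwsl (hbd φ hφ x0 f hfm hfs2 B' hB'top hfsl ε hε hε1)) ?_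
    exact le_self_add
  · intro X hX hXn
    have he : w =ᶠ[𝓝 X] u := by
      have ho : IsOpen (above φ ∩ {Y : P d | ‖Y - gpt φ x0‖ < r1}) :=
        hopen.inter (isOpen_lt (continuous_id.sub continuous_const).norm continuous_const)
      filter_upwards [ho.mem_nhds ⟨hX, lt_trans hXn (by linarith)⟩] with Y hY
      exact hw.eq Y hY.1 hY.2
    rw [← nFgr_congr he]
    -- the potential
    have hNPb : ∀ a : Ix d, ENNReal.ofReal |NP f a X| ≤ ENNReal.ofReal C2 * (ENNReal.ofReal ((2 / r1) ^ d) * ms) := by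
      intro a
      refine (hNP f a X).trans ?_
      apply mul_le_mul_right
      refine le_trans ?_ (mul_le_mul_right hmass _)
      rw [← lintegral_const_mul' _ _ ENNReal.ofReal_ne_top]
      apply lintegral_mono
      intro Y
      show ENNReal.ofReal (|f Y| / ‖X - Y‖ ^ d) ≤ ENNReal.ofReal ((2 / r1) ^ d) * ENNReal.ofReal |f Y|
      rw [← ENNReal.ofReal_mul (by positivity)]
      apply ENNReal.ofReal_le_ofReal
      by_cases h0 : f Y = 0
      · rw [h0]
        simp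
      · have h1 := hfar Y h0
        have h2 : r1 / 2 ≤ ‖X - Y‖ := by
          have h3 : ‖Y - gpt φ x0‖ ≤ ‖X - Y‖ + ‖X - gpt φ x0‖ := by
            have h4 : Y - gpt φ x0 = -(X - Y) + (X - gpt φ x0) := by abel
            rw [h4]
            refine (norm_add_le _ _).trans ?_
            rw [norm_neg]
          linarith
        have h5 : 0 < r1 / 2 := by positivity
        have h6 : (r1 / 2) ^ d ≤ ‖X - Y‖ ^ d := pow_le_pow_left₀ h5.le h2 d
        have h7 : (2 / r1) ^ d = 1 / (r1 / 2) ^ d := by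
          rw [one_div, ← inv_pow, inv_div]
        rw [h7, div_eq_mul_one_div, mul_comm]
        exact mul_le_mul_of_nonneg_right (one_div_le_one_div_of_le (by positivity) h6) (abs_nonneg _)
    -- the correction
    have hcor : ∀ a : Ix d, ENNReal.ofReal |(∫ Y, f Y) * nk a (X - bpt φ x0)| ≤
        ENNReal.ofReal (C3 * (1 + M) ^ d) * ms := by
      intro a
      rw [abs_mul, mul_comm, ENNReal.ofReal_mul (abs_nonneg _)]
      apply mul_le_mul'
      · apply ENNReal.ofReal_le_ofReal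
        have h1 := dist_bpt (x0 := x0) hφ hX
        have h2 : 0 < ‖X - bpt φ x0‖ := by
          by_contra h
          push Not at h
          have : ‖X - bpt φ x0‖ = 0 := le_antisymm h (norm_nonneg _)
          rw [this, mul_zero] at h1
          linarith
        have h3 : X - bpt φ x0 ≠ 0 := norm_pos_iff.1 h2
        refine (hnk a _ h3).trans ?_
        rw [div_le_iff₀ (by positivity), mul_assoc, ← mul_pow]
        exact le_mul_of_one_le_right hC3.le (one_le_pow₀ h1)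
      · refine le_trans ?_ hmass
        have h1 := enorm_integral_le_lintegral_enorm (μ := (volume : Measure (P d))) f
        rw [← Real.norm_eq_abs, ofReal_norm]
        refine h1.trans (le_of_eq ?_)
        congr 1
        ext Y
        rw [← Real.norm_eq_abs, ofReal_norm]
    have hpt : nF (gr w) X ≤ nF (Fe φ x0 w ε) X + ∑ a : Ix d, (|NP f a X| + |(∫ Y, f Y) * nk a (X - bpt φ x0)|) := by
      unfold nF gr
      rw [← Finset.sum_add_distrib]
      apply Finset.sum_le_sum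
      intro a _
      have : pd a w X = Fe φ x0 w ε a X + (NP f a X - (∫ Y, f Y) * nk a (X - bpt φ x0)) := by
        unfold Fe
        rw [← hf]
        ring
      rw [this]
      refine (abs_add_le _ _).trans ?_
      have := abs_sub (NP f a X) ((∫ Y, f Y) * nk a (X - bpt φ x0))
      linarith
    calc ENNReal.ofReal (nF (gr w) X) ≤ ENNReal.ofReal (nF (Fe φ x0 w ε) X +
          ∑ a : Ix d, (|NP f a X| + |(∫ Y, f Y) * nk a (X - bpt φ x0)|)) := ENNReal.ofReal_le_ofReal hpt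
      _ = ENNReal.ofReal (nF (Fe φ x0 w ε) X) +
          ∑ a : Ix d, (ENNReal.ofReal |NP f a X| + ENNReal.ofReal |(∫ Y, f Y) * nk a (X - bpt φ x0)|) := by
          rw [ENNReal.ofReal_add (nF_nonneg _ _) (Finset.sum_nonneg fun _ _ => by positivity),
            ENNReal.ofReal_sum_of_nonneg (fun _ _ => by positivity)]
          congr 1
          exact Finset.sum_congr rfl fun a _ => ENNReal.ofReal_add (abs_nonneg _) (abs_nonneg _)
      _ ≤ ENNReal.ofReal (nF (Fe φ x0 w ε) X) + ∑ a : Ix d, Kp := by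
          apply add_le_add le_rfl
          apply Finset.sum_le_sum
          intro a _
          rw [hKp]
          exact add_le_add (hNPb a) (hcor a)
      _ = ENNReal.ofReal (nF (Fe φ x0 w ε) X) + ((d : ℝ≥0∞) + 1) * Kp := by
          rw [Finset.sum_const, card_Ix, nsmul_eq_mul]
          push_cast
          rfl
      _ ≤ _ := add_le_add le_rfl le_add_self

end HG
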