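import Pool.Agent.W_MP_825298_an.ReprDefs
import Pool.Agent.W_MP_825298_an.Newton2
import Pool.Agent.W_MP_825298_an.Newton3a
import Pool.Agent.W_MP_825298_an.DivThm

open MeasureTheory Set Filter Topology
open scoped ENNReal NNReal BigOperators

namespace HG
variable {d : ℕ}

theorem Repr1_norm_eb (a : Ix d) : ‖(eb a : P d)‖ ≤ 1 := by
  cases a with
  | none => simp [eb, Prod.norm_def]
  | some i =>
    have h : ‖(Pi.single i (1 : ℝ) : Fin d → ℝ)‖ ≤ 1 := by
      rw [pi_norm_le_iff_of_nonneg zero_le_one]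
      intro j
      by_cases h : j = i
      · subst h; simp
      · simp [Pi.single_eq_of_ne h]
    simp only [eb, Prod.norm_def, norm_zero]
    exact max_le h zero_le_one

theorem Repr1_pd_mul {f g : P d → ℝ} {X : P d} (hf : DifferentiableAt ℝ f X)
    (hg : DifferentiableAt ℝ g X) (b : Ix d) :
    pd b (fun Y => f Y * g Y) X = pd b f X * g X + f X * pd b g X := by
  unfold pd
  rw [fderiv_fun_mul hf hg]
  simp only [add_apply, smul_apply, smul_eq_mul]
  ring

theorem Repr1_pd_add {f g : P d → ℝ} {X : P d} (hf : DifferentiableAt ℝ f X)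
    (hg : DifferentiableAt ℝ g X) (b : Ix d) :
    pd b (fun Y => f Y + g Y) X = pd b f X + pd b g X := by
  unfold pd
  rw [fderiv_fun_add hf hg]
  simp only [add_apply]

theorem Repr1_pd_sub {f g : P d → ℝ} {X : P d} (hf : DifferentiableAt ℝ f X)
    (hg : DifferentiableAt ℝ g X) (b : Ix d) :
    pd b (fun Y => f Y - g Y) X = pd b f X - pd b g X := by
  unfold pd
  rw [fderiv_fun_sub hf hg]
  simp only [sub_apply]

theorem Repr1_pd_sum {ι : Type} (s : Finset ι) {f : ι → P d → ℝ} {X : P d}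
    (hf : ∀ i ∈ s, DifferentiableAt ℝ (f i) X) (b : Ix d) :
    pd b (fun Y => ∑ i ∈ s, f i Y) X = ∑ i ∈ s, pd b (f i) X := by
  unfold pd
  rw [fderiv_fun_sum hf]
  simp only [sum_apply]

theorem Repr1_pd_shift (f : P d → ℝ) (X₀ X : P d) (b : Ix d) :
    pd b (fun Y => f (Y - X₀)) X = pd b f (X - X₀) := by
  unfold pd
  rw [fderiv_comp_sub]

/-- smooth cutoffs -/
theorem Repr1_cutoff (d : ℕ) : ∃ C : ℝ, 0 < C ∧ ∀ R : ℝ, 0 < R → ∃ χ : P d → ℝ,
    ContDiff ℝ 1 χ ∧ (∀ X, 0 ≤ χ X ∧ χ X ≤ 1) ∧ (∀ X, ‖X‖ ≤ R → χ X = 1) ∧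
    (∀ X, 2 * R ≤ ‖X‖ → χ X = 0) ∧ (∀ b X, |pd b χ X| ≤ C / R) ∧
    (∀ b X, ‖X‖ < R → pd b χ X = 0) ∧ (∀ b X, 2 * R < ‖X‖ → pd b χ X = 0) := by
  let ρ : ContDiffBump (0 : P d) := ⟨1, 2, one_pos, one_lt_two⟩
  have hρ1 : ContDiff ℝ 1 ρ := ρ.contDiff
  obtain ⟨C, hC⟩ := Continuous.bounded_above_of_compact_support
    (f := fderiv ℝ ρ) (hρ1.continuous_fderiv one_ne_zero) (ρ.hasCompactSupport.fderiv (𝕜 := ℝ))
  refine ⟨|C| + 1, by positivity, ?_⟩
  intro R hR
  set χ : P d → ℝ := fun X => ρ (R⁻¹ • X) with hχ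
  have hcd : ContDiff ℝ 1 χ := hρ1.comp (contDiff_const_smul _)
  have h1 : ∀ X : P d, ‖X‖ ≤ R → χ X = 1 := by
    intro X hX
    refine ρ.one_of_mem_closedBall ?_
    rw [mem_closedBall_zero_iff, norm_smul, norm_inv, Real.norm_of_nonneg hR.le]
    show R⁻¹ * ‖X‖ ≤ 1
    rw [inv_mul_le_iff₀ hR]
    linarith
  have h2 : ∀ X : P d, 2 * R ≤ ‖X‖ → χ X = 0 := by
    intro X hX
    refine ρ.zero_of_le_dist ?_
    rw [dist_zero_right, norm_smul, norm_inv, Real.norm_of_nonneg hR.le]
    show (2 : ℝ) ≤ R⁻¹ * ‖X‖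
    rw [le_inv_mul_iff₀ hR]
    linarith
  refine ⟨χ, hcd, fun X => ⟨ρ.nonneg, ρ.le_one⟩, h1, h2, ?_, ?_, ?_⟩
  · intro b X
    have hd : HasFDerivAt χ ((fderiv ℝ ρ (R⁻¹ • X)).comp (R⁻¹ • ContinuousLinearMap.id ℝ (P d))) X := by
      have h3 : HasFDerivAt ρ (fderiv ℝ ρ (R⁻¹ • X)) (R⁻¹ • X) :=
        (hρ1.differentiable one_ne_zero _).hasFDerivAt
      have h4 : HasFDerivAt (fun Y : P d => R⁻¹ • Y) (R⁻¹ • ContinuousLinearMap.id ℝ (P d)) X :=
        (hasFDerivAt_id X).const_smul R⁻¹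
      exact h3.comp X h4
    unfold pd
    rw [hd.fderiv]
    simp only [ContinuousLinearMap.comp_apply, smul_apply,
      ContinuousLinearMap.id_apply, map_smul, smul_eq_mul]
    rw [abs_mul, abs_inv, abs_of_pos hR, div_eq_inv_mul]
    refine mul_le_mul_of_nonneg_left ?_ (by positivity)
    rw [← Real.norm_eq_abs]
    refine ((fderiv ℝ ρ (R⁻¹ • X)).le_opNorm _).trans ?_
    calc ‖fderiv ℝ ρ (R⁻¹ • X)‖ * ‖(eb b : P d)‖ ≤ |C| * 1 :=
          mul_le_mul ((hC _).trans (le_abs_self C)) (Repr1_norm_eb b) (norm_nonneg _) (abs_nonneg _)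
      _ ≤ |C| + 1 := by linarith
  · intro b X hX
    have : χ =ᶠ[𝓝 X] fun _ => (1 : ℝ) := by
      have : {Y : P d | ‖Y‖ < R} ∈ 𝓝 X := (isOpen_lt continuous_norm continuous_const).mem_nhds hX
      filter_upwards [this] with Y hY
      exact h1 Y (le_of_lt hY)
    unfold pd
    rw [this.fderiv_eq]
    simp
  · intro b X hX
    have : χ =ᶠ[𝓝 X] fun _ => (0 : ℝ) := by
      have : {Y : P d | 2 * R < ‖Y‖} ∈ 𝓝 X := (isOpen_lt continuous_const continuous_norm).mem_nhds hX
      filter_upwards [this] with Y hY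
      exact h2 Y (le_of_lt hY)
    unfold pd
    rw [this.fderiv_eq]
    simp


/-- the boundary expression as a function of the kernel, the normal and the field -/
def Repr1_g (n ω f : Ix d → ℝ) (a : Ix d) : ℝ :=
  n a * (∑ b : Ix d, ω b * f b) + ∑ b : Ix d, n b * (f a * ω b - f b * ω a)

/-- the bracket -/
def Repr1_W (n f : Ix d → ℝ) (a b : Ix d) : ℝ :=
  n a * f b + n b * f a - (if a = b then ∑ c : Ix d, n c * f c else 0)

theorem Repr1_W_g (n ω f : Ix d → ℝ) (a : Ix d) :
    ∑ b : Ix d, Repr1_W n f a b * ω b = Repr1_g n ω f a := by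
  unfold Repr1_W Repr1_g
  simp only [sub_mul, add_mul, ite_mul, zero_mul, Finset.sum_add_distrib, Finset.sum_sub_distrib,
    Finset.sum_ite_eq, Finset.mem_univ, if_true, mul_sub, Finset.mul_sum, Finset.sum_mul]
  have h1 : ∑ b : Ix d, n a * f b * ω b = ∑ b : Ix d, n a * (ω b * f b) :=
    Finset.sum_congr rfl fun b _ => by ring
  have h2 : ∑ b : Ix d, n b * f a * ω b = ∑ b : Ix d, n b * (f a * ω b) :=
    Finset.sum_congr rfl fun b _ => by ring
  have h3 : ∑ b : Ix d, n b * f b * ω a = ∑ b : Ix d, n b * (f b * ω a) :=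
    Finset.sum_congr rfl fun b _ => by ring
  rw [h1, h2, h3]
  ring

theorem Repr1_abs_le_sum (f : Ix d → ℝ) (b : Ix d) : |f b| ≤ ∑ c : Ix d, |f c| :=
  Finset.single_le_sum (f := fun c => |f c|) (fun _ _ => abs_nonneg _) (Finset.mem_univ b)

theorem Repr1_W_bound {n f : Ix d → ℝ} {A : ℝ} (hA : ∀ b, |n b| ≤ A) (a b : Ix d) :
    |Repr1_W n f a b| ≤ 3 * (A * ∑ c : Ix d, |f c|) := by
  have hA0 : 0 ≤ A := (abs_nonneg _).trans (hA a)
  have h1 : |n a * f b| ≤ A * ∑ c : Ix d, |f c| := by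
    rw [abs_mul]
    exact mul_le_mul (hA a) (Repr1_abs_le_sum f b) (abs_nonneg _) hA0
  have h2 : |n b * f a| ≤ A * ∑ c : Ix d, |f c| := by
    rw [abs_mul]
    exact mul_le_mul (hA b) (Repr1_abs_le_sum f a) (abs_nonneg _) hA0
  have hS : 0 ≤ A * ∑ c : Ix d, |f c| :=
    mul_nonneg hA0 (Finset.sum_nonneg fun c _ => abs_nonneg _)
  have h3 : |if a = b then ∑ c : Ix d, n c * f c else 0| ≤ A * ∑ c : Ix d, |f c| := by
    split_ifs with h
    · refine (Finset.abs_sum_le_sum_abs _ _).trans ?_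
      rw [Finset.mul_sum]
      refine Finset.sum_le_sum fun c _ => ?_
      rw [abs_mul]
      exact mul_le_mul_of_nonneg_right (hA c) (abs_nonneg _)
    · rw [abs_zero]; exact hS
  unfold Repr1_W
  refine (abs_sub _ _).trans ?_
  have := abs_add_le (n a * f b) (n b * f a)
  linarith

theorem Repr1_g_bound {n ω f : Ix d → ℝ} {A Ω : ℝ} (hA : ∀ b, |n b| ≤ A) (hΩ : ∀ b, |ω b| ≤ Ω)
    (a : Ix d) :
    |Repr1_g n ω f a| ≤ (((d : ℝ) + 1) * 3) * (A * Ω * ∑ c : Ix d, |f c|) := by
  have hA0 : 0 ≤ A := (abs_nonneg _).trans (hA a)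
  have hΩ0 : 0 ≤ Ω := (abs_nonneg _).trans (hΩ a)
  rw [← Repr1_W_g]
  refine (Finset.abs_sum_le_sum_abs _ _).trans ?_
  have : ∀ b ∈ (Finset.univ : Finset (Ix d)), |Repr1_W n f a b * ω b| ≤
      3 * (A * ∑ c : Ix d, |f c|) * Ω := by
    intro b _
    rw [abs_mul]
    exact mul_le_mul (Repr1_W_bound hA a b) (hΩ b) (abs_nonneg _)
      ((abs_nonneg _).trans (Repr1_W_bound hA a b))
  refine (Finset.sum_le_sum this).trans ?_
  rw [Finset.sum_const, Finset.card_univ, Fintype.card_option, Fintype.card_fin, nsmul_eq_mul]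
  push_cast
  apply le_of_eq
  ring

theorem Repr1_rdens (φ : E d → ℝ) (F : Ix d → P d → ℝ) (a : Ix d) (X₀ : P d) (x : E d) :
    rdens φ F a X₀ x = Repr1_g (fun b => nk b ((x, φ x) - X₀)) (fun b => om φ b x)
      (fun b => F b (x, φ x)) a := rfl

theorem Repr1_om_bound {M : ℝ≥0} {φ : E d → ℝ} (hφ : LipschitzWith M φ) (b : Ix d) (x : E d) :
    |om φ b x| ≤ (M : ℝ) + 1 := by
  cases b with
  | none => 
    simp only [om, abs_neg, abs_one]
    have := M.2
    linarith [NNReal.coe_nonneg M]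
  | some i =>
    simp only [om]
    rw [← Real.norm_eq_abs]
    refine ((fderiv ℝ φ x).le_opNorm _).trans ?_
    have h1 := norm_fderiv_le_of_lipschitz ℝ hφ (x₀ := x)
    have h2 : ‖(Pi.single i (1 : ℝ) : Fin d → ℝ)‖ ≤ 1 := by
      rw [pi_norm_le_iff_of_nonneg zero_le_one]
      intro j
      by_cases h : j = i
      · subst h; simp
      · simp [Pi.single_eq_of_ne h]
    calc ‖fderiv ℝ φ x‖ * ‖(Pi.single i (1 : ℝ) : Fin d → ℝ)‖ ≤ (M : ℝ) * 1 :=
          mul_le_mul h1 h2 (norm_nonneg _) (NNReal.coe_nonneg M)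
      _ ≤ (M : ℝ) + 1 := by linarith

theorem Repr1_om_measurable (φ : E d → ℝ) (b : Ix d) : Measurable (om φ b) := by
  cases b with
  | none => exact measurable_const
  | some i => exact measurable_fderiv_apply_const ℝ φ _

/-- the divergence of the field multiplied by a cutoff -/
theorem Repr1_div {U : Set (P d)} (hU : IsOpen U) {F : Ix d → P d → ℝ} (hF : IsField U F)
    {χ : P d → ℝ} (hχ : ContDiff ℝ 1 χ) (a : Ix d) (X₀ : P d) {ε : ℝ} (hε : 0 < ε) {X : P d}
    (hX : X ∈ U) :
    ∑ b : Ix d, pd b (fun Y => χ Y * Repr1_W (fun c => nkr ε c (Y - X₀)) (fun c => F c Y) a b) X =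
      χ X * (aid ε (X - X₀) * F a X) +
        ∑ b : Ix d, pd b χ X * Repr1_W (fun c => nkr ε c (X - X₀)) (fun c => F c X) a b := by
  have hχd : DifferentiableAt ℝ χ X := hχ.differentiable one_ne_zero X
  have hFd : ∀ c, DifferentiableAt ℝ (F c) X := fun c =>
    ((hF.cd c).contDiffAt (hU.mem_nhds hX)).differentiableAt one_ne_zero
  have hNd : ∀ c, DifferentiableAt ℝ (fun Y : P d => nkr ε c (Y - X₀)) X := by
    intro c
    have h1 : Differentiable ℝ (nkr (d := d) ε c) :=
      (nkr_contDiff hε c).differentiable (by norm_num)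
    exact (h1 (X - X₀)).comp X (differentiableAt_id.sub_const X₀)
  have hP : ∀ c e, DifferentiableAt ℝ (fun Y : P d => nkr ε c (Y - X₀) * F e Y) X :=
    fun c e => (hNd c).fun_mul (hFd e)
  have hS : DifferentiableAt ℝ (fun Y : P d => ∑ c : Ix d, nkr ε c (Y - X₀) * F c Y) X :=
    DifferentiableAt.fun_sum fun c _ => hP c c
  have hWd : ∀ b, DifferentiableAt ℝ
      (fun Y => Repr1_W (fun c => nkr ε c (Y - X₀)) (fun c => F c Y) a b) X := by
    intro b
    unfold Repr1_W
    refine ((hP a b).fun_add (hP b a)).fun_sub ?_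
    split_ifs
    · exact hS
    · exact differentiableAt_const _
  have hWpd : ∀ b, pd b (fun Y => Repr1_W (fun c => nkr ε c (Y - X₀)) (fun c => F c Y) a b) X =
      (pd b (nkr ε a) (X - X₀) * F b X + nkr ε a (X - X₀) * pd b (F b) X) +
      (pd b (nkr ε b) (X - X₀) * F a X + nkr ε b (X - X₀) * pd b (F a) X) -
      (if a = b then ∑ c : Ix d, (pd b (nkr ε c) (X - X₀) * F c X
        + nkr ε c (X - X₀) * pd b (F c) X) else 0) := by
    intro b
    unfold Repr1_W
    have e3 : pd b (fun Y => if a = b then ∑ c : Ix d, nkr ε c (Y - X₀) * F c Y else 0) X =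
        (if a = b then ∑ c : Ix d, (pd b (nkr ε c) (X - X₀) * F c X
        + nkr ε c (X - X₀) * pd b (F c) X) else 0) := by
      split_ifs with h
      · rw [Repr1_pd_sum _ (fun c _ => hP c c)]
        refine Finset.sum_congr rfl fun c _ => ?_
        rw [Repr1_pd_mul (hNd c) (hFd c), Repr1_pd_shift]
      · simp [pd]
    have hd3 : DifferentiableAt ℝ
        (fun Y => if a = b then ∑ c : Ix d, nkr ε c (Y - X₀) * F c Y else 0) X := by
      split_ifs
      · exact hS
      · exact differentiableAt_const _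
    show pd b (fun Y => (nkr ε a (Y - X₀) * F b Y + nkr ε b (Y - X₀) * F a Y) -
      (if a = b then ∑ c, nkr ε c (Y - X₀) * F c Y else 0)) X = _
    rw [Repr1_pd_sub ((hP a b).fun_add (hP b a)) hd3, e3,
      Repr1_pd_add (hP a b) (hP b a),
      Repr1_pd_mul (hNd a) (hFd b), Repr1_pd_mul (hNd b) (hFd a), Repr1_pd_shift, Repr1_pd_shift]
  have hW : ∑ b : Ix d, pd b (fun Y => Repr1_W (fun c => nkr ε c (Y - X₀)) (fun c => F c Y) a b) X
      = aid ε (X - X₀) * F a X := by
    rw [Finset.sum_congr rfl fun b _ => hWpd b]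
    simp only [Finset.sum_add_distrib, Finset.sum_sub_distrib, Finset.sum_ite_eq, Finset.mem_univ,
      if_true]
    have e1 : ∑ b : Ix d, pd b (nkr ε a) (X - X₀) * F b X =
        ∑ b : Ix d, pd a (nkr ε b) (X - X₀) * F b X :=
      Finset.sum_congr rfl fun b _ => by rw [nkr_curl hε a b]
    have e2 : ∑ b : Ix d, nkr ε a (X - X₀) * pd b (F b) X = 0 := by
      rw [← Finset.mul_sum, hF.div X hX, mul_zero]
    have e3 : ∑ b : Ix d, pd b (nkr ε b) (X - X₀) * F a X = aid ε (X - X₀) * F a X := by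
      rw [← Finset.sum_mul, nkr_div hε]
    have e4 : ∑ b : Ix d, nkr ε b (X - X₀) * pd b (F a) X =
        ∑ b : Ix d, nkr ε b (X - X₀) * pd a (F b) X :=
      Finset.sum_congr rfl fun b _ => by rw [hF.curl b a X hX]
    rw [e1, e2, e3, e4]
    ring
  rw [Finset.sum_congr rfl fun b _ => Repr1_pd_mul hχd (hWd b) b, Finset.sum_add_distrib,
    ← Finset.mul_sum, hW, add_comm]


theorem Repr1_above_subset (φ : E d → ℝ) : above φ ⊆ aboveC φ := fun X hX =>
  le_of_lt (show φ X.1 < X.2 from hX)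

theorem Repr1_isOpen_above {M : ℝ≥0} {φ : E d → ℝ} (hφ : LipschitzWith M φ) :
    IsOpen (above φ) :=
  isOpen_lt (hφ.continuous.comp continuous_fst) continuous_snd

theorem Repr1_isClosed_aboveC {M : ℝ≥0} {φ : E d → ℝ} (hφ : LipschitzWith M φ) :
    IsClosed (aboveC φ) :=
  isClosed_le (hφ.continuous.comp continuous_fst) continuous_snd

theorem Repr1_integrableOn {M : ℝ≥0} {φ : E d → ℝ} (hφ : LipschitzWith M φ) {g : P d → ℝ} {B : ℝ}
    (hg : ContinuousOn g (aboveC φ)) (hB : ∀ X ∈ aboveC φ, B ≤ ‖X‖ → g X = 0) :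
    IntegrableOn g (above φ) := by
  have hcl : IsClosed (aboveC φ) := Repr1_isClosed_aboveC hφ
  have hK : IsCompact (aboveC φ ∩ Metric.closedBall 0 B) :=
    (isCompact_closedBall _ _).inter_left hcl
  have h1 : IntegrableOn g (aboveC φ ∩ Metric.closedBall 0 B) :=
    (hg.mono inter_subset_left).integrableOn_compact hK
  have h2 : IntegrableOn g (aboveC φ) := by
    refine h1.of_forall_sdiff_eq_zero hcl.measurableSet ?_
    intro X hX
    refine hB X hX.1 ?_
    by_contra h
    refine hX.2 ⟨hX.1, ?_⟩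
    rw [mem_closedBall_zero_iff]
    exact le_of_lt (not_le.1 h)
  exact h2.mono_set (Repr1_above_subset φ)

theorem Repr1_continuous_co (a : Ix d) : Continuous (co a : P d → ℝ) := by
  cases a with
  | none => exact continuous_snd
  | some i => exact (continuous_apply i).comp continuous_fst

theorem Repr1_continuous_sq : Continuous (sq : P d → ℝ) :=
  continuous_finsetSum _ fun a _ => (Repr1_continuous_co a).pow 2

theorem Repr1_sq_nonneg (X : P d) : 0 ≤ sq X := Finset.sum_nonneg fun _ _ => sq_nonneg _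

theorem Repr1_continuous_aid {ε : ℝ} (hε : 0 < ε) : Continuous (aid ε : P d → ℝ) := by
  unfold aid
  refine continuous_const.mul ?_
  refine Continuous.rpow_const (Repr1_continuous_sq.add continuous_const) ?_
  intro X
  left
  have := Repr1_sq_nonneg X
  positivity

/-- the divergence theorem with a cutoff and the regularised kernel -/
theorem Repr1_eps {M : ℝ≥0} {φ : E d → ℝ} (hφ : LipschitzWith M φ) {U : Set (P d)} (hU : IsOpen U)
    (hDU : aboveC φ ⊆ U) {F : Ix d → P d → ℝ} (hF : IsField U F) {χ : P d → ℝ}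
    (hχ : ContDiff ℝ 1 χ) {B : ℝ} (hB : ∀ X, B ≤ ‖X‖ → χ X = 0)
    (hB' : ∀ b X, B < ‖X‖ → pd b χ X = 0) (a : Ix d) (X₀ : P d) {ε : ℝ} (hε : 0 < ε) :
    (∫ X in above φ, χ X * (aid ε (X - X₀) * F a X)) +
      ∫ X in above φ, ∑ b : Ix d, pd b χ X *
        Repr1_W (fun c => nkr ε c (X - X₀)) (fun c => F c X) a b =
    ∫ x : E d, χ (x, φ x) * Repr1_g (fun b => nkr ε b ((x, φ x) - X₀)) (fun b => om φ b x)
      (fun b => F b (x, φ x)) a := by
  have hFc : ∀ c, ContinuousOn (F c) (aboveC φ) := fun c => (hF.cd c).continuousOn.mono hDU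
  have hNc : ∀ c, Continuous (fun Y : P d => nkr ε c (Y - X₀)) := fun c =>
    (nkr_contDiff hε c).continuous.comp (continuous_id.sub continuous_const)
  have hχc : Continuous χ := hχ.continuous
  have hpdc : ∀ b, Continuous (fun X => pd b χ X) := fun b =>
    (hχ.continuous_fderiv one_ne_zero).clm_apply continuous_const
  have hWc : ∀ b, ContinuousOn
      (fun X => Repr1_W (fun c => nkr ε c (X - X₀)) (fun c => F c X) a b) (aboveC φ) := by
    intro b
    unfold Repr1_W
    refine (((hNc a).continuousOn.mul (hFc b)).add ((hNc b).continuousOn.mul (hFc a))).sub ?_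
    split_ifs
    · exact continuousOn_finsetSum _ fun c _ => (hNc c).continuousOn.mul (hFc c)
    · exact continuousOn_const
  have hV : ∀ b, ContDiffOn ℝ 1
      (fun Y => χ Y * Repr1_W (fun c => nkr ε c (Y - X₀)) (fun c => F c Y) a b) U := by
    intro b
    have hN : ∀ c, ContDiffOn ℝ 1 (fun Y : P d => nkr ε c (Y - X₀)) U := fun c =>
      (((nkr_contDiff hε c).of_le (by norm_num)).comp (contDiff_id.sub contDiff_const)).contDiffOn
    refine hχ.contDiffOn.mul ?_
    unfold Repr1_W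
    refine (((hN a).mul (hF.cd b)).add ((hN b).mul (hF.cd a))).sub ?_
    split_ifs
    · exact ContDiffOn.sum fun c _ => (hN c).mul (hF.cd c)
    · exact contDiffOn_const
  have hdiv := div_thm hφ hU hDU hV (B := B) (fun b X _ hX => by
    show χ X * _ = 0
    rw [hB X hX, zero_mul])
  have hleft : ∫ X in above φ, ∑ b : Ix d, pd b
      (fun Y => χ Y * Repr1_W (fun c => nkr ε c (Y - X₀)) (fun c => F c Y) a b) X =
      ∫ X in above φ, (χ X * (aid ε (X - X₀) * F a X) +
        ∑ b : Ix d, pd b χ X * Repr1_W (fun c => nkr ε c (X - X₀)) (fun c => F c X) a b) := by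
    refine setIntegral_congr_fun (Repr1_isOpen_above hφ).measurableSet ?_
    intro X hX
    exact Repr1_div hU hF hχ a X₀ hε (hDU (Repr1_above_subset φ hX))
  have hi1 : IntegrableOn (fun X => χ X * (aid ε (X - X₀) * F a X)) (above φ) := by
    refine Repr1_integrableOn hφ (B := B) ?_ ?_
    · refine hχc.continuousOn.mul (ContinuousOn.mul ?_ (hFc a))
      exact ((Repr1_continuous_aid hε).comp (continuous_id.sub continuous_const)).continuousOn
    · intro X _ hX
      rw [hB X hX, zero_mul]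
  have hi2 : IntegrableOn (fun X => ∑ b : Ix d, pd b χ X *
        Repr1_W (fun c => nkr ε c (X - X₀)) (fun c => F c X) a b) (above φ) := by
    refine Repr1_integrableOn hφ (B := B + 1) ?_ ?_
    · exact continuousOn_finsetSum _ fun b _ => (hpdc b).continuousOn.mul (hWc b)
    · intro X _ hX
      refine Finset.sum_eq_zero fun b _ => ?_
      rw [hB' b X (by linarith), zero_mul]
  rw [← integral_add hi1 hi2, ← hleft, hdiv]
  refine integral_congr_ae (Filter.Eventually.of_forall fun x => ?_)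
  show ∑ b : Ix d, χ (x, φ x) * Repr1_W (fun c => nkr ε c ((x, φ x) - X₀))
    (fun c => F c (x, φ x)) a b * om φ b x = χ (x, φ x) *
      Repr1_g (fun b => nkr ε b ((x, φ x) - X₀)) (fun b => om φ b x) (fun b => F b (x, φ x)) a
  rw [← Repr1_W_g, Finset.mul_sum]
  exact Finset.sum_congr rfl fun b _ => by ring

/-- distance from a point off the graph to the graph -/
theorem Repr1_dist {M : ℝ≥0} {φ : E d → ℝ} (hφ : LipschitzWith M φ) {X₀ : P d}
    (hX₀ : φ X₀.1 ≠ X₀.2) : ∃ c : ℝ, 0 < c ∧ ∀ x : E d, c * (1 + ‖x‖) ≤ ‖((x, φ x) : P d) - X₀‖ := by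
  have hM : (0 : ℝ) ≤ M := NNReal.coe_nonneg M
  set δ₀ : ℝ := |φ X₀.1 - X₀.2| with hδ₀
  have hδ₀' : 0 < δ₀ := abs_pos.2 (sub_ne_zero.2 hX₀)
  set c₀ : ℝ := δ₀ / ((M : ℝ) + 1) with hc₀
  have hc₀' : 0 < c₀ := by positivity
  refine ⟨(1 + (1 + ‖X₀‖) / c₀)⁻¹, by positivity, ?_⟩
  intro x
  set t : ℝ := ‖((x, φ x) : P d) - X₀‖ with ht
  have h1 : ‖x - X₀.1‖ ≤ t := by
    rw [ht]; exact norm_fst_le (((x, φ x) : P d) - X₀)
  have h2 : |φ x - X₀.2| ≤ t := by
    rw [ht, ← Real.norm_eq_abs]; exact norm_snd_le (((x, φ x) : P d) - X₀)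
  have h3 : |φ X₀.1 - φ x| ≤ M * t := by
    have := hφ.dist_le_mul X₀.1 x
    rw [Real.dist_eq, dist_comm, dist_eq_norm] at this
    exact this.trans (mul_le_mul_of_nonneg_left h1 hM)
  have h4 : δ₀ ≤ ((M : ℝ) + 1) * t := by
    have := abs_sub_le (φ X₀.1) (φ x) X₀.2
    rw [hδ₀]
    linarith
  have h5 : c₀ ≤ t := by
    rw [hc₀, div_le_iff₀ (by positivity)]
    linarith
  have h6 : ‖x‖ ≤ t + ‖X₀‖ := by
    have := norm_sub_norm_le x X₀.1
    have h7 : ‖X₀.1‖ ≤ ‖X₀‖ := norm_fst_le X₀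
    linarith
  rw [inv_mul_le_iff₀ (by positivity)]
  have h8 : (1 + ‖X₀‖) ≤ (1 + ‖X₀‖) / c₀ * t := by
    rw [div_mul_eq_mul_div, le_div_iff₀ hc₀']
    exact mul_le_mul_of_nonneg_left h5 (by positivity)
  linarith


theorem Repr1_main (hd : 1 ≤ d) {M : ℝ≥0} {φ : E d → ℝ} (hφ : LipschitzWith M φ) {U : Set (P d)}
    (hU : IsOpen U) (hDU : aboveC φ ⊆ U) {F : Ix d → P d → ℝ} (hF : IsField U F) {CF δ : ℝ}
    (hδ : 0 < δ) (hdec : ∀ X ∈ aboveC φ, nF F X ≤ CF * (1 + ‖X‖) ^ (-δ)) (a : Ix d) {X₀ : P d}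
    (hX₀ : φ X₀.1 ≠ X₀.2) :
    Integrable (rdens φ F a X₀) ∧ ∫ x : E d, rdens φ F a X₀ x = (above φ).indicator (F a) X₀ := by
  classical
  obtain ⟨CN, hCN, hnk, hnkr⟩ := nk_bound d
  obtain ⟨c, hc, hdist⟩ := Repr1_dist hφ hX₀
  have hM : (0 : ℝ) ≤ M := NNReal.coe_nonneg M
  have hFc : ∀ c, ContinuousOn (F c) (aboveC φ) := fun c => (hF.cd c).continuousOn.mono hDU
  have hgr : ∀ x : E d, ((x, φ x) : P d) ∈ aboveC φ := fun x => le_refl (φ x)
  have hgc : Continuous (fun x : E d => ((x, φ x) : P d)) := continuous_id.prodMk hφ.continuous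
  have hF1 : ∀ c, Continuous (fun x : E d => F c (x, φ x)) := fun c =>
    (hFc c).comp_continuous hgc hgr
  have hnF : ∀ X ∈ aboveC φ, nF F X ≤ |CF| * (1 + ‖X‖) ^ (-δ) := fun X hX =>
    (hdec X hX).trans (mul_le_mul_of_nonneg_right (le_abs_self _) (by positivity))
  have hne : ∀ x : E d, ((x, φ x) : P d) - X₀ ≠ 0 := by
    intro x h
    have h1 := hdist x
    rw [h, norm_zero] at h1
    have : 0 < c * (1 + ‖x‖) := by positivity
    linarith
  -- the dominating function
  set K : ℝ := ((d : ℝ) + 1) * 3 * (CN / c ^ d * ((M : ℝ) + 1) * |CF|) with hK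
  have hK0 : 0 ≤ K := by positivity
  have hdom : ∀ (x : E d) (n : Ix d → ℝ), (∀ b, |n b| ≤ CN / ‖((x, φ x) : P d) - X₀‖ ^ d) →
      |Repr1_g n (fun b => om φ b x) (fun b => F b (x, φ x)) a| ≤
        K * (1 + ‖x‖) ^ (-((d : ℝ) + δ)) := by
    intro x n hn
    have hx1 : (0 : ℝ) < 1 + ‖x‖ := by positivity
    have h1 : ∀ b, |n b| ≤ CN / (c * (1 + ‖x‖)) ^ d := fun b =>
      (hn b).trans (div_le_div_of_nonneg_left hCN.le (by positivity)
        (pow_le_pow_left₀ (by positivity) (hdist x) d))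
    refine (Repr1_g_bound h1 (fun b => Repr1_om_bound hφ b x) a).trans ?_
    have h2 : ∑ c : Ix d, |F c (x, φ x)| ≤ |CF| * (1 + ‖x‖) ^ (-δ) := by
      refine (hnF (x, φ x) (hgr x)).trans (mul_le_mul_of_nonneg_left ?_ (abs_nonneg _))
      refine Real.rpow_le_rpow_of_nonpos hx1 ?_ (by linarith)
      have : ‖x‖ ≤ ‖((x, φ x) : P d)‖ := norm_fst_le ((x, φ x) : P d)
      linarith
    have h3 : (1 + ‖x‖) ^ (-((d : ℝ) + δ)) = ((1 + ‖x‖) ^ d)⁻¹ * (1 + ‖x‖) ^ (-δ) := by
      rw [neg_add, Real.rpow_add hx1, Real.rpow_neg hx1.le, Real.rpow_natCast]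
    calc ((d : ℝ) + 1) * 3 * (CN / (c * (1 + ‖x‖)) ^ d * ((M : ℝ) + 1) *
          ∑ c : Ix d, |F c (x, φ x)|)
        ≤ ((d : ℝ) + 1) * 3 * (CN / (c * (1 + ‖x‖)) ^ d * ((M : ℝ) + 1) *
          (|CF| * (1 + ‖x‖) ^ (-δ))) := by
          refine mul_le_mul_of_nonneg_left (mul_le_mul_of_nonneg_left h2 (by positivity))
            (by positivity)
      _ = K * (1 + ‖x‖) ^ (-((d : ℝ) + δ)) := by
          rw [h3, hK, mul_pow]
          field_simp
  have hint : Integrable (fun x : E d => K * (1 + ‖x‖) ^ (-((d : ℝ) + δ))) := by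
    refine Integrable.const_mul (integrable_one_add_norm ?_) K
    rw [Module.finrank_fin_fun]
    linarith
  have hnkb : ∀ (x : E d) (b : Ix d), |nk b ((x, φ x) - X₀)| ≤ CN / ‖((x, φ x) : P d) - X₀‖ ^ d :=
    fun x b => hnk b _ (hne x)
  have hnkrb : ∀ (ε : ℝ), 0 < ε → ∀ (x : E d) (b : Ix d),
      |nkr ε b ((x, φ x) - X₀)| ≤ CN / ‖((x, φ x) : P d) - X₀‖ ^ d :=
    fun ε hε x b => hnkr ε b _ hε (hne x)
  have hmg : ∀ (n : Ix d → E d → ℝ), (∀ b, Measurable (n b)) → Measurable (fun x =>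
      Repr1_g (fun b => n b x) (fun b => om φ b x) (fun b => F b (x, φ x)) a) := by
    intro n hn
    unfold Repr1_g
    refine Measurable.add ((hn a).mul ?_) ?_
    · exact Finset.measurable_sum _ fun b _ => (Repr1_om_measurable φ b).mul (hF1 b).measurable
    · refine Finset.measurable_sum _ fun b _ => (hn b).mul ?_
      exact ((hF1 a).measurable.mul (Repr1_om_measurable φ b)).sub
        ((hF1 b).measurable.mul (Repr1_om_measurable φ a))
  have hmnk : ∀ b, Measurable (fun x : E d => nk b ((x, φ x) - X₀)) := fun b =>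
    (nk_measurable b).comp (hgc.measurable.sub_const X₀)
  have hrm : Measurable (rdens φ F a X₀) := by
    have := hmg _ hmnk
    exact this
  have hrI : Integrable (rdens φ F a X₀) := by
    refine hint.mono' hrm.aestronglyMeasurable (Filter.Eventually.of_forall fun x => ?_)
    rw [Real.norm_eq_abs, Repr1_rdens]
    exact hdom x _ (hnkb x)
  refine ⟨hrI, ?_⟩
  -- cutoffs
  obtain ⟨Cχ, hCχ, hcut⟩ := Repr1_cutoff d
  choose! χ hχ1 hχ2 hχ3 hχ4 hχ5 hχ6 hχ7 using hcut
  set v₁ : ℝ := volume.real (Metric.ball (0 : P d) 1) with hv₁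
  set K₂ : ℝ := (((d : ℝ) + 1) * (Cχ * (3 * (CN * 2 ^ d * |CF|)))) * (2 ^ (d + 1) * v₁) with hK₂
  -- the estimate for a fixed cutoff
  have hstep : ∀ R : ℝ, 1 ≤ R → 2 * ‖X₀‖ ≤ R →
      |(above φ).indicator (F a) X₀ - ∫ x : E d, χ R (x, φ x) * rdens φ F a X₀ x| ≤
        K₂ * R ^ (-δ) := by
    intro R hR1 hR2
    have hR : 0 < R := by linarith
    have hid : ∀ ε : ℝ, 0 < ε → _ := fun ε hε =>
      Repr1_eps hφ hU hDU hF (hχ1 R hR) (hχ4 R hR) (hχ7 R hR) a X₀ hε
    -- bound of the second term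
    have hsec : ∀ ε : ℝ, 0 < ε → |∫ X in above φ, ∑ b : Ix d, pd b (χ R) X *
        Repr1_W (fun c => nkr ε c (X - X₀)) (fun c => F c X) a b| ≤ K₂ * R ^ (-δ) := by
      intro ε hε
      have hsub : ∫ X in above φ, ∑ b : Ix d, pd b (χ R) X *
          Repr1_W (fun c => nkr ε c (X - X₀)) (fun c => F c X) a b =
          ∫ X in above φ ∩ Metric.closedBall 0 (2 * R), ∑ b : Ix d, pd b (χ R) X *
          Repr1_W (fun c => nkr ε c (X - X₀)) (fun c => F c X) a b := by
        refine setIntegral_eq_of_subset_of_forall_sdiff_eq_zero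
          (Repr1_isOpen_above hφ).measurableSet inter_subset_left ?_
        intro X hX
        refine Finset.sum_eq_zero fun b _ => ?_
        rw [hχ7 R hR b X ?_, zero_mul]
        by_contra h
        refine hX.2 ⟨hX.1, ?_⟩
        rw [mem_closedBall_zero_iff]
        exact not_lt.1 h
      have hfin : volume (above φ ∩ Metric.closedBall (0 : P d) (2 * R)) < ⊤ :=
        (measure_mono inter_subset_right).trans_lt measure_closedBall_lt_top
      set K₃ : ℝ := ((d : ℝ) + 1) * (Cχ / R * (3 * (CN / (R / 2) ^ d * (|CF| * R ^ (-δ)))))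
        with hK₃
      have hpt : ∀ X ∈ above φ ∩ Metric.closedBall (0 : P d) (2 * R),
          ‖∑ b : Ix d, pd b (χ R) X *
          Repr1_W (fun c => nkr ε c (X - X₀)) (fun c => F c X) a b‖ ≤ K₃ := by
        intro X hX
        by_cases hXR : ‖X‖ < R
        · rw [Finset.sum_eq_zero fun b _ => by rw [hχ6 R hR b X hXR, zero_mul], norm_zero]
          positivity
        · rw [not_lt] at hXR
          rw [Real.norm_eq_abs]
          refine (Finset.abs_sum_le_sum_abs _ _).trans ?_
          have hterm : ∀ b ∈ (Finset.univ : Finset (Ix d)), |pd b (χ R) X *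
              Repr1_W (fun c => nkr ε c (X - X₀)) (fun c => F c X) a b| ≤
              Cχ / R * (3 * (CN / (R / 2) ^ d * (|CF| * R ^ (-δ)))) := by
            intro b _
            rw [abs_mul]
            refine mul_le_mul (hχ5 R hR b X) ?_ (abs_nonneg _) (by positivity)
            have h1 : R / 2 ≤ ‖X - X₀‖ := by
              have := norm_sub_norm_le X X₀
              linarith
            have h2 : ∀ e, |nkr ε e (X - X₀)| ≤ CN / (R / 2) ^ d := by
              intro e
              refine (hnkr ε e _ hε ?_).trans ?_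
              · intro h0
                rw [h0, norm_zero] at h1
                linarith
              · exact div_le_div_of_nonneg_left hCN.le (by positivity)
                  (pow_le_pow_left₀ (by positivity) h1 d)
            refine (Repr1_W_bound h2 a b).trans ?_
            refine mul_le_mul_of_nonneg_left (mul_le_mul_of_nonneg_left ?_ (by positivity))
              (by norm_num)
            refine (hnF X (Repr1_above_subset φ hX.1)).trans
              (mul_le_mul_of_nonneg_left ?_ (abs_nonneg _))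
            exact Real.rpow_le_rpow_of_nonpos hR (by linarith) (by linarith)
          refine (Finset.sum_le_sum hterm).trans ?_
          rw [Finset.sum_const, Finset.card_univ, Fintype.card_option, Fintype.card_fin,
            nsmul_eq_mul, hK₃]
          push_cast
          exact le_rfl
      rw [hsub, ← Real.norm_eq_abs]
      refine (norm_setIntegral_le_of_norm_le_const hfin hpt).trans ?_
      have hvol : volume.real (above φ ∩ Metric.closedBall (0 : P d) (2 * R)) ≤
          (2 * R) ^ (d + 1) * v₁ := by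
        refine (measureReal_mono inter_subset_right measure_closedBall_lt_top.ne).trans ?_
        have hHaar : (volume : Measure (P d)).IsAddHaarMeasure := by
          rw [Measure.volume_eq_prod]
          infer_instance
        rw [Measure.addHaar_real_closedBall volume (0 : P d) (by positivity)]
        apply le_of_eq
        simp [hv₁]
      refine (mul_le_mul_of_nonneg_left hvol (by positivity)).trans ?_
      apply le_of_eq
      rw [hK₃, hK₂]
      have hRne : R ≠ 0 := hR.ne'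
      rw [mul_pow, div_pow, pow_succ R d]
      field_simp
    -- the limit of the first term
    have hfirst : Tendsto (fun ε : ℝ => ∫ X in above φ, χ R X * (aid ε (X - X₀) * F a X))
        (𝓝[>] 0) (𝓝 ((above φ).indicator (F a) X₀)) := by
      set f : P d → ℝ := (above φ).indicator (fun X => χ R X * F a X) with hf
      have hfm : AEStronglyMeasurable f volume := by
        rw [hf, aestronglyMeasurable_indicator_iff (Repr1_isOpen_above hφ).measurableSet]
        exact ((hχ1 R hR).continuous.continuousOn.mul ((hFc a).mono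
          (Repr1_above_subset φ))).aestronglyMeasurable (Repr1_isOpen_above hφ).measurableSet
      have hfb : ∀ X, |f X| ≤ |CF| := by
        intro X
        rw [hf]
        by_cases hX : X ∈ above φ
        · rw [indicator_of_mem hX, abs_mul]
          have h1 : |χ R X| ≤ 1 := by
            rw [abs_of_nonneg (hχ2 R hR X).1]; exact (hχ2 R hR X).2
          have h2 : |F a X| ≤ |CF| := by
            refine (Repr1_abs_le_sum (fun c => F c X) a).trans
              ((hnF X (Repr1_above_subset φ hX)).trans ?_)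
            have : (1 + ‖X‖) ^ (-δ) ≤ 1 :=
              Real.rpow_le_one_of_one_le_of_nonpos (by linarith [norm_nonneg X]) (by linarith)
            calc |CF| * (1 + ‖X‖) ^ (-δ) ≤ |CF| * 1 :=
                  mul_le_mul_of_nonneg_left this (abs_nonneg _)
              _ = |CF| := mul_one _
          calc |χ R X| * |F a X| ≤ 1 * |CF| := mul_le_mul h1 h2 (abs_nonneg _) zero_le_one
            _ = |CF| := one_mul _
        · rw [indicator_of_notMem hX, abs_zero]
          exact abs_nonneg _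
      have hfc : ContinuousAt f X₀ := by
        rcases lt_or_gt_of_ne hX₀ with h | h
        · have hmem : above φ ∈ 𝓝 X₀ := (Repr1_isOpen_above hφ).mem_nhds h
          have h1 : ContinuousAt (fun X => χ R X * F a X) X₀ := by
            refine (hχ1 R hR).continuous.continuousAt.mul ?_
            exact ((hFc a).mono (Repr1_above_subset φ)).continuousAt hmem
          refine h1.congr ?_
          filter_upwards [hmem] with X hX
          rw [hf, indicator_of_mem hX]
        · have hmem : {X : P d | X.2 < φ X.1} ∈ 𝓝 X₀ :=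
            (isOpen_lt continuous_snd (hφ.continuous.comp continuous_fst)).mem_nhds h
          have h1 : ContinuousAt (fun _ : P d => (0 : ℝ)) X₀ := continuousAt_const
          refine h1.congr ?_
          filter_upwards [hmem] with X hX
          rw [hf, indicator_of_notMem]
          exact not_lt.2 (le_of_lt hX)
      have hlim := aid_tendsto hfm hfb hfc
      have hval : f X₀ = (above φ).indicator (F a) X₀ := by
        rw [hf]
        by_cases hX : X₀ ∈ above φ
        · rw [indicator_of_mem hX, indicator_of_mem hX, hχ3 R hR X₀ (by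
            linarith [norm_nonneg X₀]), one_mul]
        · rw [indicator_of_notMem hX, indicator_of_notMem hX]
      rw [hval] at hlim
      refine hlim.congr fun ε => ?_
      rw [← integral_indicator (Repr1_isOpen_above hφ).measurableSet]
      refine integral_congr_ae (Filter.Eventually.of_forall fun X => ?_)
      show aid ε (X - X₀) * f X = (above φ).indicator (fun X => χ R X * (aid ε (X - X₀) * F a X)) X
      rw [hf]
      by_cases hX : X ∈ above φ
      · rw [indicator_of_mem hX, indicator_of_mem hX]; ring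
      · rw [indicator_of_notMem hX, indicator_of_notMem hX, mul_zero]
    -- the limit of the boundary term
    have hbdry : Tendsto (fun ε : ℝ => ∫ x : E d, χ R (x, φ x) *
        Repr1_g (fun b => nkr ε b ((x, φ x) - X₀)) (fun b => om φ b x) (fun b => F b (x, φ x)) a)
        (𝓝[>] 0) (𝓝 (∫ x : E d, χ R (x, φ x) * rdens φ F a X₀ x)) := by
      have hmain : ∀ (x : E d) (n : Ix d → ℝ), (∀ b, |n b| ≤ CN / ‖((x, φ x) : P d) - X₀‖ ^ d) →
          ‖χ R (x, φ x) * Repr1_g n (fun b => om φ b x) (fun b => F b (x, φ x)) a‖ ≤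
          K * (1 + ‖x‖) ^ (-((d : ℝ) + δ)) := by
        intro x n hn
        rw [Real.norm_eq_abs, abs_mul]
        have h1 : |χ R (x, φ x)| ≤ 1 := by
          rw [abs_of_nonneg (hχ2 R hR _).1]; exact (hχ2 R hR _).2
        calc |χ R (x, φ x)| * |Repr1_g n (fun b => om φ b x) (fun b => F b (x, φ x)) a|
            ≤ 1 * (K * (1 + ‖x‖) ^ (-((d : ℝ) + δ))) :=
              mul_le_mul h1 (hdom x n hn) (abs_nonneg _) zero_le_one
          _ = _ := one_mul _
      refine tendsto_integral_filter_of_dominated_convergence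
        (fun x : E d => K * (1 + ‖x‖) ^ (-((d : ℝ) + δ))) ?_ ?_ hint ?_
      · filter_upwards [self_mem_nhdsWithin] with ε hε
        refine Measurable.aestronglyMeasurable ?_
        refine (((hχ1 R hR).continuous.comp hgc).measurable).mul (hmg _ fun b => ?_)
        exact ((nkr_contDiff hε b).continuous.comp (hgc.sub continuous_const)).measurable
      · filter_upwards [self_mem_nhdsWithin] with ε hε
        exact Filter.Eventually.of_forall fun x => hmain x _ (hnkrb ε hε x)
      · refine Filter.Eventually.of_forall fun x => ?_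
        rw [Repr1_rdens]
        refine Tendsto.const_mul _ ?_
        unfold Repr1_g
        refine Tendsto.add ((nkr_tendsto a (hne x)).mul_const _) ?_
        exact tendsto_finsetSum _ fun b _ => (nkr_tendsto b (hne x)).mul_const _
    -- passage to the limit
    have hlim : Tendsto (fun ε : ℝ => |(∫ X in above φ, χ R X * (aid ε (X - X₀) * F a X)) -
        ∫ x : E d, χ R (x, φ x) * Repr1_g (fun b => nkr ε b ((x, φ x) - X₀))
          (fun b => om φ b x) (fun b => F b (x, φ x)) a|) (𝓝[>] 0)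
        (𝓝 |(above φ).indicator (F a) X₀ - ∫ x : E d, χ R (x, φ x) * rdens φ F a X₀ x|) :=
      (hfirst.sub hbdry).abs
    refine le_of_tendsto hlim ?_
    filter_upwards [self_mem_nhdsWithin] with ε hε
    have h1 := hid ε hε
    have h2 := hsec ε hε
    rw [← h1, sub_add_cancel_left, abs_neg]
    exact h2
  -- the limit R → ∞
  have hlimR : Tendsto (fun k : ℕ => ∫ x : E d, χ (k : ℝ) (x, φ x) * rdens φ F a X₀ x) atTop
      (𝓝 (∫ x : E d, rdens φ F a X₀ x)) := by
    refine tendsto_integral_filter_of_dominated_convergence (fun x => |rdens φ F a X₀ x|) ?_ ?_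
      hrI.abs ?_
    · filter_upwards [eventually_ge_atTop 1] with k hk
      have hk' : (0 : ℝ) < k := by exact_mod_cast hk
      exact ((((hχ1 k hk').continuous.comp hgc).measurable).mul hrm).aestronglyMeasurable
    · filter_upwards [eventually_ge_atTop 1] with k hk
      have hk' : (0 : ℝ) < k := by exact_mod_cast hk
      refine Filter.Eventually.of_forall fun x => ?_
      rw [Real.norm_eq_abs, abs_mul]
      have h1 : |χ (k : ℝ) (x, φ x)| ≤ 1 := by
        rw [abs_of_nonneg (hχ2 k hk' _).1]; exact (hχ2 k hk' _).2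
      calc |χ (k : ℝ) (x, φ x)| * |rdens φ F a X₀ x| ≤ 1 * |rdens φ F a X₀ x| :=
            mul_le_mul_of_nonneg_right h1 (abs_nonneg _)
        _ = _ := one_mul _
    · refine Filter.Eventually.of_forall fun x => ?_
      refine tendsto_const_nhds.congr' ?_
      obtain ⟨k₀, hk₀⟩ := exists_nat_gt ‖((x, φ x) : P d)‖
      filter_upwards [eventually_ge_atTop (k₀ + 1)] with k hk
      have hk' : (k₀ : ℝ) + 1 ≤ k := by exact_mod_cast hk
      have hk0 : (0 : ℝ) < k := by
        have : (0 : ℝ) ≤ k₀ := Nat.cast_nonneg _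
        linarith
      rw [hχ3 k hk0 _ (by linarith), one_mul]
  have hz : Tendsto (fun k : ℕ => K₂ * (k : ℝ) ^ (-δ)) atTop (𝓝 0) := by
    have := (tendsto_rpow_neg_atTop hδ).comp tendsto_natCast_atTop_atTop
    have h2 := this.const_mul K₂
    rw [mul_zero] at h2
    exact h2
  have hfin : |(above φ).indicator (F a) X₀ - ∫ x : E d, rdens φ F a X₀ x| ≤ 0 := by
    refine le_of_tendsto_of_tendsto ((tendsto_const_nhds.sub hlimR).abs) hz ?_
    obtain ⟨k₀, hk₀⟩ := exists_nat_gt (2 * ‖X₀‖)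
    filter_upwards [eventually_ge_atTop (k₀ + 1)] with k hk
    have hk' : (k₀ : ℝ) + 1 ≤ k := by exact_mod_cast hk
    have : (0 : ℝ) ≤ k₀ := Nat.cast_nonneg _
    exact hstep k (by linarith) (by linarith)
  have := abs_nonpos_iff.1 hfin
  linarith

/-- Representation formula.
Proof: for `ε > 0` and a smooth cutoff `χ_R` (`=1` on `‖X‖ ≤ R`, `=0` for `‖X‖ ≥ 2R`, `|∇χ_R| ≤ C/R`) apply `div_thm` to
`χ_R V`, `V_b = N_a F_b + N_b F_a - δ_ab ∑_c N_c F_c`, `N = nkr ε (· - X₀)`; `div V = aid ε (·-X₀) F_a` by `nkr_curl`, `nkr_div`,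
`IsField.curl`, `IsField.div`.  Let `ε → 0` (`aid_tendsto` applied to `1_{above φ} χ_R F_a`, which is bounded and continuous
at `X₀`; dominated convergence on the graph, where `‖(x,φ x)-X₀‖ ≥ c > 0`), then `R → ∞`: the term with `∇χ_R` is
`O(R^{-1} ∫_{R≤‖X‖≤2R} ‖X‖^{-d} ‖X‖^{-δ}) = O(R^{-δ})`, and `‖(x,φ x)-X₀‖^{-d}(1+‖x‖)^{-δ}` is integrable on `ℝ^d`. -/
theorem repr_in (hd : 1 ≤ d) {M : ℝ≥0} {φ : E d → ℝ} (hφ : LipschitzWith M φ) {U : Set (P d)} (hU : IsOpen U)
    (hDU : aboveC φ ⊆ U) {F : Ix d → P d → ℝ} (hF : IsField U F) {CF δ : ℝ} (hδ : 0 < δ)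
    (hdec : ∀ X ∈ aboveC φ, nF F X ≤ CF * (1 + ‖X‖) ^ (-δ)) (a : Ix d) {X₀ : P d} (hX₀ : X₀ ∈ above φ) :
    Integrable (rdens φ F a X₀) ∧ ∫ x : E d, rdens φ F a X₀ x = F a X₀ := by
  have h := Repr1_main hd hφ hU hDU hF hδ hdec a (X₀ := X₀) (ne_of_lt hX₀)
  rw [indicator_of_mem hX₀] at h
  exact h

/-- The same for an exterior point (same proof; `aid ε (Y-X₀) → 0` uniformly on the closed domain). -/
theorem repr_out (hd : 1 ≤ d) {M : ℝ≥0} {φ : E d → ℝ} (hφ : LipschitzWith M φ) {U : Set (P d)} (hU : IsOpen U)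
    (hDU : aboveC φ ⊆ U) {F : Ix d → P d → ℝ} (hF : IsField U F) {CF δ : ℝ} (hδ : 0 < δ)
    (hdec : ∀ X ∈ aboveC φ, nF F X ≤ CF * (1 + ‖X‖) ^ (-δ)) (a : Ix d) {X₀ : P d} (hX₀ : X₀ ∉ aboveC φ) :
    Integrable (rdens φ F a X₀) ∧ ∫ x : E d, rdens φ F a X₀ x = 0 := by
  have h0 : X₀.2 < φ X₀.1 := not_le.1 hX₀
  have h := Repr1_main hd hφ hU hDU hF hδ hdec a (X₀ := X₀) (ne_of_gt h0)
  rw [indicator_of_notMem (fun h1 => hX₀ (Repr1_above_subset φ h1))] at h
  exact h

end HG
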