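import Pool.Agent.W_MP_825298_an.NewtonDefs

open MeasureTheory Set Filter Topology
open scoped ENNReal NNReal BigOperators

namespace HG
variable {d : ℕ}

/-- the density in the representation formula -/
noncomputable def rdens (φ : E d → ℝ) (F : Ix d → P d → ℝ) (a : Ix d) (X₀ : P d) (x : E d) : ℝ :=
  nk a ((x, φ x) - X₀) * (∑ b : Ix d, om φ b x * F b (x, φ x))
    + ∑ b : Ix d, nk b ((x, φ x) - X₀) * (F a (x, φ x) * om φ b x - F b (x, φ x) * om φ a x)

end HG
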