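import Pool.Agent.W_MP_825298_an.PathDefs

open MeasureTheory Set Filter Topology
open scoped ENNReal NNReal BigOperators

namespace HG
variable {d : ℕ}

/-! auxiliary facts on truncated powers -/

theorem Spl1_hasDerivAt (n : ℕ) (x : ℝ) :
    HasDerivAt (fun y : ℝ => (max y 0) ^ (n + 2)) (((n : ℝ) + 2) * (max x 0) ^ (n + 1)) x := by
  rcases lt_trichotomy x 0 with h | h | h
  · have h1 : (fun y : ℝ => (max y 0) ^ (n + 2)) =ᶠ[𝓝 x] fun _ => 0 := by
      filter_upwards [Iio_mem_nhds h] with y hy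
      rw [max_eq_right (le_of_lt hy)]
      simp
    have h2 : ((n : ℝ) + 2) * (max x 0) ^ (n + 1) = 0 := by
      rw [max_eq_right h.le]
      simp
    rw [h2]
    exact (hasDerivAt_const x (0 : ℝ)).congr_of_eventuallyEq h1
  · subst h
    have h2 : ((n : ℝ) + 2) * (max (0 : ℝ) 0) ^ (n + 1) = 0 := by simp
    rw [h2, hasDerivAt_iff_tendsto_slope]
    have h3 : Tendsto (fun y : ℝ => (max y 0) ^ (n + 1)) (𝓝[≠] 0) (𝓝 0) := by
      have hc : Continuous (fun y : ℝ => (max y 0) ^ (n + 1)) :=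
        (continuous_id.max continuous_const).pow _
      have := (hc.tendsto 0).mono_left (nhdsWithin_le_nhds (s := {0}ᶜ))
      simpa using this
    refine h3.congr' ?_
    filter_upwards [self_mem_nhdsWithin] with y hy
    have hy0 : y ≠ 0 := hy
    rw [slope_def_field]
    simp only [max_self, sub_zero]
    rw [zero_pow (by omega), sub_zero, eq_div_iff hy0]
    rcases le_total 0 y with h | h
    · rw [max_eq_left h]
      ring
    · rw [max_eq_right h]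
      simp
  · have h1 : (fun y : ℝ => (max y 0) ^ (n + 2)) =ᶠ[𝓝 x] fun y => y ^ (n + 2) := by
      filter_upwards [Ioi_mem_nhds h] with y hy
      rw [max_eq_left (le_of_lt hy)]
    have h2 : ((n : ℝ) + 2) * (max x 0) ^ (n + 1) = ((n + 2 : ℕ) : ℝ) * x ^ (n + 2 - 1) := by
      rw [max_eq_left h.le]
      push_cast
      rfl
    rw [h2]
    exact (hasDerivAt_pow (n + 2) x).congr_of_eventuallyEq h1

theorem Spl1_hasDerivAt_shift (n : ℕ) (a x : ℝ) :
    HasDerivAt (fun y : ℝ => (max (y + a) 0) ^ (n + 2)) (((n : ℝ) + 2) * (max (x + a) 0) ^ (n + 1))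
      x :=
  (Spl1_hasDerivAt n (x + a)).comp_add_const x a

/-- the truncated power sum with exponent `n + 2` -/
noncomputable def Spl1_B (n : ℕ) (s : ℝ) : ℝ :=
  (max (s + 2) 0) ^ n - 4 * (max (s + 1) 0) ^ n + 6 * (max s 0) ^ n - 4 * (max (s - 1) 0) ^ n
    + (max (s - 2) 0) ^ n

theorem Spl1_B_hasDerivAt (n : ℕ) (s : ℝ) :
    HasDerivAt (Spl1_B (n + 2)) (((n : ℝ) + 2) * Spl1_B (n + 1) s) s := by
  have h1 := Spl1_hasDerivAt_shift n 2 s
  have h2 := (Spl1_hasDerivAt_shift n 1 s).const_mul 4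
  have h3 := (Spl1_hasDerivAt n s).const_mul 6
  have h4 := ((Spl1_hasDerivAt n (s - 1)).comp_sub_const s 1).const_mul 4
  have h5 := (Spl1_hasDerivAt n (s - 2)).comp_sub_const s 2
  have h := (((h1.fun_sub h2).fun_add h3).fun_sub h4).fun_add h5
  refine h.congr_deriv ?_
  unfold Spl1_B
  ring

theorem Spl1_bs_eq : bs = fun s => Spl1_B 3 s / 6 := rfl

theorem Spl1_bs_hasDerivAt (s : ℝ) : HasDerivAt bs (Spl1_B 2 s / 2) s := by
  have h := (Spl1_B_hasDerivAt 1 s).div_const 6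
  rw [Spl1_bs_eq]
  refine h.congr_deriv ?_
  push_cast
  ring

theorem Spl1_deriv_bs : deriv bs = fun s => Spl1_B 2 s / 2 := by
  funext s
  exact (Spl1_bs_hasDerivAt s).deriv

theorem Spl1_B_continuous (n : ℕ) : Continuous (Spl1_B n) := by
  unfold Spl1_B
  fun_prop

theorem bs_contDiff : ContDiff ℝ 2 bs := by
  have h1 : ContDiff ℝ 1 (Spl1_B 2) := by
    rw [contDiff_one_iff_deriv]
    refine ⟨fun s => (Spl1_B_hasDerivAt 0 s).differentiableAt, ?_⟩
    have e : deriv (Spl1_B 2) = fun s => ((0 : ℕ) + 2 : ℝ) * Spl1_B 1 s := by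
      funext s
      exact (Spl1_B_hasDerivAt 0 s).deriv
    rw [e]
    exact continuous_const.mul (Spl1_B_continuous 1)
  have h2 : ContDiff ℝ (1 + 1) bs := by
    rw [contDiff_succ_iff_deriv]
    refine ⟨fun s => (Spl1_bs_hasDerivAt s).differentiableAt, by simp, ?_⟩
    rw [Spl1_deriv_bs]
    exact h1.div_const 2
  have e : (1 + 1 : WithTop ℕ∞) = 2 := by norm_num
  rw [e] at h2
  exact h2

theorem Spl1_max_neg (x : ℝ) : max (-x) 0 = max x 0 - x := by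
  rcases le_total 0 x with h | h
  · rw [max_eq_left h, max_eq_right (by linarith)]
    ring
  · rw [max_eq_right h, max_eq_left (by linarith)]
    ring

theorem Spl1_cube_neg (x : ℝ) : (max (-x) 0) ^ 3 = (max x 0) ^ 3 - x ^ 3 := by
  rcases le_total 0 x with h | h
  · rw [max_eq_left h, max_eq_right (by linarith)]
    ring
  · rw [max_eq_right h, max_eq_left (by linarith)]
    ring

theorem Spl1_sq_neg (x : ℝ) : (max (-x) 0) ^ 2 = x ^ 2 - (max x 0) ^ 2 := by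
  rcases le_total 0 x with h | h
  · rw [max_eq_left h, max_eq_right (by linarith)]
    ring
  · rw [max_eq_right h, max_eq_left (by linarith)]
    ring

theorem bs_neg (s : ℝ) : bs (-s) = bs s := by
  unfold bs
  have h1 : (max (-s + 2) 0) ^ 3 = (max (s - 2) 0) ^ 3 - (s - 2) ^ 3 := by
    rw [← Spl1_cube_neg]
    congr 2
    ring
  have h2 : (max (-s + 1) 0) ^ 3 = (max (s - 1) 0) ^ 3 - (s - 1) ^ 3 := by
    rw [← Spl1_cube_neg]
    congr 2
    ring
  have h3 := Spl1_cube_neg s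
  have h4 : (max (-s - 1) 0) ^ 3 = (max (s + 1) 0) ^ 3 - (s + 1) ^ 3 := by
    rw [← Spl1_cube_neg]
    congr 2
    ring
  have h5 : (max (-s - 2) 0) ^ 3 = (max (s + 2) 0) ^ 3 - (s + 2) ^ 3 := by
    rw [← Spl1_cube_neg]
    congr 2
    ring
  rw [h1, h2, h3, h4, h5]
  ring

theorem Spl1_B2_neg (s : ℝ) : Spl1_B 2 (-s) = -Spl1_B 2 s := by
  unfold Spl1_B
  have h1 : (max (-s + 2) 0) ^ 2 = (s - 2) ^ 2 - (max (s - 2) 0) ^ 2 := by
    rw [← Spl1_sq_neg]
    congr 2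
    ring
  have h2 : (max (-s + 1) 0) ^ 2 = (s - 1) ^ 2 - (max (s - 1) 0) ^ 2 := by
    rw [← Spl1_sq_neg]
    congr 2
    ring
  have h3 := Spl1_sq_neg s
  have h4 : (max (-s - 1) 0) ^ 2 = (s + 1) ^ 2 - (max (s + 1) 0) ^ 2 := by
    rw [← Spl1_sq_neg]
    congr 2
    ring
  have h5 : (max (-s - 2) 0) ^ 2 = (s + 2) ^ 2 - (max (s + 2) 0) ^ 2 := by
    rw [← Spl1_sq_neg]
    congr 2
    ring
  rw [h1, h2, h3, h4, h5]
  ring

theorem Spl1_abs (s : ℝ) : bs s = bs |s| := by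
  rcases abs_choice s with h | h
  · rw [h]
  · rw [h, bs_neg]

theorem Spl1_abs_deriv (s : ℝ) : |deriv bs s| = abs (deriv bs (abs s)) := by
  rw [Spl1_deriv_bs]
  rcases abs_choice s with h | h
  · rw [h]
  · simp only [h, Spl1_B2_neg]
    rw [neg_div, abs_neg]

theorem Spl1_bs_01 {s : ℝ} (h0 : 0 ≤ s) (h1 : s ≤ 1) : bs s = (4 - 6 * s ^ 2 + 3 * s ^ 3) / 6 := by
  unfold bs
  rw [max_eq_left (by linarith : (0 : ℝ) ≤ s + 2), max_eq_left (by linarith : (0 : ℝ) ≤ s + 1),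
    max_eq_left h0, max_eq_right (by linarith : s - 1 ≤ 0), max_eq_right (by linarith : s - 2 ≤ 0)]
  ring

theorem Spl1_bs_12 {s : ℝ} (h0 : 1 ≤ s) (h1 : s ≤ 2) : bs s = (2 - s) ^ 3 / 6 := by
  unfold bs
  rw [max_eq_left (by linarith : (0 : ℝ) ≤ s + 2), max_eq_left (by linarith : (0 : ℝ) ≤ s + 1),
    max_eq_left (by linarith : (0 : ℝ) ≤ s), max_eq_left (by linarith : (0 : ℝ) ≤ s - 1),
    max_eq_right (by linarith : s - 2 ≤ 0)]
  ring

theorem Spl1_bs_2 {s : ℝ} (h0 : 2 ≤ s) : bs s = 0 := by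
  unfold bs
  rw [max_eq_left (by linarith : (0 : ℝ) ≤ s + 2), max_eq_left (by linarith : (0 : ℝ) ≤ s + 1),
    max_eq_left (by linarith : (0 : ℝ) ≤ s), max_eq_left (by linarith : (0 : ℝ) ≤ s - 1),
    max_eq_left (by linarith : (0 : ℝ) ≤ s - 2)]
  ring

theorem Spl1_d_01 {s : ℝ} (h0 : 0 ≤ s) (h1 : s ≤ 1) : deriv bs s = -2 * s + 3 / 2 * s ^ 2 := by
  rw [Spl1_deriv_bs]
  unfold Spl1_B
  simp only
  rw [max_eq_left (by linarith : (0 : ℝ) ≤ s + 2), max_eq_left (by linarith : (0 : ℝ) ≤ s + 1),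
    max_eq_left h0, max_eq_right (by linarith : s - 1 ≤ 0), max_eq_right (by linarith : s - 2 ≤ 0)]
  ring

theorem Spl1_d_12 {s : ℝ} (h0 : 1 ≤ s) (h1 : s ≤ 2) : deriv bs s = -(2 - s) ^ 2 / 2 := by
  rw [Spl1_deriv_bs]
  unfold Spl1_B
  simp only
  rw [max_eq_left (by linarith : (0 : ℝ) ≤ s + 2), max_eq_left (by linarith : (0 : ℝ) ≤ s + 1),
    max_eq_left (by linarith : (0 : ℝ) ≤ s), max_eq_left (by linarith : (0 : ℝ) ≤ s - 1),
    max_eq_right (by linarith : s - 2 ≤ 0)]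
  ring

theorem Spl1_d_2 {s : ℝ} (h0 : 2 ≤ s) : deriv bs s = 0 := by
  rw [Spl1_deriv_bs]
  unfold Spl1_B
  simp only
  rw [max_eq_left (by linarith : (0 : ℝ) ≤ s + 2), max_eq_left (by linarith : (0 : ℝ) ≤ s + 1),
    max_eq_left (by linarith : (0 : ℝ) ≤ s), max_eq_left (by linarith : (0 : ℝ) ≤ s - 1),
    max_eq_left (by linarith : (0 : ℝ) ≤ s - 2)]
  ring

theorem bs_zero {s : ℝ} (hs : 2 ≤ |s|) : bs s = 0 := by
  rw [Spl1_abs]
  exact Spl1_bs_2 hs

theorem bs_nonneg (s : ℝ) : 0 ≤ bs s := by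
  rw [Spl1_abs]
  have h0 := abs_nonneg s
  rcases le_total |s| 1 with h | h
  · rw [Spl1_bs_01 h0 h]
    have h1 : |s| ^ 2 ≤ 1 := pow_le_one₀ h0 h
    have h2 : 0 ≤ (1 - |s|) * (1 + |s|) := by nlinarith
    nlinarith [mul_nonneg h0 (sq_nonneg (1 - |s|)), pow_nonneg h0 3, mul_nonneg (sq_nonneg |s|) h0,
      mul_nonneg (sub_nonneg.2 h) (sub_nonneg.2 h1), sq_nonneg (|s| - 1)]
  · rcases le_total |s| 2 with h' | h'
    · rw [Spl1_bs_12 h h']
      have : 0 ≤ 2 - |s| := by linarith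
      positivity
    · rw [Spl1_bs_2 h']

theorem bs_lower {s : ℝ} (hs : |s| ≤ 1) : 1 / 6 ≤ bs s := by
  rw [Spl1_abs]
  have h0 := abs_nonneg s
  rw [Spl1_bs_01 h0 hs]
  have h1 : 0 ≤ 1 - |s| := by linarith
  -- `4 - 6 s² + 3 s³ - 1 = 3 (1 - s) (1 + s - s²)`
  have h2 : 0 ≤ (1 - |s|) * (1 + |s| - |s| ^ 2) := by
    apply mul_nonneg h1
    nlinarith
  nlinarith

theorem bs_le_one (s : ℝ) : bs s ≤ 1 := by
  rw [Spl1_abs]
  have h0 := abs_nonneg s
  rcases le_total |s| 1 with h | h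
  · rw [Spl1_bs_01 h0 h]
    have h1 : 0 ≤ |s| ^ 2 * (2 - |s|) := mul_nonneg (sq_nonneg _) (by linarith)
    nlinarith
  · rcases le_total |s| 2 with h' | h'
    · rw [Spl1_bs_12 h h']
      have h1 : (2 - |s|) ^ 3 ≤ 1 := pow_le_one₀ (by linarith) (by linarith)
      linarith
    · rw [Spl1_bs_2 h']
      norm_num

theorem bs_integral : ∫ s : ℝ, bs s = 1 := by
  have hsupp : Function.support bs ⊆ Ioc (-2) 2 := by
    intro s hs
    by_contra hcon
    apply hs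
    apply bs_zero
    by_contra h
    push Not at h
    rw [abs_lt] at h
    exact hcon ⟨h.1, h.2.le⟩
  rw [← intervalIntegral.integral_eq_integral_of_support_subset hsupp]
  have h : ∀ s ∈ uIcc (-2 : ℝ) 2, HasDerivAt (fun s => Spl1_B 4 s / 24) (bs s) s := by
    intro s _
    have h1 := (Spl1_B_hasDerivAt 2 s).div_const 24
    refine h1.congr_deriv ?_
    rw [Spl1_bs_eq]
    push_cast
    ring
  rw [intervalIntegral.integral_eq_sub_of_hasDerivAt h
    (bs_contDiff.continuous.intervalIntegrable _ _)]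
  unfold Spl1_B
  norm_num

theorem Spl1_scale (s a b : ℝ) (h : b = 2 * a) :
    (max (s + a) 0) ^ 3 = (max (2 * s + b) 0) ^ 3 / 8 := by
  have e : 2 * s + b = 2 * (s + a) := by rw [h]; ring
  rw [e]
  rcases le_total 0 (s + a) with h | h
  · rw [max_eq_left h, max_eq_left (by linarith)]
    ring
  · rw [max_eq_right h, max_eq_right (by linarith)]
    ring

/-- two-scale relation; from `max (2x) 0 ^3 = 8 max x 0 ^3` and `(1+z)^4(1-z)^4 = (1-z²)^4` (just expand and `ring`). -/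
theorem bs_refine (s : ℝ) : bs s = ∑ k : Fin 5, 2 * (w5 k : ℝ) * bs (2 * s - (((k : ℕ) : ℝ) - 2)) := by
  have hB : ∀ t c : ℝ, bs (2 * t + c) = ((max (2 * t + (c + 2)) 0) ^ 3
      - 4 * (max (2 * t + (c + 1)) 0) ^ 3 + 6 * (max (2 * t + c) 0) ^ 3
      - 4 * (max (2 * t + (c - 1)) 0) ^ 3 + (max (2 * t + (c - 2)) 0) ^ 3) / 6 := by
    intro t c
    unfold bs
    simp only [add_assoc, add_sub_assoc]
  have e0 : 2 * s - (((0 : ℕ) : ℝ) - 2) = 2 * s + 2 := by push_cast; ring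
  have e1 : 2 * s - (((1 : ℕ) : ℝ) - 2) = 2 * s + 1 := by push_cast; ring
  have e2 : 2 * s - (((2 : ℕ) : ℝ) - 2) = 2 * s + 0 := by push_cast; ring
  have e3 : 2 * s - (((3 : ℕ) : ℝ) - 2) = 2 * s + (-1) := by push_cast; ring
  have e4 : 2 * s - (((4 : ℕ) : ℝ) - 2) = 2 * s + (-2) := by push_cast; ring
  have w0 : ((w5 0 : ℝ≥0) : ℝ) = 1 / 16 := by simp [w5]
  have w1 : ((w5 1 : ℝ≥0) : ℝ) = 4 / 16 := by simp [w5]
  have w2 : ((w5 2 : ℝ≥0) : ℝ) = 6 / 16 := by simp [w5]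
  have w3 : ((w5 3 : ℝ≥0) : ℝ) = 4 / 16 := by simp [w5]
  have w4 : ((w5 4 : ℝ≥0) : ℝ) = 1 / 16 := by simp [w5]
  rw [Fin.sum_univ_five]
  have f0 : ((0 : Fin 5) : ℕ) = 0 := rfl
  have f1 : ((1 : Fin 5) : ℕ) = 1 := rfl
  have f2 : ((2 : Fin 5) : ℕ) = 2 := rfl
  have f3 : ((3 : Fin 5) : ℕ) = 3 := rfl
  have f4 : ((4 : Fin 5) : ℕ) = 4 := rfl
  rw [f0, f1, f2, f3, f4, e0, e1, e2, e3, e4, w0, w1, w2, w3, w4, hB, hB, hB, hB, hB]
  have g1 := Spl1_scale s 2 4 (by norm_num)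
  have g2 := Spl1_scale s 1 2 (by norm_num)
  have g3 : (max s 0) ^ 3 = (max (2 * s + 0) 0) ^ 3 / 8 := by
    have := Spl1_scale s 0 0 (by norm_num)
    rwa [add_zero s] at this
  have g4 : (max (s - 1) 0) ^ 3 = (max (2 * s + (-2)) 0) ^ 3 / 8 := Spl1_scale s (-1) (-2) (by norm_num)
  have g5 : (max (s - 2) 0) ^ 3 = (max (2 * s + (-4)) 0) ^ 3 / 8 := Spl1_scale s (-2) (-4) (by norm_num)
  unfold bs
  rw [g1, g2, g3, g4, g5]
  norm_num
  ring

theorem bs_deriv_le (s : ℝ) : |deriv bs s| ≤ 1 := by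
  rw [Spl1_abs_deriv]
  have h0 := abs_nonneg s
  rcases le_total |s| 1 with h | h
  · rw [Spl1_d_01 h0 h, abs_le]
    constructor <;> nlinarith [sq_nonneg (|s| - 2 / 3), mul_nonneg h0 (sub_nonneg.2 h)]
  · rcases le_total |s| 2 with h' | h'
    · rw [Spl1_d_12 h h', abs_le]
      have h1 : (2 - |s|) ^ 2 ≤ 1 := pow_le_one₀ (by linarith) (by linarith)
      have h2 := sq_nonneg (2 - |s|)
      constructor <;> linarith
    · rw [Spl1_d_2 h']
      norm_num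

/-- near the edge: `bs s = (2-|s|)³/6` for `1 ≤ |s| ≤ 2` -/
theorem bs_edge {s η : ℝ} (hη : 0 < η) (hη1 : η ≤ 1) (hs : 2 - η ≤ |s|) : bs s ≤ η ^ 3 ∧ |deriv bs s| ≤ η ^ 2 := by
  rw [Spl1_abs, Spl1_abs_deriv]
  have h1 : 1 ≤ |s| := by linarith
  rcases le_total |s| 2 with h' | h'
  · rw [Spl1_bs_12 h1 h', Spl1_d_12 h1 h']
    have h2 : (2 - |s|) ^ 3 ≤ η ^ 3 := pow_le_pow_left₀ (by linarith) (by linarith) 3
    have h3 : (2 - |s|) ^ 2 ≤ η ^ 2 := pow_le_pow_left₀ (by linarith) (by linarith) 2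
    have h4 := sq_nonneg (2 - |s|)
    have h5 : 0 ≤ η ^ 3 := by positivity
    constructor
    · linarith
    · rw [abs_le]
      constructor <;> linarith
  · rw [Spl1_bs_2 h', Spl1_d_2 h']
    constructor
    · positivity
    · rw [abs_zero]
      positivity

end HG
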