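import Pool.Agent.W_MP_825298_an.TBDefs
import Pool.Agent.W_MP_825298_an.Newton3a
import Pool.Agent.W_MP_825298_an.Newton3b

open MeasureTheory Set Filter Topology
open scoped ENNReal NNReal BigOperators

namespace HG
variable {d : ℕ}

theorem TB1_inv_pow_le {s L a : ℝ} (hs : 0 < s) (hL : 1 ≤ L) (h : s ≤ L * a) (k : ℕ) :
    1 / a ^ k ≤ L ^ k / s ^ k := by
  have hL0 : 0 < L := by linarith
  have ha : 0 < a := by
    by_contra h0
    have h1 : a ≤ 0 := not_lt.1 h0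
    have h2 : L * a ≤ 0 := mul_nonpos_of_nonneg_of_nonpos hL0.le h1
    linarith
  rw [div_le_div_iff₀ (pow_pos ha k) (pow_pos hs k), one_mul, ← mul_pow]
  exact pow_le_pow_left₀ hs.le h k

theorem TB1_min_ge {s r Q : ℝ} (hs : 0 < s) (hQ : 1 ≤ Q) (h : s ≤ Q * r) :
    1 ≤ Q * min 1 (r / s) := by
  have hQ0 : 0 < Q := by linarith
  rw [mul_min_of_nonneg _ _ hQ0.le]
  refine le_min (by linarith) ?_
  rw [← mul_div_assoc, le_div_iff₀ hs, one_mul]
  exact h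

theorem TB1_nk_bound (d : ℕ) {L : ℝ} (hL : 1 ≤ L) : ∃ C : ℝ, 0 < C ∧
    ∀ (b : Ix d) (A V : P d) (s r : ℝ), 0 < s → 0 < r → s ≤ L * ‖A‖ → s ≤ L * ‖A + V‖ →
    ‖V‖ ≤ L * r → |nk b A - nk b (A + V)| ≤ C * ((s ^ d)⁻¹ * min 1 (r / s)) := by
  obtain ⟨C1, hC1, hb, -⟩ := nk_bound d
  obtain ⟨C2, hC2, hdf⟩ := nk_diff d
  have hL0 : 0 < L := by linarith
  refine ⟨2 * C1 * L ^ d * (4 * L ^ 2) + C2 * L ^ (d + 2), by positivity, ?_⟩
  intro b A V s r hs hr hA hAV hV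
  have hne : ∀ B : P d, s ≤ L * ‖B‖ → B ≠ 0 := by
    intro B hB h0
    rw [h0, norm_zero, mul_zero] at hB
    linarith
  have hm0 : 0 ≤ min 1 (r / s) := le_min zero_le_one (by positivity)
  have hL2 : 1 ≤ L ^ 2 := one_le_pow₀ hL
  by_cases hc : s ≤ 4 * L ^ 2 * r
  · have hm := TB1_min_ge (Q := 4 * L ^ 2) hs (by linarith) hc
    have h1 : ∀ B : P d, s ≤ L * ‖B‖ → |nk b B| ≤ C1 * (L ^ d * (s ^ d)⁻¹) := by
      intro B hB
      refine (hb b B (hne B hB)).trans ?_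
      rw [div_eq_mul_inv, ← one_div]
      refine mul_le_mul_of_nonneg_left ?_ hC1.le
      rw [← div_eq_mul_inv]
      exact TB1_inv_pow_le hs hL hB d
    calc |nk b A - nk b (A + V)| ≤ |nk b A| + |nk b (A + V)| := abs_sub _ _
      _ ≤ C1 * (L ^ d * (s ^ d)⁻¹) + C1 * (L ^ d * (s ^ d)⁻¹) :=
          add_le_add (h1 _ hA) (h1 _ hAV)
      _ = (2 * C1 * L ^ d * (s ^ d)⁻¹) * 1 := by ring
      _ ≤ (2 * C1 * L ^ d * (s ^ d)⁻¹) * (4 * L ^ 2 * min 1 (r / s)) :=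
          mul_le_mul_of_nonneg_left hm (by positivity)
      _ = (2 * C1 * L ^ d * (4 * L ^ 2)) * ((s ^ d)⁻¹ * min 1 (r / s)) := by ring
      _ ≤ _ := by
          refine mul_le_mul_of_nonneg_right ?_ (by positivity)
          have : 0 ≤ C2 * L ^ (d + 2) := by positivity
          linarith
  · rw [not_le] at hc
    have hVA : ‖V‖ ≤ ‖A‖ / 2 := by
      have h1 : L * ‖V‖ ≤ L * (‖A‖ / 2) := by
        have h2 : L * ‖V‖ ≤ L * (L * r) := mul_le_mul_of_nonneg_left hV hL0.le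
        nlinarith
      exact le_of_mul_le_mul_left h1 hL0
    have h1 := hdf b A V (hne A hA) hVA
    have hrs : r / s ≤ 1 := by
      rw [div_le_one hs]
      nlinarith
    have hm : min 1 (r / s) = r / s := min_eq_right hrs
    rw [hm, abs_sub_comm]
    calc |nk b (A + V) - nk b A| ≤ C2 * ‖V‖ / ‖A‖ ^ (d + 1) := h1
      _ = C2 * ‖V‖ * (1 / ‖A‖ ^ (d + 1)) := by ring
      _ ≤ C2 * (L * r) * (L ^ (d + 1) / s ^ (d + 1)) := by
          refine mul_le_mul (mul_le_mul_of_nonneg_left hV hC2.le)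
            (TB1_inv_pow_le hs hL hA (d + 1)) (by positivity) (by positivity)
      _ = C2 * L ^ (d + 2) * ((s ^ d)⁻¹ * (r / s)) := by
          rw [pow_succ s d]
          field_simp
          ring
      _ ≤ _ := by
          refine mul_le_mul_of_nonneg_right ?_ (by positivity)
          have : 0 ≤ 2 * C1 * L ^ d * (4 * L ^ 2) := by positivity
          linarith

theorem TB1_nk_lip (d : ℕ) {L : ℝ} (hL : 1 ≤ L) : ∃ C : ℝ, 0 < C ∧
    ∀ (b : Ix d) (A V W : P d) (s r ρ : ℝ), 0 < s → 0 < r → 0 ≤ ρ → s ≤ L * ‖A‖ →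
    s ≤ L * ‖A + V‖ → ‖V‖ ≤ L * r → ‖W‖ ≤ L * ρ → 4 * L ^ 2 * ρ ≤ s →
    |(nk b A - nk b (A + V)) - (nk b (A + W) - nk b (A + V + W))|
      ≤ C * (ρ * (s ^ (d + 1))⁻¹ * min 1 (r / s)) := by
  obtain ⟨C1, hC1, hd1⟩ := nk_diff d
  obtain ⟨C2, hC2, hd2⟩ := nk_diff2 d
  have hL0 : 0 < L := by linarith
  refine ⟨2 * C1 * L ^ (d + 2) * (4 * L ^ 2) + C2 * L ^ (d + 4), by positivity, ?_⟩
  intro b A V W s r ρ hs hr hρ hA hAV hV hW hρs
  have hne : ∀ B : P d, s ≤ L * ‖B‖ → B ≠ 0 := by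
    intro B hB h0
    rw [h0, norm_zero, mul_zero] at hB
    linarith
  have hm0 : 0 ≤ min 1 (r / s) := le_min zero_le_one (by positivity)
  have hL2 : 1 ≤ L ^ 2 := one_le_pow₀ hL
  have hWB : ∀ B : P d, s ≤ L * ‖B‖ → ‖W‖ ≤ ‖B‖ / 4 := by
    intro B hB
    have h1 : L * ‖W‖ ≤ L * (‖B‖ / 4) := by
      have h2 : L * ‖W‖ ≤ L * (L * ρ) := mul_le_mul_of_nonneg_left hW hL0.le
      nlinarith
    exact le_of_mul_le_mul_left h1 hL0
  by_cases hc : s ≤ 4 * L ^ 2 * r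
  · have hm := TB1_min_ge (Q := 4 * L ^ 2) hs (by linarith) hc
    have h1 : ∀ B : P d, s ≤ L * ‖B‖ →
        |nk b (B + W) - nk b B| ≤ C1 * (L ^ (d + 2) * ρ * (s ^ (d + 1))⁻¹) := by
      intro B hB
      have h2 : ‖W‖ ≤ ‖B‖ / 2 := by
        have := hWB B hB
        have := norm_nonneg B
        linarith
      refine (hd1 b B W (hne B hB) h2).trans ?_
      calc C1 * ‖W‖ / ‖B‖ ^ (d + 1) = C1 * ‖W‖ * (1 / ‖B‖ ^ (d + 1)) := by ring
        _ ≤ C1 * (L * ρ) * (L ^ (d + 1) / s ^ (d + 1)) := by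
            refine mul_le_mul (mul_le_mul_of_nonneg_left hW hC1.le)
              (TB1_inv_pow_le hs hL hB (d + 1)) (by positivity) (by positivity)
        _ = C1 * (L ^ (d + 2) * ρ * (s ^ (d + 1))⁻¹) := by
            rw [pow_succ L (d + 1)]
            ring
    have e : (nk b A - nk b (A + V)) - (nk b (A + W) - nk b (A + V + W)) =
        (nk b (A + V + W) - nk b (A + V)) - (nk b (A + W) - nk b A) := by ring
    rw [e]
    calc |(nk b (A + V + W) - nk b (A + V)) - (nk b (A + W) - nk b A)|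
        ≤ |nk b (A + V + W) - nk b (A + V)| + |nk b (A + W) - nk b A| := abs_sub _ _
      _ ≤ C1 * (L ^ (d + 2) * ρ * (s ^ (d + 1))⁻¹) + C1 * (L ^ (d + 2) * ρ * (s ^ (d + 1))⁻¹) :=
          add_le_add (h1 _ hAV) (h1 _ hA)
      _ = (2 * C1 * L ^ (d + 2) * ρ * (s ^ (d + 1))⁻¹) * 1 := by ring
      _ ≤ (2 * C1 * L ^ (d + 2) * ρ * (s ^ (d + 1))⁻¹) * (4 * L ^ 2 * min 1 (r / s)) :=
          mul_le_mul_of_nonneg_left hm (by positivity)
      _ = (2 * C1 * L ^ (d + 2) * (4 * L ^ 2)) * (ρ * (s ^ (d + 1))⁻¹ * min 1 (r / s)) := by ring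
      _ ≤ _ := by
          refine mul_le_mul_of_nonneg_right ?_ (by positivity)
          have : 0 ≤ C2 * L ^ (d + 4) := by positivity
          linarith
  · rw [not_le] at hc
    have hVA : ‖V‖ ≤ ‖A‖ / 4 := by
      have h1 : L * ‖V‖ ≤ L * (‖A‖ / 4) := by
        have h2 : L * ‖V‖ ≤ L * (L * r) := mul_le_mul_of_nonneg_left hV hL0.le
        nlinarith
      exact le_of_mul_le_mul_left h1 hL0
    have h1 := hd2 b A V W (hne A hA) hVA (hWB A hA)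
    have hrs : r / s ≤ 1 := by
      rw [div_le_one hs]
      nlinarith
    have hm : min 1 (r / s) = r / s := min_eq_right hrs
    have e : (nk b A - nk b (A + V)) - (nk b (A + W) - nk b (A + V + W)) =
        nk b (A + V + W) - nk b (A + V) - nk b (A + W) + nk b A := by ring
    rw [hm, e]
    calc |nk b (A + V + W) - nk b (A + V) - nk b (A + W) + nk b A|
        ≤ C2 * ‖V‖ * ‖W‖ / ‖A‖ ^ (d + 2) := h1
      _ = C2 * ‖V‖ * ‖W‖ * (1 / ‖A‖ ^ (d + 2)) := by ring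
      _ ≤ C2 * (L * r) * (L * ρ) * (L ^ (d + 2) / s ^ (d + 2)) := by
          refine mul_le_mul (mul_le_mul (mul_le_mul_of_nonneg_left hV hC2.le) hW
            (norm_nonneg _) (by positivity))
            (TB1_inv_pow_le hs hL hA (d + 2)) (by positivity) (by positivity)
      _ = C2 * L ^ (d + 4) * (ρ * (s ^ (d + 1))⁻¹ * (r / s)) := by
          rw [pow_succ s (d + 1), pow_add L d 4, pow_add L d 2]
          field_simp
      _ ≤ _ := by
          refine mul_le_mul_of_nonneg_right ?_ (by positivity)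
          have : 0 ≤ 2 * C1 * L ^ (d + 2) * (4 * L ^ 2) := by positivity
          linarith

/-- Geometry: `A = (z,φ z) - (y,φ y+τ)` has `‖A‖ ≥ (|z-y|+τ)/(2+M)` (as `‖A‖ ≥ |z-y|` and `‖A‖ ≥ τ - M|z-y|`),
`A' = (z,φ z) - (y,φ y-r)` has `‖A'‖ ≥ (|z-y|+r)/(2+M)`. -/
theorem norm_A_ge {M : ℝ≥0} {φ : E d → ℝ} (hφ : LipschitzWith M φ) (y z : E d) {t : ℝ} (ht : 0 ≤ t) :
    (‖z - y‖ + t) / (2 + M) ≤ ‖((z, φ z) : P d) - (y, φ y + t)‖ ∧
    (‖z - y‖ + t) / (2 + M) ≤ ‖((z, φ z) : P d) - (y, φ y - t)‖ := by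
  have hM : (0 : ℝ) ≤ M := M.2
  have hlip : |φ z - φ y| ≤ M * ‖z - y‖ := by
    have := hφ.dist_le_mul z y
    rwa [Real.dist_eq, dist_eq_norm] at this
  have key : ∀ u : ℝ, t ≤ |u| + M * ‖z - y‖ → ‖z - y‖ ≤ ‖((z - y, u) : P d)‖ ∧
      |u| ≤ ‖((z - y, u) : P d)‖ := by
    intro u _
    exact ⟨norm_fst_le ((z - y, u) : P d), norm_snd_le ((z - y, u) : P d)⟩
  have fin : ∀ u : ℝ, t ≤ |u| + M * ‖z - y‖ →
      (‖z - y‖ + t) / (2 + M) ≤ ‖((z - y, u) : P d)‖ := by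
    intro u hu
    obtain ⟨h1, h2⟩ := key u hu
    rw [div_le_iff₀ (by linarith)]
    have h3 : (M : ℝ) * ‖z - y‖ ≤ M * ‖((z - y, u) : P d)‖ := mul_le_mul_of_nonneg_left h1 hM
    nlinarith
  constructor
  · have e : ((z, φ z) : P d) - (y, φ y + t) = (z - y, φ z - (φ y + t)) := rfl
    rw [e]
    refine fin _ ?_
    have h1 : t ≤ |φ z - (φ y + t)| + |φ z - φ y| := by
      have h2 : |(φ z - φ y) - (φ z - (φ y + t))| = t := by
        rw [show (φ z - φ y) - (φ z - (φ y + t)) = t by ring, abs_of_nonneg ht]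
      have h3 := abs_sub (φ z - φ y) (φ z - (φ y + t))
      linarith
    linarith
  · have e : ((z, φ z) : P d) - (y, φ y - t) = (z - y, φ z - (φ y - t)) := rfl
    rw [e]
    refine fin _ ?_
    have h1 : t ≤ |φ z - (φ y - t)| + |φ z - φ y| := by
      have h2 : |(φ z - (φ y - t)) - (φ z - φ y)| = t := by
        rw [show (φ z - (φ y - t)) - (φ z - φ y) = t by ring, abs_of_nonneg ht]
      have h3 := abs_sub (φ z - (φ y - t)) (φ z - φ y)
      linarith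
    linarith

theorem TB1_geom {M : ℝ≥0} {c : ℝ} (hc : 0 < c) {φ : E d → ℝ} (hφ : LipschitzWith M φ) (y z : E d)
    {τ r : ℝ} (hτ : 0 < τ) (hr : 0 < r) (hτr : τ ≤ c * r) :
    sK y τ z ≤ ((1 + c) * (2 + M)) * ‖((z, φ z) : P d) - (y, φ y + τ)‖ ∧
    sK y τ z ≤ ((1 + c) * (2 + M)) * ‖((z, φ z) : P d) - (y, φ y - r)‖ := by
  have hM : (0 : ℝ) ≤ M := M.2
  have h1 := (norm_A_ge hφ y z hτ.le).1
  have h2 := (norm_A_ge hφ y z hr.le).2
  rw [div_le_iff₀ (by linarith)] at h1 h2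
  have h0 : 0 ≤ ‖z - y‖ := norm_nonneg _
  unfold sK
  constructor
  · have h3 : 0 ≤ c * (‖z - y‖ + τ) := by positivity
    nlinarith
  · nlinarith

theorem TB1_rpow {s : ℝ} (hs : 0 < s) (k : ℕ) : s ^ (-(k : ℝ)) = (s ^ k)⁻¹ := by
  rw [Real.rpow_neg hs.le, Real.rpow_natCast]

theorem TB1_sK_pos (y z : E d) {τ : ℝ} (hτ : 0 < τ) : 0 < sK y τ z := by
  unfold sK
  have := norm_nonneg (z - y)
  linarith

theorem TB1_V (y z : E d) (φ : E d → ℝ) (τ r : ℝ) :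
    ((z, φ z) : P d) - (y, φ y - r) = (((z, φ z) : P d) - (y, φ y + τ)) + (0, τ + r) := by
  refine Prod.ext ?_ ?_
  · simp
  · simp only [Prod.snd_sub, Prod.snd_add]
    ring

theorem TB1_norm_V {M : ℝ≥0} {c τ r : ℝ} (hc : 0 < c) (hτ : 0 < τ) (hr : 0 < r) (hτr : τ ≤ c * r) :
    ‖((0, τ + r) : P d)‖ ≤ ((1 + c) * (2 + M)) * r := by
  have hM : (0 : ℝ) ≤ M := M.2
  have h1 : ‖((0, τ + r) : P d)‖ = τ + r := by
    rw [Prod.norm_def]
    simp only [norm_zero, Real.norm_eq_abs]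
    rw [abs_of_pos (by linarith)]
    exact max_eq_right (by linarith)
  rw [h1]
  have h2 : τ + r ≤ (1 + c) * r := by linarith
  have h3 : (1 + c) * r * 1 ≤ (1 + c) * r * (2 + M) :=
    mul_le_mul_of_nonneg_left (by linarith) (by positivity)
  linarith

theorem TB1_L {M : ℝ≥0} {c : ℝ} (hc : 0 < c) : 1 ≤ (1 + c) * (2 + (M : ℝ)) := by
  have hM : (0 : ℝ) ≤ M := M.2
  nlinarith

/-- Size of the kernel. `kX z = nk A - nk (A + V)`, `V = (0, τ+r)`, `‖V‖ ≤ (1+c) r`, `A + V = A'`.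
If `s ≥ Λ r` (`Λ = 4(1+c)(2+M)`) use `nk_diff`, otherwise the crude bound `nk_bound` for both terms
(`|z-y|+r ≥ s/(1+c)`). -/
theorem kX_bound (M : ℝ≥0) {c : ℝ} (hc : 0 < c) : ∃ C : ℝ, 0 < C ∧ ∀ (φ : E d → ℝ), LipschitzWith M φ →
    ∀ (b : Ix d) (y z : E d) (τ r : ℝ), 0 < τ → 0 < r → τ ≤ c * r →
    |kX φ b (y, φ y + τ) (y, φ y - r) z| ≤ C * (sK y τ z ^ (-(d : ℝ)) * min 1 (r / sK y τ z)) := by
  obtain ⟨C, hC, h⟩ := TB1_nk_bound d (TB1_L (M := M) hc)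
  refine ⟨C, hC, ?_⟩
  intro φ hφ b y z τ r hτ hr hτr
  obtain ⟨g1, g2⟩ := TB1_geom hc hφ y z hτ hr hτr
  have hs := TB1_sK_pos y z hτ
  rw [TB1_rpow hs]
  unfold kX
  rw [TB1_V y z φ τ r] at g2 ⊢
  exact h b _ _ _ _ hs hr g1 g2 (TB1_norm_V hc hτ hr hτr)

/-- Lipschitz estimate of the kernel. `(z-v, φ(z-v)) = (z,φ z) + V'`, `‖V'‖ ≤ (1+M)‖v‖`.
If `s ≥ Λ r` use `nk_diff2` with `V = (0,τ+r)` and `V'`; otherwise `nk_diff` for each of the two terms. -/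
theorem kX_lip (M : ℝ≥0) {c : ℝ} (hc : 0 < c) : ∃ η C : ℝ, 0 < η ∧ η ≤ 1 ∧ 0 < C ∧ ∀ (φ : E d → ℝ), LipschitzWith M φ →
    ∀ (b : Ix d) (y z v : E d) (τ r : ℝ), 0 < τ → 0 < r → τ ≤ c * r → ‖v‖ ≤ η * sK y τ z →
    |kX φ b (y, φ y + τ) (y, φ y - r) z - kX φ b (y, φ y + τ) (y, φ y - r) (z - v)|
      ≤ C * (‖v‖ * sK y τ z ^ (-((d : ℝ) + 1)) * min 1 (r / sK y τ z)) := by
  have hM : (0 : ℝ) ≤ M := M.2
  have hL := TB1_L (M := M) hc
  obtain ⟨C, hC, h⟩ := TB1_nk_lip d hL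
  have hL2 : 1 ≤ ((1 + c) * (2 + (M : ℝ))) ^ 2 := one_le_pow₀ hL
  refine ⟨1 / (4 * ((1 + c) * (2 + (M : ℝ))) ^ 2), C, by positivity, ?_, hC, ?_⟩
  · rw [div_le_one (by positivity)]
    linarith
  intro φ hφ b y z v τ r hτ hr hτr hv
  obtain ⟨g1, g2⟩ := TB1_geom hc hφ y z hτ hr hτr
  have hs := TB1_sK_pos y z hτ
  have hexp : -((d : ℝ) + 1) = -((d + 1 : ℕ) : ℝ) := by
    push_cast
    ring
  rw [hexp, TB1_rpow hs]
  have eW : ∀ Y : P d, ((z - v, φ (z - v)) : P d) - Y =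
      (((z, φ z) : P d) - Y) + (-v, φ (z - v) - φ z) := by
    intro Y
    refine Prod.ext ?_ ?_
    · simp only [Prod.fst_sub, Prod.fst_add]
      abel
    · simp only [Prod.snd_sub, Prod.snd_add]
      ring
  have hW : ‖((-v, φ (z - v) - φ z) : P d)‖ ≤ ((1 + c) * (2 + (M : ℝ))) * ‖v‖ := by
    rw [norm_prod_le_iff]
    have h0 : 0 ≤ ‖v‖ := norm_nonneg _
    have h1 : ‖v‖ * 1 ≤ ‖v‖ * ((1 + c) * (2 + (M : ℝ))) := mul_le_mul_of_nonneg_left hL h0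
    have h2 : (M : ℝ) ≤ (1 + c) * (2 + (M : ℝ)) := by nlinarith
    constructor
    · simp only [norm_neg]
      linarith
    · have h3 := hφ.dist_le_mul (z - v) z
      rw [Real.dist_eq, dist_eq_norm, sub_sub_cancel_left, norm_neg] at h3
      refine (Real.norm_eq_abs _).le.trans (h3.trans ?_)
      exact mul_le_mul_of_nonneg_right h2 h0
  unfold kX
  rw [eW, eW]
  rw [TB1_V y z φ τ r] at g2 ⊢
  refine h b _ _ _ _ _ _ hs hr (norm_nonneg v) g1 g2 (TB1_norm_V hc hτ hr hτr) hW ?_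
  have h4 : 4 * ((1 + c) * (2 + (M : ℝ))) ^ 2 * ‖v‖ ≤
      4 * ((1 + c) * (2 + (M : ℝ))) ^ 2 * (1 / (4 * ((1 + c) * (2 + (M : ℝ))) ^ 2) * sK y τ z) :=
    mul_le_mul_of_nonneg_left hv (by positivity)
  refine h4.trans (le_of_eq ?_)
  have h5 : 4 * ((1 + c) * (2 + (M : ℝ))) ^ 2 ≠ 0 := by positivity
  field_simp

/-- `kX` is continuous and tends to `0` at infinity (`τ, r > 0`). -/
theorem kX_continuous {M : ℝ≥0} {φ : E d → ℝ} (hφ : LipschitzWith M φ) (b : Ix d) (y : E d) {τ r : ℝ} (hτ : 0 < τ)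
    (hr : 0 < r) : Continuous (kX φ b (y, φ y + τ) (y, φ y - r)) := by
  have hM : (0 : ℝ) ≤ M := M.2
  have main : ∀ X : P d, (∀ z : E d, ((z, φ z) : P d) - X ≠ 0) →
      Continuous (fun z : E d => nk b (((z, φ z) : P d) - X)) := by
    intro X hX
    rw [continuous_iff_continuousAt]
    intro z
    have h1 : ContinuousAt (fun z : E d => ((z, φ z) : P d) - X) z :=
      ((continuous_id.prodMk hφ.continuous).sub continuous_const).continuousAt
    exact ContinuousAt.comp (g := nk b) (f := fun z : E d => ((z, φ z) : P d) - X)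
      (nk_contDiffAt b (hX z)).continuousAt h1
  have hpos : ∀ (z : E d) (t : ℝ), 0 < t → 0 < (‖z - y‖ + t) / (2 + (M : ℝ)) := by
    intro z t ht
    have := norm_nonneg (z - y)
    positivity
  refine (main _ ?_).sub (main _ ?_)
  · intro z h0
    have h1 := (norm_A_ge hφ y z hτ.le).1
    rw [h0, norm_zero] at h1
    exact absurd h1 (not_le.2 (hpos z τ hτ))
  · intro z h0
    have h1 := (norm_A_ge hφ y z hr.le).2
    rw [h0, norm_zero] at h1
    exact absurd h1 (not_le.2 (hpos z r hr))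

theorem kX_tendsto (hd : 1 ≤ d) {M : ℝ≥0} {φ : E d → ℝ} (hφ : LipschitzWith M φ) (b : Ix d) (y : E d) {τ r : ℝ} (hτ : 0 < τ)
    (hr : 0 < r) : Tendsto (kX φ b (y, φ y + τ) (y, φ y - r)) (cocompact (E d)) (𝓝 0) := by
  obtain ⟨C, hC, h⟩ := kX_bound (d := d) M (c := τ / r) (by positivity)
  have hs : Tendsto (fun z : E d => sK y τ z) (cocompact (E d)) atTop := by
    have h1 : Tendsto (fun z : E d => ‖z‖ + (τ - ‖y‖)) (cocompact (E d)) atTop :=
      tendsto_atTop_add_const_right _ _ tendsto_norm_cocompact_atTop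
    refine tendsto_atTop_mono (fun z => ?_) h1
    unfold sK
    have := norm_sub_norm_le z y
    linarith
  have h2 : Tendsto (fun z : E d => C * (sK y τ z ^ (-(d : ℝ)))) (cocompact (E d)) (𝓝 0) := by
    have h3 := (tendsto_rpow_neg_atTop (y := (d : ℝ)) (by exact_mod_cast hd)).comp hs
    simpa using h3.const_mul C
  refine squeeze_zero_norm (fun z => ?_) h2
  rw [Real.norm_eq_abs]
  refine (h φ hφ b y z τ r hτ hr (by field_simp; exact le_rfl)).trans ?_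
  refine mul_le_mul_of_nonneg_left ?_ hC.le
  have h4 : 0 ≤ sK y τ z ^ (-(d : ℝ)) := Real.rpow_nonneg (TB1_sK_pos y z hτ).le _
  calc sK y τ z ^ (-(d : ℝ)) * min 1 (r / sK y τ z) ≤ sK y τ z ^ (-(d : ℝ)) * 1 :=
        mul_le_mul_of_nonneg_left (min_le_left _ _) h4
    _ = _ := mul_one _

end HG
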