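import Pool.Agent.W_MP_825298_an.TB1
import Pool.Agent.W_MP_825298_an.Ex1
import Pool.Agent.W_MP_825298_an.Ex2

open MeasureTheory Set Filter Topology
open scoped ENNReal NNReal BigOperators

namespace HG
variable {d : ℕ}

private theorem sum_wtR : ∑ j : St d, (wt j : ℝ) = 1 := by
  have h := congrArg (fun x : ℝ≥0 => (x : ℝ)) (sum_wt (d := d))
  simpa using h

private theorem wt_le_one (j : St d) : (wt j : ℝ) ≤ 1 := by
  rw [← sum_wtR (d := d)]
  exact Finset.single_le_sum (f := fun j : St d => (wt j : ℝ)) (fun _ _ => NNReal.coe_nonneg _)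
    (Finset.mem_univ j)

private theorem sK_pos (y z : E d) {τ : ℝ} (hτ : 0 < τ) : 0 < sK y τ z := by
  unfold sK
  have := norm_nonneg (z - y)
  linarith

/-- The difference kernel. `∑ wt = 1` (`sum_wt`), `‖(ρ/2) kv j‖ ≤ ρ` (`norm_kv_le`), so `Dk k ρ z = ∑_j wt j (k z - k (z - v_j))`.
Write `s = sK y τ z`, `s_j = sK y τ (z - v_j)`; `j = (2,..,2)` gives `v_j = 0`, `s_j = s`.
Case `ρ ≤ η s`: `kX_lip`: `|Dk| ≤ C ρ s^{-d-1} min 1 (r/s) ≤ C s^{-d} (ρ/s)^{1/4} min 1 (r/s)`.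
Case `ρ > η s`: `s_j ≤ s + ρ ≤ (1+1/η) ρ`, `kX_bound` for every term and `(ρ/s_j)^{1/4} ≥ (1+1/η)^{-1/4}`. -/
theorem Dk_bound (M : ℝ≥0) {c : ℝ} (hc : 0 < c) : ∃ C : ℝ, 0 < C ∧ ∀ (φ : E d → ℝ), LipschitzWith M φ →
    ∀ (b : Ix d) (y z : E d) (τ r ρ : ℝ), 0 < τ → 0 < r → τ ≤ c * r → 0 < ρ → ρ ≤ r →
    |Dk (kX φ b (y, φ y + τ) (y, φ y - r)) ρ z| ≤ C * ∑ j : St d,
      (sK y τ (z - (ρ / 2) • kv j) ^ (-(d : ℝ)) * (ρ / sK y τ (z - (ρ / 2) • kv j)) ^ (1 / 4 : ℝ) *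
        min 1 (r / sK y τ (z - (ρ / 2) • kv j))) := by
  obtain ⟨C1, hC1, hb⟩ := kX_bound (d := d) M hc
  obtain ⟨η, C2, hη, hη1, hC2, hl⟩ := kX_lip (d := d) M hc
  set a : ℝ := η / (1 + η) with ha
  have ha0 : 0 < a := by positivity
  have ha4 : 0 < a ^ (1 / 4 : ℝ) := Real.rpow_pos_of_pos ha0 _
  refine ⟨C2 + 2 * (C1 * (a ^ (1 / 4 : ℝ))⁻¹), by positivity, ?_⟩
  intro φ hφ b y z τ r ρ hτ hr hτr hρ hρr
  set k : E d → ℝ := kX φ b (y, φ y + τ) (y, φ y - r) with hk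
  set T : St d → ℝ := fun j => (sK y τ (z - (ρ / 2) • kv j) ^ (-(d : ℝ)) *
    (ρ / sK y τ (z - (ρ / 2) • kv j)) ^ (1 / 4 : ℝ) *
        min 1 (r / sK y τ (z - (ρ / 2) • kv j))) with hT
  have hs : ∀ w : E d, 0 < sK y τ w := fun w => sK_pos y w hτ
  have hmin : ∀ w : E d, 0 ≤ min 1 (r / sK y τ w) := fun w =>
    le_min zero_le_one (div_nonneg hr.le (hs w).le)
  have hT0 : ∀ j, 0 ≤ T j := fun j => by
    simp only [hT]
    have h1 := Real.rpow_nonneg (hs (z - (ρ / 2) • kv j)).le (-(d : ℝ))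
    have h2 := Real.rpow_nonneg (div_nonneg hρ.le (hs (z - (ρ / 2) • kv j)).le) (1 / 4 : ℝ)
    exact mul_nonneg (mul_nonneg h1 h2) (hmin _)
  have hTS : ∀ j, T j ≤ ∑ j, T j := fun j =>
    Finset.single_le_sum (f := T) (fun i _ => hT0 i) (Finset.mem_univ j)
  have hS0 : 0 ≤ ∑ j, T j := Finset.sum_nonneg fun j _ => hT0 j
  -- the null step
  set j0 : St d := fun _ => 2 with hj0
  have hkv0 : kv j0 = 0 := by
    funext i
    simp [kv, hj0]
  have hTj0 : T j0 = sK y τ z ^ (-(d : ℝ)) * (ρ / sK y τ z) ^ (1 / 4 : ℝ) *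
        min 1 (r / sK y τ z) := by
    simp only [hT, hkv0, smul_zero, sub_zero]
  have hv : ∀ j : St d, ‖(ρ / 2) • kv j‖ ≤ ρ := fun j => by
    rw [norm_smul, Real.norm_eq_abs, abs_of_pos (by positivity)]
    have := norm_kv_le j
    nlinarith
  show |Dk k ρ z| ≤ (C2 + 2 * (C1 * (a ^ (1 / 4 : ℝ))⁻¹)) * ∑ j, T j
  rcases le_or_gt ρ (η * sK y τ z) with hcase | hcase
  · -- small step
    have hD : Dk k ρ z = ∑ j : St d, (wt j : ℝ) * (k z - k (z - (ρ / 2) • kv j)) := by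
      unfold Dk
      simp only [mul_sub, Finset.sum_sub_distrib]
      rw [← Finset.sum_mul, sum_wtR, one_mul]
    have hone : ∀ j : St d, |k z - k (z - (ρ / 2) • kv j)| ≤ C2 * T j0 := fun j => by
      refine (hl φ hφ b y z ((ρ / 2) • kv j) τ r hτ hr hτr ((hv j).trans hcase)).trans ?_
      refine mul_le_mul_of_nonneg_left ?_ hC2.le
      rw [hTj0]
      refine mul_le_mul_of_nonneg_right ?_ (hmin z)
      have hs' := hs z
      have hpow : sK y τ z ^ (-((d : ℝ) + 1)) = sK y τ z ^ (-(d : ℝ)) * (sK y τ z)⁻¹ := by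
        rw [neg_add, Real.rpow_add hs', Real.rpow_neg_one]
      have hρs : ρ / sK y τ z ≤ 1 := by
        rw [div_le_one hs']
        nlinarith
      have hle : ρ / sK y τ z ≤ (ρ / sK y τ z) ^ (1 / 4 : ℝ) := by
        conv_lhs => rw [← Real.rpow_one (ρ / sK y τ z)]
        exact Real.rpow_le_rpow_of_exponent_ge (by positivity) hρs (by norm_num)
      have hsd := Real.rpow_nonneg hs'.le (-(d : ℝ))
      calc ‖(ρ / 2) • kv j‖ * sK y τ z ^ (-((d : ℝ) + 1))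
          ≤ ρ * sK y τ z ^ (-((d : ℝ) + 1)) :=
            mul_le_mul_of_nonneg_right (hv j) (Real.rpow_nonneg hs'.le _)
        _ = sK y τ z ^ (-(d : ℝ)) * (ρ / sK y τ z) := by
            rw [hpow, div_eq_mul_inv]; ring
        _ ≤ sK y τ z ^ (-(d : ℝ)) * (ρ / sK y τ z) ^ (1 / 4 : ℝ) :=
            mul_le_mul_of_nonneg_left hle hsd
    have h1 : |Dk k ρ z| ≤ C2 * T j0 := by
      rw [hD]
      refine (Finset.abs_sum_le_sum_abs _ _).trans ?_
      calc ∑ j : St d, |(wt j : ℝ) * (k z - k (z - (ρ / 2) • kv j))|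
          ≤ ∑ j : St d, (wt j : ℝ) * (C2 * T j0) := by
            refine Finset.sum_le_sum fun j _ => ?_
            rw [abs_mul, abs_of_nonneg (NNReal.coe_nonneg _)]
            exact mul_le_mul_of_nonneg_left (hone j) (NNReal.coe_nonneg _)
        _ = C2 * T j0 := by
            rw [← Finset.sum_mul, sum_wtR, one_mul]
    have h2 : C2 * T j0 ≤ C2 * ∑ j, T j := mul_le_mul_of_nonneg_left (hTS j0) hC2.le
    have h3 : 0 ≤ 2 * (C1 * (a ^ (1 / 4 : ℝ))⁻¹) * ∑ j, T j := mul_nonneg (by positivity) hS0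
    rw [add_mul]
    linarith
  · -- large step
    have hkey : ∀ j : St d, |k (z - (ρ / 2) • kv j)| ≤ C1 * (a ^ (1 / 4 : ℝ))⁻¹ * T j := fun j => by
      refine (hb φ hφ b y (z - (ρ / 2) • kv j) τ r hτ hr hτr).trans ?_
      have hs' := hs (z - (ρ / 2) • kv j)
      have hsj : sK y τ (z - (ρ / 2) • kv j) ≤ sK y τ z + ρ := by
        unfold sK
        have h1 : z - (ρ / 2) • kv j - y = (z - y) - (ρ / 2) • kv j := by abel
        rw [h1]
        have h2 := norm_sub_le (z - y) ((ρ / 2) • kv j)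
        have h3 := hv j
        linarith
      have hage : a ≤ ρ / sK y τ (z - (ρ / 2) • kv j) := by
        rw [le_div_iff₀ hs', ha, div_mul_eq_mul_div, div_le_iff₀ (by positivity)]
        nlinarith
      have h4 : a ^ (1 / 4 : ℝ) ≤ (ρ / sK y τ (z - (ρ / 2) • kv j)) ^ (1 / 4 : ℝ) :=
        Real.rpow_le_rpow ha0.le hage (by norm_num)
      have h5 : (1 : ℝ) ≤ (a ^ (1 / 4 : ℝ))⁻¹ * (ρ / sK y τ (z - (ρ / 2) • kv j)) ^ (1 / 4 : ℝ) := by
        rw [inv_mul_eq_div, one_le_div ha4]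
        exact h4
      have h6 := Real.rpow_nonneg hs'.le (-(d : ℝ))
      have h7 := hmin (z - (ρ / 2) • kv j)
      have h8 : 0 ≤ C1 * (sK y τ (z - (ρ / 2) • kv j) ^ (-(d : ℝ)) *
          min 1 (r / sK y τ (z - (ρ / 2) • kv j))) := by positivity
      calc C1 * (sK y τ (z - (ρ / 2) • kv j) ^ (-(d : ℝ)) *
            min 1 (r / sK y τ (z - (ρ / 2) • kv j)))
          ≤ (C1 * (sK y τ (z - (ρ / 2) • kv j) ^ (-(d : ℝ)) *
            min 1 (r / sK y τ (z - (ρ / 2) • kv j)))) *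
            ((a ^ (1 / 4 : ℝ))⁻¹ * (ρ / sK y τ (z - (ρ / 2) • kv j)) ^ (1 / 4 : ℝ)) :=
            le_mul_of_one_le_right h8 h5
        _ = C1 * (a ^ (1 / 4 : ℝ))⁻¹ * T j := by
            simp only [hT]; ring
    have hz : |k z| ≤ C1 * (a ^ (1 / 4 : ℝ))⁻¹ * T j0 := by
      have := hkey j0
      rwa [hkv0, smul_zero, sub_zero] at this
    have hcc : 0 ≤ C1 * (a ^ (1 / 4 : ℝ))⁻¹ := by positivity
    have hz' : |k z| ≤ C1 * (a ^ (1 / 4 : ℝ))⁻¹ * ∑ j, T j :=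
      hz.trans (mul_le_mul_of_nonneg_left (hTS j0) hcc)
    have hsum : |∑ j : St d, (wt j : ℝ) * k (z - (ρ / 2) • kv j)| ≤
        C1 * (a ^ (1 / 4 : ℝ))⁻¹ * ∑ j, T j := by
      refine (Finset.abs_sum_le_sum_abs _ _).trans ?_
      rw [Finset.mul_sum]
      refine Finset.sum_le_sum fun j _ => ?_
      rw [abs_mul, abs_of_nonneg (NNReal.coe_nonneg _)]
      calc (wt j : ℝ) * |k (z - (ρ / 2) • kv j)| ≤ 1 * |k (z - (ρ / 2) • kv j)| :=
            mul_le_mul_of_nonneg_right (wt_le_one j) (abs_nonneg _)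
        _ = |k (z - (ρ / 2) • kv j)| := one_mul _
        _ ≤ _ := hkey j
    have h1 : |Dk k ρ z| ≤ |k z| + |∑ j : St d, (wt j : ℝ) * k (z - (ρ / 2) • kv j)| := by
      unfold Dk
      exact abs_sub _ _
    have h2 : 0 ≤ C2 * ∑ j, T j := mul_nonneg hC2.le hS0
    rw [add_mul]
    linarith

end HG
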