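import Pool.Agent.W_MP_825298_an.PathDefs
import Pool.Agent.W_MP_825298_an.NewtonDefs

/-! Tail bound (TB): definitions (helper94). -/

open MeasureTheory Set Filter Topology
open scoped ENNReal NNReal BigOperators

namespace HG
variable {d : ℕ}

/-- the solid averages `W_c(x,r) = r^{-(d+1/2)} ∫_{|y-x| ≤ c r} ∫_0^{c r} |F(y,φ y+τ)| τ^{-1/2} dτ dy` -/
noncomputable def Wf (φ : E d → ℝ) (F : Ix d → P d → ℝ) (c : ℝ) (x : E d) (r : ℝ) : ℝ≥0∞ :=
  ENNReal.ofReal (r ^ (-((d : ℝ) + 1 / 2))) * ∫⁻ y in Metric.closedBall x (c * r), ∫⁻ τ in Ioc (0 : ℝ) (c * r),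
    ENNReal.ofReal (τ ^ (-(1 / 2) : ℝ)) * ENNReal.ofReal (nF F (y, φ y + τ))

/-- difference of two Newton kernels with poles `X0`, `X1` on the graph -/
noncomputable def kX (φ : E d → ℝ) (b : Ix d) (X0 X1 : P d) (z : E d) : ℝ :=
  nk b (((z, φ z) : P d) - X0) - nk b (((z, φ z) : P d) - X1)

/-- the size parameter `s = |z-y| + τ` -/
noncomputable def sK (y : E d) (τ : ℝ) (z : E d) : ℝ := ‖z - y‖ + τ

/-- `k - ` its average over one step of the walk of scale `ρ` -/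
noncomputable def Dk (k : E d → ℝ) (ρ : ℝ) (z : E d) : ℝ :=
  k z - ∑ j : St d, (wt j : ℝ) * k (z - (ρ / 2) • kv j)

end HG
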