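import Pool.Agent.W_MP_825298_an.TM1

open MeasureTheory Set Filter Topology
open scoped ENNReal NNReal BigOperators

namespace HG
variable {d : ℕ}

/-- the influence function of a unit mass at level `i` on the level `k` -/
noncomputable def Th (r0 : ℝ) (i k : ℕ) (u : E d) : ℝ≥0∞ :=
  ∑' j : ℕ, (if max i k ≤ j then ENNReal.ofReal ((2 : ℝ) ^ (-(((j : ℝ) - k) / 4))) *
    Ex (j - i) (fun ω : ℕ → St d => ENNReal.ofReal (kap (r0 / 2 ^ k) (u - (r0 / 2 ^ i) • Zp (j - i) ω))) else 0)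

/-- the geometric series -/
theorem TM2_geo : ∃ S : ℝ≥0, ∑' n : ℕ, ENNReal.ofReal ((2 : ℝ) ^ (-((n : ℝ) / 4))) = S := by
  have h1 : ∀ n : ℕ, ENNReal.ofReal ((2 : ℝ) ^ (-((n : ℝ) / 4))) = (ENNReal.ofReal ((2 : ℝ) ^ (-(1 / 4 : ℝ)))) ^ n := by
    intro n
    rw [← ENNReal.ofReal_pow (by positivity), ← Real.rpow_natCast, ← Real.rpow_mul (by norm_num)]
    congr 2
    ring
  have h2 : ENNReal.ofReal ((2 : ℝ) ^ (-(1 / 4 : ℝ))) < 1 := by
    rw [ENNReal.ofReal_lt_one]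
    exact Real.rpow_lt_one_of_one_lt_of_neg (by norm_num) (by norm_num)
  have h3 : ∑' n : ℕ, ENNReal.ofReal ((2 : ℝ) ^ (-((n : ℝ) / 4))) ≠ ⊤ := by
    simp_rw [h1]
    rw [ENNReal.tsum_geometric]
    rw [ENNReal.inv_ne_top]
    exact (tsub_pos_of_lt h2).ne'
  exact ⟨_, (ENNReal.coe_toNNReal h3).symm⟩

/-- a tail of the geometric series -/
theorem TM2_tail {S : ℝ≥0} (hS : ∑' n : ℕ, ENNReal.ofReal ((2 : ℝ) ^ (-((n : ℝ) / 4))) = S) (K k : ℕ) (A : ℝ≥0∞) :
    ∑' j : ℕ, (if K ≤ j then ENNReal.ofReal ((2 : ℝ) ^ (-(((j : ℝ) - k) / 4))) * A else 0)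
      = ENNReal.ofReal ((2 : ℝ) ^ (-(((K : ℝ) - k) / 4))) * (S * A) := by
  rw [← Summable.sum_add_tsum_nat_add' (k := K) ENNReal.summable]
  have h1 : ∑ j ∈ Finset.range K, (if K ≤ j then ENNReal.ofReal ((2 : ℝ) ^ (-(((j : ℝ) - k) / 4))) * A else 0) = 0 := by
    refine Finset.sum_eq_zero fun j hj => ?_
    rw [Finset.mem_range] at hj
    rw [if_neg (by omega)]
  rw [h1, zero_add, ← hS, ← ENNReal.tsum_mul_right, ← ENNReal.tsum_mul_left]
  refine tsum_congr fun n => ?_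
  rw [if_pos (by omega), ← mul_assoc, ← ENNReal.ofReal_mul (by positivity), ← Real.rpow_add (by norm_num)]
  congr 3
  push_cast
  ring

/-- `k ≤ i`: each term is `≤ C 2^{-(j-k)/4} kap_k(u)` by `kap_comp` (the displacement is `≤ 2 r_i ≤ 2 r_k`), sum the geometric series;
`k ≥ i`: `kap_walk` with `R = r_i`, `ρ = r_k`, and sum the geometric series over `j ≥ k`. -/
theorem Th_bound (hd : 1 ≤ d) : ∃ C : ℝ≥0, ∀ (r0 : ℝ), 0 < r0 → ∀ (i k : ℕ) (u : E d),
    (k ≤ i → Th r0 i k u ≤ C * (ENNReal.ofReal ((2 : ℝ) ^ (-(((i : ℝ) - k) / 4))) * ENNReal.ofReal (kap (r0 / 2 ^ k) u))) ∧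
    (i ≤ k → Th r0 i k u ≤ C * ENNReal.ofReal (kap (r0 / 2 ^ i) u)) := by
  obtain ⟨S, hS⟩ := TM2_geo
  obtain ⟨Cw, hCw, hCwb⟩ := kap_walk (d := d) hd
  set A1 : ℝ≥0 := Real.toNNReal (9 ^ (d + 1)) with hA1
  set A2 : ℝ≥0 := Real.toNNReal Cw with hA2
  refine ⟨S * (A1 + A2), fun r0 hr0 i k u => ⟨fun hki => ?_, fun hik => ?_⟩⟩
  · have h1 : ∀ j : ℕ, (if max i k ≤ j then ENNReal.ofReal ((2 : ℝ) ^ (-(((j : ℝ) - k) / 4))) *
        Ex (j - i) (fun ω : ℕ → St d => ENNReal.ofReal (kap (r0 / 2 ^ k) (u - (r0 / 2 ^ i) • Zp (j - i) ω))) else 0)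
        ≤ if i ≤ j then ENNReal.ofReal ((2 : ℝ) ^ (-(((j : ℝ) - k) / 4))) *
          ((A1 : ℝ≥0∞) * ENNReal.ofReal (kap (r0 / 2 ^ k) u)) else 0 := by
      intro j
      rw [max_eq_left hki]
      split_ifs with hj
      · refine mul_le_mul_right ?_ _
        calc Ex (j - i) (fun ω : ℕ → St d => ENNReal.ofReal (kap (r0 / 2 ^ k) (u - (r0 / 2 ^ i) • Zp (j - i) ω)))
            ≤ Ex (j - i) (fun _ : ℕ → St d => (A1 : ℝ≥0∞) * ENNReal.ofReal (kap (r0 / 2 ^ k) u)) := by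
              refine Ex_mono _ fun ω => ?_
              rw [hA1]
              change _ ≤ ENNReal.ofReal (9 ^ (d + 1)) * _
              rw [← ENNReal.ofReal_mul (by positivity)]
              refine ENNReal.ofReal_le_ofReal (kap_comp' _ _ (by positivity) ?_)
              have h2 : u - (r0 / 2 ^ i) • Zp (j - i) ω - u = - ((r0 / 2 ^ i) • Zp (j - i) ω) := by abel
              have hri : 0 < r0 / 2 ^ i := by positivity
              have hrk : 0 < r0 / 2 ^ k := by positivity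
              rw [h2, norm_neg, norm_smul, Real.norm_eq_abs, abs_of_pos hri]
              have h3 := norm_Zp_le (j - i) ω
              have h4 : ‖Zp (j - i) ω‖ ≤ 2 := by
                have : (0 : ℝ) < ((2 : ℝ) ^ (j - i))⁻¹ := by positivity
                linarith
              have h5 : r0 / 2 ^ i ≤ r0 / 2 ^ k :=
                div_le_div_of_nonneg_left hr0.le (by positivity) (pow_le_pow_right₀ (by norm_num) hki)
              have h6 : 0 ≤ ‖Zp (j - i) ω‖ := norm_nonneg _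
              calc r0 / 2 ^ i * ‖Zp (j - i) ω‖ ≤ r0 / 2 ^ k * 2 := mul_le_mul h5 h4 h6 hrk.le
                _ ≤ 8 * (r0 / 2 ^ k) := by linarith
          _ = _ := Ex_const _ _
      · exact le_refl _
    calc Th r0 i k u ≤ ∑' j : ℕ, (if i ≤ j then ENNReal.ofReal ((2 : ℝ) ^ (-(((j : ℝ) - k) / 4))) *
          ((A1 : ℝ≥0∞) * ENNReal.ofReal (kap (r0 / 2 ^ k) u)) else 0) := ENNReal.tsum_le_tsum h1
      _ = ENNReal.ofReal ((2 : ℝ) ^ (-(((i : ℝ) - k) / 4))) * (S * ((A1 : ℝ≥0∞) * ENNReal.ofReal (kap (r0 / 2 ^ k) u))) :=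
          TM2_tail hS i k _
      _ = (S * A1 : ℝ≥0) * (ENNReal.ofReal ((2 : ℝ) ^ (-(((i : ℝ) - k) / 4))) * ENNReal.ofReal (kap (r0 / 2 ^ k) u)) := by
          push_cast
          ring
      _ ≤ _ := by
          refine mul_le_mul_left ?_ _
          exact_mod_cast mul_le_mul_right (le_add_of_nonneg_right (zero_le)) S
  · have h1 : ∀ j : ℕ, (if max i k ≤ j then ENNReal.ofReal ((2 : ℝ) ^ (-(((j : ℝ) - k) / 4))) *
        Ex (j - i) (fun ω : ℕ → St d => ENNReal.ofReal (kap (r0 / 2 ^ k) (u - (r0 / 2 ^ i) • Zp (j - i) ω))) else 0)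
        ≤ if k ≤ j then ENNReal.ofReal ((2 : ℝ) ^ (-(((j : ℝ) - k) / 4))) *
          ((A2 : ℝ≥0∞) * ENNReal.ofReal (kap (r0 / 2 ^ i) u)) else 0 := by
      intro j
      rw [max_eq_right hik]
      split_ifs with hj
      · refine mul_le_mul_right ?_ _
        have hri : 0 < r0 / 2 ^ i := by positivity
        have hrk : 0 < r0 / 2 ^ k := by positivity
        rw [← Ex_ofReal _ (fun ω => kap_nonneg hrk _)]
        change _ ≤ ENNReal.ofReal Cw * _
        rw [← ENNReal.ofReal_mul hCw.le]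
        refine ENNReal.ofReal_le_ofReal (hCwb _ _ _ _ hrk ?_ ?_)
        · exact div_le_div_of_nonneg_left hr0.le (by positivity) (pow_le_pow_right₀ (by norm_num) hik)
        · rw [div_div, ← pow_add, Nat.add_sub_cancel' (hik.trans hj)]
          exact div_le_div_of_nonneg_left hr0.le (by positivity) (pow_le_pow_right₀ (by norm_num) hj)
      · exact le_refl _
    calc Th r0 i k u ≤ ∑' j : ℕ, (if k ≤ j then ENNReal.ofReal ((2 : ℝ) ^ (-(((j : ℝ) - k) / 4))) *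
          ((A2 : ℝ≥0∞) * ENNReal.ofReal (kap (r0 / 2 ^ i) u)) else 0) := ENNReal.tsum_le_tsum h1
      _ = ENNReal.ofReal ((2 : ℝ) ^ (-(((k : ℝ) - k) / 4))) * (S * ((A2 : ℝ≥0∞) * ENNReal.ofReal (kap (r0 / 2 ^ i) u))) :=
          TM2_tail hS k k _
      _ = (S * A2 : ℝ≥0) * ENNReal.ofReal (kap (r0 / 2 ^ i) u) := by
          simp only [sub_self, zero_div, neg_zero, Real.rpow_zero, ENNReal.ofReal_one, one_mul]
          push_cast
          ring
      _ ≤ _ := by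
          refine mul_le_mul_left ?_ _
          exact_mod_cast mul_le_mul_right (le_add_of_nonneg_left (zero_le)) S

/-- Sup along a second path and integration: for `k ≤ i` bound the sup by the sum and use `inv_lintegral`; for `k > i` the position
`x' + r0 Zp k ω` is within `2 r_i` of `x' + r0 Zp i ω`, use `kap_comp`. -/
theorem Th_sup (hd : 1 ≤ d) : ∃ C : ℝ≥0, ∀ (r0 : ℝ), 0 < r0 → ∀ (i N : ℕ) (z : E d),
    ∫⁻ x : E d, Ex N (fun ω : ℕ → St d => ⨆ k ∈ Finset.range (N + 1), Th r0 i k (x + r0 • Zp k ω - z)) ≤ C := by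
  obtain ⟨S, hS⟩ := TM2_geo
  obtain ⟨Cb, hCb⟩ := Th_bound (d := d) hd
  obtain ⟨C1, hC1⟩ := kap_lintegral d
  set A1 : ℝ≥0 := Real.toNNReal (9 ^ (d + 1)) with hA1
  refine ⟨Cb * (S * C1) + Cb * A1 * C1, fun r0 hr0 i N z => ?_⟩
  set w : ℕ → ℝ≥0∞ := fun k => ENNReal.ofReal ((2 : ℝ) ^ (-(((i : ℝ) - k) / 4))) with hw
  set g : ℕ → E d → ℝ≥0∞ := fun k x => ENNReal.ofReal (kap (r0 / 2 ^ k) (x - z)) with hg
  have hgm : ∀ k, Measurable (g k) := fun k => ENNReal.measurable_ofReal.comp ((kap_measurable _).comp (by fun_prop))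
  have hr : ∀ k : ℕ, 0 < r0 / 2 ^ k := fun k => by positivity
  have hgi : ∀ k, ∫⁻ x, g k x ≤ C1 := by
    intro k
    calc ∫⁻ x, g k x = ∫⁻ x : E d, ENNReal.ofReal (kap (r0 / 2 ^ k) x) :=
          lintegral_sub_right_eq_self (fun x : E d => ENNReal.ofReal (kap (r0 / 2 ^ k) x)) z
      _ ≤ C1 := hC1 _ (hr k)
  have hpt : ∀ (x : E d) (ω : ℕ → St d), (⨆ k ∈ Finset.range (N + 1), Th r0 i k (x + r0 • Zp k ω - z))
      ≤ (∑ k ∈ Finset.range (i + 1), (Cb : ℝ≥0∞) * (w k * g k (x + r0 • Zp k ω)))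
        + (Cb : ℝ≥0∞) * A1 * g i (x + r0 • Zp i ω) := by
    intro x ω
    refine iSup₂_le fun k _ => ?_
    rcases le_or_gt k i with hk | hk
    · refine le_trans ((hCb r0 hr0 i k _).1 hk) (le_trans ?_ (le_add_right (le_refl _)))
      exact Finset.single_le_sum (f := fun k => (Cb : ℝ≥0∞) * (w k * g k (x + r0 • Zp k ω)))
        (fun _ _ => zero_le) (Finset.mem_range.2 (by omega))
    · refine le_trans ((hCb r0 hr0 i k _).2 hk.le) (le_trans ?_ (le_add_left (le_refl _)))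
      rw [mul_assoc]
      refine mul_le_mul_right ?_ _
      change _ ≤ ENNReal.ofReal (9 ^ (d + 1)) * ENNReal.ofReal _
      rw [← ENNReal.ofReal_mul (by positivity)]
      refine ENNReal.ofReal_le_ofReal (kap_comp' _ _ (hr i) ?_)
      have h2 : x + r0 • Zp k ω - z - (x + r0 • Zp i ω - z) = r0 • (Zp k ω - Zp i ω) := by
        rw [smul_sub]; abel
      rw [h2, norm_smul, Real.norm_eq_abs, abs_of_pos hr0]
      have h3 := norm_Zp_sub_le hk.le ω
      have h4 : 0 < r0 / 2 ^ i := hr i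
      calc r0 * ‖Zp k ω - Zp i ω‖ ≤ r0 * (2 * ((2 : ℝ) ^ i)⁻¹) := mul_le_mul_of_nonneg_left h3 hr0.le
        _ = 2 * (r0 / 2 ^ i) := by rw [div_eq_mul_inv]; ring
        _ ≤ 8 * (r0 / 2 ^ i) := by linarith
  have hw1 : ∑ k ∈ Finset.range (i + 1), w k ≤ S := by
    rw [← hS, ← Finset.sum_range_reflect]
    refine le_trans (le_of_eq ?_) (ENNReal.sum_le_tsum (Finset.range (i + 1)))
    refine Finset.sum_congr rfl fun k hk => ?_
    rw [Finset.mem_range] at hk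
    simp only [hw]
    congr 3
    have h5 : i + 1 - 1 - k = i - k := by omega
    rw [h5, Nat.cast_sub (by omega)]
    ring
  calc ∫⁻ x : E d, Ex N (fun ω : ℕ → St d => ⨆ k ∈ Finset.range (N + 1), Th r0 i k (x + r0 • Zp k ω - z))
      ≤ ∫⁻ x : E d, Ex N (fun ω : ℕ → St d => (∑ k ∈ Finset.range (i + 1), (Cb : ℝ≥0∞) * (w k * g k (x + r0 • Zp k ω)))
        + (Cb : ℝ≥0∞) * A1 * g i (x + r0 • Zp i ω)) := lintegral_mono fun x => Ex_mono _ (hpt x)
    _ = ∫⁻ x : E d, ((∑ k ∈ Finset.range (i + 1), (Cb : ℝ≥0∞) * (w k * Ex N (fun ω : ℕ → St d => g k (x + r0 • Zp k ω))))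
        + (Cb : ℝ≥0∞) * A1 * Ex N (fun ω : ℕ → St d => g i (x + r0 • Zp i ω))) := by
        refine lintegral_congr fun x => ?_
        rw [Ex_add, Ex_sum, Ex_mul]
        congr 1
        refine Finset.sum_congr rfl fun k _ => ?_
        rw [Ex_mul, Ex_mul]
    _ = (∑ k ∈ Finset.range (i + 1), (Cb : ℝ≥0∞) * (w k * ∫⁻ x : E d, Ex N (fun ω : ℕ → St d => g k (x + r0 • Zp k ω))))
        + (Cb : ℝ≥0∞) * A1 * ∫⁻ x : E d, Ex N (fun ω : ℕ → St d => g i (x + r0 • Zp i ω)) := by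
        have hm : ∀ k, Measurable fun x : E d => Ex N (fun ω : ℕ → St d => g k (x + r0 • Zp k ω)) := fun k =>
          Ex_measurable N (f := fun (x : E d) (ω : ℕ → St d) => g k (x + r0 • Zp k ω))
            (fun ω => (hgm k).comp (by fun_prop))
        rw [lintegral_add_right _ ((hm i).const_mul _), lintegral_const_mul _ (hm i),
          lintegral_finsetSum _ (fun k _ => ((hm k).const_mul _).const_mul _)]
        congr 1
        refine Finset.sum_congr rfl fun k _ => ?_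
        rw [lintegral_const_mul _ ((hm k).const_mul _), lintegral_const_mul _ (hm k)]
    _ = (∑ k ∈ Finset.range (i + 1), (Cb : ℝ≥0∞) * (w k * ∫⁻ x : E d, g k x)) + (Cb : ℝ≥0∞) * A1 * ∫⁻ x : E d, g i x := by
        rw [inv_lintegral (hgm i)]
        congr 1
        refine Finset.sum_congr rfl fun k _ => ?_
        rw [inv_lintegral (hgm k)]
    _ ≤ (∑ k ∈ Finset.range (i + 1), (Cb : ℝ≥0∞) * (w k * C1)) + (Cb : ℝ≥0∞) * A1 * C1 := by
        refine add_le_add (Finset.sum_le_sum fun k _ => ?_) ?_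
        · exact mul_le_mul_right (mul_le_mul_right (hgi k) _) _
        · exact mul_le_mul_right (hgi i) _
    _ = (Cb : ℝ≥0∞) * ((∑ k ∈ Finset.range (i + 1), w k) * C1) + (Cb : ℝ≥0∞) * A1 * C1 := by
        rw [Finset.sum_mul, Finset.mul_sum]
    _ ≤ (Cb : ℝ≥0∞) * (S * C1) + (Cb : ℝ≥0∞) * A1 * C1 := by
        refine add_le_add_left (mul_le_mul_right (mul_le_mul_left hw1 _) _) _
    _ = _ := by push_cast; ring

end HG
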