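import Pool.Agent.W_MP_825298_an.WDefs
import Pool.Agent.W_MP_825298_an.Newton3a
import Pool.Agent.W_MP_825298_an.Newton3b

open MeasureTheory Set Filter Topology
open scoped ENNReal NNReal BigOperators

namespace HG
variable {d : ℕ}

theorem Tb1_low {M : ℝ≥0} {φ : E d → ℝ} (hφ : LipschitzWith M φ) (y z : E d) {t σ : ℝ}
    (hσ : 0 < σ) (ht : |t| = σ) :
    (‖z - y‖ + σ) / (2 * (1 + M)) ≤ ‖((z, φ z) : P d) - (y, φ y + t)‖ := by
  have hM : (0:ℝ) ≤ M := M.2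
  have hl : |φ z - φ y| ≤ M * ‖z - y‖ := by
    have := hφ.dist_le_mul z y
    rwa [Real.dist_eq, dist_eq_norm] at this
  have h1 : ‖z - y‖ ≤ ‖((z, φ z) : P d) - (y, φ y + t)‖ := by
    have := norm_fst_le (((z, φ z) : P d) - (y, φ y + t))
    simpa using this
  have h2 : |φ z - (φ y + t)| ≤ ‖((z, φ z) : P d) - (y, φ y + t)‖ := by
    have := norm_snd_le (((z, φ z) : P d) - (y, φ y + t))
    simpa using this
  have h3 : σ - M * ‖z - y‖ ≤ |φ z - (φ y + t)| := by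
    have h4 : |t| ≤ |φ z - φ y| + |φ z - (φ y + t)| := by
      have := abs_sub (φ z - φ y) (φ z - (φ y + t))
      have e : φ z - φ y - (φ z - (φ y + t)) = t := by ring
      rw [e] at this
      exact this
    linarith
  have hn := norm_nonneg (z - y)
  rw [div_le_iff₀ (by positivity)]
  set X := ‖((z, φ z) : P d) - (y, φ y + t)‖ with hX
  nlinarith

theorem Tb1_eq {φ : E d → ℝ} {r : ℝ} {b : Ix d} {y : E d} {τ : ℝ} (z : E d) :
    kX φ r b y τ z = nk b (((z, φ z) : P d) - (y, φ y + τ)) - nk b (((z, φ z) : P d) - (y, φ y + (-r))) := by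
  unfold kX
  rw [← sub_eq_add_neg]

theorem Tb1_V {φ : E d → ℝ} {r τ : ℝ} (y z : E d) (hr : 0 < r) (hτ : 0 < τ) {c : ℝ} (h : τ ≤ c * r) :
    ∃ V : P d, ‖V‖ ≤ (1 + c) * r ∧
      ((z, φ z) : P d) - (y, φ y + (-r)) = (((z, φ z) : P d) - (y, φ y + τ)) + V := by
  refine ⟨(0, τ + r), ?_, ?_⟩
  · rw [Prod.norm_def]
    simp only [norm_zero]
    rw [Real.norm_of_nonneg (by linarith)]
    have : τ + r ≤ (1 + c) * r := by linarith
    exact max_le (by linarith) this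
  · ext1
    · simp
    · simp only [Prod.snd_sub, Prod.snd_add]; ring

theorem Tb1_W {M : ℝ≥0} {φ : E d → ℝ} (hφ : LipschitzWith M φ) (z v : E d) :
    ∃ W : P d, ‖W‖ ≤ (1 + M) * ‖v‖ ∧ ∀ (y : E d) (t : ℝ),
      ((z + v, φ (z + v)) : P d) - (y, φ y + t) = (((z, φ z) : P d) - (y, φ y + t)) + W := by
  have hM : (0:ℝ) ≤ M := M.2
  refine ⟨(v, φ (z + v) - φ z), ?_, ?_⟩
  · have hl : |φ (z + v) - φ z| ≤ M * ‖v‖ := by
      have := hφ.dist_le_mul (z + v) z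
      rwa [Real.dist_eq, dist_eq_norm, add_sub_cancel_left] at this
    have hn := norm_nonneg v
    rw [Prod.norm_def]
    apply max_le
    · show ‖v‖ ≤ _
      nlinarith
    · show |φ (z + v) - φ z| ≤ _
      nlinarith
  · intro y t
    ext1
    · simp only [Prod.fst_sub, Prod.fst_add]; abel
    · simp only [Prod.snd_sub, Prod.snd_add]; ring

theorem Tb1_mk_far {r : ℝ} {y : E d} {τ : ℝ} {z : E d} (hs : 0 < ‖z - y‖ + τ)
    (h : r ≤ ‖z - y‖ + τ) :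
    mk r 1 0 y τ z = ((‖z - y‖ + τ) ^ d)⁻¹ * (r / (‖z - y‖ + τ)) := by
  unfold mk
  rw [Real.rpow_zero, mul_one, min_eq_right ((div_le_one hs).mpr h)]

theorem Tb1_mk_near {r A : ℝ} {y : E d} {τ : ℝ} {z : E d} (hs : 0 < ‖z - y‖ + τ) (hA : 1 ≤ A)
    (hr : 0 < r) (h : ‖z - y‖ + τ ≤ A * r) :
    ((‖z - y‖ + τ) ^ d)⁻¹ ≤ A * mk r 1 0 y τ z := by
  have h1 : A⁻¹ ≤ min 1 (r / (‖z - y‖ + τ)) := by
    apply le_min
    · exact inv_le_one_of_one_le₀ hA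
    · rw [le_div_iff₀ hs, inv_mul_le_iff₀ (by linarith)]
      exact h
  unfold mk
  rw [Real.rpow_zero, mul_one]
  have h2 : 0 < ((‖z - y‖ + τ) ^ d)⁻¹ := by positivity
  calc ((‖z - y‖ + τ) ^ d)⁻¹ = A * (((‖z - y‖ + τ) ^ d)⁻¹ * A⁻¹) := by
        have : A ≠ 0 := by linarith
        field_simp
    _ ≤ A * (((‖z - y‖ + τ) ^ d)⁻¹ * min 1 (r / (‖z - y‖ + τ))) := by
        gcongr

/-- TASK. Kernel bounds. `‖(z,φ z)-(y,φ y+τ)‖ ≥ s/(2(1+M))`, `s = ‖z-y‖+τ`; `‖(z,φ z)-(y,φ y-r)‖ ≥ (‖z-y‖+r)/(2(1+M))`.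
If `s ≥ K r` (`K = K(M,c)` large) use `nk_diff` with `V` = difference of the two poles (`‖V‖ = τ+r ≤ (1+c)r`);
if `s < K r` use `nk_bound` for both terms. -/
theorem kX_bound (d : ℕ) (M : ℝ≥0) (c : ℝ) (hc : 0 < c) : ∃ C : ℝ, 0 < C ∧ ∀ (φ : E d → ℝ), LipschitzWith M φ →
    ∀ (r : ℝ) (b : Ix d) (y : E d) (τ : ℝ) (z : E d), 0 < r → 0 < τ → τ ≤ c * r →
    |kX φ r b y τ z| ≤ C * mk r 1 0 y τ z := by
  obtain ⟨C0, hC0, hb, -⟩ := nk_bound d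
  obtain ⟨C1, hC1, hdf⟩ := nk_diff d
  have hM : (0:ℝ) ≤ M := M.2
  set κ : ℝ := 2 * (1 + M) with hκ
  have hκ0 : 0 < κ := by positivity
  have hκ1 : 1 ≤ κ := by rw [hκ]; linarith
  set A : ℝ := 2 * (1 + c) * κ with hA
  have hA1 : 1 ≤ A := by rw [hA]; nlinarith
  refine ⟨C1 * (1 + c) * κ ^ (d + 1) + C0 * κ ^ d * (1 + (1 + c) ^ d) * A, by positivity, ?_⟩
  intro φ hφ r b y τ z hr hτ hτr
  have hn := norm_nonneg (z - y)
  have hs : 0 < ‖z - y‖ + τ := by linarith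
  have hX1 := Tb1_low hφ y z hτ (abs_of_pos hτ)
  have hX2 := Tb1_low hφ y z hr (show |(-r)| = r by rw [abs_neg, abs_of_pos hr])
  obtain ⟨V, hV, hVe⟩ := Tb1_V (φ := φ) y z hr hτ hτr
  rw [Tb1_eq]
  set X1 : P d := ((z, φ z) : P d) - (y, φ y + τ) with hX1d
  set X2 : P d := ((z, φ z) : P d) - (y, φ y + (-r)) with hX2d
  set s : ℝ := ‖z - y‖ + τ with hsd
  have hX10 : X1 ≠ 0 := norm_pos_iff.mp (lt_of_lt_of_le (by positivity) hX1)
  have hX20 : X2 ≠ 0 := norm_pos_iff.mp (lt_of_lt_of_le (by positivity) hX2)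
  have hX1' : s ≤ κ * ‖X1‖ := by
    have := (div_le_iff₀ hκ0).mp hX1
    linarith
  have hX1n : 0 < ‖X1‖ := norm_pos_iff.mpr hX10
  have hmk0 : 0 ≤ mk r 1 0 y τ z := by
    unfold mk; positivity
  rcases le_or_gt (A * r) s with h | h
  · have hV2 : ‖V‖ ≤ ‖X1‖ / 2 := by
      have : A * r = 2 * κ * ((1 + c) * r) := by rw [hA]; ring
      have h5 : 2 * κ * ‖V‖ ≤ κ * ‖X1‖ := by nlinarith
      nlinarith
    have h6 := hdf b X1 V hX10 hV2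
    rw [← hVe] at h6
    rw [abs_sub_comm]
    have hrs : r ≤ s := by nlinarith
    rw [Tb1_mk_far hs hrs]
    have h7 : C1 * ‖V‖ / ‖X1‖ ^ (d + 1) ≤ C1 * (1 + c) * κ ^ (d + 1) * ((s ^ d)⁻¹ * (r / s)) := by
      have h8 : s ^ (d+1) ≤ κ ^ (d+1) * ‖X1‖ ^ (d+1) := by
        rw [← mul_pow]; gcongr
      rw [div_le_iff₀ (by positivity)]
      have h9 : C1 * (1 + c) * κ ^ (d + 1) * ((s ^ d)⁻¹ * (r / s)) * ‖X1‖ ^ (d + 1)
          = C1 * ((1 + c) * r) * ((κ ^ (d+1) * ‖X1‖ ^ (d+1)) / s ^ (d+1)) := by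
        rw [pow_succ s d]; field_simp
      rw [h9]
      have h10 : 1 ≤ (κ ^ (d+1) * ‖X1‖ ^ (d+1)) / s ^ (d+1) := by
        rw [one_le_div (by positivity)]; exact h8
      calc C1 * ‖V‖ = C1 * ‖V‖ * 1 := by ring
        _ ≤ C1 * ((1 + c) * r) * ((κ ^ (d+1) * ‖X1‖ ^ (d+1)) / s ^ (d+1)) := by gcongr
    refine (h6.trans h7).trans ?_
    have h11 : 0 ≤ (s ^ d)⁻¹ * (r / s) := by positivity
    apply mul_le_mul_of_nonneg_right _ h11
    have : 0 ≤ C0 * κ ^ d * (1 + (1 + c) ^ d) * A := by positivity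
    linarith
  · have h3 := Tb1_mk_near (d := d) hs hA1 hr h.le
    have h4 : |nk b X1| ≤ C0 * κ ^ d * (s ^ d)⁻¹ := by
      refine (hb b X1 hX10).trans ?_
      rw [div_le_iff₀ (by positivity)]
      have h8 : s ^ d ≤ κ ^ d * ‖X1‖ ^ d := by
        rw [← mul_pow]; gcongr
      have h9 : C0 * κ ^ d * (s ^ d)⁻¹ * ‖X1‖ ^ d = C0 * ((κ ^ d * ‖X1‖ ^ d) / s ^ d) := by
        field_simp
      rw [h9]
      have h10 : 1 ≤ (κ ^ d * ‖X1‖ ^ d) / s ^ d := by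
        rw [one_le_div (by positivity)]; exact h8
      nlinarith
    have hX2' : s ≤ (1 + c) * (κ * ‖X2‖) := by
      have h12 := (div_le_iff₀ hκ0).mp hX2
      have h13 : s ≤ (1 + c) * (‖z - y‖ + r) := by rw [hsd]; nlinarith
      refine h13.trans ?_
      gcongr
      linarith
    have hX2n : 0 < ‖X2‖ := norm_pos_iff.mpr hX20
    have h5 : |nk b X2| ≤ C0 * κ ^ d * (1 + c) ^ d * (s ^ d)⁻¹ := by
      refine (hb b X2 hX20).trans ?_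
      rw [div_le_iff₀ (by positivity)]
      have h8 : s ^ d ≤ (1 + c) ^ d * (κ ^ d * ‖X2‖ ^ d) := by
        rw [← mul_pow, ← mul_pow]; gcongr
      have h9 : C0 * κ ^ d * (1 + c) ^ d * (s ^ d)⁻¹ * ‖X2‖ ^ d
          = C0 * (((1 + c) ^ d * (κ ^ d * ‖X2‖ ^ d)) / s ^ d) := by
        field_simp
      rw [h9]
      have h10 : 1 ≤ ((1 + c) ^ d * (κ ^ d * ‖X2‖ ^ d)) / s ^ d := by
        rw [one_le_div (by positivity)]; exact h8
      nlinarith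
    calc |nk b X1 - nk b X2| ≤ |nk b X1| + |nk b X2| := abs_sub _ _
      _ ≤ C0 * κ ^ d * (s ^ d)⁻¹ + C0 * κ ^ d * (1 + c) ^ d * (s ^ d)⁻¹ := add_le_add h4 h5
      _ = C0 * κ ^ d * (1 + (1 + c) ^ d) * (s ^ d)⁻¹ := by ring
      _ ≤ C0 * κ ^ d * (1 + (1 + c) ^ d) * (A * mk r 1 0 y τ z) := by gcongr
      _ = C0 * κ ^ d * (1 + (1 + c) ^ d) * A * mk r 1 0 y τ z := by ring
      _ ≤ _ := by
          apply mul_le_mul_of_nonneg_right _ hmk0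
          have : 0 ≤ C1 * (1 + c) * κ ^ (d + 1) := by positivity
          linarith

/-- increments: for `‖v‖ ≤ s/K`: `|k(z+v)-k(z)| ≤ C ‖v‖ s^{-(d+1)} min(1,r/s)` (`nk_diff2` if `s ≥ K' r`, `nk_diff` twice otherwise).
Here the right side is `C (‖v‖/s) * mk r 1 0 y τ z`. -/
theorem kX_diff (d : ℕ) (M : ℝ≥0) (c : ℝ) (hc : 0 < c) : ∃ C K : ℝ, 0 < C ∧ 1 ≤ K ∧ ∀ (φ : E d → ℝ), LipschitzWith M φ →
    ∀ (r : ℝ) (b : Ix d) (y : E d) (τ : ℝ) (z v : E d), 0 < r → 0 < τ → τ ≤ c * r → K * ‖v‖ ≤ ‖z - y‖ + τ →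
    |kX φ r b y τ (z + v) - kX φ r b y τ z| ≤ C * (‖v‖ / (‖z - y‖ + τ)) * mk r 1 0 y τ z := by
  obtain ⟨C1, hC1, hdf⟩ := nk_diff d
  obtain ⟨C2, hC2, hdf2⟩ := nk_diff2 d
  have hM : (0:ℝ) ≤ M := M.2
  set κ : ℝ := 2 * (1 + M) with hκ
  have hκ0 : 0 < κ := by positivity
  have hκ1 : 1 ≤ κ := by rw [hκ]; linarith
  set A : ℝ := 4 * (1 + c) * κ with hA
  have hA1 : 1 ≤ A := by rw [hA]; nlinarith
  set K : ℝ := 4 * κ * (1 + M) * (1 + c) with hK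
  have hK1 : 1 ≤ K := by
    rw [hK]
    have h1 : 1 ≤ κ * (1 + M) := by nlinarith
    nlinarith
  refine ⟨C2 * (1 + c) * (1 + M) * κ ^ (d + 2) + 2 * C1 * (1 + M) * ((1 + c) * κ) ^ (d + 1) * A, K,
    by positivity, hK1, ?_⟩
  intro φ hφ r b y τ z v hr hτ hτr hv
  have hn := norm_nonneg (z - y)
  have hnv := norm_nonneg v
  have hs : 0 < ‖z - y‖ + τ := by linarith
  have hX1 := Tb1_low hφ y z hτ (abs_of_pos hτ)
  have hX2 := Tb1_low hφ y z hr (show |(-r)| = r by rw [abs_neg, abs_of_pos hr])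
  obtain ⟨V, hV, hVe⟩ := Tb1_V (φ := φ) y z hr hτ hτr
  obtain ⟨W, hW, hWe⟩ := Tb1_W hφ z v
  rw [Tb1_eq, Tb1_eq, hWe y τ, hWe y (-r)]
  set X1 : P d := ((z, φ z) : P d) - (y, φ y + τ) with hX1d
  set X2 : P d := ((z, φ z) : P d) - (y, φ y + (-r)) with hX2d
  set s : ℝ := ‖z - y‖ + τ with hsd
  have hX10 : X1 ≠ 0 := norm_pos_iff.mp (lt_of_lt_of_le (by positivity) hX1)
  have hX20 : X2 ≠ 0 := norm_pos_iff.mp (lt_of_lt_of_le (by positivity) hX2)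
  have hX1' : s ≤ κ * ‖X1‖ := by
    have := (div_le_iff₀ hκ0).mp hX1
    linarith
  have hX2' : s ≤ (1 + c) * κ * ‖X2‖ := by
    have h12 := (div_le_iff₀ hκ0).mp hX2
    have h13 : s ≤ (1 + c) * (‖z - y‖ + r) := by rw [hsd]; nlinarith
    refine h13.trans ?_
    rw [mul_assoc]
    gcongr
    linarith
  have hX1n : 0 < ‖X1‖ := norm_pos_iff.mpr hX10
  have hX2n : 0 < ‖X2‖ := norm_pos_iff.mpr hX20
  have hmk0 : 0 ≤ mk r 1 0 y τ z := by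
    unfold mk; positivity
  have hWs : 4 * κ * (1 + c) * ‖W‖ ≤ s := by
    calc 4 * κ * (1 + c) * ‖W‖ ≤ 4 * κ * (1 + c) * ((1 + M) * ‖v‖) := by gcongr
      _ = K * ‖v‖ := by rw [hK]; ring
      _ ≤ s := hv
  have hW4 : ‖W‖ ≤ ‖X1‖ / 4 := by
    have h1 : 4 * κ * ‖W‖ ≤ κ * ‖X1‖ := by
      have hw0 := norm_nonneg W
      have : 0 ≤ 4 * κ * c * ‖W‖ := by positivity
      nlinarith
    nlinarith
  have hW2 : ‖W‖ ≤ ‖X2‖ / 2 := by
    have h1 : (1 + c) * κ * (4 * ‖W‖) ≤ (1 + c) * κ * ‖X2‖ := by nlinarith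
    have h2 := le_of_mul_le_mul_left h1 (by positivity)
    linarith [norm_nonneg W]
  rcases le_or_gt (A * r) s with h | h
  · have hV4 : ‖V‖ ≤ ‖X1‖ / 4 := by
      have : A * r = 4 * κ * ((1 + c) * r) := by rw [hA]; ring
      have h5 : 4 * κ * ‖V‖ ≤ κ * ‖X1‖ := by nlinarith
      nlinarith
    have h6 := hdf2 b X1 V W hX10 hV4 hW4
    rw [← hVe] at h6
    have e1 : nk b (X1 + W) - nk b (X2 + W) - (nk b X1 - nk b X2)
        = -(nk b (X2 + W) - nk b X2 - nk b (X1 + W) + nk b X1) := by ring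
    rw [e1, abs_neg]
    have hrs : r ≤ s := by nlinarith
    rw [Tb1_mk_far hs hrs]
    have h7 : C2 * ‖V‖ * ‖W‖ / ‖X1‖ ^ (d + 2)
        ≤ C2 * (1 + c) * (1 + M) * κ ^ (d + 2) * (‖v‖ / s) * ((s ^ d)⁻¹ * (r / s)) := by
      have h8 : s ^ (d+2) ≤ κ ^ (d+2) * ‖X1‖ ^ (d+2) := by
        rw [← mul_pow]; gcongr
      rw [div_le_iff₀ (by positivity)]
      have h9 : C2 * (1 + c) * (1 + M) * κ ^ (d + 2) * (‖v‖ / s) * ((s ^ d)⁻¹ * (r / s)) * ‖X1‖ ^ (d + 2)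
          = C2 * ((1 + c) * r) * ((1 + M) * ‖v‖) * ((κ ^ (d+2) * ‖X1‖ ^ (d+2)) / s ^ (d+2)) := by
        have : s ^ (d + 2) = s ^ d * s * s := by ring
        rw [this]; field_simp
      rw [h9]
      have h10 : 1 ≤ (κ ^ (d+2) * ‖X1‖ ^ (d+2)) / s ^ (d+2) := by
        rw [one_le_div (by positivity)]; exact h8
      calc C2 * ‖V‖ * ‖W‖ = C2 * ‖V‖ * ‖W‖ * 1 := by ring
        _ ≤ _ := by gcongr
    refine (h6.trans h7).trans ?_
    have h11 : 0 ≤ (s ^ d)⁻¹ * (r / s) := by positivity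
    apply mul_le_mul_of_nonneg_right _ h11
    have h12 : 0 ≤ ‖v‖ / s := by positivity
    apply mul_le_mul_of_nonneg_right _ h12
    have : 0 ≤ 2 * C1 * (1 + M) * ((1 + c) * κ) ^ (d + 1) * A := by positivity
    linarith
  · have h3 := Tb1_mk_near (d := d) hs hA1 hr h.le
    have hgen : ∀ X : P d, X ≠ 0 → s ≤ (1 + c) * κ * ‖X‖ → ‖W‖ ≤ ‖X‖ / 2 →
        |nk b (X + W) - nk b X| ≤ C1 * (1 + M) * ((1 + c) * κ) ^ (d + 1) * (‖v‖ / s) * (s ^ d)⁻¹ := by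
      intro X hX hsX hWX
      have hXn : 0 < ‖X‖ := norm_pos_iff.mpr hX
      refine (hdf b X W hX hWX).trans ?_
      rw [div_le_iff₀ (by positivity)]
      have h8 : s ^ (d+1) ≤ ((1 + c) * κ) ^ (d+1) * ‖X‖ ^ (d+1) := by
        rw [← mul_pow]; gcongr
      have h9 : C1 * (1 + M) * ((1 + c) * κ) ^ (d + 1) * (‖v‖ / s) * (s ^ d)⁻¹ * ‖X‖ ^ (d + 1)
          = C1 * ((1 + M) * ‖v‖) * ((((1 + c) * κ) ^ (d+1) * ‖X‖ ^ (d+1)) / s ^ (d+1)) := by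
        rw [pow_succ s d]; field_simp
      rw [h9]
      have h10 : 1 ≤ (((1 + c) * κ) ^ (d+1) * ‖X‖ ^ (d+1)) / s ^ (d+1) := by
        rw [one_le_div (by positivity)]; exact h8
      calc C1 * ‖W‖ = C1 * ‖W‖ * 1 := by ring
        _ ≤ _ := by gcongr
    have hsX1 : s ≤ (1 + c) * κ * ‖X1‖ := by
      refine hX1'.trans ?_
      have : 0 ≤ c * κ * ‖X1‖ := by positivity
      nlinarith
    have h4 := hgen X1 hX10 hsX1 (by linarith)
    have h5 := hgen X2 hX20 hX2' hW2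
    have e1 : nk b (X1 + W) - nk b (X2 + W) - (nk b X1 - nk b X2)
        = (nk b (X1 + W) - nk b X1) - (nk b (X2 + W) - nk b X2) := by ring
    rw [e1]
    calc |(nk b (X1 + W) - nk b X1) - (nk b (X2 + W) - nk b X2)|
        ≤ |nk b (X1 + W) - nk b X1| + |nk b (X2 + W) - nk b X2| := abs_sub _ _
      _ ≤ _ := add_le_add h4 h5
      _ = 2 * C1 * (1 + M) * ((1 + c) * κ) ^ (d + 1) * (‖v‖ / s) * (s ^ d)⁻¹ := by ring
      _ ≤ 2 * C1 * (1 + M) * ((1 + c) * κ) ^ (d + 1) * (‖v‖ / s) * (A * mk r 1 0 y τ z) := by gcongr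
      _ = 2 * C1 * (1 + M) * ((1 + c) * κ) ^ (d + 1) * A * (‖v‖ / s) * mk r 1 0 y τ z := by ring
      _ ≤ _ := by
          apply mul_le_mul_of_nonneg_right _ hmk0
          have h12 : 0 ≤ ‖v‖ / s := by positivity
          apply mul_le_mul_of_nonneg_right _ h12
          have : 0 ≤ C2 * (1 + c) * (1 + M) * κ ^ (d + 2) := by positivity
          linarith

end HG
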