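import Pool.Agent.W_MP_825298_an.PathDefs
import Pool.Agent.W_MP_825298_an.NewtonDefs

open MeasureTheory Set Filter Topology
open scoped ENNReal NNReal BigOperators

namespace HG
variable {d : ℕ}

/-- graph + field data -/
structure GFd (M : ℝ≥0) (φ : E d → ℝ) (U : Set (P d)) (F : Ix d → P d → ℝ) : Prop where
  lip : LipschitzWith M φ
  op : IsOpen U
  sub : aboveC φ ⊆ U
  fld : IsField U F

/-- weighted box functional
`W_c(x,r) = r^{-(d+1/2)} ∫_{‖y-x‖≤cr} ∫_0^{cr} |F(y,φ y+τ)| τ^{-1/2} dτ dy` -/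
noncomputable def WdE (φ : E d → ℝ) (F : Ix d → P d → ℝ) (c : ℝ) (x : E d) (r : ℝ) : ℝ≥0∞ :=
  ENNReal.ofReal (r ^ (-((d : ℝ) + 1 / 2))) * ∫⁻ y in Metric.closedBall x (c * r), ∫⁻ τ in Ioc (0 : ℝ) (c * r),
    ENNReal.ofReal (nF F (y, φ y + τ) * τ ^ (-(1 / 2) : ℝ))

/-- box average `w_c(x,ρ) = ρ^{-(d+1)} ∫_{‖y-x‖≤cρ} ∫_0^{cρ} |F(y,φ y+τ)| dτ dy` -/
noncomputable def wE (φ : E d → ℝ) (F : Ix d → P d → ℝ) (c : ℝ) (x : E d) (ρ : ℝ) : ℝ≥0∞ :=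
  ENNReal.ofReal ((ρ ^ (d + 1))⁻¹) * ∫⁻ y in Metric.closedBall x (c * ρ), ∫⁻ τ in Ioc (0 : ℝ) (c * ρ),
    ENNReal.ofReal (nF F (y, φ y + τ))

/-- small box constant -/
noncomputable def c0 (M : ℝ≥0) : ℝ := 4 * M + 6

/-- lower bound for the large box constant -/
noncomputable def c1m (M : ℝ≥0) : ℝ := 40 * M + 80

end HG
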