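import Pool.Agent.W_MP_825298_an.TB5
import Pool.Agent.W_MP_825298_an.WDefs
import Pool.Agent.W_MP_825298_an.Repr3
import Pool.Agent.W_MP_825298_an.CertAlg5

open MeasureTheory Set Filter Topology
open scoped ENNReal NNReal BigOperators

namespace HG
variable {d : ℕ}

/-- boundary data of a decaying field are integrable -/
theorem Tb5_integrable {M : ℝ≥0} {φ : E d → ℝ} {U : Set (P d)} {F : Ix d → P d → ℝ}
    (hG : GFd M φ U F) {CF : ℝ}
    (hdec : ∀ X ∈ aboveC φ, nF F X ≤ CF * (1 + ‖X‖) ^ (-((d : ℝ) + 1))) :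
    Integrable (hb φ F) := by
  obtain ⟨C2, hC2, hhb⟩ := hb_norm_le d M
  have hmeas : AEStronglyMeasurable (hb φ F) volume :=
    (hb_measurable hG.lip hG.sub (fun a => (hG.fld.cd a).continuousOn)).aestronglyMeasurable
  have hr : ((Module.finrank ℝ (E d) : ℕ) : ℝ) < (d : ℝ) + 1 := by
    rw [Module.finrank_fin_fun]
    linarith
  have hint := (integrable_one_add_norm (μ := (volume : Measure (E d))) hr).const_mul (C2 * CF)
  refine hint.mono' hmeas (Filter.Eventually.of_forall fun x => ?_)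
  have hx1 : 0 < 1 + ‖x‖ := by positivity
  have hx : ((x, φ x) : P d) ∈ aboveC φ := le_refl (φ x)
  have h3 := hdec _ hx
  have h4 : 0 ≤ nF F (x, φ x) := Finset.sum_nonneg fun _ _ => abs_nonneg _
  have h5 : 0 < (1 + ‖((x, φ x) : P d)‖) ^ (-((d : ℝ) + 1)) := by positivity
  have h6 : 0 ≤ CF := by
    by_contra h7
    push Not at h7
    have := mul_neg_of_neg_of_pos h7 h5
    linarith
  have h2 : nF F (x, φ x) ≤ CF * (1 + ‖x‖) ^ (-((d : ℝ) + 1)) := by
    refine h3.trans (mul_le_mul_of_nonneg_left ?_ h6)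
    refine Real.rpow_le_rpow_of_nonpos hx1 ?_ (by
      have : (0 : ℝ) ≤ d := Nat.cast_nonneg d
      linarith)
    have := norm_fst_le ((x, φ x) : P d)
    simp only at this
    linarith
  calc ‖hb φ F x‖ ≤ C2 * nF F (x, φ x) := hhb φ hG.lip F x
    _ ≤ C2 * (CF * (1 + ‖x‖) ^ (-((d : ℝ) + 1))) := mul_le_mul_of_nonneg_left h2 hC2.le
    _ = C2 * CF * (1 + ‖x‖) ^ (-((d : ℝ) + 1)) := by ring

/-- comparison of the two box functionals -/
theorem Tb5_WdE_le (φ : E d → ℝ) (F : Ix d → P d → ℝ) {c c' : ℝ} (hcc : c ≤ c') (x : E d) {r : ℝ}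
    (hr : 0 ≤ r) : WdE φ F c x r ≤ Wf φ F c' x r := by
  have hcr : c * r ≤ c' * r := mul_le_mul_of_nonneg_right hcc hr
  unfold WdE Wf
  refine mul_le_mul_right ?_ _
  refine (lintegral_mono_set (Metric.closedBall_subset_closedBall hcr)).trans ?_
  refine lintegral_mono fun y => ?_
  refine (lintegral_mono_set (Ioc_subset_Ioc_right hcr)).trans (le_of_eq ?_)
  refine lintegral_congr fun τ => ?_
  have h0 : 0 ≤ nF F (y, φ y + τ) := Finset.sum_nonneg fun _ _ => abs_nonneg _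
  rw [ENNReal.ofReal_mul h0, mul_comm]

/-- TASK. The tail bound `TBH` for `m = avg (hb φ F)`, `W = WdE φ F c`. Proved from `tail_bound` (TB5). -/
theorem tb_main (hd : 1 ≤ d) (M : ℝ≥0) (c : ℝ) (hc : 0 < c) : ∃ CT : ℝ≥0, ∀ (φ : E d → ℝ) (U : Set (P d)) (F : Ix d → P d → ℝ),
    GFd M φ U F → ∀ CF : ℝ, (∀ X ∈ aboveC φ, nF F X ≤ CF * (1 + ‖X‖) ^ (-((d : ℝ) + 1))) → ∀ r0 : ℝ,
    TBH CT r0 (avg (hb φ F)) (WdE φ F c) := by
  have _ := hc
  obtain ⟨CT, hCT⟩ := tail_bound hd M (c := max c 1) (le_max_right _ _)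
  refine ⟨CT, fun φ U F hG CF hdec r0 x r hr hr0 => ?_⟩
  refine (Tb5_WdE_le φ F (le_max_left c 1) x hr.le).trans ?_
  exact hCT φ hG.lip U hG.op hG.sub F hG.fld CF ((d : ℝ) + 1) (by positivity) hdec
    (Tb5_integrable hG hdec) r0 x r hr hr0

end HG
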