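import Pool.Agent.W_MP_825298_an.HP1
import Pool.Agent.W_MP_825298_an.Barrier2

open MeasureTheory Set Filter Topology
open scoped ENNReal NNReal BigOperators

namespace HG
variable {d : ℕ}

/-- Lower bound. `Z = (y', ψ y' - (1+M)ρ')`: every `X ∈ above ψ` has `‖X-Z‖ ≥ ρ'`. The target points satisfy
`sq(X-Z) ≤ C4² ρ'²`, `C4² = 64 d + (6+9M)²`; take `R = 2 C4 ρ'`, `C3 = 2 C4`; on the graph `blow ≤ 1 = ζ` if `‖x-y'‖ ≤ R`
and `blow ≤ 0` otherwise. `barrier_le_sol`. -/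
theorem sol_lower (d : ℕ) (M : ℝ≥0) : ∃ cA C3 : ℝ, 0 < cA ∧ 1 ≤ C3 ∧ ∀ (ψ ζ : E d → ℝ), LipschitzWith M ψ → BdFun ζ →
    ∀ (H : P d → ℝ), IsSol ψ ζ H → ∀ (y' : E d) (ρ' : ℝ), 0 < ρ' → (∀ y, ‖y - y'‖ ≤ C3 * ρ' → ζ y = 1) →
    ∀ (x : E d) (t : ℝ), ‖x - y'‖ ≤ 8 * ρ' → ψ x < t → t ≤ ψ x + 5 * ρ' → cA ≤ H (x, t) := by
  have hM : (0 : ℝ) ≤ M := M.coe_nonneg
  have hd : (0 : ℝ) ≤ d := Nat.cast_nonneg d
  set n1 : ℝ := (d : ℝ) + 1 with hn1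
  have hn1' : 1 ≤ n1 := by rw [hn1]; linarith
  set w : ℝ := 9 * (1 + (M : ℝ)) with hw
  have hw9 : 9 ≤ w := by rw [hw]; linarith
  set K : ℝ := n1 * w ^ 2 with hK
  set C3 : ℝ := 2 * n1 * w with hC3
  have hC3K : K < C3 ^ 2 := by
    have h1 : C3 ^ 2 = 4 * n1 * K := by rw [hC3, hK]; ring
    have hKpos : 0 < K := by rw [hK]; positivity
    rw [h1]
    nlinarith
  have hC31 : 1 ≤ C3 := by
    rw [hC3]
    nlinarith
  refine ⟨Real.exp (-(n1 / 2) * K) - Real.exp (-(n1 / 2) * C3 ^ 2), C3, ?_, hC31, ?_⟩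
  · rw [sub_pos]
    apply Real.exp_lt_exp.mpr
    have : 0 < n1 / 2 := by linarith
    nlinarith
  intro ψ ζ hψ hζ H hH y' ρ' hρ' hζ1 x t hx ht1 ht2
  have hlip : ∀ a b : E d, |ψ a - ψ b| ≤ M * ‖a - b‖ := by
    intro a b
    have := hψ.dist_le_mul a b
    rwa [Real.dist_eq, dist_eq_norm] at this
  set Z : P d := (y', ψ y' - (1 + M) * ρ') with hZ
  have habove : ∀ X ∈ above ψ, ρ' ≤ ‖X - Z‖ := by
    intro X hX
    have hX' : ψ X.1 < X.2 := hX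
    by_cases hc : ρ' ≤ ‖X.1 - y'‖
    · exact hc.trans (norm_fst_le (X - Z))
    · have hc' : ‖X.1 - y'‖ ≤ ρ' := (not_le.mp hc).le
      have h2 : ρ' ≤ X.2 - (ψ y' - (1 + M) * ρ') := by
        have h3 := abs_le.mp (hlip X.1 y')
        have h4 : (M : ℝ) * ‖X.1 - y'‖ ≤ M * ρ' := mul_le_mul_of_nonneg_left hc' hM
        linarith [h3.1]
      calc ρ' ≤ X.2 - (ψ y' - (1 + M) * ρ') := h2
        _ ≤ |X.2 - (ψ y' - (1 + M) * ρ')| := le_abs_self _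
        _ = ‖(X - Z).2‖ := rfl
        _ ≤ ‖X - Z‖ := norm_snd_le (X - Z)
  have hR : 0 ≤ C3 * ρ' := by positivity
  have hmain := barrier_le_sol hψ hζ hH (blow_contDiff Z ρ' (C3 * ρ')) (blow_lipschitz Z hρ' (C3 * ρ'))
    ⟨‖Z‖ + C3 * ρ', fun X hX => blow_nonpos Z hρ' hR X (by
      have := norm_sub_norm_le X Z
      linarith)⟩
    (fun X hX => blow_lap Z hρ' (C3 * ρ') X (by
      have h1 := habove X hX
      calc ρ' ^ 2 ≤ ‖X - Z‖ ^ 2 := pow_le_pow_left₀ hρ'.le h1 2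
        _ ≤ sq (X - Z) := (norm_sq_le_sq _).1))
    (fun y => by
      by_cases hc : ‖y - y'‖ ≤ C3 * ρ'
      · rw [hζ1 y hc, blow]
        have h1 : Real.exp (-(((d : ℝ) + 1) / 2) * sq ((y, ψ y) - Z) / ρ' ^ 2) ≤ 1 := by
          apply Real.exp_le_one_iff.mpr
          apply div_nonpos_of_nonpos_of_nonneg _ (sq_nonneg _)
          apply mul_nonpos_of_nonpos_of_nonneg _ (Newton1_sq_nonneg _)
          linarith
        have h2 := Real.exp_pos (-(((d : ℝ) + 1) / 2) * (C3 * ρ') ^ 2 / ρ' ^ 2)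
        linarith
      · have h1 : blow Z ρ' (C3 * ρ') (y, ψ y) ≤ 0 := by
          apply blow_nonpos Z hρ' hR
          exact (not_le.mp hc).le.trans (norm_fst_le ((y, ψ y) - Z))
        exact h1.trans (hζ.nn y))
    (x, t) ht1
  refine le_trans ?_ hmain
  have hXZ : ‖((x, t) : P d) - Z‖ ≤ w * ρ' := by
    rw [norm_prod_le_iff]
    constructor
    · refine hx.trans ?_
      exact mul_le_mul_of_nonneg_right (by linarith) hρ'.le
    · change |t - (ψ y' - (1 + M) * ρ')| ≤ w * ρ'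
      have h3 := abs_le.mp (hlip x y')
      have h4 : (M : ℝ) * ‖x - y'‖ ≤ M * (8 * ρ') := mul_le_mul_of_nonneg_left hx hM
      have h5 : 0 ≤ (M : ℝ) * ρ' := mul_nonneg hM hρ'.le
      rw [abs_le, hw]
      constructor <;> nlinarith [h3.1, h3.2]
  have hsq : sq (((x, t) : P d) - Z) ≤ K * ρ' ^ 2 := by
    calc sq (((x, t) : P d) - Z) ≤ ((d : ℝ) + 1) * ‖((x, t) : P d) - Z‖ ^ 2 := (norm_sq_le_sq _).2
      _ ≤ ((d : ℝ) + 1) * (w * ρ') ^ 2 :=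
          mul_le_mul_of_nonneg_left (pow_le_pow_left₀ (norm_nonneg _) hXZ 2) (by linarith)
      _ = K * ρ' ^ 2 := by rw [hK, hn1]; ring
  rw [blow]
  have hρ2 : 0 < ρ' ^ 2 := by positivity
  apply sub_le_sub
  · apply Real.exp_le_exp.mpr
    rw [le_div_iff₀ hρ2]
    have h6 : 0 ≤ n1 / 2 := by linarith
    have h7 := mul_le_mul_of_nonneg_left hsq h6
    calc -(n1 / 2) * K * ρ' ^ 2 = -(n1 / 2 * (K * ρ' ^ 2)) := by ring
      _ ≤ -(n1 / 2 * sq (((x, t) : P d) - Z)) := neg_le_neg h7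
      _ = -(((d : ℝ) + 1) / 2) * sq (((x, t) : P d) - Z) := by rw [hn1]; ring
  · apply le_of_eq
    congr 1
    rw [mul_pow, hn1]
    field_simp

end HG
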