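import Pool.Agent.W_MP_825298_an.Ex3
import Pool.Agent.W_MP_825298_an.Pw0

open MeasureTheory Set Filter Topology
open scoped ENNReal NNReal BigOperators

namespace HG
variable {d : ℕ}

variable {V : Type*} [NormedAddCommGroup V] [NormedSpace ℝ V]

theorem vl_ind_true {p : Prop} (h : p) : ind p = 1 := by
  unfold ind
  rw [if_pos h]

theorem vl_ind_false {p : Prop} (h : ¬ p) : ind p = 0 := by
  unfold ind
  rw [if_neg h]

theorem vl_ind_mono {p q : Prop} (h : p → q) : ind p ≤ ind q := by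
  by_cases hp : p
  · rw [vl_ind_true hp, vl_ind_true (h hp)]
  · rw [vl_ind_false hp]
    exact zero_le

/-- telescoping along a switching process -/
theorem vl_tele (a : ℕ → ℝ≥0∞) (X Y b : ℕ → Prop) (hXb : ∀ j, ¬ (X j ∧ b j)) (h0 : X 0 ∨ b 0 → Y 0)
    (hs : ∀ j, X (j + 1) ∨ b (j + 1) → b j ∨ Y (j + 1)) (N : ℕ) :
    (∑ j ∈ Finset.range (N + 1), ind (X j) * a j) + ∑ j ∈ Finset.range N, ind (b j) * a j + ind (b N) * a N
      ≤ (∑ j ∈ Finset.range (N + 1), ind (Y j) * a j) + ∑ j ∈ Finset.range N, ind (b j) * a (j + 1) := by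
  have key : ∀ j, (X j ∨ b j → False) ∨ (X j ∧ ¬ b j) ∨ (¬ X j ∧ b j) := by
    intro j
    by_cases h1 : X j <;> by_cases h2 : b j
    · exact absurd ⟨h1, h2⟩ (hXb j)
    · exact Or.inr (Or.inl ⟨h1, h2⟩)
    · exact Or.inr (Or.inr ⟨h1, h2⟩)
    · left; rintro (h | h)
      · exact h1 h
      · exact h2 h
  have key2 : ∀ j, ind (X j) * a j + ind (b j) * a j ≤ a j := by
    intro j
    rcases key j with h | ⟨h1, h2⟩ | ⟨h1, h2⟩
    · rw [vl_ind_false (fun hx => h (Or.inl hx)), vl_ind_false (fun hx => h (Or.inr hx))]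
      simp
    · rw [vl_ind_true h1, vl_ind_false h2]
      simp
    · rw [vl_ind_false h1, vl_ind_true h2]
      simp
  have key3 : ∀ j, ¬ (X j ∨ b j) → ind (X j) * a j + ind (b j) * a j = 0 := by
    intro j h
    rw [vl_ind_false (fun hx => h (Or.inl hx)), vl_ind_false (fun hx => h (Or.inr hx))]
    simp
  induction N with
  | zero =>
    simp only [zero_add, Finset.range_one, Finset.sum_singleton, Finset.range_zero, Finset.sum_empty, add_zero]
    by_cases h : X 0 ∨ b 0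
    · rw [vl_ind_true (h0 h), one_mul]
      exact key2 0
    · rw [key3 0 h]
      exact zero_le
  | succ N ih =>
    rw [Finset.sum_range_succ (fun j => ind (X j) * a j) (N + 1), Finset.sum_range_succ (fun j => ind (b j) * a j) N,
      Finset.sum_range_succ (fun j => ind (Y j) * a j) (N + 1),
      Finset.sum_range_succ (fun j => ind (b j) * a (j + 1)) N]
    have h1 : ind (X (N + 1)) * a (N + 1) + ind (b (N + 1)) * a (N + 1)
        ≤ ind (Y (N + 1)) * a (N + 1) + ind (b N) * a (N + 1) := by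
      by_cases h : X (N + 1) ∨ b (N + 1)
      · refine (key2 (N + 1)).trans ?_
        rcases hs N h with hb | hY
        · rw [vl_ind_true hb, one_mul]
          exact le_add_self
        · rw [vl_ind_true hY, one_mul]
          exact le_self_add
      · rw [key3 (N + 1) h]
        exact zero_le
    calc _ = ((∑ j ∈ Finset.range (N + 1), ind (X j) * a j) + ∑ j ∈ Finset.range N, ind (b j) * a j
            + ind (b N) * a N) + (ind (X (N + 1)) * a (N + 1) + ind (b (N + 1)) * a (N + 1)) := by ring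
      _ ≤ ((∑ j ∈ Finset.range (N + 1), ind (Y j) * a j) + ∑ j ∈ Finset.range N, ind (b j) * a (j + 1))
            + (ind (Y (N + 1)) * a (N + 1) + ind (b N) * a (N + 1)) := add_le_add ih h1
      _ = _ := by ring

theorem vl_rv_congr {κ : ℝ≥0∞} {a w a' w' : ℕ → ℝ≥0∞} {v0 : ℝ≥0∞} {l : ℕ}
    (h : ∀ i < l, a i = a' i ∧ w i = w' i) : rv κ a w v0 l = rv κ a' w' v0 l := by
  induction l with
  | zero => rfl
  | succ l ih =>
    have h1 := ih (fun i hi => h i (hi.trans (Nat.lt_succ_self l)))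
    obtain ⟨h2, h3⟩ := h l (Nat.lt_succ_self l)
    have h4 : (Good κ a w l ∧ 2 * rv κ a w v0 l < a l) ↔ (Good κ a' w' l ∧ 2 * rv κ a' w' v0 l < a' l) := by
      unfold Good
      rw [h1, h2, h3]
    simp only [rv]
    by_cases h5 : Good κ a w l ∧ 2 * rv κ a w v0 l < a l
    · rw [if_pos h5, if_pos (h4.1 h5), h2]
    · rw [if_neg h5, if_neg (fun h6 => h5 (h4.2 h6)), h1]

theorem vl_Rec_congr {κ : ℝ≥0∞} {a w a' w' : ℕ → ℝ≥0∞} {v0 : ℝ≥0∞} {l : ℕ}
    (h : ∀ i ≤ l, a i = a' i ∧ w i = w' i) : Rec κ a w v0 l ↔ Rec κ a' w' v0 l := by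
  have h1 : rv κ a w v0 l = rv κ a' w' v0 l := vl_rv_congr (fun i hi => h i hi.le)
  obtain ⟨h2, h3⟩ := h l le_rfl
  unfold Rec Good
  rw [h1, h2, h3]

theorem vl_cnt_congr {κ : ℝ≥0∞} {a w a' w' : ℕ → ℝ≥0∞} {v0 : ℝ≥0∞} {l : ℕ}
    (h : ∀ i < l, a i = a' i ∧ w i = w' i) : cnt κ a w v0 l = cnt κ a' w' v0 l := by
  induction l with
  | zero => rfl
  | succ l ih =>
    have h1 := ih (fun i hi => h i (hi.trans (Nat.lt_succ_self l)))
    have h2 : Rec κ a w v0 l ↔ Rec κ a' w' v0 l := vl_Rec_congr (fun i hi => h i (Nat.lt_succ_of_le hi))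
    simp only [cnt]
    rw [h1]
    by_cases h3 : Rec κ a w v0 l
    · rw [if_pos h3, if_pos (h2.1 h3)]
    · rw [if_neg h3, if_neg (fun h4 => h3 (h2.2 h4))]

theorem vl_cnt_succ_of_rec {κ : ℝ≥0∞} {a w : ℕ → ℝ≥0∞} {v0 : ℝ≥0∞} {l : ℕ} (h : Rec κ a w v0 l) :
    cnt κ a w v0 (l + 1) = cnt κ a w v0 l + 1 := by
  simp only [cnt]
  rw [if_pos h]

theorem vl_cnt_le_succ (κ : ℝ≥0∞) (a w : ℕ → ℝ≥0∞) (v0 : ℝ≥0∞) (l : ℕ) :
    cnt κ a w v0 l ≤ cnt κ a w v0 (l + 1) := by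
  simp only [cnt]
  exact Nat.le_add_right _ _

/-- if at least `L` records occurred, the `L`-th record exists -/
theorem vl_exists_rec {κ : ℝ≥0∞} {a w : ℕ → ℝ≥0∞} {v0 : ℝ≥0∞} {L : ℕ} (hL : 1 ≤ L) (l : ℕ)
    (h : L ≤ cnt κ a w v0 l) : ∃ i < l, Rec κ a w v0 i ∧ cnt κ a w v0 i + 1 = L := by
  induction l with
  | zero =>
    simp only [cnt] at h
    omega
  | succ l ih =>
    by_cases h1 : L ≤ cnt κ a w v0 l
    · obtain ⟨i, hi, h2⟩ := ih h1
      exact ⟨i, hi.trans (Nat.lt_succ_self l), h2⟩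
    · by_cases h2 : Rec κ a w v0 l
      · rw [vl_cnt_succ_of_rec h2] at h
        exact ⟨l, Nat.lt_succ_self l, h2, by omega⟩
      · simp only [cnt] at h
        rw [if_neg h2, add_zero] at h
        exact absurd h h1

/-- pathwise inequality 1 -/
theorem vl_path1 (κ : ℝ≥0∞) (a w : ℕ → ℝ≥0∞) (h0 : a 0 ≠ 0) (h1 : a 0 ≠ ⊤) {L : ℕ} (hL : 1 ≤ L) (N : ℕ) :
    (∑ j ∈ Finset.range (N + 1), ind (Rec κ a w (a 0) j ∧ cnt κ a w (a 0) j + 1 = L) * a j)
      + ∑ j ∈ Finset.range N, ind ((∃ i ≤ j, Hit κ (2 ^ L) a w (a 0) i) ∧ cnt κ a w (a 0) (j + 1) < L) * a j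
      ≤ (∑ j ∈ Finset.range (N + 1), ind (FirstHit (Hit κ (2 ^ L) a w (a 0)) j) * a j)
      + ∑ j ∈ Finset.range N, ind ((∃ i ≤ j, Hit κ (2 ^ L) a w (a 0) i) ∧ cnt κ a w (a 0) (j + 1) < L) * a (j + 1) := by
  have h := vl_tele a (fun j => Rec κ a w (a 0) j ∧ cnt κ a w (a 0) j + 1 = L)
    (fun j => FirstHit (Hit κ (2 ^ L) a w (a 0)) j)
    (fun j => (∃ i ≤ j, Hit κ (2 ^ L) a w (a 0) i) ∧ cnt κ a w (a 0) (j + 1) < L) ?_ ?_ ?_ N
  · exact le_self_add.trans h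
  · rintro j ⟨⟨hr, hc⟩, -, hlt⟩
    rw [vl_cnt_succ_of_rec hr] at hlt
    omega
  · rintro (⟨hr, hc⟩ | ⟨⟨i, hi, hh⟩, -⟩)
    · exact ⟨rec_hit κ a w h0 h1 hL hr hc, fun j hj => absurd hj (Nat.not_lt_zero j)⟩
    · obtain rfl : i = 0 := Nat.le_zero.1 hi
      exact ⟨hh, fun j hj => absurd hj (Nat.not_lt_zero j)⟩
  · rintro j (⟨hr, hc⟩ | ⟨⟨i, hi, hh⟩, hlt⟩)
    · by_cases hex : ∃ i ≤ j, Hit κ (2 ^ L) a w (a 0) i
      · exact Or.inl ⟨hex, by omega⟩
      · refine Or.inr ⟨rec_hit κ a w h0 h1 hL hr hc, fun i hi hh => hex ⟨i, Nat.lt_succ_iff.1 hi, hh⟩⟩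
    · by_cases hex : ∃ i ≤ j, Hit κ (2 ^ L) a w (a 0) i
      · exact Or.inl ⟨hex, lt_of_le_of_lt (vl_cnt_le_succ κ a w (a 0) (j + 1)) hlt⟩
      · have hij : i = j + 1 := by
          by_contra hne
          exact hex ⟨i, by omega, hh⟩
        subst hij
        exact Or.inr ⟨hh, fun i hi hh' => hex ⟨i, Nat.lt_succ_iff.1 hi, hh'⟩⟩

/-- pathwise inequality 2 -/
theorem vl_path2 (a : ℕ → ℝ≥0∞) (H T : ℕ → Prop) (N : ℕ) :
    (∑ j ∈ Finset.range (N + 1), ind (FirstHit H j ∧ ∃ i < j, T i) * a j)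
      + ∑ j ∈ Finset.range N, ind ((∃ i ≤ j, T i) ∧ ∀ i ≤ j, ¬ H i) * a j
      ≤ (∑ j ∈ Finset.range (N + 1), ind (FirstHit T j ∧ ∀ i ≤ j, ¬ H i) * a j)
      + ∑ j ∈ Finset.range N, ind ((∃ i ≤ j, T i) ∧ ∀ i ≤ j, ¬ H i) * a (j + 1) := by
  have h := vl_tele a (fun j => FirstHit H j ∧ ∃ i < j, T i) (fun j => FirstHit T j ∧ ∀ i ≤ j, ¬ H i)
    (fun j => (∃ i ≤ j, T i) ∧ ∀ i ≤ j, ¬ H i) ?_ ?_ ?_ N
  · exact le_self_add.trans h
  · rintro j ⟨⟨hH, -⟩, -, hn⟩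
    exact hn j le_rfl hH.1
  · rintro (⟨-, i, hi, -⟩ | ⟨⟨i, hi, hT⟩, hn⟩)
    · exact absurd hi (Nat.not_lt_zero i)
    · obtain rfl : i = 0 := Nat.le_zero.1 hi
      exact ⟨⟨hT, fun j hj => absurd hj (Nat.not_lt_zero j)⟩, hn⟩
  · rintro j (⟨hH, i, hi, hT⟩ | ⟨⟨i, hi, hT⟩, hn⟩)
    · exact Or.inl ⟨⟨i, Nat.lt_succ_iff.1 hi, hT⟩, fun i' hi' => hH.2 i' (Nat.lt_succ_iff.2 hi')⟩
    · by_cases hex : ∃ i ≤ j, T i
      · exact Or.inl ⟨hex, fun i' hi' => hn i' (hi'.trans (Nat.le_succ j))⟩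
      · have hij : i = j + 1 := by
          by_contra hne
          exact hex ⟨i, by omega, hT⟩
        subst hij
        exact Or.inr ⟨⟨hT, fun i hi hT' => hex ⟨i, Nat.lt_succ_iff.1 hi, hT'⟩⟩, hn⟩

/-- the sequences depend on the first steps only -/
theorem vl_seq_dep (m : E d → ℝ → V) (W : E d → ℝ → ℝ≥0∞) (x : E d) (r : ℝ) {l : ℕ} {ω ω' : ℕ → St d}
    (h : ∀ i < l, ω i = ω' i) : ∀ i ≤ l, av m x r ω i = av m x r ω' i ∧ wv W x r ω i = wv W x r ω' i := by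
  intro i hi
  exact ⟨av_dep m x r i ω ω' (fun j hj => h j (lt_of_lt_of_le hj hi)),
    wv_dep W x r i ω ω' (fun j hj => h j (lt_of_lt_of_le hj hi))⟩

/-- From a good start the expected value at the `L`-th next record is controlled by the value at the first hit of level `2^L`,
split according to whether `κ w > A a_0` happened before.  Let `σ` = first hit, `τ` = first `κ w > A a_0`, `ν` = `L`-th record (`ν ≥ σ`
by `rec_hit`).  `E[a_ν] ≤ E[a_σ] + E∑_{σ≤j<ν} γ`, `E[a_σ; τ<σ] ≤ E[a_τ; τ<σ] + E ∑_{τ≤j<σ} γ` (`osi_upper`), and `a_τ ≤ κ w_τ` because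
at `τ < σ` the point is not good (a good point with `κ w > A a_0` has `a ≥ κ w > A a_0`, i.e. is a hit). -/
theorem VL_bound {m : E d → ℝ → V} (hm : RefEq m) (W : E d → ℝ → ℝ≥0∞) (κ : ℝ≥0) (L : ℕ) (hL : 1 ≤ L)
    (x : E d) {r : ℝ} (hr : 0 < r) (N : ℕ) (hgood : (κ : ℝ≥0∞) * W x r ≤ ‖m x r‖ₑ) (hne : m x r ≠ 0) :
    Ex N (fun ω : ℕ → St d => ∑ j ∈ Finset.range (N + 1),
        ind (Rec κ (av m x r ω) (wv W x r ω) (av m x r ω 0) j ∧
          cnt κ (av m x r ω) (wv W x r ω) (av m x r ω 0) j + 1 = L) * av m x r ω j)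
      ≤ Ex N (fun ω : ℕ → St d => K1 κ (2 ^ L) (av m x r ω) (wv W x r ω) N)
      + κ * Ex N (fun ω : ℕ → St d => ∑ j ∈ Finset.range (N + 1),
          ind (FirstHit (fun i => 2 ^ L * av m x r ω 0 < κ * wv W x r ω i) j) * wv W x r ω j)
      + 2 * Ex N (fun ω : ℕ → St d => ∑ j ∈ Finset.range N,
          ind (cnt κ (av m x r ω) (wv W x r ω) (av m x r ω 0) (j + 1) < L) * wv (gamE m) x r ω j) := by
  have ha0 : ∀ ω : ℕ → St d, av m x r ω 0 = ‖m x r‖ₑ := by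
    intro ω
    simp [av, Zp]
  have hne0 : ∀ ω : ℕ → St d, av m x r ω 0 ≠ 0 := by
    intro ω
    rw [ha0, enorm_ne_zero]
    exact hne
  have hnetop : ∀ ω : ℕ → St d, av m x r ω 0 ≠ ⊤ := by
    intro ω
    rw [ha0]
    exact enorm_ne_top
  -- first application
  have step1 := osi_upper hm x hr N
    (fun j ω => (∃ i ≤ j, Hit κ (2 ^ L) (av m x r ω) (wv W x r ω) (av m x r ω 0) i) ∧
      cnt κ (av m x r ω) (wv W x r ω) (av m x r ω 0) (j + 1) < L)
    (by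
      intro j _ ω ω' hω
      have hs := vl_seq_dep m W x r hω
      have h1 : cnt κ (av m x r ω) (wv W x r ω) (av m x r ω 0) (j + 1)
          = cnt κ (av m x r ω') (wv W x r ω') (av m x r ω' 0) (j + 1) := by
        rw [(hs 0 (Nat.zero_le j)).1]
        exact vl_cnt_congr (fun i hi => hs i (Nat.lt_succ_iff.1 hi))
      have h2 : (∃ i ≤ j, Hit κ (2 ^ L) (av m x r ω) (wv W x r ω) (av m x r ω 0) i)
          ↔ (∃ i ≤ j, Hit κ (2 ^ L) (av m x r ω') (wv W x r ω') (av m x r ω' 0) i) := by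
        have h3 : ∀ i ≤ j, (Hit κ (2 ^ L) (av m x r ω) (wv W x r ω) (av m x r ω 0) i ↔
            Hit κ (2 ^ L) (av m x r ω') (wv W x r ω') (av m x r ω' 0) i) := by
          intro i hi
          unfold Hit Good
          rw [(hs 0 (Nat.zero_le j)).1, (hs i hi).1, (hs i hi).2]
        constructor
        · rintro ⟨i, hi, h⟩
          exact ⟨i, hi, (h3 i hi).1 h⟩
        · rintro ⟨i, hi, h⟩
          exact ⟨i, hi, (h3 i hi).2 h⟩
      show (_ ∧ _) = (_ ∧ _)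
      rw [h1, propext h2])
    (fun ω => ∑ j ∈ Finset.range (N + 1),
        ind (Rec κ (av m x r ω) (wv W x r ω) (av m x r ω 0) j ∧
          cnt κ (av m x r ω) (wv W x r ω) (av m x r ω 0) j + 1 = L) * av m x r ω j)
    (fun ω => ∑ j ∈ Finset.range (N + 1),
        ind (FirstHit (Hit κ (2 ^ L) (av m x r ω) (wv W x r ω) (av m x r ω 0)) j) * av m x r ω j)
    (fun ω => vl_path1 κ (av m x r ω) (wv W x r ω) (hne0 ω) (hnetop ω) hL N)
  have step2 := osi_upper hm x hr N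
    (fun j ω => (∃ i ≤ j, 2 ^ L * av m x r ω 0 < κ * wv W x r ω i) ∧
      ∀ i ≤ j, ¬ Hit κ (2 ^ L) (av m x r ω) (wv W x r ω) (av m x r ω 0) i)
    (by
      intro j _ ω ω' hω
      have hs := vl_seq_dep m W x r hω
      have h1 : (∃ i ≤ j, 2 ^ L * av m x r ω 0 < κ * wv W x r ω i) ↔
          (∃ i ≤ j, 2 ^ L * av m x r ω' 0 < κ * wv W x r ω' i) := by
        constructor
        · rintro ⟨i, hi, h⟩
          rw [(hs 0 (Nat.zero_le j)).1, (hs i hi).2] at h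
          exact ⟨i, hi, h⟩
        · rintro ⟨i, hi, h⟩
          rw [← (hs 0 (Nat.zero_le j)).1, ← (hs i hi).2] at h
          exact ⟨i, hi, h⟩
      have h3 : ∀ i ≤ j, (Hit κ (2 ^ L) (av m x r ω) (wv W x r ω) (av m x r ω 0) i ↔
            Hit κ (2 ^ L) (av m x r ω') (wv W x r ω') (av m x r ω' 0) i) := by
          intro i hi
          unfold Hit Good
          rw [(hs 0 (Nat.zero_le j)).1, (hs i hi).1, (hs i hi).2]
      have h2 : (∀ i ≤ j, ¬ Hit κ (2 ^ L) (av m x r ω) (wv W x r ω) (av m x r ω 0) i)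
          ↔ (∀ i ≤ j, ¬ Hit κ (2 ^ L) (av m x r ω') (wv W x r ω') (av m x r ω' 0) i) := by
        constructor
        · intro h i hi hh
          exact h i hi ((h3 i hi).2 hh)
        · intro h i hi hh
          exact h i hi ((h3 i hi).1 hh)
      show (_ ∧ _) = (_ ∧ _)
      rw [propext h1, propext h2])
    (fun ω => ∑ j ∈ Finset.range (N + 1),
        ind (FirstHit (Hit κ (2 ^ L) (av m x r ω) (wv W x r ω) (av m x r ω 0)) j ∧
          ∃ i < j, 2 ^ L * av m x r ω 0 < κ * wv W x r ω i) * av m x r ω j)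
    (fun ω => ∑ j ∈ Finset.range (N + 1),
        ind (FirstHit (fun i => 2 ^ L * av m x r ω 0 < κ * wv W x r ω i) j ∧
          ∀ i ≤ j, ¬ Hit κ (2 ^ L) (av m x r ω) (wv W x r ω) (av m x r ω 0) i) * av m x r ω j)
    (fun ω => vl_path2 (av m x r ω) _ _ N)
  -- combine
  have hsplit : Ex N (fun ω : ℕ → St d => ∑ j ∈ Finset.range (N + 1),
        ind (FirstHit (Hit κ (2 ^ L) (av m x r ω) (wv W x r ω) (av m x r ω 0)) j) * av m x r ω j)
      ≤ Ex N (fun ω : ℕ → St d => K1 κ (2 ^ L) (av m x r ω) (wv W x r ω) N)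
        + Ex N (fun ω : ℕ → St d => ∑ j ∈ Finset.range (N + 1),
        ind (FirstHit (Hit κ (2 ^ L) (av m x r ω) (wv W x r ω) (av m x r ω 0)) j ∧
          ∃ i < j, 2 ^ L * av m x r ω 0 < κ * wv W x r ω i) * av m x r ω j) := by
    rw [← Ex_add]
    refine Ex_mono N fun ω => ?_
    unfold K1
    rw [← Finset.sum_add_distrib]
    refine Finset.sum_le_sum fun j _ => ?_
    rw [← add_mul]
    refine mul_le_mul_left ?_ _
    by_cases hF : FirstHit (Hit κ (2 ^ L) (av m x r ω) (wv W x r ω) (av m x r ω 0)) j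
    · by_cases hT : ∃ i < j, 2 ^ L * av m x r ω 0 < κ * wv W x r ω i
      · rw [vl_ind_true hF, vl_ind_true (And.intro hF hT)]
        exact le_add_self
      · have hT' : ∀ i < j, κ * wv W x r ω i ≤ 2 ^ L * av m x r ω 0 := by
          intro i hi
          by_contra hlt
          exact hT ⟨i, hi, not_le.1 hlt⟩
        rw [vl_ind_true hF, vl_ind_true (And.intro hF hT')]
        exact le_self_add
    · rw [vl_ind_false hF]
      exact zero_le
  have hY2 : Ex N (fun ω : ℕ → St d => ∑ j ∈ Finset.range (N + 1),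
        ind (FirstHit (fun i => 2 ^ L * av m x r ω 0 < κ * wv W x r ω i) j ∧
          ∀ i ≤ j, ¬ Hit κ (2 ^ L) (av m x r ω) (wv W x r ω) (av m x r ω 0) i) * av m x r ω j)
      ≤ κ * Ex N (fun ω : ℕ → St d => ∑ j ∈ Finset.range (N + 1),
          ind (FirstHit (fun i => 2 ^ L * av m x r ω 0 < κ * wv W x r ω i) j) * wv W x r ω j) := by
    rw [← Ex_mul]
    refine Ex_mono N fun ω => ?_
    rw [Finset.mul_sum]
    refine Finset.sum_le_sum fun j _ => ?_
    by_cases hY : FirstHit (fun i => 2 ^ L * av m x r ω 0 < κ * wv W x r ω i) j ∧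
          ∀ i ≤ j, ¬ Hit κ (2 ^ L) (av m x r ω) (wv W x r ω) (av m x r ω 0) i
    · rw [vl_ind_true hY, vl_ind_true hY.1, one_mul, one_mul]
      by_contra hlt
      rw [not_le] at hlt
      exact hY.2 j le_rfl ⟨hlt.le, hY.1.1.trans hlt⟩
    · rw [vl_ind_false hY, zero_mul]
      exact zero_le
  have hG1 : Ex N (fun ω : ℕ → St d => ∑ j ∈ Finset.range N,
        ind ((∃ i ≤ j, Hit κ (2 ^ L) (av m x r ω) (wv W x r ω) (av m x r ω 0) i) ∧
          cnt κ (av m x r ω) (wv W x r ω) (av m x r ω 0) (j + 1) < L) * wv (gamE m) x r ω j)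
      ≤ Ex N (fun ω : ℕ → St d => ∑ j ∈ Finset.range N,
          ind (cnt κ (av m x r ω) (wv W x r ω) (av m x r ω 0) (j + 1) < L) * wv (gamE m) x r ω j) := by
    refine Ex_mono N fun ω => Finset.sum_le_sum fun j _ => mul_le_mul_left (vl_ind_mono fun h => h.2) _
  have hG2 : Ex N (fun ω : ℕ → St d => ∑ j ∈ Finset.range N,
        ind ((∃ i ≤ j, 2 ^ L * av m x r ω 0 < κ * wv W x r ω i) ∧
      ∀ i ≤ j, ¬ Hit κ (2 ^ L) (av m x r ω) (wv W x r ω) (av m x r ω 0) i) * wv (gamE m) x r ω j)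
      ≤ Ex N (fun ω : ℕ → St d => ∑ j ∈ Finset.range N,
          ind (cnt κ (av m x r ω) (wv W x r ω) (av m x r ω 0) (j + 1) < L) * wv (gamE m) x r ω j) := by
    refine Ex_mono N fun ω => Finset.sum_le_sum fun j _ => mul_le_mul_left (vl_ind_mono fun h => ?_) _
    by_contra hlt
    rw [not_lt] at hlt
    obtain ⟨i, hi, hrec, hc⟩ := vl_exists_rec hL (j + 1) hlt
    exact h.2 i (Nat.lt_succ_iff.1 hi) (rec_hit κ _ _ (hne0 ω) (hnetop ω) hL hrec hc)
  calc _ ≤ _ := step1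
    _ ≤ _ := add_le_add hsplit hG1
    _ ≤ _ := add_le_add (add_le_add le_rfl (step2.trans (add_le_add hY2 hG2))) le_rfl
    _ = _ := by
      rw [two_mul]
      ring

end HG
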