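import Pool.Agent.W_MP_825298_an.VarDefs
import Pool.Agent.W_MP_825298_an.IntPd

open MeasureTheory Set Filter Topology
open scoped ENNReal NNReal BigOperators

namespace HG
variable {d : ℕ}

theorem var1a_bound {v : P d → ℝ} {K : ℝ≥0} (hv : LipschitzWith K v) (a : Ix d) (X : P d) :
    ‖pd a v X‖ ≤ K * ‖(eb a : P d)‖ := by
  unfold pd
  calc ‖fderiv ℝ v X (eb a)‖ ≤ ‖fderiv ℝ v X‖ * ‖(eb a : P d)‖ := ContinuousLinearMap.le_opNorm _ _
    _ ≤ K * ‖(eb a : P d)‖ := by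
      gcongr
      exact norm_fderiv_le_of_lipschitz ℝ hv

theorem var1a_zero {v : P d → ℝ} {B : ℝ} (hB : ∀ X, B ≤ ‖X‖ → v X = 0) (a : Ix d) (X : P d)
    (hX : B < ‖X‖) : pd a v X = 0 := by
  unfold pd
  have h : v =ᶠ[𝓝 X] fun _ => 0 := by
    have h1 : ∀ᶠ Y in 𝓝 X, B < ‖Y‖ := continuous_norm.continuousAt.eventually (lt_mem_nhds hX)
    exact h1.mono fun Y hY => hB Y hY.le
  rw [h.fderiv_eq]
  simp

theorem var1a_meas (v : P d → ℝ) (a : Ix d) : Measurable (pd a v) :=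
  measurable_fderiv_apply_const ℝ v (eb a)

theorem var1a_int {w v : P d → ℝ} (hw : LipB w) (hv : LipB v) (a : Ix d) :
    Integrable (fun X => pd a w X * pd a v X) := by
  obtain ⟨K, hK⟩ := hw.lip
  obtain ⟨L, hL⟩ := hv.lip
  obtain ⟨B, hB⟩ := hw.supp
  have hcomp : IsCompact (Metric.closedBall (0 : P d) |B|) := isCompact_closedBall _ _
  have hmeas : AEStronglyMeasurable (fun X => pd a w X * pd a v X) :=
    ((var1a_meas w a).mul (var1a_meas v a)).aestronglyMeasurable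
  have hon : IntegrableOn (fun X => pd a w X * pd a v X) (Metric.closedBall (0 : P d) |B|) := by
    refine Measure.integrableOn_of_bounded (M := (K * ‖(eb a : P d)‖) * (L * ‖(eb a : P d)‖))
      hcomp.measure_lt_top.ne hmeas ?_
    refine Eventually.of_forall fun X => ?_
    rw [norm_mul]
    have h2 := var1a_bound hK a X
    have h3 := var1a_bound hL a X
    gcongr
  rw [← integrableOn_univ]
  refine hon.of_forall_sdiff_eq_zero MeasurableSet.univ ?_
  intro X hX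
  have h5 : |B| < ‖X‖ := by
    have := hX.2
    rwa [mem_closedBall_zero_iff, not_le] at this
  rw [var1a_zero hB a X ((le_abs_self B).trans_lt h5), zero_mul]

/-- derivatives of Lipschitz functions of bounded support are bounded, measurable, integrable. -/
theorem lipB_integrable_sq {w : P d → ℝ} (hw : LipB w) : Integrable (fun X => ∑ a : Ix d, (pd a w X) ^ 2) := by
  refine integrable_finsetSum _ fun a _ => ?_
  simp only [pow_two]
  exact var1a_int hw hw a

theorem lipB_integrable_mul {w v : P d → ℝ} (hw : LipB w) (hv : LipB v) :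
    Integrable (fun X => ∑ a : Ix d, pd a w X * pd a v X) :=
  integrable_finsetSum _ fun a _ => var1a_int hw hv a

theorem en_nonneg (ψ : E d → ℝ) (w : P d → ℝ) : 0 ≤ en ψ w :=
  integral_nonneg fun X => Finset.sum_nonneg fun a _ => sq_nonneg _

/-- `LipB` is a vector space. -/
theorem LipB.add {w v : P d → ℝ} (hw : LipB w) (hv : LipB v) : LipB (fun X => w X + v X) := by
  obtain ⟨K, hK⟩ := hw.lip
  obtain ⟨L, hL⟩ := hv.lip
  obtain ⟨B, hB⟩ := hw.supp
  obtain ⟨C, hC⟩ := hv.supp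
  refine ⟨⟨K + L, hK.add hL⟩, ⟨max B C, fun X hX => ?_⟩⟩
  rw [hB X ((le_max_left _ _).trans hX), hC X ((le_max_right _ _).trans hX), add_zero]

theorem LipB.sub {w v : P d → ℝ} (hw : LipB w) (hv : LipB v) : LipB (fun X => w X - v X) := by
  obtain ⟨K, hK⟩ := hw.lip
  obtain ⟨L, hL⟩ := hv.lip
  obtain ⟨B, hB⟩ := hw.supp
  obtain ⟨C, hC⟩ := hv.supp
  refine ⟨⟨K + L, hK.sub hL⟩, ⟨max B C, fun X hX => ?_⟩⟩
  rw [hB X ((le_max_left _ _).trans hX), hC X ((le_max_right _ _).trans hX), sub_zero]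

theorem LipB.smul {w : P d → ℝ} (hw : LipB w) (c : ℝ) : LipB (fun X => c * w X) := by
  obtain ⟨K, hK⟩ := hw.lip
  obtain ⟨B, hB⟩ := hw.supp
  refine ⟨⟨‖c‖₊ * K, ?_⟩, ⟨B, fun X hX => ?_⟩⟩
  · have h := (lipschitzWith_smul c).comp hK
    exact h
  · rw [hB X hX, mul_zero]

/-- a.e. linearity of `pd` on Lipschitz functions (Rademacher). -/
theorem lipB_pd_add {w v : P d → ℝ} (hw : LipB w) (hv : LipB v) :
    ∀ᵐ X, ∀ a : Ix d, pd a (fun Y => w Y + v Y) X = pd a w X + pd a v X := by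
  obtain ⟨K, hK⟩ := hw.lip
  obtain ⟨L, hL⟩ := hv.lip
  filter_upwards [intPd_ae hK, intPd_ae hL] with X h1 h2 a
  unfold pd
  rw [fderiv_fun_add h1 h2]
  simp

theorem lipB_pd_sub {w v : P d → ℝ} (hw : LipB w) (hv : LipB v) :
    ∀ᵐ X, ∀ a : Ix d, pd a (fun Y => w Y - v Y) X = pd a w X - pd a v X := by
  obtain ⟨K, hK⟩ := hw.lip
  obtain ⟨L, hL⟩ := hv.lip
  filter_upwards [intPd_ae hK, intPd_ae hL] with X h1 h2 a
  unfold pd
  rw [fderiv_fun_sub h1 h2]
  simp

theorem lipB_pd_smul {w : P d → ℝ} (hw : LipB w) (c : ℝ) :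
    ∀ᵐ X, ∀ a : Ix d, pd a (fun Y => c * w Y) X = c * pd a w X := by
  obtain ⟨K, hK⟩ := hw.lip
  filter_upwards [intPd_ae hK] with X h1 a
  unfold pd
  rw [fderiv_const_mul h1 c]
  simp

end HG
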