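import Pool.Agent.W_MP_825298_an.Var1a
import Pool.Agent.W_MP_825298_an.IntPd

open MeasureTheory Set Filter Topology
open scoped ENNReal NNReal BigOperators

namespace HG
variable {d : ℕ}

/-- product of a Lipschitz function with bounded support and a `C¹` function is Lipschitz -/
theorem ibp_lip_mul {v g : P d → ℝ} {K : ℝ≥0} (hv : LipschitzWith K v) {B : ℝ}
    (hB : ∀ X, B ≤ ‖X‖ → v X = 0) (hg : ContDiff ℝ 1 g) :
    ∃ K' : ℝ≥0, LipschitzWith K' (fun X => v X * g X) := by
  have hcomp : IsCompact (Metric.closedBall (0 : P d) |B|) := isCompact_closedBall _ _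
  obtain ⟨L, hL⟩ : ∃ L : ℝ≥0, LipschitzOnWith L g (Metric.closedBall (0 : P d) |B|) :=
    hg.contDiffOn.exists_lipschitzOnWith one_ne_zero (convex_closedBall _ _) hcomp
  obtain ⟨g', hg', hgg⟩ := hL.extend_real
  obtain ⟨C, hC⟩ := hcomp.exists_bound_of_continuousOn hg'.continuous.continuousOn
  obtain ⟨C0, hC0⟩ := hcomp.exists_bound_of_continuousOn hv.continuous.continuousOn
  have hout : ∀ X : P d, X ∉ Metric.closedBall (0 : P d) |B| → v X = 0 := by
    intro X hX
    apply hB
    rw [mem_closedBall_zero_iff, not_le] at hX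
    exact (le_abs_self B).trans hX.le
  have hfun : ∀ X, v X * g X = v X * g' X := by
    intro X
    by_cases hX : X ∈ Metric.closedBall (0 : P d) |B|
    · rw [hgg hX]
    · rw [hout X hX]
      ring
  have hC' : 0 ≤ C := by
    have := hC 0 (by simp)
    exact (norm_nonneg _).trans this
  have hC0' : 0 ≤ C0 := by
    have := hC0 0 (by simp)
    exact (norm_nonneg _).trans this
  have key : ∀ X Y : P d, X ∈ Metric.closedBall (0 : P d) |B| →
      |v X * g' X - v Y * g' Y| ≤ (K * C + C0 * L) * dist X Y := by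
    intro X Y hX
    have h1 : |v Y| ≤ C0 := by
      by_cases hY : Y ∈ Metric.closedBall (0 : P d) |B|
      · exact hC0 Y hY
      · rw [hout Y hY]
        simpa using hC0'
    have h2 : |g' X| ≤ C := hC X hX
    have h3 : |v X - v Y| ≤ K * dist X Y := by
      have := hv.dist_le_mul X Y
      rwa [Real.dist_eq] at this
    have h4 : |g' X - g' Y| ≤ L * dist X Y := by
      have := hg'.dist_le_mul X Y
      rwa [Real.dist_eq] at this
    calc |v X * g' X - v Y * g' Y| = |(v X - v Y) * g' X + v Y * (g' X - g' Y)| := by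
          congr 1
          ring
      _ ≤ |(v X - v Y) * g' X| + |v Y * (g' X - g' Y)| := abs_add_le _ _
      _ = |v X - v Y| * |g' X| + |v Y| * |g' X - g' Y| := by rw [abs_mul, abs_mul]
      _ ≤ (K * dist X Y) * C + C0 * (L * dist X Y) := by
          gcongr
      _ = (K * C + C0 * L) * dist X Y := by ring
  refine ⟨K * C.toNNReal + C0.toNNReal * L, LipschitzWith.of_dist_le_mul fun X Y => ?_⟩
  rw [Real.dist_eq]
  push_cast
  rw [Real.coe_toNNReal C hC', Real.coe_toNNReal C0 hC0', hfun, hfun]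
  by_cases hX : X ∈ Metric.closedBall (0 : P d) |B|
  · exact key X Y hX
  · by_cases hY : Y ∈ Metric.closedBall (0 : P d) |B|
    · rw [abs_sub_comm, dist_comm]
      exact key Y X hY
    · rw [hout X hX, hout Y hY]
      simp
      positivity

theorem ibp_null {ψ : E d → ℝ} (hψ : Continuous ψ) :
    volume {X : P d | ψ X.1 = X.2} = 0 := by
  have hm : MeasurableSet {X : P d | ψ X.1 = X.2} :=
    (isClosed_eq (hψ.comp continuous_fst) continuous_snd).measurableSet
  have h1 : (volume : Measure (P d)) = (volume : Measure (E d)).prod (volume : Measure ℝ) := rfl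
  rw [h1, Measure.measure_prod_null hm]
  refine Eventually.of_forall fun x => ?_
  have h2 : Prod.mk x ⁻¹' {X : P d | ψ X.1 = X.2} = {ψ x} := by
    ext t
    simp only [mem_preimage, mem_ofPred_eq, mem_singleton_iff]
    exact eq_comm
  change volume (Prod.mk x ⁻¹' {X : P d | ψ X.1 = X.2}) = 0
  rw [h2]
  simp

theorem ibp_pd_bound {v : P d → ℝ} {K : ℝ≥0} (hv : LipschitzWith K v) (a : Ix d) (X : P d) :
    ‖pd a v X‖ ≤ K * ‖(eb a : P d)‖ := by
  unfold pd
  calc ‖fderiv ℝ v X (eb a)‖ ≤ ‖fderiv ℝ v X‖ * ‖(eb a : P d)‖ := ContinuousLinearMap.le_opNorm _ _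
    _ ≤ K * ‖(eb a : P d)‖ := by
      gcongr
      exact norm_fderiv_le_of_lipschitz ℝ hv

theorem ibp_pd_zero {v : P d → ℝ} {B : ℝ} (hB : ∀ X, B ≤ ‖X‖ → v X = 0) (a : Ix d) (X : P d)
    (hX : B < ‖X‖) : pd a v X = 0 := by
  unfold pd
  have h : v =ᶠ[𝓝 X] fun _ => 0 := by
    have h1 : ∀ᶠ Y in 𝓝 X, B < ‖Y‖ := continuous_norm.continuousAt.eventually (lt_mem_nhds hX)
    exact h1.mono fun Y hY => hB Y hY.le
  rw [h.fderiv_eq]
  simp

theorem ibp_integrable {v β : P d → ℝ} {K : ℝ≥0} (hv : LipschitzWith K v) {B : ℝ}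
    (hB : ∀ X, B ≤ ‖X‖ → v X = 0) (a : Ix d) (hβ : Continuous β) :
    Integrable (fun X => β X * pd a v X) := by
  have hcomp : IsCompact (Metric.closedBall (0 : P d) |B|) := isCompact_closedBall _ _
  obtain ⟨C, hC⟩ := hcomp.exists_bound_of_continuousOn hβ.continuousOn
  have hmeas : AEStronglyMeasurable (fun X => β X * pd a v X) := by
    have h1 : Measurable (fun X : P d => fderiv ℝ v X (eb a)) := measurable_fderiv_apply_const ℝ v (eb a)
    exact (hβ.measurable.mul h1).aestronglyMeasurable
  have hon : IntegrableOn (fun X => β X * pd a v X) (Metric.closedBall (0 : P d) |B|) := by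
    refine Measure.integrableOn_of_bounded (M := C * (K * ‖(eb a : P d)‖)) hcomp.measure_lt_top.ne hmeas ?_
    refine (ae_restrict_iff' hcomp.measurableSet).2 (Eventually.of_forall fun X hX => ?_)
    rw [norm_mul]
    have h2 := hC X hX
    have h3 := ibp_pd_bound hv a X
    have h4 : 0 ≤ C := (norm_nonneg _).trans h2
    gcongr
  rw [← integrableOn_univ]
  refine hon.of_forall_sdiff_eq_zero MeasurableSet.univ ?_
  intro X hX
  have h5 : |B| < ‖X‖ := by
    have := hX.2
    rwa [mem_closedBall_zero_iff, not_le] at this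
  rw [ibp_pd_zero hB a X ((le_abs_self B).trans_lt h5), mul_zero]

/-- Integration by parts: `v` Lipschitz with bounded support and zero on the graph, `β` of class `C²`.
Proof: `v₀(x,t) = v(x, max t (ψ x))` is Lipschitz, vanishes on and below the graph, and equals `v` above the graph; it has bounded
support; `∑_a ∫ ∂_a(v₀ ∂_aβ) = 0` by `integral_pd_eq_zero` (`v₀ ∂_aβ` is Lipschitz with bounded support). -/
theorem ibp_var {M : ℝ≥0} {ψ : E d → ℝ} (hψ : LipschitzWith M ψ) {v : P d → ℝ} (hv : LipB v)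
    (h0 : ∀ x, v (x, ψ x) = 0) {β : P d → ℝ} (hβ : ContDiff ℝ 2 β) :
    ∫ X in above ψ, ∑ a : Ix d, pd a β X * pd a v X = - ∫ X in above ψ, v X * lap β X := by
  obtain ⟨K, hK⟩ := hv.lip
  obtain ⟨B, hB⟩ := hv.supp
  set v0 : P d → ℝ := fun X => v (X.1, max X.2 (ψ X.1)) with hv0
  have hcut : ∃ K0 : ℝ≥0, LipschitzWith K0 v0 := by
    have h1 : LipschitzWith (max 1 (max 1 (M * 1))) (fun X : P d => ((X.1, max X.2 (ψ X.1)) : P d)) :=
      (LipschitzWith.prod_fst).prodMk ((LipschitzWith.prod_snd).max (hψ.comp LipschitzWith.prod_fst))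
    exact ⟨_, hK.comp h1⟩
  obtain ⟨K0, hK0⟩ := hcut
  have hlow : ∀ X : P d, X.2 ≤ ψ X.1 → v0 X = 0 := by
    intro X hX
    simp only [hv0]
    rw [max_eq_right hX]
    exact h0 _
  have hup : ∀ X : P d, ψ X.1 ≤ X.2 → v0 X = v X := by
    intro X hX
    simp only [hv0]
    rw [max_eq_left hX]
  have hB0 : ∀ X, B ≤ ‖X‖ → v0 X = 0 := by
    intro X hX
    rcases le_total X.2 (ψ X.1) with h | h
    · exact hlow X h
    · rw [hup X h]
      exact hB X hX
  have hβ1 : ∀ a, ContDiff ℝ 1 (pd a β) := by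
    intro a
    have h1 : ContDiff ℝ 1 (fderiv ℝ β) := hβ.fderiv_right (m := 1) (by norm_num)
    exact h1.clm_apply contDiff_const
  have hzero : ∀ a, ∫ X, pd a (fun Y => v0 Y * pd a β Y) X = 0 := by
    intro a
    obtain ⟨K', hK'⟩ := ibp_lip_mul hK0 hB0 (hβ1 a)
    refine integral_pd_eq_zero hK' (B := B) ?_ a
    intro X hX
    rw [hB0 X hX, zero_mul]
  haveI : (volume : Measure (P d)).IsAddHaarMeasure := by
    change ((volume : Measure (E d)).prod (volume : Measure ℝ)).IsAddHaarMeasure
    infer_instance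
  have hae : ∀ᵐ X : P d, DifferentiableAt ℝ v0 X := hK0.ae_differentiableAt
  have hpd : ∀ a, (fun X => pd a (fun Y => v0 Y * pd a β Y) X) =ᵐ[volume]
      fun X => pd a β X * pd a v0 X + v0 X * pd a (pd a β) X := by
    intro a
    filter_upwards [hae] with X hX
    have h2 : DifferentiableAt ℝ (pd a β) X := (hβ1 a).differentiable one_ne_zero X
    have h3 : fderiv ℝ (fun Y => v0 Y * pd a β Y) X = v0 X • fderiv ℝ (pd a β) X + pd a β X • fderiv ℝ v0 X :=
      fderiv_fun_mul hX h2
    unfold pd at h3 ⊢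
    rw [h3]
    simp only [add_apply, smul_apply, smul_eq_mul]
    ring
  have hi1 : ∀ a, Integrable (fun X => pd a β X * pd a v0 X) := fun a =>
    ibp_integrable hK0 hB0 a (hβ1 a).continuous
  have hcs : HasCompactSupport v0 := by
    refine HasCompactSupport.intro (isCompact_closedBall (0 : P d) |B|) ?_
    intro X hX
    apply hB0
    rw [mem_closedBall_zero_iff, not_le] at hX
    exact (le_abs_self B).trans hX.le
  have hcpp : ∀ a, Continuous (fun X => pd a (pd a β) X) := by
    intro a
    have h1 : Continuous (fderiv ℝ (pd a β)) := (hβ1 a).continuous_fderiv one_ne_zero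
    exact h1.clm_apply continuous_const
  have hi2 : ∀ a, Integrable (fun X => v0 X * pd a (pd a β) X) := by
    intro a
    refine Continuous.integrable_of_hasCompactSupport (hK0.continuous.mul (hcpp a)) ?_
    exact hcs.mul_right
  have hsum : (∫ X, ∑ a : Ix d, pd a β X * pd a v0 X) + ∫ X, v0 X * lap β X = 0 := by
    have h1 : (∫ X, ∑ a : Ix d, pd a β X * pd a v0 X) = ∑ a : Ix d, ∫ X, pd a β X * pd a v0 X :=
      integral_finsetSum _ fun a _ => hi1 a
    have h2 : (∫ X, v0 X * lap β X) = ∑ a : Ix d, ∫ X, v0 X * pd a (pd a β) X := by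
      rw [← integral_finsetSum _ fun a _ => hi2 a]
      congr 1
      ext X
      unfold lap
      rw [Finset.mul_sum]
    rw [h1, h2, ← Finset.sum_add_distrib]
    refine Finset.sum_eq_zero fun a _ => ?_
    rw [← integral_add (hi1 a) (hi2 a), ← hzero a]
    exact integral_congr_ae (hpd a).symm
  have hopen : IsOpen (above ψ) := isOpen_lt (hψ.continuous.comp continuous_fst) continuous_snd
  have hms : MeasurableSet (above ψ) := hopen.measurableSet
  have e1 : (∫ X in above ψ, ∑ a : Ix d, pd a β X * pd a v X)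
      = ∫ X, ∑ a : Ix d, pd a β X * pd a v0 X := by
    rw [← integral_indicator hms]
    refine integral_congr_ae ?_
    have hnull : ∀ᵐ X : P d, ψ X.1 ≠ X.2 := by
      rw [ae_iff]
      simp only [ne_eq, not_not]
      exact ibp_null hψ.continuous
    filter_upwards [hnull] with X hX
    by_cases hX1 : X ∈ above ψ
    · rw [indicator_of_mem hX1]
      refine Finset.sum_congr rfl fun a _ => ?_
      have h1 : v0 =ᶠ[𝓝 X] v := by
        filter_upwards [hopen.mem_nhds hX1] with Y hY
        exact hup Y (le_of_lt hY)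
      unfold pd
      rw [h1.fderiv_eq]
    · rw [indicator_of_notMem hX1]
      symm
      refine Finset.sum_eq_zero fun a _ => ?_
      have h2 : X.2 < ψ X.1 := lt_of_le_of_ne (not_lt.1 hX1) (Ne.symm hX)
      have h3 : IsOpen {Y : P d | Y.2 < ψ Y.1} := isOpen_lt continuous_snd (hψ.continuous.comp continuous_fst)
      have h1 : v0 =ᶠ[𝓝 X] fun _ => 0 := by
        filter_upwards [h3.mem_nhds h2] with Y hY
        exact hlow Y (le_of_lt hY)
      have h4 : pd a v0 X = 0 := by
        unfold pd
        rw [h1.fderiv_eq]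
        simp
      rw [h4, mul_zero]
  have e2 : (∫ X in above ψ, v X * lap β X) = ∫ X, v0 X * lap β X := by
    rw [← integral_indicator hms]
    congr 1
    ext X
    by_cases hX1 : X ∈ above ψ
    · rw [indicator_of_mem hX1, hup X (le_of_lt hX1)]
    · rw [indicator_of_notMem hX1, hlow X (not_lt.1 hX1), zero_mul]
  rw [e1, e2]
  linarith

end HG
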