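import Pool.Agent.W_MP_825298_an.Var3a

open MeasureTheory Set Filter Topology
open scoped ENNReal NNReal BigOperators

namespace HG
variable {d : ℕ}

/-- Consequence: `∫_{0<height≤T} v² ≤ T² en v` (slices, Fubini through the shear). -/
theorem slab_poincare {M : ℝ≥0} {ψ : E d → ℝ} (hψ : LipschitzWith M ψ) {v : P d → ℝ} (hv : LipB v)
    (h0 : ∀ x, v (x, ψ x) = 0) {T : ℝ} (hT : 0 ≤ T) :
    ∫ X in {X : P d | ψ X.1 < X.2 ∧ X.2 ≤ ψ X.1 + T}, (v X) ^ 2 ≤ T ^ 2 * en ψ v := by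
  obtain ⟨K, hK⟩ := hv.lip
  obtain ⟨B, hB⟩ := hv.supp
  have hvc : Continuous v := hK.continuous
  have hmp := measurePreserving_shear hψ
  have hemb : MeasurableEmbedding (fun X : P d => ((X.1, ψ X.1 + X.2) : P d)) :=
    (above_equiv hψ).measurableEmbedding
  have hpre : (fun X : P d => ((X.1, ψ X.1 + X.2) : P d)) ⁻¹'
      {X : P d | ψ X.1 < X.2 ∧ X.2 ≤ ψ X.1 + T} = (univ : Set (E d)) ×ˢ Ioc (0 : ℝ) T := by
    ext X
    simp
  have hint : Integrable (fun X : P d => (v X) ^ 2) := by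
    refine (hvc.pow 2).integrable_of_hasCompactSupport ?_
    refine HasCompactSupport.intro (isCompact_closedBall (0 : P d) B) ?_
    intro X hX
    rw [mem_closedBall_zero_iff, not_le] at hX
    simp [hB X hX.le]
  have hgi : IntegrableOn (fun X : P d => (v (X.1, ψ X.1 + X.2)) ^ 2)
      ((univ : Set (E d)) ×ˢ Ioc (0 : ℝ) T) :=
    ((hmp.integrable_comp_emb hemb (g := fun X => (v X) ^ 2)).2 hint).integrableOn
  rw [← hmp.setIntegral_preimage_emb hemb (fun X : P d => (v X) ^ 2), hpre]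
  rw [Measure.volume_eq_prod] at hgi ⊢
  rw [IntegrableOn, ← Measure.prod_restrict, Measure.restrict_univ] at hgi
  rw [← Measure.prod_restrict, Measure.restrict_univ, integral_prod_symm _ hgi]
  have hslice : ∀ s ∈ Ioc (0 : ℝ) T, ∫ x : E d, (v (x, ψ x + s)) ^ 2 ≤ T * en ψ v := fun s hs =>
    (slice_poincare hψ hv h0 (τ := fun _ => s) measurable_const (T := T)
      (fun _ => ⟨hs.1.le, hs.2⟩)).2
  have h1 : ∫ s in Ioc (0 : ℝ) T, ∫ x : E d, (v (x, ψ x + s)) ^ 2 ≤
      ∫ _ in Ioc (0 : ℝ) T, T * en ψ v :=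
    setIntegral_mono_on hgi.integral_prod_right
      (integrableOn_const (by simp)) measurableSet_Ioc hslice
  refine h1.trans (le_of_eq ?_)
  rw [setIntegral_const]
  simp [Measure.real, hT]
  ring

end HG
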