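import Pool.Agent.W_MP_825298_an.Var1b
import Pool.Agent.W_MP_825298_an.IntPd

open MeasureTheory Set Filter Topology
open scoped ENNReal NNReal BigOperators

namespace HG
variable {d : ℕ}

/-- The derivative of a Lipschitz function of bounded support vanishes off a ball. -/
theorem v3c_pd_support_subset_ball {u : P d → ℝ} {B : ℝ} (hB : ∀ X, B ≤ ‖X‖ → u X = 0) (a : Ix d) :
    Function.support (pd a u) ⊆ Metric.closedBall 0 B := by
  intro X hX
  by_contra hX'
  apply hX
  have h0 : u =ᶠ[𝓝 X] fun _ => 0 := by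
    have h1 : (Metric.closedBall (0 : P d) B)ᶜ ∈ 𝓝 X :=
      Metric.isClosed_closedBall.isOpen_compl.mem_nhds hX'
    filter_upwards [h1] with Y hY
    refine hB Y ?_
    simp only [Set.mem_compl_iff, Metric.mem_closedBall, dist_zero_right, not_le] at hY
    exact hY.le
  simp [pd, h0.fderiv_eq]

theorem v3c_lipB_pd_integrable {u : P d → ℝ} (hu : LipB u) (a : Ix d) : Integrable (pd a u) := by
  obtain ⟨K, hK⟩ := hu.lip
  obtain ⟨B, hB⟩ := hu.supp
  rw [← integrableOn_iff_integrable_of_support_subset (v3c_pd_support_subset_ball hB a)]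
  refine Measure.integrableOn_of_bounded (M := K * ‖(eb a : P d)‖)
    (isCompact_closedBall (0 : P d) B).measure_lt_top.ne ?_ ?_
  · exact (measurable_fderiv_apply_const ℝ u (eb a)).aestronglyMeasurable
  · refine ae_of_all _ fun X => ?_
    exact (ContinuousLinearMap.le_opNorm _ _).trans
      (mul_le_mul_of_nonneg_right (norm_fderiv_le_of_lipschitz ℝ hK) (norm_nonneg _))

theorem LipB.v3cCont {u : P d → ℝ} (hu : LipB u) : Continuous u := by
  obtain ⟨K, hK⟩ := hu.lip
  exact hK.continuous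

theorem LipB.v3cComp {u : P d → ℝ} (hu : LipB u) : HasCompactSupport u := by
  obtain ⟨B, hB⟩ := hu.supp
  refine HasCompactSupport.intro (isCompact_closedBall (0 : P d) B) fun X hX => hB X ?_
  simp only [Metric.mem_closedBall, dist_zero_right, not_le] at hX
  exact hX.le

theorem LipB.v3cBound {u : P d → ℝ} (hu : LipB u) : ∃ C : ℝ, 0 ≤ C ∧ ∀ X, |u X| ≤ C := by
  obtain ⟨C, hC⟩ := hu.v3cComp.exists_bound_of_continuous hu.v3cCont
  exact ⟨C, (norm_nonneg _).trans (hC 0), fun X => hC X⟩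

theorem v3c_lipB_of_contDiff {u : P d → ℝ} (hu : ContDiff ℝ 1 u) (hc : HasCompactSupport u) : LipB u := by
  refine ⟨?_, ?_⟩
  · obtain ⟨K, hK⟩ := hu.lipschitzWith_of_hasCompactSupport hc one_ne_zero
    exact ⟨K, hK⟩
  · obtain ⟨R, hR⟩ := hc.isCompact.isBounded.subset_closedBall (0 : P d)
    refine ⟨R + 1, fun X hX => ?_⟩
    by_contra h
    have h1 : X ∈ tsupport u := subset_tsupport _ h
    have h2 := hR h1
    simp only [Metric.mem_closedBall, dist_zero_right] at h2
    linarith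

theorem LipB.v3cMul {u v : P d → ℝ} (hu : LipB u) (hv : LipB v) : LipB (fun X => u X * v X) := by
  obtain ⟨Cu, hCu0, hCu⟩ := hu.v3cBound
  obtain ⟨Cv, hCv0, hCv⟩ := hv.v3cBound
  obtain ⟨Ku, hKu⟩ := hu.lip
  obtain ⟨Kv, hKv⟩ := hv.lip
  obtain ⟨B, hB⟩ := hu.supp
  refine ⟨⟨Real.toNNReal (Cu * Kv + Cv * Ku), ?_⟩, ⟨B, fun X hX => by rw [hB X hX, zero_mul]⟩⟩
  refine LipschitzWith.of_dist_le_mul fun X Y => ?_
  have hnn : 0 ≤ Cu * Kv + Cv * Ku := by positivity
  rw [Real.coe_toNNReal _ hnn, Real.dist_eq]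
  have h1 := hKu.dist_le_mul X Y
  have h2 := hKv.dist_le_mul X Y
  rw [Real.dist_eq] at h1 h2
  have h3 : u X * v X - u Y * v Y = u X * (v X - v Y) + v Y * (u X - u Y) := by ring
  rw [h3]
  calc |u X * (v X - v Y) + v Y * (u X - u Y)| ≤ |u X * (v X - v Y)| + |v Y * (u X - u Y)| := abs_add_le _ _
    _ = |u X| * |v X - v Y| + |v Y| * |u X - u Y| := by rw [abs_mul, abs_mul]
    _ ≤ Cu * (Kv * dist X Y) + Cv * (Ku * dist X Y) := by
        refine add_le_add (mul_le_mul (hCu X) h2 (abs_nonneg _) hCu0)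
          (mul_le_mul (hCv Y) h1 (abs_nonneg _) hCv0)
    _ = (Cu * Kv + Cv * Ku) * dist X Y := by ring

theorem v3c_pd_tsupport_subset (a : Ix d) (θ : P d → ℝ) : tsupport (pd a θ) ⊆ tsupport θ := by
  refine closure_minimal ?_ (isClosed_tsupport θ)
  intro X hX
  by_contra h
  apply hX
  have h0 : fderiv ℝ θ X = 0 := by
    by_contra h1
    exact h (support_fderiv_subset ℝ h1)
  simp [pd, h0]

theorem v3c_pd_contDiff {m n : WithTop ℕ∞} (hmn : m + 1 ≤ n) {θ : P d → ℝ} (hθ : ContDiff ℝ n θ) (a : Ix d) :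
    ContDiff ℝ m (pd a θ) :=
  (hθ.fderiv_right hmn).clm_apply contDiff_const

theorem v3c_pd_hasCompactSupport {θ : P d → ℝ} (hc : HasCompactSupport θ) (a : Ix d) :
    HasCompactSupport (pd a θ) :=
  hc.isCompact.of_isClosed_subset (isClosed_tsupport _) (v3c_pd_tsupport_subset a θ)

/-- `∫ ∇w·∇θ = -∫ w Δθ`. -/
theorem v3c_integral_grad_eq {w θ : P d → ℝ} (hw : LipB w) (hθ : ContDiff ℝ 2 θ) (hc : HasCompactSupport θ) :
    ∫ X, ∑ a : Ix d, pd a w X * pd a θ X = - ∫ X, w X * lap θ X := by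
  have hg : ∀ a : Ix d, LipB (pd a θ) := fun a =>
    v3c_lipB_of_contDiff (v3c_pd_contDiff (m := 1) (n := 2) (by norm_num) hθ a) (v3c_pd_hasCompactSupport hc a)
  have hu : ∀ a : Ix d, LipB (fun X => w X * pd a θ X) := fun a => hw.v3cMul (hg a)
  have h0 : ∀ a : Ix d, ∫ X, pd a (fun X => w X * pd a θ X) X = 0 := by
    intro a
    obtain ⟨K, hK⟩ := (hu a).lip
    obtain ⟨B, hB⟩ := (hu a).supp
    exact integral_pd_eq_zero hK hB a
  have hsum : ∫ X, ∑ a : Ix d, pd a (fun X => w X * pd a θ X) X = 0 := by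
    rw [integral_finsetSum _ (fun a _ => v3c_lipB_pd_integrable (hu a) a)]
    exact Finset.sum_eq_zero fun a _ => h0 a
  obtain ⟨K, hK⟩ := hw.lip
  have : (volume : Measure (P d)).IsAddHaarMeasure :=
    inferInstanceAs ((volume : Measure (Fin d → ℝ)).prod (volume : Measure ℝ)).IsAddHaarMeasure
  have hdiff := hK.ae_differentiableAt (μ := (volume : Measure (P d)))
  have hae : ∀ᵐ X : P d, ∑ a : Ix d, pd a (fun X => w X * pd a θ X) X
      = (∑ a : Ix d, pd a w X * pd a θ X) + w X * lap θ X := by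
    filter_upwards [hdiff] with X hX
    rw [lap, Finset.mul_sum, ← Finset.sum_add_distrib]
    refine Finset.sum_congr rfl fun a _ => ?_
    have hd : DifferentiableAt ℝ (pd a θ) X :=
      (v3c_pd_contDiff (m := 1) (n := 2) (by norm_num) hθ a).differentiable one_ne_zero X
    have h1 : fderiv ℝ (fun X => w X * pd a θ X) X = w X • fderiv ℝ (pd a θ) X + pd a θ X • fderiv ℝ w X :=
      fderiv_fun_mul hX hd
    show fderiv ℝ (fun X => w X * pd a θ X) X (eb a) = _
    rw [h1]
    simp only [add_apply, smul_apply, smul_eq_mul]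
    show w X * pd a (pd a θ) X + pd a θ X * pd a w X = _
    ring
  rw [integral_congr_ae hae, integral_add] at hsum
  · linarith
  · exact lipB_integrable_mul hw (v3c_lipB_of_contDiff (hθ.of_le (by norm_num)) hc)
  · refine Continuous.integrable_of_hasCompactSupport ?_ ?_
    · refine hw.v3cCont.mul ?_
      unfold lap
      refine continuous_finsetSum _ fun a _ => ?_
      exact (v3c_pd_contDiff (m := 0) (n := 1) (by norm_num)
        (v3c_pd_contDiff (m := 1) (n := 2) (by norm_num) hθ a) a).continuous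
    · exact hw.v3cComp.mul_right

/-- First variation: `(∫ w Δθ)² ≤ (en w - inf) en θ`:
`en(w+tθ) ≥ inf` for all `t` gives a nonnegative quadratic in `t`; `∫_{above ψ} ∇w·∇θ = ∫ ∇w·∇θ = -∫ wΔθ`
(`integral_pd_eq_zero` for `w ∂_aθ`). -/
theorem first_variation {M : ℝ≥0} {ψ ζ : E d → ℝ} (hψ : LipschitzWith M ψ) {w : P d → ℝ} (hw : Comp ψ ζ w)
    {θ : P d → ℝ} (hθ : ContDiff ℝ 2 θ) (hc : HasCompactSupport θ) (hs : tsupport θ ⊆ above ψ) :
    (∫ X, w X * lap θ X) ^ 2 ≤ (en ψ w - enInf ψ ζ) * en ψ θ := by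
  have hψm : Measurable ψ := hψ.continuous.measurable
  have hL : LipB θ := v3c_lipB_of_contDiff (hθ.of_le (by norm_num)) hc
  have hz : ∀ X, X ∉ above ψ → θ X = 0 := fun X hX => image_eq_zero_of_notMem_tsupport fun h => hX (hs h)
  have hcomp : ∀ t : ℝ, Comp ψ ζ (fun X => w X + t * θ X) := by
    intro t
    refine { toLipB := hw.toLipB.add (hL.smul t), bd := fun x => ?_ }
    have h1 : θ (x, ψ x) = 0 := hz _ (by simp [above])
    simp only [hw.bd, h1]
    ring
  have hB : ∫ X in above ψ, ∑ a : Ix d, pd a w X * pd a θ X = - ∫ X, w X * lap θ X := by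
    rw [← v3c_integral_grad_eq hw.toLipB hθ hc]
    refine setIntegral_eq_integral_of_forall_compl_eq_zero fun X hX => ?_
    refine Finset.sum_eq_zero fun a _ => ?_
    have h1 : pd a θ X = 0 :=
      image_eq_zero_of_notMem_tsupport fun h => hX (hs (v3c_pd_tsupport_subset a θ h))
    rw [h1, mul_zero]
  have hq : ∀ t : ℝ, 0 ≤ en ψ θ * (t * t) + (2 * (- ∫ X, w X * lap θ X)) * t + (en ψ w - enInf ψ ζ) := by
    intro t
    have h1 := enInf_le (hcomp t)
    rw [en_expand ψ hψm hw.toLipB hL t, hB] at h1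
    nlinarith [h1]
  have hd := discrim_le_zero hq
  unfold discrim at hd
  nlinarith [hd]

end HG
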